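import Pool.Agent.H11.Base1
import Pool.Agent.H11.GDefs

set_option autoImplicit false

namespace Pool.Agent.H25.CB
open Pool.Agent.H11.PT

abbrev F3 := List (Lit × Lit × Lit)

/-- number of variables -/
def nv (φ : F3) : ℕ := (φ.map fun c => c.1.1 + c.2.1.1 + c.2.2.1).sum + 1

/-- the literal at occurrence `o` -/
def lit (φ : F3) (o : ℕ) : Lit :=
  let c := φ.getD (o / 3) ((0, true), (0, true), (0, true))
  if o % 3 = 0 then c.1 else if o % 3 = 1 then c.2.1 else c.2.2

@[fun_prop] theorem nv_pt : PT nv := by unfold nv; fun_prop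
@[fun_prop] theorem lit_pt {α : Type} [Enc α] {f : α → F3} {g : α → ℕ} (hf : PT f) (hg : PT g) :
    PT fun x => lit (f x) (g x) := by unfold lit; fun_prop

theorem lit_lt (φ : F3) (o : ℕ) : (lit φ o).1 < nv φ := by
  have : ∀ c ∈ φ, c.1.1 + c.2.1.1 + c.2.2.1 < nv φ := fun c hc =>
    Nat.lt_succ_of_le (List.single_le_sum (by simp) _ (List.mem_map_of_mem hc))
  unfold lit
  by_cases h : o / 3 < φ.length
  · have := this _ (List.getElem_mem h)
    simp only [List.getD_eq_getElem _ _ h]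
    split_ifs <;> omega
  · simp only [List.getD_eq_default _ _ (not_lt.1 h)]
    split_ifs <;> exact Nat.succ_pos _

theorem sat_iff (φ : F3) : SAT3 φ ↔
    ∃ σ : ℕ → Bool, ∀ j < φ.length, ∃ i < 3, σ (lit φ (3 * j + i)).1 = (lit φ (3 * j + i)).2 := by
  refine exists_congr fun σ => List.forall_mem_iff_forall_getElem.trans
    (forall_congr' fun j => forall_congr' fun hj => ?_)
  have e : ∀ i < 3, (3 * j + i) / 3 = j ∧ (3 * j + i) % 3 = i := fun i hi => by omega
  simp only [Nat.exists_lt_succ_right, lit, e 0 (by omega), e 1 (by omega), e 2 (by omega),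
    List.getD_eq_getElem _ _ hj]
  simp [or_assoc]

/-- independent set -/
def IS (y : ℕ × List (ℕ × ℕ) × ℕ) : Prop :=
  ∃ I : Finset ℕ, (∀ v ∈ I, v < y.1) ∧ y.2.2 ≤ I.card ∧ ∀ e ∈ y.2.1, ¬ (e.1 ∈ I ∧ e.2 ∈ I)

def ISV (y : ℕ × List (ℕ × ℕ) × ℕ) : Prop := y.2.2 ≤ y.1 ∧ ∀ e ∈ y.2.1, e.1 < e.2 ∧ e.2 < y.1

def toIS (φ : F3) : ℕ × List (ℕ × ℕ) × ℕ :=
  (3 * φ.length, (List.range (3 * φ.length) ×ˢ List.range (3 * φ.length)).filter
    fun p => decide (p.1 < p.2 ∧ (p.1 / 3 = p.2 / 3 ∨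
      ((lit φ p.1).1 = (lit φ p.2).1 ∧ ¬ (lit φ p.1).2 = (lit φ p.2).2))), φ.length)

theorem hard_IS : HardFor InNP ISV IS := by
  refine hard_SAT3.hardFor.red toIS (by unfold toIS; fun_prop) fun φ _ =>
    ⟨⟨Nat.le_mul_of_pos_left _ three_pos, ?_⟩, ?_⟩
  · rintro ⟨a, b⟩ h
    simp only [toIS, List.mem_filter, List.mem_product, List.mem_range, decide_eq_true_eq] at h
    exact ⟨h.2.1, h.1.2⟩
  rw [sat_iff]
  simp only [IS, toIS, Prod.forall, List.mem_filter, List.mem_product, List.mem_range,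
    decide_eq_true_eq]
  constructor
  · rintro ⟨σ, h⟩
    choose! i i1 i2 using h
    refine ⟨(Finset.range φ.length).image fun j => 3 * j + i j, ?_, ?_, ?_⟩
    · simp only [Finset.mem_image, Finset.mem_range]
      rintro _ ⟨j, hj, rfl⟩
      have := i1 j hj
      omega
    · rw [Finset.card_image_of_injOn, Finset.card_range]
      intro a ha b hb e
      have := i1 a (by simpa using ha)
      have := i1 b (by simpa using hb)
      simp only at e
      omega
    · simp only [Finset.mem_image, Finset.mem_range]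
      rintro _ _ ⟨-, h1, h2⟩ ⟨⟨a, ha, rfl⟩, b, hb, rfl⟩
      have := i1 a ha
      have := i1 b hb
      rcases h2 with h2 | h2
      · have : a = b := by omega
        subst this
        omega
      · exact h2.2 (by rw [← i2 a ha, ← i2 b hb, h2.1])
  · rintro ⟨I, h1, h2, h3⟩
    have h4 : ∀ a ∈ I, ∀ b ∈ I, a / 3 = b / 3 ∨
        ((lit φ a).1 = (lit φ b).1 ∧ (lit φ a).2 ≠ (lit φ b).2) → a = b := fun a ha b hb h => by
      rcases lt_trichotomy a b with e | e | e
      · exact (h3 a b ⟨⟨h1 a ha, h1 b hb⟩, e, h⟩ ⟨ha, hb⟩).elim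
      · exact e
      · exact (h3 b a ⟨⟨h1 b hb, h1 a ha⟩, e, h.imp .symm fun h => ⟨h.1.symm, h.2.symm⟩⟩
          ⟨hb, ha⟩).elim
    have h5 : I.image (· / 3) = Finset.range φ.length := by
      refine Finset.eq_of_subset_of_card_le (fun a ha => ?_) ?_
      · obtain ⟨b, hb, rfl⟩ := Finset.mem_image.1 ha
        have := h1 b hb
        simp only [Finset.mem_range]
        omega
      · rwa [Finset.card_image_of_injOn fun a ha b hb e => h4 a ha b hb (.inl e), Finset.card_range]
    refine ⟨fun v => decide (∃ a ∈ I, lit φ a = (v, true)), fun j hj => ?_⟩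
    obtain ⟨a, ha, rfl⟩ := Finset.mem_image.1 (h5.ge (Finset.mem_range.2 hj))
    refine ⟨a % 3, by omega, ?_⟩
    rw [Nat.div_add_mod]
    cases e : (lit φ a).2
    · refine decide_eq_false fun ⟨b, hb, e'⟩ => ?_
      have := h4 a ha b hb (.inr (by simp [e, e']))
      rw [this, e'] at e
      exact absurd e (by simp)
    · exact decide_eq_true ⟨a, ha, Prod.ext rfl e⟩

end Pool.Agent.H25.CB
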