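import Pool.Agent.H11.Base1
import Pool.Agent.H11.GDefs

set_option autoImplicit false

namespace Pool.Agent.H25.BN
open Pool.Agent.H11.PT

/-- naturals written in binary -/
structure Bn where
  v : ℕ

def Bn.l (n : Bn) : List (Bool × Bool) := n.v.bits.map fun b => (b, !b)
instance : Enc Bn := ⟨fun n => Enc.tr n.l⟩

variable {α : Type} [Enc α]

theorem bin_cons (b : Bool) (l : List Bool) : bin (b :: l) = b.toNat + 2 * bin l := by
  simp [bin, Nat.ofDigits_cons]

@[simp] theorem bin_nil : bin [] = 0 := rfl

def nrm (l : List Bool) : List Bool :=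
  l.foldr (fun b c => bif c.isEmpty && !b then [] else b :: c) []

theorem nrm_eq (l : List Bool) : nrm l = (bin l).bits := by
  induction l with
  | nil => simp [nrm]
  | cons b l ih =>
    have e : bin (b :: l) = Nat.bit b (bin l) := by rw [bin_cons, Nat.bit_val]; omega
    have : nrm (b :: l) = bif (nrm l).isEmpty && !b then [] else b :: nrm l := rfl
    rw [this, ih, e]
    by_cases h : bin l = 0 → b = true
    · rw [Nat.bits_append_bit _ _ h]
      by_cases h0 : bin l = 0
      · simp [h h0]
      · have : (bin l).bits ≠ [] := fun h1 => h0 (by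
          have := Nat.size_eq_bits_len (bin l); rw [h1] at this
          exact Nat.size_eq_zero.1 this.symm)
        cases hb : (bin l).bits with
        | nil => exact absurd hb this
        | cons c u => rfl
    · push Not at h
      have hb : b = false := by simpa using h.2
      simp [h.1, hb]

theorem bin_nrm (l : List Bool) : bin (nrm l) = bin l := by
  induction l with
  | nil => rfl
  | cons b l ih =>
    have : nrm (b :: l) = bif (nrm l).isEmpty && !b then [] else b :: nrm l := rfl
    rw [this, bin_cons, ← ih]
    cases h : nrm l <;> cases b <;> simp [bin_cons]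

theorem bin_bits (n : ℕ) : bin n.bits = n := by
  have := bin_nrm (toBits n)
  rw [nrm_eq] at this
  have e : bin (toBits n) = n := ofDigits_toBits n
  rwa [e] at this

@[fun_prop] theorem PT.bitsOf {f : α → Bn} (hf : PT f) : PT fun x => (f x).v.bits := by
  have h : PT fun n : Bn => n.l := PT.ofId fun _ => rfl
  have h2 : PT fun x => (f x).l.map fun p => p.1 := by fun_prop
  exact h2.of_eq fun x => by simp [Bn.l, Function.comp_def]

@[fun_prop] theorem PT.ofL {f : α → List Bool} (hf : PT f) : PT fun x => Bn.mk (bin (f x)) := by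
  have h : PT fun x => nrm (f x) :=
    PT.foldr_add (g := fun _ b (c : List Bool) => bif c.isEmpty && !b then [] else b :: c) hf
      (PT.const []) (by fun_prop) (fun _ _ => ()) 4 (by fun_prop) (fun _ c b => by
        have := sz_bool b
        have := sz_pos c
        cases c.isEmpty && !b <;> simp <;> omega)
  have h2 : PT fun x => (nrm (f x)).map fun b => (b, !b) := by fun_prop
  exact h2.cast (fun x => x) (fun _ => rfl) (fun x => by rw [nrm_eq]; rfl)

theorem PT.ofN {f : α → ℕ} (hf : PT f) : PT fun x => Bn.mk (f x) :=
  (PT.ofL hf.toBits).of_eq fun x => congrArg Bn.mk (ofDigits_toBits _)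

def pad (a b : List Bool) : List (Bool × Bool) :=
  (a ++ List.replicate b.length false).zip (b ++ List.replicate a.length false)

theorem bin_pad (a : List Bool) (k : ℕ) : bin (a ++ List.replicate k false) = bin a := by
  induction a with
  | nil => induction k with
    | zero => rfl
    | succ k ih => simp only [List.nil_append] at ih; simp [List.replicate_succ, bin_cons, ih]
  | cons b a ih => simp [bin_cons, ih]

theorem pad1 (a b : List Bool) : bin ((pad a b).map Prod.fst) = bin a := by
  rw [pad, List.map_fst_zip (by simp; omega), bin_pad]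

theorem pad2 (a b : List Bool) : bin ((pad a b).map Prod.snd) = bin b := by
  rw [pad, List.map_snd_zip (by simp; omega), bin_pad]

def ad : List (Bool × Bool) → Bool → List Bool
  | [], c => [c]
  | p :: z, c => ((p.1 ^^ p.2) ^^ c) :: ad z ((p.1 && p.2) || (c && (p.1 ^^ p.2)))

theorem bin_ad (z : List (Bool × Bool)) (c : Bool) :
    bin (ad z c) = bin (z.map Prod.fst) + bin (z.map Prod.snd) + c.toNat := by
  induction z generalizing c with
  | nil => simp [ad, bin_cons]
  | cons p z ih =>
    obtain ⟨x, y⟩ := p
    simp only [ad, bin_cons, ih, List.map_cons]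
    cases x <;> cases y <;> cases c <;> simp <;> omega

def adS (s : List Bool × Bool) (p : Bool × Bool) : List Bool × Bool :=
  (((p.1 ^^ p.2) ^^ s.2) :: s.1, (p.1 && p.2) || (s.2 && (p.1 ^^ p.2)))

theorem ad_fold (z : List (Bool × Bool)) (s : List Bool × Bool) :
    ((z.foldl adS s).2 :: (z.foldl adS s).1).reverse = s.1.reverse ++ ad z s.2 := by
  induction z generalizing s with
  | nil => simp [ad]
  | cons p z ih => rw [List.foldl_cons, ih]; simp [adS, ad]

def badd (a b : Bn) : Bn := ⟨a.v + b.v⟩

@[fun_prop] theorem PT.badd {f g : α → Bn} (hf : PT f) (hg : PT g) :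
    PT fun x => badd (f x) (g x) := by
  have h : PT fun x => (pad (f x).v.bits (g x).v.bits).foldl adS ([], false) :=
    PT.foldl_add (g := fun _ => adS) (by unfold pad; fun_prop) (by fun_prop)
      (by unfold adS; fun_prop) (fun _ _ => ()) 8 (by fun_prop) (fun _ c b => by
        obtain ⟨c1, c2⟩ := c
        have := sz_bool ((b.1 ^^ b.2) ^^ c2)
        have := sz_bool ((b.1 && b.2) || (c2 && (b.1 ^^ b.2)))
        simp only [adS, sz_pair, sz_cons, sz_unit]; omega)
  refine (PT.ofL (PT.cons h.snd h.fst).reverse).of_eq fun x => congrArg Bn.mk ?_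
  rw [ad_fold]; simp [bin_ad, pad1, pad2, bin_bits]

theorem le_fold (z : List (Bool × Bool)) (r : Bool) :
    z.foldl (fun r p => bif p.1 ^^ p.2 then p.2 else r) r = true ↔
      bin (z.map Prod.fst) < bin (z.map Prod.snd) ∨
        (bin (z.map Prod.fst) = bin (z.map Prod.snd) ∧ r = true) := by
  induction z generalizing r with
  | nil => simp
  | cons p z ih =>
    obtain ⟨x, y⟩ := p
    rw [List.foldl_cons, ih]
    simp only [List.map_cons, bin_cons]
    cases x <;> cases y <;> cases r <;> simp <;> omega

def ble (a b : Bn) : Bool := decide (a.v ≤ b.v)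

@[fun_prop] theorem PT.ble {f g : α → Bn} (hf : PT f) (hg : PT g) :
    PT fun x => ble (f x) (g x) := by
  have h : PT fun x => (pad (f x).v.bits (g x).v.bits).foldl
      (fun r p => bif p.1 ^^ p.2 then p.2 else r) true :=
    PT.foldl_add (g := fun _ r (p : Bool × Bool) => bif p.1 ^^ p.2 then p.2 else r)
      (by unfold pad; fun_prop) (by fun_prop)
      (by fun_prop) (fun _ _ => ()) 3 (by fun_prop) (fun _ c b => by
        have := sz_bool (bif b.1 ^^ b.2 then b.2 else c); omega)
  refine h.of_eq fun x => ?_
  rw [Bool.eq_iff_iff, le_fold, pad1, pad2, bin_bits, bin_bits]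
  simp [BN.ble]; omega

def half (a : Bn) : Bn := ⟨a.v / 2⟩

@[fun_prop] theorem PT.half {f : α → Bn} (hf : PT f) : PT fun x => half (f x) := by
  refine (PT.ofL (PT.bitsOf hf).tail).of_eq fun x => congrArg Bn.mk ?_
  have := bin_bits (f x).v
  cases h : (f x).v.bits with
  | nil => rw [h] at this; simp [← this]
  | cons b l => rw [h, bin_cons] at this; cases b <;> simp at this ⊢ <;> omega

/-- parity, in unary -/
def par (a : Bn) : ℕ := a.v % 2

@[fun_prop] theorem PT.par {f : α → Bn} (hf : PT f) : PT fun x => par (f x) := by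
  have h : PT fun x => bif (f x).v.bits.headD false then 1 else 0 := by fun_prop
  refine h.of_eq fun x => ?_
  have := bin_bits (f x).v
  cases h : (f x).v.bits with
  | nil => rw [h] at this; simp [BN.par, ← this]
  | cons b l => rw [h, bin_cons] at this; cases b <;> simp [BN.par] at this ⊢ <;> omega

/-- minimum with a unary bound, in unary -/
def cap (a : Bn) (k : ℕ) : ℕ := min a.v k

@[fun_prop] theorem PT.cap {f : α → Bn} {k : α → ℕ} (hf : PT f) (hk : PT k) :
    PT fun x => cap (f x) (k x) := by
  have h0 : PT fun p : α × ℕ => Bn.mk (p.2 + 1) := PT.ofN (by fun_prop)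
  have h : PT fun x => (List.range (k x)).countP fun i => BN.ble ⟨i + 1⟩ (f x) :=
    PT.countP (by fun_prop) (PT.ble h0 (by fun_prop))
  refine h.of_eq fun x => ?_
  unfold BN.cap
  induction k x with
  | zero => simp
  | succ n ih =>
    rw [List.range_succ, List.countP_append, ih]
    by_cases h : n < (f x).v <;> simp [BN.ble, h, Nat.succ_le_iff] <;> omega

theorem sz_bn (a : Bn) : sz a = 6 * a.v.size + 1 := by
  have : ∀ l : List Bool, sz (l.map fun b => (b, !b)) = 6 * l.length + 1 := by
    intro l
    induction l with
    | nil => rfl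
    | cons b l ih =>
      have : sz b + sz (!b) = 4 := by cases b <;> rfl
      simp only [List.map_cons, sz_cons, sz_pair, ih, List.length_cons]; omega
  rw [← Nat.size_eq_bits_len, ← this]; rfl

theorem sz_mono {a b : Bn} (h : a.v ≤ b.v) : sz a ≤ sz b := by
  have := Nat.size_le_size h
  simp only [sz_bn]; omega

theorem sz_badd (a b : Bn) : sz (badd a b) ≤ sz a + sz b + 6 := by
  have : (a.v + b.v).size ≤ a.v.size + b.v.size + 1 := by
    rw [Nat.size_le, pow_succ, pow_add]
    have h1 := Nat.lt_size_self a.v
    have h2 := Nat.lt_size_self b.v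
    have h3 : 0 < 2 ^ a.v.size := by positivity
    have h4 : 0 < 2 ^ b.v.size := by positivity
    nlinarith
  simp only [sz_bn, badd]; omega

def bsum (l : List Bn) : Bn := ⟨(l.map Bn.v).sum⟩

@[fun_prop] theorem PT.bsum {l : α → List Bn} (hl : PT l) : PT fun x => bsum (l x) := by
  have h : PT fun x => (l x).foldl BN.badd ⟨0⟩ :=
    PT.foldl_add (g := fun _ => BN.badd) hl (by fun_prop) (by fun_prop) (fun _ b => b) 6
      (by fun_prop) (fun _ c b => sz_badd c b)
  refine h.of_eq fun x => ?_
  have : ∀ (L : List Bn) (c : Bn), L.foldl BN.badd c = ⟨c.v + (L.map Bn.v).sum⟩ := by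
    intro L
    induction L with
    | nil => intro c; rfl
    | cons b L ih => intro c; simp [ih, BN.badd, add_assoc]
  simp [this, BN.bsum]

theorem sz_list_le {β : Type} [Enc β] (l : List β) (d : β) (k : ℕ) (h1 : l.length ≤ k)
    (h : ∀ e ∈ l, sz e ≤ sz d) : sz l ≤ sz (List.replicate k d) := by
  induction l generalizing k with
  | nil => exact sz_pos _
  | cons e l ih =>
    obtain ⟨k, rfl⟩ : ∃ j, k = j + 1 := ⟨k - 1, by simp at h1; omega⟩
    have := ih k (by simpa using h1) fun e he => h e (List.mem_cons_of_mem _ he)
    have := h e List.mem_cons_self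
    simp only [List.replicate_succ, sz_cons]; omega

end Pool.Agent.H25.BN
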