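import Pool.Agent.H25.FPT1
import Pool.Agent.H25.Bn

set_option autoImplicit false

namespace Pool.Agent.H25.FP
open Pool.Agent.H11.PT Pool.Agent.H25.BN

variable {α : Type} [Enc α]

def enS (n N : ℕ) (L : List (List ℕ)) : List (List ℕ) :=
  (L.flatMap fun w => (List.range n).map fun a => a :: w).take N

/-- all lists of length `k` over `0, …, n-1`, cut off after `N` of them -/
def enumL (n k N : ℕ) : List (List ℕ) := (enS n N)^[k] [[]]

theorem enumL_inv (n k N : ℕ) : (enumL n k N).length ≤ max N 1 ∧ (enumL n k N).length ≤ n ^ k ∧
    ∀ w ∈ enumL n k N, w.length = k ∧ ∀ a ∈ w, a < n := by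
  induction k with
  | zero => simp [enumL]
  | succ k ih =>
    rw [enumL, Function.iterate_succ_apply', ← enumL]
    refine ⟨by simp [enS], ?_, fun w hw => ?_⟩
    · refine (List.length_take_le' _ _).trans ?_
      rw [List.length_flatMap]
      simp only [List.length_map, List.length_range, List.map_const', List.sum_replicate,
        smul_eq_mul, pow_succ]
      exact Nat.mul_le_mul_right _ ih.2.1
    · obtain ⟨u, hu, h⟩ := List.mem_flatMap.1 (List.mem_of_mem_take hw)
      obtain ⟨a, ha, rfl⟩ := List.mem_map.1 h
      refine ⟨by simp [(ih.2.2 u hu).1], fun b hb => ?_⟩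
      rcases List.mem_cons.1 hb with rfl | hb
      · exact List.mem_range.1 ha
      · exact (ih.2.2 u hu).2 b hb

theorem mem_enumL {n k N : ℕ} (h : n ^ k ≤ N) (w : List ℕ) (h1 : w.length = k)
    (h2 : ∀ a ∈ w, a < n) : w ∈ enumL n k N := by
  induction w generalizing k with
  | nil => subst h1; simp [enumL]
  | cons a w ih =>
    subst h1
    have ha := h2 a (by simp)
    have h3 : n ^ w.length ≤ N := le_trans (Nat.pow_le_pow_right (by omega) (by simp)) h
    rw [enumL, List.length_cons, Function.iterate_succ_apply', ← enumL, enS, List.take_of_length_le]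
    · exact List.mem_flatMap.2 ⟨w, ih h3 rfl fun b hb => h2 b (List.mem_cons_of_mem _ hb),
        List.mem_map.2 ⟨a, List.mem_range.2 ha, rfl⟩⟩
    · rw [List.length_flatMap]
      simp only [List.length_map, List.length_range, List.map_const', List.sum_replicate,
        smul_eq_mul]
      rw [List.length_cons, pow_succ] at h
      exact le_trans (Nat.mul_le_mul_right _ (enumL_inv n _ N).2.1) h

@[fun_prop] theorem PT_enumL {n k N : α → ℕ} (hn : PT n) (hk : PT k) (hN : PT N) :
    PT fun x => enumL (n x) (k x) (N x) := by
  have h : PT fun x => (List.range (k x)).foldl (fun (s : ℕ × List (List ℕ)) _ =>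
      (s.1 + 1, enS (n x) (N x) s.2)) (0, [[]]) := by
    refine PT.foldl (by fun_prop) (by fun_prop) (by unfold enS; fun_prop) ?r ?_
    case r => exact (show PT fun x => (k x, List.replicate (N x + 1) (List.replicate (k x) (n x)))
      by fun_prop).out.choose
    intro x m
    refine le_trans ?_ ((show PT fun x => (k x, List.replicate (N x + 1) (List.replicate (k x) (n x)))
      by fun_prop).out.choose_spec x)
    have e : ∀ (l : List ℕ) j, l.foldl (fun (s : ℕ × List (List ℕ)) _ =>
        (s.1 + 1, enS (n x) (N x) s.2)) (j, enumL (n x) j (N x)) =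
          (j + l.length, enumL (n x) (j + l.length) (N x)) := by
      intro l
      induction l with
      | nil => simp
      | cons a l ih =>
        intro j
        have := ih (j + 1)
        rw [enumL, Function.iterate_succ_apply', ← enumL] at this
        rw [List.foldl_cons]
        refine this.trans ?_
        rw [List.length_cons, show j + 1 + l.length = j + (l.length + 1) by omega]
    have e2 := e ((List.range (k x)).take m) 0
    rw [show enumL (n x) 0 (N x) = [[]] from rfl] at e2
    rw [e2]
    have hl : 0 + ((List.range (k x)).take m).length ≤ k x := by simp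
    generalize 0 + ((List.range (k x)).take m).length = j at hl
    obtain ⟨i1, _, i3⟩ := enumL_inv (n x) j (N x)
    have := sz_list_le (enumL (n x) j (N x)) (List.replicate (k x) (n x)) (N x + 1) (by omega)
      fun w hw => sz_list_le _ _ _ (by rw [(i3 w hw).1]; exact hl) fun a ha => by
        have := (i3 w hw).2 a ha
        simp only [sz_nat]; omega
    simp only [sz_pair, sz_nat]; omega
  refine h.snd.of_eq fun x => ?_
  have e : ∀ (l : List ℕ) (s : ℕ × List (List ℕ)), (l.foldl (fun (s : ℕ × List (List ℕ)) _ =>
      (s.1 + 1, enS (n x) (N x) s.2)) s).2 = (enS (n x) (N x))^[l.length] s.2 := by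
    intro l
    induction l with
    | nil => simp
    | cons a l ih => intro s; rw [List.foldl_cons, ih]; rfl
  rw [e]; simp [enumL]

theorem succ_pow_le (n k : ℕ) (h : n ≤ k) : (n + 1) ^ k ≤ 2 ^ (k * k) := by
  rw [pow_mul]
  exact Nat.pow_le_pow_left (by have := Nat.lt_two_pow_self (n := k); omega) _

end Pool.Agent.H25.FP
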