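import Pool.Agent.H11.PTDefs

set_option autoImplicit false

namespace Pool.Agent.H25.FP
open Pool.Agent.H11.PT

/-- Fixed-parameter tractability: one multi-stack Turing machine of Mathlib decides `L` on the code
of `x` within `f (κ x) * (|x| + 1) ^ c` steps, for a computable `f` and a constant `c`. -/
def FPT {α : Type} [Enc α] (L : α → Prop) (κ : α → ℕ) : Prop :=
  ∃ (V : α → Bool) (M : Turing.TM2ComputableAux Bool Bool) (f : ℕ → ℕ) (c : ℕ), Computable f ∧
    (∀ x, Nonempty (Turing.TM2OutputsInTime M.tm ((bits x).map M.inputAlphabet.invFun)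
      (some ([V x].map M.outputAlphabet.invFun)) (f (κ x) * ((bits x).length + 1) ^ c))) ∧
    ∀ x, L x ↔ V x = true

end Pool.Agent.H25.FP
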