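import Mathlib

set_option autoImplicit false

open Cardinal Set

universe u

namespace Pool.Agent.H25.NSIdealU

variable {W : Type u} [LinearOrder W] [WellFoundedLT W]

/-- A set is small when it carries a regressive map all of whose fibres have size below that of `W`. -/
def Thin (X : Set W) : Prop :=
  ∃ f : W → W, (∀ a ∈ X, (∃ b, b < a) → f a < a) ∧ ∀ g, #{a | a ∈ X ∧ f a = g} < #W

structure Good (W : Type u) [LinearOrder W] : Prop where
  reg : (#W).IsRegular
  unc : ℵ₀ < #W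
  iic : ∀ i : W, #(Iic i) < #W

omit [WellFoundedLT W] in
theorem bound (h : Good W) (s : Set W) (hs : #s < #W) : ∃ b, ∀ a ∈ s, a < b := by
  have h1 : #(⋃ a : s, Iic (a : W)) < #W :=
    (card_iUnion_lt_iff_forall_of_isRegular h.reg hs).2 (fun a => h.iic a)
  have h2 : (⋃ a : s, Iic (a : W)) ≠ Set.univ := by
    intro h3
    rw [h3, mk_univ] at h1
    exact lt_irrefl _ h1
  obtain ⟨b, hb⟩ := (ne_univ_iff_exists_notMem _).1 h2
  refine ⟨b, fun a ha => ?_⟩
  by_contra h4
  exact hb (mem_iUnion.2 ⟨⟨a, ha⟩, not_lt.1 h4⟩)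

omit [WellFoundedLT W] in
theorem small_mono {X Y : Set W} (hXY : Y ⊆ X) (hX : Thin X) : Thin Y := by
  obtain ⟨f, h1, h2⟩ := hX
  refine ⟨f, fun a ha => h1 a (hXY ha), fun g => lt_of_le_of_lt (mk_le_mk_of_subset ?_) (h2 g)⟩
  intro a ha
  exact ⟨hXY ha.1, ha.2⟩

omit [WellFoundedLT W] in
theorem card_nat_union (h : Good W) (t : ℕ → Set W) (ht : ∀ n, #(t n) < #W) :
    #(⋃ n, t n) < #W := by
  have h1 : (⋃ n, t n) = ⋃ n : ULift.{u} ℕ, t n.down := by
    ext x
    simp only [mem_iUnion]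
    exact ⟨fun ⟨n, hn⟩ => ⟨⟨n⟩, hn⟩, fun ⟨n, hn⟩ => ⟨n.down, hn⟩⟩
  rw [h1]
  refine (card_iUnion_lt_iff_forall_of_isRegular h.reg ?_).2 (fun n => ht _)
  exact lt_of_le_of_lt mk_le_aleph0 h.unc

omit [WellFoundedLT W] in
theorem small_iUnion (h : Good W) (X : ℕ → Set W) (hX : ∀ n, Thin (X n)) :
    Thin (⋃ n, X n) := by
  classical
  choose f h1 h2 using hX
  let k : W → ℕ := fun a => if h : ∃ n, a ∈ X n then h.choose else 0
  have hk : ∀ a ∈ ⋃ n, X n, a ∈ X (k a) := by
    intro a ha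
    have h3 : ∃ n, a ∈ X n := mem_iUnion.1 ha
    simp only [k, dif_pos h3]
    exact h3.choose_spec
  refine ⟨fun a => f (k a) a, fun a ha hb => h1 _ a (hk a ha) hb, fun g => ?_⟩
  refine lt_of_le_of_lt (mk_le_mk_of_subset ?_)
    (card_nat_union h (fun n => {a | a ∈ X n ∧ f n a = g}) (fun n => h2 n g))
  intro a ha
  exact mem_iUnion.2 ⟨k a, hk a ha.1, ha.2⟩

omit [WellFoundedLT W] in
theorem small_of_card_lt (X : Set W) (hX : #X < #W) : Thin X := by
  classical
  refine ⟨fun a => if h : ∃ b, b < a then h.choose else a, fun a _ hb => ?_, fun g => ?_⟩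
  · simp only [dif_pos hb]
    exact hb.choose_spec
  · exact lt_of_le_of_lt (mk_le_mk_of_subset (fun a ha => ha.1)) hX

omit [WellFoundedLT W] in
theorem small_empty (h : Good W) : Thin (∅ : Set W) :=
  small_of_card_lt _ (by simpa using lt_of_le_of_lt (zero_le (α := Cardinal)) h.unc)

omit [WellFoundedLT W] in
theorem small_union (h : Good W) {X Y : Set W} (hX : Thin X) (hY : Thin Y) :
    Thin (X ∪ Y) := by
  have := small_iUnion h (fun n => if n = 0 then X else Y) (fun n => by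
    by_cases hn : n = 0 <;> simp [hn, hX, hY])
  refine small_mono ?_ this
  intro a ha
  rcases ha with ha | ha
  · exact mem_iUnion.2 ⟨0, by simpa using ha⟩
  · exact mem_iUnion.2 ⟨1, by simpa using ha⟩

omit [WellFoundedLT W] in
theorem small_of_inj (h : Good W) (X : Set W) (f : W → W) (h1 : ∀ a ∈ X, f a < a)
    (h2 : InjOn f X) : Thin X := by
  refine ⟨f, fun a ha _ => h1 a ha, fun g => ?_⟩
  have : ({a | a ∈ X ∧ f a = g} : Set W).Subsingleton := by
    intro a ha b hb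
    exact h2 ha.1 hb.1 (ha.2.trans hb.2.symm)
  exact lt_of_le_of_lt (le_aleph0_iff_set_countable.2 this.countable) h.unc

omit [WellFoundedLT W] in
theorem small_of_fibres (h : Good W) (X : Set W) (g : W → W) (h1 : ∀ a ∈ X, g a < a)
    (h2 : ∀ c, Thin {a | a ∈ X ∧ g a = c}) : Thin X := by
  choose f h3 h4 using h2
  refine ⟨fun a => max (g a) (f (g a) a), fun a ha hb => max_lt (h1 a ha) (h3 _ a ⟨ha, rfl⟩ hb),
    fun d => ?_⟩
  have h5 : #(⋃ c : Iic d, ⋃ e : Iic d,
      {a | a ∈ {a | a ∈ X ∧ g a = (c : W)} ∧ f c a = (e : W)}) < #W := by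
    refine (card_iUnion_lt_iff_forall_of_isRegular h.reg (h.iic d)).2 (fun c => ?_)
    exact (card_iUnion_lt_iff_forall_of_isRegular h.reg (h.iic d)).2 (fun e => h4 c e)
  refine lt_of_le_of_lt (mk_le_mk_of_subset ?_) h5
  intro a ha
  have h6 : g a ≤ d := ha.2 ▸ le_max_left _ _
  have h7 : f (g a) a ≤ d := ha.2 ▸ le_max_right _ _
  exact mem_iUnion.2 ⟨⟨g a, h6⟩, mem_iUnion.2 ⟨⟨f (g a) a, h7⟩, ⟨ha.1, rfl⟩, rfl⟩⟩

/-- Points that are limits of a sequence of smaller points. -/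
def E (W : Type u) [LinearOrder W] : Set W :=
  {a | ∃ s : ℕ → W, (∀ n, s n < a) ∧ ∀ b, b < a → ∃ n, b < s n}

theorem not_small_E (h : Good W) : ¬ Thin (E W) := by
  rintro ⟨f, h1, h2⟩
  have h3 : ∀ c : W, ∃ b, c < b ∧ ∀ a ∈ E W, f a ≤ c → a < b := by
    intro c
    have h4 : #(⋃ e : Iic c, {a | a ∈ E W ∧ f a = (e : W)}) < #W :=
      (card_iUnion_lt_iff_forall_of_isRegular h.reg (h.iic c)).2 (fun e => h2 e)
    obtain ⟨b, hb⟩ := bound h _ h4
    obtain ⟨b', hb'⟩ := bound h _ (h.iic c)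
    refine ⟨max b b', lt_max_of_lt_right (hb' c (le_refl c)), fun a ha hc => ?_⟩
    exact lt_max_of_lt_left (hb a (mem_iUnion.2 ⟨⟨f a, hc⟩, ha, rfl⟩))
  choose nx h4 h5 using h3
  have hne : Nonempty W := mk_ne_zero_iff.1 (ne_of_gt (lt_of_le_of_lt (zero_le (α := Cardinal)) h.unc))
  let s : ℕ → W := fun n => nx^[n] (Classical.arbitrary W)
  have hs : ∀ n, s (n + 1) = nx (s n) := fun n => Function.iterate_succ_apply' _ _ _
  have h6 : #(range s) < #W :=
    lt_of_le_of_lt (le_aleph0_iff_set_countable.2 (countable_range s)) h.unc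
  obtain ⟨b, hb⟩ := bound h _ h6
  let U : Set W := {b | ∀ n, s n < b}
  have hU : U.Nonempty := ⟨b, fun n => hb _ ⟨n, rfl⟩⟩
  let a := (wellFounded_lt (α := W)).min U hU
  have ha : ∀ n, s n < a := (wellFounded_lt (α := W)).min_mem U hU
  have ha2 : ∀ c, c < a → ∃ n, c < s n := by
    intro c hc
    by_contra h7
    push Not at h7
    have : c ∈ U := by
      intro n
      exact lt_of_lt_of_le (by rw [hs]; exact h4 _) (h7 (n + 1))
    exact (wellFounded_lt (α := W)).not_lt_min U this hc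
  have haE : a ∈ E W := ⟨s, ha, ha2⟩
  obtain ⟨n, hn⟩ := ha2 _ (h1 a haE ⟨s 0, ha 0⟩)
  have h8 := h5 (s n) a haE hn.le
  rw [← hs] at h8
  exact lt_asymm h8 (ha (n + 1))

/-- There is a map with as many non-small fibres as there are points. -/
theorem split (h : Good W) : ∃ g : W → W, #W ≤ #{c | ¬ Thin {a | g a = c}} := by
  classical
  have h1 : ∀ a : W, ∃ s : ℕ → W, a ∈ E W → (∀ n, s n < a) ∧ ∀ b, b < a → ∃ n, b < s n := by
    intro a
    by_cases ha : a ∈ E W
    · obtain ⟨s, hs⟩ := ha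
      exact ⟨s, fun _ => hs⟩
    · exact ⟨fun _ => a, fun h => absurd h ha⟩
  choose s hs using h1
  by_contra h2
  push Not at h2
  have h3 : #(⋃ n, {c | ¬ Thin {a | s a n = c}}) < #W :=
    card_nat_union h _ (fun n => h2 (fun a => s a n))
  obtain ⟨b, hb⟩ := bound h _ h3
  apply not_small_E h
  have h4 : ∀ n, Thin {a | a ∈ E W ∧ b < s a n} := by
    intro n
    refine small_of_fibres h _ (fun a => s a n) (fun a ha => (hs a ha.1).1 n) (fun c => ?_)
    by_cases hc : b < c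
    · have : Thin {a | s a n = c} := by
        by_contra h5
        exact lt_asymm hc (hb c (mem_iUnion.2 ⟨n, h5⟩))
      exact small_mono (fun a ha => ha.2) this
    · refine small_mono ?_ (small_empty h)
      intro a ha
      exact hc (ha.2 ▸ ha.1.2)
  refine small_mono ?_ (small_union h (small_of_card_lt _ (h.iic b)) (small_iUnion h _ h4))
  intro a ha
  by_cases hab : a ≤ b
  · exact Or.inl hab
  · obtain ⟨n, hn⟩ := (hs a ha).2 b (not_le.1 hab)
    exact Or.inr (mem_iUnion.2 ⟨n, ha, hn⟩)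

theorem good_of_regular (k : Cardinal.{u}) (hk : k.IsRegular) (hu : ℵ₀ < k) :
    Good k.ord.ToType :=
  ⟨by simpa using hk, by simpa using hu, fun i => mk_Iic_lt i (by simp) (by simpa using hu.le)⟩

end Pool.Agent.H25.NSIdealU
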