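import Mathlib
import Pool.Agent.H25.NSIdealU

set_option autoImplicit false

open Cardinal Set

universe u

namespace Pool.Agent.H25.StrongDist

open Pool.Agent.H25.NSIdealU

section General

variable {W : Type u} [LinearOrder W] [WellFoundedLT W]

theorem split' (h : Good W) : ∃ g : W → W, #W ≤ #{c | ¬ Thin {a | a ∈ E W ∧ g a = c}} := by
  classical
  have h1 : ∀ a : W, ∃ s : ℕ → W, a ∈ E W → (∀ n, s n < a) ∧ ∀ b, b < a → ∃ n, b < s n := by
    intro a
    by_cases ha : a ∈ E W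
    · obtain ⟨s, hs⟩ := ha
      exact ⟨s, fun _ => hs⟩
    · exact ⟨fun _ => a, fun h => absurd h ha⟩
  choose s hs using h1
  by_contra h2
  push Not at h2
  have h3 : #(⋃ n, {c | ¬ Thin {a | a ∈ E W ∧ s a n = c}}) < #W :=
    card_nat_union h _ (fun n => h2 (fun a => s a n))
  obtain ⟨b, hb⟩ := bound h _ h3
  apply not_small_E h
  have h4 : ∀ n, Thin {a | a ∈ E W ∧ b < s a n} := by
    intro n
    refine small_of_fibres h _ (fun a => s a n) (fun a ha => (hs a ha.1).1 n) (fun c => ?_)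
    by_cases hc : b < c
    · have : Thin {a | a ∈ E W ∧ s a n = c} := by
        by_contra h5
        exact lt_asymm hc (hb c (mem_iUnion.2 ⟨n, h5⟩))
      refine small_mono ?_ this
      intro a ha
      exact ⟨ha.1.1, ha.2⟩
    · refine small_mono ?_ (small_empty h)
      intro a ha
      exact hc (ha.2 ▸ ha.1.2)
  refine small_mono ?_ (small_union h (small_of_card_lt _ (h.iic b)) (small_iUnion h _ h4))
  intro a ha
  by_cases hab : a ≤ b
  · exact Or.inl hab
  · obtain ⟨n, hn⟩ := (hs a ha).2 b (not_le.1 hab)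
    exact Or.inr (mem_iUnion.2 ⟨n, ha, hn⟩)

omit [WellFoundedLT W] in
theorem closed_of_not_thin (h : Good W) {X : Set W} (hX : ¬ Thin X) (f : W → W) :
    ∃ d ∈ X, ∀ b, b < d → f b < d := by
  by_contra h1
  push Not at h1
  choose! g hg1 hg2 using h1
  refine hX ⟨g, fun a ha _ => hg1 a ha, fun c => ?_⟩
  refine lt_of_le_of_lt (mk_le_mk_of_subset ?_) (h.iic (f c))
  intro a ha
  have := hg2 a ha.1
  rwa [ha.2] at this

omit [WellFoundedLT W] in
theorem exists_gt (h : Good W) (x : W) : ∃ y, x < y := by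
  obtain ⟨b, hb⟩ := bound h _ (h.iic x)
  exact ⟨b, hb x (le_refl x)⟩

theorem exists_delta (h : Good W) {V : Type u} [LinearOrder V] [WellFoundedLT V] (hV : Good V)
    (hVW : #V < #W) (f : W → W) :
    ∃ (d : W) (D : Set W), (∀ b, b < d → f b < d) ∧
      (∀ s : Set W, (∀ x ∈ s, x < d) → #s < #V → ∃ b, b < d ∧ ∀ x ∈ s, x < b) ∧
      (∀ x ∈ D, x < d) ∧ #D ≤ #V ∧ ∀ b, b < d → ∃ y ∈ D, b < y := by
  classical
  have h1 : ∀ x : W, ∃ y, x < y ∧ ∀ b, b ≤ x → f b < y := by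
    intro x
    obtain ⟨y, hy⟩ := bound h (f '' Iic x) (lt_of_le_of_lt mk_image_le (h.iic x))
    obtain ⟨z, hz⟩ := exists_gt h x
    exact ⟨max y z, lt_max_of_lt_right hz, fun b hb => lt_max_of_lt_left (hy _ ⟨b, hb, rfl⟩)⟩
  choose H hH1 hH2 using h1
  have h2 : ∀ (v : V) (r : Iio v → W), ∃ y, ∀ w, H (r w) < y := by
    intro v r
    obtain ⟨y, hy⟩ := bound h (range (H ∘ r)) (lt_of_le_of_lt mk_range_le
      (lt_of_le_of_lt (mk_set_le _) hVW))
    exact ⟨y, fun w => hy _ ⟨w, rfl⟩⟩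
  choose G hG using h2
  let c : V → W := (wellFounded_lt (α := V)).fix (fun v r => G v (fun w => r w w.2))
  have hc : ∀ v, c v = G v (fun w => c w) := fun v => (wellFounded_lt (α := V)).fix_eq _ v
  have hc2 : ∀ v w, w < v → H (c w) < c v := by
    intro v w hw
    rw [hc v]
    exact hG v (fun w => c w) ⟨w, hw⟩
  obtain ⟨b0, hb0⟩ := bound h (range c) (lt_of_le_of_lt mk_range_le hVW)
  let U : Set W := {b | ∀ v, c v < b}
  have hU : U.Nonempty := ⟨b0, fun v => hb0 _ ⟨v, rfl⟩⟩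
  let d := (wellFounded_lt (α := W)).min U hU
  have hd : ∀ v, c v < d := (wellFounded_lt (α := W)).min_mem U hU
  have hd2 : ∀ b, b < d → ∃ v, b ≤ c v := by
    intro b hb
    by_contra h3
    push Not at h3
    exact (wellFounded_lt (α := W)).not_lt_min U h3 hb
  refine ⟨d, range c, fun b hb => ?_, fun s hs1 hs2 => ?_, ?_, mk_range_le, fun b hb => ?_⟩
  · obtain ⟨v, hv⟩ := hd2 b hb
    obtain ⟨w, hw⟩ := exists_gt hV v
    exact ((hH2 _ _ hv).trans (hc2 w v hw)).trans (hd w)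
  · choose v hv using fun x : s => hd2 x (hs1 x x.2)
    obtain ⟨w, hw⟩ := bound hV (range v) (lt_of_le_of_lt mk_range_le hs2)
    refine ⟨c w, hd w, fun x hx => ?_⟩
    exact lt_of_le_of_lt (hv ⟨x, hx⟩) ((hH1 _).trans (hc2 w _ (hw _ ⟨_, rfl⟩)))
  · rintro _ ⟨v, rfl⟩
    exact hd v
  · obtain ⟨v, hv⟩ := hd2 b hb
    obtain ⟨w, hw⟩ := exists_gt hV v
    exact ⟨c w, ⟨w, rfl⟩, lt_of_le_of_lt hv ((hH1 _).trans (hc2 w v hw))⟩

/-- No point of `X` below `d` is a limit of `D`. -/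
def NR (X : Set W) (d : W) (D : Set W) : Prop :=
  ∀ a ∈ X, a < d → ∃ b, b < a ∧ ∀ x ∈ D, x < a → x ≤ b

theorem exists_E (h : Good W) {V : Type u} [LinearOrder V] [WellFoundedLT V] (hV : Good V)
    (hVW : Order.succ #V < #W) :
    ∃ X : Set W, X ⊆ E W ∧ (∀ f : W → W, ∃ d ∈ X, ∀ b, b < d → f b < d) ∧
      ∀ f : W → W, ∃ (d : W) (D : Set W), (∀ b, b < d → f b < d) ∧
        (∀ s : Set W, (∀ x ∈ s, x < d) → #s < #V → ∃ b, b < d ∧ ∀ x ∈ s, x < b) ∧
        (∀ x ∈ D, x < d) ∧ (∀ b, b < d → ∃ y ∈ D, b < y) ∧ NR X d D := by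
  classical
  obtain ⟨g, hg⟩ := split' h
  obtain ⟨J, hJ1, hJ2⟩ := le_mk_iff_exists_subset.1 (hVW.le.trans hg)
  by_contra h1
  have h2 : ∀ j : J, ∃ f : W → W, ∀ (d : W) (D : Set W), (∀ b, b < d → f b < d) →
        (∀ s : Set W, (∀ x ∈ s, x < d) → #s < #V → ∃ b, b < d ∧ ∀ x ∈ s, x < b) →
        (∀ x ∈ D, x < d) → (∀ b, b < d → ∃ y ∈ D, b < y) →
        ¬ NR {a | a ∈ E W ∧ g a = j} d D := by
    intro j
    by_contra h3
    apply h1
    refine ⟨{a | a ∈ E W ∧ g a = j}, fun a ha => ha.1, closed_of_not_thin h (hJ1 j.2), fun f => ?_⟩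
    by_contra h4
    apply h3
    refine ⟨f, fun d D a1 a2 a3 a4 a5 => h4 ⟨d, D, a1, a2, a3, a4, a5⟩⟩
  choose F hF using h2
  have h3 : ∀ b : W, ∃ y, ∀ j, F j b < y := by
    intro b
    obtain ⟨y, hy⟩ := bound h (range (fun j => F j b)) (lt_of_le_of_lt mk_range_le (hJ2 ▸ hVW))
    exact ⟨y, fun j => hy _ ⟨j, rfl⟩⟩
  choose f hf using h3
  obtain ⟨d, D, a1, a2, a3, a4, a5⟩ := exists_delta h hV ((Order.lt_succ _).trans hVW) f
  have h4 : ∀ j : J, ∃ a, g a = j ∧ a < d ∧ ∀ b, b < a → ∃ x ∈ D, x < a ∧ b < x := by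
    intro j
    have := hF j d D (fun b hb => (hf b j).trans (a1 b hb)) a2 a3 a5
    unfold NR at this
    push Not at this
    obtain ⟨a, ha1, ha2, ha3⟩ := this
    exact ⟨a, ha1.2, ha2, ha3⟩
  choose a ha1 ha2 ha3 using h4
  have h5 : ∀ j : J, ∃ y : D, a j ≤ y ∧ ∀ x ∈ D, a j ≤ x → (y : W) ≤ x := by
    intro j
    have hne : ({x | x ∈ D ∧ a j ≤ x} : Set W).Nonempty := by
      obtain ⟨y, hy1, hy2⟩ := a5 _ (ha2 j)
      exact ⟨y, hy1, hy2.le⟩
    have hm := (wellFounded_lt (α := W)).min_mem _ hne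
    exact ⟨⟨_, hm.1⟩, hm.2, fun x hx1 hx2 =>
      not_lt.1 ((wellFounded_lt (α := W)).not_lt_min _ (show x ∈ {x | x ∈ D ∧ a j ≤ x} from
        ⟨hx1, hx2⟩))⟩
  choose y hy1 hy2 using h5
  have h6 : ∀ i j, a i < a j → (y i : W) < y j := by
    intro i j hij
    obtain ⟨x, hx1, hx2, hx3⟩ := ha3 j _ hij
    exact lt_of_le_of_lt (hy2 i x hx1 hx3.le) (lt_of_lt_of_le hx2 (hy1 j))
  have h7 : Function.Injective y := by
    intro i j hij
    rcases lt_trichotomy (a i) (a j) with h8 | h8 | h8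
    · exact absurd (h6 i j h8) (by rw [hij]; exact lt_irrefl _)
    · exact Subtype.ext (by rw [← ha1 i, ← ha1 j, h8])
    · exact absurd (h6 j i h8) (by rw [hij]; exact lt_irrefl _)
  have h8 := (mk_le_of_injective h7).trans a4
  rw [hJ2] at h8
  exact absurd h8 (not_le.2 (Order.lt_succ _))

end General

section Poset

variable {W : Type u} [LinearOrder W]

def IsC (k : Cardinal.{u}) (X : Set W) (c : Set W) : Prop :=
  #c ≤ k ∧ ∀ a ∈ X, ∃ b, b < a ∧ ∀ x ∈ c, x < a → x ≤ b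

def Ext (q p : Set W) : Prop := p ⊆ q ∧ ∀ x ∈ q, ∀ y ∈ p, x ≤ y → x ∈ p

theorem Ext.refl (p : Set W) : Ext p p := ⟨subset_rfl, fun _ hx _ _ _ => hx⟩

theorem Ext.trans {r q p : Set W} (h1 : Ext r q) (h2 : Ext q p) : Ext r p :=
  ⟨h2.1.trans h1.1, fun x hx y hy hxy => h2.2 x (h1.2 x hx y (h2.1 hy) hxy) y hy hxy⟩

def Cond (k : Cardinal.{u}) (X : Set W) : Type u := {c : Set W // IsC k X c}

instance (k : Cardinal.{u}) (X : Set W) : PartialOrder (Cond k X) where
  le q p := Ext q.1 p.1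
  le_refl p := Ext.refl p.1
  le_trans _ _ _ := Ext.trans
  le_antisymm _ _ h1 h2 := Subtype.ext (subset_antisymm h2.1 h1.1)

theorem isC_empty (k : Cardinal.{u}) {X : Set W} (hX : X ⊆ E W) : IsC k X ∅ := by
  refine ⟨by simp, fun a ha => ?_⟩
  obtain ⟨s, hs, _⟩ := hX ha
  exact ⟨s 0, hs 0, fun x hx => absurd hx (notMem_empty x)⟩

@[reducible] def top (k : Cardinal.{u}) {X : Set W} (hX : X ⊆ E W) : OrderTop (Cond k X) where
  top := ⟨∅, isC_empty k hX⟩
  le_top _ := ⟨empty_subset _, fun _ _ y hy => absurd hy (notMem_empty y)⟩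

theorem isC_insert {k : Cardinal.{u}} (hk : ℵ₀ ≤ k) {X c : Set W} (hc : IsC k X c) (z : W) :
    IsC k X (insert z c) := by
  refine ⟨le_trans mk_insert_le ?_, fun a ha => ?_⟩
  · exact le_trans (add_le_add hc.1 (one_le_aleph0.trans hk)) (add_eq_self hk).le
  · obtain ⟨b, hb1, hb2⟩ := hc.2 a ha
    by_cases hz : z < a
    · refine ⟨max b z, max_lt hb1 hz, fun x hx hxa => ?_⟩
      rcases hx with rfl | hx
      · exact le_max_right _ _
      · exact (hb2 x hx hxa).trans (le_max_left _ _)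
    · refine ⟨b, hb1, fun x hx hxa => ?_⟩
      rcases hx with rfl | hx
      · exact absurd hxa hz
      · exact hb2 x hx hxa

theorem ext_insert {c : Set W} {z : W} (hz : ∀ y ∈ c, y < z) : Ext (insert z c) c := by
  refine ⟨subset_insert _ _, fun x hx y hy hxy => ?_⟩
  rcases hx with rfl | hx
  · exact absurd (hz y hy) (not_lt.2 hxy)
  · exact hx

theorem dist (h : Good W) {k m n : Cardinal.{u}} (hk : ℵ₀ ≤ k) (hkn : k < n) (hm : m < #W)
    (hmk : m ^ k ≤ m) (hkm : k ≤ m) (hW : ∀ b : W, #(Iic b) ≤ m) {X : Set W}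
    (hX : ∀ f : W → W, ∃ (d : W) (D : Set W), (∀ b, b < d → f b < d) ∧
        (∀ s : Set W, (∀ x ∈ s, x < d) → #s < n → ∃ b, b < d ∧ ∀ x ∈ s, x < b) ∧
        (∀ x ∈ D, x < d) ∧ (∀ b, b < d → ∃ y ∈ D, b < y) ∧ NR X d D)
    {I : Type u} [LinearOrder I] [WellFoundedLT I] (hI : #I ≤ k) (T : I → Set (Cond k X))
    (hT : ∀ i p, ∃ q ∈ T i, q ≤ p) (p : Cond k X) :
    ∃ s : I → Cond k X, (∀ i, s i ≤ p) ∧ (∀ i j, i < j → s j ≤ s i) ∧ ∀ i, s i ∈ T i := by
  classical
  choose e he1 he2 using hT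
  have hkW : k < #W := lt_of_le_of_lt hkm hm
  have h1 : ∀ b : W, ∃ y, (∀ x ∈ p.1, x < y) ∧
      ∀ i (q : Cond k X), q.1 ⊆ Iic b → ∀ x ∈ (e i q).1, x < y := by
    intro b
    have h2 : #{q : Cond k X // q.1 ⊆ Iic b} < #W := by
      refine lt_of_le_of_lt ?_ hm
      refine le_trans (mk_le_of_injective (β := {t : Set W // t ⊆ Iic b ∧ #t ≤ k})
        (f := fun q => ⟨q.1.1, q.2, q.1.2.1⟩) ?_) ?_
      · intro q q' hq
        exact Subtype.ext (Subtype.ext (congrArg (fun t : {t : Set W // t ⊆ Iic b ∧ #t ≤ k} => t.1) hq))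
      · refine le_trans (mk_bounded_subset_le _ _) (le_trans ?_ hmk)
        exact power_le_power_right (max_le (hW b) (hk.trans hkm))
    have h3 : #(⋃ i : I, ⋃ q : {q : Cond k X // q.1 ⊆ Iic b}, (e i q.1).1) < #W := by
      refine (card_iUnion_lt_iff_forall_of_isRegular h.reg (lt_of_le_of_lt hI hkW)).2 (fun i => ?_)
      exact (card_iUnion_lt_iff_forall_of_isRegular h.reg h2).2
        (fun q => lt_of_le_of_lt (e i q.1).2.1 hkW)
    obtain ⟨y, hy⟩ := bound h _ h3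
    obtain ⟨z, hz⟩ := bound h p.1 (lt_of_le_of_lt p.2.1 hkW)
    refine ⟨max y z, fun x hx => lt_max_of_lt_right (hz x hx), fun i q hq x hx => ?_⟩
    exact lt_max_of_lt_left (hy x (mem_iUnion.2 ⟨i, mem_iUnion.2 ⟨⟨q, hq⟩, hx⟩⟩))
  choose f hf1 hf2 using h1
  obtain ⟨d, D, a1, a2, a3, a4, a5⟩ := hX f
  have hp : ∀ x ∈ p.1, x < d := by
    obtain ⟨b, hb, _⟩ := a2 ∅ (fun x hx => absurd hx (notMem_empty x))
      (by simpa using lt_of_le_of_lt (zero_le (α := Cardinal)) hkn)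
    exact fun x hx => (hf1 b x hx).trans (a1 b hb)
  let Inv : ∀ i : I, (Iio i → Cond k X) → Cond k X → Prop := fun i r q =>
    q ∈ T i ∧ (∀ x ∈ q.1, x < d) ∧ q ≤ p ∧
      ∀ j, q ≤ r j ∧ ∃ y ∈ D, y ∈ q.1 ∧ ∀ x ∈ (r j).1, x < y
  have h2 : ∀ (i : I) (r : Iio i → Cond k X), ∃ q, (∃ q', Inv i r q') → Inv i r q := by
    intro i r
    by_cases hq : ∃ q', Inv i r q'
    · obtain ⟨q, hq⟩ := hq
      exact ⟨q, fun _ => hq⟩
    · exact ⟨p, fun h => absurd h hq⟩
  choose G hG using h2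
  let s : I → Cond k X := (wellFounded_lt (α := I)).fix (fun i r => G i (fun j => r j j.2))
  have hs : ∀ i, s i = G i (fun j => s j) := fun i => (wellFounded_lt (α := I)).fix_eq _ i
  have h3 : ∀ i, Inv i (fun j => s j) (s i) := by
    intro i
    induction i using (wellFounded_lt (α := I)).induction with
    | _ i ih =>
    rw [hs i]
    apply hG
    let U : Set W := p.1 ∪ ⋃ j : Iio i, (s j).1
    have hU1 : #U ≤ k := by
      refine le_trans (mk_union_le _ _) (le_trans (add_le_add p.2.1 ?_) (add_eq_self hk).le)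
      refine le_trans mk_iUnion_le_sum_mk ?_
      refine le_trans (sum_le_sum _ (fun _ => k) (fun j => (s j).2.1)) ?_
      rw [sum_const']
      exact le_trans (mul_le_mul' ((mk_set_le _).trans hI) le_rfl) (mul_eq_self hk).le
    have hU2 : ∀ x ∈ U, x < d := by
      rintro x (hx | hx)
      · exact hp x hx
      · obtain ⟨j, hj⟩ := mem_iUnion.1 hx
        exact (ih j j.2).2.1 x hj
    have hU3 : Ext U p.1 := by
      refine ⟨subset_union_left, ?_⟩
      rintro x (hx | hx) y hy hxy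
      · exact hx
      · obtain ⟨j, hj⟩ := mem_iUnion.1 hx
        exact (ih j j.2).2.2.1.2 x hj y hy hxy
    have hU4 : ∀ j : Iio i, Ext U (s j).1 := by
      intro j
      refine ⟨fun x hx => Or.inr (mem_iUnion.2 ⟨j, hx⟩), ?_⟩
      rintro x (hx | hx) y hy hxy
      · exact (ih j j.2).2.2.1.1 hx
      · obtain ⟨j', hj'⟩ := mem_iUnion.1 hx
        rcases lt_trichotomy (j : I) j' with h4 | h4 | h4
        · exact ((ih j' j'.2).2.2.2 ⟨j, h4⟩).1.2 x hj' y hy hxy
        · rw [h4]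
          exact hj'
        · exact ((ih j j.2).2.2.2 ⟨j', h4⟩).1.1 hj'
    obtain ⟨b, hb1, hb2⟩ := a2 U hU2 (lt_of_le_of_lt hU1 hkn)
    have hU5 : IsC k X U := by
      refine ⟨hU1, fun a ha => ?_⟩
      have hext : ∀ t : Cond k X, Ext U t.1 → (∀ x ∈ U, x < a → x ∈ t.1) →
          ∃ b, b < a ∧ ∀ x ∈ U, x < a → x ≤ b := by
        intro t _ ht
        obtain ⟨b', hb'1, hb'2⟩ := t.2.2 a ha
        exact ⟨b', hb'1, fun x hx hxa => hb'2 x (ht x hx hxa) hxa⟩
      by_cases h4 : ∃ y ∈ U, a ≤ y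
      · obtain ⟨y, hy | hy, hay⟩ := h4
        · exact hext p hU3 (fun x hx hxa => hU3.2 x hx y hy (hxa.le.trans hay))
        · obtain ⟨j, hj⟩ := mem_iUnion.1 hy
          exact hext (s j) (hU4 j) (fun x hx hxa => (hU4 j).2 x hx y hj (hxa.le.trans hay))
      · push Not at h4
        by_cases h5 : a < d
        · by_cases h6 : ∃ j, j < i
          · by_cases h7 : ∃ j : Iio i, ∀ j' : Iio i, (j' : I) ≤ j
            · obtain ⟨j, hj⟩ := h7
              refine hext (s j) (hU4 j) ?_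
              rintro x (hx | hx) _
              · exact (ih j j.2).2.2.1.1 hx
              · obtain ⟨j', hj'⟩ := mem_iUnion.1 hx
                rcases lt_or_eq_of_le (hj j') with h8 | h8
                · exact ((ih j j.2).2.2.2 ⟨j', h8⟩).1.1 hj'
                · rw [← h8]
                  exact hj'
            · push Not at h7
              obtain ⟨b', hb'1, hb'2⟩ := a5 a ha h5
              refine ⟨b', hb'1, fun x hx _ => ?_⟩
              have h8 : ∃ j : Iio i, x ∈ (s j).1 := by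
                rcases hx with hx | hx
                · obtain ⟨j, hj⟩ := h6
                  exact ⟨⟨j, hj⟩, (ih j hj).2.2.1.1 hx⟩
                · exact mem_iUnion.1 hx
              obtain ⟨j, hj⟩ := h8
              obtain ⟨j', hj'⟩ := h7 j
              obtain ⟨y, hy1, hy2, hy3⟩ := ((ih j' j'.2).2.2.2 ⟨j, hj'⟩).2
              exact (hy3 x hj).le.trans (hb'2 y hy1 (h4 y ((hU4 j').1 hy2)))
          · refine hext p hU3 ?_
            rintro x (hx | hx) _
            · exact hx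
            · obtain ⟨j, _⟩ := mem_iUnion.1 hx
              exact absurd ⟨j, j.2⟩ h6
        · exact ⟨b, lt_of_lt_of_le hb1 (not_lt.1 h5), fun x hx _ => (hb2 x hx).le⟩
    obtain ⟨y, hy1, hy2⟩ := a4 b hb1
    let q : Cond k X := ⟨insert y U, isC_insert hk hU5 y⟩
    have hq1 : Ext q.1 U := ext_insert (fun x hx => (hb2 x hx).trans hy2)
    have hq2 : q.1 ⊆ Iic y := by
      rintro x (rfl | hx)
      · exact le_refl _
      · exact ((hb2 x hx).trans hy2).le
    refine ⟨e i q, he1 i q, fun x hx => (hf2 y i q hq2 x hx).trans (a1 y (a3 y hy1)),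
      Ext.trans (he2 i q) (hq1.trans hU3), fun j => ⟨Ext.trans (he2 i q) (hq1.trans (hU4 j)),
        y, hy1, (he2 i q).1 (mem_insert _ _), fun x hx => (hb2 x ((hU4 j).1 hx)).trans hy2⟩⟩
  exact ⟨s, fun i => (h3 i).2.2.1, fun i j hij => ((h3 j).2.2.2 ⟨i, hij⟩).1, fun i => (h3 i).1⟩

open Ordinal in
theorem not_closed (h : Good W) {k m : Cardinal.{u}} (hk : ℵ₀ ≤ k) (hm : m < #W)
    (hmk : m ^ k ≤ m) (hkm : k ≤ m) (hW : ∀ b : W, #(Iic b) ≤ m) {X : Set W} (hXE : X ⊆ E W)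
    (hX : ∀ f : W → W, ∃ d ∈ X, ∀ b, b < d → f b < d)
    (σ : (α : Ordinal.{u}) → (Iio α → Cond k X) → Cond k X)
    (hσ : ∀ α : Ordinal.{u}, α ≤ ω → (∃ γ, α = 2 * γ) → ∀ p : Iio α → Cond k X,
      (∀ β γ : Iio α, β < γ → p γ ≤ p β) →
      (∀ β : Iio α, (∃ γ, (β : Ordinal.{u}) = 2 * γ) →
        p β = σ β (fun γ => p ⟨γ, lt_trans (show (γ : Ordinal.{u}) < β from γ.2) β.2⟩)) → ∀ β, σ α p ≤ p β) : False := by
  classical
  have hkW : k < #W := lt_of_le_of_lt hkm hm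
  let ins : W → Cond k X → Cond k X := fun z c =>
    if ∀ y ∈ c.1, y < z then ⟨insert z c.1, isC_insert hk c.2 z⟩ else c
  have hins : ∀ z c, ins z c ≤ c := by
    intro z c
    by_cases hz : ∀ y ∈ c.1, y < z
    · simp only [ins, if_pos hz]
      exact ext_insert hz
    · simp only [ins, if_neg hz]
      exact le_refl _
  have hins2 : ∀ z c, (∀ y ∈ c.1, y < z) → z ∈ (ins z c).1 := by
    intro z c hz
    simp only [ins, if_pos hz]
    exact mem_insert _ _
  let F : (ℕ → W) → ∀ α : Ordinal.{u}, (Iio α → Cond k X) → Cond k X := fun x α r =>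
    if ∃ γ, α = 2 * γ then σ α r
    else if h : ∃ β : Iio α, α = β + 1 then ins (x (toNat α.card)) (r h.choose)
    else ⟨∅, isC_empty k hXE⟩
  let π : (ℕ → W) → Ordinal.{u} → Cond k X := fun x =>
    (wellFounded_lt (α := Ordinal.{u})).fix (fun α r => F x α (fun β => r β β.2))
  have hπ : ∀ x α, π x α = F x α (fun β => π x β) :=
    fun x α => (wellFounded_lt (α := Ordinal.{u})).fix_eq _ α
  have hloc : ∀ (x y : ℕ → W) (n : ℕ), (∀ i, i < n → x i = y i) →
      ∀ α : Ordinal.{u}, α < n → π x α = π y α := by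
    intro x y n hxy α
    induction α using (wellFounded_lt (α := Ordinal.{u})).induction with
    | _ α ih =>
    intro hα
    rw [hπ x α, hπ y α]
    have h1 : (fun β : Iio α => π x β) = fun β : Iio α => π y β :=
      funext (fun β => ih β β.2 (lt_trans β.2 hα))
    obtain ⟨i, rfl⟩ := lt_omega0.1 (hα.trans (natCast_lt_omega0 n))
    have h2 : x (toNat (i : Ordinal.{u}).card) = y (toNat (i : Ordinal.{u}).card) := by
      apply hxy
      simpa using hα
    simp only [F, h1, h2]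
  have hodd : ∀ x (n : ℕ), ¬ (∃ γ, ((n + 1 : ℕ) : Ordinal.{u}) = 2 * γ) →
      π x ((n + 1 : ℕ) : Ordinal.{u}) = ins (x (n + 1)) (π x n) := by
    intro x n hn
    have h1 : ∃ β : Iio ((n + 1 : ℕ) : Ordinal.{u}), ((n + 1 : ℕ) : Ordinal.{u}) = β + 1 :=
      ⟨⟨n, by simp⟩, by simp⟩
    have h2 : (h1.choose : Ordinal.{u}) = n := by
      have h3 := h1.choose_spec
      have h4 : (n : Ordinal.{u}) + 1 = h1.choose + 1 := by
        rw [← h3]
        simp
      exact (Order.succ_injective (by simpa [Order.succ_eq_add_one] using h4)).symm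
    rw [hπ]
    simp only [F, if_neg hn, dif_pos h1, h2]
    simp
  have hdec : ∀ x (α : Ordinal.{u}), α ≤ ω → ∀ β, β < α → π x α ≤ π x β := by
    intro x α
    induction α using (wellFounded_lt (α := Ordinal.{u})).induction with
    | _ α ih =>
    intro hα β hβ
    by_cases h1 : ∃ γ, α = 2 * γ
    · have h2 : π x α = σ α (fun β => π x β) := by
        rw [hπ]
        simp only [F, if_pos h1]
      rw [h2]
      refine hσ α hα h1 (fun β => π x β)
        (fun β γ hβγ => ih γ γ.2 (le_trans γ.2.le hα) β hβγ) (fun β h3 => ?_) ⟨β, hβ⟩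
      rw [hπ]
      simp only [F, if_pos h3]
    · have h2 : α < ω := by
        refine lt_of_le_of_ne hα (fun h3 => h1 ⟨ω, ?_⟩)
        rw [h3]
        exact (by exact_mod_cast (natCast_mul_omega0 (n := 2) (by norm_num)).symm)
      obtain ⟨n, rfl⟩ := lt_omega0.1 h2
      cases n with
      | zero => simp at hβ
      | succ n =>
        rw [hodd x n h1]
        refine le_trans (hins _ _) ?_
        have h3 : β ≤ n := by
          have : β < (n : Ordinal.{u}) + 1 := by simpa using hβ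
          exact Order.lt_add_one_iff.1 this
        rcases lt_or_eq_of_le h3 with h4 | h4
        · exact ih n (by simp) (natCast_lt_omega0 n).le β h4
        · rw [h4]
  have h1 : ∀ b : W, ∃ z, ∀ (y : ℕ → W) (n : ℕ), (∀ i, y i ≤ b) → ∀ w ∈ (π y n).1, w < z := by
    intro b
    have h2 : #(ULift.{u} ℕ → Iic b) < #W := by
      refine lt_of_le_of_lt ?_ hm
      rw [← power_def]
      refine le_trans ?_ hmk
      refine le_trans (power_le_power_right (hW b)) (power_le_power_left ?_ (mk_le_aleph0.trans hk))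
      exact ne_of_gt (lt_of_lt_of_le aleph0_pos (hk.trans hkm))
    have h3 : #(⋃ y : ULift.{u} ℕ → Iic b, ⋃ n : ℕ, (π (fun i => y ⟨i⟩) n).1) < #W := by
      refine (card_iUnion_lt_iff_forall_of_isRegular h.reg h2).2 (fun y => ?_)
      exact card_nat_union h _ (fun n => lt_of_le_of_lt (π (fun i => y ⟨i⟩) n).2.1 hkW)
    obtain ⟨z, hz⟩ := bound h _ h3
    refine ⟨z, fun y n hy w hw => hz w (mem_iUnion.2 ⟨fun i => ⟨y i.down, hy _⟩, ?_⟩)⟩
    exact mem_iUnion.2 ⟨n, hw⟩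
  choose f hf using h1
  obtain ⟨d, hd1, hd2⟩ := hX f
  obtain ⟨s, hs1, hs2⟩ := hXE hd1
  let B : ℕ → W := fun n => Nat.rec (s 0) (fun i c => max c (max (s (i + 1)) (f c))) n
  have hB : ∀ n, B (n + 1) = max (B n) (max (s (n + 1)) (f (B n))) := fun n => rfl
  have hB1 : ∀ n, B n < d := by
    intro n
    induction n with
    | zero => exact hs1 0
    | succ n ih => rw [hB]; exact max_lt ih (max_lt (hs1 _) (hd2 _ ih))
  have hB2 : Monotone B := monotone_nat_of_le_succ (fun n => by rw [hB]; exact le_max_left _ _)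
  have hB3 : ∀ n, s n ≤ B n := by
    intro n
    cases n with
    | zero => exact le_refl _
    | succ n => rw [hB]; exact le_max_of_le_right (le_max_left _ _)
  obtain ⟨b, hb1, hb2⟩ := (π B ω).2.2 d hd1
  obtain ⟨n, hn⟩ := hs2 b hb1
  have h2 : ¬ (∃ γ, ((2 * n + 1 : ℕ) : Ordinal.{u}) = 2 * γ) := by
    rintro ⟨γ, hγ⟩
    have h3 : γ < ω := by
      refine lt_of_le_of_lt ?_ (natCast_lt_omega0 (2 * n + 1))
      rw [hγ]
      exact le_mul_right γ (by norm_num)
    obtain ⟨j, rfl⟩ := lt_omega0.1 h3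
    have h4 : 2 * n + 1 = 2 * j := by exact_mod_cast hγ
    omega
  have h3 : ∀ w ∈ (π B ((2 * n : ℕ) : Ordinal.{u})).1, w < B (2 * n + 1) := by
    intro w hw
    rw [hloc B (fun i => min (B i) (B (2 * n))) (2 * n + 1)
      (fun i hi => (min_eq_left (hB2 (Nat.lt_succ_iff.1 hi))).symm) _ (by simp)] at hw
    refine lt_of_lt_of_le (hf (B (2 * n)) _ _ (fun i => min_le_right _ _) w hw) ?_
    rw [hB]
    exact le_max_of_le_right (le_max_right _ _)
  have h4 : B (2 * n + 1) ∈ (π B ω).1 := by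
    refine (hdec B ω le_rfl _ (natCast_lt_omega0 (2 * n + 1))).1 ?_
    rw [hodd B (2 * n) h2]
    exact hins2 _ _ h3
  have h5 := hb2 _ h4 (hB1 (2 * n + 1))
  exact absurd (lt_of_lt_of_le hn ((hB3 n).trans (hB2 (show n ≤ 2 * n + 1 by omega)))) (not_lt.2 h5)

end Poset

theorem setup (k : Cardinal.{u}) (hk : ℵ₀ ≤ k) :
    ∃ (W : Type u) (_ : LinearOrder W) (m : Cardinal.{u}) (X : Set W), Good W ∧ m < #W ∧
      m ^ k ≤ m ∧ k ≤ m ∧ (∀ b : W, #(Iic b) ≤ m) ∧ X ⊆ E W ∧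
      (∀ f : W → W, ∃ d ∈ X, ∀ b, b < d → f b < d) ∧
      ∀ f : W → W, ∃ (d : W) (D : Set W), (∀ b, b < d → f b < d) ∧
        (∀ s : Set W, (∀ x ∈ s, x < d) → #s < Order.succ k → ∃ b, b < d ∧ ∀ x ∈ s, x < b) ∧
        (∀ x ∈ D, x < d) ∧ (∀ b, b < d → ∃ y ∈ D, b < y) ∧ NR X d D := by
  have h1 : k < Order.succ k := Order.lt_succ _
  have h2 : Order.succ k < 2 ^ Order.succ k := cantor _
  have h3 : ℵ₀ ≤ 2 ^ Order.succ k := hk.trans (h1.trans h2).le
  have hV := good_of_regular (Order.succ k) (isRegular_succ hk) (lt_of_le_of_lt hk h1)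
  have hW := good_of_regular (Order.succ (2 ^ Order.succ k)) (isRegular_succ h3)
    (lt_of_le_of_lt h3 (Order.lt_succ _))
  obtain ⟨X, a1, a2, a3⟩ := exists_E hW hV (by
    rw [mk_ord_toType, mk_ord_toType]
    exact Order.lt_succ_of_le (Order.succ_le_of_lt h2))
  rw [mk_ord_toType] at a3
  refine ⟨_, inferInstance, 2 ^ Order.succ k, X, hW, by rw [mk_ord_toType]; exact Order.lt_succ _,
    ?_, (h1.trans h2).le, fun b => ?_, a1, a2, a3⟩
  · rw [← power_mul, mul_eq_left (hk.trans h1.le) h1.le (ne_of_gt (lt_of_lt_of_le aleph0_pos hk))]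
  · have := hW.iic b
    rw [mk_ord_toType] at this
    exact Order.lt_succ_iff.1 this

end Pool.Agent.H25.StrongDist
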