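import Mathlib
import Pool.Agent.H25.StrongDist

set_option autoImplicit false

open Cardinal Set

universe u

namespace Pool.Agent.H25.WeakDiamond

open Pool.Agent.H25.NSIdealU Pool.Agent.H25.StrongDist

variable {W : Type u} [LinearOrder W]

def Cl (f : W → W) (d : W) : Prop := (∃ b, b < d) ∧ ∀ b, b < d → f b < d

theorem restr_inj {R : Type u} {a a' : W} {K K' : W → R}
    (h : (⟨a, fun x => K x⟩ : Σ a : W, (Iio a → R)) = ⟨a', fun x => K' x⟩) :
    a = a' ∧ ∀ x, x < a → K x = K' x := by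
  obtain ⟨h1, h2⟩ := Sigma.mk.inj_iff.1 h
  subst h1
  exact ⟨rfl, fun x hx => congrFun (eq_of_heq h2) ⟨x, hx⟩⟩

theorem mk_fb (A : Type u) : #(A → Bool) = 2 ^ #A := by
  simp [mk_pi]

theorem card_data {R : Type u} {n : Cardinal.{u}} (hn0 : ℵ₀ ≤ n) (hW : #W ≤ 2 ^ n)
    (hpow : ∀ a : W, (2 : Cardinal.{u}) ^ #(Iio a) ≤ 2 ^ n) (hR : #R ≤ 2 ^ n) :
    #(Σ a : W, (Iio a → R)) ≤ 2 ^ n := by
  have h0 : ℵ₀ ≤ 2 ^ n := hn0.trans (cantor n).le
  rw [mk_sigma]
  refine le_trans (sum_le_sum _ (fun _ => 2 ^ n) (fun a => ?_)) ?_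
  · rw [← power_def]
    refine le_trans (power_le_power_right hR) ?_
    rw [← power_mul]
    rcases le_total #(Iio a) n with h1 | h1
    · exact power_le_power_left (by norm_num)
        (le_trans (mul_le_mul' le_rfl h1) (mul_eq_self hn0).le)
    · exact le_trans (power_le_power_left (by norm_num)
        (le_trans (mul_le_mul' h1 le_rfl) (mul_eq_self (hn0.trans h1)).le)) (hpow a)
  · rw [sum_const']
    exact le_trans (mul_le_mul' hW le_rfl) (mul_eq_self h0).le

theorem exists_lub [WellFoundedLT W] (s : Set W) (hs : BddAbove s) : ∃ d, IsLUB s d :=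
  ⟨(wellFounded_lt (α := W)).min _ hs, (wellFounded_lt (α := W)).min_mem _ hs,
    fun _ hb => not_lt.1 ((wellFounded_lt (α := W)).not_lt_min _ hb)⟩

theorem wd [WellFoundedLT W] (h : Good W) {N : Type u} (hN : #N < #W) (hN0 : ℵ₀ ≤ #N)
    (hW : #W ≤ 2 ^ #N) (hpow : ∀ a : W, (2 : Cardinal.{u}) ^ #(Iio a) ≤ 2 ^ #N) {V : Type u} (hV : #V ≤ 2 ^ #N)
    (j : Bool → V) (hj : Function.Injective j) (F : W → (W → V) → Bool)
    (hF : ∀ d H H', (∀ x, x < d → H x = H' x) → F d H = F d H')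
    (hall : ∀ g : W → Bool, ∃ (H : W → V) (f : W → W), ∀ d, Cl f d → F d H = g d) :
    (2 : Cardinal.{u}) ^ #W ≤ 2 ^ #N := by
  classical
  have h1 : ∀ G : W → N → Bool, ∃ (H : W → N → V) (f : W → W),
      ∀ d, Cl f d → ∀ i, F d (fun x => H x i) = G d i := by
    intro G
    choose H f hH using fun i => hall (fun d => G d i)
    have h2 : ∀ b, ∃ y, ∀ i, f i b < y := by
      intro b
      obtain ⟨y, hy⟩ := bound h (range (fun i => f i b)) (lt_of_le_of_lt mk_range_le hN)
      exact ⟨y, fun i => hy _ ⟨i, rfl⟩⟩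
    choose f' hf' using h2
    exact ⟨fun x i => H i x, f', fun d hd i =>
      hH i d ⟨hd.1, fun b hb => (hf' b i).trans (hd.2 b hb)⟩⟩
  choose HH ff hHH using h1
  have hpw : ∀ (A B : Type u), #A ≤ #N → #B ≤ 2 ^ #N → #(A → B) ≤ 2 ^ #N := by
    intro A B hA hB
    rw [← power_def]
    refine le_trans (power_le_power_right hB) ?_
    rw [← power_mul]
    exact power_le_power_left (by norm_num) (le_trans (mul_le_mul' le_rfl hA) (mul_eq_self hN0).le)
  have hpw0 : ∀ (B : Type u), #B ≤ 2 ^ #N → #(ℕ → B) ≤ 2 ^ #N := fun B hB =>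
    le_trans (mk_le_of_injective (β := ULift.{u} ℕ → B) (f := fun s i => s i.down)
      (fun s t hst => funext (fun i => congrFun hst ⟨i⟩))) (hpw _ _ (by simpa using hN0) hB)
  have hQ : #(ℕ → N → V) ≤ 2 ^ #N := hpw0 _ (hpw _ _ le_rfl hV)
  obtain ⟨code⟩ : Nonempty ((Σ a : W, (Iio a → ℕ → N → V)) ↪ (N → Bool)) := by
    rw [← Cardinal.le_def]
    exact le_trans (card_data hN0 hW hpow hQ) (mk_fb N).ge
  have h2 : ∀ (f : W → W) (a : W), ∃ y, a < y ∧ ∀ b, b ≤ a → f b < y := by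
    intro f x
    obtain ⟨y, hy⟩ := bound h (f '' Iic x) (lt_of_le_of_lt mk_image_le (h.iic x))
    obtain ⟨z, hz⟩ := exists_gt h x
    exact ⟨max y z, lt_max_of_lt_right hz, fun b hb => lt_max_of_lt_left (hy _ ⟨b, hb, rfl⟩)⟩
  choose nx hnx1 hnx2 using h2
  let St := (W → ℕ → N → V) × (W → W) × (W → W)
  let GG : St → W → N → Bool := fun s d => code ⟨s.2.2 d, fun x => s.1 x⟩
  let step : St → St := fun s => (fun x n => Nat.casesOn n (HH (GG s) x) (s.1 x),
    fun b => max (s.2.1 b) (ff (GG s) b),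
    fun d => nx (fun b => max (s.2.1 b) (ff (GG s) b)) (s.2.2 d))
  let S : (W → Bool) → ℕ → St := fun g n => step^[n] (fun x _ _ => j (g x), id, id)
  have hS : ∀ g n, S g (n + 1) = step (S g n) := fun g n => Function.iterate_succ_apply' _ _ _
  have hf : ∀ g b, Monotone (fun n => (S g n).2.1 b) := fun g b =>
    monotone_nat_of_le_succ (fun n => by rw [hS]; exact le_max_left _ _)
  have hp : ∀ g d, StrictMono (fun n => (S g n).2.2 d) := fun g d =>
    strictMono_nat_of_lt_succ (fun n => by rw [hS]; exact hnx1 _ _)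
  have hp2 : ∀ g d n b, b ≤ (S g n).2.2 d → (S g (n + 1)).2.1 b < (S g (n + 1)).2.2 d := by
    intro g d n b hb
    rw [hS]
    exact hnx2 _ _ b hb
  have hnext : ∀ g d e, IsLUB (range (fun n => (S g n).2.2 d)) e →
      d < e ∧ ∀ n, Cl (S g n).2.1 e := by
    intro g d e he
    have h3 : ∀ n, (S g n).2.2 d < e := fun n =>
      lt_of_lt_of_le (hp g d (Nat.lt_succ_self n)) (he.1 ⟨n + 1, rfl⟩)
    refine ⟨h3 0, fun n => ⟨⟨d, h3 0⟩, fun b hb => ?_⟩⟩
    obtain ⟨_, ⟨m, rfl⟩, h4, _⟩ := he.exists_between hb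
    refine lt_of_le_of_lt (hf g b (show n ≤ max m n + 1 by omega)) ?_
    exact (hp2 g d _ b (h4.le.trans ((hp g d).monotone (le_max_left m n)))).trans (h3 _)
  have hbdd : ∀ s : ℕ → W, BddAbove (range s) := by
    intro s
    obtain ⟨y, hy⟩ := bound h (range s)
      (lt_of_le_of_lt (le_aleph0_iff_set_countable.2 (countable_range _)) h.unc)
    exact ⟨y, fun x hx => (hy x hx).le⟩
  have hkey : ∀ g g' d n, Cl (S g (n + 1)).2.1 d → Cl (S g' (n + 1)).2.1 d →
      (∀ x, x < d → (S g (n + 1)).1 x = (S g' (n + 1)).1 x) →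
      (S g n).2.2 d = (S g' n).2.2 d ∧ ∀ x, x < (S g n).2.2 d → (S g n).1 x = (S g' n).1 x := by
    intro g g' d n c1 c2 c3
    rw [hS] at c1 c2
    rw [hS, hS] at c3
    have h3 : GG (S g n) d = GG (S g' n) d := by
      funext i
      rw [← hHH (GG (S g n)) d ⟨c1.1, fun b hb => lt_of_le_of_lt (le_max_right _ _) (c1.2 b hb)⟩ i,
        ← hHH (GG (S g' n)) d ⟨c2.1, fun b hb => lt_of_le_of_lt (le_max_right _ _) (c2.2 b hb)⟩ i]
      exact hF _ _ _ (fun x hx => congrFun (congrFun (c3 x hx) 0) i)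
    exact restr_inj (code.injective h3)
  have hdown : ∀ g g' x n m, n ≤ m → (S g m).1 x = (S g' m).1 x → (S g n).1 x = (S g' n).1 x := by
    intro g g' x n m hnm
    induction hnm with
    | refl => exact id
    | step _ ih =>
      intro h3
      apply ih
      rw [hS, hS] at h3
      funext k
      exact congrFun h3 (k + 1)
  have hw : Nonempty W := mk_ne_zero_iff.1 (ne_of_gt (lt_trans aleph0_pos h.unc))
  have h3 : ∀ g, ∃ d, ∀ n, Cl (S g n).2.1 d := by
    intro g
    obtain ⟨e, he⟩ := exists_lub _ (hbdd (fun n => (S g n).2.2 (Classical.arbitrary W)))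
    exact ⟨e, (hnext g _ e he).2⟩
  choose d0 hd0 using h3
  have h4 : #(W → Bool) = 2 ^ #W := mk_fb W
  rw [← h4]
  refine le_trans (mk_le_of_injective (β := Σ a : W, (Iio a → ℕ → ℕ → N → V))
    (f := fun g => ⟨d0 g, fun x n => (S g n).1 x⟩) ?_)
    (card_data hN0 hW hpow (hpw0 _ hQ))
  intro g g' hgg
  obtain ⟨e1, e2⟩ := restr_inj (K := fun x n => (S g n).1 x) (K' := fun x n => (S g' n).1 x) hgg
  have h5 : ∀ x n, (S g n).1 x = (S g' n).1 x := by
    intro ε
    induction ε using (wellFounded_lt (α := W)).induction with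
    | _ ε ih =>
    intro n0
    by_contra h6
    have h7 : d0 g ≤ ε := not_lt.1 (fun h8 => h6 (congrFun (e2 ε h8) n0))
    let D : Set W := {d | d ≤ ε ∧ ∀ n, Cl (S g n).2.1 d ∧ Cl (S g' n).2.1 d}
    have hD0 : d0 g ∈ D := ⟨h7, fun n => ⟨hd0 g n, e1 ▸ hd0 g' n⟩⟩
    obtain ⟨d, hd⟩ := exists_lub D ⟨ε, fun x hx => hx.1⟩
    have hdε : d ≤ ε := hd.2 (fun x hx => hx.1)
    have hdD : ∀ n, Cl (S g n).2.1 d ∧ Cl (S g' n).2.1 d := by
      intro n
      obtain ⟨b0, hb0⟩ := (hd0 g 0).1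
      have h8 : b0 < d := lt_of_lt_of_le hb0 (hd.1 hD0)
      refine ⟨⟨⟨b0, h8⟩, fun b hb => ?_⟩, ⟨⟨b0, h8⟩, fun b hb => ?_⟩⟩
      · obtain ⟨y, hy1, hy2, hy3⟩ := hd.exists_between hb
        exact lt_of_lt_of_le ((hy1.2 n).1.2 b hy2) hy3
      · obtain ⟨y, hy1, hy2, hy3⟩ := hd.exists_between hb
        exact lt_of_lt_of_le ((hy1.2 n).2.2 b hy2) hy3
    have h8 := fun n => hkey g g' d n (hdD (n + 1)).1 (hdD (n + 1)).2
      (fun x hx => ih x (lt_of_lt_of_le hx hdε) (n + 1))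
    have h9 : ∀ n, (S g n).2.2 d ≤ ε := by
      intro n
      refine le_trans ((hp g d).monotone (le_max_left n n0)) (not_lt.1 (fun h10 => h6 ?_))
      exact hdown g g' ε n0 _ (le_max_right n n0) ((h8 _).2 ε h10)
    obtain ⟨e, he⟩ := exists_lub _ (hbdd (fun n => (S g n).2.2 d))
    have he' : IsLUB (range (fun n => (S g' n).2.2 d)) e := by
      have : (fun n => (S g' n).2.2 d) = fun n => (S g n).2.2 d := funext (fun n => (h8 n).1.symm)
      rw [this]
      exact he
    have h10 : e ∈ D := ⟨he.2 (by rintro _ ⟨n, rfl⟩; exact h9 n),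
      fun n => ⟨(hnext g d e he).2 n, (hnext g' d e he').2 n⟩⟩
    exact absurd (hnext g d e he).1 (not_lt.2 (hd.1 h10))
  funext x
  obtain ⟨i⟩ : Nonempty N := mk_ne_zero_iff.1 (ne_of_gt (lt_of_lt_of_le aleph0_pos hN0))
  exact hj (congrFun (congrFun (h5 x 0) 0) i)

theorem mono_set [WellFoundedLT W] (h : Good W) {N : Type u} (hN : #N < #W) (hN0 : ℵ₀ ≤ #N)
    (hW : #W ≤ 2 ^ #N) (hpow : ∀ a : W, (2 : Cardinal.{u}) ^ #(Iio a) ≤ 2 ^ #N)
    (hlt : (2 : Cardinal.{u}) ^ #N < 2 ^ #W) (c : (W → Bool) → (W → Bool) → W)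
    (hsym : ∀ x y, c x y = c y x) (μ : W)
    (hc : ∀ x y d, IsLeast {i | x i ≠ y i} d → c x y < max d μ) :
    ∃ (Y : Set (W → Bool)) (i : W), #Y = #W ∧ ∀ x ∈ Y, ∀ y ∈ Y, x ≠ y → c x y = i := by
  classical
  let pick : Set (W → Bool) → Option (W → Bool) := fun A =>
    if hA : A.Nonempty then some hA.some else none
  have hpick1 : ∀ A y, pick A = some y → y ∈ A := by
    intro A y hy
    by_cases hA : A.Nonempty
    · simp only [pick, dif_pos hA] at hy
      rw [← Option.some.inj hy]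
      exact hA.some_mem
    · simp [pick, dif_neg hA] at hy
  have hpick2 : ∀ A, pick A = none → ∀ y, y ∉ A := by
    intro A hA y hy
    have h1 : A.Nonempty := ⟨y, hy⟩
    simp [pick, h1] at hA
  let Z : (W → Bool) → W → Option (W → Bool) := fun x =>
    (wellFounded_lt (α := W)).fix (fun d r => pick {y | (∀ e, e < d → y e = x e) ∧ y d ≠ x d ∧
      ∀ e (he : e < d) y', r e he = some y' → c y' y = c y' x})
  have hZ : ∀ x d, Z x d = pick {y | (∀ e, e < d → y e = x e) ∧ y d ≠ x d ∧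
      ∀ e (_ : e < d) y', Z x e = some y' → c y' y = c y' x} :=
    fun x d => (wellFounded_lt (α := W)).fix_eq _ d
  let τ : (W → Bool) → W → W := fun x d => ((Z x d).map (fun y => c y x)).getD μ
  have hτ : ∀ x d y, Z x d = some y → τ x d = c y x := by
    intro x d y hy
    simp [τ, hy]
  have hloc : ∀ x x' d, (∀ e, e < d → x' e = x e ∧ τ x' e = τ x e) → ∀ e, e < d → Z x' e = Z x e := by
    intro x x' d hd e
    induction e using (wellFounded_lt (α := W)).induction with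
    | _ e ih =>
    intro he
    rw [hZ x' e, hZ x e]
    congr 1
    ext y
    have h1 : ∀ e', e' < e → ∀ y', Z x e' = some y' → c y' x' = c y' x := by
      intro e' he' y' hy'
      rw [← hτ x e' y' hy', ← hτ x' e' y' ((ih e' he' (he'.trans he)).trans hy')]
      exact (hd e' (he'.trans he)).2
    constructor
    · rintro ⟨g1, g2, g3⟩
      refine ⟨fun e' he' => (g1 e' he').trans (hd e' (he'.trans he)).1, (hd e he).1 ▸ g2,
        fun e' he' y' hy' => ?_⟩
      rw [← h1 e' he' y' hy']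
      exact g3 e' he' y' ((ih e' he' (he'.trans he)).trans hy')
    · rintro ⟨g1, g2, g3⟩
      refine ⟨fun e' he' => (g1 e' he').trans (hd e' (he'.trans he)).1.symm, (hd e he).1.symm ▸ g2,
        fun e' he' y' hy' => ?_⟩
      have g4 := (ih e' he' (he'.trans he)).symm.trans hy'
      rw [h1 e' he' y' g4]
      exact g3 e' he' y' g4
  by_contra hno
  refine absurd hlt (not_lt.2 (wd h hN hN0 hW hpow (V := Bool × W) ?_ (fun b => (b, μ))
    (fun a b hab => congrArg Prod.fst hab)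
    (fun d H => decide (∃ x' : W → Bool, x' d = true ∧ ∀ e, e < d → (x' e, τ x' e) = H e)) ?_ ?_))
  · have h0 : ℵ₀ ≤ 2 ^ #N := hN0.trans (cantor _).le
    have h1 : #(Bool × W) = 2 * #W := by simp
    rw [h1]
    exact le_trans (mul_le_mul' ((nat_lt_aleph0 2).le.trans h0) hW) (mul_eq_self h0).le
  · intro d H H' hH
    refine decide_eq_decide.2 ⟨?_, ?_⟩
    · rintro ⟨x', g1, g2⟩
      exact ⟨x', g1, fun e he => (g2 e he).trans (hH e he)⟩
    · rintro ⟨x', g1, g2⟩
      exact ⟨x', g1, fun e he => (g2 e he).trans (hH e he).symm⟩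
  · intro x
    have h1 : ∀ b : W, ∃ z, μ ≤ z ∧ ∀ d y, Z x d = some y → c y x = b → d < z := by
      intro b
      let T : Set W := {d | ∃ y, Z x d = some y ∧ c y x = b}
      have h2 : #T < #W := by
        by_contra h3
        choose y hy1 hy2 using fun d : T => d.2
        have h4 : ∀ d : T, (∀ e : W, e < d → y d e = x e) ∧ y d d ≠ x d ∧
            ∀ (e : W) (_ : e < d) y', Z x e = some y' → c y' (y d) = c y' x :=
          fun d => hpick1 _ _ ((hZ x d).symm.trans (hy1 d))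
        have h5 : ∀ d e : T, d < e → y d ≠ y e ∧ c (y d) (y e) = b := by
          intro d e hde
          refine ⟨fun h6 => (h4 d).2.1 ?_, ((h4 e).2.2 d hde _ (hy1 d)).trans (hy2 d)⟩
          rw [h6]
          exact (h4 e).1 d hde
        have h6 : Function.Injective y := by
          intro d e hde
          rcases lt_trichotomy d e with h7 | h7 | h7
          · exact absurd hde (h5 d e h7).1
          · exact h7
          · exact absurd hde.symm (h5 e d h7).1
        refine hno ⟨range y, b, ?_, ?_⟩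
        · rw [mk_range_eq _ h6]
          exact le_antisymm (mk_set_le _) (not_lt.1 h3)
        · rintro _ ⟨d, rfl⟩ _ ⟨e, rfl⟩ hne
          rcases lt_trichotomy d e with h7 | h7 | h7
          · exact (h5 d e h7).2
          · exact absurd (congrArg y h7) hne
          · rw [hsym]
            exact (h5 e d h7).2
      obtain ⟨z, hz⟩ := bound h T h2
      exact ⟨max z μ, le_max_right _ _, fun d y g1 g2 => lt_max_of_lt_left (hz d ⟨y, g1, g2⟩)⟩
    choose f hf1 hf2 using h1
    refine ⟨fun e => (x e, τ x e), f, fun d hd => ?_⟩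
    have h2 : Z x d = none := by
      by_contra h3
      obtain ⟨y, hy⟩ := Option.ne_none_iff_exists'.1 h3
      have h4 := hpick1 _ _ ((hZ x d).symm.trans hy)
      obtain ⟨b0, hb0⟩ := hd.1
      have h5 : μ < d := lt_of_le_of_lt (hf1 b0) (hd.2 b0 hb0)
      have h6 := hc y x d ⟨h4.2.1, fun e he => not_lt.1 (fun h7 => he (h4.1 e h7))⟩
      rw [max_eq_left h5.le] at h6
      exact lt_asymm (hd.2 _ h6) (hf2 _ d y hy rfl)
    cases hx : x d with
    | true => exact decide_eq_true ⟨x, hx, fun _ _ => rfl⟩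
    | false =>
      refine decide_eq_false ?_
      rintro ⟨x', g1, g2⟩
      have g3 : ∀ e, e < d → x' e = x e ∧ τ x' e = τ x e := fun e he =>
        ⟨congrArg Prod.fst (g2 e he), congrArg Prod.snd (g2 e he)⟩
      refine hpick2 _ ((hZ x d).symm.trans h2) x' ⟨fun e he => (g3 e he).1, by rw [g1, hx]; simp,
        fun e he y' hy' => ?_⟩
      rw [← hτ x e y' hy', ← hτ x' e y' ((hloc x x' d g3 e he).trans hy')]
      exact (g3 e he).2

theorem least_jump {n k : Cardinal.{u}} (hn : ℵ₀ ≤ n) (hnk : (2 : Cardinal.{u}) ^ n < 2 ^ k) :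
    ∃ l : Cardinal.{u}, l ≤ k ∧ n < l ∧ l.IsRegular ∧ (2 : Cardinal.{u}) ^ n < 2 ^ l ∧
      l ≤ 2 ^ n ∧ ∀ m, m < l → (2 : Cardinal.{u}) ^ m ≤ 2 ^ n := by
  let l := sInf {l : Cardinal.{u} | (2 : Cardinal.{u}) ^ n < 2 ^ l}
  have h1 : (2 : Cardinal.{u}) ^ n < 2 ^ l :=
    csInf_mem (s := {l : Cardinal.{u} | (2 : Cardinal.{u}) ^ n < 2 ^ l}) ⟨k, hnk⟩
  have h2 : ∀ m, m < l → (2 : Cardinal.{u}) ^ m ≤ 2 ^ n := fun m hm =>
    not_lt.1 (fun h => absurd hm (not_lt.2 (csInf_le' h)))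
  have h3 : n < l := by
    by_contra h
    exact absurd h1 (not_lt.2 (power_le_power_left (by norm_num) (not_lt.1 h)))
  have h4 : ℵ₀ ≤ l := hn.trans h3.le
  refine ⟨l, csInf_le' hnk, h3, ⟨h4, ?_⟩, h1, ?_, h2⟩
  · by_contra h5
    have h6 : l.ord.cof < l := not_le.1 h5
    obtain ⟨S, hS1, hS2⟩ := Order.exists_cof_eq l.ord.ToType
    rw [Ordinal.cof_toType] at hS2
    have h7 : #(l.ord.ToType → Bool) ≤ #(∀ s : S, Iic (s : l.ord.ToType) → Bool) := by
      refine mk_le_of_injective (f := fun x s y => x y) (fun x x' hx => funext (fun y => ?_))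
      obtain ⟨s, hs1, hs2⟩ := hS1 y
      exact congrFun (congrFun hx ⟨s, hs1⟩) ⟨y, hs2⟩
    have h8 : #(l.ord.ToType → Bool) = 2 ^ l := by
      rw [mk_fb, mk_ord_toType]
    rw [h8, mk_pi] at h7
    have h9 : prod (fun s : S => #(Iic (s : l.ord.ToType) → Bool)) ≤ prod (fun _ : S => 2 ^ n) := by
      refine prod_le_prod _ _ (fun s => ?_)
      rw [mk_fb]
      have : #(Iic (s : l.ord.ToType)) < l := by
        simpa using mk_Iic_lt (s : l.ord.ToType) (by simp) (by simpa using h4)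
      simpa using h2 _ this
    rw [prod_const', ← power_mul, hS2] at h9
    exact absurd h1 (not_lt.2 (h7.trans (h9.trans (h2 _ (mul_lt_of_lt h4 h3 h6)))))
  · by_contra h5
    exact absurd (cantor (2 ^ n)) (not_lt.2 (h2 _ (not_le.1 h5)))

theorem transfer (k : Cardinal.{u}) (c : Sym2 (k.ord.ToType → Bool) → k.ord.ToType)
    (μ : k.ord.ToType) (hc : ∀ x y d, IsLeast {i | x i ≠ y i} d → c s(x, y) < max d μ)
    (hlt : (2 : Cardinal.{u}) ^ (max #(Iio μ) ℵ₀) < 2 ^ k) :
    ∃ (Y : Set (k.ord.ToType → Bool)) (i : k.ord.ToType), max #(Iio μ) ℵ₀ < #Y ∧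
      ∀ x ∈ Y, ∀ y ∈ Y, x ≠ y → c s(x, y) = i := by
  classical
  obtain ⟨l, h1, h2, h3, h4, h5, h6⟩ := least_jump (le_max_right _ _) hlt
  have hu : ℵ₀ < l := lt_of_le_of_lt (le_max_right _ _) h2
  have hG := good_of_regular l h3 hu
  let e : l.ord.ToType ≤i k.ord.ToType := Ordinal.initialSegToType (ord_le_ord.2 h1)
  obtain ⟨m, hm⟩ : μ ∈ range e := by
    by_contra h7
    have h8 : ∀ w, e w < μ := fun w => not_le.1 (fun h9 => h7 (e.mem_range_of_le h9))
    have h9 := mk_le_of_injective (f := fun w => (⟨e w, h8 w⟩ : Iio μ))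
      (fun a b hab => e.injective (congrArg Subtype.val hab))
    rw [mk_ord_toType] at h9
    exact absurd h2 (not_lt.2 (h9.trans (le_max_left _ _)))
  let hat : (l.ord.ToType → Bool) → k.ord.ToType → Bool := fun x => Function.extend e x (fun _ => false)
  have hhat : ∀ x w, hat x (e w) = x w := fun x w => e.injective.extend_apply _ _ _
  have hinj : Function.Injective hat := by
    intro x y hxy
    funext w
    rw [← hhat x w, ← hhat y w, hxy]
  let c' : (l.ord.ToType → Bool) → (l.ord.ToType → Bool) → l.ord.ToType := fun x y =>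
    if h : ∃ w, e w = c s(hat x, hat y) then h.choose else m
  have h7 : ∀ x y d, IsLeast {i | x i ≠ y i} d →
      c s(hat x, hat y) = e (c' x y) ∧ c' x y < max d m := by
    intro x y d hd
    have h8 := hc (hat x) (hat y) (e d) ⟨by simpa [hhat] using hd.1, fun z hz => ?_⟩
    · have h9 : max (e d) μ = e (max d m) := by
        rw [← hm]
        exact (e.monotone.map_max).symm
      rw [h9] at h8
      have h10 : ∃ w, e w = c s(hat x, hat y) := e.mem_range_of_le h8.le
      have h11 : e (c' x y) = c s(hat x, hat y) := by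
        simp only [c', dif_pos h10]
        exact h10.choose_spec
      exact ⟨h11.symm, e.lt_iff_lt.1 (h11 ▸ h8)⟩
    · by_contra h9
      obtain ⟨w, rfl⟩ := e.mem_range_of_le (not_le.1 h9).le
      have h10 : x w ≠ y w := by simpa [hhat] using hz
      exact h9 (e.monotone (hd.2 h10))
  obtain ⟨Y, i, hY1, hY2⟩ := mono_set hG (N := (max #(Iio μ) ℵ₀).out) (by simpa using h2)
    (by simp) (by simpa using h5) (fun a => by
      rw [mk_out]
      exact h6 _ (by simpa using mk_Iio_lt a (by simp))) (by simpa using h4) c'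
    (fun x y => by simp only [c', Sym2.eq_swap (a := hat x)]) m (fun x y d hd => (h7 x y d hd).2)
  refine ⟨hat '' Y, e i, ?_, ?_⟩
  · rw [mk_image_eq hinj, hY1, mk_ord_toType]
    exact h2
  · rintro _ ⟨x, hx, rfl⟩ _ ⟨y, hy, rfl⟩ hne
    have h8 : x ≠ y := fun h => hne (congrArg hat h)
    have h9 : ({i | x i ≠ y i} : Set l.ord.ToType).Nonempty := Function.ne_iff.1 h8
    rw [(h7 x y _ ⟨wellFounded_lt.min_mem _ h9, fun z hz => not_lt.1
      (wellFounded_lt.not_lt_min _ hz)⟩).1, hY2 x hx y hy h8]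

end Pool.Agent.H25.WeakDiamond
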