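import Mathlib
import Pool.Agent.H25.WeakDiamond

set_option autoImplicit false

open Cardinal Set

universe u

namespace Pool.Agent.H25.AlmostReg

theorem main (κ : Cardinal.{u}) (hu : ℵ₀ < κ) (hpow : ∀ μ, μ < κ → (2 : Cardinal.{u}) ^ μ < 2 ^ κ)
    (c : Sym2 (κ.ord.ToType → Bool) → κ.ord.ToType) (μ : κ.ord.ToType)
    (hc : ∀ x y d, IsLeast {i | x i ≠ y i} d → c s(x, y) < max d μ) :
    ∃ (Y : Set (κ.ord.ToType → Bool)) (i : κ.ord.ToType), ℵ₀ < #Y ∧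
      ∀ x ∈ Y, ∀ y ∈ Y, x ≠ y → c s(x, y) = i := by
  obtain ⟨Y, i, h1, h2⟩ := WeakDiamond.transfer κ c μ hc
    (hpow _ (max_lt (by simpa using mk_Iio_lt μ (by simp)) hu))
  exact ⟨Y, i, lt_of_le_of_lt (le_max_right _ _) h1, h2⟩

end Pool.Agent.H25.AlmostReg
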