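import Pool.Agent.H25.NSIdeal

/-! A fusion lemma for unboundedly splitting trees and a closure-point lemma. -/

set_option autoImplicit false

namespace Pool.Agent.H25.Namba

open Cardinal Set Pool.Agent.H25.NSIdeal

variable {W : Type} [LinearOrder W] [WellFoundedLT W]

theorem splitE (h : Good W) : ∃ g : W → W, #W ≤ #{c | ¬ Thin {a | a ∈ E W ∧ g a = c}} := by
  classical
  have h1 : ∀ a : W, ∃ s : ℕ → W, a ∈ E W → (∀ n, s n < a) ∧ ∀ b, b < a → ∃ n, b < s n := by
    intro a
    by_cases ha : a ∈ E W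
    · obtain ⟨s, hs⟩ := ha
      exact ⟨s, fun _ => hs⟩
    · exact ⟨fun _ => a, fun h => absurd h ha⟩
  choose s hs using h1
  by_contra h2
  push Not at h2
  have h3 : #(⋃ n, {c | ¬ Thin {a | a ∈ E W ∧ s a n = c}}) < #W :=
    card_nat_union h _ (fun n => h2 (fun a => s a n))
  obtain ⟨b, hb⟩ := bound h _ h3
  apply not_small_E h
  have h4 : ∀ n, Thin {a | a ∈ E W ∧ b < s a n} := by
    intro n
    refine small_of_fibres h _ (fun a => s a n) (fun a ha => (hs a ha.1).1 n) (fun c => ?_)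
    by_cases hc : b < c
    · have : Thin {a | a ∈ E W ∧ s a n = c} := by
        by_contra h5
        exact lt_asymm hc (hb c (mem_iUnion.2 ⟨n, h5⟩))
      refine small_mono ?_ this
      intro a ha
      exact ⟨ha.1.1, ha.2⟩
    · refine small_mono ?_ (small_empty h)
      intro a ha
      exact hc (ha.2 ▸ ha.1.2)
  refine small_mono ?_ (small_union h (small_of_card_lt _ (h.iic b)) (small_iUnion h _ h4))
  intro a ha
  by_cases hab : a ≤ b
  · exact Or.inl hab
  · obtain ⟨n, hn⟩ := (hs a ha).2 b (not_le.1 hab)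
    exact Or.inr (mem_iUnion.2 ⟨n, ha, hn⟩)

/-- a labelling all of whose fibres are stationary in cofinality omega -/
theorem labels (h : Good W) (L : Type) [Nonempty L] (hL : #L ≤ #W) :
    ∃ l : W → L, ∀ y, ¬ Thin {a | a ∈ E W ∧ l a = y} := by
  obtain ⟨g, hg⟩ := splitE h
  obtain ⟨e⟩ := (Cardinal.le_def _ _).1 (hL.trans hg)
  have hi : Function.Injective (fun y => (e y : W)) := Subtype.val_injective.comp e.injective
  refine ⟨fun a => Function.invFun (fun y => (e y : W)) (g a), fun y hy => (e y).2 ?_⟩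
  refine small_mono ?_ hy
  intro a ha
  refine ⟨ha.1, ?_⟩
  show Function.invFun (fun y => (e y : W)) (g a) = y
  rw [ha.2]
  exact Function.leftInverse_invFun hi y

theorem unb (h : Good W) {S : Set W} (hS : ¬ Thin S) (b : W) : ∃ a ∈ S, b < a := by
  by_contra hh
  push Not at hh
  exact hS (small_mono (fun a ha => hh a ha) (small_of_card_lt _ (h.iic b)))

theorem hit (h : Good W) {S : Set W} (hSE : S ⊆ E W) (hS : ¬ Thin S) (t : List W → W) :
    ∃ d ∈ S, ∃ s : ℕ → W, (∀ b, b < d → ∃ n, b < s n) ∧ ∀ n, t ((List.range n).map s) < d := by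
  by_contra hh
  push Not at hh
  have h1 : ∀ d, ∃ (c : W) (l : List W), d ∈ S → c < d ∧ (∀ a ∈ l, a ≤ c) ∧ d ≤ t l := by
    intro d
    by_cases hd : d ∈ S
    · obtain ⟨s, hs1, hs2⟩ := hSE hd
      obtain ⟨n, hn⟩ := hh d hd s hs2
      obtain ⟨i, -, hi⟩ := (Finset.range (n + 1)).exists_max_image s ⟨0, by simp⟩
      refine ⟨s i, _, fun _ => ⟨hs1 i, fun a ha => ?_, hn⟩⟩
      obtain ⟨j, hj, rfl⟩ := List.mem_map.1 ha
      exact hi j (Finset.mem_range.2 (Nat.lt_succ_of_lt (List.mem_range.1 hj)))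
    · exact ⟨d, [], fun h' => absurd h' hd⟩
  choose c l hc using h1
  refine hS ⟨c, fun a ha _ => (hc a ha).1, fun g => ?_⟩
  have h2 : #(range (fun l : List (Iic g) => t (l.map Subtype.val))) < #W :=
    mk_range_le.trans_lt ((mk_list_le_max _).trans_lt (max_lt h.unc (h.iic g)))
  obtain ⟨b, hb⟩ := bound h _ h2
  refine lt_of_le_of_lt (mk_le_mk_of_subset fun a ha => ?_) (h.iic b)
  obtain ⟨-, h3, h4⟩ := hc a ha.1
  refine h4.trans (hb _ ⟨(l a).attach.map fun x => ⟨x.1, ha.2 ▸ h3 x.1 x.2⟩, ?_⟩).le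
  simp [List.map_map, Function.comp_def]

section
variable {St L : Type} (nx : St → W → St) (lab : St → L)

def run (s : St) (γ : ℕ → W) : ℕ → St
  | 0 => s
  | k + 1 => nx (run s γ k) (γ k)

omit [LinearOrder W] [WellFoundedLT W] in
theorem run_succ (s : St) (γ : ℕ → W) (k : ℕ) :
    run nx s γ (k + 1) = run nx (nx s (γ 0)) (fun i => γ (i + 1)) k := by
  induction k with
  | zero => rfl
  | succ k ih => rw [run, ih]; rfl

def Bad (x : ℕ → L) (s : St) : Prop :=
  ∃ σ : List W → W, ∀ γ : ℕ → W, (∀ k, σ ((List.range k).map γ) ≤ γ k) →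
    ∃ k, lab (run nx s γ (k + 1)) ≠ x k

omit [WellFoundedLT W] in
theorem good_step {x : ℕ → L} {s : St} (hg : ¬ Bad nx lab x s) (β : W) :
    ∃ γ, β ≤ γ ∧ lab (nx s γ) = x 0 ∧ ¬ Bad nx lab (fun i => x (i + 1)) (nx s γ) := by
  by_contra hh
  push Not at hh
  have h1 : ∀ g, ∃ σ : List W → W, β ≤ g → lab (nx s g) = x 0 → ∀ γ : ℕ → W,
      (∀ k, σ ((List.range k).map γ) ≤ γ k) →
        ∃ k, lab (run nx (nx s g) γ (k + 1)) ≠ x (k + 1) := by
    intro g
    by_cases h : β ≤ g ∧ lab (nx s g) = x 0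
    · obtain ⟨σ, hσ⟩ := hh g h.1 h.2
      exact ⟨σ, fun _ _ => hσ⟩
    · exact ⟨fun _ => β, fun a b => absurd ⟨a, b⟩ h⟩
  choose σ hσ using h1
  refine hg ⟨fun l => match l with | [] => β | g :: l => σ g l, fun γ hγ => ?_⟩
  by_cases h0 : lab (nx s (γ 0)) = x 0
  · obtain ⟨k, hk⟩ := hσ (γ 0) (hγ 0) h0 (fun i => γ (i + 1)) (fun k => by
      have := hγ (k + 1)
      rw [List.range_succ_eq_map, List.map_cons, List.map_map] at this
      exact this)
    exact ⟨k + 1, by rwa [run_succ]⟩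
  · exact ⟨0, h0⟩

theorem exists_good (h : Good W) (hL : #(ℕ → L) < #W) (s : St) : ∃ x, ¬ Bad nx lab x s := by
  by_contra hh
  push Not at hh
  choose σ hσ using hh
  have h1 : ∀ l : List W, ∃ b, ∀ x, σ x l < b := fun l => by
    obtain ⟨b, hb⟩ := bound h (range fun x => σ x l) (mk_range_le.trans_lt hL)
    exact ⟨b, fun x => hb _ ⟨x, rfl⟩⟩
  choose b hb using h1
  let M : ℕ → List W := fun k => Nat.rec [] (fun _ l => l ++ [b l]) k
  have hM : ∀ k, (List.range k).map (fun i => b (M i)) = M k := by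
    intro k
    induction k with
    | zero => rfl
    | succ k ih => rw [List.range_succ, List.map_append, ih]; rfl
  obtain ⟨k, hk⟩ := hσ (fun k => lab (run nx s (fun i => b (M i)) (k + 1))) (fun i => b (M i))
    (fun k => by rw [hM]; exact (hb _ _).le)
  exact hk rfl

/-- some sequence of labels is realised by a run whose heights converge to a point of any
prescribed stationary set -/
theorem fusion (h : Good W) (hL : #(ℕ → L) < #W) (s : St) (ht : St → W) :
    ∃ x : ℕ → L, ∀ S ⊆ E W, ¬ Thin S → ∃ d ∈ S, ∃ γ : ℕ → W, (∀ b, b < d → ∃ n, b < γ n) ∧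
      ∀ n, ht (run nx s γ n) < d ∧ lab (run nx s γ (n + 1)) = x n := by
  obtain ⟨x, hx⟩ := exists_good nx lab h hL s
  refine ⟨x, fun S hSE hS => ?_⟩
  have h1 : ∀ (p : ℕ × St) (β : W), ∃ γ, ¬ Bad nx lab (fun i => x (i + p.1)) p.2 →
      β ≤ γ ∧ lab (nx p.2 γ) = x p.1 ∧ ¬ Bad nx lab (fun i => x (i + (p.1 + 1))) (nx p.2 γ) := by
    intro p β
    by_cases hp : ¬ Bad nx lab (fun i => x (i + p.1)) p.2
    · obtain ⟨γ, a1, a2, a3⟩ := good_step nx lab hp β
      refine ⟨γ, fun _ => ⟨a1, by simpa using a2, ?_⟩⟩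
      convert a3 using 4
      omega
    · exact ⟨β, fun h' => absurd h' hp⟩
  choose ch hch using h1
  let R : List W → ℕ × St := fun l => l.foldl (fun p β => (p.1 + 1, nx p.2 (ch p β))) (0, s)
  obtain ⟨d, hd, u, hu1, hu2⟩ := hit h hSE hS (fun l => ht (R l).2)
  let γ : ℕ → W := fun n => ch (R ((List.range n).map u)) (u n)
  have hR : ∀ n, R ((List.range n).map u) = (n, run nx s γ n) ∧
      ¬ Bad nx lab (fun i => x (i + n)) (run nx s γ n) := by
    intro n
    induction n with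
    | zero => exact ⟨rfl, hx⟩
    | succ n ih =>
      have e1 : γ n = ch (n, run nx s γ n) (u n) := by simp only [γ]; rw [ih.1]
      constructor
      · rw [List.range_succ, List.map_append]
        simp only [R, List.foldl_append, List.map_cons, List.map_nil, List.foldl_cons,
          List.foldl_nil]
        have := ih.1
        simp only [R] at this
        rw [this, run, e1]
      · rw [run, e1]
        exact (hch (n, run nx s γ n) (u n) ih.2).2.2
  have e1 : ∀ n, γ n = ch (n, run nx s γ n) (u n) := fun n => by simp only [γ]; rw [(hR n).1]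
  refine ⟨d, hd, γ, fun b hb => ?_, fun n => ⟨?_, ?_⟩⟩
  · obtain ⟨n, hn⟩ := hu1 b hb
    exact ⟨n, hn.trans_le (e1 n ▸ (hch (n, run nx s γ n) (u n) (hR n).2).1)⟩
  · have := hu2 n
    simp only [(hR n).1] at this
    exact this
  · rw [run, e1]
    exact (hch (n, run nx s γ n) (u n) (hR n).2).2.1

end

end Pool.Agent.H25.Namba
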