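import Mathlib
import Pool.Agent.H25.Namba
import Pool.Agent.H25.NSIdealU

set_option autoImplicit false

namespace Pool.Agent.H25.Aron

open Set Filter Topology Pool.Agent.H25.NSIdeal
open Cardinal (aleph0 aleph)

theorem trec {J α : Type} [LinearOrder J] [WellFoundedLT J] [Nonempty α] (P : J → α → Prop)
    (R : J → α → α → Prop) (h : ∀ j (f : Iio j → α), (∀ i : Iio j, P i (f i)) →
      (∀ i k : Iio j, i < k → R i (f i) (f k)) → ∃ a, P j a ∧ ∀ i : Iio j, R i (f i) a) :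
    ∃ f : J → α, ∀ j, P j (f j) ∧ ∀ i, i < j → R i (f i) (f j) := by
  choose! st h1 h2 using h
  let f : J → α := fun j => WellFounded.fix wellFounded_lt
    (fun j (g : ∀ i, i < j → α) => st j fun i => g i.1 i.2) j
  have hf : ∀ j, f j = st j fun i => f i.1 := fun j => WellFounded.fix_eq _ _ _
  refine ⟨f, fun j => ?_⟩
  induction j using WellFoundedLT.induction with
  | ind j ih =>
    have a : ∀ i : Iio j, P i (f i) := fun i => (ih i i.2).1
    have b : ∀ i k : Iio j, i < k → R i (f i) (f k) := fun i k h => (ih k k.2).2 i h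
    exact ⟨hf j ▸ h1 j _ a b, fun i hi => by rw [hf j]; exact h2 j (fun i => f i.1) a b ⟨i, hi⟩⟩

abbrev W : Type := (aleph.{0} 1).ord.ToType

theorem mkW : Cardinal.mk W = aleph 1 := by simp

theorem good : Good W :=
  let h := NSIdealU.good_of_regular (aleph.{0} 1) Cardinal.isRegular_aleph_one
    Cardinal.aleph0_lt_aleph_one
  ⟨h.1, h.2, h.3⟩

theorem ctb {s : Set W} : s.Countable ↔ Cardinal.mk s < Cardinal.mk W := by
  rw [mkW, Cardinal.countable_iff_lt_aleph_one]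

theorem iic (a : W) : (Iic a).Countable := ctb.2 (good.iic a)

theorem bnd {s : Set W} (h : s.Countable) : ∃ b, ∀ a ∈ s, a < b := bound good s (ctb.1 h)

theorem coh : ∃ e : W → W → ℕ, ∀ a, (∀ n, {x | x < a ∧ e a x ≤ n}.Finite) ∧
    ∀ b, b < a → {x | x < b ∧ e b x ≠ e a x}.Finite := by
  classical
  refine trec (fun a (f : W → ℕ) => ∀ n, {x | x < a ∧ f x ≤ n}.Finite)
    (fun b f g => {x | x < b ∧ f x ≠ g x}.Finite) fun a f h1 h2 => ?_
  have := ((iic a).mono Iio_subset_Iic_self).to_subtype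
  obtain ⟨c, hc⟩ := exists_injective_nat (Iio a)
  have h3 : ∀ x : W, ∃ o : Option (Iio a), (∀ b : Iio a, x < b → ∃ d, o = some d ∧ c d ≤ c b) ∧
      ∀ d : Iio a, o = some d → x < d := fun x => by
    by_cases h : ∃ b : Iio a, x < b
    · obtain ⟨d, d1, d2⟩ := (InvImage.wf c wellFounded_lt).has_min {b : Iio a | x < b} h
      exact ⟨some d, fun b hb => ⟨d, rfl, not_lt.1 (d2 b hb)⟩, fun _ e => Option.some.inj e ▸ d1⟩
    · exact ⟨none, fun b hb => absurd ⟨b, hb⟩ h, by simp⟩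
  choose o o1 o2 using h3
  have h4 : ∀ n, {d | c d ≤ n}.Finite := fun n => (finite_Iic n).preimage hc.injOn
  have h5 : ∀ b d : Iio a, {x | x < b.1 ∧ x < d.1 ∧ f b x ≠ f d x}.Finite := fun b d => by
    rcases lt_trichotomy b d with h | rfl | h
    · exact (h2 b d h).subset fun x hx => ⟨hx.1, hx.2.2⟩
    · simp
    · exact (h2 d b h).subset fun x hx => ⟨hx.2.1, hx.2.2.symm⟩
  refine ⟨fun x => (o x).elim 0 fun d => max (c d) (f d x), fun n => ?_, fun b => ?_⟩
  · have h6 : {x | x < a ∧ o x = none}.Finite := Set.Subsingleton.finite fun x hx y hy => by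
      by_contra hne
      rcases lt_or_gt_of_ne hne with h | h
      · simpa [hx.2] using o1 x ⟨y, hy.1⟩ h
      · simpa [hy.2] using o1 y ⟨x, hx.1⟩ h
    refine (h6.union ((h4 n).biUnion fun d _ => h1 d n)).subset fun x hx => ?_
    rcases h : o x with _ | d
    · exact .inl ⟨hx.1, h⟩
    · have := hx.2
      simp only [h, Option.elim_some, max_le_iff] at this
      exact .inr (mem_biUnion this.1 ⟨o2 x d h, this.2⟩)
  · refine ((h4 (c b)).biUnion fun d _ => (h1 d (c d)).union (h5 b d)).subset fun x hx => ?_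
    obtain ⟨d, d1, d2⟩ := o1 x b hx.1
    have := hx.2
    simp only [d1, Option.elim_some] at this
    refine mem_biUnion d2 ?_
    by_cases h : f d x ≤ c d
    · exact .inl ⟨o2 x d d1, h⟩
    · exact .inr ⟨hx.1, o2 x d d1, by rwa [max_eq_right (not_le.1 h).le] at this⟩

noncomputable def e : W → W → ℕ := coh.choose

open Classical in
noncomputable def r (f : W → ℕ) (a : W) : W → ℕ := fun x => if x < a then f x else 0

theorem r_lt (f : W → ℕ) {a x : W} (h : x < a) : r f a x = f x := if_pos h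

theorem r_congr {f g : W → ℕ} {a : W} (h : ∀ x < a, f x = g x) : r f a = r g a := funext fun x => by
  by_cases hx : x < a
  · rw [r_lt f hx, r_lt g hx, h x hx]
  · simp [r, hx]

/-- nodes of the tree -/
def T : Type := {p : W × (W → ℕ) // ∃ b, p.1 ≤ b ∧ p.2 = r (e b) p.1}

def T.ht (t : T) : W := t.1.1

def T.fn (t : T) : W → ℕ := t.1.2

theorem T.spec (t : T) : ∃ b, t.ht ≤ b ∧ t.fn = r (e b) t.ht := t.2

theorem T.spec' (t : T) : ∃ b, t.ht ≤ b ∧ ∀ x < t.ht, t.fn x = e b x := by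
  obtain ⟨b, h1, h2⟩ := t.spec
  exact ⟨b, h1, fun x hx => by rw [h2, r_lt _ hx]⟩

theorem T.ext' {t u : T} (h : t.ht = u.ht) (h' : ∀ x < t.ht, t.fn x = u.fn x) : t = u := by
  obtain ⟨b, -, h1⟩ := t.spec
  obtain ⟨c, -, h2⟩ := u.spec
  refine Subtype.ext (Prod.ext h (funext fun x => ?_))
  by_cases hx : x < t.ht
  · exact h' x hx
  · change t.fn x = u.fn x
    rw [h1, h2, ← h]
    simp [r, hx]

noncomputable def T.res (t : T) (a : W) (h : a ≤ t.ht) : T :=
  ⟨(a, r t.fn a), by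
    obtain ⟨b, h1, h2⟩ := t.spec'
    exact ⟨b, h.trans h1, r_congr fun x hx => h2 x (hx.trans_le h)⟩⟩

noncomputable def node (a : W) : T := ⟨(a, r (e a) a), a, le_rfl, rfl⟩

theorem fin1 (t : T) (n : ℕ) : {x | x < t.ht ∧ t.fn x = n}.Finite := by
  obtain ⟨b, h1, h2⟩ := t.spec'
  exact ((coh.choose_spec b).1 n).subset fun x hx =>
    ⟨hx.1.trans_le h1, ((h2 x hx.1).symm.trans hx.2).le⟩

theorem level (a : W) : {t : T | t.ht = a}.Countable := by
  have h1 : ∀ t : T, t.ht = a → {x | x < a ∧ e a x ≠ t.fn x}.Finite := by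
    rintro t rfl
    obtain ⟨b, h1, h2⟩ := t.spec'
    rcases h1.eq_or_lt with h | h
    · exact finite_empty.subset fun x hx => hx.2 (by rw [h2 x hx.1, h])
    · exact ((coh.choose_spec b).2 _ h).subset fun x hx =>
        ⟨hx.1, fun h => hx.2 (h.trans (h2 x hx.1).symm)⟩
  refine MapsTo.countable_of_injOn
    (f := fun t : T => {p : W × ℕ | p.1 < a ∧ e a p.1 ≠ t.fn p.1 ∧ p.2 = t.fn p.1})
    (fun t ht => by exact ⟨((h1 t ht).image fun x => (x, t.fn x)).subset fun p hp =>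
      ⟨p.1, ⟨hp.1, hp.2.1⟩, Prod.ext rfl hp.2.2.symm⟩, fun p hp => ⟨hp.1.le, mem_univ _⟩⟩)
    (fun t ht u hu h => T.ext' (ht.trans hu.symm) fun x hx => ?_)
    (countable_ofPred_finite_subset ((iic a).prod countable_univ))
  have hx' : x < a := ht ▸ hx
  by_cases h2 : e a x = t.fn x
  · by_cases h3 : e a x = u.fn x
    · rw [← h2, h3]
    · exact (h.ge (show (x, u.fn x) ∈ _ from ⟨hx', h3, rfl⟩)).2.2.symm
  · exact (h.le (show (x, t.fn x) ∈ _ from ⟨hx', h2, rfl⟩)).2.2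

theorem levels (a : W) : {t : T | t.ht ≤ a}.Countable :=
  ((iic a).biUnion fun b _ => level b).mono fun t ht => mem_iUnion₂.2 ⟨t.ht, ht, rfl⟩

theorem chain (Z : Set T) (hZ : ∀ b, ∃ t ∈ Z, b < t.ht)
    (h : ∀ t ∈ Z, ∀ u ∈ Z, ∀ x, x < t.ht → x < u.ht → t.fn x = u.fn x) : False := by
  choose t t1 t2 using hZ
  have : Uncountable W := Cardinal.aleph0_lt_mk_iff.1 good.unc
  obtain ⟨n, hn⟩ : ∃ n, {x | (t x).fn x = n}.Infinite := by
    by_contra hn
    push Not at hn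
    exact not_countable_univ ((countable_iUnion fun n => (hn n).countable).mono fun x _ =>
      mem_iUnion.2 ⟨(t x).fn x, rfl⟩)
  obtain ⟨s, s1, s3, s2⟩ := hn.exists_subset_countable_infinite
  obtain ⟨b, hb⟩ := bnd s3
  exact s2 ((fin1 (t b) n).subset fun x hx => ⟨(hb x hx).trans (t2 b),
    (h _ (t1 b) _ (t1 x) x ((hb x hx).trans (t2 b)) (t2 x)).trans (s1 hx)⟩)

/-- the cone above the restriction of `g` to `a` -/
def C (a : W) (g : W → ℕ) : Set T := {u | a < u.ht ∧ ∀ x < a, g x = u.fn x}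

def N (t : T) (a : W) : Set T := C a t.fn \ C t.ht t.fn

theorem core {S : Set W} (hS : ¬ Thin S) (ξ : T → W) (hξ : ∀ t, t.ht ∈ S → ξ t < t.ht) :
    ∃ c, ∀ y : T, c < y.ht → ∃ t : T, t.ht ∈ S ∧ t.ht ≤ c ∧ y ∈ N t (ξ t) := by
  by_contra hn
  push Not at hn
  choose y y1 y2 using hn
  let t : W → T := fun a => (y a).res a (y1 a).le
  obtain ⟨g, hg⟩ : ∃ g, ¬ {a | a ∈ S ∧ ξ (t a) = g}.Countable := by
    by_contra hn
    push Not at hn
    exact hS ⟨fun a => ξ (t a), fun a ha _ => hξ (t a) ha, fun g => ctb.1 (hn g)⟩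
  obtain ⟨s, hs⟩ : ∃ s : T, ¬ {a | (a ∈ S ∧ ξ (t a) = g) ∧ ∀ x < g, s.fn x = (y a).fn x}.Countable := by
    by_contra hn
    push Not at hn
    refine hg (((level g).biUnion fun s _ => hn s).mono fun a ha => ?_)
    exact mem_biUnion (x := (y a).res g ((ha.2 ▸ hξ (t a) ha.1).le.trans (y1 a).le)) rfl
      ⟨ha, fun x hx => r_lt _ hx⟩
  have key : ∀ a ∈ {a | (a ∈ S ∧ ξ (t a) = g) ∧ ∀ x < g, s.fn x = (y a).fn x},
      ∀ b ∈ {a | (a ∈ S ∧ ξ (t a) = g) ∧ ∀ x < g, s.fn x = (y a).fn x}, a ≤ b →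
      ∀ x < a, (t a).fn x = (t b).fn x := by
    intro a ha b hb hab x hx
    have h1 : g < a := ha.1.2 ▸ hξ (t a) ha.1.1
    have h2 : y b ∈ C (t a).ht (t a).fn := by
      by_contra h
      refine y2 b (t a) ha.1.1 hab ⟨⟨ha.1.2 ▸ h1.trans_le (hab.trans (y1 b).le), fun z hz => ?_⟩, h⟩
      rw [ha.1.2] at hz
      exact (r_lt _ (hz.trans h1)).trans ((ha.2 z hz).symm.trans (hb.2 z hz))
    exact (h2.2 x hx).trans (r_lt _ (hx.trans_le hab)).symm
  refine chain (t '' {a | (a ∈ S ∧ ξ (t a) = g) ∧ ∀ x < g, s.fn x = (y a).fn x})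
    (fun b => ?_) ?_
  rotate_left
  · rintro _ ⟨a, ha, rfl⟩ _ ⟨b, hb, rfl⟩ x h1 h2
    rcases le_total a b with h | h
    · exact key a ha b hb h x h1
    · exact (key b hb a ha h x h2).symm
  · by_contra hn
    push Not at hn
    exact hs ((iic b).mono fun a ha => hn _ ⟨a, ha, rfl⟩)

end Pool.Agent.H25.Aron
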