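import Mathlib
import Pool.Agent.H25.Aron

set_option autoImplicit false

namespace Pool.Agent.H25.Aron

open Set Filter Topology Pool.Agent.H25.NSIdeal

theorem lab : ∃ l : W → Bool, ∀ y, ¬ Thin {a | a ∈ E W ∧ l a = y} :=
  Namba.labels good Bool ((Cardinal.mk_le_aleph0).trans good.unc.le)

def S (b : Bool) : Set W := {a | a ∈ E W ∧ lab.choose a = b}

theorem S_lim {b : Bool} {a x : W} (h : a ∈ S b) (hx : x < a) : ∃ y, x < y ∧ y < a := by
  obtain ⟨s, h1, h2⟩ := h.1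
  obtain ⟨n, hn⟩ := h2 x hx
  exact ⟨s n, hn, h1 n⟩

theorem S_ne {b : Bool} {a : W} (h : a ∈ S b) : ∃ y, y < a := by
  obtain ⟨s, h1, -⟩ := h.1
  exact ⟨s 0, h1 0⟩

theorem N_anti (t : T) {a b : W} (h : a ≤ b) : N t b ⊆ N t a := fun _ hu =>
  ⟨⟨h.trans_lt hu.1.1, fun x hx => hu.1.2 x (hx.trans_le h)⟩, hu.2⟩

theorem N_self (t : T) {a : W} (h : a < t.ht) : t ∈ N t a :=
  ⟨⟨h, fun _ _ => rfl⟩, fun h => lt_irrefl _ h.1⟩

def X : Type := T × Bool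

instance : TopologicalSpace X where
  IsOpen U := ∀ x ∈ U, x.1.ht ∈ S x.2 → ∃ a < x.1.ht, ∀ u ∈ N x.1 a, (u, x.2) ∈ U
  isOpen_univ := fun _ _ h => let ⟨y, hy⟩ := S_ne h; ⟨y, hy, fun _ _ => trivial⟩
  isOpen_inter := by
    intro U V hU hV x hx h
    obtain ⟨a, a1, a2⟩ := hU x hx.1 h
    obtain ⟨b, b1, b2⟩ := hV x hx.2 h
    exact ⟨max a b, max_lt a1 b1, fun u hu => ⟨a2 u (N_anti _ (le_max_left _ _) hu),
      b2 u (N_anti _ (le_max_right _ _) hu)⟩⟩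
  isOpen_sUnion := by
    rintro s hs x ⟨U, hU, hx⟩ h
    obtain ⟨a, a1, a2⟩ := hs U hU x hx h
    exact ⟨a, a1, fun u hu => ⟨U, hU, a2 u hu⟩⟩

theorem open_iff (U : Set X) :
    IsOpen U ↔ ∀ x ∈ U, x.1.ht ∈ S x.2 → ∃ a < x.1.ht, ∀ u ∈ N x.1 a, (u, x.2) ∈ U := Iff.rfl

theorem lab_clopen (b : Bool) : IsClopen {x : X | x.2 = b} :=
  ⟨isOpen_compl_iff.1 ((open_iff _).2 fun _ hx h => let ⟨y, hy⟩ := S_ne h; ⟨y, hy, fun _ _ => hx⟩),
    (open_iff _).2 fun _ hx h => let ⟨y, hy⟩ := S_ne h; ⟨y, hy, fun _ _ => hx⟩⟩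

theorem C_clopen (a : W) (g : W → ℕ) : IsClopen {x : X | x.1 ∈ C a g} := by
  refine ⟨isOpen_compl_iff.1 ((open_iff _).2 fun x hx h => ?_), (open_iff _).2 fun x hx _ =>
    ⟨a, hx.1, fun u hu => ⟨hu.1.1, fun z hz => (hx.2 z hz).trans (hu.1.2 z hz)⟩⟩⟩
  by_cases h1 : ∃ z, z < a ∧ z < x.1.ht ∧ g z ≠ x.1.fn z
  · obtain ⟨z, z1, z2, z3⟩ := h1
    obtain ⟨y, y1, y2⟩ := S_lim h z2
    exact ⟨y, y2, fun u hu hc => z3 ((hc.2 z z1).trans (hu.1.2 z y1).symm)⟩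
  · push Not at h1
    have h2 : x.1.ht ≤ a := not_lt.1 fun h' => hx ⟨h', fun z hz => h1 z hz (hz.trans h')⟩
    obtain ⟨y, hy⟩ := S_ne h
    exact ⟨y, hy, fun u hu hc => hu.2 ⟨h2.trans_lt hc.1, fun z hz =>
      (h1 z (hz.trans_le h2) hz).symm.trans (hc.2 z (hz.trans_le h2))⟩⟩

theorem N_clopen (x : X) (a : W) : IsClopen {y : X | y.1 ∈ N x.1 a ∧ y.2 = x.2} :=
  ((C_clopen _ _).diff (C_clopen _ _)).inter (lab_clopen _)

instance : T1Space X := ⟨fun y => isOpen_compl_iff.1 ((open_iff _).2 fun x hx h => by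
  by_cases h1 : x.2 = y.2
  swap
  · obtain ⟨z, hz⟩ := S_ne h
    exact ⟨z, hz, fun u _ e => h1 (congrArg Prod.snd (show (u, x.2) = y from e) :)⟩
  by_cases h2 : y.1.ht < x.1.ht
  · exact ⟨_, h2, fun u hu e => lt_irrefl _ ((show u = y.1 from congrArg Prod.fst e) ▸ hu.1.1)⟩
  by_cases h3 : ∃ z < x.1.ht, x.1.fn z ≠ y.1.fn z
  · obtain ⟨z, z1, z2⟩ := h3
    obtain ⟨w, w1, w2⟩ := S_lim h z1
    exact ⟨w, w2, fun u hu e => z2 ((show u = y.1 from congrArg Prod.fst e) ▸ hu.1.2 z w1)⟩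
  push Not at h2 h3
  obtain ⟨z, hz⟩ := S_ne h
  refine ⟨z, hz, fun u hu e => hu.2 ?_⟩
  rw [show u = y.1 from congrArg Prod.fst e]
  exact ⟨h2.lt_of_ne fun e => hx (Prod.ext (T.ext' e h3) h1), h3⟩)⟩

theorem iso {x : X} (h : x.1.ht ∉ S x.2) : IsOpen {x} :=
  (open_iff _).2 fun _ hy h' => absurd (hy ▸ h') h

theorem t35 : T35Space X := by
  have : CompletelyRegularSpace X := CompletelyRegularSpace.of_isTopologicalBasis_clopens
    (TopologicalSpace.isTopologicalBasis_of_isOpen_of_nhds (fun _ h => h.isOpen) fun x U hx hU => by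
      by_cases h : x.1.ht ∈ S x.2
      · obtain ⟨a, a1, a2⟩ := (open_iff U).1 hU x hx h
        exact ⟨_, N_clopen x a, ⟨N_self _ a1, rfl⟩, fun y hy => by
          have := a2 _ hy.1
          rwa [← hy.2] at this⟩
      · exact ⟨{x}, ⟨isClosed_singleton, iso h⟩, rfl, singleton_subset_iff.2 hx⟩)
  exact {}

theorem low (c : W) : {x : X | x.1.ht ≤ c}.Countable :=
  ((levels c).prod (countable_univ (α := Bool))).mono fun _ hx => by exact ⟨hx, trivial⟩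

theorem cov (U : X → Set X) (hU : ∀ x, U x ∈ 𝓝 x) : ∃ c, ∀ y : X, c < y.1.ht →
    ∃ x : X, x.1.ht ≤ c ∧ ∀ z : X, c < z.1.ht → z.2 = y.2 → (∀ w < c, y.1.fn w = z.1.fn w) →
      z ∈ U x := by
  have h1 : ∀ (b : Bool) (t : T), ∃ a, t.ht ∈ S b → a < t.ht ∧ ∀ u ∈ N t a, (u, b) ∈ U (t, b) := by
    intro b t
    by_cases h : t.ht ∈ S b
    · obtain ⟨V, v1, v2, v3⟩ := mem_nhds_iff.1 (hU (t, b))
      obtain ⟨a, a1, a2⟩ := (open_iff V).1 v2 _ v3 h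
      exact ⟨a, fun _ => ⟨a1, fun u hu => v1 (a2 u hu)⟩⟩
    · exact ⟨t.ht, fun h' => absurd h' h⟩
  choose ξ hξ using h1
  choose c hc using fun b => core (lab.choose_spec b) (ξ b) fun t ht => (hξ b t ht).1
  have h2 : ∀ b, c b ≤ max (c true) (c false) := fun b => by cases b <;> simp
  refine ⟨max (c true) (c false), fun y hy => ?_⟩
  obtain ⟨t, t1, t2, t3⟩ := hc y.2 y.1 ((h2 _).trans_lt hy)
  have t4 := t2.trans (h2 _)
  have t5 := (hξ _ t t1).1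
  refine ⟨(t, y.2), t4, fun z z1 z2 z3 => ?_⟩
  have := (hξ _ t t1).2 z.1 ⟨⟨t5.trans (t4.trans_lt z1), fun w hw =>
    (t3.1.2 w hw).trans (z3 w (hw.trans (t5.trans_le t4)))⟩, fun h => t3.2 ⟨t4.trans_lt hy,
      fun w hw => (h.2 w hw).trans (z3 w (hw.trans_le t4)).symm⟩⟩
  rwa [← z2] at this ⊢

theorem lind : LindelofSpace X := by
  refine ⟨isLindelof_of_countable_subcover fun {ι} U h1 h2 => ?_⟩
  choose i hi using fun x => mem_iUnion.1 (h2 (mem_univ x))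
  obtain ⟨c, hc⟩ := cov (fun x => U (i x)) fun x => (h1 _).mem_nhds (hi x)
  refine ⟨i '' _, (low c).image _, fun y _ => ?_⟩
  rw [biUnion_image]
  by_cases h : y.1.ht ≤ c
  · exact mem_biUnion h (hi y)
  · obtain ⟨x, x1, x2⟩ := hc y (not_le.1 h)
    exact mem_biUnion x1 (x2 y (not_le.1 h) rfl fun _ _ => rfl)

theorem simple {M : Type} [MetricSpace M] (h : X → M) (hh : Continuous h) : (range h).Countable := by
  choose c hc using fun n : ℕ => cov (fun x => h ⁻¹' Metric.ball (h x) (1 / ((n : ℝ) + 1)))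
    fun x => hh.continuousAt (Metric.ball_mem_nhds _ Nat.one_div_pos_of_nat)
  obtain ⟨d, hd⟩ := bnd (countable_range c)
  have hd' : ∀ n, c n < d := fun n => hd _ ⟨n, rfl⟩
  let ρ : {y : X // d < y.1.ht} → {x : X | x.1.ht ≤ d} := fun y =>
    ⟨(y.1.1.res d y.2.le, y.1.2), le_refl d⟩
  have h1 : ∀ y z, ρ y = ρ z → h y = h z := by
    intro y z e
    have e1 : r y.1.1.fn d = r z.1.1.fn d := congrArg (fun x => x.1.1.fn) e
    have e2 : y.1.2 = z.1.2 := congrArg (fun x => x.1.2) e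
    refine eq_of_forall_dist_le fun ε hε => ?_
    obtain ⟨n, hn⟩ := exists_nat_one_div_lt (half_pos hε)
    obtain ⟨x, -, x2⟩ := hc n y ((hd' n).trans y.2)
    have a : dist _ _ < _ := x2 y ((hd' n).trans y.2) rfl fun _ _ => rfl
    have b : dist _ _ < _ := x2 z ((hd' n).trans z.2) e2.symm fun w hw => by
      rw [← r_lt y.1.1.fn (hw.trans (hd' n)), e1, r_lt _ (hw.trans (hd' n))]
    linarith [dist_triangle_right (h y) (h z) (h x)]
  have := (low d).to_subtype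
  choose g hg using fun x : range ρ => x.2
  refine (((low d).image h).union (countable_range fun x => h (g x))).mono ?_
  rintro _ ⟨y, rfl⟩
  by_cases hy : y.1.ht ≤ d
  · exact .inl ⟨y, hy, rfl⟩
  · exact .inr ⟨⟨_, ⟨y, not_le.1 hy⟩, rfl⟩, h1 _ ⟨y, not_le.1 hy⟩ (hg ⟨_, ⟨y, not_le.1 hy⟩, rfl⟩)⟩

theorem not_lind : ¬ LindelofSpace (X × X) := by
  intro h
  let G : Set (X × X) := range fun a : W => ((node a, true), (node a, false))
  have h1 : ∀ p : X × X, ∃ V ∈ 𝓝 p, (V ∩ G).Countable := by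
    rintro ⟨x, y⟩
    by_cases hx : x.1.ht ∉ S x.2
    · refine ⟨_, prod_mem_nhds ((iso hx).mem_nhds rfl) univ_mem,
        (countable_singleton (x, ((x.1, false) : X))).mono ?_⟩
      rintro _ ⟨⟨rfl, -⟩, a, ⟨⟩⟩
      rfl
    by_cases hy : y.1.ht ∉ S y.2
    · refine ⟨_, prod_mem_nhds univ_mem ((iso hy).mem_nhds rfl),
        (countable_singleton (((y.1, true) : X), y)).mono ?_⟩
      rintro _ ⟨⟨-, rfl⟩, a, ⟨⟩⟩
      rfl
    rw [not_not] at hx hy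
    by_cases h2 : x.2 = y.2
    · refine ⟨_, prod_mem_nhds ((lab_clopen x.2).2.mem_nhds rfl)
        ((lab_clopen x.2).2.mem_nhds h2.symm), countable_empty.mono ?_⟩
      rintro _ ⟨⟨h1, h2⟩, a, rfl⟩
      exact Bool.noConfusion (h1.trans h2.symm)
    rcases lt_trichotomy x.1.ht y.1.ht with h3 | h3 | h3
    · refine ⟨_, prod_mem_nhds ((C_clopen x.1.ht y.1.fn).compl.2.mem_nhds fun h => lt_irrefl _ h.1)
        ((C_clopen x.1.ht y.1.fn).2.mem_nhds ⟨h3, fun _ _ => rfl⟩), countable_empty.mono ?_⟩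
      rintro _ ⟨⟨h1, h2⟩, a, rfl⟩
      exact h1 h2
    · exact absurd (hx.2.symm.trans (h3 ▸ hy.2)) h2
    · refine ⟨_, prod_mem_nhds ((C_clopen y.1.ht x.1.fn).2.mem_nhds ⟨h3, fun _ _ => rfl⟩)
        ((C_clopen y.1.ht x.1.fn).compl.2.mem_nhds fun h => lt_irrefl _ h.1),
        countable_empty.mono ?_⟩
      rintro _ ⟨⟨h1, h2⟩, a, rfl⟩
      exact h2 h1
  choose V V1 V2 using h1
  obtain ⟨s, s1, s2⟩ := LindelofSpace.elim_nhds_subcover V V1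
  have h2 : G.Countable := (s1.biUnion fun p _ => V2 p).mono fun p hp => by
    obtain ⟨q, q1, q2⟩ := mem_iUnion₂.1 (s2.ge (mem_univ p))
    exact mem_biUnion q1 ⟨q2, hp⟩
  obtain ⟨b, hb⟩ := bnd (h2.image fun p => p.1.1.ht)
  exact lt_irrefl b (hb b ⟨_, ⟨b, rfl⟩, rfl⟩)

end Pool.Agent.H25.Aron
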