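import Mathlib

namespace Pool.Agent.H25.BDist
open Function

section BF
variable {V I : Type} (adj : V → V → Prop) (c : V → I)

/-- Finite colour-preserving isomorphisms, as sets of pairs. -/
def Good (p : Set (V × V)) : Prop :=
  p.Finite ∧ ∀ s ∈ p, c s.1 = c s.2 ∧ ∀ t ∈ p, (s.1 = t.1 ↔ s.2 = t.2) ∧ (adj s.1 t.1 ↔ adj s.2 t.2)

variable {adj c}

theorem Good.swap {p : Set (V × V)} (h : Good adj c p) : Good adj c (Prod.swap '' p) := by
  refine ⟨h.1.image _, ?_⟩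
  rintro _ ⟨s, hs, rfl⟩
  refine ⟨(h.2 s hs).1.symm, ?_⟩
  rintro _ ⟨t, ht, rfl⟩
  exact ⟨((h.2 s hs).2 t ht).1.symm, ((h.2 s hs).2 t ht).2.symm⟩

theorem forth (hs : ∀ a b, adj a b → adj b a) (hi : ∀ a, ¬ adj a a)
    (ext : ∀ (U W : Set V) (y : V), W.Finite → ∃ z, c z = c y ∧ z ∉ W ∧ ∀ w ∈ W, (adj z w ↔ w ∈ U))
    {p : Set (V × V)} (h : Good adj c p) (a : V) : ∃ b, Good adj c (insert (a, b) p) := by
  by_cases ha : ∃ b, (a, b) ∈ p
  · obtain ⟨b, hb⟩ := ha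
    exact ⟨b, by rwa [Set.insert_eq_of_mem hb]⟩
  obtain ⟨z, hz1, hz2, hz3⟩ := ext (Prod.snd '' {s | s ∈ p ∧ adj a s.1}) (Prod.snd '' p) a (h.1.image _)
  have key : ∀ t ∈ p, (a = t.1 ↔ z = t.2) ∧ (adj a t.1 ↔ adj z t.2) := by
    intro t ht
    refine ⟨⟨fun e => (ha ⟨t.2, by rw [e]; exact ht⟩).elim, fun e => (hz2 ⟨t, ht, e.symm⟩).elim⟩, ?_⟩
    rw [hz3 _ ⟨t, ht, rfl⟩]
    refine ⟨fun h1 => ⟨t, ⟨ht, h1⟩, rfl⟩, ?_⟩
    rintro ⟨s, ⟨hs1, hs2⟩, e⟩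
    rwa [← ((h.2 s hs1).2 t ht).1.2 e]
  have sy : ∀ u v, adj u v ↔ adj v u := fun u v => ⟨hs u v, hs v u⟩
  refine ⟨z, h.1.insert _, ?_⟩
  rintro s (rfl | hs1)
  · refine ⟨hz1.symm, ?_⟩
    rintro t (rfl | ht)
    · exact ⟨by simp, by simp [hi]⟩
    · exact key t ht
  · refine ⟨(h.2 s hs1).1, ?_⟩
    rintro t (rfl | ht)
    · obtain ⟨k1, k2⟩ := key s hs1
      refine ⟨by rw [eq_comm, k1, eq_comm], by rw [sy, k2, sy]⟩
    · exact (h.2 s hs1).2 t ht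

theorem exists_aut [Countable V] (hs : ∀ a b, adj a b → adj b a) (hi : ∀ a, ¬ adj a a)
    (ext : ∀ (U W : Set V) (y : V), W.Finite → ∃ z, c z = c y ∧ z ∉ W ∧ ∀ w ∈ W, (adj z w ↔ w ∈ U))
    (v0 : V) :
    ∃ φ : V ≃ V, φ v0 ≠ v0 ∧ (∀ a, c (φ a) = c a) ∧ ∀ a b, adj a b ↔ adj (φ a) (φ b) := by
  haveI : Nonempty V := ⟨v0⟩
  obtain ⟨e, he⟩ := exists_surjective_nat V
  have step : ∀ (p : {p // Good adj c p}) (a : V), ∃ q : {p // Good adj c p},
      p.1 ⊆ q.1 ∧ (∃ b, (a, b) ∈ q.1) ∧ ∃ b, (b, a) ∈ q.1 := by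
    intro p a
    obtain ⟨b, hb⟩ := forth hs hi ext p.2 a
    obtain ⟨d, hd⟩ := forth hs hi ext hb.swap a
    refine ⟨⟨_, hd.swap⟩, fun s h1 => ⟨s.swap, Or.inr ⟨s, Or.inr h1, rfl⟩, by simp⟩,
      ⟨b, ⟨(b, a), Or.inr ⟨(a, b), Or.inl rfl, rfl⟩, rfl⟩⟩, ⟨d, ⟨(a, d), Or.inl rfl, rfl⟩⟩⟩
  choose nx h1 h2 h3 using step
  obtain ⟨z0, hz1, hz2, -⟩ := ext ∅ {v0} v0 (Set.finite_singleton _)
  have g0 : Good adj c {(v0, z0)} := by
    refine ⟨Set.finite_singleton _, ?_⟩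
    rintro s rfl
    refine ⟨hz1.symm, ?_⟩
    rintro t rfl
    exact ⟨by simp, by simp [hi]⟩
  let sq : ℕ → {p // Good adj c p} := fun n => Nat.rec ⟨_, g0⟩ (fun n p => nx p (e n)) n
  have mono : Monotone fun n => (sq n).1 := monotone_nat_of_le_succ fun n => h1 (sq n) (e n)
  have com : ∀ s t : V × V, (∃ n, s ∈ (sq n).1) → (∃ n, t ∈ (sq n).1) →
      c s.1 = c s.2 ∧ (s.1 = t.1 ↔ s.2 = t.2) ∧ (adj s.1 t.1 ↔ adj s.2 t.2) := by
    rintro s t ⟨n, hn⟩ ⟨m, hm⟩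
    have a1 := mono (le_max_left n m) hn
    have a2 := mono (le_max_right n m) hm
    exact ⟨((sq _).2.2 s a1).1, ((sq _).2.2 s a1).2 t a2⟩
  have fa : ∀ a, ∃ b, ∃ n, (a, b) ∈ (sq n).1 := by
    intro a
    obtain ⟨n, rfl⟩ := he a
    obtain ⟨b, hb⟩ := h2 (sq n) (e n)
    exact ⟨b, n + 1, hb⟩
  have fb : ∀ a, ∃ b, ∃ n, (b, a) ∈ (sq n).1 := by
    intro a
    obtain ⟨n, rfl⟩ := he a
    obtain ⟨b, hb⟩ := h3 (sq n) (e n)
    exact ⟨b, n + 1, hb⟩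
  choose f hf using fa
  choose g hg using fb
  refine ⟨⟨f, g, fun a => (com _ _ (hg (f a)) (hf a)).2.1.2 rfl,
    fun b => (com _ _ (hf (g b)) (hg b)).2.1.1 rfl⟩, ?_, fun a => (com _ _ (hf a) (hf a)).1.symm,
    fun a b => (com _ _ (hf a) (hf b)).2.2⟩
  have : f v0 = z0 := (com _ (v0, z0) (hf v0) ⟨0, rfl⟩).2.1.1 rfl
  intro h
  apply hz2
  have h' : f v0 = v0 := h
  rw [← this, h']
  rfl

end BF

section Ray
variable {V : Type} {adj : V → V → Prop}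

theorem exists_ray [Countable V] (v0 : V)
    (ext : ∀ (U W : Set V), W.Finite → ∃ z, z ∉ W ∧ ∀ w ∈ W, (adj z w ↔ w ∈ U)) :
    ∃ p : ℕ → V, Injective p ∧ (∀ j k, j < k → (adj (p k) (p j) ↔ k = j + 1)) ∧
      ∀ a b, a ≠ b → a ∉ Set.range p → b ∉ Set.range p → ∃ k, adj (p k) a ∧ ¬ adj (p k) b := by
  haveI : Nonempty V := ⟨v0⟩
  obtain ⟨e, he⟩ := exists_surjective_nat (V × V)
  have step : ∀ (F : {F : Set V // F.Finite}) (q : V) (ab : V × V), ∃ z,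
      z ∉ insert q F.1 ∪ {ab.1, ab.2} ∧ ∀ w ∈ insert q F.1 ∪ {ab.1, ab.2},
        (adj z w ↔ w ∈ insert q ({ab.1} \ F.1)) :=
    fun F q ab => ext _ _ ((F.2.insert q).union (Set.toFinite _))
  choose nx h1 h2 using step
  let st : ℕ → {F : Set V // F.Finite} × V := fun n =>
    Nat.rec (⟨∅, Set.finite_empty⟩, v0)
      (fun n s => (⟨insert s.2 s.1.1, s.1.2.insert _⟩, nx s.1 s.2 (e n))) n
  let p : ℕ → V := fun n => (st n).2
  have hF : ∀ n v, v ∈ (st n).1.1 ↔ ∃ j < n, p j = v := by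
    intro n
    induction n with
    | zero => intro v; simp [st]
    | succ n ih =>
      intro v
      change v ∈ insert (p n) (st n).1.1 ↔ _
      rw [Set.mem_insert_iff, ih]
      constructor
      · rintro (rfl | ⟨j, hj, rfl⟩)
        · exact ⟨n, by omega, rfl⟩
        · exact ⟨j, by omega, rfl⟩
      · rintro ⟨j, hj, rfl⟩
        rcases Nat.lt_succ_iff_lt_or_eq.1 hj with h | rfl
        · exact Or.inr ⟨j, h, rfl⟩
        · exact Or.inl rfl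
  have hp : ∀ n, p (n + 1) = nx (st n).1 (p n) (e n) := fun n => rfl
  have memW : ∀ j n, j < n + 1 → p j ∈ insert (p n) (st n).1.1 ∪ {(e n).1, (e n).2} := by
    intro j n hj
    exact Or.inl ((hF (n + 1) _).2 ⟨j, hj, rfl⟩)
  have ne : ∀ j k, j < k → p k ≠ p j := by
    intro j k hjk h
    obtain ⟨n, rfl⟩ : ∃ n, k = n + 1 := ⟨k - 1, by omega⟩
    apply h1 (st n).1 (p n) (e n)
    rw [← hp, h]
    exact memW j n hjk
  have inj : Injective p := by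
    intro j k h
    rcases lt_trichotomy j k with h' | h' | h'
    · exact (ne j k h' h.symm).elim
    · exact h'
    · exact (ne k j h' h).elim
  refine ⟨p, inj, ?_, ?_⟩
  · intro j k hjk
    obtain ⟨n, rfl⟩ : ∃ n, k = n + 1 := ⟨k - 1, by omega⟩
    rw [hp, h2 _ _ _ _ (memW j n hjk)]
    constructor
    · rintro (h | ⟨-, h⟩)
      · rw [inj h]
      · by_contra hne
        exact h ((hF n _).2 ⟨j, by omega, rfl⟩)
    · intro h
      have : j = n := by omega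
      rw [this]
      exact Or.inl rfl
  · intro a b hab ha hb
    obtain ⟨n, hn⟩ := he (a, b)
    refine ⟨n + 1, ?_, ?_⟩
    · rw [hp, h2 _ _ _ _ (Or.inr (by rw [hn]; simp))]
      refine Or.inr ⟨by rw [hn]; rfl, fun h => ha ?_⟩
      obtain ⟨j, -, hj⟩ := (hF n _).1 h
      exact ⟨j, hj⟩
    · rw [hp, h2 _ _ _ _ (Or.inr (by rw [hn]; simp))]
      rintro (h | ⟨h, -⟩)
      · exact hb ⟨n, h.symm⟩
      · rw [hn] at h
        exact hab (Eq.symm h)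

end Ray

theorem exists_rigid {X Γ : Type} [Countable Γ] (v0 : Γ) (adj : X → X → Prop) (H : Γ → Γ → Prop)
    (hs : ∀ a b, H a b → H b a)
    (ext : ∀ (U W : Set Γ), W.Finite → ∃ z, z ∉ W ∧ ∀ w ∈ W, (H z w ↔ w ∈ U))
    (ι : X → Γ → X) (hι : ∀ r, Injective (ι r)) (hadj : ∀ r a b, adj (ι r a) (ι r b) ↔ H a b)
    (rep : X → X) (h1 : ∀ x, ∃ γ, x = ι (rep x) γ) (h2 : ∀ x γ, rep (ι (rep x) γ) = rep x)
    (h3 : ∀ x y, adj x y → rep x = rep y) (code : X → ℕ → Prop) (hcode : Injective code) :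
    ∃ c : X → Prop × Prop × Prop, ∀ φ : X ≃ X, (∀ a b, adj a b ↔ adj (φ a) (φ b)) →
      (∀ a, c (φ a) = c a) → ∀ x, φ x = x := by
  obtain ⟨p, pinj, pray, psep⟩ := exists_ray v0 ext
  refine ⟨fun x => (x = ι (rep x) (p 0), ∃ k, x = ι (rep x) (p k),
    ∃ k, x = ι (rep x) (p k) ∧ code (rep x) k), fun φ hφ hc x => ?_⟩
  simp only [Prod.mk.injEq, eq_iff_iff] at hc
  set r := rep x with hr
  set r' := rep (φ (ι r (p 0))) with hr'
  have hrep : ∀ γ, rep (φ (ι r γ)) = r' := by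
    intro γ
    obtain ⟨z, -, hz⟩ := ext Set.univ {γ, p 0} (Set.toFinite _)
    have a1 := (hφ _ _).1 ((hadj r _ _).2 ((hz γ (by simp)).2 trivial))
    have a2 := (hφ _ _).1 ((hadj r _ _).2 ((hz (p 0) (by simp)).2 trivial))
    rw [hr', ← h3 _ _ a1, h3 _ _ a2]
  have hrr : ∀ γ, rep (ι r γ) = r := fun γ => h2 x γ
  have fix : ∀ k, φ (ι r (p k)) = ι r' (p k) := by
    intro k
    induction k using Nat.strong_induction_on with
    | _ k ih =>
      rcases k with _ | k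
      · have := (hc (ι r (p 0))).1.2 (by rw [hrr])
        rwa [hrep] at this
      · obtain ⟨m, hm⟩ := (hc (ι r (p (k + 1)))).2.1.2 ⟨k + 1, by rw [hrr]⟩
        rw [hrep] at hm
        have a1 := (hφ _ _).1 ((hadj r _ _).2 ((pray k (k + 1) (by omega)).2 rfl))
        rw [hm, ih k (by omega), hadj] at a1
        have hk : k < m := by
          by_contra hle
          have := ih m (by omega)
          rw [← hm] at this
          have := pinj (hι r (φ.injective this))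
          omega
        rw [hm, (pray k m hk).1 a1]
  have req : r = r' := by
    apply hcode
    funext k
    have := (hc (ι r (p k))).2.2
    rw [hrep, hrr, fix] at this
    apply propext
    constructor
    · intro h
      obtain ⟨m, hm, hm2⟩ := this.2 ⟨k, rfl, h⟩
      rwa [pinj (hι _ hm)]
    · intro h
      obtain ⟨m, hm, hm2⟩ := this.1 ⟨k, rfl, h⟩
      rwa [pinj (hι _ hm)]
  rw [← req] at fix hrep
  obtain ⟨γ, hγ⟩ := h1 x
  rw [← hr] at hγ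
  by_cases hmem : γ ∈ Set.range p
  · obtain ⟨k, rfl⟩ := hmem
    rw [hγ, fix]
  obtain ⟨γ', hγ'⟩ := h1 (φ x)
  have e1 : rep (φ x) = r := by rw [hγ]; exact hrep γ
  rw [e1] at hγ'
  by_contra hne
  have hne' : γ ≠ γ' := by
    rintro rfl
    exact hne (hγ'.trans hγ.symm)
  have hmem' : γ' ∉ Set.range p := by
    rintro ⟨k, rfl⟩
    rw [← fix] at hγ'
    have := φ.injective hγ'
    rw [hγ] at this
    exact hmem ⟨k, (hι r this).symm⟩
  obtain ⟨k, k1, k2⟩ := psep γ γ' hne' hmem hmem'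
  have := (hφ _ _).1 ((hadj r _ _).2 k1)
  rw [fix, ← hγ, hγ', hadj] at this
  exact k2 this

end Pool.Agent.H25.BDist
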