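import Mathlib

namespace Pool.Agent.H25.BDist
open Cardinal

/-- A Borel graph on a measurable space `X`: a symmetric irreflexive measurable edge relation. -/
structure BorelGraph (X : Type) [MeasurableSpace X] where
  Adj : X → X → Prop
  symm : ∀ x y, Adj x y → Adj y x
  irrefl : ∀ x, ¬ Adj x x
  meas : MeasurableSet {p : X × X | Adj p.1 p.2}

variable {X : Type} [MeasurableSpace X]

/-- Graph automorphisms: arbitrary (not necessarily Borel) adjacency preserving bijections. -/
def BorelGraph.IsAut (G : BorelGraph X) (φ : X ≃ X) : Prop :=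
  ∀ x y, G.Adj x y ↔ G.Adj (φ x) (φ y)

/-- `c` is distinguishing: every nontrivial automorphism changes some colour. -/
def BorelGraph.Distinguishing (G : BorelGraph X) {I : Type} (c : X → I) : Prop :=
  ∀ φ : X ≃ X, G.IsAut φ → φ ≠ Equiv.refl X → ∃ x, c x ≠ c (φ x)

/-- The distinguishing number. -/
noncomputable def BorelGraph.D (G : BorelGraph X) : Cardinal :=
  sInf {κ | ∃ (I : Type) (c : X → I), #I = κ ∧ G.Distinguishing c}

/-- The Borel distinguishing number. -/
noncomputable def BorelGraph.DB (G : BorelGraph X) : Cardinal :=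
  sInf {κ | ∃ (I : Type) (_ : MeasurableSpace I) (_ : StandardBorelSpace I) (c : X → I),
    #I = κ ∧ Measurable c ∧ G.Distinguishing c}

end Pool.Agent.H25.BDist
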