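import Pool.Agent.H25.UltraFree
import Pool.Agent.H25.NSIdealU

/-! The function space over the ultrafilters on the second uncountable ordinal. -/

set_option autoImplicit false

namespace Pool.Agent.H25.BetaOm2

open Set Filter Topology Cardinal Pool.Agent.H25.UltraFree

theorem trec {J α : Type} [LinearOrder J] [WellFoundedLT J] (P : J → α → Prop)
    (R : α → α → Prop) (h : ∀ j (f : Iio j → α), ∃ a, P j a ∧ ∀ i, R (f i) a) :
    ∃ f : J → α, ∀ j, P j (f j) ∧ ∀ i, i < j → R (f i) (f j) := by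
  choose st h1 h2 using h
  let f : J → α := fun j => WellFounded.fix wellFounded_lt
    (fun j (g : ∀ i, i < j → α) => st j fun i => g i.1 i.2) j
  have hf : ∀ j, f j = st j fun i => f i.1 := fun j => WellFounded.fix_eq _ _ _
  exact ⟨f, fun j => ⟨hf j ▸ h1 j _, fun i hi => by rw [hf j]; exact h2 j (fun i => f i.1) ⟨i, hi⟩⟩⟩

variable {W : Type} [LinearOrder W] [WellFoundedLT W]

theorem χ_one {D : Type} {A : Set D} {u : Ultrafilter D} (h : A ∈ u) : (χ A).1 u = 1 := if_pos h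

theorem χ_zero {D : Type} {A : Set D} {u : Ultrafilter D} (h : A ∉ u) : (χ A).1 u = 0 := if_neg h

theorem ev_cont {X : Type} [TopologicalSpace X] (u : X) : Continuous fun h : Cp X => h.1 u :=
  (continuous_apply u).comp continuous_subtype_val

/-- The indicator functions of initial segments form a closed discrete family. -/
theorem discrete [NoMaxOrder W] (g : Cp (Ultrafilter W)) :
    ∃ U, IsOpen U ∧ g ∈ U ∧ {ξ : W | χ (Iic ξ) ∈ U}.Subsingleton := by
  let A : Set W := {a | 1 / 2 < g.1 (pure a)}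
  have one : ∀ (ξ : W) (u : Ultrafilter W), 1 / 3 < (χ (Iic ξ)).1 u → Iic ξ ∈ u := fun ξ u h => by
    by_contra hn
    rw [χ_zero hn] at h
    linarith
  have zero : ∀ (ξ : W) (u : Ultrafilter W), (χ (Iic ξ)).1 u < 2 / 3 → Iic ξ ∉ u :=
    fun ξ u h hn => by
      rw [χ_one hn] at h
      linarith
  -- an ultrafilter `u` with large value that is cofinal below a bound
  have key : ∀ B : Set W, B ⊆ A → B.Nonempty → (∀ a ∈ B, ∃ b ∈ B, a < b) →
      ∃ u : Ultrafilter W, 1 / 3 < g.1 u ∧ ∀ a ∈ B, Iic a ∉ u := by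
    intro B hB hne hm
    have : Nonempty B := hne.to_subtype
    have : NoMaxOrder B := ⟨fun a => let ⟨b, h1, h2⟩ := hm a a.2; ⟨⟨b, h1⟩, h2⟩⟩
    let u : Ultrafilter W := (Ultrafilter.of (atTop : Filter B)).map Subtype.val
    refine ⟨u, ?_, fun a ha h => ?_⟩
    · have h1 : Tendsto (fun a => g.1 (pure a)) u (𝓝 (g.1 u)) :=
        (g.2.tendsto u).comp (Ultrafilter.tendsto_pure_self u)
      have h2 : 1 / 2 ≤ g.1 u := ge_of_tendsto h1
        (show ∀ᶠ b in (Ultrafilter.of (atTop : Filter B) : Filter B), 1 / 2 ≤ g.1 (pure b.1) from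
          Eventually.of_forall fun b => (hB b.2).le)
      linarith
    · obtain ⟨b, h1, h2⟩ := (Ultrafilter.of (atTop : Filter B)).nonempty_of_mem
        (inter_mem (Ultrafilter.mem_map.1 h) (Ultrafilter.of_le _ (Ioi_mem_atTop ⟨a, ha⟩)))
      exact absurd h2 (not_lt.2 h1)
  by_cases hA : ∃ a, a ∉ A
  · let m := wellFounded_lt.min {a | a ∉ A} hA
    have m1 : m ∉ A := wellFounded_lt.min_mem {a | a ∉ A} hA
    have m2 : Iio m ⊆ A := fun a ha => by
      by_contra h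
      exact wellFounded_lt.not_lt_min {a | a ∉ A} h ha
    have o1 : IsOpen {h : Cp (Ultrafilter W) | h.1 (pure m) < 2 / 3} :=
      isOpen_lt (ev_cont _) continuous_const
    have g1 : g.1 (pure m) < 2 / 3 := lt_of_le_of_lt (not_lt.1 m1) (by norm_num)
    have z1 : ∀ ξ, (χ (Iic ξ)).1 (pure m) < 2 / 3 → ξ < m := fun ξ h => not_le.1 (zero ξ _ h)
    by_cases h0 : (Iio m).Nonempty
    · by_cases hm : ∀ a ∈ Iio m, ∃ b ∈ Iio m, a < b
      · obtain ⟨u, u1, u2⟩ := key _ m2 h0 hm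
        exact ⟨_, o1.inter (isOpen_lt continuous_const (ev_cont u)), ⟨g1, u1⟩,
          fun ξ h => absurd (one ξ u h.2) (u2 ξ (z1 ξ h.1))⟩
      · push Not at hm
        obtain ⟨a, a1, a2⟩ := hm
        have : ∀ ξ, χ (Iic ξ) ∈ {h : Cp (Ultrafilter W) | h.1 (pure m) < 2 / 3} ∩
            {h | 1 / 3 < h.1 (pure a)} → ξ = a := fun ξ h =>
          le_antisymm (a2 ξ (z1 ξ h.1)) (one ξ _ h.2)
        exact ⟨_, o1.inter (isOpen_lt continuous_const (ev_cont (pure a))),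
          ⟨g1, lt_trans (show (1 / 3 : ℝ) < 1 / 2 by norm_num) (m2 a1)⟩, fun ξ h η h' => (this ξ h).trans (this η h').symm⟩
    · exact ⟨_, o1, g1, fun ξ h => absurd ⟨ξ, z1 ξ h⟩ h0⟩
  · push Not at hA
    rcases isEmpty_or_nonempty W with hW | hW
    · exact ⟨univ, isOpen_univ, trivial, fun ξ => hW.elim ξ⟩
    obtain ⟨u, u1, u2⟩ := key univ (fun a _ => hA a) univ_nonempty
      fun a _ => let ⟨b, h⟩ := exists_gt a; ⟨b, trivial, h⟩
    exact ⟨_, isOpen_lt continuous_const (ev_cont u), u1,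
      fun ξ h => absurd (one ξ u h) (u2 ξ trivial)⟩

omit [WellFoundedLT W] in
theorem gap (hW : ∀ s : Set W, s.Countable → ∃ b, ∀ a ∈ s, a < b)
    (G : W → Finset (Ultrafilter W)) :
    ∃ γ, ∀ β, ∃ ξ, β < ξ ∧ ∀ u ∈ G ξ, Ioc γ β ∉ u := by
  by_contra hn
  push Not at hn
  choose β hβ using hn
  obtain ⟨w, -⟩ := hW ∅ countable_empty
  let c : ℕ → W := fun k => (fun γ => max γ (β γ))^[k] w
  have c1 : ∀ k, c (k + 1) = max (c k) (β (c k)) := fun k => Function.iterate_succ_apply' _ _ _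
  have c2 : Monotone c := monotone_nat_of_le_succ fun k => by rw [c1]; exact le_max_left _ _
  obtain ⟨ξ, hξ⟩ := hW _ (countable_range c)
  choose u u1 u2 using fun k => hβ (c k) ξ
    (lt_of_le_of_lt (by rw [c1]; exact le_max_right _ _) (hξ _ ⟨k + 1, rfl⟩))
  have key : ∀ k l, k < l → u k ≠ u l := fun k l h e => by
    obtain ⟨x, h1, h2⟩ := (u l).nonempty_of_mem (inter_mem (e ▸ u2 k) (u2 l))
    have : β (c k) ≤ c l := le_trans (by rw [c1]; exact le_max_right _ _) (c2 h : c (k + 1) ≤ c l)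
    exact absurd (h1.2.trans this) (not_le.2 h2.1)
  exact (G ξ).finite_toSet.not_infinite (infinite_of_injective_forall_mem (f := u)
    (fun k l e => by
      rcases lt_trichotomy k l with h | h | h
      · exact absurd e (key k l h)
      · exact h
      · exact absurd e.symm (key l k h)) u1)

omit [WellFoundedLT W] in
theorem core (hW : ∀ s : Set W, #s ≤ ℵ₁ → ∃ b, ∀ a ∈ s, a < b)
    (G : ℕ → W → Finset (Ultrafilter W)) :
    ∃ A : Set W, ∀ n, ¬ {ξ | ∀ u ∈ G n ξ, (A ∈ u ↔ Iic ξ ∈ u)}.Countable := by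
  have hW0 : ∀ s : Set W, s.Countable → ∃ b, ∀ a ∈ s, a < b := fun s hs =>
    hW s ((le_aleph0_iff_set_countable.2 hs).trans aleph0_lt_aleph_one.le)
  choose γ hγ using fun n => gap hW0 (G n)
  obtain ⟨γ', hγ'⟩ := hW0 _ (countable_range γ)
  have hη : ∀ n ξ, ∃ η, ξ < η ∧ ∀ u ∈ G n ξ, (∃ ζ, Iic ζ ∈ u) → Iic η ∈ u := by
    intro n ξ
    have : Nonempty W := ⟨ξ⟩
    choose! ζ hζ using fun (u : Ultrafilter W) (h : ∃ ζ, Iic ζ ∈ u) => h
    obtain ⟨η, h⟩ := hW0 _ (((G n ξ).countable_toSet.image ζ).insert ξ)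
    exact ⟨η, h ξ (Or.inl rfl), fun u hu h' => mem_of_superset (hζ u h')
      (Iic_subset_Iic.2 (h _ (Or.inr ⟨u, hu, rfl⟩)).le)⟩
  choose η η1 η2 using hη
  let J := (ℵ₁ : Cardinal.{0}).ord.ToType ×ₗ ℕ
  have hJ : ∀ j : J, (Iio j).Countable := fun j => by
    have h1 : (Iic (ofLex j).1).Countable := le_aleph0_iff_set_countable.1
      (Order.lt_succ_iff.1 (by
        rw [succ_aleph0]
        simpa using (NSIdealU.good_of_regular ℵ₁ isRegular_aleph_one aleph0_lt_aleph_one).iic _))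
    refine ((h1.prod countable_univ).image toLex).mono fun i hi => ?_
    exact ⟨ofLex i, ⟨(Prod.Lex.lt_iff.1 hi).elim le_of_lt fun h => h.1.le, trivial⟩, rfl⟩
  obtain ⟨f, hf⟩ := trec (J := J) (α := ℕ × W × W)
    (fun j a => a.1 = (ofLex j).2 ∧ γ' < a.2.1 ∧ a.2.1 < a.2.2 ∧
      ∀ u ∈ G a.1 a.2.2, Ioc γ' a.2.1 ∉ u)
    (fun a b => η a.1 a.2.2 < b.2.1) (fun j g => by
      have := (hJ j).to_subtype
      obtain ⟨β, hβ⟩ := hW0 _ ((countable_range fun i => η (g i).1 (g i).2.2).insert γ')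
      obtain ⟨ξ, h1, h2⟩ := hγ (ofLex j).2 β
      exact ⟨((ofLex j).2, β, ξ), ⟨rfl, hβ _ (Or.inl rfl), h1, fun u hu h => h2 u hu
        (mem_of_superset h (Ioc_subset_Ioc_left (hγ' _ ⟨_, rfl⟩).le))⟩,
        fun i => hβ _ (Or.inr ⟨i, rfl⟩)⟩)
  obtain ⟨ζ, hζ⟩ := hW (range fun j => (f j).2.2) (mk_range_le.trans (by
    rw [show #J = #((ℵ₁ : Cardinal.{0}).ord.ToType × ℕ) from rfl]
    simp))
  refine ⟨Iic γ' ∪ ⋃ j, Ioc (f j).2.1 (f j).2.2, fun n hn => ?_⟩
  have hm : StrictMono fun j => (f j).2.2 := fun i j h =>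
    (η1 _ _).trans (((hf j).2 i h).trans (hf j).1.2.2.1)
  have hc := hn.preimage (f := fun a => (f (toLex (a, n))).2.2)
    (fun a b h => (Prod.ext_iff.1 (toLex.injective (hm.injective h))).1)
  refine absurd (le_aleph0_iff_set_countable.2 (hc.mono (s₁ := univ) fun a _ => ?_))
    (by simp)
  intro u hu
  set j : J := toLex (a, n)
  obtain ⟨⟨p1, p2, p3, p4⟩, -⟩ := hf j
  have e : (f j).1 = n := p1
  replace hu : u ∈ G (f j).1 (f j).2.2 := by rw [e]; exact hu
  constructor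
  · intro hA
    by_contra hn
    have h1 : Iic (η (f j).1 (f j).2.2) ∈ u := η2 _ _ u hu ⟨ζ, mem_of_superset hA (by
      rintro x (h | h)
      · exact (le_of_lt (lt_of_le_of_lt h (p2.trans p3))).trans (hζ _ ⟨j, rfl⟩).le
      · obtain ⟨i, h⟩ := mem_iUnion.1 h
        exact h.2.trans (hζ _ ⟨i, rfl⟩).le)⟩
    obtain ⟨x, ⟨h2, h3⟩, h4⟩ := u.nonempty_of_mem
      (inter_mem (inter_mem hA h1) (Ultrafilter.compl_mem_iff_notMem.2 hn))
    rcases h2 with h | h
    · exact h4 (le_of_lt (lt_of_le_of_lt h (p2.trans p3)))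
    · obtain ⟨i, h⟩ := mem_iUnion.1 h
      rcases le_or_gt i j with k | k
      · exact h4 (h.2.trans (hm.monotone k))
      · exact absurd (((hf i).2 j k).trans h.1) (not_lt.2 h3)
  · intro h
    refine mem_of_superset (inter_mem h (Ultrafilter.compl_mem_iff_notMem.2 (p4 u hu))) ?_
    rintro x ⟨h1, h2⟩
    by_cases k : x ≤ γ'
    · exact Or.inl k
    · exact Or.inr (mem_iUnion.2 ⟨j, not_le.1 fun k' => h2 ⟨not_le.1 k, k'⟩, h1⟩)

end Pool.Agent.H25.BetaOm2
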