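import Mathlib
import Pool.Agent.H25.BetaOm2

set_option autoImplicit false

namespace Pool.Agent.H25.Bern

open Set Filter Topology
open Cardinal (continuum aleph0)

abbrev M : Type := ℕ → Bool

def Thin (C : Set (M × M)) : Prop := ∃ S : Set M, S.Countable ∧ ∀ p ∈ C, p.1 ∈ S ∨ p.2 ∈ S

theorem Thin.mono {C D : Set (M × M)} (h : Thin D) (hs : C ⊆ D) : Thin C :=
  let ⟨S, a, b⟩ := h; ⟨S, a, fun p hp => b p (hs hp)⟩

theorem thin_biUnion {ι : Type} {T : Set ι} (hT : T.Countable) {C : ι → Set (M × M)}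
    (h : ∀ i ∈ T, Thin (C i)) : Thin (⋃ i ∈ T, C i) := by
  choose! S h1 h2 using h
  refine ⟨⋃ i ∈ T, S i, hT.biUnion h1, fun p hp => ?_⟩
  obtain ⟨i, hi, hp⟩ := mem_iUnion₂.1 hp
  exact (h2 i hi p hp).imp (mem_biUnion hi) (mem_biUnion hi)

theorem point {C : Set (M × M)} (h : ¬ Thin C) (S : Set M) (hS : S.Countable) :
    ∃ p ∈ C, p.1 ∉ S ∧ p.2 ∉ S ∧ ∀ U ∈ 𝓝 p, ¬ Thin (C ∩ U) := by
  by_contra hn
  push Not at hn
  choose! U h1 h2 using fun p (hp : p ∈ {p ∈ C | p.1 ∉ S ∧ p.2 ∉ S}) => hn p hp.1 hp.2.1 hp.2.2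
  obtain ⟨T, t1, t2, t3⟩ := TopologicalSpace.countable_cover_nhdsWithin
    fun p hp => mem_nhdsWithin_of_mem_nhds (h1 p hp)
  obtain ⟨S', a, b⟩ := thin_biUnion t2 fun p hp => h2 p (t1 hp)
  refine h ⟨S ∪ S', hS.union a, fun p hp => ?_⟩
  by_cases e : p.1 ∉ S ∧ p.2 ∉ S
  · obtain ⟨q, q1, q2⟩ := mem_iUnion₂.1 (t3 ⟨hp, e⟩)
    exact (b p (mem_biUnion q1 ⟨hp, q2⟩)).imp .inr .inr
  · rw [not_and_or, not_not, not_not] at e
    exact e.imp .inl .inl

theorem split (C : {C : Set (M × M) // IsClosed C ∧ ¬ Thin C}) :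
    ∃ D : Bool → {C : Set (M × M) // IsClosed C ∧ ¬ Thin C}, (∀ b, (D b).1 ⊆ C.1) ∧
      ∀ p ∈ (D false).1, ∀ q ∈ (D true).1, p.1 ≠ q.1 ∧ p.2 ≠ q.2 := by
  obtain ⟨p, -, -, -, p2⟩ := point C.2.2 ∅ countable_empty
  obtain ⟨q, -, q1, q2, q3⟩ := point C.2.2 {p.1, p.2} (to_countable _)
  obtain ⟨n, hn⟩ := Function.ne_iff.1 (show q.1 ≠ p.1 from fun h => q1 (.inl h))
  obtain ⟨m, hm⟩ := Function.ne_iff.1 (show q.2 ≠ p.2 from fun h => q2 (.inr h))
  have h1 : ∀ r : M × M, IsClopen {z : M × M | (z.1 n, z.2 m) = (r.1 n, r.2 m)} := fun r =>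
    (isClopen_discrete {(r.1 n, r.2 m)}).preimage (f := fun z : M × M => (z.1 n, z.2 m))
      (by fun_prop)
  refine ⟨fun b => Bool.rec ⟨C.1 ∩ _, C.2.1.inter (h1 p).1, p2 _ ((h1 p).2.mem_nhds rfl)⟩
    ⟨C.1 ∩ _, C.2.1.inter (h1 q).1, q3 _ ((h1 q).2.mem_nhds rfl)⟩ b,
    fun b => by cases b <;> exact inter_subset_left, fun x hx y hy => ?_⟩
  have a := Prod.ext_iff.1 hx.2
  have b := Prod.ext_iff.1 hy.2
  exact ⟨fun h => hn (b.1.symm.trans (h ▸ a.1)), fun h => hm (b.2.symm.trans (h ▸ a.2))⟩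

theorem avoid {C : Set (M × M)} (hC : IsClosed C) (h : ¬ Thin C) {E : Set M}
    (hE : Cardinal.mk E < continuum) : ∃ p ∈ C, p.1 ∉ E ∧ p.2 ∉ E := by
  classical
  choose D h1 h2 using split
  let K : M → ℕ → {C : Set (M × M) // IsClosed C ∧ ¬ Thin C} := fun t n =>
    Nat.rec ⟨C, hC, h⟩ (fun n c => D c (t n)) n
  have h3 : ∀ t, ∃ p, ∀ n, p ∈ (K t n).1 := fun t => by
    obtain ⟨p, hp⟩ := IsCompact.nonempty_iInter_of_sequence_nonempty_isCompact_isClosed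
      (fun n => (K t n).1) (fun n => h1 _ _) (fun n => nonempty_iff_ne_empty.2 fun e =>
        (K t n).2.2 ⟨∅, countable_empty, by simp [e]⟩) hC.isCompact fun n => (K t n).2.1
    exact ⟨p, mem_iInter.1 hp⟩
  choose p hp using h3
  have h4 : ∀ s t, s ≠ t → (p s).1 ≠ (p t).1 ∧ (p s).2 ≠ (p t).2 := by
    intro s t hne
    have h5 := Function.ne_iff.1 hne
    have h6 : ∀ n ≤ Nat.find h5, K s n = K t n := by
      intro n hn
      induction n with
      | zero => rfl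
      | succ n ih =>
        change D (K s n) _ = D (K t n) _
        rw [ih (by omega), not_not.1 (Nat.find_min h5 (show n < _ by omega))]
    have a : p s ∈ (D (K s (Nat.find h5)) (s (Nat.find h5))).1 := hp s (Nat.find h5 + 1)
    have b : p t ∈ (D (K t (Nat.find h5)) (t (Nat.find h5))).1 := hp t (Nat.find h5 + 1)
    have c := Nat.find_spec h5
    rw [← h6 _ le_rfl] at b
    revert a b c
    cases s (Nat.find h5) <;> cases t (Nat.find h5) <;> intro a b c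
    · exact absurd rfl c
    · exact h2 _ _ a _ b
    · exact (h2 _ _ b _ a).imp Ne.symm Ne.symm
    · exact absurd rfl c
  by_contra hn
  push Not at hn
  have h5 : (univ : Set M) ⊆ (fun t => (p t).1) ⁻¹' E ∪ (fun t => (p t).2) ⁻¹' E := fun t _ =>
    or_iff_not_imp_left.2 (hn _ (hp t 0))
  have h6 := (Cardinal.mk_le_mk_of_subset h5).trans (Cardinal.mk_union_le _ _)
  refine absurd h6 (not_le.2 ?_)
  have h7 : Cardinal.mk (univ : Set M) = continuum := by simp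
  rw [h7]
  exact Cardinal.add_lt_of_lt Cardinal.aleph0_le_continuum
    ((Cardinal.mk_preimage_of_injective _ _ fun s t e => not_not.1 fun h => (h4 s t h).1 e).trans_lt
      hE)
    ((Cardinal.mk_preimage_of_injective _ _ fun s t e => not_not.1 fun h => (h4 s t h).2 e).trans_lt
      hE)

theorem enum (Z : Type) [TopologicalSpace Z] [SecondCountableTopology Z] :
    ∃ K : continuum.{0}.ord.ToType → Set Z, ∀ C, IsClosed C → ∃ j, K j = C := by
  obtain ⟨b, b1, -, b2⟩ := TopologicalSpace.exists_countable_basis Z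
  have := b1.to_subtype
  obtain ⟨e, he⟩ : ∃ e : continuum.{0}.ord.ToType → Set b, Function.Surjective e := by
    obtain ⟨f⟩ : Cardinal.mk (Set b) ≤ Cardinal.mk continuum.{0}.ord.ToType := by
      simpa using Cardinal.power_le_power_left two_ne_zero (Cardinal.mk_le_aleph0 (α := b))
    exact ⟨_, Function.invFun_surjective f.injective⟩
  refine ⟨fun j => (⋃ U ∈ e j, U.1)ᶜ, fun C hC => ?_⟩
  obtain ⟨j, hj⟩ := he {U | U.1 ⊆ Cᶜ}
  refine ⟨j, compl_eq_comm.1 (Subset.antisymm (fun x hx => ?_) ?_)⟩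
  · obtain ⟨U, u1, u2, u3⟩ := b2.exists_subset_of_mem_open hx hC.isOpen_compl
    exact mem_biUnion (x := ⟨U, u1⟩) (hj ▸ u3) u2
  · rw [hj]
    exact iUnion₂_subset fun U hU => hU

def neg (x : M) : M := fun n => !x n

theorem neg_neg (x : M) : neg (neg x) = x := funext fun _ => Bool.not_not _

theorem neg_ne (x : M) : neg x ≠ x := fun h => by simpa [neg] using congrFun h 0

theorem sets : ∃ A D : Set M, ¬ D.Countable ∧ (∀ x ∈ D, neg x ∈ D) ∧ (∀ x ∈ A, x ∉ D) ∧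
    (∀ x ∈ A, neg x ∉ A) ∧ ∀ C : Set (M × M), IsClosed C → (∀ p ∈ C, p.1 ∈ A → p.2 ∉ A) →
      Thin (C \ {p | p.2 = neg p.1}) := by
  obtain ⟨K, hK⟩ := enum (M × M)
  let s : M × M × M → Set M := fun t => {t.1, t.2.1, t.2.2, neg t.1, neg t.2.1, neg t.2.2}
  have hs : ∀ t, (s t).Finite := fun t => toFinite _
  have hM : ∀ E : Set M, Cardinal.mk E < continuum → ∃ x, x ∉ E := fun E hE => by
    by_contra hn
    push Not at hn
    rw [eq_univ_of_forall hn] at hE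
    simp at hE
  obtain ⟨f, hf⟩ := BetaOm2.trec (J := continuum.{0}.ord.ToType) (α := M × M × M)
    (fun j t => t.2.1 ≠ neg t.1 ∧ t.2.2 ∉ s (t.1, t.2.1, t.1) ∧
      (IsClosed (K j) → ¬ Thin (K j) → (∀ p ∈ K j, p.2 ≠ neg p.1) → (t.1, t.2.1) ∈ K j))
    (fun u t => t.1 ∉ s u ∧ t.2.1 ∉ s u ∧ t.2.2 ∉ s u) (by
      intro j g
      have h1 : Cardinal.mk (⋃ i, s (g i) :) < continuum := by
        refine (Cardinal.mk_iUnion_le _).trans_lt (Cardinal.mul_lt_of_lt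
          Cardinal.aleph0_le_continuum (Cardinal.mk_Iio_toType_ord_lt j) ?_)
        exact (ciSup_le' fun i => (hs _).lt_aleph0.le).trans_lt Cardinal.aleph0_lt_continuum
      have h2 : ∃ a b, a ∉ ⋃ i, s (g i) ∧ b ∉ ⋃ i, s (g i) ∧ b ≠ neg a ∧
          (IsClosed (K j) → ¬ Thin (K j) → (∀ p ∈ K j, p.2 ≠ neg p.1) → (a, b) ∈ K j) := by
        by_cases h : IsClosed (K j) ∧ ¬ Thin (K j) ∧ ∀ p ∈ K j, p.2 ≠ neg p.1
        · obtain ⟨p, p1, p2, p3⟩ := avoid h.1 h.2.1 h1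
          exact ⟨p.1, p.2, p2, p3, h.2.2 p p1, fun _ _ _ => p1⟩
        · obtain ⟨x, hx⟩ := hM _ h1
          exact ⟨x, x, hx, hx, (neg_ne x).symm, fun a b c => absurd ⟨a, b, c⟩ h⟩
      obtain ⟨a, b, h3, h4, h5, h6⟩ := h2
      obtain ⟨d, hd⟩ := hM ((⋃ i, s (g i)) ∪ s (a, b, a)) ((Cardinal.mk_union_le _ _).trans_lt
        (Cardinal.add_lt_of_lt Cardinal.aleph0_le_continuum h1
          ((hs _).lt_aleph0.trans Cardinal.aleph0_lt_continuum)))
      exact ⟨(a, b, d), ⟨h5, fun h => hd (.inr h), h6⟩, fun i =>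
        ⟨fun h => h3 (mem_iUnion_of_mem i h), fun h => h4 (mem_iUnion_of_mem i h),
          fun h => hd (.inl (mem_iUnion_of_mem i h))⟩⟩)
  have hn : ∀ x y, neg x = y ↔ x = neg y := fun x y =>
    ⟨fun h => h ▸ (neg_neg x).symm, fun h => h ▸ neg_neg y⟩
  refine ⟨{x | ∃ j, x = (f j).1 ∨ x = (f j).2.1}, {x | ∃ j, x = (f j).2.2 ∨ x = neg (f j).2.2},
    fun h => ?_, ?_, ?_, ?_, fun C hC h => ?_⟩
  · have h1 : Function.Injective fun j => (f j).2.2 := fun i j e => by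
      by_contra hne
      rcases lt_or_gt_of_ne hne with h | h
      · exact ((hf j).2 i h).2.2 (by simp [s, show (f i).2.2 = (f j).2.2 from e])
      · exact ((hf i).2 j h).2.2 (by simp [s, show (f i).2.2 = (f j).2.2 from e])
    have h2 := Cardinal.le_aleph0_iff_set_countable.2 (Set.Countable.mono
      (s₁ := range fun j => (f j).2.2) (range_subset_iff.2 fun j => by exact ⟨j, .inl rfl⟩) h)
    rw [Cardinal.mk_range_eq _ h1] at h2
    exact absurd h2 (not_le.2 (by simpa using Cardinal.aleph0_lt_continuum))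
  · rintro x ⟨j, rfl | rfl⟩
    · exact ⟨j, .inr rfl⟩
    · exact ⟨j, .inl (neg_neg _)⟩
  · rintro x ⟨i, hi⟩ ⟨j, hj⟩
    have a := (hf i).1
    have b := (hf i).2 j
    have c := (hf j).2 i
    simp only [s, mem_insert_iff, mem_singleton_iff, not_or] at a b c
    rcases lt_trichotomy i j with h | rfl | h <;> grind
  · rintro x ⟨i, hi⟩ ⟨j, hj⟩
    have a := (hf i).1
    have b := (hf i).2 j
    have c := (hf j).2 i
    have d := neg_ne x
    simp only [s, mem_insert_iff, mem_singleton_iff, not_or] at a b c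
    rcases lt_trichotomy i j with h | rfl | h <;> grind
  · refine (thin_biUnion (T := univ) countable_univ (C := fun n : ℕ => C ∩ {p | p.2 n = p.1 n})
      fun n _ => ?_).mono fun p hp => ?_
    · by_contra ht
      have h1 : IsClosed (C ∩ {p | p.2 n = p.1 n}) :=
        hC.inter (isClosed_eq (by fun_prop) (by fun_prop))
      obtain ⟨j, hj⟩ := hK _ h1
      have h2 := (hf j).1.2.2
      rw [hj] at h2
      exact h _ (h2 h1 ht fun p hp e => by simpa [e, neg] using hp.2).1 ⟨j, .inl rfl⟩ ⟨j, .inr rfl⟩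
    · obtain ⟨n, hn⟩ := Function.ne_iff.1 hp.2
      exact mem_biUnion (mem_univ n) ⟨hp.1, by simpa [neg] using hn⟩

theorem cover {Z Y : Type} [TopologicalSpace Z] [TopologicalSpace Y] [SecondCountableTopology Y]
    (π : Z → Y) (B : Set Z) (hB : ∀ b ∈ B, comap π (𝓝 (π b)) ≤ 𝓝 b) (s : Set Z)
    (h : ∀ C, IsClosed C → (∀ b ∈ B, π b ∉ C) → ∃ L, IsLindelof L ∧ s ∩ π ⁻¹' C ⊆ L)
    (N : Z → Set Z) (hN : ∀ z, N z ∈ 𝓝 z) : ∃ T : Set Z, T.Countable ∧ s ⊆ ⋃ z ∈ T, N z := by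
  have h1 : ∀ b ∈ B, ∃ O, IsOpen O ∧ π b ∈ O ∧ π ⁻¹' O ⊆ N b := fun b hb => by
    obtain ⟨O, o1, o2⟩ := hB b hb (hN b)
    exact ⟨interior O, isOpen_interior, mem_interior_iff_mem_nhds.2 o1,
      (preimage_mono interior_subset).trans o2⟩
  choose! O o1 o2 o3 using h1
  obtain ⟨T, t1, t2, t3⟩ := TopologicalSpace.isOpen_biUnion_countable B O o1
  obtain ⟨L, l1, l2⟩ := h _ (isOpen_biUnion o1).isClosed_compl fun b hb h =>
    h (mem_biUnion hb (o2 b hb))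
  obtain ⟨T', a, -, b⟩ := l1.elim_nhds_subcover N fun z _ => hN z
  refine ⟨T ∪ T', t2.union a, fun z hz => ?_⟩
  rw [biUnion_union]
  by_cases e : π z ∈ ⋃ i ∈ B, O i
  · rw [← t3] at e
    obtain ⟨i, i1, i2⟩ := mem_iUnion₂.1 e
    exact .inl (mem_biUnion i1 (o3 i (t1 i1) i2))
  · exact .inr (b (l2 ⟨hz, e⟩))

end Pool.Agent.H25.Bern
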