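import Mathlib
import Pool.Agent.H25.Bern

set_option autoImplicit false

namespace Pool.Agent.H25.Bern2

open Set Filter Topology Pool.Agent.H25.Bern

theorem para {Z : Type} [TopologicalSpace Z] (G : Set Z) (h1 : IsClosed G) (h2 : ∀ z ∈ G, {z} ∈ 𝓝 z)
    (h3 : ∀ z : Z, ∀ U ∈ 𝓝 z, ∃ V, IsClopen V ∧ z ∈ V ∧ V ⊆ U)
    (h4 : ∀ N : Z → Set Z, (∀ z, N z ∈ 𝓝 z) → ∃ T : Set Z, T.Countable ∧ Gᶜ ⊆ ⋃ z ∈ T, N z) :
    ParacompactSpace Z := by
  classical
  refine ⟨fun ι U u1 u2 => ?_⟩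
  choose i hi using fun z => mem_iUnion.1 (u2 ▸ mem_univ z : z ∈ ⋃ i, U i)
  choose N n1 n2 n3 using fun z => h3 z _ ((u1 _).mem_nhds (hi z))
  obtain ⟨T, t1, t2⟩ := h4 N fun z => (n1 z).2.mem_nhds (n2 z)
  obtain ⟨e, he⟩ := countable_iff_exists_injOn.1 t1
  have h5 : ∀ z ∉ G, ∃ n, ∃ w ∈ T, e w = n ∧ z ∈ N w := fun z hz => by
    obtain ⟨w, w1, w2⟩ := mem_iUnion₂.1 (t2 hz)
    exact ⟨_, w, w1, rfl, w2⟩
  have h6 : ∀ z, ∃ w, z ∈ N w ∧ (z ∈ G → w = z) ∧
      (z ∉ G → w ∈ T ∧ ∀ v ∈ T, z ∈ N v → e w ≤ e v) := fun z => by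
    by_cases hz : z ∈ G
    · exact ⟨z, n2 z, fun _ => rfl, fun h => absurd hz h⟩
    · obtain ⟨w, w1, w2, w3⟩ := Nat.find_spec (h5 z hz)
      exact ⟨w, w3, fun h => absurd h hz, fun _ => ⟨w1, fun v a b =>
        w2 ▸ Nat.find_min' _ ⟨v, a, rfl, b⟩⟩⟩
  choose c c1 c2 c3 using h6
  have h7 : ∀ z, ∀ᶠ y in 𝓝 z, c y = c z := fun z => by
    by_cases hz : z ∈ G
    · filter_upwards [h2 z hz] with y hy
      rw [show y = z from hy]
    have h8 : {v ∈ T | e v ≤ e (c z)}.Finite :=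
      Finite.of_finite_image ((finite_Iic (e (c z))).subset (by
        rintro _ ⟨v, hv, rfl⟩
        exact hv.2)) (he.mono (sep_subset _ _))
    have h9 : ∀ᶠ y in 𝓝 z, ∀ v ∈ {v ∈ T | e v ≤ e (c z)}, (y ∈ N v ↔ z ∈ N v) :=
      (eventually_all_finite h8).2 fun v _ => by
        by_cases h : z ∈ N v
        · filter_upwards [(n1 v).2.mem_nhds h] with y hy using iff_of_true hy h
        · filter_upwards [(n1 v).1.isOpen_compl.mem_nhds h] with y hy using iff_of_false hy h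
    filter_upwards [h9, h1.isOpen_compl.mem_nhds hz] with y y1 y2
    have a := (c3 y y2).2 _ (c3 z hz).1 ((y1 _ ⟨(c3 z hz).1, le_rfl⟩).2 (c1 z))
    have b := (c3 z hz).2 _ (c3 y y2).1 ((y1 _ ⟨(c3 y y2).1, a⟩).1 (c1 y))
    exact he (c3 y y2).1 (c3 z hz).1 (le_antisymm a b)
  refine ⟨Z, fun w => c ⁻¹' {w}, fun w => isOpen_iff_mem_nhds.2 fun z hz => ?_,
    eq_univ_of_forall fun z => mem_iUnion.2 ⟨c z, rfl⟩, fun z => ⟨_, h7 z,
      (finite_singleton (c z)).subset fun w ⟨y, y1, y2⟩ => y1.symm.trans y2⟩,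
    fun w => ⟨i w, fun z hz => n3 w ((show c z = w from hz) ▸ c1 z)⟩⟩
  filter_upwards [h7 z] with y hy using hy.trans hz

theorem main : ∃ (X : Type) (_ : TopologicalSpace X), T35Space X ∧ LindelofSpace X ∧
    ParacompactSpace (X × X) ∧ ¬ LindelofSpace (X × X) := by
  classical
  obtain ⟨A, D, hD, Dn, AD, An, hC⟩ := Bern.sets
  let φ : (A ∪ D : Set M) → M × (M → Bool) := fun x => (x.1, fun d => decide (x.1 = d ∧ d ∈ D))
  let X : Type := {y : M × (M → Bool) // y ∈ range φ}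
  let π : X → M := fun x => x.1.1
  have π1 : Continuous π := continuous_fst.comp continuous_subtype_val
  have π2 : ∀ x : X, x.1.2 = fun d => decide (π x = d ∧ d ∈ D) := by
    rintro ⟨_, x, rfl⟩
    rfl
  have π3 : Function.Injective π := fun x y h =>
    Subtype.ext (Prod.ext h (by rw [π2, π2, h]))
  have π4 : ∀ x, π x ∈ A ∪ D := by
    rintro ⟨_, x, rfl⟩
    exact x.2
  have iso : ∀ x, π x ∈ D → {x} ∈ 𝓝 x := fun x hx => by
    have h1 : IsOpen {y : X | y.1.2 (π x) = true} := (isOpen_discrete {true}).preimage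
      (f := fun y : X => y.1.2 (π x)) (by fun_prop)
    refine mem_of_superset (h1.mem_nhds (by simp [π2, hx])) fun y hy => π3 ?_
    simp only [π2, mem_ofPred_eq, decide_eq_true_eq] at hy
    exact hy.1
  have eu : ∀ x, π x ∈ A → comap π (𝓝 (π x)) ≤ 𝓝 x := fun x hx => by
    refine tendsto_id'.1 (tendsto_subtype_rng.2 (Tendsto.prodMk_nhds tendsto_comap
      (tendsto_pi_nhds.2 fun d => tendsto_const_nhds.congr' ?_)))
    by_cases hd : d ∈ D
    · have : π x ≠ d := fun e => AD _ hx (e ▸ hd)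
      filter_upwards [preimage_mem_comap (isOpen_ne.mem_nhds this)] with y hy
      have : π y ≠ d := hy
      simp [π2, *]
    · exact Eventually.of_forall fun y => by simp [π2, hd]
  have hL : LindelofSpace X := by
    refine ⟨isLindelof_of_countable_subcover fun {ι} U h1 h2 => ?_⟩
    choose i hi using fun x => mem_iUnion.1 (h2 (mem_univ x))
    obtain ⟨T, t1, t2⟩ := cover π (π ⁻¹' A) eu univ (fun C c1 c2 => by
      refine ⟨_, Countable.isLindelof ?_, Subset.rfl⟩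
      obtain ⟨S, s1, s2⟩ := hC ((fun x => (x, x)) '' C)
        (c1.isCompact.image (by fun_prop)).isClosed (by
          rintro _ ⟨x, hx, rfl⟩ h -
          exact c2 ⟨_, ⟨x, .inl h⟩, rfl⟩ h hx)
      exact (s1.preimage π3).mono fun x hx =>
        (s2 (π x, π x) ⟨⟨_, hx.2, rfl⟩, (neg_ne _).symm⟩).elim id id)
      (fun x => U (i x)) fun x => (h1 _).mem_nhds (hi x)
    exact ⟨i '' T, t1.image _, by rwa [biUnion_image]⟩
  let G : Set (X × X) := {p | π p.2 = neg (π p.1)}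
  have G1 : IsClosed G := isClosed_eq (by fun_prop)
    (continuous_pi fun n => continuous_of_discreteTopology.comp (by fun_prop))
  have G2 : ∀ p ∈ G, {p} ∈ 𝓝 p := fun p hp => by
    have h1 : π p.1 ∈ D := (π4 p.1).elim (fun h => (π4 p.2).elim
      (fun h' => absurd (hp ▸ h') (An _ h))
      fun h' => Bern.neg_neg (π p.1) ▸ Dn _ (hp ▸ h')) id
    simpa using prod_mem_nhds (iso _ h1) (iso p.2 (hp ▸ Dn _ h1))
  refine ⟨X, inferInstance, inferInstance, hL, para G G1 G2 (fun z U hU => ?_) fun N hN => ?_,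
    fun h => hD ?_⟩
  · obtain ⟨_, ⟨V, v1, rfl⟩, v2, v3⟩ := (isTopologicalBasis_isClopen.isInducing
      (IsInducing.subtypeVal.prodMap IsInducing.subtypeVal)).mem_nhds_iff.1 hU
    exact ⟨_, v1.preimage (by fun_prop), v2, v3⟩
  · refine cover (Prod.map π π) ((π ⁻¹' A) ×ˢ (π ⁻¹' A)) (fun b hb => ?_) _ (fun C c1 c2 => ?_) N hN
    · rw [nhds_prod_eq, nhds_prod_eq]
      exact prod_comap_comap_eq.ge.trans (prod_mono (eu _ hb.1) (eu _ hb.2))
    · obtain ⟨S, s1, s2⟩ := hC C c1 fun p hp a b =>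
        c2 (⟨_, ⟨p.1, .inl a⟩, rfl⟩, ⟨_, ⟨p.2, .inl b⟩, rfl⟩) ⟨a, b⟩ hp
      refine ⟨⋃ x ∈ π ⁻¹' S, (range (Prod.mk x) ∪ range fun y => (y, x)),
        (s1.preimage π3).isLindelof_biUnion fun x _ =>
          (isLindelof_range (by fun_prop)).union (isLindelof_range (by fun_prop)), fun p hp => ?_⟩
      rcases s2 _ ⟨hp.2, hp.1⟩ with h | h
      · exact mem_biUnion h (.inl ⟨_, rfl⟩)
      · exact mem_biUnion h (.inr ⟨_, rfl⟩)
  · obtain ⟨T, t1, -, t2⟩ := G1.isLindelof.elim_nhds_subcover _ G2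
    rw [biUnion_of_singleton] at t2
    refine ((t1.mono t2).image fun p => π p.1).mono fun d hd => ?_
    exact ⟨(⟨_, ⟨d, .inr hd⟩, rfl⟩, ⟨_, ⟨neg d, .inr (Dn d hd)⟩, rfl⟩), rfl, rfl⟩

end Pool.Agent.H25.Bern2
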