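import Pool.Agent.H25.DSepDefs

/-! The space of maximal branches of a tree. -/

set_option autoImplicit false

namespace Pool.Agent.H25.BranchSpace

open Set TopologicalSpace Pool.Agent.H25.DSepDefs

variable {T : Type} [PartialOrder T]

def cone (t : T) : Set (Flag T) := {b | t ∈ b}

@[reducible] def top (T : Type) [PartialOrder T] : TopologicalSpace (Flag T) := generateFrom (range cone)

def Cmp (s t : T) : Prop := s ≤ t ∨ t ≤ s

def IsTree (T : Type) [PartialOrder T] : Prop := ∀ s s' t : T, s ≤ t → s' ≤ t → Cmp s s'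

theorem mem_of_cmp (b : Flag T) (t : T) (h : ∀ s ∈ b, Cmp t s) : t ∈ b := by
  have h1 : IsChain (· ≤ ·) (insert t (b : Set T)) := b.chain_le.insert fun s hs _ => h s hs
  have h2 := b.max_chain' h1 (subset_insert _ _)
  have : t ∈ b.carrier := h2 ▸ mem_insert _ _
  exact this

theorem cone_anti (hT : IsTree T) {s t : T} (h : s ≤ t) : cone t ⊆ cone s := by
  intro b hb
  apply mem_of_cmp
  intro u hu
  rcases b.le_or_le hb hu with h1 | h1
  · exact Or.inl (h.trans h1)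
  · exact hT s u t h h1

theorem cmp_of_mem {s t : T} {b : Flag T} (h1 : b ∈ cone s) (h2 : b ∈ cone t) : Cmp s t :=
  b.le_or_le h1 h2

theorem basis [Nonempty T] (hT : IsTree T) : @IsTopologicalBasis (Flag T) (top T) (range cone) := by
  let _ := top T
  refine ⟨?_, ?_, rfl⟩
  · rintro _ ⟨s, rfl⟩ _ ⟨t, rfl⟩ b ⟨h1, h2⟩
    rcases cmp_of_mem h1 h2 with h | h
    · exact ⟨_, ⟨t, rfl⟩, h2, subset_inter (cone_anti hT h) subset_rfl⟩
    · exact ⟨_, ⟨s, rfl⟩, h1, subset_inter subset_rfl (cone_anti hT h)⟩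
  · apply eq_univ_of_forall
    intro b
    by_contra h
    have t := Classical.arbitrary T
    exact h ⟨_, ⟨t, rfl⟩, mem_of_cmp b t fun s hs => absurd ⟨_, ⟨s, rfl⟩, hs⟩ h⟩

theorem t35 [Nonempty T] (hT : IsTree T) : @T35Space (Flag T) (top T) := by
  let _ := top T
  have hb := basis hT
  have hclo : ∀ t : T, IsClopen (cone t) := by
    intro t
    refine ⟨?_, hb.isOpen ⟨t, rfl⟩⟩
    rw [← isOpen_compl_iff, hb.isOpen_iff]
    intro b hbt
    have : ¬ ∀ s ∈ b, Cmp t s := fun h => hbt (mem_of_cmp b t h)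
    push Not at this
    obtain ⟨s, hs, hn⟩ := this
    exact ⟨_, ⟨s, rfl⟩, hs, fun b' h1 h2 => hn (cmp_of_mem h2 h1)⟩
  have h1 : IsTopologicalBasis {s : Set (Flag T) | IsClopen s} := by
    apply isTopologicalBasis_of_isOpen_of_nhds (fun _ h => h.2)
    intro a u ha hu
    obtain ⟨_, ⟨t, rfl⟩, h1, h2⟩ := hb.isOpen_iff.1 hu a ha
    exact ⟨_, hclo t, h1, h2⟩
  have := CompletelyRegularSpace.of_isTopologicalBasis_clopens h1
  have : T0Space (Flag T) := by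
    refine ⟨fun a b h => Flag.ext (Set.ext fun t => ?_)⟩
    exact inseparable_iff_forall_isOpen.1 h _ (hclo t).2
  exact ⟨⟩

theorem not_dsep [Nonempty T] (hT : IsTree T)
    (hs : ∀ t : T, ∃ s s', t ≤ s ∧ t ≤ s' ∧ ¬ Cmp s s')
    (hB : ∀ D : ℕ → Set T, (∀ n t, ∃ s ∈ D n, t ≤ s) → (∀ n, IsUpperSet (D n)) →
      ∃ t, ∀ n, t ∈ D n) : ¬ @SmallDSep (Flag T) (top T) := by
  let _ := top T
  have hb := basis hT
  rintro ⟨F, hF, hd⟩
  obtain ⟨t, ht⟩ := hB (fun n => {t | ∀ b ∈ F n, b ∉ cone t}) (by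
    intro n t
    by_cases h : ∀ b ∈ F n, b ∉ cone t
    · exact ⟨t, h, le_rfl⟩
    push Not at h
    obtain ⟨b, hbF, hbt⟩ := h
    have := hF n
    obtain ⟨U, hU, hUe⟩ := isOpen_induced_iff.1 (isOpen_discrete ({⟨b, hbF⟩} : Set (F n)))
    have hbU : b ∈ U := by
      have : (⟨b, hbF⟩ : F n) ∈ Subtype.val ⁻¹' U := hUe ▸ mem_singleton _
      exact this
    obtain ⟨_, ⟨u, rfl⟩, h1, h2⟩ := hb.isOpen_iff.1 (hU.inter (hb.isOpen ⟨t, rfl⟩)) b ⟨hbU, hbt⟩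
    obtain ⟨w, hw1, hw2⟩ : ∃ w, u ≤ w ∧ t ≤ w := by
      rcases cmp_of_mem h1 hbt with h | h
      · exact ⟨t, h, le_rfl⟩
      · exact ⟨u, le_rfl, h⟩
    have key : ∀ s, w ≤ s → b ∉ cone s → ∀ b' ∈ F n, b' ∉ cone s := by
      intro s hws hbs b' hb' hb's
      have h3 : (⟨b', hb'⟩ : F n) ∈ Subtype.val ⁻¹' U := (h2 (cone_anti hT (hw1.trans hws) hb's)).1
      rw [hUe] at h3
      have h4 : b' = b := congrArg Subtype.val h3
      exact hbs (h4 ▸ hb's)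
    obtain ⟨s, s', k1, k2, k3⟩ := hs w
    by_cases hbs : b ∈ cone s
    · exact ⟨s', key s' k2 fun h' => k3 (cmp_of_mem hbs h'), hw2.trans k2⟩
    · exact ⟨s, key s k1 hbs, hw2.trans k1⟩)
    (fun n s t hst hs b hbF hbt => hs b hbF (cone_anti hT hst hbt))
  obtain ⟨b, h1, h2⟩ := hd.inter_open_nonempty _ (hb.isOpen ⟨t, rfl⟩) (Flag.exists_mem t)
  obtain ⟨n, hn⟩ := mem_iUnion.1 h2
  exact ht n b hn h1

theorem dsep_sq [Nonempty T] (hT : IsTree T) (D : ℕ → Set (T × T))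
    (hD : ∀ n p, ∃ q ∈ D n, p ≤ q)
    (hD' : ∀ p : T × T, ∃ (p' : T × T) (m : ℕ), ∀ a ∈ D m, Cmp a.1 p'.1 → Cmp a.2 p'.2 → p ≤ a) :
    @BigDSep (Flag T × Flag T) (@instTopologicalSpaceProd _ _ (top T) (top T)) := by
  let _ := top T
  have hb := basis hT
  have hb2 := hb.prod hb
  intro G hG
  have hA : ∀ n, ∃ A : Set (T × T), Maximal (fun A => A ⊆ D n ∧
      A.Pairwise (fun a a' => ¬ (Cmp a.1 a'.1 ∧ Cmp a.2 a'.2))) A := by
    intro n
    apply zorn_subset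
    intro c hc hch
    refine ⟨⋃₀ c, ⟨sUnion_subset fun s hs => (hc hs).1, ?_⟩, fun s hs => subset_sUnion_of_mem hs⟩
    exact (pairwise_sUnion hch.directedOn).2 fun s hs => (hc hs).2
  choose A hA using hA
  have hg : ∀ n (a : T × T), ∃ g ∈ G n, g ∈ cone a.1 ×ˢ cone a.2 := by
    intro n a
    obtain ⟨g, h1, h2⟩ := (hG n).inter_open_nonempty _
      ((hb.isOpen ⟨a.1, rfl⟩).prod (hb.isOpen ⟨a.2, rfl⟩))
      (Set.Nonempty.prod (Flag.exists_mem a.1) (Flag.exists_mem a.2))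
    exact ⟨g, h2, h1⟩
  choose g hg1 hg2 using hg
  refine ⟨fun n => g n '' A n, fun n => ⟨?_, ?_⟩, ?_⟩
  · rintro _ ⟨a, -, rfl⟩; exact hg1 n a
  · apply discreteTopology_iff_isOpen_singleton.2
    rintro ⟨_, a, ha, rfl⟩
    refine isOpen_induced_iff.2 ⟨_, (hb.isOpen ⟨a.1, rfl⟩).prod (hb.isOpen ⟨a.2, rfl⟩), ?_⟩
    ext ⟨_, a', ha', rfl⟩
    simp only [mem_preimage, mem_singleton_iff, Subtype.mk.injEq]
    constructor
    · intro h
      by_contra hne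
      exact (hA n).1.2 ha' ha (fun h' => hne (h' ▸ rfl))
        ⟨cmp_of_mem (hg2 n a').1 h.1, cmp_of_mem (hg2 n a').2 h.2⟩
    · intro h; rw [h]; exact hg2 n a
  · rw [hb2.dense_iff]
    rintro _ ⟨_, ⟨p1, rfl⟩, _, ⟨p2, rfl⟩, rfl⟩ -
    obtain ⟨p', m, hm⟩ := hD' (p1, p2)
    obtain ⟨q, hq, hpq⟩ := hD m p'
    obtain ⟨a, ha, h1, h2⟩ : ∃ a ∈ A m, Cmp a.1 q.1 ∧ Cmp a.2 q.2 := by
      by_contra hh
      push Not at hh
      have h3 : insert q (A m) ⊆ A m := by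
        apply (hA m).2 ⟨insert_subset hq (hA m).1.1, ?_⟩ (subset_insert _ _)
        refine (hA m).1.2.insert fun a ha _ => ⟨fun h => hh a ha h.1.symm h.2.symm,
          fun h => hh a ha h.1 h.2⟩
      exact hh q (h3 (mem_insert _ _)) (Or.inl le_rfl) (Or.inl le_rfl)
    have aux : ∀ x y z : T, y ≤ z → Cmp x z → Cmp x y := by
      rintro x y z hyz (h | h)
      · exact hT x y z h hyz
      · exact Or.inr (hyz.trans h)
    have hpa := hm a ((hA m).1.1 ha) (aux _ _ _ hpq.1 h1) (aux _ _ _ hpq.2 h2)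
    exact ⟨g m a, ⟨cone_anti hT hpa.1 (hg2 m a).1, cone_anti hT hpa.2 (hg2 m a).2⟩,
      mem_iUnion.2 ⟨m, a, ha, rfl⟩⟩

end Pool.Agent.H25.BranchSpace
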