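import Mathlib

set_option autoImplicit false

namespace Pool.Agent.H25.CanonDefs

open Equiv

/-- The topology of pointwise convergence (with `X` discrete) on a permutation group. -/
@[reducible] def ptw {X : Type} (G : Subgroup (Perm X)) : TopologicalSpace G :=
  TopologicalSpace.induced (fun g x => g.1 x) (@Pi.topologicalSpace X (fun _ => X) (fun _ => ⊥))

/-- `G` is closed in `Sym(X)`. -/
def ClosedGroup {X : Type} (G : Subgroup (Perm X)) : Prop :=
  ∀ σ : Perm X, (∀ s : Finset X, ∃ g ∈ G, ∀ x ∈ s, g x = σ x) → σ ∈ G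

/-- Every continuous action on a nonempty compact Hausdorff space has a fixed point. -/
def ExtremelyAmenable {X : Type} (G : Subgroup (Perm X)) : Prop :=
  ∀ (K : Type) [TopologicalSpace K] [CompactSpace K] [T2Space K] [Nonempty K] [MulAction G K],
    @Continuous (G × K) K (@instTopologicalSpaceProd G K (ptw G) _) _ (fun p => p.1 • p.2) →
      ∃ x : K, ∀ g : G, g • x = x

/-- Finitely many orbits on `n`-tuples, for every `n`. -/
def Oligomorphic {Y : Type} (H : Subgroup (Perm Y)) : Prop :=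
  ∀ n : ℕ, ∃ T : Set (Fin n → Y), T.Finite ∧ ∀ y : Fin n → Y, ∃ t ∈ T, ∃ β ∈ H, ∀ i, β (y i) = t i

/-- `f` is canonical with respect to `G` and `H`. -/
def Canonical {X Y : Type} (G : Subgroup (Perm X)) (H : Subgroup (Perm Y)) (f : X → Y) : Prop :=
  ∀ (n : ℕ) (a : Fin n → X), ∀ α ∈ G, ∃ β ∈ H, ∀ i, f (α (a i)) = β (f (a i))

/-- `g` lies in the pointwise closure of `H f G`. -/
def InClosure {X Y : Type} (G : Subgroup (Perm X)) (H : Subgroup (Perm Y)) (f g : X → Y) : Prop :=
  ∀ s : Finset X, ∃ β ∈ H, ∃ α ∈ G, ∀ x ∈ s, g x = β (f (α x))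

/-- The canonisation property. -/
def Canonisation {X : Type} (G : Subgroup (Perm X)) : Prop :=
  ∀ (Y : Type) (H : Subgroup (Perm Y)), Oligomorphic H →
    ∀ f : X → Y, ∃ g : X → Y, InClosure G H f g ∧ Canonical G H g

end Pool.Agent.H25.CanonDefs
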