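import Mathlib
import Pool.Agent.H25.CanonDefs

set_option autoImplicit false

namespace Pool.Agent.H25.Canon

open Equiv Set Filter Topology Pool.Agent.H25.CanonDefs

theorem tidy {Z P : Type} [Finite P] (p : Z → P) (v0 : P) : ∃ p1 : Z → P,
    (∀ᶠ z in cofinite, p1 z = p z) ∧ (∀ v, {z | p z = v}.Infinite → {z | p1 z = v}.Infinite) ∧
      ∀ z, {x | p x = p1 z}.Infinite ∨ p1 z = v0 := by
  classical
  refine ⟨fun z => if {x | p x = p z}.Infinite then p z else v0, ?_, fun v hv => hv.mono ?_,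
    fun z => ?_⟩
  · refine ((toFinite {v | {x | p x = v}.Finite}).biUnion (fun v hv => hv)).subset (fun z hz => ?_)
    refine mem_biUnion (x := p z) (not_infinite.1 (fun h => hz (if_pos h))) rfl
  · intro z hz
    exact (if_pos ((show p z = v from hz).symm ▸ hv)).trans hz
  · by_cases h : {x | p x = p z}.Infinite
    · exact Or.inl (by simpa only [if_pos h] using h)
    · exact Or.inr (if_neg h)

theorem matching {Z P : Type} [Countable Z] [Infinite Z] [Finite P] (p p' : Z → P)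
    (h : ∀ v, {z | p z = v}.Infinite ↔ {z | p' z = v}.Infinite) :
    ∃ σ : Perm Z, ∀ᶠ z in cofinite, p (σ z) = p' z := by
  obtain ⟨v0, hv0⟩ := Finite.exists_infinite_fiber p
  have h0 : {z | p z = v0}.Infinite := infinite_coe_iff.1 hv0
  obtain ⟨q, g1, g2, g3⟩ := tidy p v0
  obtain ⟨q', k1, k2, k3⟩ := tidy p' v0
  have h1 : ∀ v, Nonempty ({z // q' z = v} ≃ {z // q z = v}) := by
    intro v
    by_cases hv : {z | p z = v}.Infinite
    · have : Infinite {z // q z = v} := (g2 v hv).to_subtype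
      have : Infinite {z // q' z = v} := (k2 v ((h v).1 hv)).to_subtype
      exact nonempty_equiv_of_countable
    · have : IsEmpty {z // q z = v} := ⟨fun z => hv (z.2 ▸ (g3 z).elim id (fun k => k ▸ h0))⟩
      have : IsEmpty {z // q' z = v} :=
        ⟨fun z => hv (z.2 ▸ (k3 z).elim (h _).2 (fun k => k ▸ h0))⟩
      exact ⟨equivOfIsEmpty _ _⟩
  refine ⟨ofFiberEquiv (fun v => (h1 v).some), ?_⟩
  filter_upwards [k1, (ofFiberEquiv (fun v => (h1 v).some)).injective.tendsto_cofinite.eventually g1]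
    with z a1 a2
  exact a2.symm.trans ((ofFiberEquiv_map (fun v => (h1 v).some) z).trans a1)

def germGroup (Z V : Type) : Subgroup (Perm (Germ (cofinite : Filter Z) V)) where
  carrier := {h | ∃ σ : Perm Z, ∀ w : Z → V, h (w : Germ cofinite V) = ((w ∘ σ : Z → V) : Germ cofinite V)}
  one_mem' := ⟨1, fun _ => rfl⟩
  mul_mem' := by
    rintro a b ⟨σ, hσ⟩ ⟨τ, hτ⟩
    exact ⟨τ * σ, fun w => by rw [Perm.mul_apply, hτ, hσ]; rfl⟩
  inv_mem' := by
    rintro a ⟨σ, hσ⟩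
    refine ⟨σ⁻¹, fun w => ?_⟩
    rw [Perm.inv_eq_iff_eq, hσ]
    congr 1
    funext z
    simp

theorem germ_olig (Z V : Type) [Countable Z] [Infinite Z] [Finite V] [Nonempty V] :
    Oligomorphic (germGroup Z V) := by
  classical
  intro m
  have : Nonempty (Germ (cofinite : Filter Z) V) := ⟨((fun _ => Classical.arbitrary V : Z → V) : Germ cofinite V)⟩
  have h1 : ∀ y : Germ (cofinite : Filter Z) V, ∃ w : Z → V, y = w := fun y =>
    y.inductionOn (fun w => ⟨w, rfl⟩)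
  choose r hr using h1
  let I : (Fin m → Germ (cofinite : Filter Z) V) → Set (Fin m → V) := fun y =>
    {v | {z | (fun i => r (y i) z) = v}.Infinite}
  refine ⟨range (Function.invFun I), finite_range _, fun y => ⟨_, ⟨I y, rfl⟩, ?_⟩⟩
  obtain ⟨σ, hσ⟩ := matching (fun z i => r (y i) z) (fun z i => r (Function.invFun I (I y) i) z)
    (fun v => (Set.ext_iff.1 (Function.invFun_eq ⟨y, rfl⟩ : I (Function.invFun I (I y)) = I y) v).symm)
  refine ⟨⟨fun u => u.compTendsto σ σ.injective.tendsto_cofinite,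
    fun u => u.compTendsto σ.symm σ.symm.injective.tendsto_cofinite, fun u => ?_, fun u => ?_⟩,
    ⟨σ, fun w => rfl⟩, fun i => ?_⟩
  · refine u.inductionOn (fun w => ?_)
    show (((w ∘ σ) ∘ σ.symm : Z → V) : Germ (cofinite : Filter Z) V) = Germ.ofFun w
    congr 1
    funext z
    simp
  · refine u.inductionOn (fun w => ?_)
    show (((w ∘ σ.symm) ∘ σ : Z → V) : Germ (cofinite : Filter Z) V) = Germ.ofFun w
    congr 1
    funext z
    simp
  · rw [hr (y i), hr (Function.invFun I (I y) i)]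
    exact Germ.coe_eq.2 (hσ.mono (fun z hz => congrFun hz i))

theorem ramsey {X : Type} [Countable X] {G : Subgroup (Perm X)} (hC : Canonisation G) {n : ℕ}
    {C : Type} [Finite C] (χ : (Fin (n + 1) → X) → C) (a : Fin (n + 1) → X) (S : Finset G) :
    ∃ α : G, ∀ γ ∈ S, χ (fun i => (α * γ).1 (a i)) = χ (fun i => α.1 (a i)) := by
  classical
  have : Nonempty (Fin (n + 1) → X) := ⟨a⟩
  let u : X → (Fin (n + 1) → X) × ℕ → Fin (n + 1) → Option C := fun x z j =>
    if z.1 j = x then some (χ z.1) else none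
  obtain ⟨g, h1, h2⟩ := hC _ _ (germ_olig ((Fin (n + 1) → X) × ℕ) (Fin (n + 1) → Option C))
    (fun x => (u x : Germ cofinite _))
  obtain ⟨β, hβ, α, hα, h3⟩ := h1 (((insert 1 S) ×ˢ Finset.univ).image (fun p => p.1.1 (a p.2)))
  refine ⟨⟨α, hα⟩, fun γ hγ => ?_⟩
  obtain ⟨δ, hδ, h4⟩ := h2 _ a γ γ.2
  obtain ⟨σ, hσ⟩ := (germGroup _ _).mul_mem ((germGroup _ _).inv_mem hβ)
    ((germGroup _ _).mul_mem hδ hβ)
  have h5 : ∀ i, u (α (a i)) ∘ σ =ᶠ[cofinite] u (α (γ.1 (a i))) := by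
    intro i
    rw [← Germ.coe_eq, ← hσ, Perm.mul_apply, Perm.mul_apply, Perm.inv_eq_iff_eq,
      ← h3 (γ.1 (a i)) (Finset.mem_image.2 ⟨(γ, i), by simp [hγ], rfl⟩), h4,
      h3 (a i) (Finset.mem_image.2 ⟨(1, i), by simp, rfl⟩)]
  have h6 : ∃ᶠ z in (cofinite : Filter ((Fin (n + 1) → X) × ℕ)), (σ z).1 = fun i => α (a i) := by
    refine σ.symm.injective.tendsto_cofinite.frequently ?_
    simp only [apply_symm_apply, frequently_cofinite_iff_infinite]
    exact infinite_of_injective_forall_mem (f := fun k : ℕ => (fun i => α (a i), k))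
      (fun k l hkl => congrArg Prod.snd hkl) (fun _ => rfl)
  obtain ⟨z, g1, g2⟩ := (h6.and_eventually (eventually_all.2 h5)).exists
  have g3 : ∀ i, z.1 i = α (γ.1 (a i)) ∧ χ z.1 = χ (fun i => α (a i)) := by
    intro i
    have g4 := congrFun (g2 i) i
    simp only [u, Function.comp, g1, if_true] at g4
    by_cases g5 : z.1 i = α (γ.1 (a i))
    · rw [if_pos g5] at g4
      exact ⟨g5, (Option.some.inj g4).symm⟩
    · rw [if_neg g5] at g4
      exact absurd g4 (by simp)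
  rw [← (g3 0).2]
  exact congrArg χ (funext (fun i => (g3 i).1.symm))

theorem nhds_basic {X : Type} {G : Subgroup (Perm X)} (g : G) {A : Set G}
    (hA : A ∈ @nhds G (ptw G) g) : ∃ s : Set X, s.Finite ∧ ∀ h : G, (∀ x ∈ s, h.1 x = g.1 x) → h ∈ A := by
  let : TopologicalSpace X := ⊥
  rw [nhds_induced, mem_comap] at hA
  obtain ⟨B, h1, h2⟩ := hA
  rw [nhds_pi, Filter.mem_pi] at h1
  obtain ⟨I, g1, t, g2, g3⟩ := h1
  exact ⟨I, g1, fun h hh => h2 (g3 (fun x hx => show h.1 x ∈ t x from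
    (hh x hx).symm ▸ mem_of_mem_nhds (g2 x)))⟩

theorem basic_nhds {X : Type} {G : Subgroup (Perm X)} (g : G) (x : X) :
    {h : G | h.1 x = g.1 x} ∈ @nhds G (ptw G) g := by
  let : TopologicalSpace X := ⊥
  have : DiscreteTopology X := ⟨rfl⟩
  let := ptw G
  exact ((isOpen_discrete {g.1 x}).preimage
    ((continuous_apply (A := fun _ : X => X) x).comp continuous_induced_dom)).mem_nhds rfl

theorem amenable {X : Type} [Countable X] {G : Subgroup (Perm X)} (hC : Canonisation G) :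
    ExtremelyAmenable G := by
  classical
  intro K _ _ _ _ _ hc
  let := ptw G
  by_contra hno
  push Not at hno
  choose γ hγ using hno
  have h1 : ∀ x : K, ∃ (N U : Set K) (s : Set X), N ∈ 𝓝 x ∧ s.Finite ∧ (∀ y ∈ U, γ x • y ∉ U) ∧
      ∀ v : G, (∀ z ∈ s, v.1 z = z) → ∀ y ∈ N, v • y ∈ U := by
    intro x
    obtain ⟨A, B, g1, g2, g3, g4, g5⟩ := t2_separation (hγ x)
    have g6 : IsOpen (B ∩ {y | γ x • y ∈ A}) :=
      g2.inter (g1.preimage (hc.comp (Continuous.prodMk_right (γ x))))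
    obtain ⟨D, k1, N, k2, k3⟩ := mem_nhds_prod_iff.1 ((g6.preimage hc).mem_nhds
      (show ((1 : G), x) ∈ _ from by simpa using ⟨g4, g3⟩))
    obtain ⟨s, k4, k5⟩ := nhds_basic 1 k1
    exact ⟨N, _, s, k2, k4, fun y hy k6 => disjoint_left.1 g5 hy.2 k6.1,
      fun v hv y hy => k3 (mk_mem_prod (k5 v hv) hy)⟩
  choose N U s g1 g2 g3 g4 using h1
  obtain ⟨F, hF⟩ := CompactSpace.elim_nhds_subcover N g1
  have h2 : ∀ y : K, ∃ x : F, y ∈ N x := by
    intro y
    obtain ⟨x, k1, k2⟩ := mem_iUnion₂.1 (hF.ge (mem_univ y))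
    exact ⟨⟨x, k1⟩, k2⟩
  choose col hcol using h2
  obtain ⟨x0⟩ : Nonempty K := inferInstance
  by_cases hX : Nonempty X
  swap
  · have k := g4 _ 1 (fun z _ => rfl) x0 (hcol x0)
    refine g3 _ _ k (g4 _ _ (fun z _ => absurd ⟨z⟩ hX) _ ?_)
    rw [one_smul]
    exact hcol x0
  obtain ⟨z0⟩ := hX
  obtain ⟨n, a, ha⟩ : ∃ (n : ℕ) (a : Fin (n + 1) → X), ∀ x ∈ F, s x ⊆ range a := by
    obtain ⟨n, e, -, he⟩ := (F.finite_toSet.biUnion (fun x _ => g2 x)).fin_param
    exact ⟨n, Fin.cons z0 e, fun x hx z hz => by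
      obtain ⟨i, rfl⟩ : z ∈ range e := he ▸ mem_biUnion hx hz
      exact ⟨i.succ, rfl⟩⟩
  let r : (Fin (n + 1) → X) → G := Function.invFun (fun (g : G) i => g.1 (a i))
  have h3 : ∀ g : G, g⁻¹ • x0 ∈ U (col ((r (fun i => g.1 (a i)))⁻¹ • x0)) := by
    intro g
    have k1 : (fun i => (r (fun i => g.1 (a i))).1 (a i)) = fun i => g.1 (a i) :=
      Function.invFun_eq (f := fun (g : G) i => g.1 (a i)) ⟨g, rfl⟩
    have k2 := g4 _ (g⁻¹ * r (fun i => g.1 (a i))) (fun z hz => by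
      obtain ⟨i, rfl⟩ := ha _ (col _).2 hz
      show (g.1)⁻¹ _ = _
      rw [Perm.inv_eq_iff_eq]
      exact congrFun k1 i) _ (hcol ((r (fun i => g.1 (a i)))⁻¹ • x0))
    rwa [smul_smul, mul_inv_cancel_right] at k2
  obtain ⟨α, hα⟩ := ramsey hC (fun b => col ((r b)⁻¹ • x0)) a (F.image (fun x => (γ x)⁻¹))
  have k1 := h3 α
  have k2 := h3 (α * (γ (col ((r (fun i => α.1 (a i)))⁻¹ • x0)))⁻¹)
  rw [hα _ (Finset.mem_image_of_mem _ (col _).2), mul_inv_rev, inv_inv, mul_smul] at k2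
  exact g3 _ _ k1 k2

theorem canonise {X : Type} [Countable X] {G : Subgroup (Perm X)} (hE : ExtremelyAmenable G) :
    Canonisation G := by
  classical
  intro Y H hH f
  choose T hT1 hT2 using hH
  let I := Σ n : ℕ, (Fin n → X) × (Fin n → Y)
  let act : G → (I → Bool) → I → Bool := fun α φ p => φ ⟨p.1, fun i => (α⁻¹).1 (p.2.1 i), p.2.2⟩
  let φ0 : I → Bool := fun p => decide (∃ β ∈ H, ∀ i, β (f (p.2.1 i)) = p.2.2 i)
  let := ptw G
  have hc : Continuous (fun p : G × (I → Bool) => act p.1 p.2) := by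
    refine continuous_pi (fun p => continuous_iff_continuousAt.2 (fun q => ?_))
    refine ContinuousAt.congr (f := fun r : G × (I → Bool) => act q.1 r.2 p)
      (((continuous_apply _).comp continuous_snd).continuousAt) ?_
    have k1 : ∀ᶠ h in 𝓝 q.1, ∀ i, h.1 ((q.1⁻¹).1 (p.2.1 i)) = q.1.1 ((q.1⁻¹).1 (p.2.1 i)) :=
      eventually_all.2 (fun i => basic_nhds q.1 _)
    filter_upwards [continuous_fst.continuousAt.eventually k1] with r hr
    have k2 : (fun i => (q.1⁻¹).1 (p.2.1 i)) = fun i => (r.1⁻¹).1 (p.2.1 i) := by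
      funext i
      symm
      show (r.1.1)⁻¹ _ = _
      rw [Perm.inv_eq_iff_eq, hr i]
      simp
    simp only [act, k2]
  have hmul : ∀ α β φ, act (α * β) φ = act α (act β φ) := by
    intro α β φ
    funext p
    simp only [act, mul_inv_rev]
    rfl
  have hinv : ∀ α, MapsTo (act α) (closure (range (fun β => act β φ0)))
      (closure (range (fun β => act β φ0))) := fun α =>
    MapsTo.closure (by rintro _ ⟨β, rfl⟩; exact ⟨α * β, hmul α β φ0⟩)
      (hc.comp (Continuous.prodMk_right α))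
  let : MulAction G (closure (range (fun β => act β φ0))) :=
    { smul := fun α φ => ⟨act α φ, hinv α φ.2⟩
      one_smul := fun φ => rfl
      mul_smul := fun α β φ => Subtype.ext (hmul α β φ) }
  have : CompactSpace (closure (range (fun β => act β φ0))) :=
    isCompact_iff_compactSpace.1 isClosed_closure.isCompact
  have : Nonempty (closure (range (fun β => act β φ0))) := ⟨⟨_, subset_closure ⟨1, rfl⟩⟩⟩
  obtain ⟨⟨φ, hφ⟩, hfix⟩ := hE (closure (range (fun β => act β φ0)))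
    ((hc.comp (continuous_fst.prodMk (continuous_subtype_val.comp continuous_snd))).subtype_mk _)
  have hfix' : ∀ α, act α φ = φ := fun α => congrArg Subtype.val (hfix α)
  let Ag : G → (Σ n : ℕ, (Fin n → X)) → Prop := fun α a =>
    ∀ t ∈ T a.1, φ ⟨a.1, a.2, t⟩ = φ0 ⟨a.1, fun i => α.1 (a.2 i), t⟩
  have hA : ∀ a b c, ∃ α, Ag α a ∧ Ag α b ∧ Ag α c := by
    have k1 : ∀ a : (Σ n : ℕ, (Fin n → X)), ∀ᶠ ψ in 𝓝 φ, ∀ t ∈ T a.1, φ ⟨a.1, a.2, t⟩ = ψ ⟨a.1, a.2, t⟩ :=
      fun a => (eventually_all_finite (hT1 a.1)).2 (fun t _ =>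
        ((isOpen_discrete {b | φ ⟨a.1, a.2, t⟩ = b}).preimage
          (continuous_apply (A := fun _ : I => Bool) _)).mem_nhds rfl)
    intro a b c
    obtain ⟨_, k2, α, rfl⟩ := mem_closure_iff_nhds.1 hφ _ ((k1 a).and ((k1 b).and (k1 c)))
    exact ⟨α⁻¹, k2⟩
  have hB : ∀ α α' a, Ag α a → Ag α' a → ∃ δ ∈ H, ∀ i, δ (f (α'.1 (a.2 i))) = f (α.1 (a.2 i)) := by
    intro α α' a k1 k2
    obtain ⟨t, k3, β, k4, k5⟩ := hT2 a.1 (fun i => f (α.1 (a.2 i)))
    obtain ⟨β', k6, k7⟩ := (decide_eq_decide.1 ((k1 t k3).symm.trans (k2 t k3))).1 ⟨β, k4, k5⟩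
    refine ⟨β⁻¹ * β', H.mul_mem (H.inv_mem k4) k6, fun i => ?_⟩
    rw [Perm.mul_apply, Perm.inv_eq_iff_eq]
    exact (k7 i).trans (k5 i).symm
  rcases isEmpty_or_nonempty X with hX | hX
  · exact ⟨f, fun s => ⟨1, H.one_mem, 1, G.one_mem, fun x _ => rfl⟩,
      fun n a α _ => ⟨1, H.one_mem, fun i => isEmptyElim (a i)⟩⟩
  obtain ⟨e, he⟩ := exists_surjective_nat X
  let E : ℕ → Σ n : ℕ, (Fin n → X) := fun k => ⟨k + 1, fun i => e i⟩
  choose α hα1 hα2 _ using fun k => hA (E k) (E (k - 1)) (E k)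
  choose δ hδ1 hδ2 using fun k => hB (α k) (α (k + 1)) (E k) (hα1 k) (hα2 (k + 1))
  let β : ℕ → Perm Y := fun k => Nat.rec 1 (fun k b => b * δ k) k
  have hβ : ∀ k, β k ∈ H := by
    intro k
    induction k with
    | zero => exact H.one_mem
    | succ k ih => exact H.mul_mem ih (hδ1 k)
  choose ix hix using he
  have hg : ∀ x k, ix x ≤ k → β (ix x) (f ((α (ix x)).1 x)) = β k (f ((α k).1 x)) := by
    intro x k hk
    induction hk with
    | refl => rfl
    | @step k hk ih =>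
      have k1 := hδ2 k ⟨ix x, Nat.lt_succ_of_le hk⟩
      simp only [E, hix] at k1
      rw [ih, ← k1]
      rfl
  refine ⟨fun x => β (ix x) (f ((α (ix x)).1 x)), fun s => ⟨β (s.sup ix), hβ _, α (s.sup ix),
    (α _).2, fun x hx => hg x _ (Finset.le_sup hx)⟩, fun n a γ hγ => ?_⟩
  let k := Finset.univ.sup (fun i => max (ix (a i)) (ix (γ (a i))))
  obtain ⟨α', k1, k2, k3⟩ := hA (E k) ⟨n, a⟩ ⟨n, fun i => γ (a i)⟩
  obtain ⟨d, k4, k5⟩ := hB _ _ _ (hα1 k) k1
  obtain ⟨ε, k6, k7⟩ := hB (α' * ⟨γ, hγ⟩) α' ⟨n, a⟩ (fun t ht =>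
    (congrFun (hfix' (⟨γ, hγ⟩ : G)⁻¹) ⟨n, a, t⟩).symm.trans (by
      simp only [act, inv_inv]
      exact k3 t ht)) k2
  have k8 : ∀ x, ix x ≤ k → β (ix x) (f ((α (ix x)).1 x)) = β k (d (f (α'.1 x))) := by
    intro x hx
    have k9 := k5 ⟨ix x, Nat.lt_succ_of_le hx⟩
    simp only [E, hix] at k9
    rw [hg x k hx, k9]
  refine ⟨β k * d * ε * (β k * d)⁻¹, H.mul_mem (H.mul_mem (H.mul_mem (hβ k) k4) k6)
    (H.inv_mem (H.mul_mem (hβ k) k4)), fun i => ?_⟩
  have k9 : max (ix (a i)) (ix (γ (a i))) ≤ k :=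
    Finset.le_sup (f := fun i => max (ix (a i)) (ix (γ (a i)))) (Finset.mem_univ i)
  show β _ _ = (β k * d * ε * (β k * d)⁻¹) (β _ _)
  rw [k8 _ ((le_max_left _ _).trans k9), k8 _ ((le_max_right _ _).trans k9)]
  have k10 : ε (f (α'.1 (a i))) = f (α'.1 (γ (a i))) := k7 i
  rw [← k10]
  simp

end Pool.Agent.H25.Canon
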