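import Mathlib

set_option autoImplicit false

namespace Pool.Agent.H25.CloneDefs

/-- `S` is closed in `B ^ A` (product topology, `B` discrete): it contains every map that agrees
on each finite set with some member of `S`. -/
def LocClosed {A B : Type} (S : Set (A → B)) : Prop :=
  ∀ f : A → B, (∀ F : Finset A, ∃ g ∈ S, ∀ a ∈ F, g a = f a) → f ∈ S

/-- local clones on `X`; `C n` is the set of `(n+1)`-ary members -/
def IsLocalClone {X : Type} (C : ∀ n : ℕ, Set ((Fin (n + 1) → X) → X)) : Prop :=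
  (∀ (n : ℕ) (i : Fin (n + 1)), (fun x => x i) ∈ C n) ∧
  (∀ (n m : ℕ) (f : (Fin (n + 1) → X) → X) (g : Fin (n + 1) → (Fin (m + 1) → X) → X),
    f ∈ C n → (∀ i, g i ∈ C m) → (fun x => f (fun i => g i x)) ∈ C m) ∧
  ∀ n, LocClosed (C n)

/-- closed transformation monoids on `X` -/
def IsLocalMonoid {X : Type} (M : Set (X → X)) : Prop :=
  id ∈ M ∧ (∀ f ∈ M, ∀ g ∈ M, f ∘ g ∈ M) ∧ LocClosed M

/-- `Cl_loc(X)`, ordered by inclusion -/
abbrev ClLoc (X : Type) := {C : ∀ n : ℕ, Set ((Fin (n + 1) → X) → X) // IsLocalClone C}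

/-- `Mon_loc(X)`, ordered by inclusion -/
abbrev MonLoc (X : Type) := {M : Set (X → X) // IsLocalMonoid M}

end Pool.Agent.H25.CloneDefs
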