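import Pool.Agent.H25.CloneDefs

set_option autoImplicit false

namespace Pool.Agent.H25.CloneMon

open Pool.Agent.H25.CloneDefs Set

variable {X : Type}

abbrev Y (X : Type) := Option (Σ n : ℕ, Fin (n + 1) → X)

abbrev Op (X : Type) (n : ℕ) := (Fin (n + 1) → X) → X

def phi (n m : ℕ) (f : Fin (m + 1) → Op X n) : Y X → Y X
  | none => none
  | some ⟨k, x⟩ => if h : k = n then some ⟨m, fun i => f i (h ▸ x)⟩ else none

theorem phi_same (n m : ℕ) (f : Fin (m + 1) → Op X n) (x : Fin (n + 1) → X) :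
    phi n m f (some ⟨n, x⟩) = some ⟨m, fun i => f i x⟩ := by simp [phi]

theorem phi_ne (n m : ℕ) (f : Fin (m + 1) → Op X n) {k : ℕ} (x : Fin (k + 1) → X) (h : k ≠ n) :
    phi n m f (some ⟨k, x⟩) = none := by simp [phi, h]

theorem eq_phi {n m : ℕ} {f : Fin (m + 1) → Op X n} {h : Y X → Y X} (h0 : h none = none)
    (h1 : ∀ x, h (some ⟨n, x⟩) = some ⟨m, fun i => f i x⟩)
    (h2 : ∀ k x, k ≠ n → h (some ⟨k, x⟩) = none) : h = phi n m f := by
  funext y
  rcases y with _ | ⟨k, x⟩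
  · exact h0
  · by_cases hk : k = n
    · subst hk; rw [h1, phi_same]
    · rw [h2 k x hk, phi_ne _ _ _ _ hk]

theorem phi_comp (n m k : ℕ) (g : Fin (k + 1) → Op X m) (f : Fin (m + 1) → Op X n) :
    phi m k g ∘ phi n m f = phi n k (fun j x => g j (fun i => f i x)) := by
  apply eq_phi
  · rfl
  · intro x; simp only [Function.comp, phi_same]
  · intro l x hl; simp only [Function.comp, phi_ne _ _ _ _ hl]; rfl

theorem phi_comp_ne (n m m' k : ℕ) (g : Fin (k + 1) → Op X m') (f : Fin (m + 1) → Op X n)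
    (h : m ≠ m') : phi m' k g ∘ phi n m f = fun _ => none := by
  funext y
  rcases y with _ | ⟨l, x⟩
  · rfl
  · by_cases hl : l = n
    · subst hl; simp only [Function.comp, phi_same, phi_ne _ _ _ _ h]
    · simp only [Function.comp, phi_ne _ _ _ _ hl]; rfl

def M (C : ∀ n : ℕ, Set (Op X n)) : Set (Y X → Y X) :=
  {h | h = id ∨ h = (fun _ => none) ∨ ∃ n m f, (∀ i, f i ∈ C n) ∧ h = phi n m f}

theorem of_val {C : ∀ n : ℕ, Set (Op X n)} {h : Y X → Y X} (hh : h ∈ M C) (hid : h ≠ id)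
    {n m : ℕ} {x : Fin (n + 1) → X} {y : Fin (m + 1) → X} (hv : h (some ⟨n, x⟩) = some ⟨m, y⟩) :
    ∃ f : Fin (m + 1) → Op X n, (∀ i, f i ∈ C n) ∧ h = phi n m f := by
  rcases hh with h1 | h1 | ⟨n', m', f, hf, rfl⟩
  · exact absurd h1 hid
  · rw [h1] at hv; exact absurd hv (by simp)
  · by_cases hn : n = n'
    · subst hn
      rw [phi_same] at hv
      have : m' = m := congrArg Sigma.fst (Option.some.inj hv)
      subst this
      exact ⟨f, hf, rfl⟩
    · rw [phi_ne _ _ _ _ hn] at hv; exact absurd hv (by simp)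

theorem phi_ne_id [Nonempty X] (n m : ℕ) (f : Fin (m + 1) → Op X n) : phi n m f ≠ id := by
  intro h
  have := congrFun h (some ⟨n + 1, fun _ => Classical.arbitrary X⟩)
  rw [phi_ne _ _ _ _ (Nat.succ_ne_self n)] at this
  exact absurd this (by simp)

theorem phi_inj {n m : ℕ} {f g : Fin (m + 1) → Op X n} (h : phi n m f = phi n m g) : f = g := by
  funext i x
  have := congrFun h (some ⟨n, x⟩)
  rw [phi_same, phi_same] at this
  exact congrFun (eq_of_heq (Sigma.mk.inj (Option.some.inj this)).2) i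

theorem phi_mem [Nonempty X] {C : ∀ n : ℕ, Set (Op X n)} {n m : ℕ} {f : Fin (m + 1) → Op X n}
    (h : phi n m f ∈ M C) (i : Fin (m + 1)) : f i ∈ C n := by
  obtain ⟨g, hg, h'⟩ := of_val h (phi_ne_id n m f)
    (phi_same n m f (fun _ => Classical.arbitrary X))
  rw [phi_inj h']
  exact hg i

theorem isMon [Nonempty X] {C : ∀ n : ℕ, Set (Op X n)} (hC : IsLocalClone C) :
    IsLocalMonoid (M C) := by
  classical
  refine ⟨Or.inl rfl, ?_, ?_⟩
  · rintro g hg f hf
    rcases hg with rfl | rfl | ⟨m', k, g, hg, rfl⟩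
    · exact hf
    · exact Or.inr (Or.inl rfl)
    · rcases hf with rfl | rfl | ⟨n, m, f, hf, rfl⟩
      · exact Or.inr (Or.inr ⟨_, _, g, hg, rfl⟩)
      · exact Or.inr (Or.inl rfl)
      · by_cases hm : m = m'
        · subst hm
          rw [phi_comp]
          exact Or.inr (Or.inr ⟨_, _, _, fun j => hC.2.1 _ _ _ _ (hg j) hf, rfl⟩)
        · exact Or.inr (Or.inl (phi_comp_ne _ _ _ _ _ _ hm))
  · intro h hh
    by_cases hid : h = id
    · exact Or.inl hid
    by_cases hz : h = fun _ => none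
    · exact Or.inr (Or.inl hz)
    obtain ⟨y0, hy0⟩ := Function.ne_iff.1 hid
    obtain ⟨y1, hy1⟩ := Function.ne_iff.1 hz
    have hnone : h none = none := by
      obtain ⟨g, hg, hag⟩ := hh {none}
      rw [← hag none (Finset.mem_singleton_self _)]
      rcases hg with rfl | rfl | ⟨_, _, _, _, rfl⟩ <;> rfl
    rcases y1 with _ | ⟨n, x1⟩
    · exact absurd hnone hy1
    obtain ⟨⟨m, z1⟩, hz1⟩ := Option.ne_none_iff_exists'.1 hy1
    have key : ∀ F : Finset (Y X), ∃ f : Fin (m + 1) → Op X n, (∀ i, f i ∈ C n) ∧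
        ∀ y ∈ F, phi n m f y = h y := by
      intro F
      obtain ⟨g, hg, hag⟩ := hh (insert y0 (insert (some ⟨n, x1⟩) F))
      obtain ⟨f, hf, rfl⟩ := of_val hg
        (fun h' => hy0 (by rw [← hag y0 (Finset.mem_insert_self _ _), h']))
        ((hag _ (by simp)).trans hz1)
      exact ⟨f, hf, fun y hy => hag y (by simp [hy])⟩
    have hval : ∀ x : Fin (n + 1) → X, ∃ z : Fin (m + 1) → X, h (some ⟨n, x⟩) = some ⟨m, z⟩ := by
      intro x
      obtain ⟨f, -, hf⟩ := key {some ⟨n, x⟩}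
      exact ⟨_, (hf _ (Finset.mem_singleton_self _)).symm.trans (phi_same _ _ _ _)⟩
    choose z hz' using hval
    refine Or.inr (Or.inr ⟨n, m, fun i x => z x i, fun i => ?_, eq_phi hnone hz' ?_⟩)
    · apply hC.2.2 n
      intro F
      obtain ⟨f, hf, hag⟩ := key (F.image fun x => some ⟨n, x⟩)
      refine ⟨f i, hf i, fun x hx => ?_⟩
      have := hag _ (Finset.mem_image_of_mem _ hx)
      rw [phi_same, hz'] at this
      exact congrFun (eq_of_heq (Sigma.mk.inj (Option.some.inj this)).2) i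
    · intro k x hk
      obtain ⟨f, -, hf⟩ := key {some ⟨k, x⟩}
      exact (hf _ (Finset.mem_singleton_self _)).symm.trans (phi_ne _ _ _ _ hk)

theorem M_mono {C D : ∀ n : ℕ, Set (Op X n)} (h : C ≤ D) : M C ⊆ M D := by
  rintro g (h1 | h1 | ⟨n, m, f, hf, h1⟩)
  · exact Or.inl h1
  · exact Or.inr (Or.inl h1)
  · exact Or.inr (Or.inr ⟨n, m, f, fun i => h n (hf i), h1⟩)

theorem le_of_M [Nonempty X] {C D : ∀ n : ℕ, Set (Op X n)} (h : M C ⊆ M D) : C ≤ D :=
  fun n f hf => phi_mem (m := 0) (f := fun _ => f)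
    (h (Or.inr (Or.inr ⟨n, 0, fun _ => f, fun _ => hf, rfl⟩))) 0

theorem M_inf [Nonempty X] {C D : ∀ n : ℕ, Set (Op X n)} : M C ∩ M D ⊆ M (C ⊓ D) := by
  rintro g ⟨h1 | h1 | ⟨n, m, f, hf, rfl⟩, h2⟩
  · exact Or.inl h1
  · exact Or.inr (Or.inl h1)
  · exact Or.inr (Or.inr ⟨n, m, f, fun i => ⟨hf i, phi_mem h2 i⟩, rfl⟩)

theorem inf_clone {C D : ∀ n : ℕ, Set (Op X n)} (hC : IsLocalClone C) (hD : IsLocalClone D) :
    IsLocalClone (C ⊓ D) :=
  ⟨fun n i => ⟨hC.1 n i, hD.1 n i⟩,
    fun n m f g hf hg => ⟨hC.2.1 n m f g hf.1 fun i => (hg i).1,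
      hD.2.1 n m f g hf.2 fun i => (hg i).2⟩,
    fun n f hf => ⟨hC.2.2 n f fun F => (hf F).imp fun _ h => ⟨h.1.1, h.2⟩,
      hD.2.2 n f fun F => (hf F).imp fun _ h => ⟨h.1.2, h.2⟩⟩⟩

def Good (N : Set (Y X → Y X)) (m : ℕ) (S : Set (Op X m)) : Prop :=
  ∀ k (h : Fin (k + 1) → Op X m), (∀ i, h i ∈ S) → phi m k h ∈ N

def E (N : Set (Y X → Y X)) (n : ℕ) : Set (Op X n) :=
  {f | ∀ m (S : Set (Op X m)), Good N m S → ∀ g : Fin (n + 1) → Op X m, (∀ i, g i ∈ S) →
    Good N m (insert (fun x => f (fun i => g i x)) S)}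

theorem sub_E {N : Set (Y X → Y X)} (hN : IsLocalMonoid N) {C : ∀ n : ℕ, Set (Op X n)}
    (hC : IsLocalClone C) (h : M C ⊆ N) : C ≤ E N := by
  classical
  intro n f hf m S hS g hg k t ht
  let h0 : Fin (k + 1 + (n + 1)) → Op X m :=
    Fin.append (fun i => if t i ∈ S then t i else g 0) g
  have h1 : phi m (k + 1 + n) h0 ∈ N := by
    apply hS
    intro i
    refine Fin.addCases (m := k + 1) (n := n + 1) (motive := fun i => h0 i ∈ S)
      (fun j => ?_) (fun j => ?_) i
    · simp only [h0, Fin.append_left]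
      split_ifs with hh
      · exact hh
      · exact hg 0
    · simp only [h0, Fin.append_right]; exact hg j
  let c : Fin (k + 1) → Op X (k + 1 + n) := fun i =>
    if t i ∈ S then (fun z => z (Fin.castAdd (n + 1) i))
    else fun z => f (fun j => z (Fin.natAdd (k + 1) j))
  have h2 : phi (k + 1 + n) k c ∈ N := by
    refine h (Or.inr (Or.inr ⟨_, _, c, fun i => ?_, rfl⟩))
    simp only [c]
    split_ifs
    · exact hC.1 _ _
    · exact hC.2.1 n (k + 1 + n) f (fun j z => z (Fin.natAdd (m := n + 1) (k + 1) j)) hf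
        fun j => hC.1 _ _
  have h3 := hN.2.1 _ h2 _ h1
  rw [phi_comp] at h3
  convert h3 using 2
  funext i x
  by_cases hh : t i ∈ S
  · simp only [c, hh, if_true, h0, Fin.append_left]
  · simp only [c, hh, if_false, h0, Fin.append_right]
    rw [(ht i).resolve_right hh]

theorem add_many {N : Set (Y X → Y X)} {m n r : ℕ} {S : Set (Op X m)} (hS : Good N m S)
    (f : Fin r → Op X n) (hf : ∀ j, f j ∈ E N n) (g : Fin (n + 1) → Op X m) (hg : ∀ i, g i ∈ S) :
    Good N m (S ∪ range fun j => fun x => f j (fun i => g i x)) := by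
  classical
  have key : ∀ T : Finset (Fin r),
      Good N m (S ∪ (fun j => fun x => f j (fun i => g i x)) '' (T : Set (Fin r))) := by
    intro T
    induction T using Finset.induction_on with
    | empty => simpa using hS
    | insert j T _ ih =>
      have := hf j m _ ih g (fun i => Or.inl (hg i))
      rw [Finset.coe_insert, image_insert_eq, union_insert]
      exact this
  simpa using key Finset.univ

theorem E_clone {N : Set (Y X → Y X)} (hN : IsLocalMonoid N) {C : ∀ n : ℕ, Set (Op X n)}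
    (hC : IsLocalClone C) (h : M C ⊆ N) : IsLocalClone (E N) := by
  classical
  refine ⟨fun n i => sub_E hN hC h n (hC.1 n i), ?_, ?_⟩
  · intro n m f gs hf hgs l S hS g hg k t ht
    have h1 := hf l _ (add_many hS gs hgs g hg) (fun j => fun x => gs j (fun i => g i x))
      (fun j => Or.inr (mem_range_self j))
    exact h1 k t fun i => (ht i).imp_right fun h' => Or.inl h'
  · intro n f hf m S hS g hg k t ht
    apply hN.2.2
    intro F
    have hfin : {x : Fin (m + 1) → X | (some ⟨m, x⟩ : Y X) ∈ F}.Finite :=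
      F.finite_toSet.preimage (f := fun x : Fin (m + 1) → X => (some ⟨m, x⟩ : Y X))
        (fun a _ b _ hab => eq_of_heq (Sigma.mk.inj (Option.some.inj hab)).2)
    obtain ⟨f', hf', hag⟩ := hf (hfin.toFinset.image fun x i => g i x)
    refine ⟨phi m k (fun i => if t i ∈ S then t i else fun x => f' (fun i => g i x)),
      hf' m S hS g hg k _ fun i => ?_, ?_⟩
    · by_cases hh : t i ∈ S
      · simp only [hh, if_true]; exact Or.inr hh
      · simp only [hh, if_false]; exact Or.inl rfl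
    · rintro (_ | ⟨l, x⟩) hy
      · rfl
      · by_cases hl : l = m
        · subst hl
          rw [phi_same, phi_same]
          congr 2
          funext i
          by_cases hh : t i ∈ S
          · simp only [hh, if_true]
          · simp only [hh, if_false]
            rw [(ht i).resolve_right hh]
            exact hag _ (Finset.mem_image_of_mem _ (hfin.mem_toFinset.2 hy))
        · rw [phi_ne _ _ _ _ hl, phi_ne _ _ _ _ hl]

theorem M_E {N : Set (Y X → Y X)} (hN : IsLocalMonoid N) {C : ∀ n : ℕ, Set (Op X n)}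
    (hC : IsLocalClone C) (h : M C ⊆ N) : M (E N) ⊆ N := by
  rintro g (rfl | rfl | ⟨n, m, f, hf, rfl⟩)
  · exact hN.1
  · exact h (Or.inr (Or.inl rfl))
  · have h0 : Good N n (C n) := fun k t ht => h (Or.inr (Or.inr ⟨_, _, t, ht, rfl⟩))
    exact add_many h0 f hf (fun i x => x i) (hC.1 n) m f fun j => Or.inr (mem_range_self j)

theorem mainY [Nonempty X] : ∃ Φ : ClLoc X → MonLoc (Y X), Function.Injective Φ ∧
    (∀ C D I, IsGLB {C, D} I → IsGLB {Φ C, Φ D} (Φ I)) ∧
    (∀ C D J, IsLUB {C, D} J → IsLUB {Φ C, Φ D} (Φ J)) := by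
  refine ⟨fun C => ⟨M C.1, isMon C.2⟩, ?_, ?_, ?_⟩
  · intro C D h
    have h' : M C.1 = M D.1 := congrArg Subtype.val h
    exact Subtype.ext (le_antisymm (le_of_M h'.le) (le_of_M h'.ge))
  · intro C D I hI
    constructor
    · rintro _ (rfl | rfl)
      · exact M_mono (hI.1 (Or.inl rfl))
      · exact M_mono (hI.1 (Or.inr rfl))
    · intro N hN
      have h1 : (⟨C.1 ⊓ D.1, inf_clone C.2 D.2⟩ : ClLoc X) ≤ I := by
        apply hI.2
        rintro K (hK | hK)
        · rw [hK]; exact (inf_le_left : C.1 ⊓ D.1 ≤ C.1)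
        · rw [mem_singleton_iff.1 hK]; exact (inf_le_right : C.1 ⊓ D.1 ≤ D.1)
      exact fun g hg => M_mono h1 (M_inf ⟨hN (Or.inl rfl) hg, hN (Or.inr rfl) hg⟩)
  · intro C D J hJ
    constructor
    · rintro _ (rfl | rfl)
      · exact M_mono (hJ.1 (Or.inl rfl))
      · exact M_mono (hJ.1 (Or.inr rfl))
    · intro N hN
      have hC : M C.1 ⊆ N.1 := hN (Or.inl rfl)
      have hD : M D.1 ⊆ N.1 := hN (Or.inr rfl)
      have h1 : J ≤ (⟨E N.1, E_clone N.2 C.2 hC⟩ : ClLoc X) := by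
        apply hJ.2
        rintro K (hK | hK)
        · rw [hK]; exact sub_E N.2 C.2 hC
        · rw [mem_singleton_iff.1 hK]; exact sub_E N.2 D.2 hD
      exact fun g hg => M_E N.2 C.2 hC (M_mono h1 hg)

theorem conj_mon {A B : Type} (e : A ≃ B) {N : Set (A → A)} (h : IsLocalMonoid N) :
    IsLocalMonoid {g : B → B | e.symm ∘ g ∘ e ∈ N} := by
  classical
  refine ⟨?_, ?_, ?_⟩
  · have : e.symm ∘ id ∘ e = id := by funext a; simp
    show e.symm ∘ id ∘ e ∈ N
    rw [this]; exact h.1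
  · intro f hf g hg
    have : e.symm ∘ (f ∘ g) ∘ e = (e.symm ∘ f ∘ e) ∘ (e.symm ∘ g ∘ e) := by funext a; simp
    show e.symm ∘ (f ∘ g) ∘ e ∈ N
    rw [this]; exact h.2.1 _ hf _ hg
  · intro f hf
    apply h.2.2
    intro F
    obtain ⟨g, hg, hag⟩ := hf (F.image e)
    exact ⟨_, hg, fun a ha => by simp [hag _ (Finset.mem_image_of_mem _ ha)]⟩

def conj {A B : Type} (e : A ≃ B) : MonLoc A ≃o MonLoc B where
  toFun N := ⟨_, conj_mon e N.2⟩
  invFun N := ⟨_, conj_mon e.symm N.2⟩
  left_inv N := by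
    apply Subtype.ext
    ext g
    have : e.symm ∘ (e ∘ g ∘ e.symm) ∘ e = g := by funext a; simp
    simp only [mem_ofPred_eq, Equiv.symm_symm, this]
  right_inv N := by
    apply Subtype.ext
    ext g
    have : e ∘ (e.symm ∘ g ∘ e) ∘ e.symm = g := by funext a; simp
    simp only [mem_ofPred_eq, Equiv.symm_symm, this]
  map_rel_iff' := by
    intro N N'
    constructor
    · intro h g hg
      have e1 : e.symm ∘ (e ∘ g ∘ e.symm) ∘ e = g := by funext a; simp
      have : e.symm ∘ (e ∘ g ∘ e.symm) ∘ e ∈ N'.1 := h (show e.symm ∘ _ ∘ e ∈ N.1 by rwa [e1])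
      rwa [e1] at this
    · intro h g hg
      exact h hg

theorem main (X : Type) [Countable X] [Infinite X] : ∃ Φ : ClLoc X → MonLoc X,
    Function.Injective Φ ∧
    (∀ C D I, IsGLB {C, D} I → IsGLB {Φ C, Φ D} (Φ I)) ∧
    (∀ C D J, IsLUB {C, D} J → IsLUB {Φ C, Φ D} (Φ J)) := by
  have : Infinite (Y X) := Infinite.of_injective (fun x : X => (some ⟨0, fun _ => x⟩ : Y X))
    fun a b hab => congrFun (eq_of_heq (Sigma.mk.inj (Option.some.inj hab)).2) 0
  obtain ⟨e⟩ : Nonempty (Y X ≃ X) := nonempty_equiv_of_countable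
  obtain ⟨Φ, h1, h2, h3⟩ := mainY (X := X)
  refine ⟨fun C => conj e (Φ C), (conj e).injective.comp h1, fun C D I hI => ?_,
    fun C D J hJ => ?_⟩
  · have := (conj e).isGLB_image'.2 (h2 C D I hI)
    rwa [image_pair] at this
  · have := (conj e).isLUB_image'.2 (h3 C D J hJ)
    rwa [image_pair] at this

end Pool.Agent.H25.CloneMon
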