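import Pool.Agent.H25.Namba
import Pool.Agent.H25.BranchSpace

/-! A Baire tree of labelled closed sets whose square is nowhere Baire. -/

set_option autoImplicit false

namespace Pool.Agent.H25.ClubTree

open Cardinal Set Pool.Agent.H25.NSIdeal Pool.Agent.H25.Namba Pool.Agent.H25.BranchSpace
  Pool.Agent.H25.DSepDefs

variable {W L : Type} [LinearOrder W] [Preorder L]

structure Node (l : W → L) where
  c : Set W
  tp : W
  gr : IsGreatest c tp
  cl : ∀ x, (c ∩ Iic x).Nonempty → ∃ a, IsGreatest (c ∩ Iic x) a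
  mono : MonotoneOn l c

variable {l : W → L}

instance : PartialOrder (Node l) where
  le s t := ∀ a, a ∈ s.c ↔ a ∈ t.c ∧ a ≤ s.tp
  le_refl s a := ⟨fun h => ⟨h, s.gr.2 h⟩, fun h => h.1⟩
  le_trans s t u h1 h2 a := by
    have h3 : s.tp ≤ t.tp := t.gr.2 ((h1 _).1 s.gr.1).1
    rw [h1, h2]
    exact ⟨fun h => ⟨h.1.1, h.2⟩, fun h => ⟨⟨h.1, h.2.trans h3⟩, h.2⟩⟩
  le_antisymm s t h1 h2 := by
    have h3 : s.c = t.c := Set.ext fun a => ⟨fun h => ((h1 a).1 h).1, fun h => ((h2 a).1 h).1⟩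
    have h4 : s.tp = t.tp := s.gr.unique (h3 ▸ t.gr)
    cases s; cases t
    simp only at h3 h4
    subst h3 h4
    rfl

theorem sub {s t : Node l} (h : s ≤ t) : s.c ⊆ t.c := fun a ha => ((h a).1 ha).1

theorem tp_le {s t : Node l} (h : s ≤ t) : s.tp ≤ t.tp := t.gr.2 (sub h s.gr.1)

theorem le_of_tp {s s' t : Node l} (h : s ≤ t) (h' : s' ≤ t) (k : s.tp ≤ s'.tp) : s ≤ s' := by
  intro a
  rw [h a, h' a]
  exact ⟨fun h => ⟨⟨h.1, h.2.trans k⟩, h.2⟩, fun h => ⟨h.1.1, h.2⟩⟩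

theorem isTree : IsTree (Node l) := fun s s' _ h h' =>
  (le_total s.tp s'.tp).imp (le_of_tp h h') (le_of_tp h' h)

def ext (t : Node l) (g : W) (h1 : t.tp < g) (h2 : l t.tp ≤ l g) : Node l where
  c := insert g t.c
  tp := g
  gr := ⟨mem_insert _ _, by
    rintro a (rfl | ha)
    · exact le_rfl
    · exact (t.gr.2 ha).trans h1.le⟩
  cl x hx := by
    by_cases hg : g ≤ x
    · refine ⟨g, ⟨mem_insert _ _, hg⟩, ?_⟩
      rintro a ⟨rfl | ha, -⟩
      · exact le_rfl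
      · exact (t.gr.2 ha).trans h1.le
    · rw [insert_inter_of_notMem (show g ∉ Iic x from hg)] at hx ⊢
      exact t.cl x hx
  mono := by
    rintro a (rfl | ha) b (rfl | hb) hab
    · exact le_rfl
    · exact absurd ((t.gr.2 hb).trans_lt h1) (not_lt.2 hab)
    · exact (t.mono ha t.gr.1 (t.gr.2 ha)).trans h2
    · exact t.mono ha hb hab

theorem le_ext (t : Node l) (g : W) (h1 : t.tp < g) (h2 : l t.tp ≤ l g) : t ≤ ext t g h1 h2 := by
  intro a
  refine ⟨fun h => ⟨Or.inr h, t.gr.2 h⟩, ?_⟩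
  rintro ⟨rfl | h, h'⟩
  · exact absurd h1 (not_lt.2 h')
  · exact h

/-- interleaving of two sets above a pair of incompatible labels -/
def P (l : W → L) (c d : Set W) : ℕ → W → Prop
  | 0, x => ∃ a ∈ c, ∃ b ∈ d, a ≤ x ∧ b ≤ x ∧ ¬ ∃ z, l a ≤ z ∧ l b ≤ z
  | m + 1, x => ∃ y, P l c d m y ∧ ∃ a ∈ c, ∃ b ∈ d, y < a ∧ y < b ∧ a ≤ x ∧ b ≤ x

theorem loc {c d c' d' : Set W} (m : ℕ) : ∀ y, P l c d m y → (∀ a ∈ c, a ≤ y → a ∈ c') →
    (∀ b ∈ d, b ≤ y → b ∈ d') → P l c' d' m y := by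
  induction m with
  | zero =>
    rintro y ⟨a, ha, b, hb, h1, h2, h3⟩ hc hd
    exact ⟨a, hc a ha h1, b, hd b hb h2, h1, h2, h3⟩
  | succ m ih =>
    rintro x ⟨y, hy, a, ha, b, hb, h1, h2, h3, h4⟩ hc hd
    have : y ≤ x := h1.le.trans h3
    exact ⟨y, ih y hy (fun a ha h => hc a ha (h.trans this)) (fun a ha h => hd a ha (h.trans this)),
      a, hc a ha h3, b, hd b hb h4, h1, h2, h3, h4⟩

theorem fin_rank [WellFoundedLT W] (s t : Node l) : ∃ m, ∀ x, ¬ P l s.c t.c m x := by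
  by_contra hh
  push Not at hh
  have h1 : ∀ m, ∃ v, P l s.c t.c m v ∧ ∀ x, P l s.c t.c m x → v ≤ x := fun m => by
    obtain ⟨v, h1, h2⟩ := (wellFounded_lt (α := W)).has_min {x | P l s.c t.c m x} (hh m)
    exact ⟨v, h1, fun x hx => not_lt.1 (h2 x hx)⟩
  choose v hv1 hv2 using h1
  have h2 : ∀ m, ∃ a ∈ s.c, ∃ b ∈ t.c, v m < a ∧ v m < b ∧ a ≤ v (m + 1) ∧ b ≤ v (m + 1) := by
    intro m
    obtain ⟨y, hy, a, ha, b, hb, h1, h2, h3, h4⟩ := hv1 (m + 1)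
    exact ⟨a, ha, b, hb, (hv2 m y hy).trans_lt h1, (hv2 m y hy).trans_lt h2, h3, h4⟩
  obtain ⟨d, hd1, hd2⟩ := (wellFounded_lt (α := W)).has_min {x | ∀ m, v m < x} ⟨s.tp, fun m => by
    obtain ⟨a, ha, -, -, h, -⟩ := h2 m
    exact h.trans_le (s.gr.2 ha)⟩
  have key : ∀ u : Node l, (∀ m, ∃ a ∈ u.c, v m < a ∧ a ≤ v (m + 1)) → d ∈ u.c := by
    intro u hu
    obtain ⟨a, ha, -, h⟩ := hu 0
    obtain ⟨e, he1, he2⟩ := u.cl d ⟨a, ha, h.trans (hd1 _).le⟩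
    have : e = d := le_antisymm he1.2 (not_lt.1 (hd2 e fun m => by
      obtain ⟨a, ha, h, h'⟩ := hu m
      exact h.trans_le (he2 ⟨ha, h'.trans (hd1 _).le⟩)))
    exact this ▸ he1.1
  obtain ⟨a, ha, b, hb, h3, h4, h5⟩ := hv1 0
  refine h5 ⟨l d, s.mono ha (key s fun m => ?_) (h3.trans (hd1 0).le),
    t.mono hb (key t fun m => ?_) (h4.trans (hd1 0).le)⟩
  · obtain ⟨a, ha, -, -, h, -, h', -⟩ := h2 m
    exact ⟨a, ha, h, h'⟩
  · obtain ⟨-, -, a, ha, -, h, -, h'⟩ := h2 m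
    exact ⟨a, ha, h, h'⟩

theorem main [WellFoundedLT W] (h : Good W) (hL : #(ℕ → L) < #W)
    (hl : ∀ y, ¬ Thin {a | a ∈ E W ∧ l a = y})
    (hσ : ∀ x : ℕ → L, Monotone x → ∃ y, ∀ n, x n ≤ y)
    (hsp : ∀ x y : L, ∃ x' y', x ≤ x' ∧ y ≤ y' ∧ ¬ ∃ z, x' ≤ z ∧ y' ≤ z) :
    ∃ (X : Type) (_ : TopologicalSpace X), T35Space X ∧ ¬ SmallDSep X ∧ BigDSep (X × X) := by
  have hu : ∀ (y : L) (b : W), ∃ g, b < g ∧ l g = y := fun y b => by
    obtain ⟨a, h1, h2⟩ := unb h (hl y) b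
    exact ⟨a, h2, h1.2⟩
  have hW : Nonempty W := mk_ne_zero_iff.1 (ne_of_gt (lt_of_le_of_lt (zero_le (α := Cardinal)) h.unc))
  obtain ⟨w⟩ := hW
  have hne : Nonempty (Node l) := ⟨⟨{w}, w, isGreatest_singleton, fun x hx => ⟨w, by
    obtain ⟨a, rfl, ha⟩ := hx
    exact ⟨⟨rfl, ha⟩, fun b hb => hb.1.le⟩⟩, by
      rintro a rfl b rfl -
      exact le_rfl⟩⟩
  have hx : ∀ (t : Node l) (b : W), ∃ (g : W) (h1 : t.tp < g) (_ : l t.tp ≤ l g), b < g := by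
    intro t b
    obtain ⟨g, h1, h2⟩ := hu (l t.tp) (max b t.tp)
    exact ⟨g, (le_max_right _ _).trans_lt h1, h2.ge, (le_max_left _ _).trans_lt h1⟩
  refine ⟨Flag (Node l), top _, t35 isTree, not_dsep isTree ?_ ?_,
    dsep_sq isTree (fun m => {p | ∃ x, P l p.1.c p.2.c m x}) ?_ ?_⟩
  · intro t
    obtain ⟨g, h1, h2, -⟩ := hx t w
    obtain ⟨g', h3, h4, h5⟩ := hx t g
    refine ⟨_, _, le_ext t g h1 h2, le_ext t g' h3 h4, ?_⟩
    rintro (k | k)
    · rcases sub k (mem_insert _ _) with k | k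
      · exact h5.ne k
      · exact h1.not_ge (t.gr.2 k)
    · exact h5.not_ge (tp_le k)
  · intro D hD hU
    have h1 : ∀ (p : ℕ × Node l) (g : W), ∃ q ∈ D p.1, p.2 ≤ q ∧ g < q.tp := by
      intro p g
      obtain ⟨g', a1, a2, a3⟩ := hx p.2 g
      obtain ⟨q, b1, b2⟩ := hD p.1 (ext p.2 g' a1 a2)
      exact ⟨q, b1, (le_ext _ _ _ _).trans b2, a3.trans_le (tp_le b2)⟩
    choose nq k1 k2 k3 using h1
    obtain ⟨s⟩ := hne
    let nx : ℕ × Node l → W → ℕ × Node l := fun p g => (p.1 + 1, nq p g)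
    obtain ⟨x, hx⟩ := fusion nx (fun p => l p.2.tp) h hL (0, s) (fun p => p.2.tp)
    have r1 : ∀ γ n, (run nx (0, s) γ n).1 = n := by
      intro γ n
      induction n with
      | zero => rfl
      | succ n ih => rw [run]; exact congrArg (· + 1) ih
    have r2 : ∀ γ, Monotone fun n => (run nx (0, s) γ n).2 :=
      fun γ => monotone_nat_of_le_succ fun n => k2 _ _
    have r3 : ∀ {a b : Node l}, a ≤ b → l a.tp ≤ l b.tp :=
      fun {a b} hab => b.mono (sub hab a.gr.1) b.gr.1 (tp_le hab)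
    obtain ⟨y, hy⟩ := hσ x (by
      obtain ⟨d, -, γ, -, h2⟩ := hx (E W) subset_rfl (not_small_E h)
      intro m n hmn
      rw [← (h2 m).2, ← (h2 n).2]
      exact r3 (r2 γ (Nat.succ_le_succ hmn)))
    obtain ⟨d, ⟨-, hd⟩, γ, h2, h3⟩ := hx _ (fun a ha => ha.1) (hl y)
    set q : ℕ → Node l := fun n => (run nx (0, s) γ n).2 with hq
    have q1 : ∀ n, (q n).tp < d := fun n => (h3 n).1
    have q2 : ∀ n a, a ≤ (q n).tp → a ∈ insert d (⋃ n, (q n).c) → a ∈ (q n).c := by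
      rintro n a ha (rfl | hb)
      · exact absurd (q1 n) (not_lt.2 ha)
      · obtain ⟨m, hm⟩ := mem_iUnion.1 hb
        rcases le_total m n with hmn | hmn
        · exact sub (r2 γ hmn) hm
        · exact (r2 γ hmn a).2 ⟨hm, ha⟩
    have q3 : IsGreatest (insert d (⋃ n, (q n).c)) d := ⟨mem_insert _ _, by
      rintro a (rfl | hb)
      · exact le_rfl
      · obtain ⟨m, hm⟩ := mem_iUnion.1 hb
        exact ((q m).gr.2 hm).trans (q1 m).le⟩
    have q4 : ∀ b, b < d → ∃ n, b ≤ (q n).tp := fun b hb => by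
      obtain ⟨n, hn⟩ := h2 b hb
      exact ⟨n + 1, (hn.trans (k3 _ _)).le⟩
    refine ⟨⟨insert d (⋃ n, (q n).c), d, q3, fun z hz => ?_, ?_⟩, fun n => ?_⟩
    · by_cases hdz : d ≤ z
      · exact ⟨d, ⟨q3.1, hdz⟩, fun a ha => q3.2 ha.1⟩
      · obtain ⟨n, hn⟩ := q4 z (not_le.1 hdz)
        have e : insert d (⋃ n, (q n).c) ∩ Iic z = (q n).c ∩ Iic z := Set.ext fun a =>
          ⟨fun ha => ⟨q2 n a (ha.2.trans hn) ha.1, ha.2⟩,
            fun ha => ⟨Or.inr (mem_iUnion.2 ⟨n, ha.1⟩), ha.2⟩⟩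
        rw [e] at hz ⊢
        exact (q n).cl z hz
    · intro a ha b hb hab
      rcases (q3.2 hb).eq_or_lt with rfl | hbd
      · rcases ha with rfl | ha
        · exact le_rfl
        · obtain ⟨m, hm⟩ := mem_iUnion.1 ha
          rw [hd]
          refine le_trans ?_ (hy m)
          rw [← (h3 m).2]
          exact ((q m).mono hm (q m).gr.1 ((q m).gr.2 hm)).trans (r3 (r2 γ (Nat.le_succ m)))
      · obtain ⟨n, hn⟩ := q4 b hbd
        exact (q n).mono (q2 n a (hab.trans hn) ha) (q2 n b hn hb) hab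
    · refine hU n (a := q (n + 1)) (fun a => ⟨fun ha => ⟨Or.inr (mem_iUnion.2 ⟨_, ha⟩),
        (q _).gr.2 ha⟩, fun ha => q2 _ a ha.2 ha.1⟩) ?_
      have := k1 (run nx (0, s) γ n) (γ n)
      rwa [r1] at this
  · intro m
    induction m with
    | zero =>
      rintro ⟨s, t⟩
      obtain ⟨x', y', a1, a2, a3⟩ := hsp (l s.tp) (l t.tp)
      obtain ⟨g, b1, b2⟩ := hu x' s.tp
      obtain ⟨g', c1, c2⟩ := hu y' t.tp
      exact ⟨(ext s g b1 (b2 ▸ a1), ext t g' c1 (c2 ▸ a2)), ⟨max g g', g, mem_insert _ _, g',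
        mem_insert _ _, le_max_left _ _, le_max_right _ _, by rwa [b2, c2]⟩,
        le_ext s g b1 (b2 ▸ a1), le_ext t g' c1 (c2 ▸ a2)⟩
    | succ m ih =>
      intro p
      obtain ⟨⟨s, t⟩, ⟨x, hx'⟩, hp⟩ := ih p
      obtain ⟨g, b1, b2, b3⟩ := hx s x
      obtain ⟨g', c1, c2, c3⟩ := hx t x
      exact ⟨(ext s g b1 b2, ext t g' c1 c2), ⟨max g g', x,
        loc m x hx' (fun a ha _ => Or.inr ha) (fun a ha _ => Or.inr ha), g, mem_insert _ _, g',
        mem_insert _ _, b3, c3, le_max_left _ _, le_max_right _ _⟩,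
        hp.1.trans (le_ext s g b1 b2), hp.2.trans (le_ext t g' c1 c2)⟩
  · rintro ⟨s, t⟩
    obtain ⟨m, hm⟩ := fin_rank s t
    obtain ⟨g, b1, b2, b3⟩ := hx s t.tp
    obtain ⟨g', c1, c2, c3⟩ := hx t s.tp
    have A : ∀ (u e : Node l) (g : W) (h1 : u.tp < g) (h2 : l u.tp ≤ l g), Cmp e (ext u g h1 h2) →
        (∀ a ∈ e.c, a < g → a ∈ u.c) ∧ (u ≤ e ∨ e.tp ≤ u.tp) := by
      rintro u e g h1 h2 (k | k)
      · refine ⟨fun a ha hag => (sub k ha).resolve_left hag.ne, ?_⟩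
        exact (isTree u e _ (le_ext _ _ _ _) k).imp id tp_le
      · exact ⟨fun a ha hag => ((k a).2 ⟨ha, hag.le⟩).resolve_left hag.ne,
          Or.inl ((le_ext _ _ _ _).trans k)⟩
    refine ⟨(ext s g b1 b2, ext t g' c1 c2), m + 1, ?_⟩
    rintro ⟨e, f⟩ ⟨x, y, hy, a, ha, b, hb, d1, d2, -⟩ k1 k2
    obtain ⟨e1, e2⟩ := A s e g b1 b2 k1
    obtain ⟨f1, f2⟩ := A t f g' c1 c2 k2
    have B : ¬ (y < g ∧ y < g') := fun k => hm y (loc m y hy
      (fun a ha h => e1 a ha (h.trans_lt k.1)) (fun a ha h => f1 a ha (h.trans_lt k.2)))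
    refine ⟨e2.resolve_right fun k => B ?_, f2.resolve_right fun k => B ?_⟩
    · have := d1.trans_le ((e.gr.2 ha).trans k)
      exact ⟨this.trans b1, this.trans c3⟩
    · have := d2.trans_le ((f.gr.2 hb).trans k)
      exact ⟨this.trans b3, this.trans c1⟩

theorem exists_space :
    ∃ (X : Type) (_ : TopologicalSpace X), T35Space X ∧ ¬ SmallDSep X ∧ BigDSep (X × X) := by
  let L := {p : Set ℝ × Set ℝ // p.1.Countable ∧ p.2.Countable ∧ Disjoint p.1 p.2}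
  have : Nonempty L := ⟨⟨(∅, ∅), by simp⟩⟩
  let k : Cardinal.{0} := Order.succ (max ℵ₀ #(ℕ → L))
  have hk : k.IsRegular := isRegular_succ (le_max_left _ _)
  have hu : ℵ₀ < k := (le_max_left _ _).trans_lt (Order.lt_succ _)
  have h : Good k.ord.ToType := ⟨by simpa using hk, by simpa using hu,
    fun i => mk_Iic_lt i (by simp) (by simpa using hu.le)⟩
  have hL : #(ℕ → L) < #k.ord.ToType := by
    rw [mk_ord_toType]
    exact (le_max_right _ _).trans_lt (Order.lt_succ _)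
  obtain ⟨l, hl⟩ := labels h L ((mk_le_of_injective (f := fun (x : L) (_ : ℕ) => x)
    fun a b hab => congrFun hab 0).trans hL.le)
  refine main h hL hl (fun x hx => ?_) (fun x y => ?_)
  · refine ⟨⟨(⋃ n, (x n).1.1, ⋃ n, (x n).1.2), countable_iUnion fun n => (x n).2.1,
      countable_iUnion fun n => (x n).2.2.1, ?_⟩, fun n =>
      ⟨subset_iUnion (fun n => (x n).1.1) n, subset_iUnion (fun n => (x n).1.2) n⟩⟩
    simp only [disjoint_iUnion_left, disjoint_iUnion_right]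
    intro m n
    exact (x (max m n)).2.2.2.mono (hx (le_max_right m n)).1 (hx (le_max_left m n)).2
  · obtain ⟨r, hr⟩ : ∃ r, r ∉ x.1.2 ∪ y.1.1 := by
      by_contra hh
      push Not at hh
      exact Set.not_countable_univ ((x.2.2.1.union y.2.1).mono fun r _ => hh r)
    refine ⟨⟨(insert r x.1.1, x.1.2), x.2.1.insert r, x.2.2.1, ?_⟩,
      ⟨(y.1.1, insert r y.1.2), y.2.1, y.2.2.1.insert r, ?_⟩,
      ⟨subset_insert _ _, subset_rfl⟩, ⟨subset_rfl, subset_insert _ _⟩, ?_⟩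
    · exact disjoint_insert_left.2 ⟨fun h => hr (Or.inl h), x.2.2.2⟩
    · exact disjoint_insert_right.2 ⟨fun h => hr (Or.inr h), y.2.2.2⟩
    · rintro ⟨z, h1, h2⟩
      exact disjoint_left.1 z.2.2.2 (h1.1 (mem_insert _ _)) (h2.2 (mem_insert _ _))

end Pool.Agent.H25.ClubTree
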