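import Mathlib

namespace Pool.Agent.H25.Cost
open Function MulAction
open scoped Pointwise

theorem separate {Γ Ω ι : Type} [Group Γ] [MulAction Γ Ω] [Finite ι] (b : ι → Ω) (A : Set Ω)
    (hA : A.Finite) : ∃ γ : Γ, ∀ i, (orbit Γ (b i)).Infinite → γ • b i ∉ A := by
  classical
  by_contra h
  push Not at h
  haveI := Fintype.ofFinite ι
  let P : ι × Ω → Prop := fun p => (orbit Γ (b p.1)).Infinite ∧ ∃ γ : Γ, γ • b p.1 = p.2
  let g : ι × Ω → Γ := fun p => if hp : P p then hp.2.choose else 1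
  have cover : ⋃ p ∈ (Finset.univ ×ˢ hA.toFinset).filter P,
      g p • (stabilizer Γ (b p.1) : Set Γ) = Set.univ := by
    refine Set.eq_univ_of_forall fun γ => ?_
    obtain ⟨i, hi, hγ⟩ := h γ
    have hp : P (i, γ • b i) := ⟨hi, γ, rfl⟩
    refine Set.mem_biUnion (x := (i, γ • b i)) ?_ ?_
    · simp [hp, hγ]
    · rw [mem_leftCoset_iff]
      have : g (i, γ • b i) • b i = γ • b i := by
        simp only [g, dif_pos hp]
        exact hp.2.choose_spec
      change ((g (i, γ • b i))⁻¹ * γ) • b i = b i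
      rw [mul_smul, inv_smul_eq_iff]
      exact this.symm
  obtain ⟨p, hp, hfin⟩ := Subgroup.exists_finiteIndex_of_leftCoset_cover cover
  have h1 := (Finset.mem_filter.1 hp).2.1
  have h2 := hfin.index_ne_zero
  rw [MulAction.index_stabilizer] at h2
  exact h2 h1.ncard

theorem finite_dist {Γ Ω ι : Type} [Group Γ] [MulAction Γ Ω] [Finite ι] (b : ι → Ω)
    (hb : ∀ g : Γ, (∀ i, g • b i = b i) → g = 1) (T : Set Ω)
    (hT : ∀ g : Γ, (∀ v, g • v ∈ T ↔ v ∈ T) → g = 1) :
    ∃ S : Set Ω, S.Finite ∧ ∀ g : Γ, (∀ v, g • v ∈ S ↔ v ∈ S) → g = 1 := by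
  classical
  have fin1 : ∀ (S : Set Ω), S.Finite → ∀ γ : Γ,
      {g : Γ | ∀ i, (orbit Γ (b i)).Infinite → g • γ • b i ∈ S}.Finite := by
    intro S hS γ
    refine Set.Finite.of_injOn (f := fun g i => g • γ • b i)
      (t := Set.univ.pi fun i => if (orbit Γ (b i)).Infinite then S else orbit Γ (b i)) ?_ ?_ ?_
    · intro g hg i _
      by_cases hi : (orbit Γ (b i)).Infinite
      · simp only [if_pos hi]
        exact hg i hi
      · simp only [if_neg hi]
        exact ⟨g * γ, mul_smul _ _ _⟩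
    · intro g _ g' _ e
      have := hb ((g' * γ)⁻¹ * (g * γ)) fun i => by
        have e2 : g • γ • b i = g' • γ • b i := congrFun e i
        rw [mul_smul, mul_smul g, e2, ← mul_smul g', inv_smul_smul]
      exact (mul_right_cancel (inv_mul_eq_one.1 this)).symm
    · refine Set.Finite.pi fun i => ?_
      by_cases hi : (orbit Γ (b i)).Infinite
      · simpa only [if_pos hi] using hS
      · simpa only [if_neg hi] using Set.not_infinite.1 hi
  let Fm : Set Γ := {g | {v : Ω | g • v ≠ v}.Finite}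
  let U0 : Set Ω := ⋃ i ∈ {i | (orbit Γ (b i)).Finite}, orbit Γ (b i)
  have hU0 : U0.Finite := (Set.toFinite _).biUnion fun i hi => hi
  have hFm : Fm.Finite := by
    haveI := hU0.to_subtype
    refine Set.Finite.of_injOn (f := fun g (u : U0) => g • (u : Ω))
      (t := Set.univ.pi fun _ => U0) ?_ ?_ (Set.Finite.pi fun _ => hU0)
    · rintro g - ⟨u, hu⟩ -
      obtain ⟨i, hi, γ, rfl⟩ := Set.mem_iUnion₂.1 hu
      exact Set.mem_biUnion hi ⟨g * γ, mul_smul _ _ _⟩
    · intro g hg g' hg' e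
      obtain ⟨γ, hγ⟩ := separate (Γ := Γ) b _ (Set.Finite.union hg hg')
      have := hb ((g' * γ)⁻¹ * (g * γ)) fun i => by
        have e2 : g • γ • b i = g' • γ • b i := by
          by_cases hi : (orbit Γ (b i)).Infinite
          · have := hγ i hi
            simp only [Set.mem_union, Set.mem_setOf_eq, not_or, not_not] at this
            rw [this.1, this.2]
          · exact congrFun e ⟨γ • b i, Set.mem_biUnion (Set.not_infinite.1 hi) ⟨γ, rfl⟩⟩
        rw [mul_smul, mul_smul g, e2, ← mul_smul g', inv_smul_smul]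
      exact (mul_right_cancel (inv_mul_eq_one.1 this)).symm
  let U : Set Ω := ⋃ g ∈ Fm, {v : Ω | g • v ≠ v}
  have hU : U.Finite := hFm.biUnion fun g hg => hg
  have Uinv : ∀ (γ : Γ) v, v ∈ U → γ • v ∈ U := by
    intro γ v hv
    obtain ⟨g, hg, hv⟩ := Set.mem_iUnion₂.1 hv
    have key : ∀ w : Ω, (γ * g * γ⁻¹) • w ≠ w ↔ g • γ⁻¹ • w ≠ γ⁻¹ • w := by
      intro w
      rw [mul_smul, mul_smul, ne_eq, ne_eq, ← eq_inv_smul_iff]
    refine Set.mem_biUnion (x := γ * g * γ⁻¹) ?_ ?_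
    · refine (Set.Finite.image (fun w => γ • w) hg).subset fun w hw => ?_
      exact ⟨γ⁻¹ • w, (key w).1 hw, smul_inv_smul _ _⟩
    · refine (key _).2 ?_
      rw [inv_smul_smul]
      exact hv
  have Uinv' : ∀ (γ : Γ) v, γ • v ∈ U ↔ v ∈ U := fun γ v =>
    ⟨fun h => by simpa using Uinv γ⁻¹ _ h, Uinv γ v⟩
  let D : Set Ω → Prop := fun S => S.Finite ∧ (∀ v ∈ S, v ∉ U) ∧
    ∀ x, ∃ γ : Γ, ∀ i, (orbit Γ (b i)).Infinite → γ • b i ∈ S ∧ γ • b i ≠ x
  let H : Set Ω → Set Γ := fun S => {g | ∀ v, g • v ∈ S ↔ v ∈ S}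
  have fin2 : ∀ S, D S → ∀ x, {g : Γ | ∀ y ∈ S, y ≠ x → g • y ∈ S}.Finite := by
    intro S hS x
    obtain ⟨γ, hγ⟩ := hS.2.2 x
    exact (fin1 S hS.1 γ).subset fun g hg i hi => hg _ (hγ i hi).1 (hγ i hi).2
  have greedy : ∀ n, ∀ S, D S → (H S).ncard = n → ∃ S', D S' ∧ H S' ⊆ Fm := by
    intro n
    induction n using Nat.strong_induction_on with
    | _ n ih =>
      intro S hS hn
      by_cases hsub : H S ⊆ Fm
      · exact ⟨S, hS, hsub⟩
      obtain ⟨g, hg, hgF⟩ := Set.not_subset.1 hsub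
      have hX : (⋃ x ∈ S, (fun h : Γ => h • x) '' {g : Γ | ∀ y ∈ S, y ≠ x → g • y ∈ S}).Finite :=
        hS.1.biUnion fun x _ => (fin2 S hS x).image _
      obtain ⟨v, hv, hv2⟩ := Set.Infinite.exists_notMem_finite hgF ((hX.union hS.1).union hU)
      simp only [Set.mem_union, not_or] at hv2
      have hD : D (insert v S) := by
        refine ⟨hS.1.insert v, ?_, fun x => ?_⟩
        · rintro w (rfl | hw)
          · exact hv2.2
          · exact hS.2.1 w hw
        · obtain ⟨γ, hγ⟩ := hS.2.2 x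
          exact ⟨γ, fun i hi => ⟨Or.inr (hγ i hi).1, (hγ i hi).2⟩⟩
      have fixv : ∀ h ∈ H (insert v S), h • v = v := by
        intro h hh
        have hx : h⁻¹ • v ∈ insert v S := by
          rw [← hh, smul_inv_smul]
          exact Or.inl rfl
        rcases hx with hx | hx
        · exact (inv_smul_eq_iff.1 hx).symm
        · refine (hv2.1.1 (Set.mem_biUnion hx ⟨h, fun y hy hne => ?_, smul_inv_smul _ _⟩)).elim
          rcases (hh y).2 (Or.inr hy) with e | e
          · exact (hne (eq_inv_smul_iff.2 e)).elim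
          · exact e
      have hfin : (H S).Finite := (fin2 S hS v).subset fun h hh y hy _ => (hh y).2 hy
      refine ih _ ?_ _ hD rfl
      rw [← hn]
      refine Set.ncard_lt_ncard ⟨fun h hh w => ?_, fun hh => hv (fixv g (hh hg))⟩ hfin
      have f1 := fixv h hh
      by_cases e : w = v
      · rw [e, f1]
      · have e' : h • w ≠ v := fun e2 => e (smul_left_cancel h (e2.trans f1.symm))
        have := hh w
        simpa [Set.mem_insert_iff, e, e'] using this
  obtain ⟨γ0, hγ0⟩ := separate (Γ := Γ) b _ (Set.finite_range b)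
  have notU : ∀ (γ : Γ) i, (orbit Γ (b i)).Infinite → γ • b i ∉ U := by
    intro γ i hi h
    refine hi (hU.subset ?_)
    rintro _ ⟨δ, rfl⟩
    exact Uinv δ _ ((Uinv' γ _).1 h)
  have hD0 : D (b '' {i | (orbit Γ (b i)).Infinite} ∪
      (fun i => γ0 • b i) '' {i | (orbit Γ (b i)).Infinite}) := by
    refine ⟨Set.toFinite _, ?_, ?_⟩
    · rintro _ (⟨i, hi, rfl⟩ | ⟨i, hi, rfl⟩)
      · simpa using notU 1 i hi
      · exact notU γ0 i hi
    · intro x
      by_cases hx : x ∈ Set.range b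
      · exact ⟨γ0, fun i hi => ⟨Or.inr ⟨i, hi, rfl⟩, fun e => hγ0 i hi (e ▸ hx)⟩⟩
      · exact ⟨1, fun i hi => ⟨Or.inl ⟨i, hi, (one_smul _ _).symm⟩,
          fun e => hx ⟨i, by rw [← e, one_smul]⟩⟩⟩
  obtain ⟨S, hS, hSF⟩ := greedy _ _ hD0 rfl
  refine ⟨S ∪ T ∩ U, hS.1.union (hU.subset Set.inter_subset_right), fun g hg => ?_⟩
  have c1 : ∀ w, w ∈ S ↔ (w ∈ S ∪ T ∩ U ∧ w ∉ U) := fun w =>
    ⟨fun h => ⟨Or.inl h, hS.2.1 w h⟩, fun h => h.1.elim id fun h2 => (h.2 h2.2).elim⟩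
  have c2 : ∀ w ∈ U, (w ∈ T ↔ w ∈ S ∪ T ∩ U) := fun w hw =>
    ⟨fun h => Or.inr ⟨h, hw⟩, fun h => h.elim (fun h2 => (hS.2.1 w h2 hw).elim) fun h2 => h2.1⟩
  have gF : g ∈ Fm := hSF fun v => by rw [c1, c1 v, hg, Uinv']
  refine hT g fun v => ?_
  by_cases e : g • v = v
  · rw [e]
  · have hv : v ∈ U := Set.mem_biUnion gF e
    rw [c2 _ (Uinv g v hv), c2 v hv, hg]

theorem bounded (d : ℕ) (hd : 0 < d) : ∃ M : ℕ, ∀ (V : Type) (A : Subgroup (Equiv.Perm V))
    (b : Fin d → V) (T : Set V), (∀ g ∈ A, (∀ i, g (b i) = b i) → g = 1) →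
    (∀ g ∈ A, (∀ v, g v ∈ T ↔ v ∈ T) → g = 1) →
    ∃ S : Set V, S.Finite ∧ S.ncard ≤ M ∧ ∀ g ∈ A, (∀ v, g v ∈ S ↔ v ∈ S) → g = 1 := by
  classical
  by_contra hcon
  push Not at hcon
  choose V A b T hb hT hS using hcon
  let 𝒰 : Ultrafilter ℕ := Filter.hyperfilter ℕ
  let s : Setoid (∀ N, V N) := Filter.productSetoid (𝒰 : Filter ℕ) V
  have seq : ∀ x y : (∀ N, V N), (Quotient.mk s x = Quotient.mk s y) ↔
      ∀ᶠ N in (𝒰 : Filter ℕ), x N = y N := fun x y => Quotient.eq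
  let act : (∀ N, A N) → Quotient s → Quotient s := fun g =>
    Quotient.map' (fun x N => (g N : Equiv.Perm (V N)) (x N)) fun x y h =>
      Filter.Eventually.mono h fun N hN => by
        show (g N : Equiv.Perm (V N)) (x N) = (g N : Equiv.Perm (V N)) (y N)
        rw [hN]
  letI : MulAction (∀ N, A N) (Quotient s) :=
    { smul := act
      one_smul := fun x => Quotient.inductionOn x fun x => rfl
      mul_smul := fun g h x => Quotient.inductionOn x fun x => rfl }
  let φ := MulAction.toPermHom (∀ N, A N) (Quotient s)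
  have ap : ∀ (g : ∀ N, A N) (x : ∀ N, V N), φ g (Quotient.mk s x) =
      Quotient.mk s fun N => (g N : Equiv.Perm (V N)) (x N) := fun g x => rfl
  have triv : ∀ g : (∀ N, A N), (∀ᶠ N in (𝒰 : Filter ℕ), (g N : Equiv.Perm (V N)) = 1) →
      φ g = 1 := by
    intro g hg
    ext x
    induction x using Quotient.inductionOn with
    | _ x =>
      rw [ap]
      exact (seq _ _).2 (hg.mono fun N hN => by rw [hN]; rfl)
  have memT : ∀ (R : ∀ N, Set (V N)) (x : ∀ N, V N),
      Quotient.mk s x ∈ {w : Quotient s | ∀ᶠ N in (𝒰 : Filter ℕ), w.out N ∈ R N} ↔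
        ∀ᶠ N in (𝒰 : Filter ℕ), x N ∈ R N := by
    intro R x
    have := (seq _ _).1 (Quotient.out_eq (Quotient.mk s x))
    exact Filter.eventually_congr (this.mono fun N hN => by rw [hN])
  obtain ⟨S, hSf, hS2⟩ := finite_dist (Γ := φ.range) (Ω := Quotient s)
    (fun i => Quotient.mk s fun N => b N i) (by
      rintro ⟨_, g, rfl⟩ hg
      refine Subtype.ext (triv g ?_)
      have : ∀ᶠ N in (𝒰 : Filter ℕ), ∀ i, (g N : Equiv.Perm (V N)) (b N i) = b N i :=
        Filter.eventually_all.2 fun i => (seq _ _).1 ((ap g _).symm.trans (hg i))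
      exact this.mono fun N hN => hb N _ (g N).2 hN)
    {w : Quotient s | ∀ᶠ N in (𝒰 : Filter ℕ), w.out N ∈ T N} (by
      rintro ⟨_, g, rfl⟩ hg
      refine Subtype.ext (triv g ?_)
      have ex : ∀ N, ∃ x : V N, ((g N : Equiv.Perm (V N)) x ∈ T N ↔ x ∈ T N) →
          (g N : Equiv.Perm (V N)) = 1 := by
        intro N
        by_cases h : ∀ x, ((g N : Equiv.Perm (V N)) x ∈ T N ↔ x ∈ T N)
        · exact ⟨b N ⟨0, hd⟩, fun _ => hT N _ (g N).2 h⟩
        · obtain ⟨x, hx⟩ := not_forall.1 h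
          exact ⟨x, fun h2 => (hx h2).elim⟩
      choose x hx using ex
      have h1 : φ g (Quotient.mk s x) ∈ _ ↔ _ := hg (Quotient.mk s x)
      rw [ap, memT, memT] at h1
      by_cases h2 : ∀ᶠ N in (𝒰 : Filter ℕ), x N ∈ T N
      · filter_upwards [h2, h1.2 h2] with N a1 a2
        exact hx N ⟨fun _ => a1, fun _ => a2⟩
      · have h3 := Ultrafilter.eventually_not.2 h2
        have h4 := Ultrafilter.eventually_not.2 fun h => h2 (h1.1 h)
        filter_upwards [h3, h4] with N a1 a2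
        exact hx N ⟨fun h => (a2 h).elim, fun h => (a1 h).elim⟩)
  let R : ∀ N, Set (V N) := fun N => (fun w : Quotient s => w.out N) '' S
  have ex : ∀ N, ∃ g : A N, (∀ v, (g : Equiv.Perm (V N)) v ∈ R N ↔ v ∈ R N) ∧
      (S.ncard ≤ N → (g : Equiv.Perm (V N)) ≠ 1) := by
    intro N
    by_cases h : S.ncard ≤ N
    · obtain ⟨g, g1, g2, g3⟩ := hS N (R N) (hSf.image _) ((Set.ncard_image_le hSf).trans h)
      exact ⟨⟨g, g1⟩, g2, fun _ => g3⟩
    · exact ⟨1, fun v => Iff.rfl, fun h2 => (h h2).elim⟩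
  choose g g1 g2 using ex
  have memS : ∀ x : (∀ N, V N), Quotient.mk s x ∈ S ↔ ∀ᶠ N in (𝒰 : Filter ℕ), x N ∈ R N := by
    intro x
    constructor
    · intro h
      exact ((seq _ _).1 (Quotient.out_eq (Quotient.mk s x))).mono fun N hN => ⟨_, h, hN⟩
    · intro h
      obtain ⟨w, hw, h2⟩ := (Ultrafilter.eventually_exists_mem_iff hSf).1 h
      rw [← (seq _ _).2 h2, Quotient.out_eq]
      exact hw
  have one := hS2 ⟨φ g, g, rfl⟩ fun w => by
    induction w using Quotient.inductionOn with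
    | _ x =>
      change φ g (Quotient.mk s x) ∈ S ↔ _
      rw [ap, memS, memS]
      exact Filter.eventually_congr (Filter.Eventually.of_forall fun N => g1 N _)
  have ex2 : ∀ N, ∃ x : V N, (g N : Equiv.Perm (V N)) x = x → (g N : Equiv.Perm (V N)) = 1 := by
    intro N
    by_cases h : ∀ x, (g N : Equiv.Perm (V N)) x = x
    · exact ⟨b N ⟨0, hd⟩, fun _ => Equiv.ext h⟩
    · obtain ⟨x, hx⟩ := not_forall.1 h
      exact ⟨x, fun h2 => (hx h2).elim⟩
  choose x hx using ex2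
  have h1 : φ g (Quotient.mk s x) = Quotient.mk s x := by
    have : φ g = 1 := congrArg Subtype.val one
    rw [this]
    rfl
  rw [ap, seq] at h1
  have h2 : ∀ᶠ N in (𝒰 : Filter ℕ), S.ncard ≤ N :=
    Nat.hyperfilter_le_atTop (Filter.eventually_ge_atTop _)
  obtain ⟨N, a1, a2⟩ := (h1.and h2).exists
  exact g2 N a2 (hx N a1)

end Pool.Agent.H25.Cost
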