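import Pool.Agent.H25.FPTDefs
import Pool.Agent.H11.GDefs

set_option autoImplicit false

namespace Pool.Agent.H25.Cr

variable {V : Type}

/-- local complement at `a`: adjacency is toggled for distinct neighbours of `a` -/
def lc (G : SimpleGraph V) (a : V) : SimpleGraph V where
  Adj x y := x ≠ y ∧ Xor (G.Adj x y) (G.Adj a x ∧ G.Adj a y)
  symm := ⟨fun x y h => ⟨h.1.symm, by rw [G.adj_comm y x, and_comm]; exact h.2⟩⟩
  loopless := ⟨fun _ h => h.1 rfl⟩

open Classical in
/-- local inversion at `a` of a bicoloured graph (colours are the units 1, -1 of the integers) -/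
noncomputable def inv (B : SimpleGraph V × (V → ℤˣ)) (a : V) : SimpleGraph V × (V → ℤˣ) :=
  (lc B.1 a, fun x => if B.1.Adj a x then -B.2 x else B.2 x)

/-- `cr G ≤ k`: every bicolouring is reversed by a string of at most `k` local inversions -/
def CrLe (G : SimpleGraph V) (k : ℕ) : Prop :=
  ∀ β : V → ℤˣ, ∃ w : List V, w.length ≤ k ∧ w.foldl inv (G, β) = (G, -β)

end Pool.Agent.H25.Cr
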