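import Mathlib

set_option autoImplicit false

namespace Pool.Agent.H25.DSepDefs

/-- d-separable: some countable union of discrete subsets is dense -/
def SmallDSep (X : Type) [TopologicalSpace X] : Prop :=
  ∃ F : ℕ → Set X, (∀ n, DiscreteTopology (F n)) ∧ Dense (⋃ n, F n)

/-- D-separable: from any sequence of dense sets one can select discrete subsets with dense union -/
def BigDSep (X : Type) [TopologicalSpace X] : Prop :=
  ∀ D : ℕ → Set X, (∀ n, Dense (D n)) →
    ∃ F : ℕ → Set X, (∀ n, F n ⊆ D n ∧ DiscreteTopology (F n)) ∧ Dense (⋃ n, F n)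

end Pool.Agent.H25.DSepDefs
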