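import Mathlib
import Pool.Agent.H25.StrongDist

set_option autoImplicit false

open Cardinal Set

universe u

namespace Pool.Agent.H25.DeltaK

open Pool.Agent.H25.NSIdealU Pool.Agent.H25.StrongDist

theorem main {W K : Type u} [LinearOrder W] [WellFoundedLT W] [LinearOrder K] [WellFoundedLT K]
    (h : Good W) (hK : ℵ₀ ≤ #K) (hKW : #K < #W) (hW : ∀ a : W, #(Iio a) ≤ #K)
    (D : (f : Σ a : W, (Iio a ↪ K)) → Set (Iio f.1)) (hD : ∀ f, #(D f) < #K) :
    ∃ F : W → Σ a : W, (Iio a ↪ K), StrictMono (fun i => (F i).1) ∧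
      ∀ i j, ∀ x ∈ D (F i), ∀ y ∈ D (F j), (x : W) = y → (F i).2 x = (F j).2 y := by
  classical
  by_cases hc : ∃ (a : W) (g : W → K), ∀ e, ∃ f : Σ a : W, (Iio a ↪ K), e < f.1 ∧
      (∀ y : Iio f.1, (y : W) < a → f.2 y = g y) ∧ ∀ y ∈ D f, (y : W) < a ∨ e ≤ y
  · obtain ⟨a, g, hg⟩ := hc
    choose φ h1 h2 h3 using hg
    have h4 : ∀ (i : W) (r : Iio i → W), ∃ e, ∀ j, (φ (r j)).1 < e := by
      intro i r
      obtain ⟨e, he⟩ := bound h (range (fun j => (φ (r j)).1)) (lt_of_le_of_lt mk_range_le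
        (lt_of_le_of_lt (hW i) hKW))
      exact ⟨e, fun j => he _ ⟨j, rfl⟩⟩
    choose G hG using h4
    let e : W → W := (wellFounded_lt (α := W)).fix (fun i r => G i (fun j => r j j.2))
    have he : ∀ i, e i = G i (fun j => e j) := fun i => (wellFounded_lt (α := W)).fix_eq _ i
    have he2 : ∀ i j, j < i → (φ (e j)).1 < e i := by
      intro i j hji
      rw [he i]
      exact hG i (fun j => e j) ⟨j, hji⟩
    have h5 : ∀ i j, i < j → ∀ x ∈ D (φ (e i)), ∀ y ∈ D (φ (e j)), (x : W) = y →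
        (φ (e i)).2 x = (φ (e j)).2 y := by
      intro i j hij x _ y hy hxy
      rcases h3 _ y hy with h6 | h6
      · rw [h2 _ x (hxy ▸ h6), h2 _ y h6, hxy]
      · exact absurd (lt_trans x.2 (he2 j i hij)) (not_lt.2 (hxy ▸ h6))
    refine ⟨fun i => φ (e i), fun i j hij => (he2 j i hij).trans (h1 _), fun i j x hx y hy hxy => ?_⟩
    rcases lt_trichotomy i j with h6 | h6 | h6
    · exact h5 i j h6 x hx y hy hxy
    · subst h6
      rw [Subtype.ext hxy]
    · exact (h5 j i h6 y hy x hx hxy.symm).symm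
  · exfalso
    push Not at hc
    choose E hE using hc
    have hne : Nonempty K := mk_ne_zero_iff.1 (ne_of_gt (lt_of_lt_of_le aleph0_pos hK))
    obtain ⟨pr⟩ : Nonempty (K × K ↪ K) := by
      rw [← Cardinal.le_def, mk_prod, lift_id, mul_eq_self hK]
    have h1 : ∀ a : W, ∃ e : W → K, InjOn e (Iio a) := by
      intro a
      obtain ⟨e⟩ := (Cardinal.le_def _ _).1 (hW a)
      refine ⟨fun x => if hx : x < a then e ⟨x, hx⟩ else Classical.arbitrary K, ?_⟩
      intro x hx y hy hxy
      simp only [dif_pos (show x < a from hx), dif_pos (show y < a from hy)] at hxy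
      exact congrArg Subtype.val (e.injective hxy)
    choose e he using h1
    have h2 : ∀ (b : K → W) (S : Set K), ∃ a, (∀ j ∈ S, b j ≤ a) ∧ ∀ x, x < a → ∃ j ∈ S, x < b j := by
      intro b S
      obtain ⟨z, hz⟩ := bound h (range b) (lt_of_le_of_lt mk_range_le hKW)
      have h3 : ({a | ∀ j ∈ S, b j ≤ a} : Set W).Nonempty := ⟨z, fun j _ => (hz _ ⟨j, rfl⟩).le⟩
      refine ⟨_, (wellFounded_lt (α := W)).min_mem _ h3, fun x hx => ?_⟩
      by_contra h4
      push Not at h4
      exact (wellFounded_lt (α := W)).not_lt_min _ (show x ∈ {a | ∀ j ∈ S, b j ≤ a} from h4) hx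
    choose A hA1 hA2 using h2
    have h3 : ∀ (b : K → W) (x : W), ∃ j, (∃ i, x < b i) → x < b j ∧ ∀ i, x < b i → j ≤ i := by
      intro b x
      by_cases hx : ∃ i, x < b i
      · exact ⟨(wellFounded_lt (α := K)).min {i | x < b i} hx, fun _ =>
          ⟨(wellFounded_lt (α := K)).min_mem {i | x < b i} hx, fun i hi =>
            not_lt.1 ((wellFounded_lt (α := K)).not_lt_min {i | x < b i} hi)⟩⟩
      · exact ⟨Classical.arbitrary K, fun h => absurd h hx⟩
    choose ρ hρ using h3
    let gg : (K → W) → W → K := fun b x => pr (ρ b x, e (b (ρ b x)) x)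
    have hw : Nonempty W := mk_ne_zero_iff.1 (ne_of_gt (lt_trans aleph0_pos h.unc))
    let ext : ∀ i : K, (Iio i → W) → K → W := fun i r j =>
      if hj : j < i then r ⟨j, hj⟩ else Classical.arbitrary W
    let b : K → W := (wellFounded_lt (α := K)).fix (fun i r =>
      (exists_gt h (E (A (ext i (fun j => r j j.2)) (Iio i)) (gg (ext i (fun j => r j j.2))))).choose)
    have hb : ∀ i, E (A (ext i (fun j => b j)) (Iio i)) (gg (ext i (fun j => b j))) < b i := by
      intro i
      have h4 : b i = (exists_gt h (E (A (ext i (fun j => b j)) (Iio i))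
          (gg (ext i (fun j => b j))))).choose := (wellFounded_lt (α := K)).fix_eq _ i
      rw [h4]
      exact (exists_gt h _).choose_spec
    have hext : ∀ i j, j < i → ext i (fun j => b j) j = b j := by
      intro i j hj
      simp only [ext, dif_pos hj]
    have hinj : Function.Injective (fun y : Iio (A b Set.univ) => gg b y) := by
      intro x y hxy
      have h4 := pr.injective hxy
      obtain ⟨i, _, hi⟩ := hA2 b Set.univ x x.2
      obtain ⟨j, _, hj⟩ := hA2 b Set.univ y y.2
      have h5 : ρ b x = ρ b y := congrArg Prod.fst h4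
      have h6 : e (b (ρ b x)) x = e (b (ρ b y)) y := congrArg Prod.snd h4
      rw [← h5] at h6
      exact Subtype.ext (he _ (hρ b x ⟨i, hi⟩).1 (h5 ▸ (hρ b y ⟨j, hj⟩).1) h6)
    let f : Σ a : W, (Iio a ↪ K) := ⟨A b Set.univ, ⟨_, hinj⟩⟩
    have h4 : ∀ i : K, ∃ y ∈ D f, (∀ j, j < i → b j ≤ y) ∧ (y : W) < b i := by
      intro i
      obtain ⟨y, hy1, hy2, hy3⟩ := hE (A (ext i (fun j => b j)) (Iio i)) (gg (ext i (fun j => b j))) f
        (lt_of_lt_of_le (hb i) (hA1 b Set.univ i (mem_univ _))) (by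
          intro y hy
          obtain ⟨j, hj1, hj2⟩ := hA2 _ _ _ hy
          have g1 := hρ (ext i (fun j => b j)) y ⟨j, hj2⟩
          have g2 := hρ b y ⟨j, hext i j hj1 ▸ hj2⟩
          have g3 : ρ (ext i (fun j => b j)) y < i := lt_of_le_of_lt (g1.2 j hj2) hj1
          have g4 : ρ b y < i := lt_of_le_of_lt (g2.2 j (hext i j hj1 ▸ hj2)) hj1
          have g5 : ρ b y = ρ (ext i (fun j => b j)) y :=
            le_antisymm (g2.2 _ (hext i _ g3 ▸ g1.1)) (g1.2 _ ((hext i _ g4).symm ▸ g2.1))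
          change pr (ρ b y, e (b (ρ b y)) y) = pr (ρ (ext i (fun j => b j)) y,
            e (ext i (fun j => b j) (ρ (ext i (fun j => b j)) y)) y)
          rw [hext i _ g3, g5])
      refine ⟨y, hy1, fun j hj => le_trans ?_ hy2, hy3.trans (hb i)⟩
      rw [← hext i j hj]
      exact hA1 _ _ j hj
    choose y hy1 hy2 hy3 using h4
    have h5 : Function.Injective (fun i => (⟨y i, hy1 i⟩ : D f)) := by
      intro i j hij
      have h6 : (y i : W) = y j := congrArg (fun z : D f => (z.1 : W)) hij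
      rcases lt_trichotomy i j with h7 | h7 | h7
      · exact absurd (lt_of_lt_of_le (hy3 i) (hy2 j i h7)) (by rw [h6]; exact lt_irrefl _)
      · exact h7
      · exact absurd (lt_of_lt_of_le (hy3 j) (hy2 i j h7)) (by rw [h6]; exact lt_irrefl _)
    exact absurd (mk_le_of_injective h5) (not_le.2 (hD f))

end Pool.Agent.H25.DeltaK
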