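import Mathlib
import Pool.Agent.H25.WeakDiamond

set_option autoImplicit false

open Cardinal Set

universe u

namespace Pool.Agent.H25.DeltaReg

variable {W : Type u} [LinearOrder W] [WellFoundedLT W]

theorem exists_seg (hu : ℵ₀ < #W) : ∃ (e : ℕ → W) (w : W), StrictMono e ∧
    (∀ n d, d ≤ e n → ∃ k, k ≤ n ∧ e k = d) ∧ (∀ n, e n < w) ∧ ∀ d, d < w → ∃ k, e k = d := by
  have h0 : ¬ Countable W := fun h => absurd hu (not_lt.2 mk_le_aleph0)
  rcases InitialSeg.total (fun a b : ℕ => a < b) (fun a b : W => a < b) with e | e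
  · have h1 : StrictMono e := fun a b hab => e.map_rel_iff.2 hab
    have h2 : ∀ n d, d ≤ e n → ∃ k, k ≤ n ∧ e k = d := by
      intro n d hd
      obtain ⟨k, hk⟩ := InitialSeg.mem_range_of_le e hd
      exact ⟨k, h1.le_iff_le.1 (hk ▸ hd), hk⟩
    have h3 : ((range e)ᶜ).Nonempty := by
      by_contra h4
      rw [not_nonempty_iff_eq_empty, compl_empty_iff, range_eq_univ] at h4
      exact h0 h4.countable
    refine ⟨e, wellFounded_lt.min _ h3, h1, h2, fun n => ?_, fun d hd => ?_⟩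
    · by_contra h4
      obtain ⟨k, -, hk⟩ := h2 n _ (not_lt.1 h4)
      exact wellFounded_lt.min_mem _ h3 ⟨k, hk⟩
    · by_contra h4
      exact wellFounded_lt.not_lt_min _ (show d ∈ (range e)ᶜ from h4) hd
  · exact absurd e.injective.countable h0

theorem four (hu : ℵ₀ < #W) (c : Sym2 (W → Bool) → W)
    (hc : ∀ x y d, IsLeast {i | x i ≠ y i} d → (∃ b, b < d) → c s(x, y) < d) :
    ∃ Y : Set (W → Bool), #Y = 4 ∧ ∃ i, ∀ x ∈ Y, ∀ y ∈ Y, x ≠ y → c s(x, y) = i := by
  classical
  obtain ⟨e, w, he1, he2, he3, he4⟩ := exists_seg hu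
  by_contra hno
  let P : ℕ → (W → Bool) → Prop := fun n s => ∀ x y : W → Bool, (∀ k, k ≤ n → x (e k) = s (e k)) →
    (∀ k, k ≤ n → y (e k) = s (e k)) → x ≠ y → ∀ m, m < n → c s(x, y) ≠ e m
  have hstep : ∀ n s, ∃ s' : W → Bool, P n s → (∀ k, k ≤ n → s' (e k) = s (e k)) ∧ P (n + 1) s' := by
    intro n s
    by_contra h1
    push Not at h1
    have h2 := (h1 s).1
    have h3 : ∀ b : Bool, ∃ x y : W → Bool, (∀ k, k ≤ n → x (e k) = s (e k)) ∧
        (∀ k, k ≤ n → y (e k) = s (e k)) ∧ x (e (n + 1)) = b ∧ y (e (n + 1)) = b ∧ x ≠ y ∧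
        c s(x, y) = e n := by
      intro b
      have h4 : ∀ k, k ≤ n → Function.update s (e (n + 1)) b (e k) = s (e k) := fun k hk =>
        Function.update_of_ne (he1 (Nat.lt_succ_of_le hk)).ne _ _
      have h5 := (h1 (Function.update s (e (n + 1)) b)).2 h4
      simp only [P, not_forall, not_not] at h5
      obtain ⟨x, y, g1, g2, g3, m, g4, g5⟩ := h5
      have g6 : ∀ k, k ≤ n → x (e k) = s (e k) := fun k hk => (g1 k (by omega)).trans (h4 k hk)
      have g7 : ∀ k, k ≤ n → y (e k) = s (e k) := fun k hk => (g2 k (by omega)).trans (h4 k hk)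
      refine ⟨x, y, g6, g7, by simpa using g1 _ le_rfl, by simpa using g2 _ le_rfl, g3, ?_⟩
      have g8 : m = n := by
        by_contra g9
        exact h2 x y g6 g7 g3 m (by omega) g5
      rw [g5, g8]
    have h4 : ∀ x y : W → Bool, (∀ k, k ≤ n → x (e k) = s (e k)) →
        (∀ k, k ≤ n → y (e k) = s (e k)) → x (e (n + 1)) = false → y (e (n + 1)) = true →
        x ≠ y ∧ c s(x, y) = e n := by
      intro x y g1 g2 g3 g4
      have g5 : x (e (n + 1)) ≠ y (e (n + 1)) := by simp [g3, g4]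
      have g6 : x ≠ y := fun h => g5 (h ▸ rfl)
      have g7 := hc x y (e (n + 1)) ⟨g5, fun z hz => not_lt.1 (fun g8 => by
        obtain ⟨k, hk1, rfl⟩ := he2 _ _ g8.le
        have g9 : k ≤ n := Nat.lt_succ_iff.1 (he1.lt_iff_lt.1 g8)
        exact hz ((g1 k g9).trans (g2 k g9).symm))⟩ ⟨e n, he1 (Nat.lt_succ_self n)⟩
      obtain ⟨k, -, hk⟩ := he2 _ _ g7.le
      have g9 : k < n + 1 := he1.lt_iff_lt.1 (hk ▸ g7)
      have g8 : k = n := by
        by_contra g10
        exact h2 x y g1 g2 g6 k (by omega) hk.symm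
      exact ⟨g6, by rw [← hk, g8]⟩
    obtain ⟨x, x', a1, a2, a3, a4, a5, a6⟩ := h3 false
    obtain ⟨y, y', b1, b2, b3, b4, b5, b6⟩ := h3 true
    have c1 := h4 x y a1 b1 a3 b3
    have c2 := h4 x y' a1 b2 a3 b4
    have c3 := h4 x' y a2 b1 a4 b3
    have c4 := h4 x' y' a2 b2 a4 b4
    refine hno ⟨{x, x', y, y'}, ?_, e n, ?_⟩
    · rw [mk_insert (by simp [a5, c1.1, c2.1]), mk_insert (by simp [c3.1, c4.1]),
        mk_insert (by simp [b5]), mk_singleton]
      norm_num
    · intro p hp q hq hpq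
      simp only [mem_insert_iff, mem_singleton_iff] at hp hq
      rcases hp with rfl | rfl | rfl | rfl <;> rcases hq with rfl | rfl | rfl | rfl <;>
        first
        | exact absurd rfl hpq
        | exact a6
        | exact b6
        | exact c1.2
        | exact c2.2
        | exact c3.2
        | exact c4.2
        | exact Sym2.eq_swap ▸ a6
        | exact Sym2.eq_swap ▸ b6
        | exact Sym2.eq_swap ▸ c1.2
        | exact Sym2.eq_swap ▸ c2.2
        | exact Sym2.eq_swap ▸ c3.2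
        | exact Sym2.eq_swap ▸ c4.2
  choose nx hnx using hstep
  let S : ℕ → W → Bool := fun n => Nat.rec (fun _ => false) (fun n s => nx n s) n
  have hS : ∀ n, P n (S n) := by
    intro n
    induction n with
    | zero => intro x y _ _ _ m hm; omega
    | succ n ih => exact (hnx n _ ih).2
  have hS2 : ∀ k n, k ≤ n → S n (e k) = S k (e k) := by
    intro k n hkn
    induction hkn with
    | refl => rfl
    | step h ih => exact ((hnx _ _ (hS _)).1 k h).trans ih
  let b : W → Bool := Function.extend e (fun k => S k (e k)) (fun _ => false)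
  have hb : ∀ k, b (e k) = S k (e k) := fun k => he1.injective.extend_apply _ _ _
  have h1 : ∀ z, z ≠ w → Function.update b w (!b w) z = b z := fun z hz =>
    Function.update_of_ne hz _ _
  have h2 : b w ≠ Function.update b w (!b w) w := by simp
  have h3 := hc b (Function.update b w (!b w)) w ⟨h2, fun z hz => not_lt.1 (fun h4 =>
    hz (h1 z h4.ne).symm)⟩ ⟨e 0, he3 0⟩
  obtain ⟨m, hm⟩ := he4 _ h3
  exact hS (m + 1) b _ (fun k hk => (hb k).trans (hS2 k _ hk).symm)
    (fun k hk => ((h1 _ (he3 k).ne).trans (hb k)).trans (hS2 k _ hk).symm)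
    (fun h => h2 (congrFun h w)) m (Nat.lt_succ_self m) hm.symm

theorem neg (hu : ℵ₀ < #W) (hle : (2 : Cardinal.{u}) ^ #W ≤ 2 ^ ℵ₀) :
    ∃ c : Sym2 (W → Bool) → W,
      (∀ x y d, IsLeast {i | x i ≠ y i} d → (∃ b, b < d) → c s(x, y) < d) ∧
      ∀ Y : Set (W → Bool), (∃ i, ∀ x ∈ Y, ∀ y ∈ Y, x ≠ y → c s(x, y) = i) → #Y ≤ 4 := by
  classical
  obtain ⟨e, w, he1, he2, he3, he4⟩ := exists_seg hu
  obtain ⟨h⟩ : Nonempty ((W → Bool) ↪ (ULift.{u} ℕ → Bool)) := by
    rw [← Cardinal.le_def, WeakDiamond.mk_fb, WeakDiamond.mk_fb]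
    simpa using hle
  let D : (ℕ → Bool) → (ℕ → Bool) → ℕ := fun p q => sInf {n | p n ≠ q n}
  have hD : ∀ p q, D p q = D q p := by
    intro p q
    simp only [D, ne_comm]
  have hD2 : ∀ (p q : ℕ → Bool) n, p n ≠ q n → D p q ≤ n := fun p q n hn =>
    Nat.sInf_le (s := {n | p n ≠ q n}) hn
  have hD1 : ∀ p q : ℕ → Bool, p ≠ q → p (D p q) ≠ q (D p q) := fun p q hpq =>
    Nat.sInf_mem (s := {n | p n ≠ q n}) (Function.ne_iff.1 hpq)
  let f : (W → Bool) → (W → Bool) → W := fun x y =>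
    if x ∘ e = y ∘ e then e (D (fun n => h x ⟨n⟩) (fun n => h y ⟨n⟩))
    else Nat.casesOn (D (x ∘ e) (y ∘ e)) w e
  have hf : ∀ x y, f x y = f y x := by
    intro x y
    simp only [f, hD (x ∘ e), hD (fun n => h x ⟨n⟩), eq_comm (a := x ∘ e)]
  refine ⟨Sym2.lift ⟨f, hf⟩, ?_, ?_⟩
  · intro x y d hd hb
    rw [Sym2.lift_mk]
    by_cases h1 : x ∘ e = y ∘ e
    · simp only [f, if_pos h1]
      by_contra h2
      obtain ⟨k, -, rfl⟩ := he2 _ _ (not_lt.1 h2)
      exact hd.1 (congrFun h1 k)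
    · simp only [f, if_neg h1]
      have h2 := hd.2 (hD1 _ _ h1)
      obtain ⟨k, hk, rfl⟩ := he2 _ _ h2
      have h3 := le_antisymm (hD2 (x ∘ e) (y ∘ e) k hd.1) hk
      rw [h3]
      cases k with
      | zero =>
        obtain ⟨b, hb⟩ := hb
        obtain ⟨k, hk, rfl⟩ := he2 _ _ hb.le
        exact absurd (he1.lt_iff_lt.1 hb) (by omega)
      | succ k => exact he1 (Nat.lt_succ_self k)
  · rintro Y ⟨i, hi⟩
    have h1 : ∃ g : (W → Bool) → Bool × Bool, InjOn g Y := by
      by_cases h2 : ∃ m, e m = i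
      · obtain ⟨m, rfl⟩ := h2
        refine ⟨fun x => (x (e (m + 1)), h x ⟨m⟩), fun x hx y hy hxy => ?_⟩
        by_contra h3
        have h4 := hi x hx y hy h3
        rw [Sym2.lift_mk] at h4
        by_cases h1 : x ∘ e = y ∘ e
        · simp only [f, if_pos h1] at h4
          have h5 := hD1 (fun n => h x ⟨n⟩) (fun n => h y ⟨n⟩)
            (fun h6 => h3 (h.injective (funext (fun n => congrFun h6 n.down))))
          rw [he1.injective h4] at h5
          exact h5 (congrArg Prod.snd hxy)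
        · simp only [f, if_neg h1] at h4
          have h5 := hD1 _ _ h1
          generalize D (x ∘ e) (y ∘ e) = n at h4 h5
          cases n with
          | zero => exact (he3 m).ne' h4
          | succ n =>
            rw [he1.injective h4] at h5
            exact h5 (congrArg Prod.fst hxy)
      · refine ⟨fun x => (x (e 0), false), fun x hx y hy hxy => ?_⟩
        by_contra h3
        have h4 := hi x hx y hy h3
        rw [Sym2.lift_mk] at h4
        by_cases h1 : x ∘ e = y ∘ e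
        · simp only [f, if_pos h1] at h4
          exact h2 ⟨_, h4⟩
        · simp only [f, if_neg h1] at h4
          have h5 := hD1 _ _ h1
          generalize D (x ∘ e) (y ∘ e) = n at h4 h5
          cases n with
          | zero => exact h5 (congrArg Prod.fst hxy)
          | succ n => exact h2 ⟨_, h4⟩
    obtain ⟨g, hg⟩ := h1
    have h2 := mk_le_of_injective (f := fun x : Y => (ULift.up (g x) : ULift.{u} (Bool × Bool)))
      (fun x y hxy => Subtype.ext (hg x.2 y.2 (congrArg ULift.down hxy)))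
    refine h2.trans (le_of_eq ?_)
    simp

theorem pos (k : Cardinal.{u}) (hu : ℵ₀ < k) (hlt : (2 : Cardinal.{u}) ^ ℵ₀ < 2 ^ k)
    (c : Sym2 (k.ord.ToType → Bool) → k.ord.ToType)
    (hc : ∀ x y d, IsLeast {i | x i ≠ y i} d → (∃ b, b < d) → c s(x, y) < d) :
    ∃ Y : Set (k.ord.ToType → Bool), ℵ₀ < #Y ∧ ∃ i, ∀ x ∈ Y, ∀ y ∈ Y, x ≠ y → c s(x, y) = i := by
  classical
  obtain ⟨e, w, he1, he2, he3, he4⟩ := exists_seg (W := k.ord.ToType) (by simpa using hu)
  have h1 : #(Iio w) ≤ ℵ₀ := le_aleph0_iff_set_countable.2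
    ((countable_range e).mono (fun d hd => he4 d hd))
  obtain ⟨Y, i, hY1, hY2⟩ := WeakDiamond.transfer k
    (fun s => if ∃ x ∈ s, ∃ y ∈ s, x (e 0) ≠ y (e 0) then e 0 else c s) w (fun x y d hd => by
      split_ifs with h2
      · exact lt_max_of_lt_right (he3 0)
      · refine lt_max_of_lt_left (hc x y d hd ⟨e 0, ?_⟩)
        by_contra h3
        obtain ⟨k, hk, rfl⟩ := he2 0 d (not_lt.1 h3)
        rw [Nat.le_zero.1 hk] at hd
        exact h2 ⟨x, by simp, y, by simp, hd.1⟩) (by rwa [max_eq_right h1])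
  rw [max_eq_right h1] at hY1
  have h2 : ∃ b : Bool, ℵ₀ < #{x | x ∈ Y ∧ x (e 0) = b} := by
    by_contra h3
    push Not at h3
    refine absurd hY1 (not_lt.2 (le_aleph0_iff_set_countable.2 ?_))
    refine ((le_aleph0_iff_set_countable.1 (h3 true)).union
      (le_aleph0_iff_set_countable.1 (h3 false))).mono (fun x hx => ?_)
    cases h4 : x (e 0) <;> simp [hx, h4]
  obtain ⟨b, hb⟩ := h2
  refine ⟨_, hb, i, fun x hx y hy hxy => ?_⟩
  have h3 := hY2 x hx.1 y hy.1 hxy
  rw [if_neg] at h3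
  · exact h3
  · rintro ⟨p, hp, q, hq, hpq⟩
    rw [Sym2.mem_iff] at hp hq
    rcases hp with rfl | rfl <;> rcases hq with rfl | rfl <;> simp [hx.2, hy.2] at hpq

end Pool.Agent.H25.DeltaReg
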