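import Mathlib

set_option autoImplicit false
open Set Filter Topology MeasureTheory

namespace Pool.Agent.H25.Dual

theorem sep {K : Type} [CommGroup K] [TopologicalSpace K] [IsTopologicalGroup K] [CompactSpace K]
    [T2Space K] (Γ : Subgroup (PontryaginDual K)) (hΓ : ∀ x ≠ 1, ∃ γ ∈ Γ, γ x ≠ 1)
    (S : Subgroup K) (hS : IsClosed (S : Set K)) {y : K} (hy : y ∉ S) :
    ∃ γ ∈ Γ, (∀ x ∈ S, γ x = 1) ∧ γ y ≠ 1 := by
  by_contra hn
  push Not at hn
  let c : Γ → C(K, ℂ) := fun γ => ⟨fun x => γ.1 x, continuous_subtype_val.comp γ.1.continuous⟩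
  let A : StarSubalgebra ℂ C(K, ℂ) :=
    { toSubalgebra := Algebra.adjoin ℂ (range c)
      star_mem' := by
        change Algebra.adjoin ℂ (range c) ≤ star (Algebra.adjoin ℂ (range c))
        refine Algebra.adjoin_le ?_
        rintro - ⟨γ, rfl⟩
        exact Algebra.subset_adjoin ⟨γ⁻¹, ContinuousMap.ext fun x => Circle.coe_inv_eq_conj _⟩ }
  have h1 : Subalgebra.toSubmodule A.toSubalgebra = Submodule.span ℂ (range c) := by
    apply Algebra.adjoin_eq_span_of_subset
    refine Subset.trans (fun x hx => ?_) Submodule.subset_span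
    refine Submonoid.closure_induction (fun _ => id) ⟨1, rfl⟩ ?_ hx
    rintro - - - - ⟨m, rfl⟩ ⟨n, rfl⟩
    exact ⟨m * n, rfl⟩
  have h2 : A.topologicalClosure = ⊤ :=
    ContinuousMap.starSubalgebra_topologicalClosure_eq_top_of_separatesPoints A fun a b hab => by
      obtain ⟨γ, g1, g2⟩ := hΓ (a / b) (div_ne_one.2 hab)
      refine ⟨_, ⟨c ⟨γ, g1⟩, Algebra.subset_adjoin ⟨_, rfl⟩, rfl⟩, fun e => g2 ?_⟩
      rw [map_div, div_eq_one]
      exact Circle.ext e
  obtain ⟨f, f0, f1, -⟩ := exists_continuous_zero_one_of_isClosed hS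
    (hS.preimage (f := fun x => x / y) (by fun_prop)) (disjoint_left.2 fun x h1 h2 =>
      hy (by simpa using S.div_mem h1 h2))
  let F : C(K, ℂ) := ⟨fun x => f x, by fun_prop⟩
  obtain ⟨P, P1, P2⟩ := Metric.mem_closure_iff.1 (show F ∈ closure (A : Set C(K, ℂ)) from
    h2.ge trivial) (1 / 3) (by norm_num)
  have P3 : P ∈ Submodule.span ℂ (range c) := h1 ▸ P1
  have : CompactSpace S := isCompact_iff_compactSpace.1 hS.isCompact
  borelize ↥S
  let μ : Measure S := Measure.haarMeasure ⊤
  have : IsProbabilityMeasure μ := ⟨by simpa using Measure.haarMeasure_self (G := S) (K₀ := ⊤)⟩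
  have hi : ∀ (g : C(K, ℂ)) (z : K), Integrable (fun x : S => g (z * x)) μ := fun g z =>
    Continuous.integrable_of_hasCompactSupport (by fun_prop) (.of_compactSpace _)
  have h3 : ∫ x : S, P (y * x) ∂μ = ∫ x : S, P (1 * x) ∂μ := by
    clear P2 P1
    induction P3 using Submodule.span_induction with
    | mem _ hm =>
      obtain ⟨γ, rfl⟩ := hm
      have e : ∀ a b, c γ (a * b) = c γ a * c γ b := fun a b => by simp [c]
      by_cases h : ∀ x ∈ S, γ.1 x = 1
      · simp [c, hn γ.1 γ.2 h]
      · push Not at h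
        obtain ⟨x, x1, x2⟩ := h
        have h4 := integral_mul_left_eq_self (μ := μ) (fun z : S => c γ z) ⟨x, x1⟩
        simp only [Subgroup.coe_mul, e, integral_const_mul] at h4 ⊢
        have h5 : ∫ z : S, c γ z ∂μ = 0 := by
          by_contra h6
          exact x2 (Circle.ext ((mul_eq_right₀ h6).1 h4))
        rw [h5, mul_zero, mul_zero]
    | zero => simp
    | add a b _ _ ha hb =>
      simp only [ContinuousMap.add_apply]
      rw [integral_add (hi a y) (hi b y), integral_add (hi a 1) (hi b 1), ha, hb]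
    | smul a b _ hb =>
      simp only [ContinuousMap.smul_apply, integral_smul]
      rw [hb]
  have h4 : ∀ z, ‖∫ x : S, F (z * x) ∂μ - ∫ x : S, P (z * x) ∂μ‖ ≤ 1 / 3 := fun z => by
    rw [← integral_sub (hi F z) (hi P z)]
    simpa using norm_integral_le_of_norm_le_const (μ := μ) (C := 1 / 3)
      (Eventually.of_forall fun x : S => (dist_eq_norm (F (z * x)) (P (z * x))).ge.trans
        ((ContinuousMap.dist_apply_le_dist _).trans P2.le))
  have h5 := h4 y
  have h6 := h4 1
  have e1 : ∀ x : S, F (y * x) = 1 := fun x => by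
    show ((f (y * x) : ℝ) : ℂ) = 1
    rw [f1 (show y * x / y ∈ S by simp)]
    simp
  have e0 : ∀ x : S, F (1 * x) = 0 := fun x => by
    show ((f (1 * x) : ℝ) : ℂ) = 0
    rw [f0 (show 1 * x.1 ∈ S by simp)]
    simp
  simp only [e1, e0, h3, integral_const, probReal_univ, one_smul] at h5 h6
  have h7 := norm_sub_le (1 - ∫ x : S, P (1 * x) ∂μ) (0 - ∫ x : S, P (1 * x) ∂μ)
  rw [sub_sub_sub_cancel_right, sub_zero, norm_one] at h7
  linarith

theorem ch {A : Type} [CommGroup A] (L : Subgroup A) {g : A} (hg : g ∉ L) :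
    ∃ φ : A →* Circle, (∀ x ∈ L, φ x = 1) ∧ φ g ≠ 1 := by
  obtain ⟨c, hc⟩ := CharacterModule.exists_character_apply_ne_zero_of_ne_zero
    (A := Additive (A ⧸ L)) (a := Additive.ofMul (g : A ⧸ L))
    fun h => hg ((QuotientGroup.eq_one_iff g).1 h)
  let j : AddCircle (1 : ℚ) →+ Additive Circle := QuotientAddGroup.lift _
    (AddMonoidHom.mk' (fun q : ℚ => Additive.ofMul (Circle.exp (2 * Real.pi * q))) fun a b => by
      rw [Rat.cast_add, mul_add, Circle.exp_add]; rfl) (by
        rintro _ ⟨n, rfl⟩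
        show Circle.exp (2 * Real.pi * ((n • (1 : ℚ) : ℚ) : ℝ)) = 1
        simpa using Circle.exp_two_pi_mul_int n)
  have hj : ∀ z, j z = 0 → z = 0 := fun z hz => by
    obtain ⟨q, rfl⟩ := QuotientAddGroup.mk_surjective z
    obtain ⟨n, hn⟩ := Circle.exp_eq_one.1 (show Circle.exp (2 * Real.pi * q) = 1 from hz)
    rw [mul_comm] at hn
    have : q = n := by exact_mod_cast mul_right_cancel₀ Real.two_pi_pos.ne' hn
    exact (AddCircle.coe_eq_zero_iff _).2 ⟨n, by simp [this]⟩
  refine ⟨MonoidHom.mk' (fun x => (j (c (Additive.ofMul (x : A ⧸ L)))).toMul) fun a b => by simp,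
    fun x hx => ?_, fun h => hc (hj _ h)⟩
  show (j (c (Additive.ofMul (x : A ⧸ L)))).toMul = 1
  rw [(QuotientGroup.eq_one_iff x).2 hx]
  simp

/-- evaluation characters of a torus -/
noncomputable def ev {ι : Type} (i : ι) : PontryaginDual (ι → Circle) :=
  ⟨Pi.evalMonoidHom _ i, continuous_apply i⟩

theorem sep' {ι : Type} (S : Subgroup (ι → Circle)) {y : ι → Circle}
    (hy : y ∉ closure (S : Set (ι → Circle))) :
    ∃ γ ∈ Subgroup.closure (range (ev (ι := ι))), (∀ x ∈ S, γ x = 1) ∧ γ y ≠ 1 := by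
  obtain ⟨γ, a, b, c⟩ := sep (Subgroup.closure (range (ev (ι := ι)))) (fun x hx => by
    obtain ⟨i, hi⟩ := Function.ne_iff.1 hx
    exact ⟨ev i, Subgroup.subset_closure ⟨i, rfl⟩, hi⟩) S.topologicalClosure
    S.isClosed_topologicalClosure hy
  exact ⟨γ, a, fun x hx => b x (S.le_topologicalClosure hx), c⟩

theorem cr {A ι : Type} [CommGroup A] [TopologicalSpace A] (p : ι → A →* Circle)
    (hp : IsInducing fun a i => p i a) (χ : A →* Circle) (hχ : Continuous χ) :
    χ ∈ Subgroup.closure (range p) := by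
  classical
  by_contra hn
  obtain ⟨φ, h1, h2⟩ := ch _ hn
  let Φ : A →* Option ι → Circle := MonoidHom.pi fun o => o.elim χ p
  let y : Option ι → Circle := fun o => o.elim (φ χ) fun _ => 1
  have hy : y ∉ closure (Φ.range : Set (Option ι → Circle)) := fun h => by
    have : (comap Φ (𝓝 y)).NeBot := by
      rw [MonoidHom.coe_range, mem_closure_iff_nhds] at h
      refine comap_neBot fun t ht => ?_
      obtain ⟨_, a, x, rfl⟩ := h t ht
      exact ⟨x, a⟩
    have h3 : Tendsto id (comap Φ (𝓝 y)) (𝓝 1) := hp.tendsto_nhds_iff.2 (tendsto_pi_nhds.2 fun i => by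
      rw [map_one]
      exact ((continuous_apply (some i)).tendsto y).comp tendsto_comap)
    have h4 := (hχ.tendsto 1).comp h3
    rw [map_one] at h4
    exact h2 (tendsto_nhds_unique (((continuous_apply none).tendsto y).comp tendsto_comap) h4)
  obtain ⟨γ, a, b, c⟩ := sep' _ hy
  have h4 : φ (γ.toMonoidHom.comp Φ) = γ y := by
    clear b c
    induction a using Subgroup.closure_induction with
    | mem _ h =>
      obtain ⟨_ | i, rfl⟩ := h
      · rfl
      · exact h1 _ (Subgroup.subset_closure ⟨i, rfl⟩)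
    | one => exact map_one φ
    | mul a b _ _ ha hb => exact (map_mul φ _ _).trans (congrArg₂ _ ha hb)
    | inv a _ ha => exact (map_inv φ _).trans (congrArg _ ha)
  rw [show γ.toMonoidHom.comp Φ = 1 from MonoidHom.ext fun x => b _ ⟨x, rfl⟩, map_one] at h4
  exact c h4.symm

theorem ptw {A : Type} [CommGroup A] [TopologicalSpace A]
    (h : ∀ K : Set A, IsCompact K → K.Finite) :
    IsInducing fun (χ : PontryaginDual A) (a : A) => χ a := by
  refine IsInducing.comp (f := fun χ : PontryaginDual A => (χ : C(A, Circle)))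
    (g := fun (f : C(A, Circle)) a => f a) ?_ (ContinuousMonoidHom.isInducing_toContinuousMap A Circle)
  refine isInducing_iff_nhds.2 fun f => le_antisymm
    (tendsto_iff_comap.1 ((continuous_pi fun a => continuous_eval_const a).tendsto f)) ?_
  refine tendsto_id'.1 (ContinuousMap.tendsto_nhds_compactOpen.2 fun K hK U hU hKU => ?_)
  exact (eventually_all_finite (h K hK)).2 fun a ha =>
    (((continuous_apply (A := fun _ : A => Circle) a).tendsto fun a => f a).comp (tendsto_comap
      (f := fun (g : C(A, Circle)) (a : A) => g a))).eventually (hU.mem_nhds (hKU ha))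

theorem refl {A ι : Type} [CommGroup A] [TopologicalSpace A] [IsTopologicalGroup A]
    (p : ι → PontryaginDual A) (hp : IsEmbedding fun a i => p i a)
    (h1 : ∀ K : Set A, IsCompact K → K.Finite)
    (h2 : ∀ K : Set (PontryaginDual A), IsCompact K → K.Finite) :
    ∃ e : A ≃ₜ* PontryaginDual (PontryaginDual A), ∀ g χ, e g χ = χ g := by
  have hc : ∀ g : A, Continuous fun χ : PontryaginDual A => χ g := fun g =>
    (continuous_apply g).comp (ptw h1).continuous
  let β : A →* PontryaginDual A →* Circle := MonoidHom.mk'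
    (fun g => MonoidHom.mk' (fun χ => χ g) fun _ _ => rfl) fun a b => MonoidHom.ext fun χ =>
      map_mul χ a b
  let α : A →* PontryaginDual (PontryaginDual A) := MonoidHom.mk' (fun g => ⟨β g, hc g⟩)
    fun a b => PontryaginDual.ext fun χ => map_mul χ a b
  have h3 : Continuous α := (ptw h2).continuous_iff.2 (continuous_pi fun χ => χ.continuous)
  have h4 : IsEmbedding α := IsEmbedding.of_comp h3
    (g := fun (ξ : PontryaginDual (PontryaginDual A)) (i : ι) => ξ (p i))
    (continuous_pi fun i => (continuous_apply (p i)).comp (ptw h2).continuous) hp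
  have h5 : Function.Surjective α := fun ξ => by
    obtain ⟨g, hg⟩ := (Subgroup.closure_le β.range).2 Subset.rfl
      (cr β (ptw h1) ξ.toMonoidHom ξ.continuous)
    exact ⟨g, PontryaginDual.ext fun χ => DFunLike.congr_fun hg χ⟩
  let e := MulEquiv.ofBijective α ⟨h4.injective, h5⟩
  exact ⟨⟨e, h3, h4.continuous_iff.2 (continuous_id.congr fun x => (e.apply_symm_apply x).symm)⟩,
    fun _ _ => rfl⟩

end Pool.Agent.H25.Dual
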