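import Mathlib

set_option autoImplicit false
open Set Filter Topology
open Cardinal (continuum)

namespace Pool.Agent.H25.Lac

def Lc (r : ℕ → ℝ) : Prop := ∀ k, r k ≠ 0 ∧ 10 * |r k| ≤ |r (k + 1)|

def S (r : ℕ → ℝ) : Set ℝ := {s | ∀ k, ∃ n : ℤ, 1 / 4 ≤ s * r k - n ∧ s * r k - n ≤ 3 / 4}

theorem lac {r : ℕ → ℝ} (h : Lc r) : continuum ≤ Cardinal.mk (S r) := by
  have key : ∀ ε : ℕ → Bool, ∃ s : ℝ, ∀ k, ∃ n : ℤ,
      |s * r k - (if ε k then 1 / 3 else 2 / 3) - n| ≤ 1 / 18 := by
    intro ε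
    have h1 : ∀ (k : ℕ) (x : ℝ), ∃ y : ℝ, |y - x| * |r k| ≤ 1 / 2 ∧
        ∃ n : ℤ, y * r k - (if ε k then 1 / 3 else 2 / 3) = n := fun k x => by
      let c : ℝ := if ε k then 1 / 3 else 2 / 3
      have := (h k).1
      refine ⟨(round (x * r k - c) + c) / r k, ?_, round (x * r k - c), by
        rw [div_mul_cancel₀ _ this]; exact add_sub_cancel_right _ _⟩
      rw [← abs_mul, sub_mul, div_mul_cancel₀ _ this, abs_sub_comm]
      exact le_trans (le_of_eq (by congr 1; ring)) (abs_sub_round (x * r k - c))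
    choose y y1 y2 using h1
    let s : ℕ → ℝ := fun k => Nat.rec (y 0 0) (fun k x => y (k + 1) x) k
    have h2 : ∀ k, ∃ n : ℤ, s k * r k - (if ε k then 1 / 3 else 2 / 3) = n := fun k => by
      cases k <;> exact y2 _ _
    obtain ⟨x, hx⟩ := IsCompact.nonempty_iInter_of_sequence_nonempty_isCompact_isClosed
      (fun k => Metric.closedBall (s k) (1 / 18 / |r k|)) (fun k => Metric.closedBall_subset_closedBall' (by
        have a := abs_pos.2 (h k).1
        have b := abs_pos.2 (h (k + 1)).1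
        have c := (le_div_iff₀ b).2 (y1 (k + 1) (s k))
        have d : 1 / 18 / |r (k + 1)| + 1 / 2 / |r (k + 1)| ≤ 1 / 18 / |r k| := by
          rw [← add_div, div_le_div_iff₀ b a]
          linarith [(h k).2]
        exact le_trans (add_le_add_right c _) d))
      (fun k => Metric.nonempty_closedBall.2 (by positivity)) (isCompact_closedBall _ _)
      fun k => Metric.isClosed_closedBall
    refine ⟨x, fun k => ?_⟩
    obtain ⟨n, hn⟩ := h2 k
    refine ⟨n, ?_⟩
    rw [← hn, sub_sub_sub_cancel_right, ← sub_mul, abs_mul]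
    exact (le_div_iff₀ (abs_pos.2 (h k).1)).1 (mem_iInter.1 hx k)
  choose s hs using key
  have h1 : ∀ ε, s ε ∈ S r := fun ε k => by
    obtain ⟨n, hn⟩ := hs ε k
    rw [abs_le] at hn
    refine ⟨n, ?_⟩
    split_ifs at hn <;> constructor <;> linarith [hn.1, hn.2]
  have h2 : Function.Injective fun ε => (⟨s ε, h1 ε⟩ : S r) := fun ε δ e => funext fun k => by
    obtain ⟨n, hn⟩ := hs ε k
    obtain ⟨m, hm⟩ := hs δ k
    rw [show s ε = s δ from congrArg Subtype.val e] at hn
    rw [abs_le] at hn hm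
    have a : ∀ p q : ℤ, (0 : ℝ) < p - q → (p - q : ℝ) < 1 → False := fun p q a b => by
      have : 0 < p - q ∧ p - q < 1 := ⟨by exact_mod_cast a, by exact_mod_cast b⟩
      omega
    cases h1 : ε k <;> cases h2 : δ k <;> simp only [h1, h2, if_true, Bool.false_eq_true,
      if_false] at hn hm ⊢
    · exact a m n (by linarith [hn.1, hn.2, hm.1, hm.2]) (by linarith [hn.1, hn.2, hm.1, hm.2])
    · exact (a n m (by linarith [hn.1, hn.2, hm.1, hm.2])
        (by linarith [hn.1, hn.2, hm.1, hm.2])).elim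
  simpa using Cardinal.mk_le_of_injective h2

variable {Λ : Type}

noncomputable abbrev L (θ : Λ → ℝ) : (Λ →₀ ℤ) →ₗ[ℤ] ℝ := Finsupp.linearCombination ℤ θ

def Ind (C : Set Λ) (θ : Λ → ℝ) : Prop := ∀ y : Λ →₀ ℤ, ↑y.support ⊆ C → L θ y = 0 → y = 0

theorem cnt {C : Set Λ} (hC : C.Countable) : {y : Λ →₀ ℤ | ↑y.support ⊆ C}.Countable := by
  have := hC.to_subtype
  refine countable_of_injective_of_countable_image (f := Finsupp.subtypeDomain (· ∈ C))
    (fun a ha b hb e => Finsupp.ext fun i => ?_) (to_countable _)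
  by_cases hi : i ∈ C
  · exact DFunLike.congr_fun e ⟨i, hi⟩
  · rw [Finsupp.notMem_support_iff.1 fun h => hi (ha h),
      Finsupp.notMem_support_iff.1 fun h => hi (hb h)]

theorem L_congr {θ η : Λ → ℝ} {y : Λ →₀ ℤ} (h : ∀ i ∈ y.support, θ i = η i) : L θ y = L η y :=
  Finset.sum_congr rfl fun i hi => by simp only [h i hi]

theorem L_add (θ η : Λ → ℝ) (t : ℝ) (y : Λ →₀ ℤ) :
    L (fun i => θ i + t * η i) y = L θ y + t * L η y := by
  simp only [Finsupp.linearCombination_apply, Finsupp.sum, Finset.mul_sum, ← Finset.sum_add_distrib,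
    zsmul_eq_mul]
  exact Finset.sum_congr rfl fun i _ => by ring

theorem unb0 (a : ℕ → Λ →₀ ℤ) (ha : a.Injective) : ∃ θ : Λ → ℝ, ∀ M, ∃ n, M < |L θ (a n)| := by
  classical
  by_contra hn
  push Not at hn
  let C : Set Λ := ⋃ n, (a n).support
  have : Countable C := (countable_iUnion fun n => Finset.countable_toSet _).to_subtype
  let x : (C → ℝ) → Λ → ℝ := fun z i => if h : i ∈ C then z ⟨i, h⟩ else 0
  have hs : ∀ i, ∀ y : Λ →₀ ℤ, L (Pi.single i 1) y = y i := fun i y => by
    simp [Finsupp.linearCombination_apply, Finsupp.sum, Pi.single_apply]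
    exact fun h => by simp [h]
  obtain ⟨m, z, hz⟩ := nonempty_interior_of_iUnion_of_closed
    (f := fun m : ℕ => {z | ∀ n, |L (x z) (a n)| ≤ m}) (fun m => by
      rw [ofPred_forall]
      refine isClosed_iInter fun n => isClosed_le (Continuous.abs ?_) continuous_const
      refine continuous_finsetSum _ fun i _ => ?_
      show Continuous fun z => a n i • x z i
      simp only [x]
      split_ifs <;> fun_prop) (eq_univ_of_forall fun z => by
        obtain ⟨M, hM⟩ := hn (x z)
        obtain ⟨m, hm⟩ := exists_nat_ge M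
        exact mem_iUnion.2 ⟨m, fun n => (hM n).trans hm⟩)
  obtain ⟨I, u, u1, u2⟩ := isOpen_pi_iff.1 isOpen_interior z hz
  have h1 : ∀ n, ∀ i : C, i ∉ I → a n i = 0 := fun n i hi => by
    by_contra h
    have h2 : ∀ t : ℝ, |L (x z) (a n) + t * a n i| ≤ m := fun t => by
      have := interior_subset (u2 (show Function.update z i (z i + t) ∈ _ from fun j hj => by
        rw [Function.update_of_ne fun e : j = i => hi (e ▸ hj)]
        exact (u1 j hj).2)) n
      rw [← hs, ← L_add]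
      convert this using 4
      funext j
      by_cases hj : j = i
      · simp [x, hj]
      · simp only [x, Pi.single_eq_of_ne hj, mul_zero, add_zero]
        split_ifs
        · rw [Function.update_of_ne fun e => hj (congrArg Subtype.val e)]
        · rfl
    have h3 := h2 ((m + 1 - L (x z) (a n)) / a n i)
    rw [div_mul_cancel₀ _ (by exact_mod_cast h), add_sub_cancel] at h3
    linarith [le_abs_self (m + 1 : ℝ)]
  choose M hM using fun i : I => hn (Pi.single i.1.1 1)
  refine infinite_of_injective_forall_mem (f := fun n (i : I) => a n i.1.1)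
    (s := {f | ∀ i, f i ∈ Icc (-⌈M i⌉) ⌈M i⌉})
    (fun n k e => ha (Finsupp.ext fun i => ?_)) (fun n i => ?_)
    (Finite.pi' fun i : I => finite_Icc (-⌈M i⌉) ⌈M i⌉)
  · by_cases hi : i ∈ C
    · by_cases hI : ⟨i, hi⟩ ∈ I
      · exact congrFun e ⟨_, hI⟩
      · exact (h1 n _ hI).trans (h1 k _ hI).symm
    · rw [Finsupp.notMem_support_iff.1 fun h => hi (mem_iUnion.2 ⟨n, h⟩),
        Finsupp.notMem_support_iff.1 fun h => hi (mem_iUnion.2 ⟨k, h⟩)]
  · have := (hM i n).trans (Int.le_ceil _)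
    rw [hs] at this
    exact abs_le.1 (by exact_mod_cast this)

theorem unb (hΛ : Cardinal.mk Λ ≤ continuum) (a : ℕ → Λ →₀ ℤ) (ha : a.Injective) :
    ∃ ρ : ℕ → ℝ, (∀ M, ∃ n, M < |ρ n|) ∧ ∀ C : Set Λ, C.Countable →
      ∃ θ M, Ind C θ ∧ ∀ n, |L θ (a n) - ρ n| ≤ M := by
  let B := Module.Basis.ofVectorSpace ℚ ℝ
  obtain ⟨e⟩ : Cardinal.mk Λ ≤ Cardinal.mk (Module.Basis.ofVectorSpaceIndex ℚ ℝ) := by
    rwa [B.mk_eq_rank'', Real.rank_rat_real]
  have h1 := linearIndependent_iff.1
    ((B.linearIndependent.comp e e.injective).restrict_scalars' ℤ)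
  by_cases h : ∀ M, ∃ n, M < |L (B ∘ e) (a n)|
  · exact ⟨_, h, fun C _ => ⟨B ∘ e, 0, fun y _ => h1 y, by simp⟩⟩
  push Not at h
  obtain ⟨M, hM⟩ := h
  obtain ⟨θ, hθ⟩ := unb0 a ha
  refine ⟨_, hθ, fun C hC => ?_⟩
  obtain ⟨t, ht⟩ := (((cnt hC).image fun y => -L θ y / L (B ∘ e) y).dense_compl ℝ).nonempty
  refine ⟨fun i => θ i + t * (B ∘ e) i, |t| * M, fun y y1 y2 => h1 y (by_contra fun h => ht
    ⟨y, y1, ?_⟩), fun n => ?_⟩
  · rw [L_add] at y2
    exact (div_eq_iff h).2 (by linarith)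
  · rw [L_add, add_sub_cancel_left, abs_mul]
    exact mul_le_mul_of_nonneg_left (hM n) (abs_nonneg _)

open Real in
theorem fin {A : Type} [CommGroup A] [TopologicalSpace A] (hΛ : Cardinal.mk Λ ≤ continuum)
    (E : Multiplicative (Λ →₀ ℤ) →* A) (hE : Function.Surjective E)
    (h : ∀ (C : Set Λ) θ r, C.Countable → Ind C θ → Lc r → ∃ (f : A →* Circle) (s : ℝ), s ∈ S r ∧
      Continuous f ∧ ∀ y : Λ →₀ ℤ, ↑y.support ⊆ C → f (E (.ofAdd y)) = fourierChar (s * L θ y))
    (K : Set A) (hK : IsCompact K) : K.Finite := by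
  classical
  by_contra hn
  let b := Set.Infinite.natEmbedding K hn
  choose a ha using fun n => hE (b n)
  obtain ⟨ρ, h1, h2⟩ := unb hΛ (fun n => (a n).toAdd) fun n k e =>
    b.injective (Subtype.ext ((ha n).symm.trans ((congrArg (fun y => E (.ofAdd y)) e).trans (ha k))))
  choose g hg using h1
  let φ : ℕ → ℕ := fun k => Nat.rec 0 (fun k n => g (10 * |ρ n| + k)) k
  have hφ : ∀ k : ℕ, 10 * |ρ (φ k)| + k < |ρ (φ (k + 1))| := fun k => hg _
  obtain ⟨x, -, hx⟩ := hK.exists_mapClusterPt (f := atTop) (u := fun k => E (a (φ k)))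
    (tendsto_principal.2 (Eventually.of_forall fun k => ha _ ▸ (b _).2))
  obtain ⟨y, rfl⟩ := hE x
  let C : Set Λ := ↑y.toAdd.support ∪ ⋃ n, (a n).toAdd.support
  have hC : C.Countable :=
    (Finset.countable_toSet _).union (countable_iUnion fun n => Finset.countable_toSet _)
  obtain ⟨θ, M, h3, h4⟩ := h2 C hC
  obtain ⟨N, hN⟩ := exists_nat_ge (11 * (M + |L θ y.toAdd|))
  let d : ℕ → Λ →₀ ℤ := fun k => (a (φ (k + N + 1))).toAdd - y.toAdd
  have h5 : ∀ k, |L θ ((a k).toAdd - y.toAdd)| ≤ |ρ k| + (M + |L θ y.toAdd|) ∧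
      |ρ k| ≤ |L θ ((a k).toAdd - y.toAdd)| + (M + |L θ y.toAdd|) := fun k => by
    have := h4 k
    rw [map_sub]
    constructor <;> grind
  obtain ⟨f, s, h6, h7, h8⟩ := h C θ (fun k => L θ (d k)) hC h3 fun k => by
    have a1 := h5 (φ (k + N + 1))
    have a2 := h5 (φ (k + 1 + N + 1))
    have a3 := hφ (k + N)
    have a4 := hφ (k + N + 1)
    rw [show k + N + 1 + 1 = k + 1 + N + 1 by omega] at a4
    push_cast at a3 a4
    have a5 := (abs_nonneg _).trans (h4 0)
    have a6 := abs_nonneg (L θ y.toAdd)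
    have a7 := abs_nonneg (ρ (φ (k + N)))
    have a8 : (0 : ℝ) ≤ k := k.cast_nonneg
    exact ⟨abs_pos.1 (by linarith [a1.2]), by linarith [a1.1, a2.2]⟩
  have h9 := IsClosed.mem_of_mapClusterPt (s := {z | ((f z / f (E y) : Circle) : ℂ).re ≤ 0})
    (isClosed_le (by fun_prop) continuous_const) hx (eventually_atTop.2 ⟨N + 1, fun k hk => by
      obtain ⟨k, rfl⟩ := Nat.exists_eq_add_of_le' hk
      obtain ⟨n, n1, n2⟩ := h6 k
      have := h8 (d k) ((Finset.coe_subset.2 Finsupp.support_sub).trans (by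
        rw [Finset.coe_union]
        exact union_subset (subset_union_of_subset_right (subset_iUnion
          (fun n => ((a n).toAdd.support : Set Λ)) _) _) subset_union_left))
      rw [mem_ofPred_eq, ← map_div, ← map_div]
      erw [this]
      rw [fourierChar_apply, Complex.exp_ofReal_mul_I_re, ← cos_sub_int_mul_two_pi _ n]
      exact cos_nonpos_of_pi_div_two_le_of_le (by nlinarith [pi_pos]) (by nlinarith [pi_pos])⟩)
  norm_num at h9

theorem gen {P J : Type} (hJ : Cardinal.mk J ≤ continuum) (k : P → J)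
    (hk : ∀ j, (k ⁻¹' {j}).Countable) (θ : P → ℝ) (hθ : ∀ j, Ind (k ⁻¹' {j}) θ) (T : J → Set ℝ)
    (hT : ∀ j, continuum ≤ Cardinal.mk (T j)) (W : P → Set ℝ) (hW : ∀ p, (W p).Countable) :
    ∃ s : J → ℝ, (∀ j, s j ∈ T j) ∧ ∀ c : P →₀ ℤ,
      L (fun p => s (k p) * θ p) c ∈ AddSubgroup.closure (⋃ p ∈ c.support, W p) → c = 0 := by
  classical
  obtain ⟨_, _, ho⟩ := Cardinal.exists_ord_eq_type_lt J
  let V : ∀ j, (Iio j → ℝ) → Set ℝ := fun j f =>
    (⋃ i : Iic j, ⋃ p ∈ k ⁻¹' {i.1}, W p) ∪ ⋃ i : Iio j, (fun p => f i * θ p) '' (k ⁻¹' {i.1})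
  have h1 : ∀ j f, ∃ a ∈ T j, ∀ c : P →₀ ℤ, ↑c.support ⊆ k ⁻¹' {j} →
      a * L θ c ∈ AddSubgroup.closure (V j f) → c = 0 := by
    intro j f
    have hu : ∀ (s : Set J) (g : s → Set ℝ), s ⊆ Iic j → (∀ i, (g i).Countable) →
        Cardinal.mk (⋃ i, g i) < continuum := fun s g hs hg => by
      refine (Cardinal.mk_iUnion_le _).trans_lt (Cardinal.mul_lt_of_lt
        Cardinal.aleph0_le_continuum ((Cardinal.mk_le_mk_of_subset hs).trans_lt ?_) ?_)
      · rcases finite_or_infinite J with h | h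
        · exact (toFinite _).lt_aleph0.trans Cardinal.aleph0_lt_continuum
        · exact (Cardinal.mk_Iic_lt j ho (Cardinal.aleph0_le_mk J)).trans_le hJ
      · exact (ciSup_le' fun i => Cardinal.le_aleph0_iff_set_countable.2 (hg i)).trans_lt
          Cardinal.aleph0_lt_continuum
    have h2 : Cardinal.mk (AddSubgroup.closure (V j f)) < continuum := by
      refine ((Cardinal.mk_le_mk_of_subset ((AddSubgroup.closure_le (Subfield.closure
        (V j f)).toAddSubgroup).2 Subfield.subset_closure)).trans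
        (Subfield.cardinalMk_closure_le_max _)).trans_lt (max_lt ?_ Cardinal.aleph0_lt_continuum)
      exact (Cardinal.mk_union_le _ _).trans_lt (Cardinal.add_lt_of_lt
        Cardinal.aleph0_le_continuum (hu _ _ Subset.rfl fun i => (hk _).biUnion fun p _ => hW p)
        (hu _ _ Iio_subset_Iic_self fun i => (hk _).image _))
    have h3 : Cardinal.mk (image2 (fun (v : ℝ) c => v / L θ c) (AddSubgroup.closure (V j f))
        {c | ↑c.support ⊆ k ⁻¹' {j}}) < Cardinal.mk (T j) :=
      (Cardinal.mk_image2_le.trans_lt (Cardinal.mul_lt_of_lt Cardinal.aleph0_le_continuum h2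
        ((Cardinal.le_aleph0_iff_set_countable.2 (cnt (hk j))).trans_lt
          Cardinal.aleph0_lt_continuum))).trans_le (hT j)
    obtain ⟨a, a1, a2⟩ := not_subset.1 fun h => not_le.2 h3 (Cardinal.mk_le_mk_of_subset h)
    exact ⟨a, a1, fun c c1 c2 => hθ j c c1 (by_contra fun h =>
      a2 ⟨_, c2, c, c1, mul_div_cancel_right₀ _ h⟩)⟩
  choose st s1 s2 using h1
  let s : J → ℝ := fun j => WellFounded.fix wellFounded_lt
    (fun j (g : ∀ i, i < j → ℝ) => st j fun i => g i.1 i.2) j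
  have hs : ∀ j, s j = st j fun i => s i.1 := fun j => WellFounded.fix_eq _ _ _
  refine ⟨s, fun j => hs j ▸ s1 _ _, fun c hc => by_contra fun h => ?_⟩
  obtain ⟨p, p1, p2⟩ := c.support.exists_max_image k (Finsupp.support_nonempty_iff.2 h)
  have h2 := s2 (k p) (fun i => s i.1) (c.filter fun q => k q = k p)
    (fun q hq => (Finset.mem_filter.1 hq).2) (by
      have e : s (k p) * L θ (c.filter fun q => k q = k p) = L (fun p => s (k p) * θ p) c -
          L (fun p => s (k p) * θ p) (c.filter fun q => ¬ k q = k p) := by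
        rw [← map_sub, sub_eq_of_eq_add (c.filter_add_filter_not _).symm, ← zero_add (s _ * _),
          ← show L (fun _ => 0) (c.filter fun q => k q = k p) = 0 by
            simp [Finsupp.linearCombination_apply], ← L_add]
        exact L_congr fun q hq => by rw [(Finset.mem_filter.1 hq).2, zero_add]
      rw [← hs, e]
      refine sub_mem (AddSubgroup.closure_mono (iUnion₂_subset fun q hq x hx => .inl
        (mem_iUnion.2 ⟨⟨k q, p2 q hq⟩, mem_biUnion (show q ∈ _ from rfl) hx⟩)) hc)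
        (sum_mem fun q hq => zsmul_mem (AddSubgroup.subset_closure (.inr (mem_iUnion.2
          ⟨⟨k q, lt_of_le_of_ne (p2 q (Finset.mem_filter.1 hq).1) (Finset.mem_filter.1 hq).2⟩,
            q, rfl, rfl⟩))) _))
  exact Finsupp.mem_support_iff.1 p1 (by simpa using DFunLike.congr_fun h2 p)

end Pool.Agent.H25.Lac
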