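import Mathlib
import Pool.Agent.H25.Dual
import Pool.Agent.H25.Lac
import Pool.Agent.H25.Aron

set_option autoImplicit false
open Set Filter Topology

namespace Pool.Agent.H25.Determ
open Pool.Agent.H25.Dual Pool.Agent.H25.Aron

theorem unc : ¬ (univ : Set W).Countable := fun h => by
  obtain ⟨b, hb⟩ := bnd h
  exact lt_irrefl b (hb b trivial)

theorem nm : ¬ TopologicalSpace.MetrizableSpace (W → Circle) := by
  classical
  intro h
  obtain ⟨U, hU⟩ := (𝓝 (1 : W → Circle)).exists_antitone_basis
  have h1 : ∀ n, ∃ I : Set W, I.Finite ∧ ∀ x : W → Circle, (∀ i ∈ I, x i = 1) → x ∈ U n := fun n => by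
    have := hU.mem n
    rw [nhds_pi] at this
    obtain ⟨I, a, t, b, c⟩ := Filter.mem_pi.1 this
    exact ⟨I, a, fun x hx => c fun i hi => hx i hi ▸ mem_of_mem_nhds (b i)⟩
  choose I a b using h1
  obtain ⟨i, -, hi⟩ := not_subset.1 fun h : univ ⊆ ⋃ n, I n =>
    unc ((countable_iUnion fun n => (a n).countable).mono h)
  have h2 : Tendsto (fun _ : ℕ => (Pi.mulSingle i (Circle.exp Real.pi) : W → Circle)) atTop (𝓝 1) :=
    hU.tendsto fun n => b n _ fun j hj =>
      Pi.mulSingle_eq_of_ne (fun e : j = i => hi (mem_iUnion.2 ⟨n, e ▸ hj⟩)) _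
  exact Circle.exp_pi_ne_one (by simpa using congrFun (tendsto_nhds_unique tendsto_const_nhds h2) i)

theorem det (H : Subgroup (W → Circle)) (h1 : Dense (H : Set (W → Circle)))
    (h2 : ∀ s : Set H, s.Countable → IsCompact (closure s)) :
    IsHomeomorph (PontryaginDual.map (⟨H.subtype, continuous_subtype_val⟩ : H →ₜ* W → Circle)) := by
  classical
  let R := PontryaginDual.map (⟨H.subtype, continuous_subtype_val⟩ : H →ₜ* W → Circle)
  have fill : ∀ (a : W) (g : W → Circle), ∃ h : H, ∀ i ≤ a, h.1 i = g i := fun a g => by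
    have := (iic a).to_subtype
    let r : H → Iic a → Circle := fun h i => h.1 i
    have hr : Continuous r := continuous_pi fun i => (continuous_apply _).comp continuous_subtype_val
    obtain ⟨t, t2, t1, t3⟩ :=
      (TopologicalSpace.IsSeparable.of_separableSpace (range r)).exists_countable_dense_subset
    choose f hf using t2
    have := t1.to_subtype
    have h3 : (fun i : Iic a => g i) ∈ closure (range r) := map_mem_closure
      (f := fun (x : W → Circle) (i : Iic a) => x i) (by fun_prop) (h1 g)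
      fun x hx => ⟨⟨x, hx⟩, rfl⟩
    obtain ⟨h, -, e⟩ := closure_minimal (t3.trans (closure_minimal
      (fun x hx => by exact ⟨_, subset_closure ⟨⟨x, hx⟩, rfl⟩, hf hx⟩) ((h2 _ (countable_range
        fun x : t => f x.2)).image hr).isClosed)) ((h2 _ (countable_range
        fun x : t => f x.2)).image hr).isClosed h3
    exact ⟨h, fun i hi => congrFun e ⟨i, hi⟩⟩
  let Ψ : Multiplicative (W →₀ ℤ) →* PontryaginDual (W → Circle) := MonoidHom.mk'
    (fun y => (Finsupp.linearCombination ℤ (fun i => Additive.ofMul (ev i)) y.toAdd).toMul)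
    fun a b => by simp
  have hΨ : ∀ (y : W →₀ ℤ) (x : W → Circle), Ψ (.ofAdd y) x = ∏ i ∈ y.support, x i ^ y i := by
    intro y x
    simp only [Ψ, MonoidHom.mk'_apply, toAdd_ofAdd, Finsupp.linearCombination_apply, Finsupp.sum,
      toMul_sum, toMul_zsmul, toMul_ofMul]
    let e := MonoidHom.mk' (fun χ : PontryaginDual (W → Circle) => χ x) fun _ _ => rfl
    exact (map_prod e _ _).trans (Finset.prod_congr rfl fun i _ => map_zpow e _ _)
  have hs : ∀ i, Ψ (.ofAdd (Finsupp.single i 1)) = ev i := fun i => by simp [Ψ]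
  have h3 : ∀ χ, ∃ y, R (Ψ y) = χ := fun χ => by
    let U : PontryaginDual H →* H →* Circle := MonoidHom.mk' (fun χ => χ.toMonoidHom) fun _ _ => rfl
    obtain ⟨y, hy⟩ := (Subgroup.closure_le (U.comp (R.toMonoidHom.comp Ψ)).range).2
      (range_subset_iff.2 fun i => ⟨_, congrArg (fun γ => U (R γ)) (hs i)⟩)
      (cr (fun i => U (R (ev i))) IsInducing.subtypeVal χ.toMonoidHom χ.continuous)
    exact ⟨y, PontryaginDual.ext fun g => DFunLike.congr_fun hy g⟩
  have h4 : ∀ y : W →₀ ℤ, ∃ h : H, (y ≠ 0 → Ψ (.ofAdd y) h = Circle.exp Real.pi) ∧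
      ∀ i, h.1 i ≠ 1 → ↑y.support ⊆ Iic i := fun y => by
    by_cases e : y = 0
    · exact ⟨1, fun h => absurd e h, fun i h => absurd rfl h⟩
    obtain ⟨a, a1, a2⟩ := y.support.exists_max_image id (Finsupp.support_nonempty_iff.2 e)
    obtain ⟨h, hh⟩ := fill a (Pi.mulSingle a (Circle.exp (Real.pi / y a)))
    refine ⟨h, fun _ => ?_, fun i hi j hj => (a2 j hj).trans (not_lt.1 fun e =>
      hi ((hh i e.le).trans (Pi.mulSingle_eq_of_ne e.ne _)))⟩
    rw [hΨ, Finset.prod_eq_single a (fun j hj e => by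
      rw [hh j (a2 j hj), Pi.mulSingle_eq_of_ne e, one_zpow]) fun h => absurd a1 h, hh a le_rfl,
      Pi.mulSingle_eq_same, ← Circle.exp_intCast_mul, mul_div_cancel₀]
    exact_mod_cast Finsupp.mem_support_iff.1 a1
  choose k k1 k2 using h4
  have h5 : closure (range fun y => (k y).1) ⊆ H := fun x hx => by
    by_cases e : x = 1
    · exact e ▸ H.one_mem
    obtain ⟨i, hi⟩ := Function.ne_iff.1 e
    have h6 := ((h2 _ ((Lac.cnt (iic i)).image k)).image continuous_subtype_val).isClosed
    obtain ⟨z, -, rfl⟩ := closure_minimal (s := {z : W → Circle | z i ≠ 1} ∩ range fun y => (k y).1)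
      (by rintro _ ⟨a, y, rfl⟩; exact ⟨_, subset_closure ⟨y, k2 y i a, rfl⟩, rfl⟩) h6
      ((isOpen_ne_fun (continuous_apply i) continuous_const).inter_closure ⟨hi, hx⟩)
    exact z.2
  have h6 : IsCompact (Subtype.val ⁻¹' closure (range fun y => (k y).1) : Set H) :=
    IsInducing.subtypeVal.isCompact_preimage' isClosed_closure.isCompact (by simpa using h5)
  have : DiscreteTopology (PontryaginDual H) := by
    refine discreteTopology_of_isOpen_singleton_one ?_
    have h7 : IsOpen {χ : PontryaginDual H | MapsTo χ _ {z | z ≠ Circle.exp Real.pi}} :=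
      (ContinuousMap.isOpen_setOfPred_mapsTo h6 isOpen_ne).preimage
        (ContinuousMonoidHom.isInducing_toContinuousMap H Circle).continuous
    convert h7 using 1
    refine Subset.antisymm ?_ fun χ hχ => ?_
    · rintro _ rfl x _
      exact Circle.exp_pi_ne_one.symm
    · obtain ⟨y, rfl⟩ := h3 χ
      by_contra e
      exact hχ (x := k y.toAdd) (subset_closure ⟨_, rfl⟩) (k1 _ fun e' => e (by
        rw [show y = 1 from e', map_one, map_one]; rfl))
  exact ⟨R.continuous, fun _ _ => isOpen_discrete _, fun a b e => PontryaginDual.ext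
    (congrFun (Continuous.ext_on h1 a.continuous b.continuous
      fun x hx => DFunLike.congr_fun e ⟨x, hx⟩)), fun χ => (h3 χ).elim fun y hy => ⟨_, hy⟩⟩

end Pool.Agent.H25.Determ
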