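import Mathlib

set_option autoImplicit false

open Set Filter Topology MeasureTheory
open scoped NNReal ENNReal

namespace Pool.Agent.H25.DimImage

theorem dim_le_of_inverse {X : Type} [MetricSpace X] (g : X → ℝ) (S : Set X) (C a : ℝ≥0)
    (ha : 0 < a) (h : ∀ z ∈ S, ∀ z' ∈ S, dist z z' ≤ C * |g z - g z'| ^ (a : ℝ)) :
    dimH S ≤ dimH (g '' S) / a := by
  rcases S.eq_empty_or_nonempty with rfl | ⟨z0, _⟩
  · simp
  have : Nonempty X := ⟨z0⟩
  have hinj : InjOn g S := by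
    intro z hz z' hz' hzz
    have := h z hz z' hz'
    rw [hzz, sub_self, abs_zero, Real.zero_rpow (by exact_mod_cast ha.ne'), mul_zero] at this
    exact dist_le_zero.1 this
  have hH : HolderOnWith C a (Function.invFunOn g S) (g '' S) := by
    rintro _ ⟨z, hz, rfl⟩ _ ⟨z', hz', rfl⟩
    rw [hinj.leftInvOn_invFunOn hz, hinj.leftInvOn_invFunOn hz', edist_dist, edist_dist,
      Real.dist_eq, ENNReal.ofReal_rpow_of_nonneg (abs_nonneg _) a.coe_nonneg,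
      ← ENNReal.ofReal_coe_nnreal, ← ENNReal.ofReal_mul C.coe_nonneg]
    exact ENNReal.ofReal_le_ofReal (h z hz z' hz')
  have := hH.dimH_image_le ha
  rwa [hinj.invFunOn_image subset_rfl] at this

theorem sep {B : ℕ} (a a' : ℕ → Fin B) (n : ℕ) (h : ∀ i < n, a i = a' i)
    (h2 : (2 : ℝ) ≤ |((a n : ℕ) : ℝ) - ((a' n : ℕ) : ℝ)|) :
    ((B : ℝ) ^ (n + 1))⁻¹ ≤ |Real.ofDigits a - Real.ofDigits a'| := by
  rw [Real.ofDigits_eq_sum_add_ofDigits a (n + 1), Real.ofDigits_eq_sum_add_ofDigits a' (n + 1),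
    Finset.sum_range_succ, Finset.sum_range_succ]
  have h1 : ∑ i ∈ Finset.range n, Real.ofDigitsTerm a i =
      ∑ i ∈ Finset.range n, Real.ofDigitsTerm a' i :=
    Finset.sum_congr rfl fun i hi => by simp [Real.ofDigitsTerm, h i (Finset.mem_range.mp hi)]
  rw [h1]
  obtain ⟨u, hu⟩ : ∃ u, u = Real.ofDigits (fun i => a (i + (n + 1))) := ⟨_, rfl⟩
  obtain ⟨u', hu'⟩ : ∃ u, u = Real.ofDigits (fun i => a' (i + (n + 1))) := ⟨_, rfl⟩
  have b1 : 0 ≤ u := hu ▸ Real.ofDigits_nonneg _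
  have b2 : u ≤ 1 := hu ▸ Real.ofDigits_le_one _
  have b3 : 0 ≤ u' := hu' ▸ Real.ofDigits_nonneg _
  have b4 : u' ≤ 1 := hu' ▸ Real.ofDigits_le_one _
  rw [← hu, ← hu']
  simp only [Real.ofDigitsTerm]
  obtain ⟨c, hc⟩ : ∃ c : ℝ, c = ((B : ℝ) ^ (n + 1))⁻¹ := ⟨_, rfl⟩
  have hc0 : 0 ≤ c := by rw [hc]; positivity
  rw [← hc]
  have : ∀ s : ℝ, s + (a n : ℕ) * c + c * u - (s + (a' n : ℕ) * c + c * u') =
      c * ((((a n : ℕ) : ℝ) - ((a' n : ℕ) : ℝ)) + (u - u')) := fun s => by ring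
  rw [this, abs_mul, abs_of_nonneg hc0]
  refine le_mul_of_one_le_right hc0 ?_
  rcases le_abs.1 h2 with h3 | h3
  · exact le_abs.2 (Or.inl (by linarith))
  · exact le_abs.2 (Or.inr (by linarith))

def comb {b : ℕ} (x y : Fin b) : Fin (2 * b * b) :=
  ⟨2 * (x * b + y), by
    have h1 := x.2
    have h2 := y.2
    have : (x : ℕ) * b + b ≤ b * b := by nlinarith
    nlinarith⟩

theorem comb_sep {b : ℕ} {x y x' y' : Fin b} (h : ¬ (x = x' ∧ y = y')) :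
    (2 : ℝ) ≤ |((comb x y : ℕ) : ℝ) - ((comb x' y' : ℕ) : ℝ)| := by
  have h1 : (x : ℕ) * b + y ≠ x' * b + y' := by
    intro h2
    apply h
    have hb : 0 < b := Fin.pos x
    have h3 : ((x : ℕ) * b + y) % b = (x' * b + y') % b := by rw [h2]
    rw [Nat.mul_add_mod_self_right, Nat.mul_add_mod_self_right, Nat.mod_eq_of_lt y.2,
      Nat.mod_eq_of_lt y'.2] at h3
    rw [h3] at h2
    exact ⟨Fin.ext (Nat.eq_of_mul_eq_mul_right hb (Nat.add_right_cancel h2)), Fin.ext h3⟩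
  simp only [comb]
  obtain ⟨u, hu⟩ : ∃ u, u = (x : ℕ) * b + y := ⟨_, rfl⟩
  obtain ⟨u', hu'⟩ : ∃ u, u = (x' : ℕ) * b + y' := ⟨_, rfl⟩
  rw [← hu, ← hu'] at h1 ⊢
  rcases lt_or_gt_of_ne h1 with h2 | h2
  · have : (u : ℝ) + 1 ≤ u' := by exact_mod_cast h2
    exact le_abs.2 (Or.inr (by push_cast; linarith))
  · have : (u' : ℝ) + 1 ≤ u := by exact_mod_cast h2
    exact le_abs.2 (Or.inl (by push_cast; linarith))

noncomputable def gmap (b : ℕ) [NeZero b] (z : ℝ × ℝ) : ℝ :=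
  Real.ofDigits (fun n => comb (Real.digits z.1 b n) (Real.digits z.2 b n))

theorem gmap_inverse (b : ℕ) [NeZero b] (hb : 1 < b) (a : ℝ) (ha : 0 < a)
    (hab : ((2 * b * b : ℕ) : ℝ) ^ a = b) (z z' : ℝ × ℝ) (hz : z ∈ Ico (0 : ℝ) 1 ×ˢ Ico (0 : ℝ) 1)
    (hz' : z' ∈ Ico (0 : ℝ) 1 ×ˢ Ico (0 : ℝ) 1) :
    dist z z' ≤ b * |gmap b z - gmap b z'| ^ a := by
  classical
  by_cases h : ∃ n, ¬ (Real.digits z.1 b n = Real.digits z'.1 b n ∧
      Real.digits z.2 b n = Real.digits z'.2 b n)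
  · have h1 := Nat.find_spec h
    have h2 : ∀ i < Nat.find h, Real.digits z.1 b i = Real.digits z'.1 b i ∧
        Real.digits z.2 b i = Real.digits z'.2 b i := fun i hi => not_not.1 (Nat.find_min h hi)
    obtain ⟨n, hn⟩ : ∃ n, n = Nat.find h := ⟨_, rfl⟩
    rw [← hn] at h1 h2
    have h3 := sep (fun n => comb (Real.digits z.1 b n) (Real.digits z.2 b n))
      (fun n => comb (Real.digits z'.1 b n) (Real.digits z'.2 b n)) n
      (fun i hi => by rw [(h2 i hi).1, (h2 i hi).2]) (comb_sep h1)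
    have h4 := Real.abs_ofDigits_sub_ofDigits_le (fun i hi => (h2 i hi).1)
    have h5 := Real.abs_ofDigits_sub_ofDigits_le (fun i hi => (h2 i hi).2)
    rw [Real.ofDigits_digits hb hz.1, Real.ofDigits_digits hb hz'.1] at h4
    rw [Real.ofDigits_digits hb hz.2, Real.ofDigits_digits hb hz'.2] at h5
    have h6 : dist z z' ≤ ((b : ℝ) ^ n)⁻¹ := by
      rw [Prod.dist_eq, Real.dist_eq, Real.dist_eq]
      exact max_le h4 h5
    refine h6.trans ?_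
    have h7 := Real.rpow_le_rpow (by positivity) h3 ha.le
    rw [Real.inv_rpow (by positivity), ← Real.rpow_natCast, ← Real.rpow_mul (by positivity),
      mul_comm ((n + 1 : ℕ) : ℝ), Real.rpow_mul (by positivity), hab, Real.rpow_natCast] at h7
    have hb0 : (0 : ℝ) < b := by positivity
    calc ((b : ℝ) ^ n)⁻¹ = b * ((b : ℝ) ^ (n + 1))⁻¹ := by rw [pow_succ]; field_simp
      _ ≤ _ := mul_le_mul_of_nonneg_left h7 hb0.le
  · push Not at h
    have h1 : z.1 = z'.1 := by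
      rw [← Real.ofDigits_digits hb hz.1, ← Real.ofDigits_digits hb hz'.1]
      exact congrArg _ (funext fun n => (h n).1)
    have h2 : z.2 = z'.2 := by
      rw [← Real.ofDigits_digits hb hz.2, ← Real.ofDigits_digits hb hz'.2]
      exact congrArg _ (funext fun n => (h n).2)
    rw [Prod.ext h1 h2, dist_self]
    positivity

theorem digits_eventually (b : ℕ) [NeZero b] (x : ℝ) (hx : Irrational x) (n : ℕ) :
    ∀ᶠ y in 𝓝 x, Real.digits y b n = Real.digits x b n := by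
  have h1 : Irrational (x * (b : ℝ) ^ (n + 1)) := by
    have := hx.mul_natCast (m := b ^ (n + 1)) (pow_ne_zero _ (NeZero.ne b))
    simpa using this
  obtain ⟨u, hu⟩ : ∃ u, u = x * (b : ℝ) ^ (n + 1) := ⟨_, rfl⟩
  have h2 : Ioo (⌊u⌋ : ℝ) (⌊u⌋ + 1) ∈ 𝓝 u :=
    Ioo_mem_nhds (lt_of_le_of_ne (Int.floor_le u) (hu ▸ (h1.ne_int _).symm)) (Int.lt_floor_add_one u)
  have h3 : ContinuousAt (fun y : ℝ => y * (b : ℝ) ^ (n + 1)) x := by fun_prop
  have h4 := h3.eventually_mem (s := Ioo (⌊u⌋ : ℝ) (⌊u⌋ + 1)) (by rw [← hu]; exact h2)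
  filter_upwards [h4] with y hy
  have h5 : ⌊y * (b : ℝ) ^ (n + 1)⌋ = ⌊u⌋ := Int.floor_eq_iff.2 ⟨hy.1.le, hy.2⟩
  simp only [Real.digits, ← Int.floor_toNat, h5, ← hu]

theorem gmap_continuousAt (b : ℕ) [NeZero b] (z : ℝ × ℝ) (h1 : Irrational z.1)
    (h2 : Irrational z.2) : ContinuousAt (gmap b) z := by
  refine Real.continuous_ofDigits.continuousAt.comp (continuousAt_pi.2 fun n => ?_)
  refine (continuousAt_const (y := comb (Real.digits z.1 b n) (Real.digits z.2 b n))).congr ?_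
  filter_upwards [continuousAt_fst.eventually (digits_eventually b z.1 h1 n),
    continuousAt_snd.eventually (digits_eventually b z.2 h2 n)] with y hy1 hy2
  rw [hy1, hy2]

theorem exists_open (t : ℝ≥0) (ht : 1 < t) : ∃ U : ℕ → Set ℝ, (∀ m, IsOpen (U m)) ∧
    (∀ m x, x ∉ U m → Irrational x) ∧ dimH ((⋂ m, U m) ×ˢ Ico (0 : ℝ) 1) ≤ t := by
  have ht' : (1 : ℝ) < t := by exact_mod_cast ht
  have h1 : ∀ m j : ℕ, ∃ M : ℕ, m + 1 ≤ M ∧ (M : ℝ) * (2 / M) ^ (t : ℝ) ≤ (1 / 2) ^ j := by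
    intro m j
    have h2 : Tendsto (fun M : ℕ => (2 : ℝ) ^ (t : ℝ) * (M : ℝ) ^ (-((t : ℝ) - 1))) atTop (𝓝 0) := by
      have := ((tendsto_rpow_neg_atTop (y := (t : ℝ) - 1) (by linarith)).comp
        tendsto_natCast_atTop_atTop).const_mul ((2 : ℝ) ^ (t : ℝ))
      simpa using this
    obtain ⟨M, h3, h4⟩ := ((eventually_ge_atTop (m + 1)).and
      (h2.eventually (eventually_le_nhds (by positivity : (0 : ℝ) < (1 / 2) ^ j)))).exists
    refine ⟨M, h3, le_trans (le_of_eq ?_) h4⟩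
    have hM : (0 : ℝ) < M := by exact_mod_cast (by omega : 0 < M)
    rw [Real.div_rpow (by norm_num) hM.le, neg_sub, Real.rpow_sub hM, Real.rpow_one]
    ring
  choose M hM1 hM2 using h1
  have hMpos : ∀ m j, (0 : ℝ) < M m j := fun m j => by
    exact_mod_cast (by have := hM1 m j; omega : 0 < M m j)
  obtain ⟨q, hq⟩ := exists_surjective_nat ℚ
  refine ⟨fun m => ⋃ j, Metric.ball (q j : ℝ) (1 / M m j), fun m => isOpen_iUnion
    (fun j => Metric.isOpen_ball), ?_, ?_⟩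
  · rintro m x hx ⟨r, rfl⟩
    obtain ⟨j, rfl⟩ := hq r
    exact hx (mem_iUnion.2 ⟨j, Metric.mem_ball_self (by have := hMpos m j; positivity)⟩)
  · let T : (m : ℕ) → (Σ j : ℕ, Fin (M m j)) → Set (ℝ × ℝ) := fun m p =>
      Metric.ball (q p.1 : ℝ) (1 / M m p.1) ×ˢ Icc ((p.2 : ℝ) / M m p.1) ((p.2 + 1) / M m p.1)
    have hd : ∀ m p, Metric.ediam (T m p) ≤ ENNReal.ofReal (2 / M m p.1) := by
      intro m p
      refine Metric.ediam_le_of_forall_dist_le ?_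
      rintro x ⟨hx1, hx2⟩ y ⟨hy1, hy2⟩
      have hp := hMpos m p.1
      rw [Prod.dist_eq]
      refine max_le ?_ ?_
      · have := dist_triangle_right x.1 y.1 (q p.1 : ℝ)
        rw [Metric.mem_ball] at hx1 hy1
        have h3 : (2 : ℝ) / M m p.1 = 1 / M m p.1 + 1 / M m p.1 := by ring
        linarith
      · rw [Real.dist_eq, abs_le]
        have h3 : ((p.2 : ℝ) + 1) / M m p.1 = p.2 / M m p.1 + 1 / M m p.1 := by ring
        have h4 : (2 : ℝ) / M m p.1 = 1 / M m p.1 + 1 / M m p.1 := by ring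
        have h5 : (0 : ℝ) < 1 / M m p.1 := by positivity
        constructor <;> linarith [hx2.1, hx2.2, hy2.1, hy2.2]
    refine dimH_le_of_hausdorffMeasure_ne_top (ne_top_of_le_ne_top (b := 2) (by norm_num) ?_)
    refine (Measure.hausdorffMeasure_le_liminf_tsum (l := atTop) t _
      (fun m : ℕ => ENNReal.ofReal (2 / (m + 1))) ?_ T ?_ ?_).trans ?_
    · have : Tendsto (fun m : ℕ => (2 : ℝ) / (m + 1)) atTop (𝓝 0) := by
        simpa [div_eq_mul_inv] using tendsto_one_div_add_atTop_nhds_zero_nat.const_mul (2 : ℝ)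
      simpa using ENNReal.tendsto_ofReal this
    · refine Eventually.of_forall fun m p => (hd m p).trans (ENNReal.ofReal_le_ofReal ?_)
      have : (m : ℝ) + 1 ≤ M m p.1 := by exact_mod_cast hM1 m p.1
      gcongr
    · refine Eventually.of_forall fun m => ?_
      rintro ⟨x, y⟩ ⟨hx, hy⟩
      obtain ⟨j, hj⟩ := mem_iUnion.1 (mem_iInter.1 hx m)
      have hp := hMpos m j
      have hy0 : 0 ≤ y * M m j := mul_nonneg hy.1 hp.le
      have h3 : ⌊y * M m j⌋₊ < M m j := by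
        rw [Nat.floor_lt hy0]
        have := hy.2
        nlinarith
      refine mem_iUnion.2 ⟨⟨j, ⟨_, h3⟩⟩, hj, ?_, ?_⟩
      · exact (div_le_iff₀ hp).2 (Nat.floor_le hy0)
      · exact (le_div_iff₀ hp).2 (Nat.lt_floor_add_one _).le
    · refine liminf_le_of_frequently_le' (Frequently.of_forall fun m => ?_)
      rw [ENNReal.tsum_sigma']
      calc ∑' j, ∑' i : Fin (M m j), Metric.ediam (T m ⟨j, i⟩) ^ (t : ℝ)
          ≤ ∑' j : ℕ, (2⁻¹ : ℝ≥0∞) ^ j := by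
            refine ENNReal.tsum_le_tsum fun j => ?_
            have hp := hMpos m j
            calc ∑' i : Fin (M m j), Metric.ediam (T m ⟨j, i⟩) ^ (t : ℝ)
                ≤ ∑' _ : Fin (M m j), ENNReal.ofReal (2 / M m j) ^ (t : ℝ) :=
                  ENNReal.tsum_le_tsum fun i => ENNReal.rpow_le_rpow (hd m ⟨j, i⟩) t.coe_nonneg
              _ = ENNReal.ofReal ((M m j : ℝ) * (2 / M m j) ^ (t : ℝ)) := by
                  rw [tsum_fintype, Finset.sum_const, Finset.card_univ, Fintype.card_fin,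
                    nsmul_eq_mul, ENNReal.ofReal_mul hp.le, ENNReal.ofReal_natCast,
                    ENNReal.ofReal_rpow_of_nonneg (by positivity) t.coe_nonneg]
              _ ≤ ENNReal.ofReal ((1 / 2) ^ j) := ENNReal.ofReal_le_ofReal (hM2 m j)
              _ = (2⁻¹ : ℝ≥0∞) ^ j := by
                  rw [ENNReal.ofReal_pow (by norm_num), one_div, ENNReal.ofReal_inv_of_pos (by norm_num)]
                  simp
        _ = 2 := ENNReal.tsum_geometric_two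

theorem unit_square (t : ℝ≥0) (ht : 1 < t) (b : ℕ) (hb : 1 < b) (a : ℝ≥0) (ha : 0 < a)
    (hab : ((2 * b * b : ℕ) : ℝ) ^ (a : ℝ) = b) (d : ℝ≥0∞) (E : Set (ℝ × ℝ))
    (hE : E ⊆ Ico (0 : ℝ) 1 ×ˢ Ico (0 : ℝ) 1)
    (h : ∀ f : ℝ × ℝ → ℝ, Continuous f → dimH (f '' E) ≤ d) : dimH E ≤ max (t : ℝ≥0∞) (d / a) := by
  have : NeZero b := ⟨by omega⟩
  obtain ⟨U, hU1, hU2, hU3⟩ := exists_open t ht
  have hsub : E ⊆ ((⋂ m, U m) ×ˢ Ico (0 : ℝ) 1 ∪
      (ContinuousLinearEquiv.prodComm ℝ ℝ ℝ) '' ((⋂ m, U m) ×ˢ Ico (0 : ℝ) 1)) ∪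
      ⋃ p : ℕ × ℕ, E ∩ (U p.1)ᶜ ×ˢ (U p.2)ᶜ := by
    rintro ⟨x, y⟩ hz
    by_cases hx : x ∈ ⋂ m, U m
    · exact Or.inl (Or.inl ⟨hx, (hE hz).2⟩)
    by_cases hy : y ∈ ⋂ m, U m
    · exact Or.inl (Or.inr ⟨(y, x), ⟨hy, (hE hz).1⟩, rfl⟩)
    simp only [mem_iInter, not_forall] at hx hy
    obtain ⟨m, hm⟩ := hx
    obtain ⟨m', hm'⟩ := hy
    exact Or.inr (mem_iUnion.2 ⟨(m, m'), hz, hm, hm'⟩)
  refine (dimH_mono hsub).trans ?_
  rw [dimH_union, dimH_union, ContinuousLinearEquiv.dimH_image, max_self, dimH_iUnion]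
  refine max_le_max hU3 (iSup_le fun p => ?_)
  have hC : IsClosed ((U p.1)ᶜ ×ˢ (U p.2)ᶜ) := (hU1 _).isClosed_compl.prod (hU1 _).isClosed_compl
  have hg : ContinuousOn (gmap b) ((U p.1)ᶜ ×ˢ (U p.2)ᶜ) := fun z hz =>
    (gmap_continuousAt b z (hU2 _ _ hz.1) (hU2 _ _ hz.2)).continuousWithinAt
  obtain ⟨f, hf⟩ := ContinuousMap.exists_restrict_eq hC ⟨_, hg.domRestrict⟩
  have hfg : ∀ z ∈ (U p.1)ᶜ ×ˢ (U p.2)ᶜ, f z = gmap b z := fun z hz =>
    congrArg (fun F : C(((U p.1)ᶜ ×ˢ (U p.2)ᶜ : Set (ℝ × ℝ)), ℝ) => F ⟨z, hz⟩) hf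
  refine (dim_le_of_inverse f _ b a ha ?_).trans (ENNReal.div_le_div_right ?_ _)
  · intro z hz z' hz'
    rw [hfg z hz.2, hfg z' hz'.2]
    exact gmap_inverse b hb a (by exact_mod_cast ha) hab z z' (hE hz.1) (hE hz'.1)
  · exact (dimH_mono (image_mono inter_subset_left)).trans (h f f.continuous)

theorem plane (t : ℝ≥0) (ht : 1 < t) (b : ℕ) (hb : 1 < b) (a : ℝ≥0) (ha : 0 < a)
    (hab : ((2 * b * b : ℕ) : ℝ) ^ (a : ℝ) = b) (d : ℝ≥0∞) (E : Set (ℝ × ℝ))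
    (h : ∀ f : ℝ × ℝ → ℝ, Continuous f → dimH (f '' E) ≤ d) : dimH E ≤ max (t : ℝ≥0∞) (d / a) := by
  have hsub : E ⊆ ⋃ p : ℤ × ℤ, (fun z => z + ((p.1 : ℝ), (p.2 : ℝ))) ''
      {z | z ∈ Ico (0 : ℝ) 1 ×ˢ Ico (0 : ℝ) 1 ∧ z + ((p.1 : ℝ), (p.2 : ℝ)) ∈ E} := by
    rintro ⟨x, y⟩ hz
    have h1 : (Int.fract x, Int.fract y) + ((⌊x⌋ : ℝ), (⌊y⌋ : ℝ)) = (x, y) := by simp
    refine mem_iUnion.2 ⟨(⌊x⌋, ⌊y⌋), (Int.fract x, Int.fract y),
      ⟨⟨⟨Int.fract_nonneg x, Int.fract_lt_one x⟩, Int.fract_nonneg y, Int.fract_lt_one y⟩, ?_⟩, h1⟩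
    rw [h1]
    exact hz
  refine (dimH_mono hsub).trans ?_
  rw [dimH_iUnion]
  refine iSup_le fun p => ?_
  rw [(isometry_add_right _).dimH_image]
  refine unit_square t ht b hb a ha hab d _ (fun z hz => hz.1) fun f hf => ?_
  refine le_trans (dimH_mono ?_) (h (fun z => f (z - ((p.1 : ℝ), (p.2 : ℝ)))) (by fun_prop))
  rintro _ ⟨z, hz, rfl⟩
  exact ⟨_, hz.2, by simp⟩

theorem exponent (k : ℕ) : (((2 * 2 ^ k * 2 ^ k : ℕ) : ℝ)) ^ ((k : ℝ) / (2 * k + 1)) = (2 ^ k : ℕ) := by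
  have h1 : ((2 * 2 ^ k * 2 ^ k : ℕ) : ℝ) = (2 : ℝ) ^ ((2 * k + 1 : ℕ) : ℝ) := by
    rw [Real.rpow_natCast]
    push_cast
    ring
  rw [h1, ← Real.rpow_mul (by norm_num)]
  have h2 : ((2 * k + 1 : ℕ) : ℝ) * ((k : ℝ) / (2 * k + 1)) = k := by
    push_cast
    field_simp
  rw [h2, Real.rpow_natCast]
  push_cast
  ring

end Pool.Agent.H25.DimImage
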