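import Pool.Agent.H25.W1Defs

set_option autoImplicit false

namespace Pool.Agent.H25.Dual

/-- vertex names -/
abbrev A := ℕ × ℕ × ℕ × ℕ × ℕ

/-- vertices, blue edges, red edges, `s`, `t`, `k` -/
abbrev Inst := List A × List (A × A) × List (A × A) × A × A × ℕ

/-- the simple graph with the listed undirected edges -/
def G (E : List (A × A)) : SimpleGraph A := SimpleGraph.fromRel fun u v => (u, v) ∈ E

/-- edges join listed vertices, no edge has both colours, the terminals are distinct vertices -/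
def Valid (I : Inst) : Prop :=
  (∀ e ∈ I.2.1 ++ I.2.2.1, e.1 ∈ I.1 ∧ e.2 ∈ I.1) ∧ (∀ u v, ¬ ((G I.2.1).Adj u v ∧ (G I.2.2.1).Adj u v)) ∧
    I.2.2.2.1 ∈ I.1 ∧ I.2.2.2.2.1 ∈ I.1 ∧ I.2.2.2.1 ≠ I.2.2.2.2.1

/-- `s` and `t` lie outside `S` and in different components of `H - S` -/
def Sep (H : SimpleGraph A) (S : Finset A) (s t : A) : Prop :=
  ∃ (hs : s ∉ S) (ht : t ∉ S), ¬ (H.induce {v | v ∉ S}).Reachable ⟨s, hs⟩ ⟨t, ht⟩

/-- Dual Separator for Two Terminals -/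
def DS2 (I : Inst) : Prop :=
  Valid I ∧ ∃ S : Finset A, (∀ v ∈ S, v ∈ I.1) ∧ S.card ≤ I.2.2.2.2.2 ∧
    Sep (G I.2.1) S I.2.2.2.1 I.2.2.2.2.1 ∧ Sep (G I.2.2.1) S I.2.2.2.1 I.2.2.2.2.1

end Pool.Agent.H25.Dual
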