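import Pool.Agent.H25.SPDefs

set_option autoImplicit false

namespace Pool.Agent.H25.SP

/-- the relation given by a 0/1 matrix: entry `(i, j)` is 1 -/
def Le (A : List (List Bool)) (i j : Fin A.length) : Prop := (A.getD i []).getD j false = true

/-- `A` is a square 0/1 matrix whose relation is reflexive, antisymmetric and transitive -/
def IsPoset (A : List (List Bool)) : Prop :=
  (∀ r ∈ A, r.length = A.length) ∧ (∀ i, Le A i i) ∧ (∀ i j, Le A i j → Le A j i → i = j) ∧
    ∀ i j k, Le A i j → Le A j k → Le A i k

/-- the number of order-preserving self-maps -/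
noncomputable def cntEnd (A : List (List Bool)) : ℕ :=
  Nat.card {f : Fin A.length → Fin A.length // ∀ i j, Le A i j → Le A (f i) (f j)}

end Pool.Agent.H25.SP
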