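import Pool.Agent.H25.SP2
import Pool.Agent.H25.EndDefs

set_option autoImplicit false

namespace Pool.Agent.H25.SP
open Pool.Agent.H11.PT Pool.Agent.H25.BN

noncomputable def homc {X Y : Type} (r : X → X → Prop) (s : Y → Y → Prop) : ℕ :=
  Nat.card {f : X → Y // ∀ a b, r a b → s (f a) (f b)}

section
variable {X X' Y Y' : Type}

theorem homc_congr {r : X → X → Prop} {s : Y → Y → Prop} {r' : X' → X' → Prop}
    {s' : Y' → Y' → Prop} (e : X ≃ X') (e' : Y ≃ Y') (h1 : ∀ a b, r' (e a) (e b) ↔ r a b)
    (h2 : ∀ a b, s' (e' a) (e' b) ↔ s a b) : homc r s = homc r' s' := by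
  refine Nat.card_congr ((Equiv.arrowCongr e e').subtypeEquiv fun f => ⟨fun h a b hab => ?_,
    fun h a b hab => ?_⟩)
  · simp only [Equiv.arrowCongr_apply, Function.comp]
    rw [h2]
    apply h
    rw [← h1]; simpa using hab
  · have := h (e a) (e b) ((h1 a b).2 hab)
    simpa [h2] using this

theorem homc_sum_left (r : X → X → Prop) (r' : X' → X' → Prop) (s : Y → Y → Prop) :
    homc (Sum.LiftRel r r') s = homc r s * homc r' s := by
  unfold homc
  rw [← Nat.card_prod]
  refine Nat.card_congr
    { toFun := fun f => (⟨fun a => f.1 (.inl a), fun a b h => f.2 _ _ (.inl h)⟩,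
        ⟨fun a => f.1 (.inr a), fun a b h => f.2 _ _ (.inr h)⟩)
      invFun := fun p => ⟨Sum.elim p.1.1 p.2.1, fun a b h => by
        cases h with
        | inl h => exact p.1.2 _ _ h
        | inr h => exact p.2.2 _ _ h⟩
      left_inv := fun f => Subtype.ext (funext fun a => by cases a <;> rfl)
      right_inv := fun p => rfl }

theorem homc_sum_right [Finite X] [Finite Y] [Finite Y'] (r : X → X → Prop) (z : X)
    (hz : ∀ a, r z a) (s : Y → Y → Prop) (s' : Y' → Y' → Prop) :
    homc r (Sum.LiftRel s s') = homc r s + homc r s' := by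
  unfold homc
  rw [← Nat.card_sum]
  refine (Nat.card_congr (Equiv.ofBijective (Sum.elim
    (fun f => ⟨fun a => .inl (f.1 a), fun a b h => .inl (f.2 a b h)⟩)
    (fun f => ⟨fun a => .inr (f.1 a), fun a b h => .inr (f.2 a b h)⟩)) ⟨?_, ?_⟩)).symm
  · rintro (f | f) (g | g) h
    · simp only [Sum.elim_inl, Subtype.mk.injEq] at h
      exact congrArg _ (Subtype.ext (funext fun a => Sum.inl_injective (congrFun h a)))
    · simp only [Sum.elim_inl, Sum.elim_inr, Subtype.mk.injEq] at h
      exact absurd (congrFun h z) (by simp)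
    · simp only [Sum.elim_inl, Sum.elim_inr, Subtype.mk.injEq] at h
      exact absurd (congrFun h z) (by simp)
    · simp only [Sum.elim_inr, Subtype.mk.injEq] at h
      exact congrArg _ (Subtype.ext (funext fun a => Sum.inr_injective (congrFun h a)))
  · rintro ⟨f, hf⟩
    cases hfz : f z with
    | inl y =>
      have : ∀ a, ∃ y, f a = .inl y := fun a => by
        have := hf z a (hz a)
        rw [hfz] at this
        cases h : f a with
        | inl y => exact ⟨y, rfl⟩
        | inr y => rw [h] at this; cases this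
      choose g hg using this
      refine ⟨.inl ⟨g, fun a b h => ?_⟩, Subtype.ext (funext fun a => (hg a).symm)⟩
      have := hf a b h
      rw [hg, hg] at this
      simpa using this
    | inr y =>
      have : ∀ a, ∃ y, f a = .inr y := fun a => by
        have := hf z a (hz a)
        rw [hfz] at this
        cases h : f a with
        | inr y => exact ⟨y, rfl⟩
        | inl y => rw [h] at this; cases this
      choose g hg using this
      refine ⟨.inr ⟨g, fun a b h => ?_⟩, Subtype.ext (funext fun a => (hg a).symm)⟩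
      have := hf a b h
      rw [hg, hg] at this
      simpa using this

def bl (a b : Bool) : Prop := a = true → b = true

theorem homc_bool (s : Y → Y → Prop) (hs : ∀ a, s a a) :
    homc bl s = Nat.card {p : Y × Y // s p.1 p.2} :=
  Nat.card_congr
    { toFun := fun f => ⟨(f.1 false, f.1 true), f.2 _ _ (by simp [bl])⟩
      invFun := fun p => ⟨fun b => bif b then p.1.2 else p.1.1, fun a b h => by
        cases a <;> cases b
        · exact hs _
        · exact p.2
        · simp [bl] at h
        · exact hs _⟩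
      left_inv := fun f => Subtype.ext (funext fun a => by cases a <;> rfl)
      right_inv := fun p => rfl }

/-- adding a least element -/
def bot (r : X → X → Prop) : Option X → Option X → Prop
  | none, _ => True
  | some _, none => False
  | some a, some b => r a b

theorem homc_bot [Finite X] (r : X → X → Prop) : homc (bot r) bl = homc r bl + 1 := by
  unfold homc
  rw [← Finite.card_option]
  refine (Nat.card_congr (Equiv.ofBijective (fun o => Option.elim o ⟨fun _ => true, fun _ _ _ h => h⟩
    fun f => ⟨fun a => a.elim false f.1, fun a b h => by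
      cases a <;> cases b
      · exact fun h => h
      · simp [bl]
      · exact h.elim
      · exact f.2 _ _ h⟩) ⟨?_, ?_⟩)).symm
  · rintro (_ | f) (_ | g) h
    · rfl
    · simp only [Option.elim, Subtype.mk.injEq] at h
      exact absurd (congrFun h none) (by simp)
    · simp only [Option.elim, Subtype.mk.injEq] at h
      exact absurd (congrFun h none) (by simp)
    · simp only [Option.elim, Subtype.mk.injEq] at h
      exact congrArg _ (Subtype.ext (funext fun a => congrFun h (some a)))
  · rintro ⟨f, hf⟩
    cases h : f none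
    · exact ⟨some ⟨fun a => f (some a), fun a b h => hf _ _ h⟩, Subtype.ext (funext fun a => by
        cases a
        · exact h.symm
        · rfl)⟩
    · exact ⟨none, Subtype.ext (funext fun a => (hf none a trivial h).symm)⟩

end

section
variable {L Md U : Type}

def r3 (lo : L → Md → Prop) (up : Md → U → Prop) : L ⊕ Md ⊕ U → L ⊕ Md ⊕ U → Prop
  | .inl a, .inl b => a = b
  | .inl a, .inr (.inl b) => lo a b
  | .inl a, .inr (.inr c) => ∃ b, lo a b ∧ up b c
  | .inr (.inl a), .inr (.inl b) => a = b
  | .inr (.inl b), .inr (.inr c) => up b c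
  | .inr (.inr a), .inr (.inr b) => a = b
  | .inr (.inr _), .inr (.inl _) => False
  | .inr _, .inl _ => False

noncomputable def w2 (t : Bool) (p : Prop) : ℕ := Nat.card {x : Bool // x = t → p}

theorem w2_pos (t : Bool) {p : Prop} (h : p) : w2 t p = 2 := by
  rw [w2, Nat.card_congr (Equiv.subtypeUnivEquiv fun _ _ => h)]; simp

theorem w2_neg (t : Bool) {p : Prop} (h : ¬ p) : w2 t p = 1 := by
  rw [w2, Nat.card_eq_one_iff_unique]
  refine ⟨⟨fun a b => Subtype.ext ?_⟩, ⟨⟨!t, fun h => by simp at h⟩⟩⟩
  have h1 : a.1 ≠ t := fun e => h (a.2 e)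
  have h2 : b.1 ≠ t := fun e => h (b.2 e)
  revert h1 h2
  cases a.1 <;> cases b.1 <;> cases t <;> simp

theorem homc_r3 [Fintype L] [Fintype Md] [Fintype U] [DecidableEq Md] [DecidableEq L]
    [DecidableEq U] (lo : L → Md → Prop) (up : Md → U → Prop) :
    homc (r3 lo up) bl = ∑ τ : Md → Bool, (∏ a, w2 true (∀ b, lo a b → τ b = true)) *
      ∏ c, w2 false (∀ b, up b c → τ b = false) := by
  have e : {f : L ⊕ Md ⊕ U → Bool // ∀ a b, r3 lo up a b → bl (f a) (f b)} ≃
      Σ τ : Md → Bool, (∀ a, {x : Bool // x = true → ∀ b, lo a b → τ b = true}) ×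
        (∀ c, {x : Bool // x = false → ∀ b, up b c → τ b = false}) :=
    { toFun := fun f => ⟨fun b => f.1 (.inr (.inl b)),
        fun a => ⟨f.1 (.inl a), fun h b hb => f.2 (.inl a) (.inr (.inl b)) hb h⟩,
        fun c => ⟨f.1 (.inr (.inr c)), fun h b hb => by
          have := f.2 (.inr (.inl b)) (.inr (.inr c)) hb
          rw [h] at this
          simpa [bl] using this⟩⟩
      invFun := fun p => ⟨Sum.elim (fun a => (p.2.1 a).1) (Sum.elim p.1 fun c => (p.2.2 c).1), by
        have k : ∀ b c, up b c → bl (p.1 b) (p.2.2 c).1 := fun b c h h1 => by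
          cases h2 : (p.2.2 c).1
          · rw [(p.2.2 c).2 h2 b h] at h1; exact h1
          · rfl
        rintro (a | a | a) (b | b | b) h
        · cases h; exact id
        · exact fun h1 => (p.2.1 a).2 h1 b h
        · obtain ⟨c, h1, h2⟩ := h
          exact fun h3 => k c b h2 ((p.2.1 a).2 h3 c h1)
        · exact h.elim
        · cases h; exact id
        · exact k a b h
        · exact h.elim
        · exact h.elim
        · cases h; exact id⟩
      left_inv := fun f => Subtype.ext (funext fun a => by rcases a with a | a | a <;> rfl)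
      right_inv := fun p => rfl }
  rw [homc, Nat.card_congr e, Nat.card_sigma]
  simp only [Nat.card_prod, Nat.card_pi, w2]

theorem r3_refl (lo : L → Md → Prop) (up : Md → U → Prop) (a : L ⊕ Md ⊕ U) : r3 lo up a a := by
  rcases a with a | a | a <;> rfl

theorem r3_anti (lo : L → Md → Prop) (up : Md → U → Prop) (a b : L ⊕ Md ⊕ U) (h : r3 lo up a b)
    (h' : r3 lo up b a) : a = b := by
  rcases a with a | a | a <;> rcases b with b | b | b <;> simp_all [r3]

theorem r3_trans (lo : L → Md → Prop) (up : Md → U → Prop) (a b c : L ⊕ Md ⊕ U)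
    (h : r3 lo up a b) (h' : r3 lo up b c) : r3 lo up a c := by
  rcases a with a | a | a <;> rcases b with b | b | b <;> rcases c with c | c | c <;>
    simp_all [r3]
  exact ⟨b, h, h'⟩

end

def ext2 (p : Cnf) : List (List Lit) := p.2 ++ (List.range p.1).map fun v => [(v, true), (v, false)]

def lo (M k : ℕ) (a : Fin M × Fin k) (b : Fin M × Bool) : Prop := a.1 = b.1
def up (M k : ℕ) (ψ : List (List Lit)) (b : Fin M × Bool) (c : Fin ψ.length × Fin k) : Prop :=
  ((b.1 : ℕ), b.2) ∈ ψ.getD c.1 []

theorem cnt_le (p : Cnf) : cntSAT p ≤ 2 ^ p.1 := by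
  refine (Finite.card_subtype_le _).trans (by simp)

theorem homc_mod (p : Cnf) (hp : WF p) (k : ℕ) :
    homc (r3 (lo p.1 k) (up p.1 k (ext2 p))) bl ≡ cntSAT p [MOD 2 ^ k] := by
  classical
  let good : (Fin p.1 × Bool → Bool) → Prop := fun τ =>
    (∀ v, ¬ ∀ b : Fin p.1 × Bool, v = b.1 → τ b = true) ∧
      ∀ c : Fin (ext2 p).length, ¬ ∀ b : Fin p.1 × Bool, ((b.1 : ℕ), b.2) ∈ (ext2 p).getD c [] →
        τ b = false
  have h1 : cntSAT p = ∑ τ : Fin p.1 × Bool → Bool, if good τ then 1 else 0 := by
    rw [Finset.sum_boole, Nat.cast_id, ← Fintype.card_subtype, ← Nat.card_eq_fintype_card, cntSAT]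
    refine Nat.card_congr (Equiv.ofBijective (fun σ => ⟨fun b => σ.1 b.1 == b.2, fun v h => ?_,
      fun c h => ?_⟩) ⟨?_, ?_⟩)
    · have := h (v, !σ.1 v) rfl
      simp at this
    · have hc : (ext2 p).getD c [] ∈ ext2 p := by
        rw [List.getD_eq_getElem _ _ c.2]; exact List.getElem_mem _
      rcases List.mem_append.1 hc with hc | hc
      · obtain ⟨l, hl, hs⟩ := σ.2 _ hc
        have := h (⟨l.1, hp _ hc l hl⟩, l.2) hl
        simp only [ext, hp _ hc l hl, dite_true] at hs
        simp [hs] at this
      · obtain ⟨v, hv, e⟩ := List.mem_map.1 hc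
        have hv := List.mem_range.1 hv
        have := h (⟨v, hv⟩, σ.1 ⟨v, hv⟩) (by rw [← e]; cases σ.1 ⟨v, hv⟩ <;> simp)
        simp at this
    · intro σ σ' h
      refine Subtype.ext (funext fun v => ?_)
      have := congrFun (congrArg Subtype.val h) (v, true)
      simpa using this
    · rintro ⟨τ, g1, g2⟩
      have g3 : ∀ c ∈ ext2 p, ∃ b : Fin p.1 × Bool, ((b.1 : ℕ), b.2) ∈ c ∧ τ b = true := by
        intro c hc
        obtain ⟨i, hi, rfl⟩ := List.getElem_of_mem hc
        have := g2 ⟨i, hi⟩
        push Not at this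
        obtain ⟨b, h1, h2⟩ := this
        rw [List.getD_eq_getElem _ _ hi] at h1
        exact ⟨b, h1, by simpa using h2⟩
      have g4 : ∀ b : Fin p.1 × Bool, (τ (b.1, true) == b.2) = τ b := by
        rintro ⟨v, b⟩
        obtain ⟨⟨w, d⟩, h1, h2⟩ := g3 [(v, true), (v, false)] (List.mem_append_right _
          (List.mem_map.2 ⟨v, List.mem_range.2 v.2, rfl⟩))
        have h3 := g1 v
        push Not at h3
        obtain ⟨⟨u, d'⟩, h4, h5⟩ := h3
        simp only at h4
        subst h4
        have h6 : w = v := by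
          simp only [List.mem_cons, Prod.mk.injEq, List.not_mem_nil, or_false] at h1
          exact Fin.ext (by tauto)
        subst h6
        cases b <;> cases d <;> cases d' <;> simp_all
      refine ⟨⟨fun v => τ (v, true), fun c hc => ?_⟩, Subtype.ext (funext g4)⟩
      obtain ⟨b, h1, h2⟩ := g3 c (List.mem_append_left _ hc)
      refine ⟨_, h1, ?_⟩
      rw [← g4] at h2
      simpa [ext] using h2
  rw [homc_r3, h1]
  refine Nat.ModEq.sum fun τ _ => ?_
  simp only [lo, up, Fintype.prod_prod_type, Finset.prod_const, Finset.card_univ, Fintype.card_fin]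
  by_cases hg : good τ
  · rw [if_pos hg, Finset.prod_eq_one fun v _ => by rw [w2_neg _ (hg.1 v), one_pow],
      Finset.prod_eq_one fun c _ => by rw [w2_neg _ (hg.2 c), one_pow], mul_one]
  · rw [if_neg hg]
    refine (Nat.modEq_zero_iff_dvd).2 ?_
    rcases not_and_or.1 hg with h | h
    · push Not at h
      obtain ⟨v, hv⟩ := h
      refine Dvd.dvd.mul_right (dvd_trans ?_ (Finset.dvd_prod_of_mem _ (Finset.mem_univ v))) _
      rw [w2_pos _ hv]
    · push Not at h
      obtain ⟨c, hc⟩ := h
      refine Dvd.dvd.mul_left (dvd_trans ?_ (Finset.dvd_prod_of_mem _ (Finset.mem_univ c))) _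
      rw [w2_pos _ hc]

end Pool.Agent.H25.SP
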