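import Mathlib

/-! Closure under infinitary operations, and the Erdos-Rado theorem for pairs. -/

set_option autoImplicit false

namespace Pool.Agent.H25.ErdosRado

open Cardinal Set

universe u

theorem exists_seg {μ ν : Cardinal.{u}} (h : ν < μ) : ∃ i : μ.ord.ToType, #(Iio i) = ν := by
  have h1 : ν.ord < Ordinal.type (α := μ.ord.ToType) (· < ·) := by
    rw [Ordinal.type_toType]; exact ord_lt_ord.2 h
  refine ⟨Ordinal.enum (· < ·) ⟨ν.ord, h1⟩, ?_⟩
  have h2 := Ordinal.card_typein (r := fun a b : μ.ord.ToType => a < b)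
    (Ordinal.enum (· < ·) ⟨ν.ord, h1⟩)
  rw [Ordinal.typein_enum, card_ord] at h2
  exact h2.symm

theorem seg_lt {μ : Cardinal.{u}} (i : μ.ord.ToType) : #(Iio i) < μ := mk_Iio_toType_ord_lt i

theorem exists_enum {X : Type u} {μ : Cardinal.{u}} (A : Set X) (h : #A < μ) :
    ∃ (i : μ.ord.ToType) (f : Iio i → X), range f = A := by
  obtain ⟨i, hi⟩ := exists_seg h
  obtain ⟨e⟩ := Cardinal.eq.1 hi
  refine ⟨i, fun b => (e b : X), ?_⟩
  ext x
  constructor
  · rintro ⟨b, rfl⟩; exact (e b).2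
  · intro hx; exact ⟨e.symm ⟨x, hx⟩, by simp⟩

theorem count {X : Type u} {θ μ : Cardinal.{u}} (h0 : ℵ₀ ≤ θ) (hμ : μ ≤ θ)
    (hp : ∀ ν < μ, θ ^ ν ≤ θ) (U : Set X) (hU : #U ≤ θ) :
    #{A : Set X // A ⊆ U ∧ #A < μ} ≤ θ := by
  have h1 : #{A : Set X // A ⊆ U ∧ #A < μ} ≤ #(Σ i : μ.ord.ToType, (Iio i → U)) := by
    have : ∀ A : {A : Set X // A ⊆ U ∧ #A < μ}, ∃ p : (Σ i : μ.ord.ToType, (Iio i → U)),
        range (fun b => (p.2 b : X)) = A.1 := by
      intro A
      obtain ⟨i, f, hf⟩ := exists_enum A.1 A.2.2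
      exact ⟨⟨i, fun b => ⟨f b, A.2.1 (hf ▸ mem_range_self b)⟩⟩, hf⟩
    choose p hp using this
    exact mk_le_of_injective (f := p) fun A B h => Subtype.ext (by rw [← hp A, ← hp B, h])
  refine h1.trans ?_
  rw [mk_sigma]
  refine (sum_le_sum _ (fun _ => θ) fun i => ?_).trans ?_
  · rw [← power_def]
    exact (power_le_power_right hU).trans (hp _ (seg_lt i))
  · rw [sum_const', mk_ord_toType]
    exact (mul_le_mul_left hμ θ).trans (mul_eq_self h0).le

theorem closure {X : Type u} {θ μ : Cardinal.{u}} (h0 : ℵ₀ ≤ θ) (hμ : μ ≤ θ)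
    (hp : ∀ ν < μ, θ ^ ν ≤ θ) (F : Set X → Set X) (hF : ∀ A : Set X, #A < μ → #(F A) ≤ θ) :
    ∃ U : Set X, #U ≤ θ ∧ (∀ x ∈ U, ∃ A : Set X, #A < μ ∧ x ∈ F A) ∧
      ∀ A ⊆ U, #A < μ → F A ⊆ U := by
  classical
  have hg : ∀ A : Set X, ∃ g : θ.out → Option X, #A < μ →
      (∀ x ∈ F A, ∃ k, g k = some x) ∧ ∀ k x, g k = some x → x ∈ F A := by
    intro A
    by_cases h : #A < μ
    · obtain ⟨e⟩ := (Cardinal.le_def _ _).1 ((hF A h).trans (mk_out θ).ge)
      refine ⟨fun k => if h : ∃ x, e x = k then some (h.choose : X) else none, fun _ => ⟨?_, ?_⟩⟩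
      · intro x hx
        refine ⟨e ⟨x, hx⟩, ?_⟩
        have h' : ∃ y, e y = e ⟨x, hx⟩ := ⟨_, rfl⟩
        simp only [dif_pos h']
        rw [e.injective h'.choose_spec]
      · intro k x hk
        by_cases h' : ∃ y, e y = k
        · simp only [dif_pos h', Option.some.injEq] at hk
          exact hk ▸ h'.choose.2
        · simp only [dif_neg h'] at hk
          exact absurd hk (by simp)
    · exact ⟨fun _ => none, fun h' => absurd h' h⟩
  choose g hg using hg
  let β : μ.ord.ToType × θ.out → Type u := fun p => Iio p.1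
  let ev : WType β → Option X := WType.elim (Option X)
    (fun p => g {x | ∃ b, p.2 b = some x} p.1.2)
  have hev : ∀ (p : μ.ord.ToType × θ.out) (f : β p → WType β),
      ev (WType.mk p f) = g {x | ∃ b, ev (f b) = some x} p.2 := fun _ _ => rfl
  have hsm : ∀ (i : μ.ord.ToType) (f : Iio i → Option X), #{x | ∃ b, f b = some x} < μ := by
    intro i f
    refine lt_of_le_of_lt ?_ (seg_lt i)
    exact mk_le_of_injective (f := fun x : {x | ∃ b, f b = some x} => x.2.choose)
      fun x y h => Subtype.ext (Option.some.inj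
        (x.2.choose_spec.symm.trans ((congrArg f h).trans y.2.choose_spec)))
  have hW : #(WType β) ≤ θ := by
    apply WType.cardinalMk_le_of_le
    refine (sum_le_sum _ (fun _ => θ) fun p : μ.ord.ToType × θ.out => hp _ (seg_lt p.1)).trans ?_
    rw [sum_const', mk_prod, lift_id, lift_id, mk_ord_toType, mk_out]
    calc μ * θ * θ ≤ θ * θ * θ := by gcongr
      _ = θ := by rw [mul_eq_self h0, mul_eq_self h0]
  refine ⟨{x | ∃ t, ev t = some x}, ?_, ?_, ?_⟩
  · refine le_trans ?_ hW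
    exact mk_le_of_injective (f := fun x : {x | ∃ t, ev t = some x} => x.2.choose)
      fun x y h => Subtype.ext (Option.some.inj
        (x.2.choose_spec.symm.trans ((congrArg ev h).trans y.2.choose_spec)))
  · rintro x ⟨⟨p, f⟩, ht⟩
    rw [hev] at ht
    exact ⟨_, hsm p.1 (fun b => ev (f b)), (hg _ (hsm p.1 (fun b => ev (f b)))).2 _ _ ht⟩
  · intro A hA hc x hx
    obtain ⟨i, f, hf⟩ := exists_enum A hc
    have : ∀ b, ∃ t, ev t = some (f b) := fun b => hA (hf ▸ mem_range_self b)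
    choose t ht using this
    obtain ⟨k, hk⟩ := (hg A hc).1 x hx
    refine ⟨WType.mk (i, k) t, ?_⟩
    rw [hev, ← hk]
    congr 1
    ext y
    simp only [mem_ofPred_eq, ht, Option.some.injEq]
    rw [← hf]
    rfl

/-- Erdos-Rado: `(2^κ)^+ → (κ^+)^2_κ`, for colourings of ordered pairs. -/
theorem erdos_rado {X K : Type u} {κ : Cardinal.{u}} (h0 : ℵ₀ ≤ κ) (hK : #K ≤ κ)
    (hX : 2 ^ κ < #X) (c : X → X → K) :
    ∃ (x : (Order.succ κ).ord.ToType → X) (H : Set (Order.succ κ).ord.ToType) (k : K),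
      Function.Injective x ∧ #H = Order.succ κ ∧ ∀ i ∈ H, ∀ j ∈ H, i < j → c (x i) (x j) = k := by
  classical
  have hκ : κ < 2 ^ κ := cantor κ
  have hpow : ∀ ν < Order.succ κ, (2 ^ κ) ^ ν ≤ (2 : Cardinal) ^ κ := by
    intro ν hν
    rw [← power_mul]
    exact power_le_power_left two_ne_zero
      ((mul_le_mul_right (Order.lt_succ_iff.1 hν) κ).trans (mul_eq_self h0).le)
  have hw : ∀ (A : Set X) (t : A → K), ∃ y : X,
      (∃ z, z ∉ A ∧ ∀ a : A, c a z = t a) → y ∉ A ∧ ∀ a : A, c a y = t a := by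
    intro A t
    by_cases h : ∃ z, z ∉ A ∧ ∀ a : A, c a z = t a
    · exact ⟨h.choose, fun _ => h.choose_spec⟩
    · have : Nonempty X := mk_ne_zero_iff.1 (ne_of_gt (lt_of_le_of_lt zero_le hX))
      exact ⟨Classical.arbitrary X, fun h' => absurd h' h⟩
  choose w hw using hw
  obtain ⟨U, hU, -, hcl⟩ := closure (X := X) (θ := 2 ^ κ) (μ := Order.succ κ) (h0.trans hκ.le)
    (Order.succ_le_of_lt hκ) hpow (fun A => range (w A)) (by
      intro A hA
      refine mk_range_le.trans ?_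
      rw [← power_def]
      exact (power_le_power_right (hK.trans hκ.le)).trans (hpow _ hA))
  obtain ⟨δ, hδ⟩ : ∃ δ, δ ∉ U := by
    by_contra h
    push Not at h
    have : U = Set.univ := eq_univ_of_forall h
    rw [this, mk_univ] at hU
    exact absurd hX (not_lt.2 hU)
  let x : (Order.succ κ).ord.ToType → X := fun i => WellFounded.fix wellFounded_lt
    (fun i (f : ∀ j, j < i → X) => w (range fun j : Iio i => f j j.2) (fun a => c a δ)) i
  have hx : ∀ i, x i = w (range fun j : Iio i => x j) (fun a => c a δ) := fun i =>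
    WellFounded.fix_eq _ _ _
  have hxU : ∀ i, x i ∈ U := by
    intro i
    induction i using WellFoundedLT.induction with
    | ind i ih =>
      rw [hx]
      refine hcl _ ?_ (mk_range_le.trans_lt (seg_lt i)) (mem_range_self _)
      rintro _ ⟨j, rfl⟩
      exact ih j j.2
  have hxs : ∀ i j, j < i → x i ≠ x j ∧ c (x j) (x i) = c (x j) δ := by
    intro i j hj
    have := hw (range fun j : Iio i => x j) (fun a => c a δ)
      ⟨δ, fun ⟨j, h⟩ => hδ (h ▸ hxU j), fun _ => rfl⟩
    rw [← hx] at this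
    exact ⟨fun h => this.1 ⟨⟨j, hj⟩, h.symm⟩, this.2 ⟨x j, ⟨j, hj⟩, rfl⟩⟩
  obtain ⟨k, hk⟩ := Cardinal.infinite_pigeonhole_card (fun i => c (x i) δ) (Order.succ κ)
    (mk_ord_toType _).ge (h0.trans (Order.le_succ κ))
    (by rw [(isRegular_succ h0).cof_ord]; exact hK.trans_lt (Order.lt_succ κ))
  refine ⟨x, (fun i => c (x i) δ) ⁻¹' {k}, k, ?_, ?_, ?_⟩
  · intro i j h
    rcases lt_trichotomy i j with h' | h' | h'
    · exact absurd h.symm (hxs j i h').1
    · exact h'
    · exact absurd h (hxs i j h').1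
  · exact le_antisymm ((mk_set_le _).trans (mk_ord_toType _).le) hk
  · intro i hi j _ hij
    rw [(hxs j i hij).2]
    exact hi

end Pool.Agent.H25.ErdosRado
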