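import Pool.Agent.H11.PT3
import Pool.Agent.H25.FPTDefs

set_option autoImplicit false

namespace Pool.Agent.H25.FP
open Pool.Agent.H11.PT Polynomial

variable {α β γ : Type} [Enc α] [Enc β] [Enc γ]

/-- running time polynomial in a measure `μ` -/
def RM (μ : α → ℕ) (eb : β → List Bool) (f : α → β) : Prop :=
  ∃ (P : Pg) (q : ℕ[X]), ∀ x, Run P (cs (bits x) E) (cs (eb (f x)) E) (q.eval (μ x))

omit [Enc β] [Enc γ] in
theorem RM.comp {μ : α → ℕ} (hμ : ∀ x, sz x ≤ μ x) {eb : β → List Bool} {ec : γ → List Bool}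
    {f : β → γ} {g : α → β} (hf : RT eb ec f) (hg : RM μ eb g) : RM μ ec fun x => f (g x) := by
  obtain ⟨P, q, h⟩ := hf
  obtain ⟨P', q', h'⟩ := hg
  refine ⟨.seq P' P, q' + q.comp (X + q'), fun x => ((h' x).seq (h (g x))).mono ?_⟩
  simp only [eval_add, eval_comp, eval_X]
  have h1 := (h' x).len 0
  have h2 := hμ x
  simp only [cs, sz] at h1 h2
  have := ev_mono q (show (eb (g x)).length ≤ μ x + q'.eval (μ x) by omega)
  omega

theorem RM.fold {μ : α → ℕ} (hμ : ∀ x, sz x ≤ μ x) (g : γ → β → γ)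
    (hg : PT fun p : (β × List β) × γ => (p.1.2, g p.2 p.1.1)) {l : α → List β} {i : α → γ}
    (hp : PT fun x => (l x, i x)) (r : ℕ[X])
    (hr : ∀ x n, sz (((l x).take n).foldl g (i x)) ≤ r.eval (μ x)) :
    RM μ bits fun x => (l x).foldl g (i x) := by
  obtain ⟨u, hu⟩ := RT.out_len hp
  obtain ⟨P0, q0, h0⟩ := hp
  obtain ⟨P, q, h⟩ := hg
  refine ⟨.seq P0 (.seq (.pop 0) (.seq (.loop 0 (some false) (.seq (.push 0 true) (.seq P (.pop 0))))
    (.pop 0))), q0 + u * (q.comp (u + r) + C 3) + C 3, fun x => ?_⟩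
  have a0 := h0 x
  have hu' := (hu x).trans (ev_mono u (hμ x))
  have hq := ev_mono q0 (hμ x)
  simp only [bits_pair, List.length_cons, List.length_append] at hu'
  have a1 := loop_run g P q (fun b l c => h ((b, l), c)) ((u + r).eval (μ x)) (l x) (i x)
    (fun n => by have := hr x n; simp only [eval_add, sz] at this ⊢; omega)
  simp only [cs_E] at a0 ⊢
  refine (a0.seq ((pop0 _ _ _).seq (a1.seq (pop0 _ _ _)))).cast rfl rfl ?_
  simp only [eval_add, eval_mul, eval_comp, eval_C]
  have := len_le_bits (l x)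
  have h2 : (l x).length * (q.eval (u.eval (μ x) + r.eval (μ x)) + 3) ≤
      u.eval (μ x) * (q.eval (u.eval (μ x) + r.eval (μ x)) + 3) :=
    Nat.mul_le_mul_right _ (by omega)
  unfold sz at hq
  omega

theorem poly_bound (q : ℕ[X]) : ∃ c d : ℕ, ∀ a b, q.eval (a + b) ≤ c * (b + 1) ^ d * (a + 1) ^ d := by
  induction q using Polynomial.induction_on' with
  | add p q hp hq =>
    obtain ⟨c, d, h⟩ := hp
    obtain ⟨c', d', h'⟩ := hq
    refine ⟨c + c', d + d', fun a b => ?_⟩
    have k : ∀ c d e : ℕ, d ≤ e → c * (b + 1) ^ d * (a + 1) ^ d ≤ c * (b + 1) ^ e * (a + 1) ^ e :=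
      fun c d e h => by gcongr <;> omega
    have := (h a b).trans (k c d (d + d') (by omega))
    have := (h' a b).trans (k c' d' (d + d') (by omega))
    rw [eval_add, add_mul, add_mul]; omega
  | monomial n c =>
    refine ⟨c, n, fun a b => ?_⟩
    rw [eval_monomial, mul_assoc, ← mul_pow]
    gcongr
    nlinarith

theorem prim_pow : Primrec₂ ((· ^ ·) : ℕ → ℕ → ℕ) := Primrec₂.unpaired'.1 Nat.Primrec.pow

theorem RM.fpt {L : α → Prop} {κ : α → ℕ} {V : α → Bool} (F : ℕ → ℕ) (hF : Computable F)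
    (h : RM (fun x => sz x + F (κ x)) (fun b => [b]) V) (e : ∀ x, L x ↔ V x = true) : FPT L κ := by
  obtain ⟨P, q, h⟩ := h
  obtain ⟨c, d, hq⟩ := poly_bound q
  refine ⟨V, ⟨mach P, Equiv.refl Bool, Equiv.refl Bool⟩, fun k => c * (F k + 1) ^ d, d, ?_,
    fun x => ?_, e⟩
  · have h1 : Primrec fun y : ℕ => c * (y + 1) ^ d :=
      Primrec.nat_mul.comp (Primrec.const c) (prim_pow.comp Primrec.succ (Primrec.const d))
    exact h1.to_comp.comp hF
  obtain ⟨t0, ht, e⟩ := (h x).sim (N := bd P) (trn (bd P) P id none) le_rfl id none (fun _ => rfl)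
  have e1 : ∀ l : List Bool, List.map (Equiv.refl Bool).invFun l = l := fun l => List.map_id l
  have key : Turing.TM2OutputsInTime (mach P) (bits x) (some [V x])
      (c * (F (κ x) + 1) ^ d * ((bits x).length + 1) ^ d) := by
    refine ⟨⟨t0, ?_⟩, ht.trans (hq _ _)⟩
    have h1 : Turing.initList (mach P) (bits x) = cf (bd P) (some (ent P)) (cs (bits x) E) := by
      unfold Turing.initList cf
      congr 1
      funext j
      rw [cs_E_eq]
      split_ifs with h1 h2 h2
      · rfl
      · exact absurd h1 h2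
      · exact absurd h2 h1
      · rfl
    have h2 : Turing.haltList (mach P) [V x] = cf (bd P) none (cs [V x] E) := by
      unfold Turing.haltList cf
      congr 1
      funext j
      rw [cs_E_eq]
      split_ifs with h1 h2 h2
      · rfl
      · exact absurd h1 h2
      · exact absurd h2 h1
      · rfl
    rw [h1, Option.map_some, h2]
    exact e
  exact ⟨(e1 (bits x)).symm ▸ (e1 [V x]).symm ▸ key⟩

/-- FPT through padding: a polynomial-time test that is also given `2 ^ e x` in unary, where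
`e x` is bounded by a computable function of the parameter -/
theorem fpt_of_pad {L : α → Prop} {κ : α → ℕ} (e : α → ℕ) (he : PT e) (h : ℕ → ℕ)
    (hh : Computable h) (hb : ∀ x, e x ≤ h (κ x)) (W : α × ℕ → Bool) (hW : PT W)
    (hL : ∀ x, L x ↔ W (x, 2 ^ e x) = true) : FPT L κ := by
  have hμ : ∀ x, sz x ≤ sz x + 2 ^ h (κ x) := fun x => Nat.le_add_right _ _
  have k : ∀ (n : ℕ) (x : α) (c : ℕ), (List.replicate n ()).foldl
      (fun (s : α × ℕ) (_ : Unit) => (s.1, s.2 + s.2)) (x, c) = (x, 2 ^ n * c) := by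
    intro n
    induction n with
    | zero => simp
    | succ n ih => intro x c; rw [List.replicate_succ, List.foldl_cons, ih, pow_succ]; congr 1; ring
  have h1 := RM.fold hμ (fun (s : α × ℕ) (_ : Unit) => (s.1, s.2 + s.2)) (by fun_prop)
    (l := fun x => List.replicate (e x) ()) (i := fun x => (x, 1)) (by fun_prop) (C 2 * X + C 2)
    (fun x n => by
      rw [List.take_replicate, k]
      have : 2 ^ min n (e x) ≤ 2 ^ h (κ x) :=
        Nat.pow_le_pow_right (by omega) ((min_le_right _ _).trans (hb x))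
      simp only [sz_pair, sz_nat, eval_add, eval_mul, eval_C, eval_X]; omega)
  have h2 := RM.comp hμ (RT.comp (f := fun b => b) RT.boolOut hW) h1
  refine RM.fpt (fun k => 2 ^ h k) ((prim_pow.comp (Primrec.const 2) Primrec.id).to_comp.comp hh)
    h2 fun x => ?_
  rw [k, mul_one]; exact hL x

end Pool.Agent.H25.FP
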