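import Mathlib

/-! A countably independent family modified along a well-order so that nowhere dense sets are killed. -/

set_option autoImplicit false

namespace Pool.Agent.H25.Forced

open Set Cardinal

abbrev Cond (I : Type) := {p : Set I × Set I // p.1.Countable ∧ p.2.Countable ∧ Disjoint p.1 p.2}

variable {I A : Type}

def Ext (g : I → Prop) (p : Cond I) : Prop := (∀ i ∈ p.1.1, g i) ∧ ∀ i ∈ p.1.2, ¬ g i

theorem Ext.mono {g : I → Prop} {p q : Cond I} (h : p ≤ q) (hq : Ext g q) : Ext g p :=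
  ⟨fun i hi => hq.1 i (h.1 hi), fun i hi => hq.2 i (h.2 hi)⟩

theorem Ext.congr {g g' : I → Prop} {p : Cond I} (h : ∀ i ∈ p.1.1 ∪ p.1.2, g i ↔ g' i)
    (hq : Ext g p) : Ext g' p :=
  ⟨fun i hi => (h i (Or.inl hi)).1 (hq.1 i hi), fun i hi h' => hq.2 i hi ((h i (Or.inr hi)).2 h')⟩

theorem chain (p : Cond I) (R : ℕ → Cond I → Cond I → Prop) (h : ∀ n q, ∃ r, q ≤ r ∧ R n q r) :
    ∃ (x : ℕ → Cond I) (u : Cond I), x 0 = p ∧ (∀ n, R n (x n) (x (n + 1))) ∧ (∀ n, x n ≤ u) ∧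
      ∀ i ∈ u.1.1 ∪ u.1.2, ∃ n, i ∈ (x n).1.1 ∪ (x n).1.2 := by
  choose f h1 h2 using h
  let x : ℕ → Cond I := fun n => Nat.rec p f n
  have hx : Monotone x := monotone_nat_of_le_succ fun n => h1 n _
  refine ⟨x, ⟨(⋃ n, (x n).1.1, ⋃ n, (x n).1.2), countable_iUnion fun n => (x n).2.1,
    countable_iUnion fun n => (x n).2.2.1, ?_⟩, rfl, fun n => h2 n _, fun n =>
    ⟨subset_iUnion (fun n => (x n).1.1) n, subset_iUnion (fun n => (x n).1.2) n⟩, ?_⟩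
  · simp only [disjoint_iUnion_left, disjoint_iUnion_right]
    intro m n
    exact (x (max m n)).2.2.2.mono (hx (le_max_right m n)).1 (hx (le_max_left m n)).2
  · rintro i (hi | hi)
    · obtain ⟨n, hn⟩ := mem_iUnion.1 hi
      exact ⟨n, Or.inl hn⟩
    · obtain ⟨n, hn⟩ := mem_iUnion.1 hi
      exact ⟨n, Or.inr hn⟩

theorem closing [Nonempty I] (D : I → Cond I → Prop) (hD : ∀ i p, ∃ q, p ≤ q ∧ D i q)
    (hU : ∀ i p q, p ≤ q → D i p → D i q) (p : Cond I) :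
    ∃ q, p ≤ q ∧ ∀ i ∈ q.1.1 ∪ q.1.2, D i q := by
  have h1 : ∀ q : Cond I, ∃ r, q ≤ r ∧ ∀ i ∈ q.1.1 ∪ q.1.2, D i r := by
    intro q
    obtain ⟨e, he⟩ := countable_iff_exists_injOn.1 (q.2.1.union q.2.2.1)
    obtain ⟨x, u, h0, h1, h2, -⟩ := chain q
      (fun n _ r => D (Function.invFunOn e (q.1.1 ∪ q.1.2) n) r) (fun n q => hD _ q)
    refine ⟨u, h0 ▸ h2 0, fun i hi => hU i _ _ (h2 (e i + 1)) ?_⟩
    have := h1 (e i)
    rwa [he.leftInvOn_invFunOn hi] at this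
  obtain ⟨x, u, h0, h2, h3, h4⟩ := chain p (fun _ q r => ∀ i ∈ q.1.1 ∪ q.1.2, D i r)
    (fun _ q => h1 q)
  refine ⟨u, h0 ▸ h3 0, fun i hi => ?_⟩
  obtain ⟨n, hn⟩ := h4 i hi
  exact hU i _ _ (h3 (n + 1)) (h2 n i hn)

def ND (F : Set A) (g : A → I → Prop) : Prop := ∀ p, ∃ q, p ≤ q ∧ ∀ a ∈ F, ¬ Ext (g a) q

theorem modify [Nonempty I] [LinearOrder I] [WellFoundedLT I] (b : A → I → Prop)
    (hb : ∀ p, ∃ a, Ext (b a) p) (F : I → Set A) :
    ∃ c : A → I → Prop, (∀ p, ∃ a, Ext (c a) p) ∧ ∀ i, ND (F i) c → ∀ a ∈ F i, ¬ c a i := by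
  let act : I → Prop := (wellFounded_lt (α := I)).fix fun i r =>
    ND (F i) fun a j => b a j ∧ ¬ ∃ h : j < i, r j h ∧ a ∈ F j
  have hact : ∀ i, act i ↔ ND (F i) fun a j => b a j ∧ ¬ (j < i ∧ act j ∧ a ∈ F j) := by
    intro i
    simp only [act]
    rw [WellFounded.fix_eq]
    simp only [exists_prop]
  have key : ∀ p, ∃ q, p ≤ q ∧ ∀ (G : I → Prop) (a : A), (∀ i j, ¬ G i → G j → j < i) →
      Ext (fun j => b a j ∧ ¬ (G j ∧ act j ∧ a ∈ F j)) q →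
      Ext (fun j => b a j ∧ ¬ (act j ∧ a ∈ F j)) q := by
    intro p
    obtain ⟨q, h1, h2⟩ := closing (fun i q => act i → ∀ a ∈ F i,
      ¬ Ext (fun j => b a j ∧ ¬ (j < i ∧ act j ∧ a ∈ F j)) q) (fun i p => by
        by_cases h : act i
        · obtain ⟨q, h1, h2⟩ := (hact i).1 h p
          exact ⟨q, h1, fun _ => h2⟩
        · exact ⟨p, le_rfl, fun h' => absurd h' h⟩)
      (fun i p q hpq h h1 a ha h2 => h h1 a ha (h2.mono hpq)) p
    refine ⟨q, h1, fun G a hG ha => ?_⟩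
    have h3 : ∀ i, i ∈ q.1.1 ∪ q.1.2 → ¬ G i → ¬ (act i ∧ a ∈ F i) := by
      intro i
      induction i using WellFoundedLT.induction with
      | ind i ih =>
        rintro hi hGi ⟨h4, h5⟩
        refine h2 i hi h4 a h5 (ha.congr fun j hj => and_congr_right fun _ => not_congr ?_)
        exact ⟨fun h => ⟨hG i j hGi h.1, h.2⟩, fun h => ⟨not_not.1 fun h' => ih j h.1 hj h' h.2, h.2⟩⟩
    exact ha.congr fun j hj => and_congr_right fun _ => not_congr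
      ⟨fun h => h.2, fun h => ⟨not_not.1 fun h' => h3 j hj h' h, h⟩⟩
  refine ⟨fun a j => b a j ∧ ¬ (act j ∧ a ∈ F j), fun p => ?_, fun i hi a ha h => h.2 ⟨?_, ha⟩⟩
  · obtain ⟨q, h1, h2⟩ := key p
    obtain ⟨a, ha⟩ := hb q
    exact ⟨a, (h2 (fun _ => False) a (by simp) (by simpa using ha)).mono h1⟩
  · refine (hact i).2 fun p => ?_
    obtain ⟨p', h1, h2⟩ := hi p
    obtain ⟨q, h3, h4⟩ := key p'
    exact ⟨q, h1.trans h3, fun a ha h5 => h2 a ha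
      ((h4 (· < i) a (fun j k hj hk => hk.trans_le (not_lt.1 hj)) h5).mono h3)⟩

theorem indep : ∃ b : Set (Set ℕ) → Set (Set (Set ℕ)) → Prop, ∀ p, ∃ a, Ext (b a) p := by
  obtain ⟨e⟩ : Nonempty (Set (Set ℕ) ≃ (ℕ → Set (Set ℕ)) × Set (Set ℕ)) := by
    rw [← Cardinal.eq]
    simp [← power_mul]
    exact (mul_eq_self (aleph0_le_continuum.trans (cantor _).le)).symm
  refine ⟨fun a X => (e a).1 ⁻¹' X ∈ (e a).2, fun p => ?_⟩
  have h1 : ∀ q : Set (Set (Set ℕ)) × Set (Set (Set ℕ)), ∃ z, q.1 ≠ q.2 → ¬ (z ∈ q.1 ↔ z ∈ q.2) := by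
    intro q
    by_cases h : q.1 = q.2
    · exact ⟨∅, fun h' => absurd h h'⟩
    · obtain ⟨z, hz⟩ := not_forall.1 fun h' => h (Set.ext h')
      exact ⟨z, fun _ => hz⟩
  choose z hz using h1
  obtain ⟨s, hs⟩ := (((p.2.1.prod p.2.2.1).image z).insert ∅).exists_eq_range (insert_nonempty _ _)
  refine ⟨e.symm (s, (fun X => s ⁻¹' X) '' p.1.1), fun X hX => ?_, fun Y hY => ?_⟩
  · simp only [Equiv.apply_symm_apply]
    exact ⟨X, hX, rfl⟩
  · simp only [Equiv.apply_symm_apply]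
    rintro ⟨X, hX, h⟩
    obtain ⟨n, hn⟩ : z (X, Y) ∈ range s := hs ▸ Or.inr ⟨(X, Y), ⟨hX, hY⟩, rfl⟩
    refine hz (X, Y) (fun h' => disjoint_left.1 p.2.2.2 hX ((show X = Y from h') ▸ hY)) ?_
    rw [← hn]
    exact Set.ext_iff.1 h n

/-- the countably supported box topology on a set of two-valued functions -/
@[reducible] def box (Z : Set (I → Prop)) : TopologicalSpace Z where
  IsOpen U := ∀ z ∈ U, ∃ s : Set I, s.Countable ∧ ∀ w : Z, (∀ i ∈ s, w.1 i ↔ z.1 i) → w ∈ U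
  isOpen_univ _ _ := ⟨∅, countable_empty, fun _ _ => trivial⟩
  isOpen_inter U V hU hV z hz := by
    obtain ⟨s, h1, h2⟩ := hU z hz.1
    obtain ⟨t, h3, h4⟩ := hV z hz.2
    exact ⟨s ∪ t, h1.union h3, fun w hw =>
      ⟨h2 w fun i hi => hw i (Or.inl hi), h4 w fun i hi => hw i (Or.inr hi)⟩⟩
  isOpen_sUnion S hS z hz := by
    obtain ⟨U, h1, h2⟩ := hz
    obtain ⟨s, h3, h4⟩ := hS U h1 z h2
    exact ⟨s, h3, fun w hw => ⟨U, h1, h4 w hw⟩⟩

theorem box_clopen (Z : Set (I → Prop)) (s : Set I) (hs : s.Countable) (f : I → Prop) :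
    @IsClopen Z (box Z) {w | ∀ i ∈ s, w.1 i ↔ f i} := by
  let _ := box Z
  refine ⟨⟨fun z hz => ⟨s, hs, fun w hw h => hz fun i hi => (hw i hi).symm.trans (h i hi)⟩⟩,
    fun z hz => ⟨s, hs, fun w hw i hi => (hw i hi).trans (hz i hi)⟩⟩

theorem box_t3 (Z : Set (I → Prop)) : @T3Space Z (box Z) := by
  let _ := box Z
  have h1 : RegularSpace Z := by
    refine RegularSpace.of_exists_mem_nhds_isClosed_subset fun z U hU => ?_
    obtain ⟨V, h1, h2, h3⟩ := mem_nhds_iff.1 hU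
    obtain ⟨s, h4, h5⟩ := h2 z h3
    exact ⟨_, (box_clopen Z s h4 z.1).2.mem_nhds fun _ _ => Iff.rfl, (box_clopen Z s h4 z.1).1,
      fun w hw => h1 (h5 w hw)⟩
  have h2 : T0Space Z := ⟨fun a b h => Subtype.ext (funext fun i => propext ?_)⟩
  · exact ⟨⟩
  · have := inseparable_iff_forall_isOpen.1 h _ (box_clopen Z {i} (countable_singleton i) a.1).2
    exact ((this.1 fun _ _ => Iff.rfl) i rfl).symm

theorem box_P (Z : Set (I → Prop)) (U : ℕ → Set Z) (h : ∀ n, @IsOpen Z (box Z) (U n)) :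
    @IsOpen Z (box Z) (⋂ n, U n) := by
  intro z hz
  choose s h1 h2 using fun n => h n z (mem_iInter.1 hz n)
  exact ⟨⋃ n, s n, countable_iUnion h1, fun w hw =>
    mem_iInter.2 fun n => h2 n w fun i hi => hw i (mem_iUnion.2 ⟨n, hi⟩)⟩

theorem main : ∃ (X : Type) (_ : TopologicalSpace X), T3Space X ∧
      (∀ U : ℕ → Set X, (∀ n, IsOpen (U n)) → IsOpen (⋂ n, U n)) ∧
      ¬ (∀ A : Set X, ¬ IsClosed A →
          ∃ D : Set X, D ⊆ A ∧ DiscreteTopology D ∧ (closure D \ A).Nonempty) := by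
  obtain ⟨b, hb⟩ := indep
  obtain ⟨c, h1, h2⟩ := @modify _ _ _ (IsWellOrder.linearOrder WellOrderingRel)
    ⟨(inferInstance : IsWellOrder _ WellOrderingRel).wf⟩ b hb id
  have hI : ∀ s : Set (Set (Set (Set ℕ))), s.Countable → ∃ j, j ∉ s := fun s hs => by
    by_contra hh
    push Not at hh
    have h3 := mk_le_aleph0_iff.2 (countable_univ_iff.1 (hs.mono fun r _ => hh r))
    simp only [mk_set, mk_nat] at h3
    exact h3.not_gt ((cantor _).trans ((cantor _).trans (cantor _)))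
  let Z := insert (fun _ => True) (range c)
  let _ := box Z
  refine ⟨Z, box Z, box_t3 Z, box_P Z, fun h => ?_⟩
  obtain ⟨D, d1, d2, z, d3, d4⟩ := h {z | z.1 ≠ fun _ => True} (fun hc => by
    obtain ⟨s, a1, a2⟩ := hc.isOpen_compl ⟨_, mem_insert _ _⟩ (by simp)
    obtain ⟨j, hj⟩ := hI s a1
    obtain ⟨a, a3, a4⟩ := h1 ⟨(s, {j}), a1, countable_singleton j, disjoint_singleton_right.2 hj⟩
    refine a2 ⟨c a, Or.inr ⟨a, rfl⟩⟩ (fun i hi => iff_of_true (a3 i hi) trivial) fun h' => a4 j rfl ?_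
    rw [show c a = fun _ => True from h']
    trivial)
  have hz : z.1 = fun _ => True := not_not.1 d4
  let F : Set (Set (Set ℕ)) := {a | (⟨c a, Or.inr ⟨a, rfl⟩⟩ : Z) ∈ D}
  have hF := h2 F (fun p => by
    by_cases h : ∀ a ∈ F, ¬ Ext (c a) p
    · exact ⟨p, le_rfl, h⟩
    push Not at h
    obtain ⟨a, a1, a2⟩ := h
    obtain ⟨U, u1, u2⟩ := isOpen_induced_iff.1 (isOpen_discrete ({⟨_, a1⟩} : Set D))
    obtain ⟨s, s1, s2⟩ := u1 ⟨c a, Or.inr ⟨a, rfl⟩⟩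
      (show (⟨_, a1⟩ : D) ∈ Subtype.val ⁻¹' U from u2 ▸ rfl)
    have t1 := s1.union (p.2.1.union p.2.2.1)
    obtain ⟨j, hj⟩ := hI _ t1
    refine ⟨⟨({i | (i ∈ s ∪ (p.1.1 ∪ p.1.2) ∧ c a i) ∨ (i = j ∧ ¬ c a j)},
      {i | (i ∈ s ∪ (p.1.1 ∪ p.1.2) ∧ ¬ c a i) ∨ (i = j ∧ c a j)}),
      (t1.insert j).mono fun i hi => hi.elim (fun h => Or.inr h.1) (fun h => Or.inl h.1),
      (t1.insert j).mono fun i hi => hi.elim (fun h => Or.inr h.1) (fun h => Or.inl h.1),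
      disjoint_left.2 ?_⟩, ⟨fun i hi => Or.inl ⟨Or.inr (Or.inl hi), a2.1 i hi⟩,
      fun i hi => Or.inl ⟨Or.inr (Or.inr hi), a2.2 i hi⟩⟩, fun a' b1 b2 => ?_⟩
    · rintro i (h | ⟨rfl, h⟩) (h' | ⟨h', h''⟩)
      · exact h'.2 h.2
      · exact hj (h' ▸ h.1)
      · exact hj h'.1
      · exact h h''
    · have e1 : (⟨_, b1⟩ : D) ∈ Subtype.val ⁻¹' U := s2 _ fun i hi =>
        ⟨fun h => not_not.1 fun h' => b2.2 i (Or.inl ⟨Or.inl hi, h'⟩) h,
          fun h => b2.1 i (Or.inl ⟨Or.inl hi, h⟩)⟩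
      rw [u2] at e1
      have e2 : c a' = c a := congrArg (fun w : D => w.1.1) e1
      rw [e2] at b2
      by_cases h : c a j
      · exact b2.2 j (Or.inr ⟨rfl, h⟩) h
      · exact h (b2.1 j (Or.inr ⟨rfl, h⟩)))
  obtain ⟨w, w1, w2⟩ := mem_closure_iff.1 d3 _ (box_clopen Z {F} (countable_singleton _) z.1).2
    fun _ _ => Iff.rfl
  obtain ⟨_, rfl | ⟨a, rfl⟩⟩ := w
  · exact d1 w2 rfl
  · exact hF a w2 ((w1 F rfl).2 (by rw [hz]; trivial))

end Pool.Agent.H25.Forced
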