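import Mathlib

namespace Pool.Agent.H25.FreeQ
open Function Cardinal Quaternion

section Words
variable {R R' A : Type} [CommRing R] [CommRing R']

def Q (τ s : R) (ε : Bool) : ℍ[R] :=
  ⟨1 + s ^ 2, (cond ε τ (-τ)) * (1 - s ^ 2), (cond ε τ (-τ)) * (2 * s), 0⟩

def W (τ : R) (s : A → R) (L : List (A × Bool)) : ℍ[R] := (L.map fun p => Q τ (s p.1) p.2).prod

theorem W_cons (τ : R) (s : A → R) (a : A × Bool) (L : List (A × Bool)) :
    W τ s (a :: L) = Q τ (s a.1) a.2 * W τ s L := by simp [W]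

def qm (f : R →+* R') (q : ℍ[R]) : ℍ[R'] := ⟨f q.re, f q.imI, f q.imJ, f q.imK⟩

theorem qm_mul (f : R →+* R') (p q : ℍ[R]) : qm f (p * q) = qm f p * qm f q := by
  ext <;> simp [qm]

theorem qm_W (f : R →+* R') (τ : R) (s : A → R) (L : List (A × Bool)) :
    qm f (W τ s L) = W (f τ) (fun a => f (s a)) L := by
  induction L with
  | nil => ext <;> simp [qm, W]
  | cons a L ih =>
    rw [W_cons, W_cons, qm_mul, ih]
    congr 1
    rcases a with ⟨a, _ | _⟩ <;> ext <;> simp [qm, Q, map_ofNat]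

end Words

section Cx
open Complex

def act (q : ℍ[ℂ]) (v : ℂ × ℂ) : ℂ × ℂ :=
  ((q.re + I * q.imI) * v.1 + (q.imJ + I * q.imK) * v.2,
    (-q.imJ + I * q.imK) * v.1 + (q.re - I * q.imI) * v.2)

theorem act_mul (p q : ℍ[ℂ]) (v : ℂ × ℂ) : act (p * q) v = act p (act q v) := by
  ext <;> simp [act] <;> ring_nf <;> simp only [I_sq] <;> ring

def vec (s : ℂ) (ε : Bool) : ℂ × ℂ := cond ε (I * s, 1) (1, I * s)

def pr (s : ℂ) (ε : Bool) (v : ℂ × ℂ) : ℂ := cond ε (-(I * s) * v.1 + v.2) (v.1 - I * s * v.2)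

theorem act_Q (s : ℂ) (ε : Bool) (v : ℂ × ℂ) : act (Q I s ε) v = (2 * pr s ε v) • vec s ε := by
  cases ε <;> ext <;> simp [act, Q, vec, pr] <;> ring_nf <;> simp only [I_sq] <;> ring

theorem pr_smul (s z : ℂ) (ε : Bool) (v : ℂ × ℂ) : pr s ε (z • v) = z * pr s ε v := by
  cases ε <;> simp [pr] <;> ring

theorem pr_ne (s r : ℝ) (hs : 0 < s) (hr : 0 < r) (ε δ : Bool) (h : s = r → ε = δ) :
    pr s ε (vec r δ) ≠ 0 := by
  have h1 : ((1 + s * r : ℝ) : ℂ) ≠ 0 := by
    have : 0 < 1 + s * r := by positivity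
    exact_mod_cast this.ne'
  have h2 : ε ≠ δ → I * ((r - s : ℝ) : ℂ) ≠ 0 := fun hne =>
    mul_ne_zero I_ne_zero (by
      have : r - s ≠ 0 := fun e => hne (h (by linarith))
      exact_mod_cast this)
  cases ε <;> cases δ
  · intro e
    apply h1
    simp only [pr, vec, cond] at e
    push_cast
    linear_combination e + (s : ℂ) * r * I_sq
  · intro e
    apply h2 (by simp)
    simp only [pr, vec, cond] at e
    push_cast
    linear_combination e
  · intro e
    apply h2 (by simp)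
    simp only [pr, vec, cond] at e
    push_cast
    linear_combination e
  · intro e
    apply h1
    simp only [pr, vec, cond] at e
    push_cast
    linear_combination e + (s : ℂ) * r * I_sq

theorem W_ne {A : Type} (y : A → ℝ) (hy : ∀ a, 0 < y a) (hi : Injective y)
    (L : List (A × Bool)) : ∀ a : A × Bool, FreeGroup.IsReduced (a :: L) →
      ∃ (v : ℂ × ℂ) (z : ℂ), z ≠ 0 ∧ act (W I (fun a => (y a : ℂ)) (a :: L)) v = z • vec (y a.1) a.2 := by
  induction L with
  | nil =>
    intro a _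
    refine ⟨vec (y a.1) a.2, 2 * pr (y a.1) a.2 (vec (y a.1) a.2),
      mul_ne_zero two_ne_zero (pr_ne _ _ (hy _) (hy _) _ _ fun _ => rfl), ?_⟩
    rw [← act_Q]
    simp [W]
  | cons b L ih =>
    intro a h
    have h' : (a.1 = b.1 → a.2 = b.2) ∧ FreeGroup.IsReduced (b :: L) := List.isChain_cons_cons.1 h
    obtain ⟨v, z, hz, hv⟩ := ih b h'.2
    refine ⟨v, 2 * (z * pr (y a.1) a.2 (vec (y b.1) b.2)), mul_ne_zero two_ne_zero
      (mul_ne_zero hz (pr_ne _ _ (hy _) (hy _) _ _ fun e => h'.1 (hi e))), ?_⟩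
    rw [W_cons, act_mul, hv, act_Q, pr_smul]

theorem W_not_real {A : Type} (y : A → ℝ) (hy : ∀ a, 0 < y a) (hi : Injective y)
    (a : A × Bool) (L : List (A × Bool)) (h : FreeGroup.IsReduced (a :: L))
    (h1 : (W I (fun a => (y a : ℂ)) (a :: L)).imI = 0)
    (h2 : (W I (fun a => (y a : ℂ)) (a :: L)).imJ = 0)
    (h3 : (W I (fun a => (y a : ℂ)) (a :: L)).imK = 0) : False := by
  obtain ⟨v, z, hz, hv⟩ := W_ne y hy hi L a h
  have sc : ∀ v, act (W I (fun a => (y a : ℂ)) (a :: L)) v =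
      (W I (fun a => (y a : ℂ)) (a :: L)).re • v := by
    intro v
    ext <;> simp [act, h1, h2, h3]
  have r0 : (W I (fun a => (y a : ℂ)) (a :: L)).re = 0 := by
    have k := fun v => (sc v).symm.trans (by rw [W_cons, act_mul, act_Q])
    rcases a with ⟨a, _ | _⟩
    · have k1 := congrArg Prod.fst (k (0, 1))
      have k2 := congrArg Prod.snd (k (0, 1))
      simp only [vec, cond, Prod.smul_fst, Prod.smul_snd, smul_eq_mul, mul_zero, mul_one] at k1 k2
      rw [k2, ← k1, zero_mul]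
    · have k1 := congrArg Prod.fst (k (1, 0))
      have k2 := congrArg Prod.snd (k (1, 0))
      simp only [vec, cond, Prod.smul_fst, Prod.smul_snd, smul_eq_mul, mul_zero, mul_one] at k1 k2
      rw [k1, ← k2, zero_mul]
  rw [sc, r0, zero_smul] at hv
  rcases a with ⟨a, _ | _⟩
  · have := congrArg Prod.fst hv
    simp [vec] at this
    exact hz this.symm
  · have := congrArg Prod.snd hv
    simp [vec] at this
    exact hz this.symm

end Cx

theorem exists_indep (B : Type) (hB : #B ≤ 𝔠) : ∃ x : B → ℝ, AlgebraicIndependent ℚ x := by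
  obtain ⟨s, hs⟩ := exists_isTranscendenceBasis ℚ ℝ
  haveI := hs.isAlgebraic
  have h1 := Algebra.IsAlgebraic.cardinalMk_le_max
    (Algebra.adjoin ℚ (Set.range (Subtype.val : s → ℝ))) ℝ
  have h2 := Algebra.cardinalMk_adjoin_le ℚ (Set.range (Subtype.val : s → ℝ))
  have h3 : 𝔠 ≤ #s := by
    by_contra h
    have h4 : #s < 𝔠 := not_le.1 h
    rw [Subtype.range_coe, Cardinal.mkRat] at h2
    rw [Subtype.range_coe, Cardinal.mk_real] at h1
    have := h1.trans (max_le_max h2 le_rfl)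
    exact absurd this (not_le.2 (max_lt (max_lt (max_lt aleph0_lt_continuum h4)
      aleph0_lt_continuum) aleph0_lt_continuum))
  obtain ⟨e⟩ := (Cardinal.le_def _ _).1 (hB.trans h3)
  exact ⟨_, hs.1.comp e e.injective⟩

theorem exists_free (A : Type) (hA : #A ≤ 𝔠) : ∃ π : FreeGroup A →* ℍ[ℝ]ˣ,
    (∀ w, π w = 1 → w = 1) ∧ ∀ w, ‖(π w : ℍ[ℝ])‖ = 1 := by
  classical
  obtain ⟨x, hx⟩ := exists_indep (Option A) (by
    rw [Cardinal.mk_option]
    exact Cardinal.add_le_of_le aleph0_le_continuum hA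
      (one_le_aleph0.trans aleph0_le_continuum))
  obtain ⟨e⟩ := (Cardinal.le_def _ _).1 (hA.trans Cardinal.mk_real.ge)
  let q : A → Bool → ℍ[ℝ] := fun a ε => Q (x none) (x (some a)) ε
  have q0 : ∀ a, q a true ≠ 0 := by
    intro a h
    have h1 : (q a true).re = 0 := by rw [h]; rfl
    have h2 : (0 : ℝ) < 1 + x (some a) ^ 2 := by positivity
    exact h2.ne' h1
  have n0 : ∀ a, ‖q a true‖ ≠ 0 := fun a => norm_ne_zero_iff.2 (q0 a)
  have qs : ∀ a, q a false = star (q a true) := by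
    intro a
    ext <;> simp [q, Q]
  let u : A → ℍ[ℝ]ˣ := fun a => Units.mk0 (‖q a true‖⁻¹ • q a true)
    (smul_ne_zero (inv_ne_zero (n0 a)) (q0 a))
  have ui : ∀ a, ((u a)⁻¹ : ℍ[ℝ]ˣ) = ‖q a true‖⁻¹ • q a false := by
    intro a
    apply Units.inv_eq_of_mul_eq_one_right
    change (‖q a true‖⁻¹ • q a true) * _ = 1
    rw [qs, smul_mul_smul_comm, Quaternion.self_mul_star, Quaternion.normSq_eq_norm_mul_self,
      Quaternion.smul_coe]
    have := n0 a
    have e : ‖q a true‖⁻¹ * ‖q a true‖⁻¹ * (‖q a true‖ * ‖q a true‖) = 1 := by field_simp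
    rw [e]
    rfl
  have key : ∀ L : List (A × Bool), ∃ r : ℝ, W (x none) (fun a => x (some a)) L =
      r • (((L.map fun p => cond p.2 (u p.1) (u p.1)⁻¹).prod : ℍ[ℝ]ˣ) : ℍ[ℝ]) := by
    intro L
    induction L with
    | nil => exact ⟨1, by simp [W]⟩
    | cons a L ih =>
      obtain ⟨r, hr⟩ := ih
      refine ⟨‖q a.1 true‖ * r, ?_⟩
      rw [W_cons, hr, List.map_cons, List.prod_cons, Units.val_mul, ← smul_mul_smul_comm]
      congr 1
      rcases a with ⟨a, _ | _⟩
      · change q a false = ‖q a true‖ • (((u a)⁻¹ : ℍ[ℝ]ˣ) : ℍ[ℝ])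
        rw [ui, smul_inv_smul₀ (n0 a)]
      · change q a true = ‖q a true‖ • ‖q a true‖⁻¹ • q a true
        rw [smul_inv_smul₀ (n0 a)]
  refine ⟨FreeGroup.lift u, fun w hw => ?_, fun w => ?_⟩
  · rw [← FreeGroup.toWord_eq_nil_iff]
    have red : FreeGroup.IsReduced w.toWord := FreeGroup.isReduced_toWord
    rw [← FreeGroup.mk_toWord (x := w), FreeGroup.lift_mk] at hw
    obtain ⟨r, hr⟩ := key w.toWord
    rw [hw] at hr
    generalize w.toWord = L at red hr
    rcases L with _ | ⟨a, L⟩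
    · rfl
    exfalso
    let P : ℍ[MvPolynomial (Option A) ℚ] :=
      W (MvPolynomial.X none) (fun a => MvPolynomial.X (some a)) (a :: L)
    let f : MvPolynomial (Option A) ℚ →+* ℝ := (MvPolynomial.aeval x).toRingHom
    have hf : Injective f := hx
    have e1 : qm f P = r • (1 : ℍ[ℝ]) := by
      rw [qm_W]
      simpa [f] using hr
    have i1 : P.imI = 0 := hf (by simpa [qm] using congrArg QuaternionAlgebra.imI e1)
    have i2 : P.imJ = 0 := hf (by simpa [qm] using congrArg QuaternionAlgebra.imJ e1)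
    have i3 : P.imK = 0 := hf (by simpa [qm] using congrArg QuaternionAlgebra.imK e1)
    let g : MvPolynomial (Option A) ℚ →+* ℂ := (MvPolynomial.aeval
      fun o : Option A => o.elim Complex.I fun a => ((Real.exp (e a) : ℝ) : ℂ)).toRingHom
    have e2 : qm g P = W Complex.I (fun a => ((Real.exp (e a) : ℝ) : ℂ)) (a :: L) := by
      rw [qm_W]
      simp only [g, AlgHom.toRingHom_eq_coe, RingHom.coe_coe, MvPolynomial.aeval_X, Option.elim]
    refine W_not_real (fun a => Real.exp (e a)) (fun a => Real.exp_pos _)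
      (Real.exp_injective.comp e.injective) a L red ?_ ?_ ?_
    · rw [← e2]
      simp only [qm, i1, map_zero]
    · rw [← e2]
      simp only [qm, i2, map_zero]
    · rw [← e2]
      simp only [qm, i3, map_zero]
  · induction w using FreeGroup.induction_on with
    | C1 => simp
    | of a =>
      rw [FreeGroup.lift_apply_of]
      change ‖‖q a true‖⁻¹ • q a true‖ = 1
      rw [norm_smul, norm_inv, norm_norm, inv_mul_cancel₀ (n0 a)]
    | inv_of a h => rw [map_inv, Units.val_inv_eq_inv_val, norm_inv, h, inv_one]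
    | mul a b ha hb => rw [map_mul, Units.val_mul, norm_mul, ha, hb, one_mul]

end Pool.Agent.H25.FreeQ
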