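import Pool.Agent.H25.FreeQ

namespace Pool.Agent.H25.FreeQ
open Function Cardinal Quaternion

theorem exists_free2 (A B : Type) (hA : #A ≤ 𝔠) (hB : #B ≤ 𝔠) :
    ∃ (π : FreeGroup A →* ℍ[ℝ]ˣ) (p : B → Fin 3 → ℝ), (∀ w, ‖(π w : ℍ[ℝ])‖ = 1) ∧
    (∀ w b, (π w : ℍ[ℝ]) * ⟨0, p b 0, p b 1, p b 2⟩ = ⟨0, p b 0, p b 1, p b 2⟩ * π w → w = 1) ∧
    ∀ b : Fin 3 → B, Injective b → (Matrix.of fun i j => p (b i) j).det ≠ 0 := by
  classical
  obtain ⟨x, hx⟩ := exists_indep (Option A ⊕ B × Fin 3) (by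
    rw [Cardinal.mk_sum, Cardinal.lift_id, Cardinal.lift_id, Cardinal.mk_option, Cardinal.mk_prod,
      Cardinal.lift_id, Cardinal.lift_id]
    refine Cardinal.add_le_of_le aleph0_le_continuum (Cardinal.add_le_of_le aleph0_le_continuum hA
      (one_le_aleph0.trans aleph0_le_continuum)) ?_
    exact (mul_le_mul' hB ((Cardinal.lt_aleph0_of_finite _).le.trans aleph0_le_continuum)).trans
      continuum_mul_self.le)
  obtain ⟨e⟩ := (Cardinal.le_def _ _).1 (hA.trans Cardinal.mk_real.ge)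
  let q : A → Bool → ℍ[ℝ] := fun a ε => Q (x (Sum.inl none)) (x (Sum.inl (some a))) ε
  have q0 : ∀ a, q a true ≠ 0 := by
    intro a h
    have h1 : (q a true).re = 0 := by rw [h]; rfl
    have h2 : (0 : ℝ) < 1 + x (Sum.inl (some a)) ^ 2 := by positivity
    exact h2.ne' h1
  have n0 : ∀ a, ‖q a true‖ ≠ 0 := fun a => norm_ne_zero_iff.2 (q0 a)
  have qs : ∀ a, q a false = star (q a true) := by
    intro a
    ext <;> simp [q, Q]
  let u : A → ℍ[ℝ]ˣ := fun a => Units.mk0 (‖q a true‖⁻¹ • q a true)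
    (smul_ne_zero (inv_ne_zero (n0 a)) (q0 a))
  have ui : ∀ a, ((u a)⁻¹ : ℍ[ℝ]ˣ) = ‖q a true‖⁻¹ • q a false := by
    intro a
    apply Units.inv_eq_of_mul_eq_one_right
    change (‖q a true‖⁻¹ • q a true) * _ = 1
    rw [qs, smul_mul_smul_comm, Quaternion.self_mul_star, Quaternion.normSq_eq_norm_mul_self,
      Quaternion.smul_coe]
    have := n0 a
    have e : ‖q a true‖⁻¹ * ‖q a true‖⁻¹ * (‖q a true‖ * ‖q a true‖) = 1 := by field_simp
    rw [e]
    rfl
  have key : ∀ L : List (A × Bool), ∃ r : ℝ, W (x (Sum.inl none)) (fun a => x (Sum.inl (some a))) L =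
      r • (((L.map fun p => cond p.2 (u p.1) (u p.1)⁻¹).prod : ℍ[ℝ]ˣ) : ℍ[ℝ]) := by
    intro L
    induction L with
    | nil => exact ⟨1, by simp [W]⟩
    | cons a L ih =>
      obtain ⟨r, hr⟩ := ih
      refine ⟨‖q a.1 true‖ * r, ?_⟩
      rw [W_cons, hr, List.map_cons, List.prod_cons, Units.val_mul, ← smul_mul_smul_comm]
      congr 1
      rcases a with ⟨a, _ | _⟩
      · change q a false = ‖q a true‖ • (((u a)⁻¹ : ℍ[ℝ]ˣ) : ℍ[ℝ])
        rw [ui, smul_inv_smul₀ (n0 a)]
      · change q a true = ‖q a true‖ • ‖q a true‖⁻¹ • q a true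
        rw [smul_inv_smul₀ (n0 a)]
  let f : MvPolynomial (Option A ⊕ B × Fin 3) ℚ →+* ℝ := (MvPolynomial.aeval x).toRingHom
  have hf : Injective f := hx
  refine ⟨FreeGroup.lift u, fun b j => x (Sum.inr (b, j)), fun w => ?_, fun w b hw => ?_,
    fun b hb h0 => ?_⟩
  · induction w using FreeGroup.induction_on with
    | C1 => simp
    | of a =>
      rw [FreeGroup.lift_apply_of]
      change ‖‖q a true‖⁻¹ • q a true‖ = 1
      rw [norm_smul, norm_inv, norm_norm, inv_mul_cancel₀ (n0 a)]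
    | inv_of a h => rw [map_inv, Units.val_inv_eq_inv_val, norm_inv, h, inv_one]
    | mul a b ha hb => rw [map_mul, Units.val_mul, norm_mul, ha, hb, one_mul]

  · rw [← FreeGroup.toWord_eq_nil_iff]
    have red : FreeGroup.IsReduced w.toWord := FreeGroup.isReduced_toWord
    rw [← FreeGroup.mk_toWord (x := w), FreeGroup.lift_mk] at hw
    obtain ⟨r, hr⟩ := key w.toWord
    have hw2 := congrArg (fun z => r • z) hw
    simp only [← smul_mul_assoc] at hw2
    rw [← hr, smul_mul_assoc, ← mul_smul_comm, ← hr] at hw2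
    clear hw hr
    generalize w.toWord = L at red hw2
    rcases L with _ | ⟨a, L⟩
    · rfl
    exfalso
    let P : ℍ[MvPolynomial (Option A ⊕ B × Fin 3) ℚ] :=
      W (MvPolynomial.X (Sum.inl none)) (fun a => MvPolynomial.X (Sum.inl (some a))) (a :: L)
    let T : ℍ[MvPolynomial (Option A ⊕ B × Fin 3) ℚ] :=
      ⟨0, MvPolynomial.X (Sum.inr (b, 0)), MvPolynomial.X (Sum.inr (b, 1)),
        MvPolynomial.X (Sum.inr (b, 2))⟩
    have e1 : qm f (P * T) = qm f (T * P) := by
      rw [qm_mul, qm_mul, qm_W]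
      simpa only [f, T, qm, AlgHom.toRingHom_eq_coe, RingHom.coe_coe, MvPolynomial.aeval_X,
        map_zero] using hw2
    have e0 : P * T = T * P := by
      ext1
      · exact hf (congrArg QuaternionAlgebra.re e1)
      · exact hf (congrArg QuaternionAlgebra.imI e1)
      · exact hf (congrArg QuaternionAlgebra.imJ e1)
      · exact hf (congrArg QuaternionAlgebra.imK e1)
    let g : Fin 3 → (MvPolynomial (Option A ⊕ B × Fin 3) ℚ →+* ℂ) := fun j => (MvPolynomial.aeval
      (Sum.elim (fun o : Option A => o.elim Complex.I fun a => ((Real.exp (e a) : ℝ) : ℂ))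
        fun c : B × Fin 3 => if c.2 = j then (1 : ℂ) else 0)).toRingHom
    have e2 : ∀ j, qm (g j) P = W Complex.I (fun a => ((Real.exp (e a) : ℝ) : ℂ)) (a :: L) := by
      intro j
      rw [qm_W]
      simp only [g, AlgHom.toRingHom_eq_coe, RingHom.coe_coe, MvPolynomial.aeval_X, Option.elim,
        Sum.elim_inl]
    have t0 : qm (g 0) T = ⟨0, 1, 0, 0⟩ := by simp [g, T, qm]
    have t2 : qm (g 2) T = ⟨0, 0, 0, 1⟩ := by simp [g, T, qm]
    have c0 := congrArg (qm (g 0)) e0
    have c2 := congrArg (qm (g 2)) e0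
    rw [qm_mul, qm_mul, e2, t0] at c0
    rw [qm_mul, qm_mul, e2, t2] at c2
    have nr := W_not_real (fun a => Real.exp (e a)) (fun a => Real.exp_pos _)
      (Real.exp_injective.comp e.injective) a L red
    generalize W Complex.I (fun a => ((Real.exp (e a) : ℝ) : ℂ)) (a :: L) = z at c0 c2 nr
    have k1 := congrArg QuaternionAlgebra.imJ c2
    have k2 := congrArg QuaternionAlgebra.imK c0
    have k3 := congrArg QuaternionAlgebra.imJ c0
    simp only [Quaternion.imJ_mul, Quaternion.imK_mul] at k1 k2 k3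
    refine nr ?_ ?_ ?_
    · linear_combination (-1 / 2 : ℂ) * k1
    · linear_combination (-1 / 2 : ℂ) * k2
    · linear_combination (1 / 2 : ℂ) * k3
  · let M : Matrix (Fin 3) (Fin 3) (MvPolynomial (Option A ⊕ B × Fin 3) ℚ) :=
      Matrix.of fun i j => MvPolynomial.X (Sum.inr (b i, j))
    have m0 : M.det = 0 := by
      apply hf
      rw [map_zero, ← h0, RingHom.map_det]
      congr 1
      ext i j
      simp [M, f]
    let g : MvPolynomial (Option A ⊕ B × Fin 3) ℚ →+* ℚ := (MvPolynomial.aeval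
      (Sum.elim (fun _ => (0 : ℚ)) fun c : B × Fin 3 => if c.1 = b c.2 then (1 : ℚ) else 0)).toRingHom
    have m1 : g.mapMatrix M = 1 := by
      ext i j
      simp [M, g, Matrix.one_apply, hb.eq_iff]
    have := congrArg g m0
    rw [RingHom.map_det, m1] at this
    simp at this

end Pool.Agent.H25.FreeQ
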