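import Mathlib

/-! Free sets for finite set mappings, and maps from powers of the line into spaces of countable
tightness. -/

set_option autoImplicit false

namespace Pool.Agent.H25.FreeSet

open Set Filter Topology

theorem free_le {I : Type} (n : ℕ) : ∀ (A : Set I) (h : I → Finset I), ¬ A.Countable →
    (∀ a ∈ A, (h a).card ≤ n) →
    ∃ B ⊆ A, ¬ B.Countable ∧ ∀ a ∈ B, ∀ b ∈ B, a ≠ b → b ∉ h a := by
  classical
  induction n with
  | zero =>
    intro A h hA hn
    exact ⟨A, subset_rfl, hA, fun a ha b _ _ => by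
      rw [Finset.card_eq_zero.1 (Nat.le_zero.1 (hn a ha))]; simp⟩
  | succ n ih =>
    intro A h hA hn
    by_cases hc : ∃ β, ¬ {a | a ∈ A ∧ β ∈ h a}.Countable
    · obtain ⟨β, hβ⟩ := hc
      obtain ⟨B, b1, b2, b3⟩ := ih ({a | a ∈ A ∧ β ∈ h a} \ {β}) (fun a => (h a).erase β)
        (fun hh => hβ ((hh.insert β).mono fun a ha => by
          by_cases e : a = β
          · exact Or.inl e
          · exact Or.inr ⟨ha, e⟩))
        (fun a ha => by
          rw [Finset.card_erase_of_mem ha.1.2]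
          have := hn a ha.1.1
          omega)
      exact ⟨B, fun a ha => (b1 ha).1.1, b2, fun a ha b hb hne hm =>
        b3 a ha b hb hne (Finset.mem_erase.2 ⟨(b1 hb).2, hm⟩)⟩
    · push Not at hc
      obtain ⟨M, hM⟩ := zorn_subset {B : Set I | B ⊆ A ∧ ∀ a ∈ B, ∀ b ∈ B, a ≠ b → b ∉ h a}
        (fun c hc hch => ⟨⋃₀ c, ⟨sUnion_subset fun B hB => (hc hB).1,
          fun a ⟨C, h1, h2⟩ b ⟨C', h1', h2'⟩ hne => by
            rcases hch.total h1 h1' with e | e
            · exact (hc h1').2 a (e h2) b h2' hne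
            · exact (hc h1).2 a h2 b (e h2') hne⟩, fun s hs => subset_sUnion_of_mem hs⟩)
      refine ⟨M, hM.1.1, fun hMc => hA ?_, hM.1.2⟩
      refine (hMc.union (hMc.biUnion fun β _ => ((h β).countable_toSet.union (hc β)))).mono ?_
      intro a ha
      by_contra hn
      simp only [mem_union, mem_iUnion, not_or, not_exists, mem_ofPred_eq, Finset.mem_coe] at hn
      refine hn.1 (hM.2 (y := insert a M) ⟨insert_subset ha hM.1.1, ?_⟩ (subset_insert _ _)
        (mem_insert _ _))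
      rintro x (rfl | hx) y (rfl | hy) hne
      · exact absurd rfl hne
      · exact fun hm => (hn.2 y hy).2 ⟨ha, hm⟩
      · exact (hn.2 x hx).1
      · exact hM.1.2 x hx y hy hne

/-- Every finite set mapping on an uncountable set has an uncountable free set. -/
theorem free {I : Type} (A : Set I) (h : I → Finset I) (hA : ¬ A.Countable) :
    ∃ B ⊆ A, ¬ B.Countable ∧ ∀ a ∈ B, ∀ b ∈ B, a ≠ b → b ∉ h a := by
  have : ∃ n, ¬ {a | a ∈ A ∧ (h a).card ≤ n}.Countable := by
    by_contra hn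
    push Not at hn
    exact hA ((countable_iUnion hn).mono fun a ha => mem_iUnion.2 ⟨(h a).card, And.intro ha le_rfl⟩)
  obtain ⟨n, hn⟩ := this
  obtain ⟨B, b1, b2⟩ := free_le n _ h hn fun a ha => ha.2
  exact ⟨B, fun a ha => (b1 ha).1, b2⟩

theorem closing {β : Type} (f : Finset β → Set β) (hf : ∀ F, (f F).Countable) :
    ∃ A : Set β, A.Countable ∧ ∀ F : Finset β, (F : Set β) ⊆ A → f F ⊆ A := by
  let st : Set β → Set β := fun B => B ∪ ⋃ S ∈ {S : Finset β | (S : Set β) ⊆ B}, f S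
  have hfin : ∀ B : Set β, B.Countable → {S : Finset β | (S : Set β) ⊆ B}.Countable := by
    intro B hB
    refine ((countable_ofPred_finite_subset hB).preimage
      (f := fun S : Finset β => (S : Set β)) Finset.coe_injective).mono fun S hS => ?_
    exact ⟨S.finite_toSet, hS⟩
  let A : ℕ → Set β := fun n => st^[n] ∅
  have hs : ∀ n, A (n + 1) = st (A n) := fun n => Function.iterate_succ_apply' _ _ _
  have hc : ∀ n, (A n).Countable := by
    intro n
    induction n with
    | zero => exact countable_empty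
    | succ n ih =>
      rw [hs]
      exact ih.union ((hfin _ ih).biUnion fun S _ => hf S)
  have hm : Monotone A := monotone_nat_of_le_succ fun n => by rw [hs]; exact subset_union_left
  refine ⟨⋃ n, A n, countable_iUnion hc, fun S hS u hu => ?_⟩
  obtain ⟨n, hn⟩ := hm.directed_le.exists_mem_subset_of_finset_subset_biUnion hS
  refine mem_iUnion.2 ⟨n + 1, ?_⟩
  rw [hs]
  exact Or.inr (mem_biUnion hn hu)

variable {κ Y K : Type} [TopologicalSpace Y] [TopologicalSpace K] [T2Space K]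

omit [T2Space K] in
theorem nb {φ : (κ → Y) → K} (hφ : Continuous φ) {U : Set K} (hU : IsOpen U) {x : κ → Y}
    (hx : φ x ∈ U) : ∃ F : Finset κ, ∀ z, (∀ k ∈ F, z k = x k) → φ z ∈ U := by
  obtain ⟨J, w, c1, c2⟩ := isOpen_pi_iff.1 (hU.preimage hφ) x hx
  exact ⟨J, fun z hz => c2 fun k hk => hz k hk ▸ (c1 k hk).2⟩

open Classical in
theorem local_dep (ht : ∀ (A : Set K) (x : K), x ∈ closure A →
      ∃ C : Set K, C ⊆ A ∧ C.Countable ∧ x ∈ closure C)
    {φ : (κ → Y) → K} (hφ : Continuous φ) (r : κ → Y) :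
    ∃ S : Set κ, S.Countable ∧ ∀ (P : Finset κ) (v : κ → Y), Disjoint (P : Set κ) S →
      φ (fun k => if k ∈ P then v k else r k) = φ r := by
  obtain ⟨M, hM⟩ := zorn_subset {C : Set (Finset κ) |
      (∀ P ∈ C, ∃ v : κ → Y, φ (fun k => if k ∈ P then v k else r k) ≠ φ r) ∧
      C.Pairwise Disjoint}
    (fun c hc hch => ⟨⋃₀ c, ⟨fun V ⟨C, h1, h2⟩ => (hc h1).1 V h2,
      fun V ⟨C, h1, h2⟩ V' ⟨C', h1', h2'⟩ hne => by
        rcases hch.total h1 h1' with h | h
        · exact (hc h1').2 (h h2) h2' hne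
        · exact (hc h1).2 h2 (h h2') hne⟩, fun s hs => subset_sUnion_of_mem hs⟩)
  by_cases hMc : M.Countable
  · refine ⟨⋃ P ∈ M, (P : Set κ), hMc.biUnion fun P _ => P.countable_toSet, fun P v hP => ?_⟩
    by_contra hne
    have hd : ∀ Q ∈ M, Disjoint P Q := fun Q hQ => Finset.disjoint_left.2 fun k hk hk' =>
      disjoint_left.1 hP hk (mem_biUnion hQ hk')
    have hm : P ∈ M := hM.2 (y := insert P M) ⟨by
        rintro Q (rfl | h)
        · exact ⟨v, hne⟩
        · exact hM.1.1 Q h,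
      hM.1.2.insert fun Q hQ _ => ⟨hd Q hQ, (hd Q hQ).symm⟩⟩ (subset_insert _ _) (mem_insert _ _)
    have : P = ∅ := (Finset.disjoint_self_iff_empty P).1 (hd P hm)
    subst this
    simp at hne
  exfalso
  have : Nonempty (κ → Y) := ⟨r⟩
  choose! v hv using hM.1.1
  choose! U V u1 v1 u2 v2 uv using fun P (hP : P ∈ M) => t2_separation (hv P hP)
  choose! F hF using fun P (hP : P ∈ M) => nb hφ (u1 P hP) (u2 P hP)
  choose! G hG using fun P (hP : P ∈ M) => nb hφ (v1 P hP) (v2 P hP)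
  have hown : ∀ k, ∃ Q : Finset κ, ∀ P ∈ M, k ∈ P → P = Q := by
    intro k
    by_cases h : ∃ P ∈ M, k ∈ P
    · obtain ⟨Q, hQ, hk⟩ := h
      refine ⟨Q, fun P hP hk' => ?_⟩
      by_contra hne
      exact Finset.disjoint_left.1 (hM.1.2 hP hQ hne) hk' hk
    · exact ⟨∅, fun P hP hk => absurd ⟨P, hP, hk⟩ h⟩
  choose own hown using hown
  obtain ⟨B, b1, b2, b3⟩ := free M (fun P => (F P ∪ G P).image own) hMc
  let z : Set (Finset κ) → κ → Y := fun C k => if own k ∈ C ∧ k ∈ own k then v (own k) k else r k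
  have z1 : ∀ C ⊆ B, ∀ P ∈ C, φ (z C) ∈ U P := by
    intro C hC P hP
    refine hF P (b1 (hC hP)) _ fun k hk => ?_
    by_cases h : k ∈ P
    · have e := hown k P (b1 (hC hP)) h
      simp only [z, ← e, hP, h, and_self, if_true]
    · rw [if_neg h]
      refine if_neg fun h' => ?_
      refine b3 P (hC hP) (own k) (hC h'.1) (fun e => h (e ▸ h'.2)) ?_
      exact Finset.mem_image.2 ⟨k, Finset.mem_union_left _ hk, rfl⟩
  have z2 : ∀ C ⊆ B, ∀ P ∈ B, P ∉ C → φ (z C) ∈ V P := by
    intro C hC P hP hPC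
    refine hG P (b1 hP) _ fun k hk => if_neg fun h' => ?_
    refine b3 P hP (own k) (hC h'.1) (fun e => hPC (e ▸ h'.1)) ?_
    exact Finset.mem_image.2 ⟨k, Finset.mem_union_right _ hk, rfl⟩
  have hcl : φ (z B) ∈ closure ((fun C => φ (z C)) '' {C | C ⊆ B ∧ C.Finite}) := by
    rw [mem_closure_iff]
    intro W hW hz
    obtain ⟨J, hJ⟩ := nb hφ hW hz
    refine ⟨_, hJ (z (B ∩ own '' J)) fun k hk => ?_, _, ⟨inter_subset_left,
      (J.finite_toSet.image own).inter_of_right _⟩, rfl⟩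
    have : own k ∈ own '' (J : Set κ) := ⟨k, hk, rfl⟩
    simp only [z, mem_inter_iff, this, and_true]
  obtain ⟨D, d1, d2, d3⟩ := ht _ _ hcl
  choose! C c1 c2 using fun y (hy : y ∈ D) => d1 hy
  have : ∃ P ∈ B, ∀ y ∈ D, P ∉ C y := by
    by_contra hn
    push Not at hn
    refine b2 ((d2.biUnion fun y hy => (c1 y hy).2.countable).mono fun P hP => ?_)
    obtain ⟨y, hy, h⟩ := hn P hP
    exact mem_biUnion hy h
  obtain ⟨P, hP, hPD⟩ := this
  obtain ⟨y, hy, hyD⟩ := mem_closure_iff.1 d3 _ (u1 P (b1 hP)) (z1 B subset_rfl P hP)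
  have := z2 (C y) (c1 y hyD).1 P hP (hPD y hyD)
  rw [show φ (z (C y)) = y from c2 y hyD] at this
  exact disjoint_left.1 (uv P (b1 hP)) hy this

open Classical in
/-- A continuous map from a power of the line into a Hausdorff space of countable tightness
depends on countably many coordinates. -/
theorem dep (ht : ∀ (A : Set K) (x : K), x ∈ closure A →
      ∃ C : Set K, C ⊆ A ∧ C.Countable ∧ x ∈ closure C)
    {φ : (κ → ℝ) → K} (hφ : Continuous φ) :
    ∃ S : Set κ, S.Countable ∧ ∀ x, φ x = φ (fun k => if k ∈ S then x k else 0) := by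
  choose S0 s1 s2 using local_dep ht hφ
  obtain ⟨S, hS, hcl⟩ := closing (fun F : Finset κ => ⋃ q : F → ℚ,
    S0 fun k => if h : k ∈ F then (q ⟨k, h⟩ : ℝ) else 0) fun F => countable_iUnion fun q => s1 _
  refine ⟨S, hS, ?_⟩
  have hd : Dense {x : κ → ℝ | ∃ (F : Finset κ) (q : κ → ℚ), ∀ k,
      x k = if k ∈ F then (q k : ℝ) else 0} := by
    rw [dense_iff_inter_open]
    rintro W hW ⟨x, hx⟩
    obtain ⟨J, w, c1, c2⟩ := isOpen_pi_iff.1 hW x hx
    choose! q hq using fun k (hk : k ∈ J) =>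
      Rat.denseRange_cast.exists_mem_open (c1 k hk).1 ⟨_, (c1 k hk).2⟩
    refine ⟨fun k => if k ∈ J then (q k : ℝ) else 0, c2 fun k hk => ?_, J, q, fun _ => rfl⟩
    have hk' : k ∈ J := hk
    simp only [hk', if_true]
    exact hq k hk
  have hc : Continuous fun (x : κ → ℝ) k => if k ∈ S then x k else 0 :=
    continuous_pi fun k => by split_ifs <;> fun_prop
  refine fun x => congrFun (Continuous.ext_on hd hφ (hφ.comp hc) ?_) x
  rintro x ⟨F, q, hx⟩
  have e1 : (fun k => if k ∈ S then x k else 0) =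
      fun k => if h : k ∈ F.filter (· ∈ S) then ((fun j : F.filter (· ∈ S) => q j) ⟨k, h⟩ : ℝ)
        else 0 := funext fun k => by
    rw [hx]
    by_cases a : k ∈ S <;> by_cases b : k ∈ F <;> simp [a, b]
  have := s2 (fun k => if k ∈ S then x k else 0) (F.filter (· ∉ S)) x (disjoint_left.2
    fun k hk hk' => (Finset.mem_filter.1 hk).2 (hcl (F.filter (· ∈ S))
      (fun j hj => (Finset.mem_filter.1 hj).2) (mem_iUnion.2 ⟨fun j : F.filter (· ∈ S) => q j, by rw [e1] at hk'; exact hk'⟩)))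
  show φ x = φ _
  rw [← this]
  congr 1
  funext k
  by_cases a : k ∈ S <;> by_cases b : k ∈ F <;> simp [a, b, hx k]

end Pool.Agent.H25.FreeSet
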