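import Mathlib

set_option autoImplicit false

namespace Pool.Agent.H25.Kron

open Set Filter Topology

theorem tele {T : Type} [TopologicalSpace T] [CompactSpace T] (g : C(T, ℂ)) (p : ℕ → T) (c : ℂ)
    (ε : ℝ) (h : ∀ k, ‖c + g (p (k + 1)) - g (p k)‖ ≤ ε) : ‖c‖ ≤ ε := by
  have h1 : ∀ N : ℕ, ‖N * c + g (p N) - g (p 0)‖ ≤ N * ε := fun N => by
    induction N with
    | zero => simp
    | succ N ih =>
      have : ((N + 1 : ℕ) : ℂ) * c + g (p (N + 1)) - g (p 0) =
        (N * c + g (p N) - g (p 0)) + (c + g (p (N + 1)) - g (p N)) := by push_cast; ring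
      rw [this]
      push_cast
      linarith [norm_add_le (N * c + g (p N) - g (p 0)) (c + g (p (N + 1)) - g (p N)), h N]
  by_contra hn
  obtain ⟨N, hN⟩ := exists_nat_gt (2 * ‖g‖ / (‖c‖ - ε))
  rw [div_lt_iff₀ (sub_pos.2 (not_le.1 hn))] at hN
  have h2 := norm_sub_le (N * c + g (p N) - g (p 0)) (g (p N) - g (p 0))
  rw [show (N * c + g (p N) - g (p 0)) - (g (p N) - g (p 0)) = N * c by ring, norm_mul,
    Complex.norm_natCast] at h2
  linarith [norm_sub_le (g (p N)) (g (p 0)), g.norm_coe_le_norm (p N), g.norm_coe_le_norm (p 0),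
    h1 N]

theorem fin {d : Type} [Fintype d] (θ : d → ℝ)
    (h : ∀ (m : d → ℤ) (k : ℤ), ∑ i, m i * θ i = k → m = 0) :
    DenseRange fun n : ℤ => n • fun i => (θ i : UnitAddCircle) := by
  let τ : UnitAddTorus d := fun i => θ i
  let S := (AddSubgroup.zmultiples τ).topologicalClosure
  have hS : IsClosed (S : Set (UnitAddTorus d)) := AddSubgroup.isClosed_topologicalClosure _
  intro y
  by_contra hy
  have hy' : y ∉ S := hy
  obtain ⟨f, f0, f1, -⟩ := exists_continuous_zero_one_of_isClosed hS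
    (hS.preimage (f := fun x => x - y) (by fun_prop)) (disjoint_left.2 fun x h1 h2 =>
      hy' (by simpa using S.sub_mem h1 h2))
  let F : C(UnitAddTorus d, ℂ) := ⟨fun x => f x, by fun_prop⟩
  obtain ⟨P, P1, P2⟩ := Metric.mem_closure_iff.1 (show F ∈ closure
    (Submodule.span ℂ (range (UnitAddTorus.mFourier (d := d))) : Set _) from
    UnitAddTorus.span_mFourier_closure_eq_top.ge trivial) (1 / 3) (by norm_num)
  obtain ⟨c, g, hg⟩ : ∃ (c : ℂ) (g : C(UnitAddTorus d, ℂ)), ∀ x, P x = c + g (x + τ) - g x := by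
    clear P2
    induction P1 using Submodule.span_induction with
    | mem _ hm =>
      obtain ⟨m, rfl⟩ := hm
      by_cases hm : m = 0
      · exact ⟨1, 0, fun x => by simp [hm, UnitAddTorus.mFourier_zero]⟩
      have h1 : UnitAddTorus.mFourier m τ - 1 ≠ 0 := by
        intro e
        have h2 : UnitAddTorus.mFourier m τ =
            Complex.exp (2 * Real.pi * Complex.I * (∑ i, m i * θ i : ℝ)) := by
          simp only [UnitAddTorus.mFourier, ContinuousMap.coe_mk, τ, fourier_coe_apply]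
          rw [← Complex.exp_sum]
          push_cast
          simp [Finset.mul_sum, mul_assoc]
        obtain ⟨k, hk⟩ := Complex.exp_eq_one_iff.1 (h2 ▸ sub_eq_zero.1 e)
        rw [mul_comm (k : ℂ)] at hk
        exact hm (h m k (by exact_mod_cast mul_left_cancel₀ Complex.two_pi_I_ne_zero hk))
      refine ⟨0, (UnitAddTorus.mFourier m τ - 1)⁻¹ • UnitAddTorus.mFourier m, fun x => ?_⟩
      have h2 : UnitAddTorus.mFourier m (x + τ) =
          UnitAddTorus.mFourier m x * UnitAddTorus.mFourier m τ := by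
        simp [UnitAddTorus.mFourier, fourier_apply, AddCircle.toCircle_add, Finset.prod_mul_distrib]
      simp only [ContinuousMap.smul_apply, smul_eq_mul, h2]
      field_simp
      ring
    | zero => exact ⟨0, 0, by simp⟩
    | add a b _ _ ha hb =>
      obtain ⟨c, g, h1⟩ := ha
      obtain ⟨c', g', h2⟩ := hb
      exact ⟨c + c', g + g', fun x => by simp only [ContinuousMap.add_apply, h1, h2]; ring⟩
    | smul a b _ hb =>
      obtain ⟨c, g, h1⟩ := hb
      exact ⟨a * c, a • g, fun x => by simp only [ContinuousMap.smul_apply, h1, smul_eq_mul]; ring⟩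
  have h3 : ∀ x, ‖(f x : ℂ) - P x‖ ≤ 1 / 3 := fun x =>
    (dist_eq_norm (F x) (P x)).ge.trans ((ContinuousMap.dist_apply_le_dist x).trans P2.le)
  have h4 : ∀ k : ℕ, k • τ ∈ S := fun k =>
    AddSubgroup.le_topologicalClosure _ (AddSubgroup.nsmul_mem_zmultiples τ k)
  have h5 := tele g (fun k => k • τ) c (1 / 3) fun k => by
    have := h3 (k • τ)
    rwa [f0 (h4 k), hg, Pi.zero_apply, Complex.ofReal_zero, zero_sub, norm_neg, ← succ_nsmul] at this
  have h6 := tele g (fun k => y + k • τ) (c - 1) (1 / 3) fun k => by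
    have := h3 (y + k • τ)
    rw [f1 (show y + k • τ - y ∈ S by simpa using h4 k), hg, norm_sub_rev, add_assoc y,
      ← succ_nsmul] at this
    rw [Pi.one_apply, Complex.ofReal_one] at this
    rwa [show c - 1 + g (y + (k + 1) • τ) - g (y + k • τ) =
      c + g (y + (k + 1) • τ) - g (y + k • τ) - 1 by ring]
  have h7 := norm_sub_le c (c - 1)
  norm_num at h7
  linarith

theorem kron {ι : Type} (θ : ι → ℝ)
    (h : ∀ (I : Finset ι) (m : I → ℤ) (k : ℤ), ∑ i, m i * θ i = k → m = 0) :
    DenseRange fun n : ℤ => n • fun i => (θ i : UnitAddCircle) := by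
  refine dense_iff_inter_open.2 fun U hU ⟨y, hy⟩ => ?_
  obtain ⟨I, u, u1, u2⟩ := isOpen_pi_iff.1 hU y hy
  obtain ⟨n, hn⟩ := (fin (fun i : I => θ i) (h I)).exists_mem_open
    (isOpen_set_pi finite_univ fun (i : I) _ => (u1 i i.2).1) ⟨fun i => y i, fun i _ => (u1 i i.2).2⟩
  exact ⟨_, u2 fun i hi => hn ⟨i, hi⟩ trivial, n, rfl⟩

theorem indep (J A : Type) (hJ : Cardinal.mk J ≤ Cardinal.continuum)
    (hA : Cardinal.mk A ≤ Cardinal.continuum) : ∃ (u : J → ℝ) (r : A → ℝ)
    (l : J × A → ℝ →ₗ[ℚ] ℚ), (∀ p, l p 1 = 0) ∧ (∀ p, l p (u p.1 * r p.2) = 1) ∧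
      ∀ p q, q ≠ p → l p (u q.1 * r q.2) = 0 := by
  classical
  obtain ⟨s, hs⟩ := exists_isTranscendenceBasis ℚ ℝ
  have h1 : Cardinal.continuum ≤ Cardinal.mk s := by
    by_contra hn
    have := hs.isAlgebraic
    have h2 := Algebra.IsAlgebraic.cardinalMk_le_max (Algebra.adjoin ℚ (range ((↑) : s → ℝ))) ℝ
    rw [← Cardinal.mk_congr hs.1.aevalEquiv.toEquiv, Cardinal.mk_real] at h2
    refine absurd (h2.trans (max_le_max MvPolynomial.cardinalMk_le_max le_rfl)) (not_le.2 ?_)
    simpa [Cardinal.aleph0_lt_continuum] using hn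
  obtain ⟨e⟩ : Cardinal.mk (J ⊕ A) ≤ Cardinal.mk s := by
    refine le_trans ?_ h1
    simpa using add_le_add hJ hA
  have h2 := hs.1.comp e e.injective
  let m : Option (J × A) → (J ⊕ A →₀ ℕ) := fun o =>
    o.elim 0 fun p => Finsupp.single (.inl p.1) 1 + Finsupp.single (.inr p.2) 1
  have h3 : Function.Injective m := by
    rintro (_ | ⟨j, a⟩) (_ | ⟨j', a'⟩) h
    · rfl
    · simpa [m] using DFunLike.congr_fun h (.inl j')
    · simpa [m] using DFunLike.congr_fun h (.inl j)
    · have a1 := DFunLike.congr_fun h (.inl j)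
      have a2 := DFunLike.congr_fun h (.inr a)
      simp [m, Finsupp.single_apply] at a1 a2
      rw [a1, a2]
  have h4 := ((MvPolynomial.basisMonomials (J ⊕ A) ℚ).linearIndependent.comp m h3).map'
    (MvPolynomial.aeval (Subtype.val ∘ e) : MvPolynomial _ ℚ →ₐ[ℚ] ℝ).toLinearMap
    (LinearMap.ker_eq_bot.2 h2)
  choose l hl using fun p => LinearMap.exists_extend ((Finsupp.lapply (some p)) ∘ₗ h4.repr)
  have h5 : ∀ p o, l p (MvPolynomial.aeval (Subtype.val ∘ e) (MvPolynomial.monomial (m o) (1 : ℚ)))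
      = if o = some p then 1 else 0 := fun p o => by
    have := LinearMap.congr_fun (hl p) ⟨_, Submodule.subset_span ⟨o, rfl⟩⟩
    rw [LinearMap.comp_apply, LinearMap.comp_apply, h4.repr_eq_single o _ rfl] at this
    refine Eq.trans this ?_
    simp [Finsupp.single_apply]
  have h6 : ∀ q : J × A, MvPolynomial.aeval (Subtype.val ∘ e)
      (MvPolynomial.monomial (m (some q)) (1 : ℚ)) = (e (.inl q.1)).1 * (e (.inr q.2)).1 := fun q => by
    simp [m, MvPolynomial.aeval_monomial, Finsupp.prod_add_index', pow_add]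
  exact ⟨fun j => e (.inl j), fun a => e (.inr a), l, fun p => by simpa [m] using h5 p none,
    fun p => by simpa [h6] using h5 p (some p), fun p q h => by simpa [h6, h] using h5 p (some q)⟩

end Pool.Agent.H25.Kron
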