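import Mathlib
import Pool.Agent.H25.Kron
import Pool.Agent.H25.FreeSet

set_option autoImplicit false

namespace Pool.Agent.H25.GDense

open Set Filter Topology MeasureTheory

theorem fin {d : Type} [Fintype d] (θ : d → ℝ) (y : UnitAddTorus d)
    (h : ∀ (m : d → ℤ) (k : ℤ), ∑ i, m i * θ i = k → ∀ i, m i = 0 ∨ y i = 0) :
    y ∈ closure (range fun n : ℤ => n • fun i => (θ i : UnitAddCircle)) := by
  let τ : UnitAddTorus d := fun i => θ i
  let S := (AddSubgroup.zmultiples τ).topologicalClosure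
  have hS : IsClosed (S : Set (UnitAddTorus d)) := AddSubgroup.isClosed_topologicalClosure _
  by_contra hy
  have hy' : y ∉ S := hy
  obtain ⟨f, f0, f1, -⟩ := exists_continuous_zero_one_of_isClosed hS
    (hS.preimage (f := fun x => x - y) (by fun_prop)) (disjoint_left.2 fun x h1 h2 =>
      hy' (by simpa using S.sub_mem h1 h2))
  let F : C(UnitAddTorus d, ℂ) := ⟨fun x => f x, by fun_prop⟩
  obtain ⟨P, P1, P2⟩ := Metric.mem_closure_iff.1 (show F ∈ closure
    (Submodule.span ℂ (range (UnitAddTorus.mFourier (d := d))) : Set _) from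
    UnitAddTorus.span_mFourier_closure_eq_top.ge trivial) (1 / 3) (by norm_num)
  obtain ⟨c, g, c1, c2, hg⟩ : ∃ (c : UnitAddTorus d → ℂ) (g : C(UnitAddTorus d, ℂ)),
      (∀ x, c (x + τ) = c x) ∧ (∀ x, c (y + x) = c x) ∧ ∀ x, P x = c x + g (x + τ) - g x := by
    clear P2
    induction P1 using Submodule.span_induction with
    | mem _ hm =>
      obtain ⟨m, rfl⟩ := hm
      have h2 : ∀ x z, UnitAddTorus.mFourier m (x + z) =
          UnitAddTorus.mFourier m x * UnitAddTorus.mFourier m z := fun x z => by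
        simp [UnitAddTorus.mFourier, fourier_apply, AddCircle.toCircle_add, Finset.prod_mul_distrib]
      by_cases h1 : UnitAddTorus.mFourier m τ - 1 = 0
      · have h3 : UnitAddTorus.mFourier m τ =
            Complex.exp (2 * Real.pi * Complex.I * (∑ i, m i * θ i : ℝ)) := by
          simp only [UnitAddTorus.mFourier, ContinuousMap.coe_mk, τ, fourier_coe_apply]
          rw [← Complex.exp_sum]
          push_cast
          simp [Finset.mul_sum, mul_assoc]
        obtain ⟨k, hk⟩ := Complex.exp_eq_one_iff.1 (h3 ▸ sub_eq_zero.1 h1)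
        rw [mul_comm (k : ℂ)] at hk
        have h4 := h m k (by exact_mod_cast mul_left_cancel₀ Complex.two_pi_I_ne_zero hk)
        have h5 : UnitAddTorus.mFourier m y = 1 := Finset.prod_eq_one fun i _ => by
          rcases h4 i with e | e <;> simp [e]
        exact ⟨UnitAddTorus.mFourier m, 0, fun x => by rw [h2, sub_eq_zero.1 h1, mul_one],
          fun x => by rw [h2, h5, one_mul], fun x => by simp⟩
      refine ⟨0, (UnitAddTorus.mFourier m τ - 1)⁻¹ • UnitAddTorus.mFourier m, fun _ => rfl,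
        fun _ => rfl, fun x => ?_⟩
      simp only [ContinuousMap.smul_apply, smul_eq_mul, h2, Pi.zero_apply]
      field_simp
      ring
    | zero => exact ⟨0, 0, by simp⟩
    | add a b _ _ ha hb =>
      obtain ⟨c, g, c1, c2, h1⟩ := ha
      obtain ⟨c', g', c3, c4, h2⟩ := hb
      exact ⟨c + c', g + g', fun x => by simp [c1, c3], fun x => by simp [c2, c4],
        fun x => by simp only [ContinuousMap.add_apply, h1, h2, Pi.add_apply]; ring⟩
    | smul a b _ hb =>
      obtain ⟨c, g, c1, c2, h1⟩ := hb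
      exact ⟨a • c, a • g, fun x => by simp [c1], fun x => by simp [c2], fun x => by
        simp only [ContinuousMap.smul_apply, h1, smul_eq_mul, Pi.smul_apply]; ring⟩
  have h3 : ∀ x, ‖(f x : ℂ) - P x‖ ≤ 1 / 3 := fun x =>
    (dist_eq_norm (F x) (P x)).ge.trans ((ContinuousMap.dist_apply_le_dist x).trans P2.le)
  have h4 : ∀ k : ℕ, k • τ ∈ S := fun k =>
    AddSubgroup.le_topologicalClosure _ (AddSubgroup.nsmul_mem_zmultiples τ k)
  have hc : ∀ k : ℕ, c (k • τ) = c 0 := fun k => by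
    induction k with
    | zero => simp
    | succ k ih => rw [succ_nsmul, c1, ih]
  have h5 := Kron.tele g (fun k => k • τ) (c 0) (1 / 3) fun k => by
    have := h3 (k • τ)
    rwa [f0 (h4 k), hg, Pi.zero_apply, Complex.ofReal_zero, zero_sub, norm_neg, ← succ_nsmul,
      hc] at this
  have h6 := Kron.tele g (fun k => y + k • τ) (c 0 - 1) (1 / 3) fun k => by
    have := h3 (y + k • τ)
    rw [f1 (show y + k • τ - y ∈ S by simpa using h4 k), hg, norm_sub_rev, add_assoc y,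
      ← succ_nsmul, c2, hc] at this
    rw [Pi.one_apply, Complex.ofReal_one] at this
    rwa [show c 0 - 1 + g (y + (k + 1) • τ) - g (y + k • τ) =
      c 0 + g (y + (k + 1) • τ) - g (y + k • τ) - 1 by ring]
  have h7 := norm_sub_le (c 0) (c 0 - 1)
  norm_num at h7
  linarith

theorem kron {ι : Type} (θ : ι → ℝ) (y : ι → UnitAddCircle)
    (h : ∀ (I : Finset ι) (m : I → ℤ) (k : ℤ), ∑ i, m i * θ i = k → ∀ i, m i = 0 ∨ y i = 0) :
    y ∈ closure (range fun n : ℤ => n • fun i => (θ i : UnitAddCircle)) := by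
  refine mem_closure_iff.2 fun U hU hy => ?_
  obtain ⟨I, u, u1, u2⟩ := isOpen_pi_iff.1 hU y hy
  obtain ⟨_, h1, n, rfl⟩ := mem_closure_iff.1 (fin (fun i : I => θ i) (fun i => y i) (h I)) _
    (isOpen_set_pi finite_univ fun (i : I) _ => (u1 i i.2).1) fun i _ => (u1 i i.2).2
  exact ⟨_, u2 fun i hi => h1 ⟨i, hi⟩ trivial, n, rfl⟩

theorem bohr {Ξ : Type} (d : ℕ → Ξ →₀ ℤ) (h : ∃ᶠ n in atTop, d n ≠ 0) : ∃ z : Ξ → ℝ,
    ¬ Tendsto (fun n => (((d n).sum fun ξ m => m • z ξ : ℝ) : UnitAddCircle)) atTop (𝓝 0) := by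
  classical
  by_contra hn
  push Not at hn
  borelize (Ξ → UnitAddCircle)
  let μ : Measure (Ξ → UnitAddCircle) := Measure.addHaar
  let e : ℕ → (Ξ → UnitAddCircle) → ℂ := fun n y => fourier 1 ((d n).sum fun ξ m => m • y ξ)
  have h1 : Tendsto (fun n => ∫ y, e n y ∂μ) atTop (𝓝 (∫ _, (1 : ℂ) ∂μ)) := by
    refine tendsto_integral_of_dominated_convergence (fun _ => 1) (fun n =>
      Continuous.aestronglyMeasurable ?_) (integrable_const _)
      (fun n => Eventually.of_forall fun y => by simp [e, fourier_apply])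
      (Eventually.of_forall fun y => ?_)
    · simp only [e, Finsupp.sum]
      fun_prop
    · choose z hz using fun ξ => QuotientAddGroup.mk_surjective (y ξ)
      have := ((fourier 1).continuous.tendsto _).comp (hn z)
      rw [fourier_eval_zero] at this
      refine this.congr fun n => ?_
      simp [e, Finsupp.sum, ← hz]
  have h2 : (∫ _, (1 : ℂ) ∂μ) ≠ 0 := by
    simpa using measureReal_univ_ne_zero (μ := μ)
  obtain ⟨n, n1, n2⟩ := (h.and_eventually (h1.eventually_ne h2)).exists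
  obtain ⟨ξ, hξ⟩ := Finsupp.support_nonempty_iff.2 n1
  refine n2 (integral_eq_zero_of_add_right_eq_neg
    (g := Pi.single ξ ((1 / 2 / d n ξ : ℝ) : UnitAddCircle)) fun y => ?_)
  have h3 : ((d n).sum fun ζ m => m • (Pi.single ξ ((1 / 2 / d n ξ : ℝ) : UnitAddCircle) :
      Ξ → UnitAddCircle) ζ) = ((1 / 2 / (1 : ℤ) : ℝ) : UnitAddCircle) := by
    rw [Finsupp.sum, Finset.sum_eq_single ξ (fun ζ _ hζ => by simp [hζ]) fun h => absurd hξ h,
      Pi.single_eq_same, ← AddCircle.coe_zsmul]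
    have : (d n ξ : ℝ) ≠ 0 := by exact_mod_cast Finsupp.mem_support_iff.1 hξ
    congr 1
    simp only [zsmul_eq_mul]
    field_simp
    simp
  simp only [e, Pi.add_apply, smul_add, Finsupp.sum_add, h3]
  exact fourier_add_half_inv_index one_ne_zero one_pos _

theorem acc {J Y : Type} [MetricSpace Y] (T N : Set (J → Y))
    (hT : ∀ (C : Set J) a b c, a ∈ T → b ∈ T → EqOn c a C → EqOn c b Cᶜ → c ∈ T) (hN : N ⊆ T)
    (hd : ∀ C : Set J, C.Countable → ∀ y ∈ T, ∃ g ∈ N, EqOn g y C) (V : ℕ → Set (J → Y))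
    (h1 : ∀ n, ∃ O, IsOpen O ∧ V n = N ∩ O) (p : J → Y) (hp : p ∈ T) (h2 : ∀ n, p ∈ closure (V n)) :
    ∃ q ∈ N, ∀ n, q ∈ closure (V n) := by
  classical
  have h3 : ∀ (n k : ℕ) (I : Finset J), ∃ a ∈ N, ∃ F : Finset J,
      (∀ i ∈ I, dist (a i) (p i) < 1 / ((k : ℝ) + 1)) ∧ ∀ g ∈ N, EqOn g a F → g ∈ V n := by
    intro n k I
    obtain ⟨a, a1, a2⟩ := mem_closure_iff_nhds.1 (h2 n)
      {a | ∀ i ∈ I, dist (a i) (p i) < 1 / ((k : ℝ) + 1)} ((eventually_all_finset I).2 fun i _ =>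
        (continuous_apply i).continuousAt.eventually
          (Metric.ball_mem_nhds (p i) Nat.one_div_pos_of_nat))
    obtain ⟨O, o1, o2⟩ := h1 n
    rw [o2] at a2 ⊢
    obtain ⟨F, u, u1, u2⟩ := isOpen_pi_iff.1 o1 a a2.2
    exact ⟨a, a2.1, F, a1, fun g hg e => ⟨hg, u2 fun i hi => (e hi).symm ▸ (u1 i hi).2⟩⟩
  choose a a1 F a2 a3 using h3
  obtain ⟨C, c1, c2⟩ := FreeSet.closing (fun I => ⋃ n, ⋃ k, (F n k I : Set J)) fun I =>
    countable_iUnion fun n => countable_iUnion fun k => (F n k I).countable_toSet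
  obtain ⟨q, q1, q2⟩ := hd C c1 p hp
  refine ⟨q, q1, fun n => mem_closure_iff.2 fun U hU hq => ?_⟩
  obtain ⟨I, u, u1, u2⟩ := isOpen_pi_iff.1 hU q hq
  obtain ⟨k, hk⟩ : ∃ k : ℕ, ∀ i ∈ I, Metric.ball (q i) (1 / ((k : ℝ) + 1)) ⊆ u i := by
    refine ((eventually_all_finset I).2 fun i hi => ?_ : ∀ᶠ k : ℕ in atTop, _).exists
    obtain ⟨ε, hε, h⟩ := Metric.isOpen_iff.1 (u1 i hi).1 _ (u1 i hi).2
    filter_upwards [tendsto_one_div_add_atTop_nhds_zero_nat.eventually (gt_mem_nhds hε)] with k hk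
    exact (Metric.ball_subset_ball hk.le).trans h
  let I0 := I.filter (· ∈ C)
  have h4 : (F n k I0 : Set J) ⊆ C := (subset_iUnion₂ (s := fun n k => (F n k I0 : Set J)) n k).trans
    (c2 I0 fun i hi => (Finset.mem_filter.1 hi).2)
  obtain ⟨g, g1, g2⟩ := hd (C ∪ I) (c1.union I.countable_toSet) (C.piecewise (a n k I0) q)
    (hT C _ _ _ (hN (a1 n k I0)) (hN q1) (piecewise_eqOn ..) (piecewise_eqOn_compl ..))
  refine ⟨g, u2 fun i hi => ?_, a3 n k I0 g g1 fun i hi => by
    rw [g2 (.inl (h4 hi)), piecewise_eq_of_mem _ _ _ (h4 hi)]⟩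
  rw [g2 (.inr hi)]
  by_cases hc : i ∈ C
  · rw [piecewise_eq_of_mem _ _ _ hc]
    exact hk i hi (q2 hc ▸ a2 n k I0 i (Finset.mem_filter.2 ⟨hi, hc⟩))
  · rw [piecewise_eq_of_notMem _ _ _ hc]
    exact (u1 i hi).2

end Pool.Agent.H25.GDense
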