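import Mathlib
import Pool.Agent.H25.StrongDist

set_option autoImplicit false

open Cardinal Set

universe u

namespace Pool.Agent.H25.Galvin

open Pool.Agent.H25.NSIdealU Pool.Agent.H25.StrongDist

variable {W : Type u} [LinearOrder W]

theorem thin_iUnion (h : Good W) {I : Type u} (hI : #I < #W) (X : I → Set W)
    (hX : ∀ i, Thin (X i)) : Thin (⋃ i, X i) := by
  classical
  choose f h1 h2 using hX
  let g : W → W := fun a => if h : ∃ i, a ∈ X i then f h.choose a else a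
  refine ⟨g, fun a ha hb => ?_, fun c => ?_⟩
  · have h3 : ∃ i, a ∈ X i := mem_iUnion.1 ha
    simp only [g, dif_pos h3]
    exact h1 _ a h3.choose_spec hb
  · refine lt_of_le_of_lt (mk_le_mk_of_subset ?_)
      ((card_iUnion_lt_iff_forall_of_isRegular h.reg hI).2 (fun i => h2 i c))
    intro a ha
    have h3 : ∃ i, a ∈ X i := mem_iUnion.1 ha.1
    have h4 := ha.2
    simp only [g, dif_pos h3] at h4
    exact mem_iUnion.2 ⟨_, h3.choose_spec, h4⟩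

theorem thin_compl_club (h : Good W) {C : Set W} (hC : IsClub C) : Thin Cᶜ := by
  have h1 : ∀ b, ∃ c ∈ C, b < c := by
    intro b
    obtain ⟨y, hy⟩ := exists_gt h b
    obtain ⟨c, hc1, hc2⟩ := hC.isCofinal y
    exact ⟨c, hc1, lt_of_lt_of_le hy hc2⟩
  choose f hf1 hf2 using h1
  have h2 : ∀ a, ∃ b, a ∈ Cᶜ → (∃ x, x < a) → b < a ∧ a ≤ f b := by
    intro a
    by_contra h3
    push Not at h3
    obtain ⟨g1, ⟨x, hx⟩, _⟩ := h3 a
    have h4 : ∀ b, b < a → f b < a := fun b hb => (h3 b).2.2 hb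
    refine g1 (hC.isLUB_mem (t := C ∩ Iio a) inter_subset_left ⟨f x, hf1 x, h4 x hx⟩
      ⟨fun y hy => le_of_lt hy.2, fun z hz => ?_⟩)
    by_contra h5
    exact absurd (hz ⟨hf1 z, h4 z (not_le.1 h5)⟩) (not_le.2 (hf2 z))
  choose g hg using h2
  refine ⟨g, fun a ha hb => (hg a ha hb).1, fun c => ?_⟩
  have h3 : ({a : W | ¬ ∃ x, x < a}).Subsingleton := fun a ha b hb =>
    le_antisymm (not_lt.1 (fun h => ha ⟨b, h⟩)) (not_lt.1 (fun h => hb ⟨a, h⟩))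
  refine lt_of_le_of_lt (mk_le_mk_of_subset (t := Iic (f c) ∪ {a : W | ¬ ∃ x, x < a}) ?_)
    (lt_of_le_of_lt (mk_union_le _ _) (add_lt_of_lt h.unc.le (h.iic _)
      (lt_of_le_of_lt (le_aleph0_iff_set_countable.2 h3.countable) h.unc)))
  intro a ha
  by_cases hb : ∃ x, x < a
  · exact Or.inl (ha.2 ▸ (hg a ha.1 hb).2)
  · exact Or.inr hb

theorem ev_diff (h : Good W) {V : Type u} [LinearOrder V] [WellFoundedLT V]
    (hV : ∀ i : V, #(Iio i) ≤ #W) :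
    ∃ g : V → W → W, ∀ i j, i ≠ j → ∃ b, ∀ a, b ≤ a → g i a ≠ g j a := by
  have h1 : ∀ (i : V) (r : Iio i → W → W), ∃ t : W → W, ∀ j, ∃ b, ∀ a, b ≤ a → t a ≠ r j a := by
    intro i r
    obtain ⟨e⟩ := (Cardinal.le_def _ _).1 (hV i)
    have h2 : ∀ a, ∃ y, ∀ j, e j ≤ a → r j a < y := by
      intro a
      obtain ⟨y, hy⟩ := bound h ((fun j => r j a) '' (e ⁻¹' Iic a)) (lt_of_le_of_lt mk_image_le
        (lt_of_le_of_lt (mk_preimage_of_injective _ _ e.injective) (h.iic a)))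
      exact ⟨y, fun j hj => hy _ ⟨j, hj, rfl⟩⟩
    choose t ht using h2
    exact ⟨t, fun j => ⟨e j, fun a ha => (ht a j ha).ne'⟩⟩
  choose G hG using h1
  let g : V → W → W := (wellFounded_lt (α := V)).fix (fun i r => G i (fun j => r j j.2))
  have hg : ∀ i, g i = G i (fun j => g j) := fun i => (wellFounded_lt (α := V)).fix_eq _ i
  have h2 : ∀ i j, j < i → ∃ b, ∀ a, b ≤ a → g i a ≠ g j a := by
    intro i j hji
    rw [hg i]
    exact hG i (fun j => g j) ⟨j, hji⟩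
  refine ⟨g, fun i j hij => ?_⟩
  rcases lt_or_gt_of_ne hij with h3 | h3
  · obtain ⟨b, hb⟩ := h2 j i h3
    exact ⟨b, fun a ha => (hb a ha).symm⟩
  · exact h2 i j h3

theorem family [WellFoundedLT W] (h : Good W) {V : Type u} [LinearOrder V] [WellFoundedLT V]
    (hV : ∀ i : V, #(Iio i) ≤ #W) :
    ∃ B : V → Set W, ∀ (J : Set V) (i : V), #J < #W → i ∉ J →
      ¬ Thin {a | a ∈ B i ∧ ∀ j ∈ J, a ∉ B j} := by
  obtain ⟨g, hg⟩ := ev_diff h hV
  obtain ⟨c, hc⟩ := split h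
  obtain ⟨s⟩ : Nonempty (W × W ↪ {x | ¬ Thin {a | c a = x}}) := by
    rw [← Cardinal.le_def, mk_prod, lift_id, mul_eq_self h.unc.le]
    exact hc
  refine ⟨fun i => {x | ∃ a, c x = s (a, g i a)}, fun J i hJ hi h1 => ?_⟩
  choose b hb using fun j : J => hg i j (fun h2 => hi (h2 ▸ j.2))
  obtain ⟨a, ha⟩ := bound h (range b) (lt_of_le_of_lt mk_range_le hJ)
  refine (s (a, g i a)).2 (small_mono ?_ h1)
  intro x hx
  refine ⟨⟨a, hx⟩, fun j hj ⟨a', ha'⟩ => ?_⟩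
  have h2 := s.injective (Subtype.ext (hx.symm.trans ha'))
  have h3 : a = a' := congrArg Prod.fst h2
  subst h3
  exact hb ⟨j, hj⟩ a (ha _ ⟨⟨j, hj⟩, rfl⟩).le (congrArg Prod.snd h2)

theorem main [WellFoundedLT W] (h : Good W) {V : Type u} [LinearOrder V] [WellFoundedLT V]
    (hV : ∀ i : V, #(Iio i) ≤ #W) :
    ∃ (F : Filter W) (A : V → Set W), CardinalInterFilter F #W ∧ (∀ C, IsClub C → C ∈ F) ∧
      (∀ i, A i ∈ F) ∧ ∀ I : Set V, #I = #W → (⋂ i ∈ I, A i) ∉ F := by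
  obtain ⟨B, hB⟩ := family h hV
  let P : Set (Set W) := {Z | ∃ J : Set V, #J < #W ∧ Thin {a | a ∉ Z ∧ ∀ j ∈ J, a ∉ B j}}
  have h0 : (0 : Cardinal.{u}) < #W := lt_of_le_of_lt (zero_le (α := Cardinal)) h.unc
  have h1 : ∀ S : Set (Set W), #S < #W → (∀ s ∈ S, s ∈ P) → ⋂₀ S ∈ P := by
    intro S hS1 hS2
    choose J hJ1 hJ2 using fun s : S => hS2 s s.2
    refine ⟨⋃ s, J s, (card_iUnion_lt_iff_forall_of_isRegular h.reg hS1).2 hJ1,
      small_mono ?_ (thin_iUnion h hS1 _ hJ2)⟩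
    intro a ha
    have h2 := ha.1
    rw [mem_sInter] at h2
    push Not at h2
    obtain ⟨t, ht1, ht2⟩ := h2
    exact mem_iUnion.2 ⟨⟨t, ht1⟩, ht2, fun j hj => ha.2 j (mem_iUnion.2 ⟨_, hj⟩)⟩
  have h2 : ∀ s t, s ∈ P → s ⊆ t → t ∈ P := by
    rintro s t ⟨J, hJ1, hJ2⟩ hst
    refine ⟨J, hJ1, small_mono ?_ hJ2⟩
    intro a ha
    exact ⟨fun h3 => ha.1 (hst h3), ha.2⟩
  have h3 : (2 : Cardinal.{u}) < #W := lt_trans (natCast_lt_aleph0 (n := 2)) h.unc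
  refine ⟨Filter.ofCardinalInter P h3 h1 h2, fun i => (B i)ᶜ,
    Filter.cardinalInter_ofCardinalInter P h3 h1 h2, fun C hC => ?_, fun i => ?_, ?_⟩
  · exact ⟨∅, by simpa using h0, small_mono (fun a ha => ha.1) (thin_compl_club h hC)⟩
  · refine ⟨{i}, by simpa using lt_trans one_lt_aleph0 h.unc, small_mono ?_ (small_empty h)⟩
    intro a ha
    exact ha.1 (ha.2 i rfl)
  · rintro I hI ⟨J, hJ1, hJ2⟩
    have h4 : ¬ I ⊆ J := fun h5 => absurd (hI ▸ mk_le_mk_of_subset h5) (not_le.2 hJ1)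
    obtain ⟨i, hi1, hi2⟩ := not_subset.1 h4
    refine hB J i hJ1 hi2 (small_mono ?_ hJ2)
    intro a ha
    exact ⟨fun h5 => mem_iInter₂.1 h5 i hi1 ha.1, ha.2⟩

end Pool.Agent.H25.Galvin
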