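import Mathlib

set_option autoImplicit false

namespace Pool.Agent.H25.GameJDefs

open Set Cardinal

/-- The class `𝒦`: families of open sets with dense union whose closures cover the space. -/
def InK {X : Type} [TopologicalSpace X] (𝒰 : Set (Set X)) : Prop :=
  (∀ U ∈ 𝒰, IsOpen U) ∧ Dense (⋃₀ 𝒰) ∧ ∀ x, ∃ U ∈ 𝒰, x ∈ closure U

/-- The list of the first `n` moves of TWO (latest first). -/
def hist {α : Type} (U : ℕ → α) : ℕ → List α
  | 0 => []
  | n + 1 => U n :: hist U n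

/-- ONE has a winning strategy in `G₁(𝒦,𝒟)`. -/
def OneWins (X : Type) [TopologicalSpace X] : Prop :=
  ∃ σ : List (Set X) → Set (Set X), (∀ l, InK (σ l)) ∧
    ∀ U : ℕ → Set X, (∀ n, U n ∈ σ (hist U n)) → ¬ Dense (⋃ n, U n)

/-- `X` has `κ` pairwise disjoint nonempty open sets. -/
def HasCellular (X : Type) [TopologicalSpace X] (κ : Cardinal.{0}) : Prop :=
  ∃ 𝒱 : Set (Set X), (∀ V ∈ 𝒱, IsOpen V ∧ V.Nonempty) ∧ 𝒱.PairwiseDisjoint id ∧ #𝒱 = κ

/-- Strong measure zero sets of reals. -/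
def SMZ (Y : Set ℝ) : Prop :=
  ∀ ε : ℕ → ℝ, (∀ n, 0 < ε n) → ∃ a : ℕ → ℝ, Y ⊆ ⋃ n, Icc (a n) (a n + ε n)

/-- The least size of a set of reals that is not of strong measure zero. -/
noncomputable def nonSMZ : Cardinal.{0} := sInf {κ | ∃ Y : Set ℝ, ¬ SMZ Y ∧ #Y = κ}

end Pool.Agent.H25.GameJDefs
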