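import Mathlib
import Pool.Agent.H25.GameJDefs

set_option autoImplicit false

namespace Pool.Agent.H25.GameJ

open Set Filter Topology Pool.Agent.H25.GameJDefs
open Cardinal hiding univ

theorem smz_union (Y : ℕ → Set ℝ) (h : ∀ m, SMZ (Y m)) : SMZ (⋃ m, Y m) := by
  intro ε hε
  choose a ha using fun m => h m (fun n => ε (Nat.pair m n)) (fun n => hε _)
  refine ⟨fun k => a k.unpair.1 k.unpair.2, iUnion_subset (fun m y hy => ?_)⟩
  obtain ⟨n, hn⟩ := mem_iUnion.1 (ha m hy)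
  exact mem_iUnion.2 ⟨Nat.pair m n, by simpa using hn⟩

theorem not_smz_univ : ¬ SMZ univ := by
  intro h
  obtain ⟨a, ha⟩ := h (fun n => (1 / 2) ^ n) (fun n => by positivity)
  have h1 := (MeasureTheory.measure_mono (μ := MeasureTheory.volume) ha).trans
    (MeasureTheory.measure_iUnion_le _)
  simp only [Real.volume_univ, Real.volume_Icc, add_sub_cancel_left, top_le_iff] at h1
  rw [← ENNReal.ofReal_tsum_of_nonneg (fun n => by positivity) summable_geometric_two] at h1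
  exact ENNReal.ofReal_ne_top h1

theorem smz_of_lt {Y : Set ℝ} (h : #Y < nonSMZ) : SMZ Y := by
  by_contra h1
  exact absurd h (not_lt.2 (csInf_le' ⟨Y, h1, rfl⟩))

theorem select {T : Type} [Nonempty T] (hT : ∀ φ : T → ℝ, SMZ (range φ)) (𝒮 : ℕ → Set (Set T))
    (h𝒮 : ∀ n, (𝒮 n).Finite) : ∃ t : ℕ → T, ∀ s, ∃ n, ∀ S ∈ 𝒮 n, (s ∈ S ↔ t n ∈ S) := by
  classical
  obtain ⟨e, he⟩ := ((countable_iUnion (fun n => (h𝒮 n).countable)).insert ∅).exists_eq_range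
    (insert_nonempty _ _)
  let ψ : (ℕ → Bool) → ℝ := fun x => cantorSetHomeomorphNatToBool.symm x
  have hψ1 : Continuous ψ := continuous_subtype_val.comp cantorSetHomeomorphNatToBool.symm.continuous
  have hψ2 : Function.Injective ψ :=
    Subtype.val_injective.comp cantorSetHomeomorphNatToBool.symm.injective
  have h1 : ∀ j, ∃ ε : ℝ, 0 < ε ∧ ∀ x y : ℕ → Bool, |ψ x - ψ y| ≤ ε → x j = y j := by
    intro j
    have g1 : IsCompact {p : (ℕ → Bool) × (ℕ → Bool) | p.1 j ≠ p.2 j} := by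
      refine IsClosed.isCompact ?_
      exact (isClosed_discrete {q : Bool × Bool | q.1 ≠ q.2}).preimage
        (f := fun p : (ℕ → Bool) × (ℕ → Bool) => (p.1 j, p.2 j)) (by fun_prop)
    obtain ⟨p, g2, g3⟩ := g1.exists_isMinOn (f := fun p => |ψ p.1 - ψ p.2|)
      ⟨(fun _ => true, fun _ => false), by simp⟩ (by fun_prop)
    have g4 : 0 < |ψ p.1 - ψ p.2| :=
      abs_pos.2 (sub_ne_zero.2 (fun k => g2 (congrFun (hψ2 k) j)))
    refine ⟨|ψ p.1 - ψ p.2| / 2, by positivity, fun x y hxy => ?_⟩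
    by_contra g5
    have g6 : |ψ p.1 - ψ p.2| ≤ |ψ x - ψ y| := g3 (show (x, y) ∈ _ from g5)
    linarith
  choose ε hε1 hε2 using h1
  have h2 : ∀ n, ∃ δ : ℝ, 0 < δ ∧ ∀ S ∈ 𝒮 n, ∃ j, e j = S ∧ δ ≤ ε j := by
    intro n
    have g1 : ∀ S ∈ 𝒮 n, ∀ᶠ δ in 𝓝[>] (0 : ℝ), ∃ j, e j = S ∧ δ ≤ ε j := by
      intro S hS
      obtain ⟨j, hj⟩ : S ∈ range e := he ▸ mem_insert_of_mem _ (mem_iUnion.2 ⟨n, hS⟩)
      filter_upwards [Ioo_mem_nhdsGT (hε1 j)] with δ hδ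
      exact ⟨j, hj, hδ.2.le⟩
    obtain ⟨δ, g2, g3⟩ := (((eventually_all_finite (h𝒮 n)).2 g1).and self_mem_nhdsWithin).exists
    exact ⟨δ, g3, g2⟩
  choose δ hδ1 hδ2 using h2
  let φ : T → ℝ := fun t => ψ (fun j => decide (t ∈ e j))
  obtain ⟨a, ha⟩ := hT φ δ hδ1
  have h3 : ∀ n, ∃ t, (∃ s, φ s ∈ Icc (a n) (a n + δ n)) → φ t ∈ Icc (a n) (a n + δ n) := by
    intro n
    by_cases g : ∃ s, φ s ∈ Icc (a n) (a n + δ n)
    · exact g.imp (fun s hs _ => hs)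
    · exact ⟨Classical.arbitrary T, fun g1 => absurd g1 g⟩
  choose t ht using h3
  refine ⟨t, fun s => ?_⟩
  obtain ⟨n, hn⟩ := mem_iUnion.1 (ha ⟨s, rfl⟩)
  refine ⟨n, fun S hS => ?_⟩
  obtain ⟨j, rfl, hj⟩ := hδ2 n S hS
  have g1 := ht n ⟨s, hn⟩
  exact decide_eq_decide.1 (hε2 j _ _ (show |φ s - φ (t n)| ≤ ε j from
    (abs_le.2 ⟨by linarith [hn.1, g1.2], by linarith [hn.2, g1.1]⟩).trans hj))

theorem lower {T : Type} [Nonempty T] (hT : ∀ φ : T → ℝ, SMZ (range φ)) :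
    ¬ OneWins (Ultrafilter T) := by
  rintro ⟨σ, h1, h2⟩
  have h3 : ∀ l, ∃ F : Set (Set (Ultrafilter T)), F.Finite ∧ F ⊆ σ l ∧ ∀ t : T, ∃ U ∈ F, pure t ∈ U := by
    intro l
    obtain ⟨F, hF⟩ := isCompact_univ.elim_finite_subcover
      (fun U : σ l => {p : Ultrafilter T | {t | pure t ∈ U.1} ∈ p})
      (fun U => ultrafilter_isOpen_basic _) (fun x _ => by
        obtain ⟨U, g2, g3⟩ := (h1 l).2.2 x
        refine mem_iUnion.2 ⟨⟨U, g2⟩, closure_minimal (fun p hp => ?_)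
          (ultrafilter_isClosed_basic _) g3⟩
        obtain ⟨_, ⟨z, rfl⟩, g7, g8⟩ := ultrafilterBasis_is_basis.exists_subset_of_mem_open hp
          ((h1 l).1 U g2)
        exact mem_of_superset g7 (fun t ht => g8 ht))
    refine ⟨Subtype.val '' (F : Set (σ l)), F.finite_toSet.image _, by rintro _ ⟨U, -, rfl⟩; exact U.2,
      fun t => ?_⟩
    obtain ⟨U, g2, g3⟩ := mem_iUnion₂.1 (hF (mem_univ (pure t)))
    exact ⟨U, ⟨U, g2, rfl⟩, g3⟩
  choose F hF1 hF2 ch hch1 hch2 using h3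
  let L : ℕ → Set (List (Set (Ultrafilter T))) := fun n =>
    Nat.rec {[]} (fun _ A => ⋃ l ∈ A, (fun U => U :: l) '' F l) n
  have hL : ∀ n, (L n).Finite := by
    intro n
    induction n with
    | zero => exact finite_singleton _
    | succ n ih => exact ih.biUnion (fun l _ => (hF1 l).image _)
  obtain ⟨t, ht⟩ := select hT (fun n => (fun U => {s | pure s ∈ U}) '' ⋃ l ∈ L n, F l)
    (fun n => ((hL n).biUnion (fun l _ => hF1 l)).image _)
  let P : ℕ → List (Set (Ultrafilter T)) := fun n => Nat.rec [] (fun n l => ch l (t n) :: l) n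
  have h4 : ∀ n, hist (fun n => ch (P n) (t n)) n = P n := by
    intro n
    induction n with
    | zero => rfl
    | succ n ih => exact congrArg _ ih
  have h5 : ∀ n, P n ∈ L n := by
    intro n
    induction n with
    | zero => rfl
    | succ n ih => exact mem_biUnion ih ⟨_, hch1 _ _, rfl⟩
  refine h2 (fun n => ch (P n) (t n)) (fun n => (h4 n).symm ▸ hF2 _ (hch1 _ _))
    (denseRange_pure.mono ?_)
  rintro _ ⟨s, rfl⟩
  obtain ⟨n, hn⟩ := ht s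
  exact mem_iUnion.2 ⟨n, (hn _ ⟨_, mem_biUnion (h5 n) (hch1 _ _), rfl⟩).2 (hch2 _ _)⟩

theorem upper (X : Type) [TopologicalSpace X] (κ : Cardinal.{0}) (hκ : nonSMZ ≤ κ)
    (h : HasCellular X κ) : OneWins X := by
  classical
  obtain ⟨𝒱, h1, h2, h3⟩ := h
  obtain ⟨Y, hY1, hY2⟩ : nonSMZ ∈ {κ | ∃ Y : Set ℝ, ¬ SMZ Y ∧ #Y = κ} :=
    csInf_mem ⟨_, univ, not_smz_univ, rfl⟩
  obtain ⟨m, hm⟩ : ∃ m : ℕ, ¬ SMZ (Y ∩ Icc (-m) m) := by
    by_contra g
    push Not at g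
    refine hY1 (fun ε hε => (smz_union _ g ε hε).imp (fun a ha => Subset.trans (fun y hy => ?_) ha))
    obtain ⟨m, hm⟩ := exists_nat_ge |y|
    exact mem_iUnion.2 ⟨m, hy, abs_le.1 hm⟩
  obtain ⟨𝒲, g1, g2⟩ := zorn_subset_nonempty
    {𝒲 : Set (Set X) | (∀ V ∈ 𝒲, IsOpen V ∧ V.Nonempty) ∧ 𝒲.PairwiseDisjoint id}
    (fun c k1 k2 _ => ⟨⋃₀ c, ⟨fun V ⟨w, k3, k4⟩ => (k1 k3).1 V k4,
      (pairwiseDisjoint_sUnion k2.directedOn).2 (fun w k3 => (k1 k3).2)⟩,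
      fun s hs => subset_sUnion_of_mem hs⟩) 𝒱 ⟨h1, h2⟩
  have g3 : Dense (⋃₀ 𝒲) := by
    refine dense_iff_inter_open.2 (fun V k1 k2 => ?_)
    by_contra k3
    rw [not_nonempty_iff_eq_empty] at k3
    have k4 : ∀ w ∈ 𝒲, Disjoint V w := fun w hw =>
      (disjoint_iff_inter_eq_empty.2 k3).mono_right (subset_sUnion_of_mem hw)
    have k5 : V ∈ 𝒲 := g2.2 (y := insert V 𝒲) ⟨fun w hw => hw.elim (fun k => k ▸ ⟨k1, k2⟩)
      (g2.1.1 w), g2.1.2.insert (fun w hw _ => k4 w hw)⟩ (subset_insert _ _) (mem_insert _ _)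
    exact k2.ne_empty (disjoint_self.1 (k4 V k5))
  simp only [SMZ, not_forall, not_exists] at hm
  obtain ⟨ε, hε, hm⟩ := hm
  obtain ⟨j⟩ : Nonempty (↥(Y ∩ Icc (-m : ℝ) m) ↪ 𝒲) := by
    rw [← Cardinal.le_def]
    exact (mk_le_mk_of_subset inter_subset_left).trans (hY2.le.trans (hκ.trans (h3.ge.trans
      (mk_le_mk_of_subset g1))))
  let y : 𝒲 → ℝ := Function.extend j Subtype.val (fun _ => 0)
  have hy : ∀ w, y w ∈ Icc (-m : ℝ) m := by
    intro w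
    by_cases k : ∃ z, j z = w
    · obtain ⟨z, rfl⟩ := k
      rw [show y (j z) = z from j.injective.extend_apply _ _ z]
      exact z.2.2
    · rw [show y w = 0 from Function.extend_apply' _ _ _ k]
      exact ⟨by simp, by simp⟩
  have g4 : ∀ n, ∃ A : Finset ℝ, Icc (-m : ℝ) m ⊆ ⋃ a ∈ A, Ioo a (a + ε n) := by
    intro n
    refine isCompact_Icc.elim_finite_subcover _ (fun a => isOpen_Ioo) (fun x _ => ?_)
    exact mem_iUnion.2 ⟨x - ε n / 2, by linarith [hε n], by linarith [hε n]⟩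
  choose A hA using g4
  let U : ℕ → ℝ → Set X := fun n a => ⋃ w ∈ {w : 𝒲 | y w ∈ Icc a (a + ε n)}, (w : Set X)
  have g5 : ∀ n, ⋃₀ 𝒲 ⊆ ⋃ a ∈ A n, U n a := by
    rintro n x ⟨w, k1, k2⟩
    obtain ⟨a, k3, k4⟩ := mem_iUnion₂.1 (hA n (hy ⟨w, k1⟩))
    exact mem_biUnion k3 (mem_biUnion (x := ⟨w, k1⟩) (Ioo_subset_Icc_self k4) k2)
  have g6 : ∀ (V : ℕ → Set X) n, (hist V n).length = n := by
    intro V n
    induction n with
    | zero => rfl
    | succ n ih => exact congrArg (· + 1) ih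
  refine ⟨fun l => U l.length '' A l.length, fun l => ⟨?_, g3.mono ?_, fun x => ?_⟩, fun V hV k => ?_⟩
  · rintro _ ⟨a, -, rfl⟩
    exact isOpen_biUnion (fun w _ => (g2.1.1 w w.2).1)
  · rw [sUnion_image]
    exact g5 _
  · have k := g3.mono (g5 l.length) x
    rw [Finset.closure_biUnion] at k
    obtain ⟨a, k1, k2⟩ := mem_iUnion₂.1 k
    exact ⟨_, ⟨a, k1, rfl⟩, k2⟩
  · choose a _ ha using hV
    simp only [g6] at ha
    obtain ⟨z, k1, k2⟩ := not_subset.1 (hm a)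
    obtain ⟨x, k3, k4⟩ := dense_iff_inter_open.1 k _ (g2.1.1 _ (j ⟨z, k1⟩).2).1 (g2.1.1 _ (j ⟨z, k1⟩).2).2
    obtain ⟨n, k5⟩ := mem_iUnion.1 k4
    rw [← ha n] at k5
    obtain ⟨w, k6, k7⟩ := mem_iUnion₂.1 k5
    have k8 : j ⟨z, k1⟩ = w := Subtype.ext (g2.1.2.elim_set (j ⟨z, k1⟩).2 w.2 x k3 k7)
    refine k2 (mem_iUnion.2 ⟨n, ?_⟩)
    have k9 : y w = z := k8 ▸ j.injective.extend_apply _ _ _
    exact k9 ▸ k6

theorem main (κ : Cardinal.{0}) :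
    (∀ (X : Type) [TopologicalSpace X] [T35Space X], HasCellular X κ → OneWins X) ↔ nonSMZ ≤ κ := by
  refine ⟨fun h => not_lt.1 (fun g => ?_), fun h X _ _ g => upper X κ h g⟩
  refine lower (T := Option κ.out) (fun φ => ?_) (h _ ⟨range (fun s : κ.out =>
    {p : Ultrafilter (Option κ.out) | {some s} ∈ p}), ?_, ?_, ?_⟩)
  · intro ε hε
    obtain ⟨a, ha⟩ := smz_of_lt (Y := range (φ ∘ some)) (lt_of_le_of_lt (mk_range_le.trans
      (mk_out κ).le) g) (fun n => ε (n + 1)) (fun n => hε _)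
    refine ⟨fun n => Nat.casesOn n (φ none) a, ?_⟩
    rintro _ ⟨_ | s, rfl⟩
    · exact mem_iUnion.2 ⟨0, le_rfl, le_add_of_nonneg_right (hε 0).le⟩
    · obtain ⟨n, hn⟩ := mem_iUnion.1 (ha ⟨s, rfl⟩)
      exact mem_iUnion.2 ⟨n + 1, hn⟩
  · rintro _ ⟨s, rfl⟩
    exact ⟨ultrafilter_isOpen_basic _, pure (some s), rfl⟩
  · rintro _ ⟨s, rfl⟩ _ ⟨t, rfl⟩ hst
    refine disjoint_left.2 (fun p k1 k2 => hst ?_)
    obtain ⟨x, k3, k4⟩ := p.nonempty_of_mem (inter_mem k1 k2)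
    rw [Option.some.inj (k3.symm.trans k4)]
  · rw [mk_range_eq _ (fun s t hst => ?_), mk_out]
    have k : (pure (some s) : Ultrafilter (Option κ.out)) ∈
      {p : Ultrafilter (Option κ.out) | {some t} ∈ p} := hst.le rfl
    exact Option.some.inj k

end Pool.Agent.H25.GameJ
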