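import Mathlib

set_option autoImplicit false
open Set Filter Topology

namespace Pool.Agent.H25.Heis

def B : Type := ℕ →₀ ZMod 2

noncomputable instance : AddCommGroup B := inferInstanceAs (AddCommGroup (ℕ →₀ ZMod 2))
noncomputable instance : Module (ZMod 2) B := inferInstanceAs (Module (ZMod 2) (ℕ →₀ ZMod 2))
instance : TopologicalSpace B := ⊥
instance : DiscreteTopology B := ⟨rfl⟩
instance : Infinite B := inferInstanceAs (Infinite (ℕ →₀ ZMod 2))

abbrev Z := ℕ × ℕ → UnitAddCircle

def co (b : B) (i : ℕ) : ZMod 2 := (show ℕ →₀ ZMod 2 from b) i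

noncomputable def β (a b : B) : Z := fun p => ZMod.toAddCircle (co a p.1 * co b p.2)

theorem β1 (a b c : B) : β (a + b) c = β a c + β b c := funext fun _ =>
  (congrArg _ (add_mul _ _ _)).trans (map_add _ _ _)

theorem β2 (a b c : B) : β a (b + c) = β a b + β a c := funext fun _ =>
  (congrArg _ (mul_add _ _ _)).trans (map_add _ _ _)

theorem β3 (a : B) : β 0 a = 0 := funext fun _ => (congrArg _ (zero_mul _)).trans (map_zero _)

theorem β4 (a : B) : β a 0 = 0 := funext fun _ => (congrArg _ (mul_zero _)).trans (map_zero _)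

def G : Type := B × Z

instance : TopologicalSpace G := inferInstanceAs (TopologicalSpace (B × Z))
instance : LocallyCompactSpace G := inferInstanceAs (LocallyCompactSpace (B × Z))
instance : T2Space G := inferInstanceAs (T2Space (B × Z))

noncomputable instance : Mul G := ⟨fun x y => (x.1 + y.1, x.2 + y.2 + β x.1 y.1)⟩
noncomputable instance : One G := ⟨(0, 0)⟩
noncomputable instance : Inv G := ⟨fun x => (-x.1, -x.2 - β (-x.1) x.1)⟩

theorem m1 (x y : G) : (x * y).1 = x.1 + y.1 := rfl
theorem m2 (x y : G) : (x * y).2 = x.2 + y.2 + β x.1 y.1 := rfl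

noncomputable instance : Group G := Group.ofLeftAxioms
  (fun x y z => Prod.ext (add_assoc _ _ _) (by simp only [m1, m2, β1, β2]; abel))
  (fun x => Prod.ext (zero_add _) (show 0 + x.2 + β 0 x.1 = x.2 by simp [β3]))
  fun x => Prod.ext (neg_add_cancel _) (show -x.2 - β (-x.1) x.1 + x.2 + β (-x.1) x.1 = 0 by abel)

theorem βc : Continuous fun p : B × B => β p.1 p.2 := continuous_of_discreteTopology

instance : IsTopologicalGroup G where
  continuous_mul := Continuous.prodMk
    ((continuous_of_discreteTopology (f := fun p : B × B => p.1 + p.2)).comp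
      (continuous_fst.fst.prodMk continuous_snd.fst))
    ((continuous_fst.snd.add continuous_snd.snd).add
      (βc.comp (continuous_fst.fst.prodMk continuous_snd.fst)))
  continuous_inv := Continuous.prodMk
    ((continuous_of_discreteTopology (f := fun p : B => -p)).comp continuous_fst)
    (continuous_snd.neg.sub
      ((continuous_of_discreteTopology (f := fun p : B => β (-p) p)).comp continuous_fst))

theorem cpt {s : Set G} {F : Set B} (hF : F.Finite) (h : ∀ x ∈ s, x.1 ∈ F) :
    IsCompact (closure s) := by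
  have : IsCompact (F ×ˢ univ : Set (B × Z)) := hF.isCompact.prod isCompact_univ
  exact this.of_isClosed_subset isClosed_closure
    (closure_minimal (fun x hx => ⟨h x hx, trivial⟩) this.isClosed)

theorem sin (U : Set G) (hU : U ∈ 𝓝 (1 : G)) :
    ∃ V ∈ 𝓝 (1 : G), V ⊆ U ∧ ∀ g x : G, x ∈ V → g * x * g⁻¹ ∈ V := by
  refine ⟨U ∩ Prod.fst ⁻¹' {0}, inter_mem hU
    (((isOpen_discrete _).preimage continuous_fst).mem_nhds rfl), inter_subset_left,
    fun g x hx => ?_⟩
  have h : x.1 = 0 := hx.2
  have : g * x = x * g := Prod.ext (add_comm _ _) (by rw [m2, m2, h, β3, β4, add_comm g.2])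
  rwa [this, mul_inv_cancel_right]

theorem ab (H : Subgroup G) (h : ∀ a ∈ H, ∀ b ∈ H, a * b = b * a) :
    IsCompact (closure (H : Set G)) := by
  by_cases e : ∃ a ∈ H, a.1 ≠ 0
  · obtain ⟨a, a1, a2⟩ := e
    refine cpt (F := {0, a.1}) (toFinite _) fun b hb => ?_
    have h1 := congrArg Prod.snd (h a a1 b hb)
    rw [m2, m2, add_comm a.2, add_right_inj] at h1
    have h2 : ∀ i j, co a.1 i * co b.1 j = co b.1 i * co a.1 j := fun i j =>
      ZMod.toAddCircle_injective 2 (congrFun h1 (i, j))
    obtain ⟨i, hi⟩ : ∃ i, co a.1 i ≠ 0 := Finsupp.ne_iff.1 a2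
    have h3 : ∀ x y z w : ZMod 2, x ≠ 0 → x * y = z * w → (z = 0 → y = 0) ∧ (z ≠ 0 → y = w) := by
      decide
    by_cases e : co b.1 i = 0
    · exact .inl (Finsupp.ext fun j => (h3 _ _ _ _ hi (h2 i j)).1 e)
    · exact .inr (Finsupp.ext fun j => (h3 _ _ _ _ hi (h2 i j)).2 e)
  · push Not at e
    exact cpt (finite_singleton 0) e

theorem lf (K : Set G) (hK : IsCompact (closure K)) :
    IsCompact (closure ((Subgroup.closure K : Subgroup G) : Set G)) := by
  have h1 := (hK.image (f := fun x : G => x.1) continuous_fst).finite_of_discrete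
  have := Module.Finite.span_of_finite (ZMod 2) h1
  have h2 := Module.finite_of_finite (ZMod 2)
    (M := Submodule.span (ZMod 2) ((fun x : G => x.1) '' closure K))
  refine cpt (F := Submodule.span (ZMod 2) ((fun x : G => x.1) '' closure K)) (toFinite _)
    fun x hx => ?_
  induction hx using Subgroup.closure_induction with
  | mem x h => exact Submodule.subset_span ⟨x, subset_closure h, rfl⟩
  | one => exact zero_mem _
  | mul _ _ _ _ a b => exact add_mem a b
  | inv _ _ a => exact neg_mem a

noncomputable def ι (z : Z) : G := (0, z)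

def π (x : G) : B := x.1

theorem ntd : ¬ TotallyDisconnectedSpace G := by
  intro h
  have hc : Continuous ι := Continuous.prodMk_right _
  have h1 := (isPreconnected_range hc).subsingleton ⟨0, rfl⟩
    ⟨fun _ => ZMod.toAddCircle (1 : ZMod 2), rfl⟩
  exact absurd (ZMod.toAddCircle_injective 2 ((map_zero _).trans
    (congrFun (congrArg Prod.snd h1) (0, 0)))) (by decide)

theorem nc : ¬ CompactSpace G := by
  intro h
  have hc : Continuous π := continuous_fst
  exact infinite_univ (α := B) ((isCompact_range hc).finite_of_discrete.subset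
    fun b _ => ⟨(b, 0), rfl⟩)

end Pool.Agent.H25.Heis
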