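import Mathlib

/-! Tools for the Helly space: left condensation points, finite dependence, Baire class one. -/

set_option autoImplicit false

namespace Pool.Agent.H25.Helly1

open Set Topology Filter unitInterval

theorem cond1 (B : Set ℝ) : {x | x ∈ B ∧ ∃ N ∈ 𝓝[<] x, (B ∩ N).Countable}.Countable := by
  let O : Set ℝ := {x | ∃ N ∈ 𝓝 x, (B ∩ N).Countable}
  have hO : (B ∩ O).Countable := by
    have h1 : ∀ x, ∃ N, x ∈ O → N ∈ 𝓝 x ∧ (B ∩ N).Countable := fun x => by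
      by_cases hx : x ∈ O
      · obtain ⟨N, h⟩ := hx
        exact ⟨N, fun _ => h⟩
      · exact ⟨∅, fun h => absurd h hx⟩
    choose N hN using h1
    obtain ⟨t, ht, htc, hs⟩ := TopologicalSpace.countable_cover_nhdsWithin (f := N) (s := O)
      fun x hx => mem_nhdsWithin_of_mem_nhds (hN x hx).1
    refine (htc.biUnion fun x hx => (hN x (ht hx)).2).mono ?_
    rintro x ⟨h1, h2⟩
    obtain ⟨z, hz, h3⟩ := mem_iUnion₂.1 (hs h2)
    exact mem_iUnion₂.2 ⟨z, hz, h1, h3⟩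
  refine (hO.union (countable_setOfPred_isolated_left_within (s := Oᶜ))).mono ?_
  rintro x ⟨hx, N, hN, hc⟩
  by_cases h : x ∈ O
  · exact Or.inl ⟨hx, h⟩
  refine Or.inr ⟨h, ?_⟩
  obtain ⟨l, hl, hs⟩ := mem_nhdsLT_iff_exists_Ioo_subset.1 hN
  rw [← empty_mem_iff_bot, mem_nhdsWithin]
  refine ⟨Ioi l, isOpen_Ioi, hl, ?_⟩
  rintro z ⟨h1, h2, h3⟩
  exact h2 ⟨Ioo l x, Ioo_mem_nhds h1 h3, hc.mono (inter_subset_inter_right _ hs)⟩

theorem findep (Φ : C(ℝ → I, ℝ)) (e : ℝ) (he : 0 < e) : ∃ E : Set ℝ, E.Finite ∧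
    ∀ f g : ℝ → I, (∀ t ∈ E, f t = g t) → |Φ f - Φ g| < e := by
  have h := CompactSpace.uniformContinuous_of_continuous Φ.continuous
  have h1 := h (Metric.dist_mem_uniformity he)
  rw [mem_map, Pi.uniformity, Filter.mem_iInf] at h1
  obtain ⟨E, hE, V, hV, h2⟩ := h1
  refine ⟨E, hE, fun f g hfg => ?_⟩
  have h3 : (f, g) ∈ ⋂ i, V i := mem_iInter.2 fun i => by
    obtain ⟨W, hW, h4⟩ := mem_comap.1 (hV i)
    apply h4
    show (f i, g i) ∈ W
    rw [hfg i i.2]
    exact refl_mem_uniformity hW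
  rw [← h2] at h3
  exact h3

theorem baire1 (f : ℝ → I) (hf : Monotone f) : ∃ u : ℕ → ℝ → ℝ, (∀ n, Continuous (u n)) ∧
    ∀ x, Tendsto (fun n => u n x) atTop (𝓝 (f x : ℝ)) := by
  classical
  have hm : Monotone fun x => (f x : ℝ) := fun a b h => hf h
  obtain ⟨d, hd⟩ := (hm.countable_not_continuousAt.union
    (countable_range ((↑) : ℚ → ℝ))).exists_eq_range ⟨(0 : ℚ), Or.inr ⟨0, rfl⟩⟩
  have hL : ∀ n : ℕ, ∃ L : ℝ, n ≤ L ∧ ∀ i ≤ n, ∀ j ≤ n, d i < d j → 1 ≤ L * (d j - d i) := by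
    intro n
    have : ∀ᶠ L : ℝ in atTop, ∀ i ∈ Iic n, ∀ j ∈ Iic n, d i < d j → 1 ≤ L * (d j - d i) := by
      refine (eventually_all_finite (finite_Iic n)).2 fun i _ =>
        (eventually_all_finite (finite_Iic n)).2 fun j _ => ?_
      by_cases h : d i < d j
      · filter_upwards [eventually_ge_atTop (1 / (d j - d i))] with L hL _
        rwa [div_le_iff₀ (sub_pos.2 h)] at hL
      · exact Eventually.of_forall fun _ h' => absurd h' h
    exact ((eventually_ge_atTop (n : ℝ)).and this).exists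
  choose L hL1 hL2 using hL
  have L0 : ∀ n, 0 ≤ L n := fun n => (Nat.cast_nonneg n).trans (hL1 n)
  have ne : ∀ n, (Finset.Iic n : Finset ℕ).Nonempty := fun n => ⟨0, by simp⟩
  refine ⟨fun n x => (Finset.Iic n).sup' (ne n) fun i => (f (d i) : ℝ) - L n * max (d i - x) 0,
    fun n => Continuous.finset_sup'_apply (ne n) fun i _ => by fun_prop, fun x => ?_⟩
  have low : ∀ i, d i ≤ x → ∀ᶠ n in atTop, (f (d i) : ℝ) ≤
      (Finset.Iic n).sup' (ne n) fun i => (f (d i) : ℝ) - L n * max (d i - x) 0 := by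
    intro i hi
    filter_upwards [eventually_ge_atTop i] with n hn
    refine Finset.le_sup'_of_le _ (Finset.mem_Iic.2 hn) ?_
    rw [max_eq_right (sub_nonpos.2 hi)]
    simp
  have up : ∀ (n : ℕ) (c : ℝ), (f x : ℝ) ≤ c → (∀ i ≤ n, x < d i → (f (d i) : ℝ) ≤ c ∨
      1 ≤ L n * (d i - x)) →
      ((Finset.Iic n).sup' (ne n) fun i => (f (d i) : ℝ) - L n * max (d i - x) 0) ≤ c := by
    intro n c hc h
    refine Finset.sup'_le _ _ fun i hi => ?_
    have h0 := mul_nonneg (L0 n) (le_max_right (d i - x) 0)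
    by_cases hx : x < d i
    · rcases h i (Finset.mem_Iic.1 hi) hx with h | h
      · linarith
      · rw [max_eq_left (sub_nonneg.2 hx.le)]
        linarith [(f (d i)).2.2, (f x).2.1]
    · linarith [hm (not_lt.1 hx)]
  by_cases hx : ContinuousAt (fun x => (f x : ℝ)) x
  · rw [tendsto_order]
    constructor
    · intro a ha
      obtain ⟨l, hl, hs⟩ := mem_nhdsLT_iff_exists_Ioo_subset.1
        (mem_nhdsWithin_of_mem_nhds (hx.eventually (lt_mem_nhds ha)))
      obtain ⟨q, h1, h2⟩ := exists_rat_btwn (show l < x from hl)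
      obtain ⟨i, hi⟩ : (q : ℝ) ∈ range d := hd ▸ Or.inr ⟨q, rfl⟩
      filter_upwards [low i (hi ▸ h2.le)] with n hn
      refine lt_of_lt_of_le ?_ hn
      rw [hi]
      exact hs ⟨h1, h2⟩
    · intro a ha
      obtain ⟨c, h1, h2⟩ := exists_between ha
      obtain ⟨l, hl, hs⟩ := mem_nhdsGT_iff_exists_Ioo_subset.1
        (mem_nhdsWithin_of_mem_nhds (hx.eventually (gt_mem_nhds h1)))
      have hl' : 0 < l - x := sub_pos.2 hl
      obtain ⟨m, hm'⟩ := exists_nat_ge (1 / (l - x))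
      filter_upwards [eventually_ge_atTop m] with n hn
      refine (up n c h1.le fun i _ hi => ?_).trans_lt h2
      by_cases h3 : d i < l
      · exact Or.inl (le_of_lt (hs ⟨hi, h3⟩))
      · right
        rw [div_le_iff₀ hl'] at hm'
        have h4 : (m : ℝ) ≤ L n := (Nat.cast_le.2 hn).trans (hL1 n)
        nlinarith [not_lt.1 h3, L0 n]
  · obtain ⟨i, hi⟩ : x ∈ range d := hd ▸ Or.inl hx
    refine tendsto_const_nhds.congr' ?_
    filter_upwards [low i hi.le, eventually_ge_atTop i] with n h1 h2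
    refine le_antisymm (hi ▸ h1) (up n _ le_rfl fun j hj hxj => Or.inr ?_)
    rw [← hi] at hxj ⊢
    exact hL2 n i h2 j hj hxj

end Pool.Agent.H25.Helly1
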