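import Pool.Agent.H25.Helly1

/-! Splitting of jumps in the Helly space. -/

set_option autoImplicit false

namespace Pool.Agent.H25.Helly2

open Set Topology Filter unitInterval Pool.Agent.H25.Helly1

noncomputable def F (P : Set (ℝ × I)) (t : ℝ) : I := sSup (Prod.snd '' {p | p ∈ P ∧ p.1 ≤ t})

noncomputable def M (g : ℝ → I) (x : ℝ) (u v : I) (t : ℝ) : I :=
  g t ⊔ (if x < t then v else if x ≤ t then u else ⊥)

theorem F_mono (P : Set (ℝ × I)) : Monotone (F P) := fun _ _ h =>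
  sSup_le_sSup (image_mono fun _ hp => ⟨hp.1, hp.2.trans h⟩)

theorem F_insert (P : Set (ℝ × I)) (b : ℝ) (v : I) : F (insert (b, v) P) = M (F P) b v v := by
  funext t
  unfold F M
  by_cases h : b ≤ t
  · have : {p | p ∈ insert (b, v) P ∧ p.1 ≤ t} = insert (b, v) {p | p ∈ P ∧ p.1 ≤ t} := by
      ext p
      simp only [mem_insert_iff, mem_ofPred_eq]
      constructor
      · rintro ⟨h1 | h1, h2⟩
        · exact Or.inl h1
        · exact Or.inr ⟨h1, h2⟩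
      · rintro (rfl | h1)
        · exact ⟨Or.inl rfl, h⟩
        · exact ⟨Or.inr h1.1, h1.2⟩
    rw [this, image_insert_eq, sSup_insert, if_pos h, ite_self, sup_comm]
  · have : {p | p ∈ insert (b, v) P ∧ p.1 ≤ t} = {p | p ∈ P ∧ p.1 ≤ t} := by
      ext p
      simp only [mem_insert_iff, mem_ofPred_eq]
      constructor
      · rintro ⟨rfl | h1, h2⟩
        · exact absurd h2 h
        · exact ⟨h1, h2⟩
      · exact fun h1 => ⟨Or.inr h1.1, h1.2⟩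
    rw [this, if_neg h, if_neg (fun h' => h h'.le), sup_bot_eq]

theorem M_absorb {P : Set (ℝ × I)} {x : ℝ} {v w : I} (h : (x, v) ∈ P) (hw : w ≤ v) :
    M (F P) x w w = F P := by
  funext t
  unfold M
  by_cases h1 : x ≤ t
  · rw [if_pos h1, ite_self]
    exact sup_eq_left.2 (hw.trans (le_sSup ⟨(x, v), ⟨h, h1⟩, rfl⟩))
  · rw [if_neg h1, if_neg (fun h' => h1 h'.le), sup_bot_eq]

theorem M_M (g : ℝ → I) (x : ℝ) {u v w : I} (hw : w ≤ v) :
    M (M g x w w) x u v = M g x (w ⊔ u) v := by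
  funext t
  unfold M
  split_ifs
  · rw [sup_assoc, sup_eq_right.2 hw]
  · rw [sup_assoc]
  · simp

theorem tends (g : ℝ → I) (x : ℝ) (w : I) :
    Tendsto (fun z => M g z w w) (𝓝[<] x) (𝓝 (M g x w w)) := by
  refine tendsto_pi_nhds.2 fun t => tendsto_const_nhds.congr' ?_
  by_cases h : x ≤ t
  · filter_upwards [self_mem_nhdsWithin] with z hz
    simp only [M, if_pos h, if_pos (le_trans (le_of_lt hz) h), ite_self]
  · filter_upwards [Ioo_mem_nhdsLT (not_le.1 h)] with z hz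
    simp only [M, if_neg h, if_neg (not_le.2 hz.1), if_neg (not_lt.2 hz.1.le),
      if_neg (not_lt.2 (not_le.1 h).le)]

theorem cont_g (x : ℝ) (u v : I) : Continuous fun g : ℝ → I => M g x u v :=
  continuous_pi fun t => (continuous_apply t).sup continuous_const

theorem cont_u (g : ℝ → I) (x : ℝ) (v : I) : Continuous fun u : I => M g x u v := by
  refine continuous_pi fun t => continuous_const.sup ?_
  split_ifs
  · exact continuous_const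
  · exact continuous_id
  · exact continuous_const

variable {Y : Type} [PseudoMetricSpace Y] [SecondCountableTopology Y]
  (y : ℝ → Y) (Φ : ℝ → C(ℝ → I, ℝ)) (E : ℝ → ℕ → Set ℝ) (Q : Set I)

abbrev Ix (Y : Type) := ℕ × Set Y × Set (ℝ × ℝ × I) × I × I × ℚ × ℚ × ℚ

def B (i : Ix Y) : Set ℝ := {z | y z ∈ i.2.1 ∧ (∀ p ∈ i.2.2.1, ∀ t ∈ E z i.1, t ∉ Ico p.1 p.2.1) ∧
  (∀ t ∈ E z i.1, t ∉ Ioo z i.2.2.2.2.2.1) ∧
  |Φ z (M (F ((fun p => (p.1, p.2.2)) '' i.2.2.1)) z ⊥ i.2.2.2.2.1) - i.2.2.2.2.2.2.1| <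
    1 / ((i.1 : ℝ) + 1) ∧
  |Φ z (M (F ((fun p => (p.1, p.2.2)) '' i.2.2.1)) z i.2.2.2.1 i.2.2.2.2.1) - i.2.2.2.2.2.2.2| <
    1 / ((i.1 : ℝ) + 1)}

def Adm (C : Set ℝ) : Set (Ix Y) := univ ×ˢ TopologicalSpace.countableBasis Y ×ˢ
  {t | t.Finite ∧ t ⊆ (C ∪ range ((↑) : ℚ → ℝ)) ×ˢ (C ∪ range ((↑) : ℚ → ℝ)) ×ˢ Q} ×ˢ Q ×ˢ Q ×ˢ univ

def Good (C : Set ℝ) (x : ℝ) : Prop :=
  ∀ i ∈ Adm Q C, x ∈ B y Φ E i → ∀ N ∈ 𝓝[<] x, ¬ (B y Φ E i ∩ N).Countable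

theorem bad_countable (hQ : Q.Countable) {C : Set ℝ} (hC : C.Countable) :
    {x | ¬ Good y Φ E Q C x}.Countable := by
  have h1 := hC.union (countable_range ((↑) : ℚ → ℝ))
  have h2 : (Adm (Y := Y) Q C).Countable := countable_univ.prod
    ((TopologicalSpace.countable_countableBasis Y).prod ((countable_ofPred_finite_subset
      (h1.prod (h1.prod hQ))).prod (hQ.prod (hQ.prod countable_univ))))
  refine (h2.biUnion fun i _ => cond1 (B y Φ E i)).mono fun x hx => ?_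
  simp only [Good, mem_ofPred_eq, not_forall, not_not] at hx
  obtain ⟨i, h3, h4, N, h5, h6⟩ := hx
  exact mem_iUnion₂.2 ⟨i, h3, h4, N, h5, h6⟩

def Nice (x : ℝ) (P : Set (ℝ × I)) : Prop :=
  ∃ C : Set ℝ, Good y Φ E Q C x ∧ ∀ p ∈ P, p.1 ∈ C ∨ ∀ n, p.1 ∉ E x n

theorem core (hE : ∀ x n, (E x n).Finite ∧ ∀ f g : ℝ → I, (∀ t ∈ E x n, f t = g t) →
      |Φ x f - Φ x g| < 1 / ((n : ℝ) + 1)) (hQ : Dense Q)
    {x : ℝ} {v : I} {η ρ : ℝ} {P : Set (ℝ × I)} (hP : P.Finite) (hPQ : ∀ p ∈ P, p.2 ∈ Q)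
    (hv : v ∈ Q) (hN : Nice y Φ E Q x P) (h0 : 0 < η)
    (hη : η < |Φ x (M (F P) x v v) - Φ x (M (F P) x ⊥ v)|) (hρ : 0 < ρ) :
    ∃ w ∈ Q, w ≤ v ∧ η < |Φ x (M (F P) x v v) - Φ x (M (F P) x w v)| ∧ ∃ η', 0 < η' ∧
      ∀ N ∈ 𝓝[<] x, ∀ K : Set ℝ, K.Countable → ∃ z ∈ N, z ∉ K ∧ dist (y z) (y x) < ρ ∧
        η' < |Φ z (M (M (F P) x v v) z w w) - Φ z (M (M (F P) x v v) z ⊥ w)| ∧
        η < |Φ z (M (M (F P) x v v) z w w) - Φ x (M (M (F P) x v v) z w w)| := by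
  set g := F P with hg
  let h : I → ℝ := fun u => Φ x (M g x u v)
  have hc : Continuous h := Φ x |>.continuous.comp (cont_u g x v)
  obtain ⟨w, hwQ, hw1, hw2, hw3⟩ : ∃ w ∈ Q, w < v ∧ η < |h v - h w| ∧ h w ≠ h ⊥ := by
    have ho : IsOpen {w | w < v ∧ η < |h v - h w| ∧ h w ≠ h ⊥} :=
      isOpen_Iio.inter ((isOpen_lt continuous_const (continuous_const.sub hc).abs).inter
        (isOpen_ne_fun hc continuous_const))
    have hi := intermediate_value_Icc' (bot_le (a := v))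
      (f := fun u => |h v - h u|) (continuous_const.sub hc).abs.continuousOn
    obtain ⟨c, c1, c2⟩ := exists_between (show η < |h v - h ⊥| from hη)
    obtain ⟨u, hu, hu'⟩ := hi (show c ∈ _ from ⟨by simpa using (h0.trans c1).le, c2.le⟩)
    obtain ⟨w, h1, h2⟩ := hQ.inter_open_nonempty _ ho ⟨u, lt_of_le_of_ne hu.2 (by
      rintro rfl
      simp only [sub_self, abs_zero] at hu'
      linarith), c1.trans_eq hu'.symm, fun h' => by
        simp only [h'] at hu'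
        exact c2.ne' hu'⟩
    exact ⟨w, h2, h1⟩
  have p1 : 0 < |h w - h ⊥| := abs_pos.2 (sub_ne_zero.2 hw3)
  obtain ⟨n, hn⟩ := exists_nat_one_div_lt
    (show 0 < min (|h w - h ⊥| / 10) ((|h v - h w| - η) / 5) by
      apply lt_min <;> linarith)
  obtain ⟨n1, n2⟩ := lt_min_iff.1 hn
  set e : ℝ := 1 / ((n : ℝ) + 1) with he
  have e0 : 0 < e := Nat.one_div_pos_of_nat
  refine ⟨w, hwQ, hw1.le, hw2, e, e0, fun N hN' K hK => ?_⟩
  obtain ⟨C, hG, hC⟩ := hN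
  have h1 : ∀ p : ℝ × I, ∃ b c : ℝ, p ∈ P → b ∈ C ∪ range ((↑) : ℚ → ℝ) ∧
      c ∈ C ∪ range ((↑) : ℚ → ℝ) ∧ b ≤ p.1 ∧ p.1 ≤ c ∧ ∀ t ∈ E x n, t ∉ Ico b c := by
    intro p
    by_cases hp : p ∈ P
    · rcases hC p hp with h2 | h2
      · exact ⟨p.1, p.1, fun _ => ⟨Or.inl h2, Or.inl h2, le_rfl, le_rfl, by simp⟩⟩
      · obtain ⟨l, u, ⟨a1, a2⟩, a3⟩ := mem_nhds_iff_exists_Ioo_subset.1
          ((hE x n).1.isClosed.isOpen_compl.mem_nhds (h2 n))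
        obtain ⟨q, b1, b2⟩ := exists_rat_btwn a1
        obtain ⟨r, c1, c2⟩ := exists_rat_btwn a2
        exact ⟨q, r, fun _ => ⟨Or.inr ⟨q, rfl⟩, Or.inr ⟨r, rfl⟩, b2.le, c1.le,
          fun t ht h3 => a3 ⟨b1.trans_le h3.1, h3.2.trans c2⟩ ht⟩⟩
    · exact ⟨0, 0, fun h => absurd h hp⟩
  choose b c hbc using h1
  let T : Set (ℝ × ℝ × I) := (fun p => (b p, c p, p.2)) '' P
  set g' := F ((fun p => (p.1, p.2.2)) '' T) with hg'
  have agree : ∀ t, (∀ p ∈ T, t ∉ Ico p.1 p.2.1) → g t = g' t := by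
    intro t ht
    simp only [hg, hg', F]
    congr 1
    ext s
    constructor
    · rintro ⟨p, ⟨hp, hpt⟩, rfl⟩
      exact ⟨(b p, p.2), ⟨⟨_, ⟨p, hp, rfl⟩, rfl⟩, (hbc p hp).2.2.1.trans hpt⟩, rfl⟩
    · rintro ⟨_, ⟨⟨_, ⟨p, hp, rfl⟩, rfl⟩, hpt⟩, rfl⟩
      refine ⟨p, ⟨hp, ?_⟩, rfl⟩
      by_contra hh
      exact ht _ ⟨p, hp, rfl⟩ ⟨hpt, (not_le.1 hh).trans_le (hbc p hp).2.2.2.1⟩
  obtain ⟨U, hU, hyU, hUs⟩ := (TopologicalSpace.isBasis_countableBasis Y).exists_subset_of_mem_open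
    (Metric.mem_ball_self (x := y x) hρ) Metric.isOpen_ball
  obtain ⟨q, q1, q2⟩ : ∃ q : ℚ, x < q ∧ ∀ t ∈ E x n, t ∉ Ioo x q := by
    obtain ⟨l, u, ⟨a1, a2⟩, a3⟩ := mem_nhds_iff_exists_Ioo_subset.1
      ((((hE x n).1.subset (sdiff_subset (t := {x}))).isClosed.isOpen_compl.mem_nhds
        (show x ∉ E x n \ {x} from fun h => h.2 rfl)))
    obtain ⟨r, c1, c2⟩ := exists_rat_btwn a2
    exact ⟨r, c1, fun t ht h3 => a3 ⟨a1.trans h3.1, h3.2.trans c2⟩ ⟨ht, h3.1.ne'⟩⟩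
  obtain ⟨r0, hr0⟩ := exists_rat_near (Φ x (M g' x ⊥ v)) e0
  obtain ⟨r1, hr1⟩ := exists_rat_near (Φ x (M g' x w v)) e0
  have hxT : ∀ p ∈ T, ∀ t ∈ E x n, t ∉ Ico p.1 p.2.1 := by
    rintro _ ⟨p, hp, rfl⟩
    exact (hbc p hp).2.2.2.2
  have hunc := hG (n, U, T, w, v, q, r0, r1) ⟨trivial, hU, ⟨hP.image _, by
    rintro _ ⟨p, hp, rfl⟩
    exact ⟨(hbc p hp).1, (hbc p hp).2.1, hPQ p hp⟩⟩, hwQ, hv, trivial⟩
    ⟨hyU, hxT, q2, hr0, hr1⟩
  have t1 : ∀ᶠ z in 𝓝[<] x, |Φ x (M (M g x v v) z w w) - h v| < e := by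
    have := ((Φ x).continuous.tendsto _).comp (tends (M g x v v) x w)
    rw [show M (M g x v v) x w w = M g x v v by
      rw [hg, ← F_insert]; exact M_absorb (mem_insert _ _) hw1.le] at this
    exact this.eventually (Metric.ball_mem_nhds _ e0)
  obtain ⟨z, ⟨⟨z1, z2, z3, z4, z5⟩, z6, z7, z8⟩, z9⟩ : ∃ z ∈ B y Φ E (n, U, T, w, v, q, r0, r1) ∩
      (N ∩ ({z | |Φ x (M (M g x v v) z w w) - h v| < e} ∩ Iio x)), z ∉ K := by
    by_contra hh
    push Not at hh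
    exact hunc _ (inter_mem hN' (inter_mem t1 self_mem_nhdsWithin)) (hK.mono hh)
  have k1 : ∀ u, |Φ x (M g' x u v) - h u| < e := fun u => (hE x n).2 _ _ fun t ht => by
    simp only [M, agree t fun p hp => hxT p hp t ht]
  have k2 : ∀ u, |Φ z (M (M g x v v) z u w) - Φ z (M g' z u v)| < e := fun u =>
    (hE z n).2 _ _ fun t ht => by
      have a1 := agree t fun p hp => z2 p hp t ht
      have a2 : z < x := z8
      simp only [M, a1]
      by_cases a3 : z < t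
      · have a4 : x < t := q1.trans_le (not_lt.1 fun a => z3 t ht ⟨a3, a⟩)
        rw [if_pos a3, if_pos a3, if_pos a4, sup_assoc, sup_eq_left.2 hw1.le]
      · have a4 : t < x := (not_lt.1 a3).trans_lt a2
        rw [if_neg a3, if_neg a3, if_neg (not_lt.2 a4.le), if_neg (not_le.2 a4), sup_bot_eq]
  have z7' : |Φ x (M (M g x v v) z w w) - h v| < e := z7
  have z4' : |Φ z (M g' z ⊥ v) - r0| < e := z4
  have z5' : |Φ z (M g' z w v) - r1| < e := z5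
  have l0 := abs_lt.1 (k1 ⊥)
  have l1 := abs_lt.1 (k1 w)
  have l2 := abs_lt.1 (k2 ⊥)
  have l3 := abs_lt.1 (k2 w)
  have l4 := abs_lt.1 z4'
  have l5 := abs_lt.1 z5'
  have l6 := abs_lt.1 z7'
  have l7 := abs_lt.1 hr0
  have l8 := abs_lt.1 hr1
  refine ⟨z, z6, z9, hUs z1, ?_, ?_⟩
  · rcases abs_cases (h w - h ⊥) with a | a
    · exact lt_abs.2 (Or.inl (by linarith))
    · exact lt_abs.2 (Or.inr (by linarith))
  · rcases abs_cases (h v - h w) with a | a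
    · exact lt_abs.2 (Or.inr (by linarith))
    · exact lt_abs.2 (Or.inl (by linarith))

end Pool.Agent.H25.Helly2
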