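import Pool.Agent.H25.Helly2

/-! The Helly space does not condense into scatteredly continuous functions. -/

set_option autoImplicit false

namespace Pool.Agent.H25.Helly3

open Set Topology Filter unitInterval Pool.Agent.H25.Helly1 Pool.Agent.H25.Helly2

def PP (a : ℕ → ℝ × I × ℝ) (s : Set ℕ) : Set (ℝ × I) := (fun j => ((a j).1, (a j).2.1)) '' s

theorem PP_upd (a : ℕ → ℝ × I × ℝ) {s : Set ℕ} {k : ℕ} (h : k ∉ s) (r : ℝ × I × ℝ) :
    PP (Function.update a k r) s = PP a s :=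
  image_congr fun j hj => by rw [Function.update_of_ne (fun h' : j = k => h (h' ▸ hj))]

theorem PP_ins (a : ℕ → ℝ × I × ℝ) (s : Set ℕ) (k : ℕ) :
    PP a (insert k s) = insert ((a k).1, (a k).2.1) (PP a s) := image_insert_eq

variable {Y : Type} [PseudoMetricSpace Y] [SecondCountableTopology Y]
  (y : ℝ → Y) (Φ : ℝ → C(ℝ → I, ℝ)) (E : ℝ → ℕ → Set ℝ) (Q : Set I)

def Inv (k : ℕ) (a : ℕ → ℝ × I × ℝ) : Prop :=
  (∀ i ≤ k, (a i).2.1 ∈ Q ∧ 0 < (a i).2.2 ∧ Nice y Φ E Q (a i).1 (PP a (Iic k \ {i})) ∧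
    (a i).2.2 < |Φ (a i).1 (M (F (PP a (Iic k \ {i}))) (a i).1 (a i).2.1 (a i).2.1) -
      Φ (a i).1 (M (F (PP a (Iic k \ {i}))) (a i).1 ⊥ (a i).2.1)|) ∧
  ∀ j < k, dist (y (a (j + 1)).1) (y (a j.unpair.1).1) < 1 / ((j : ℝ) + 1) ∧
    (a j.unpair.1).2.2 < |Φ (a (j + 1)).1 (F (PP a (Iic k))) - Φ (a j.unpair.1).1 (F (PP a (Iic k)))|

theorem step (hE : ∀ x n, (E x n).Finite ∧ ∀ f g : ℝ → I, (∀ t ∈ E x n, f t = g t) →
      |Φ x f - Φ x g| < 1 / ((n : ℝ) + 1)) (hQ : Dense Q) (hQc : Q.Countable)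
    (k : ℕ) (a : ℕ → ℝ × I × ℝ) (h : Inv y Φ E Q k a) :
    ∃ r, Inv y Φ E Q (k + 1) (Function.update a (k + 1) r) := by
  have hi : k.unpair.1 ≤ k := Nat.unpair_left_le k
  set i := k.unpair.1 with hid
  obtain ⟨a1, a2, a3, a4⟩ := h.1 i hi
  obtain ⟨w, hwQ, hwv, hw, η', h0, hz⟩ := core y Φ E Q hE hQ (P := PP a (Iic k \ {i}))
    (((finite_Iic k).subset sdiff_subset).image _) (by
      rintro _ ⟨j, hj, rfl⟩
      exact (h.1 j hj.1).1) a1 a3 a2 a4 (Nat.one_div_pos_of_nat (n := k))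
  have hf : M (F (PP a (Iic k \ {i}))) (a i).1 (a i).2.1 (a i).2.1 = F (PP a (Iic k)) := by
    rw [← F_insert, ← PP_ins, insert_sdiff_singleton, insert_eq_of_mem (mem_Iic.2 hi)]
  rw [hf] at hz
  have t1 : ∀ᶠ z in 𝓝[<] (a i).1, ∀ l ∈ Iic k, (a l).2.2 <
      |Φ (a l).1 (M (M (F (PP a (Iic k \ {l}))) z w w) (a l).1 (a l).2.1 (a l).2.1) -
        Φ (a l).1 (M (M (F (PP a (Iic k \ {l}))) z w w) (a l).1 ⊥ (a l).2.1)| := by
    refine (eventually_all_finite (finite_Iic k)).2 fun l hl => ?_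
    have c : Continuous fun g : ℝ → I => |Φ (a l).1 (M g (a l).1 (a l).2.1 (a l).2.1) -
        Φ (a l).1 (M g (a l).1 ⊥ (a l).2.1)| :=
      (((Φ _).continuous.comp (cont_g _ _ _)).sub ((Φ _).continuous.comp (cont_g _ _ _))).abs
    refine ((c.tendsto _).comp (tends _ (a i).1 w)).eventually (lt_mem_nhds ?_)
    by_cases hli : l = i
    · subst hli
      rwa [M_M _ _ hwv, M_M _ _ hwv, sup_eq_right.2 hwv, sup_bot_eq]
    · rw [M_absorb (v := (a i).2.1) (P := PP a (Iic k \ {l}))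
        (mem_image_of_mem _ (show i ∈ Iic k \ {l} from ⟨hi, fun h' => hli h'.symm⟩)) hwv]
      exact (h.1 l hl).2.2.2
  have t2 : ∀ᶠ z in 𝓝[<] (a i).1, ∀ j ∈ Iio k, (a j.unpair.1).2.2 <
      |Φ (a (j + 1)).1 (M (F (PP a (Iic k))) z w w) -
        Φ (a j.unpair.1).1 (M (F (PP a (Iic k))) z w w)| := by
    refine (eventually_all_finite (finite_Iio k)).2 fun j hj => ?_
    have c : Continuous fun g : ℝ → I => |Φ (a (j + 1)).1 g - Φ (a j.unpair.1).1 g| :=
      ((Φ _).continuous.sub (Φ _).continuous).abs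
    refine ((c.tendsto _).comp (tends _ (a i).1 w)).eventually (lt_mem_nhds ?_)
    rw [M_absorb (v := (a i).2.1) (P := PP a (Iic k)) (mem_image_of_mem _ (mem_Iic.2 hi)) hwv]
    exact (h.2 j hj).2
  obtain ⟨z, ⟨z1, z2⟩, z3, z4, z5, z6⟩ := hz _ (inter_mem t1 t2)
    ({x | ¬ Good y Φ E Q ((fun j => (a j).1) '' Iic k) x} ∪ ⋃ l, ⋃ n, E (a l).1 n)
    ((bad_countable y Φ E Q hQc ((finite_Iic k).image _).countable).union
      (countable_iUnion fun l => countable_iUnion fun n => (hE _ n).1.countable))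
  have u1 : ∀ l ≤ k, Function.update a (k + 1) (z, w, η') l = a l :=
    fun l hl => Function.update_of_ne (by omega) _ _
  have u2 : ∀ s : Set ℕ, s ⊆ Iic k → PP (Function.update a (k + 1) (z, w, η')) (insert (k + 1) s) =
      insert (z, w) (PP a s) := fun s hs => by
    rw [PP_ins, PP_upd a (fun h' => by have := hs h'; simp at this), Function.update_self]
  have u3 : Iic (k + 1) = insert (k + 1) (Iic k) := by
    ext j; simp only [mem_Iic, mem_insert_iff]; omega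
  refine ⟨(z, w, η'), fun l hl => ?_, fun j hj => ?_⟩
  · rcases hl.eq_or_lt with rfl | hl
    · have e : Iic (k + 1) \ {k + 1} = Iic k := by
        ext j; simp only [mem_Iic, Set.mem_sdiff, mem_singleton_iff]; omega
      rw [e, PP_upd a (by simp), Function.update_self]
      refine ⟨hwQ, h0, ⟨_, not_not.1 fun h' => z3 (Or.inl h'), ?_⟩, z5⟩
      rintro _ ⟨j, hj, rfl⟩
      exact Or.inl ⟨j, hj, rfl⟩
    · have hl' : l ≤ k := by omega
      have e : Iic (k + 1) \ {l} = insert (k + 1) (Iic k \ {l}) := by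
        ext j; simp only [mem_Iic, Set.mem_sdiff, mem_singleton_iff, mem_insert_iff]; omega
      rw [e, u2 _ sdiff_subset, u1 l hl', F_insert]
      obtain ⟨b1, b2, ⟨C, b3, b4⟩, -⟩ := h.1 l hl'
      refine ⟨b1, b2, ⟨C, b3, ?_⟩, z1 l hl'⟩
      rintro p (rfl | hp)
      · exact Or.inr fun n hn => z3 (Or.inr (mem_iUnion₂.2 ⟨l, n, hn⟩))
      · exact b4 p hp
  · rw [u3, u2 _ subset_rfl, F_insert, u1 _ ((Nat.unpair_left_le j).trans (by omega))]
    rcases (Nat.lt_succ_iff.1 hj).eq_or_lt with rfl | hj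
    · rw [Function.update_self]
      exact ⟨z4, z6⟩
    · rw [u1 _ hj]
      exact ⟨(h.2 j hj).1, z2 j hj⟩

theorem main (φ : Y → C(ℝ → I, ℝ))
    (hsep : ∀ f g, Monotone f → Monotone g → f ≠ g → ∃ b, φ b f ≠ φ b g) :
    ∃ f, Monotone f ∧ ∃ A : Set Y, A.Nonempty ∧
      ∀ b ∈ A, ¬ ContinuousWithinAt (fun c => φ c f) A b := by
  have h1 : ∀ x : ℝ, ∃ b, φ b (M (F ∅) x ⊤ ⊤) ≠ φ b (M (F ∅) x ⊥ ⊤) := by
    intro x
    refine hsep _ _ (F_insert ∅ x ⊤ ▸ F_mono _) (fun s t hst => sup_le_sup (F_mono _ hst) ?_) ?_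
    · by_cases h : x < s
      · rw [if_pos h, if_pos (h.trans_le hst)]
      · simp [h]
    · intro h
      have := congrFun h x
      simp [M, F] at this
  choose y hy using h1
  have h2 : ∀ (x : ℝ) (n : ℕ), ∃ E : Set ℝ, E.Finite ∧ ∀ f g : ℝ → I, (∀ t ∈ E, f t = g t) →
      |φ (y x) f - φ (y x) g| < 1 / ((n : ℝ) + 1) :=
    fun x n => findep _ _ Nat.one_div_pos_of_nat
  choose E hE1 hE2 using h2
  obtain ⟨Q0, q1, q2⟩ := TopologicalSpace.exists_countable_dense I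
  have hQc : (insert ⊤ Q0).Countable := q1.insert _
  have hQ : Dense (insert ⊤ Q0) := q2.mono (subset_insert _ _)
  obtain ⟨x, hx⟩ : ∃ x, Good y (fun x => φ (y x)) E (insert ⊤ Q0) ∅ x := by
    by_contra hh
    push Not at hh
    exact Set.not_countable_univ
      ((bad_countable y (fun x => φ (y x)) E _ hQc countable_empty).mono fun x _ => hh x)
  obtain ⟨η, e1, e2⟩ := exists_between (abs_pos.2 (sub_ne_zero.2 (hy x)))
  have h0 : Inv y (fun x => φ (y x)) E (insert ⊤ Q0) 0 (fun _ => (x, ⊤, η)) := by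
    refine ⟨fun i hi => ?_, fun j hj => absurd hj (Nat.not_lt_zero j)⟩
    have e : PP (fun _ => (x, ⊤, η)) (Iic 0 \ {i}) = ∅ := by
      rw [PP, image_eq_empty]
      ext j; simp only [mem_Iic, Set.mem_sdiff, mem_singleton_iff, mem_empty_iff_false, iff_false]; omega
    rw [e]
    exact ⟨mem_insert _ _, e1, ⟨∅, hx, by simp⟩, e2⟩
  choose r hr using step y (fun x => φ (y x)) E _ (fun x n => ⟨hE1 x n, hE2 x n⟩) hQ hQc
  let S : ∀ k, {a // Inv y (fun x => φ (y x)) E (insert ⊤ Q0) k a} := fun k =>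
    Nat.rec ⟨_, h0⟩ (fun k s => ⟨_, hr k s.1 s.2⟩) k
  let X : ℕ → ℝ × I × ℝ := fun j => (S j).1 j
  have hX : ∀ j k, j ≤ k → (S k).1 j = X j := by
    intro j k hjk
    induction k, hjk using Nat.le_induction with
    | base => rfl
    | succ k hk ih => exact (Function.update_of_ne (by omega) _ _).trans ih
  obtain ⟨f, -, hf⟩ := isCompact_univ.ultrafilter_le_nhds
    ((hyperfilter ℕ).map fun k => F (PP (S k).1 (Iic k))) (by simp)
  have ht : Tendsto (fun k => F (PP (S k).1 (Iic k))) (hyperfilter ℕ) (𝓝 f) := hf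
  refine ⟨f, isClosed_monotone.mem_of_tendsto ht (Eventually.of_forall fun k => F_mono _),
    range fun j => y (X j).1, range_nonempty _, ?_⟩
  rintro _ ⟨i, rfl⟩ hc
  have k1 : ∀ j, (X j.unpair.1).2.2 ≤ |φ (y (X (j + 1)).1) f - φ (y (X j.unpair.1).1) f| := by
    intro j
    have c : Continuous fun g : ℝ → I => |φ (y (X (j + 1)).1) g - φ (y (X j.unpair.1).1) g| :=
      ((φ _).continuous.sub (φ _).continuous).abs
    refine ge_of_tendsto ((c.tendsto _).comp ht) ?_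
    filter_upwards [Nat.hyperfilter_le_atTop (eventually_gt_atTop j)] with k hk
    have := ((S k).2.2 j hk).2
    rw [hX _ k hk, hX _ k ((Nat.unpair_left_le j).trans hk.le)] at this
    exact this.le
  have k2 : ∀ j, dist (y (X (j + 1)).1) (y (X j.unpair.1).1) < 1 / ((j : ℝ) + 1) := by
    intro j
    have := ((S (j + 1)).2.2 j j.lt_succ_self).1
    rwa [hX _ _ ((Nat.unpair_left_le j).trans j.le_succ)] at this
  obtain ⟨d, d0, hd⟩ := Metric.continuousWithinAt_iff.1 hc _ ((S i).2.1 i le_rfl).2.1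
  obtain ⟨m, hm⟩ := exists_nat_one_div_lt d0
  have l1 := k1 (i.pair m)
  have l2 := k2 (i.pair m)
  rw [Nat.unpair_pair] at l1 l2
  refine l1.not_gt (hd ⟨_, rfl⟩ (l2.trans_le (le_trans ?_ hm.le)))
  exact Nat.one_div_le_one_div (Nat.right_le_pair i m)

end Pool.Agent.H25.Helly3
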