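import Mathlib
import Pool.Agent.H25.Lac

set_option autoImplicit false
open Set Filter Topology
open Cardinal (continuum)

namespace Pool.Agent.H25.IStar
open Pool.Agent.H25.Lac

theorem bern : ∃ H : AddSubgroup ℝ, 1 ∈ H ∧ ∀ B : Set ℝ, MeasurableSet B → ¬ B.Countable →
    (∃ x ∈ B, x ∈ H) ∧ ∃ x ∈ B, x ∉ H := by
  classical
  let J := {B : Set ℝ // MeasurableSet B ∧ ¬ B.Countable}
  have hJ : Cardinal.mk J ≤ continuum := by
    refine le_trans (Cardinal.mk_le_mk_of_subset (s := {B | MeasurableSet B ∧ ¬ B.Countable})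
      fun B hB => ?_) (MeasurableSpace.cardinal_measurableSet_le_continuum
        (s := TopologicalSpace.countableBasis ℝ) ((Cardinal.le_aleph0_iff_set_countable.2
          (TopologicalSpace.countable_countableBasis ℝ)).trans Cardinal.aleph0_le_continuum))
    have := hB.1
    rwa [BorelSpace.measurable_eq (α := ℝ),
      (TopologicalSpace.isBasis_countableBasis ℝ).borel_eq_generateFrom] at this
  obtain ⟨s, s1, s2⟩ := gen (P := J × Bool) (J := J × Bool) (by
      simpa using (mul_le_mul_left hJ 2).trans_eq (by simp)) id (fun j => countable_singleton j)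
    (fun _ => 1) (fun j y h1 h2 => by
      rw [(Finsupp.support_subset_singleton (f := y) (a := j)).1 fun l hl => by
        simpa using h1 hl] at h2 ⊢
      simpa using h2) (fun j => j.1.1) (fun j => by
      have := j.1.2.1.standardBorel
      exact Cardinal.mk_real.ge.trans (Cardinal.mk_congr (PolishSpace.measurableEquivOfNotCountable
        not_countable fun h => j.1.2.2 h).toEquiv).le) (fun _ => {1}) fun _ => countable_singleton _
  refine ⟨AddSubgroup.closure (insert 1 (range fun j => s (j, true))),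
    AddSubgroup.subset_closure (.inl rfl), fun B b1 b2 => ⟨⟨_, s1 (⟨B, b1, b2⟩, true),
      AddSubgroup.subset_closure (.inr ⟨_, rfl⟩)⟩, _, s1 (⟨B, b1, b2⟩, false), fun h => ?_⟩⟩
  have h1 : ∀ x ∈ AddSubgroup.closure (insert 1 (range fun j => s (j, true))),
      ∃ (c : J × Bool →₀ ℤ) (n : ℤ), c (⟨B, b1, b2⟩, false) = 0 ∧
        x = L (fun p => s p * 1) c + n := fun x hx => by
    induction hx using AddSubgroup.closure_induction with
    | mem x h =>
      rcases h with rfl | ⟨j, rfl⟩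
      · exact ⟨0, 1, by simp⟩
      · exact ⟨Finsupp.single (j, true) 1, 0, by simp⟩
    | zero => exact ⟨0, 0, by simp⟩
    | add _ _ _ _ a b =>
      obtain ⟨c, n, a1, rfl⟩ := a
      obtain ⟨d, m, b1, rfl⟩ := b
      exact ⟨c + d, n + m, by simp [a1, b1], by simp; ring⟩
    | neg _ _ a =>
      obtain ⟨c, n, a1, rfl⟩ := a
      exact ⟨-c, -n, by simp [a1], by simp; ring⟩
  obtain ⟨c, n, c1, c2⟩ := h1 _ h
  have h2 : (Finsupp.single (⟨B, b1, b2⟩, false) 1 - c : J × Bool →₀ ℤ) (⟨B, b1, b2⟩, false) ≠ 0 := by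
    simp [c1]
  refine h2 (DFunLike.congr_fun (s2 _ ?_) _)
  have h3 : L (fun p => s (id p) * 1) (Finsupp.single (⟨B, b1, b2⟩, false) 1 - c) = n • 1 := by
    rw [map_sub, Finsupp.linearCombination_single, id, c2]
    simp
  rw [h3]
  exact zsmul_mem (AddSubgroup.subset_closure
    (mem_iUnion₂.2 ⟨_, Finsupp.mem_support_iff.2 h2, mem_singleton (1 : ℝ)⟩)) _

def K (a : ℕ → ℤ) (S : Set ℕ) : AddSubgroup ℝ where
  carrier := {t | Tendsto (fun n => a n • (t : UnitAddCircle)) (atTop ⊓ 𝓟 Sᶜ) (𝓝 0)}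
  zero_mem' := by simpa using tendsto_const_nhds
  add_mem' := fun h h' => by simpa using h.add h'
  neg_mem' := fun h => by simpa using h.neg

theorem mem {a : ℕ → ℤ} {S : Set ℕ} {t : ℝ} (h : t ∈ K a S) {ε : ℝ} (hε : 0 < ε) :
    ∃ N, ∀ n ≥ N, n ∉ S → ‖a n • (t : UnitAddCircle)‖ < ε :=
  eventually_atTop.1 (eventually_inf_principal.1 (NormedAddGroup.tendsto_nhds_zero.1 h ε hε))

theorem big (a : ℕ → ℤ) (C : Set ℕ) (h : ∀ ε > 0, ∃ w ∈ K a C, w ≠ 0 ∧ |w| < ε ∧
    ∀ n ∉ C, ‖a n • (w : UnitAddCircle)‖ < ε) :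
    ∃ B : Set ℝ, MeasurableSet B ∧ ¬ B.Countable ∧ B ⊆ K a C := by
  classical
  let M : Set (ℝ × ZeroAtInftyContinuousMap ℕ UnitAddCircle) :=
    {p | ∀ n, p.2 n = if n ∈ C then 0 else a n • (p.1 : UnitAddCircle)}
  have h1 : Perfect M := ⟨by
    simp only [M, ofPred_forall]
    refine isClosed_iInter fun n => isClosed_eq (((continuous_eval_const n).comp
      ZeroAtInftyContinuousMap.isometry_toBCF.continuous).comp continuous_snd) ?_
    split_ifs
    · exact continuous_const
    · exact ((AddCircle.continuous_mk' 1).comp continuous_fst).zsmul _, fun p hp => by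
    refine accPt_iff_nhds.2 fun U hU => ?_
    obtain ⟨ε, hε, h2⟩ := Metric.mem_nhds_iff.1 hU
    obtain ⟨w, w1, w2, w3, w4⟩ := h (ε / 2) (half_pos hε)
    let f : ZeroAtInftyContinuousMap ℕ UnitAddCircle :=
      ⟨⟨fun n => if n ∈ C then 0 else a n • (w : UnitAddCircle), continuous_of_discreteTopology⟩, by
        rw [cocompact_eq_cofinite, Nat.cofinite_eq_atTop]
        refine NormedAddGroup.tendsto_nhds_zero.2 fun δ hδ => ?_
        obtain ⟨N, hN⟩ := mem w1 hδ
        refine eventually_atTop.2 ⟨N, fun n hn => ?_⟩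
        by_cases e : n ∈ C
        · simpa [e] using hδ
        · simpa [e] using hN n hn e⟩
    refine ⟨p + (w, f), ⟨h2 ?_, fun n => ?_⟩, fun e => w2 (by simpa using congrArg Prod.fst e)⟩
    · rw [mem_ball_iff_norm, add_sub_cancel_left]
      refine max_lt (w3.trans (half_lt_self hε)) (lt_of_le_of_lt
        ((BoundedContinuousFunction.norm_le (f := f.toBCF) (half_pos hε).le).2 fun n => ?_)
        (half_lt_self hε))
      by_cases e : n ∈ C
      · simpa [f, e] using (half_pos hε).le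
      · simpa [f, e] using (w4 n e).le
    · have := hp n
      by_cases e : n ∈ C <;> simp [f, e] at this ⊢ <;> simp [this]⟩
  obtain ⟨f, f1, f2, f3⟩ := h1.exists_nat_bool_injection ⟨0, fun n => by simp⟩
  refine ⟨range fun x => (f x).1, (isCompact_range f2.fst).measurableSet, fun hc => ?_, ?_⟩
  · have h2 : Function.Injective fun x => (f x).1 := fun x y e => f3 (Prod.ext e
      (ZeroAtInftyContinuousMap.ext fun n => by
        rw [f1 ⟨x, rfl⟩ n, f1 ⟨y, rfl⟩ n, show (f x).1 = (f y).1 from e]))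
    have := Cardinal.le_aleph0_iff_set_countable.2 hc
    rw [Cardinal.mk_range_eq _ h2] at this
    exact absurd this (by simpa using Cardinal.aleph0_lt_continuum)
  · rintro _ ⟨x, rfl⟩
    have := (f x).2.zero_at_infty'
    rw [cocompact_eq_cofinite, Nat.cofinite_eq_atTop] at this
    exact (this.mono_left inf_le_left).congr' (eventually_inf_principal.2
      (Eventually.of_forall fun n hn => (f1 ⟨x, rfl⟩ n).trans (if_neg hn)))

theorem main : ∃ H : AddSubgroup ℝ, 1 ∈ H ∧ ∀ (I : Set (Set ℕ)) (a : ℕ → ℤ),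
    (∀ S ∈ I, ∀ T ∈ I, S ∪ T ∈ I) → ¬ ∀ t, t ∈ H ↔ ∃ S ∈ I, t ∈ K a S := by
  obtain ⟨H, h1, h2⟩ := bern
  refine ⟨H, h1, fun I a hI h => ?_⟩
  have hr : ∀ Z : Set ℝ, Z.Countable → Zᶜ ∈ residual ℝ := fun Z hZ => mem_of_superset
    ((countable_bInter_mem hZ).2 fun z _ => residual_of_dense_open isOpen_compl_singleton
      (dense_compl_singleton z)) fun x hx hz => mem_iInter₂.1 hx x hz rfl
  have hu : ∀ Z ∈ residual ℝ, ¬ Z.Countable := fun Z a b => by
    simpa using (dense_of_mem_residual (inter_mem a (hr Z b))).nonempty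
  obtain ⟨x, x1, x2⟩ := (h2 _ (countable_range ((↑) : ℚ → ℝ)).measurableSet.compl
    (hu _ (hr _ (countable_range _)))).1
  obtain ⟨S, s1, s2⟩ := (h x).1 x2
  let D := AddSubgroup.closure {x, 1}
  have d1 : Dense (D : Set ℝ) := dense_addSubgroupClosure_pair_iff.2 (by rwa [div_one])
  have d2 : (D : Set ℝ).Countable := (countable_range fun p : ℤ × ℤ => p.1 • x + p.2 • (1 : ℝ)).mono
    fun d hd => (AddSubgroup.mem_closure_pair.1 hd).elim fun m h => h.elim fun n e => by
      exact ⟨(m, n), e⟩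
  have d3 : D ≤ K a S := (AddSubgroup.closure_le _).2 (insert_subset s2 (singleton_subset_iff.2
    (show Tendsto _ _ _ by simpa [AddCircle.coe_period] using tendsto_const_nhds)))
  choose! m hm using fun (j : ℕ) d (hd : d ∈ D) => mem (d3 hd) (Nat.one_div_pos_of_nat (n := j))
  let U : ℕ → Set ℝ := fun j => ⋃ d ∈ D, {z | |z - d| < 1 / (j + 1)} ∩
    ⋂ n ∈ Iio (m j d + j), {z | |a n * (z - d)| < 1 / (j + 1)}
  have u1 : ∀ j, IsOpen (U j) := fun j => isOpen_biUnion fun d _ =>
    (isOpen_lt (by fun_prop) continuous_const).inter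
      ((finite_Iio _).isOpen_biInter fun n _ => isOpen_lt (by fun_prop) continuous_const)
  obtain ⟨z, ⟨z1, z2⟩, z3⟩ := (h2 ((⋂ j, U j) ∩ Dᶜ)
    ((MeasurableSet.iInter fun j => (u1 j).measurableSet).inter d2.measurableSet.compl)
    (hu _ (inter_mem (countable_iInter_mem.2 fun j => residual_of_dense_open (u1 j)
      (d1.mono fun d hd => mem_biUnion hd (by simp [Nat.cast_add_one_pos (α := ℝ) j]))) (hr _ d2)))).1
  obtain ⟨T, t1, t2⟩ := (h z).1 z3
  have hK : ∀ {A B : Set ℕ}, A ⊆ B → K a A ≤ K a B := fun hAB t ht =>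
    Tendsto.mono_left ht (inf_le_inf_left _ (principal_mono.2 (compl_subset_compl.2 hAB)))
  obtain ⟨B, b1, b2, b3⟩ := big a (S ∪ T) fun ε hε => by
    obtain ⟨N, hN⟩ := mem t2 (half_pos hε)
    obtain ⟨k, hk⟩ := exists_nat_one_div_lt (half_pos hε)
    have hj : (1 : ℝ) / ((k + N : ℕ) + 1) < ε / 2 :=
      (Nat.one_div_le_one_div (Nat.le_add_right k N)).trans_lt hk
    obtain ⟨d, hd, e1, e2⟩ := mem_iUnion₂.1 (mem_iInter.1 z1 (k + N))
    refine ⟨z - d, sub_mem (hK subset_union_right t2) (hK subset_union_left (d3 hd)),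
      fun e => z2 (sub_eq_zero.1 e ▸ hd), (e1.trans hj).trans (half_lt_self hε), fun n hn => ?_⟩
    by_cases e : n < m (k + N) d + (k + N)
    · rw [← AddCircle.coe_zsmul, zsmul_eq_mul]
      exact QuotientAddGroup.norm_mk_le_norm.trans_lt
        (((mem_iInter₂.1 e2 n e).trans hj).trans (half_lt_self hε))
    · rw [AddCircle.coe_sub, smul_sub]
      linarith [norm_sub_le (a n • (z : UnitAddCircle)) (a n • (d : UnitAddCircle)),
        hN n (by omega) fun h => hn (.inr h), hm (k + N) d hd n (by omega) fun h => hn (.inl h)]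
  obtain ⟨y, y1, y2⟩ := (h2 B b1 b2).2
  exact y2 ((h y).2 ⟨_, hI S s1 T t1, b3 y1⟩)

end Pool.Agent.H25.IStar
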