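import Mathlib

set_option autoImplicit false

namespace Pool.Agent.H25.IdealDefs

universe u

/-- `P` has no antichain of cardinality `μ` (the class `D(μ)`). -/
def NoAntichain (P : Type u) [PartialOrder P] (μ : Cardinal.{u}) : Prop :=
  ∀ A : Set P, IsAntichain (· ≤ ·) A → Cardinal.mk A ≠ μ

/-- ideals of `P`: initial and up-directed subsets, ordered by inclusion -/
abbrev Ideals (P : Type u) [PartialOrder P] : Type u :=
  {J : Set P // IsLowerSet J ∧ DirectedOn (· ≤ ·) J}

/-- the least infinite cardinal `κ ≥ μ` with `κ ^ ν ≤ κ` for all `ν < μ` -/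
noncomputable def kap (μ : Cardinal.{u}) : Cardinal.{u} :=
  sInf {κ | Cardinal.aleph0 ≤ κ ∧ μ ≤ κ ∧ ∀ ν < μ, κ ^ ν ≤ κ}

end Pool.Agent.H25.IdealDefs
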