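import Pool.Agent.H25.ErdosRado
import Pool.Agent.H25.IdealDefs

set_option autoImplicit false

namespace Pool.Agent.H25.IdealAnti

open Cardinal Set Pool.Agent.H25.ErdosRado Pool.Agent.H25.IdealDefs

universe u

theorem anti_lt {P : Type u} [PartialOrder P] {μ : Cardinal.{u}} (h : NoAntichain P μ)
    {A : Set P} (hA : IsAntichain (· ≤ ·) A) : #A < μ := by
  by_contra hh
  obtain ⟨B, hB, hc⟩ := le_mk_iff_exists_subset.1 (not_lt.1 hh)
  exact h B (hA.subset hB) hc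

/-- every subset `J` splits into at most `κ` classes all of whose `κ`-small subsets are bounded -/
theorem classes {P : Type u} [PartialOrder P] {μ κ : Cardinal.{u}} (h : NoAntichain P μ)
    (h0 : ℵ₀ ≤ κ) (hμ : μ ≤ κ) (hp : ∀ ν < μ, κ ^ ν ≤ κ) (J : Set P) :
    ∃ (cl : P → κ.out), ∀ (k : κ.out) (B : Set P), B ⊆ J → B.Nonempty → #B ≤ κ →
      (∀ b ∈ B, cl b = k) → ∃ z ∈ J, ∀ b ∈ B, b ≤ z := by
  classical
  let r : P → P → Prop := WellOrderingRel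
  have hr : WellFounded r := (WellOrderingRel.isWellOrder (α := P)).wf
  let W : Set P := {x | x ∈ J ∧ ∀ y ∈ J, r y x → ¬ x ≤ y}
  have hup : ∀ x, ∃ y, x ∈ J → y ∈ W ∧ x ≤ y := by
    intro x
    by_cases hx : x ∈ J
    · obtain ⟨y, hy, hmin⟩ := hr.has_min {y | y ∈ J ∧ x ≤ y} ⟨x, hx, le_rfl⟩
      exact ⟨y, fun _ => ⟨⟨hy.1, fun z hz hzy hle => hmin z ⟨hz, hy.2.trans hle⟩ hzy⟩, hy.2⟩⟩
    · exact ⟨x, fun h' => absurd h' hx⟩
  choose up hup using hup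
  let N : Set P → Set P := fun A => {z | z ∈ W ∧ ∀ a ∈ A, ¬ a ≤ z}
  let Unb : Set P → Prop := fun B => ¬ ∃ z ∈ J, ∀ b ∈ B, b ≤ z
  have hF : ∀ A : Set P, ∃ B : Set P, B ⊆ N A ∧ #B ≤ κ ∧
      ((∃ B' : Set P, B' ⊆ N A ∧ #B' ≤ κ ∧ Unb B') → Unb B) := by
    intro A
    by_cases hh : ∃ B' : Set P, B' ⊆ N A ∧ #B' ≤ κ ∧ Unb B'
    · obtain ⟨B, h1, h2, h3⟩ := hh
      exact ⟨B, h1, h2, fun _ => h3⟩
    · exact ⟨∅, empty_subset _, by simp, fun h' => absurd h' hh⟩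
  choose F hF1 hF2 hF3 using hF
  obtain ⟨U, hU, hUW, hcl⟩ := closure h0 hμ hp F (fun A _ => hF2 A)
  have hUW' : U ⊆ W := fun x hx => by
    obtain ⟨A, -, hA⟩ := hUW x hx
    exact (hF1 A hA).1
  let M : P → Set P := fun x => {a | (a ∈ U ∧ ¬ a ≤ x) ∧ ∀ b, b ∈ U ∧ ¬ b ≤ x → b ≤ a → b = a}
  have hM : ∀ x, M x ⊆ U ∧ #(M x) < μ := fun x =>
    ⟨fun a ha => ha.1.1, anti_lt h fun a ha b hb hne hle => hne (hb.2 a ha.1 hle)⟩
  have hmin : ∀ x d, d ∈ U → ¬ d ≤ x → ∃ a ∈ M x, a ≤ d := by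
    intro x d hd hdx
    obtain ⟨a, ha, hm⟩ := hr.has_min {a | (a ∈ U ∧ ¬ a ≤ x) ∧ a ≤ d} ⟨d, ⟨hd, hdx⟩, le_rfl⟩
    refine ⟨a, ⟨ha.1, fun b hb hba => ?_⟩, ha.2⟩
    rcases trichotomous_of r a b with h1 | h1 | h1
    · exact absurd hba ((hUW' hb.1).2 a (hUW' ha.1.1).1 h1)
    · exact h1.symm
    · exact absurd h1 (hm b ⟨hb, hba.trans ha.2⟩)
  obtain ⟨e⟩ := (Cardinal.le_def _ _).1 ((count h0 hμ hp U hU).trans (mk_out κ).ge)
  refine ⟨fun x => e ⟨M (up x), hM _⟩, fun k B hB ⟨b0, hb0⟩ hc hk => ?_⟩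
  have hsame : ∀ b ∈ B, M (up b) = M (up b0) := fun b hb =>
    congrArg Subtype.val (e.injective ((hk b hb).trans (hk b0 hb0).symm))
  by_contra hun
  have h1 : Unb (F (M (up b0))) := by
    apply hF3
    refine ⟨up '' B, ?_, mk_image_le.trans hc, ?_⟩
    · rintro _ ⟨b, hb, rfl⟩
      exact ⟨(hup b (hB hb)).1, fun a ha => (hsame b hb ▸ ha : a ∈ M (up b)).1.2⟩
    · rintro ⟨z, hz, hle⟩
      exact hun ⟨z, hz, fun b hb => (hup b (hB hb)).2.trans (hle _ (mem_image_of_mem _ hb))⟩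
  apply h1
  refine ⟨up b0, (hup b0 (hB hb0)).1.1, fun d hd => ?_⟩
  by_contra hdx
  obtain ⟨a, ha, had⟩ := hmin (up b0) d (hcl _ (hM _).1 (hM _).2 hd) hdx
  exact (hF1 _ hd).2 a ha had

theorem main {P : Type u} [PartialOrder P] {μ κ : Cardinal.{u}} (h : NoAntichain P μ)
    (h0 : ℵ₀ ≤ κ) (hμ : μ ≤ κ) (hp : ∀ ν < μ, κ ^ ν ≤ κ) :
    NoAntichain (Ideals P) (Order.succ (2 ^ κ)) := by
  classical
  intro X hX hc
  choose cl hcl using fun J : X => classes h h0 hμ hp (J.1.1 : Set P)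
  have hw : ∀ I J : X, ∃ x : Option P, I ≠ J → ∃ p, x = some p ∧ p ∈ I.1.1 ∧ p ∉ J.1.1 := by
    intro I J
    by_cases hne : I = J
    · exact ⟨none, fun h' => absurd hne h'⟩
    · have := hX I.2 J.2 (fun h' => hne (Subtype.ext h'))
      obtain ⟨p, h1, h2⟩ := not_subset.1 this
      exact ⟨some p, fun _ => ⟨p, rfl, h1, h2⟩⟩
  choose w0 hw0 using hw
  obtain ⟨I0, J0, hne0⟩ : ∃ I J : X, I ≠ J := by
    have : Nontrivial X := one_lt_iff_nontrivial.1 (by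
      rw [hc]
      exact lt_of_lt_of_le (one_lt_aleph0.trans_le (h0.trans (cantor κ).le)) (Order.le_succ _))
    exact exists_pair_ne X
  obtain ⟨p0, -⟩ := hw0 I0 J0 hne0
  let w : X → X → P := fun I J => (w0 I J).getD p0
  have hw : ∀ I J : X, I ≠ J → w I J ∈ I.1.1 ∧ w I J ∉ J.1.1 := by
    intro I J hne
    obtain ⟨p, h1, h2⟩ := hw0 I J hne
    simpa only [w, h1, Option.getD_some] using h2
  obtain ⟨x, H, k, hx, hH, hk⟩ := erdos_rado (X := X) (K := κ.out × κ.out) h0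
    (by rw [mk_prod, lift_id, mk_out, mul_eq_self h0]) (by rw [hc]; exact Order.lt_succ _)
    (fun I J => (cl I (w I J), cl J (w J I)))
  obtain ⟨G, hG, hGc⟩ := le_mk_iff_exists_subset.1 ((Order.le_succ κ).trans hH.ge)
  have hbd : ∀ i ∈ G, ∀ (S : Set G) (k' : κ.out), (x i).1.1.Nonempty → (∀ j ∈ S, i ≠ j.1) →
      (∀ j ∈ S, cl (x i) (w (x i) (x j)) = k') →
      ∃ z ∈ (x i).1.1, ∀ j ∈ S, w (x i) (x j) ≤ z := by
    intro i _ S k' hn hne hk'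
    rcases S.eq_empty_or_nonempty with rfl | hS
    · obtain ⟨z, hz⟩ := hn
      exact ⟨z, hz, by simp⟩
    obtain ⟨z, hz, hle⟩ := hcl (x i) k' ((fun j : G => w (x i) (x j)) '' S)
      (by rintro _ ⟨j, hj, rfl⟩; exact (hw _ _ (hx.ne (hne j hj))).1) (hS.image _)
      (mk_image_le.trans ((mk_set_le _).trans hGc.le))
      (by rintro _ ⟨j, hj, rfl⟩; exact hk' j hj)
    exact ⟨z, hz, fun j hj => hle _ (mem_image_of_mem _ hj)⟩
  have hy : ∀ i : G, ∃ y ∈ (x i).1.1, ∀ j : G, j ≠ i → y ∉ (x j).1.1 := by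
    intro i
    have hn : (x i).1.1.Nonempty := by
      by_cases h1 : x i = I0
      · exact ⟨_, (hw (x i) J0 (h1 ▸ hne0)).1⟩
      · exact ⟨_, (hw (x i) I0 h1).1⟩
    obtain ⟨z1, hz1, h1⟩ := hbd i i.2 {j | i.1 < j.1} k.1 hn (fun j hj => ne_of_lt hj)
      (fun j hj => congrArg Prod.fst (hk i (hG i.2) j (hG j.2) hj))
    obtain ⟨z2, hz2, h2⟩ := hbd i i.2 {j | j.1 < i.1} k.2 hn (fun j hj => ne_of_gt hj)
      (fun j hj => congrArg Prod.snd (hk j (hG j.2) i (hG i.2) hj))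
    obtain ⟨y, hy, h3, h4⟩ := (x i).1.2.2 z1 hz1 z2 hz2
    refine ⟨y, hy, fun j hj hyj => ?_⟩
    have hne : x i ≠ x j := hx.ne fun h' => hj (Subtype.ext h'.symm)
    apply (hw _ _ hne).2
    rcases lt_or_gt_of_ne (fun h' : i.1 = j.1 => hj (Subtype.ext h'.symm)) with h' | h'
    · exact (x j).1.2.1 ((h1 j h').trans h3) hyj
    · exact (x j).1.2.1 ((h2 j h').trans h4) hyj
  choose y hy1 hy2 using hy
  have hle : ∀ i j : G, i ≠ j → ¬ y i ≤ y j := fun i j hne hle =>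
    hy2 i j hne.symm ((x j).1.2.1 hle (hy1 j))
  have hanti : IsAntichain (· ≤ ·) (range y) := by
    rintro _ ⟨i, rfl⟩ _ ⟨j, rfl⟩ hne
    exact hle i j fun h' => hne (h' ▸ rfl)
  have hinj : Function.Injective y := fun i j h' => by
    by_contra hne
    exact hle i j hne h'.le
  have := anti_lt h hanti
  rw [mk_range_eq _ hinj, hGc] at this
  exact absurd hμ (not_le.2 this)

theorem kap_spec (μ : Cardinal.{u}) : ℵ₀ ≤ kap μ ∧ μ ≤ kap μ ∧ ∀ ν < μ, kap μ ^ ν ≤ kap μ := by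
  have : {κ : Cardinal.{u} | ℵ₀ ≤ κ ∧ μ ≤ κ ∧ ∀ ν < μ, κ ^ ν ≤ κ}.Nonempty := by
    refine ⟨2 ^ (max μ ℵ₀), (le_max_right _ _).trans (cantor _).le,
      (le_max_left _ _).trans (cantor _).le, fun ν hν => ?_⟩
    rw [← power_mul]
    exact power_le_power_left two_ne_zero
      ((mul_le_mul_right (hν.le.trans (le_max_left _ _)) _).trans
        (mul_eq_self (le_max_right _ _)).le)
  exact csInf_mem this

end Pool.Agent.H25.IdealAnti
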