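import Mathlib

set_option autoImplicit false

namespace Pool.Agent.H25.KappaF

open Set Filter Topology

abbrev P : Type := {p : ℚ × ℚ // p.1 < p.2}

def K (p : P) : Set ℝ := Icc p.1.1 p.1.2

theorem shrink (p : P) {D : Set ℝ} (ho : IsOpen D) (hd : Dense D) : ∃ q : P, K q ⊆ K p ∩ D := by
  obtain ⟨x, hx, hD⟩ := hd.inter_open_nonempty (Ioo (p.1.1 : ℝ) p.1.2) isOpen_Ioo
    (nonempty_Ioo.2 (by exact_mod_cast p.2))
  obtain ⟨a, b, ⟨h1, h2⟩, h3⟩ := mem_nhds_iff_exists_Ioo_subset.1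
    ((isOpen_Ioo.inter ho).mem_nhds ⟨hx, hD⟩)
  obtain ⟨u, u1, u2⟩ := exists_rat_btwn h1
  obtain ⟨v, v1, v2⟩ := exists_rat_btwn h2
  refine ⟨⟨(u, v), by exact_mod_cast u2.trans v1⟩, fun y hy => ?_⟩
  have := h3 ⟨u1.trans_le hy.1, hy.2.trans_lt v2⟩
  exact ⟨Ioo_subset_Icc_self this.1, this.2⟩

theorem jump {f G : ℕ → ℕ} (hG : Monotone G) {b : ℕ → ℕ} (hb : StrictMono b)
    (hf : ∀ k n, n ≤ b k → f n ≤ b (k + 1)) (h : {k | G (b k) < b (k + 1)}.Finite) :
    ∀ᶠ n in atTop, f n ≤ G (G n) := by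
  classical
  obtain ⟨k0, hk⟩ := h.bddAbove
  filter_upwards [eventually_ge_atTop (b (k0 + 1))] with n hn
  have h1 : ∃ k, n < b (k + 1) := ⟨n, (Nat.lt_succ_self n).trans_le (hb.id_le _)⟩
  have h2 := Nat.find_spec h1
  have h3 : k0 < Nat.find h1 := by
    by_contra hh
    exact absurd (hb.monotone (Nat.succ_le_succ (not_lt.1 hh))) (not_le.2 (hn.trans_lt h2))
  have h4 : b (Nat.find h1) ≤ n := by
    have := Nat.find_min h1 (m := Nat.find h1 - 1) (by omega)
    rw [show Nat.find h1 - 1 + 1 = Nat.find h1 by omega] at this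
    exact not_lt.1 this
  have h5 : ∀ k, k0 < k → b (k + 1) ≤ G (b k) := fun k h => not_lt.1 fun h' =>
    absurd (hk h') (not_le.2 h)
  exact (hf _ n h2.le).trans ((h5 _ (by omega)).trans (hG ((h5 _ h3).trans (hG h4))))

theorem comb {X : Type} (hX : ∀ y : X → X → ℝ, IsMeagre (range fun p : X × X => y p.1 p.2))
    (f e : X → ℕ → ℕ) (he : ∀ x j, e x j ≤ j) :
    (∃ G : ℕ → ℕ, ∀ x, ∀ᶠ n in atTop, f x n ≤ G n) ∨ ∃ (A : Set ℕ) (g : ℕ → ℕ), A.Infinite ∧
      (∀ j ∈ A, g j ≤ j) ∧ ∀ x, {j ∈ A | e x j = g j}.Finite := by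
  classical
  by_contra hh
  rw [not_or] at hh
  obtain ⟨h1, h2⟩ := hh
  let p0 : P := ⟨(0, 1), zero_lt_one⟩
  obtain ⟨s, hs⟩ := exists_surjective_nat (Finset P)
  let b : X → ℕ → ℕ := fun x k => Nat.rec 0 (fun _ m => m + 1 + ∑ i ∈ Finset.range (m + 1), f x i) k
  have hb : ∀ x, StrictMono (b x) := fun x => strictMono_nat_of_lt_succ fun k => by
    change b x k < b x k + 1 + _
    omega
  have hf : ∀ x k n, n ≤ b x k → f x n ≤ b x (k + 1) := fun x k n hn =>
    (Finset.single_le_sum (f := f x) (fun _ _ => Nat.zero_le _)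
      (Finset.mem_range.2 (Nat.lt_succ_of_le hn))).trans (Nat.le_add_left _ _)
  let st : ℕ → P → P := fun c p => if h : ∃ q ∈ s c, K q ⊆ K p then h.choose else p
  have st1 : ∀ c p, K (st c p) ⊆ K p := fun c p => by
    by_cases h : ∃ q ∈ s c, K q ⊆ K p
    · simp only [st, dif_pos h]; exact h.choose_spec.2
    · simp only [st, dif_neg h]; exact Subset.rfl
  have st2 : ∀ c p, (∃ q ∈ s c, K q ⊆ K p) → st c p ∈ s c := fun c p h => by
    simp only [st, dif_pos h]; exact h.choose_spec.1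
  have st3 : ∀ c p, st c p ∈ s c ∨ st c p = p := fun c p => by
    by_cases h : ∃ q ∈ s c, K q ⊆ K p
    · exact .inl (st2 c p h)
    · exact .inr (dif_neg h)
  let q : X → X → ℕ → P := fun x x' k => Nat.rec p0 (fun k p => st (e x' (b x (k + 1))) p) k
  have hy : ∀ x x', ∃ y, ∀ k, y ∈ K (q x x' k) := fun x x' => by
    obtain ⟨y, hy⟩ := IsCompact.nonempty_iInter_of_sequence_nonempty_isCompact_isClosed
      (fun k => K (q x x' k)) (fun k => st1 _ _)
      (fun k => nonempty_Icc.2 (by exact_mod_cast (q x x' k).2.le)) isCompact_Icc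
      fun _ => isClosed_Icc
    exact ⟨y, mem_iInter.1 hy⟩
  choose y hy using hy
  obtain ⟨S, S1, S2, S3, S4⟩ := mem_residual_iff.1 (hX y)
  obtain ⟨D, hD⟩ := (S3.insert univ).exists_eq_range (insert_nonempty _ _)
  have D1 : ∀ i, IsOpen (D i) ∧ Dense (D i) := fun i => by
    rcases (hD ▸ mem_range_self i : D i ∈ insert univ S) with h | h
    · rw [h]; exact ⟨isOpen_univ, dense_univ⟩
    · exact ⟨S1 _ h, S2 _ h⟩
  have h3 : ∀ m p, ∃ r : P, K r ⊆ K p ∩ ⋂ i ∈ Iic m, D i := fun m p =>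
    shrink p ((finite_Iic m).isOpen_biInter fun i _ => (D1 i).1)
      (dense_biInter_of_isOpen (fun i _ => (D1 i).1) (to_countable _) fun i _ => (D1 i).2)
  choose σ hσ using h3
  let T : ℕ → Finset P := fun m => insert p0 ((Finset.range (m + 1)).biUnion s)
  have hT : ∀ x x' k, q x x' k ∈ T (b x k) := fun x x' k => by
    induction k with
    | zero => exact Finset.mem_insert_self _ _
    | succ k ih =>
      rcases st3 (e x' (b x (k + 1))) (q x x' k) with h | h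
      · exact Finset.mem_insert_of_mem (Finset.mem_biUnion.2
          ⟨_, Finset.mem_range.2 (Nat.lt_succ_of_le (he _ _)), h⟩)
      · change st _ _ ∈ _
        rw [h]
        refine Finset.insert_subset_insert _ (Finset.biUnion_subset_biUnion_of_subset_left _
          (Finset.range_mono ?_)) ih
        exact Nat.succ_le_succ (hb x (Nat.lt_succ_self k)).le
  choose G hG using fun m => hs ((T m).image (σ m))
  let G' : ℕ → ℕ := fun m => ∑ i ∈ Finset.range (m + 1), G i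
  have G1 : Monotone G' := fun a c h =>
    Finset.sum_le_sum_of_subset (Finset.range_mono (Nat.succ_le_succ h))
  have G2 : ∀ m, G m ≤ G' m := fun m => Finset.single_le_sum (f := G) (fun _ _ => Nat.zero_le _)
    (Finset.self_mem_range_succ m)
  obtain ⟨x, hx⟩ : ∃ x, {k | G' (b x k) < b x (k + 1)}.Infinite := by
    by_contra hn
    push Not at hn
    exact h1 ⟨fun n => G' (G' n), fun x => jump G1 (hb x) (hf x) (hn x)⟩
  have hinj : Function.Injective fun k => b x (k + 1) := fun a c h =>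
    Nat.succ_injective ((hb x).injective h)
  let g : ℕ → ℕ := Function.extend (fun k => b x (k + 1)) (fun k => G (b x k)) 0
  have hg : ∀ k, g (b x (k + 1)) = G (b x k) := fun k => hinj.extend_apply _ _ k
  obtain ⟨x', hx'⟩ : ∃ x', {j ∈ (fun k => b x (k + 1)) '' {k | G' (b x k) < b x (k + 1)} |
      e x' j = g j}.Infinite := by
    by_contra hn
    push Not at hn
    refine h2 ⟨_, g, hx.image hinj.injOn, ?_, hn⟩
    rintro _ ⟨k, hk, rfl⟩
    exact (hg k).trans_le ((G2 _).trans (le_of_lt hk))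
  refine S4 (fun t ht => ?_) ⟨(x, x'), rfl⟩
  obtain ⟨i, rfl⟩ : t ∈ range D := hD ▸ mem_insert_of_mem _ ht
  obtain ⟨_, ⟨⟨k, -, rfl⟩, k2⟩, k3⟩ := hx'.exists_gt (b x (i + 1))
  have k4 : i < k := Nat.lt_of_succ_lt_succ ((hb x).lt_iff_lt.1 k3)
  have k5 : s (e x' (b x (k + 1))) = (T (b x k)).image (σ (b x k)) := by
    rw [← hG, ← hg]; exact congrArg s k2
  have k6 := st2 (e x' (b x (k + 1))) (q x x' k) ⟨_, k5 ▸ Finset.mem_image_of_mem _ (hT x x' k),
    (hσ _ _).trans inter_subset_left⟩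
  rw [k5] at k6
  obtain ⟨r, -, hr⟩ := Finset.mem_image.1 k6
  have k7 : y x x' ∈ K (σ (b x k) r) := hr ▸ hy x x' (k + 1)
  exact mem_iInter₂.1 (hσ _ _ k7).2 i (k4.le.trans ((hb x).id_le k))

/-- Sakai's property for small metric spaces. -/
theorem kappa {X : Type} [MetricSpace X]
    (hX : ∀ y : X → X → ℝ, IsMeagre (range fun p : X × X => y p.1 p.2))
    (F : ℕ → Set X) (hF : ∀ n, (F n).Finite) (hd : Pairwise fun m n => Disjoint (F m) (F n)) :
    ∃ (A : Set ℕ) (V : ℕ → Set X), A.Infinite ∧ (∀ n ∈ A, IsOpen (V n) ∧ F n ⊆ V n) ∧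
      ∀ x, {n ∈ A | x ∈ V n}.Finite := by
  classical
  have h1 : ∀ x n, ∃ m : ℕ, x ∉ F n → ∀ z ∈ F n, 1 / ((m : ℝ) + 1) ≤ dist x z := by
    intro x n
    by_cases hx : x ∈ F n
    · exact ⟨0, fun h => absurd hx h⟩
    obtain ⟨ε, hε, h⟩ := Metric.isOpen_iff.1 (hF n).isClosed.isOpen_compl x hx
    obtain ⟨m, hm⟩ := exists_nat_one_div_lt hε
    exact ⟨m, fun _ z hz => hm.le.trans (not_lt.1 fun h' => h (Metric.mem_ball'.2 h') hz)⟩
  choose f hf using h1
  have h2 : ∀ j : ℕ, ∃ U : X → Set X, (∀ x, x ∈ U x ∧ IsOpen (U x)) ∧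
      (⋃ i ∈ Iic j, F (Nat.pair j i)).PairwiseDisjoint U := fun j =>
    ((finite_Iic j).biUnion fun i _ => hF _).t2_separation
  choose U U1 U2 using h2
  let W : ℕ → ℕ → Set X := fun j i => ⋃ z ∈ F (Nat.pair j i), U j z
  let e : X → ℕ → ℕ := fun x j => if h : ∃ i ≤ j, x ∈ W j i then h.choose else 0
  have e1 : ∀ x j, e x j ≤ j := fun x j => by
    by_cases h : ∃ i ≤ j, x ∈ W j i
    · simp only [e, dif_pos h]; exact h.choose_spec.1
    · simp only [e, dif_neg h]; exact Nat.zero_le _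
  have e2 : ∀ x j i, i ≤ j → x ∈ W j i → e x j = i := fun x j i hi hx => by
    have h : ∃ i ≤ j, x ∈ W j i := ⟨i, hi, hx⟩
    simp only [e, dif_pos h]
    obtain ⟨a1, a2⟩ := h.choose_spec
    obtain ⟨z, z1, z2⟩ := mem_iUnion₂.1 hx
    obtain ⟨w, w1, w2⟩ := mem_iUnion₂.1 a2
    by_contra hne
    have h3 := hd (fun h => hne (Nat.pair_eq_pair.1 h).2 : Nat.pair j h.choose ≠ Nat.pair j i)
    exact disjoint_left.1 (U2 j (mem_biUnion a1 w1) (mem_biUnion hi z1)
      fun h => disjoint_left.1 h3 w1 (h ▸ z1)) w2 z2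
  rcases comb hX f e e1 with ⟨G, hG⟩ | ⟨A, g, A1, A2, A3⟩
  · refine ⟨univ, fun n => ⋃ z ∈ F n, Metric.ball z (1 / ((G n : ℝ) + 1)), infinite_univ,
      fun n _ => ⟨isOpen_biUnion fun _ _ => Metric.isOpen_ball, fun z hz =>
        mem_biUnion hz (Metric.mem_ball_self Nat.one_div_pos_of_nat)⟩, fun x => ?_⟩
    have h3 : {n | x ∈ F n}.Finite := Set.Subsingleton.finite fun m hm n hn => by
      by_contra h
      exact disjoint_left.1 (hd h) hm hn
    have h4 := hG x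
    rw [← Nat.cofinite_eq_atTop] at h4
    refine (h3.union h4).subset fun n hn => ?_
    obtain ⟨z, z1, z2⟩ := mem_iUnion₂.1 hn.2
    by_contra h
    rw [mem_union, not_or] at h
    have h5 : f x n ≤ G n := not_not.1 h.2
    exact absurd ((Nat.one_div_le_one_div h5).trans (hf x n h.1 z z1)) (not_le.2 z2)
  · refine ⟨(fun j => Nat.pair j (g j)) '' A, fun n => W n.unpair.1 n.unpair.2,
      A1.image fun a _ c _ h => (Nat.pair_eq_pair.1 h).1, fun n _ => ⟨isOpen_biUnion fun z _ =>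
        (U1 _ z).2, fun z hz => mem_biUnion (by rwa [Nat.pair_unpair]) (U1 _ z).1⟩, fun x => ?_⟩
    refine ((A3 x).image fun j => Nat.pair j (g j)).subset ?_
    rintro _ ⟨⟨j, hj, rfl⟩, h⟩
    simp only [Nat.unpair_pair] at h
    exact ⟨j, ⟨hj, e2 x j _ (A2 j hj) h⟩, rfl⟩

end Pool.Agent.H25.KappaF
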