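import Mathlib

/-! Kernel method for list edge colouring of bipartite multigraphs (edges `E`, ends `a`, `b`):
stable matchings, Koenig covers, and the Borodin-Kostochka-Woodall orientation. -/

set_option autoImplicit false

namespace Pool.Agent.H25.Kernel

open Finset

variable {E V : Type} [DecidableEq E] [DecidableEq V] (a b : E → V)

/-- matching -/
def Mat (K : Finset E) : Prop := ∀ e ∈ K, ∀ f ∈ K, (a e = a f ∨ b e = b f) → e = f

/-- arc of the orientation -/
def Arc (ra rb : E → ℤ) (e f : E) : Prop := (a f = a e ∧ ra f < ra e) ∨ (b f = b e ∧ rb f < rb e)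

instance (ra rb : E → ℤ) (e f : E) : Decidable (Arc a b ra rb e f) := by
  unfold Arc; infer_instance

def Loc (S : Finset E) (ra rb : E → ℤ) : Prop :=
  ∀ e ∈ S, ∀ f ∈ S, e ≠ f → (a e = a f → ra e ≠ ra f) ∧ (b e = b f → rb e ≠ rb f)

omit [DecidableEq E] [DecidableEq V] in
theorem Loc.mono {S T : Finset E} {ra rb : E → ℤ} (h : Loc a b S ra rb) (hT : T ⊆ S) :
    Loc a b T ra rb := fun e he f hf => h e (hT he) f (hT hf)

theorem stable (ra rb : E → ℤ) (S : Finset E) (h : Loc a b S ra rb) :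
    ∃ K ⊆ S, Mat a b K ∧ ∀ e ∈ S, e ∉ K → ∃ k ∈ K, Arc a b ra rb e k := by
  classical
  induction S using Finset.strongInduction with
  | H S ih =>
  set P := S.filter (fun e => ∀ f ∈ S, b f = b e → rb e ≤ rb f) with hP
  by_cases hm : ∀ e ∈ P, ∀ f ∈ P, a e = a f → e = f
  · refine ⟨P, filter_subset _ _, ?_, ?_⟩
    · intro e he f hf hef
      rcases hef with h1 | h1
      · exact hm e he f hf h1
      · by_contra hne
        have he' := mem_filter.1 he
        have hf' := mem_filter.1 hf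
        exact (h e he'.1 f hf'.1 hne).2 h1
          (le_antisymm (he'.2 f hf'.1 h1.symm) (hf'.2 e he'.1 h1))
    · intro e he heP
      obtain ⟨k, hk, hmin⟩ := (S.filter (fun f => b f = b e)).exists_min_image rb
        ⟨e, mem_filter.2 ⟨he, rfl⟩⟩
      have hk' := mem_filter.1 hk
      have hkP : k ∈ P := mem_filter.2 ⟨hk'.1, fun f hf hb =>
        hmin f (mem_filter.2 ⟨hf, hb.trans hk'.2⟩)⟩
      refine ⟨k, hkP, Or.inr ⟨hk'.2, ?_⟩⟩
      have hne : k ≠ e := fun h' => heP (h' ▸ hkP)
      exact lt_of_le_of_ne (hmin e (mem_filter.2 ⟨he, rfl⟩)) ((h k hk'.1 e he hne).2 hk'.2)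
  · push Not at hm
    obtain ⟨e1, he1, e2, he2, ha, hne⟩ := hm
    have main : ∀ e1 ∈ P, ∀ e2 ∈ P, a e1 = a e2 → e1 ≠ e2 → ra e1 < ra e2 →
        ∃ K ⊆ S, Mat a b K ∧ ∀ e ∈ S, e ∉ K → ∃ k ∈ K, Arc a b ra rb e k := by
      intro e1 he1 e2 he2 ha hne hlt
      have he1' := mem_filter.1 he1
      have he2' := mem_filter.1 he2
      obtain ⟨K, hKS, hK, habs⟩ := ih (S.erase e2) (erase_ssubset he2'.1)
        (h.mono a b (erase_subset _ _))
      refine ⟨K, hKS.trans (erase_subset _ _), hK, ?_⟩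
      intro e he heK
      by_cases hee : e = e2
      · subst hee
        by_cases h1 : e1 ∈ K
        · exact ⟨e1, h1, Or.inl ⟨ha, hlt⟩⟩
        · obtain ⟨k, hk, hc⟩ := habs e1 (mem_erase.2 ⟨hne, he1'.1⟩) h1
          rcases hc with hc | hc
          · exact ⟨k, hk, Or.inl ⟨hc.1.trans ha, hc.2.trans hlt⟩⟩
          · exact absurd (he1'.2 k (mem_of_mem_erase (hKS hk)) hc.1) (not_le.2 hc.2)
      · exact habs e (mem_erase.2 ⟨hee, he⟩) heK
    have hr := (h e1 (mem_filter.1 he1).1 e2 (mem_filter.1 he2).1 hne).1 ha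
    rcases lt_or_gt_of_ne hr with h1 | h1
    · exact main e1 he1 e2 he2 ha hne h1
    · exact main e2 he2 e1 he1 ha.symm hne.symm h1

theorem colour {C : Type} [DecidableEq C] [Nonempty C] (ra rb : E → ℤ) (S : Finset E) :
    Loc a b S ra rb → ∀ L : E → Finset C,
      (∀ e ∈ S, (S.filter (Arc a b ra rb e)).card < (L e).card) →
      ∃ c : E → C, (∀ e ∈ S, c e ∈ L e) ∧
        ∀ e ∈ S, ∀ f ∈ S, e ≠ f → (a e = a f ∨ b e = b f) → c e ≠ c f := by
  classical
  induction S using Finset.strongInduction with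
  | H S ih =>
  intro h L hL
  rcases S.eq_empty_or_nonempty with rfl | ⟨e0, he0⟩
  · exact ⟨fun _ => Classical.arbitrary C, by simp, by simp⟩
  obtain ⟨x, hx⟩ : (L e0).Nonempty := card_pos.1 (lt_of_le_of_lt (Nat.zero_le _) (hL e0 he0))
  obtain ⟨K, hKS, hK, habs⟩ := stable a b ra rb (S.filter (fun e => x ∈ L e))
    (h.mono a b (filter_subset _ _))
  have hKne : K.Nonempty := by
    by_cases h0 : e0 ∈ K
    · exact ⟨e0, h0⟩
    · obtain ⟨k, hk, -⟩ := habs e0 (mem_filter.2 ⟨he0, hx⟩) h0
      exact ⟨k, hk⟩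
  have hKS' : K ⊆ S := hKS.trans (filter_subset _ _)
  obtain ⟨c, hc1, hc2⟩ := ih (S \ K) (sdiff_ssubset hKS' hKne) (h.mono a b sdiff_subset)
    (fun e => (L e).erase x) (by
      intro e he
      have he' := mem_sdiff.1 he
      have hsub : (S \ K).filter (Arc a b ra rb e) ⊆ S.filter (Arc a b ra rb e) :=
        filter_subset_filter _ sdiff_subset
      by_cases hxe : x ∈ L e
      · obtain ⟨k, hk, hc⟩ := habs e (mem_filter.2 ⟨he'.1, hxe⟩) he'.2
        have hlt : ((S \ K).filter (Arc a b ra rb e)).card < (S.filter (Arc a b ra rb e)).card := by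
          apply card_lt_card
          refine ⟨hsub, fun hh => ?_⟩
          have := hh (mem_filter.2 ⟨hKS' hk, hc⟩)
          exact (mem_sdiff.1 (mem_filter.1 this).1).2 hk
        have h1 := hL e he'.1
        rw [card_erase_of_mem hxe]
        omega
      · rw [erase_eq_of_notMem hxe]
        exact lt_of_le_of_lt (card_le_card hsub) (hL e he'.1))
  refine ⟨fun e => if e ∈ K then x else c e, ?_, ?_⟩
  · intro e he
    by_cases hk : e ∈ K
    · simp only [hk, if_true]; exact (mem_filter.1 (hKS hk)).2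
    · simp only [hk, if_false]; exact mem_of_mem_erase (hc1 e (mem_sdiff.2 ⟨he, hk⟩))
  · intro e he f hf hne hadj
    by_cases hk : e ∈ K <;> by_cases hk' : f ∈ K
    · exact absurd (hK e hk f hk' hadj) hne
    · simp only [hk, hk', if_true, if_false]
      exact fun h' => (mem_erase.1 (hc1 f (mem_sdiff.2 ⟨hf, hk'⟩))).1 h'.symm
    · simp only [hk, hk', if_true, if_false]
      exact fun h' => (mem_erase.1 (hc1 e (mem_sdiff.2 ⟨he, hk⟩))).1 h'
    · simp only [hk, hk', if_false]
      exact hc2 e (mem_sdiff.2 ⟨he, hk⟩) f (mem_sdiff.2 ⟨hf, hk'⟩) hne hadj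

/-- half of Koenig's theorem: a minimal cover side is matched outside the other side -/
theorem half (S : Finset E) (CA CB : Finset V)
    (hmin : ∀ DA DB : Finset V, (∀ e ∈ S, a e ∈ DA ∨ b e ∈ DB) →
      CA.card + CB.card ≤ DA.card + DB.card)
    (hc : ∀ e ∈ S, a e ∈ CA ∨ b e ∈ CB) :
    ∃ M ⊆ S, Mat a b M ∧ (∀ m ∈ M, a m ∈ CA ∧ b m ∉ CB) ∧ ∀ x ∈ CA, ∃ m ∈ M, a m = x := by
  classical
  let t : CA → Finset V := fun x => ((S.filter (fun e => a e = x)).image b) \ CB
  have hall : ∀ s : Finset CA, s.card ≤ (s.biUnion t).card := by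
    intro s
    have h1 := hmin (CA \ s.map (Function.Embedding.subtype _)) (CB ∪ s.biUnion t) (by
      intro e he
      by_cases hb : b e ∈ CB
      · exact Or.inr (mem_union_left _ hb)
      · have ha : a e ∈ CA := (hc e he).resolve_right hb
        by_cases hs : (⟨a e, ha⟩ : CA) ∈ s
        · refine Or.inr (mem_union_right _ (mem_biUnion.2 ⟨_, hs, ?_⟩))
          exact mem_sdiff.2 ⟨mem_image.2 ⟨e, mem_filter.2 ⟨he, rfl⟩, rfl⟩, hb⟩
        · refine Or.inl (mem_sdiff.2 ⟨ha, fun hh => hs ?_⟩)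
          obtain ⟨y, hy, hy'⟩ := mem_map.1 hh
          have : y = ⟨a e, ha⟩ := Subtype.ext hy'
          exact this ▸ hy)
    have hsub : s.map (Function.Embedding.subtype _) ⊆ CA := by
      intro x hx
      obtain ⟨y, -, rfl⟩ := mem_map.1 hx
      exact y.2
    have h2 := card_sdiff_add_card_eq_card hsub
    rw [card_map] at h2
    have h3 := card_union_le CB (s.biUnion t)
    omega
  obtain ⟨g, hg, hgt⟩ := (Finset.all_card_le_biUnion_card_iff_exists_injective t).1 hall
  have hex : ∀ x : CA, ∃ e ∈ S, a e = x ∧ b e = g x ∧ g x ∉ CB := by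
    intro x
    have h1 := mem_sdiff.1 (hgt x)
    obtain ⟨e, he, hb⟩ := mem_image.1 h1.1
    exact ⟨e, (mem_filter.1 he).1, (mem_filter.1 he).2, hb, h1.2⟩
  choose m hm using hex
  refine ⟨univ.image m, ?_, ?_, ?_, ?_⟩
  · intro e he
    obtain ⟨x, -, rfl⟩ := mem_image.1 he
    exact (hm x).1
  · intro e he f hf hef
    obtain ⟨x, -, rfl⟩ := mem_image.1 he
    obtain ⟨y, -, rfl⟩ := mem_image.1 hf
    have : x = y := by
      rcases hef with h1 | h1
      · exact Subtype.ext ((hm x).2.1.symm.trans (h1.trans (hm y).2.1))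
      · exact hg ((hm x).2.2.1.symm.trans (h1.trans (hm y).2.2.1))
    rw [this]
  · intro e he
    obtain ⟨x, -, rfl⟩ := mem_image.1 he
    refine ⟨by rw [(hm x).2.1]; exact x.2, by rw [(hm x).2.2.1]; exact (hm x).2.2.2⟩
  · intro x hx
    exact ⟨m ⟨x, hx⟩, mem_image.2 ⟨_, mem_univ _, rfl⟩, (hm ⟨x, hx⟩).2.1⟩

omit [DecidableEq E] [DecidableEq V] in
theorem Mat.symm {K : Finset E} (h : Mat a b K) : Mat b a K :=
  fun e he f hf h' => h e he f hf h'.symm

theorem konig (S : Finset E) : ∃ (CA CB : Finset V) (M : Finset E), M ⊆ S ∧ Mat a b M ∧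
    (∀ e ∈ S, a e ∈ CA ∨ b e ∈ CB) ∧ (∀ m ∈ M, ¬ (a m ∈ CA ∧ b m ∈ CB)) ∧
    (∀ x ∈ CA, ∃ m ∈ M, a m = x) ∧ (∀ y ∈ CB, ∃ m ∈ M, b m = y) := by
  classical
  have hex : ∃ n, ∃ CA CB : Finset V, (∀ e ∈ S, a e ∈ CA ∨ b e ∈ CB) ∧ CA.card + CB.card = n :=
    ⟨_, S.image a, ∅, fun e he => Or.inl (mem_image_of_mem _ he), rfl⟩
  obtain ⟨CA, CB, hc, hn⟩ := Nat.find_spec hex
  have hmin : ∀ DA DB : Finset V, (∀ e ∈ S, a e ∈ DA ∨ b e ∈ DB) →
      CA.card + CB.card ≤ DA.card + DB.card := fun DA DB h =>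
    hn ▸ Nat.find_min' hex ⟨DA, DB, h, rfl⟩
  obtain ⟨M1, h1S, h1m, h1c, h1⟩ := half a b S CA CB hmin hc
  obtain ⟨M2, h2S, h2m, h2c, h2⟩ := half b a S CB CA (fun DB DA h => by
    have := hmin DA DB (fun e he => (h e he).symm); omega) (fun e he => (hc e he).symm)
  refine ⟨CA, CB, M1 ∪ M2, union_subset h1S h2S, ?_, hc, ?_, ?_, ?_⟩
  · intro e he f hf hef
    rcases mem_union.1 he with he | he <;> rcases mem_union.1 hf with hf | hf
    · exact h1m e he f hf hef
    · rcases hef with h | h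
      · exact absurd (h ▸ (h1c e he).1) (h2c f hf).2
      · exact absurd (h.symm ▸ (h2c f hf).1) (h1c e he).2
    · rcases hef with h | h
      · exact absurd (h.symm ▸ (h1c f hf).1) (h2c e he).2
      · exact absurd (h ▸ (h2c e he).1) (h1c f hf).2
    · exact h2m e he f hf hef.symm
  · intro m hm hh
    rcases mem_union.1 hm with hm | hm
    · exact (h1c m hm).2 hh.2
    · exact (h2c m hm).2 hh.1
  · intro x hx
    obtain ⟨m, hm, h⟩ := h1 x hx
    exact ⟨m, mem_union_left _ hm, h⟩
  · intro x hx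
    obtain ⟨m, hm, h⟩ := h2 x hx
    exact ⟨m, mem_union_right _ hm, h⟩

/-- degree -/
def dg (S : Finset E) (x : V) : ℕ := (S.filter (fun e => a e = x)).card

def Good (S : Finset E) (f : E → ℕ) : Prop :=
  ∃ ra rb : E → ℤ, Loc a b S ra rb ∧ ∀ e ∈ S, (S.filter (Arc a b ra rb e)).card < f e

theorem dg_sdiff_le (S M : Finset E) (x : V) : dg a (S \ M) x ≤ dg a S x :=
  card_le_card (filter_subset_filter _ sdiff_subset)

theorem dg_sdiff_lt (S M : Finset E) (hM : M ⊆ S) (x : V) (m : E) (hm : m ∈ M) (hx : a m = x) :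
    dg a (S \ M) x < dg a S x := by
  apply card_lt_card
  refine ⟨filter_subset_filter _ sdiff_subset, fun hh => ?_⟩
  have := hh (mem_filter.2 ⟨hM hm, hx⟩)
  exact (mem_sdiff.1 (mem_filter.1 this).1).2 hm

/-- one step: add a matching `M`; `T m` means `m` is put first at its `a`-end, last at its `b`-end -/
theorem step (S M : Finset E) (hM : M ⊆ S) (hmat : Mat a b M) (T : E → Prop) (f f' : E → ℕ)
    (hg : Good a b (S \ M) f')
    (h0 : ∀ e ∈ S, e ∉ M → f' e ≤ f e)
    (h1 : ∀ e ∈ S, e ∉ M → ∀ m ∈ M, ((T m ∧ a m = a e) ∨ (¬ T m ∧ b m = b e)) → f' e < f e)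
    (h2 : ∀ e ∈ S, e ∉ M → ∀ m ∈ M, ∀ m' ∈ M, T m → a m = a e → ¬ T m' → b m' = b e → False)
    (h3 : ∀ m ∈ M, (T m → dg b S (b m) ≤ f m) ∧ (¬ T m → dg a S (a m) ≤ f m)) :
    Good a b S f := by
  classical
  obtain ⟨ra, rb, hloc, hout⟩ := hg
  obtain ⟨N, hN⟩ : ∃ N : ℤ, ∀ e ∈ S, (-N < ra e ∧ ra e < N) ∧ (-N < rb e ∧ rb e < N) := by
    obtain ⟨N1, hN1⟩ := (S.image (fun e => |ra e| + |rb e|)).bddAbove
    refine ⟨N1 + 1, fun e he => ?_⟩
    have := hN1 (mem_coe.2 (mem_image_of_mem _ he))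
    have h1 := abs_nonneg (ra e)
    have h2 := abs_nonneg (rb e)
    have h3 := le_abs_self (ra e)
    have h4 := le_abs_self (rb e)
    have h5 := neg_abs_le (ra e)
    have h6 := neg_abs_le (rb e)
    omega
  let ra' : E → ℤ := fun e => if e ∈ M then (if T e then -N else N) else ra e
  let rb' : E → ℤ := fun e => if e ∈ M then (if T e then N else -N) else rb e
  refine ⟨ra', rb', ?_, ?_⟩
  · intro e he g hg hne
    have hNe := hN e he
    have hNg := hN g hg
    by_cases heM : e ∈ M <;> by_cases hgM : g ∈ M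
    · exact ⟨fun h => absurd (hmat e heM g hgM (Or.inl h)) hne,
        fun h => absurd (hmat e heM g hgM (Or.inr h)) hne⟩
    · simp only [ra', rb', heM, hgM, if_true, if_false]
      constructor <;> intro _ <;> split_ifs <;> omega
    · simp only [ra', rb', heM, hgM, if_true, if_false]
      constructor <;> intro _ <;> split_ifs <;> omega
    · simp only [ra', rb', heM, hgM, if_false]
      exact hloc e (mem_sdiff.2 ⟨he, heM⟩) g (mem_sdiff.2 ⟨hg, hgM⟩) hne
  · intro e he
    have hNe := hN e he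
    by_cases heM : e ∈ M
    · by_cases hT : T e
      · refine lt_of_lt_of_le ?_ ((h3 e heM).1 hT)
        apply card_lt_card
        constructor
        · intro g hg
          obtain ⟨hgS, hc⟩ := mem_filter.1 hg
          refine mem_filter.2 ⟨hgS, ?_⟩
          rcases hc with hc | hc
          · exfalso
            have hNg := hN g hgS
            have := hc.2
            simp only [ra', heM, hT, if_true] at this
            split_ifs at this <;> omega
          · exact hc.1
        · intro hh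
          have := (mem_filter.1 (hh (mem_filter.2 ⟨he, rfl⟩))).2
          rcases this with h | h <;> exact lt_irrefl _ h.2
      · refine lt_of_lt_of_le ?_ ((h3 e heM).2 hT)
        apply card_lt_card
        constructor
        · intro g hg
          obtain ⟨hgS, hc⟩ := mem_filter.1 hg
          refine mem_filter.2 ⟨hgS, ?_⟩
          rcases hc with hc | hc
          · exact hc.1
          · exfalso
            have hNg := hN g hgS
            have := hc.2
            simp only [rb', heM, hT, if_true, if_false] at this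
            split_ifs at this <;> omega
        · intro hh
          have := (mem_filter.1 (hh (mem_filter.2 ⟨he, rfl⟩))).2
          rcases this with h | h <;> exact lt_irrefl _ h.2
    · have ho := hout e (mem_sdiff.2 ⟨he, heM⟩)
      set Q := M.filter (fun m => (T m ∧ a m = a e) ∨ (¬ T m ∧ b m = b e)) with hQ
      have hsub : S.filter (Arc a b ra' rb' e) ⊆ (S \ M).filter (Arc a b ra rb e) ∪ Q := by
        intro g hg
        obtain ⟨hgS, hc⟩ := mem_filter.1 hg
        by_cases hgM : g ∈ M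
        · refine mem_union_right _ (mem_filter.2 ⟨hgM, ?_⟩)
          rcases hc with hc | hc
          · have := hc.2
            simp only [ra', heM, hgM, if_true, if_false] at this
            by_cases hT : T g
            · exact Or.inl ⟨hT, hc.1⟩
            · simp only [hT, if_false] at this; omega
          · have := hc.2
            simp only [rb', heM, hgM, if_true, if_false] at this
            by_cases hT : T g
            · simp only [hT, if_true] at this; omega
            · exact Or.inr ⟨hT, hc.1⟩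
        · refine mem_union_left _ (mem_filter.2 ⟨mem_sdiff.2 ⟨hgS, hgM⟩, ?_⟩)
          simpa only [Arc, ra', rb', heM, hgM, if_false] using hc
      have hcard := (card_le_card hsub).trans (card_union_le _ _)
      have hQ1 : Q.card ≤ 1 := by
        apply card_le_one.2
        intro m hm m' hm'
        obtain ⟨hmM, hm⟩ := mem_filter.1 hm
        obtain ⟨hmM', hm'⟩ := mem_filter.1 hm'
        rcases hm with hm | hm <;> rcases hm' with hm' | hm'
        · exact hmat m hmM m' hmM' (Or.inl (hm.2.trans hm'.2.symm))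
        · exact (h2 e he heM m hmM m' hmM' hm.1 hm.2 hm'.1 hm'.2).elim
        · exact (h2 e he heM m' hmM' m hmM hm'.1 hm'.2 hm.1 hm.2).elim
        · exact hmat m hmM m' hmM' (Or.inr (hm.2.trans hm'.2.symm))
      rcases Q.eq_empty_or_nonempty with hq | ⟨m, hm⟩
      · rw [hq, card_empty] at hcard
        have := h0 e he heM
        omega
      · have := h1 e he heM m (mem_filter.1 hm).1 (mem_filter.1 hm).2
        omega

/-- Borodin-Kostochka-Woodall orientation -/
theorem bkw (S : Finset E) : Good a b S (fun e => max (dg a S (a e)) (dg b S (b e))) := by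
  classical
  induction S using Finset.strongInduction with
  | H S ih =>
  rcases S.eq_empty_or_nonempty with rfl | ⟨e0, he0⟩
  · exact ⟨fun _ => 0, fun _ => 0, by simp [Loc], by simp⟩
  obtain ⟨CA, CB, M, hM, hmat, hc, hn, hA, hB⟩ := konig a b S
  have hne : M.Nonempty := by
    rcases hc e0 he0 with h | h
    · obtain ⟨m, hm, -⟩ := hA _ h; exact ⟨m, hm⟩
    · obtain ⟨m, hm, -⟩ := hB _ h; exact ⟨m, hm⟩
  refine step a b S M hM hmat (fun m => a m ∉ CA) _ _ (ih (S \ M) (sdiff_ssubset hM hne))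
    ?_ ?_ ?_ ?_
  · intro e _ _
    exact max_le_max (dg_sdiff_le a S M _) (dg_sdiff_le b S M _)
  · intro e he _ m hm hh
    have key : dg a (S \ M) (a e) < dg a S (a e) ∧ dg b (S \ M) (b e) < dg b S (b e) := by
      rcases hh with hh | hh
      · obtain ⟨m', hm', h'⟩ := hB _ ((hc e he).resolve_left (hh.2 ▸ hh.1))
        exact ⟨dg_sdiff_lt a S M hM _ m hm hh.2, dg_sdiff_lt b S M hM _ m' hm' h'⟩
      · have hb : b e ∉ CB := fun h => hn m hm ⟨not_not.1 hh.1, hh.2 ▸ h⟩
        obtain ⟨m', hm', h'⟩ := hA _ ((hc e he).resolve_right hb)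
        exact ⟨dg_sdiff_lt a S M hM _ m' hm' h', dg_sdiff_lt b S M hM _ m hm hh.2⟩
    exact max_lt_max key.1 key.2
  · intro e he _ m _ m' hm' h1 h2 h3 h4
    rcases hc e he with h | h
    · exact h1 (h2 ▸ h)
    · exact hn m' hm' ⟨not_not.1 h3, h4 ▸ h⟩
  · intro m _
    exact ⟨fun _ => le_max_right _ _, fun _ => le_max_left _ _⟩

end Pool.Agent.H25.Kernel
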