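import Mathlib
import Pool.Agent.H25.NSIdealU

set_option autoImplicit false

open Cardinal Set

universe u

namespace Pool.Agent.H25.Lots

open Pool.Agent.H25.NSIdealU

/-- Strictly monotone and preserving suprema and infima of nonempty sets. -/
def Gd {L U : Type u} [LinearOrder L] [LinearOrder U] (f : L → U) : Prop :=
  StrictMono f ∧ (∀ s a, s.Nonempty → IsLUB s a → IsLUB (f '' s) (f a)) ∧
    (∀ s a, s.Nonempty → IsGLB s a → IsGLB (f '' s) (f a))

theorem Gd.comp {L M U : Type u} [LinearOrder L] [LinearOrder M] [LinearOrder U]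
    {i : L → M} {f : M → U} (hf : Gd f) (hi : Gd i) : Gd (f ∘ i) := by
  refine ⟨hf.1.comp hi.1, fun s a hs ha => ?_, fun s a hs ha => ?_⟩
  · rw [image_comp]
    exact hf.2.1 _ _ (hs.image i) (hi.2.1 s a hs ha)
  · rw [image_comp]
    exact hf.2.2 _ _ (hs.image i) (hi.2.2 s a hs ha)

theorem gd_of_convex {L M : Type u} [LinearOrder L] [LinearOrder M] (i : L → M)
    (hi : StrictMono i) (hc : ∀ x y z, i x ≤ z → z ≤ i y → ∃ w, i w = z) : Gd i := by
  refine ⟨hi, fun s a hs ha => ⟨?_, ?_⟩, fun s a hs ha => ⟨?_, ?_⟩⟩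
  · rintro _ ⟨x, hx, rfl⟩
    exact hi.monotone (ha.1 hx)
  · intro z hz
    by_contra h
    obtain ⟨x, hx⟩ := hs
    obtain ⟨w, rfl⟩ := hc x a z (hz ⟨x, hx, rfl⟩) (not_le.1 h).le
    exact h (hi.monotone (ha.2 (fun y hy => hi.le_iff_le.1 (hz ⟨y, hy, rfl⟩))))
  · rintro _ ⟨x, hx, rfl⟩
    exact hi.monotone (ha.1 hx)
  · intro z hz
    by_contra h
    obtain ⟨x, hx⟩ := hs
    obtain ⟨w, rfl⟩ := hc a x z (not_le.1 h).le (hz ⟨x, hx, rfl⟩)
    exact h (hi.monotone (ha.2 (fun y hy => hi.le_iff_le.1 (hz ⟨y, hy, rfl⟩))))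

theorem gd_of_continuous {L U : Type u} [LinearOrder L] [LinearOrder U]
    [TopologicalSpace L] [OrderTopology L] [TopologicalSpace U] [OrderTopology U]
    (f : L → U) (h1 : StrictMono f) (h2 : Continuous f) : Gd f :=
  ⟨h1, fun _ _ hs ha => ha.isLUB_of_tendsto (h1.monotone.monotoneOn _) hs
      (h2.continuousAt.tendsto.mono_left nhdsWithin_le_nhds),
    fun _ _ hs ha => ha.isGLB_of_tendsto (h1.monotone.monotoneOn _) hs
      (h2.continuousAt.tendsto.mono_left nhdsWithin_le_nhds)⟩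

def AvT (k : Cardinal.{u}) (U : Type u) [LinearOrder U] (X : Set U) : Prop :=
  ∃ (L : Type u) (_ : LinearOrder L) (t : L), #L ≤ k ∧ (∀ x, x ≤ t) ∧
    ∀ f : L → U, Gd f → f t ∉ X

def AvB (k : Cardinal.{u}) (U : Type u) [LinearOrder U] (X : Set U) : Prop :=
  ∃ (L : Type u) (_ : LinearOrder L) (t : L), #L ≤ k ∧ (∀ x, t ≤ x) ∧
    ∀ f : L → U, Gd f → f t ∉ X

theorem avB_of_dual {k : Cardinal.{u}} {U : Type u} [LinearOrder U] (X : Set U)
    (h : AvT k Uᵒᵈ X) : AvB k U X := by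
  obtain ⟨L, inst, t, h1, h2, h3⟩ := h
  refine ⟨Lᵒᵈ, inferInstance, t, h1, h2, fun f hf => ?_⟩
  refine h3 (fun x => OrderDual.toDual (f (OrderDual.toDual x))) ⟨hf.1.dual, ?_, ?_⟩
  · intro s a hs ha
    exact hf.2.2 s a hs ha
  · intro s a hs ha
    exact hf.2.1 s a hs ha

def Lim {W : Type u} [LinearOrder W] (a : W) : Prop :=
  (∃ x, x < a) ∧ ∀ x, x < a → ∃ y, x < y ∧ y < a

def Seq {W U : Type u} [LinearOrder W] [LinearOrder U] (b : W → U) (v : U) : Prop :=
  StrictMono b ∧ (∀ a, Lim a → IsLUB (b '' Iio a) (b a)) ∧ IsLUB (range b) v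

theorem thin_not_lim {W : Type u} [LinearOrder W] (h : Good W) : Thin {a : W | ¬ Lim a} := by
  classical
  have h1 : Thin {a : W | ¬ ∃ x, x < a} := by
    refine small_of_card_lt _ (lt_of_le_of_lt (le_aleph0_iff_set_countable.2 ?_) h.unc)
    refine Set.Subsingleton.countable ?_
    intro a ha b hb
    exact le_antisymm (not_lt.1 (fun h => ha ⟨b, h⟩)) (not_lt.1 (fun h => hb ⟨a, h⟩))
  have h2 : Thin {a : W | ∃ x, x < a ∧ ∀ y, x < y → a ≤ y} := by
    let p : W → W := fun a => if h : ∃ x, x < a ∧ ∀ y, x < y → a ≤ y then h.choose else a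
    have hp : ∀ a, (∃ x, x < a ∧ ∀ y, x < y → a ≤ y) → p a < a ∧ ∀ y, p a < y → a ≤ y := by
      intro a ha
      simp only [p, dif_pos ha]
      exact ha.choose_spec
    refine small_of_inj h _ p (fun a ha => (hp a ha).1) ?_
    intro a ha b hb hab
    exact le_antisymm ((hp a ha).2 b (hab ▸ (hp b hb).1)) ((hp b hb).2 a (hab ▸ (hp a ha).1))
  refine small_mono ?_ (small_union h h1 h2)
  intro a ha
  by_cases h3 : ∃ x, x < a
  · right
    by_contra h4
    apply ha
    refine ⟨h3, fun x hx => ?_⟩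
    by_contra h5
    exact h4 ⟨x, hx, fun y hy => not_lt.1 (fun h6 => h5 ⟨y, hy, h6⟩)⟩
  · exact Or.inl h3

theorem exists_gt {W : Type u} [LinearOrder W] (h : Good W) (x : W) : ∃ y, x < y := by
  obtain ⟨b, hb⟩ := bound h _ (h.iic x)
  exact ⟨b, hb x (le_refl x)⟩

theorem thin_lt {W U : Type u} [LinearOrder W] [LinearOrder U] (h : Good W) {b c : W → U} {v : U}
    (hb : Seq b v) (hc : Seq c v) : Thin {a | Lim a ∧ b a < c a} := by
  classical
  have h1 : ∀ a, ∃ x, Lim a ∧ b a < c a → x < a ∧ b a < c x := by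
    intro a
    by_cases ha : Lim a ∧ b a < c a
    · obtain ⟨_, ⟨x, hx, rfl⟩, h2, _⟩ := (hc.2.1 a ha.1).exists_between ha.2
      exact ⟨x, fun _ => ⟨hx, h2⟩⟩
    · exact ⟨a, fun h => absurd h ha⟩
  choose f hf using h1
  refine ⟨f, fun a ha _ => (hf a ha).1, fun x => ?_⟩
  obtain ⟨y, hy⟩ := exists_gt h x
  have h2 : c x < v := lt_of_lt_of_le (hc.1 hy) (hc.2.2.1 ⟨y, rfl⟩)
  obtain ⟨_, ⟨z, rfl⟩, h3, _⟩ := hb.2.2.exists_between h2
  refine lt_of_le_of_lt (mk_le_mk_of_subset ?_) (h.iic z)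
  intro a ha
  have h4 := (hf a ha.1).2
  rw [ha.2] at h4
  exact (hb.1.lt_iff_lt.1 (h4.trans h3)).le

theorem thin_ne {W U : Type u} [LinearOrder W] [LinearOrder U] (h : Good W) {b c : W → U} {v : U}
    (hb : Seq b v) (hc : Seq c v) : Thin {a | b a ≠ c a} := by
  refine small_mono ?_ (small_union h (thin_not_lim h)
    (small_union h (thin_lt h hb hc) (thin_lt h hc hb)))
  intro a ha
  by_cases h1 : Lim a
  · right
    rcases lt_or_gt_of_ne ha with h2 | h2
    · exact Or.inl ⟨h1, h2⟩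
    · exact Or.inr ⟨h1, h2⟩
  · exact Or.inl h1

theorem step {k : Cardinal.{u}} (hk : ℵ₀ ≤ k) {W : Type u} [LinearOrder W] [WellFoundedLT W]
    (h : Good W) (hW : #W ≤ k) {U : Type u} [LinearOrder U] {J : Type u} (hJ : #J ≤ #W)
    (X : J → Set U) (hX : ∀ j (Y : Set U), #Y ≤ #(X j) → AvB k U Y) : AvT k U (⋃ j, X j) := by
  classical
  obtain ⟨g, hg⟩ := split h
  obtain ⟨e⟩ : Nonempty (J ↪ {c | ¬ Thin {a | g a = c}}) := (Cardinal.le_def _ _).1 (hJ.trans hg)
  have h1 : ∀ v : U, ∃ b : W → U, (∃ c : W → U, Seq c v) → Seq b v := by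
    intro v
    by_cases hv : ∃ c : W → U, Seq c v
    · obtain ⟨c, hc⟩ := hv
      exact ⟨c, fun _ => hc⟩
    · exact ⟨fun _ => v, fun h => absurd h hv⟩
  choose b hb using h1
  let Y : W → Set U := fun a => {y | ∃ j, (e j : W) = g a ∧ ∃ v ∈ X j, y = b v a}
  have h2 : ∀ a, AvB k U (Y a) := by
    intro a
    by_cases ha : ∃ j, (e j : W) = g a
    · obtain ⟨j, hj⟩ := ha
      refine hX j _ (le_trans (mk_le_mk_of_subset ?_) (mk_image_le (f := fun v => b v a)))
      rintro y ⟨j', hj', v, hv, rfl⟩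
      have : j' = j := e.injective (Subtype.ext (hj'.trans hj.symm))
      exact ⟨v, this ▸ hv, rfl⟩
    · refine ⟨PUnit, inferInstance, PUnit.unit, ?_, fun _ => le_refl _, fun f _ hf => ?_⟩
      · simpa using (one_le_aleph0.trans hk)
      · obtain ⟨j, hj, _⟩ := hf
        exact ha ⟨j, hj⟩
  choose L inst t hL ht hav using h2
  refine ⟨WithTop (Σₗ a, L a), inferInstance, ⊤, ?_, fun _ => le_top, fun f hf hmem => ?_⟩
  · have h3 : #(Σ a, L a) ≤ k := by
      rw [mk_sigma]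
      refine le_trans (sum_le_sum _ (fun _ => k) hL) ?_
      rw [sum_const']
      exact le_trans (mul_le_mul' hW le_rfl) (mul_eq_self hk).le
    have h4 : #(WithTop (Σₗ a, L a)) = #(Σ a, L a) + 1 := mk_option
    rw [h4]
    exact le_trans (add_le_add h3 (one_le_aleph0.trans hk)) (add_eq_self hk).le
  · let i : ∀ a, L a → WithTop (Σₗ a, L a) := fun a x => ((toLex ⟨a, x⟩ : Σₗ a, L a) : WithTop _)
    have hi1 : ∀ a a' (x : L a) (x' : L a'), a < a' → i a x < i a' x' := by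
      intro a a' x x' haa
      exact WithTop.coe_lt_coe.2 (Sigma.Lex.left _ _ haa)
    have hi2 : ∀ a, StrictMono (i a) := by
      intro a x x' hx
      exact WithTop.coe_lt_coe.2 (Sigma.Lex.right _ _ hx)
    have hi3 : ∀ a a' (x : L a) (x' : L a'), i a x ≤ i a' x' → a ≤ a' := by
      intro a a' x x' hle
      by_contra h5
      exact absurd (hi1 _ _ x' x (not_le.1 h5)) (not_lt.2 hle)
    have hi4 : ∀ z : WithTop (Σₗ a, L a), z ≠ ⊤ → ∃ a x, z = i a x := by
      intro z hz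
      obtain ⟨⟨a, x⟩, rfl⟩ := WithTop.ne_top_iff_exists.1 hz
      exact ⟨a, x, rfl⟩
    have hi5 : ∀ a x, i a x < ⊤ := fun a x => WithTop.coe_lt_top _
    have hi : ∀ a, Gd (i a) := by
      intro a
      refine gd_of_convex _ (hi2 a) (fun x y z h5 h6 => ?_)
      obtain ⟨a', w, rfl⟩ := hi4 z (ne_of_lt (lt_of_le_of_lt h6 (hi5 _ _)))
      have : a' = a := le_antisymm (hi3 _ _ _ _ h6) (hi3 _ _ _ _ h5)
      subst this
      exact ⟨w, rfl⟩
    let d : W → WithTop (Σₗ a, L a) := fun a => i a (t a)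
    have hd : Seq d ⊤ := by
      refine ⟨fun a a' haa => hi1 _ _ _ _ haa, fun a ha => ⟨?_, ?_⟩, fun _ _ => le_top, ?_⟩
      · rintro _ ⟨x, hx, rfl⟩
        exact (hi1 _ _ _ _ hx).le
      · intro z hz
        by_contra h5
        have h6 : z < d a := not_le.1 h5
        obtain ⟨a', w, rfl⟩ := hi4 z (ne_of_lt (h6.trans (hi5 _ _)))
        have h7 : a' < a := by
          rcases lt_or_eq_of_le (hi3 _ _ _ _ h6.le) with h8 | h8
          · exact h8
          · subst h8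
            exact absurd ((hi2 _).lt_iff_lt.1 h6) (not_lt.2 (ht _ _))
        obtain ⟨y, hy1, hy2⟩ := ha.2 a' h7
        exact absurd (hz ⟨y, hy2, rfl⟩) (not_le.2 (hi1 _ _ _ _ hy1))
      · intro z hz
        by_contra h5
        obtain ⟨a', w, rfl⟩ := hi4 z (ne_of_lt (not_le.1 h5))
        obtain ⟨y, hy⟩ := exists_gt h a'
        exact absurd (hz ⟨y, rfl⟩) (not_le.2 (hi1 _ _ _ _ hy))
    have hne : Nonempty W :=
      mk_ne_zero_iff.1 (ne_of_gt (lt_of_le_of_lt (zero_le (α := Cardinal)) h.unc))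
    have hc : Seq (f ∘ d) (f ⊤) := by
      refine ⟨hf.1.comp hd.1, fun a ha => ?_, ?_⟩
      · rw [image_comp]
        obtain ⟨x, hx⟩ := ha.1
        exact hf.2.1 _ _ ⟨d x, x, hx, rfl⟩ (hd.2.1 a ha)
      · rw [range_comp]
        exact hf.2.1 _ _ (range_nonempty d) hd.2.2
    obtain ⟨j, hj⟩ := mem_iUnion.1 hmem
    have h5 := thin_ne h hc (hb _ ⟨_, hc⟩)
    apply (e j).2
    refine small_mono ?_ h5
    intro a ha h6
    exact hav a (f ∘ i a) (hf.comp (hi a)) ⟨j, ha.symm, f ⊤, hj, h6⟩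

theorem lub_top {A : Type u} [LinearOrder A] (hA : ∀ x : A, ∃ y, x < y) :
    IsLUB (range ((↑) : A → WithTop A)) ⊤ := by
  refine ⟨fun _ _ => le_top, fun z hz => ?_⟩
  by_contra h5
  obtain ⟨a, rfl⟩ := WithTop.ne_top_iff_exists.1 (ne_of_lt (not_le.1 h5))
  obtain ⟨y, hy⟩ := hA a
  exact absurd (hz ⟨y, rfl⟩) (not_le.2 (WithTop.coe_lt_coe.2 hy))

theorem level0 {k : Cardinal.{u}} (hk : ℵ₀ < k) (U : Type u) [LinearOrder U] (X : Set U)
    (hX : #X ≤ 1) : AvT k U X := by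
  have hs : X.Subsingleton := mk_le_one_iff_set_subsingleton.1 hX
  by_cases h : ∃ v ∈ X, ∃ s : ULift.{u} ℕ → U, StrictMono s ∧ IsLUB (range s) v
  · obtain ⟨v, hv, s, hs1, hs2⟩ := h
    have hg := good_of_regular (Order.succ ℵ₀) (isRegular_succ le_rfl) (Order.lt_succ _)
    set W := (Order.succ ℵ₀ : Cardinal.{u}).ord.ToType
    have hW : #W ≤ k := by
      rw [mk_ord_toType]
      exact Order.succ_le_of_lt hk
    refine ⟨WithTop W, inferInstance, ⊤, ?_, fun _ => le_top, fun f hf hmem => ?_⟩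
    · have h4 : #(WithTop W) = #W + 1 := mk_option
      rw [h4]
      exact le_trans (add_le_add hW (one_le_aleph0.trans hk.le)) (add_eq_self hk.le).le
    · have hne : Nonempty W :=
        mk_ne_zero_iff.1 (ne_of_gt (lt_of_le_of_lt (zero_le (α := Cardinal)) hg.unc))
      have h1 := hf.2.1 _ _ (range_nonempty _) (lub_top (exists_gt hg))
      have h2 : f ⊤ = v := hs hmem hv
      have h3 : ∀ n, ∃ a : W, s n < f a := by
        intro n
        have h4 : s n < f ⊤ := by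
          rw [h2]
          exact lt_of_lt_of_le (hs1 (show n < ⟨n.down + 1⟩ from Nat.lt_succ_self _))
            (hs2.1 ⟨_, rfl⟩)
        obtain ⟨_, ⟨_, ⟨a, rfl⟩, rfl⟩, h5, _⟩ := h1.exists_between h4
        exact ⟨a, h5⟩
      choose a ha using h3
      obtain ⟨c, hc⟩ := bound hg (range a)
        (lt_of_le_of_lt (le_aleph0_iff_set_countable.2 (countable_range a)) hg.unc)
      have h4 : v ≤ f c := by
        refine hs2.2 ?_
        rintro _ ⟨n, rfl⟩
        exact ((ha n).trans (hf.1 (WithTop.coe_lt_coe.2 (hc _ ⟨n, rfl⟩)))).le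
      rw [← h2] at h4
      exact absurd h4 (not_le.2 (hf.1 (WithTop.coe_lt_top c)))
  · refine ⟨WithTop (ULift.{u} ℕ), inferInstance, ⊤, mk_le_aleph0.trans hk.le, fun _ => le_top,
      fun f hf hmem => h ⟨_, hmem, fun n => f n, fun m n hmn => hf.1 (WithTop.coe_lt_coe.2 hmn), ?_⟩⟩
    have h1 := hf.2.1 _ _ (range_nonempty _) (lub_top (A := ULift.{u} ℕ)
      (fun n => ⟨⟨n.down + 1⟩, Nat.lt_succ_self _⟩))
    rwa [← range_comp] at h1

theorem level1 {k : Cardinal.{u}} (hk : ℵ₀ < k) {l : Cardinal.{u}} (hl : l.IsRegular)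
    (hl1 : ℵ₀ < l) (hl2 : l ≤ k) (U : Type u) [LinearOrder U] (X : Set U) (hX : #X ≤ l) :
    AvT k U X := by
  have h := step hk.le (good_of_regular l hl hl1) (by simpa using hl2) (U := U) (J := X)
    (by simpa using hX) (fun j => {(j : U)})
    (fun j Y hY => avB_of_dual Y (level0 hk Uᵒᵈ Y (hY.trans (mk_singleton _).le)))
  rwa [iUnion_singleton_eq_range, Subtype.range_coe] at h

theorem level2 (U : Type u) [LinearOrder U] (hk : ℵ₀ < #U) : AvT #U U Set.univ := by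
  by_cases hr : (#U).IsRegular
  · exact level1 hk hr hk le_rfl U Set.univ (by simp)
  · have hsucc : ∀ m : Cardinal.{u}, m < #U → (Order.succ (max m ℵ₀)).IsRegular ∧
        ℵ₀ < Order.succ (max m ℵ₀) ∧ Order.succ (max m ℵ₀) ≤ #U ∧ m ≤ Order.succ (max m ℵ₀) :=
      fun m hm => ⟨isRegular_succ (le_max_right _ _),
        lt_of_le_of_lt (le_max_right _ _) (Order.lt_succ _),
        Order.succ_le_of_lt (max_lt hm hk), (le_max_left _ _).trans (Order.le_succ _)⟩
    have hcof : (#U).ord.cof < #U := by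
      by_contra h
      exact hr ⟨hk.le, not_lt.1 h⟩
    obtain ⟨e⟩ : Nonempty (U ≃ (#U).ord.ToType) := by
      rw [← Cardinal.eq]
      simp
    obtain ⟨S, hS1, hS2⟩ := Order.exists_cof_eq (#U).ord.ToType
    rw [Ordinal.cof_toType] at hS2
    obtain ⟨h1, h2, h3, h4⟩ := hsucc _ hcof
    have h := step hk.le (good_of_regular _ h1 h2) (by simpa using h3) (U := U) (J := S)
      (by rw [hS2, mk_ord_toType]; exact h4) (fun j => e ⁻¹' Iic (j : (#U).ord.ToType))
      (fun j Y hY => by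
        have h5 : #(e ⁻¹' Iic (j : (#U).ord.ToType)) < #U := by
          rw [mk_preimage_equiv]
          have := mk_Iic_lt (j : (#U).ord.ToType) (by simp) (by simpa using hk.le)
          simpa using this
        obtain ⟨g1, g2, g3, g4⟩ := hsucc _ h5
        exact avB_of_dual Y (level1 hk g1 g2 g3 Uᵒᵈ Y (hY.trans g4)))
    have h5 : (⋃ j : S, e ⁻¹' Iic (j : (#U).ord.ToType)) = Set.univ := by
      refine eq_univ_of_forall (fun x => ?_)
      obtain ⟨y, hy, hxy⟩ := hS1 (e x)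
      exact mem_iUnion.2 ⟨⟨y, hy⟩, hxy⟩
    rwa [h5] at h

theorem main (U : Type u) [LinearOrder U] (hk : ℵ₀ < #U) :
    ∃ (L : Type u) (_ : LinearOrder L), #L = #U ∧ ∀ f : L → U, ¬ Gd f := by
  obtain ⟨L, inst, t, h1, _, h3⟩ := level2 U hk
  refine ⟨L ⊕ₗ U, inferInstance, ?_, fun f hf => ?_⟩
  · have : #(L ⊕ₗ U) = #L + #U := by
      change #(L ⊕ U) = _
      simp
    rw [this]
    exact add_eq_right hk.le h1
  · refine h3 (f ∘ fun x => toLex (Sum.inl x)) (hf.comp (gd_of_convex _ ?_ ?_)) (mem_univ _)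
    · intro x y hxy
      exact Sum.Lex.inl_lt_inl_iff.2 hxy
    · rintro x y (z | z) _ h5
      · exact ⟨z, rfl⟩
      · exact absurd h5 Sum.Lex.not_inr_le_inl

end Pool.Agent.H25.Lots
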