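import Mathlib

set_option autoImplicit false
open Set Cardinal Topology

namespace Pool.Agent.H25.MNLind

universe u

theorem greedy {α : Type u} [LinearOrder α] [WellFoundedLT α] (P : α → Set α → Prop) :
    ∃ L : Set α, ∀ x, x ∈ L ↔ P x (L ∩ Iio x) := by
  let f : α → Prop := fun x => WellFounded.fix wellFounded_lt
    (fun x (g : ∀ y, y < x → Prop) => P x {y | ∃ h : y < x, g y h}) x
  refine ⟨{x | f x}, fun x => ?_⟩
  have : f x = P x {y | ∃ _ : y < x, f y} := WellFounded.fix_eq _ _ _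
  show f x ↔ _
  rw [this]
  have e : {y | ∃ _ : y < x, f y} = {x | f x} ∩ Iio x := by
    ext y
    exact ⟨fun ⟨a, b⟩ => ⟨b, a⟩, fun ⟨a, b⟩ => ⟨b, a⟩⟩
  rw [e]

theorem bun {α β : Type u} {κ : Cardinal.{u}} (hκ : ℵ₀ ≤ κ) {s : Set α} (hs : #s ≤ κ)
    {t : α → Set β} (ht : ∀ a ∈ s, #(t a) ≤ κ) : #(⋃ a ∈ s, t a) ≤ κ :=
  (mk_biUnion_le t s).trans ((mul_le_mul' hs (ciSup_le' fun a : s => ht a.1 a.2)).trans
    (mul_eq_self hκ).le)

theorem core {X : Type u} [TopologicalSpace X] [T1Space X] (H : X → Set X → Set X)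
    (h1 : ∀ x U, IsOpen U → x ∈ U → IsOpen (H x U) ∧ x ∈ H x U ∧ H x U ⊆ U)
    (h2 : ∀ x U y V, IsOpen U → x ∈ U → IsOpen V → y ∈ V → (H x U ∩ H y V).Nonempty →
      x ∈ V ∨ y ∈ U) {κ : Cardinal.{u}} (hκ : ℵ₀ ≤ κ) {Y : Set X} (hY : Dense Y)
    (hl : ∀ O : X → Set X, (∀ y ∈ Y, IsOpen (O y) ∧ y ∈ O y) →
      ∃ s ⊆ Y, #s ≤ κ ∧ Y ⊆ ⋃ y ∈ s, O y)
    (U : X → Set X) (hU : ∀ x, IsOpen (U x) ∧ x ∈ U x) :
    ∃ s : Set X, #s ≤ κ ∧ ⋃ x ∈ s, U x = Set.univ := by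
  classical
  obtain ⟨s, -, hs, hs'⟩ := hl U fun y _ => hU y
  set G := ⋃ y ∈ s, U y
  have hG : IsOpen G := isOpen_biUnion fun y _ => (hU y).1
  have disc : ∀ (D : Set X) (O : X → Set X), (∀ d ∈ D, d ∉ G ∧ IsOpen (O d) ∧ d ∈ O d) →
      (∀ d ∈ D, ∀ d' ∈ D, d' ∈ O d → d' = d) → #D ≤ κ := by
    intro D O hO hO'
    obtain ⟨t, ht, ht1, ht2⟩ := hl (fun y => H y G) fun y hy =>
      ⟨(h1 y G hG (hs' hy)).1, (h1 y G hG (hs' hy)).2.1⟩
    have a := fun d hd => h1 d _ (hO d hd).2.1 (hO d hd).2.2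
    have b := fun d hd => h1 d _ (a d hd).1 (a d hd).2.1
    have : ∀ d : D, ∃ y : t, y.1 ∈ H d (O d) := fun d => by
      obtain ⟨z, hz, hz'⟩ := hY.inter_open_nonempty _ (b d d.2).1 ⟨_, (b d d.2).2.1⟩
      obtain ⟨y, hy, hzy⟩ := mem_iUnion₂.1 (ht2 hz')
      exact ⟨⟨y, hy⟩, (h2 _ _ _ _ (a d d.2).1 (a d d.2).2.1 hG (hs' (ht hy))
        ⟨z, hz, hzy⟩).resolve_left (hO d d.2).1⟩
    choose y hy using this
    refine (mk_le_of_injective (f := y) fun d d' e => Subtype.ext ?_).trans ht1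
    exact (h2 _ _ _ _ (hO d d.2).2.1 (hO d d.2).2.2 (hO d' d'.2).2.1 (hO d' d'.2).2.2
      ⟨_, hy d, e ▸ hy d'⟩).elim (hO' _ d'.2 _ d.2) fun h => (hO' _ d.2 _ d'.2 h).symm
  obtain ⟨_, _⟩ := exists_wellFoundedLT X
  obtain ⟨R, hR⟩ := greedy fun x L => x ∉ G ∧ ∀ y ∈ L, x ∉ U y
  have rs : ∀ x ∈ R, ∀ y ∈ R, y < x → x ∉ U y := fun x hx y hy h => ((hR x).1 hx).2 y ⟨hy, h⟩
  have hd : ∀ B ⊆ R, ∃ D ⊆ B, #D ≤ κ ∧ B ⊆ closure D := by
    intro B hB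
    obtain ⟨L, hL⟩ := greedy fun x L => x ∈ B ∧ x ∉ closure L
    have hLB : L ⊆ B := fun x hx => ((hL x).1 hx).1
    refine ⟨L, hLB, disc L (fun x => U x \ closure (L ∩ Iio x)) (fun d hd =>
      ⟨((hR d).1 (hB (hLB hd))).1, (hU d).1.sdiff isClosed_closure, (hU d).2, ((hL d).1 hd).2⟩)
      fun d hd d' hd' h => ?_, fun x hx => ?_⟩
    · rcases lt_trichotomy d' d with e | e | e
      · exact (h.2 (subset_closure ⟨hd', e⟩)).elim
      · exact e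
      · exact (rs d' (hB (hLB hd')) d (hB (hLB hd)) e h.1).elim
    · by_cases h : x ∈ L
      · exact subset_closure h
      · exact closure_mono inter_subset_left (not_not.1 fun h' => h ((hL x).2 ⟨hx, h'⟩))
  have a := fun x => h1 x _ (hU x).1 (hU x).2
  have b := fun x => h1 x _ (a x).1 (a x).2.1
  have reg : ∀ x, closure (H x (U x)) ⊆ U x := fun x y hy => by
    by_contra hh
    have hne : y ∈ ({x}ᶜ : Set X) := fun e => hh (e ▸ (hU y).2)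
    have c := h1 y _ isOpen_compl_singleton hne
    exact (h2 _ _ _ _ isOpen_compl_singleton hne (hU x).1 (hU x).2
      (mem_closure_iff.1 hy _ c.1 c.2.1)).elim hh fun h => h rfl
  have hRκ : #R ≤ κ := by
    obtain ⟨D, -, hD, hD'⟩ := hd R subset_rfl
    refine (mk_le_mk_of_subset (t := ⋃ d ∈ D, {x ∈ R | d ∈ H x (H x (U x))}) fun x hx => ?_).trans
      (bun hκ hD fun d _ => ?_)
    · obtain ⟨d, h3, h4⟩ := mem_closure_iff.1 (hD' hx) _ (b x).1 (b x).2.1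
      exact mem_iUnion₂.2 ⟨d, h4, hx, h3⟩
    set B := {x ∈ R | d ∈ H x (H x (U x))}
    by_contra hB
    let B' := {x ∈ B | #(B ∩ Iio x : Set X) ≤ κ}
    have hB' : ∀ S : Set X, #S ≤ κ → S ⊆ B' → ∃ x ∈ B', ∀ y ∈ S, y < x := by
      intro S hS hSB
      have h3 : #(⋃ y ∈ S, B ∩ Iic y) ≤ κ := bun hκ hS fun y hy =>
        (mk_le_mk_of_subset (t := insert y (B ∩ Iio y)) fun z hz =>
          hz.2.eq_or_lt.imp id fun h => ⟨hz.1, h⟩).trans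
          (mk_insert_le.trans (add_le_of_le hκ (hSB hy).2 (one_le_aleph0.trans hκ)))
      obtain ⟨x, hx, hm⟩ := wellFounded_lt.has_min (B \ ⋃ y ∈ S, B ∩ Iic y)
        (nonempty_of_not_subset fun h => hB ((mk_le_mk_of_subset h).trans h3))
      refine ⟨x, ⟨hx.1, (mk_le_mk_of_subset fun z hz => ?_).trans h3⟩, fun y hy => ?_⟩
      · by_contra hh
        exact hm z ⟨hz.1, hh⟩ hz.2
      · by_contra hh
        exact hx.2 (mem_iUnion₂.2 ⟨y, hy, hx.1, not_lt.1 hh⟩)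
    obtain ⟨D', h3, h4, h5⟩ := hd B' fun x hx => hx.1.1
    obtain ⟨x, hx, hx'⟩ := hB' D' h4 h3
    obtain ⟨z, hz, hz'⟩ := hB' {x} (by simpa using one_le_aleph0.trans hκ)
      (singleton_subset_iff.2 hx)
    refine rs z hz.1.1 x hx.1.1 (hz' x rfl) (reg x (closure_mono (fun y hy => ?_) (h5 hz)))
    exact (h2 _ _ _ _ (a y).1 (a y).2.1 (a x).1 (a x).2.1 ⟨d, (h3 hy).1.2, hx.1.2⟩).resolve_right
      fun h => rs x hx.1.1 y (h3 hy).1.1 (hx' y hy) ((a y).2.2 h)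
  refine ⟨s ∪ R, (mk_union_le _ _).trans (add_le_of_le hκ hs hRκ), eq_univ_of_forall fun x => ?_⟩
  by_contra hh
  simp only [mem_iUnion, not_exists] at hh
  exact hh x (.inr ((hR x).2 ⟨fun h => let ⟨y, hy, h'⟩ := mem_iUnion₂.1 h; hh y (.inl hy) h',
    fun y hy => hh y (.inr hy.1)⟩)) (hU x).2

end Pool.Agent.H25.MNLind
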