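import Mathlib

set_option autoImplicit false
open Set Filter Topology

namespace Pool.Agent.H25.Mazur

/-- countably supported functions with the topology of uniform convergence -/
def E : AddSubgroup (UniformFun ℝ ℝ) where
  carrier := {f | {x | UniformFun.toFun f x ≠ 0}.Countable}
  zero_mem' := by
    show {x : ℝ | (0 : ℝ) ≠ 0}.Countable
    simp
  add_mem' := fun {a b} ha hb => (ha.union hb).mono fun x hx => by
    by_contra h
    simp only [mem_union, mem_ofPred_eq, not_or, not_not] at h
    exact hx (show UniformFun.toFun a x + UniformFun.toFun b x = 0 by rw [h.1, h.2, add_zero])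
  neg_mem' := fun {a} ha => Set.Countable.mono (s₂ := {x | UniformFun.toFun a x ≠ 0})
    (fun x hx h => hx (show -UniformFun.toFun a x = 0 by rw [h, neg_zero])) ha

abbrev G := Multiplicative E

def ev (r : ℝ) (g : G) : ℝ := UniformFun.toFun g.toAdd.1 r

theorem ev_mul (r : ℝ) (g h : G) : ev r (g * h) = ev r g + ev r h := rfl

theorem G_ext {g h : G} (e : ∀ r, ev r g = ev r h) : g = h := Subtype.ext (funext e)

theorem ev_cont (r : ℝ) : Continuous (ev r) :=
  (UniformFun.uniformContinuous_eval ℝ r).continuous.comp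
    (continuous_subtype_val.comp continuous_toAdd)

abbrev J := {C : Set ℝ // C.Countable}

noncomputable def ind (t : ℝ) (C : J) : G :=
  Multiplicative.ofAdd ⟨UniformFun.ofFun (C.1.indicator fun _ => t),
    show {x | C.1.indicator (fun _ => t) x ≠ 0}.Countable from C.2.mono fun _ hx =>
      mem_of_indicator_ne_zero hx⟩

theorem ev_ind (t : ℝ) (C : J) (r : ℝ) : ev r (ind t C) = C.1.indicator (fun _ => t) r := rfl

instance : TopologicalSpace.MetrizableSpace (UniformFun ℝ ℝ) := UniformSpace.metrizableSpace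

theorem metr : TopologicalSpace.MetrizableSpace G :=
  inferInstanceAs (TopologicalSpace.MetrizableSpace E)

theorem zero_off {s : Set G} (hs : s.Countable) :
    ∃ C : J, ∀ r ∉ C.1, ∀ g ∈ closure s, ev r g = 0 :=
  ⟨⟨⋃ g ∈ s, {x | ev x g ≠ 0}, hs.biUnion fun g _ =>
    show {x | UniformFun.toFun g.toAdd.1 x ≠ 0}.Countable from g.toAdd.2⟩, fun r hr =>
    closure_minimal (t := {g | ev r g = 0})
      (fun g hg => by_contra fun h => hr (mem_iUnion₂.2 ⟨g, hg, h⟩))
      (isClosed_eq (ev_cont r) continuous_const)⟩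

theorem nonsep : ¬ TopologicalSpace.SeparableSpace G := by
  rintro ⟨s, h1, h2⟩
  obtain ⟨C, hC⟩ := zero_off h1
  obtain ⟨r, hr⟩ := (C.2.dense_compl ℝ).nonempty
  simpa [ev_ind] using hC r hr (ind 1 ⟨{r}, countable_singleton r⟩) (h2 _)

theorem small (χ : PontryaginDual G) : ∃ m : ℕ, 0 < m ∧ ∀ g : G,
    (∀ r, |ev r g| ≤ 1 / m) → 1 / 2 ≤ (χ g : ℂ).re := by
  have h1 : {g : G | 1 / 2 < (χ g : ℂ).re} ∈ 𝓝 (1 : G) :=
    (isOpen_lt continuous_const (Complex.continuous_re.comp
      (continuous_subtype_val.comp χ.continuous))).mem_nhds (by simp; norm_num)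
  obtain ⟨U, hU, h2⟩ := (mem_nhds_subtype (E : Set (UniformFun ℝ ℝ)) 0 _).1 h1
  obtain ⟨δ, hδ, h3⟩ := (UniformFun.hasBasis_nhds_zero_of_basis (α := ℝ)
    (Metric.nhds_basis_ball (x := (0 : ℝ)))).mem_iff.1 hU
  obtain ⟨m, hm⟩ := exists_nat_one_div_lt hδ
  refine ⟨m + 1, by omega, fun g hg => le_of_lt (h2 (h3 fun r => ?_))⟩
  have := hg r
  push_cast at this
  exact mem_ball_zero_iff.2 (this.trans_lt hm)

theorem stab (χ : PontryaginDual G) : ∃ C0 : J, ∀ C : J, C0.1 ⊆ C.1 →
    χ (ind 1 C) = χ (ind 1 C0) := by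
  obtain ⟨m, hm, h⟩ := small χ
  have key : ∀ k : ℕ, ∃ C0 : J, ∀ C : J, Disjoint C0.1 C.1 →
      dist (χ (ind (1 / m) C)) 1 < 1 / (k + 1) := by
    intro k
    by_contra hh
    push Not at hh
    choose T a1 a2 using hh
    let S : ℕ → J := fun n => Nat.rec ⟨∅, countable_empty⟩
      (fun _ S => ⟨S.1 ∪ (T S).1, S.2.union (T S).2⟩) n
    have hS : Monotone fun n => (S n).1 := monotone_nat_of_le_succ fun n => subset_union_left
    have hd : ∀ i j, i < j → Disjoint (T (S i)).1 (T (S j)).1 := fun i j hij =>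
      (a1 (S j)).mono_left (subset_union_right.trans (hS (Nat.succ_le_of_lt hij)))
    obtain ⟨w, -, φ, hφ, hw⟩ := isCompact_univ.tendsto_subseq
      (x := fun n => χ (ind (1 / m) (T (S n)))) fun _ => trivial
    have h1 : w = 1 := by
      refine Circle.eq_one_of_forall_pow_mem_centeredArc_pi_div_two fun N _ => ?_
      rw [Circle.mem_centeredArc (by linarith [Real.pi_pos])]
      refine Complex.abs_arg_lt_pi_div_two_iff.2 (.inl (lt_of_lt_of_le one_half_pos ?_))
      have h2 : Tendsto (fun n => ∏ i ∈ Finset.range N, χ (ind (1 / m) (T (S (φ (n + i))))))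
          atTop (𝓝 (w ^ N)) := by
        have := tendsto_finsetProd (Finset.range N) fun i _ => hw.comp (tendsto_add_atTop_nat i)
        simpa using this
      refine ge_of_tendsto' ((Complex.continuous_re.comp continuous_subtype_val).tendsto _
        |>.comp h2) fun n => ?_
      simp only [Function.comp, ← map_prod]
      refine h _ fun r => ?_
      have h3 : ∀ s : Finset ℕ, ev r (∏ i ∈ s, ind (1 / m) (T (S (φ (n + i))))) =
          (⋃ i ∈ s, (T (S (φ (n + i)))).1).indicator (fun _ => (1 / m : ℝ)) r := by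
        intro s
        induction s using Finset.induction_on with
        | empty => simp; rfl
        | insert i s hi ih =>
          rw [Finset.prod_insert hi, ev_mul, ih, ev_ind, Finset.set_biUnion_insert,
            indicator_union_of_disjoint]
          refine disjoint_iUnion₂_right.2 fun j hj => ?_
          rcases lt_or_gt_of_ne (show i ≠ j from fun e => hi (e ▸ hj)) with e | e
          · exact hd _ _ (hφ (by omega))
          · exact (hd _ _ (hφ (by omega))).symm
      rw [h3]
      by_cases hr : r ∈ ⋃ i ∈ Finset.range N, (T (S (φ (n + i)))).1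
      · rw [indicator_of_mem hr, abs_of_nonneg (by positivity)]
      · rw [indicator_of_notMem hr, abs_zero]
        positivity
    obtain ⟨n, hn⟩ := (Metric.tendsto_nhds.1 (h1 ▸ hw) _ (Nat.one_div_pos_of_nat (n := k))).exists
    exact absurd hn (not_lt.2 (a2 _))
  choose C0 hC0 using key
  refine ⟨⟨⋃ k, (C0 k).1, countable_iUnion fun k => (C0 k).2⟩, fun C hC => ?_⟩
  let D : J := ⟨C.1 \ ⋃ k, (C0 k).1, C.2.mono sdiff_subset⟩
  have h1 : χ (ind (1 / m) D) = 1 := by
    by_contra hne
    obtain ⟨k, hk⟩ := exists_nat_one_div_lt (dist_pos.2 hne)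
    exact lt_asymm hk (hC0 k D (disjoint_sdiff_right.mono_left (subset_iUnion (fun k => (C0 k).1) k)))
  have h2 : ∀ (r : ℝ) (g : G) (n : ℕ), ev r (g ^ n) = n * ev r g := fun r g n => by
    induction n with
    | zero => simp; rfl
    | succ n ih => rw [pow_succ, ev_mul, ih]; push_cast; ring
  have h3 : ind 1 C = ind 1 ⟨⋃ k, (C0 k).1, countable_iUnion fun k => (C0 k).2⟩ *
      ind (1 / m) D ^ m := G_ext fun r => by
    rw [ev_mul, h2, ev_ind, ev_ind, ev_ind]
    have : (m : ℝ) ≠ 0 := by positivity
    by_cases hr : r ∈ ⋃ k, (C0 k).1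
    · rw [indicator_of_mem (hC hr), indicator_of_mem hr, indicator_of_notMem fun h => h.2 hr]
      simp
    · rw [indicator_of_notMem hr]
      by_cases hr' : r ∈ C.1
      · rw [indicator_of_mem hr', indicator_of_mem (show r ∈ D.1 from ⟨hr', hr⟩)]
        field_simp
        simp
      · rw [indicator_of_notMem hr', indicator_of_notMem fun h => hr' h.1]
        simp
  rw [h3, map_mul, map_pow, h1, one_pow, mul_one]

theorem main : ∃ φ : PontryaginDual G →* Circle, ¬ Continuous φ ∧
    ∀ u : ℕ → PontryaginDual G, Tendsto u atTop (𝓝 1) → Tendsto (fun n => φ (u n)) atTop (𝓝 1) := by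
  choose C hC using stab
  refine ⟨MonoidHom.mk' (fun χ => χ (ind 1 (C χ))) fun a b => ?_, fun h => ?_, fun u hu => ?_⟩
  · let D : J := ⟨(C (a * b)).1 ∪ ((C a).1 ∪ (C b).1), (C _).2.union ((C _).2.union (C _).2)⟩
    rw [← hC _ D subset_union_left, ← hC a D (subset_union_left.trans subset_union_right),
      ← hC b D (subset_union_right.trans subset_union_right)]
    rfl
  · let δ : ℝ → PontryaginDual G := fun r =>
      ⟨MonoidHom.mk' (fun g => Circle.exp (Real.pi * ev r g)) fun a b => by
        rw [ev_mul, mul_add, Circle.exp_add],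
        Circle.exp.continuous.comp (continuous_const.mul (ev_cont r))⟩
    have : Nonempty J := ⟨⟨∅, countable_empty⟩⟩
    have hF : (⨅ C : J, 𝓟 C.1ᶜ).NeBot :=
      iInf_neBot_of_directed' (fun C C' => ⟨⟨C.1 ∪ C'.1, C.2.union C'.2⟩,
        principal_mono.2 (compl_subset_compl.2 subset_union_left),
        principal_mono.2 (compl_subset_compl.2 subset_union_right)⟩)
        fun C => principal_neBot_iff.2 (C.2.dense_compl ℝ).nonempty
    have := metr
    have h1 : Tendsto δ (⨅ C : J, 𝓟 C.1ᶜ) (𝓝 1) := by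
      refine (ContinuousMonoidHom.isInducing_toContinuousMap G Circle).tendsto_nhds_iff.2
        (ContinuousMap.tendsto_nhds_compactOpen.2 fun K hK U _ hKU => ?_)
      obtain ⟨s, h1, h2⟩ := hK.isSeparable
      obtain ⟨D, hD⟩ := zero_off h1
      refine Eventually.mono (mem_iInf_of_mem D (mem_principal_self _)) fun r hr g hg => ?_
      show Circle.exp (Real.pi * ev r g) ∈ U
      rw [hD r hr g (h2 hg), mul_zero, Circle.exp_zero]
      exact hKU hg
    have h2 : ∀ r, δ r (ind 1 (C (δ r))) = Circle.exp Real.pi := fun r => by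
      rw [← hC _ ⟨insert r (C (δ r)).1, (C _).2.insert r⟩ (subset_insert _ _)]
      show Circle.exp (Real.pi * ev r _) = _
      simp [ev_ind]
    have h3 := tendsto_nhds_unique ((h.tendsto 1).comp h1)
      (tendsto_const_nhds.congr fun r => (h2 r).symm)
    have h4 := congrArg (fun z : Circle => (z : ℂ)) h3
    simp [Complex.exp_pi_mul_I] at h4
    norm_num at h4
  · let D : J := ⟨⋃ n, (C (u n)).1, countable_iUnion fun n => (C _).2⟩
    refine Tendsto.congr (fun n => hC (u n) D (subset_iUnion (fun n => (C (u n)).1) n)) ?_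
    exact ((continuous_eval_const (ind 1 D)).tendsto _).comp
      ((ContinuousMonoidHom.isInducing_toContinuousMap G Circle).tendsto_nhds_iff.1 hu)

end Pool.Agent.H25.Mazur
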