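import Mathlib

set_option autoImplicit false

namespace Pool.Agent.H25.MeagerInd

open Set Filter Topology
open Cardinal hiding univ

def Match (y : ℕ → Bool) (m : ℕ → ℕ) (H : Set ℕ) (x : ℕ → Bool) : Prop :=
  ∀ N, ∃ k ∈ H, N ≤ k ∧ ∀ n, k ≤ n → n < m k → x n = y n

theorem match_residual (y : ℕ → Bool) (m : ℕ → ℕ) (H : Set ℕ) (hH : ∀ N, ∃ k ∈ H, N ≤ k) :
    {x | Match y m H x} ∈ residual (ℕ → Bool) := by
  have h1 : {x | Match y m H x} =
      ⋂ N, ⋃ k ∈ {k | k ∈ H ∧ N ≤ k}, ⋂ n ∈ Finset.Ico k (m k), {x : ℕ → Bool | x n = y n} := by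
    ext x
    simp [Match, and_assoc]
  rw [h1, countable_iInter_mem]
  intro N
  refine residual_of_dense_open (isOpen_biUnion (fun k _ => isOpen_biInter_finset (fun n _ => ?_)))
    (fun x => ?_)
  · exact (isOpen_discrete {y n}).preimage (continuous_apply (A := fun _ : ℕ => Bool) n)
  · refine mem_closure_of_frequently_of_tendsto (b := atTop)
      (f := fun k n => if n < k then x n else y n) ?_ ?_
    · rw [frequently_atTop]
      intro a
      obtain ⟨k, h2, h3⟩ := hH (max a N)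
      refine ⟨k, (le_max_left _ _).trans h3, mem_biUnion (x := k) ⟨h2, (le_max_right _ _).trans h3⟩ ?_⟩
      refine mem_iInter₂.2 (fun n hn => ?_)
      exact if_neg (not_lt.2 (Finset.mem_Ico.1 hn).1)
    · refine tendsto_pi_nhds.2 (fun n => tendsto_const_nhds.congr' ?_)
      filter_upwards [eventually_gt_atTop n] with k hk
      exact (if_pos hk).symm

theorem exists_match {X : Set (ℕ → Bool)} (hX : ¬ IsMeagre X) {G : Set (ℕ → Bool)}
    (hG : G ∈ residual (ℕ → Bool)) : ∃ x ∈ X, x ∈ G := by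
  by_contra h
  push Not at h
  exact hX (mem_of_superset hG (fun x hx hx2 => h x hx2 hx))

theorem cyl {y : ℕ → Bool} {V : Set (ℕ → Bool)} (hV : V ∈ 𝓝 y) :
    ∃ m, ∀ x : ℕ → Bool, (∀ n, n < m → x n = y n) → x ∈ V := by
  rw [nhds_pi, Filter.mem_pi] at hV
  obtain ⟨I, h1, t, h2, h3⟩ := hV
  obtain ⟨b, hb⟩ := h1.bddAbove
  refine ⟨b + 1, fun x hx => h3 (fun i hi => ?_)⟩
  rw [hx i (Nat.lt_succ_of_le (hb hi))]
  exact mem_of_mem_nhds (h2 i)

theorem meagre_sub {M : Set (ℕ → Bool)} (hM : IsMeagre M) :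
    ∃ (y : ℕ → Bool) (m : ℕ → ℕ), ∀ x, Match y m univ x → x ∉ M := by
  classical
  obtain ⟨S, h1, h2, h3, h4⟩ := mem_residual_iff.1 hM
  obtain ⟨U, hU⟩ := (h3.insert univ).exists_eq_range (insert_nonempty _ _)
  have h5 : ∀ j, IsOpen (U j) ∧ Dense (U j) := by
    intro j
    rcases (hU.ge ⟨j, rfl⟩ : U j ∈ insert univ S) with g | g
    · exact g ▸ ⟨isOpen_univ, dense_univ⟩
    · exact ⟨h1 _ g, h2 _ g⟩
  let fl : Finset ℕ → (ℕ → Bool) → ℕ → Bool := fun t x n => if n ∈ t then !x n else x n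
  have hc : ∀ t, Continuous (fl t) := by
    intro t
    refine continuous_pi (fun n => ?_)
    by_cases g : n ∈ t
    · simp only [fl, if_pos g]
      exact (continuous_of_discreteTopology (f := fun b : Bool => !b)).comp (continuous_apply n)
    · simp only [fl, if_neg g]
      exact continuous_apply n
  have hi : ∀ t x, fl t (fl t x) = x := by
    intro t x
    funext n
    by_cases g : n ∈ t <;> simp [fl, g]
  have hd : ∀ t j, Dense (fl t ⁻¹' U j) := fun t j =>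
    (h5 j).2.preimage (Homeomorph.isOpenMap ⟨⟨fl t, fl t, hi t, hi t⟩, hc t, hc t⟩)
  obtain ⟨y, hy⟩ := (dense_iInter_of_isOpen (f := fun p : Finset ℕ × ℕ => fl p.1 ⁻¹' U p.2)
    (fun p => (h5 p.2).1.preimage (hc p.1)) (fun p => hd p.1 p.2)).nonempty
  have h6 : ∀ k, ∃ m, ∀ x : ℕ → Bool, (∀ n, n < m → x n = y n) →
      x ∈ ⋂ p ∈ (Finset.range k).powerset ×ˢ Finset.range k, fl p.1 ⁻¹' U p.2 := fun k =>
    cyl ((biInter_finset_mem _).2 (fun p _ => ((h5 p.2).1.preimage (hc p.1)).mem_nhds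
      (mem_iInter.1 hy p)))
  choose m hm using h6
  refine ⟨y, m, fun x hx => h4 (fun V hV => ?_)⟩
  obtain ⟨j, rfl⟩ : V ∈ range U := hU ▸ mem_insert_of_mem _ hV
  obtain ⟨k, -, g1, g2⟩ := hx (j + 1)
  have g3 := mem_iInter₂.1 (hm k (fl ((Finset.range k).filter (fun n => x n ≠ y n)) x) (fun n hn => ?_))
    ((Finset.range k).filter (fun n => x n ≠ y n), j)
    (Finset.mem_product.2 ⟨Finset.mem_powerset.2 (Finset.filter_subset _ _), Finset.mem_range.2 g1⟩)
  · rw [mem_preimage, hi] at g3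
    exact g3
  · by_cases g4 : n < k
    · cases g5 : x n <;> cases g6 : y n <;> simp [fl, g4, g5, g6]
    · simp [fl, g4, g2 n (not_lt.1 g4) hn]

theorem ultra_gap (h : ℕ → ℕ) : ∃ Z ∈ hyperfilter ℕ, ∀ N, ∃ k, N ≤ k ∧ ∀ n, k ≤ n → n < h k → n ∉ Z := by
  let a : ℕ → ℕ := fun j => (fun k => max (h k) (k + 1))^[j] 0
  have h1 : ∀ j, a (j + 1) = max (h (a j)) (a j + 1) := fun j => Function.iterate_succ_apply' _ _ _
  have h2 : StrictMono a := strictMono_nat_of_lt_succ (fun j => by rw [h1]; omega)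
  have h3 : ∀ j n, a j ≤ n → n < h (a j) → n < a (j + 1) := by
    intro j n _ g
    rw [h1]
    omega
  rcases (hyperfilter ℕ).mem_or_compl_mem {n | ∃ j, a (2 * j) ≤ n ∧ n < a (2 * j + 1)} with g | g
  · refine ⟨_, g, fun N => ⟨a (2 * N + 1), le_trans (show N ≤ 2 * N + 1 by omega) (h2.id_le _), ?_⟩⟩
    rintro n g1 g2 ⟨j, g3, g4⟩
    have k1 := h2.lt_iff_lt.1 (lt_of_le_of_lt g3 (h3 _ n g1 g2))
    have k2 := h2.lt_iff_lt.1 (lt_of_le_of_lt g1 g4)
    omega
  · exact ⟨_, g, fun N => ⟨a (2 * N), le_trans (show N ≤ 2 * N by omega) (h2.id_le _),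
      fun n g1 g2 g3 => g3 ⟨N, g1, h3 _ n g1 g2⟩⟩⟩

theorem family {X : Set (ℕ → Bool)} (hX : ¬ IsMeagre X) :
    ∃ Z : Finset X → Set ℕ, (∀ F : Finset (Finset X), {n | ∀ i ∈ F, n ∈ Z i}.Infinite) ∧
      ∀ m : ℕ → ℕ, ∃ i, ∀ N, ∃ k, N ≤ k ∧ ∀ n, k ≤ n → n < m k → n ∉ Z i := by
  classical
  have h1 : ∀ x : ℕ → Bool, ∃ f : ℕ → ℕ, Monotone f ∧ (Match (fun _ => true) (· + 1) univ x →
      ∀ k b, (∀ n, k ≤ n → n < b → x n = false) → b ≤ f k) := by
    intro x
    by_cases g : Match (fun _ => true) (· + 1) univ x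
    · have g1 : ∀ k, ∃ n, k ≤ n ∧ x n = true := fun k => by
        obtain ⟨n, -, g2, g3⟩ := g k
        exact ⟨n, g2, g3 n le_rfl (Nat.lt_succ_self n)⟩
      refine ⟨fun k => Nat.find (g1 k), fun a b hab => Nat.find_mono (fun n hn => ⟨hab.trans hn.1, hn.2⟩),
        fun _ k b hb => not_lt.1 (fun g2 => ?_)⟩
      have g3 := Nat.find_spec (g1 k)
      rw [hb _ g3.1 g2] at g3
      exact absurd g3.2 (by simp)
    · exact ⟨id, monotone_id, fun g1 => absurd g1 g⟩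
  choose f hf1 hf2 using h1
  have h2 : ∀ g : ℕ → ℕ, ∃ x : X, ∀ N, ∃ k, N ≤ k ∧ g k ≤ f x k := by
    intro g
    obtain ⟨x, g1, g2, g3⟩ := exists_match hX (inter_mem
      (match_residual (fun _ => true) (· + 1) univ (fun N => ⟨N, trivial, le_rfl⟩))
      (match_residual (fun _ => false) g univ (fun N => ⟨N, trivial, le_rfl⟩)))
    refine ⟨⟨x, g1⟩, fun N => ?_⟩
    obtain ⟨k, -, g4, g5⟩ := g3 N
    exact ⟨k, g4, hf2 x g2 k _ g5⟩
  by_cases h3 : ∀ g : ℕ → ℕ, ∃ F : Finset X, ∃ N, ∀ k, N ≤ k → g k ≤ F.sup (fun x => f x k)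
  · choose Z hZ1 hZ2 using fun F : Finset X => ultra_gap (fun k => F.sup (fun x => f x k))
    refine ⟨Z, fun F => ?_, fun m => ?_⟩
    · have g1 : {n | ∀ i ∈ F, n ∈ Z i} ∈ hyperfilter ℕ := by
        have := (biInter_finset_mem (f := (hyperfilter ℕ : Filter ℕ)) F).2 (fun i _ => hZ1 i)
        exact mem_of_superset this (fun n hn => mem_iInter₂.1 hn)
      exact fun g2 => g2.notMem_hyperfilter g1
    · obtain ⟨F, N0, hF⟩ := h3 m
      refine ⟨F, fun N => ?_⟩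
      obtain ⟨k, g1, g2⟩ := hZ2 F (max N N0)
      exact ⟨k, (le_max_left _ _).trans g1, fun n g3 g4 =>
        g2 n g3 (lt_of_lt_of_le g4 (hF k ((le_max_right _ _).trans g1)))⟩
  · push Not at h3
    obtain ⟨g, hg⟩ := h3
    refine ⟨fun F => {k | F.sup (fun x => f x k) < g k}, fun F => ?_, fun m => ?_⟩
    · refine infinite_of_forall_exists_gt (fun N => ?_)
      obtain ⟨k, g1, g2⟩ := hg (F.sup id) (N + 1)
      exact ⟨k, fun i hi => lt_of_le_of_lt (Finset.sup_mono (Finset.le_sup (f := id) hi)) g2, g1⟩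
    · obtain ⟨x, hx⟩ := h2 (fun k => (Finset.range (m k)).sup g)
      refine ⟨{x}, fun N => ?_⟩
      obtain ⟨k, g1, g2⟩ := hx N
      refine ⟨k, g1, fun n g3 g4 g5 => ?_⟩
      simp only [mem_ofPred_eq, Finset.sup_singleton] at g5
      exact absurd g5 (not_lt.2 ((Finset.le_sup (f := g) (Finset.mem_range.2 g4)).trans
        (g2.trans (hf1 x g3))))

theorem blocks : ∃ (π : ℕ → ℕ) (I : (ℕ → Bool) → ℕ → Bool), (∀ k, ∃ b, ∀ j, b ≤ j → k ≤ π j) ∧
    ∀ (R : Finset (ℕ → Bool)) (σ : (ℕ → Bool) → Bool), ∃ N, ∀ n, N ≤ n →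
      ∃ j, π j = n ∧ ∀ r ∈ R, I r j = σ r := by
  classical
  obtain ⟨e⟩ : Nonempty (ℕ ≃ Σ n : ℕ, ((Fin n → Bool) → Bool)) := by
    have : Infinite (Σ n : ℕ, ((Fin n → Bool) → Bool)) :=
      Infinite.of_injective (fun n => ⟨n, fun _ => true⟩) (fun a b h => congrArg Sigma.fst h)
    exact nonempty_equiv_of_countable
  refine ⟨fun j => (e j).1, fun r j => (e j).2 (fun i => r i), fun k => ?_, fun R σ => ?_⟩
  · have h1 : {p : Σ n : ℕ, ((Fin n → Bool) → Bool) | p.1 < k}.Finite := by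
      refine ((finite_Iio k).biUnion (t := fun n => range (Sigma.mk n)) (fun n _ => finite_range _)).subset ?_
      rintro ⟨n, φ⟩ hn
      exact mem_biUnion (x := n) hn ⟨φ, rfl⟩
    obtain ⟨b, hb⟩ := (h1.preimage e.injective.injOn).bddAbove
    exact ⟨b + 1, fun j hj => not_lt.1 (fun g => absurd (hb g) (by omega))⟩
  · have h1 : ∀ p : (ℕ → Bool) × (ℕ → Bool), ∃ n, p.1 n = p.2 n → p.1 = p.2 := by
      intro p
      by_cases g : p.1 = p.2
      · exact ⟨0, fun _ => g⟩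
      · exact (Function.ne_iff.1 g).imp (fun n hn g1 => absurd g1 hn)
    choose d hd using h1
    refine ⟨(R ×ˢ R).sup d + 1, fun n hn => ⟨e.symm ⟨n, fun s =>
      decide (∃ r ∈ R, (fun i : Fin n => r i) = s ∧ σ r = true)⟩, by simp only [e.apply_symm_apply], ?_⟩⟩
    intro r hr
    show (e (e.symm _)).2 (fun i => r i) = σ r
    rw [e.apply_symm_apply]
    cases g : σ r with
    | true => exact decide_eq_true ⟨r, hr, rfl, g⟩
    | false =>
      refine decide_eq_false ?_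
      rintro ⟨r', g1, g2, g3⟩
      have g4 : d (r', r) < n :=
        lt_of_le_of_lt (Finset.le_sup (f := d) (Finset.mem_product.2 ⟨g1, hr⟩)) hn
      have g5 : r' = r := hd (r', r) (congrFun g2 ⟨_, g4⟩)
      rw [g5, g] at g3
      exact absurd g3 (by simp)

theorem main {X : Set (ℕ → Bool)} (hX : ¬ IsMeagre X) :
    ∃ A : Set (ℕ → Bool), (∀ F G : Finset (ℕ → Bool), ↑F ⊆ A → ↑G ⊆ A → Disjoint F G →
      {n | (∀ a ∈ F, a n = true) ∧ ∀ b ∈ G, b n = false}.Infinite) ∧ ¬ IsMeagre A ∧ #A ≤ #X := by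
  classical
  obtain ⟨Z, hZ1, hZ2⟩ := family hX
  obtain ⟨π, I, h1, h2⟩ := blocks
  have hinf : Infinite X := by
    refine infinite_coe_iff.2 (fun g => ?_)
    have g1 : ∀ x : ℕ → Bool, {x}ᶜ ∈ residual (ℕ → Bool) := fun x =>
      mem_of_superset (match_residual (fun n => !x n) (· + 1) univ (fun N => ⟨N, trivial, le_rfl⟩))
        (fun z hz g2 => by
          obtain ⟨k, -, -, g3⟩ := hz 0
          have g4 := g3 k le_rfl (Nat.lt_succ_self k)
          rw [mem_singleton_iff.1 g2] at g4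
          simp at g4)
    obtain ⟨x, g2, g3⟩ := exists_match hX ((biInter_mem g).2 (fun x _ => g1 x))
    exact mem_iInter₂.1 g3 x g2 rfl
  have hc : #(Finset X × X) = #X := by
    rw [mk_prod, lift_id, lift_id, mk_finset_of_infinite, mul_eq_self (aleph0_le_mk _)]
  obtain ⟨ρ⟩ : Nonempty (Finset X × X ↪ (ℕ → Bool)) := by
    rw [← Cardinal.le_def, hc]
    exact mk_set_le X
  let a : Finset X × X → ℕ → Bool := fun p j => if π j ∈ Z p.1 then I (ρ p) j else p.2.1 j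
  refine ⟨range a, fun F G hF hG hFG => ?_, fun hM => ?_, hc ▸ mk_range_le⟩
  · obtain ⟨F', g1, rfl⟩ := Finset.subset_set_image_iff.1 (image_univ.symm ▸ hF : ↑F ⊆ a '' univ)
    obtain ⟨G', g2, rfl⟩ := Finset.subset_set_image_iff.1 (image_univ.symm ▸ hG : ↑G ⊆ a '' univ)
    obtain ⟨N, hN⟩ := h2 ((F' ∪ G').image ρ) (fun r => decide (r ∈ F'.image ρ))
    refine Infinite.of_image π (((hZ1 ((F' ∪ G').image Prod.fst)).sdiff (finite_Iio N)).mono ?_)
    rintro n ⟨g3, g4⟩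
    obtain ⟨j, rfl, g5⟩ := hN n (not_lt.1 g4)
    have g6 : ∀ p ∈ F' ∪ G', a p j = decide (ρ p ∈ F'.image ρ) := fun p hp =>
      (if_pos (g3 _ (Finset.mem_image_of_mem _ hp))).trans (g5 _ (Finset.mem_image_of_mem _ hp))
    refine ⟨j, ⟨fun x hx => ?_, fun x hx => ?_⟩, rfl⟩
    · obtain ⟨p, hp, rfl⟩ := Finset.mem_image.1 hx
      rw [g6 p (Finset.mem_union_left _ hp)]
      exact decide_eq_true (Finset.mem_image_of_mem _ hp)
    · obtain ⟨p, hp, rfl⟩ := Finset.mem_image.1 hx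
      rw [g6 p (Finset.mem_union_right _ hp)]
      refine decide_eq_false (fun g7 => ?_)
      obtain ⟨q, hq, g8⟩ := Finset.mem_image.1 g7
      rw [ρ.injective g8] at hq
      exact Finset.disjoint_left.1 hFG (Finset.mem_image_of_mem _ hq) hx
  · obtain ⟨y, m, hy⟩ := meagre_sub hM
    choose b hb using h1
    obtain ⟨i, hi⟩ := hZ2 (fun k => (Finset.range (m (max (b k) k))).sup π + 1)
    obtain ⟨x, g1, g2⟩ := exists_match hX (match_residual y m
      {k | ∀ n, k ≤ n → n < m k → π n ∉ Z i} (fun N => by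
        obtain ⟨k, g1, g2⟩ := hi N
        exact ⟨max (b k) k, fun n g3 g4 => g2 _ (hb k n ((le_max_left _ _).trans g3))
          (Nat.lt_succ_of_le (Finset.le_sup (f := π) (Finset.mem_range.2 g4))),
          g1.trans (le_max_right _ _)⟩))
    refine hy (a (i, ⟨x, g1⟩)) (fun N => ?_) ⟨_, rfl⟩
    obtain ⟨k, g3, g4, g5⟩ := g2 N
    exact ⟨k, trivial, g4, fun n g6 g7 => (if_neg (g3 n g6 g7)).trans (g5 n g6 g7)⟩

end Pool.Agent.H25.MeagerInd
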