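import Pool.Agent.H25.MlDefs

set_option autoImplicit false

namespace Pool.Agent.H25.Ml

variable {Q A : Type} (δ : Q → A → Q) (o : Q → A → A)

def act (g : List Q) (u : List A) : List A := g.foldl (fun w q => out δ o q w) u

def st (a : A) (τ : ℕ → Q) : ℕ → A
  | 0 => a
  | j + 1 => o (τ j) (st a τ j)

def pass (τ : ℕ → Q) (a : A) : ℕ → Q := fun j => δ (τ j) (st o a τ j)

def run (u : List A) (τ : ℕ → Q) : ℕ → Q := u.foldl (pass δ o) τ

def Delay : Prop :=
  ∃ u, ∀ (τ τ' : ℕ → Q) j, (∀ i < j, τ i = τ' i) → run δ o u τ j = run δ o u τ' j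

theorem act_cons (a : A) (u : List A) (τ : ℕ → Q) (j : ℕ) :
    act δ o ((List.range j).map τ) (a :: u) =
      st o a τ j :: act δ o ((List.range j).map (pass δ o τ a)) u := by
  induction j with
  | zero => rfl
  | succ j ih =>
    simp only [act, List.range_succ, List.map_append, List.foldl_append] at ih ⊢
    rw [ih]; rfl

theorem act_nil (g : List Q) : act δ o g [] = [] := by
  induction g with
  | nil => rfl
  | cons q g ih => exact ih

theorem run_eq (u : List A) : ∀ (τ : ℕ → Q) (j : ℕ),
    run δ o u τ j = (act δ o ((List.range j).map τ) u).foldl δ (τ j) := by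
  induction u with
  | nil => intro τ j; rw [act_nil]; rfl
  | cons a u ih => intro τ j; rw [act_cons]; exact ih _ j

theorem out_append (x u : List A) : ∀ q, out δ o q (x ++ u) = out δ o q x ++ out δ o (x.foldl δ q) u := by
  induction x with
  | nil => intro q; rfl
  | cons a x ih => intro q; simp [out, ih]

theorem act_append (g : List Q) : ∀ x u : List A, ∃ g', act δ o g (x ++ u) = act δ o g x ++ act δ o g' u := by
  induction g with
  | nil => exact fun x u => ⟨[], rfl⟩
  | cons q g ih =>
    intro x u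
    obtain ⟨g', h⟩ := ih (out δ o q x) (out δ o (x.foldl δ q) u)
    exact ⟨x.foldl δ q :: g', by rw [← out_append] at h; exact h⟩

theorem mem_syn [Nonempty Q] (u : List A) : u ∈ Syn δ ↔ ∀ q q', u.foldl δ q = u.foldl δ q' := by
  refine ⟨fun ⟨p, h⟩ q q' => ?_, fun h => ⟨u.foldl δ (Classical.arbitrary Q), ?_⟩⟩
  · have := fun q => (h ▸ Set.mem_range_self q : u.foldl δ q ∈ ({p} : Set Q))
    exact (this q).trans (this q').symm
  · ext y
    exact ⟨by rintro ⟨q, rfl⟩; exact h _ _, by rintro rfl; exact ⟨_, rfl⟩⟩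

theorem wr_iff [Nonempty Q] : WR δ o ↔ Delay δ o := by
  constructor
  · rintro ⟨_, H, ⟨u, hu⟩, h1, _, h2⟩
    have : ∀ (g : List Q), ∀ u ∈ H, act δ o g u ∈ H := fun g => by
      induction g with
      | nil => exact fun _ h => h
      | cons q g ih => exact fun u h => ih _ (h2 q u h)
    refine ⟨u, fun τ τ' j h => ?_⟩
    rw [run_eq, run_eq, List.map_congr_left fun i hi => h i (List.mem_range.1 hi)]
    exact (mem_syn δ _).1 (h1 (this _ u hu)) _ _
  · rintro ⟨u, h⟩
    have : ∀ g, act δ o g u ∈ Syn δ := fun g => (mem_syn δ _).2 fun q q' => by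
      have e : ∀ q, (List.range g.length).map (g.getD · q) = g := fun q =>
        List.ext_getElem (by simp) fun i _ hi => by simp [hi]
      have := h (g.getD · q) (g.getD · q') g.length fun i hi => by simp [hi]
      rw [run_eq, run_eq, e, e] at this
      simpa using this
    refine ⟨⟨u, this []⟩, {u | ∀ g, act δ o g u ∈ Syn δ}, ⟨u, this⟩, fun u h => h [],
      fun x y u h g => ?_, fun q u h g => h (q :: g)⟩
    obtain ⟨g1, e1⟩ := act_append δ o g (x ++ u) y
    obtain ⟨g2, e2⟩ := act_append δ o g x u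
    rw [e1, e2, mem_syn]
    intro q q'
    simp only [List.foldl_append]
    rw [(mem_syn δ _).1 (h g2)]

theorem Delay.map {Q' A' : Type} {δ' : Q' → A' → Q'} {o' : Q' → A' → A'} (e : Q ≃ Q') (f : A → A')
    (h1 : ∀ q a, δ' (e q) (f a) = e (δ q a)) (h2 : ∀ q a, o' (e q) (f a) = f (o q a))
    (h : Delay δ o) : Delay δ' o' := by
  have k1 : ∀ a τ j, st o' (f a) (e ∘ τ) j = f (st o a τ j) := fun a τ j => by
    induction j with
    | zero => rfl
    | succ j ih => simp [st, ih, h2]
  have k2 : ∀ (u : List A) τ, run δ' o' (u.map f) (e ∘ τ) = e ∘ run δ o u τ := fun u => by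
    induction u with
    | nil => exact fun _ => rfl
    | cons a u ih =>
      intro τ
      have : pass δ' o' (e ∘ τ) (f a) = e ∘ pass δ o τ a := funext fun j => by simp [pass, k1, h1]
      simpa [run, this] using ih (pass δ o τ a)
  obtain ⟨u, h⟩ := h
  refine ⟨u.map f, fun τ τ' j g => ?_⟩
  have := congrArg e (h (e.symm ∘ τ) (e.symm ∘ τ') j fun i hi => by simp [g i hi])
  have e1 := congrFun (k2 u (e.symm ∘ τ)) j
  have e2 := congrFun (k2 u (e.symm ∘ τ')) j
  simp only [Equiv.self_comp_symm, ← Function.comp_assoc, Function.id_comp] at e1 e2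
  rw [e1, e2]; exact this

end Pool.Agent.H25.Ml
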