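import Pool.Agent.H25.Ml1

set_option autoImplicit false

namespace Pool.Agent.H25.Ml
open Turing StateTransition

variable {Γ Λ : Type} [Inhabited Γ] [Inhabited Λ] (M : TM0.Machine Γ Λ) (a b c : Γ) (n : ℕ)

abbrev C (Γ Λ : Type) := Γ × Option Λ
abbrev Sy (Γ Λ : Type) := Bool × Bool × C Γ Λ
abbrev F (Γ Λ : Type) := Bool × Bool × Bool × C Γ Λ × C Γ Λ × C Γ Λ

def nx (s : C Γ Λ) : Option (Λ × TM0.Stmt Γ) := s.2.bind fun q => M q s.1
def hal (s : C Γ Λ) : Bool := s.2.isSome && (nx M s).isNone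

def rule (l m r : C Γ Λ) : C Γ Λ :=
  match nx M l, nx M m, nx M r with
  | _, some (q, .write x), _ => (x, some q)
  | some (q, .move .right), _, _ => (m.1, some q)
  | _, _, some (q, .move .left) => (m.1, some q)
  | _, _, _ => (m.1, none)

def inp : ℕ → C Γ Λ
  | 0 => (a, some default)
  | 1 => (b, none)
  | 2 => (c, none)
  | _ => (default, none)

def cls (n i : ℕ) : ℕ := if i ≤ 1 then i else if i ≤ n + 1 then 2 else 3

def d0 (q : Sy Γ Λ) (f : F Γ Λ) (k : ℕ) : Sy Γ Λ :=
  (q.1 && !f.2.2.1 && !f.2.1, f.2.2.1,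
    bif f.1 then rule M f.2.2.2.1 f.2.2.2.2.1 f.2.2.2.2.2 else inp a b c k)

def o0 (q : Sy Γ Λ) (f : F Γ Λ) : F Γ Λ :=
  (f.1, (!q.2.1 && f.2.1) || hal M q.2.2, q.2.1,
    bif q.2.1 then ((default, none), (default, none), q.2.2) else (f.2.2.2.2.1, f.2.2.2.2.2, q.2.2))

def dd (q : Sy Γ Λ) (s : Fin (n + 3) × F Γ Λ) : Sy Γ Λ := d0 M a b c q s.2 (cls n s.1)

def oo (q : Sy Γ Λ) (s : Fin (n + 3) × F Γ Λ) : Fin (n + 3) × F Γ Λ :=
  (⟨bif q.2.1 then 0 else min (s.1 + 1) (n + 2), by cases q.2.1 <;> simp <;> omega⟩, o0 M q s.2)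

def enc (g : TM0.Cfg Γ Λ) (P : ℕ) (x : ℤ) : C Γ Λ :=
  (g.Tape.nth (x - P), if x = P then some g.q else none)

def Bl (g : TM0.Cfg Γ Λ) (P : ℕ) : Prop := ∀ x : ℤ, x < 0 → g.Tape.nth (x - P) = default

theorem nx_enc (g : TM0.Cfg Γ Λ) (P : ℕ) (x : ℤ) :
    nx M (enc g P x) = if x = P then M g.q g.Tape.1 else none := by
  unfold nx enc; split_ifs with h <;> simp [h]

theorem hal_enc (g : TM0.Cfg Γ Λ) (P : ℕ) (x : ℤ) :
    hal M (enc g P x) = true ↔ x = P ∧ TM0.step M g = none := by
  simp only [hal, nx_enc]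
  by_cases h : x = P <;> simp [h, enc, TM0.step]

theorem rule_enc {g g' : TM0.Cfg Γ Λ} (h : TM0.step M g = some g') (P : ℕ) (hb : Bl g P) :
    ∃ P' ≤ P + 2, Bl g' P' ∧
      ∀ x : ℤ, rule M (enc g P (x - 2)) (enc g P (x - 1)) (enc g P x) = enc g' P' x := by
  obtain ⟨q, T⟩ := g
  simp only [TM0.step, Option.map_eq_some_iff] at h
  obtain ⟨⟨q', s⟩, h, rfl⟩ := h
  rcases s with (_ | _) | y
  · refine ⟨P, by omega, fun x hx => ?_, fun x => ?_⟩
    · rw [Tape.move_left_nth, ← hb (x - 1) (by omega)]; congr 1; ring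
    · simp only [rule, nx_enc, h]
      have e : x - P - 1 = x - 1 - P := by ring
      have e2 : T.nth (-1) = (T.move .left).head := by
        rw [← Tape.nth_zero, Tape.move_left_nth]; rfl
      split_ifs <;> first | omega | simp [enc, Tape.move_left_nth, e, e2, *]
  · refine ⟨P + 2, by omega, fun x hx => ?_, fun x => ?_⟩
    · rw [Tape.move_right_nth, ← hb (x - 1) (by omega)]; congr 1; push_cast; ring
    · simp only [rule, nx_enc, h]
      have e : x - (P + 2) + 1 = x - 1 - P := by ring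
      have e' : x = P + 2 ↔ x - 2 = P := by omega
      split_ifs <;> first | omega | simp [enc, Tape.move_right_nth, e, e', *]
  · refine ⟨P + 1, by omega, fun x hx => ?_, fun x => ?_⟩
    · rw [Tape.write_nth, if_neg (by omega), ← hb (x - 1) (by omega)]; congr 1; push_cast; ring
    · simp only [rule, nx_enc, h]
      have e : x - (P + 1) = x - 1 - P := by ring
      have e' : x = P + 1 ↔ x - 1 = P := by omega
      have e'' : x - 1 - P = 0 ↔ x - 1 = P := by omega
      have e2 : (T.write y).head = y := rfl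
      split_ifs <;> first | omega | simp [enc, Tape.write_nth, e, e', e'', e2, *]

abbrev g0 : TM0.Cfg Γ Λ := TM0.init (a :: b :: List.replicate n c)

theorem bl0 : Bl (g0 (Λ := Λ) a b c n) 0 := by
  intro x hx
  obtain ⟨k, rfl⟩ : ∃ k : ℕ, x = -(k + 1 : ℕ) := ⟨(-x - 1).toNat, by omega⟩
  rw [Nat.cast_zero, sub_zero]
  exact (ListBlank.nth_mk [] k).trans (by simp)

theorem inp_enc (x : ℕ) : inp a b c (cls n (min x (n + 2))) = enc (g0 (Λ := Λ) a b c n) 0 x := by
  have : (g0 (Λ := Λ) a b c n).Tape.nth (x - (0 : ℕ)) = (a :: b :: List.replicate n c).getI x := by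
    rw [Nat.cast_zero, sub_zero]
    exact (Tape.mk'_nth_nat _ _ x).trans (ListBlank.nth_mk _ x)
  rw [enc, this]
  rcases x with _ | _ | x
  · rfl
  · rw [show min (0 + 1) (n + 2) = 1 by omega]; rfl
  · have h : ((x + 1 + 1 : ℕ) : ℤ) ≠ (0 : ℕ) := by omega
    rw [if_neg h, List.getI_cons_succ, List.getI_cons_succ, List.getI_eq_getElem?_getD]
    by_cases k : x < n
    · rw [show cls n (min (x + 1 + 1) (n + 2)) = 2 by unfold cls; split_ifs <;> omega]
      simp [inp, k]
    · rw [show cls n (min (x + 1 + 1) (n + 2)) = 3 by unfold cls; split_ifs <;> omega]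
      simp [inp, k]

def Seg (τ : ℕ → Sy Γ Λ) (p X : ℕ) : Prop := ∀ x < X, (τ (p + x)).2.1 = decide (x = 0)

def Good (g : TM0.Cfg Γ Λ) (P : ℕ) (τ : ℕ → Sy Γ Λ) (p X : ℕ) : Prop :=
  Bl g P ∧ ∀ x < X, (τ (p + x)).2.2 = enc g P x

variable {n}

theorem st_typ (s : Fin (n + 3) × F Γ Λ) (τ : ℕ → Sy Γ Λ) (j : ℕ) :
    (st (oo M n) s τ j).2.1 = s.2.1 := by
  induction j with
  | zero => rfl
  | succ j ih => exact ih

theorem st_cnt (s : Fin (n + 3) × F Γ Λ) {τ : ℕ → Sy Γ Λ} {p X : ℕ} (h : Seg τ p X) :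
    ∀ x < X, ((st (oo M n) s τ (p + x + 1)).1 : ℕ) = min x (n + 2) := by
  intro x
  induction x with
  | zero => intro hx; simp [st, oo, show (τ p).2.1 = true from h 0 hx]
  | succ x ih =>
    intro hx
    have : (τ (p + x + 1)).2.1 = _ := h (x + 1) hx
    rw [st, oo]
    simp only [this, ← add_assoc, ih (by omega)]
    simp

theorem st_buf (s : Fin (n + 3) × F Γ Λ) {τ : ℕ → Sy Γ Λ} {p X P : ℕ} {g : TM0.Cfg Γ Λ}
    (h : Seg τ p X) (k : Good g P τ p X) : ∀ x < X, (st (oo M n) s τ (p + x + 1)).2.2.2.2 =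
      (enc g P (x - 2), enc g P (x - 1), enc g P x) ∧
      ((st (oo M n) s τ (p + x + 1)).2.2.1 = true ↔ P ≤ x ∧ TM0.step M g = none) := by
  intro x
  induction x with
  | zero =>
    intro hx
    have e : ∀ y : ℤ, y < 0 → enc g P y = (default, none) := fun y hy => by
      rw [enc, k.1 y hy, if_neg (by omega)]
    have e1 : (τ p).2.1 = true := h 0 hx
    have e2 : (τ p).2.2 = _ := k.2 0 hx
    simp [st, oo, o0, e1, e2, e, hal_enc]
    omega
  | succ x ih =>
    intro hx
    have e1 : (τ (p + x + 1)).2.1 = _ := h (x + 1) hx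
    have e2 : (τ (p + x + 1)).2.2 = _ := k.2 (x + 1) hx
    obtain ⟨i1, i2⟩ := ih (by omega)
    rw [st, oo, o0]
    simp only [e1, e2, ← add_assoc, i1, Bool.or_eq_true, Bool.and_eq_true, i2, hal_enc]
    refine ⟨?_, ?_⟩
    · simp; congr 1; ring
    · simp; by_cases TM0.step M g = none <;> simp [*]; omega

theorem pass_mk (s : Fin (n + 3) × F Γ Λ) (τ : ℕ → Sy Γ Λ) (j : ℕ) :
    (pass (dd M a b c n) (oo M n) τ s (j + 1)).2.1 = (τ j).2.1 := rfl

theorem Seg.pass {τ : ℕ → Sy Γ Λ} {p X : ℕ} (h : Seg τ p X) (s : Fin (n + 3) × F Γ Λ) :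
    Seg (pass (dd M a b c n) (oo M n) τ s) (p + 1) X := fun x hx => by
  rw [add_right_comm, pass_mk]; exact h x hx

theorem good_reset {τ : ℕ → Sy Γ Λ} {p X : ℕ} (h : Seg τ p X) (s : Fin (n + 3) × F Γ Λ)
    (hs : s.2.1 = false) : Good (g0 a b c n) 0 (pass (dd M a b c n) (oo M n) τ s) (p + 1) X :=
  ⟨bl0 a b c n, fun x hx => by
    rw [add_right_comm]
    simp only [pass, dd, d0, st_typ, hs, st_cnt M s h x hx, cond_false, inp_enc]⟩

theorem good_step {τ : ℕ → Sy Γ Λ} {p X P : ℕ} {g g' : TM0.Cfg Γ Λ} (h : Seg τ p X)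
    (k : Good g P τ p X) (e : TM0.step M g = some g') (s : Fin (n + 3) × F Γ Λ) (hs : s.2.1 = true) :
    ∃ P' ≤ P + 2, Good g' P' (pass (dd M a b c n) (oo M n) τ s) (p + 1) X := by
  obtain ⟨P', h1, h2, h3⟩ := rule_enc M e P k.1
  refine ⟨P', h1, h2, fun x hx => ?_⟩
  rw [add_right_comm]
  simp only [pass, dd, d0, st_typ, hs, (st_buf M s h k x hx).1, cond_true, h3]

theorem alive (h : ¬ (eval (TM0.step M) (g0 a b c n)).Dom) (j : ℕ) (u : List (Fin (n + 3) × F Γ Λ)) :
    ∀ (τ : ℕ → Sy Γ Λ) (p P : ℕ) (g : TM0.Cfg Γ Λ), p + u.length < j → Seg τ p (j + 1) →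
      Reaches (TM0.step M) (g0 a b c n) g → Good g P τ p (j + 1) → (τ j).1 = true →
      (run (dd M a b c n) (oo M n) u τ j).1 = true := by
  induction u with
  | nil => exact fun _ _ _ _ _ _ _ _ e => e
  | cons s u ih =>
    intro τ p P g h1 h2 h3 h4 h5
    simp only [List.length_cons] at h1
    obtain ⟨g', e⟩ := Option.ne_none_iff_exists'.1 fun e : TM0.step M g = none =>
      h (Part.dom_iff_mem.2 ⟨g, mem_eval.2 ⟨h3, e⟩⟩)
    have hb : (pass (dd M a b c n) (oo M n) τ s j).1 = true := by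
      obtain ⟨x, rfl⟩ : ∃ x, j = p + x + 1 := ⟨j - p - 1, by omega⟩
      have f1 := (st_buf M s h2 h4 x (by omega)).2
      have f2 : (st (oo M n) s τ (p + x + 1)).2.2.2.1 = false :=
        (h2 x (by omega)).trans (by simp; omega)
      simp only [e, reduceCtorEq, and_false, iff_false, Bool.not_eq_true] at f1
      simp [pass, dd, d0, h5, f1, f2]
    cases hs : s.2.1
    · exact ih _ (p + 1) 0 _ (by omega) (h2.pass M a b c s) .refl (good_reset M a b c h2 s hs) hb
    · obtain ⟨P', _, k⟩ := good_step M a b c h2 h4 e s hs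
      exact ih _ (p + 1) P' g' (by omega) (h2.pass M a b c s) (h3.tail e) k hb

theorem dead (u : List (Fin (n + 3) × F Γ Λ)) (j : ℕ) : ∀ τ : ℕ → Sy Γ Λ, (τ j).1 = false →
    (run (dd M a b c n) (oo M n) u τ j).1 = false := by
  induction u with
  | nil => exact fun _ e => e
  | cons s u ih => exact fun τ e => ih _ (by simp [pass, dd, d0, e])

theorem swept (u : List (Fin (n + 3) × F Γ Λ)) : ∀ (τ : ℕ → Sy Γ Λ) (p D : ℕ), (τ p).2.1 = true →
    D < u.length → (run (dd M a b c n) (oo M n) u τ (p + D + 1)).1 = false := by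
  induction u with
  | nil => simp
  | cons s u ih =>
    intro τ p D h hD
    cases D with
    | zero => exact dead M a b c u _ _ (by simp [pass, dd, d0, st, oo, o0, h])
    | succ D =>
      have := ih (pass (dd M a b c n) (oo M n) τ s) (p + 1) D h (by simpa using hD)
      rwa [show p + 1 + D + 1 = p + (D + 1) + 1 by omega] at this

theorem steps {g g' : TM0.Cfg Γ Λ} (h : Reaches (TM0.step M) g g') (s : Fin (n + 3) × F Γ Λ)
    (hs : s.2.1 = true) : ∃ T, ∀ (τ : ℕ → Sy Γ Λ) p X P, Seg τ p X → Good g P τ p X → ∃ P' ≤ P + 2 * T,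
      Seg (run (dd M a b c n) (oo M n) (List.replicate T s) τ) (p + T) X ∧
      Good g' P' (run (dd M a b c n) (oo M n) (List.replicate T s) τ) (p + T) X := by
  induction h with
  | refl => exact ⟨0, fun τ p X P h k => ⟨P, le_rfl, h, k⟩⟩
  | tail _ e ih =>
    obtain ⟨T, ih⟩ := ih
    refine ⟨T + 1, fun τ p X P h k => ?_⟩
    obtain ⟨P', h1, h2, h3⟩ := ih τ p X P h k
    obtain ⟨P'', h4, h5⟩ := good_step M a b c h2 h3 e s hs
    rw [List.replicate_succ', run, List.foldl_append]
    exact ⟨P'', by omega, h2.pass M a b c s, h5⟩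

theorem causal (u : List (Fin (n + 3) × F Γ Λ)) (j : ℕ) : ∀ τ τ' : ℕ → Sy Γ Λ,
    (∀ i < j, τ i = τ' i) → (u ≠ [] ∨ (τ j).2 = (τ' j).2) →
    (run (dd M a b c n) (oo M n) u τ j).2 = (run (dd M a b c n) (oo M n) u τ' j).2 := by
  induction u with
  | nil => exact fun _ _ _ e => e.resolve_left (by simp)
  | cons s u ih =>
    intro τ τ' h _
    have e : ∀ i ≤ j, st (oo M n) s τ i = st (oo M n) s τ' i := fun i => by
      induction i with
      | zero => exact fun _ => rfl
      | succ i ih => intro k; rw [st, st, ih (by omega), h i k]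
    exact ih _ _ (fun i hi => by simp only [pass, e i hi.le, h i hi])
      (Or.inr (by simp only [pass, e j le_rfl, dd, d0]))

theorem delay_iff : Delay (dd M a b c n) (oo M n) ↔ (eval (TM0.step M) (g0 a b c n)).Dom := by
  constructor
  · rintro ⟨u, h⟩
    by_contra k
    let τ : Bool → ℕ → Sy Γ Λ := fun β i =>
      (if i = u.length + 1 then β else true, decide (i = 0), enc (g0 a b c n) 0 i)
    have := h (τ true) (τ false) (u.length + 1) fun i hi => by simp [τ, hi.ne]
    have e1 := alive M a b c k (u.length + 1) u (τ true) 0 0 _ (by omega) (fun x _ => by simp [τ])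
      .refl ⟨bl0 a b c n, fun x _ => by simp [τ]⟩ (by simp [τ])
    rw [this, dead M a b c u _ _ (by simp [τ])] at e1
    cases e1
  · intro h
    obtain ⟨g, hg⟩ := Part.dom_iff_mem.1 h
    obtain ⟨h1, h2⟩ := mem_eval.1 hg
    let s : Bool → Fin (n + 3) × F Γ Λ := fun β =>
      (0, β, true, false, (default, none), (default, none), (default, none))
    obtain ⟨T, hT⟩ := steps M a b c h1 (s true) rfl
    let v := List.replicate T (s true) ++ s true :: List.replicate (2 * T + 2) (s true)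
    have key : ∀ τ j, (run (dd M a b c n) (oo M n) (s false :: v) τ j).1 = false := by
      intro τ j
      by_cases k : ∃ p < j, (τ p).2.1 = true
      · have k1 := Nat.findGreatest_spec (P := fun p => p < j ∧ (τ p).2.1 = true)
          (n := j) k.choose_spec.1.le k.choose_spec
        have k2 := fun p => @Nat.findGreatest_is_greatest p (fun p => p < j ∧ (τ p).2.1 = true) _ j
        generalize Nat.findGreatest (fun p => p < j ∧ (τ p).2.1 = true) j = p at k1 k2
        obtain ⟨D, rfl⟩ : ∃ D, j = p + D + 1 := ⟨j - p - 1, by omega⟩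
        by_cases c1 : D < (s false :: v).length
        · exact swept M a b c _ τ p D k1.2 c1
        have c2 : 3 * T + 4 ≤ D := by simp [v] at c1; omega
        have sg : Seg τ p (D + 1) := fun x hx => by
          rcases Nat.eq_zero_or_pos x with rfl | e
          · exact k1.2
          · simpa [e.ne', show p + x < p + D + 1 by omega] using k2 (p + x) (by omega) (by omega)
        obtain ⟨P, f1, f2, f3⟩ := hT _ _ _ _ (sg.pass M a b c (s false))
          (good_reset M a b c sg (s false) rfl)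
        simp only [run, v, List.foldl_cons, List.foldl_append]
        refine dead M a b c _ _ _ ?_
        have := (st_buf M (s true) f2 f3 (D - T - 1) (by omega)).2.2 ⟨by omega, h2⟩
        rw [show p + 1 + T + (D - T - 1) + 1 = p + D + 1 by omega, run] at this
        simp [pass, dd, d0, this]
      · push Not at k
        refine dead M a b c v _ _ ?_
        have : ∀ i ≤ j, (st (oo M n) (s false) τ i).2.2.1 = true := fun i => by
          induction i with
          | zero => exact fun _ => rfl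
          | succ i ih => intro e; simp [st, oo, o0, ih (by omega), k i e]
        simp [pass, dd, d0, this j le_rfl]
    exact ⟨s false :: v, fun τ τ' j e => Prod.ext ((key τ j).trans (key τ' j).symm)
      (causal M a b c _ j τ τ' e (Or.inl (by simp)))⟩

end Pool.Agent.H25.Ml
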