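import Mathlib

set_option autoImplicit false

namespace Pool.Agent.H25.Ml

variable {Q A : Type} (δ : Q → A → Q) (o : Q → A → A)

/-- the map computed from a state of the Mealy automaton with transitions `δ` and outputs `o` -/
def out : Q → List A → List A
  | _, [] => []
  | q, a :: u => o q a :: out (δ q a) u

/-- the reset words -/
def Syn : Set (List A) := {u | ∃ p, Set.range (fun q => u.foldl δ q) = {p}}

/-- weakly reset -/
def WR : Prop :=
  (Syn δ).Nonempty ∧ ∃ H : Set (List A), H.Nonempty ∧ H ⊆ Syn δ ∧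
    (∀ x y, ∀ u ∈ H, x ++ u ++ y ∈ H) ∧ ∀ q, ∀ u ∈ H, out δ o q u ∈ H

end Pool.Agent.H25.Ml
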