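import Mathlib

/-! A tree of open sets in a compact space with a monotone network assignment. -/

set_option autoImplicit false

namespace Pool.Agent.H25.MonoMono

open Set Filter Topology

variable {X : Type} [TopologicalSpace X]

/-- `V` is a nonempty open set with closure in `U` that decides the closure of `N`. -/
def Good (U N V : Set X) : Prop :=
  IsOpen V ∧ V.Nonempty ∧ closure V ⊆ U ∧ (V ⊆ closure N ∨ Disjoint (closure V) (closure N))

theorem good_ex [RegularSpace X] {U W : Set X} (N : Set X) (hU : IsOpen U) (hW : IsOpen W)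
    (h : (W ∩ U).Nonempty) : ∃ V, V ⊆ W ∧ Good U N V := by
  have key : ∀ Z : Set X, IsOpen Z → Z.Nonempty →
      ∃ V, IsOpen V ∧ V.Nonempty ∧ closure V ⊆ Z := by
    rintro Z hZ ⟨z, hz⟩
    obtain ⟨C, hC, hCc, hCZ⟩ := exists_mem_nhds_isClosed_subset (hZ.mem_nhds hz)
    exact ⟨interior C, isOpen_interior, ⟨z, mem_interior_iff_mem_nhds.2 hC⟩,
      (closure_minimal interior_subset hCc).trans hCZ⟩
  by_cases hc : W ∩ U ⊆ closure N
  · obtain ⟨V, v1, v2, v3⟩ := key _ (hW.inter hU) h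
    exact ⟨V, fun x hx => (v3 (subset_closure hx)).1, v1, v2, fun x hx => (v3 hx).2,
      Or.inl fun x hx => hc (v3 (subset_closure hx))⟩
  · obtain ⟨z, hz, hz'⟩ := not_subset.1 hc
    obtain ⟨V, v1, v2, v3⟩ := key ((W ∩ U) ∩ (closure N)ᶜ)
      ((hW.inter hU).inter isClosed_closure.isOpen_compl) ⟨z, hz, hz'⟩
    exact ⟨V, fun x hx => (v3 (subset_closure hx)).1.1, v1, v2, fun x hx => (v3 hx).1.2,
      Or.inr (disjoint_left.2 fun x hx => (v3 hx).2)⟩

theorem fam_ex [RegularSpace X] (U N : Set X) : ∃ C : Set (Set X), (∀ V ∈ C, Good U N V) ∧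
    C.Pairwise Disjoint ∧ (IsOpen U → U ⊆ closure (⋃₀ C)) := by
  obtain ⟨C, hC⟩ := zorn_subset {C : Set (Set X) | (∀ V ∈ C, Good U N V) ∧ C.Pairwise Disjoint}
    (fun c hc hch => ⟨⋃₀ c, ⟨fun V ⟨C, h1, h2⟩ => (hc h1).1 V h2,
      fun V ⟨C, h1, h2⟩ V' ⟨C', h1', h2'⟩ hne => by
        rcases hch.total h1 h1' with h | h
        · exact (hc h1').2 (h h2) h2' hne
        · exact (hc h1).2 h2 (h h2') hne⟩, fun s hs => subset_sUnion_of_mem hs⟩)
  refine ⟨C, hC.1.1, hC.1.2, fun hU x hx => ?_⟩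
  by_contra hn
  obtain ⟨V, v1, v2⟩ := good_ex N hU isClosed_closure.isOpen_compl ⟨x, hn, hx⟩
  have hd : ∀ V' ∈ C, Disjoint V V' := fun V' hV' =>
    disjoint_left.2 fun z hz hz' => v1 hz (subset_closure ⟨V', hV', hz'⟩)
  have hm : insert V C ⊆ C := hC.2 ⟨by
      rintro V' (rfl | h)
      · exact v2
      · exact hC.1.1 V' h,
    hC.1.2.insert fun V' hV' _ => ⟨hd V' hV', (hd V' hV').symm⟩⟩ (subset_insert _ _)
  obtain ⟨z, hz⟩ := v2.2.1
  exact disjoint_left.1 (hd V (hm (mem_insert _ _))) hz hz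

theorem core [CompactSpace X] [T2Space X] [Nonempty X] (O : Set X → Set (Set X))
    (h1 : ∀ A : Set X, A.Finite → (O A).Countable)
    (h2 : ∀ d : ℕ → X, ∀ x ∈ closure (range d), ∀ U, IsOpen U → x ∈ U →
      ∃ n, ∃ N ∈ O (d '' Iio n), x ∈ N ∧ N ⊆ U) :
    ∃ (L : ℕ → Set (Set X)) (G : Set X), (∀ n, ∀ U ∈ L n, IsOpen U ∧ U.Nonempty) ∧
      (∀ n, (L n).Pairwise Disjoint) ∧ Dense G ∧ (∀ y ∈ G, ∀ n, ∃ U ∈ L n, y ∈ U) ∧
      ∀ y ∈ G, ∀ W, IsOpen W → y ∈ W → ∃ n, ∃ U ∈ L n, y ∈ U ∧ U ⊆ W := by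
  classical
  have he : ∀ A : Set X, ∃ e : ℕ → Set X, A.Finite → O A ⊆ range e := by
    intro A
    by_cases hA : A.Finite
    · obtain ⟨e, he⟩ := ((h1 A hA).insert ∅).exists_eq_range (insert_nonempty _ _)
      exact ⟨e, fun _ => he ▸ subset_insert _ _⟩
    · exact ⟨fun _ => ∅, fun h => absurd h hA⟩
  choose e he using he
  choose C c1 c2 c3 using fun U N : Set X => fam_ex U N
  have hp : ∀ V : Set X, ∃ p, V.Nonempty → p ∈ V := fun V => by
    by_cases h : V.Nonempty
    · exact ⟨h.some, fun _ => h.some_mem⟩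
    · exact ⟨Classical.arbitrary X, fun h' => absurd h' h⟩
  choose pick hpick using hp
  let E : ℕ → (ℕ → X) → Set X := fun n d => e (d '' Iio (Nat.unpair n).1) (Nat.unpair n).2
  let M : ℕ → Set (Set X × (ℕ → X)) := fun n => Nat.rec {(univ, fun _ => Classical.arbitrary X)}
    (fun n S => {t | ∃ s ∈ S, t.1 ∈ C s.1 (E n s.2) ∧ t.2 = Function.update s.2 n (pick t.1)}) n
  have m1 : ∀ n, ∀ t ∈ M n, IsOpen t.1 ∧ t.1.Nonempty := by
    intro n t ht
    cases n with
    | zero => rw [show t = _ from ht]; exact ⟨isOpen_univ, univ_nonempty⟩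
    | succ n =>
      obtain ⟨s, -, h, -⟩ := ht
      exact ⟨(c1 _ _ _ h).1, (c1 _ _ _ h).2.1⟩
  have m2 : ∀ n, ∀ t ∈ M n, ∀ t' ∈ M n, ∀ y ∈ t.1, y ∈ t'.1 → t = t' := by
    intro n
    induction n with
    | zero => intro t ht t' ht' _ _ _; rw [show t = _ from ht, show t' = _ from ht']
    | succ n ih =>
      rintro t ⟨s, a1, a2, a3⟩ t' ⟨s', b1, b2, b3⟩ y hy hy'
      have hs : s = s' := ih s a1 s' b1 y ((c1 _ _ _ a2).2.2.1 (subset_closure hy))
        ((c1 _ _ _ b2).2.2.1 (subset_closure hy'))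
      subst hs
      have : t.1 = t'.1 := by
        by_contra hne
        exact disjoint_left.1 (c2 _ _ a2 b2 hne) hy hy'
      exact Prod.ext this (by rw [a3, b3, this])
  have m3 : ∀ n, Dense (⋃ t ∈ M n, t.1) := by
    intro n
    induction n with
    | zero =>
      intro x
      exact subset_closure (mem_biUnion (show (univ, fun _ => Classical.arbitrary X) ∈ M 0 from rfl)
        (mem_univ x))
    | succ n ih =>
      refine dense_closure.1 (ih.mono ?_)
      intro x hx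
      obtain ⟨s, hs, hx⟩ := mem_iUnion₂.1 hx
      refine closure_mono ?_ (c3 s.1 (E n s.2) (m1 n s hs).1 hx)
      rintro z ⟨V, hV, hz⟩
      exact mem_biUnion (show (V, Function.update s.2 n (pick V)) ∈ M (n + 1) from
        ⟨s, hs, hV, rfl⟩) hz
  refine ⟨fun n => Prod.fst '' M n, ⋂ n, ⋃ t ∈ M n, t.1, ?_, ?_,
    dense_iInter_of_isOpen_nat (fun n => isOpen_biUnion fun t ht => (m1 n t ht).1) m3, ?_, ?_⟩
  · rintro n _ ⟨t, ht, rfl⟩
    exact m1 n t ht
  · rintro n _ ⟨t, ht, rfl⟩ _ ⟨t', ht', rfl⟩ hne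
    exact disjoint_left.2 fun y hy hy' => hne (congrArg Prod.fst (m2 n t ht t' ht' y hy hy'))
  · intro y hy n
    obtain ⟨t, ht, h⟩ := mem_iUnion₂.1 (mem_iInter.1 hy n)
    exact ⟨_, ⟨t, ht, rfl⟩, h⟩
  intro y hy W hW hyW
  choose s s1 s2 using fun n => mem_iUnion₂.1 (mem_iInter.1 hy n)
  have s3 : ∀ n, Good (s n).1 (E n (s n).2) (s (n + 1)).1 ∧
      (s (n + 1)).2 = Function.update (s n).2 n (pick (s (n + 1)).1) := by
    intro n
    obtain ⟨r, a1, a2, a3⟩ := s1 (n + 1)
    have : r = s n := m2 n r a1 _ (s1 n) y ((c1 _ _ _ a2).2.2.1 (subset_closure (s2 (n + 1)))) (s2 n)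
    subst this
    exact ⟨c1 _ _ _ a2, a3⟩
  let d : ℕ → X := fun k => pick (s (k + 1)).1
  have d1 : ∀ n k, k < n → (s n).2 k = d k := by
    intro n
    induction n with
    | zero => intro k hk; omega
    | succ n ih =>
      intro k hk
      rw [(s3 n).2]
      rcases Nat.lt_succ_iff_lt_or_eq.1 hk with h | rfl
      · rw [Function.update_of_ne h.ne, ih k h]
      · rw [Function.update_self]
  have anti : Antitone fun n => closure (s n).1 := antitone_nat_of_succ_le fun n =>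
    (s3 n).1.2.2.1.trans subset_closure
  have d2 : ∀ n k, n ≤ k → d k ∈ closure (s n).1 := fun n k h =>
    anti (h.trans k.le_succ) (subset_closure (hpick _ (s3 k).1.2.1))
  obtain ⟨x, hx⟩ := exists_clusterPt_of_compactSpace (map d atTop)
  have x1 : x ∈ closure (range d) := mem_closure_iff_clusterPt.2
    (hx.mono (le_principal_iff.2 range_mem_map))
  have x2 : ∀ n, x ∈ closure (s n).1 := fun n => isClosed_closure.closure_subset
    (mem_closure_iff_clusterPt.2 (hx.mono (le_principal_iff.2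
      (eventually_atTop.2 ⟨n, d2 n⟩))))
  have key : ∀ z, (∀ n, z ∈ closure (s n).1) → z = x := by
    intro z hz
    by_contra hne
    obtain ⟨Z, hZ, hZc, hZz⟩ := exists_mem_nhds_isClosed_subset
      (isOpen_compl_singleton.mem_nhds (show x ∈ ({z}ᶜ : Set X) from fun h => hne h.symm))
    obtain ⟨i, N, hN, hxN, hNZ⟩ := h2 d x x1 _ isOpen_interior (mem_interior_iff_mem_nhds.2 hZ)
    obtain ⟨j, hj⟩ := he _ ((finite_Iio i).image d) hN
    have hE : E (Nat.pair i j) (s (Nat.pair i j)).2 = N := by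
      simp only [E, Nat.unpair_pair]
      rw [← hj]
      congr 1
      exact image_congr fun k hk => d1 _ k (lt_of_lt_of_le hk (Nat.left_le_pair i j))
    have hg := (s3 (Nat.pair i j)).1
    rw [hE] at hg
    rcases hg.2.2.2 with h | h
    · exact hZz (closure_minimal (hNZ.trans interior_subset) hZc
        (isClosed_closure.closure_subset_iff.2 h (hz _))) rfl
    · exact disjoint_left.1 h (x2 _) (subset_closure hxN)
  have hyx : y = x := key y fun n => subset_closure (s2 n)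
  obtain ⟨n, hn⟩ := exists_subset_nhds_of_isCompact' (V := fun n => closure (s n).1)
    (directed_of_isDirected_le anti) (fun n => isClosed_closure.isCompact)
    (fun n => isClosed_closure) (U := W) (fun z hz => by
      rw [key z (mem_iInter.1 hz), ← hyx]
      exact hW.mem_nhds hyW)
  exact ⟨n, _, ⟨s n, s1 n, rfl⟩, s2 n, subset_closure.trans hn⟩

/-- A discrete copy of the power set. -/
def Disc (X : Type) : Type := Set X

instance (X : Type) : TopologicalSpace (Disc X) := ⊥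
instance (X : Type) : DiscreteTopology (Disc X) := ⟨rfl⟩

theorem dense_metr [CompactSpace X] [T2Space X] (O : Set X → Set (Set X))
    (h1 : ∀ A : Set X, A.Finite → (O A).Countable)
    (h2 : ∀ d : ℕ → X, ∀ x ∈ closure (range d), ∀ U, IsOpen U → x ∈ U →
      ∃ n, ∃ N ∈ O (d '' Iio n), x ∈ N ∧ N ⊆ U) :
    ∃ D : Set X, Dense D ∧ TopologicalSpace.MetrizableSpace D := by
  rcases isEmpty_or_nonempty X with hX | hX
  · exact ⟨univ, dense_univ, inferInstance⟩
  obtain ⟨L, G, l1, l2, l3, l4, l5⟩ := core O h1 h2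
  refine ⟨G, l3, ?_⟩
  choose φ p1 p2 using fun (y : G) n => l4 y y.2 n
  have uniq : ∀ (y : G) n, ∀ U ∈ L n, y.1 ∈ U → φ y n = U := by
    intro y n U hU hy
    by_contra hne
    exact disjoint_left.1 (l2 n (p1 y n) hU hne) (p2 y n) hy
  let ψ : G → ℕ → Disc X := φ
  have hi : IsInducing ψ := by
    rw [isInducing_iff_nhds]
    intro y
    refine le_antisymm ?_ ?_
    · rw [← tendsto_iff_comap, tendsto_pi_nhds]
      intro n
      rw [show 𝓝 (ψ y n) = pure (ψ y n) from congrFun (nhds_discrete (Disc X)) _, tendsto_pure]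
      filter_upwards [((l1 n _ (p1 y n)).1.preimage continuous_subtype_val).mem_nhds (p2 y n)]
        with z hz
      exact uniq z n _ (p1 y n) hz
    · intro S hS
      obtain ⟨T, hT, hTS⟩ := (mem_nhds_subtype G y S).1 hS
      obtain ⟨n, U, u1, u2, u3⟩ := l5 y y.2 _ isOpen_interior (mem_interior_iff_mem_nhds.2 hT)
      have ho : IsOpen ((fun a : ℕ → Disc X => a n) ⁻¹' {ψ y n}) :=
        (isOpen_discrete {ψ y n}).preimage (continuous_apply n)
      refine ⟨_, ho.mem_nhds rfl, fun z hz => hTS ?_⟩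
      have : φ z n = U := (show φ z n = φ y n from hz).trans (uniq y n U u1 u2)
      exact interior_subset (s := T) (u3 (this ▸ p2 z n))
  have := hi.pseudoMetrizableSpace
  exact TopologicalSpace.PseudoMetrizableSpace.toMetrizableSpace

theorem sep_of_ccc [CompactSpace X] [T2Space X] (O : Set X → Set (Set X))
    (h1 : ∀ A : Set X, A.Finite → (O A).Countable)
    (h2 : ∀ d : ℕ → X, ∀ x ∈ closure (range d), ∀ U, IsOpen U → x ∈ U →
      ∃ n, ∃ N ∈ O (d '' Iio n), x ∈ N ∧ N ⊆ U)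
    (hc : ∀ F : Set (Set X), (∀ U ∈ F, IsOpen U ∧ U.Nonempty) → F.PairwiseDisjoint id →
      F.Countable) : ∃ D : Set X, D.Countable ∧ Dense D := by
  rcases isEmpty_or_nonempty X with hX | hX
  · exact ⟨univ, countable_univ, dense_univ⟩
  obtain ⟨L, G, l1, l2, l3, -, l5⟩ := core O h1 h2
  choose! p hp using fun (U : Set X) (h : U.Nonempty) => h
  refine ⟨⋃ n, p '' L n, countable_iUnion fun n => (hc _ (l1 n) (l2 n)).image _, ?_⟩
  rw [dense_iff_inter_open]
  intro W hW hne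
  obtain ⟨y, hy, hyG⟩ := l3.inter_open_nonempty W hW hne
  obtain ⟨n, U, u1, -, u3⟩ := l5 y hyG W hW hy
  exact ⟨p U, u3 (hp U (l1 n U u1).2), mem_iUnion.2 ⟨n, U, u1, rfl⟩⟩

/-- A compact Hausdorff space with a countable network is metrizable. -/
theorem metr_of_net [CompactSpace X] [T2Space X] (N : Set (Set X)) (hN : N.Countable)
    (h : ∀ x U, IsOpen U → x ∈ U → ∃ A ∈ N, x ∈ A ∧ A ⊆ U) :
    TopologicalSpace.MetrizableSpace X := by
  have h1 : ∀ p : Set X × Set X, ∃ f : C(X, ℝ), Disjoint (closure p.1) (closure p.2) →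
      EqOn f 0 (closure p.1) ∧ EqOn f 1 (closure p.2) := by
    intro p
    by_cases hd : Disjoint (closure p.1) (closure p.2)
    · obtain ⟨f, f0, f1, -⟩ := exists_continuous_zero_one_of_isClosed isClosed_closure
        isClosed_closure hd
      exact ⟨f, fun _ => ⟨f0, f1⟩⟩
    · exact ⟨0, fun h => absurd h hd⟩
  choose f hf using h1
  have := hN.to_subtype
  have := Encodable.ofCountable (N × N)
  refine Metric.PiNatEmbed.TopologicalSpace.MetrizableSpace.of_countable_separating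
    (fun p : N × N => (f (p.1.1, p.2.1) : X → ℝ)) (fun p => (f _).continuous) ?_
  intro x y hxy
  obtain ⟨U, V, u1, v1, u2, v2, hd⟩ := t2_separation hxy
  obtain ⟨C, hC, hCc, hCU⟩ := exists_mem_nhds_isClosed_subset (u1.mem_nhds u2)
  obtain ⟨D, hD, hDc, hDV⟩ := exists_mem_nhds_isClosed_subset (v1.mem_nhds v2)
  obtain ⟨A, a1, a2, a3⟩ := h x _ isOpen_interior (mem_interior_iff_mem_nhds.2 hC)
  obtain ⟨B, b1, b2, b3⟩ := h y _ isOpen_interior (mem_interior_iff_mem_nhds.2 hD)
  obtain ⟨e0, e1⟩ := hf (A, B) (hd.mono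
    ((closure_minimal (a3.trans interior_subset) hCc).trans hCU)
    ((closure_minimal (b3.trans interior_subset) hDc).trans hDV))
  refine ⟨(⟨A, a1⟩, ⟨B, b1⟩), ?_⟩
  show f (A, B) x ≠ f (A, B) y
  rw [e0 (subset_closure a2), e1 (subset_closure b2)]
  simp

omit [TopologicalSpace X] in
theorem range_eq (d : ℕ → X) : range d = ⋃ n, d '' Iio n := by
  ext x
  simp only [mem_range, mem_iUnion, mem_image, mem_Iio]
  exact ⟨fun ⟨k, h⟩ => ⟨k + 1, k, k.lt_succ_self, h⟩, fun ⟨_, k, _, h⟩ => ⟨k, h⟩⟩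

omit [TopologicalSpace X] in
theorem cnt {O : Set X → Set (Set X)}
    (h : ∀ A : Set X, Cardinal.mk ↥(O A) ≤ max (Cardinal.mk ↥A) Cardinal.aleph0)
    {A : Set X} (hA : A.Countable) : (O A).Countable :=
  Cardinal.le_aleph0_iff_set_countable.1
    ((h A).trans (max_le (Cardinal.le_aleph0_iff_set_countable.2 hA) le_rfl))

end Pool.Agent.H25.MonoMono
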