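import Mathlib
import Pool.Agent.H25.StrongDist

set_option autoImplicit false

open Cardinal Set

universe u

namespace Pool.Agent.H25.MonoPath

open Pool.Agent.H25.NSIdealU Pool.Agent.H25.StrongDist

def Adj {W : Type u} [LinearOrder W] (c : W → W → ℕ) (j : ℕ) (x y : W) : Prop :=
  (x < y ∧ c x y = j) ∨ (y < x ∧ c y x = j)

theorem Adj.symm {W : Type u} [LinearOrder W] {c : W → W → ℕ} {j : ℕ} {x y : W}
    (h : Adj c j x y) : Adj c j y x := Or.symm h

theorem rtg_symm {W : Type u} [LinearOrder W] {c : W → W → ℕ} {j : ℕ} {x y : W}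
    (h : Relation.ReflTransGen (Adj c j) x y) : Relation.ReflTransGen (Adj c j) y x := by
  induction h with
  | refl => exact Relation.ReflTransGen.refl
  | tail _ h2 ih => exact Relation.ReflTransGen.head h2.symm ih

theorem component {W : Type u} [LinearOrder W] [WellFoundedLT W] (h : Good W)
    (hW : Order.succ ℵ₀ < #W) (c : W → W → ℕ) :
    ∃ j r s, Adj c j r s ∧ ∀ x, ∃ a b, x ≤ a ∧ x ≤ b ∧ Adj c j a b ∧
      Relation.ReflTransGen (Adj c j) r a := by
  have h0 : ∃ j r, ∀ x, ∃ a b, x ≤ a ∧ x ≤ b ∧ Adj c j a b ∧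
      Relation.ReflTransGen (Adj c j) r a := by
    by_contra h1
    push Not at h1
    choose t ht using h1
    have hV := good_of_regular (Order.succ ℵ₀) (isRegular_succ le_rfl) (Order.lt_succ _)
    have h2 : ∀ r, ∃ y, ∀ j, t j r < y := by
      intro r
      obtain ⟨y, hy⟩ := bound h (range (fun j => t j r))
        (lt_of_le_of_lt (le_aleph0_iff_set_countable.2 (countable_range _)) h.unc)
      exact ⟨y, fun j => hy _ ⟨j, rfl⟩⟩
    choose f hf using h2
    obtain ⟨d, D, a1, a2, _, _, _⟩ := exists_delta h hV (by simpa using hW) f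
    have h3 : ∀ j : ℕ, ∃ x, (∃ y, y < d ∧ c y d = j) → x < d ∧ c x d = j := by
      intro j
      by_cases hj : ∃ y, y < d ∧ c y d = j
      · obtain ⟨y, hy⟩ := hj
        exact ⟨y, fun _ => hy⟩
      · exact ⟨d, fun h => absurd h hj⟩
    choose g hg using h3
    obtain ⟨b, hb1, hb2⟩ := a2 ((fun j => f (g j)) '' {j | ∃ y, y < d ∧ c y d = j}) (by
      rintro _ ⟨j, hj, rfl⟩
      exact a1 _ (hg j hj).1) (by
      rw [mk_ord_toType]
      exact Order.lt_succ_of_le (le_aleph0_iff_set_countable.2 ((to_countable _).image _)))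
    have h4 : ∃ y, y < d ∧ c y d = c b d := ⟨b, hb1, rfl⟩
    have h5 : t (c b d) (g (c b d)) < b := (hf _ _).trans (hb2 _ ⟨_, h4, rfl⟩)
    have h6 : Adj c (c b d) b d := Or.inl ⟨hb1, rfl⟩
    refine ht _ (g (c b d)) b d h5.le (h5.trans hb1).le h6 ?_
    have h7 : Adj c (c b d) (g (c b d)) d := Or.inl (hg _ h4)
    exact (Relation.ReflTransGen.single h7).tail h6.symm
  obtain ⟨j, r, hr⟩ := h0
  obtain ⟨a, b, _, _, h1, h2⟩ := hr r
  refine ⟨j, a, b, h1, fun x => ?_⟩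
  obtain ⟨a', b', g1, g2, g3, g4⟩ := hr x
  exact ⟨a', b', g1, g2, g3, (rtg_symm h2).trans g4⟩

def alt {W : Type u} (a b : W) (n : ℕ) : W := if Even n then a else b

theorem alt_adj {W : Type u} {R : W → W → Prop} {a b : W} (h1 : R a b) (h2 : R b a) (n : ℕ) :
    R (alt a b n) (alt a b (n + 1)) := by
  unfold alt
  by_cases hn : Even n
  · simp [hn, Nat.even_add_one, h1]
  · simp [hn, Nat.even_add_one, h2]

theorem alt_often {W : Type u} (a b : W) (n : ℕ) : ∃ m, n ≤ m ∧ alt a b m = b :=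
  ⟨2 * n + 1, by omega, by simp [alt]⟩

theorem walk {W : Type u} {R : W → W → Prop} {x y z : W} (h : Relation.ReflTransGen R x y)
    (h1 : R y z) (h2 : R z y) :
    ∃ F : ℕ → W, F 0 = x ∧ (∀ n, R (F n) (F (n + 1))) ∧ ∀ n, ∃ m, n ≤ m ∧ F m = z := by
  induction h using Relation.ReflTransGen.head_induction_on with
  | refl => exact ⟨alt y z, by simp [alt], alt_adj h1 h2, alt_often y z⟩
  | @head a b hab _ ih =>
    obtain ⟨F, g1, g2, g3⟩ := ih
    refine ⟨fun n => Nat.casesOn n a F, rfl, fun n => ?_, fun n => ?_⟩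
    · cases n with
      | zero => simpa [g1] using hab
      | succ n => exact g2 n
    · obtain ⟨m, hm1, hm2⟩ := g3 n
      exact ⟨m + 1, by omega, hm2⟩

theorem lex_path {J W : Type u} [LinearOrder J] (R : W → W → Prop) (F : J → ℕ → W)
    (h1 : ∀ p n, R (F p n) (F p (n + 1)))
    (h2 : ∀ p q, q < p → ∃ q', q ≤ q' ∧ q' < p ∧ ∀ n, ∃ m, n ≤ m ∧ R (F q' m) (F p 0))
    (u v : J ×ₗ ℕ) (huv : u < v) :
    ∃ w : J ×ₗ ℕ, u ≤ w ∧ w < v ∧ R (F (ofLex w).1 (ofLex w).2) (F (ofLex v).1 (ofLex v).2) := by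
  obtain ⟨q, k⟩ := u
  obtain ⟨p, n⟩ := v
  have h3 : q < p ∨ q = p ∧ k < n := Prod.Lex.toLex_lt_toLex.1 huv
  cases n with
  | zero =>
    rcases h3 with h3 | h3
    · obtain ⟨q', g1, g2, g3⟩ := h2 p q h3
      obtain ⟨m, g4, g5⟩ := g3 k
      refine ⟨toLex (q', m), ?_, Prod.Lex.toLex_lt_toLex.2 (Or.inl g2), g5⟩
      refine Prod.Lex.toLex_le_toLex.2 ?_
      rcases lt_or_eq_of_le g1 with g6 | g6
      · exact Or.inl g6
      · exact Or.inr ⟨g6, g4⟩
    · exact absurd h3.2 (Nat.not_lt_zero _)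
  | succ n =>
    refine ⟨toLex (p, n), ?_, Prod.Lex.toLex_lt_toLex.2 (Or.inr ⟨rfl, Nat.lt_succ_self n⟩), h1 p n⟩
    refine Prod.Lex.toLex_le_toLex.2 ?_
    rcases h3 with h3 | h3
    · exact Or.inl h3
    · exact Or.inr ⟨h3.1, Nat.lt_succ_iff.1 h3.2⟩

theorem pigeon {A B : Type u} (s : Set A) (f : A → B) {m : Cardinal.{u}} (hm : ℵ₀ ≤ m)
    (hB : #B ≤ m) (hs : m < #s) : ∃ b, m < #{x | x ∈ s ∧ f x = b} := by
  by_contra h
  push Not at h
  have h1 : s = ⋃ b, {x | x ∈ s ∧ f x = b} := by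
    ext x
    simp
  have h2 : #s ≤ m := by
    rw [h1]
    refine le_trans mk_iUnion_le_sum_mk (le_trans (sum_le_sum _ (fun _ => m) h) ?_)
    rw [sum_const']
    exact le_trans (mul_le_mul' hB le_rfl) (mul_eq_self hm).le
  exact absurd hs (not_lt.2 h2)

theorem mk_fun_nat (A : Type u) : #(A → ULift.{u} ℕ) ≤ 2 ^ (max #A ℵ₀) := by
  rw [← power_def]
  have h1 : #(ULift.{u} ℕ) ≤ 2 ^ (max #A ℵ₀) :=
    mk_le_aleph0.trans ((le_max_right _ _).trans (cantor _).le)
  refine le_trans (power_le_power_right h1) ?_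
  rw [← power_mul]
  refine power_le_power_left (by norm_num) ?_
  exact le_trans (mul_le_mul' le_rfl (le_max_left _ _)) (mul_eq_self (le_max_right _ _)).le

theorem canon {X W : Type u} [LinearOrder W] [WellFoundedLT W] (hX : IsStrongLimit #X)
    (hX0 : ℵ₀ < #X) (hW : #W < #X) (hW2 : ∀ a : W, #(Iio a) < (#X).ord.cof)
    (θ : W → Cardinal.{u}) (hθ : ∀ a, θ a < #X) (c : Sym2 X → ℕ) :
    ∃ (K : W → Set X) (c0 : W → W → ℕ), (∀ a, θ a ≤ #(K a)) ∧
      ∀ a b, a < b → ∀ x ∈ K a, ∀ y ∈ K b, x ≠ y ∧ c s(x, y) = c0 a b := by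
  classical
  let m : W → Cardinal.{u} := fun a => max (θ a) (2 ^ (max #W ℵ₀))
  have hm : ∀ a, m a < #X := fun a => max_lt (hθ a) (hX.isStrongPrelimit (max_lt hW hX0))
  have hm0 : ∀ a, ℵ₀ ≤ m a := fun a =>
    le_max_of_le_right ((le_max_right _ _).trans (cantor _).le)
  have hsucc : ∀ a, Order.succ (m a) < #X := fun a => hX.isSuccLimit.succ_lt (hm a)
  have h1 : ∀ (a : W) (Y : Set X), ∃ L : Set X, #Y < #X →
      #L = Order.succ (m a) ∧ (∀ x ∈ Y, x ∉ L) ∧
        ∀ x ∈ Y, ∀ y ∈ L, ∀ y' ∈ L, c s(x, y) = c s(x, y') := by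
    intro a Y
    by_cases hY : #Y < #X
    · have h2 : max (m a) (2 ^ (max #Y ℵ₀)) < #X :=
        max_lt (hm a) (hX.isStrongPrelimit (max_lt hY hX0))
      have : Infinite X := aleph0_le_mk_iff.1 hX0.le
      have h3 : #(Yᶜ : Set X) = #X := mk_compl_of_infinite Y hY
      obtain ⟨b, hb⟩ := pigeon Yᶜ (fun y => fun x : Y => ULift.up.{u} (c s(x, y)))
        (le_max_of_le_left (hm0 a)) ((mk_fun_nat Y).trans (le_max_right _ _)) (h3 ▸ h2)
      obtain ⟨L, hL1, hL2⟩ := le_mk_iff_exists_subset.1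
        (Order.succ_le_of_lt (lt_of_le_of_lt (le_max_left _ _) hb))
      refine ⟨L, fun _ => ⟨hL2, fun x hx hxL => (hL1 hxL).1 hx, fun x hx y hy y' hy' => ?_⟩⟩
      have h4 := congrFun ((hL1 hy).2.trans (hL1 hy').2.symm) ⟨x, hx⟩
      exact congrArg ULift.down h4
    · exact ⟨∅, fun h => absurd h hY⟩
  choose G hG using h1
  let L : W → Set X := (wellFounded_lt (α := W)).fix (fun a r => G a (⋃ b : Iio a, r b b.2))
  have hL : ∀ a, L a = G a (⋃ b : Iio a, L b) := fun a => (wellFounded_lt (α := W)).fix_eq _ a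
  have h2 : ∀ a : W, #(⋃ b : Iio a, L (b : W)) < #X := by
    intro a
    induction a using (wellFounded_lt (α := W)).induction with
    | _ a ih =>
    refine lt_of_le_of_lt mk_iUnion_le_sum_mk (lt_of_le_of_lt (sum_le_mk_mul_iSup _) ?_)
    refine mul_lt_of_lt hX0.le (lt_of_le_of_lt (mk_set_le _) hW)
      (iSup_lt_of_lt_cof_ord (hW2 a) (fun b => ?_))
    rw [hL b, (hG b _ (ih b b.2)).1]
    exact hsucc b
  have h3 : ∀ a, #(L a) = Order.succ (m a) := by
    intro a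
    rw [hL a]
    exact (hG a _ (h2 a)).1
  have h4 : ∀ a b, a < b → ∀ x ∈ L a, x ∉ L b := by
    intro a b hab x hx
    rw [hL b]
    exact (hG b _ (h2 b)).2.1 x (mem_iUnion.2 ⟨⟨a, hab⟩, hx⟩)
  have h5 : ∀ a b, a < b → ∀ x ∈ L a, ∀ y ∈ L b, ∀ y' ∈ L b, c s(x, y) = c s(x, y') := by
    intro a b hab x hx
    rw [hL b]
    exact (hG b _ (h2 b)).2.2 x (mem_iUnion.2 ⟨⟨a, hab⟩, hx⟩)
  have h6 : ∀ b, ∃ y, y ∈ L b := by
    intro b
    apply nonempty_def.1
    rw [← Set.nonempty_coe_sort, ← mk_ne_zero_iff, h3]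
    exact ne_of_gt (lt_of_le_of_lt (zero_le (α := Cardinal)) (Order.lt_succ _))
  choose y hy using h6
  have h7 : ∀ a, ∃ t : W → ULift.{u} ℕ,
      m a < #{x | x ∈ L a ∧ (fun b => ULift.up.{u} (c s(x, y b))) = t} := fun a =>
    pigeon (L a) (fun x => fun b => ULift.up.{u} (c s(x, y b))) (hm0 a)
      ((mk_fun_nat W).trans (le_max_right _ _)) (by rw [h3]; exact Order.lt_succ _)
  choose t ht using h7
  refine ⟨fun a => {x | x ∈ L a ∧ (fun b => ULift.up.{u} (c s(x, y b))) = t a},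
    fun a b => (t a b).down, fun a => (le_max_left _ _).trans (ht a).le, ?_⟩
  intro a b hab x hx z hz
  refine ⟨fun hxz => h4 a b hab x hx.1 (hxz ▸ hz.1), ?_⟩
  rw [h5 a b hab x hx.1 z hz.1 (y b) (hy b)]
  exact congrArg ULift.down (congrFun hx.2 b)

theorem setup (k : Cardinal.{u}) (hk : ℵ₀ ≤ k) :
    ∃ (Z : Type u) (_ : LinearOrder Z) (_ : WellFoundedLT Z) (S : Set Z), #Z = k ∧
      (∀ x : Z, #(Iic x) < k) ∧ IsCofinal S ∧ #S = k.ord.cof ∧
      ∀ a : S, #(Iic a) < k.ord.cof := by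
  obtain ⟨S, hS1, hS2⟩ := Ordinal.exists_ord_cof_eq (α := k.ord.ToType)
  rw [Ordinal.cof_toType] at hS2
  have h1 : #S = k.ord.cof := by
    have := congrArg Ordinal.card hS2
    simpa using this
  have h2 : ℵ₀ ≤ k.ord.cof := (isRegular_cof (isSuccLimit_ord hk)).aleph0_le
  refine ⟨k.ord.ToType, inferInstance, inferInstance, S, by simp, fun x => ?_, hS1, h1, fun a => ?_⟩
  · simpa using mk_Iic_lt x (by simp) (by simpa using hk)
  · rw [← h1]
    exact mk_Iic_lt a (by rw [h1, hS2]) (h1 ▸ h2)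

theorem main (X : Type u) (hX : IsStrongLimit #X) (h1 : Order.succ ℵ₀ < (#X).ord.cof)
    (h2 : (#X).ord.cof < #X) (c : Sym2 X → ℕ) :
    ∃ (i : ℕ) (I : Type u) (_ : LinearOrder I) (_ : WellFoundedLT I) (g : I → X),
      Function.Injective g ∧ #I = #X ∧
      ∀ u v : I, u < v → ∃ w, u ≤ w ∧ w < v ∧ c s(g w, g v) = i := by
  classical
  have hu : ℵ₀ < (#X).ord.cof := (Order.lt_succ _).trans h1
  have hX0 : ℵ₀ < #X := hu.trans h2
  obtain ⟨Z, i1, i2, S, hZ, hZ2, hS1, hS2, hS3⟩ := setup #X hX0.le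
  have hG : Good S := ⟨by rw [hS2]; exact isRegular_cof (isSuccLimit_ord hX0.le), hS2 ▸ hu,
    fun a => hS2 ▸ hS3 a⟩
  let J : Type u := {p : S ×ₗ WithBot (WithTop Z) //
    ∀ z : Z, (ofLex p).2 = ((z : WithTop Z) : WithBot (WithTop Z)) → z ≤ (ofLex p).1}
  let T : S → Set (J ×ₗ ℕ) := fun a => {i | ∀ z : Z,
    (ofLex (ofLex i).1.1).2 = ((z : WithTop Z) : WithBot (WithTop Z)) → z ≤ a}
  have hT : ∀ a, #(T a) < #X := by
    intro a
    let φ : (S × ULift.{u} ℕ) × WithBot (WithTop (Iic (a : Z))) → (S ×ₗ WithBot (WithTop Z)) × ℕ :=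
      fun q => (toLex (q.1.1, WithBot.map (WithTop.map Subtype.val) q.2), q.1.2.down)
    have h3 : #(T a) ≤ #((S × ULift.{u} ℕ) × WithBot (WithTop (Iic (a : Z)))) := by
      have h4 : ∀ i : T a, ∃ q, φ q = ((ofLex i.1).1.1, (ofLex i.1).2) := by
        rintro ⟨⟨⟨⟨s, z⟩, hz⟩, n⟩, hi⟩
        cases z with
        | bot => exact ⟨((s, ⟨n⟩), ⊥), rfl⟩
        | coe z =>
          cases z with
          | top => exact ⟨((s, ⟨n⟩), ((⊤ : WithTop (Iic (a : Z))) : WithBot _)), rfl⟩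
          | coe z => exact ⟨((s, ⟨n⟩), (((⟨z, hi z rfl⟩ : Iic (a : Z)) : WithTop _) : WithBot _)), rfl⟩
      choose ψ hψ using h4
      refine mk_le_of_injective (f := ψ) (fun i i' hi => ?_)
      have h5 := (hψ i).symm.trans ((congrArg φ hi).trans (hψ i'))
      exact Subtype.ext (ofLex.injective (Prod.ext (Subtype.ext (Prod.ext_iff.1 h5).1)
        (Prod.ext_iff.1 h5).2))
    refine lt_of_le_of_lt h3 ?_
    have h4 : #(WithBot (WithTop (Iic (a : Z)))) = #(Iic (a : Z)) + 1 + 1 := by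
      have e1 : #(WithBot (WithTop (Iic (a : Z)))) = #(WithTop (Iic (a : Z))) + 1 := mk_option
      have e2 : #(WithTop (Iic (a : Z))) = #(Iic (a : Z)) + 1 := mk_option
      rw [e1, e2]
    rw [mk_prod, mk_prod, lift_id, lift_id, lift_id, lift_id, h4]
    refine mul_lt_of_lt hX0.le (mul_lt_of_lt hX0.le (hS2 ▸ h2) (lt_of_le_of_lt mk_le_aleph0 hX0)) ?_
    exact add_one_lt_of_lt hX0.le (add_one_lt_of_lt hX0.le (hZ2 _))
  obtain ⟨K, c0, hK1, hK2⟩ := canon (W := S) hX hX0 (hS2 ▸ h2)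
    (fun a => lt_of_le_of_lt (mk_le_mk_of_subset Iio_subset_Iic_self) (hS3 a)) (fun a => #(T a)) hT c
  obtain ⟨j, r, s, hrs, hx⟩ := component hG (hS2 ▸ h1) c0
  choose a b ha hb hab hra using hx
  choose F1 hF1 hF1' hF1'' using fun x => walk (hra x) (hab x) (hab x).symm
  choose F2 hF2 hF2' hF2'' using fun x => walk (rtg_symm (hra x)) hrs hrs.symm
  let F0 : S → WithBot (WithTop Z) → ℕ → S := fun x z =>
    if z = ⊥ then F1 x else if z = ((⊤ : WithTop Z) : WithBot (WithTop Z)) then F2 x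
    else alt (a x) (b x)
  let F : J → ℕ → S := fun p => F0 (ofLex p.1).1 (ofLex p.1).2
  have hFa : ∀ p n, Adj c0 j (F p n) (F p (n + 1)) := by
    intro p n
    simp only [F, F0]
    split_ifs
    · exact hF1' _ n
    · exact hF2' _ n
    · exact alt_adj (hab _) (hab _).symm n
  have hFb : ∀ p q : J, q < p → ∃ q', q ≤ q' ∧ q' < p ∧
      ∀ n, ∃ m, n ≤ m ∧ Adj c0 j (F q' m) (F p 0) := by
    rintro ⟨⟨x, z⟩, hp⟩ ⟨⟨x', z'⟩, hq⟩ hqp
    have h3 : x' < x ∨ x' = x ∧ z' < z := Prod.Lex.toLex_lt_toLex.1 hqp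
    by_cases hz : z = ⊥
    · have h4 : x' < x := by
        rcases h3 with h3 | h3
        · exact h3
        · exact absurd h3.2 (by rw [hz]; exact not_lt_bot)
      refine ⟨⟨toLex (x', ((⊤ : WithTop Z) : WithBot (WithTop Z))), fun w hw => ?_⟩, ?_, ?_,
        fun n => ?_⟩
      · exact absurd (WithBot.coe_injective hw) WithTop.top_ne_coe
      · exact Prod.Lex.toLex_le_toLex.2 (Or.inr ⟨rfl, le_top⟩)
      · exact Prod.Lex.toLex_lt_toLex.2 (Or.inl h4)
      · obtain ⟨m, hm1, hm2⟩ := hF2'' x' n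
        refine ⟨m, hm1, ?_⟩
        have e1 : F0 x' ((⊤ : WithTop Z) : WithBot (WithTop Z)) m = s := by
          simp only [F0]
          rw [if_neg WithBot.coe_ne_bot, if_pos trivial]
          exact hm2
        have e2 : F0 x z 0 = r := by
          simp only [F0]
          rw [if_pos hz]
          exact hF1 x
        change Adj c0 j (F0 x' ((⊤ : WithTop Z) : WithBot (WithTop Z)) m) (F0 x z 0)
        rw [e1, e2]
        exact hrs.symm
    · have e2 : F0 x z 0 = a x := by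
        simp only [F0]
        rw [if_neg hz]
        split_ifs
        · exact hF2 x
        · simp [alt]
      have h5 : ∀ w : WithBot (WithTop Z), w < z → ∀ n, ∃ m, n ≤ m ∧ F0 x w m = b x := by
        intro w hw n
        simp only [F0]
        split_ifs with g1 g2
        · exact hF1'' x n
        · exact absurd hw (by rw [g2]; exact not_lt.2 le_top)
        · exact alt_often _ _ n
      rcases h3 with h3 | h3
      · refine ⟨⟨toLex (x, ⊥), fun w hw => absurd hw WithBot.bot_ne_coe⟩, ?_, ?_, fun n => ?_⟩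
        · exact Prod.Lex.toLex_le_toLex.2 (Or.inl h3)
        · exact Prod.Lex.toLex_lt_toLex.2 (Or.inr ⟨rfl, bot_lt_iff_ne_bot.2 hz⟩)
        · obtain ⟨m, hm1, hm2⟩ := h5 ⊥ (bot_lt_iff_ne_bot.2 hz) n
          refine ⟨m, hm1, ?_⟩
          change Adj c0 j (F0 x ⊥ m) (F0 x z 0)
          rw [hm2, e2]
          exact (hab x).symm
      · obtain ⟨rfl, h6⟩ := h3
        refine ⟨⟨toLex (x', z'), hq⟩, le_refl _, hqp, fun n => ?_⟩
        obtain ⟨m, hm1, hm2⟩ := h5 z' h6 n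
        refine ⟨m, hm1, ?_⟩
        change Adj c0 j (F0 x' z' m) (F0 x' z 0)
        rw [hm2, e2]
        exact (hab x').symm
  let f : J ×ₗ ℕ → S := fun i => F (ofLex i).1 (ofLex i).2
  have hf : ∀ i, i ∈ T (f i) := by
    rintro ⟨⟨⟨x, z⟩, hp⟩, n⟩ w hw
    have h3 : z = ((w : WithTop Z) : WithBot (WithTop Z)) := hw
    have h4 : w ≤ x := hp w h3
    have h5 : x ≤ F0 x z n := by
      simp only [F0]
      rw [if_neg (by rw [h3]; exact WithBot.coe_ne_bot),
        if_neg (by rw [h3]; exact fun h => WithTop.coe_ne_top (WithBot.coe_injective h))]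
      unfold alt
      split_ifs
      · exact ha x
      · exact hb x
    exact h4.trans h5
  have h3 : ∀ x, Nonempty (T x ↪ K x) := fun x => (Cardinal.le_def _ _).1 (hK1 x)
  let e : ∀ x, T x ↪ K x := fun x => (h3 x).some
  let g : J ×ₗ ℕ → X := fun i => e (f i) ⟨i, hf i⟩
  have hg1 : ∀ i, g i ∈ K (f i) := fun i => (e (f i) ⟨i, hf i⟩).2
  have hg2 : Function.Injective g := by
    intro i i' hi
    have h4 : f i = f i' := by
      rcases lt_trichotomy (f i) (f i') with h5 | h5 | h5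
      · exact absurd hi (hK2 _ _ h5 _ (hg1 i) _ (hg1 i')).1
      · exact h5
      · exact absurd hi.symm (hK2 _ _ h5 _ (hg1 i') _ (hg1 i)).1
    have h5 : ∀ (x : S) (hx : i' ∈ T x), x = f i' → (e x ⟨i', hx⟩ : X) = g i' := by
      intro x hx hxe
      subst hxe
      rfl
    have h6 : i' ∈ T (f i) := h4 ▸ hf i'
    have h7 : e (f i) ⟨i, hf i⟩ = e (f i) ⟨i', h6⟩ := Subtype.ext (hi.trans (h5 _ h6 h4).symm)
    exact congrArg Subtype.val ((e (f i)).injective h7)
  refine ⟨j, J ×ₗ ℕ, inferInstance, inferInstance, g, hg2,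
    le_antisymm (mk_le_of_injective hg2) ?_, fun u v huv => ?_⟩
  · rw [← hZ]
    choose π hπ1 hπ2 using hS1
    refine mk_le_of_injective (f := fun z : Z => (toLex ((⟨toLex (⟨π z, hπ1 z⟩,
      ((z : WithTop Z) : WithBot (WithTop Z))), fun w hw => ?_⟩ : J), 0) : J ×ₗ ℕ)) ?_
    · have : z = w := WithTop.coe_injective (WithBot.coe_injective hw)
      exact this ▸ hπ2 z
    · intro z z' hz
      have := congrArg (fun i : J ×ₗ ℕ => (ofLex (ofLex i).1.1).2) hz
      exact WithTop.coe_injective (WithBot.coe_injective this)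
  · obtain ⟨w, g1, g2, g3⟩ := lex_path (Adj c0 j) F hFa hFb u v huv
    refine ⟨w, g1, g2, ?_⟩
    rcases g3 with g3 | g3
    · exact (hK2 _ _ g3.1 _ (hg1 w) _ (hg1 v)).2.trans g3.2
    · rw [Sym2.eq_swap]
      exact (hK2 _ _ g3.1 _ (hg1 v) _ (hg1 w)).2.trans g3.2

theorem stars {S : Type u} [LinearOrder S] (h1 : #S ≤ Order.succ ℵ₀)
    (h2 : ∀ a : S, #(Iic a) ≤ ℵ₀) :
    ∃ c0 : S → S → ℕ, (∀ a b, c0 a b = c0 b a) ∧ ∀ i, ∃ ctr : S → S,
      ∀ a b, c0 a b = i → ctr a = ctr b ∧ (ctr a = a ∨ ctr a = b) := by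
  classical
  obtain ⟨β⟩ : Nonempty (S ↪ (ULift.{u} ℕ → ULift.{u} Bool)) := by
    rw [← Cardinal.le_def]
    refine h1.trans ?_
    rw [← power_def]
    simpa using cantor (ℵ₀ : Cardinal.{u})
  have h3 : ∀ a : S, ∃ e : S → ℕ, InjOn e (Iic a) := fun a =>
    countable_iff_exists_injOn.1 (le_aleph0_iff_set_countable.1 (h2 a))
  choose e he using h3
  have h4 : ∀ a b : S, ∃ n, a ≠ b → β a n ≠ β b n := by
    intro a b
    by_cases hab : a = b
    · exact ⟨⟨0⟩, fun h => absurd hab h⟩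
    · obtain ⟨n, hn⟩ := Function.ne_iff.1 (fun h => hab (β.injective h))
      exact ⟨n, fun _ => hn⟩
  choose Δ hΔ using h4
  let t : S → S → ULift.{u} ℕ × ULift.{u} Bool × ℕ := fun a b => (Δ a b, β a (Δ a b), e b a)
  let o : S → S → Option (ULift.{u} ℕ × ULift.{u} Bool × ℕ) := fun a b =>
    if a < b then some (t a b) else if b < a then some (t b a) else none
  have ho : ∀ a b, o a b = o b a := by
    intro a b
    simp only [o]
    rcases lt_trichotomy a b with h | h | h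
    · rw [if_pos h, if_neg (lt_asymm h), if_pos h]
    · rw [h]
    · rw [if_neg (lt_asymm h), if_pos h, if_pos h]
  obtain ⟨enc, henc⟩ := Countable.exists_injective_nat (Option (ULift.{u} ℕ × ULift.{u} Bool × ℕ))
  refine ⟨fun a b => enc (o a b), fun a b => congrArg enc (ho a b), fun i => ?_⟩
  by_cases hi : ∃ p, enc (some p) = i
  · obtain ⟨p, rfl⟩ := hi
    let ctr : S → S := fun b => if h : ∃ a, a < b ∧ t a b = p then h.choose else b
    have h5 : ∀ a b, a < b → t a b = p → ctr a = a ∧ ctr b = a := by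
      intro a b hab hp
      constructor
      · have h6 : ¬ ∃ a', a' < a ∧ t a' a = p := by
          rintro ⟨a', h7, h8⟩
          have h9 := h8.trans hp.symm
          simp only [t, Prod.mk.injEq] at h9
          apply hΔ a' a h7.ne
          rw [h9.2.1, h9.1]
        simp only [ctr, dif_neg h6]
      · have h6 : ∃ a', a' < b ∧ t a' b = p := ⟨a, hab, hp⟩
        simp only [ctr, dif_pos h6]
        have h7 := h6.choose_spec
        have h9 := h7.2.trans hp.symm
        exact he b h7.1.le hab.le (congrArg (fun q => q.2.2) h9)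
    refine ⟨ctr, fun a b hab => ?_⟩
    have h6 := henc hab
    simp only [o] at h6
    split_ifs at h6 with g1 g2
    · obtain ⟨g3, g4⟩ := h5 a b g1 (Option.some.inj h6)
      exact ⟨g3.trans g4.symm, Or.inl g3⟩
    · obtain ⟨g3, g4⟩ := h5 b a g2 (Option.some.inj h6)
      exact ⟨g4.trans g3.symm, Or.inr g4⟩
  · refine ⟨id, fun a b hab => ⟨?_, Or.inl rfl⟩⟩
    simp only [o] at hab
    split_ifs at hab with g1 g2
    · exact absurd ⟨_, hab⟩ hi
    · exact absurd ⟨_, hab⟩ hi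
    · exact le_antisymm (not_lt.1 g2) (not_lt.1 g1)

theorem neg (X : Type u) (hX : ℵ₀ ≤ #X) (h : (#X).ord.cof ≤ Order.succ ℵ₀) :
    ∃ c : Sym2 X → ℕ, ∀ (i : ℕ) (V : Set X) (r : V → V → Prop), IsWellOrder V r →
      (∀ u v : V, r u v → ∃ w : V, (w = u ∨ r u w) ∧ r w v ∧ c s((w : X), (v : X)) = i) →
      #V < #X := by
  classical
  obtain ⟨Z, i1, i2, S, hZ, hZ2, hS1, hS2, hS3⟩ := setup #X hX
  obtain ⟨c0, hc0, hc1⟩ := stars (S := S) (hS2 ▸ h)
    (fun a => Order.lt_succ_iff.1 (lt_of_lt_of_le (hS3 a) h))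
  obtain ⟨q⟩ : Nonempty (X ≃ Z) := Cardinal.eq.1 hZ.symm
  choose π0 hπ1 hπ2 using hS1
  let π : X → S := fun x => ⟨π0 (q x), hπ1 _⟩
  have hπ : ∀ a : S, #{x | π x = a} < #X := by
    intro a
    refine lt_of_le_of_lt ?_ (hZ2 a)
    rw [← mk_preimage_equiv q]
    refine mk_le_mk_of_subset (fun x hx => ?_)
    have h1 : π x = a := hx
    rw [← h1]
    exact hπ2 (q x)
  refine ⟨Sym2.lift ⟨fun x y => c0 (π x) (π y), fun x y => hc0 _ _⟩, fun i V r hr hV => ?_⟩
  obtain ⟨ctr, hctr⟩ := hc1 i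
  by_cases hne : Nonempty V
  swap
  · rw [mk_eq_zero_iff.2 (not_nonempty_iff.1 hne)]
    exact lt_of_lt_of_le aleph0_pos hX
  have wf : WellFounded r := hr.wf
  let v0 : V := wf.min Set.univ univ_nonempty
  have h1 : ∀ v : V, ctr (π v) = ctr (π v0) := by
    intro v
    induction v using wf.induction with
    | _ v ih =>
    rcases trichotomous_of r v0 v with h2 | h2 | h2
    · obtain ⟨w, _, g2, g3⟩ := hV v0 v h2
      exact (hctr _ _ g3).1.symm.trans (ih w g2)
    · rw [h2]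
    · exact absurd h2 (wf.not_lt_min Set.univ (mem_univ v))
  let F : Set V := {v | π v = ctr (π v0)}
  have hF : #F < #X := by
    refine lt_of_le_of_lt (mk_le_of_injective (β := {x | π x = ctr (π v0)})
      (f := fun v => ⟨v.1.1, v.2⟩) ?_) (hπ _)
    intro v v' hv
    exact Subtype.ext (Subtype.ext (congrArg (fun z : {x | π x = ctr (π v0)} => z.1) hv))
  let M : Set V := {v | ¬ ∃ w, r v w}
  have hM : #M ≤ 1 := by
    refine mk_le_one_iff_set_subsingleton.2 (fun a ha b hb => ?_)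
    rcases trichotomous_of r a b with h2 | h2 | h2
    · exact absurd ⟨b, h2⟩ ha
    · exact h2
    · exact absurd ⟨a, h2⟩ hb
  let N : Set V := {v | v ∉ F ∧ ∃ w, r v w}
  have hN : #N ≤ #F := by
    have h2 : ∀ v : N, ∃ w : F, r v w ∧ ∀ z, r v z → ¬ r z w := by
      intro v
      have h3 : ({w | r v w} : Set V).Nonempty := v.2.2
      have h4 := wf.min_mem _ h3
      have h5 : ∀ z, r v z → ¬ r z (wf.min _ h3) := fun z hz => wf.not_lt_min _ hz
      obtain ⟨w, g1, g2, g3⟩ := hV _ _ h4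
      have h6 : w = v := by
        rcases g1 with g1 | g1
        · exact g1
        · exact absurd g2 (h5 w g1)
      rw [h6] at g3
      refine ⟨⟨wf.min _ h3, ?_⟩, h4, h5⟩
      rcases (hctr _ _ g3).2 with g4 | g4
      · exact absurd (g4.symm.trans (h1 v)) v.2.1
      · exact g4.symm.trans (h1 v)
    choose sc hs1 hs2 using h2
    refine mk_le_of_injective (f := sc) (fun v v' hv => Subtype.ext ?_)
    rcases trichotomous_of r v v' with h3 | h3 | h3
    · exact absurd (hv ▸ hs1 v') (hs2 v v' h3)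
    · exact h3
    · exact absurd (hv ▸ hs1 v) (hs2 v' v h3)
  have h2 : (Set.univ : Set V) ⊆ F ∪ (N ∪ M) := by
    intro v _
    by_cases g1 : v ∈ F
    · exact Or.inl g1
    · by_cases g2 : ∃ w, r v w
      · exact Or.inr (Or.inl ⟨g1, g2⟩)
      · exact Or.inr (Or.inr g2)
  rw [← mk_univ (α := V)]
  refine lt_of_le_of_lt ((mk_le_mk_of_subset h2).trans (mk_union_le _ _)) ?_
  refine add_lt_of_lt hX hF (lt_of_le_of_lt (mk_union_le _ _) ?_)
  exact add_lt_of_lt hX (lt_of_le_of_lt hN hF) (lt_of_le_of_lt hM (lt_of_lt_of_le one_lt_aleph0 hX))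

theorem cof_beth : (ℶ_ (Ordinal.omega 2) : Cardinal.{u}).ord.cof = ℵ_ 2 := by
  have h1 := Ordinal.cof_map_of_isNormal (isNormal_ord.comp isNormal_beth)
    (a := (Ordinal.omega 2 : Ordinal.{u})) (isSuccLimit_omega 2)
  have h2 : (Ordinal.omega 2 : Ordinal.{u}).cof = ℵ_ 2 := by
    have := cof_omega_add_one (1 : Ordinal.{u})
    rwa [one_add_one_eq_two] at this
  exact h1.trans h2

end Pool.Agent.H25.MonoPath
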