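import Mathlib

set_option autoImplicit false

open Cardinal Set

namespace Pool.Agent.H25.MultiBoard

theorem exists_play {X : Type} (F : List X → X) :
    ∃ f : ℕ → X, ∀ n, f n = F (List.ofFn (fun i : Fin n => f i)) := by
  let f : ℕ → X := fun n => Nat.strongRecOn (motive := fun _ => X) n
    (fun n ih => F (List.ofFn (fun i : Fin n => ih i i.2)))
  refine ⟨f, fun n => ?_⟩
  simp only [f]
  rw [Nat.strongRecOn_eq]

theorem diag (a r : ℕ → ℕ → ℕ) :
    ∃ d : ℕ → ℕ, ∀ j, Function.Injective (a j) → ∃ k, d (a j k) ≠ r j k := by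
  classical
  refine ⟨fun m => 1 + ∑ j ∈ Finset.range (m + 1),
    (if h : ∃ k, a j k = m then r j h.choose else 0), fun j hj => ?_⟩
  have h1 : ∃ k, j ≤ a j k := by
    by_contra h
    push Not at h
    have h2 : (range (a j)).Finite := (Set.finite_lt_nat j).subset (by
      rintro _ ⟨k, rfl⟩
      exact h k)
    exact Set.infinite_range_of_injective hj h2
  obtain ⟨k, hk⟩ := h1
  refine ⟨k, ne_of_gt ?_⟩
  have h3 : ∃ k', a j k' = a j k := ⟨k, rfl⟩
  have h4 : h3.choose = k := hj h3.choose_spec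
  have h5 := Finset.single_le_sum (s := Finset.range (a j k + 1))
    (f := fun j' => if h : ∃ k', a j' k' = a j k then r j' h.choose else 0)
    (fun _ _ => Nat.zero_le _) (Finset.mem_range.2 (Nat.lt_succ_of_le hk))
  simp only [dif_pos h3, h4] at h5
  exact Nat.lt_of_le_of_lt h5 (Nat.lt_one_add_iff.2 le_rfl)

theorem select {Y X : Type} (hY : #Y ≤ 𝔠) (F : Y → ℕ → (ℕ → Bool) → X)
    (hF : ∀ y m, Function.Injective (F y m)) (cl : X → Set X) (hcl : ∀ x, (cl x).Countable) :
    ∃ z : Y → ℕ → Bool, ∀ y y', y ≠ y' →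
      (∀ m m', F y m (z y) ∉ cl (F y' m' (z y'))) ∨ (∀ m m', F y' m (z y') ∉ cl (F y m' (z y))) := by
  classical
  obtain ⟨_, _, hord⟩ := Cardinal.exists_ord_eq_type_lt Y
  have step : ∀ (y : Y) (g : (y' : Y) → y' < y → ℕ → Bool), ∃ z : ℕ → Bool,
      ∀ y' (h : y' < y) m m', F y m z ∉ cl (F y' m' (g y' h)) := by
    intro y g
    have h1 : #(Iio y) < 𝔠 := lt_of_lt_of_le (mk_Iio_lt y hord) hY
    have h2 : #(⋃ p : Iio y, ⋃ m : ℕ, ⋃ m' : ℕ, F y m ⁻¹' cl (F p m' (g p p.2))) < 𝔠 := by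
      refine lt_of_le_of_lt (mk_iUnion_le _) ?_
      refine mul_lt_of_lt aleph0_le_continuum h1 ?_
      refine lt_of_le_of_lt (ciSup_le' (fun p => ?_)) aleph0_lt_continuum
      rw [le_aleph0_iff_set_countable]
      exact countable_iUnion (fun m => countable_iUnion (fun m' =>
        (hcl _).preimage_of_injOn (hF y m).injOn))
    have h3 : (⋃ p : Iio y, ⋃ m : ℕ, ⋃ m' : ℕ, F y m ⁻¹' cl (F p m' (g p p.2))) ≠ Set.univ := by
      intro h
      rw [h, mk_univ] at h2
      simp at h2
    obtain ⟨z, hz⟩ := (ne_univ_iff_exists_notMem _).1 h3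
    refine ⟨z, fun y' h m m' h4 => hz ?_⟩
    exact mem_iUnion.2 ⟨⟨y', h⟩, mem_iUnion.2 ⟨m, mem_iUnion.2 ⟨m', h4⟩⟩⟩
  choose st hst using step
  let z : Y → ℕ → Bool := (wellFounded_lt (α := Y)).fix st
  have hz : ∀ y, z y = st y (fun y' _ => z y') := fun y => WellFounded.fix_eq _ _ _
  have key : ∀ y y', y' < y → ∀ m m', F y m (z y) ∉ cl (F y' m' (z y')) := by
    intro y y' h m m'
    have := hst y (fun y' _ => z y') y' h m m'
    rwa [← hz] at this
  refine ⟨z, fun y y' h => ?_⟩
  rcases lt_or_gt_of_ne h with h | h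
  · exact Or.inr (key _ _ h)
  · exact Or.inl (key _ _ h)

def row (w : ℕ × Bool → ℕ) (n : ℕ) : List (ℕ × ℕ) :=
  List.ofFn (fun k : Fin n => (w (k, false), w (k, true)))

def Legit (w : ℕ × Bool → ℕ → ℕ) : Prop :=
  (∀ k, w (k, true) 2 = Nat.pair (w (k, false) 3) (Nat.pair (w (k + 1, true) 1) (w (k, false) 1))) ∧
  ∀ i n, 2 ≤ n → w i (2 * n) =
    Encodable.encode (i, List.ofFn (fun t : Fin (2 * n) => row (fun j => w j t) n))

theorem legit_unique {w w' : ℕ × Bool → ℕ → ℕ} (h : Legit w) (h' : Legit w') {i i' : ℕ × Bool}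
    (hi : w i = w' i') : i = i' ∧ w = w' := by
  have key : ∀ n, 2 ≤ n → i = i' ∧ ∀ t : Fin (2 * n), row (fun j => w j t) n = row (fun j => w' j t) n := by
    intro n hn
    have h1 := h.2 i n hn
    rw [hi, h'.2 i' n hn] at h1
    have h2 := Encodable.encode_injective h1
    rw [Prod.mk.injEq] at h2
    exact ⟨h2.1.symm, fun t => (congrFun (List.ofFn_injective h2.2) t).symm⟩
  refine ⟨(key 2 le_rfl).1, ?_⟩
  funext j t
  obtain ⟨k, b⟩ := j
  have h3 := (key (k + t + 2) (by omega)).2 ⟨t, by omega⟩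
  have h4 := congrFun (List.ofFn_injective h3) ⟨k, by omega⟩
  simp only [Prod.mk.injEq] at h4
  cases b
  · exact h4.1
  · exact h4.2

def cl (x : ℕ → ℕ) : Set (ℕ → ℕ) := {y | ∃ w i j, Legit w ∧ w i = x ∧ w j = y}

theorem cl_countable (x : ℕ → ℕ) : (cl x).Countable := by
  by_cases h : ∃ w i, Legit w ∧ w i = x
  · obtain ⟨w, i, hw, hi⟩ := h
    refine (countable_range w).mono ?_
    rintro y ⟨w', i', j, hw', hi', hj⟩
    have := (legit_unique hw hw' (hi.trans hi'.symm)).2
    exact ⟨j, this ▸ hj⟩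
  · refine countable_empty.mono ?_
    rintro y ⟨w', i', j, hw', hi', _⟩
    exact h ⟨w', i', hw', hi'⟩

def chain (f : ℕ → ℕ) (j : ℕ) : ℕ → ℕ
  | 0 => j
  | k + 1 => (Nat.unpair (Nat.unpair (f (chain f j k))).2).1

noncomputable def dg (f : ℕ → ℕ) : ℕ → ℕ :=
  (diag (fun j k => (Nat.unpair (Nat.unpair (f (chain f j k))).2).2)
    (fun j k => (Nat.unpair (f (chain f j k))).1)).choose

structure IsCode (G : (ℕ → Bool) → ℕ → ℕ → ℕ) : Prop where
  cont : ∀ z z' t, (∀ i ≤ t, z i = z' i) → G z t = G z' t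
  one : ∀ z, G z 1 = id
  three : ∀ z, G z 3 = dg (G z 2)
  bit : ∀ z n m, G z (2 * n + 5) m = if z n then 1 else 0

theorem card_code : #{G | IsCode G} ≤ 𝔠 := by
  classical
  let J : {G | IsCode G} → (ℕ × Finset ℕ → ℕ → ℕ) :=
    fun G p => G.1 (fun i => decide (i ∈ p.2)) p.1
  have hJ : Function.Injective J := by
    intro G G' h
    apply Subtype.ext
    funext z t
    have h1 := congrFun h (t, (Finset.range (t + 1)).filter (fun i => z i = true))
    simp only [J] at h1
    have h2 : ∀ i ≤ t, z i =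
        decide (i ∈ (Finset.range (t + 1)).filter (fun i => z i = true)) := by
      intro i hi
      simp [Nat.lt_succ_of_le hi]
    rw [G.2.cont z _ t h2, G'.2.cont z _ t h2, h1]
  refine (mk_le_of_injective hJ).trans (le_of_eq ?_)
  simp

theorem not_all {G : (ℕ → Bool) → ℕ → ℕ → ℕ} (hG : IsCode G) (z : ℕ → Bool)
    {w : ℕ × Bool → ℕ → ℕ} (hw : Legit w) : ¬ ∀ i, ∃ m, w i = fun t => G z t m := by
  intro h
  choose m hm using h
  have h1 : ∀ i, w i 1 = m i := fun i => by rw [hm i]; simp [hG.one]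
  have hinj : Function.Injective m := by
    intro i j hij
    exact (legit_unique hw hw (by rw [hm i, hm j, hij])).1
  have h2 : ∀ k, G z 2 (m (k, true)) =
      Nat.pair (G z 3 (m (k, false))) (Nat.pair (m (k + 1, true)) (m (k, false))) := by
    intro k
    have := hw.1 k
    rw [h1, h1, hm (k, true), hm (k, false)] at this
    exact this
  have h3 : ∀ k, chain (G z 2) (m (0, true)) k = m (k, true) := by
    intro k
    induction k with
    | zero => rfl
    | succ k ih => simp [chain, ih, h2]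
  obtain ⟨k, hk⟩ := (diag (fun j k => (Nat.unpair (Nat.unpair (G z 2 (chain (G z 2) j k))).2).2)
    (fun j k => (Nat.unpair (G z 2 (chain (G z 2) j k))).1)).choose_spec (m (0, true)) (by
      intro k k' hkk
      simp only [h3, h2, Nat.unpair_pair] at hkk
      simpa using hinj hkk)
  apply hk
  change dg (G z 2) _ = _
  simp only [h3, h2, Nat.unpair_pair, ← hG.three]

theorem exists_set : ∃ S : Set (ℕ → ℕ), (∀ w, Legit w → ∃ i, w i ∈ S) ∧
    ∀ G, IsCode G → ∃ z, ∀ m, (fun t => G z t m) ∉ S := by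
  obtain ⟨z, hz⟩ := select card_code (fun G m z => fun t => G.1 z t m) (by
    intro G m z z' h
    funext n
    have h1 := congrFun h (2 * n + 5)
    simp only [G.2.bit] at h1
    revert h1
    cases z n <;> cases z' n <;> simp) cl cl_countable
  refine ⟨{x | ¬ ∃ (G : {G | IsCode G}) (m : ℕ), x = fun t => G.1 (z G) t m}, ?_, ?_⟩
  · intro w hw
    by_contra h0
    have h : ∀ i, ∃ (G : {G | IsCode G}) (m : ℕ), w i = fun t => G.1 (z G) t m := by
      intro i
      by_contra h1
      exact h0 ⟨i, h1⟩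
    choose G m hm using h
    have h1 : ∀ i j, G i = G j := by
      intro i j
      by_contra h2
      rcases hz _ _ h2 with h3 | h3
      · exact h3 (m i) (m j) ⟨w, j, i, hw, hm j, hm i⟩
      · exact h3 (m j) (m i) ⟨w, i, j, hw, hm i, hm j⟩
    refine not_all (G (0, true)).2 (z (G (0, true))) hw (fun i => ⟨m i, ?_⟩)
    rw [hm i, h1 i (0, true)]
  · intro G hG
    exact ⟨z ⟨G, hG⟩, fun m h => h ⟨⟨G, hG⟩, m, rfl⟩⟩

theorem code_of_strategy (s : List (ℕ → ℕ) → ℕ → ℕ) : ∃ G, IsCode G ∧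
    ∀ z n, G z (2 * n) = s (List.ofFn (fun i : Fin (2 * n) => G z i)) := by
  let F : (ℕ → Bool) → List (ℕ → ℕ) → ℕ → ℕ := fun z l =>
    if l.length % 2 = 0 then s l else if l.length = 1 then id else
      if l.length = 3 then dg (l.getD 2 id) else fun _ => if z ((l.length - 5) / 2) then 1 else 0
  choose G hG using fun z => exists_play (F z)
  refine ⟨G, ⟨?_, ?_, ?_, ?_⟩, ?_⟩
  · intro z z' t
    induction t using Nat.strong_induction_on with
    | _ t ih =>
      intro h
      have h1 : (fun i : Fin t => G z i) = fun i : Fin t => G z' i := by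
        funext i
        exact ih i i.2 (fun j hj => h j (hj.trans i.2.le))
      rw [hG z t, hG z' t, h1]
      simp only [F, List.length_ofFn]
      rw [h ((t - 5) / 2) (by omega)]
  · intro z
    rw [hG z 1]
    simp [F]
  · intro z
    rw [hG z 3]
    simp [F, List.ofFn_succ]
  · intro z n m
    rw [hG z (2 * n + 5)]
    simp only [F, List.length_ofFn]
    rw [if_neg (by omega), if_neg (by omega), if_neg (by omega)]
    have : (2 * n + 5 - 5) / 2 = n := by omega
    rw [this]
  · intro z n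
    rw [hG z (2 * n)]
    simp only [F, List.length_ofFn]
    rw [if_pos (by omega)]

theorem strategy_legit {K : Type} (e : ℕ ⊕ (ℕ → ℕ) × ℕ → K) (he : Function.Injective e) :
    ∃ s : List (K → ℕ) → K → ℕ, ∀ f : ℕ → K → ℕ,
      (∀ n, f (2 * n) = s (List.ofFn (fun i : Fin (2 * n) => f i))) →
      ∃ b : ℕ × Bool → K, Legit (fun i t => f t (b i)) := by
  classical
  let bd : (K → ℕ) → ℕ × Bool → K := fun g i =>
    if i.2 then e (Sum.inr (fun k => g (e (Sum.inl k)), i.1)) else e (Sum.inl i.1)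
  have hbd : ∀ g, Function.Injective (bd g) := by
    rintro g ⟨k, b⟩ ⟨k', b'⟩ h
    cases b <;> cases b' <;> simp only [bd] at h <;> have h1 := he h <;> simp_all
  let mv2 : (K → ℕ) → ℕ ⊕ (ℕ → ℕ) × ℕ → ℕ := fun g p =>
    match p with
    | Sum.inl _ => 0
    | Sum.inr (r, k) => Nat.pair (r k) (Nat.pair (g (e (Sum.inr (r, k + 1)))) (g (e (Sum.inl k))))
  let s : List (K → ℕ) → K → ℕ := fun l a =>
    if l.length = 2 then mv2 (l.getD 1 0) (Function.invFun e a) else
      Encodable.encode (Function.invFun (bd (l.getD 3 0)) a,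
        l.map (fun g => row (fun j => g (bd (l.getD 3 0) j)) (l.length / 2)))
  refine ⟨s, fun f hf => ⟨bd (f 3), fun k => ?_, fun i n hn => ?_⟩⟩
  · have h1 := hf 1
    simp only [mul_one] at h1
    change f 2 _ = _
    rw [h1]
    simp [s, bd, mv2, Function.leftInverse_invFun he _, List.ofFn_succ]
  · have h2 : (List.ofFn (fun i : Fin (2 * n) => f i)).getD 3 0 = f 3 := by
      rw [List.getD_eq_getElem _ _ (by simp; omega)]
      simp
    change f (2 * n) _ = _
    rw [hf n]
    simp only [s, List.length_ofFn, h2]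
    rw [if_neg (by omega), Function.leftInverse_invFun (hbd _) i, List.map_ofFn]
    have : 2 * n / 2 = n := by omega
    rw [this]
    rfl

theorem not_both {K L : Type} (l0 : L) (S : Set (ℕ → ℕ)) (s : List (K → ℕ) → K → ℕ)
    (hs : ∀ f : ℕ → K → ℕ, (∀ n, f (2 * n) = s (List.ofFn (fun i : Fin (2 * n) => f i))) →
      ∃ a, (fun n => f n a) ∈ S) (t : List (L → ℕ) → L → ℕ)
    (ht : ∀ f : ℕ → L → ℕ,
      (∀ n, f (2 * n + 1) = t (List.ofFn (fun i : Fin (2 * n + 1) => f i))) →
      ∀ a, (fun n => f n a) ∉ S) : False := by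
  obtain ⟨P, hP⟩ := exists_play (X := K → L → ℕ) (fun l =>
    if l.length % 2 = 0 then fun a _ => s (l.map (fun h a => h a l0)) a
    else fun a => t (l.map (fun h => h a)))
  obtain ⟨a, ha⟩ := hs (fun n a => P n a l0) (by
    intro n
    funext a
    rw [hP (2 * n)]
    simp only [List.length_ofFn]
    rw [if_pos (by omega), List.map_ofFn]
    rfl)
  refine ht (fun n => P n a) ?_ l0 ha
  intro n
  rw [hP (2 * n + 1)]
  simp only [List.length_ofFn]
  rw [if_neg (by omega), List.map_ofFn]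
  rfl

end Pool.Agent.H25.MultiBoard
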