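import Mathlib

set_option autoImplicit false

namespace Pool.Agent.H25.NStarAD

open Set Filter Topology
open Cardinal hiding univ

theorem pseudo (C : ℕ → Set ℕ) (hC : ∀ n, (⋂ i ∈ Iic n, C i).Infinite) :
    ∃ R : Set ℕ, R.Infinite ∧ ∀ i, (R \ C i).Finite := by
  choose p h1 h2 using fun n => (hC n).exists_gt n
  refine ⟨range p, infinite_of_forall_exists_gt (fun n => ⟨p n, ⟨n, rfl⟩, h2 n⟩), fun i => ?_⟩
  refine ((finite_Iio i).image p).subset ?_
  rintro _ ⟨⟨n, rfl⟩, hn⟩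
  exact ⟨n, mem_Iio.2 (not_le.1 (fun h => hn (mem_iInter₂.1 (h1 n) i h))), rfl⟩

theorem split3 {R : Set ℕ} (hR : R.Infinite) : ∃ (D : Set ℕ) (P : Bool → Set ℕ),
    D.Infinite ∧ (∀ i, (P i).Infinite) ∧ D ⊆ R ∧ (∀ i, P i ⊆ R) ∧ (∀ i, Disjoint D (P i)) ∧
      Disjoint (P false) (P true) := by
  let e := hR.natEmbedding R
  have he : Function.Injective (fun n => (e n : ℕ)) := fun a b h => e.injective (Subtype.ext h)
  refine ⟨range (fun n => (e (3 * n) : ℕ)), fun i => range (fun n => (e (3 * n + 1 + i.toNat) : ℕ)),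
    infinite_range_of_injective (fun a b h => by have := he h; omega),
    fun i => infinite_range_of_injective (fun a b h => by have := he h; omega), ?_, fun i => ?_,
    fun i => disjoint_left.2 ?_, disjoint_left.2 ?_⟩
  · rintro _ ⟨n, rfl⟩
    exact (e _).2
  · rintro _ ⟨n, rfl⟩
    exact (e _).2
  · rintro _ ⟨n, rfl⟩ ⟨m, hm⟩
    have := he hm
    cases i <;> simp at this <;> omega
  · rintro _ ⟨n, rfl⟩ ⟨m, hm⟩
    have := he hm
    simp at this
    omega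

def Le (p q : Set ℕ × Set ℕ) : Prop := (p.1 \ q.1).Finite ∧ (p.2 \ q.2).Finite

def Ok (p : Set ℕ × Set ℕ) : Prop := Disjoint p.1 p.2 ∧ (p.1 ∪ p.2)ᶜ.Infinite

theorem fin_trans {A B C : Set ℕ} (h1 : (A \ B).Finite) (h2 : (B \ C).Finite) : (A \ C).Finite :=
  (h1.union h2).subset (fun x hx => by by_cases h : x ∈ B <;> simp [h, hx.1, hx.2])

theorem Le.trans {p q r : Set ℕ × Set ℕ} (h1 : Le p q) (h2 : Le q r) : Le p r :=
  ⟨fin_trans h1.1 h2.1, fin_trans h1.2 h2.2⟩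

theorem upper (S : Set (Set ℕ × Set ℕ)) (hS : S.Countable) (h1 : ∀ p ∈ S, Ok p)
    (h2 : ∀ p ∈ S, ∀ q ∈ S, Le p q ∨ Le q p) : ∃ q, Ok q ∧ ∀ p ∈ S, Le p q := by
  rcases S.eq_empty_or_nonempty with rfl | hne
  · exact ⟨(∅, ∅), ⟨by simp, by simpa using infinite_univ⟩, fun p hp => absurd hp (notMem_empty p)⟩
  obtain ⟨s, rfl⟩ := hS.exists_eq_range hne
  have h3 : ∀ n, ∃ m, ∀ i, i ≤ n → Le (s i) (s m) := by
    intro n
    induction n with
    | zero => exact ⟨0, fun i hi => by rw [Nat.le_zero.1 hi]; exact ⟨by simp, by simp⟩⟩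
    | succ n ih =>
      obtain ⟨m, hm⟩ := ih
      rcases h2 _ ⟨m, rfl⟩ _ ⟨n + 1, rfl⟩ with h | h
      · refine ⟨n + 1, fun i hi => ?_⟩
        rcases hi.lt_or_eq with g | rfl
        · exact (hm i (by omega)).trans h
        · exact ⟨by simp, by simp⟩
      · refine ⟨m, fun i hi => ?_⟩
        rcases hi.lt_or_eq with g | rfl
        · exact hm i (by omega)
        · exact h
  have h4 : ∀ i j, ((s i).1 ∩ (s j).2).Finite := by
    intro i j
    obtain ⟨m, hm⟩ := h3 (max i j)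
    refine ((hm i (le_max_left _ _)).1.union (hm j (le_max_right _ _)).2).subset (fun x hx => ?_)
    by_cases g : x ∈ (s m).1
    · exact Or.inr ⟨hx.2, disjoint_left.1 (h1 _ ⟨m, rfl⟩).1 g⟩
    · exact Or.inl ⟨hx.1, g⟩
  obtain ⟨R, g1, g2⟩ := pseudo (fun i => ((s i).1 ∪ (s i).2)ᶜ) (fun n => by
    obtain ⟨m, hm⟩ := h3 n
    refine ((h1 _ ⟨m, rfl⟩).2.sdiff ((finite_Iic n).biUnion
      (fun i hi => (hm i hi).1.union (hm i hi).2))).mono (fun x hx => mem_iInter₂.2 (fun i hi g => ?_))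
    refine hx.2 (mem_biUnion hi ?_)
    rcases g with g | g
    · exact Or.inl ⟨g, fun k => hx.1 (Or.inl k)⟩
    · exact Or.inr ⟨g, fun k => hx.1 (Or.inr k)⟩)
  let A : Set ℕ := {x | x ∉ R ∧ ∃ n, x ∈ (s n).1 ∧ ∀ i, i ≤ n → x ∉ (s i).2}
  refine ⟨(A, (A ∪ R)ᶜ), ⟨disjoint_left.2 (fun x g3 g4 => g4 (Or.inl g3)), g1.mono ?_⟩, ?_⟩
  · rintro x hx (g | g)
    · exact g.1 hx
    · exact g (Or.inr hx)
  · rintro _ ⟨n, rfl⟩
    refine ⟨((g2 n).union ((finite_Iic n).biUnion (fun i _ => h4 n i))).subset (fun x hx => ?_),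
      ((g2 n).union ((finite_Iic n).biUnion (fun i _ => h4 i n))).subset (fun x hx => ?_)⟩
    · by_cases g : x ∈ R
      · exact Or.inl ⟨g, fun k => k (Or.inl hx.1)⟩
      · by_contra k
        exact hx.2 ⟨g, n, hx.1, fun i hi k1 => k (Or.inr (mem_biUnion hi ⟨hx.1, k1⟩))⟩
    · rcases not_not.1 hx.2 with ⟨-, m, k1, k2⟩ | g
      · exact Or.inr (mem_biUnion (x := m) (not_lt.1 (fun k3 => k2 n k3.le hx.1)) ⟨k1, hx.1⟩)
      · exact Or.inl ⟨g, fun k => k (Or.inr hx.1)⟩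

theorem step (S : Set (Set ℕ × Set ℕ)) : ∃ q : Bool → Set ℕ × Set ℕ,
    S.Countable → (∀ p ∈ S, Ok p) → (∀ p ∈ S, ∀ q ∈ S, Le p q ∨ Le q p) →
    (∀ i, Ok (q i) ∧ ∀ p ∈ S, Le p (q i) ∧ ((q i).1 \ p.1).Infinite) ∧
      (q false).1 = (q true).1 ∧ ∀ x, x ∉ (q false).2 → x ∉ (q true).2 → x ∈ (q false).1 := by
  by_cases h : S.Countable ∧ (∀ p ∈ S, Ok p) ∧ (∀ p ∈ S, ∀ q ∈ S, Le p q ∨ Le q p)
  swap
  · exact ⟨fun _ => (∅, ∅), fun h1 h2 h3 => absurd ⟨h1, h2, h3⟩ h⟩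
  obtain ⟨q, h1, h2⟩ := upper S h.1 h.2.1 h.2.2
  obtain ⟨D, P, g1, g2, g3, g4, g5, g6⟩ := split3 h1.2
  refine ⟨fun i => (q.1 ∪ D, (q.1 ∪ D ∪ P i)ᶜ), fun _ _ _ => ⟨fun i => ⟨⟨disjoint_left.2
    (fun x k1 k2 => k2 (Or.inl k1)), (g2 i).mono ?_⟩, fun p hp => ⟨⟨(h2 p hp).1.subset ?_,
    (h2 p hp).2.subset ?_⟩, (g1.sdiff (h2 p hp).1).mono ?_⟩⟩, rfl, ?_⟩⟩
  · rintro x hx ((k | k) | k)
    · exact g4 i hx (Or.inl k)
    · exact disjoint_left.1 (g5 i) k hx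
    · exact k (Or.inr hx)
  · exact fun x hx => ⟨hx.1, fun k => hx.2 (Or.inl k)⟩
  · refine fun x hx => ⟨hx.1, fun k => hx.2 ?_⟩
    rintro ((k1 | k1) | k1)
    · exact disjoint_left.1 h1.1 k1 k
    · exact g3 k1 (Or.inr k)
    · exact g4 i k1 (Or.inr k)
  · exact fun x hx => ⟨Or.inr hx.1, fun k => hx.2 ⟨k, fun k1 => g3 hx.1 (Or.inl k1)⟩⟩
  · intro x k1 k2
    rcases not_not.1 k1 with k3 | k3
    · exact k3
    · rcases not_not.1 k2 with k4 | k4
      · exact k4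
      · exact absurd k4 (disjoint_left.1 g6 k3)

theorem tree (W : Type) [LinearOrder W] [WellFoundedLT W] (hW : ∀ a : W, (Iio a).Countable) :
    ∃ A : (W → Bool) → W → Set ℕ,
      (∀ x a b, a < b → (A x a \ A x b).Finite ∧ (A x b \ A x a).Infinite) ∧
      ∀ x y, x ≠ y → ∃ a, A x a = A y a ∧ ∃ C C' : Set ℕ, C ∩ C' ⊆ A x a ∧
        (∀ b, (A x b \ C).Finite) ∧ ∀ b, (A y b \ C').Finite := by
  choose q hq using step
  let G : (W → Bool) → W → Set ℕ × Set ℕ := fun x =>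
    (wellFounded_lt (α := W)).fix (fun a r => q (range (fun b : Iio a => r b b.2)) (x a))
  have hG : ∀ x a, G x a = q (range (fun b : Iio a => G x b)) (x a) :=
    fun x a => (wellFounded_lt (α := W)).fix_eq _ a
  have h1 : ∀ x a, (∀ b, b < a → Ok (G x b) ∧ ∀ c, c < b → Le (G x c) (G x b)) →
      (range (fun b : Iio a => G x b)).Countable ∧ (∀ p ∈ range (fun b : Iio a => G x b), Ok p) ∧
      ∀ p ∈ range (fun b : Iio a => G x b), ∀ r ∈ range (fun b : Iio a => G x b),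
        Le p r ∨ Le r p := by
    intro x a ih
    have := (hW a).to_subtype
    refine ⟨countable_range _, ?_, ?_⟩
    · rintro _ ⟨b, rfl⟩
      exact (ih b b.2).1
    · rintro _ ⟨b, rfl⟩ _ ⟨c, rfl⟩
      rcases lt_trichotomy b c with g | rfl | g
      · exact Or.inl ((ih c c.2).2 b g)
      · exact Or.inl ⟨by simp, by simp⟩
      · exact Or.inr ((ih b b.2).2 c g)
  have h2 : ∀ x a, Ok (G x a) ∧ ∀ c, c < a → Le (G x c) (G x a) := by
    intro x a
    induction a using (wellFounded_lt (α := W)).induction with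
    | _ a ih =>
    obtain ⟨g1, g2, g3⟩ := h1 x a ih
    have g4 := (hq _ g1 g2 g3).1 (x a)
    rw [← hG] at g4
    exact ⟨g4.1, fun c hc => (g4.2 _ ⟨⟨c, hc⟩, rfl⟩).1⟩
  have h3 := fun x a => hq _ (h1 x a (fun b _ => h2 x b)).1 (h1 x a (fun b _ => h2 x b)).2.1
    (h1 x a (fun b _ => h2 x b)).2.2
  have h4 : ∀ x a b, ((G x b).1 \ (G x a).2ᶜ).Finite := by
    intro x a b
    rcases lt_trichotomy a b with g | rfl | g
    · refine ((h2 x b).2 a g).2.subset (fun n hn => ⟨not_not.1 hn.2, disjoint_left.1 (h2 x b).1.1 hn.1⟩)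
    · exact finite_empty.subset (fun n hn => disjoint_left.1 (h2 x a).1.1 hn.1 (not_not.1 hn.2))
    · refine ((h2 x a).2 b g).1.subset (fun n hn => ⟨hn.1, fun k =>
        disjoint_left.1 (h2 x a).1.1 k (not_not.1 hn.2)⟩)
  refine ⟨fun x a => (G x a).1, fun x a b hab => ⟨((h2 x b).2 a hab).1, ?_⟩, fun x y hxy => ?_⟩
  · have g4 := (h3 x b).1 (x b)
    rw [← hG] at g4
    exact (g4.2 _ ⟨⟨a, hab⟩, rfl⟩).2
  · obtain ⟨a, ha1, ha2⟩ := (wellFounded_lt (α := W)).has_min {a | x a ≠ y a} (Function.ne_iff.1 hxy)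
    have g1 : ∀ b, b < a → G x b = G y b := by
      intro b
      induction b using (wellFounded_lt (α := W)).induction with
      | _ b ih =>
      intro hb
      rw [hG x b, hG y b, show x b = y b from not_not.1 (fun k => ha2 b k hb)]
      congr 2
      funext c
      exact ih c c.2 (lt_trans c.2 hb)
    have g2 : range (fun b : Iio a => G y b) = range (fun b : Iio a => G x b) := by
      congr 1
      funext c
      exact (g1 c c.2).symm
    have g3 := hG y a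
    rw [g2] at g3
    have g4 := (h3 x a).2
    refine ⟨a, ?_, (G x a).2ᶜ, (G y a).2ᶜ, fun n hn => ?_, h4 x a, h4 y a⟩
    · show (G x a).1 = (G y a).1
      rw [g3, hG x a]
      have g5 : x a ≠ y a := ha1
      cases k1 : x a <;> cases k2 : y a <;> rw [k1, k2] at g5
      · exact g4.1
      · exact g4.1.symm
    · show n ∈ (G x a).1
      have g5 : x a ≠ y a := ha1
      have g6 := hn.1
      have g7 := hn.2
      rw [g3] at g7
      rw [hG x a] at g6 ⊢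
      cases k1 : x a <;> cases k2 : y a <;> rw [k1] at g5 g6 <;> rw [k2] at g5 g7
      · exact absurd rfl g5
      · exact g4.2 n g6 g7
      · exact g4.1 ▸ g4.2 n g7 g6
      · exact absurd rfl g5

abbrev NS : Type := {p : Ultrafilter ℕ // (p : Filter ℕ) ≤ cofinite}

def N (y : Set ℕ) : Set NS := {p | y ∈ p.1}

theorem N_open (y : Set ℕ) : IsOpen (N y) :=
  (ultrafilter_isOpen_basic y).preimage continuous_subtype_val

theorem N_closed (y : Set ℕ) : IsClosed (N y) :=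
  (ultrafilter_isClosed_basic y).preimage continuous_subtype_val

theorem N_nonempty {y : Set ℕ} (h : y.Infinite) : (N y).Nonempty := by
  have := h.cofinite_inf_principal_neBot
  exact ⟨⟨Ultrafilter.of (cofinite ⊓ 𝓟 y), (Ultrafilter.of_le _).trans inf_le_left⟩,
    (Ultrafilter.of_le _).trans inf_le_right (mem_principal_self y)⟩

theorem N_mono {y z : Set ℕ} (h : (y \ z).Finite) : N y ⊆ N z := fun p hp =>
  mem_of_superset (inter_mem hp (p.2 h.compl_mem_cofinite))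
    (fun _ hn => not_not.1 (fun k => hn.2 ⟨hn.1, k⟩))

theorem ns_compact : CompactSpace NS := by
  refine isCompact_iff_compactSpace.1 (IsClosed.isCompact ?_)
  have : {p : Ultrafilter ℕ | (p : Filter ℕ) ≤ cofinite} = ⋂ s ∈ cofinite, {p : Ultrafilter ℕ | s ∈ p} := by
    ext p
    simp only [mem_iInter]
    rfl
  show IsClosed {p : Ultrafilter ℕ | (p : Filter ℕ) ≤ cofinite}
  rw [this]
  exact isClosed_biInter (fun s _ => ultrafilter_isClosed_basic s)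

theorem eq_N {U : Set NS} (h1 : IsOpen U) (h2 : IsCompact U) : ∃ y, U = N y := by
  have h3 : ∃ y, U ⊆ N y ∧ N y ⊆ U := by
    refine h2.induction_on (p := fun s => ∃ y, s ⊆ N y ∧ N y ⊆ U)
      ⟨∅, empty_subset _, fun p hp => absurd hp p.1.empty_notMem⟩
      (fun s t hst ⟨y, g1, g2⟩ => ⟨y, hst.trans g1, g2⟩) ?_ ?_
    · rintro s t ⟨y, g1, g2⟩ ⟨z, g3, g4⟩
      refine ⟨y ∪ z, union_subset (fun p hp => Ultrafilter.union_mem_iff.2 (Or.inl (g1 hp)))
        (fun p hp => Ultrafilter.union_mem_iff.2 (Or.inr (g3 hp))), fun p hp => ?_⟩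
      exact (Ultrafilter.union_mem_iff.1 hp).elim (fun k => g2 k) (fun k => g4 k)
    · intro p hp
      obtain ⟨V, g1, rfl⟩ := isOpen_induced_iff.1 h1
      obtain ⟨_, ⟨y, rfl⟩, g2, g3⟩ := ultrafilterBasis_is_basis.exists_subset_of_mem_open hp g1
      exact ⟨N y, mem_nhdsWithin_of_mem_nhds ((N_open y).mem_nhds g2), y, subset_rfl,
        fun r hr => g3 hr⟩
  obtain ⟨y, g1, g2⟩ := h3
  exact ⟨y, Subset.antisymm g1 g2⟩

theorem system (W : Type) [LinearOrder W] [WellFoundedLT W] [NoMaxOrder W]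
    (hW : ∀ a : W, (Iio a).Countable) : ∃ U : (W → Bool) → Set NS, Function.Injective U ∧
      (∀ x, U x = interior (closure (U x))) ∧ (∀ x y, x ≠ y → IsCompact (U x ∩ U y)) ∧
      (Countable W → Nonempty W → ∀ x, ¬ IsCompact (U x)) := by
  have := ns_compact
  obtain ⟨A, h1, h2⟩ := tree W hW
  let U : (W → Bool) → Set NS := fun x => interior (closure (⋃ a, N (A x a)))
  have h3 : ∀ x a, N (A x a) ⊆ U x := fun x a =>
    interior_maximal ((subset_iUnion (fun a => N (A x a)) a).trans subset_closure) (N_open _)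
  have h4 : ∀ x C, (∀ b, (A x b \ C).Finite) → U x ⊆ N C := fun x C hC =>
    interior_subset.trans (closure_minimal (iUnion_subset (fun b => N_mono (hC b))) (N_closed C))
  have h5 : ∀ x y, x ≠ y → ∃ a, U x ∩ U y = N (A x a) := by
    intro x y hxy
    obtain ⟨a, g1, C, C', g2, g3, g4⟩ := h2 x y hxy
    exact ⟨a, Subset.antisymm (fun p hp => mem_of_superset (inter_mem (h4 x C g3 hp.1)
      (h4 y C' g4 hp.2)) g2) (subset_inter (h3 x a) (g1 ▸ h3 y a))⟩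
  refine ⟨U, fun x y hxy => ?_, fun x => ?_, fun x y hxy => ?_, fun hc hn x hx => ?_⟩
  · by_contra g
    obtain ⟨a, ha⟩ := h5 x y g
    obtain ⟨b, hb⟩ := exists_gt a
    obtain ⟨p, hp⟩ := N_nonempty (h1 x a b hb).2
    have g1 : p ∈ U x := h3 x b (mem_of_superset hp sdiff_subset)
    have g2 : p ∈ N (A x a) := ha ▸ ⟨g1, hxy ▸ g1⟩
    obtain ⟨n, g3, g4⟩ := p.1.nonempty_of_mem (inter_mem hp g2)
    exact g3.2 g4
  · exact Subset.antisymm (interior_maximal subset_closure isOpen_interior)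
      (interior_mono (closure_minimal interior_subset isClosed_closure))
  · obtain ⟨a, ha⟩ := h5 x y hxy
    exact ha ▸ (N_closed _).isCompact
  · obtain ⟨y, hy⟩ := eq_N isOpen_interior hx
    obtain ⟨e, he⟩ := exists_surjective_nat W
    obtain ⟨R, g1, g2⟩ := pseudo (fun i => y \ A x (e i)) (fun n => by
      obtain ⟨a, ha⟩ := ((finite_Iic n).image e).bddAbove
      obtain ⟨b, hb⟩ := exists_gt a
      obtain ⟨c, hc⟩ := exists_gt b
      obtain ⟨p, hp⟩ := N_nonempty (h1 x b c hc).2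
      have k1 : p ∈ N y := hy ▸ h3 x c (mem_of_superset hp sdiff_subset)
      intro k2
      refine p.2 k2.compl_mem_cofinite |> Ultrafilter.compl_mem_iff_notMem.1 <| ?_
      refine (biInter_mem (finite_Iic n)).2 (fun i hi => inter_mem k1 ?_)
      refine Ultrafilter.compl_mem_iff_notMem.2 (fun k3 => ?_)
      obtain ⟨m, k4, k5⟩ := p.1.nonempty_of_mem (inter_mem hp
        (N_mono (h1 x (e i) b (lt_of_le_of_lt (ha ⟨i, hi, rfl⟩) hb)).1 k3))
      exact k4.2 k5)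
    obtain ⟨p, hp⟩ := N_nonempty g1
    have k1 : p ∈ U x := hy.ge (mem_of_superset (N_mono (g2 0) hp) sdiff_subset)
    have k2 := h4 x Rᶜ (fun b => by
      obtain ⟨i, rfl⟩ := he b
      exact (g2 i).subset (fun n hn => ⟨not_not.1 hn.2, fun k => k.2 hn.1⟩)) k1
    exact Ultrafilter.compl_mem_iff_notMem.1 k2 hp

theorem main : ∃ 𝒜 : Set (Set NS), (∀ U ∈ 𝒜, U = interior (closure U) ∧ ¬ IsCompact U) ∧
    (∀ U ∈ 𝒜, ∀ V ∈ 𝒜, U ≠ V → IsCompact (U ∩ V)) ∧ #𝒜 = 2 ^ (ℵ₁ : Cardinal.{0}) := by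
  have h0 : ∀ (W : Type) (U : (W → Bool) → Set NS) (S : Set (W → Bool)), Function.Injective U →
      (∀ x, U x = interior (closure (U x))) → (∀ x y, x ≠ y → IsCompact (U x ∩ U y)) →
      (∀ x ∈ S, ¬ IsCompact (U x)) → #S = 2 ^ (ℵ₁ : Cardinal.{0}) →
      ∃ 𝒜 : Set (Set NS), (∀ U ∈ 𝒜, U = interior (closure U) ∧ ¬ IsCompact U) ∧
      (∀ U ∈ 𝒜, ∀ V ∈ 𝒜, U ≠ V → IsCompact (U ∩ V)) ∧ #𝒜 = 2 ^ (ℵ₁ : Cardinal.{0}) := by
    intro W U S g1 g2 g3 g4 g5
    refine ⟨U '' S, ?_, ?_, (mk_image_eq g1).trans g5⟩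
    · rintro _ ⟨x, hx, rfl⟩
      exact ⟨g2 x, g4 x hx⟩
    · rintro _ ⟨x, hx, rfl⟩ _ ⟨y, hy, rfl⟩ hxy
      exact g3 x y (fun k => hxy (congrArg U k))
  rcases (power_le_power_left two_ne_zero aleph0_lt_aleph_one.le :
    (2 : Cardinal.{0}) ^ ℵ₀ ≤ 2 ^ ℵ₁).lt_or_eq with h | h
  · have := noMaxOrder aleph0_lt_aleph_one.le
    obtain ⟨U, g1, g2, g3, -⟩ := system (ℵ₁ : Cardinal.{0}).ord.ToType (fun a => by
      have k := mk_Iio_lt a (by simp)
      rw [mk_ord_toType] at k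
      exact le_aleph0_iff_set_countable.1 (Order.lt_succ_iff.1 (lt_of_lt_of_eq k succ_aleph0.symm)))
    refine h0 _ U {x | IsCompact (U x)}ᶜ g1 g2 g3 (fun x hx => hx) ?_
    have k0 : #((ℵ₁ : Cardinal.{0}).ord.ToType → Bool) = 2 ^ ℵ₁ := by
      rw [← power_def, mk_bool, mk_ord_toType]
    have : Infinite ((ℵ₁ : Cardinal.{0}).ord.ToType → Bool) :=
      infinite_iff.2 (k0 ▸ (aleph0_lt_aleph_one.trans (cantor _)).le)
    rw [mk_compl_of_infinite, k0]
    rw [k0]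
    refine lt_of_le_of_lt ?_ h
    choose y hy using fun x : {x | IsCompact (U x)} => eq_N (g2 x ▸ isOpen_interior) x.2
    refine (mk_le_of_injective (f := y) (fun a b hab => Subtype.ext (g1 ?_))).trans (by simp)
    rw [hy a, hy b, hab]
  · obtain ⟨U, g1, g2, g3, g4⟩ := system ℕ (fun a => to_countable _)
    refine h0 _ U univ g1 g2 g3 (fun x _ => g4 inferInstance inferInstance x) ?_
    rw [mk_univ, ← power_def, mk_bool, mk_nat, h]

theorem fin_of_N {y z : Set ℕ} (h : N y ⊆ N z) : (y \ z).Finite := by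
  by_contra g
  obtain ⟨p, hp⟩ := N_nonempty g
  obtain ⟨n, g1, g2⟩ := p.1.nonempty_of_mem (inter_mem hp (h (mem_of_superset hp sdiff_subset)))
  exact g1.2 g2

theorem chain (κ : Cardinal.{0}) (hκ : ℵ₀ ≤ κ) (𝒜 : Set (Set NS))
    (h1 : ∀ U ∈ 𝒜, IsOpen U ∧ ¬ IsCompact U)
    (h2 : ∀ U ∈ 𝒜, ∀ V ∈ 𝒜, U ≠ V → IsCompact (U ∩ V)) (h3 : 2 ^ κ < #𝒜) :
    ∃ y : (Order.succ κ).ord.ToType → Set ℕ,
      ∀ a b, a < b → (y a \ y b).Finite ∧ (y b \ y a).Infinite := by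
  have := ns_compact
  have h4 : ∃ U ∈ 𝒜, ∀ D : Set (Set ℕ), #D ≤ κ → (∀ d ∈ D, N d ⊆ U) →
      ∃ y, N y ⊆ U ∧ ∀ d ∈ D, N d ⊆ N y := by
    by_contra g
    push Not at g
    choose D g1 g2 g3 using fun U : 𝒜 => g U U.2
    refine absurd h3 (not_lt.2 ((mk_le_of_injective (β := {t : Set (Set ℕ) // #t ≤ κ})
      (f := fun U => ⟨D U, g1 U⟩) (fun U V hUV => ?_)).trans ?_))
    · by_contra g4
      obtain ⟨y, hy⟩ := eq_N ((h1 U U.2).1.inter (h1 V V.2).1)
        (h2 U U.2 V V.2 (fun k => g4 (Subtype.ext k)))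
      obtain ⟨d, k1, k2⟩ := g3 U y (hy ▸ inter_subset_left)
      exact k2 (hy ▸ subset_inter (g2 U d k1) (g2 V d (Subtype.mk.inj hUV ▸ k1)))
    · refine (mk_bounded_set_le_of_infinite _ κ).trans (le_of_eq ?_)
      rw [mk_set, mk_nat, ← power_mul, mul_eq_right hκ hκ aleph0_ne_zero]
  obtain ⟨U, hU, h5⟩ := h4
  have h6 : ∀ D : Set (Set ℕ), ∃ y, #D ≤ κ → (∀ d ∈ D, N d ⊆ U) →
      N y ⊆ U ∧ ∀ d ∈ D, N d ⊆ N y ∧ ¬ N y ⊆ N d := by
    intro D
    by_cases g : #D ≤ κ ∧ ∀ d ∈ D, N d ⊆ U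
    swap
    · exact ⟨∅, fun g1 g2 => absurd ⟨g1, g2⟩ g⟩
    obtain ⟨y, g1, g2⟩ := h5 D g.1 g.2
    obtain ⟨p, g3, g4⟩ := exists_of_ssubset (ssubset_of_subset_of_ne g1
      (fun k => (h1 U hU).2 (k ▸ (N_closed y).isCompact)))
    obtain ⟨V, g5, g6⟩ := isOpen_induced_iff.1 (h1 U hU).1
    obtain ⟨_, ⟨z, rfl⟩, g7, g8⟩ := ultrafilterBasis_is_basis.exists_subset_of_mem_open
      (show p.1 ∈ V from g6.ge g3) g5
    refine ⟨y ∪ z, fun _ _ => ⟨fun r hr => (Ultrafilter.union_mem_iff.1 hr).elim (fun k => g1 k)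
      (fun k => g6.le (g8 k)), fun d hd => ⟨fun r hr => Ultrafilter.union_mem_iff.2
      (Or.inl (g2 d hd hr)), fun k => g4 (g2 d hd (k (Ultrafilter.union_mem_iff.2 (Or.inr g7))))⟩⟩⟩
  choose nx hnx using h6
  let y : (Order.succ κ).ord.ToType → Set ℕ :=
    wellFounded_lt.fix (fun a r => nx (range (fun b : Iio a => r b b.2)))
  have hy : ∀ a, y a = nx (range (fun b : Iio a => y b)) := fun a => wellFounded_lt.fix_eq _ a
  have h7 : ∀ a : (Order.succ κ).ord.ToType, #(range (fun b : Iio a => y b)) ≤ κ := by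
    intro a
    have k := mk_Iio_lt a (by simp)
    rw [mk_ord_toType] at k
    exact mk_range_le.trans (Order.lt_succ_iff.1 k)
  have h8 : ∀ a, N (y a) ⊆ U := by
    intro a
    induction a using (wellFounded_lt (α := (Order.succ κ).ord.ToType)).induction with
    | _ a ih =>
    rw [hy]
    exact (hnx _ (h7 a) (by rintro _ ⟨b, rfl⟩; exact ih b b.2)).1
  refine ⟨y, fun a b hab => ?_⟩
  have h9 := (hnx _ (h7 b) (by rintro _ ⟨c, rfl⟩; exact h8 c)).2 _ ⟨⟨a, hab⟩, rfl⟩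
  rw [← hy] at h9
  exact ⟨fin_of_N h9.1, fun k => h9.2 (N_mono k)⟩

end Pool.Agent.H25.NStarAD
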