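import Mathlib

/-! Point-finite families of open sets in powers of a function space. -/

set_option autoImplicit false

namespace Pool.Agent.H25.PFin

open Set Filter Topology Cardinal

universe u

theorem sun {α ι : Type u} {m : ℕ} (A : Set α) (hA : A.Infinite) (e : α → Fin m → ι)
    (he : ∀ a ∈ A, Function.Injective (e a)) :
    ∃ c : ι → ℕ, {a | a ∈ A ∧ ∀ l, c (e a l) = l}.Infinite := by
  classical
  have : (cofinite ⊓ 𝓟 A).NeBot := hA.cofinite_inf_principal_neBot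
  let v := Ultrafilter.of (cofinite ⊓ 𝓟 A)
  have v1 : (v : Filter α) ≤ cofinite := (Ultrafilter.of_le _).trans inf_le_left
  have v2 : A ∈ v := le_principal_iff.1 ((Ultrafilter.of_le _).trans inf_le_right)
  obtain ⟨f, f1, f2⟩ := exists_seq_of_forall_finset_exists
    (fun a => a ∈ A ∧ ∀ l, ∀ h : ∃ i, ∀ᶠ b in (v : Filter α), e b l = i, e a l = h.choose)
    (fun b a => a ≠ b ∧ ∀ l, (¬ ∃ i, ∀ᶠ b in (v : Filter α), e b l = i) → ∀ l', e a l ≠ e b l')
    (fun s _ => by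
      have h1 : ∀ᶠ a in (v : Filter α), ∀ l, ∀ h : ∃ i, ∀ᶠ b in (v : Filter α), e b l = i,
          e a l = h.choose := eventually_all.2 fun l => eventually_all.2 fun h => h.choose_spec
      have h2 : ∀ᶠ a in (v : Filter α), ∀ b ∈ s, a ≠ b ∧ ∀ l,
          (¬ ∃ i, ∀ᶠ b in (v : Filter α), e b l = i) → ∀ l', e a l ≠ e b l' :=
        (eventually_all_finset s).2 fun b _ => Eventually.and (v1 (finite_singleton b).compl_mem_cofinite)
          (eventually_all.2 fun l => eventually_all.2 fun h => eventually_all.2 fun l' =>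
            Ultrafilter.eventually_not.2 fun h' => h ⟨_, h'⟩)
      exact ((h1.and h2).and v2).exists.imp fun a ha => ⟨⟨ha.2, ha.1.1⟩, ha.1.2⟩)
  have key : ∀ n n' l l', n' < n → e (f n) l = e (f n') l' → l = l' := by
    intro n n' l l' hn h
    by_cases hc : ∃ i, ∀ᶠ b in (v : Filter α), e b l = i
    · exact he _ (f1 n').1 (((f1 n').2 l hc).trans (((f1 n).2 l hc).symm.trans h))
    · exact absurd h ((f2 n' n hn).2 l hc l')
  have key' : ∀ n n' l l', e (f n) l = e (f n') l' → l = l' := by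
    intro n n' l l' h
    rcases lt_trichotomy n n' with hn | rfl | hn
    · exact (key _ _ _ _ hn h.symm).symm
    · exact he _ (f1 n).1 h
    · exact key _ _ _ _ hn h
  refine ⟨fun i => if h : ∃ l : Fin m, ∃ n, e (f n) l = i then h.choose else 0,
    infinite_of_injective_forall_mem (f := f) (fun n n' h => ?_) fun n => ⟨(f1 n).1, fun l => ?_⟩⟩
  · rcases lt_trichotomy n n' with hn | hn | hn
    · exact absurd h.symm (f2 _ _ hn).1
    · exact hn
    · exact absurd h (f2 _ _ hn).1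
  · have h : ∃ l' : Fin m, ∃ n', e (f n') l' = e (f n) l := ⟨l, n, rfl⟩
    obtain ⟨n', hn'⟩ := h.choose_spec
    simp only [dif_pos h]
    rw [key' _ _ _ _ hn']

theorem bump {s : ℕ} (q : Fin s → ℝ) : ∃ φ : ℝ → ℝ, Continuous φ ∧
    ∀ (n : Fin s) (t : ℝ), |t - (n : ℕ)| < 1 / 3 → φ t = q n := by
  refine ⟨fun t => ∑ k, q k * max 0 (min 1 (2 - 3 * |t - (k : ℕ)|)), by fun_prop, fun n t ht => ?_⟩
  beta_reduce
  rw [Finset.sum_eq_single n]
  · rw [min_eq_left (by linarith), max_eq_right zero_le_one, mul_one]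
  · intro k _ hk
    have h1 : (1 : ℝ) ≤ |((n : ℕ) : ℝ) - (k : ℕ)| := by
      have : ((n : ℕ) : ℤ) - (k : ℕ) ≠ 0 := fun h => hk (Fin.ext (by omega))
      exact_mod_cast Int.one_le_abs this
    have h2 := abs_sub_le ((n : ℕ) : ℝ) t (k : ℕ)
    rw [abs_sub_comm _ t] at h2
    rw [max_eq_left ((min_le_right _ _).trans (by linarith)), mul_zero]
  · simp

variable {X : Type u} [TopologicalSpace X]

theorem interp [T35Space X] {s : ℕ} (x : Fin s → X) (hx : Function.Injective x) :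
    ∃ f : X → ℝ, Continuous f ∧ ∀ n, f (x n) = (n : ℕ) := by
  choose g g1 g2 g3 using fun n => CompletelyRegularSpace.completely_regular (x n) (x '' {n}ᶜ)
    ((toFinite _).image x).isClosed (fun ⟨k, h1, h2⟩ => h1 (hx h2))
  refine ⟨fun z => ∑ k : Fin s, ((k : ℕ) : ℝ) * (1 - g k z), by fun_prop, fun n => ?_⟩
  beta_reduce
  rw [Finset.sum_eq_single n]
  · simp [g2]
  · intro k _ hk
    simp [g3 k ⟨n, hk.symm, rfl⟩]
  · simp

abbrev Cp (X : Type u) [TopologicalSpace X] := {f : X → ℝ // Continuous f}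

theorem grid {ι : Type u} {U : Set (ι → Cp X)} (h1 : IsOpen U) (h2 : U.Nonempty) :
    ∃ (t : Σ m s : ℕ, Fin m → Fin s → ℚ) (e : Fin t.1 → ι) (x : Fin t.2.1 → X),
      Function.Injective e ∧ Function.Injective x ∧
      ∀ F : ι → Cp X, (∀ l n, (F (e l)).1 (x n) = t.2.2 l n) → F ∈ U := by
  classical
  obtain ⟨G, hG⟩ := h2
  obtain ⟨I, u, a1, a2⟩ := isOpen_pi_iff.1 h1 G hG
  have h3 : ∀ i ∈ I, ∃ (J : Finset X) (w : X → Set ℝ), (∀ z ∈ J, IsOpen (w z) ∧ (G i).1 z ∈ w z) ∧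
      ∀ f : Cp X, f.1 ∈ (J : Set X).pi w → f ∈ u i := by
    intro i hi
    obtain ⟨V, b1, b2⟩ := isOpen_induced_iff.1 (a1 i hi).1
    obtain ⟨J, w, c1, c2⟩ := isOpen_pi_iff.1 b1 (G i).1
      (show G i ∈ Subtype.val ⁻¹' V from b2 ▸ (a1 i hi).2)
    exact ⟨J, w, c1, fun f hf => b2 ▸ c2 hf⟩
  choose! J w b1 b2 using h3
  have h4 : ∀ i z, ∃ q : ℚ, i ∈ I → z ∈ J i → (q : ℝ) ∈ w i z := by
    intro i z
    by_cases h : i ∈ I ∧ z ∈ J i
    · obtain ⟨q, hq⟩ := Rat.denseRange_cast.exists_mem_open (b1 i h.1 z h.2).1 ⟨_, (b1 i h.1 z h.2).2⟩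
      exact ⟨q, fun _ _ => hq⟩
    · exact ⟨0, fun a b => absurd ⟨a, b⟩ h⟩
  choose q hq using h4
  refine ⟨⟨_, _, fun l n => q (I.equivFin.symm l) ((I.biUnion J).equivFin.symm n)⟩,
    fun l => I.equivFin.symm l, fun n => (I.biUnion J).equivFin.symm n,
    Subtype.val_injective.comp (Equiv.injective _), Subtype.val_injective.comp (Equiv.injective _),
    fun F hF => a2 fun i hi => b2 i hi _ fun z hz => ?_⟩
  have := hF (I.equivFin ⟨i, hi⟩) ((I.biUnion J).equivFin ⟨z, Finset.mem_biUnion.2 ⟨i, hi, hz⟩⟩)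
  simp only [Equiv.symm_apply_apply] at this
  rw [this]
  exact hq i z hi hz

def S (Z : Type u) [TopologicalSpace Z] : Set Cardinal.{u} := {c | ∃ 𝒰 : Set (Set Z),
  (∀ U ∈ 𝒰, IsOpen U ∧ U.Nonempty) ∧ (∀ y : Z, {U | U ∈ 𝒰 ∧ y ∈ U}.Finite) ∧ c = #𝒰}

theorem S_bdd (Z : Type u) [TopologicalSpace Z] : BddAbove (S Z) :=
  ⟨#(Set Z), by rintro _ ⟨𝒰, -, -, rfl⟩; exact mk_set_le _⟩

theorem S_ne (Z : Type u) [TopologicalSpace Z] : (S Z).Nonempty :=
  ⟨_, ∅, by simp, by simp, rfl⟩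

theorem easy {Z W : Type u} [TopologicalSpace Z] [TopologicalSpace W] (p : W → Z)
    (h1 : Continuous p) (h2 : Function.Surjective p) : S Z ⊆ S W := by
  rintro _ ⟨𝒰, a1, a2, rfl⟩
  refine ⟨preimage p '' 𝒰, ?_, fun y => ((a2 (p y)).image (preimage p)).subset ?_,
    (mk_image_eq h2.preimage_injective).symm⟩
  · rintro _ ⟨U, hU, rfl⟩
    exact ⟨(a1 U hU).1.preimage h1, (a1 U hU).2.preimage h2⟩
  · rintro _ ⟨⟨U, hU, rfl⟩, hy⟩
    exact ⟨U, ⟨hU, hy⟩, rfl⟩

theorem inf [Nonempty X] : ℵ₀ ≤ sSup (S (Cp X)) := by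
  obtain ⟨x⟩ := ‹Nonempty X›
  let V : ℕ → Set (Cp X) := fun n => {f | (n : ℝ) < f.1 x}
  have hV : ∀ n m : ℕ, (⟨fun _ => (m : ℝ), continuous_const⟩ : Cp X) ∈ V n ↔ n < m :=
    fun n m => Nat.cast_lt (α := ℝ)
  have hi : Function.Injective V := fun n m h => by
    have h1 := hV n (n + 1)
    have h2 := hV m (m + 1)
    rw [h, hV] at h1
    rw [← h, hV] at h2
    omega
  refine le_trans ?_ (le_csSup (S_bdd _) ⟨range V, ?_, fun y => ?_, rfl⟩)
  · exact infinite_iff.1 (infinite_range_of_injective hi).to_subtype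
  · rintro _ ⟨n, rfl⟩
    exact ⟨isOpen_lt continuous_const ((continuous_apply x).comp continuous_subtype_val),
      _, (hV n (n + 1)).2 n.lt_succ_self⟩
  · obtain ⟨k, hk⟩ := exists_nat_gt (y.1 x)
    refine ((finite_Iic k).image V).subset ?_
    rintro _ ⟨⟨n, rfl⟩, hn⟩
    exact ⟨n, (Nat.cast_lt.1 (lt_trans hn hk)).le, rfl⟩

theorem main [T35Space X] (ι : Type u) [Nonempty ι] : sSup (S (Cp X)) = sSup (S (ι → Cp X)) := by
  refine le_antisymm (csSup_le_csSup (S_bdd _) (S_ne _) (easy (fun F => F (Classical.arbitrary ι))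
    (continuous_apply _) fun f => ⟨fun _ => f, rfl⟩)) ?_
  rcases isEmpty_or_nonempty X with hX | hX
  · exact csSup_le_csSup (S_bdd _) (S_ne _) (easy (fun f _ => f) (by fun_prop)
      fun F => ⟨⟨fun _ => 0, continuous_const⟩, funext fun _ => Subtype.ext (funext fun x => hX.elim x)⟩)
  refine csSup_le (S_ne _) ?_
  rintro _ ⟨𝒰, a1, a2, rfl⟩
  have l0 : ℵ₀ ≤ sSup (S (Cp X)) := inf
  choose t ht using fun U : 𝒰 => grid (a1 U U.2).1 (a1 U U.2).2
  suffices h : ∀ θ, #(t ⁻¹' {θ}) ≤ sSup (S (Cp X)) by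
    refine (mk_le_mk_mul_of_mk_preimage_le (ULift.up.{u} ∘ t) (c := sSup (S (Cp X)))
      fun θ => le_trans (mk_le_mk_of_subset fun U hU => ?_) (h θ.down)).trans
      (mul_le_of_le l0 (mk_le_aleph0.trans l0) le_rfl)
    exact congrArg ULift.down hU
  intro θ
  choose e x b1 b2 b3 using fun U : t ⁻¹' {θ} => (show t U = θ from U.2) ▸ ht U
  let W : t ⁻¹' {θ} → Set (Cp X) := fun U => {f | ∀ n, |f.1 (x U n) - (n : ℕ)| < 1 / 3}
  have w1 : ∀ f, {U | f ∈ W U}.Finite := by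
    intro f
    by_contra hh
    obtain ⟨c, hc⟩ := sun _ hh e fun U _ => b1 U
    choose φ φ1 φ2 using fun l : Fin θ.1 => bump fun n => (θ.2.2 l n : ℝ)
    let F : ι → Cp X := fun i => if h : c i < θ.1 then ⟨φ ⟨c i, h⟩ ∘ f.1, (φ1 _).comp f.2⟩ else f
    refine hc (Finite.of_finite_image ((a2 F).subset ?_)
      (Subtype.val_injective.comp Subtype.val_injective).injOn)
    rintro _ ⟨U, hU, rfl⟩
    refine ⟨U.1.2, b3 U F fun l n => ?_⟩
    simp only [F, hU.2 l, l.2, dif_pos]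
    exact φ2 l n _ (hU.1 n)
  have w2 : ∀ U, IsOpen (W U) ∧ (W U).Nonempty := fun U => by
    obtain ⟨f, f1, f2⟩ := interp (x U) (b2 U)
    refine ⟨?_, ⟨f, f1⟩, fun n => by simp [f2]⟩
    simp only [W, ofPred_forall]
    exact isOpen_iInter_of_finite fun n => isOpen_lt
      (((continuous_apply _).comp continuous_subtype_val).sub continuous_const).abs continuous_const
  have w3 : #(range W) ≤ sSup (S (Cp X)) := le_csSup (S_bdd _) ⟨range W, by
    rintro _ ⟨U, rfl⟩; exact w2 U, fun y => ((w1 y).image W).subset (by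
      rintro _ ⟨⟨U, rfl⟩, h⟩; exact ⟨U, h, rfl⟩), rfl⟩
  refine (mk_le_mk_mul_of_mk_preimage_le (c := ℵ₀) (rangeFactorization W) ?_).trans
    (mul_le_of_le l0 w3 l0)
  rintro ⟨_, U, rfl⟩
  obtain ⟨f, hf⟩ := (w2 U).2
  refine ((w1 f).subset fun V hV => ?_).lt_aleph0.le
  have : W V = W U := congrArg Subtype.val hV
  exact this.ge hf

end Pool.Agent.H25.PFin
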