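import Mathlib

set_option autoImplicit false

open Cardinal Set Filter

namespace Pool.Agent.H25.Polar

/-- no family of size at most `k` is dominating -/
def BelowD (k : Cardinal.{0}) : Prop :=
  ∀ F : Set (ℕ → ℕ), #F ≤ k → ∃ g : ℕ → ℕ, ∀ f ∈ F, ¬ ∀ᶠ n in atTop, g n ≤ f n

theorem mono_hull (f : ℕ → ℕ) : ∃ h : ℕ → ℕ, Monotone h ∧ ∀ n, f n ≤ h n ∧ n < h n := by
  refine ⟨fun n => (Finset.range (n + 1)).sup f + n + 1, fun a b hab => ?_, fun n => ⟨?_, by simp only; omega⟩⟩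
  · have : (Finset.range (a + 1)).sup f ≤ (Finset.range (b + 1)).sup f :=
      Finset.sup_mono (Finset.range_mono (by omega))
    simp only
    omega
  · have : f n ≤ (Finset.range (n + 1)).sup f := Finset.le_sup (by simp)
    simp only
    omega

theorem intervals {k : Cardinal.{0}} (hk : BelowD k) {I : Type} (hI : #I ≤ k) (f : I → ℕ → ℕ) :
    ∃ j : ℕ → ℕ, StrictMono j ∧ j 0 = 0 ∧ ∀ i N, ∃ n, N ≤ n ∧ f i (j n) ≤ j (n + 1) := by
  choose h h1 h2 using fun i => mono_hull (f i)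
  obtain ⟨g0, hg0⟩ := hk (range (fun i => h i ∘ h i)) (mk_range_le.trans hI)
  obtain ⟨g, g1, g2⟩ := mono_hull g0
  let j : ℕ → ℕ := fun n => g^[n] 0
  have hj : ∀ n, j (n + 1) = g (j n) := fun n => Function.iterate_succ_apply' _ _ _
  have hj1 : StrictMono j := strictMono_nat_of_lt_succ (fun n => by rw [hj]; exact (g2 _).2)
  refine ⟨j, hj1, rfl, fun i N => ?_⟩
  have h3 := hg0 _ ⟨i, rfl⟩
  rw [not_eventually, frequently_atTop] at h3
  obtain ⟨x, hx1, hx2⟩ := h3 (j N)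
  have hx3 : h i (h i x) < g x := lt_of_lt_of_le (not_le.1 hx2) (g2 x).1
  have h4 : ∃ n, x < j (n + 1) := ⟨x, lt_of_lt_of_le (Nat.lt_succ_self x) (hj1.le_apply)⟩
  classical
  let n := Nat.find h4
  have h5 : x < j (n + 1) := Nat.find_spec h4
  have h6 : N ≤ n := by
    by_contra h7
    exact absurd (lt_of_lt_of_le h5 (hj1.monotone (show n + 1 ≤ N by omega))) (not_lt.2 hx1)
  have h7 : j n ≤ x := by
    rcases Nat.eq_zero_or_pos n with h8 | h8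
    · rw [h8]
      exact Nat.zero_le _
    · have := Nat.find_min h4 (show n - 1 < n by omega)
      rw [show n - 1 + 1 = n by omega] at this
      exact not_lt.1 this
  by_cases h8 : h i (j n) ≤ j (n + 1)
  · exact ⟨n, h6, (h2 i _).1.trans h8⟩
  · refine ⟨n + 1, by omega, (h2 i _).1.trans ?_⟩
    rw [hj (n + 1)]
    calc h i (j (n + 1)) ≤ h i (h i (j n)) := h1 i (not_le.1 h8).le
      _ ≤ h i (h i x) := h1 i (h1 i h7)
      _ ≤ g x := hx3.le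
      _ ≤ g (j (n + 1)) := g1 h5.le

theorem block {j : ℕ → ℕ} (hj : StrictMono j) (h0 : j 0 = 0) :
    ∃ p : ℕ → ℕ, ∀ x n, p x = n ↔ j n ≤ x ∧ x < j (n + 1) := by
  classical
  have h4 : ∀ x, ∃ n, x < j (n + 1) := fun x =>
    ⟨x, lt_of_lt_of_le (Nat.lt_succ_self x) (hj.le_apply)⟩
  refine ⟨fun x => Nat.find (h4 x), fun x n => ?_⟩
  rw [Nat.find_eq_iff]
  constructor
  · rintro ⟨h1, h2⟩
    refine ⟨?_, h1⟩
    rcases Nat.eq_zero_or_pos n with h8 | h8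
    · rw [h8, h0]
      exact Nat.zero_le _
    · have := h2 (n - 1) (by omega)
      rw [show n - 1 + 1 = n by omega] at this
      exact not_lt.1 this
  · rintro ⟨h1, h2⟩
    exact ⟨h2, fun m hm => not_lt.2 ((hj.monotone (show m + 1 ≤ n by omega)).trans h1)⟩

/-- no nonprincipal ultrafilter has a base of size at most `k` -/
def BelowU (k : Cardinal.{0}) : Prop :=
  ∀ (U : Ultrafilter ℕ) (B : Set (Set ℕ)), (∀ n, U ≠ pure n) → (∀ b ∈ B, b ∈ U) →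
    (∀ A ∈ U, ∃ b ∈ B, b ⊆ A) → k < #B

theorem split {k : Cardinal.{0}} (hk0 : ℵ₀ ≤ k) (hk : BelowD k) (hu : BelowU k) {I : Type}
    (hI : #I ≤ k) (A : I → Set ℕ) (hA : ∀ i, (A i).Infinite) :
    ∃ T : Set ℕ, ∀ i, (A i ∩ T).Infinite ∧ (A i \ T).Infinite := by
  classical
  by_contra h1
  push Not at h1
  have h2 : ∀ (s : Finset I) (x : ℕ), ∃ y, ∀ i ∈ s, ∃ z ∈ A i, x ≤ z ∧ z < y := by
    intro s x
    choose z hz1 hz2 using fun i => (hA i).exists_gt x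
    exact ⟨s.sup z + 1, fun i hi => ⟨z i, hz1 i, (hz2 i).le,
      Nat.lt_succ_of_le (Finset.le_sup hi)⟩⟩
  choose f hf using h2
  have hF : #(Finset I) ≤ k := by
    rcases finite_or_infinite I with h | h
    · exact mk_le_aleph0.trans hk0
    · rw [mk_finset_of_infinite]
      exact hI
  obtain ⟨j, j1, j2, j3⟩ := intervals hk hF f
  obtain ⟨p, hp⟩ := block j1 j2
  let b : Finset I × ℕ → Set ℕ := fun q => {n | q.2 ≤ n ∧ ∀ i ∈ q.1, n ∈ p '' A i}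
  have hb : ∀ q, (b q).Nonempty := by
    rintro ⟨s, N⟩
    obtain ⟨n, hn1, hn2⟩ := j3 s N
    refine ⟨n, hn1, fun i hi => ?_⟩
    obtain ⟨z, hz1, hz2, hz3⟩ := hf s (j n) i hi
    exact ⟨z, hz1, (hp z n).2 ⟨hz2, lt_of_lt_of_le hz3 hn2⟩⟩
  have hdir : Directed (· ≥ ·) (fun q => 𝓟 (b q)) := by
    rintro ⟨s, N⟩ ⟨t, M⟩
    refine ⟨(s ∪ t, max N M), principal_mono.2 ?_, principal_mono.2 ?_⟩
    · intro n hn
      exact ⟨(le_max_left _ _).trans hn.1, fun i hi => hn.2 i (Finset.mem_union_left _ hi)⟩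
    · intro n hn
      exact ⟨(le_max_right _ _).trans hn.1, fun i hi => hn.2 i (Finset.mem_union_right _ hi)⟩
  let G : Filter ℕ := ⨅ q, 𝓟 (b q)
  have hG : ∀ Z, Z ∈ G ↔ ∃ q, b q ⊆ Z := by
    intro Z
    rw [mem_iInf_of_directed hdir]
    simp only [mem_principal]
  have hfin : ∀ (i : I) (Z : Set ℕ), (A i \ p ⁻¹' Z).Finite → Z ∈ G := by
    intro i Z hZ
    obtain ⟨N, hN⟩ := (hZ.image p).bddAbove
    refine (hG Z).2 ⟨({i}, N + 1), fun n hn => ?_⟩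
    obtain ⟨z, hz1, rfl⟩ := hn.2 i (Finset.mem_singleton_self i)
    by_contra h3
    have h4 : p z ≤ N := hN ⟨z, ⟨hz1, h3⟩, rfl⟩
    have h5 : N + 1 ≤ p z := hn.1
    omega
  have hG2 : ∀ Z : Set ℕ, Zᶜ ∉ G ↔ Z ∈ G := by
    intro Z
    constructor
    · intro h3
      obtain ⟨i, hi⟩ := h1 (p ⁻¹' Z)
      by_cases h4 : (A i ∩ p ⁻¹' Z).Infinite
      · exact hfin i Z (hi h4)
      · exact absurd (hfin i Zᶜ (by simpa [sdiff_eq] using not_infinite.1 h4)) h3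
    · intro h3 h4
      obtain ⟨q, hq⟩ := (hG _).1 (inter_mem h3 h4)
      obtain ⟨n, hn⟩ := hb q
      exact (hq hn).2 (hq hn).1
  let U : Ultrafilter ℕ := Ultrafilter.ofComplNotMemIff G hG2
  have h3 := hu U (range b) (fun n hn => ?_) ?_ ?_
  · refine absurd h3 (not_lt.2 (mk_range_le.trans ?_))
    rw [mk_prod, lift_id, lift_id, mk_nat]
    exact le_trans (mul_le_mul' hF hk0) (mul_eq_self hk0).le
  · have h4 : b (∅, n + 1) ∈ U := (hG _).2 ⟨_, subset_rfl⟩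
    rw [hn] at h4
    have h5 : n + 1 ≤ n := (Ultrafilter.mem_pure.1 h4).1
    omega
  · rintro _ ⟨q, rfl⟩
    exact (hG _).2 ⟨_, subset_rfl⟩
  · intro Z hZ
    obtain ⟨q, hq⟩ := (hG Z).1 hZ
    exact ⟨b q, ⟨q, rfl⟩, hq⟩

theorem belowD_aleph0 : BelowD ℵ₀ := by
  intro F hF
  obtain ⟨e, he⟩ : ∃ e : ℕ → ℕ → ℕ, F ⊆ range e := by
    rcases F.eq_empty_or_nonempty with h | h
    · exact ⟨fun _ _ => 0, by simp [h]⟩
    · obtain ⟨e, he⟩ := (le_aleph0_iff_set_countable.1 hF).exists_eq_range h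
      exact ⟨e, he.le⟩
  refine ⟨fun n => (Finset.range (n + 1)).sup (fun i => e i n) + 1, fun f hf h => ?_⟩
  obtain ⟨i, rfl⟩ := he hf
  obtain ⟨N, hN⟩ := eventually_atTop.1 h
  have h1 := hN (max N i) (le_max_left _ _)
  have h2 : e i (max N i) ≤ (Finset.range (max N i + 1)).sup (fun i' => e i' (max N i)) :=
    Finset.le_sup (f := fun i' => e i' (max N i))
      (Finset.mem_range.2 (Nat.lt_succ_of_le (le_max_right _ _)))
  simp only at h1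
  omega

theorem main {L : Type} [LinearOrder L] (e : L → ℕ → ℕ)
    (he : ∀ g : ℕ → ℕ, ∃ a, ∀ᶠ n in atTop, g n ≤ e a n)
    (hL : ∀ a : L, ∃ k, ℵ₀ ≤ k ∧ BelowD k ∧ BelowU k ∧ #(Iic a) ≤ k) :
    ∃ S : L → Set ℕ, ∀ B : Set ℕ, B.Infinite → ∃ b, ∀ a, b ≤ a →
      (∃ x ∈ B, x ∈ S a) ∧ ∃ x ∈ B, x ∉ S a := by
  have h1 : ∀ a : L, ∃ S : Set ℕ, ∀ b, b ≤ a → ∀ N,
      (∃ x, N ≤ x ∧ ∀ y, x ≤ y → y < e b x → y ∈ S) ∧
      (∃ x, N ≤ x ∧ ∀ y, x ≤ y → y < e b x → y ∉ S) := by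
    intro a
    obtain ⟨k, k0, k1, k2, k3⟩ := hL a
    obtain ⟨j, j1, j2, j3⟩ := intervals k1 k3 (fun b : Iic a => e b)
    obtain ⟨p, hp⟩ := block j1 j2
    obtain ⟨T, hT⟩ := split k0 k1 k2 k3 (fun b : Iic a => {n | e b (j n) ≤ j (n + 1)})
      (fun b => infinite_of_forall_exists_gt (fun N => by
        obtain ⟨n, hn1, hn2⟩ := j3 b (N + 1)
        exact ⟨n, hn2, hn1⟩))
    refine ⟨p ⁻¹' T, fun b hb N => ⟨?_, ?_⟩⟩
    · obtain ⟨n, hn1, hn2⟩ := (hT ⟨b, hb⟩).1.exists_gt N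
      refine ⟨j n, hn2.le.trans j1.le_apply, fun y hy1 hy2 => ?_⟩
      have : p y = n := (hp y n).2 ⟨hy1, lt_of_lt_of_le hy2 hn1.1⟩
      rw [mem_preimage, this]
      exact hn1.2
    · obtain ⟨n, hn1, hn2⟩ := (hT ⟨b, hb⟩).2.exists_gt N
      refine ⟨j n, hn2.le.trans j1.le_apply, fun y hy1 hy2 => ?_⟩
      have : p y = n := (hp y n).2 ⟨hy1, lt_of_lt_of_le hy2 hn1.1⟩
      rw [mem_preimage, this]
      exact hn1.2
  choose S hS using h1
  refine ⟨S, fun B hB => ?_⟩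
  choose z hz1 hz2 using fun x => hB.exists_gt x
  obtain ⟨b, hb⟩ := he (fun x => z x + 1)
  obtain ⟨N, hN⟩ := eventually_atTop.1 hb
  refine ⟨b, fun a hab => ⟨?_, ?_⟩⟩
  · obtain ⟨x, hx1, hx2⟩ := (hS a b hab N).1
    exact ⟨z x, hz1 x, hx2 _ (hz2 x).le (hN x hx1)⟩
  · obtain ⟨x, hx1, hx2⟩ := (hS a b hab N).2
    exact ⟨z x, hz1 x, hx2 _ (hz2 x).le (hN x hx1)⟩

end Pool.Agent.H25.Polar
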