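import Mathlib
import Pool.Agent.H25.Polar

set_option autoImplicit false

open Cardinal Set Filter

namespace Pool.Agent.H25.Polar

theorem not_cofinal {k : Cardinal.{0}} (hk0 : ℵ₀ ≤ k) (hk : BelowD k) (U : Ultrafilter ℕ)
    (B : Set (Set ℕ)) (hU : ∀ n, U ≠ pure n) (hB1 : ∀ b ∈ B, b ∈ U)
    (hB2 : ∀ A ∈ U, ∃ b ∈ B, b ⊆ A) (hB3 : #B ≤ k) (F : Set (ℕ → ℕ)) (hF : #F ≤ k) :
    ∃ g : ℕ → ℕ, ∀ f ∈ F, {n | f n < g n} ∈ U := by
  have h1 : ∀ (b : B) (n : ℕ), ∃ m ∈ (b : Set ℕ), n ≤ m := by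
    intro b n
    by_contra h2
    push Not at h2
    have h3 : (b : Set ℕ).Finite := (finite_Iio n).subset h2
    obtain ⟨x, _, hx⟩ := Ultrafilter.eq_pure_of_finite_mem h3 (hB1 b b.2)
    exact hU x hx
  choose nx hn1 hn2 using h1
  obtain ⟨g0, hg0⟩ := hk (range (fun q : F × B => fun n => (q.1 : ℕ → ℕ) (nx q.2 n)))
    (mk_range_le.trans (by
      rw [mk_prod, lift_id, lift_id]
      exact le_trans (mul_le_mul' hF hB3) (mul_eq_self hk0).le))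
  obtain ⟨g, g1, g2⟩ := mono_hull g0
  refine ⟨g, fun f hf => ?_⟩
  by_contra h2
  obtain ⟨b, hb1, hb2⟩ := hB2 _ (Ultrafilter.compl_mem_iff_notMem.2 h2)
  refine hg0 _ ⟨(⟨f, hf⟩, ⟨b, hb1⟩), rfl⟩ (Eventually.of_forall (fun n => ?_))
  exact ((g2 n).1.trans (g1 (hn2 ⟨b, hb1⟩ n))).trans (not_lt.1 (hb2 (hn1 ⟨b, hb1⟩ n)))

theorem belowU_of_singular {d : Cardinal.{0}} (hd0 : ℵ₀ < d) (hd : ∀ k, k < d → BelowD k)
    (hs : d.ord.cof < d) (e : d.ord.ToType → ℕ → ℕ)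
    (he : ∀ g : ℕ → ℕ, ∃ a, ∀ᶠ n in atTop, g n ≤ e a n) (k : Cardinal.{0}) (hk : k < d) :
    BelowU k := by
  intro U B hU hB1 hB2
  by_contra h1
  have hB3 : #B < d := lt_of_le_of_lt (not_lt.1 h1) hk
  obtain ⟨S, hS1, hS2⟩ := Order.exists_cof_eq d.ord.ToType
  rw [Ordinal.cof_toType] at hS2
  have h2 : ∀ a : S, ∃ g : ℕ → ℕ, ∀ f ∈ e '' Iic (a : d.ord.ToType), {n | f n < g n} ∈ U := by
    intro a
    have h3 : #(Iic (a : d.ord.ToType)) < d := by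
      simpa using mk_Iic_lt (a : d.ord.ToType) (by simp) (by simpa using hd0.le)
    exact not_cofinal (k := max (max #B #(Iic (a : d.ord.ToType))) ℵ₀) (le_max_right _ _)
      (hd _ (max_lt (max_lt hB3 h3) hd0)) U B hU hB1 hB2
      (le_max_of_le_left (le_max_left _ _)) _
      (mk_image_le.trans (le_max_of_le_left (le_max_right _ _)))
  choose G hG using h2
  obtain ⟨g, hg⟩ := not_cofinal (k := max (max #B #S) ℵ₀) (le_max_right _ _)
      (hd _ (max_lt (max_lt hB3 (hS2 ▸ hs)) hd0)) U B hU hB1 hB2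
      (le_max_of_le_left (le_max_left _ _)) (range G)
      (mk_range_le.trans (le_max_of_le_left (le_max_right _ _)))
  obtain ⟨a, ha⟩ := he g
  obtain ⟨s, hs1, hs2⟩ := hS1 a
  obtain ⟨N, hN⟩ := eventually_atTop.1 ha
  have h3 := hG ⟨s, hs1⟩ _ ⟨a, hs2, rfl⟩
  have h4 := hg _ ⟨⟨s, hs1⟩, rfl⟩
  have h5 : Iio N ∈ U := by
    refine mem_of_superset (inter_mem h3 h4) (fun n hn => ?_)
    by_contra h6
    exact absurd (lt_trans hn.1 hn.2) (not_lt.2 (hN n (not_lt.1 h6)))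
  obtain ⟨x, _, hx⟩ := Ultrafilter.eq_pure_of_finite_mem (finite_Iio N) h5
  exact hU x hx

end Pool.Agent.H25.Polar
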