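import Mathlib

set_option autoImplicit false

namespace Pool.Agent.H25.PolyDual
open Finset
open scoped Classical

variable {n m : ℕ} (a : Fin m → ℝ) (ψ : Fin m → Fin n → ℕ → ℝ)

def g (H : Fin m) (x : Fin n → ℕ) : ℝ := a H * ∏ j, ψ H j (x j)

def dl (φ : ℕ → ℝ) (l : ℕ) : ℝ := φ l - if l = 0 then 0 else φ (l - 1)

def mu (H : Fin m) (z : Fin n → ℕ) : ℝ := a H * ∏ j, dl (ψ H j) (z j)

theorem dl_sum (φ : ℕ → ℝ) (k : ℕ) : ∑ l ∈ Iic k, dl φ l = φ k := by
  induction k with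
  | zero => simp [dl, show Iic 0 = ({0} : Finset ℕ) from rfl]
  | succ k ih =>
    have : Iic (k + 1) = insert (k + 1) (Iic k) := by ext; simp; omega
    rw [this, sum_insert (by simp), ih]; simp [dl]

theorem g_sum (H : Fin m) (x : Fin n → ℕ) : g a ψ H x = ∑ z ∈ Iic x, mu a ψ H z := by
  have : Iic x = Fintype.piFinset fun j => Iic (x j) := by ext; simp [Pi.le_def]
  simp only [g, mu, ← mul_sum, this]
  rw [← prod_univ_sum (fun j => Iic (x j)) fun j l => dl (ψ H j) l]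
  simp [dl_sum]

structure OK : Prop where
  ha : ∀ H, 0 ≤ a H
  h0 : ∀ H j l, 0 ≤ ψ H j l
  hm : ∀ H j, Monotone (ψ H j)

variable {a ψ}

theorem mu_nn (h : OK a ψ) (H : Fin m) (z : Fin n → ℕ) : 0 ≤ mu a ψ H z := by
  refine mul_nonneg (h.ha H) (prod_nonneg fun j _ => ?_)
  unfold dl
  split_ifs
  · simpa using h.h0 _ _ _
  · exact sub_nonneg.2 (h.hm _ _ (Nat.sub_le _ _))

theorem g_mono (h : OK a ψ) (H : Fin m) {x y : Fin n → ℕ} (e : x ≤ y) : g a ψ H x ≤ g a ψ H y :=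
  mul_le_mul_of_nonneg_left (prod_le_prod (fun _ _ => h.h0 _ _ _) fun j _ => h.hm _ _ (e j)) (h.ha H)

theorem count {ι : Type} (H : Fin m) (b T : Fin n → ℕ) (P : Finset ι) (X : ι → Fin n → ℕ)
    (hP : ∀ p ∈ P, b ≤ X p ∧ X p ≤ T) :
    ∑ p ∈ P, (g a ψ H (X p) - g a ψ H b) =
      ∑ z ∈ (Iic T).filter (¬ · ≤ b), mu a ψ H z * (P.filter (z ≤ X ·)).card := by
  simp only [card_filter, Nat.cast_sum, mul_sum]
  rw [sum_comm]
  refine sum_congr rfl fun p hp => ?_
  obtain ⟨h1, h2⟩ := hP p hp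
  rw [g_sum, g_sum, ← sum_sdiff_eq_sub (Iic_subset_Iic.2 h1)]
  simp only [Nat.cast_ite, Nat.cast_one, Nat.cast_zero, mul_ite, mul_one, mul_zero]
  rw [← sum_filter]
  refine sum_congr ?_ fun _ _ => rfl
  ext z
  simp only [mem_sdiff, mem_Iic, mem_filter]
  exact ⟨fun g => ⟨⟨g.1.trans h2, g.2⟩, g.1⟩, fun g => ⟨g.2, g.1.2⟩⟩

def up (y : Fin n → ℕ) (j e : Fin n) (l : ℕ) : Fin n → ℕ :=
  Function.update (Function.update y j (y j + 1)) e l

theorem g_up (h : OK a ψ) (H : Fin m) (y : Fin n → ℕ) (j e : Fin n) (l : ℕ) (he : e ≠ j)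
    (k : ψ H j (y j + 1) * ψ H e l ≤ ψ H j (y j) * ψ H e (y e)) :
    g a ψ H (up y j e l) ≤ g a ψ H y := by
  refine mul_le_mul_of_nonneg_left ?_ (h.ha H)
  have key : ∀ F : Fin n → ℝ, ∏ i, F i = F j * F e * ∏ i ∈ (univ.erase j).erase e, F i := by
    intro F
    rw [mul_assoc, mul_prod_erase _ F (by simp [he]), mul_prod_erase _ F (mem_univ j)]
  rw [key, key fun i => ψ H i (y i)]
  have : ∏ i ∈ (univ.erase j).erase e, ψ H i (up y j e l i) =
      ∏ i ∈ (univ.erase j).erase e, ψ H i (y i) := by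
    refine prod_congr rfl fun i hi => ?_
    simp only [mem_erase] at hi
    simp [up, hi.1, hi.2.1]
  rw [this]
  refine mul_le_mul_of_nonneg_right ?_ (prod_nonneg fun _ _ => h.h0 _ _ _)
  simpa [up, he.symm] using k

def pr (Z : Finset (Fin n → ℕ)) : Finset (Fin n × ℕ) :=
  (univ ×ˢ Z).image fun p => (p.1, p.2 p.1)

theorem mem_pr {Z : Finset (Fin n → ℕ)} {j : Fin n} {l : ℕ} : (j, l) ∈ pr Z ↔ ∃ z ∈ Z, z j = l := by
  simp only [pr, mem_image, mem_product, mem_univ, true_and, Prod.mk.injEq, Prod.exists]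
  exact ⟨by rintro ⟨_, z, h, rfl, e⟩; exact ⟨z, h, e⟩, fun ⟨z, h, e⟩ => ⟨j, z, h, rfl, e⟩⟩

def lev (Y : Finset (Fin n → ℕ)) : Finset (Fin n → ℕ) := insert 0 (Y.image (· + 1))

theorem lev_card (Y : Finset (Fin n → ℕ)) : (lev Y).card ≤ Y.card + 1 :=
  (card_insert_le _ _).trans (Nat.succ_le_succ card_image_le)

structure Dat (a : Fin m → ℝ) (ψ : Fin m → Fin n → ℕ → ℝ) (t : ℝ) (c : Fin n → ℕ)
    (Y Z : Finset (Fin n → ℕ)) : Prop where
  hY : ∀ y ∈ Y, y ≤ c ∧ ∑ H, g a ψ H y ≤ t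
  hZ : ∀ z ∈ Z, z ≤ c ∧ t < ∑ H, g a ψ H z
  hd : ∀ z ∈ Z, ∀ j, 0 < z j → ∃ y ∈ Y, y j + 1 = z j ∧ ∀ e, e ≠ j → z e ≤ y e

variable {t : ℝ} {c : Fin n → ℕ} {Y Z : Finset (Fin n → ℕ)}

theorem Dat.lev (D : Dat a ψ t c Y Z) {z : Fin n → ℕ} (hz : z ∈ Z) (e : Fin n) :
    ∃ w ∈ lev Y, w e = z e := by
  rcases Nat.eq_zero_or_pos (z e) with h | h
  · exact ⟨0, mem_insert_self _ _, h.symm⟩
  · obtain ⟨y, hy, h1, _⟩ := D.hd z hz e h
    exact ⟨y + 1, mem_insert_of_mem (mem_image_of_mem _ hy), h1⟩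

def Good (ψ : Fin m → Fin n → ℕ → ℝ) (b : Fin n → ℕ) (H : Fin m) (z : Fin n → ℕ) (j : Fin n)
    (y : Fin n → ℕ) : Prop :=
  y j + 1 = z j ∧ (∀ e, e ≠ j → z e ≤ y e) ∧
    ∀ e, b e < z e → ψ H e (z e - 1) * ψ H j (y j + 1) ≤ ψ H j (y j) * ψ H e (z e)

theorem good (h : OK a ψ) (D : Dat a ψ t c Y Z) {z b : Fin n → ℕ} (hz : z ∈ Z) (hb : b ≤ z)
    (hne : ∃ j, b j < z j) (H : Fin m) : ∃ j, ∃ y ∈ Y, b ≤ y ∧ Good ψ b H z j y := by
  obtain ⟨j, hj, hmax⟩ := exists_max_image (univ.filter fun j => b j < z j)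
    (fun j => ψ H j (z j - 1) / ψ H j (z j)) (by simpa [Finset.Nonempty] using hne)
  simp only [mem_filter, mem_univ, true_and] at hj hmax
  obtain ⟨y, hy, h1, h2⟩ := D.hd z hz j (by omega)
  refine ⟨j, y, hy, fun e => ?_, h1, h2, fun e he => ?_⟩
  · by_cases k : e = j
    · exact (show b e ≤ y e by rw [k]; omega)
    · exact (hb e).trans (h2 e k)
  · have k := hmax e he
    have e1 : y j = z j - 1 := by omega
    rw [h1, e1]
    rcases (h.h0 H e (z e)).eq_or_lt with k1 | k1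
    · have : ψ H e (z e - 1) = 0 := le_antisymm (k1 ▸ h.hm H e (Nat.sub_le _ _)) (h.h0 _ _ _)
      rw [this, ← k1]; simp
    rcases (h.h0 H j (z j)).eq_or_lt with k2 | k2
    · rw [← k2, mul_zero]; exact mul_nonneg (h.h0 _ _ _) k1.le
    exact (div_le_div_iff₀ k1 k2).1 k

theorem step (h : OK a ψ) (D : Dat a ψ t c Y Z) (k : ℕ) : ∀ Z' ⊆ Z, (pr Z').card ≤ k →
    Z'.card ≤ 1 ∨ Z'.card ≤ k * (m * (n * (n * (Y.card + 1))) + m * n) *
      (Y.filter fun y => ∀ j, ∃ z ∈ Z', z j ≤ y j).card := by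
  induction k with
  | zero =>
    intro Z' _ hk
    refine Or.inl (card_le_one.2 fun x hx y _ => funext fun j => ?_)
    have := card_eq_zero.1 (Nat.le_zero.1 hk) ▸ (mem_pr.2 ⟨x, hx, rfl⟩ : (j, x j) ∈ pr Z')
    simp at this
  | succ k ih =>
    intro Z' hs hk
    refine or_iff_not_imp_left.2 fun h2 => ?_
    have hne : Z'.Nonempty := card_pos.1 (by omega)
    have hb : ∀ j, ∃ z ∈ Z', ∀ z' ∈ Z', z j ≤ z' j := fun j => exists_min_image Z' (· j) hne
    choose zb hb1 hb2 using hb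
    set b : Fin n → ℕ := fun j => zb j j with hbd
    have hb3 : ∀ z ∈ Z', ∀ j, b j ≤ z j := fun z hz j => hb2 j z hz
    set Y' := Y.filter fun y => ∀ j, ∃ z ∈ Z', z j ≤ y j
    have hY' : ∀ y, y ∈ Y' ↔ y ∈ Y ∧ b ≤ y := fun y => by
      simp only [Y', mem_filter]
      exact and_congr_right fun _ => ⟨fun g j => let ⟨z, hz, e⟩ := g j; (hb3 z hz j).trans e,
        fun g j => ⟨_, hb1 j, g j⟩⟩
    have fm : ∀ {x y : Fin n → ℕ}, x ≤ y → ∑ H, g a ψ H x ≤ ∑ H, g a ψ H y :=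
      fun e => sum_le_sum fun H _ => g_mono h H e
    have hlt : ∀ z ∈ Z', ∃ j, b j < z j := by
      intro z hz
      by_contra hc
      push Not at hc
      obtain ⟨z', hz', e⟩ := exists_mem_ne (by omega : 1 < Z'.card) z
      obtain ⟨j, hj⟩ := Function.ne_iff.1 e
      have h3 := hb3 z' hz' j
      have h4 := hc j
      obtain ⟨y, hy, h5, h6⟩ := D.hd z' (hs hz') j (by omega)
      have : z ≤ y := fun e => by
        by_cases k : e = j
        · exact (show z e ≤ y e by rw [k]; omega)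
        · exact ((hc e).trans (hb3 z' hz' e)).trans (h6 e k)
      linarith [fm this, (D.hY y hy).2, (D.hZ z (hs hz)).2]
    let Sp : Fin m × Fin n × (Fin n → ℕ) → (Fin n → ℕ) → Prop := fun p z =>
      Good ψ b p.1 z p.2.1 p.2.2 ∧ ∀ e, e ≠ p.2.1 → z e < p.2.2 e →
        ¬ ψ p.1 p.2.1 (p.2.2 p.2.1 + 1) * ψ p.1 e (z e) ≤ ψ p.1 p.2.1 (p.2.2 p.2.1) * ψ p.1 e (p.2.2 e)
    let S := (univ ×ˢ univ ×ˢ Y').biUnion fun p => Z'.filter (Sp p)
    have hS : S.card ≤ m * n * Y'.card := by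
      refine (card_biUnion_le_card_mul _ _ 1 fun p _ => card_le_one.2 fun x hx y hy => ?_).trans
        (by simp [mul_assoc])
      have key : ∀ x ∈ Z'.filter (Sp p), ∀ y ∈ Z'.filter (Sp p), ∀ e, ¬ x e < y e := by
        intro x hx y hy e he
        obtain ⟨x1, ⟨x2, _, _⟩, x3⟩ := mem_filter.1 hx
        obtain ⟨_, ⟨y2, y3, y4⟩, _⟩ := mem_filter.1 hy
        have hj : e ≠ p.2.1 := by rintro rfl; omega
        have := hb3 x x1 e
        have := y3 e hj
        refine x3 e hj (by omega) ?_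
        calc _ ≤ ψ p.1 e (y e - 1) * ψ p.1 p.2.1 (p.2.2 p.2.1 + 1) := by
              rw [mul_comm]
              exact mul_le_mul_of_nonneg_right (h.hm _ _ (by omega)) (h.h0 _ _ _)
          _ ≤ _ := y4 e (by omega)
          _ ≤ _ := mul_le_mul_of_nonneg_left (h.hm _ _ this) (h.h0 _ _ _)
      exact funext fun e => le_antisymm (not_lt.1 (key y hy x hx e)) (not_lt.1 (key x hx y hy e))
    let N := Z' \ S
    let X : (Fin n → ℕ) × Fin n × Fin n × (Fin n → ℕ) → Fin n → ℕ := fun p =>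
      up p.1 p.2.1 p.2.2.1 (p.2.2.2 p.2.2.1)
    let P := fun H => (Y' ×ˢ univ ×ˢ univ ×ˢ lev Y).filter fun p =>
      g a ψ H (X p) ≤ g a ψ H p.1 ∧ b ≤ X p ∧ X p ≤ c + 1
    have hN : ∀ z ∈ N, ∀ H, ∃ p ∈ P H, z ≤ X p := by
      intro z hz H
      obtain ⟨z1, z2⟩ := mem_sdiff.1 hz
      obtain ⟨j, y, hy, y1, y2⟩ := good h D (hs z1) (hb3 z z1) (hlt z z1) H
      have : ¬ Sp (H, j, y) z := fun g => z2 (mem_biUnion.2 ⟨(H, j, y),
        by simp [hY', hy, y1], mem_filter.2 ⟨z1, g⟩⟩)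
      simp only [Sp, y2, true_and] at this
      push Not at this
      obtain ⟨e, e1, e2, e3⟩ := this
      obtain ⟨w, hw, w1⟩ := D.lev (hs z1) e
      have hx : z ≤ X (y, j, e, w) := fun i => by
        simp only [X, up, Function.update_apply]
        split_ifs with i1 i2
        · rw [i1, w1]
        · rw [i2, y2.1]
        · exact y2.2.1 i i2
      refine ⟨(y, j, e, w), mem_filter.2 ⟨by simp [hY', hy, y1, hw], g_up h H y j e (w e) e1 (by rw [w1]; exact e3),
        fun i => (hb3 z z1 i).trans (hx i), fun i => ?_⟩, hx⟩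
      have : y i ≤ c i := (D.hY y hy).1 i
      have : y j ≤ c j := (D.hY y hy).1 j
      have : z e ≤ c e := (D.hZ z (hs z1)).1 e
      simp only [X, up, Function.update_apply, Pi.add_apply, Pi.one_apply]
      split_ifs with i1 i2
      · rw [i1, w1]; omega
      · rw [i2]; omega
      · omega
    set C := m * (n * (n * (Y.card + 1))) + m * n
    have hc1 : c ≤ c + 1 := fun i => Nat.le_succ _
    set t' := t - ∑ H, g a ψ H b
    have ht : ∀ y ∈ Y', ∑ H, (g a ψ H y - g a ψ H b) ≤ t' := fun y hy => by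
      rw [sum_sub_distrib]; linarith [(D.hY y ((hY' y).1 hy).1).2]
    have ht1 : ∀ y ∈ Y', ∀ H, g a ψ H y - g a ψ H b ≤ t' := fun y hy H =>
      (single_le_sum (f := fun H => g a ψ H y - g a ψ H b)
        (fun H _ => sub_nonneg.2 (g_mono h H ((hY' y).1 hy).2)) (mem_univ H)).trans (ht y hy)
    have ht0 : 0 ≤ t' := by
      obtain ⟨z, hz⟩ := hne
      obtain ⟨j, hj⟩ := hlt z hz
      obtain ⟨y, hy, h5, h6⟩ := D.hd z (hs hz) j (by omega)
      have : b ≤ y := fun e => by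
        by_cases k : e = j
        · exact (show b e ≤ y e by rw [k]; omega)
        · exact (hb3 z hz e).trans (h6 e k)
      linarith [fm this, (D.hY y hy).2]
    have main : ∀ H, ∑ z ∈ N, (g a ψ H z - g a ψ H b) ≤
        (k * C : ℕ) * ∑ y ∈ Y', (g a ψ H y - g a ψ H b) + (Y'.card * (n * (n * (Y.card + 1))) : ℕ) * t' := by
      intro H
      have e1 := count (a := a) (ψ := ψ) H b (c + 1) N id fun z hz =>
        ⟨hb3 z (mem_sdiff.1 hz).1, (D.hZ z (hs (mem_sdiff.1 hz).1)).1.trans hc1⟩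
      have e2 := count (a := a) (ψ := ψ) H b (c + 1) Y' id fun y hy =>
        ⟨((hY' y).1 hy).2, (D.hY y ((hY' y).1 hy).1).1.trans hc1⟩
      have e3 := count (a := a) (ψ := ψ) H b (c + 1) (P H) X fun p hp => (mem_filter.1 hp).2.2
      simp only [id] at e1 e2
      have e4 : ∑ p ∈ P H, (g a ψ H (X p) - g a ψ H b) ≤
          (Y'.card * (n * (n * (Y.card + 1))) : ℕ) * t' := by
        refine (sum_le_card_nsmul _ _ t' fun p hp => ?_).trans ?_
        · obtain ⟨p1, p2, _⟩ := mem_filter.1 hp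
          linarith [ht1 _ (mem_product.1 p1).1 H]
        · rw [nsmul_eq_mul]
          refine mul_le_mul_of_nonneg_right (Nat.cast_le.2 ((card_filter_le _ _).trans ?_)) ht0
          simp only [card_product, card_univ, Fintype.card_fin]
          gcongr
          exact lev_card Y
      refine le_trans ?_ (add_le_add_right e4 _)
      rw [e1, e2, e3, mul_sum, ← sum_add_distrib]
      refine sum_le_sum fun z hz => ?_
      rw [mul_left_comm, ← mul_add]
      refine mul_le_mul_of_nonneg_left ?_ (mu_nn h H z)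
      rw [← Nat.cast_mul, ← Nat.cast_add, Nat.cast_le]
      have hzb := (mem_filter.1 hz).2
      obtain ⟨j, hj⟩ : ∃ j, b j < z j := by simpa [Pi.le_def] using hzb
      have hsub : N.filter (z ≤ ·) ⊆ Z' := (filter_subset _ _).trans sdiff_subset
      have hpr : (pr (N.filter (z ≤ ·))).card ≤ k := by
        have : pr (N.filter (z ≤ ·)) ⊂ pr Z' := by
          refine ⟨image_subset_image (product_subset_product_right hsub), fun g => ?_⟩
          obtain ⟨x, hx, e⟩ := mem_pr.1 (g ((mem_pr (j := j) (l := b j)).2 ⟨_, hb1 j, rfl⟩))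
          have : z j ≤ x j := (mem_filter.1 hx).2 j
          omega
        have := card_lt_card this
        omega
      rcases ih _ (hsub.trans hs) hpr with g | g
      · rcases (N.filter (z ≤ ·)).eq_empty_or_nonempty with e | ⟨x, hx⟩
        · simp [e]
        · obtain ⟨p, hp, e⟩ := hN x (mem_filter.1 hx).1 H
          have : 0 < ((P H).filter (z ≤ X ·)).card :=
            card_pos.2 ⟨p, mem_filter.2 ⟨hp, (mem_filter.1 hx).2.trans e⟩⟩
          omega
      · refine g.trans (le_add_right (Nat.mul_le_mul_left _ (card_le_card fun y hy => ?_)))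
        obtain ⟨y1, y2⟩ := mem_filter.1 hy
        refine mem_filter.2 ⟨mem_filter.2 ⟨y1, fun i => ?_⟩, fun i => ?_⟩
        · obtain ⟨x, hx, e⟩ := y2 i
          exact ⟨x, hsub hx, e⟩
        · obtain ⟨x, hx, e⟩ := y2 i
          exact ((mem_filter.1 hx).2 i).trans e
    have hNc : N.card ≤ k * C * Y'.card + m * (Y'.card * (n * (n * (Y.card + 1)))) := by
      rcases N.eq_empty_or_nonempty with e | e
      · simp [e]
      have e1 := sum_le_sum fun H (_ : H ∈ univ) => main H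
      rw [sum_add_distrib, ← mul_sum, sum_comm, sum_comm (s := univ) (t := Y')] at e1
      have e2 := sum_le_card_nsmul _ _ t' ht
      have e3 : ∑ _z ∈ N, t' < ∑ z ∈ N, ∑ H, (g a ψ H z - g a ψ H b) :=
        sum_lt_sum_of_nonempty e fun z hz => by
          rw [sum_sub_distrib]; linarith [(D.hZ z (hs (mem_sdiff.1 hz).1)).2]
      simp only [sum_const, nsmul_eq_mul, card_univ, Fintype.card_fin] at e1 e2 e3
      have e4 := mul_le_mul_of_nonneg_left e2 (Nat.cast_nonneg (α := ℝ) (k * C))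
      have : (N.card : ℝ) * t' <
          ((k * C * Y'.card + m * (Y'.card * (n * (n * (Y.card + 1)))) : ℕ) : ℝ) * t' := by
        push_cast at e1 e4 ⊢
        nlinarith
      exact (Nat.cast_lt.1 (lt_of_mul_lt_mul_right this ht0)).le
    have := le_card_sdiff S Z'
    have e : (k + 1) * C * Y'.card =
        k * C * Y'.card + m * (Y'.card * (n * (n * (Y.card + 1)))) + m * n * Y'.card := by
      simp only [C]; ring
    simp only [N] at hNc
    omega

theorem bound (h : OK a ψ) (D : Dat a ψ t c Y Z) :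
    Z.card ≤ 1 + n * (Y.card + 1) * (m * (n * (n * (Y.card + 1))) + m * n) * Y.card := by
  have : (pr Z).card ≤ n * (Y.card + 1) := by
    have : pr Z ⊆ pr (lev Y) := fun p hp => by
      obtain ⟨z, hz, e⟩ := mem_pr.1 hp
      obtain ⟨w, hw, e'⟩ := D.lev hz p.1
      exact mem_pr.2 ⟨w, hw, e'.trans e⟩
    refine (card_le_card this).trans (card_image_le.trans ?_)
    simp only [card_product, card_univ, Fintype.card_fin]
    exact Nat.mul_le_mul_left _ (lev_card Y)
  rcases step h D _ Z subset_rfl this with g | g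
  · omega
  · exact g.trans (le_add_left (Nat.mul_le_mul_left _ (card_filter_le _ _)))

end Pool.Agent.H25.PolyDual
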