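import Mathlib

set_option autoImplicit false
open Set Filter Cardinal

namespace Pool.Agent.H25.Psi

/-- almost disjoint families of infinite sets -/
def AD (A : Set (Set ℕ)) : Prop := (∀ a ∈ A, a.Infinite) ∧ A.Pairwise fun a b => (a ∩ b).Finite

/-- the Isbell-Mrowka space -/
inductive PsiSp (A : Set (Set ℕ)) : Type
  | inl (n : ℕ)
  | inr (a : A)

/-- `U` is open iff it almost contains each `a ∈ A` that it contains as a point -/
instance (A : Set (Set ℕ)) : TopologicalSpace (PsiSp A) where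
  IsOpen U := ∀ a : A, PsiSp.inr a ∈ U → {n | n ∈ a.1 ∧ PsiSp.inl n ∉ U}.Finite
  isOpen_univ _ _ := by simp
  isOpen_inter _ _ h h' a ha := ((h a ha.1).union (h' a ha.2)).subset fun _ hn =>
    (not_and_or.1 hn.2).imp (⟨hn.1, ·⟩) (⟨hn.1, ·⟩)
  isOpen_sUnion _ h a := fun ⟨U, hU, ha⟩ => (h U hU a ha).subset fun _ hn =>
    ⟨hn.1, fun e => hn.2 ⟨U, hU, e⟩⟩

/-- the star of `U` with respect to `C` -/
def st {X : Type} (U : Set X) (C : Set (Set X)) : Set X := ⋃₀ {V | V ∈ C ∧ (V ∩ U).Nonempty}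

/-- star-Rothberger spaces -/
def StarRoth (X : Type) [TopologicalSpace X] : Prop :=
  ∀ C : ℕ → Set (Set X), (∀ n, (∀ U ∈ C n, IsOpen U) ∧ ⋃₀ C n = Set.univ) →
    ∃ U : ℕ → Set X, (∀ n, U n ∈ C n) ∧ ⋃ n, st (U n) (C n) = Set.univ

/-- the dominating number -/
noncomputable def dd : Cardinal.{0} :=
  sInf {c | ∃ D : Set (ℕ → ℕ), (∀ g : ℕ → ℕ, ∃ f ∈ D, ∀ᶠ n in atTop, g n ≤ f n) ∧ #D = c}

/-- `cov(M)`, in the combinatorial form of the problem file -/
noncomputable def covM : Cardinal.{0} :=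
  sInf {c | ∃ F : Set (ℕ → ℕ), (∀ g : ℕ → ℕ, ∃ f ∈ F, {n | f n = g n}.Finite) ∧ #F = c}

/-- the cofinality of the countable subsets of `κ` -/
noncomputable def cofC (κ : Cardinal.{0}) : Cardinal.{0} :=
  sInf {c | ∃ F : Set (Set κ.ord.ToType), (∀ s ∈ F, s.Countable) ∧
    (∀ t : Set κ.ord.ToType, t.Countable → ∃ s ∈ F, t ⊆ s) ∧ #F = c}

end Pool.Agent.H25.Psi
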