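import Pool.Agent.H25.PsiDefs
import Pool.Agent.H25.Aron

set_option autoImplicit false
open Set Filter Cardinal Pool.Agent.H25.Aron Pool.Agent.H25.NSIdeal

namespace Pool.Agent.H25.Psi

theorem cnt (j : W) : (Iio j).Countable :=
  ((countable_iff_lt_aleph_one _).2 ((good.iic j).trans_eq mkW)).mono Iio_subset_Iic_self

theorem bnd {s : Set W} (h : s.Countable) : ∃ b, ∀ a ∈ s, a < b :=
  bound good s (((countable_iff_lt_aleph_one _).1 h).trans_eq mkW.symm)

theorem cof_one : cofC (aleph 1) = aleph 1 := by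
  have m : #(range (Iio : W → Set W)) ∈ {c | ∃ F : Set (Set W), (∀ s ∈ F, s.Countable) ∧
      (∀ t : Set W, t.Countable → ∃ s ∈ F, t ⊆ s) ∧ #F = c} :=
    ⟨_, forall_mem_range.2 cnt, fun t ht => (bnd ht).elim fun b hb => ⟨_, ⟨b, rfl⟩, hb⟩, rfl⟩
  refine le_antisymm ((csInf_le' m).trans (mk_range_le.trans_eq mkW)) (le_csInf ⟨_, m⟩ ?_)
  rintro _ ⟨F, a, b, rfl⟩
  by_contra h
  obtain ⟨x, hx⟩ := bnd (((countable_iff_lt_aleph_one _).2 (not_le.1 h)).sUnion a)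
  obtain ⟨s, s1, s2⟩ := b {x} (countable_singleton x)
  exact lt_irrefl x (hx x ⟨s, s1, s2 rfl⟩)

theorem diag (B : ℕ → Set ℕ) (h1 : ∀ n, (B n).Infinite)
    (h2 : Pairwise fun m n => (B m ∩ B n).Finite) :
    ∃ A : Set ℕ, A.Infinite ∧ ∀ n, (B n ∩ A).Finite ∧ ∃ m ∈ B n ∩ A, n ≤ m := by
  have : ∀ n, ∃ a ∈ B n, n ≤ a ∧ ∀ l < n, a ∉ B l := fun n => by
    obtain ⟨a, a1, a2⟩ := (h1 n).exists_notMem_finite ((finite_Iio n).union
      ((finite_Iio n).biUnion (t := fun l => B l ∩ B n) fun l hl => h2 (ne_of_lt hl)))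
    exact ⟨a, a1, not_lt.1 fun e => a2 (.inl e), fun l hl e =>
      a2 (.inr (mem_biUnion hl ⟨e, a1⟩))⟩
  choose a a1 a2 a3 using this
  refine ⟨range a, infinite_of_not_bddAbove fun hb => ?_, fun n =>
    ⟨((finite_Iic n).image a).subset ?_, a n, ⟨a1 n, n, rfl⟩, a2 n⟩⟩
  · obtain ⟨b, hb⟩ := hb
    have := (a2 (b + 1)).trans (hb ⟨_, rfl⟩)
    omega
  · rintro _ ⟨h, l, rfl⟩
    exact ⟨l, not_lt.1 fun e => a3 l n e h, rfl⟩

theorem luzin : ∃ (A : W → Set ℕ) (e : W → W → ℕ), ∀ j, (A j).Infinite ∧ InjOn (e j) (Iio j) ∧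
    ∀ i < j, (A i ∩ A j).Finite ∧ ∃ m ∈ A i ∩ A j, e j i ≤ m := by
  classical
  let C : ℕ → Set ℕ := fun k => range (Nat.pair k)
  obtain ⟨f, hf⟩ := trec (J := W) (α := Set ℕ × (W → ℕ))
    (fun j a => a.1.Infinite ∧ InjOn a.2 (Iio j) ∧ ∀ k, (C k ∩ a.1).Finite)
    (fun i a b => (a.1 ∩ b.1).Finite ∧ ∃ m ∈ a.1 ∩ b.1, b.2 i ≤ m) fun j f h1 h2 => by
      have := (cnt j).to_subtype
      obtain ⟨e⟩ := nonempty_equiv_of_countable (α := ℕ ⊕ Iio j) (β := ℕ)
      let B : ℕ ⊕ Iio j → Set ℕ := Sum.elim C fun i => (f i).1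
      have b1 : ∀ s, (B s).Infinite := by
        rintro (k | i)
        · exact infinite_range_of_injective fun _ _ h => (Nat.pair_eq_pair.1 h).2
        · exact (h1 i).1
      have b2 : Pairwise fun s t => (B s ∩ B t).Finite := by
        rintro (k | i) (l | m) h
        · refine finite_empty.subset ?_
          rintro _ ⟨⟨a, rfl⟩, b, hb⟩
          exact h (congrArg _ (Nat.pair_eq_pair.1 hb).1.symm)
        · exact (h1 m).2.2 k
        · exact inter_comm _ _ ▸ (h1 i).2.2 l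
        · rcases lt_or_gt_of_ne (fun e : i = m => h (congrArg _ e)) with e | e
          · exact (h2 i m e).1
          · exact inter_comm _ _ ▸ (h2 m i e).1
      obtain ⟨A, a1, a2⟩ := diag (fun n => B (e.symm n)) (fun n => b1 _)
        fun m n h => b2 (e.symm.injective.ne h)
      have a3 := fun s => a2 (e s)
      simp only [e.symm_apply_apply] at a3
      refine ⟨(A, fun i => if h : i < j then e (.inr ⟨i, h⟩) else 0), ⟨a1, fun a ha b hb h => ?_,
        fun k => (a3 (.inl k)).1⟩, fun i => ?_⟩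
      · simpa [dif_pos (mem_Iio.1 ha), dif_pos (mem_Iio.1 hb)] using h
      · simp only [dif_pos (mem_Iio.1 i.2)]
        exact a3 (.inr i)
  exact ⟨fun j => (f j).1, fun j => (f j).2, fun j => ⟨(hf j).1.1, (hf j).1.2.1, (hf j).2⟩⟩

theorem main (h : aleph 1 < dd) : ∃ A, AD A ∧ #A = aleph 1 ∧ StarRoth (PsiSp A) := by
  classical
  obtain ⟨A, e, hA⟩ := luzin
  have ad : Pairwise fun i j => (A i ∩ A j).Finite := fun i j h => by
    rcases lt_or_gt_of_ne h with h | h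
    · exact ((hA j).2.2 i h).1
    · exact inter_comm _ _ ▸ ((hA i).2.2 j h).1
  refine ⟨range A, ⟨forall_mem_range.2 fun j => (hA j).1, ?_⟩, (mk_range_eq _ fun i j h =>
    by_contra fun c => (hA j).1 (by simpa [h] using ad c)).trans mkW, fun C hC => ?_⟩
  · rintro _ ⟨i, rfl⟩ _ ⟨j, rfl⟩ h
    exact ad fun c => h (congrArg A c)
  have h0 : ∀ n (x : PsiSp (range A)), ∃ V ∈ C n, x ∈ V := fun n x => (hC n).2.ge (mem_univ x)
  choose V V1 V2 using h0
  let pt : W → PsiSp (range A) := fun i => .inr ⟨A i, i, rfl⟩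
  have h1 : ∀ n i, ∃ k, ∀ m ∈ A i, k ≤ m → PsiSp.inl m ∈ V n (pt i) := fun n i => by
    obtain ⟨k, hk⟩ := ((hC n).1 _ (V1 n (pt i)) _ (V2 n (pt i))).bddAbove
    exact ⟨k + 1, fun m a b => by_contra fun c => by have := hk ⟨a, c⟩; omega⟩
  choose f hf using h1
  have h2 : ∀ n, ∃ (m : ℕ) (β : ℕ → W), Function.Injective β ∧ ∀ j, f n (β j) = m := fun n => by
    obtain ⟨m, hm⟩ := exists_infinite_fiber' (f n) (by simp)
    exact ⟨m, fun j => (Infinite.natEmbedding (f n ⁻¹' {m}) j).1,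
      Subtype.val_injective.comp (Infinite.natEmbedding _).injective,
      fun j => (Infinite.natEmbedding (f n ⁻¹' {m}) j).2⟩
  choose m β β1 β2 using h2
  obtain ⟨δ, hδ⟩ := bnd (countable_range fun p : ℕ × ℕ => β p.1 p.2)
  have h3 : ∀ i, δ ≤ i → ∀ n, ∃ g, ∀ j ≥ g, (V n (pt i) ∩ V n (pt (β n j))).Nonempty :=
    fun i hi n => by
      have b : ∀ j, β n j < i := fun j => (hδ _ ⟨(n, j), rfl⟩).trans_le hi
      have : Function.Injective fun j => e i (β n j) := fun a c h =>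
        β1 n ((hA i).2.1 (b a) (b c) h)
      refine (eventually_atTop.1 (this.nat_tendsto_atTop.eventually_ge_atTop
        (max (f n i) (m n)))).imp fun g hg j hj => ?_
      obtain ⟨-, k, k1, k2⟩ := (hA i).2.2 _ (b j)
      have := (hg j hj).trans k2
      exact ⟨.inl k, hf n i k k1.2 (le_of_max_le_left this),
        hf n _ k k1.1 (β2 n j ▸ le_of_max_le_right this)⟩
  choose! g hg using h3
  have h4 : ∃ u : ℕ → ℕ, ∀ i, ∃ n, g i (2 * n) ≤ u n := by
    by_contra c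
    push Not at c
    refine h.not_ge (le_trans (csInf_le' ?_)
      ((mk_range_le (f := fun i n => g i (2 * n))).trans_eq mkW))
    refine ⟨_, fun u => ?_, rfl⟩
    obtain ⟨i, hi⟩ := c u
    exact ⟨_, ⟨i, rfl⟩, .of_forall fun n => (hi n).le⟩
  obtain ⟨u, hu⟩ := h4
  obtain ⟨p, hp⟩ := ((countable_range (PsiSp.inl : ℕ → PsiSp (range A))).union
    ((cnt δ).image pt)).exists_eq_range ⟨_, .inl ⟨0, rfl⟩⟩
  refine ⟨fun n => if n % 2 = 0 then V n (pt (β n (u (n / 2)))) else V n (p (n / 2)),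
    fun n => by dsimp only; split_ifs <;> exact V1 _ _, eq_univ_of_forall fun x => ?_⟩
  by_cases c : x ∈ range p
  · obtain ⟨n, rfl⟩ := c
    refine mem_iUnion.2 ⟨2 * n + 1, V _ (p n), ⟨V1 _ _, p n, V2 _ _, ?_⟩, V2 _ _⟩
    dsimp only
    rw [if_neg (by omega), show (2 * n + 1) / 2 = n by omega]
    exact V2 _ _
  rw [← hp] at c
  rcases x with k | ⟨_, i, rfl⟩
  · exact absurd (.inl ⟨k, rfl⟩) c
  obtain ⟨n, hn⟩ := hu i
  refine mem_iUnion.2 ⟨2 * n, V _ (pt i), ⟨V1 _ _, ?_⟩, V2 _ _⟩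
  dsimp only
  rw [if_pos (by omega), show 2 * n / 2 = n by omega]
  exact hg i (not_lt.1 fun e => c (.inr ⟨i, e, rfl⟩)) _ _ hn

end Pool.Agent.H25.Psi
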