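import Mathlib

set_option autoImplicit false
open Set

namespace Pool.Agent.H25.QRay

variable {S : Type}

structure IsR (le : S → S → Prop) (x : Set S) : Prop where
  ne : x.Nonempty
  low : ∀ {a b}, le a b → b ∈ x → a ∈ x
  ch : ∀ {a b}, a ∈ x → b ∈ x → le a b ∨ le b a
  up : ∀ {a}, a ∈ x → ∃ b ∈ x, le a b ∧ a ≠ b

structure Fo (le : S → S → Prop) (D : Set S) : Prop where
  mem : ∀ {a b}, le a b → a ∈ D ∧ b ∈ D
  refl : ∀ {a}, a ∈ D → le a a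
  trans : ∀ {a b c}, le a b → le b c → le a c
  anti : ∀ {a b}, le a b → le b a → a = b
  cmp : ∀ {a b c}, le a c → le b c → le a b ∨ le b a
  wf : ∀ A : Set S, A.Nonempty → ∃ a ∈ A, ∀ b ∈ A, le b a → b = a

variable {le : S → S → Prop} {D x : Set S}

theorem IsR.rf {ρ : Set S} (h : IsR le ρ) {a : S} (ha : a ∈ ρ) : le a a := (h.ch ha ha).elim id id

/-- a minimal ray inside `x` -/
theorem exists_y (hF : Fo le D) (hx : IsR le x) :
    ∃ y, IsR le y ∧ y ⊆ x ∧ ∀ ρ, IsR le ρ → ρ ⊆ y → ρ = y := by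
  have top : ∀ ρ, IsR le ρ → ρ ⊆ x → ρ ≠ x → ∃ u ∈ x, ρ = {s | le s u ∧ s ≠ u} := fun ρ a b c => by
    obtain ⟨u, ⟨u1, u2⟩, u3⟩ := hF.wf (x \ ρ) (diff_nonempty.2 fun h => c (b.antisymm h))
    refine ⟨u, u1, Set.ext fun s => ⟨fun h => ⟨(hx.ch (b h) u1).elim id fun e => ?_,
      fun e => u2 (e ▸ h)⟩, fun h => by_contra fun e => h.2 (u3 s ⟨hx.low h.1 u1, e⟩ h.1)⟩⟩
    exact absurd (a.low e h) u2
  by_cases h : {u | u ∈ x ∧ IsR le {s | le s u ∧ s ≠ u}}.Nonempty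
  · obtain ⟨u, ⟨u1, u2⟩, u3⟩ := hF.wf _ h
    refine ⟨_, u2, fun s hs => hx.low hs.1 u1, fun ρ a b => ?_⟩
    obtain ⟨v, v1, rfl⟩ := top ρ a (fun s hs => hx.low (b hs).1 u1) fun e => (b (e ▸ u1)).2 rfl
    rcases hx.ch v1 u1 with e | e
    · rw [u3 v ⟨v1, a⟩ e]
    · by_cases e' : u = v
      · rw [e']
      · exact absurd rfl (b ⟨e, e'⟩).2
  · refine ⟨x, hx, subset_rfl, fun ρ a b => by_contra fun c => h ?_⟩
    obtain ⟨u, u1, rfl⟩ := top ρ a b c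
    exact ⟨u, u1, a⟩

section glue
variable (le D x) (y : Set S)

def l1 (s t : S) : Prop := le s t ∧ ∀ m ∈ y, le m t → le m s
def NA (t : S) : Prop := ∀ w ∈ x \ y, ¬ le w t
def l2 (s t : S) : Prop := l1 le y s t ∨ s ∈ x \ y ∧ t ∈ D ∧ NA le x y t
def tl (ρ : Set S) : Set S := {s | s ∈ ρ ∧ ∀ m ∈ y, m ∈ ρ → le m s}
def gl (ρ : Set S) : Set S := {s | s ∈ tl le y ρ ∨ s ∈ x \ y ∧ ∀ w ∈ x \ y, w ∉ ρ}

end glue

variable {y : Set S} (hF : Fo le D) (hx : IsR le x) (hy : IsR le y) (yx : y ⊆ x)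
include hF hx hy yx

omit hF in
theorem yw {m w : S} (hm : m ∈ y) (hw : w ∈ x \ y) : le m w :=
  (hx.ch (yx hm) hw.1).elim id fun e => absurd (hy.low e hm) hw.2

omit hx hy yx in
theorem na_low {s t : S} (h : le s t) (ht : NA le x y t) : NA le x y s :=
  fun w hw e => ht w hw (hF.trans e h)

omit hF hy yx in
theorem na_w {w : S} (hw : w ∈ x \ y) : ¬ NA le x y w := fun h => h w hw (hx.rf hw.1)

theorem na_up {s t : S} (h : l1 le y s t) (hs : NA le x y s) : NA le x y t := fun w hw e => by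
  rcases hF.cmp e h.1 with c | c
  · exact hs w hw c
  · by_cases c' : s ∈ y
    · obtain ⟨m, m1, m2, m3⟩ := hy.up c'
      exact m3 (hF.anti m2 (h.2 m m1 (hF.trans (yw hx hy yx m1 hw) e)))
    · exact na_w hx ⟨hx.low c hw.1, c'⟩ hs

theorem w_low {s t : S} (h : l1 le y s t) (ht : t ∈ x \ y) : s ∈ x \ y :=
  ⟨hx.low h.1 ht.1, fun c => by
    obtain ⟨m, m1, m2, m3⟩ := hy.up c
    exact m3 (hF.anti m2 (h.2 m m1 (yw hx hy yx m1 ht)))⟩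

omit hx hy yx in
theorem l1_tr {a b c : S} (h : l1 le y a b) (h' : l1 le y b c) : l1 le y a c :=
  ⟨hF.trans h.1 h'.1, fun m hm e => h.2 m hm (h'.2 m hm e)⟩

omit hF in
theorem l1_w {a b : S} (ha : a ∈ x \ y) (hb : b ∈ x \ y) : l1 le y a b ∨ l1 le y b a :=
  (hx.ch ha.1 hb.1).imp (fun e => ⟨e, fun _ hm _ => yw hx hy yx hm ha⟩)
    fun e => ⟨e, fun _ hm _ => yw hx hy yx hm hb⟩

theorem fo2 : Fo (l2 le D x y) D where
  mem := by
    rintro a b (h | h)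
    · exact hF.mem h.1
    · exact ⟨(hF.mem (hx.rf h.1.1)).1, h.2.1⟩
  refl := fun h => .inl ⟨hF.refl h, fun _ _ e => e⟩
  trans := by
    rintro a b c (h | h) (h' | h')
    · exact .inl (l1_tr hF h h')
    · exact .inr ⟨w_low hF hx hy yx h h'.1, h'.2⟩
    · exact .inr ⟨h.1, (hF.mem h'.1).2, na_up hF hx hy yx h' h.2.2⟩
    · exact absurd h.2.2 (na_w hx h'.1)
  anti := by
    rintro a b (h | h) (h' | h')
    · exact hF.anti h.1 h'.1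
    · exact absurd h'.2.2 (na_w hx (w_low hF hx hy yx h h'.1))
    · exact absurd h.2.2 (na_w hx (w_low hF hx hy yx h' h.1))
    · exact absurd h.2.2 (na_w hx h'.1)
  cmp := by
    rintro a b c (h | h) (h' | h')
    · exact (hF.cmp h.1 h'.1).imp (fun e => .inl ⟨e, fun m hm f => h.2 m hm (hF.trans f h'.1)⟩)
        fun e => .inl ⟨e, fun m hm f => h'.2 m hm (hF.trans f h.1)⟩
    · exact .inr (.inr ⟨h'.1, (hF.mem h.1).1, na_low hF h.1 h'.2.2⟩)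
    · exact .inl (.inr ⟨h.1, (hF.mem h'.1).1, na_low hF h'.1 h.2.2⟩)
    · exact (l1_w hx hy yx h.1 h'.1).imp .inl .inl
  wf := fun A hA => by
    by_cases c : (A ∩ (x \ y)).Nonempty
    · obtain ⟨a, a1, a2⟩ := hF.wf _ c
      refine ⟨a, a1.1, ?_⟩
      rintro b hb (h | h)
      · exact a2 b ⟨hb, w_low hF hx hy yx h a1.2⟩ h.1
      · exact absurd h.2.2 (na_w hx a1.2)
    · obtain ⟨a, a1, a2⟩ := hF.wf _ hA
      refine ⟨a, a1, ?_⟩
      rintro b hb (h | h)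
      · exact a2 b hb h.1
      · exact absurd ⟨b, hb, h.1⟩ c

omit hx hy yx in
theorem tl_up {ρ : Set S} {s t : S} (hs : s ∈ tl le y ρ) (ht : t ∈ ρ) (h : le s t) :
    t ∈ tl le y ρ := ⟨ht, fun m a b => hF.trans (hs.2 m a b) h⟩

omit hF hx hy yx in
theorem tl_l1 {ρ : Set S} (hρ : IsR le ρ) {s t : S} (hs : s ∈ tl le y ρ) (ht : t ∈ ρ)
    (h : le s t) : l1 le y s t := ⟨h, fun m a b => hs.2 m a (hρ.low b ht)⟩

omit hF hx hy yx in
theorem tl_low {ρ : Set S} (hρ : IsR le ρ) {s t : S} (h : l1 le y s t) (ht : t ∈ tl le y ρ) :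
    s ∈ tl le y ρ := ⟨hρ.low h.1 ht.1, fun m a b => h.2 m a (ht.2 m a b)⟩

omit hF hx yx in
theorem tl_ne (hm : ∀ ρ, IsR le ρ → ρ ⊆ y → ρ = y) {ρ : Set S} (hρ : IsR le ρ) (h : ρ ≠ y) :
    (tl le y ρ).Nonempty := by
  by_cases c : ρ ⊆ y
  · exact absurd (hm ρ hρ c) h
  obtain ⟨s, s1, s2⟩ := not_subset.1 c
  exact ⟨s, s1, fun m a b => (hρ.ch b s1).elim id fun e => absurd (hy.low e a) s2⟩

omit hx hy yx in
theorem tl_dn {ρ : Set S} (hρ : IsR le ρ) (h : (tl le y ρ).Nonempty) :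
    ρ = {t | ∃ s ∈ tl le y ρ, le t s} := by
  obtain ⟨s, hs⟩ := h
  refine Set.ext fun t => ⟨fun ht => ?_, fun ⟨u, a, b⟩ => hρ.low b a.1⟩
  rcases hρ.ch ht hs.1 with e | e
  · exact ⟨s, hs, e⟩
  · exact ⟨t, tl_up hF hs ht e, hρ.rf ht⟩

omit hx yx in
theorem tl_y : tl le y y = ∅ := eq_empty_of_forall_notMem fun s hs => by
  obtain ⟨m, m1, m2, m3⟩ := hy.up hs.1
  exact m3 (hF.anti m2 (hs.2 m m1 m1))

theorem tl_x : tl le y x = x \ y := Set.ext fun s => ⟨fun h => ⟨h.1, fun c => by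
    obtain ⟨m, m1, m2, m3⟩ := hy.up c
    exact m3 (hF.anti m2 (h.2 m m1 (yx m1)))⟩, fun h => ⟨h.1, fun _ a _ => yw hx hy yx a h⟩⟩

omit hF hx hy yx in
theorem na_of {ρ : Set S} (hρ : IsR le ρ) (h : ∀ w ∈ x \ y, w ∉ ρ) {s : S} (hs : s ∈ ρ) :
    NA le x y s := fun w a b => h w a (hρ.low b hs)

theorem not_na {ρ : Set S} (hρ : IsR le ρ) (h : ¬ ∀ w ∈ x \ y, w ∉ ρ) {s : S}
    (hs : s ∈ tl le y ρ) : ¬ NA le x y s := fun c => h fun w a b => by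
  rcases hρ.ch b hs.1 with e | e
  · exact c w a e
  · exact na_w hx a (na_up hF hx hy yx (tl_l1 hρ hs b e) c)

theorem gl_ray (hm : ∀ ρ, IsR le ρ → ρ ⊆ y → ρ = y) {ρ : Set S} (hρ : IsR le ρ) (h : ρ ≠ x) :
    IsR (l2 le D x y) (gl le x y ρ) where
  ne := by
    by_cases c : ρ = y
    · subst c
      obtain ⟨w, hw⟩ := diff_nonempty.2 fun e => h (yx.antisymm e)
      exact ⟨w, .inr ⟨hw, fun _ a => a.2⟩⟩
    · exact (tl_ne hy hm hρ c).mono fun _ => .inl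
  low := by
    rintro a b (e | e) (f | f)
    · exact .inl (tl_low hρ e f)
    · exact .inr ⟨w_low hF hx hy yx e f.1, f.2⟩
    · exact .inr ⟨e.1, by_contra fun c => not_na hF hx hy yx hρ c f e.2.2⟩
    · exact .inr ⟨e.1, f.2⟩
  ch := by
    rintro a b (e | e) (f | f)
    · exact (hρ.ch e.1 f.1).imp (fun c => .inl (tl_l1 hρ e f.1 c)) fun c => .inl (tl_l1 hρ f e.1 c)
    · exact .inr (.inr ⟨f.1, (hF.mem (hρ.rf e.1)).1, na_of hρ f.2 e.1⟩)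
    · exact .inl (.inr ⟨e.1, (hF.mem (hρ.rf f.1)).1, na_of hρ e.2 f.1⟩)
    · exact (l1_w hx hy yx e.1 f.1).imp .inl .inl
  up := by
    rintro a (e | e)
    · obtain ⟨b, b1, b2, b3⟩ := hρ.up e.1
      exact ⟨b, .inl (tl_up hF e b1 b2), .inl (tl_l1 hρ e b1 b2), b3⟩
    · obtain ⟨b, b1, b2, b3⟩ := hx.up e.1.1
      exact ⟨b, .inr ⟨⟨b1, fun c => e.1.2 (hy.low b2 c)⟩, e.2⟩,
        .inl ⟨b2, fun _ hm _ => yw hx hy yx hm e.1⟩, b3⟩

theorem tl_sub {ρ σ : Set S} (hρ : IsR le ρ) (hσ : IsR le σ) (h : ρ ≠ x) (h' : σ ≠ x)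
    (e : gl le x y ρ = gl le x y σ) : tl le y ρ ⊆ tl le y σ := fun s hs => by
  have key : ∀ {ρ σ : Set S}, IsR le ρ → IsR le σ → ρ ≠ x → gl le x y ρ = gl le x y σ →
      (∀ w ∈ x \ y, w ∉ σ) → ∀ w ∈ x \ y, w ∉ ρ := fun {ρ σ} hρ hσ h e c => by
    by_contra c'
    have t : tl le y ρ = tl le y x := by
      rw [tl_x hF hx hy yx]
      refine Set.ext fun s => ⟨fun a => ?_, fun a => ?_⟩
      · rcases e.subset (.inl a) with b | b
        · exact absurd (na_of hσ c b.1) (not_na hF hx hy yx hρ c' a)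
        · exact b.1
      · exact (e.symm.subset (.inr ⟨a, c⟩)).elim id fun b => absurd b.2 c'
    have n : (tl le y x).Nonempty := by
      rw [tl_x hF hx hy yx]
      by_contra n
      exact c' fun w a => absurd ⟨w, a⟩ n
    exact h ((tl_dn hF hρ (t ▸ n)).trans (t ▸ (tl_dn hF hx n).symm))
  rcases e.subset (.inl hs) with b | b
  · exact b
  · exact absurd hs.1 (key hρ hσ h e b.2 s b.1)

theorem gl_inj (hm : ∀ ρ, IsR le ρ → ρ ⊆ y → ρ = y) {ρ σ : Set S} (hρ : IsR le ρ) (hσ : IsR le σ)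
    (h : ρ ≠ x) (h' : σ ≠ x) (e : gl le x y ρ = gl le x y σ) : ρ = σ := by
  have t := (tl_sub hF hx hy yx hρ hσ h h' e).antisymm (tl_sub hF hx hy yx hσ hρ h' h e.symm)
  by_cases n : (tl le y ρ).Nonempty
  · exact (tl_dn hF hρ n).trans (t ▸ (tl_dn hF hσ (t ▸ n)).symm)
  · exact (by_contra fun c => n (tl_ne hy hm hρ c) : ρ = y).trans
      (by_contra fun c => n (t ▸ tl_ne hy hm hσ c) : σ = y).symm

omit hx hy yx in
theorem dn_ray {τ : Set S} (h : IsR (l1 le y) τ) :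
    IsR le {t | ∃ s ∈ τ, le t s} ∧ tl le y {t | ∃ s ∈ τ, le t s} = τ := by
  refine ⟨⟨h.ne.mono fun s hs => ⟨s, hs, (h.rf hs).1⟩, fun e ⟨s, a, b⟩ => ⟨s, a, hF.trans e b⟩,
    fun ⟨s, a, b⟩ ⟨t, c, d⟩ => (h.ch a c).elim (fun e => hF.cmp (hF.trans b e.1) d)
      fun e => hF.cmp b (hF.trans d e.1), fun {u} ⟨s, a, b⟩ => ?_⟩,
    Set.ext fun s => ⟨fun ⟨⟨t, a, b⟩, c⟩ => h.low ⟨b, fun m d e => c m d ⟨t, a, e⟩⟩ a,
      fun a => ⟨⟨s, a, (h.rf a).1⟩, fun m b ⟨t, c, d⟩ => (h.ch a c).elim (fun e => e.2 m b d)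
        fun e => hF.trans d e.1⟩⟩⟩
  obtain ⟨t, c, d, e⟩ := h.up a
  exact ⟨t, ⟨t, c, (h.rf c).1⟩, hF.trans b d.1, fun f => e (hF.anti d.1 (f ▸ b))⟩

theorem gl_surj {σ : Set S} (hσ : IsR (l2 le D x y) σ) :
    ∃ ρ, IsR le ρ ∧ ρ ≠ x ∧ gl le x y ρ = σ := by
  by_cases c : (σ ∩ {s | NA le x y s}).Nonempty
  · have r : IsR (l1 le y) (σ ∩ {s | NA le x y s}) := ⟨c, fun e f => ⟨hσ.low (.inl e) f.1,
      na_low hF e.1 f.2⟩, fun e f => (hσ.ch e.1 f.1).imp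
        (fun g => g.elim id fun g => absurd e.2 (na_w hx g.1))
        fun g => g.elim id fun g => absurd f.2 (na_w hx g.1), fun e => by
          obtain ⟨b, b1, b2 | b2, b3⟩ := hσ.up e.1
          · exact ⟨b, ⟨b1, na_up hF hx hy yx b2 e.2⟩, b2, b3⟩
          · exact absurd e.2 (na_w hx b2.1)⟩
    obtain ⟨r1, r2⟩ := dn_ray hF r
    obtain ⟨n, n1, n2⟩ := c
    refine ⟨_, r1, fun e => ?_, Set.ext fun s => ?_⟩
    · rw [e, tl_x hF hx hy yx] at r2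
      exact na_w hx (r2.symm.subset ⟨n1, n2⟩) n2
    · rw [gl, r2]
      refine ⟨fun h => h.elim (·.1) fun h => hσ.low (.inr ⟨h.1, ((fo2 hF hx hy yx).mem
        (hσ.rf n1)).1, n2⟩) n1, fun h => ?_⟩
      by_cases d : NA le x y s
      · exact .inl ⟨h, d⟩
      refine .inr ⟨?_, fun w a ⟨t, b, e⟩ => b.2 w a e⟩
      rcases hσ.ch h n1 with (e | e) | e | e
      · exact absurd (na_low hF e.1 n2) d
      · exact e.1
      · exact absurd (na_up hF hx hy yx e n2) d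
      · exact absurd n2 (na_w hx e.1)
  have c' : ∀ {s}, s ∈ σ → ¬ NA le x y s := fun h d => c ⟨_, h, d⟩
  by_cases d : σ = x \ y
  · refine ⟨y, hy, fun e => ?_, Set.ext fun s => ?_⟩
    · obtain ⟨s, hs⟩ := hσ.ne
      rw [d, ← e] at hs
      exact hs.2 hs.1
    · rw [gl, tl_y hF hy, d]
      exact ⟨fun h => h.elim False.elim (·.1), fun h => .inr ⟨h, fun _ a => a.2⟩⟩
  have r : IsR (l1 le y) σ := ⟨hσ.ne, fun e => hσ.low (.inl e), fun e f => (hσ.ch e f).imp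
    (fun g => g.elim id fun g => absurd g.2.2 (c' f))
    fun g => g.elim id fun g => absurd g.2.2 (c' e), fun e => by
      obtain ⟨b, b1, b2 | b2, b3⟩ := hσ.up e
      · exact ⟨b, b1, b2, b3⟩
      · exact absurd b2.2.2 (c' b1)⟩
  obtain ⟨r1, r2⟩ := dn_ray hF r
  refine ⟨_, r1, fun e => ?_, Set.ext fun s => ?_⟩
  · rw [e, tl_x hF hx hy yx] at r2
    exact d r2.symm
  · rw [gl, r2]
    obtain ⟨t, ht⟩ := hσ.ne
    exact ⟨fun h => h.elim id fun h => absurd (fun w a b => h.2 w a ⟨t, ht, b⟩) (c' ht), .inl⟩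

theorem gl_mem (s : S) : (∀ ρ, IsR le ρ → (s ∈ gl le x y ρ ↔ s ∈ ρ)) ∨
    ∃ u, (∀ ρ, IsR le ρ → (s ∈ gl le x y ρ ↔ s ∈ ρ ∧ u ∉ ρ)) ∨
      ∀ ρ, IsR le ρ → (s ∈ gl le x y ρ ↔ s ∈ ρ ∨ u ∉ ρ) := by
  by_cases c : s ∈ y
  · obtain ⟨u, ⟨u1, u2, u3⟩, u4⟩ := hF.wf {b | b ∈ y ∧ le s b ∧ s ≠ b} (hy.up c)
    refine .inr ⟨u, .inl fun ρ hρ => ⟨fun h => h.elim (fun h => ⟨h.1, fun e =>
      u3 (hF.anti u2 (h.2 u u1 e))⟩) fun h => absurd c h.1.2, fun h => .inl ⟨h.1, fun m a b => ?_⟩⟩⟩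
    rcases hy.ch a c with e | e
    · exact e
    by_cases e' : s = m
    · exact e' ▸ hy.rf c
    rcases hy.ch a u1 with f | f
    · exact absurd (u4 m ⟨a, e, e'⟩ f ▸ b) h.2
    · exact absurd (hρ.low f b) h.2
  have t : ∀ ρ, IsR le ρ → (s ∈ tl le y ρ ↔ s ∈ ρ) := fun ρ hρ => ⟨(·.1), fun h => ⟨h, fun m a b =>
    (hρ.ch b h).elim id fun e => absurd (hy.low e a) c⟩⟩
  by_cases d : s ∈ x
  · obtain ⟨u, u1, u2⟩ := hF.wf (x \ y) ⟨s, d, c⟩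
    refine .inr ⟨u, .inr fun ρ hρ => or_congr (t ρ hρ) ⟨fun h => h.2 u u1,
      fun h => ⟨⟨d, c⟩, fun w a b => h ?_⟩⟩⟩
    rcases hx.ch a.1 u1.1 with e | e
    · exact u2 w a e ▸ b
    · exact hρ.low e b
  · exact .inl fun ρ hρ => ⟨fun h => h.elim (·.1) fun h => absurd h.1.1 d,
      fun h => .inl ((t ρ hρ).2 h)⟩

end Pool.Agent.H25.QRay
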