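import Pool.Agent.H25.RayDefs

set_option autoImplicit false
open Set Filter Topology Function

namespace Pool.Agent.H25.Ray

variable {T : Type} [PartialOrder T] {ne : Prop}

theorem IsTree.cmp (hT : IsTree T) {a b c : T} (ha : a ≤ c) (hb : b ≤ c) : a ≤ b ∨ b ≤ a :=
  (hT.2 c).1.total ha hb

theorem IsTree.wf (hT : IsTree T) : WellFoundedLT T := by
  refine ⟨(WellFounded.wellFounded_iff_has_min).2 fun s ⟨a, ha⟩ => ?_⟩
  have h := (hT.2 a).2
  refine ⟨(h.mono (inter_subset_right (s := s))).min ⟨a, ha, le_rfl⟩,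
    ((h.mono inter_subset_right).min_mem _).1, fun x hx hlt => ?_⟩
  exact (h.mono inter_subset_right).not_lt_min _
    ⟨hx, hlt.le.trans ((h.mono inter_subset_right).min_mem _).2⟩ hlt

theorem RS.cmp (x : RS ne T) {a b : T} (ha : x.1 a = true) (hb : x.1 b = true) : a ≤ b ∨ b ≤ a :=
  x.2.2.2.1.total ha hb

theorem RS.low (x : RS ne T) {a b : T} (h : a ≤ b) (hb : x.1 b = true) : x.1 a = true :=
  x.2.2.1 h hb

/-- `u` is a top of the ray `x` -/
def Top (x : RS ne T) (u : T) : Prop := ∀ s, x.1 s = true ↔ s < u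

def B (t : T) (F : Set T) : Set (RS ne T) := {z | z.1 t = true ∧ ∀ u ∈ F, z.1 u = false}

theorem ev_cont (t : T) : Continuous fun z : RS ne T => z.1 t :=
  (continuous_apply t).comp continuous_subtype_val

theorem ev_open (t : T) (b : Bool) : IsOpen {z : RS ne T | z.1 t = b} :=
  (isOpen_discrete {b}).preimage (ev_cont t)

theorem B_open (t : T) {F : Set T} (hF : F.Finite) : IsOpen (B t F : Set (RS ne T)) := by
  have : (B t F : Set (RS ne T)) = {z | z.1 t = true} ∩ ⋂ u ∈ F, {z | z.1 u = false} := by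
    ext z
    simp [B]
  rw [this]
  exact (ev_open t true).inter (hF.isOpen_biInter fun u _ => ev_open u false)

theorem B_self {x : RS ne T} {t : T} {F : Set T} (ht : x.1 t = true) (hF : ∀ u ∈ F, Top x u) :
    x ∈ B t F :=
  ⟨ht, fun u hu => by simpa using fun h => lt_irrefl u ((hF u hu u).1 h)⟩

theorem nb (hT : IsTree T) (x : RS ne T) (hx : ∃ t, x.1 t = true) {U : Set (RS ne T)}
    (hU : U ∈ 𝓝 x) : ∃ t F, x.1 t = true ∧ F.Finite ∧ (∀ u ∈ F, Top x u) ∧ B t F ⊆ U := by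
  have := hT.wf
  rw [nhds_subtype, nhds_pi, mem_comap] at hU
  obtain ⟨U', hU', hs⟩ := hU
  obtain ⟨I, hI, s, h1, h2⟩ := mem_pi.1 hU'
  have key : ∃ t F, x.1 t = true ∧ F.Finite ∧ (∀ u ∈ F, Top x u) ∧
      ∀ z ∈ (B t F : Set (RS ne T)), ∀ i ∈ I, z.1 i = x.1 i := by
    clear h2
    induction I, hI using Set.Finite.induction_on with
    | empty =>
      obtain ⟨t, ht⟩ := hx
      exact ⟨t, ∅, ht, finite_empty, by simp, by simp⟩
    | @insert i I _ _ ih =>
      obtain ⟨t, F, h3, h4, h5, h6⟩ := ih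
      have step : ∀ s, x.1 s = true → (∀ z : RS ne T, z.1 s = true → z.1 i = x.1 i) →
          ∃ t F, x.1 t = true ∧ F.Finite ∧ (∀ u ∈ F, Top x u) ∧
            ∀ z ∈ (B t F : Set (RS ne T)), ∀ j ∈ insert i I, z.1 j = x.1 j := by
        intro s hs hz
        rcases x.cmp hs h3 with h | h
        · refine ⟨t, F, h3, h4, h5, fun z hz' j hj => ?_⟩
          rcases hj with rfl | hj
          · exact hz z (z.low h hz'.1)
          · exact h6 z hz' j hj
        · refine ⟨s, F, hs, h4, h5, fun z hz' j hj => ?_⟩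
          rcases hj with rfl | hj
          · exact hz z hz'.1
          · exact h6 z ⟨z.low h hz'.1, hz'.2⟩ j hj
      by_cases hi : x.1 i = true
      · exact step i hi fun z hz => hz.trans hi.symm
      · by_cases ha : ∀ s, x.1 s = true → s ≤ i
        · obtain ⟨u, ⟨hu, hu'⟩, hm⟩ := wellFounded_lt.has_min {u | u ≤ i ∧ x.1 u ≠ true}
            ⟨i, le_rfl, hi⟩
          refine ⟨t, insert u F, h3, h4.insert u, ?_, fun z hz j hj => ?_⟩
          · rintro v (rfl | hv)
            · refine fun s => ⟨fun hs => ?_, fun hs => ?_⟩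
              · rcases hT.cmp (ha s hs) hu with h | h
                · exact lt_of_le_of_ne h fun e => hu' (e ▸ hs)
                · exact absurd (x.low h hs) hu'
              · by_contra hh
                exact hm s ⟨hs.le.trans hu, hh⟩ hs
            · exact h5 v hv
          · rcases hj with rfl | hj
            · have : z.1 j ≠ true := fun h => by
                have := hz.2 u (mem_insert _ _)
                rw [z.low hu h] at this
                cases this
              simp only [ne_eq, Bool.not_eq_true] at this hi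
              rw [this, hi]
            · exact h6 z ⟨hz.1, fun v hv => hz.2 v (mem_insert_of_mem _ hv)⟩ j hj
        · push Not at ha
          obtain ⟨s, hs, hs'⟩ := ha
          refine step s hs fun z hz => ?_
          have : z.1 i ≠ true := fun h => by
            rcases z.cmp hz h with h' | h'
            · exact hs' h'
            · exact hi (x.low h' hs)
          simp only [ne_eq, Bool.not_eq_true] at this hi
          rw [this, hi]
  obtain ⟨t, F, h3, h4, h5, h6⟩ := key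
  exact ⟨t, F, h3, h4, h5, fun z hz => hs (h2 fun i hi => h6 z hz i hi ▸ mem_of_mem_nhds (h1 i))⟩

theorem iso (hT : IsTree T) (x : RS ne T) (hx : ¬ ∃ t, x.1 t = true) : {x} ∈ 𝓝 x := by
  obtain ⟨r, hr⟩ := hT.1
  refine mem_of_superset ((ev_open r false).mem_nhds (by simpa using fun h => hx ⟨r, h⟩))
    fun z hz => Subtype.ext (funext fun t => ?_)
  have h1 : z.1 t ≠ true := fun h => by
    have := z.low (hr t) h
    rw [hz] at this
    cases this
  have h2 : x.1 t ≠ true := fun h => hx ⟨t, h⟩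
  simp only [ne_eq, Bool.not_eq_true] at h1 h2
  rw [h1, h2]

/-- Ray spaces are monotonically normal. -/
theorem mn (hT : IsTree T) : ∃ μ : RS ne T → Set (RS ne T) → Set (RS ne T),
    (∀ x, ∀ U ∈ 𝓝 x, μ x U ∈ 𝓝 x) ∧ ∀ x y, ∀ U ∈ 𝓝 x, ∀ V ∈ 𝓝 y,
      (μ x U ∩ μ y V).Nonempty → x ∈ V ∨ y ∈ U := by
  have : ∀ (x : RS ne T) (U : Set (RS ne T)), ∃ M, U ∈ 𝓝 x → M ∈ 𝓝 x ∧ M ⊆ U ∧
      (M = {x} ∨ ∃ t F, x.1 t = true ∧ (∀ u ∈ F, Top x u) ∧ M = B t F) := by
    intro x U
    by_cases hU : U ∈ 𝓝 x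
    · by_cases hx : ∃ t, x.1 t = true
      · obtain ⟨t, F, h1, h2, h3, h4⟩ := nb hT x hx hU
        exact ⟨B t F, fun _ => ⟨(B_open t h2).mem_nhds (B_self h1 h3), h4,
          .inr ⟨t, F, h1, h3, rfl⟩⟩⟩
      · exact ⟨{x}, fun _ => ⟨iso hT x hx, singleton_subset_iff.2 (mem_of_mem_nhds hU), .inl rfl⟩⟩
    · exact ⟨∅, fun h => (hU h).elim⟩
  choose μ hμ using this
  have key : ∀ (x y z : RS ne T) t F t' F', x.1 t = true → (∀ u ∈ F, Top x u) → y.1 t' = true →
      (∀ u ∈ F', Top y u) → z ∈ B t F → z ∈ B t' F' → t ≤ t' → y ∈ B t F ∨ x ∈ B t' F' := by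
    intro x y z t F t' F' h1 h2 h3 h4 h5 h6 h
    by_cases hy : y ∈ B t F
    · exact .inl hy
    · right
      have : ∃ u ∈ F, y.1 u = true := by
        by_contra hh
        push Not at hh
        exact hy ⟨y.low h h3, fun u hu => by simpa using hh u hu⟩
      obtain ⟨u, hu, hyu⟩ := this
      refine ⟨(h2 u hu t').2 ?_, fun v hv => ?_⟩
      · rcases y.cmp h3 hyu with h' | h'
        · refine lt_of_le_of_ne h' fun e => ?_
          have := h5.2 u hu
          rw [← e, h6.1] at this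
          cases this
        · have := h5.2 u hu
          rw [z.low h' h6.1] at this
          cases this
      · by_contra hh
        have h7 := y.low ((h2 u hu v).1 (by simpa using hh)).le hyu
        exact lt_irrefl v ((h4 v hv v).1 h7)
  refine ⟨μ, fun x U hU => (hμ x U hU).1, fun x y U hU V hV ⟨z, hz, hz'⟩ => ?_⟩
  obtain ⟨-, a1, a2⟩ := hμ x U hU
  obtain ⟨-, b1, b2⟩ := hμ y V hV
  rcases a2 with a2 | ⟨t, F, a3, a4, a5⟩
  · rw [a2] at hz
    exact .inl (hz ▸ b1 hz')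
  rcases b2 with b2 | ⟨t', F', b3, b4, b5⟩
  · rw [b2] at hz'
    exact .inr (hz' ▸ a1 hz)
  rw [a5] at hz a1
  rw [b5] at hz' b1
  rcases z.cmp hz.1 hz'.1 with h | h
  · exact (key x y z t F t' F' a3 a4 b3 b4 hz hz' h).symm.imp (fun h => b1 h) fun h => a1 h
  · exact (key y x z t' F' t F b3 b4 a3 a4 hz' hz h).imp (fun h => b1 h) fun h => a1 h

/-- An uncountable discrete family all of whose uncountable subfamilies condense outside. -/
def Kat (X : Type) [TopologicalSpace X] : Prop :=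
  ∃ (A : Type) (_ : Uncountable A) (x : A → X) (O : A → Set X), (∀ t, O t ∈ 𝓝 (x t)) ∧
    (∀ s t, x s ∈ O t → s = t) ∧ ∀ A' : Set A, ¬ A'.Countable → ∃ r, (∀ t, r ∉ O t) ∧
      ∀ W ∈ 𝓝 r, ¬ {t ∈ A' | x t ∈ W}.Countable

def Sq (Y : Type) [TopologicalSpace Y] : Prop :=
  ∃ (y : ℕ → Y) (y0 : Y), Tendsto y atTop (𝓝 y0) ∧ ∀ n, {y0}ᶜ ∈ 𝓝 (y n)

theorem pigeon {A ι : Type} [Countable ι] {S : Set A} (hS : ¬ S.Countable) (f : A → ι) :
    ∃ n, ¬ {t ∈ S | f t = n}.Countable := by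
  by_contra h
  push Not at h
  exact hS ((countable_iUnion h).mono fun t ht => mem_iUnion.2 ⟨f t, And.intro ht rfl⟩)

theorem unc_ne {A : Type} {S : Set A} (hS : ¬ S.Countable) : S.Nonempty :=
  nonempty_iff_ne_empty.2 fun h => hS (h ▸ countable_empty)

theorem no_ray {X Y : Type} [TopologicalSpace X] [TopologicalSpace Y] (hX : Kat X) (hY : Sq Y)
    (hT : IsTree T) (j : X × Y → RS ne T) (hj : IsInducing j) : False := by
  obtain ⟨A, hA, x, O, h1, -, h3⟩ := hX
  obtain ⟨y, y0, h4, h5⟩ := hY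
  obtain ⟨μ, m1, m2⟩ := mn (ne := ne) hT
  have e : ∀ p, ∀ U ∈ 𝓝 p, ∃ U' ∈ 𝓝 (j p), j ⁻¹' U' ⊆ U := fun p U hU => by
    rwa [hj.nhds_eq_comap, mem_comap] at hU
  have := fun t => e (x t, y0) (O t ×ˢ univ) (prod_mem_nhds (h1 t) univ_mem)
  choose U hU hU' using this
  have : ∀ t, ∃ n, j (x t, y n) ∈ μ (j (x t, y0)) (U t) := fun t =>
    (((hj.continuous.tendsto _).comp (tendsto_const_nhds.prodMk_nhds h4)).eventually
      (m1 _ _ (hU t))).exists
  choose n hn using this
  obtain ⟨k, hk⟩ := pigeon (S := univ) not_countable_univ n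
  obtain ⟨r, hr, hr'⟩ := h3 _ hk
  obtain ⟨V, hV, hV'⟩ := e (r, y k) (univ ×ˢ {y0}ᶜ) (prod_mem_nhds univ_mem (h5 k))
  have hW : (fun z => j (z, y k)) ⁻¹' μ _ V ∈ 𝓝 r :=
    (hj.continuous.comp (Continuous.prodMk_left _)).continuousAt.preimage_mem_nhds (m1 _ _ hV)
  obtain ⟨t, ⟨-, rfl⟩, ht⟩ := unc_ne (hr' _ hW)
  rcases m2 _ _ _ (hU t) _ hV ⟨_, hn t, ht⟩ with h | h
  · exact (hV' h).2 rfl
  · exact hr t (hU' t h).1

theorem Aronszajn.lev (h : Aronszajn T) (S : Set T) : {s : T | Iio s = S}.Countable := by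
  rcases {s : T | Iio s = S}.eq_empty_or_nonempty with e | ⟨t, ht⟩
  · rw [e]
    exact countable_empty
  · exact (h.2.2.1 t).mono fun s hs => Nonempty.intro (OrderIso.setCongr _ _ (hs.trans ht.symm))

theorem fc (h : Aronszajn T) : FirstCountableTopology (RS ne T) := by
  refine ⟨fun x => ?_⟩
  by_cases hx : ∃ t, x.1 t = true
  · have hc : {p : T × Set T | x.1 p.1 = true ∧ p.2.Finite ∧ ∀ u ∈ p.2, Top x u}.Countable := by
      refine ((h.2.2.2 _ x.2.2.2.1).prod (countable_ofPred_finite_subset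
        (h.lev {s | x.1 s = true}))).mono fun p hp => And.intro hp.1 ⟨hp.2.1, fun u hu => ?_⟩
      exact Set.ext fun s => (hp.2.2 u hu s).symm
    refine HasCountableBasis.isCountablyGenerated (s := fun p => B p.1 p.2) ⟨⟨fun U => ⟨fun hU => ?_,
      fun ⟨p, hp, hs⟩ => mem_of_superset ((B_open _ hp.2.1).mem_nhds (B_self hp.1 hp.2.2)) hs⟩⟩, hc⟩
    obtain ⟨t, F, h1, h2, h3, h4⟩ := nb h.1 x hx hU
    exact ⟨(t, F), ⟨h1, h2, h3⟩, h4⟩
  · have : 𝓝 x = pure x := le_antisymm (le_pure_iff.2 (iso h.1 x hx)) (pure_le_nhds x)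
    rw [this]
    infer_instance

/-- A maximal chain in the set of nodes below uncountably many members of `A`. -/
theorem cond (h : Aronszajn T) {A : Set T} {s0 : T}
    (h0 : ¬ {t ∈ A | s0 ≤ t}.Countable) : ∃ r : RS ne T, r.1 s0 = true ∧
    (∀ s, r.1 s = true → ¬ {t ∈ A | s ≤ t}.Countable) ∧
    ∀ u, Top r u → {t ∈ A | u ≤ t}.Countable := by
  classical
  have := h.1.wf
  let S : Set T := {s | ¬ {t ∈ A | s ≤ t}.Countable}
  obtain ⟨C, hC0, hC⟩ := zorn_subset_nonempty {C | C ⊆ S ∧ IsChain (· ≤ ·) C}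
    (fun c hc hcc _ => ⟨⋃₀ c, ⟨sUnion_subset fun C hC => (hc hC).1, by
      rintro a ⟨C, hC, ha⟩ b ⟨D, hD, hb⟩ hab
      rcases hcc.total hC hD with h' | h'
      · exact (hc hD).2 (h' ha) hb hab
      · exact (hc hC).2 ha (h' hb) hab⟩,
      fun C hC => subset_sUnion_of_mem hC⟩) {s0} ⟨singleton_subset_iff.2 h0, by simp⟩
  · have add : ∀ u ∈ S, (∀ c ∈ C, c ≤ u ∨ u ≤ c) → u ∈ C := fun u hu hc =>
      hC.2 ⟨insert_subset hu hC.1.1, hC.1.2.insert fun c hc' _ => (hc c hc').symm⟩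
        (subset_insert u C) (mem_insert u C)
    refine ⟨⟨fun t => decide (t ∈ C), fun _ => ⟨s0, by simpa using hC0⟩, ?_, ?_, ?_⟩,
      by simpa using hC0, fun s hs => hC.1.1 (by simpa using hs), fun u hu => ?_⟩
    · simp only [decide_eq_true_eq]
      intro a b hab ha
      refine add b (fun hh => hC.1.1 ha (hh.mono fun t ht => And.intro ht.1 (hab.trans ht.2)))
        fun c hc => ?_
      rcases hC.1.2.total ha hc with h' | h'
      · exact .inr (hab.trans h')
      · exact h.1.cmp h' hab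
    · simpa using hC.1.2
    · simp only [decide_eq_true_eq]
      intro t ht
      by_contra hh
      push Not at hh
      apply hC.1.1 ht
      refine ((countable_singleton t).union ((h.lev (Iic t)).biUnion
        (t := fun u _ => {t' ∈ A | u ≤ t'}) fun u hu => ?_)).mono fun t' ht' => ?_
      · by_contra h2
        have h3 : t < u := (hu.ge : Iic t ⊆ Iio u) le_rfl
        refine hh u (add u h2 fun c hc => .inl ?_) h3
        rcases hC.1.2.total hc ht with h' | h'
        · exact h'.trans h3.le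
        · rcases h'.eq_or_lt with e | e
          · exact e ▸ h3.le
          · exact absurd e (hh c hc)
      · rcases ht'.2.eq_or_lt with e | e
        · exact .inl e.symm
        · obtain ⟨u, ⟨hu, hu'⟩, hm⟩ := wellFounded_lt.has_min {u | t < u ∧ u ≤ t'} ⟨t', e, le_rfl⟩
          refine .inr (mem_iUnion₂.2 ⟨u, Set.ext fun s => ⟨fun hs => ?_, fun hs =>
            lt_of_le_of_lt hs hu⟩, ht'.1, hu'⟩)
          rcases h.1.cmp (le_of_lt hs) hu.le with h' | h'
          · exact h'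
          · rcases h'.eq_or_lt with e | e
            · exact e.ge
            · exact absurd hs (hm s ⟨e, (le_of_lt hs).trans hu'⟩)
    · by_contra hh
      have := add u hh fun c hc => .inl ((hu c).1 (by simpa using hc)).le
      exact lt_irrefl u ((hu u).1 (by simpa using this))

theorem rk_surj [WellFoundedLT T] (a : T) : ∀ o < IsWellFounded.rank (· < ·) a,
    ∃ b < a, IsWellFounded.rank (· < ·) b = o := by
  induction a using WellFoundedLT.induction with
  | ind a ih =>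
    intro o ho
    rw [IsWellFounded.rank_eq, Ordinal.lt_iSup_iff] at ho
    obtain ⟨⟨b, hb⟩, ho⟩ := ho
    rcases (Order.lt_succ_iff.1 ho).eq_or_lt with e | e
    · exact ⟨b, hb, e.symm⟩
    · obtain ⟨c, hc, e'⟩ := ih b hb o e
      exact ⟨c, hc.trans hb, e'⟩

theorem rk_iso (hT : IsTree T) [WellFoundedLT T] (a : T) :
    Nonempty (Iio a ≃o Iio (IsWellFounded.rank (α := T) (· < ·) a)) := by
  have hm : StrictMono (IsWellFounded.rank (α := T) (· < ·)) := fun _ _ h =>
    IsWellFounded.rank_lt_of_rel h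
  have key : ∀ b c : Iio a, IsWellFounded.rank (α := T) (· < ·) b.1 ≤
      IsWellFounded.rank (α := T) (· < ·) c.1 ↔ b ≤ c := fun b c =>
    ⟨fun h => (hT.cmp (le_of_lt b.2) (le_of_lt c.2)).elim id fun h' =>
      h'.eq_or_lt.elim (fun e => e.ge) fun e => absurd (hm e) (not_lt.2 h),
    fun h => hm.monotone h⟩
  refine ⟨⟨Equiv.ofBijective (fun b => ⟨_, hm b.2⟩) ⟨fun b c h => ?_, fun o => ?_⟩, key _ _⟩⟩
  · have := congrArg Subtype.val h
    exact le_antisymm ((key b c).1 this.le) ((key c b).1 this.ge)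
  · obtain ⟨b, hb, e⟩ := rk_surj a o.1 o.2
    exact ⟨⟨b, hb⟩, Subtype.ext e⟩

theorem big (h : Aronszajn T) : ¬ {s : T | ¬ {t ∈ (univ : Set T) | s ≤ t}.Countable}.Countable := by
  have := h.1.wf
  have := h.2.1
  set S := {s : T | ¬ {t ∈ (univ : Set T) | s ≤ t}.Countable}
  intro hc
  let rk := IsWellFounded.rank (α := T) (· < ·)
  have hl : ∀ o, {t | rk t = o}.Countable := by
    intro o
    rcases {t | rk t = o}.eq_empty_or_nonempty with e | ⟨t, ht⟩
    · rw [e]
      exact countable_empty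
    · refine (h.2.2.1 t).mono fun s hs => ?_
      obtain ⟨f⟩ := rk_iso h.1 s
      obtain ⟨g⟩ := rk_iso h.1 t
      exact ⟨f.trans ((OrderIso.setCongr _ _ (congrArg Iio (hs.trans ht.symm))).trans g.symm)⟩
  let γ := ⨆ s : S, Order.succ (rk s)
  have h1 : ∀ u, rk u = γ → u ∉ S := fun u hu hS =>
    absurd (Ordinal.le_iSup (fun s : S => Order.succ (rk s)) ⟨u, hS⟩)
      (not_le.2 (by rw [show iSup (fun s : S => Order.succ (rk s)) = rk u from hu.symm]
                    exact Order.lt_succ _))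
  refine not_countable_univ (((hc.biUnion fun s _ => (h.2.2.2 _ (h.1.2 s).1).biUnion
    fun b _ => hl (rk b)).union ((hl γ).biUnion (t := fun u _ => {t ∈ univ | u ≤ t})
      fun u hu => not_not.1 (h1 u hu))).mono fun t _ => ?_)
  rcases lt_trichotomy (rk t) γ with e | e | e
  · obtain ⟨s, hs⟩ := Ordinal.lt_iSup_iff.1 e
    left
    rcases (Order.lt_succ_iff.1 hs).eq_or_lt with e' | e'
    · exact mem_iUnion₂.2 ⟨s, s.2, mem_iUnion₂.2 ⟨s, le_rfl, e'⟩⟩
    · obtain ⟨b, hb, e2⟩ := rk_surj s.1 _ e'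
      exact mem_iUnion₂.2 ⟨s, s.2, mem_iUnion₂.2 ⟨b, hb.le, e2.symm⟩⟩
  · exact .inr (mem_iUnion₂.2 ⟨t, e, trivial, le_rfl⟩)
  · obtain ⟨b, hb, e2⟩ := rk_surj t _ e
    exact .inr (mem_iUnion₂.2 ⟨b, e2, trivial, hb.le⟩)

theorem kat (h : Aronszajn T) (hs : Special T) : Kat (RS ne T) := by
  have := h.2.1
  obtain ⟨A, hA, hA'⟩ := hs
  obtain ⟨ρ, hρ⟩ := h.1.1
  have hc : ∀ t, ∃ n, t ∈ A n := fun t => mem_iUnion.1 (hA' ▸ mem_univ t)
  choose c hc using hc
  obtain ⟨n, hn⟩ := pigeon (big h) c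
  set A0 := {t ∈ {s : T | ¬ {t ∈ (univ : Set T) | s ≤ t}.Countable} | c t = n}
  have ha : ∀ s t : A0, s.1 ≤ t.1 → s = t := fun s t hst =>
    Subtype.ext ((hA n).eq (s.2.2 ▸ hc s.1) (t.2.2 ▸ hc t.1) hst)
  have := fun t : A0 => cond (ne := ne) h t.2.1
  choose x hx _ using this
  refine ⟨A0, ⟨fun hh => hn hh⟩, x, fun t => {z | z.1 t = true},
    fun t => (ev_open _ _).mem_nhds (hx t), fun s t hst => ?_, fun A' hA' => ?_⟩
  · exact ((x s).cmp (hx s) hst).elim (ha s t) fun h' => (ha t s h').symm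
  have inj : ∀ S : Set A0, (Subtype.val '' S).Countable → S.Countable := fun S hS =>
    (hS.preimage_of_injOn Subtype.val_injective.injOn).mono (subset_preimage_image _ _)
  obtain ⟨r, r0, r1, r2⟩ := cond (ne := ne) h (A := Subtype.val '' A')
    (s0 := ρ) fun hh => hA' (inj _ (hh.mono fun t ht => And.intro ht (hρ t)))
  refine ⟨r, fun t ht => r1 t ht ((countable_singleton t.1).mono ?_), fun W hW hh => ?_⟩
  · rintro _ ⟨⟨s, -, rfl⟩, hs⟩
    exact congrArg Subtype.val (ha t s hs).symm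
  obtain ⟨s, F, h1, h2, h3, h4⟩ := nb h.1 r ⟨ρ, r0⟩ hW
  refine r1 s h1 (((hh.image Subtype.val).union (h2.countable.biUnion fun u hu =>
    (r2 u (h3 u hu)).union (h.2.2.2 _ (h.1.2 u).1))).mono ?_)
  rintro _ ⟨⟨t, ht, rfl⟩, hs⟩
  by_cases hu : ∃ u ∈ F, (x t).1 u = true
  · obtain ⟨u, hu, hu'⟩ := hu
    exact .inr (mem_iUnion₂.2 ⟨u, hu, ((x t).cmp hu' (hx t)).imp (fun h' => ⟨⟨t, ht, rfl⟩, h'⟩) id⟩)
  · push Not at hu
    exact .inl ⟨t, ⟨ht, h4 ⟨(x t).low hs (hx t), fun u hu' => by simpa using hu u hu'⟩⟩, rfl⟩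

theorem Kat.sq {X : Type} [TopologicalSpace X] [T1Space X] [FirstCountableTopology X]
    (h : Kat X) : Sq X := by
  obtain ⟨A, hA, x, O, h1, -, h3⟩ := h
  obtain ⟨r, hr, hr'⟩ := h3 univ not_countable_univ
  have : r ∈ closure (range x) := mem_closure_iff_nhds.2 fun W hW => by
    obtain ⟨t, -, ht⟩ := unc_ne (hr' W hW)
    exact ⟨_, ht, t, rfl⟩
  obtain ⟨y, hy, hy'⟩ := mem_closure_iff_seq_limit.1 this
  refine ⟨y, r, hy', fun n => compl_singleton_mem_nhds fun e => ?_⟩
  obtain ⟨t, ht⟩ := hy n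
  exact hr t (e ▸ ht ▸ mem_of_mem_nhds (h1 t))

end Pool.Agent.H25.Ray
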