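import Pool.Agent.H25.QRay1
import Pool.Agent.H25.RayS

set_option autoImplicit false
open Set Topology Pool.Agent.H25.Ray

namespace Pool.Agent.H25.QRay

variable {S X : Type} [TopologicalSpace X]

def Pr (P : Set X) (φ : X → Set S) : Prop :=
  ∀ s, IsOpen {z | z ∈ P ∧ s ∈ φ z} ∧ IsOpen {z | z ∈ P ∧ s ∉ φ z}

theorem opc {A B : Set X} (h : IsOpen A) (e : ∀ z, z ∈ B ↔ z ∈ A) : IsOpen B :=
  (Set.ext e : B = A) ▸ h

theorem fix {le : S → S → Prop} {D : Set S} (hF : Fo le D) {P : Set X} {φ : X → Set S}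
    (hφ : Pr P φ) (inj : InjOn φ P) (ray : ∀ z ∈ P, IsR le (φ z))
    (one : ∀ ρ σ, IsR le ρ → IsR le σ → ρ ∉ φ '' P → σ ∉ φ '' P → ρ = σ) :
    ∃ (le' : S → S → Prop) (ψ : X → Set S), Fo le' D ∧ Pr P ψ ∧ BijOn ψ P {ρ | IsR le' ρ} := by
  by_cases c : ∃ x, IsR le x ∧ x ∉ φ '' P
  swap
  · exact ⟨le, φ, hF, hφ, ray, inj, fun ρ hρ => by_contra fun e => c ⟨ρ, hρ, e⟩⟩
  obtain ⟨x, hx, hx'⟩ := c
  obtain ⟨y, hy, yx, hm⟩ := exists_y hF hx
  have ne : ∀ z ∈ P, φ z ≠ x := fun z hz e => hx' ⟨z, hz, e⟩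
  refine ⟨_, fun z => gl le x y (φ z), fo2 hF hx hy yx, fun s => ?_,
    fun z hz => gl_ray hF hx hy yx hm (ray z hz) (ne z hz), fun z hz w hw e =>
      inj hz hw (gl_inj hF hx hy yx hm (ray z hz) (ray w hw) (ne z hz) (ne w hw) e),
    fun σ hσ => ?_⟩
  · obtain h | ⟨u, h | h⟩ := gl_mem hF hx hy yx s
    · exact ⟨opc (hφ s).1 fun z => and_congr_right fun hz => h _ (ray z hz),
        opc (hφ s).2 fun z => and_congr_right fun hz => (h _ (ray z hz)).not⟩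
    · refine ⟨opc ((hφ s).1.inter (hφ u).2) fun z => ?_, opc ((hφ s).2.union (hφ u).1) fun z => ?_⟩
      all_goals
        have := fun hz => h _ (ray z hz)
        simp only [mem_inter_iff, mem_union, mem_ofPred_eq]
        tauto
    · refine ⟨opc ((hφ s).1.union (hφ u).2) fun z => ?_, opc ((hφ s).2.inter (hφ u).1) fun z => ?_⟩
      all_goals
        have := fun hz => h _ (ray z hz)
        simp only [mem_inter_iff, mem_union, mem_ofPred_eq]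
        tauto
  · obtain ⟨ρ, r1, r2, rfl⟩ := gl_surj hF hx hy yx hσ
    obtain ⟨z, hz, rfl⟩ : ρ ∈ φ '' P := by_contra fun e => r2 (one _ _ r1 hx e hx')
    exact ⟨z, hz, rfl⟩

theorem sum {ι : Type} (lab : S → ι) (P : ι → Set X) (hP : ∀ i, IsOpen (P i))
    (dj : ∀ i j z, z ∈ P i → z ∈ P j → i = j)
    (h : ∀ i, ∃ (le : S → S → Prop) (ψ : X → Set S), Fo le {s | lab s = i} ∧ Pr (P i) ψ ∧
      BijOn ψ (P i) {ρ | IsR le ρ}) :
    ∃ (le : S → S → Prop) (ψ : X → Set S), Fo le univ ∧ Pr (⋃ i, P i) ψ ∧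
      BijOn ψ (⋃ i, P i) {ρ | IsR le ρ} := by
  choose le ψ h1 h2 h3 using h
  have l1 : ∀ {i a b}, le i a b → lab a = i := fun e => ((h1 _).mem e).1
  have l2 : ∀ {i a b}, le i a b → lab b = i := fun e => ((h1 _).mem e).2
  have e : ∀ i, ∀ z ∈ P i, {s | z ∈ P (lab s) ∧ s ∈ ψ (lab s) z} = ψ i z := fun i z hz =>
    Set.ext fun s => ⟨fun a => dj _ _ z a.1 hz ▸ a.2, fun a => by
      have := l1 (IsR.rf ((h3 i).1 hz) a)
      subst this
      exact ⟨hz, a⟩⟩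
  refine ⟨fun a b => ∃ i, le i a b, fun z => {s | z ∈ P (lab s) ∧ s ∈ ψ (lab s) z},
    ⟨fun _ => ⟨trivial, trivial⟩, fun _ => ⟨_, (h1 _).refl rfl⟩, ?_, ?_, ?_, fun A ⟨a, ha⟩ => ?_⟩,
    fun s => ⟨opc (h2 _ s).1 fun z => ⟨(·.2), fun a => ⟨mem_iUnion.2 ⟨_, a.1⟩, a⟩⟩,
      opc ((h2 (lab s) s).2.union (isOpen_iUnion fun j : {j // j ≠ lab s} => hP j)) fun z => ?_⟩,
    fun z hz => ?_, fun z hz w hw f => ?_, fun ρ hρ => ?_⟩
  · rintro a b c ⟨i, u⟩ ⟨j, v⟩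
    obtain rfl := (l2 u).symm.trans (l1 v)
    exact ⟨i, (h1 i).trans u v⟩
  · rintro a b ⟨i, u⟩ ⟨j, v⟩
    obtain rfl := (l2 u).symm.trans (l1 v)
    exact (h1 i).anti u v
  · rintro a b c ⟨i, u⟩ ⟨j, v⟩
    obtain rfl := (l2 u).symm.trans (l2 v)
    exact ((h1 i).cmp u v).imp (⟨i, ·⟩) (⟨i, ·⟩)
  · obtain ⟨b, b1, b2⟩ := (h1 (lab a)).wf (A ∩ {s | lab s = lab a}) ⟨a, ha, rfl⟩
    refine ⟨b, b1.1, ?_⟩
    rintro c hc ⟨i, u⟩
    obtain rfl := (l2 u).symm.trans b1.2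
    exact b2 c ⟨hc, l1 u⟩ u
  · refine ⟨fun ⟨a, b⟩ => ?_, fun a => a.elim (fun a => ⟨mem_iUnion.2 ⟨_, a.1⟩, fun b => a.2 b.2⟩)
      fun a => ?_⟩
    · obtain ⟨i, hi⟩ := mem_iUnion.1 a
      by_cases c : i = lab s
      · exact .inl ⟨c ▸ hi, fun d => b ⟨c ▸ hi, d⟩⟩
      · exact .inr (mem_iUnion.2 ⟨⟨i, c⟩, hi⟩)
    · obtain ⟨⟨i, c⟩, hi⟩ := mem_iUnion.1 a
      exact ⟨mem_iUnion.2 ⟨i, hi⟩, fun b => c (dj _ _ z hi b.1)⟩
  · obtain ⟨i, hi⟩ := mem_iUnion.1 hz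
    have r : IsR (le i) (ψ i z) := (h3 i).1 hi
    change IsR _ {s | z ∈ P (lab s) ∧ s ∈ ψ (lab s) z}
    rw [e i z hi]
    refine ⟨r.ne, ?_, fun a b => (r.ch a b).imp (⟨i, ·⟩) (⟨i, ·⟩), fun a =>
      (r.up a).imp fun b hb => ⟨hb.1, ⟨i, hb.2.1⟩, hb.2.2⟩⟩
    rintro a b ⟨j, u⟩ hb
    obtain rfl := (l2 u).symm.trans (l1 (r.rf hb))
    exact r.low u hb
  · obtain ⟨i, hi⟩ := mem_iUnion.1 hz
    obtain ⟨j, hj⟩ := mem_iUnion.1 hw
    simp only [e i z hi, e j w hj] at f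
    obtain ⟨s, hs⟩ := IsR.ne ((h3 i).1 hi)
    obtain rfl := (l1 (IsR.rf ((h3 i).1 hi) hs)).symm.trans (l1 (IsR.rf ((h3 j).1 hj) (f ▸ hs)))
    exact (h3 i).2.1 hi hj f
  · have r : IsR (fun a b => ∃ i, le i a b) ρ := hρ
    obtain ⟨s, hs⟩ := r.ne
    have a : ∀ {t}, t ∈ ρ → lab t = lab s := fun ht => (r.ch ht hs).elim
      (fun ⟨_, u⟩ => (l1 u).trans (l2 u).symm) fun ⟨_, u⟩ => (l2 u).trans (l1 u).symm
    have b : ∀ {t u}, t ∈ ρ → (∃ i, le i t u) → le (lab s) t u := fun ht ⟨_, u⟩ =>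
      (l1 u).symm.trans (a ht) ▸ u
    obtain ⟨z, hz, f⟩ := (h3 (lab s)).2.2 (show IsR (le (lab s)) ρ from ⟨⟨s, hs⟩,
      fun u => r.low ⟨_, u⟩, fun u v => (r.ch u v).imp (b u) (b v),
      fun u => (r.up u).imp fun _ v => ⟨v.1, b u v.2.1, v.2.2⟩⟩)
    exact ⟨z, mem_iUnion.2 ⟨_, hz⟩, (e _ z hz).trans f⟩

@[reducible] def po {le : S → S → Prop} (hF : Fo le univ) : PartialOrder (Option S) where
  le a b := ∀ t, a = some t → ∃ u, b = some u ∧ le t u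
  lt a b := (∀ t, a = some t → ∃ u, b = some u ∧ le t u) ∧
    ¬ ∀ t, b = some t → ∃ u, a = some u ∧ le t u
  le_refl _ t h := ⟨t, h, hF.refl trivial⟩
  le_trans _ _ _ h h' t e :=
    let ⟨u, u1, u2⟩ := h t e
    let ⟨v, v1, v2⟩ := h' u u1
    ⟨v, v1, hF.trans u2 v2⟩
  le_antisymm a b h h' := by
    rcases a with _ | a <;> rcases b with _ | b
    · rfl
    · simpa using h' b rfl
    · simpa using h a rfl
    · exact congrArg some (hF.anti (by simpa using h a rfl) (by simpa using h' b rfl))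

theorem conv {le : S → S → Prop} (hF : Fo le univ) {U : Set X} {ψ : X → Set S} (h1 : Pr U ψ)
    (h2 : BijOn ψ U {ρ | IsR le ρ}) : ∃ (T : Type) (_ : PartialOrder T), IsTree T ∧
      ∃ f : U → RS True T, Continuous f ∧ Function.Bijective f := by
  classical
  letI := po hF
  have l0 : ∀ b : Option S, none ≤ b := fun b t h => by simp at h
  have l1 : ∀ {a b : S}, some a ≤ some b ↔ le a b := ⟨fun h => by simpa using h _ rfl,
    fun h t e => ⟨_, rfl, Option.some.inj e ▸ h⟩⟩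
  have l2 : ∀ {a : S} {b : Option S}, some a ≤ b → ∃ u, b = some u ∧ le a u := fun h => h _ rfl
  have wf : WellFoundedLT (Option S) := ⟨WellFounded.wellFounded_iff_has_min.2 fun A ⟨a, ha⟩ => by
    by_cases c : none ∈ A
    · exact ⟨none, c, fun b _ => (l0 b).not_gt⟩
    rcases a with _ | a
    · exact absurd ha c
    obtain ⟨b, b1, b2⟩ := hF.wf (some ⁻¹' A) ⟨a, ha⟩
    refine ⟨some b, b1, ?_⟩
    rintro (_ | d) hd e
    · exact c hd
    · exact e.ne (congrArg some (b2 d hd (l1.1 e.le)))⟩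
  refine ⟨Option S, inferInstance, ⟨⟨none, l0⟩, fun t => ⟨?_, IsWF.of_wellFoundedLT _⟩⟩,
    fun z => ⟨fun o => decide (∀ t, o = some t → t ∈ ψ z), fun _ => ⟨none, by simp⟩, ?_, ?_, ?_⟩,
    Continuous.subtype_mk (continuous_pi fun o => ?_) _, fun z w e => ?_, fun r => ?_⟩
  · rintro (_ | a) ha (_ | b) hb -
    · exact .inl (l0 _)
    · exact .inl (l0 _)
    · exact .inr (l0 _)
    obtain ⟨u, rfl, u1⟩ := l2 ha
    exact (hF.cmp u1 (l1.1 hb)).imp l1.2 l1.2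
  · rintro a (_ | b) e ha
    · simp
    obtain ⟨u, rfl, u1⟩ := l2 e
    simpa using IsR.low (h2.1 z.2) u1 (by simpa using ha)
  · rintro (_ | a) ha (_ | b) hb -
    · exact .inl (l0 _)
    · exact .inl (l0 _)
    · exact .inr (l0 _)
    exact (IsR.ch (h2.1 z.2) (by simpa using ha) (by simpa using hb)).imp l1.2 l1.2
  · rintro (_ | a) ha
    · obtain ⟨s, hs⟩ := IsR.ne (h2.1 z.2)
      exact ⟨some s, by simpa using hs, lt_of_le_of_ne (l0 _) (by simp)⟩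
    · obtain ⟨s, s1, s2, s3⟩ := IsR.up (h2.1 z.2) (a := a) (by simpa using ha)
      exact ⟨some s, by simpa using s1, lt_of_le_of_ne (l1.2 s2) (by simpa using s3)⟩
  · rcases o with _ | t
    · simpa using continuous_const
    refine (continuous_bool_rng true).2 ⟨⟨opc ((h1 t).2.preimage continuous_subtype_val) ?_⟩,
      opc ((h1 t).1.preimage continuous_subtype_val) ?_⟩ <;> simp
  · refine Subtype.ext (h2.2.1 z.2 w.2 (Set.ext fun t => ?_))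
    simpa using congrFun (congrArg Subtype.val e) (some t)
  · obtain ⟨a, ha⟩ := r.2.1 trivial
    have r0 := r.low (l0 a) ha
    have up : ∀ {o}, r.1 o = true → ∃ s, r.1 (some s) = true ∧ o < some s := fun ho => by
      obtain ⟨_ | s, s1, s2⟩ := r.2.2.2.2 _ ho
      · exact absurd s2 (l0 _).not_gt
      · exact ⟨s, s1, s2⟩
    obtain ⟨z, hz, e⟩ := h2.2.2 (show IsR le {t | r.1 (some t) = true} from
      ⟨(up r0).imp fun _ h => h.1, fun u => r.low (l1.2 u), fun u v => (r.cmp u v).imp l1.1 l1.1,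
        fun u => (up u).imp fun _ h => ⟨h.1, l1.1 h.2.le, fun c => h.2.ne (congrArg some c)⟩⟩)
    refine ⟨⟨z, hz⟩, Subtype.ext (funext fun o => ?_)⟩
    rcases o with _ | t
    · simp [r0]
    · simp [e]

variable {T : Type} [PartialOrder T]

def lab (U : Set (RS True T)) (t : T) : Set (RS True T) :=
  {c | c ∉ U ∧ ∀ a ≤ t, (∃ c' ∉ U, c'.1 a = true) → c.1 a = true}

theorem lab_anti (U : Set (RS True T)) : Antitone (lab U) :=
  fun _ _ h _ hc => ⟨hc.1, fun a ha => hc.2 a (ha.trans h)⟩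

def Q (U Γ : Set (RS True T)) : Set (RS True T) :=
  {z | ∃ s, z.1 s = true ∧ ∀ t, z.1 t = true → s ≤ t → lab U t = Γ}

theorem Q_cof {U Γ : Set (RS True T)} {z : RS True T} (h : z ∈ Q U Γ) {t : T}
    (ht : z.1 t = true) : ∃ u, z.1 u = true ∧ lab U u = Γ ∧ t ≤ u := by
  obtain ⟨s, s1, s2⟩ := h
  rcases z.cmp s1 ht with e | e
  · exact ⟨t, ht, s2 t ht e, le_rfl⟩
  · exact ⟨s, s1, s2 s s1 le_rfl, e⟩

theorem Q_dj {U Γ Δ : Set (RS True T)} {z : RS True T} (h : z ∈ Q U Γ) (h' : z ∈ Q U Δ) :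
    Γ = Δ := by
  obtain ⟨s, s1, s2⟩ := h
  obtain ⟨u, u1, u2, u3⟩ := Q_cof h' s1
  exact (s2 u u1 u3).symm.trans u2

theorem rs_ext {z w : RS True T} (h : ∀ t, z.1 t = true → w.1 t = true)
    (h' : ∀ t, w.1 t = true → z.1 t = true) : z = w :=
  Subtype.ext (funext fun t => Bool.eq_iff_iff.2 ⟨h t, h' t⟩)

theorem main (hT : IsTree T) {U : Set (RS True T)} (hU : IsOpen U) :
    ∃ (T' : Type) (_ : PartialOrder T'), IsTree T' ∧
      ∃ f : U → RS True T', Continuous f ∧ Function.Bijective f := by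
  classical
  have key : ∀ z ∈ U, ∃ Γ, U ∩ Q U Γ ∈ 𝓝 z := fun z hz => by
    obtain ⟨s, F, a1, a2, a3, a4⟩ := nb hT z (z.2.1 trivial) (hU.mem_nhds hz)
    refine ⟨lab U s, Filter.mem_of_superset ((B_open s a2).mem_nhds (B_self a1 a3))
      fun w hw => ⟨a4 hw, s, hw.1, fun t ht h => (lab_anti U h).antisymm ?_⟩⟩
    refine fun c hc => ⟨hc.1, ?_⟩
    rintro a ha ⟨d, d1, d2⟩
    rcases w.cmp (w.low ha ht) hw.1 with e | e
    · exact hc.2 a e ⟨d, d1, d2⟩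
    have top : ∀ c : RS True T, c.1 s = true → c ∉ B s F → ∃ u ∈ F, c.1 u = true := fun c h1 h2 => by
      by_contra h3
      exact h2 ⟨h1, fun u hu => by simpa using fun h4 => h3 ⟨u, hu, h4⟩⟩
    obtain ⟨u, u1, u2⟩ := top d (d.low e d2) fun h => d1 (a4 h)
    have az : z.1 a = true := (a3 u u1 a).2 ((d.cmp d2 u2).elim (fun f => lt_of_le_of_ne f
      fun g => by have := w.low ha ht; rw [g, hw.2 u u1] at this; simp at this) fun f => by
        have := w.low (f.trans ha) ht; rw [hw.2 u u1] at this; simp at this)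
    obtain ⟨v, v1, v2⟩ := top c (hc.2 s le_rfl ⟨d, d1, d.low e d2⟩) fun h => hc.1 (a4 h)
    exact c.low ((a3 v v1 a).1 az).le v2
  have cov : ⋃ Γ, U ∩ Q U Γ = U := (iUnion_subset fun _ => inter_subset_left).antisymm fun z hz =>
    mem_iUnion.2 ((key z hz).imp fun _ => mem_of_mem_nhds)
  have op : ∀ Γ, IsOpen (U ∩ Q U Γ) := fun Γ => isOpen_iff_mem_nhds.2 fun z hz => by
    obtain ⟨Δ, h⟩ := key z hz.1
    rwa [Q_dj hz.2 (mem_of_mem_nhds h).2]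
  obtain ⟨le, ψ, h1, h2, h3⟩ := sum (lab U) (fun Γ => U ∩ Q U Γ) op
    (fun _ _ _ a b => Q_dj a.2 b.2) fun Γ => by
      have inj : ∀ z ∈ Q U Γ, ∀ w ∈ Q U Γ, {t | z.1 t = true ∧ lab U t = Γ} ⊆
          {t | w.1 t = true ∧ lab U t = Γ} → ∀ t, z.1 t = true → w.1 t = true := fun z a w _ e t ht => by
        obtain ⟨u, u1, u2, u3⟩ := Q_cof a ht
        exact w.low u3 (e ⟨u1, u2⟩).1
      have btw : ∀ {a b c}, a ≤ b → b ≤ c → lab U a = Γ → lab U c = Γ → lab U b = Γ :=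
        fun h h' e e' => (e ▸ lab_anti U h).antisymm (e' ▸ lab_anti U h')
      have sur : ∀ ρ, IsR (fun a b => a ≤ b ∧ lab U a = Γ ∧ lab U b = Γ) ρ →
          ∃ z ∈ Q U Γ, {t | z.1 t = true ∧ lab U t = Γ} = ρ := fun ρ r => by
        obtain ⟨s, hs⟩ := r.ne
        refine ⟨⟨fun t => decide (∃ u ∈ ρ, t ≤ u), fun _ => ⟨s, decide_eq_true ⟨s, hs, le_rfl⟩⟩,
          fun a b e h => ?_, fun a ha b hb _ => ?_, fun a h => ?_⟩,
          ⟨s, decide_eq_true ⟨s, hs, le_rfl⟩, fun t ht e => ?_⟩, Set.ext fun t => ⟨fun h => ?_,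
            fun h => ⟨decide_eq_true ⟨t, h, le_rfl⟩, (r.rf h).2.1⟩⟩⟩
        · obtain ⟨u, u1, u2⟩ := of_decide_eq_true h
          exact decide_eq_true ⟨u, u1, e.trans u2⟩
        · obtain ⟨u, u1, u2⟩ := of_decide_eq_true ha
          obtain ⟨v, v1, v2⟩ := of_decide_eq_true hb
          exact (r.ch u1 v1).elim (fun e => hT.cmp (u2.trans e.1) v2)
            fun e => hT.cmp u2 (v2.trans e.1)
        · obtain ⟨u, u1, u2⟩ := of_decide_eq_true h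
          obtain ⟨v, v1, v2, v3⟩ := r.up u1
          exact ⟨v, decide_eq_true ⟨v, v1, le_rfl⟩, u2.trans_lt (lt_of_le_of_ne v2.1 v3)⟩
        · obtain ⟨u, u1, u2⟩ := of_decide_eq_true ht
          exact btw e u2 (r.rf hs).2.1 (r.rf u1).2.1
        · obtain ⟨u, u1, u2⟩ := of_decide_eq_true h.1
          exact r.low ⟨u2, h.2, (r.rf u1).2.1⟩ u1
      have bad : ∀ c ∈ Q U Γ, c ∉ U → ∀ d ∈ Q U Γ, d ∉ U → ∀ t, c.1 t = true → d.1 t = true :=
        fun c c1 c2 d ⟨s, s1, s2⟩ d2 t ht => by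
          obtain ⟨u, u1, u2, u3⟩ := Q_cof c1 ht
          have : d ∈ lab U u := by
            rw [u2, ← s2 s s1 le_rfl]
            exact ⟨d2, fun a ha _ => d.low ha s1⟩
          exact this.2 t u3 ⟨c, c2, ht⟩
      refine fix (le := fun a b => a ≤ b ∧ lab U a = Γ ∧ lab U b = Γ)
        (φ := fun z => {t | z.1 t = true ∧ lab U t = Γ}) ⟨fun h => h.2, fun h => ⟨le_rfl, h, h⟩,
          fun h h' => ⟨h.1.trans h'.1, h.2.1, h'.2.2⟩, fun h h' => h.1.antisymm h'.1,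
          fun h h' => (hT.cmp h.1 h'.1).imp (⟨·, h.2.1, h'.2.1⟩) (⟨·, h'.2.1, h.2.1⟩),
          fun A hA => ?_⟩
        (fun t => ⟨opc ((op Γ).inter ((ev_open t true).inter (isOpen_const (p := lab U t = Γ))))
          fun z => Iff.rfl, opc ((op Γ).inter ((ev_open t false).union
            (isOpen_const (p := ¬ lab U t = Γ)))) fun z => and_congr_right fun _ => ?_⟩)
        (fun z a w b e => rs_ext (inj z a.2 w b.2 e.subset) (inj w b.2 z a.2 e.symm.subset))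
        (fun z hz => ⟨?_, fun e h => ⟨z.low e.1 h.1, e.2.1⟩, fun a b =>
          (z.cmp a.1 b.1).imp (⟨·, a.2, b.2⟩) (⟨·, b.2, a.2⟩), fun {a} h => ?_⟩)
        fun ρ σ a b c d => ?_
      · obtain ⟨a, a1, a2⟩ := hT.wf.wf.has_min A hA
        exact ⟨a, a1, fun b hb e => by_contra fun f => a2 b hb (lt_of_le_of_ne e.1 f)⟩
      · simp only [mem_ofPred_eq, mem_union, not_and_or, Bool.not_eq_true]
      · obtain ⟨s, s1, s2⟩ := hz.2
        exact ⟨s, s1, s2 s s1 le_rfl⟩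
      · obtain ⟨b, b1, b2⟩ := z.2.2.2.2 a h.1
        obtain ⟨u, u1, u2, u3⟩ := Q_cof hz.2 b1
        exact ⟨u, ⟨u1, u2⟩, ⟨b2.le.trans u3, h.2, u2⟩, (b2.trans_le u3).ne⟩
      · obtain ⟨z, z1, rfl⟩ := sur ρ a
        obtain ⟨w, w1, rfl⟩ := sur σ b
        have z2 : z ∉ U := fun e => c ⟨z, ⟨e, z1⟩, rfl⟩
        have w2 : w ∉ U := fun e => d ⟨w, ⟨e, w1⟩, rfl⟩
        rw [rs_ext (bad z z1 z2 w w1 w2) (bad w w1 w2 z z1 z2)]
  rw [cov] at h2 h3
  exact conv h1 h2 h3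

end Pool.Agent.H25.QRay
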