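import Pool.Agent.H25.CBase

set_option autoImplicit false

namespace Pool.Agent.H25.RA
open Finset

abbrev W := ℕ × ℕ × ℕ × ℕ

def Mem (g K : ℕ) (sz : ℕ → ℕ) (nl : ℕ → ℕ → ℕ → ℕ) (v : W) : Prop :=
  (v.2.2.2 = 3 ∧ v.1 ≤ g ∧ v.2.1 = 0 ∧ v.2.2.1 = 0) ∨
    (v.2.2.2 < 3 ∧ v.1 < g ∧ v.2.1 < sz v.1 ∧ v.2.2.1 < K ∧ v.2.2.2 ≤ nl v.1 v.2.1 v.2.2.1)

def A (x y : W) : Prop :=
  (x.2.2.2 = 3 ∧ y.2.2.2 = 3 ∧ y.1 = x.1 + 1) ∨
    (x.2.2.2 = 3 ∧ y.2.2.2 < 3 ∧ (y.1 = x.1 ∨ y.1 + 1 = x.1)) ∨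
    (x.2.2.2 = 0 ∧ y.2.2.2 < 3 ∧ x.1 = y.1 ∧ x.2.1 = y.2.1 ∧
      (y.2.2.2 = 0 ∧ y.2.2.1 = x.2.2.1 + 1 ∨ 0 < y.2.2.2 ∧ y.2.2.1 = x.2.2.1))

def B (x y : W) : Prop := A x y ∨ A y x

def LS (P Q : W → Prop) (r : W → W) : Prop := ∀ x, P x → Q (r x) ∧
  (∀ y, P y → B x y → B (r x) (r y)) ∧ ∀ w, Q w → B (r x) w → ∃ y, P y ∧ B x y ∧ r y = w

def one (_ j s : ℕ) : ℕ := if s = j + 1 then 2 else 1

theorem ext4 {x y : W} (h : x.1 = y.1 ∧ x.2.1 = y.2.1 ∧ x.2.2.1 = y.2.2.1 ∧ x.2.2.2 = y.2.2.2) :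
    x = y := Prod.ext h.1 (Prod.ext h.2.1 (Prod.ext h.2.2.1 h.2.2.2))

theorem ne4 {x y : W} (h : x ≠ y) :
    x.1 ≠ y.1 ∨ x.2.1 ≠ y.2.1 ∨ x.2.2.1 ≠ y.2.2.1 ∨ x.2.2.2 ≠ y.2.2.2 := by
  by_contra! k
  exact h (ext4 k)

theorem mono (K : ℕ) (p : ℕ → ℕ) (h1 : ∀ s < K, p s < K)
    (h2 : ∀ s, s + 1 < K → p (s + 1) = p s + 1 ∨ p (s + 1) + 1 = p s)
    (h3 : ∀ s, s + 2 < K → p (s + 2) ≠ p s) (s : ℕ) (hs : s + 1 < K) :
    p (s + 1) = s + 1 ∨ p (s + 1) + s + 2 = K := by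
  have : ∀ s, s + 1 < K → (p 1 = p 0 + 1 → p (s + 1) = p 0 + s + 1 ∧ p s = p 0 + s) ∧
      (p 1 + 1 = p 0 → p (s + 1) + s + 1 = p 0 ∧ p s + s = p 0) := by
    intro s hs
    induction s with
    | zero => exact ⟨fun e => ⟨e, rfl⟩, fun e => ⟨e, rfl⟩⟩
    | succ s ih =>
      have := ih (by omega)
      have := h2 _ hs
      have := h3 s hs
      simp only [add_assoc, Nat.reduceAdd] at *
      omega
  have a := this s hs
  have b := this (K - 2) (by omega)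
  have := h1 (K - 2 + 1) (by omega)
  have := h1 0 (by omega)
  have := h2 0 (by omega)
  simp only [zero_add] at this
  omega

theorem o1 (i j s : ℕ) : 1 ≤ one i j s := by unfold one; split_ifs <;> omega

theorem pig (q m a b c d a' b' c' d' : ℕ)
    (h1 : a' = 0 ∧ (a = q + 1 ∨ a + 1 = q) ∨ 0 < a' ∧ a = q ∧ a' ≤ m)
    (h2 : b' = 0 ∧ (b = q + 1 ∨ b + 1 = q) ∨ 0 < b' ∧ b = q ∧ b' ≤ m)
    (h3 : c' = 0 ∧ (c = q + 1 ∨ c + 1 = q) ∨ 0 < c' ∧ c = q ∧ c' ≤ m)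
    (h4 : d' = 0 ∧ (d = q + 1 ∨ d + 1 = q) ∨ 0 < d' ∧ d = q ∧ d' ≤ m)
    (k1 : a ≠ b ∨ a' ≠ b') (k2 : a ≠ c ∨ a' ≠ c') (k3 : a ≠ d ∨ a' ≠ d') (k4 : b ≠ c ∨ b' ≠ c')
    (k5 : b ≠ d ∨ b' ≠ d') (k6 : c ≠ d ∨ c' ≠ d') : 2 ≤ m := by
  by_contra k
  rcases h1 with ⟨rfl, h1 | h1⟩ | h1 <;> rcases h2 with ⟨rfl, h2 | h2⟩ | h2 <;>
    rcases h3 with ⟨rfl, h3 | h3⟩ | h3 <;> rcases h4 with ⟨rfl, h4 | h4⟩ | h4 <;> omega

section
variable {g n : ℕ} {sz : ℕ → ℕ} {nl : ℕ → ℕ → ℕ → ℕ} {r : W → W}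
  (h : LS (Mem g (2 * n + 4) sz nl) (Mem 1 (2 * n + 4) (fun _ => n + 1) one) r)
include h

omit h in
theorem nb {K : ℕ} {x y : W} (y1 : Mem g K sz nl y) (c : x.2.2.2 < 3) (y2 : B x y) :
    y ∈ [(x.1, 0, 0, 3), (x.1 + 1, 0, 0, 3), (x.1, x.2.1, x.2.2.1 + 1, 0),
      (x.1, x.2.1, x.2.2.1 - 1, 0), (x.1, x.2.1, x.2.2.1, 0), (x.1, x.2.1, x.2.2.1, 1),
      (x.1, x.2.1, x.2.2.1, 2)] := by
  obtain ⟨a, b, c, d⟩ := y
  dsimp only [Mem, B, A] at y1 y2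
  by_cases k : d = 3
  · obtain ⟨rfl | rfl, rfl, rfl⟩ : (a = x.1 ∨ a = x.1 + 1) ∧ b = 0 ∧ c = 0 := by omega
    all_goals simp [k]
  · obtain ⟨rfl, rfl⟩ : a = x.1 ∧ b = x.2.1 := by omega
    obtain ⟨rfl, rfl | rfl⟩ | ⟨rfl, rfl | rfl | rfl⟩ : d = 0 ∧ (c = x.2.2.1 + 1 ∨ c = x.2.2.1 - 1) ∨
      c = x.2.2.1 ∧ (d = 0 ∨ d = 1 ∨ d = 2) := by omega
    all_goals simp

theorem s1 (x : W) (hx : Mem g (2 * n + 4) sz nl x) (c : x.2.2.2 < 3) : (r x).2.2.2 < 3 := by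
  by_contra k
  have q := (h x hx).1
  have := List.Nodup.length_le_of_subset
    (l₁ := (List.range 8).map fun a => ((0, 0, a / 2, a % 2) : W)) (l₂ := List.map r _)
    (List.nodup_range.map_on fun a _ b _ e => by simp only [Prod.mk.injEq] at e; omega)
    fun w hw => by
    obtain ⟨a, ha, rfl⟩ := List.mem_map.1 hw
    rw [List.mem_range] at ha
    have := o1 0 0 (a / 2)
    obtain ⟨y, y1, y2, y3⟩ := (h x hx).2.2 (0, 0, a / 2, a % 2) (by dsimp only [Mem]; omega)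
      (by dsimp only [Mem, B, A] at q ⊢; omega)
    exact List.mem_map.2 ⟨y, nb y1 c y2, y3⟩
  simp at this

variable (h3 : ∀ i ≤ g, ∃ i' < g, (i' = i ∨ i' + 1 = i) ∧ 0 < sz i')
include h3

theorem s2 (i : ℕ) (hi : i ≤ g) : (r (i, 0, 0, 3)).2.2.2 = 3 := by
  obtain ⟨i', a, b, c⟩ := h3 i hi
  have hx : Mem g (2 * n + 4) sz nl (i', 0, 0, 0) := by dsimp only [Mem]; omega
  have q := (h _ hx).1
  have := s1 h _ hx (by simp)
  obtain ⟨y, y1, y2, y3⟩ := (h _ hx).2.2 (0, 0, 0, 3) (by simp [Mem])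
    (by dsimp only [Mem, B, A] at q ⊢; omega)
  obtain ⟨z, z1, z2, z3⟩ := (h _ hx).2.2 (1, 0, 0, 3) (by simp [Mem])
    (by dsimp only [Mem, B, A] at q ⊢; omega)
  have := mt (s1 h y y1) (by simp [y3])
  have := mt (s1 h z z1) (by simp [z3])
  have := ne4 (x := y) (y := z) fun e => by simp [e, z3] at y3
  have a : (y.1 = i' ∨ y.1 = i' + 1) ∧ y.2.1 = 0 ∧ y.2.2.1 = 0 ∧ y.2.2.2 = 3 := by
    dsimp only [Mem, B, A] at y1 y2; omega
  have b : (z.1 = i' ∨ z.1 = i' + 1) ∧ z.2.1 = 0 ∧ z.2.2.1 = 0 ∧ z.2.2.2 = 3 := by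
    dsimp only [Mem, B, A] at z1 z2; omega
  have : (i, 0, 0, 3) = y ∨ (i, 0, 0, 3) = z := by
    simp only [Prod.ext_iff]
    omega
  rcases this with e | e <;> rw [e]
  exacts [by rw [y3], by rw [z3]]

theorem s3 (x : W) (hx : Mem g (2 * n + 4) sz nl x) (w : W)
    (w1 : Mem 1 (2 * n + 4) (fun _ => n + 1) one w) (w2 : w.2.2.2 < 3) (w3 : B (r x) w) :
    ∃ y, Mem g (2 * n + 4) sz nl y ∧ y.2.2.2 < 3 ∧ B x y ∧ r y = w := by
  obtain ⟨y, y1, y2, y3⟩ := (h x hx).2.2 w w1 w3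
  refine ⟨y, y1, not_le.1 fun c => ?_, y2, y3⟩
  have e : y = (y.1, 0, 0, 3) := ext4 (by dsimp only [Mem] at y1 ⊢; omega)
  have := s2 h h3 y.1 (by dsimp only [Mem] at y1; omega)
  rw [← e, y3] at this
  omega

omit h3 in
theorem same (i : ℕ) (hi : i < g) (j : ℕ) (hj : j < sz i) (s : ℕ) (hs : s < 2 * n + 4) :
    (r (i, j, s, 0)).2.1 = (r (i, j, 0, 0)).2.1 := by
  induction s with
  | zero => rfl
  | succ s ih =>
    have a : Mem g (2 * n + 4) sz nl (i, j, s, 0) := by dsimp only [Mem]; omega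
    have b : Mem g (2 * n + 4) sz nl (i, j, s + 1, 0) := by dsimp only [Mem]; omega
    have c := (h _ a).2.1 _ b (by simp [B, A])
    have := s1 h _ a (by simp)
    have := s1 h _ b (by simp)
    have := ih (by omega)
    unfold B A at c
    omega

theorem sp (x : W) (t s : ℕ) (hx : Mem g (2 * n + 4) sz nl x) (c : x.2.2.2 < 3)
    (e : r x = (0, t, s, 0)) : x.2.2.2 = 0 := by
  have q := (h x hx).1
  rw [e] at q
  have := o1 0 t s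
  obtain ⟨y, -, y2, y3, y4⟩ := s3 h h3 x hx (0, t, s, 1) (by dsimp only [Mem] at q ⊢; omega)
    (by simp) (by simp [e, B, A])
  obtain ⟨z, -, z2, z3, z4⟩ := s3 h h3 x hx (0, t, if s = 0 then 1 else s - 1, 0)
    (by dsimp only [Mem] at q ⊢; split_ifs <;> omega) (by simp)
    (by rw [e]; dsimp only [B, A]; split_ifs <;> omega)
  by_contra k
  have : y = z := ext4 (by unfold B A at y3 z3; omega)
  simp [this, z4] at y4

theorem st (i j p t s : ℕ) (hx : Mem g (2 * n + 4) sz nl (i, j, p, 0))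
    (e : r (i, j, p, 0) = (0, t, s, 0)) (s' : ℕ) (a : s' < 2 * n + 4)
    (b : s' = s + 1 ∨ s' + 1 = s) : ∃ p', (p' = p + 1 ∨ p' + 1 = p) ∧
      Mem g (2 * n + 4) sz nl (i, j, p', 0) ∧ r (i, j, p', 0) = (0, t, s', 0) := by
  have q := (h _ hx).1
  rw [e] at q
  obtain ⟨y, y1, y2, y3, y4⟩ := s3 h h3 _ hx (0, t, s', 0) (by dsimp only [Mem] at q ⊢; omega)
    (by simp) (by rw [e]; dsimp only [B, A]; omega)
  have := sp h h3 y t s' y1 y2 y4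
  dsimp only [B, A] at y3
  have f : y = (i, j, y.2.2.1, 0) := ext4 (by dsimp only; omega)
  exact ⟨y.2.2.1, by omega, f ▸ y1, f ▸ y4⟩

theorem four (i j q t : ℕ) (ht : t ≤ n) (a : Mem g (2 * n + 4) sz nl (i, j, q, 0))
    (b : r (i, j, q, 0) = (0, t, t + 1, 0)) : 2 ≤ nl i j q := by
  obtain ⟨y, y1, y2, y3, y4⟩ := s3 h h3 _ a (0, t, t, 0) (by dsimp only [Mem]; omega)
    (by simp) (by simp [b, B, A])
  obtain ⟨z, z1, z2, z3, z4⟩ := s3 h h3 _ a (0, t, t + 2, 0) (by dsimp only [Mem]; omega)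
    (by simp) (by simp [b, B, A])
  obtain ⟨u, u1, u2, u3, u4⟩ := s3 h h3 _ a (0, t, t + 1, 1) (by simp [Mem, one]; omega)
    (by simp) (by simp [b, B, A])
  obtain ⟨v, v1, v2, v3, v4⟩ := s3 h h3 _ a (0, t, t + 1, 2) (by simp [Mem, one]; omega)
    (by simp) (by simp [b, B, A])
  have e : ∀ y, Mem g (2 * n + 4) sz nl y → y.2.2.2 < 3 → B (i, j, q, 0) y →
      (y.1 = i ∧ y.2.1 = j) ∧ (y.2.2.2 = 0 ∧ (y.2.2.1 = q + 1 ∨ y.2.2.1 + 1 = q) ∨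
      0 < y.2.2.2 ∧ y.2.2.1 = q ∧ y.2.2.2 ≤ nl i j q) := by
    rintro ⟨a, b, c, d⟩ y1 y2 y3
    dsimp only [B, A, Mem] at y1 y2 y3 ⊢
    by_cases k : a = i ∧ b = j ∧ c = q
    · obtain ⟨rfl, rfl, rfl⟩ := k; omega
    · omega
  have f : ∀ y z : W, (y.1 = i ∧ y.2.1 = j) → (z.1 = i ∧ z.2.1 = j) → r y ≠ r z →
      y.2.2.1 ≠ z.2.2.1 ∨ y.2.2.2 ≠ z.2.2.2 := fun y z a b c => by
    have := ne4 (mt (congrArg r) c)
    omega
  have a1 := e y y1 y2 y3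
  have a2 := e z z1 z2 z3
  have a3 := e u u1 u2 u3
  have a4 := e v v1 v2 v3
  exact pig _ _ _ _ _ _ _ _ _ _ a1.2 a2.2 a3.2 a4.2 (f _ _ a1.1 a2.1 (by simp [y4, z4]))
    (f _ _ a1.1 a3.1 (by simp [y4, u4])) (f _ _ a1.1 a4.1 (by simp [y4, v4]))
    (f _ _ a2.1 a3.1 (by simp [z4, u4])) (f _ _ a2.1 a4.1 (by simp [z4, v4]))
    (f _ _ a3.1 a4.1 (by simp [u4, v4]))

theorem of_role (h2 : ∀ i j s, 2 ≤ nl i j s → s ≤ n + 1) :
    ∃ τ : ℕ → ℕ → ℕ, (∀ i < g, ∀ j < sz i, τ i j ≤ n ∧ 2 ≤ nl i j (τ i j + 1)) ∧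
      ∀ i ≤ g, ∀ t ≤ n, ∃ i' < g, (i' = i ∨ i' + 1 = i) ∧ ∃ j < sz i', τ i' j = t := by
  refine ⟨fun i j => (r (i, j, 0, 0)).2.1, fun i hi j hj => ?_, fun i hi t ht => ?_⟩
  · have hx : Mem g (2 * n + 4) sz nl (i, j, 0, 0) := by dsimp only [Mem]; omega
    have q := (h _ hx).1
    have c := s1 h _ hx (by simp)
    dsimp only
    generalize ht : (r (i, j, 0, 0)).2.1 = t
    have tn : t ≤ n := by dsimp only [Mem] at q; omega
    refine ⟨tn, ?_⟩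
    obtain ⟨p, s, a, b⟩ : ∃ p s, Mem g (2 * n + 4) sz nl (i, j, p, 0) ∧
        r (i, j, p, 0) = (0, t, s, 0) := by
      by_cases c0 : (r (i, j, 0, 0)).2.2.2 = 0
      · exact ⟨0, (r (i, j, 0, 0)).2.2.1, hx, ext4 (by dsimp only [Mem] at q ⊢; omega)⟩
      obtain ⟨y, y1, y2, y3, y4⟩ := s3 h h3 _ hx (0, t, (r (i, j, 0, 0)).2.2.1, 0)
        (by dsimp only [Mem] at q ⊢; omega) (by simp)
        (by dsimp only [Mem, B, A] at q ⊢; omega)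
      have := sp h h3 y t _ y1 y2 y4
      dsimp only [B, A] at y3
      have f : y = (i, j, y.2.2.1, 0) := ext4 (by dsimp only; omega)
      exact ⟨y.2.2.1, _, f ▸ y1, f ▸ y4⟩
    obtain ⟨p0, a, b⟩ : ∃ p, Mem g (2 * n + 4) sz nl (i, j, p, 0) ∧
        r (i, j, p, 0) = (0, t, 0, 0) := by
      induction s generalizing p with
      | zero => exact ⟨p, a, b⟩
      | succ s ih =>
        have q := (h _ a).1
        rw [b] at q
        obtain ⟨p', -, c, d⟩ := st h h3 i j p t _ a b s (by dsimp only [Mem] at q; omega) (.inr rfl)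
        exact ih p' c d
    choose! f hf using fun s p a b c => st h h3 i j p t s a b (s + 1) c (.inl rfl)
    obtain ⟨p, p1, p2⟩ : ∃ p : ℕ → ℕ, p 0 = p0 ∧ ∀ s, p (s + 1) = f s (p s) :=
      ⟨fun s => Nat.rec p0 f s, rfl, fun _ => rfl⟩
    have k : ∀ s < 2 * n + 4, Mem g (2 * n + 4) sz nl (i, j, p s, 0) ∧
        r (i, j, p s, 0) = (0, t, s, 0) := fun s hs => by
      induction s with
      | zero => exact p1 ▸ ⟨a, b⟩
      | succ s ih => exact p2 s ▸ (hf s _ (ih (by omega)).1 (ih (by omega)).2 hs).2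
    have m := mono (2 * n + 4) p (fun s hs => by
      have := (k s hs).1; dsimp only [Mem] at this; omega)
      (fun s hs => p2 s ▸ (hf s _ (k s (by omega)).1 (k s (by omega)).2 hs).1)
      (fun s hs e => by
        have := (k _ hs).2
        rw [e, (k s (by omega)).2] at this
        simp at this) t (by omega)
    obtain ⟨a, b⟩ := k (t + 1) (by omega)
    have c := four h h3 _ _ _ _ tn a b
    have := h2 _ _ _ c
    rwa [show p (t + 1) = t + 1 by omega] at c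
  · have hx : Mem g (2 * n + 4) sz nl (i, 0, 0, 3) := by dsimp only [Mem]; omega
    have q := (h _ hx).1
    have := s2 h h3 i hi
    obtain ⟨y, y1, y2, y3, y4⟩ := s3 h h3 _ hx (0, t, 0, 0) (by dsimp only [Mem]; omega) (by simp)
      (by dsimp only [Mem, B, A] at q ⊢; omega)
    have := sp h h3 y t 0 y1 y2 y4
    have f : y = (y.1, y.2.1, y.2.2.1, 0) := ext4 (by dsimp only; omega)
    dsimp only [Mem, B, A] at y1 y3
    refine ⟨y.1, by omega, by omega, y.2.1, by omega, ?_⟩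
    dsimp only
    rw [← same h _ (by omega) _ (by omega) y.2.2.1 (by omega), ← f, y4]

end

theorem B33 {i j s i' j' s' : ℕ} : B (i, j, s, 3) (i', j', s', 3) ↔ i' = i + 1 ∨ i = i' + 1 := by
  simp [B, A]
theorem B3i {i j s i' j' s' c : ℕ} (h : c < 3) :
    B (i, j, s, 3) (i', j', s', c) ↔ i' = i ∨ i' + 1 = i := by
  simp [B, A, h, h.ne]
theorem Bi3 {i j s i' j' s' c : ℕ} (h : c < 3) :
    B (i', j', s', c) (i, j, s, 3) ↔ i' = i ∨ i' + 1 = i := by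
  simp [B, A, h, h.ne]
theorem Bii {i j s i' j' s' c c' : ℕ} (h : c < 3) (h' : c' < 3) :
    B (i, j, s, c) (i', j', s', c') ↔ i = i' ∧ j = j' ∧
      (c = 0 ∧ (c' = 0 ∧ s' = s + 1 ∨ 0 < c' ∧ s' = s) ∨
        c' = 0 ∧ (c = 0 ∧ s = s' + 1 ∨ 0 < c ∧ s = s')) := by
  simp only [B, A, h, h.ne, h', h'.ne, false_and, false_or, true_and]
  constructor
  · rintro (⟨a, b, c, d⟩ | ⟨a, b, c, d⟩)
    exacts [⟨b, c, .inl ⟨a, d⟩⟩, ⟨b.symm, c.symm, .inr ⟨a, d⟩⟩]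
  · rintro ⟨b, c, ⟨a, d⟩ | ⟨a, d⟩⟩
    exacts [.inl ⟨a, b, c, d⟩, .inr ⟨a, b.symm, c.symm, d⟩]

theorem to_role {g n : ℕ} {sz : ℕ → ℕ} {nl : ℕ → ℕ → ℕ → ℕ} (hg : 0 < g)
    (h1 : ∀ i j s, 1 ≤ nl i j s) (τ : ℕ → ℕ → ℕ)
    (t1 : ∀ i < g, ∀ j < sz i, τ i j ≤ n ∧ 2 ≤ nl i j (τ i j + 1))
    (t2 : ∀ i ≤ g, ∀ t ≤ n, ∃ i' < g, (i' = i ∨ i' + 1 = i) ∧ ∃ j < sz i', τ i' j = t) :
    ∃ r, LS (Mem g (2 * n + 4) sz nl) (Mem 1 (2 * n + 4) (fun _ => n + 1) one) r := by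
  refine ⟨fun x => if x.2.2.2 = 3 then (x.1 % 2, 0, 0, 3) else (0, τ x.1 x.2.1, x.2.2.1,
    min x.2.2.2 (one 0 (τ x.1 x.2.1) x.2.2.1)), ?_⟩
  have o : ∀ i < g, ∀ j < sz i, ∀ s, one 0 (τ i j) s ≤ nl i j s := fun i a j b s => by
    have := t1 i a j b
    have := h1 i j s
    unfold one
    split_ifs with k
    · rw [k]; omega
    · omega
  have m3 : ∀ a b, a < 3 → min a b < 3 := fun a b h => by omega
  rintro ⟨i, j, s, c⟩ (hx | hx) <;> dsimp only at hx ⊢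
  · obtain ⟨rfl, hi, rfl, rfl⟩ := hx
    rw [if_pos rfl]
    refine ⟨.inl (by dsimp only; omega), ?_, ?_⟩
    · rintro ⟨i', j', s', c'⟩ (hy | hy) e <;> dsimp only at hy ⊢
      · obtain ⟨rfl, -, rfl, rfl⟩ := hy
        rw [if_pos rfl]
        rw [B33] at e ⊢; omega
      · rw [if_neg hy.1.ne, B3i (m3 _ _ hy.1)]; omega
    · rintro ⟨i', t, s', c'⟩ (hw | hw) e <;> dsimp only at hw
      · obtain ⟨rfl, hi', rfl, rfl⟩ := hw
        rw [B33] at e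
        refine ⟨(if i < g then i + 1 else i - 1, 0, 0, 3), .inl ?_, B33.2 ?_, ?_⟩
        · dsimp only; split_ifs <;> omega
        · split_ifs <;> omega
        · rw [if_pos rfl]; refine ext4 ?_; dsimp only; split_ifs <;> omega
      · obtain ⟨a, a1, a2, b, b1, rfl⟩ := t2 i hi t (by omega)
        obtain rfl : i' = 0 := by omega
        have := o a a1 b b1 s'
        refine ⟨(a, b, s', c'), .inr (by dsimp only; omega), (B3i hw.1).2 a2, ?_⟩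
        rw [if_neg hw.1.ne]; refine ext4 ?_; dsimp only; omega
  · rw [if_neg hx.1.ne]
    have := t1 i hx.2.1 j hx.2.2.1
    have := o1 0 (τ i j) s
    refine ⟨.inr (by dsimp only; omega), ?_, ?_⟩
    · rintro ⟨i', j', s', c'⟩ (hy | hy) e <;> dsimp only at hy ⊢
      · obtain ⟨rfl, -, rfl, rfl⟩ := hy
        rw [if_pos rfl, Bi3 (m3 _ _ hx.1)]; omega
      · rw [if_neg hy.1.ne, Bii (m3 _ _ hx.1) (m3 _ _ hy.1)]
        obtain ⟨rfl, rfl, e2⟩ := (Bii hx.1 hy.1).1 e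
        have := o1 0 (τ i j) s'
        refine ⟨rfl, rfl, by
          rcases e2 with e2 | e2
          exacts [.inl (by omega), .inr (by omega)]⟩
    · rintro ⟨i', t, s', c'⟩ (hw | hw) e <;> dsimp only at hw
      · obtain ⟨rfl, hi, rfl, rfl⟩ := hw
        refine ⟨(if i % 2 = i' then i else i + 1, 0, 0, 3), .inl ?_, (Bi3 hx.1).2 ?_, ?_⟩
        · dsimp only; split_ifs <;> omega
        · split_ifs <;> omega
        · rw [if_pos rfl]; refine ext4 ?_; dsimp only; split_ifs <;> omega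
      · obtain ⟨rfl, rfl, e2⟩ := (Bii (m3 _ _ hx.1) hw.1).1 e
        have := o i hx.2.1 j hx.2.2.1 s'
        refine ⟨(i, j, s', c'), .inr (by dsimp only; omega),
          (Bii hx.1 hw.1).2 ⟨rfl, rfl, by
          rcases e2 with e2 | e2
          exacts [.inl (by omega), .inr (by omega)]⟩, ?_⟩
        rw [if_neg hw.1.ne]; refine ext4 ?_; dsimp only; omega

def lo (J K : ℕ) (v : W) : ℕ := if v.2.2.2 = 3 then 4 * (v.1 * (J * (K + 1))) else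
  4 * (v.1 * (J * (K + 1)) + J * (K + 1) + v.2.1 * (K + 1) + v.2.2.1) + v.2.2.2
def hi (J K : ℕ) (v : W) : ℕ := if v.2.2.2 = 3 then 4 * (v.1 * (J * (K + 1)) + 2 * (J * (K + 1))) - 1
  else if v.2.2.2 = 0 then lo J K v + 4 else lo J K v

theorem tri (a b Q : ℕ) : (a + 2 ≤ b ∧ a * Q + 2 * Q ≤ b * Q) ∨ (a + 1 = b ∧ a * Q + Q = b * Q) ∨
    (a = b ∧ a * Q = b * Q) ∨ (b + 1 = a ∧ b * Q + Q = a * Q) ∨
    (b + 2 ≤ a ∧ b * Q + 2 * Q ≤ a * Q) := by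
  have : ∀ a b, a + 2 ≤ b → a * Q + 2 * Q ≤ b * Q := fun a b h => by
    rw [← add_mul]; exact Nat.mul_le_mul_right _ h
  rcases (by omega : a + 2 ≤ b ∨ a + 1 = b ∨ a = b ∨ b + 1 = a ∨ b + 2 ≤ a) with
    h | rfl | rfl | rfl | h
  · exact .inl ⟨h, this _ _ h⟩
  · exact .inr (.inl ⟨rfl, (Nat.succ_mul _ _).symm⟩)
  · exact .inr (.inr (.inl ⟨rfl, rfl⟩))
  · exact .inr (.inr (.inr (.inl ⟨rfl, (Nat.succ_mul _ _).symm⟩)))
  · exact .inr (.inr (.inr (.inr ⟨h, this _ _ h⟩)))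

theorem intv {g K J : ℕ} {sz : ℕ → ℕ} {nl : ℕ → ℕ → ℕ → ℕ} (hJ : 0 < J) (hs : ∀ i, sz i ≤ J)
    {x y : W} (hx : Mem g K sz nl x) (hy : Mem g K sz nl y) : lo J K x ≤ hi J K x ∧
      (x ≠ y → (B x y ↔ lo J K x ≤ hi J K y ∧ lo J K y ≤ hi J K x)) := by
  obtain ⟨i, j, s, c⟩ := x
  obtain ⟨i', j', s', c'⟩ := y
  have := hs i
  have := hs i'
  have a0 : ∀ j < J, j * (K + 1) + K + 1 ≤ J * (K + 1) := fun j h => by
    have := Nat.mul_le_mul_right (K + 1) h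
    rwa [Nat.succ_mul] at this
  have a1 := a0 0 hJ
  have a2 := a0 j
  have a3 := a0 j'
  dsimp only [Mem] at hx hy
  have b2 : c = 3 ∧ j = 0 ∧ s = 0 ∨ c < 3 ∧ s < K ∧ j * (K + 1) + K + 1 ≤ J * (K + 1) := by omega
  have b3 : c' = 3 ∧ j' = 0 ∧ s' = 0 ∨ c' < 3 ∧ s' < K ∧ j' * (K + 1) + K + 1 ≤ J * (K + 1) := by
    omega
  clear a2 a3 hx hy
  refine ⟨by dsimp only [lo, hi]; split_ifs <;> omega, fun e => ?_⟩
  have e := ne4 e
  dsimp only at e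
  have a4 := tri i i' (J * (K + 1))
  rcases b2 with ⟨rfl, rfl, rfl⟩ | b2 <;> rcases b3 with ⟨rfl, rfl, rfl⟩ | b3
  · simp only [B33, lo, hi, if_true]
    rcases a4 with a4 | a4 | a4 | a4 | a4 <;> omega
  · simp only [B3i b3.1, lo, hi, if_true, b3.1.ne, if_false]
    rcases a4 with a4 | a4 | a4 | a4 | a4 <;> split_ifs <;> omega
  · simp only [Bi3 b2.1, lo, hi, if_true, b2.1.ne, if_false]
    rcases a4 with a4 | a4 | a4 | a4 | a4 <;> split_ifs <;> omega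
  · simp only [Bii b2.1 b3.1, lo, hi, b3.1.ne, b2.1.ne, if_false]
    refine ⟨fun ⟨e1, e2, e3⟩ => ?_, fun k => ?_⟩
    · subst e1 e2
      clear a4
      split_ifs <;> omega
    · obtain rfl : i = i' := by
        clear e
        rcases a4 with a4 | a4 | a4 | a4 | a4 <;> split_ifs at k <;> omega
      clear a4
      obtain rfl : j = j' := by
        clear e
        rcases tri j j' (K + 1) with a4 | a4 | a4 | a4 | a4 <;> split_ifs at k <;> omega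
      refine ⟨rfl, rfl, ?_⟩
      split_ifs at k
      exacts [by omega, .inr (by omega), .inl (by omega), by exfalso; omega]

end Pool.Agent.H25.RA
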