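import Pool.Agent.H25.CBase

set_option autoImplicit false

namespace Pool.Agent.H25.CB
open Pool.Agent.H11.PT Finset

abbrev I3 := ℕ × List (ℕ × ℕ) × ℕ
abbrev Nm := ℕ × ℕ × ℕ

def good (y : I3) (u v : ℕ) : Bool := decide (¬ (u, v) ∈ y.2.1 ∧ ¬ (v, u) ∈ y.2.1)

def bad (y : I3) (A : Finset ℕ) : Finset (ℕ × ℕ) :=
  (range y.1 ×ˢ range y.1).filter fun p => ¬ (good y p.1 p.2 ∧ p.1 ∈ A ∧ p.2 ∈ A)

theorem core (y : I3) (hv : ISV y) : IS y ↔ ∃ A ⊆ range y.1, A.card ≤ y.2.2 ∧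
    (bad y A).card ≤ y.1 * y.1 - y.2.2 * y.2.2 := by
  have e : ∀ A ⊆ range y.1, ((A ×ˢ A).filter fun p => good y p.1 p.2).card + (bad y A).card =
      y.1 * y.1 := fun A hA => by
    have := card_filter_add_card_filter_not (s := range y.1 ×ˢ range y.1)
      fun p => good y p.1 p.2 ∧ p.1 ∈ A ∧ p.2 ∈ A
    rw [card_product, card_range] at this
    rw [← this, bad]
    congr 2
    ext p
    simp only [mem_filter, mem_product]
    exact ⟨fun h => ⟨⟨hA h.1.1, hA h.1.2⟩, h.2, h.1⟩, fun h => ⟨h.2.2, h.2.1⟩⟩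
  have h0 := Nat.mul_self_le_mul_self hv.1
  constructor
  · rintro ⟨I, h1, h2, h3⟩
    obtain ⟨A, a1, a2⟩ := exists_subset_card_eq h2
    have a3 : A ⊆ range y.1 := fun v hv => mem_range.2 (h1 v (a1 hv))
    have a4 := e A a3
    rw [filter_true_of_mem fun p hp => by
      rw [mem_product] at hp
      exact decide_eq_true ⟨fun h => h3 _ h ⟨a1 hp.1, a1 hp.2⟩, fun h => h3 _ h ⟨a1 hp.2, a1 hp.1⟩⟩,
      card_product, a2] at a4
    exact ⟨A, a3, a2.le, by omega⟩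
  · rintro ⟨A, a1, a2, a3⟩
    have a4 := e A a1
    have a5 := Nat.mul_self_le_mul_self a2
    have a6 := card_filter_le (A ×ˢ A) fun p => good y p.1 p.2
    rw [card_product] at a6
    have a7 := card_filter_eq_iff.1 (show ((A ×ˢ A).filter fun p => good y p.1 p.2).card =
      (A ×ˢ A).card by rw [card_product]; omega)
    refine ⟨A, fun v hv => mem_range.1 (a1 hv), Nat.mul_self_le_mul_self_iff.1 (by omega),
      fun p hp h => ?_⟩
    exact (of_decide_eq_true (a7 p (mem_product.2 h))).1 hp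

def tg (y : I3) (u v w : ℕ) : Nm := bif good y u v then (1, w, 0) else (3, 0, 0)

def blue (y : I3) : List (Nm × Nm) := (List.range y.1 ×ˢ List.range y.1).flatMap fun p =>
  [((0, 0, 0), (2, p)), ((2, p), tg y p.1 p.2 p.1), ((2, p), tg y p.1 p.2 p.2)]

def red0 (y : I3) : List (Nm × Nm) := (List.range y.1).map fun u => ((1, u, 0), (3, 0, 0))

@[fun_prop] theorem blue_pt : PT blue := by unfold blue tg good; fun_prop
@[fun_prop] theorem red0_pt : PT red0 := by unfold red0; fun_prop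

theorem mem_blue {y : I3} {e : Nm × Nm} : e ∈ blue y ↔ ∃ u < y.1, ∃ v < y.1,
    e = ((0, 0, 0), (2, u, v)) ∨ e = ((2, u, v), tg y u v u) ∨ e = ((2, u, v), tg y u v v) := by
  simp [blue, and_assoc]

theorem mem_red0 {y : I3} {e : Nm × Nm} : e ∈ red0 y ↔ ∃ u < y.1, e = ((1, u, 0), (3, 0, 0)) := by
  simp [red0, eq_comm]

theorem sound (y : I3) (hv : ISV y) (X : Set Nm) (hs : (0, 0, 0) ∈ X) (ht : (3, 0, 0) ∉ X)
    (R B : Set (Nm × Nm)) (fR : R.Finite) (fB : B.Finite)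
    (hR : ∀ e ∈ red0 y, e.1 ∈ X → e.2 ∉ X → e ∈ R) (hB : ∀ e ∈ blue y, e.1 ∈ X → e.2 ∉ X → e ∈ B)
    (cR : R.ncard ≤ y.2.2) (cB : B.ncard ≤ y.1 * y.1 - y.2.2 * y.2.2) : IS y := by
  classical
  refine (core y hv).2 ⟨(range y.1).filter fun u => (1, u, 0) ∈ X, filter_subset _ _,
    le_trans ?_ cR, le_trans ?_ cB⟩ <;> rw [← Set.ncard_coe_finset]
  · refine Set.ncard_le_ncard_of_injOn (fun u => ((1, u, 0), (3, 0, 0))) (fun u hu => ?_)
      (fun a _ b _ e => by simpa using e) fR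
    simp only [coe_filter, mem_range, Set.mem_ofPred_eq] at hu
    exact hR _ (mem_red0.2 ⟨u, hu.1, rfl⟩) hu.2 ht
  · refine le_trans (Set.ncard_le_ncard (fun ⟨u, v⟩ h => ?_) (fB.image _))
      (Set.ncard_image_le (f := fun e => if e.1.1 = 2 then e.1.2 else e.2.2) fB)
    simp only [bad, coe_filter, mem_product, mem_range, mem_filter, Set.mem_ofPred_eq] at h
    obtain ⟨⟨h1, h2⟩, h3⟩ := h
    by_cases e : (2, u, v) ∈ X
    · by_cases e' : tg y u v u ∈ X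
      · refine ⟨_, hB _ (mem_blue.2 ⟨u, h1, v, h2, .inr (.inr rfl)⟩) e fun e'' => ?_, rfl⟩
        cases g : good y u v <;> simp_all [tg]
      · exact ⟨_, hB _ (mem_blue.2 ⟨u, h1, v, h2, .inr (.inl rfl)⟩) e e', rfl⟩
    · exact ⟨_, hB _ (mem_blue.2 ⟨u, h1, v, h2, .inl rfl⟩) hs e, rfl⟩

theorem complete (y : I3) (hv : ISV y) (h : IS y) : ∃ X : Set Nm, (∀ i, (0, i, 0) ∈ X) ∧
    (∀ i, (3, i, 0) ∉ X) ∧
    {e : Nm × Nm | e.1 ∈ X ∧ e.2 ∉ X ∧ (e ∈ red0 y ∨ e.swap ∈ red0 y)}.ncard ≤ y.2.2 ∧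
    {e : Nm × Nm | e.1 ∈ X ∧ e.2 ∉ X ∧ (e ∈ blue y ∨ e.swap ∈ blue y)}.ncard ≤
      y.1 * y.1 - y.2.2 * y.2.2 := by
  obtain ⟨A, a1, a2, a3⟩ := (core y hv).1 h
  refine ⟨{x | x.1 = 0 ∨ (x.1 = 1 ∧ x.2.1 ∈ A) ∨ (x.1 = 2 ∧ good y x.2.1 x.2.2 ∧
    (x.2.1 ∈ A ∨ x.2.2 ∈ A))}, by simp, by simp, le_trans ?_ a2, le_trans ?_ a3⟩ <;>
    rw [← Set.ncard_coe_finset]
  · refine le_trans (Set.ncard_le_ncard ?_ (A.finite_toSet.image _))
      (Set.ncard_image_le (f := fun u => (((1, u, 0), (3, 0, 0)) : Nm × Nm)) A.finite_toSet)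
    rintro ⟨a, b⟩ ⟨h1, h2, h3 | h3⟩ <;> obtain ⟨u, -, e⟩ := mem_red0.1 h3 <;>
      obtain ⟨rfl, rfl⟩ := Prod.ext_iff.1 e <;> simp_all
  · refine le_trans (Set.ncard_le_ncard ?_ ((bad y A).finite_toSet.image _))
      (Set.ncard_image_le (f := fun p => if good y p.1 p.2 ∧ (p.1 ∈ A ∨ p.2 ∈ A) then
        (((2, p), (1, if p.1 ∈ A then p.2 else p.1, 0)) : Nm × Nm) else ((0, 0, 0), (2, p)))
        (bad y A).finite_toSet)
    rintro ⟨a, b⟩ ⟨h1, h2, h3 | h3⟩ <;> obtain ⟨u, hu, v, hv, e | e | e⟩ := mem_blue.1 h3 <;>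
      obtain ⟨rfl, rfl⟩ := Prod.ext_iff.1 e <;> refine ⟨(u, v), ?_⟩ <;>
      cases g : good y u v <;> by_cases g1 : u ∈ A <;> by_cases g2 : v ∈ A <;> simp_all [tg, bad]

end Pool.Agent.H25.CB
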