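import Pool.Agent.H25.SP2

set_option autoImplicit false

namespace Pool.Agent.H25.Rail
open Pool.Agent.H11.PT Pool.Agent.H25.BN Pool.Agent.H25.SP

section dp
variable {J : Type} (m : ℕ) (t : ℕ → ℝ) (A B P : J → ℝ)

def Good (a b : ℕ) (U : ℕ → Prop) (j : J) : Prop :=
  ∃ α, A j ≤ α ∧ α ≤ B j ∧ ∀ i < m, a ≤ i → i < b → α ≤ t i → t i ≤ α + P j → U i

def cnt (a b : ℕ) (U : ℕ → Bool) : ℕ :=
  (List.range m).countP fun i => decide (a ≤ i) && decide (i < b) && U i

def Opt (L : List J) (a b : ℕ) (U : List ℕ) : Prop :=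
  (∀ j ∈ L, Good m t A B P a b (· ∈ U) j) ∧
    ∀ V : ℕ → Bool, (∀ j ∈ L, Good m t A B P a b (V · = true) j) → U.length ≤ cnt m a b V

def LH (α p : ℝ) (o : ℕ × ℕ) : Prop :=
  o.1 ≤ m ∧ o.2 ≤ m ∧ (∀ i < m, i < o.1 ↔ t i < α) ∧ ∀ i < m, i < o.2 ↔ t i ≤ α + p

def Spec (j : J) (os : List (ℕ × ℕ)) : Prop :=
  A j ≤ B j ∧ 0 ≤ P j ∧ (∀ o ∈ os, ∃ α, A j ≤ α ∧ α ≤ B j ∧ LH m t α (P j) o) ∧
    ∀ α, A j ≤ α → α ≤ B j → ∃ o ∈ os, ∀ i < m, o.1 ≤ i → i < o.2 → α ≤ t i ∧ t i ≤ α + P j

abbrev Tab := List (List (List ℕ))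

def ent (T : Tab) (a b : ℕ) : List ℕ := (T.getD a []).getD b []

def mk (T : Tab) (a b : ℕ) (o : ℕ × ℕ) : List ℕ :=
  (List.range m).filter fun i => (decide (max a o.1 ≤ i) && decide (i < min b o.2)) ||
    (ent T a (min b o.1)).contains i || (ent T (max a o.2) b).contains i

def best (l : List (List ℕ)) : List ℕ :=
  (l.find? fun U => l.all fun U' => decide (U.length ≤ U'.length)).getD []

def step (T : Tab) (os : List (ℕ × ℕ)) : Tab :=
  (List.range (m + 1)).map fun a => (List.range (m + 1)).map fun b => best (os.map (mk m T a b))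

theorem best_spec (l : List (List ℕ)) (h : l ≠ []) :
    best l ∈ l ∧ ∀ U ∈ l, (best l).length ≤ U.length := by
  obtain ⟨U, hU, hm⟩ := l.toFinset.exists_min_image List.length
    (by simpa [List.toFinset_nonempty_iff] using h)
  cases e : l.find? fun U => l.all fun U' => decide (U.length ≤ U'.length) with
  | none =>
    have := List.find?_eq_none.1 e U (by simpa using hU)
    simp only [List.all_eq_true, decide_eq_true_eq] at this
    exact absurd (fun x hx => hm x (by simpa using hx)) this
  | some W =>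
    have h1 := List.find?_some e
    simp only [List.all_eq_true, decide_eq_true_eq] at h1
    simp only [best, e, Option.getD_some]
    exact ⟨List.mem_of_find?_eq_some e, h1⟩

theorem best_sub (l : List (List ℕ)) (R : List ℕ) (h : ∀ U ∈ l, U.Sublist R) :
    (best l).Sublist R := by
  by_cases e : l = []
  · subst e; simp [best]
  · exact h _ (best_spec l e).1

theorem ent_step (T : Tab) (os : List (ℕ × ℕ)) {a b : ℕ} (ha : a ≤ m) (hb : b ≤ m) :
    ent (step m T os) a b = best (os.map (mk m T a b)) := by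
  simp [ent, step, List.getD_eq_getElem?_getD, Nat.lt_succ_of_le ha, Nat.lt_succ_of_le hb]

theorem cnt_contains (U : List ℕ) : (List.range m).countP U.contains ≤ U.length := by
  rw [List.countP_eq_length_filter]
  exact (List.subperm_of_subset (List.nodup_range.filter _) fun x hx => by
    simpa using (List.mem_filter.1 hx).2).length_le

theorem cnt_or (l : List ℕ) (p q r : ℕ → Bool) :
    l.countP (fun i => p i || q i || r i) ≤ l.countP p + l.countP q + l.countP r := by
  induction l with
  | nil => simp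
  | cons a l ih =>
    simp only [List.countP_cons]
    cases p a <;> cases q a <;> cases r a <;> simp <;> omega

theorem cnt_split (a b lo hi : ℕ) (h : lo ≤ hi) (V : ℕ → Bool)
    (hV : ∀ i < m, a ≤ i → i < b → lo ≤ i → i < hi → V i = true) :
    (List.range m).countP (fun i => decide (max a lo ≤ i) && decide (i < min b hi)) +
      cnt m a (min b lo) V + cnt m (max a hi) b V ≤ cnt m a b V := by
  unfold cnt
  induction m with
  | zero => simp
  | succ n ih =>
    have ih := ih fun i hi => hV i (by omega)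
    have h1 := hV n (by omega)
    simp only [List.range_succ, List.countP_append, List.countP_singleton]
    cases hv : V n
    · rw [hv] at h1
      have : ¬ (max a lo ≤ n ∧ n < min b hi) := fun h => by
        have := h1 (by omega) (by omega) (by omega) (by omega); simp at this
      simp only [Bool.and_false, Bool.false_eq_true, if_false, Bool.and_eq_true, decide_eq_true_eq,
        this]
      omega
    · simp only [Bool.and_true, Bool.and_eq_true, decide_eq_true_eq]
      split_ifs <;> omega

theorem Good.mono {a b a' b' : ℕ} {U U' : ℕ → Prop} {j : J} (h : Good m t A B P a b U j)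
    (ha : a ≤ a') (hb : b' ≤ b) (hU : ∀ i, U i → U' i) : Good m t A B P a' b' U' j := by
  obtain ⟨α, h1, h2, h3⟩ := h
  exact ⟨α, h1, h2, fun i hi x y z w => hU _ (h3 i hi (by omega) (by omega) z w)⟩

theorem step_opt (L : List J) (hL : ∀ j ∈ L, A j ≤ B j) (T : Tab)
    (hT : ∀ a ≤ m, ∀ b ≤ m, Opt m t A B P L a b (ent T a b)) (k : J) (os : List (ℕ × ℕ))
    (hk : Spec m t A B P k os) (hP : ∀ j ∈ L, P j ≤ P k) :
    ∀ a ≤ m, ∀ b ≤ m, Opt m t A B P (L ++ [k]) a b (ent (step m T os) a b) := by
  intro a ha b hb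
  obtain ⟨s1, s2, s3, s4⟩ := hk
  obtain ⟨o0, ho0, _⟩ := s4 _ le_rfl s1
  rw [ent_step m T os ha hb]
  obtain ⟨b1, b2⟩ := best_spec (os.map (mk m T a b)) (by
    intro h; rw [List.map_eq_nil_iff] at h; simp [h] at ho0)
  constructor
  · obtain ⟨o, ho, e⟩ := List.mem_map.1 b1
    rw [← e]
    obtain ⟨α, h1, h2, l1, l2, l3, l4⟩ := s3 o ho
    have mid : ∀ i < m, a ≤ i → i < b → α ≤ t i → t i ≤ α + P k → i ∈ mk m T a b o := by
      intro i hi x y z w
      have := (l4 i hi).2 w
      have : ¬ i < o.1 := fun h => absurd ((l3 i hi).1 h) (by linarith)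
      simp only [mk, List.mem_filter, List.mem_range, Bool.or_eq_true, Bool.and_eq_true,
        decide_eq_true_eq]
      exact ⟨hi, Or.inl (Or.inl ⟨by omega, by omega⟩)⟩
    intro j hj
    rcases List.mem_append.1 hj with hj | hj
    · have hPj := hP j hj
      by_cases c1 : B j < α
      · obtain ⟨β, g1, g2, g3⟩ := (hT a ha (min b o.1) (by omega)).1 j hj
        refine ⟨β, g1, g2, fun i hi x y z w => ?_⟩
        by_cases c : i < o.1
        · simp only [mk, List.mem_filter, List.mem_range, Bool.or_eq_true, List.contains_iff_mem]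
          exact ⟨hi, Or.inl (Or.inr (g3 i hi x (by omega) z w))⟩
        · exact mid i hi x y (not_lt.1 fun h => c ((l3 i hi).2 h)) (by linarith)
      by_cases c2 : α + P k < A j + P j
      · obtain ⟨β, g1, g2, g3⟩ := (hT (max a o.2) (by omega) b hb).1 j hj
        refine ⟨β, g1, g2, fun i hi x y z w => ?_⟩
        by_cases c : i < o.2
        · exact mid i hi x y (by linarith) ((l4 i hi).1 c)
        · simp only [mk, List.mem_filter, List.mem_range, Bool.or_eq_true, List.contains_iff_mem]
          exact ⟨hi, Or.inr (g3 i hi (by omega) y z w)⟩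
      · refine ⟨max (A j) α, le_max_left _ _, max_le (hL j hj) (not_lt.1 c1),
          fun i hi x y z w => mid i hi x y (le_trans (le_max_right _ _) z) ?_⟩
        rcases max_cases (A j) α with h | h <;> rw [h.1] at w <;> linarith
    · rw [List.mem_singleton.1 hj]
      exact ⟨α, h1, h2, mid⟩
  · intro V hV
    obtain ⟨α, h1, h2, h3⟩ := hV k (by simp)
    obtain ⟨o, ho, h4⟩ := s4 α h1 h2
    obtain ⟨β, _, _, l1, l2, l3, l4⟩ := s3 o ho
    have hle : o.1 ≤ o.2 := by
      by_contra hc
      have h5 := (l3 o.2 (by omega)).1 (by omega)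
      have h6 := (l4 o.2 (by omega)).2 (by linarith)
      omega
    have c1 := (hT a ha (min b o.1) (by omega)).2 V fun j hj =>
      (hV j (List.mem_append_left _ hj)).mono m t A B P le_rfl (by omega) fun _ h => h
    have c2 := (hT (max a o.2) (by omega) b hb).2 V fun j hj =>
      (hV j (List.mem_append_left _ hj)).mono m t A B P (by omega) le_rfl fun _ h => h
    have c3 := cnt_split m a b o.1 o.2 hle V fun i hi x y z w =>
      h3 i hi x y (h4 i hi z w).1 (h4 i hi z w).2
    have c4 := b2 _ (List.mem_map_of_mem ho)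
    have c5 := cnt_or (List.range m) (fun i => decide (max a o.1 ≤ i) && decide (i < min b o.2))
      (ent T a (min b o.1)).contains (ent T (max a o.2) b).contains
    have c6 := cnt_contains m (ent T a (min b o.1))
    have c7 := cnt_contains m (ent T (max a o.2) b)
    rw [mk, ← List.countP_eq_length_filter] at c4
    omega

theorem fold_opt (os : J → List (ℕ × ℕ)) (L : List J) (hs : ∀ j ∈ L, Spec m t A B P j (os j))
    (hp : L.Pairwise fun i j => P i ≤ P j) :
    ∀ a ≤ m, ∀ b ≤ m, Opt m t A B P L a b (ent ((L.map os).foldl (step m) []) a b) := by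
  induction L using List.reverseRecOn with
  | nil => intro a _ b _; simp [Opt, ent]
  | append_singleton L k ih =>
    rw [List.pairwise_append] at hp
    rw [List.map_append, List.foldl_append]
    exact step_opt m t A B P L (fun j hj => (hs j (List.mem_append_left _ hj)).1) _
      (ih (fun j hj => hs j (List.mem_append_left _ hj)) hp.1) k _ (hs k (by simp))
      fun j hj => hp.2.2 j hj k (by simp)

end dp

variable {α : Type} [Enc α]

theorem PT_step {m : α → ℕ} {T : α → Tab} {os : α → List (ℕ × ℕ)} (hm : PT m) (hT : PT T)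
    (ho : PT os) : PT fun x => step (m x) (T x) (os x) := by
  have h1 : PT fun p : (α × ℕ) × ℕ => (os p.1.1).map (mk (m p.1.1) (T p.1.1) p.1.2 p.2) := by
    unfold mk ent; fun_prop
  have h2 : PT best := by unfold best; fun_prop
  unfold step
  exact PT.map (by fun_prop) (PT.map (by fun_prop) (h2.comp h1))

theorem PT_dp {m : α → ℕ} {l : α → List (List (ℕ × ℕ))} (hm : PT m) (hl : PT l) :
    PT fun x => (l x).foldl (step (m x)) [] := by
  refine PT.foldl_inv (g := fun x => step (m x)) hl (by fun_prop)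
    (PT_step (by fun_prop) (by fun_prop) (by fun_prop))
    (fun x T => T.length ≤ m x + 1 ∧ ∀ r ∈ T, r.length ≤ m x + 1 ∧ ∀ U ∈ r, U.Sublist (List.range (m x)))
    (fun x => List.replicate (m x + 1) (List.replicate (m x + 1) (List.range (m x))))
    (by fun_prop) (by simp) ?_ ?_
  · intro x T os _ _
    refine ⟨by simp [step], fun r hr => ?_⟩
    obtain ⟨a, _, rfl⟩ := List.mem_map.1 hr
    refine ⟨by simp, fun U hU => ?_⟩
    obtain ⟨b, _, rfl⟩ := List.mem_map.1 hU
    refine best_sub _ _ fun W hW => ?_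
    obtain ⟨o, _, rfl⟩ := List.mem_map.1 hW
    exact List.filter_sublist
  · intro x T h
    exact sz_list_le _ _ _ h.1 fun r hr =>
      sz_list_le _ _ _ (h.2 r hr).1 fun U hU => sz_sublist ((h.2 r hr).2 U hU)

def bmul (a b : Bn) : Bn := ⟨a.v * b.v⟩

@[fun_prop] theorem PT_bmul {f g : α → Bn} (hf : PT f) (hg : PT g) :
    PT fun x => bmul (f x) (g x) := by
  have h : PT fun x => (g x).v.bits.foldr
      (fun b c => BN.badd (BN.badd c c) (bif b then f x else ⟨0⟩)) ⟨0⟩ :=
    PT.foldr_add (g := fun x b c => BN.badd (BN.badd c c) (bif b then f x else ⟨0⟩))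
      (by fun_prop) (by fun_prop) (by fun_prop) (fun x _ => f x) 12 (by fun_prop) (fun x c b => by
        have h1 : (BN.badd (BN.badd c c) (bif b then f x else ⟨0⟩)).v ≤ 2 * c.v + (f x).v := by
          cases b <;> simp [BN.badd] <;> omega
        have h2 : (2 * c.v + (f x).v).size ≤ c.v.size + (f x).v.size + 2 := by
          rw [Nat.size_le, pow_add, pow_add]
          have h1 := Nat.lt_size_self c.v
          have h2 := Nat.lt_size_self (f x).v
          have h3 : 0 < 2 ^ c.v.size := by positivity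
          have h4 : 0 < 2 ^ (f x).v.size := by positivity
          nlinarith
        have := Nat.size_le_size h1
        simp only [sz_bn]; omega)
  refine h.of_eq fun x => ?_
  have : ∀ l : List Bool, l.foldr (fun b c => BN.badd (BN.badd c c) (bif b then f x else ⟨0⟩)) ⟨0⟩ =
      ⟨(f x).v * bin l⟩ := by
    intro l
    induction l with
    | nil => rfl
    | cons b l ih =>
      rw [List.foldr_cons, ih, bin_cons]
      cases b <;> simp [BN.badd] <;> ring
  rw [this, bin_bits]; rfl

/-- nonnegative rationals as fractions -/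
abbrev R := Bn × Bn

noncomputable def val (x : R) : ℝ := x.1.v / x.2.v
def ok (x : R) : Prop := 0 < x.2.v

def radd (x y : R) : R := (BN.badd (bmul x.1 y.2) (bmul y.1 x.2), bmul x.2 y.2)
def rsub (x y : R) : R := (bsub (bmul x.1 y.2) (bmul y.1 x.2), bmul x.2 y.2)
def rmul (x y : R) : R := (bmul x.1 y.1, bmul x.2 y.2)
def rinv (x : R) : R := (x.2, x.1)
def rhalf (x : R) : R := (x.1, BN.badd x.2 x.2)
def rle (x y : R) : Bool := BN.ble (bmul x.1 y.2) (bmul y.1 x.2)

@[fun_prop] theorem PT_radd {f g : α → R} (hf : PT f) (hg : PT g) :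
    PT fun x => radd (f x) (g x) := by unfold radd; fun_prop
@[fun_prop] theorem PT_rsub {f g : α → R} (hf : PT f) (hg : PT g) :
    PT fun x => rsub (f x) (g x) := by unfold rsub; fun_prop
@[fun_prop] theorem PT_rmul {f g : α → R} (hf : PT f) (hg : PT g) :
    PT fun x => rmul (f x) (g x) := by unfold rmul; fun_prop
@[fun_prop] theorem PT_rinv {f : α → R} (hf : PT f) : PT fun x => rinv (f x) := by
  unfold rinv; fun_prop
@[fun_prop] theorem PT_rhalf {f : α → R} (hf : PT f) : PT fun x => rhalf (f x) := by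
  unfold rhalf; fun_prop
@[fun_prop] theorem PT_rle {f g : α → R} (hf : PT f) (hg : PT g) :
    PT fun x => rle (f x) (g x) := by unfold rle; fun_prop

theorem val_nonneg (x : R) : 0 ≤ val x := by unfold val; positivity

theorem radd_spec {x y : R} (hx : ok x) (hy : ok y) :
    ok (radd x y) ∧ val (radd x y) = val x + val y := by
  have h1 : (0 : ℝ) < x.2.v := by exact_mod_cast hx
  have h2 : (0 : ℝ) < y.2.v := by exact_mod_cast hy
  refine ⟨Nat.mul_pos hx hy, ?_⟩
  simp only [val, radd, BN.badd, bmul]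
  push_cast; field_simp

theorem rle_spec {x y : R} (hx : ok x) (hy : ok y) : rle x y = true ↔ val x ≤ val y := by
  have h1 : (0 : ℝ) < x.2.v := by exact_mod_cast hx
  have h2 : (0 : ℝ) < y.2.v := by exact_mod_cast hy
  simp only [val, rle, BN.ble, bmul, decide_eq_true_eq]
  rw [div_le_div_iff₀ h1 h2]
  exact_mod_cast Iff.rfl

theorem rsub_spec {x y : R} (hx : ok x) (hy : ok y) :
    ok (rsub x y) ∧ (val y ≤ val x → val (rsub x y) = val x - val y) := by
  have h1 : (0 : ℝ) < x.2.v := by exact_mod_cast hx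
  have h2 : (0 : ℝ) < y.2.v := by exact_mod_cast hy
  refine ⟨Nat.mul_pos hx hy, fun h => ?_⟩
  have h3 := (rle_spec hy hx).2 h
  simp only [rle, BN.ble, bmul, decide_eq_true_eq] at h3
  simp only [val, rsub, bsub, bmul]
  rw [Nat.cast_sub h3]
  push_cast; field_simp

theorem rmul_spec {x y : R} (hx : ok x) (hy : ok y) :
    ok (rmul x y) ∧ val (rmul x y) = val x * val y := by
  refine ⟨Nat.mul_pos hx hy, ?_⟩
  simp only [val, rmul, bmul]
  push_cast; rw [div_mul_div_comm]

theorem rinv_spec {x : R} (hx : 0 < val x) : ok (rinv x) ∧ val (rinv x) = (val x)⁻¹ := by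
  refine ⟨?_, by simp [val, rinv]⟩
  rcases Nat.eq_zero_or_pos x.1.v with h | h
  · simp [val, h] at hx
  · exact h

theorem rhalf_spec {x : R} (hx : ok x) : ok (rhalf x) ∧ val (rhalf x) = val x / 2 := by
  have h1 : (0 : ℝ) < x.2.v := by exact_mod_cast hx
  refine ⟨Nat.add_pos_left hx _, ?_⟩
  simp only [val, rhalf, BN.badd]
  push_cast; field_simp; ring

end Pool.Agent.H25.Rail
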