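import Pool.Agent.H11.GDefs

set_option autoImplicit false

namespace Pool.Agent.H25.Rail
open Pool.Agent.H11.PT

/-- a nonnegative rational: binary numerator and denominator -/
abbrev Q := List Bool × List Bool

noncomputable def qv (x : Q) : ℝ := bin x.1 / bin x.2

/-- a job: release time, deadline, processing time, start and end location -/
abbrev Job := Q × Q × Q × Q × Q

/-- an instance: corridor length, travel time, start times of the paths, jobs -/
abbrev Inst := Q × Q × List Q × List Job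

def Valid (I : Inst) : Prop :=
  0 < qv I.1 ∧ 0 < qv I.2.1 ∧ (∀ t ∈ I.2.2.1, 0 < bin t.2) ∧
    I.2.2.1.Pairwise (fun a b => qv a < qv b) ∧
    ∀ j ∈ I.2.2.2, (0 < bin j.1.2 ∧ 0 < bin j.2.1.2 ∧ 0 < bin j.2.2.1.2 ∧ 0 < bin j.2.2.2.1.2 ∧
      0 < bin j.2.2.2.2.2) ∧ qv j.2.2.1 ≤ qv j.2.1 - qv j.1 ∧ qv j.2.2.2.1 ≤ qv j.2.2.2.2 ∧
        qv j.2.2.2.2 ≤ qv I.1

/-- every job starts between its release time and its deadline minus its processing time -/
def Feasible (I : Inst) (s : Fin I.2.2.2.length → ℝ) : Prop :=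
  ∀ j, qv I.2.2.2[j].1 ≤ s j ∧ s j ≤ qv I.2.2.2[j].2.1 - qv I.2.2.2[j].2.2.1

/-- the segment from `(t, 0)` to `(t + δ, L)` meets the box of job `j` started at time `s` -/
def Meets (L δ t : ℝ) (j : Job) (s : ℝ) : Prop :=
  ∃ l : ℝ, 0 ≤ l ∧ l ≤ 1 ∧ s ≤ t + l * δ ∧ t + l * δ ≤ s + qv j.2.2.1 ∧
    qv j.2.2.2.1 ≤ l * L ∧ l * L ≤ qv j.2.2.2.2

/-- the number of cancelled paths -/
noncomputable def cancelled (I : Inst) (s : Fin I.2.2.2.length → ℝ) : ℕ :=
  Nat.card {i : Fin I.2.2.1.length //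
    ∃ j, Meets (qv I.1) (qv I.2.1) (qv I.2.2.1[i]) I.2.2.2[j] (s j)}

end Pool.Agent.H25.Rail
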