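import Pool.Agent.H25.RandDefs

/-! Finite support of formulas and stability of theories of unary predicates. -/

namespace Pool.Agent.H25.Rand

open FirstOrder FirstOrder.Language Cardinal Filter

section Supp
variable {L : FirstOrder.Language.{0, 0}}

/-- `σ` commutes with the symbols in `S`. -/
def Comm (S : Finset L.Symbols) (N : Type) [L.Structure N] (σ : Equiv.Perm N) : Prop :=
  (∀ l (f : L.Functions l), (Sum.inl ⟨l, f⟩ : L.Symbols) ∈ S →
    ∀ x : Fin l → N, Structure.funMap f (σ ∘ x) = σ (Structure.funMap f x)) ∧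
  (∀ l (r : L.Relations l), (Sum.inr ⟨l, r⟩ : L.Symbols) ∈ S →
    ∀ x : Fin l → N, Structure.RelMap r (σ ∘ x) ↔ Structure.RelMap r x)

theorem term_supp {α : Type} (t : L.Term α) :
    ∀ᶠ S : Finset L.Symbols in atTop, ∀ (N : Type) [L.Structure N] (σ : Equiv.Perm N),
      Comm S N σ → ∀ v : α → N, t.realize (σ ∘ v) = σ (t.realize v) := by
  induction t with
  | var a => exact Eventually.of_forall fun S N _ σ _ v => rfl
  | @func l f ts ih =>
    filter_upwards [eventually_all.2 ih,
      eventually_ge_atTop ({(Sum.inl ⟨l, f⟩ : L.Symbols)} : Finset L.Symbols)] with S h1 h2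
    intro N _ σ hc v
    simp only [Term.realize]
    rw [← hc.1 l f (h2 (Finset.mem_singleton_self _))]
    congr 1
    funext i
    exact h1 i N σ hc v

theorem form_supp {α : Type} {n : ℕ} (φ : L.BoundedFormula α n) :
    ∀ᶠ S : Finset L.Symbols in atTop, ∀ (N : Type) [L.Structure N] (σ : Equiv.Perm N),
      Comm S N σ → ∀ (v : α → N) (xs : Fin n → N),
        (φ.Realize (σ ∘ v) (σ ∘ xs) ↔ φ.Realize v xs) := by
  induction φ with
  | falsum => exact Eventually.of_forall fun S N _ σ _ v xs => Iff.rfl
  | equal t₁ t₂ =>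
    filter_upwards [term_supp t₁, term_supp t₂] with S h1 h2
    intro N _ σ hc v xs
    simp only [BoundedFormula.Realize]
    rw [← Sum.comp_elim, h1 N σ hc, h2 N σ hc]
    exact σ.injective.eq_iff
  | @rel k l r ts =>
    filter_upwards [eventually_all.2 (fun i => term_supp (ts i)),
      eventually_ge_atTop ({(Sum.inr ⟨l, r⟩ : L.Symbols)} : Finset L.Symbols)] with S h1 h2
    intro N _ σ hc v xs
    simp only [BoundedFormula.Realize]
    rw [← hc.2 l r (h2 (Finset.mem_singleton_self _)) (fun i => (ts i).realize (Sum.elim v xs)),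
      ← Sum.comp_elim]
    have : (fun i => (ts i).realize (σ ∘ Sum.elim v xs)) =
        σ ∘ fun i => (ts i).realize (Sum.elim v xs) := by
      funext i; exact h1 i N σ hc _
    rw [this]
  | imp φ ψ ih1 ih2 =>
    filter_upwards [ih1, ih2] with S h1 h2
    intro N _ σ hc v xs
    simp only [BoundedFormula.realize_imp]
    rw [h1 N σ hc, h2 N σ hc]
  | all φ ih =>
    filter_upwards [ih] with S h1
    intro N _ σ hc v xs
    simp only [BoundedFormula.realize_all]
    rw [σ.surjective.forall]
    refine forall_congr' fun x => ?_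
    rw [← h1 N σ hc v (Fin.snoc xs x), Fin.comp_snoc]

end Supp

/-- Extending a finite colour-preserving injective correspondence to a permutation. -/
theorem exists_perm {N C ι : Type} (col : N → C) (a b : ι → N) (hc : ∀ i, col (a i) = col (b i))
    (he : ∀ i j, a i = a j ↔ b i = b j) (s : Finset ι) :
    ∃ σ : Equiv.Perm N, (∀ x, col (σ x) = col x) ∧ ∀ i ∈ s, σ (a i) = b i := by
  classical
  induction s using Finset.induction_on with
  | empty => exact ⟨1, fun _ => rfl, by simp⟩
  | insert j s _ ih =>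
    obtain ⟨σ, h1, h2⟩ := ih
    refine ⟨Equiv.swap (σ (a j)) (b j) * σ, fun x => ?_, fun i hi => ?_⟩
    · rw [Equiv.Perm.mul_apply, Equiv.swap_apply_def]
      split_ifs with e1 e2
      · rw [← hc j, ← h1 x, e1, h1]
      · rw [h1, hc j, ← e2, h1]
      · exact h1 x
    · rw [Equiv.Perm.mul_apply]
      rcases Finset.mem_insert.1 hi with rfl | hi
      · exact Equiv.swap_apply_left _ _
      · rw [h2 i hi, Equiv.swap_apply_def]
        split_ifs with e1 e2
        · rw [← h2 i hi] at e1
          exact ((he i j).1 (σ.injective e1)).symm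
        · rw [← (he i j).2 e2, h2 i hi]
        · rfl

/-- Countably many unary relation symbols. -/
inductive PR : ℕ → Type
  | p (k : ℕ) : PR 1

/-- The language of countably many unary predicates. -/
def LU : FirstOrder.Language.{0, 0} := ⟨fun _ => Empty, PR⟩

/-- The `k`-th predicate. -/
def P (k : ℕ) : LU.Relations 1 := PR.p k

theorem LU_card : LU.card ≤ ℵ₀ := by
  have : Countable LU.Symbols := by
    have h1 : Countable (Σ l, LU.Functions l) := by
      have : ∀ l, IsEmpty (LU.Functions l) := fun l => inferInstanceAs (IsEmpty Empty)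
      infer_instance
    have h2 : Countable (Σ l, LU.Relations l) := by
      refine Function.Surjective.countable (f := fun k : ℕ => (⟨1, P k⟩ : Σ l, LU.Relations l)) ?_
      rintro ⟨l, r⟩
      cases r with
      | p k => exact ⟨k, rfl⟩
    exact inferInstanceAs (Countable ((Σ l, LU.Functions l) ⊕ (Σ l, LU.Relations l)))
  exact Cardinal.mk_le_aleph0

theorem suppU {α : Type} {n : ℕ} (φ : LU.BoundedFormula α n) :
    ∃ K : Set ℕ, K.Finite ∧ ∀ (N : Type) [LU.Structure N] (σ : Equiv.Perm N),
      (∀ k ∈ K, ∀ x, Structure.RelMap (P k) ![σ x] ↔ Structure.RelMap (P k) ![x]) →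
      ∀ (v : α → N) (xs : Fin n → N), (φ.Realize (σ ∘ v) (σ ∘ xs) ↔ φ.Realize v xs) := by
  obtain ⟨S, hS⟩ := (form_supp φ).exists
  refine ⟨(fun k => (Sum.inr ⟨1, P k⟩ : LU.Symbols)) ⁻¹' S, S.finite_toSet.preimage ?_, ?_⟩
  · intro k _ k' _ h
    simp only [Sum.inr.injEq, Sigma.mk.injEq, heq_eq_eq, true_and] at h
    cases h; rfl
  · intro N _ σ h
    refine hS N σ ⟨fun l f => f.elim, fun l r hr x => ?_⟩
    cases r with
    | p k =>
      have e1 : σ ∘ x = ![σ (x 0)] := by funext i; fin_cases i; rfl
      have e2 : x = ![x 0] := by funext i; fin_cases i; rfl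
      rw [e1]; conv_rhs => rw [e2]
      exact h k hr _

theorem suppA {A α : Type} {n : ℕ} (φ : LU[[A]].BoundedFormula α n) :
    ∃ K : Set ℕ, ∃ A₀ : Set A, K.Finite ∧ A₀.Finite ∧
      ∀ (N : Type) [LU[[A]].Structure N] (σ : Equiv.Perm N),
      (∀ k ∈ K, ∀ x, Structure.RelMap (L := LU[[A]]) (Sum.inl (P k)) ![σ x] ↔
        Structure.RelMap (L := LU[[A]]) (Sum.inl (P k)) ![x]) →
      (∀ a ∈ A₀, σ (LU.con a : N) = (LU.con a : N)) →
      ∀ (v : α → N) (xs : Fin n → N), (φ.Realize (σ ∘ v) (σ ∘ xs) ↔ φ.Realize v xs) := by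
  obtain ⟨S, hS⟩ := (form_supp φ).exists
  refine ⟨(fun k => (Sum.inr ⟨1, Sum.inl (P k)⟩ : LU[[A]].Symbols)) ⁻¹' S,
    (fun a => (Sum.inl ⟨0, LU.con a⟩ : LU[[A]].Symbols)) ⁻¹' S,
    S.finite_toSet.preimage ?_, S.finite_toSet.preimage ?_, ?_⟩
  · intro k _ k' _ h
    simp only [Sum.inr.injEq, Sigma.mk.injEq, heq_eq_eq, true_and] at h
    cases h; rfl
  · intro k _ k' _ h
    simp only [Sum.inl.injEq, Sigma.mk.injEq, heq_eq_eq, true_and] at h
    cases h; rfl
  · intro N _ σ h h'
    refine hS N σ ⟨fun l f hf x => ?_, fun l r hr x => ?_⟩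
    · rcases f with f | f
      · exact f.elim
      · cases l with
        | zero =>
          have e1 : σ ∘ x = default := Subsingleton.elim _ _
          have e2 : x = default := Subsingleton.elim _ _
          rw [e1, e2]
          exact (h' f hf).symm
        | succ l => exact f.elim
    · rcases r with r | r
      · cases r with
        | p k =>
          have e1 : σ ∘ x = ![σ (x 0)] := by funext i; fin_cases i; rfl
          have e2 : x = ![x 0] := by funext i; fin_cases i; rfl
          rw [e1]; conv_rhs => rw [e2]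
          exact h k hr _
      · exact r.elim

end Pool.Agent.H25.Rand
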