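import Pool.Agent.H25.Rand1

/-! Every theory of countably many unary predicates is stable from the continuum on. -/

namespace Pool.Agent.H25.Rand

open FirstOrder FirstOrder.Language Cardinal

theorem transfer_fin {L : FirstOrder.Language.{0, 0}} {N M₁ M₂ : Type} [L.Structure N]
    [L.Structure M₁] [L.Structure M₂] [M₁ ⊨ L.completeTheory N] [M₂ ⊨ L.completeTheory N]
    {n : ℕ} {ι : Type} [Finite ι] (ψ : ι → L.Formula (Fin n)) (v : Fin n → M₁) :
    ∃ u : Fin n → M₂, ∀ i, ((ψ i).Realize u ↔ (ψ i).Realize v) := by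
  classical
  let χ : L.Formula (Fin n) := Formula.iInf fun i => if (ψ i).Realize v then ψ i else (ψ i).not
  let θ : L.Sentence := Formula.iExs (Fin n) (χ.relabel (Sum.inr : Fin n → Empty ⊕ Fin n))
  have key : ∀ (M : Type) [L.Structure M], M ⊨ θ ↔ ∃ u : Fin n → M, χ.Realize u := by
    intro M _
    simp only [θ, Sentence.Realize, Formula.realize_iExs, Formula.realize_relabel]
    rfl
  have h1 : M₁ ⊨ θ := by
    refine (key M₁).2 ⟨v, ?_⟩
    simp only [χ, Formula.realize_iInf]
    intro i
    split_ifs with h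
    · exact h
    · simpa using h
  have h2 : M₂ ⊨ θ :=
    (realize_iff_of_model_completeTheory N M₂ θ).2 ((realize_iff_of_model_completeTheory N M₁ θ).1 h1)
  obtain ⟨u, hu⟩ := (key M₂).1 h2
  refine ⟨u, fun i => ?_⟩
  simp only [χ, Formula.realize_iInf] at hu
  have := hu i
  split_ifs at this with h
  · exact iff_of_true this h
  · exact iff_of_false (by simpa using this) h

section
variable {A : Type} {n : ℕ}

/-- `P_k x_i`. -/
def fP (i : Fin n) (k : ℕ) : LU[[A]].Formula (Fin n) :=
  Relations.formula₁ (L := LU[[A]]) (Sum.inl (P k)) (Term.var i)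
/-- `x_i = x_j`. -/
def fE (i j : Fin n) : LU[[A]].Formula (Fin n) := (Term.var i).equal (Term.var j)
/-- `x_i = c_a`. -/
def fC (i : Fin n) (a : A) : LU[[A]].Formula (Fin n) := (Term.var i).equal (LU.con a).term
/-- `c_a = c_b`. -/
def fD (a b : A) : LU[[A]].Sentence := ((LU.con a).term).equal (LU.con b).term

variable {M : Type} [LU[[A]].Structure M]

theorem fP_iff (i : Fin n) (k : ℕ) (v : Fin n → M) :
    (fP (A := A) i k).Realize v ↔ Structure.RelMap (L := LU[[A]]) (Sum.inl (P k)) ![v i] := by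
  simp [fP]
theorem fE_iff (i j : Fin n) (v : Fin n → M) : (fE (A := A) i j).Realize v ↔ v i = v j := by
  simp [fE]
theorem fC_iff (i : Fin n) (a : A) (v : Fin n → M) :
    (fC i a).Realize v ↔ v i = (LU.con a : M) := by
  simp [fC]
theorem fD_iff (a b : A) : M ⊨ fD a b ↔ (LU.con a : M) = (LU.con b : M) := by
  simp [fD, Sentence.Realize]

end

theorem same_type {A N M₁ M₂ : Type} [LU[[A]].Structure N] [LU[[A]].Structure M₁]
    [LU[[A]].Structure M₂] [M₁ ⊨ LU[[A]].completeTheory N] [M₂ ⊨ LU[[A]].completeTheory N]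
    {n : ℕ} (v : Fin n → M₁) (w : Fin n → M₂)
    (hP : ∀ i k, (fP (A := A) i k).Realize v ↔ (fP (A := A) i k).Realize w)
    (hE : ∀ i j, (fE (A := A) i j).Realize v ↔ (fE (A := A) i j).Realize w)
    (hC : ∀ i (a : A), (fC i a).Realize v ↔ (fC i a).Realize w)
    (φ : LU[[A]].Formula (Fin n)) : φ.Realize v ↔ φ.Realize w := by
  obtain ⟨K, A₀, hK, hA, h⟩ := suppA φ
  have := hK.to_subtype
  have := hA.to_subtype
  obtain ⟨u, hu⟩ := transfer_fin (L := LU[[A]]) (N := N) (M₂ := M₂)
    (ι := Option ((Fin n × K) ⊕ (Fin n × Fin n) ⊕ (Fin n × A₀)))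
    (fun o => o.elim φ (Sum.elim (fun x => fP x.1 x.2.1)
      (Sum.elim (fun x => fE x.1 x.2) (fun x => fC x.1 x.2.1)))) v
  have u0 : φ.Realize u ↔ φ.Realize v := hu none
  have u1 : ∀ i (k : K), (fP (A := A) i k.1).Realize u ↔ (fP (A := A) i k.1).Realize w :=
    fun i k => (hu (some (.inl (i, k)))).trans (hP i k.1)
  have u2 : ∀ i j, (fE (A := A) i j).Realize u ↔ (fE (A := A) i j).Realize w :=
    fun i j => (hu (some (.inr (.inl (i, j))))).trans (hE i j)
  have u3 : ∀ i (a : A₀), (fC i a.1).Realize u ↔ (fC i a.1).Realize w :=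
    fun i a => (hu (some (.inr (.inr (i, a))))).trans (hC i a.1)
  simp only [fP_iff, fE_iff, fC_iff] at u1 u2 u3
  have := Fintype.ofFinite A₀
  obtain ⟨σ, s1, s2⟩ := exists_perm
    (fun x : M₂ => fun k : K => Structure.RelMap (L := LU[[A]]) (Sum.inl (P k.1)) ![x])
    (Sum.elim u (fun a : A₀ => (LU.con a.1 : M₂))) (Sum.elim w (fun a : A₀ => (LU.con a.1 : M₂)))
    (by
      rintro (i | a)
      · funext k; exact propext (u1 i k)
      · rfl)
    (by
      rintro (i | a) (j | b)
      · exact u2 i j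
      · exact u3 i b
      · simp only [Sum.elim_inl, Sum.elim_inr]
        rw [eq_comm, u3 j a, eq_comm]
      · rfl) Finset.univ
  have e : σ ∘ u = w := by funext i; exact s2 (.inl i) (Finset.mem_univ _)
  rw [← u0, ← e]
  have := h M₂ σ (fun k hk x => iff_of_eq (congrFun (s1 x) ⟨k, hk⟩))
    (fun a ha => s2 (.inr ⟨a, ha⟩) (Finset.mem_univ _)) u default
  rw [Subsingleton.elim (σ ∘ default) default] at this
  exact this.symm

theorem stable_LU (T : LU.Theory) (κ : Cardinal.{0}) (hκ : 𝔠 ≤ κ) : Stable T κ := by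
  classical
  intro N _ _ _ A hA n
  let F : (LU[[A]].completeTheory N).CompleteType (Fin n) →
      (Fin n → ℕ → Prop) × (Fin n → Fin n → Prop) × (Fin n → Option A) := fun p =>
    (fun i k => Formula.equivSentence (fP (A := A) i k) ∈ p,
     fun i j => Formula.equivSentence (fE (A := A) i j) ∈ p,
     fun i => if h : ∃ a : A, Formula.equivSentence (fC i a) ∈ p then some h.choose else none)
  have hF : Function.Injective F := by
    intro p q h
    obtain ⟨M₁, v, rfl⟩ := Theory.exists_modelType_is_realized_in _ p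
    obtain ⟨M₂, w, rfl⟩ := Theory.exists_modelType_is_realized_in _ q
    simp only [F, Prod.mk.injEq, Theory.CompleteType.formula_mem_typeOf] at h
    obtain ⟨h1, h2, h3⟩ := h
    have hD : ∀ a b : A, ((LU.con a : M₁) = (LU.con b : M₁)) ↔ ((LU.con a : M₂) = (LU.con b : M₂)) := by
      intro a b
      rw [← fD_iff, ← fD_iff, realize_iff_of_model_completeTheory N M₁,
        realize_iff_of_model_completeTheory N M₂]
    have hC : ∀ i (a : A), (fC i a).Realize v ↔ (fC i a).Realize w := by
      intro i a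
      have h4 := congrFun h3 i
      by_cases e1 : ∃ a : A, (fC i a).Realize v <;> by_cases e2 : ∃ a : A, (fC i a).Realize w
      · rw [dif_pos e1, dif_pos e2, Option.some.injEq] at h4
        have c1 := e1.choose_spec
        have c2 := e2.choose_spec
        rw [← h4] at c2
        rw [fC_iff] at c1 c2
        rw [fC_iff, fC_iff, c1, c2, hD]
      · rw [dif_pos e1, dif_neg e2] at h4; cases h4
      · rw [dif_neg e1, dif_pos e2] at h4; cases h4
      · exact iff_of_false (fun h => e1 ⟨a, h⟩) (fun h => e2 ⟨a, h⟩)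
    refine SetLike.ext fun φ => ?_
    rw [Theory.CompleteType.mem_typeOf, Theory.CompleteType.mem_typeOf]
    exact same_type (N := N) v w (fun i k => iff_of_eq (congrFun (congrFun h1 i) k))
      (fun i j => iff_of_eq (congrFun (congrFun h2 i) j)) hC _
  refine (mk_le_of_injective hF).trans ?_
  have h0 : ℵ₀ ≤ κ := aleph0_le_continuum.trans hκ
  have hp : ∀ c : Cardinal.{0}, c ≤ κ → c ^ (n : Cardinal.{0}) ≤ κ := fun c hc =>
    (power_le_power_right hc).trans (by rw [power_natCast]; exact power_nat_le h0)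
  have hq : ∀ X : Type, #X ≤ κ → #(Fin n → X) ≤ κ := fun X hX => by
    rw [← power_def, mk_fin]; exact hp _ hX
  rw [mk_prod, mk_prod, lift_id, lift_id, lift_id, lift_id]
  refine mul_le_of_le h0 (hq _ ?_) (mul_le_of_le h0 (mk_le_aleph0.trans h0) (hq _ ?_))
  · rw [← power_def, mk_Prop, mk_nat]; simpa using hκ
  · rw [mk_option]; exact add_le_of_le h0 hA (one_le_aleph0.trans h0)

end Pool.Agent.H25.Rand
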