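import Pool.Agent.H25.Rand2

/-! The structure `2^ℕ` with coordinate predicates: measurability and Skolem functions. -/

namespace Pool.Agent.H25.Rand

open FirstOrder FirstOrder.Language Cardinal MeasureTheory

/-- Cantor space. -/
def MM : Type := ℕ → Bool

instance : MeasurableSpace MM := inferInstanceAs (MeasurableSpace (ℕ → Bool))
instance : Inhabited MM := ⟨fun _ => false⟩

instance : LU.Structure MM where
  funMap f := f.elim
  RelMap r x := match r with
    | PR.p k => x 0 k = true

theorem relP (k : ℕ) (x : Fin 1 → MM) : Structure.RelMap (P k) x ↔ x 0 k = true := Iff.rfl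

/-- Finitely supported points. -/
def fin (s : Finset ℕ) : MM := fun k => decide (k ∈ s)

/-- Countably many candidate witnesses. -/
def cand {ι : Type} (u : ι → MM) : Finset ℕ ⊕ ι → MM := Sum.elim fin u

theorem wit {ι : Type} [Finite ι] (K : Set ℕ) (hK : K.Finite) (u : ι → MM) (x : MM) :
    ∃ j, ∃ σ : Equiv.Perm MM,
      (∀ k ∈ K, ∀ y, Structure.RelMap (P k) ![σ y] ↔ Structure.RelMap (P k) ![y]) ∧
      σ ∘ u = u ∧ σ x = cand u j := by
  classical
  by_cases hx : ∃ i, u i = x
  · obtain ⟨i, rfl⟩ := hx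
    exact ⟨.inr i, 1, fun _ _ _ => Iff.rfl, rfl, rfl⟩
  let s : ℕ → Finset ℕ := fun j => insert j (hK.toFinset.filter fun k => x k = true)
  have hinj : Set.InjOn (fun j => fin (s j)) Kᶜ := by
    intro j hj j' _ h
    have := congrFun h j
    simp only [fin, s, Finset.mem_insert, true_or, decide_true, Finset.mem_filter,
      Set.Finite.mem_toFinset] at this
    have := of_decide_eq_true this.symm
    rcases this with e | e
    · exact e
    · exact absurd e.1 hj
  have hinf : ((fun j => fin (s j)) '' Kᶜ).Infinite := hK.infinite_compl.image hinj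
  obtain ⟨_, ⟨j, hj, rfl⟩, hn⟩ := hinf.exists_notMem_finite (Set.finite_range u)
  have hag : ∀ k ∈ K, fin (s j) k = x k := by
    intro k hk
    have : k ≠ j := fun e => hj (e ▸ hk)
    simp only [fin, s, Finset.mem_insert, this, false_or, Finset.mem_filter,
      Set.Finite.mem_toFinset, hk, true_and]
    cases x k <;> simp
  refine ⟨.inl (s j), Equiv.swap x (fin (s j)), fun k hk y => ?_, ?_, Equiv.swap_apply_left _ _⟩
  · rw [relP, relP]
    simp only [Matrix.cons_val_zero, Equiv.swap_apply_def]
    split_ifs with e1 e2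
    · rw [hag k hk, e1]
    · rw [e2, hag k hk]
    · rfl
  · funext i
    exact Equiv.swap_apply_of_ne_of_ne (fun e => hx ⟨i, e⟩) (fun e => hn ⟨i, e⟩)

variable {Ω : Type} [MeasurableSpace Ω]

theorem meas_eq {f g : Ω → MM} (hf : Measurable f) (hg : Measurable g) :
    MeasurableSet {ω | f ω = g ω} := by
  have : {ω | f ω = g ω} = ⋂ k, {ω | f ω k = g ω k} := by
    ext ω; simp only [Set.mem_setOf_eq, Set.mem_iInter]; exact funext_iff
  rw [this]
  exact MeasurableSet.iInter fun k => measurableSet_eq_fun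
    ((measurable_pi_apply k).comp hf) ((measurable_pi_apply k).comp hg)

theorem meas_term {α : Type} (t : LU.Term α) (f : α → Ω → MM) (hf : ∀ a, Measurable (f a)) :
    Measurable fun ω => t.realize fun a => f a ω := by
  cases t with
  | var a => exact hf a
  | func g _ => exact g.elim

theorem meas_cand {ι : Type} (f : ι → Ω → MM) (hf : ∀ a, Measurable (f a)) (j : Finset ℕ ⊕ ι) :
    Measurable fun ω => cand (fun a => f a ω) j := by
  rcases j with s | i
  · exact measurable_const
  · exact hf i

theorem meas_bf {α : Type} [Finite α] {n : ℕ} (φ : LU.BoundedFormula α n) (f : α → Ω → MM)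
    (hf : ∀ a, Measurable (f a)) (g : Fin n → Ω → MM) (hg : ∀ i, Measurable (g i)) :
    MeasurableSet {ω | φ.Realize (fun a => f a ω) (fun i => g i ω)} := by
  have hs : ∀ {n} (g : Fin n → Ω → MM) (_ : ∀ i, Measurable (g i)) (t : LU.Term (α ⊕ Fin n)),
      Measurable fun ω => t.realize (Sum.elim (fun a => f a ω) (fun i => g i ω)) := by
    intro n g hg t
    have := meas_term t (Sum.elim f g) (by rintro (a | i); exacts [hf a, hg i])
    convert this using 3 with ω
    funext x; cases x <;> rfl
  induction φ with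
  | falsum => exact MeasurableSet.empty
  | equal t₁ t₂ => exact meas_eq (hs g hg t₁) (hs g hg t₂)
  | rel r ts =>
    cases r with
    | p k =>
      exact measurableSet_eq_fun ((measurable_pi_apply k).comp (hs g hg (ts 0))) measurable_const
  | imp φ ψ ih1 ih2 =>
    simp only [BoundedFormula.realize_imp]
    exact (ih1 g hg).imp (ih2 g hg)
  | @all n φ ih =>
    obtain ⟨K, hK, h⟩ := suppU φ
    have e : {ω | φ.all.Realize (fun a => f a ω) (fun i => g i ω)} =
        ⋂ j : Finset ℕ ⊕ (α ⊕ Fin n), {ω | φ.Realize (fun a => f a ω)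
          (fun i => (Fin.snoc g (fun ω => cand (fun a => Sum.elim f g a ω) j) :
            Fin (n + 1) → Ω → MM) i ω)} := by
      ext ω
      have e1 : ∀ j, (fun i => (Fin.snoc g (fun ω => cand (fun a => Sum.elim f g a ω) j) :
            Fin (n + 1) → Ω → MM) i ω) =
          Fin.snoc (fun i => g i ω) (cand (fun a => Sum.elim f g a ω) j) := by
        intro j; funext i
        refine Fin.lastCases ?_ (fun i => ?_) i <;> simp
      simp only [Set.mem_setOf_eq, Set.mem_iInter, BoundedFormula.realize_all, e1]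
      refine ⟨fun H j => H _, fun H x => ?_⟩
      obtain ⟨j, σ, s1, s2, s3⟩ := wit K hK (fun a => Sum.elim f g a ω) x
      rw [← h MM σ s1, Fin.comp_snoc, s3]
      have a1 : σ ∘ (fun a => f a ω) = fun a => f a ω := funext fun a => congrFun s2 (.inl a)
      have a2 : σ ∘ (fun i => g i ω) = fun i => g i ω := funext fun a => congrFun s2 (.inr a)
      rw [a1, a2]
      exact H j
    rw [e]
    refine MeasurableSet.iInter fun j => ih _ fun i => ?_
    refine Fin.lastCases ?_ (fun i => ?_) i
    · simp only [Fin.snoc_last]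
      exact meas_cand _ (by rintro (a | i); exacts [hf a, hg i]) j
    · simp only [Fin.snoc_castSucc]; exact hg i

theorem meas_f {n : ℕ} (φ : LU.Formula (Fin n)) (f : Fin n → Ω → MM)
    (hf : ∀ a, Measurable (f a)) : MeasurableSet {ω | φ.Realize (fun a => f a ω)} := by
  have := meas_bf φ f hf default (fun i => i.elim0)
  have e : {ω | φ.Realize (fun a => f a ω)} = {ω | BoundedFormula.Realize φ (fun a => f a ω)
      (fun i => (default : Fin 0 → Ω → MM) i ω)} := by
    ext ω
    exact iff_of_eq (congrArg (BoundedFormula.Realize φ (fun a => f a ω)) (Subsingleton.elim _ _))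
  rw [e]; exact this

theorem exL_iff {L : FirstOrder.Language.{0, 0}} {M : Type} [L.Structure M] {n : ℕ}
    (φ : L.Formula (Fin (n + 1))) (v : Fin n → M) :
    (exL φ).Realize v ↔ ∃ x, φ.Realize (Fin.snoc v x) := by
  have e : ∀ i : Unit → M, (Sum.elim v i ∘ fun j : Fin (n + 1) =>
      (Fin.lastCases (Sum.inr ()) Sum.inl j : Fin n ⊕ Unit)) = Fin.snoc v (i ()) := by
    intro i; funext j
    refine Fin.lastCases ?_ (fun j => ?_) j <;> simp
  simp only [exL, Formula.realize_iExs, Formula.realize_relabel, e]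
  exact ⟨fun ⟨i, h⟩ => ⟨_, h⟩, fun ⟨x, h⟩ => ⟨fun _ => x, h⟩⟩

theorem skolem {n : ℕ} (φ : LU.Formula (Fin (n + 1))) (f : Fin n → Ω → MM)
    (hf : ∀ a, Measurable (f a)) : ∃ x : Ω → MM, Measurable x ∧
      ∀ ω, φ.Realize (Fin.snoc (fun a => f a ω) (x ω)) ↔ (exL φ).Realize fun a => f a ω := by
  classical
  obtain ⟨K, hK, h⟩ := suppU φ
  obtain ⟨e, he⟩ := exists_surjective_nat (Finset ℕ ⊕ Fin n)
  let c : ℕ → Ω → MM := fun j ω => cand (fun a => f a ω) (e j)
  have hc : ∀ j, Measurable (c j) := fun j => meas_cand f hf _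
  let p : ℕ → Ω → Prop := fun j ω => (exL φ).Realize (fun a => f a ω) →
    φ.Realize (Fin.snoc (fun a => f a ω) (c j ω))
  have hp : ∀ j, MeasurableSet {ω | p j ω} := by
    intro j
    refine (meas_f _ f hf).imp ?_
    have := meas_f φ (Fin.snoc f (c j)) (fun i => by
      refine Fin.lastCases ?_ (fun i => ?_) i
      · simpa using hc j
      · simpa using hf i)
    convert this using 4 with ω
    funext i
    refine Fin.lastCases ?_ (fun i => ?_) i <;> simp
  have hex : ∀ ω, ∃ j, p j ω := by
    intro ω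
    by_cases H : (exL φ).Realize (fun a => f a ω)
    · obtain ⟨x, hx⟩ := (exL_iff _ _).1 H
      obtain ⟨j, σ, s1, s2, s3⟩ := wit K hK (fun a => f a ω) x
      obtain ⟨j, rfl⟩ := he j
      refine ⟨j, fun _ => ?_⟩
      unfold Formula.Realize at hx ⊢
      have := (h MM σ s1 (Fin.snoc (fun a => f a ω) x) _).2 hx
      rw [Fin.comp_snoc, s2, s3] at this
      exact (iff_of_eq (congrArg _ (Subsingleton.elim _ _))).1 this
    · exact ⟨0, fun h => absurd h H⟩
  refine ⟨fun ω => c (Nat.find (hex ω)) ω, Measurable.find hc hp hex, fun ω => ⟨fun H => ?_, ?_⟩⟩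
  · exact (exL_iff _ _).2 ⟨_, H⟩
  · exact Nat.find_spec (hex ω)

end Pool.Agent.H25.Rand
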