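import Pool.Agent.H25.Rand3

/-! Random elements of Cantor space and the measure algebra, as complete metric spaces. -/

namespace Pool.Agent.H25.Rand

open FirstOrder FirstOrder.Language Cardinal MeasureTheory Filter Topology
open scoped symmDiff

variable {Ω : Type} [MeasurableSpace Ω]

set_option linter.unusedVariables false in
/-- Measurable maps to Cantor space. -/
def K0 (μ : Measure Ω) : Type := {f : Ω → MM // Measurable f}

variable (μ : Measure Ω) [IsProbabilityMeasure μ]

noncomputable instance : PseudoMetricSpace (K0 μ) where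
  dist f g := μ.real {ω | f.1 ω ≠ g.1 ω}
  dist_self f := by simp
  dist_comm f g := by simp only [ne_comm]
  dist_triangle f g h := by
    refine le_trans (measureReal_mono ?_) (measureReal_union_le _ _)
    intro ω hω
    by_contra hc
    simp only [Set.mem_union, Set.mem_setOf_eq, not_or, not_not] at hc
    exact hω (hc.1.trans hc.2)

theorem dK0 (f g : K0 μ) : dist f g = μ.real {ω | f.1 ω ≠ g.1 ω} := rfl

instance : CompleteSpace (K0 μ) := by
  classical
  refine Metric.complete_of_convergent_controlled_sequences (fun n => (1 / 2 : ℝ) ^ n)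
    (fun n => by positivity) fun u hu => ?_
  let f : Ω → MM := fun ω k => decide (∃ N, ∀ m, (u (N + m)).1 ω k = true)
  have hf : Measurable f := by
    refine measurable_pi_lambda _ fun k => ?_
    refine measurable_to_bool ?_
    have : (fun ω => f ω k) ⁻¹' {true} = ⋃ N, ⋂ m, {ω | (u (N + m)).1 ω k = true} := by
      ext ω; simp [f]
    rw [this]
    exact MeasurableSet.iUnion fun N => MeasurableSet.iInter fun m => measurableSet_eq_fun
      ((measurable_pi_apply k).comp (u (N + m)).2) measurable_const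
  have hb : ∀ N, dist (u N) ⟨f, hf⟩ ≤ (1 / 2 : ℝ) ^ N * 2 := by
    intro N
    have hs : {ω | (u N).1 ω ≠ f ω} ⊆ ⋃ m, {ω | (u (N + m)).1 ω ≠ (u (N + m + 1)).1 ω} := by
      intro ω hω
      by_contra hc
      simp only [Set.mem_iUnion, Set.mem_setOf_eq, not_exists, not_not] at hc
      have h1 : ∀ m, (u (N + m)).1 ω = (u N).1 ω := by
        intro m
        induction m with
        | zero => rfl
        | succ m ih => rw [← ih, hc m]; rfl
      apply hω
      funext k
      simp only [f]
      cases e : (u N).1 ω k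
      · symm
        rw [decide_eq_false_iff_not]
        rintro ⟨N', h⟩
        have := h N
        rw [add_comm, h1, e] at this
        cases this
      · symm
        rw [decide_eq_true_iff]
        exact ⟨N, fun m => by rw [h1, e]⟩
    have h2 : μ {ω | (u N).1 ω ≠ f ω} ≤ ENNReal.ofReal ((1 / 2 : ℝ) ^ N * 2) := by
      refine (measure_mono hs).trans ((measure_iUnion_le _).trans ?_)
      have e : (1 / 2 : ℝ) ^ N * 2 = ∑' m : ℕ, (1 / 2 : ℝ) ^ N * (1 / 2) ^ m := by
        rw [tsum_mul_left, tsum_geometric_two]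
      rw [e, ENNReal.ofReal_tsum_of_nonneg
        (fun n => by positivity) (summable_geometric_two.mul_left _)]
      refine ENNReal.tsum_le_tsum fun m => ?_
      have := hu (N + m) (N + m) (N + m + 1) le_rfl (Nat.le_succ _)
      rw [dK0, pow_add] at this
      rw [← ofReal_measureReal]
      exact ENNReal.ofReal_le_ofReal this.le
    exact ENNReal.toReal_le_of_le_ofReal (by positivity) h2
  refine ⟨⟨f, hf⟩, tendsto_iff_dist_tendsto_zero.2 (squeeze_zero (fun _ => dist_nonneg) hb ?_)⟩
  simpa using (tendsto_pow_atTop_nhds_zero_of_lt_one (r := (1 / 2 : ℝ)) (by norm_num)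
    (by norm_num)).mul_const 2

open Classical in
/-- Indicator of an event. -/
noncomputable def ind (U : MeasuredSets μ) : K0 μ :=
  ⟨fun ω => if ω ∈ U.1 then fun _ => true else fun _ => false,
    Measurable.ite U.2 measurable_const measurable_const⟩

/-- The event that the `k`-th coordinate is true. -/
def back (k : ℕ) (f : K0 μ) : MeasuredSets μ :=
  ⟨{ω | f.1 ω k = true}, measurableSet_eq_fun ((measurable_pi_apply k).comp f.2) measurable_const⟩

theorem dB0 (U V : MeasuredSets μ) : dist U V = μ.real (U.1 ∆ V.1) := rfl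

instance : CompleteSpace (MeasuredSets μ) := by
  have h1 : Isometry (ind μ) := Isometry.of_dist_eq fun U V => by
    rw [dK0, dB0]
    congr 1
    ext ω
    simp only [ind, Set.mem_setOf_eq, Set.mem_symmDiff]
    by_cases a : ω ∈ U.1 <;> by_cases b : ω ∈ V.1 <;> simp [a, b] <;>
      exact fun h => by cases congrFun h 0
  have h2 : LipschitzWith 1 (back μ 0) := LipschitzWith.of_dist_le_mul fun f g => by
    rw [dK0, dB0, NNReal.coe_one, one_mul]
    refine measureReal_mono fun ω hω e => ?_
    simp only [back, Set.mem_symmDiff, Set.mem_setOf_eq, e] at hω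
    tauto
  have h3 : ∀ U, back μ 0 (ind μ U) = U := fun U => Subtype.ext (by
    ext ω
    simp only [back, ind, Set.mem_setOf_eq]
    by_cases a : ω ∈ U.1 <;> simp [a])
  refine Metric.complete_of_cauchySeq_tendsto fun u hu => ?_
  obtain ⟨f, hf⟩ := cauchySeq_tendsto_of_complete (h1.uniformContinuous.comp_cauchySeq hu)
  refine ⟨back μ 0 f, ?_⟩
  have := (h2.continuous.tendsto f).comp hf
  simpa [Function.comp_def, h3] using this

/-- The sort of random elements. -/
def KK : Type := SeparationQuotient (K0 μ)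
/-- The measure algebra. -/
def BB : Type := SeparationQuotient (MeasuredSets μ)

noncomputable instance : MetricSpace (KK μ) :=
  inferInstanceAs (MetricSpace (SeparationQuotient (K0 μ)))
noncomputable instance : MetricSpace (BB μ) :=
  inferInstanceAs (MetricSpace (SeparationQuotient (MeasuredSets μ)))
instance : CompleteSpace (KK μ) := inferInstanceAs (CompleteSpace (SeparationQuotient (K0 μ)))
instance : CompleteSpace (BB μ) :=
  inferInstanceAs (CompleteSpace (SeparationQuotient (MeasuredSets μ)))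

variable {μ}

/-- Class of a measurable map. -/
noncomputable def mkK (f : Ω → MM) (hf : Measurable f) : KK μ := SeparationQuotient.mk (⟨f, hf⟩ : K0 μ)
/-- Class of a measurable set. -/
noncomputable def mkB (s : Set Ω) (hs : MeasurableSet s) : BB μ :=
  SeparationQuotient.mk (⟨s, hs⟩ : MeasuredSets μ)
/-- A representative. -/
noncomputable def rK (x : KK μ) : K0 μ := (SeparationQuotient.surjective_mk x).choose
/-- A representative. -/
noncomputable def rB (x : BB μ) : MeasuredSets μ := (SeparationQuotient.surjective_mk x).choose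
/-- A representative as a function. -/
noncomputable def F (x : KK μ) : Ω → MM := (rK x).1
/-- A representative as a set. -/
noncomputable def S (x : BB μ) : Set Ω := (rB x).1

theorem mF (x : KK μ) : Measurable (F x) := (rK x).2
theorem mS (x : BB μ) : MeasurableSet (S x) := (rB x).2

theorem distK (x y : KK μ) : dist x y = μ.real {ω | F x ω ≠ F y ω} := by
  have hx := (SeparationQuotient.surjective_mk x).choose_spec
  have hy := (SeparationQuotient.surjective_mk y).choose_spec
  conv_lhs => rw [← hx, ← hy]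
  exact SeparationQuotient.dist_mk _ _

theorem distB (x y : BB μ) : dist x y = μ.real (S x ∆ S y) := by
  have hx := (SeparationQuotient.surjective_mk x).choose_spec
  have hy := (SeparationQuotient.surjective_mk y).choose_spec
  conv_lhs => rw [← hx, ← hy]
  exact SeparationQuotient.dist_mk _ _

theorem F_mk (f : Ω → MM) (hf : Measurable f) : ∀ᵐ ω ∂μ, F (mkK (μ := μ) f hf) ω = f ω := by
  have hx := (SeparationQuotient.surjective_mk (mkK (μ := μ) f hf)).choose_spec
  have h := SeparationQuotient.mk_eq_mk.1 hx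
  rw [Metric.inseparable_iff, dK0, measureReal_eq_zero_iff] at h
  exact h

theorem S_mk (s : Set Ω) (hs : MeasurableSet s) :
    ∀ᵐ ω ∂μ, (ω ∈ S (mkB (μ := μ) s hs) ↔ ω ∈ s) := by
  have hx := (SeparationQuotient.surjective_mk (mkB (μ := μ) s hs)).choose_spec
  have h := SeparationQuotient.mk_eq_mk.1 hx
  rw [Metric.inseparable_iff, dB0, measureReal_eq_zero_iff, measure_symmDiff_eq_zero_iff] at h
  exact Filter.eventuallyEq_set.1 h

theorem B_ext {x y : BB μ} (h : ∀ᵐ ω ∂μ, (ω ∈ S x ↔ ω ∈ S y)) : x = y := by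
  rw [← dist_eq_zero, distB, measureReal_eq_zero_iff, measure_symmDiff_eq_zero_iff]
  exact Filter.eventuallyEq_set.2 h

theorem real_congr {s t : Set Ω} (h : ∀ᵐ ω ∂μ, (ω ∈ s ↔ ω ∈ t)) : μ.real s = μ.real t :=
  measureReal_congr (Filter.eventuallyEq_set.2 h)

/-- Union. -/
noncomputable def bsup (a b : BB μ) : BB μ := mkB (S a ∪ S b) ((mS a).union (mS b))
/-- Intersection. -/
noncomputable def binf (a b : BB μ) : BB μ := mkB (S a ∩ S b) ((mS a).inter (mS b))
/-- Complement. -/
noncomputable def bcompl (a : BB μ) : BB μ := mkB (S a)ᶜ (mS a).compl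

theorem S_bsup (a b : BB μ) : ∀ᵐ ω ∂μ, (ω ∈ S (bsup a b) ↔ ω ∈ S a ∨ ω ∈ S b) := S_mk _ _
theorem S_binf (a b : BB μ) : ∀ᵐ ω ∂μ, (ω ∈ S (binf a b) ↔ ω ∈ S a ∧ ω ∈ S b) := S_mk _ _
theorem S_bcompl (a : BB μ) : ∀ᵐ ω ∂μ, (ω ∈ S (bcompl a) ↔ ω ∉ S a) := S_mk _ _

noncomputable instance : BooleanAlgebra (BB μ) where
  le a b := ∀ᵐ ω ∂μ, ω ∈ S a → ω ∈ S b
  le_refl a := Eventually.of_forall fun _ h => h
  le_trans a b c h1 h2 := by filter_upwards [h1, h2] with ω x y using fun h => y (x h)
  le_antisymm a b h1 h2 := B_ext (by filter_upwards [h1, h2] with ω x y using ⟨x, y⟩)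
  sup := bsup
  inf := binf
  le_sup_left a b := by filter_upwards [S_bsup a b] with ω x; tauto
  le_sup_right a b := by filter_upwards [S_bsup a b] with ω x; tauto
  sup_le a b c h1 h2 := by filter_upwards [S_bsup a b, h1, h2] with ω x y z; tauto
  inf_le_left a b := by filter_upwards [S_binf a b] with ω x; tauto
  inf_le_right a b := by filter_upwards [S_binf a b] with ω x; tauto
  le_inf a b c h1 h2 := by filter_upwards [S_binf b c, h1, h2] with ω x y z; tauto
  le_sup_inf a b c := by
    change ∀ᵐ ω ∂μ, ω ∈ S (binf (bsup a b) (bsup a c)) → ω ∈ S (bsup a (binf b c))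
    filter_upwards [S_binf (bsup a b) (bsup a c), S_bsup a b, S_bsup a c, S_bsup a (binf b c),
      S_binf b c] with ω x y z w v
    tauto
  compl := bcompl
  top := mkB Set.univ MeasurableSet.univ
  bot := mkB ∅ MeasurableSet.empty
  inf_compl_le_bot a := by
    change ∀ᵐ ω ∂μ, ω ∈ S (binf a (bcompl a)) → _
    filter_upwards [S_binf a (bcompl a), S_bcompl a] with ω x y; tauto
  top_le_sup_compl a := by
    change ∀ᵐ ω ∂μ, _ → ω ∈ S (bsup a (bcompl a))
    filter_upwards [S_bsup a (bcompl a), S_bcompl a] with ω x y; tauto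
  le_top a := by
    filter_upwards [S_mk (μ := μ) Set.univ MeasurableSet.univ] with ω x using fun _ => x.2 trivial
  bot_le a := by
    filter_upwards [S_mk (μ := μ) ∅ MeasurableSet.empty] with ω x using fun h => (x.1 h).elim

theorem S_sup (a b : BB μ) : ∀ᵐ ω ∂μ, (ω ∈ S (a ⊔ b) ↔ ω ∈ S a ∨ ω ∈ S b) := S_bsup a b
theorem S_inf (a b : BB μ) : ∀ᵐ ω ∂μ, (ω ∈ S (a ⊓ b) ↔ ω ∈ S a ∧ ω ∈ S b) := S_binf a b
theorem S_compl (a : BB μ) : ∀ᵐ ω ∂μ, (ω ∈ S aᶜ ↔ ω ∉ S a) := S_bcompl a
theorem S_top : ∀ᵐ ω ∂μ, ω ∈ S (⊤ : BB μ) := by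
  filter_upwards [S_mk (μ := μ) Set.univ MeasurableSet.univ] with ω x using x.2 trivial
theorem S_bot : ∀ᵐ ω ∂μ, ω ∉ S (⊥ : BB μ) := by
  filter_upwards [S_mk (μ := μ) ∅ MeasurableSet.empty] with ω x using fun h => (x.1 h).elim
theorem S_symm (a b : BB μ) : ∀ᵐ ω ∂μ, (ω ∈ S (a ∆ b) ↔ ω ∈ S a ∆ S b) := by
  rw [symmDiff_def, sdiff_eq, sdiff_eq]
  filter_upwards [S_sup (a ⊓ bᶜ) (b ⊓ aᶜ), S_inf a bᶜ, S_inf b aᶜ, S_compl a, S_compl b]
    with ω x y z w v
  rw [Set.mem_symmDiff]
  tauto

end Pool.Agent.H25.Rand
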