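import Pool.Agent.H25.Rand4

/-! The randomization of Cantor space is a model of `T^R`. -/

namespace Pool.Agent.H25.Rand

open FirstOrder FirstOrder.Language Cardinal MeasureTheory Filter Topology
open scoped symmDiff

variable {Ω : Type} [MeasurableSpace Ω] {μ : Measure Ω} [IsProbabilityMeasure μ]

/-- The event `[[φ(x)]]`. -/
noncomputable def evv {n : ℕ} (φ : LU.Formula (Fin n)) (x : Fin n → KK μ) : BB μ :=
  mkB {ω | φ.Realize fun i => F (x i) ω} (meas_f φ _ fun i => mF (x i))

theorem S_evv {n : ℕ} (φ : LU.Formula (Fin n)) (x : Fin n → KK μ) :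
    ∀ᵐ ω ∂μ, (ω ∈ S (evv φ x) ↔ φ.Realize fun i => F (x i) ω) := S_mk _ _

theorem S_eq (x y : KK μ) :
    ∀ᵐ ω ∂μ, (ω ∈ S (evv (eqF LU) ![x, y]) ↔ F x ω = F y ω) := by
  filter_upwards [S_evv (eqF LU) (![x, y])] with ω h
  simpa [eqF] using h

variable (μ) in
/-- The randomization over `μ`. -/
noncomputable def NN : RStr LU where
  K := KK μ
  B := BB μ
  mu U := μ.real (S U)
  ev := evv

theorem eq_top {U : BB μ} (h : ∀ᵐ ω ∂μ, ω ∈ S U) : U = ⊤ :=
  B_ext (by filter_upwards [h, S_top (μ := μ)] with ω x y using iff_of_true x y)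

theorem lip_evv {n : ℕ} (φ : LU.Formula (Fin n)) (x y : Fin n → KK μ) :
    dist (evv φ x) (evv φ y) ≤ ∑ i, dist (x i) (y i) := by
  simp only [distB, distK]
  refine le_trans (ENNReal.toReal_mono (measure_ne_top _ _) (measure_mono_ae ?_)) (measureReal_iUnion_fintype_le _)
  filter_upwards [S_evv φ x, S_evv φ y] with ω h1 h2 h
  by_contra hc
  have hc' : ∀ i, F (x i) ω = F (y i) ω := fun i => by
    by_contra e; exact hc (Set.mem_iUnion.2 ⟨i, e⟩)
  have h' : ω ∈ S (evv φ x) ∆ S (evv φ y) := h
  rw [Set.mem_symmDiff, h1, h2, funext hc'] at h'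
  tauto

theorem isModel_NN
    (hat : ∀ U : Set Ω, MeasurableSet U → ∃ V, MeasurableSet V ∧ μ.real (U ∩ V) = μ.real U / 2) :
    IsModel (LU.completeTheory MM) (NN μ) where
  valid φ x h := eq_top (by
    filter_upwards [S_evv φ x] with ω e
    exact e.2 (Theory.ModelsBoundedFormula.realize_formula h MM))
  not_ φ x := B_ext (by
    filter_upwards [S_evv φ.not x, S_evv φ x, S_compl (evv φ x)] with ω a b c
    rw [Formula.realize_not] at a
    exact a.trans ((not_congr b.symm).trans c.symm))
  or_ φ ψ x := B_ext (by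
    filter_upwards [S_evv (φ ⊔ ψ) x, S_evv φ x, S_evv ψ x, S_sup (evv φ x) (evv ψ x)]
      with ω a b c d
    rw [Formula.realize_sup] at a
    exact a.trans ((or_congr b.symm c.symm).trans d.symm))
  and_ φ ψ x := B_ext (by
    filter_upwards [S_evv (φ ⊓ ψ) x, S_evv φ x, S_evv ψ x, S_inf (evv φ x) (evv ψ x)]
      with ω a b c d
    rw [Formula.realize_inf] at a
    exact a.trans ((and_congr b.symm c.symm).trans d.symm))
  rename φ g x := B_ext (by
    filter_upwards [S_evv (φ.relabel g) x, S_evv φ (x ∘ g)] with ω a b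
    rw [Formula.realize_relabel] at a
    exact a.trans b.symm)
  lip φ x y := lip_evv φ x y
  distK x y := by
    change dist (α := KK μ) x y = 1 - μ.real (S (evv (eqF LU) ![x, y]))
    rw [distK, ← probReal_compl_eq_one_sub (mS _)]
    refine real_congr ?_
    filter_upwards [S_eq x y] with ω a
    exact not_congr a.symm
  distB U V := by
    change dist (α := BB μ) U V = μ.real (S (symmDiff (α := BB μ) U V))
    rw [distB]
    refine real_congr ?_
    filter_upwards [S_symm (μ := μ) U V] with ω a using a.symm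
  full φ y ε hε := by
    obtain ⟨x, hx, h⟩ := skolem φ (fun i => F (μ := μ) (y i)) (fun i => mF (y i))
    refine ⟨mkK x hx, ?_⟩
    have : evv φ (Fin.snoc (α := fun _ => KK μ) y (mkK x hx)) = evv (exL φ) y := B_ext (by
      filter_upwards [S_evv φ (Fin.snoc (α := fun _ => KK μ) y (mkK x hx)), S_evv (exL φ) y,
        F_mk (μ := μ) x hx] with ω a b c
      rw [a, b, ← h ω, ← c]
      refine iff_of_eq (congrArg _ ?_)
      funext i
      refine Fin.lastCases ?_ (fun i => ?_) i <;> simp)
    exact (dist_eq_zero.2 this).trans_lt hε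
  event U ε hε := by
    classical
    have hm : Measurable fun ω => (if ω ∈ S (μ := μ) U then (fun _ => true : MM)
        else fun _ => false) := Measurable.ite (mS U) measurable_const measurable_const
    refine ⟨mkK (fun _ => (fun _ => true : MM)) measurable_const, mkK _ hm, ?_⟩
    refine (dist_eq_zero.2 (B_ext ?_)).trans_lt hε
    filter_upwards [S_eq (μ := μ) (mkK (fun _ => (fun _ => true : MM)) measurable_const) (mkK _ hm),
      F_mk (μ := μ) (fun _ => (fun _ => true : MM)) measurable_const, F_mk (μ := μ) _ hm]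
      with ω a b c
    refine Iff.trans ?_ a.symm
    rw [b, c]
    split_ifs with h
    · exact iff_of_true h rfl
    · exact iff_of_false h fun h => by cases congrFun h 0
  mu_mem U := ⟨measureReal_nonneg, measureReal_le_one⟩
  mu_top := by
    change μ.real (S (⊤ : BB μ)) = 1
    rw [← probReal_univ (μ := μ)]
    refine real_congr ?_
    filter_upwards [S_top (μ := μ)] with ω a using iff_of_true a trivial
  mu_bot := by
    change μ.real (S (⊥ : BB μ)) = 0
    rw [← measureReal_empty (μ := μ)]
    refine real_congr ?_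
    filter_upwards [S_bot (μ := μ)] with ω a using iff_of_false a id
  mu_add U V := by
    change μ.real (S U) + μ.real (S V) = μ.real (S (max (α := BB μ) U V)) +
      μ.real (S (min (α := BB μ) U V))
    rw [← measureReal_union_add_inter (mS V), real_congr (t := S U ∪ S V) (S_sup U V),
      real_congr (t := S U ∩ S V) (S_inf U V)]
  atomless U ε hε := by
    obtain ⟨V, hV, h⟩ := hat (S (μ := μ) U) (mS U)
    refine ⟨mkB V hV, ?_⟩
    change |μ.real (S (min (α := BB μ) U (mkB V hV))) - μ.real (S U) / 2| < ε
    rw [real_congr (t := S U ∩ V), h, sub_self, abs_zero]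
    · exact hε
    · filter_upwards [S_inf U (mkB V hV), S_mk (μ := μ) V hV] with ω a b
      rw [a, b]; rfl
  transfer φ hφ x := eq_top (by
    filter_upwards [S_evv (Formula.relabel Empty.elim φ) x] with ω e
    refine e.2 ?_
    rw [Formula.realize_relabel]
    have := mem_completeTheory.1 hφ
    unfold Sentence.Realize at this
    exact (iff_of_eq (congrArg _ (Subsingleton.elim _ _))).1 this)

end Pool.Agent.H25.Rand
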