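import Pool.Agent.H25.Rand5

/-! The randomization of the theory of Cantor space with coordinate predicates is not
`κ`-stable when `κ < κ ^ ℵ₀`. -/

namespace Pool.Agent.H25.Rand

open FirstOrder FirstOrder.Language Cardinal MeasureTheory Filter Topology
open scoped symmDiff

/-- Lebesgue measure on the unit interval. -/
noncomputable def nu : Measure ℝ := volume.restrict (Set.Ioc 0 1)

instance : IsProbabilityMeasure nu := ⟨by simp [nu]⟩

/-- The product measure. -/
noncomputable def pm (Λ : Type) : Measure (Λ → ℝ) := Measure.infinitePi fun _ => nu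

instance (Λ : Type) : IsProbabilityMeasure (pm Λ) := by unfold pm; infer_instance

theorem pm_eval {Λ : Type} (a : Λ) (s : Set ℝ) (hs : MeasurableSet s) :
    pm Λ {ω | ω a ∈ s} = nu s :=
  (measurePreserving_eval_infinitePi (fun _ : Λ => nu) a).measure_preimage hs.nullMeasurableSet

theorem atomless_pm {Λ : Type} (a : Λ) (U : Set (Λ → ℝ)) (_ : MeasurableSet U) :
    ∃ V, MeasurableSet V ∧ (pm Λ).real (U ∩ V) = (pm Λ).real U / 2 := by
  let g : ℝ → ℝ := fun t => (pm Λ).real (U ∩ {ω | ω a ∈ Set.Ioc 0 t})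
  have hg : LipschitzWith 1 g := LipschitzWith.of_le_add fun x y => by
    have h1 : U ∩ {ω | ω a ∈ Set.Ioc 0 x} ⊆
        (U ∩ {ω | ω a ∈ Set.Ioc 0 y}) ∪ {ω | ω a ∈ Set.Ioc y x} := by
      rintro ω ⟨h1, h2, h3⟩
      rcases le_or_gt (ω a) y with h | h
      · exact Or.inl ⟨h1, h2, h⟩
      · exact Or.inr ⟨h, h3⟩
    refine ((measureReal_mono h1).trans (measureReal_union_le _ _)).trans (add_le_add le_rfl ?_)
    refine ENNReal.toReal_le_of_le_ofReal dist_nonneg ?_
    rw [pm_eval a _ measurableSet_Ioc]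
    refine (Measure.restrict_apply_le _ _).trans ?_
    rw [Real.volume_Ioc, Real.dist_eq]
    exact ENNReal.ofReal_le_ofReal (le_abs_self _)
  have g0 : g 0 = 0 := by
    simp only [g, Set.Ioc_self, Set.mem_empty_iff_false]
    simp
  have g1 : g 1 = (pm Λ).real U := by
    refine real_congr ?_
    have : ∀ᵐ ω ∂(pm Λ), ω a ∈ Set.Ioc (0 : ℝ) 1 := by
      rw [ae_iff]
      refine (pm_eval a (Set.Ioc 0 1)ᶜ measurableSet_Ioc.compl).trans ?_
      rw [nu, Measure.restrict_apply measurableSet_Ioc.compl, Set.compl_inter_self, measure_empty]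
    filter_upwards [this] with ω h using ⟨fun x => x.1, fun x => ⟨x, h⟩⟩
  have hn : 0 ≤ (pm Λ).real U := measureReal_nonneg
  obtain ⟨t, -, ht⟩ := intermediate_value_Icc (zero_le_one' ℝ) hg.continuous.continuousOn
    (show (pm Λ).real U / 2 ∈ Set.Icc (g 0) (g 1) by rw [g0, g1]; constructor <;> linarith)
  exact ⟨_, (measurable_pi_apply a) measurableSet_Ioc, ht⟩

/-- The `a`-th independent event. -/
def EE {Λ : Type} (a : Λ) : Set (Λ → ℝ) := {ω | ω a ∈ Set.Iic (1 / 2 : ℝ)}

theorem mEE {Λ : Type} (a : Λ) : MeasurableSet (EE a) := (measurable_pi_apply a) measurableSet_Iic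

theorem EE_far {Λ : Type} {a b : Λ} (h : a ≠ b) : 1 / 4 ≤ (pm Λ).real (EE a ∆ EE b) := by
  classical
  let t : Λ → Set ℝ := fun i => if i = a then Set.Iic (1 / 2) else Set.Ioi (1 / 2)
  have h1 : Set.pi (({a, b} : Finset Λ) : Set Λ) t ⊆ EE a ∆ EE b := by
    intro ω hω
    have ha := hω a (by simp)
    have hb := hω b (by simp)
    simp only [t, if_true, h.symm, if_false] at ha hb
    exact Or.inl ⟨ha, fun c => absurd (Set.mem_Ioi.1 hb) (not_lt.2 c)⟩
  refine le_trans ?_ (measureReal_mono h1)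
  rw [Measure.real, pm, Measure.infinitePi_pi _ (fun i _ => by
    simp only [t]; split_ifs; exacts [measurableSet_Iic, measurableSet_Ioi]),
    Finset.prod_pair h]
  simp only [t, if_true, h.symm, if_false, nu]
  rw [Measure.restrict_apply measurableSet_Iic, Measure.restrict_apply measurableSet_Ioi,
    Set.inter_comm, Set.Ioc_inter_Iic, Set.inter_comm, Set.Ioc_inter_Ioi, Real.volume_Ioc,
    Real.volume_Ioc, ENNReal.toReal_mul, ENNReal.toReal_ofReal (by norm_num),
    ENNReal.toReal_ofReal (by norm_num)]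
  norm_num

/-- The formula `P_k x₀`. -/
def gP (k : ℕ) : LU.Formula (Fin 1) := Relations.formula₁ (P k) (Term.var 0)

theorem not_rstable (κ : Cardinal.{0}) (h0 : ℵ₀ ≤ κ) (hκ : κ < κ ^ ℵ₀) :
    ¬ RStable (LU.completeTheory MM) κ := by
  classical
  intro H
  obtain ⟨Λ, rfl⟩ := Quotient.exists_rep κ
  change ℵ₀ ≤ #Λ at h0
  change #Λ < #Λ ^ ℵ₀ at hκ
  change RStable _ #Λ at H
  have : Nonempty Λ := (infinite_iff.2 h0).nonempty
  have hM := isModel_NN (μ := pm Λ) (atomless_pm (Classical.arbitrary Λ))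
  let E : Λ → BB (pm Λ) := fun a => mkB (EE a) (mEE a)
  obtain ⟨D, -, hD, hd⟩ := H (NN (pm Λ)) hM ∅ (Set.range E)
    ⟨∅, le_rfl, by simp, Set.empty_subset _⟩ ⟨_, le_rfl, mk_range_le, subset_closure⟩ 1
  let X0 : Ext (LU.completeTheory MM) (NN (pm Λ)) := ⟨_, hM, id, id, fun _ _ _ => rfl⟩
  have hm : ∀ s : ℕ → Λ, Measurable fun ω : Λ → ℝ => (fun k => decide (ω ∈ EE (s k)) : MM) :=
    fun s => measurable_pi_lambda _ fun k => measurable_to_bool (by
      convert mEE (s k) using 1
      ext ω; simp)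
  let a : (ℕ → Λ) → KK (pm Λ) := fun s => mkK _ (hm s)
  have ha : ∀ s k, evv (gP k) (fun _ => a s) = E (s k) := fun s k => B_ext (by
    filter_upwards [S_evv (gP k) (fun _ => a s), F_mk (μ := pm Λ) _ (hm s),
      S_mk (μ := pm Λ) _ (mEE (s k))] with ω x y z
    refine x.trans (Iff.trans ?_ z.symm)
    simp only [gP, Formula.realize_rel₁, Term.realize_var, relP, Matrix.cons_val_zero]
    rw [show F (a s) ω = _ from y]
    simp)
  choose q hq hc using fun s => hd (tp ∅ (Set.range E) X0 (fun _ => a s)) ⟨X0, _, rfl⟩ (1 / 8)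
    (by norm_num)
  let e : Λ → Set.range E := fun c => ⟨E c, c, rfl⟩
  let ψ : ℕ → Λ → CF LU ((∅ : Set (KK (pm Λ))) ⊕ Fin 1) (Set.range E) :=
    fun k c => .dB (.ev (gP k) Sum.inr) (.var (e c))
  have key : ∀ s k, q s (ψ k (s k)) < 1 / 8 := by
    intro s k
    obtain ⟨X, u, w, h1, h2, h3⟩ := hc s
    have e1 : dist (X.N'.ev (gP k) u) (X.jB (E (s k))) = 0 :=
      (congrFun h1 (ψ k (s k))).trans (dist_eq_zero.2 (ha s k))
    rw [← h2]
    change dist (X.N'.ev (gP k) w) (X.jB (E (s k))) < 1 / 8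
    have e2 := X.model.lip (gP k) w u
    rw [Fin.sum_univ_one, dist_comm (w 0)] at e2
    rw [← dist_eq_zero.1 e1]
    exact (e2.trans (dist_le_pi_dist u w 0)).trans_lt h3
  have inj : Function.Injective fun s => (⟨q s, hq s⟩ : D) := by
    intro s t hst
    have hst' : q s = q t := congrArg Subtype.val hst
    funext k
    by_contra hne
    have k1 := key s k
    have k2 := key t k
    rw [← hst'] at k2
    obtain ⟨X, u, w, -, h2, -⟩ := hc s
    rw [← h2] at k1 k2
    change dist (X.N'.ev (gP k) w) (X.jB (E (s k))) < 1 / 8 at k1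
    change dist (X.N'.ev (gP k) w) (X.jB (E (t k))) < 1 / 8 at k2
    have e1 : dist (X.jB (E (s k))) (X.jB (E (t k))) = dist (E (s k)) (E (t k)) :=
      X.elem (α := Empty) (.dB (.var (s k)) (.var (t k))) Empty.elim E
    have e2 : dist (E (s k)) (E (t k)) = (pm Λ).real (EE (s k) ∆ EE (t k)) := by
      rw [distB]
      refine real_congr ?_
      filter_upwards [S_mk (μ := pm Λ) _ (mEE (s k)), S_mk (μ := pm Λ) _ (mEE (t k))] with ω x y
      simp only [Set.mem_symmDiff, E, x, y]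
    have e3 := dist_triangle_left (X.jB (E (s k))) (X.jB (E (t k))) (X.N'.ev (gP k) w)
    have e4 := EE_far hne
    linarith
  have h1 := mk_le_of_injective (f := fun s : ULift.{1} (ℕ → Λ) => (⟨q s.down, hq s.down⟩ : D))
    (inj.comp ULift.down_injective)
  rw [mk_uLift] at h1
  have h2 := lift_le.1 (h1.trans hD)
  rw [← power_def, mk_nat] at h2
  exact absurd hκ (not_lt.2 h2)

theorem exists_kappa : ∃ κ : Cardinal.{0}, 𝔠 ≤ κ ∧ κ < κ ^ ℵ₀ := by
  let f : ℕ → Cardinal.{0} := fun n => Nat.rec 𝔠 (fun _ c => 2 ^ c) n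
  refine ⟨Cardinal.sum f, le_sum f 0, ?_⟩
  have := sum_lt_prod f (fun _ => Cardinal.sum f)
    fun n => (cantor (f n)).trans_le (le_sum f (n + 1))
  simpa using this

end Pool.Agent.H25.Rand
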