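import Mathlib

/-! Definitions: first-order stability, the randomization theory `T^R` (Ben Yaacov-Keisler
presentation), continuous formulas, types and stability for `T^R`. -/

namespace Pool.Agent.H25.Rand

open FirstOrder FirstOrder.Language Cardinal

/-- `T` is `κ`-stable: at most `κ` complete `n`-types over every set of size at most `κ`. -/
def Stable {L : FirstOrder.Language.{0, 0}} (T : L.Theory) (κ : Cardinal.{0}) : Prop :=
  ∀ (N : Type) [L.Structure N] [Nonempty N] [N ⊨ T] (A : Set N), #A ≤ κ → ∀ n : ℕ,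
    #((L[[A]].completeTheory N).CompleteType (Fin n)) ≤ κ

/-- Two-sorted complete metric structures in the randomization signature of `L`. -/
structure RStr (L : FirstOrder.Language.{0, 0}) where
  K : Type
  B : Type
  [mK : MetricSpace K]
  [mB : MetricSpace B]
  [cK : CompleteSpace K]
  [cB : CompleteSpace B]
  [ba : BooleanAlgebra B]
  mu : B → ℝ
  ev : ∀ {n : ℕ}, L.Formula (Fin n) → (Fin n → K) → B

attribute [instance] RStr.mK RStr.mB RStr.cK RStr.cB RStr.ba

variable {L : FirstOrder.Language.{0, 0}}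

/-- The formula `x₀ = x₁`. -/
def eqF (L : FirstOrder.Language.{0, 0}) : L.Formula (Fin 2) := (Term.var 0).equal (Term.var 1)

/-- Existential quantification of the last variable. -/
noncomputable def exL {n : ℕ} (φ : L.Formula (Fin (n + 1))) : L.Formula (Fin n) :=
  Formula.iExs Unit (φ.relabel (fun i => Fin.lastCases (Sum.inr ()) Sum.inl i))

/-- `N` is a model of the randomization theory `T^R`. -/
structure IsModel (T : L.Theory) (N : RStr L) : Prop where
  valid : ∀ {n} (φ : L.Formula (Fin n)) x, (∅ : L.Theory) ⊨ᵇ φ → N.ev φ x = ⊤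
  not_ : ∀ {n} (φ : L.Formula (Fin n)) x, N.ev φ.not x = (N.ev φ x)ᶜ
  or_ : ∀ {n} (φ ψ : L.Formula (Fin n)) x, N.ev (φ ⊔ ψ) x = N.ev φ x ⊔ N.ev ψ x
  and_ : ∀ {n} (φ ψ : L.Formula (Fin n)) x, N.ev (φ ⊓ ψ) x = N.ev φ x ⊓ N.ev ψ x
  rename : ∀ {m n} (φ : L.Formula (Fin m)) (g : Fin m → Fin n) x,
    N.ev (φ.relabel g) x = N.ev φ (x ∘ g)
  lip : ∀ {n} (φ : L.Formula (Fin n)) x y, dist (N.ev φ x) (N.ev φ y) ≤ ∑ i, dist (x i) (y i)
  distK : ∀ x y : N.K, dist x y = 1 - N.mu (N.ev (eqF L) ![x, y])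
  distB : ∀ U V : N.B, dist U V = N.mu (symmDiff U V)
  full : ∀ {n} (φ : L.Formula (Fin (n + 1))) (y : Fin n → N.K), ∀ ε > 0,
    ∃ x : N.K, dist (N.ev φ (Fin.snoc y x)) (N.ev (exL φ) y) < ε
  event : ∀ U : N.B, ∀ ε > 0, ∃ x y : N.K, dist U (N.ev (eqF L) ![x, y]) < ε
  mu_mem : ∀ U, 0 ≤ N.mu U ∧ N.mu U ≤ 1
  mu_top : N.mu ⊤ = 1
  mu_bot : N.mu ⊥ = 0
  mu_add : ∀ U V, N.mu U + N.mu V = N.mu (U ⊔ V) + N.mu (U ⊓ V)
  atomless : ∀ U, ∀ ε > 0, ∃ V, |N.mu (U ⊓ V) - N.mu U / 2| < ε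
  transfer : ∀ φ ∈ T, ∀ x : Fin 0 → N.K, N.ev (Formula.relabel Empty.elim φ) x = ⊤

/-- Terms of sort `B`, with variables `α` of sort `K` and `β` of sort `B`. -/
inductive BT (L : FirstOrder.Language.{0, 0}) (α β : Type) : Type
  | var (b : β) : BT L α β
  | top : BT L α β
  | bot : BT L α β
  | inf (s t : BT L α β) : BT L α β
  | sup (s t : BT L α β) : BT L α β
  | compl (s : BT L α β) : BT L α β
  | ev {n : ℕ} (φ : L.Formula (Fin n)) (x : Fin n → α) : BT L α β

/-- Continuous formulas: atomic ones, the full system of connectives `1, x/2, x ∸ y`, and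
`sup`, `inf` over either sort. -/
inductive CF (L : FirstOrder.Language.{0, 0}) : Type → Type → Type 1
  | mu {α β : Type} (t : BT L α β) : CF L α β
  | dK {α β : Type} (x y : α) : CF L α β
  | dB {α β : Type} (s t : BT L α β) : CF L α β
  | one {α β : Type} : CF L α β
  | half {α β : Type} (φ : CF L α β) : CF L α β
  | tsub {α β : Type} (φ ψ : CF L α β) : CF L α β
  | supK {α β : Type} (φ : CF L (Option α) β) : CF L α β
  | infK {α β : Type} (φ : CF L (Option α) β) : CF L α β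
  | supB {α β : Type} (φ : CF L α (Option β)) : CF L α β
  | infB {α β : Type} (φ : CF L α (Option β)) : CF L α β

/-- Value of a `B`-term. -/
def BT.val (N : RStr L) {α β : Type} (v : α → N.K) (w : β → N.B) : BT L α β → N.B
  | .var b => w b
  | .top => ⊤
  | .bot => ⊥
  | .inf s t => s.val N v w ⊓ t.val N v w
  | .sup s t => s.val N v w ⊔ t.val N v w
  | .compl s => (s.val N v w)ᶜ
  | .ev φ x => N.ev φ (v ∘ x)

/-- Value of a continuous formula. -/
noncomputable def CF.val (N : RStr L) :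
    ∀ {α β : Type}, CF L α β → (α → N.K) → (β → N.B) → ℝ
  | _, _, .mu t, v, w => N.mu (t.val N v w)
  | _, _, .dK x y, v, _ => dist (v x) (v y)
  | _, _, .dB s t, v, w => dist (s.val N v w) (t.val N v w)
  | _, _, .one, _, _ => 1
  | _, _, .half φ, v, w => φ.val N v w / 2
  | _, _, .tsub φ ψ, v, w => max (φ.val N v w - ψ.val N v w) 0
  | _, _, .supK φ, v, w => ⨆ x : N.K, φ.val N (fun o => o.elim x v) w
  | _, _, .infK φ, v, w => ⨅ x : N.K, φ.val N (fun o => o.elim x v) w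
  | _, _, .supB φ, v, w => ⨆ U : N.B, φ.val N v (fun o => o.elim U w)
  | _, _, .infB φ, v, w => ⨅ U : N.B, φ.val N v (fun o => o.elim U w)

/-- An elementary extension of `N` (a model of `T^R` with an elementary embedding of `N`). -/
structure Ext (T : L.Theory) (N : RStr L) where
  N' : RStr L
  model : IsModel T N'
  jK : N.K → N'.K
  jB : N.B → N'.B
  elem : ∀ {α β : Type} (φ : CF L α β) v w, φ.val N' (jK ∘ v) (jB ∘ w) = φ.val N v w

/-- The type over `(AK, AB)` of a tuple `a` of an elementary extension. -/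
noncomputable def tp {T : L.Theory} {N : RStr L} (AK : Set N.K) (AB : Set N.B) {n : ℕ}
    (X : Ext T N) (a : Fin n → X.N'.K) : CF L (AK ⊕ Fin n) AB → ℝ :=
  fun φ => φ.val X.N' (Sum.elim (fun c => X.jK c.1) a) (fun c => X.jB c.1)

/-- The type space `S_n(A)`. -/
def Sn (T : L.Theory) {N : RStr L} (AK : Set N.K) (AB : Set N.B) (n : ℕ) :
    Set (CF L (AK ⊕ Fin n) AB → ℝ) :=
  {p | ∃ (X : Ext T N) (a : Fin n → X.N'.K), tp AK AB X a = p}

/-- `d(p, q) < ε` for the metric `d(p, q) = inf {d(a, b) : a ⊨ p, b ⊨ q}`. -/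
def Close (T : L.Theory) {N : RStr L} (AK : Set N.K) (AB : Set N.B) {n : ℕ}
    (p q : CF L (AK ⊕ Fin n) AB → ℝ) (ε : ℝ) : Prop :=
  ∃ (X : Ext T N) (a b : Fin n → X.N'.K), tp AK AB X a = p ∧ tp AK AB X b = q ∧ dist a b < ε

/-- `A` has density character at most `κ`. -/
def DensLE {X : Type} [MetricSpace X] (A : Set X) (κ : Cardinal.{0}) : Prop :=
  ∃ A₀ ⊆ A, #A₀ ≤ κ ∧ A ⊆ closure A₀

/-- `T^R` is `κ`-stable. -/
def RStable (T : L.Theory) (κ : Cardinal.{0}) : Prop :=
  ∀ N : RStr L, IsModel T N → ∀ (AK : Set N.K) (AB : Set N.B), DensLE AK κ → DensLE AB κ →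
    ∀ n : ℕ, ∃ D ⊆ Sn T AK AB n, #D ≤ lift.{1} κ ∧
      ∀ p ∈ Sn T AK AB n, ∀ ε > 0, ∃ q ∈ D, Close T AK AB p q ε

end Pool.Agent.H25.Rand
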