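import Mathlib

/-! Order trees, ray spaces and end spaces of graphs. -/

set_option autoImplicit false
open Set

namespace Pool.Agent.H25.Ray

/-- Order tree: a least element, and every `⌈t⌉` is well-ordered. -/
def IsTree (T : Type) [PartialOrder T] : Prop :=
  (∃ r : T, ∀ t, r ≤ t) ∧ ∀ t : T, IsChain (· ≤ ·) (Iic t) ∧ (Iic t).IsWF

/-- A union of countably many antichains. -/
def Special (T : Type) [PartialOrder T] : Prop :=
  ∃ A : ℕ → Set T, (∀ n, IsAntichain (· ≤ ·) (A n)) ∧ ⋃ n, A n = univ

/-- Aronszajn tree: an uncountable order tree whose levels (nodes whose sets of predecessors have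
the same order type) and chains are countable. -/
def Aronszajn (T : Type) [PartialOrder T] : Prop :=
  IsTree T ∧ Uncountable T ∧ (∀ t : T, {s : T | Nonempty (Iio s ≃o Iio t)}.Countable) ∧
    ∀ C : Set T, IsChain (· ≤ ·) C → C.Countable

/-- The ray space: downward closed chains without maximal element, as a subspace of `2 ^ T`.
The empty chain is excluded if `ne` holds and allowed otherwise. -/
abbrev RS (ne : Prop) (T : Type) [PartialOrder T] : Type :=
  {x : T → Bool // (ne → ∃ t, x t = true) ∧ IsLowerSet {t | x t = true} ∧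
    IsChain (· ≤ ·) {t | x t = true} ∧ ∀ t, x t = true → ∃ s, x s = true ∧ t < s}

/-- One-way infinite paths of a graph. -/
def GRay {V : Type} (G : SimpleGraph V) : Type :=
  {r : ℕ → V // Function.Injective r ∧ ∀ n, G.Adj (r n) (r (n + 1))}

/-- `u` and `v` are joined by a walk avoiding `F`. -/
def Con {V : Type} (G : SimpleGraph V) (F : Finset V) (u v : V) : Prop :=
  ∃ p : G.Walk u v, ∀ w ∈ p.support, w ∉ F

/-- Tails of `r` and `r'` lie in the same component of `G - F`. -/
def NS {V : Type} {G : SimpleGraph V} (F : Finset V) (r r' : GRay G) : Prop :=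
  ∃ N, ∀ m ≥ N, ∀ n ≥ N, Con G F (r.1 m) (r'.1 n)

/-- Ends: classes of rays that no finite vertex set separates. -/
def End {V : Type} (G : SimpleGraph V) : Type :=
  Quot fun r r' : GRay G => ∀ F, NS F r r'

/-- The end topology, generated by the sets `Ω(ε, F)`. -/
instance {V : Type} (G : SimpleGraph V) : TopologicalSpace (End G) :=
  TopologicalSpace.generateFrom
    {S | ∃ (F : Finset V) (r : GRay G), S = {η | ∃ r', Quot.mk _ r' = η ∧ NS F r r'}}

end Pool.Agent.H25.Ray
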