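import Mathlib
import Pool.Agent.H25.FreeSet

set_option autoImplicit false
open Set Filter Topology

namespace Pool.Agent.H25.ZDim

variable {ι Y : Type} [TopologicalSpace Y] [SecondCountableTopology Y] {H : Set (ι → Y)}

theorem dep (hH : Dense H) {W : Set H} (hW : IsOpen W) : ∃ J : Set ι, J.Countable ∧
    ∀ h ∉ closure W, ∃ (F : Finset ι) (u : ι → Set Y), ↑F ⊆ J ∧
      (∀ i ∈ F, IsOpen (u i) ∧ h.1 i ∈ u i) ∧ ∀ w ∈ W, ∃ i ∈ F, w.1 i ∉ u i := by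
  classical
  have hb : ∀ {O : Set H}, IsOpen O → ∀ h ∈ O, ∃ (F : Finset ι) (u : ι → Set Y),
      (∀ i ∈ F, IsOpen (u i) ∧ h.1 i ∈ u i) ∧ ∀ w : H, (∀ i ∈ F, w.1 i ∈ u i) → w ∈ O := by
    rintro _ ⟨O, hO, rfl⟩ h hh
    obtain ⟨F, u, a, b⟩ := isOpen_pi_iff.1 hO h.1 hh
    exact ⟨F, u, a, fun w hw => b hw⟩
  let b := TopologicalSpace.countableBasis Y
  have : Countable b := (TopologicalSpace.countable_countableBasis Y).to_subtype
  have h1 : ∀ (F : Finset ι) (v : F → b), ∃ G : Finset ι, (∃ w ∈ W, ∀ i : F, w.1 i ∈ (v i).1) →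
      ∃ (d : H) (u : ι → Set Y), (∀ i : F, d.1 i ∈ (v i).1) ∧
        (∀ i ∈ G, IsOpen (u i) ∧ d.1 i ∈ u i) ∧ ∀ w : H, (∀ i ∈ G, w.1 i ∈ u i) → w ∈ W := by
    intro F v
    by_cases h : ∃ w ∈ W, ∀ i : F, w.1 i ∈ (v i).1
    · obtain ⟨d, d1, d2⟩ := h
      obtain ⟨G, u, hG⟩ := hb hW d d1
      exact ⟨G, fun _ => ⟨d, u, d2, hG⟩⟩
    · exact ⟨∅, fun h' => absurd h' h⟩
  choose G hG using h1
  obtain ⟨J, J1, J2⟩ := FreeSet.closing (fun F => ⋃ v, (G F v : Set ι))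
    fun F => countable_iUnion fun v => Finset.countable_toSet _
  refine ⟨J, J1, fun h hh => ?_⟩
  obtain ⟨F, u, u1, u2⟩ := hb isClosed_closure.isOpen_compl h hh
  choose! v v1 v2 v3 using fun i (hi : i ∈ F) =>
    (TopologicalSpace.isBasis_countableBasis Y).exists_subset_of_mem_open (u1 i hi).2 (u1 i hi).1
  have v4 := fun i hi => (TopologicalSpace.isBasis_countableBasis Y).isOpen (v1 i hi)
  have hF : ↑(F.filter (· ∈ J)) ⊆ J := fun i hi => (Finset.mem_filter.1 hi).2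
  refine ⟨F.filter (· ∈ J), v, hF, fun i hi => ⟨v4 i (Finset.mem_filter.1 hi).1,
    v2 i (Finset.mem_filter.1 hi).1⟩, fun w hw => by_contra fun hn => ?_⟩
  push Not at hn
  obtain ⟨d, u', d1, d2, d3⟩ := hG _ (fun i => ⟨v i, v1 i (Finset.mem_filter.1 i.2).1⟩)
    ⟨w, hw, fun i => hn i i.2⟩
  obtain ⟨z, z1, z2, z3⟩ := hH.exists_mem_open ((isOpen_set_pi F.finite_toSet v4).inter
    (isOpen_set_pi (Finset.finite_toSet _) fun i hi => (d2 i hi).1))
    ⟨fun i => if i ∈ J then d.1 i else h.1 i, fun i hi => by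
      by_cases e : i ∈ J
      · simpa only [if_pos e] using d1 ⟨i, Finset.mem_filter.2 ⟨hi, e⟩⟩
      · simpa only [if_neg e] using v2 i hi, fun i hi => by
      simpa only [if_pos (J2 _ hF (mem_iUnion.2 ⟨_, hi⟩))] using (d2 i hi).2⟩
  exact u2 ⟨z, z1⟩ (fun i hi => v3 i hi (z2 i hi)) (subset_closure (d3 ⟨z, z1⟩ z3))

theorem zd (hH : Dense H) [Nonempty H] (hc : ∀ i, ∀ h : H, ∀ O, IsOpen O → h.1 i ∈ O →
    ∃ V, IsOpen V ∧ h.1 i ∈ V ∧ V ⊆ O ∧ ∀ w : H, w.1 i ∈ closure V → w.1 i ∈ V)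
    (f : H → ℝ) (hf : Continuous f) :
    ∃ U : Set H, IsClopen U ∧ f ⁻¹' {0} ⊆ U ∧ Disjoint U (f ⁻¹' {1}) := by
  classical
  obtain ⟨J0, a0, b0⟩ := dep hH (isOpen_lt hf (continuous_const (y := 1 / 3)))
  obtain ⟨J1, a1, b1⟩ := dep hH (isOpen_lt (continuous_const (y := 2 / 3)) hf)
  have := (a0.union a1).to_subtype
  let r : H → ↑(J0 ∪ J1) → Y := fun h i => h.1 i
  have h1 : ∀ h : H, ∃ O, IsOpen O ∧ r h ∈ O ∧ IsClopen (r ⁻¹' O) ∧
      ((∀ w ∈ r ⁻¹' O, f w ≠ 0) ∨ ∀ w ∈ r ⁻¹' O, f w ≠ 1) := fun h => by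
    have h2 : ∀ (F : Finset ι) (u : ι → Set Y), ↑F ⊆ J0 ∪ J1 →
        (∀ i ∈ F, IsOpen (u i) ∧ h.1 i ∈ u i) → ∃ O, IsOpen O ∧ r h ∈ O ∧ IsClopen (r ⁻¹' O) ∧
          ∀ w ∈ r ⁻¹' O, ∀ i ∈ F, w.1 i ∈ u i := fun F u hF hu => by
      choose! V V1 V2 V3 V4 using fun i (hi : i ∈ F) => hc i h _ (hu i hi).1 (hu i hi).2
      refine ⟨⋂ i : F, {z | z ⟨i, hF i.2⟩ ∈ V i}, isOpen_iInter_of_finite fun i =>
        (V1 i i.2).preimage (continuous_apply _), mem_iInter.2 fun i => V2 i i.2, ?_,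
        fun w hw i hi => V3 i hi (mem_iInter.1 hw ⟨i, hi⟩)⟩
      rw [preimage_iInter]
      have hi : ∀ i, Continuous fun w : H => w.1 i := fun i =>
        (continuous_apply i).comp continuous_subtype_val
      exact isClopen_iInter_of_finite fun i => ⟨isClosed_of_closure_subset fun w hw => V4 i i.2 w
        ((hi i).closure_preimage_subset _ hw), (V1 i i.2).preimage (hi i)⟩
    by_cases e : f h ≤ 1 / 3
    · obtain ⟨F, u, c1, c2, c3⟩ := b1 h fun e' => by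
        have := closure_lt_subset_le continuous_const hf e'
        simp only [mem_ofPred_eq] at this
        linarith
      obtain ⟨O, o1, o2, o3, o4⟩ := h2 F u (c1.trans subset_union_right) c2
      refine ⟨O, o1, o2, o3, .inr fun w hw e' => ?_⟩
      obtain ⟨i, i1, i2⟩ := c3 w (by rw [mem_ofPred_eq, e']; norm_num)
      exact i2 (o4 w hw i i1)
    · obtain ⟨F, u, c1, c2, c3⟩ := b0 h fun e' => e (closure_lt_subset_le hf continuous_const e')
      obtain ⟨O, o1, o2, o3, o4⟩ := h2 F u (c1.trans subset_union_left) c2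
      refine ⟨O, o1, o2, o3, .inl fun w hw e' => ?_⟩
      obtain ⟨i, i1, i2⟩ := c3 w (by rw [mem_ofPred_eq, e']; norm_num)
      exact i2 (o4 w hw i i1)
  choose O o1 o2 o3 o4 using h1
  obtain ⟨T, t1, t2⟩ := TopologicalSpace.isOpen_iUnion_countable O o1
  obtain ⟨s, hs⟩ := (t1.insert (Classical.arbitrary H)).exists_eq_range (insert_nonempty _ _)
  have h2 : ∀ h : H, ∃ n, h ∈ r ⁻¹' O (s n) := fun h => by
    obtain ⟨t, a, b⟩ := mem_iUnion₂.1 (t2 ▸ mem_iUnion.2 ⟨h, o2 h⟩ : r h ∈ ⋃ i ∈ T, O i)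
    obtain ⟨n, rfl⟩ : t ∈ range s := hs ▸ mem_insert_of_mem _ a
    exact ⟨n, b⟩
  have h3 : IsLocallyConstant fun h => Nat.find (h2 h) := IsLocallyConstant.iff_isOpen_fiber.2
    fun n => by
      have : (fun h => Nat.find (h2 h)) ⁻¹' {n} =
          r ⁻¹' O (s n) ∩ ⋂ j ∈ Iio n, (r ⁻¹' O (s j))ᶜ := by
        ext h
        simp [Nat.find_eq_iff]
      exact this ▸ (o3 _).isOpen.inter ((finite_Iio n).isOpen_biInter fun j _ => (o3 _).compl.isOpen)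
  refine ⟨(fun h => Nat.find (h2 h)) ⁻¹' {n | ∀ w ∈ r ⁻¹' O (s n), f w ≠ 1},
    ⟨isOpen_compl_iff.1 (h3 _ᶜ), h3 _⟩, fun h hh => (o4 _).resolve_left fun e =>
      e h (Nat.find_spec (h2 h)) hh, disjoint_left.2 fun h a b => a h (Nat.find_spec (h2 h)) b⟩

theorem circ (P : Subgroup Circle) (hP : P ≠ ⊤) {z : Circle} (hz : z ∈ P) {O : Set Circle}
    (h1 : IsOpen O) (h2 : z ∈ O) :
    ∃ V, IsOpen V ∧ z ∈ V ∧ V ⊆ O ∧ ∀ w ∈ P, w ∈ closure V → w ∈ V := by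
  obtain ⟨ε, hε, h3⟩ := Metric.isOpen_iff.1 h1 z h2
  obtain ⟨q, q1, q2⟩ := not_subset.1 fun h : Metric.ball (1 : Circle) ε ⊆ P => by
    have := P.isOpen_of_mem_nhds (mem_of_superset (Metric.ball_mem_nhds 1 hε) h)
    exact hP (Subgroup.coe_eq_univ.1 (IsClopen.eq_univ ⟨P.isClosed_of_isOpen this, this⟩
      ⟨1, P.one_mem⟩))
  refine ⟨Metric.ball z (dist q 1), Metric.isOpen_ball, Metric.mem_ball_self (dist_pos.2
    fun e => q2 (e ▸ P.one_mem)), (Metric.ball_subset_ball (le_of_lt q1)).trans h3,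
    fun w hw h => Metric.mem_ball.2 (lt_of_le_of_ne (Metric.closure_ball_subset_closedBall h)
      fun e => q2 ?_)⟩
  have h4 : ‖((w / z : Circle) : ℂ) - 1‖ = ‖(q : ℂ) - 1‖ := by
    rw [Circle.coe_div, div_sub_one (Circle.coe_ne_zero z), norm_div, Circle.norm_coe, div_one,
      ← dist_eq_norm, ← dist_eq_norm]
    exact e
  have h5 := P.div_mem hw hz
  generalize w / z = a at h4 h5
  have a1 := Circle.normSq_coe a
  have a2 := Circle.normSq_coe q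
  have a3 := congrArg (· ^ 2) h4
  simp only [Complex.sq_norm, Complex.normSq_apply, Complex.sub_re, Complex.sub_im,
    Complex.one_re, Complex.one_im] at a1 a2 a3
  have a4 : (a : ℂ).re = (q : ℂ).re := by linarith
  rcases sq_eq_sq_iff_eq_or_eq_neg.1 (show (q : ℂ).im ^ 2 = (a : ℂ).im ^ 2 by
    rw [a4] at a1; linarith) with e | e
  · exact (Circle.ext (Complex.ext a4 e.symm) : a = q) ▸ h5
  · have : a⁻¹ = q := Circle.ext (by
      rw [Circle.coe_inv_eq_conj]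
      exact Complex.ext a4 e.symm)
    exact this ▸ P.inv_mem h5

end Pool.Agent.H25.ZDim
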