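import Mathlib
import Pool.Agent.H25.Dual
import Pool.Agent.H25.Lac
import Pool.Agent.H25.ZDim

set_option autoImplicit false
open Set Filter Topology
open Cardinal (continuum)

namespace Pool.Agent.H25.RefS
open Pool.Agent.H25.Lac Pool.Agent.H25.Dual

abbrev B := ((ℕ → ℝ) × (ℕ → ℝ) × (ℕ → ℝ)) × ℝ

theorem mkB : Cardinal.mk B = continuum := by simp [Cardinal.mk_real]

theorem ext {X : Type} (c : ℕ → X) (v : X → ℝ) {x : X} (h : x ∈ range c) :
    Function.extend c (v ∘ c) 0 x = v x := by
  obtain ⟨n, rfl⟩ := h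
  exact Function.FactorsThrough.extend_apply (fun _ _ e => congrArg v e) _ _

theorem ne {r : ℕ → ℝ} (h : Lc r) : (S r).Nonempty :=
  nonempty_coe_sort.1 (Cardinal.mk_ne_zero_iff.1 (Cardinal.continuum_pos.trans_le (lac h)).ne')

theorem data : ∃ m : ℝ → B → ℝ,
    (∀ C : Set B, C.Countable → ∀ v : B → ℝ, ∃ i, ∀ b ∈ C, m i b = v b) ∧
    (∀ y : ℝ →₀ ℤ, y ≠ 0 → ∃ C : Set B, C.Countable ∧ ∀ (g : B →₀ ℤ) (n : ℤ),
      L (fun i => L (m i) g) y = n → ↑g.support ⊆ C) ∧
    ∀ (C : Set ℝ) θ r, C.Countable → Ind C θ → Lc r →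
      ∃ b, ∃ s ∈ S r, ∀ i ∈ C, m i b = s * θ i := by
  classical
  obtain ⟨σ, hσ⟩ : ∃ σ : ℝ → (ℕ → B) × (ℕ → ℝ), Function.Surjective σ := by
    obtain ⟨f⟩ : Cardinal.mk ((ℕ → B) × (ℕ → ℝ)) ≤ Cardinal.mk ℝ := by simp [Cardinal.mk_real]
    exact ⟨_, Function.invFun_surjective f.injective⟩
  let η : B → ℝ → ℝ := fun b => Function.extend b.1.1 b.1.2.1 0
  let ok : B → Prop := fun b => Ind (range b.1.1) (η b) ∧ Lc b.1.2.2
  let q : ℝ × B → Prop := fun p => ok p.2 ∧ p.1 ∈ range p.2.1.1
  let k : ℝ × B → Option ℝ × B := fun p => (if q p then none else some p.1, p.2)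
  let Θ : ℝ × B → ℝ := fun p => if q p then η p.2 p.1 else 1
  let φ : ℝ → B → ℝ := fun i => Function.extend (σ i).1 (σ i).2 0
  obtain ⟨s, s1, s2⟩ := gen (by
      rw [Cardinal.mk_prod, mkB, Cardinal.mk_option, Cardinal.mk_real,
        Cardinal.add_one_eq Cardinal.aleph0_le_continuum]
      simp) k (fun j => (((countable_range
      j.2.1.1).union ((countable_singleton j.1).preimage (Option.some_injective ℝ))).image
      fun i => (i, j.2)).mono fun p hp => by
        obtain rfl : k p = j := hp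
        by_cases h : q p
        · exact ⟨p.1, .inl h.2, rfl⟩
        · exact ⟨p.1, .inr (if_neg h).symm, rfl⟩) Θ (fun j c c1 c2 => by
      have hi : Function.Injective fun i : ℝ => (i, j.2) := Prod.mk_left_injective _
      obtain ⟨y, rfl⟩ : ∃ y, Finsupp.mapDomain (fun i => (i, j.2)) y = c :=
        ⟨_, Finsupp.mapDomain_comapDomain _ hi c fun p hp => by
          obtain rfl : k p = j := c1 hp
          exact ⟨p.1, rfl⟩⟩
      rw [Finsupp.linearCombination_mapDomain] at c2
      rw [Finsupp.mapDomain_support_of_injective hi, Finset.coe_image, image_subset_iff] at c1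
      suffices y = 0 by simp [this]
      by_contra h
      obtain ⟨i, hi⟩ := Finsupp.support_nonempty_iff.2 h
      have h1 : ∀ l ∈ y.support, (if q (l, j.2) then none else some l) =
          if q (i, j.2) then none else some i := fun l hl =>
        (congrArg Prod.fst (c1 hl)).trans (congrArg Prod.fst (c1 hi)).symm
      by_cases e : q (i, j.2)
      · have h2 : ∀ l ∈ y.support, q (l, j.2) := fun l hl => by_contra fun h => by
          simpa [h, e] using h1 l hl
        exact h (e.1.1 y (fun l hl => (h2 l hl).2)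
          ((L_congr fun l hl => (if_pos (h2 l hl)).symm).trans c2))
      · rw [(Finsupp.support_subset_singleton (a := i) (f := y)).1 fun l hl => by
          have := h1 l hl
          split_ifs at this
          simpa using this] at c2
        simp [Θ, e] at c2
        exact Finsupp.mem_support_iff.1 hi c2)
    (fun j => {t | ok j.2 → t ∈ S j.2.1.2.2}) (fun j => by
      by_cases h : ok j.2
      · exact (lac h.2).trans (Cardinal.mk_le_mk_of_subset fun _ a _ => a)
      · simp [h, Cardinal.mk_real])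
    (fun p => insert 1 (φ p.1 '' range (σ p.1).1)) fun p => ((countable_range _).image _).insert _
  let m : ℝ → B → ℝ := fun i b => if b ∈ range (σ i).1 then φ i b else s (k (i, b)) * Θ (i, b)
  refine ⟨m, fun C hC v => ?_, fun y hy => ⟨⋃ i ∈ y.support, range (σ i).1,
    y.support.countable_toSet.biUnion fun _ _ => countable_range _, fun g n h b hb => ?_⟩,
    fun C θ r hC h1 h2 => ?_⟩
  · obtain ⟨c, hc⟩ := (hC.insert 0).exists_eq_range (insert_nonempty _ _)
    obtain ⟨i, hi⟩ := hσ (c, v ∘ c)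
    refine ⟨i, fun b hb => ?_⟩
    have : b ∈ range c := hc ▸ mem_insert_of_mem _ hb
    simp only [m, φ, hi, if_pos this, ext c v this]
  · by_contra hn
    obtain ⟨i, hi⟩ := Finsupp.support_nonempty_iff.2 hy
    let t : ℝ × B →₀ ℤ := Finsupp.onFinset (y.support ×ˢ g.support) (fun p => y p.1 * g p.2)
      fun p hp => by simpa using hp
    have h1 : L (fun p => m p.1 p.2) t = n := by
      rw [← h, Finsupp.linearCombination_apply, Finsupp.onFinset_sum _ (by simp),
        Finset.sum_product]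
      simp [Finsupp.linearCombination_apply, Finsupp.sum, Finset.mul_sum, mul_assoc]
    have h2 : ∀ l ∈ y.support, (l, b) ∈ (t.filter fun p => p.2 ∉ range (σ p.1).1).support :=
      fun l hl => Finset.mem_filter.2 ⟨Finsupp.mem_support_iff.2 (mul_ne_zero
        (Finsupp.mem_support_iff.1 hl) (Finsupp.mem_support_iff.1 hb)),
        fun h => hn (mem_biUnion hl h)⟩
    refine Finsupp.support_nonempty_iff.1 ⟨_, h2 i hi⟩ (s2 _ ?_)
    have h3 : L (fun p => s (k p) * Θ p) (t.filter fun p => p.2 ∉ range (σ p.1).1) =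
        n • 1 - L (fun p => m p.1 p.2) (t.filter fun p => p.2 ∈ range (σ p.1).1) := by
      rw [zsmul_one, ← h1, ← map_sub, ← eq_sub_of_add_eq' (t.filter_add_filter_not _)]
      exact L_congr fun p hp => (if_neg (Finset.mem_filter.1 hp).2).symm
    rw [h3]
    refine sub_mem (zsmul_mem (AddSubgroup.subset_closure (mem_biUnion (h2 i hi) (.inl rfl))) _)
      (sum_mem fun p hp => zsmul_mem (AddSubgroup.subset_closure (mem_biUnion (h2 p.1 ?_)
        (.inr ⟨p.2, (Finset.mem_filter.1 hp).2, (if_pos (Finset.mem_filter.1 hp).2).symm⟩))) _)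
    exact Finsupp.mem_support_iff.2 (left_ne_zero_of_mul
      (Finsupp.mem_support_iff.1 (Finset.mem_filter.1 hp).1))
  · rcases C.eq_empty_or_nonempty with rfl | h
    · exact ⟨0, _, (ne h2).some_mem, by simp⟩
    obtain ⟨c, rfl⟩ := hC.exists_eq_range h
    obtain ⟨t, ht⟩ := (((hC.biUnion fun i _ => countable_range (σ i).1).preimage
      (Prod.mk_right_injective (c, θ ∘ c, r))).dense_compl ℝ).nonempty
    have h3 : ok ((c, θ ∘ c, r), t) :=
      ⟨fun y a e => h1 y a ((L_congr fun i hi => (ext c θ (a hi)).symm).trans e), h2⟩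
    refine ⟨((c, θ ∘ c, r), t), _, s1 (none, _) h3, fun i hi => ?_⟩
    have h4 : q (i, (c, θ ∘ c, r), t) := ⟨h3, hi⟩
    simp only [m, k, Θ, η, if_neg fun h => ht (mem_biUnion hi h), if_pos h4, ext c θ hi]

theorem L_mul {Λ : Type} (s : ℝ) (θ : Λ → ℝ) (y : Λ →₀ ℤ) :
    L (fun i => s * θ i) y = s * L θ y := by
  simp [Finsupp.linearCombination_apply, Finsupp.sum, Finset.mul_sum, mul_left_comm]

open Real in
theorem main : ∃ H : Subgroup (ℝ → Circle),
    Dense (H : Set (ℝ → Circle)) ∧ ¬ (H : Set (ℝ → Circle)).Countable ∧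
    (∀ f : H → ℝ, Continuous f →
      ∃ U : Set H, IsClopen U ∧ f ⁻¹' {0} ⊆ U ∧ Disjoint U (f ⁻¹' {1})) ∧
    (∀ K : Subgroup H, (K : Set H).Countable → IsClosed (K : Set H)) ∧
    (∀ K : Subgroup H, ¬ (K : Set H).Countable → Dense (K : Set H)) ∧
    (∃ e : H ≃ₜ* PontryaginDual (PontryaginDual H),
      ∀ (g : H) (χ : PontryaginDual H), e g χ = χ g) := by
  classical
  obtain ⟨m, d1, d2, d3⟩ := data
  let Φ : Multiplicative (B →₀ ℤ) →* ℝ → Circle := MonoidHom.mk'
    (fun g i => fourierChar (L (m i) g.toAdd)) fun a b => funext fun i => by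
      simp [AddChar.map_add_eq_mul]
  let E := Φ.rangeRestrict
  have hE : Function.Surjective E := Φ.rangeRestrict_surjective
  let Ψ : Multiplicative (ℝ →₀ ℤ) →* PontryaginDual (ℝ → Circle) := MonoidHom.mk'
    (fun y => (Finsupp.linearCombination ℤ (fun i => Additive.ofMul (ev i)) y.toAdd).toMul)
    fun a b => by simp
  have hΨ : ∀ (y : ℝ →₀ ℤ) (x : ℝ → ℝ),
      Ψ (.ofAdd y) (fun i => fourierChar (x i)) = fourierChar (L x y) := fun y x => by
    induction y using Finsupp.induction_linear with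
    | zero => simp
    | add a b ha hb => rw [ofAdd_add, map_mul, map_add, AddChar.map_add_eq_mul, ← ha, ← hb]; rfl
    | single i n =>
      rw [Finsupp.linearCombination_single, AddChar.map_zsmul_eq_zpow]
      simp only [Ψ, MonoidHom.mk'_apply, toAdd_ofAdd, Finsupp.linearCombination_single, toMul_zsmul,
        toMul_ofMul]
      exact map_zpow (MonoidHom.mk' (fun χ : PontryaginDual (ℝ → Circle) =>
        χ fun i => fourierChar (x i)) fun _ _ => rfl) (ev i) n
  have hs : ∀ i, Ψ (.ofAdd (Finsupp.single i 1)) = ev i := fun i => by simp [Ψ]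
  have e1 : ∀ t : ℝ, fourierChar t = 1 → ∃ n : ℤ, t = n := fun t h => by
    obtain ⟨n, hn⟩ := Circle.exp_eq_one.1 h
    exact ⟨n, mul_left_cancel₀ two_pi_pos.ne' (hn.trans (mul_comm _ _))⟩
  have a1 : ∀ K : Subgroup Φ.range, ¬ (K : Set Φ.range).Countable →
      Dense (K.map Φ.range.subtype : Set (ℝ → Circle)) := fun K hK x => by
    by_contra hx
    obtain ⟨γ, g1, g2, g3⟩ := sep' _ hx
    obtain ⟨y, rfl⟩ := (Subgroup.closure_le Ψ.range).2 (range_subset_iff.2 fun i => ⟨_, hs i⟩) g1
    obtain ⟨C, c1, c2⟩ := d2 y.toAdd fun e => g3 (by rw [show y = 1 from e, map_one]; rfl)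
    refine hK (((cnt c1).image fun g => E (.ofAdd g)).mono fun h hh => ?_)
    obtain ⟨g, rfl⟩ := hE h
    obtain ⟨n, hn⟩ := e1 _ ((hΨ y.toAdd _).symm.trans (g2 _ ⟨_, hh, rfl⟩))
    exact ⟨g.toAdd, c2 _ n hn, rfl⟩
  have a2 : ¬ (univ : Set Φ.range).Countable := fun h => not_countable_univ (α := B)
    ((h.preimage (f := fun b => E (.ofAdd (Finsupp.single b 1))) fun b c e => by
      by_contra hn
      obtain ⟨i, hi⟩ := d1 {b, c} (to_countable _) (Pi.single b (1 / 2))
      have := congrFun (congrArg Subtype.val e) i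
      simp only [E, Φ, MonoidHom.coe_rangeRestrict, MonoidHom.mk'_apply, toAdd_ofAdd,
        Finsupp.linearCombination_single, one_smul, hi b (.inl rfl), hi c (.inr rfl),
        Pi.single_eq_same, Pi.single_eq_of_ne' hn, AddChar.map_zero_eq_one] at this
      obtain ⟨n, hn⟩ := e1 _ this
      have : (1 : ℤ) = 2 * n := by exact_mod_cast (by linarith : (1 : ℝ) = 2 * n)
      omega).mono fun _ _ => trivial)
  have a3 : Dense (Φ.range : Set (ℝ → Circle)) := (a1 ⊤ a2).mono (Subgroup.map_subtype_le _)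
  let R : PontryaginDual (ℝ → Circle) →* PontryaginDual Φ.range :=
    (PontryaginDual.map ⟨Φ.range.subtype, continuous_subtype_val⟩).toMonoidHom
  have hp : IsEmbedding fun (a : Φ.range) i => R (ev i) a := IsEmbedding.subtypeVal
  have a4 : ∀ K : Set Φ.range, IsCompact K → K.Finite := fin mkB.le E hE fun C θ r hC _ h => by
    obtain ⟨s, hs⟩ := ne h
    obtain ⟨i, hi⟩ := d1 C hC fun b => s * θ b
    exact ⟨(R (ev i)).toMonoidHom, s, hs, (R (ev i)).continuous, fun y hy =>
      congrArg fourierChar ((L_congr fun b hb => hi b (hy hb)).trans (L_mul _ _ _))⟩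
  have a5 : ∀ K : Set (PontryaginDual Φ.range), IsCompact K → K.Finite :=
    fin Cardinal.mk_real.le (R.comp Ψ) (fun χ => by
      let U : PontryaginDual Φ.range →* Φ.range →* Circle :=
        MonoidHom.mk' (fun χ => χ.toMonoidHom) fun _ _ => rfl
      obtain ⟨y, hy⟩ := (Subgroup.closure_le (U.comp (R.comp Ψ)).range).2 (range_subset_iff.2
        fun i => ⟨_, congrArg (fun γ => U (R γ)) (hs i)⟩)
        (cr (fun i => U (R (ev i))) hp.isInducing χ.toMonoidHom χ.continuous)
      exact ⟨y, PontryaginDual.ext fun g => DFunLike.congr_fun hy g⟩) fun C θ r hC h h' => by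
      obtain ⟨b, s, h1, h2⟩ := d3 C θ r hC h h'
      refine ⟨MonoidHom.mk' (fun χ => χ (E (.ofAdd (Finsupp.single b 1)))) fun _ _ => rfl, s, h1,
        (continuous_apply _).comp (ptw a4).continuous, fun y hy => (hΨ y _).trans
          (congrArg fourierChar ((L_congr fun i hi => ?_).trans (L_mul _ _ _)))⟩
      simp [h2 i (hy hi)]
  refine ⟨Φ.range, a3, fun h => a2 (have := h.to_subtype; countable_univ),
    ZDim.zd a3 fun i h O h1 h2 => ?_, fun K hK => ?_, fun K hK x => ?_, refl _ hp a4 a5⟩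
  · obtain ⟨V, v1, v2, v3, v4⟩ := ZDim.circ (R (ev i)).toMonoidHom.range (fun e => by
      obtain ⟨C, c1, c2⟩ := d2 (Finsupp.single i 1) (by simp)
      obtain ⟨b, hb⟩ := not_subset.1 fun h : univ ⊆ C => not_countable_univ (c1.mono h)
      obtain ⟨x, hx⟩ := e.ge (Subgroup.mem_top (fourierChar (m i b / 2)))
      obtain ⟨g, rfl⟩ := hE x
      obtain ⟨n, hn⟩ := e1 (L (m i) g.toAdd - m i b / 2) (by
        rw [AddChar.map_sub_eq_div, div_eq_one]
        exact hx)
      refine hb.2 (c2 (2 • g.toAdd - Finsupp.single b 1) (2 * n) ?_ (Finsupp.mem_support_iff.2 ?_))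
      · simp only [Finsupp.linearCombination_single, map_sub, map_nsmul, one_smul, nsmul_eq_mul]
        push_cast
        linarith
      · simp only [Finsupp.sub_apply, Finsupp.smul_apply, Finsupp.single_eq_same, nsmul_eq_mul]
        omega) ⟨h, rfl⟩ h1 h2
    exact ⟨V, v1, v2, v3, fun w => v4 _ ⟨w, rfl⟩⟩
  · refine isOpen_compl_iff.1 (isOpen_iff_forall_mem_open.2 fun x hx => ?_)
    obtain ⟨φ, f1, f2⟩ := ch K hx
    choose g hg using hE
    choose v hv using fun b => Circle.exp_surjective (φ (E (.ofAdd (Finsupp.single b 1))))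
    obtain ⟨i, hi⟩ := d1 (⋃ h ∈ insert x (K : Set Φ.range), (g h).toAdd.support)
      ((hK.insert x).biUnion fun _ _ => Finset.countable_toSet _) fun b => v b / (2 * π)
    have h1 : ∀ y, φ (E (.ofAdd y)) = fourierChar (L (fun b => v b / (2 * π)) y) := fun y => by
      induction y using Finsupp.induction_linear with
      | zero => simp
      | add a b ha hb => rw [ofAdd_add, map_mul, map_mul, map_add, AddChar.map_add_eq_mul, ha, hb]
      | single b n =>
        rw [Finsupp.linearCombination_single, AddChar.map_zsmul_eq_zpow, fourierChar_apply',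
          mul_div_cancel₀ _ two_pi_pos.ne', hv, ← map_zpow, ← map_zpow, ← ofAdd_zsmul]
        simp
    have h2 : ∀ h ∈ insert x (K : Set Φ.range), h.1 i = φ h := fun h hh => by
      rw [← hg h]
      exact (congrArg fourierChar (L_congr fun b hb => hi b (mem_biUnion hh hb))).trans (h1 _).symm
    exact ⟨{h | h.1 i ≠ 1}, fun h a b => a ((h2 h (.inr b)).trans (f1 h b)), isOpen_ne_fun
      ((continuous_apply i).comp continuous_subtype_val) continuous_const,
      fun e => f2 ((h2 x (.inl rfl)).symm.trans e)⟩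
  · exact closure_subtype.2 (a1 K hK x)

end Pool.Agent.H25.RefS
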