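import Mathlib

set_option autoImplicit false

namespace Pool.Agent.H25.Rup

/-- Clause store. A clause is a bit mask of literals; literal `l` has negation `l ^^^ 1`. -/
inductive T : Type
  | leaf : T
  | node : T → Nat → T → T

def T.get : T → Nat → Nat
  | .leaf, _ => 1
  | .node l v r, i =>
    bif Nat.beq i 0 then v else bif Nat.beq (i % 2) 1 then l.get (i / 2) else r.get (i / 2 - 1)

def T.ins : Nat → T → Nat → Nat → T
  | 0, t, _, _ => t
  | k + 1, .leaf, i, v =>
    bif Nat.beq i 0 then .node .leaf v .leaf else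
      bif Nat.beq (i % 2) 1 then .node (T.ins k .leaf (i / 2) v) 1 .leaf
      else .node .leaf 1 (T.ins k .leaf (i / 2 - 1) v)
  | k + 1, .node l w r, i, v =>
    bif Nat.beq i 0 then .node l v r else
      bif Nat.beq (i % 2) 1 then .node (T.ins k l (i / 2) v) w r
      else .node l w (T.ins k r (i / 2 - 1) v)

def Sat (s : Nat → Prop) (c : Nat) : Prop := ∃ l, c.testBit l = true ∧ s l

def T.All (s : Nat → Prop) : T → Prop
  | .leaf => True
  | .node l v r => l.All s ∧ Sat s v ∧ r.All s

theorem sat_one {s : Nat → Prop} (h0 : s 0) : Sat s 1 := ⟨0, by decide, h0⟩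

theorem T.all_get {s : Nat → Prop} (h0 : s 0) : ∀ (t : T) (i : Nat), t.All s → Sat s (t.get i)
  | .leaf, _, _ => sat_one h0
  | .node l v r, i, h => by
    unfold T.get
    cases Nat.beq i 0
    · cases Nat.beq (i % 2) 1
      · exact T.all_get h0 r _ h.2.2
      · exact T.all_get h0 l _ h.1
    · exact h.2.1

theorem T.all_ins {s : Nat → Prop} (h0 : s 0) :
    ∀ (k : Nat) (t : T) (i v : Nat), t.All s → Sat s v → (T.ins k t i v).All s
  | 0, _, _, _, h, _ => h
  | k + 1, .leaf, i, v, h, hv => by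
    unfold T.ins
    cases Nat.beq i 0
    · cases Nat.beq (i % 2) 1
      · exact ⟨trivial, sat_one h0, T.all_ins h0 k _ _ _ h hv⟩
      · exact ⟨T.all_ins h0 k _ _ _ h hv, sat_one h0, trivial⟩
    · exact ⟨trivial, hv, trivial⟩
  | k + 1, .node l w r, i, v, h, hv => by
    unfold T.ins
    cases Nat.beq i 0
    · cases Nat.beq (i % 2) 1
      · exact ⟨h.1, h.2.1, T.all_ins h0 k _ _ _ h.2.2 hv⟩
      · exact ⟨T.all_ins h0 k _ _ _ h.1 hv, h.2.1, h.2.2⟩
    · exact ⟨h.1, hv, h.2.2⟩

/-- Unit propagation along hints `id * m + literal`; the last hint is the conflict clause. -/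
def rup (m : Nat) (t : T) : List Nat → Nat → Bool
  | [], _ => false
  | [h], a => Nat.beq (t.get (h / m) ||| a) a
  | h :: hs, a =>
    Nat.beq (t.get (h / m) ||| (a ||| 1 <<< (h % m))) (a ||| 1 <<< (h % m)) &&
      rup m t hs (a ||| 1 <<< ((h % m) ^^^ 1))

theorem testBit_one_shiftLeft (i l : Nat) : (1 <<< i).testBit l = true ↔ l = i := by
  rw [Nat.one_shiftLeft, Nat.testBit_two_pow]
  simp [eq_comm]

theorem rup_sound {s : Nat → Prop} (h0 : s 0) (hc : ∀ l, s l → ¬ s (l ^^^ 1)) (m : Nat) (t : T)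
    (ht : t.All s) : ∀ (hs : List Nat) (a : Nat), (∀ l, a.testBit l = true → ¬ s l) →
      rup m t hs a = true → False
  | [], _, _, h => by simp [rup] at h
  | [h], a, ha, hr => by
    obtain ⟨l, h1, h2⟩ := T.all_get h0 t (h / m) ht
    have h3 : t.get (h / m) ||| a = a := Nat.eq_of_beq_eq_true hr
    refine ha l ?_ h2
    rw [← h3, Nat.testBit_or, h1, Bool.true_or]
  | h :: h' :: hs, a, ha, hr => by
    obtain ⟨l, h1, h2⟩ := T.all_get h0 t (h / m) ht
    rw [rup, Bool.and_eq_true] at hr
    · have h3 := Nat.eq_of_beq_eq_true hr.1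
      have h4 : (a ||| 1 <<< (h % m)).testBit l = true := by
        rw [← h3, Nat.testBit_or, h1, Bool.true_or]
      rw [Nat.testBit_or, Bool.or_eq_true, testBit_one_shiftLeft] at h4
      have h5 : l = h % m := h4.resolve_left (fun h6 => ha l h6 h2)
      refine rup_sound h0 hc m t ht (h' :: hs) _ ?_ hr.2
      intro l' h6
      rw [Nat.testBit_or, Bool.or_eq_true, testBit_one_shiftLeft] at h6
      rcases h6 with h6 | h6
      · exact ha l' h6
      · rw [h6, ← h5]
        exact hc l h2
    · simp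

def load : List Nat → T → Nat → T
  | [], t, _ => t
  | c :: cs, t, n => load cs (T.ins 40 t n c) (n + 1)

theorem all_load {s : Nat → Prop} (h0 : s 0) : ∀ (cs : List Nat) (t : T) (n : Nat),
    (∀ c ∈ cs, Sat s c) → t.All s → (load cs t n).All s
  | [], _, _, _, h => h
  | c :: cs, t, n, h, ht => all_load h0 cs _ _ (fun c' hc' => h c' (List.mem_cons_of_mem _ hc'))
      (T.all_ins h0 40 t n c ht (h c List.mem_cons_self))

/-- Check a list of lemmas `clause :: hints`; lemma number `j` is stored under id `n + j`. -/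
def check (m : Nat) : List (List Nat) → T → Nat → Bool
  | [], _, _ => true
  | [] :: _, _, _ => false
  | (c :: hs) :: ps, t, n => rup m t hs c && check m ps (T.ins 40 t n c) (n + 1)

theorem check_sound {s : Nat → Prop} (h0 : s 0) (hc : ∀ l, s l → ¬ s (l ^^^ 1)) (m : Nat) :
    ∀ (ps : List (List Nat)) (t : T) (n : Nat), t.All s → check m ps t n = true →
      ∀ p ∈ ps, Sat s (p.headD 0)
  | [], _, _, _, _ => by simp
  | [] :: _, _, _, _, h => by simp [check] at h
  | (c :: hs) :: ps, t, n, ht, h => by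
    rw [check, Bool.and_eq_true] at h
    have h1 : Sat s c := by
      by_contra h2
      exact rup_sound h0 hc m t ht hs c (fun l hl hs' => h2 ⟨l, hl, hs'⟩) h.1
    intro p hp
    rcases List.mem_cons.1 hp with rfl | hp
    · exact h1
    · exact check_sound h0 hc m ps _ _ (T.all_ins h0 40 t n c ht h1) h.2 p hp

theorem not_sat_zero {s : Nat → Prop} : ¬ Sat s 0 := by
  rintro ⟨l, h, _⟩
  simp at h

/-- One stage: from satisfied clauses `cs` (ids from 0) derive the heads of `ps`. -/
theorem stage {s : Nat → Prop} (h0 : s 0) (hc : ∀ l, s l → ¬ s (l ^^^ 1)) (m : Nat)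
    (cs : List Nat) (ps : List (List Nat)) (h : check m ps (load cs .leaf 0) cs.length = true)
    (hcs : ∀ c ∈ cs, Sat s c) : ∀ p ∈ ps, Sat s (p.headD 0) :=
  check_sound h0 hc m ps _ _ (all_load h0 cs .leaf 0 hcs trivial) h

/-- Refutation: the lemma list contains the empty clause. -/
theorem refute {s : Nat → Prop} (h0 : s 0) (hc : ∀ l, s l → ¬ s (l ^^^ 1)) (m : Nat)
    (cs : List Nat) (ps : List (List Nat))
    (h : (check m ps (load cs .leaf 0) cs.length && ps.any (fun p => Nat.beq (p.headD 0) 0)) = true)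
    (hcs : ∀ c ∈ cs, Sat s c) : False := by
  rw [Bool.and_eq_true, List.any_eq_true] at h
  obtain ⟨p, hp, h2⟩ := h.2
  have := stage h0 hc m cs ps h.1 hcs p hp
  rw [Nat.eq_of_beq_eq_true h2] at this
  exact not_sat_zero this

/-- The literal semantics of an assignment `x` of variables `1, 2, ...`: literal `2 v` is `x v`,
literal `2 v + 1` is its negation, and literal `0` is true. -/
def lit (x : Nat → Prop) (l : Nat) : Prop :=
  if l % 2 = 0 then (l / 2 = 0 ∨ x (l / 2)) else ¬ (l / 2 = 0 ∨ x (l / 2))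

theorem lit_zero (x : Nat → Prop) : lit x 0 := by simp [lit]

theorem lit_cons (x : Nat → Prop) (l : Nat) : lit x l → ¬ lit x (l ^^^ 1) := by
  have h1 : (l ^^^ 1) / 2 = l / 2 := by
    rw [Nat.xor_div_two]; simp
  have h2 : (l ^^^ 1) % 2 = 0 ↔ ¬ l % 2 = 0 := by
    rcases Nat.mod_two_eq_zero_or_one l with h | h <;> simp [Nat.xor_mod_two_eq, Nat.add_mod, h]
  unfold lit
  rw [h1]
  by_cases h : l % 2 = 0
  · rw [if_pos h, if_neg (fun h3 => h2.1 h3 h)]
    exact fun a b => b a
  · rw [if_neg h, if_pos (h2.2 h)]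
    exact id

theorem lit_pos (x : Nat → Prop) (v : Nat) (h : x v) : lit x (2 * v) := by
  unfold lit
  rw [if_pos (by omega), Nat.mul_div_cancel_left _ (by norm_num)]
  exact Or.inr h

theorem lit_neg (x : Nat → Prop) (v : Nat) (hv : v ≠ 0) (h : ¬ x v) : lit x (2 * v + 1) := by
  unfold lit
  have : (2 * v + 1) / 2 = v := by omega
  rw [if_neg (by omega), this]
  rintro (h1 | h1)
  · exact hv h1
  · exact h h1

/-- The bit mask of a list of literals. -/
def mask : List Nat → Nat
  | [] => 0
  | l :: ls => 1 <<< l ||| mask ls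

theorem sat_mask {s : Nat → Prop} : ∀ (ls : List Nat) (l : Nat), l ∈ ls → s l → Sat s (mask ls)
  | [], _, h, _ => by simp at h
  | l' :: ls, l, h, hs => by
    rcases List.mem_cons.1 h with rfl | h
    · exact ⟨l, by rw [mask, Nat.testBit_or, (testBit_one_shiftLeft l l).2 rfl, Bool.true_or], hs⟩
    · obtain ⟨k, h1, h2⟩ := sat_mask ls l h hs
      exact ⟨k, by rw [mask, Nat.testBit_or, h1, Bool.or_true], h2⟩

end Pool.Agent.H25.Rup
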