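import Pool.Agent.H25.SGDefs

set_option autoImplicit false

namespace Pool.Agent.H25.SG
open scoped Classical
open Finset Filter

variable {V P : Type} [Fintype V] {G : Game V P}

theorem val_le (T : List V → V → V → ℝ) (i : P) (U : V → ℝ) (h0 : ∀ v, 0 ≤ U v)
    (hT : ∀ h v, ¬ G.term v → ∀ w, 0 ≤ T h v w) (h1 : ∀ v, G.term v → G.rew v i ≤ U v)
    (h2 : ∀ h v, ¬ G.term v → ∑ w, T h v w * U w ≤ U v) (m : ℕ) :
    ∀ h v, val G T i m h v ≤ U v := by
  induction m with
  | zero => intro h v; unfold val; split_ifs with k; exacts [h1 v k, h0 v]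
  | succ m ih =>
    intro h v; unfold val; split_ifs with k
    · exact h1 v k
    · exact (sum_le_sum fun w _ => mul_le_mul_of_nonneg_left (ih _ w) (hT h v k w)).trans (h2 h v k)

theorem pay_le (T : List V → V → V → ℝ) (i : P) (U : V → ℝ) (h0 : ∀ v, 0 ≤ U v)
    (hT : ∀ h v, ¬ G.term v → ∀ w, 0 ≤ T h v w) (h1 : ∀ v, G.term v → G.rew v i ≤ U v)
    (h2 : ∀ h v, ¬ G.term v → ∑ w, T h v w * U w ≤ U v) : pay G T i ≤ U G.init :=
  ciSup_le fun m => val_le T i U h0 hT h1 h2 m _ _

theorem harm (Q : V → V → ℝ) (i : P) (hr : ∀ v, 0 ≤ G.rew v i ∧ G.rew v i ≤ 1)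
    (hQ : ∀ v, ¬ G.term v → Dist G v (Q v)) :
    ∃ W : V → ℝ, pay G (fun _ => Q) i = W G.init ∧ (∀ v, 0 ≤ W v ∧ W v ≤ 1) ∧
      (∀ v, G.term v → W v = G.rew v i) ∧ ∀ v, ¬ G.term v → W v = ∑ w, Q v w * W w := by
  have ind : ∀ m h v, val G (fun _ => Q) i m h v = val G (fun _ => Q) i m [] v := by
    intro m
    induction m with
    | zero => intro h v; rfl
    | succ m ih => intro h v; simp only [val, ih (v :: h), ih [v]]
  have b1 : ∀ m h v, val G (fun _ => Q) i m h v ≤ 1 :=
    val_le _ i (fun _ => 1) (fun _ => zero_le_one) (fun _ v k => (hQ v k).1)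
      (fun v _ => by exact_mod_cast (hr v).2) fun _ v k => by simp [(hQ v k).2.1]
  have b0 : ∀ m h v, 0 ≤ val G (fun _ => Q) i m h v := by
    intro m
    induction m with
    | zero => intro h v; unfold val; split_ifs; exacts [by exact_mod_cast (hr v).1, le_rfl]
    | succ m ih =>
      intro h v; unfold val; split_ifs with k
      · exact_mod_cast (hr v).1
      · exact sum_nonneg fun w _ => mul_nonneg ((hQ v k).1 w) (ih _ w)
  have mo : ∀ m h v, val G (fun _ => Q) i m h v ≤ val G (fun _ => Q) i (m + 1) h v := by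
    intro m
    induction m with
    | zero =>
      intro h v
      have := b0 1 h v
      simp only [val] at this ⊢; split_ifs at this ⊢; exacts [le_rfl, this]
    | succ m ih =>
      intro h v
      rw [val, val]; split_ifs with k
      · rfl
      · exact sum_le_sum fun w _ => mul_le_mul_of_nonneg_left (ih _ w) ((hQ v k).1 w)
  have bd : ∀ v, BddAbove (Set.range fun m => val G (fun _ => Q) i m [] v) :=
    fun v => ⟨1, by rintro _ ⟨m, rfl⟩; exact b1 m _ v⟩
  have tn : ∀ v, Tendsto (fun m => val G (fun _ => Q) i m [] v) atTop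
      (nhds (⨆ m, val G (fun _ => Q) i m [] v)) :=
    fun v => tendsto_atTop_ciSup (monotone_nat_of_le_succ fun m => mo m _ v) (bd v)
  refine ⟨fun v => ⨆ m, val G (fun _ => Q) i m [] v, rfl,
    fun v => ⟨(b0 0 _ v).trans (le_ciSup (bd v) 0), ciSup_le fun m => b1 m _ v⟩, fun v k => ?_,
    fun v k => ?_⟩
  · have : ∀ m, val G (fun _ => Q) i m [] v = G.rew v i := fun m => by cases m <;> simp [val, k]
    simp [this]
  · refine tendsto_nhds_unique ((tendsto_add_atTop_iff_nat 1).2 (tn v)) ?_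
    simp only [val, k, if_false, ind _ [v]]
    exact tendsto_finset_sum _ fun w _ => (tn w).const_mul _

theorem two {v a b : V} {d : V → ℝ} (h : Dist G v d) (he : ∀ w, G.edge v w → w = a ∨ w = b)
    (f : V → ℝ) : ∑ w, d w * f w = (1 - d b) * f a + d b * f b := by
  have key : ∀ g : V → ℝ, ∑ w, d w * g w = ∑ w ∈ {a, b}, d w * g w := fun g =>
    (sum_subset (subset_univ _) fun w _ hw => by
      have : d w = 0 := by_contra fun k => hw (by simpa using he w (h.2.2 w k))
      simp [this]).symm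
  have h1 := key fun _ => 1
  simp only [mul_one, h.2.1] at h1
  rw [key]
  by_cases e : a = b
  · subst e; simp at h1 ⊢; simp [← h1]
  · rw [sum_pair e] at h1 ⊢; rw [h1]; ring

theorem Dist.le_one {v : V} {d : V → ℝ} (h : Dist G v d) (b : V) : d b ≤ 1 :=
  h.2.1 ▸ single_le_sum (fun w _ => h.1 w) (mem_univ b)

theorem sz_le {a K : ℕ} (h : a ≤ K) (hK : 0 < K) : sz ((a : ℚ) / K) ≤ 2 * K + 1 := by
  have h1 : ((a : ℚ) / K).den ≤ K := by
    have := Rat.den_dvd (a : ℤ) (K : ℤ)
    rw [Rat.divInt_eq_div, Int.cast_natCast, Int.cast_natCast] at this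
    exact Nat.le_of_dvd hK (Int.natCast_dvd_natCast.1 this)
  have h2 : ((a : ℚ) / K).num.natAbs ≤ ((a : ℚ) / K).den := by
    have h3 : (a : ℚ) / K ≤ 1 := (div_le_one (by positivity)).2 (by exact_mod_cast h)
    have h4 : 0 ≤ ((a : ℚ) / K).num := Rat.num_nonneg.2 (by positivity)
    have h5 := Rat.num_div_den ((a : ℚ) / K)
    rw [← h5, div_le_one (by exact_mod_cast Rat.pos _)] at h3
    have : ((a : ℚ) / K).num ≤ (((a : ℚ) / K).den : ℤ) := by exact_mod_cast h3
    omega
  have h3 : ∀ m : ℕ, m.size ≤ m := fun m => Nat.size_le.2 Nat.lt_two_pow_self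
  have := h3 ((a : ℚ) / K).den
  have := h3 ((a : ℚ) / K).num.natAbs
  unfold sz; omega

end Pool.Agent.H25.SG
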