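import Pool.Agent.H25.SG1

set_option autoImplicit false

namespace Pool.Agent.H25.SG
open scoped Classical
open Finset

abbrev Pt := ℕ × Fin 9

def A (n : ℕ) (p : Pt) : Pt :=
  ![(p.1, 2), if p.1 ≤ n then (p.1, 2) else (p.1, 5), (p.1, 4), (min (p.1 + 1) (n + 1), 0),
    if p.1 = 0 then (0, 5) else (p.1 - 1, 0), p, (p.1, 7), (p.1, 8), p] p.2

def B (n : ℕ) (p : Pt) : Pt :=
  ![(p.1, 1), (p.1, 5), (p.1, 3),
    if p.1 < n then (p.1 + 1, 5) else if p.1 = n then (n + 1, 0) else (n, 5),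
    if p.1 < n then (p.1 + 1, 1) else A n p, p, if p.1 < n then (p.1, 2) else (p.1, 7),
    if p.1 < n then (p.1, 2) else (p.1, 8), p] p.2

def ow (n : ℕ) (p : Pt) : Option (ℕ × Bool) :=
  ![if p.1 = 0 then none else some (n + 1, true), if p.1 = 0 then none else some (p.1 - 1, false),
    some (min p.1 n, false), some (p.1, true), some (p.1, true), none, some (p.1, false),
    some (p.1, true), none] p.2

def Harm (n : ℕ) (z w : Pt → ℝ) : Prop :=
  ∀ j ≤ n + 1, ∀ c, c ≠ 5 → c ≠ 8 →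
    w (j, c) = (1 - z (j, c)) * w (A n (j, c)) + z (j, c) * w (B n (j, c))

theorem minp {n i : ℕ} {z w : Pt → ℝ} (H : Harm n z w) (hi : i < n) (hz : ∀ p, 0 ≤ z p ∧ z p ≤ 1)
    (h1 : w (i, 0) ≤ 1) (h5 : ∀ j, i < j → j ≤ n + 1 → w (j, 5) = 1)
    (p0 : ∀ j, i < j → j ≤ n + 1 → 0 < z (j, 0)) (p1 : ∀ j, i < j → j ≤ n → 0 < z (j, 1)) :
    ∀ j, i < j → j ≤ n + 1 → ∀ c ≤ 4, w (i, 0) ≤ w (j, c) := by
  obtain ⟨⟨j0, c0⟩, hp, hm⟩ := exists_min_image (Ioc i (n + 1) ×ˢ (univ.filter (· ≤ (4 : Fin 9)))) w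
    ⟨(n, 0), by simp [hi]⟩
  simp only [mem_product, mem_Ioc, mem_filter, mem_univ, true_and, Prod.forall] at hp hm
  suffices w (i, 0) ≤ w (j0, c0) from fun j a b c d => this.trans (hm j c ⟨⟨a, b⟩, d⟩)
  by_contra hc
  push Not at hc
  set m := w (j0, c0)
  have c1 : ∀ p a b, m ≤ a → m < b → 0 < z p → m < (1 - z p) * a + z p * b := fun p a b x y e => by
    nlinarith [mul_nonneg (sub_nonneg.2 (hz p).2) (sub_nonneg.2 x), mul_pos e (sub_pos.2 y)]
  have c2 : ∀ p a b, m < a → m < b → m < (1 - z p) * a + z p * b := fun p a b x y => by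
    rcases (hz p).1.eq_or_lt with e | e
    · rw [← e]; simpa using x
    · exact c1 p a b x.le y e
  have k5 : ∀ j, i < j → j ≤ n + 1 → m < w (j, 5) := fun j a b => by rw [h5 j a b]; linarith
  have k1 : ∀ j, i < j → j ≤ n + 1 → m < w (j, 1) := fun j a b => by
    rw [H j b 1 (by decide) (by decide)]
    by_cases e : j ≤ n
    · simpa [A, B, e] using c1 _ _ _ (hm j 2 ⟨⟨a, b⟩, by decide⟩) (k5 j a b) (p1 j a e)
    · simpa [A, B, e] using c2 _ _ _ (k5 j a b) (k5 j a b)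
  have k0 : ∀ j, i < j → j ≤ n + 1 → m < w (j, 0) := fun j a b => by
    rw [H j b 0 (by decide) (by decide)]
    simpa [A, B] using c1 _ _ _ (hm j 2 ⟨⟨a, b⟩, by decide⟩) (k1 j a b) (p0 j a b)
  have k3 : ∀ j, i < j → j ≤ n + 1 → m < w (j, 3) := fun j a b => by
    rw [H j b 3 (by decide) (by decide)]
    refine c2 _ _ _ (k0 (min (j + 1) (n + 1)) (by omega) (by omega)) ?_
    simp only [B, Matrix.cons_val]
    split_ifs
    exacts [k5 _ (by omega) (by omega), k0 _ (by omega) le_rfl, k5 _ hi (by omega)]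
  have k4 : ∀ j, i < j → j ≤ n + 1 → m < w (j, 4) := fun j a b => by
    rw [H j b 4 (by decide) (by decide)]
    have e : m < w (A n (j, 4)) := by
      simp only [A, Matrix.cons_val, if_neg (show j ≠ 0 by omega)]
      by_cases e : j - 1 = i
      · rwa [e]
      · exact k0 _ (by omega) (by omega)
    refine c2 _ _ _ e ?_
    simp only [B, Matrix.cons_val]
    split_ifs
    exacts [k1 _ (by omega) (by omega), e]
  have k2 : ∀ j, i < j → j ≤ n + 1 → m < w (j, 2) := fun j a b => by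
    rw [H j b 2 (by decide) (by decide)]
    exact c2 _ _ _ (k4 j a b) (k3 j a b)
  obtain ⟨⟨a, b⟩, d⟩ := hp
  have : m < w (j0, c0) := by
    fin_cases c0
    exacts [k0 _ a b, k1 _ a b, k2 _ a b, k3 _ a b, k4 _ a b, absurd d (by decide),
      absurd d (by decide), absurd d (by decide), absurd d (by decide)]
  exact lt_irrefl _ this

noncomputable def zd (n : ℕ) (z : Pt → ℝ) (q : ℕ × Bool) (p : Pt) : ℝ :=
  if ow n p = some q then if p = (n + 1, 2) then 0 else 1 else z p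

theorem att {n i : ℕ} {z w : Pt → ℝ} {b : Bool} (H : Harm n (zd n z (i, b)) w) (hi : i ≤ n)
    (h5 : w (i, 5) = 0) : w (i, 0) = (1 - z (i, 0) * z (i, 1)) * w (i, 2) := by
  have e0 := H i (by omega) 0 (by decide) (by decide)
  have e1 := H i (by omega) 1 (by decide) (by decide)
  have o0 : ow n (i, 0) ≠ some (i, b) := by simp [ow]; omega
  have o1 : ow n (i, 1) ≠ some (i, b) := by simp [ow]; omega
  simp [zd, o0, o1, A, B, hi, h5] at e0 e1
  rw [e0, e1]; ring

theorem stepD {n i : ℕ} {z w : Pt → ℝ} {b : Bool} (H : Harm n (zd n z (i, b)) w) (hi : i < n)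
    (hz : ∀ p, 0 ≤ z p ∧ z p ≤ 1) (hw : ∀ p, 0 ≤ w p ∧ w p ≤ 1) (h0 : w (i, 5) = 0)
    (h5 : ∀ j, i < j → j ≤ n + 1 → w (j, 5) = 1) (h6 : w (i, 6) ≤ 1 / 2)
    (p0 : ∀ j, i < j → j ≤ n + 1 → 0 < z (j, 0)) (p1 : ∀ j, i < j → j ≤ n → 0 < z (j, 1)) :
    z (i + 1, if b then 1 else 0) ≤ z (i, 0) * z (i, 1) := by
  have hz' : ∀ p, 0 ≤ zd n z (i, b) p ∧ zd n z (i, b) p ≤ 1 := fun p => by
    unfold zd; split_ifs <;> simp [hz p]
  have mp := minp H hi hz' (hw _).2 h5
    (fun j x y => by have := p0 j x y; simp only [zd]; split_ifs <;> simp_all)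
    (fun j x y => by have := p1 j x y; simp only [zd]; split_ifs <;> simp_all) (i + 1) (by omega)
    (by omega) 2 (by decide)
  rw [att H hi.le h0] at mp
  have e6 := H i (by omega) 6 (by decide) (by decide)
  have e7 := H i (by omega) 7 (by decide) (by decide)
  have e2 := H i (by omega) 2 (by decide) (by decide)
  have e3 := H i (by omega) 3 (by decide) (by decide)
  have e4 := H i (by omega) 4 (by decide) (by decide)
  have f0 := H (i + 1) (by omega) 0 (by decide) (by decide)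
  have f1 := H (i + 1) (by omega) 1 (by decide) (by decide)
  have g5 := h5 (i + 1) (by omega) (by omega)
  have n1 : i ≠ n + 1 := by omega
  have n2 : n + 1 ≠ i := by omega
  have n3 : i + 1 ≤ n := hi
  have fin : ∀ p π x s : ℝ, 0 ≤ p → p ≤ 1 → 0 ≤ π → 0 ≤ x → x ≤ 1 / 2 → (1 - π) * x ≤ s →
      (1 - p) * s + p ≤ x → p ≤ π := fun p π x s a1 a2 a3 a4 a5 a6 a7 => by
    nlinarith [mul_le_mul_of_nonneg_left a6 (sub_nonneg.2 a2), mul_nonneg (mul_nonneg a1 a3) a4,
      mul_nonneg (add_nonneg a1 a3) (sub_nonneg.2 a5)]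
  refine fin _ _ (w (i, 2)) _ (hz _).1 (hz _).2 (mul_nonneg (hz _).1 (hz _).1) (hw _).1 ?_ mp ?_
  · cases b
    · simp [zd, ow, A, B, hi] at e6; linarith
    · simp [zd, ow, A, B, hi] at e6 e7; rw [e7] at e6; linarith
  · cases b
    · simp [zd, ow, A, B, hi, hi.le, n1, n2, n3, g5] at e2 e3 f0 f1 ⊢
      rw [f1] at f0
      nlinarith [mul_nonneg (hz (i, 3)).1 (sub_nonneg.2 (hw (i + 1, 0)).2)]
    · simp [zd, ow, A, B, hi, hi.le, n1, n2, n3, g5] at e2 e3 e4 f1 ⊢
      rw [e3, e4] at e2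
      nlinarith [mul_nonneg (hz (i, 2)).1 (sub_nonneg.2 (hw (i + 1, 1)).2)]

theorem stepT {n : ℕ} {z w : Pt → ℝ} (H : Harm n (zd n z (n, false)) w)
    (h0 : w (n, 5) = 0) (h5 : w (n + 1, 5) = 1) (h6 : w (n + 1, 0) < 1) (p0 : 0 < z (n + 1, 0)) :
    z (n, 0) * z (n, 1) ≠ 0 := by
  intro h
  have mp := att H le_rfl h0
  have e2 := H n (by omega) 2 (by decide) (by decide)
  have e3 := H n (by omega) 3 (by decide) (by decide)
  have f0 := H (n + 1) (by omega) 0 (by decide) (by decide)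
  have f1 := H (n + 1) (by omega) 1 (by decide) (by decide)
  have f2 := H (n + 1) (by omega) 2 (by decide) (by decide)
  have f4 := H (n + 1) (by omega) 4 (by decide) (by decide)
  simp [zd, ow, A, B, h5] at e2 e3 f0 f1 f2 f4
  rw [h] at mp
  have : w (n + 1, 2) = w (n + 1, 0) := by linarith
  rw [this, f1] at f0
  nlinarith

theorem tiny {n : ℕ} {z : Pt → ℝ} (hn : 1 ≤ n) (hz : ∀ p, 0 ≤ z p ∧ z p ≤ 1)
    (h0 : z (0, 0) = 1 / 2) (h1 : z (0, 1) = 1 / 2) (p0 : 0 < z (n + 1, 0))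
    (hT : z (n, 0) * z (n, 1) ≠ 0)
    (hD : ∀ i < n, (∀ j, i < j → j ≤ n + 1 → 0 < z (j, 0)) → (∀ j, i < j → j ≤ n → 0 < z (j, 1)) →
      ∀ b : Bool, z (i + 1, if b then 1 else 0) ≤ z (i, 0) * z (i, 1)) :
    0 < z (n, 0) ∧ z (n, 0) ≤ 1 / 2 ^ 2 ^ n := by
  have pos : ∀ j, z (j, 0) * z (j, 1) ≠ 0 → 0 < z (j, 0) ∧ 0 < z (j, 1) := fun j h =>
    ⟨(hz _).1.lt_of_ne' (left_ne_zero_of_mul h), (hz _).1.lt_of_ne' (right_ne_zero_of_mul h)⟩
  have down : ∀ d, ∀ j ≤ n, n ≤ j + d → 0 < z (j, 0) ∧ 0 < z (j, 1) := by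
    intro d
    induction d with
    | zero => intro j a b; obtain rfl : j = n := by omega
              exact pos _ hT
    | succ d ih =>
      intro j a b
      by_cases e : n ≤ j + d
      · exact ih j a e
      refine pos j (ne_of_gt ((ih (j + 1) (by omega) (by omega)).1.trans_le
        (hD j (by omega) (fun l x y => ?_) (fun l x y => (ih l y (by omega)).2) false)))
      by_cases k : l = n + 1
      · rwa [k]
      · exact (ih l (by omega) (by omega)).1
  have hD' : ∀ i < n, ∀ b : Bool, z (i + 1, if b then 1 else 0) ≤ z (i, 0) * z (i, 1) :=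
    fun i hi => hD i hi (fun l x y => by
      by_cases k : l = n + 1
      · rwa [k]
      · exact (down n l (by omega) (by omega)).1) fun l x y => (down n l y (by omega)).2
  have up : ∀ i ≤ n, z (i, 0) * z (i, 1) ≤ 1 / 2 ^ 2 ^ (i + 1) := by
    intro i
    induction i with
    | zero => intro _; rw [h0, h1]; norm_num
    | succ i ih =>
      intro hi
      have a := (hD' i hi false).trans (ih (by omega))
      have b := (hD' i hi true).trans (ih (by omega))
      refine (mul_le_mul a b (hz _).1 (by positivity)).trans_eq ?_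
      rw [pow_succ 2 (i + 1), pow_mul]; ring
  obtain ⟨m, rfl⟩ : ∃ m, n = m + 1 := ⟨n - 1, by omega⟩
  exact ⟨(pos _ hT).1, (hD' m (by omega) false).trans (up m (by omega))⟩

end Pool.Agent.H25.SG
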