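import Pool.Agent.H25.SG2

set_option autoImplicit false

namespace Pool.Agent.H25.SG
open scoped Classical
open Finset

abbrev VV (n : ℕ) := Option (Fin (n + 2) × Fin 9)
abbrev PP (n : ℕ) := Fin (n + 2) × Bool

def lv (n j : ℕ) : Fin (n + 2) := ⟨min j (n + 1), by omega⟩
def tv (n : ℕ) (p : Pt) : VV n := some (lv n p.1, p.2)
def K (n : ℕ) : ℕ := 16 * (8 * n + 1)

noncomputable def prN (n : ℕ) : VV n → VV n → ℕ
  | none, none => 0
  | none, some w => if w.2 = 0 ∧ w.1.val = n + 1 then 16 else if w.2 = 6 ∧ w.1.val < n then 128 else 0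
  | some v, w => (if w = tv n (A n (v.1, v.2)) then 8 * (8 * n + 1) else 0) +
      if w = tv n (B n (v.1, v.2)) then 8 * (8 * n + 1) else 0

def rwN (n : ℕ) : VV n → PP n → ℕ
  | none, _ => 0
  | some v, i => if v.2 = 5 ∧ i.1 < v.1 then K n else if v.2 = 8 ∧ i.1 = v.1 then 4 * (8 * n + 1) else 0

noncomputable def gm (n : ℕ) : Game (VV n) (PP n) where
  term v := ∃ p, v = some p ∧ (p.2 = 5 ∨ p.2 = 8)
  own v := v.bind fun p => (ow n (p.1, p.2)).map fun q => (lv n q.1, q.2)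
  edge v w := match v with
    | none => prN n none w ≠ 0
    | some p => w = tv n (A n (p.1, p.2)) ∨ w = tv n (B n (p.1, p.2))
  pr v w := prN n v w / K n
  rew v i := rwN n v i / K n
  init := none

variable {n : ℕ}

theorem lv_val {j : ℕ} (h : j ≤ n + 1) : (lv n j).val = j := min_eq_left h
theorem lv_fin (j : Fin (n + 2)) : lv n j = j := Fin.ext (lv_val (by omega))
theorem tv_fin (p : Fin (n + 2) × Fin 9) : tv n (p.1, p.2) = some p := by simp [tv, lv_fin]

theorem term_tv (p : Pt) : (gm n).term (tv n p) ↔ p.2 = 5 ∨ p.2 = 8 := by simp [gm, tv]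
theorem term_none : ¬ (gm n).term none := by simp [gm]

theorem ow_le {j : ℕ} (h : j ≤ n + 1) (c : Fin 9) (q : ℕ × Bool) (e : ow n (j, c) = some q) :
    q.1 ≤ n + 1 := by
  fin_cases c <;> simp [ow] at e <;> (try obtain ⟨_, e⟩ := e) <;> (try subst e) <;> simp <;> omega

theorem own_tv {j : ℕ} (h : j ≤ n + 1) (c : Fin 9) :
    (gm n).own (tv n (j, c)) = (ow n (j, c)).map fun q => (lv n q.1, q.2) := by
  simp [gm, tv, lv_val h]

theorem own_iff {j i : ℕ} (h : j ≤ n + 1) (hi : i ≤ n + 1) (c : Fin 9) (b : Bool) :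
    (gm n).own (tv n (j, c)) = some (lv n i, b) ↔ ow n (j, c) = some (i, b) := by
  rw [own_tv h]
  refine ⟨fun e => ?_, fun e => by simp [e]⟩
  obtain ⟨q, e1, e2⟩ := Option.map_eq_some_iff.1 e
  have := ow_le h c q e1
  have e3 := congrArg (fun x => x.1.val) e2
  simp only [lv_val this, lv_val hi] at e3
  have e4 : q.2 = b := (Prod.ext_iff.1 e2).2
  rw [e1, ← e3, ← e4]

theorem edge_tv {j : ℕ} (h : j ≤ n + 1) (c : Fin 9) (w : VV n) :
    (gm n).edge (tv n (j, c)) w ↔ w = tv n (A n (j, c)) ∨ w = tv n (B n (j, c)) := by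
  simp [gm, tv, lv_val h]

theorem AB_le {j : ℕ} (h : j ≤ n + 1) (c : Fin 9) :
    (A n (j, c)).1 ≤ n + 1 ∧ (B n (j, c)).1 ≤ n + 1 := by
  fin_cases c <;> simp [A, B] <;> (try split_ifs) <;> (try dsimp only) <;> omega

theorem cas (Q : VV n → Prop) (h0 : Q none) (h : ∀ j ≤ n + 1, ∀ c, Q (tv n (j, c))) (v : VV n) :
    Q v := by
  cases v with
  | none => exact h0
  | some p => rw [← tv_fin]; exact h _ (by omega) _

theorem init_sum (f : VV n → ℝ) : ∑ w, ((gm n).pr none w : ℝ) * f w =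
    (f (tv n (n + 1, 0)) + 8 * ∑ j ∈ range n, f (tv n (j, 6))) / (8 * n + 1) := by
  have e : ∀ j : Fin (n + 2), ∑ c, ((gm n).pr none (some (j, c)) : ℝ) * f (some (j, c)) =
      (fun j : ℕ => ((if j = n + 1 then f (tv n (j, 0)) else 0) +
        if j < n then 8 * f (tv n (j, 6)) else 0) / (8 * n + 1)) j := by
    intro j
    have h1 := tv_fin (j, 0)
    have h2 := tv_fin (j, 6)
    simp only at h1 h2
    simp only [h1, h2, Fin.sum_univ_succ]
    simp [gm, prN, K]
    split_ifs <;> push_cast <;> field_simp <;> ring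
  rw [Fintype.sum_option, Fintype.sum_prod_type]
  simp only [e]
  rw [Fin.sum_univ_eq_sum_range (fun j : ℕ => ((if j = n + 1 then f (tv n (j, 0)) else 0) +
        if j < n then 8 * f (tv n (j, 6)) else 0) / (8 * n + 1)), ← sum_div, sum_range_succ,
    sum_range_succ, sum_congr rfl (g := fun j => 8 * f (tv n (j, 6))) fun j hj => by
      have := mem_range.1 hj
      simp [this, show j ≠ n + 1 by omega], ← mul_sum]
  simp [gm, prN, add_comm]

noncomputable def T2 (n : ℕ) (z : Pt → ℝ) : VV n → VV n → ℝ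
  | none, _ => 0
  | some v, w => (if w = tv n (A n (v.1, v.2)) then 1 - z (v.1, v.2) else 0) +
      if w = tv n (B n (v.1, v.2)) then z (v.1, v.2) else 0

theorem T2_sum (z : Pt → ℝ) {j : ℕ} (h : j ≤ n + 1) (c : Fin 9) (f : VV n → ℝ) :
    ∑ w, T2 n z (tv n (j, c)) w * f w =
      (1 - z (j, c)) * f (tv n (A n (j, c))) + z (j, c) * f (tv n (B n (j, c))) := by
  have : ∀ w, T2 n z (tv n (j, c)) w = (if w = tv n (A n (j, c)) then 1 - z (j, c) else 0) +
      if w = tv n (B n (j, c)) then z (j, c) else 0 := fun w => by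
    rw [tv, T2]; simp only [lv_val h]
  simp [this, add_mul, sum_add_distrib]

theorem T2_dist (z : Pt → ℝ) (hz : ∀ p, 0 ≤ z p ∧ z p ≤ 1) {j : ℕ} (h : j ≤ n + 1) (c : Fin 9) :
    Dist (gm n) (tv n (j, c)) (T2 n z (tv n (j, c))) := by
  refine ⟨fun w => ?_, by simpa using T2_sum z h c fun _ => 1, fun w hw => ?_⟩
  · have := hz (j, c)
    rw [tv, T2]; simp only [lv_val h]; split_ifs <;> linarith
  · rw [edge_tv h]
    by_contra k
    push Not at k
    apply hw
    rw [tv, T2]; simp [lv_val h, k.1, k.2]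

theorem pr_T2 {j : ℕ} (c : Fin 9) (w : VV n) :
    ((gm n).pr (tv n (j, c)) w : ℝ) = T2 n (fun _ => 1 / 2) (tv n (j, c)) w := by
  simp only [gm, tv, prN, T2, K]
  split_ifs <;> push_cast <;> field_simp <;> ring

theorem Kpos : 0 < K n := by unfold K; omega

theorem rw_le (v : VV n) (i : PP n) : rwN n v i ≤ K n := by
  cases v <;> simp only [rwN, K] <;> (try split_ifs) <;> omega

theorem pr_le (hn : 1 ≤ n) (v w : VV n) : prN n v w ≤ K n := by
  cases v <;> cases w <;> simp only [prN, K] <;> (try split_ifs) <;> omega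

theorem valid : Valid (gm n) := by
  have h1 : ∀ v, ¬ (gm n).term v → Dist (gm n) v fun w => (gm n).pr v w := by
    refine cas _ (fun _ => ⟨fun w => by simp only [gm]; positivity, ?_, fun w hw => ?_⟩)
      fun j hj c _ => ?_
    · have := init_sum (n := n) fun _ => 1
      simp only [mul_one, sum_const, card_range, nsmul_eq_mul] at this
      rw [this]; field_simp; ring
    · intro e; apply hw; simp [gm, e]
    · simp only [pr_T2]; exact T2_dist _ (fun _ => by norm_num) hj c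
  refine ⟨fun v hv _ => h1 v hv, fun v hv => ?_, fun v i => ⟨by simp only [gm]; positivity, ?_⟩⟩
  · by_contra k
    push Not at k
    have := (h1 v hv).2.1
    rw [sum_eq_zero fun w _ => by_contra fun e => k w ((h1 v hv).2.2 w e)] at this
    simp at this
  · exact (div_le_one (by exact_mod_cast Kpos)).2 (by exact_mod_cast rw_le v i)

noncomputable def rr (i : ℕ) (p : Pt) : ℝ :=
  if p.2 = 5 ∧ i < p.1 then 1 else if p.2 = 8 ∧ i = p.1 then 1 / 4 else 0

theorem rew_tv {j i : ℕ} (h : j ≤ n + 1) (hi : i ≤ n + 1) (c : Fin 9) (b : Bool) :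
    ((gm n).rew (tv n (j, c)) (lv n i, b) : ℝ) = rr i (j, c) := by
  simp only [gm, tv, rwN, rr, Fin.lt_def, Fin.ext_iff (a := lv n i), lv_val h, lv_val hi, K]
  split_ifs <;> push_cast <;> field_simp <;> norm_num

def Rep (n : ℕ) (Q : VV n → VV n → ℝ) (z : Pt → ℝ) : Prop :=
  ∀ j ≤ n + 1, ∀ c, c ≠ 5 → c ≠ 8 → ∀ f : VV n → ℝ, ∑ w, Q (tv n (j, c)) w * f w =
    (1 - z (j, c)) * f (tv n (A n (j, c))) + z (j, c) * f (tv n (B n (j, c)))

theorem harmG (Q : VV n → VV n → ℝ) (z : Pt → ℝ) {i : ℕ} (hi : i ≤ n + 1) (b : Bool)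
    (hQ : ∀ v, ¬ (gm n).term v → Dist (gm n) v (Q v)) (h0 : ∀ w, Q none w = (gm n).pr none w)
    (hR : Rep n Q z) : ∃ w : Pt → ℝ, pay (gm n) (fun _ => Q) (lv n i, b) =
      (w (n + 1, 0) + 8 * ∑ j ∈ range n, w (j, 6)) / (8 * n + 1) ∧ (∀ p, 0 ≤ w p ∧ w p ≤ 1) ∧
      (∀ j ≤ n + 1, w (j, 5) = rr i (j, 5) ∧ w (j, 8) = rr i (j, 8)) ∧ Harm n z w := by
  obtain ⟨W, h1, h2, h3, h4⟩ := harm Q (lv n i, b) (fun v => valid.2.2 v _) hQ
  refine ⟨fun p => W (tv n p), ?_, fun p => h2 _, fun j hj => ⟨?_, ?_⟩, fun j hj c a d => ?_⟩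
  · rw [h1, ← init_sum]
    have := h4 none term_none
    simp only [h0] at this
    exact this
  · simp only; rw [h3 _ (by simp [term_tv]), rew_tv hj hi]
  · simp only; rw [h3 _ (by simp [term_tv]), rew_tv hj hi]
  · simp only; rw [h4 _ (by simp [term_tv, a, d]), hR j hj c a d]

theorem move_dist {σ : VV n → VV n → ℝ}
    (h : ∀ v i, ¬ (gm n).term v → (gm n).own v = some i → Dist (gm n) v (σ v)) (l : List (VV n))
    (v : VV n) (hv : ¬ (gm n).term v) : Dist (gm n) v (move (gm n) σ l v) := by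
  unfold move
  cases e : (gm n).own v with
  | none => simpa using valid.1 v hv e
  | some i => simpa using h v i hv e

end Pool.Agent.H25.SG
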