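import Pool.Agent.H25.SG3

set_option autoImplicit false

namespace Pool.Agent.H25.SG
open scoped Classical
open Finset

variable {n : ℕ}

theorem superG (T : List (VV n) → VV n → VV n → ℝ) {i : ℕ} (hi : i ≤ n + 1) (b : Bool)
    (U : Pt → ℝ) (h0 : ∀ p, 0 ≤ U p) (h5 : ∀ j, rr i (j, 5) ≤ U (j, 5) ∧ rr i (j, 8) ≤ U (j, 8))
    (hT : ∀ l v, ¬ (gm n).term v → Dist (gm n) v (T l v))
    (h1 : ∀ l w, T l none w = (gm n).pr none w)
    (h : ∀ l, ∀ j ≤ n + 1, ∀ c, c ≠ 5 → c ≠ 8 → ∃ x : ℝ, (∀ f : VV n → ℝ,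
      ∑ w, T l (tv n (j, c)) w * f w = (1 - x) * f (tv n (A n (j, c))) + x * f (tv n (B n (j, c)))) ∧
      (1 - x) * U (A n (j, c)) + x * U (B n (j, c)) ≤ U (j, c)) :
    pay (gm n) T (lv n i, b) ≤ (U (n + 1, 0) + 8 * ∑ j ∈ range n, U (j, 6)) / (8 * n + 1) := by
  let F : VV n → ℝ := fun v => v.elim ((U (n + 1, 0) + 8 * ∑ j ∈ range n, U (j, 6)) / (8 * n + 1))
    fun p => U (p.1, p.2)
  have hF : ∀ p : Pt, p.1 ≤ n + 1 → F (tv n p) = U p := fun p hp => by simp [F, tv, lv_val hp]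
  refine pay_le T _ F (fun v => ?_) (fun l v hv => (hT l v hv).1) (cas _ (fun k => absurd k term_none)
    fun j hj c k => ?_) fun l => cas _ (fun _ => ?_) fun j hj c k => ?_
  · cases v
    · exact div_nonneg (add_nonneg (h0 _) (mul_nonneg (by norm_num) (sum_nonneg fun _ _ => h0 _)))
        (by positivity)
    · exact h0 _
  · rw [rew_tv hj hi, hF _ hj]
    rcases (term_tv _).1 k with e | e <;> simp only at e <;> rw [e]
    exacts [(h5 j).1, (h5 j).2]
  · simp only [h1, init_sum]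
    rw [hF _ le_rfl, sum_congr rfl fun j hj => hF (j, 6) (by have := mem_range.1 hj; simp; omega)]
    rfl
  · rw [term_tv, not_or] at k
    obtain ⟨x, e1, e2⟩ := h l j hj c k.1 k.2
    rwa [e1, hF _ (AB_le hj c).1, hF _ (AB_le hj c).2, hF _ hj]

def xx (n : ℕ) (i : PP n) : ℚ := ((if i.1.val = n then 8 else 0 : ℕ) : ℚ) / K n
def yy (n : ℕ) (i : PP n) : ℚ := ((if i.1.val = n then 12 else 48 : ℕ) : ℚ) / K n
def ee (n : ℕ) : ℚ := ((1 : ℕ) : ℚ) / K n

noncomputable def U0 (n : ℕ) (p : Pt) : ℝ :=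
  if (p.1 = n + 1 ∧ (p.2 = 1 ∨ p.2 = 5)) ∨ (p.1 = n ∧ 6 ≤ p.2) ∨ n + 1 < p.1 then 1 else 0

theorem U0_rr (j : ℕ) : rr n (j, 5) ≤ U0 n (j, 5) ∧ rr n (j, 8) ≤ U0 n (j, 8) := by
  simp only [rr, U0]
  constructor <;> split_ifs <;> simp_all <;> first | omega | norm_num

theorem U0_sup {j : ℕ} (hj : j ≤ n + 1) (c : Fin 9) {x : ℝ} (hx : 0 ≤ x ∧ x ≤ 1)
    (h : j = n + 1 → c = 0 → x = 0) :
    (1 - x) * U0 n (A n (j, c)) + x * U0 n (B n (j, c)) ≤ U0 n (j, c) := by
  by_cases e : j = n + 1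
  · subst e
    fin_cases c <;> simp_all [A, B, U0]
  · have e2 : ¬ n + 1 < j := by omega
    have e4 : ¬ n + 1 < j - 1 := by omega
    have e5 : j ≤ n := by omega
    by_cases e' : j = n
    · subst e'
      by_cases k : j = 0 <;> fin_cases c <;> simp [A, B, U0, e4, k]
    · have e1 : j < n := by omega
      have e3 : ¬ n < j := by omega
      by_cases k : j = 0
      · subst k
        fin_cases c <;> simp [A, B, U0, e1, e1.ne, e1.ne']
      · fin_cases c <;> simp [A, B, U0, e, e', e1, e2, e3, e4, e5, k]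

theorem low (hn : 1 ≤ n) (σ : VV n → VV n → ℝ) (h : NE (gm n) (ee n) σ)
    (hc : Sat (gm n) (xx n) (yy n) (ee n) σ) : ∃ v i w, ¬ (gm n).term v ∧ (gm n).own v = some i ∧
      0 < σ v w ∧ σ v w ≤ 1 / 2 ^ 2 ^ n := by
  set Q := move (gm n) σ [] with hQd
  have hQ : ∀ v, ¬ (gm n).term v → Dist (gm n) v (Q v) := move_dist h.1 []
  have hQ0 : ∀ w, Q none w = (gm n).pr none w := fun w => by simp [Q, move, gm]
  let z : Pt → ℝ := fun p => if p.2 = 5 ∨ p.2 = 8 then 0 else Q (tv n p) (tv n (B n p))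
  have hz : ∀ p, 0 ≤ z p ∧ z p ≤ 1 := fun p => by
    simp only [z]; split_ifs with k
    · norm_num
    · have := hQ _ (mt (term_tv p).1 k)
      exact ⟨this.1 _, this.le_one _⟩
  have hR : Rep n Q z := fun j hj c a d f => by
    rw [two (hQ _ (by simp [term_tv, a, d])) (fun w => (edge_tv hj c w).1)]
    simp [z, a, d]
  have M : (0 : ℝ) < 8 * n + 1 := by positivity
  have dv : ∀ i ≤ n, ∀ b, ∃ w : Pt → ℝ, w (n + 1, 0) + 8 * ∑ j ∈ range n, w (j, 6) ≤
      (if i = n then 14 else 50) / 16 ∧ (∀ p, 0 ≤ w p ∧ w p ≤ 1) ∧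
      (∀ j ≤ n + 1, w (j, 5) = rr i (j, 5)) ∧ Harm n (zd n z (i, b)) w := by
    intro i hi b
    have hi' : i ≤ n + 1 := by omega
    let τ := T2 n fun p => if p = (n + 1, 2) then 0 else 1
    have hτ : ∀ v, ¬ (gm n).term v → (gm n).own v = some (lv n i, b) → Dist (gm n) v (τ v) :=
      cas _ (fun _ k => by simp [gm] at k) fun j hj c _ _ =>
        T2_dist _ (fun p => by split_ifs <;> norm_num) hj c
    obtain ⟨w, e1, e2, e3, e4⟩ := harmG (dev (gm n) σ (lv n i, b) (fun _ => τ) []) (zd n z (i, b))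
      hi' b (fun v hv => by
        unfold dev
        by_cases k : (gm n).own v = some (lv n i, b)
        · simpa [k] using hτ v hv k
        · simpa [k] using hQ v hv) (fun w => by simp [dev, move, gm]) fun j hj c a d f => by
        simp only [dev, zd, own_iff hj hi']
        split_ifs with k1 k2
        · simpa [τ, k2] using T2_sum (fun p => if p = (n + 1, 2) then 0 else 1) hj c f
        · simpa [τ, k2] using T2_sum (fun p => if p = (n + 1, 2) then 0 else 1) hj c f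
        · exact hR j hj c a d f
    refine ⟨w, ?_, e2, fun j hj => (e3 j hj).1, e4⟩
    have a1 := h.2 (lv n i, b) (fun _ => τ) fun _ => hτ
    have a2 := (hc (lv n i, b)).2
    have a3 : (w (n + 1, 0) + 8 * ∑ j ∈ range n, w (j, 6)) / (8 * n + 1) ≤
        (yy n (lv n i, b) : ℝ) + ee n + ee n := by
      rw [← e1]; exact a1.trans (by linarith)
    rw [div_le_iff₀ M] at a3
    refine a3.trans_eq ?_
    simp only [yy, ee, K, lv_val hi']
    split_ifs <;> push_cast <;> field_simp <;> norm_num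
  have q0 : 0 < z (n + 1, 0) := by
    refine (hz _).1.lt_of_ne' fun k => ?_
    have a1 := superG (move (gm n) σ) (i := n) (by omega) false (U0 n)
      (fun p => by unfold U0; split_ifs <;> norm_num) U0_rr
      (move_dist h.1) (fun _ => hQ0) fun l j hj c a d => ⟨z (j, c), hR j hj c a d,
        U0_sup hj c (hz _) fun e1 e2 => by rw [e1, e2, k]⟩
    have a2 := (hc (lv n n, false)).1
    rw [sum_eq_zero fun j hj => by have := mem_range.1 hj; simp [U0]; omega] at a1
    simp only [xx, ee, K, lv_val (Nat.le_succ n)] at a2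
    simp [U0] at a1 a2
    have : (8 * n + 1 : ℝ)⁻¹ * 16⁻¹ < 8 / (16 * (8 * n + 1)) := by
      rw [← sub_pos]; field_simp; norm_num
    linarith
  have h01 : ∀ c : Fin 9, c = 0 ∨ c = 1 → z (0, c) = 1 / 2 := by
    rintro c (rfl | rfl) <;>
      simp [z, Q, move, own_tv (Nat.zero_le _), ow, pr_T2] <;>
      simp [T2, tv, A, B, lv]
  have sn : ∀ w : Pt → ℝ, (∀ p, 0 ≤ w p ∧ w p ≤ 1) → 0 ≤ ∑ j ∈ range n, w (j, 6) :=
    fun w hw => sum_nonneg fun _ _ => (hw _).1
  obtain ⟨t1, t2⟩ := tiny hn hz (h01 0 (by simp)) (h01 1 (by simp)) q0 (by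
      obtain ⟨w, e1, e2, e3, e4⟩ := dv n le_rfl false
      refine stepT e4 (by simp [e3, rr]) (by simp [e3, rr]) ?_ q0
      have := sn w e2
      simp at e1; linarith) fun i hi p0 p1 b => by
    obtain ⟨w, e1, e2, e3, e4⟩ := dv i hi.le b
    refine stepD e4 hi hz e2 (by rw [e3 i (by omega)]; simp [rr])
      (fun j x y => by rw [e3 j y]; simp [rr, x]) ?_ p0 p1
    have := single_le_sum (f := fun j => w (j, 6)) (fun _ _ => (e2 _).1) (mem_range.2 hi)
    have := (e2 (n + 1, 0)).1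
    rw [if_neg hi.ne] at e1
    linarith
  have o : (gm n).own (tv n (n, 0)) = some (lv n (n + 1), true) := by
    rw [own_iff (by omega) le_rfl]; simp [ow]; omega
  refine ⟨tv n (n, 0), _, tv n (B n (n, 0)), by simp [term_tv], o, ?_⟩
  simpa [z, Q, move, o] using And.intro t1 t2

end Pool.Agent.H25.SG
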