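import Pool.Agent.H25.SG4

set_option autoImplicit false

namespace Pool.Agent.H25.SG
open scoped Classical
open Finset

variable {n : ℕ}

noncomputable def al : ℕ → ℝ
  | 0 => 1 / 2
  | j + 1 => al j ^ 2 / 4

theorem al_bd (j : ℕ) : 0 < al j ∧ al j ≤ 1 / 2 := by
  induction j with
  | zero => norm_num [al]
  | succ j ih => rw [al]; exact ⟨by have := ih.1; positivity, by nlinarith⟩

noncomputable def z0 (n : ℕ) (p : Pt) : ℝ :=
  ![al p.1, al p.1, if p.1 = n + 1 then 1 else 0, if p.1 = n + 1 then al (n + 1) else 0,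
    0, 0, 0, 0, 0] p.2

theorem z0_bd (p : Pt) : 0 ≤ z0 n p ∧ z0 n p ≤ 1 := by
  obtain ⟨j, c⟩ := p
  have := al_bd j
  have := al_bd (n + 1)
  fin_cases c <;> simp [z0] <;> (try split_ifs) <;> (try constructor) <;> linarith

noncomputable def cc (n i : ℕ) : ℝ :=
  if i = n then 1 / (2 - al (n + 1)) else if i < n then 1 / 4 else 0

theorem cc_bd (n i : ℕ) : 0 ≤ cc n i ∧ cc n i ≤ 2 / 3 := by
  have := al_bd (n + 1)
  unfold cc; split_ifs
  · exact ⟨div_nonneg zero_le_one (by linarith), by rw [div_le_iff₀ (by linarith)]; linarith⟩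
  all_goals norm_num

noncomputable def lad (i j : ℕ) (a b : ℝ) : ℝ :=
  if j < i then 0 else if j = i then a else if j = i + 1 then b else 1

noncomputable def UU (n i : ℕ) (b : Bool) (p : Pt) : ℝ :=
  ![lad i p.1 ((1 - al i ^ 2) * cc n i) (cc n i),
    lad i p.1 ((1 - al i) * cc n i) (if b = true ∧ i < n then cc n i else 1),
    lad i p.1 (cc n i) (if i < n then (1 - al i ^ 2) * cc n i else (1 - al (n + 1)) * cc n i),
    if n < i then 0 else if p.1 = i ∧ b = false then cc n i else
      if p.1 = i + 1 ∧ i = n then (1 - al (n + 1)) * cc n i else 1,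
    lad i p.1 (cc n i) ((1 - al i ^ 2) * cc n i), rr i (p.1, 5), rr i (p.1, 8), rr i (p.1, 8),
    rr i (p.1, 8)] p.2

theorem UU_bd (i : ℕ) (b : Bool) (p : Pt) : 0 ≤ UU n i b p ∧ UU n i b p ≤ 1 := by
  obtain ⟨j, c⟩ := p
  obtain ⟨a1, a2⟩ := al_bd i
  obtain ⟨a3, a4⟩ := al_bd (n + 1)
  obtain ⟨a5, a6⟩ := cc_bd n i
  have k : ∀ x : ℝ, 0 ≤ x → x ≤ 1 → 0 ≤ (1 - x) * cc n i ∧ (1 - x) * cc n i ≤ 1 := fun x a b =>
    ⟨mul_nonneg (by linarith) a5, by nlinarith⟩
  have k1 := k (al i ^ 2) (by positivity) (by nlinarith)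
  have k2 := k (al i) a1.le (by linarith)
  have k3 := k (al (n + 1)) a3.le (by linarith)
  have k4 : 0 ≤ cc n i ∧ cc n i ≤ 1 := ⟨a5, by linarith⟩
  fin_cases c <;> simp only [UU, lad, rr, Matrix.cons_val, Fin.reduceFinMk, Fin.zero_eta, Fin.mk_one] <;>
    split_ifs <;> first | assumption | norm_num

def Sup (n i : ℕ) (b : Bool) (p : Pt) : Prop :=
  if ow n p = some (i, b) then UU n i b (A n p) ≤ UU n i b p ∧ UU n i b (B n p) ≤ UU n i b p
  else (1 - z0 n p) * UU n i b (A n p) + z0 n p * UU n i b (B n p) ≤ UU n i b p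

theorem sup1 {i : ℕ} {b : Bool} {p : Pt} (h : UU n i b p = 1) : Sup n i b p := by
  have h1 := UU_bd (n := n) i b (A n p)
  have h2 := UU_bd (n := n) i b (B n p)
  have h3 := z0_bd (n := n) p
  unfold Sup; rw [h]; split_ifs
  · exact ⟨h1.2, h2.2⟩
  · nlinarith [mul_nonneg h3.1 (sub_nonneg.2 h2.2), mul_nonneg (sub_nonneg.2 h3.2) (sub_nonneg.2 h1.2)]

theorem sup67 {i j : ℕ} (b : Bool) (c : Fin 9) (hc : c = 6 ∨ c = 7) : Sup n i b (j, c) := by
  by_cases e : j = i
  · subst e
    by_cases k : j < n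
    · rcases hc with rfl | rfl <;> cases b <;> simp [Sup, ow, A, B, UU, z0, k, lad, cc, rr, k.ne]
    · rcases hc with rfl | rfl <;> cases b <;> simp [Sup, ow, A, B, UU, z0, k]
  · rcases hc with rfl | rfl <;> simp [Sup, ow, A, B, UU, z0, e]

theorem supLo {i j : ℕ} (hi : i ≤ n + 1) (h : j < i) (b : Bool) (c : Fin 9) (hc : c ≤ 4) :
    Sup n i b (j, c) := by
  have e1 : j ≠ i := by omega
  have e2 : j ≤ n := by omega
  have e3 : j ≠ n + 1 := by omega
  have e4 : ¬ i < j := by omega
  have e5 : j - 1 < i := by omega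
  have e6 : j - 1 ≠ i := by omega
  have e7 : j ≠ i + 1 := by omega
  fin_cases c
  · simp [Sup, A, B, UU, lad, h]
  · simp [Sup, A, B, UU, lad, h, e2, rr, e4]
  · simp [Sup, ow, A, B, UU, lad, h, z0, e1, e2, e3]
  · by_cases k : n < i
    · obtain rfl : i = n + 1 := by omega
      have : min (j + 1) (n + 1) = j + 1 := by omega
      by_cases k : j < n
      · simp [Sup, ow, A, UU, lad, z0, e3, this, k]
      · simp [Sup, ow, A, UU, lad, z0, e3, cc, this, k, show j = n by omega]
    · exact sup1 (by simp [UU, k, e1, e7])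
  · by_cases k : j = 0
    · subst k; simp [Sup, ow, A, B, UU, lad, h, z0, e1, rr]
    · simp [Sup, ow, A, B, UU, lad, h, z0, e1, k, e5]
  all_goals exact absurd hc (by decide)

theorem supEq {i : ℕ} (hi : i ≤ n + 1) (b : Bool) (c : Fin 9) (hc : c ≤ 4) : Sup n i b (i, c) := by
  obtain ⟨a5, a6⟩ := cc_bd n i
  by_cases k : i = n + 1
  · subst k
    have : cc n (n + 1) = 0 := by simp [cc]
    fin_cases c <;> first | exact absurd hc (by decide) | simp [Sup, A, B, UU, lad, this, rr]
  have e1 : i ≤ n := by omega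
  have e2 : ¬ n < i := by omega
  have e3 : n + 1 ≠ i := by omega
  have e4 : min (i + 1) (n + 1) = i + 1 := by omega
  fin_cases c
  · simp [Sup, ow, A, B, UU, lad, z0, e3]; nlinarith
  · have : ¬ (i ≠ 0 ∧ i - 1 = i) := by omega
    have : ow n (i, 1) ≠ some (i, b) := by simp [ow]; omega
    simp [Sup, this, A, B, UU, lad, z0, e1, rr]
  · cases b <;> simp [Sup, ow, A, B, UU, lad, z0, e1, e2, k]
  · cases b
    · simp [Sup, ow, A, B, UU, lad, z0, e2, k, e4]
    · exact sup1 (by simp [UU, e2])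
  · have e : UU n i b (A n (i, 4)) = 0 := by
      by_cases z : i = 0
      · simp [A, z, UU, rr]
      · have : i - 1 < i := by omega
        simp [A, z, UU, lad, this]
    cases b
    · simp [Sup, ow, e, z0]; simpa [UU, lad] using a5
    · by_cases z : i < n
      · have e' : UU n i true (B n (i, 4)) = cc n i := by simp [B, UU, lad, z]
        simp [Sup, ow, e, e']; simpa [UU, lad] using a5
      · simp [Sup, ow, e, B, z]; simpa [UU, lad, z] using a5
  all_goals exact absurd hc (by decide)

theorem supUp {i : ℕ} (hi : i ≤ n) (b : Bool) (c : Fin 9) (hc : c ≤ 4) : Sup n i b (i + 1, c) := by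
  obtain ⟨a1, a2⟩ := al_bd i
  obtain ⟨a3, a4⟩ := al_bd (i + 1)
  obtain ⟨a5, a6⟩ := cc_bd n i
  have a7 : al (i + 1) = al i ^ 2 / 4 := rfl
  have e2 : ¬ n < i := by omega
  have e3 : n + 1 ≠ i := by omega
  rcases hi.eq_or_lt with rfl | k
  · have : cc i i * (2 - al (i + 1)) = 1 := by
      simp only [cc, if_true]; field_simp [show 2 - al (i + 1) ≠ 0 by linarith]
    fin_cases c
    · simp [Sup, ow, A, B, UU, lad, z0]; nlinarith
    · exact sup1 (by simp [UU, lad])
    · cases b <;> simp [Sup, ow, A, B, UU, lad, z0]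
      exact mul_le_mul_of_nonneg_right (by nlinarith) a5
    · simp [Sup, ow, A, B, UU, lad, z0, rr]
    · simp [Sup, ow, A, B, UU, lad, z0]
    all_goals exact absurd hc (by decide)
  · have e4 : i + 1 ≤ n := k
    have e5 : cc n i = 1 / 4 := by simp [cc, k, k.ne]
    have a8 : 0 ≤ al (i + 1) * (1 - al i ^ 2) := mul_nonneg a3.le (by nlinarith)
    fin_cases c
    · cases b <;> simp [Sup, ow, A, B, UU, lad, z0, e3, k, e5] <;> nlinarith
    · cases b
      · exact sup1 (by simp [UU, lad])
      · simp [Sup, ow, A, B, UU, lad, z0, k, e4, e5, rr]; nlinarith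
    · simp [Sup, ow, A, B, UU, lad, z0, k, e4, k.ne]
    · exact sup1 (by simp [UU, e2, k.ne])
    · simp [Sup, ow, A, B, UU, lad, z0]
    all_goals exact absurd hc (by decide)

theorem sup {i j : ℕ} (hi : i ≤ n + 1) (hj : j ≤ n + 1) (b : Bool) (c : Fin 9) (h5 : c ≠ 5)
    (h8 : c ≠ 8) : Sup n i b (j, c) := by
  by_cases hc : c ≤ 4
  · rcases lt_trichotomy j i with h | rfl | h
    · exact supLo hi h b c hc
    · exact supEq hi b c hc
    · by_cases e : j = i + 1
      · rw [e]; exact supUp (by omega) b c hc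
      · have e1 : ¬ j < i := by omega
        have e2 : ¬ n < i := by omega
        refine sup1 ?_
        fin_cases c <;> first | exact absurd hc (by decide) | simp [UU, lad, e, e1, e2, h.ne']
  · exact sup67 b c (by revert c; decide)

theorem exi : ∃ σ, NE (gm n) 0 σ ∧ Sat (gm n) (xx n) (yy n) 0 σ := by
  let σ := T2 n (z0 n)
  have hσ : ∀ v i, ¬ (gm n).term v → (gm n).own v = some i → Dist (gm n) v (σ v) :=
    cas _ (fun _ _ k => by simp [gm] at k) fun j hj c _ _ _ => T2_dist _ z0_bd hj c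
  have hR : ∀ l, Rep n (move (gm n) σ l) (z0 n) := fun l j hj c a d f => by
    unfold move
    by_cases k : (gm n).own (tv n (j, c)) = none
    · simp only [k, if_true, pr_T2, T2_sum _ hj]
      have : z0 n (j, c) = 1 / 2 := by
        rw [own_tv hj] at k
        fin_cases c <;> simp_all [ow, z0, al]
      rw [this]
    · simp only [k, if_false]; exact T2_sum _ hj c f
  have val : ∀ i ≤ n + 1, ∀ b, pay (gm n) (move (gm n) σ) (lv n i, b) =
      (UU n i b (n + 1, 0) + 8 * ∑ j ∈ range n, UU n i b (j, 6)) / (8 * n + 1) := by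
    intro i hi b
    obtain ⟨w, e1, _, e3, e4⟩ := harmG (move (gm n) σ []) (z0 n) hi b (move_dist hσ [])
      (fun w => by simp [move, gm]) (hR [])
    refine e1.trans ?_
    congr 3
    · obtain ⟨a3, a4⟩ := al_bd (n + 1)
      have f0 := e4 (n + 1) le_rfl 0 (by decide) (by decide)
      have f1 := e4 (n + 1) le_rfl 1 (by decide) (by decide)
      have f2 := e4 (n + 1) le_rfl 2 (by decide) (by decide)
      have f3 := e4 (n + 1) le_rfl 3 (by decide) (by decide)
      simp [A, B, z0, (e3 _ le_rfl).1, (e3 n (by omega)).1] at f0 f1 f2 f3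
      rw [f1, f2, f3] at f0
      have a5 : 2 - al (n + 1) ≠ 0 := by linarith
      have a6 : w (n + 1, 0) * (2 - al (n + 1)) = rr i (n + 1, 5) + (1 - al (n + 1)) * rr i (n, 5) :=
        mul_left_cancel₀ a3.ne' (by linarith)
      apply mul_right_cancel₀ a5
      rw [a6]
      rcases lt_trichotomy i n with k | rfl | k
      · have k1 : ¬ n + 1 < i := by omega
        have k2 : n + 1 ≠ i := by omega
        simp [UU, lad, k1, k2, k.ne', rr, k, k.le]; ring
      · simp [UU, lad, rr, cc]; field_simp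
      · obtain rfl : i = n + 1 := by omega
        simp [UU, lad, rr, cc]
    · refine sum_congr rfl fun j hj => ?_
      have hj' : j ≤ n + 1 := by have := mem_range.1 hj; omega
      have f6 := e4 j hj' 6 (by decide) (by decide)
      have f7 := e4 j hj' 7 (by decide) (by decide)
      simp [A, z0] at f6 f7
      rw [f6, f7, (e3 j hj').2]; simp [UU]
  refine ⟨σ, ⟨hσ, fun ⟨i, b⟩ τ hτ => ?_⟩, fun ⟨i, b⟩ => ?_⟩
  · have hi : i.val ≤ n + 1 := by omega
    rw [← lv_fin i] at hτ ⊢
    rw [val _ hi, add_zero]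
    refine superG _ hi b _ (fun p => (UU_bd _ b p).1) (fun j => by simp [UU])
      (fun l v hv => ?_) (fun l w => by simp [dev, move, gm]) fun l j hj c a d => ?_
    · unfold dev
      by_cases k : (gm n).own v = some (lv n i, b)
      · simpa [k] using hτ l v hv k
      · simpa [k] using move_dist hσ l v hv
    · have s := sup hi hj b c a d
      simp only [dev, Sup, own_iff hj hi] at s ⊢
      split_ifs at s ⊢ with k
      · have D := hτ l _ (by simp [term_tv, a, d]) ((own_iff hj hi c b).2 k)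
        refine ⟨_, two D fun w => (edge_tv hj c w).1, ?_⟩
        have := D.1 (tv n (B n (j, c)))
        have := D.le_one (tv n (B n (j, c)))
        nlinarith [mul_le_mul_of_nonneg_left s.2 (D.1 (tv n (B n (j, c)))),
          mul_le_mul_of_nonneg_left s.1 (sub_nonneg.2 (D.le_one (tv n (B n (j, c)))))]
      · exact ⟨_, hR l j hj c a d, s⟩
  · have hi : i.val ≤ n + 1 := by omega
    rw [← lv_fin i, val _ hi]
    generalize i.val = i at hi
    have M : (0 : ℝ) < 8 * n + 1 := by positivity
    have e : ∑ j ∈ range n, UU n i b (j, 6) = if i < n then 1 / 4 else 0 := by simp [UU, rr]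
    simp only [e, xx, yy, lv_val hi, K, sub_zero, add_zero]
    rw [le_div_iff₀ M, div_le_iff₀ M]
    rcases lt_trichotomy i n with k | k | k
    · have k1 : ¬ n + 1 < i := by omega
      have k2 : n + 1 ≠ i := by omega
      simp [UU, lad, k1, k2, k.ne', k.ne, k]
      constructor
      · norm_num
      · field_simp; norm_num
    · have := (cc_bd n n).2
      have a3 := al_bd (n + 1)
      rw [k]
      have : 1 / 2 ≤ cc n n := by
        simp only [cc, if_true]; rw [le_div_iff₀ (by linarith)]; linarith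
      simp [UU, lad]
      constructor <;> field_simp <;> linarith
    · obtain rfl : i = n + 1 := by omega
      simp [UU, lad, cc]
      positivity

end Pool.Agent.H25.SG
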