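import Mathlib

set_option autoImplicit false

namespace Pool.Agent.H25.SG
open scoped Classical

/-- a turn-based stochastic game on the vertices `V` with the players `P`: a vertex that is not
terminal belongs to the player `own v`, or is stochastic when `own v = none` -/
structure Game (V P : Type) where
  term : V → Prop
  own : V → Option P
  edge : V → V → Prop
  pr : V → V → ℚ
  rew : V → P → ℚ
  init : V

variable {V P : Type} [Fintype V] [Fintype P] (G : Game V P)

/-- a distribution on the out-neighbours of `v` -/
def Dist (v : V) (d : V → ℝ) : Prop :=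
  (∀ w, 0 ≤ d w) ∧ ∑ w, d w = 1 ∧ ∀ w, d w ≠ 0 → G.edge v w

def Valid : Prop :=
  (∀ v, ¬ G.term v → G.own v = none → Dist G v fun w => G.pr v w) ∧
    (∀ v, ¬ G.term v → ∃ w, G.edge v w) ∧ ∀ v i, 0 ≤ G.rew v i ∧ G.rew v i ≤ 1

/-- expected reward of player `i` from terminal vertices reached within `m` moves, when the next
vertex after the history `h` and the current vertex `v` is drawn from `T h v` -/
noncomputable def val (T : List V → V → V → ℝ) (i : P) : ℕ → List V → V → ℝ
  | 0, _, v => if G.term v then G.rew v i else 0
  | m + 1, h, v => if G.term v then G.rew v i else ∑ w, T h v w * val T i m (v :: h) w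

/-- expected payoff -/
noncomputable def pay (T : List V → V → V → ℝ) (i : P) : ℝ := ⨆ m, val G T i m [] G.init

/-- moves under the stationary profile `σ` -/
noncomputable def move (σ : V → V → ℝ) : List V → V → V → ℝ :=
  fun _ v w => if G.own v = none then G.pr v w else σ v w

/-- moves when player `i` deviates to the history-dependent strategy `τ` -/
noncomputable def dev (σ : V → V → ℝ) (i : P) (τ : List V → V → V → ℝ) : List V → V → V → ℝ :=
  fun h v w => if G.own v = some i then τ h v w else move G σ h v w

/-- stationary `ε`-Nash equilibrium -/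
def NE (ε : ℝ) (σ : V → V → ℝ) : Prop :=
  (∀ v i, ¬ G.term v → G.own v = some i → Dist G v (σ v)) ∧
    ∀ i (τ : List V → V → V → ℝ), (∀ h v, ¬ G.term v → G.own v = some i → Dist G v (τ h v)) →
      pay G (dev G σ i τ) i ≤ pay G (move G σ) i + ε

/-- the payoff constraints hold up to the additive error `δ` -/
def Sat (x y : P → ℚ) (δ : ℝ) (σ : V → V → ℝ) : Prop :=
  ∀ i, x i - δ ≤ pay G (move G σ) i ∧ pay G (move G σ) i ≤ y i + δ

/-- every probability of the profile is an integer multiple of `2 ^ (-L)` -/
def FixedPt (σ : V → V → ℝ) (L : ℕ) : Prop :=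
  ∀ v i w, ¬ G.term v → G.own v = some i → ∃ a : ℕ, σ v w = a / 2 ^ L

/-- binary length of a rational -/
def sz (q : ℚ) : ℕ := q.num.natAbs.size + q.den.size + 1

/-- input size: tables of edges and owners, and all the rationals -/
def size (x y : P → ℚ) (ε : ℚ) : ℕ :=
  Fintype.card V * (Fintype.card V + Fintype.card P) + ∑ v, ∑ w, sz (G.pr v w) +
    ∑ v, ∑ i, sz (G.rew v i) + ∑ i, (sz (x i) + sz (y i)) + sz ε

end Pool.Agent.H25.SG
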