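import Pool.Agent.H25.CBase

set_option autoImplicit false

namespace Pool.Agent.H25.SI
open Pool.Agent.H11.PT Finset

abbrev Gr := ℕ × List (ℕ × ℕ)

def Em (H G : Gr) (f : ℕ → ℕ) : Prop :=
  ∀ i < H.1, f i < G.1 ∧ ∀ j < H.1, i = j ∨
    (¬ f i = f j ∧ (¬ (i, j) ∈ H.2 ∨ (f i, f j) ∈ G.2 ∨ (f j, f i) ∈ G.2))

theorem cont_iff (H G : Gr) : (gr H.1 H.2).IsContained (gr G.1 G.2) ↔ ∃ f, Em H G f := by
  constructor
  · rintro ⟨φ⟩
    refine ⟨fun i => if h : i < H.1 then (φ ⟨i, h⟩).val else 0, fun i hi => ⟨?_, fun j hj => ?_⟩⟩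
    · simp only [dif_pos hi]; exact (φ ⟨i, hi⟩).2
    · simp only [dif_pos hi, dif_pos hj]
      by_cases e : i = j
      · exact .inl e
      refine .inr ⟨fun c => e (congrArg Fin.val (φ.injective (Fin.ext c))), ?_⟩
      by_cases m : (i, j) ∈ H.2
      · have : (gr H.1 H.2).Adj ⟨i, hi⟩ ⟨j, hj⟩ :=
          (SimpleGraph.fromRel_adj ..).2 ⟨fun c => e (congrArg Fin.val c), .inl m⟩
        exact .inr ((SimpleGraph.fromRel_adj ..).1 (φ.toHom.map_adj this)).2
      · exact .inl m
  · rintro ⟨f, h⟩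
    refine ⟨⟨⟨fun i => ⟨f i, (h i i.2).1⟩, fun {a b} hab => ?_⟩, fun a b e => ?_⟩⟩
    · obtain ⟨h1, h2⟩ := (SimpleGraph.fromRel_adj ..).1 hab
      have k1 := ((h a a.2).2 b b.2).resolve_left fun c => h1 (Fin.ext c)
      have k2 := ((h b b.2).2 a a.2).resolve_left fun c => h1 (Fin.ext c.symm)
      refine (SimpleGraph.fromRel_adj ..).2 ⟨fun c => k1.1 (congrArg Fin.val c), ?_⟩
      rcases h2 with h2 | h2
      · exact k1.2.resolve_left (not_not.2 h2)
      · exact (k2.2.resolve_left (not_not.2 h2)).symm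
    · exact Fin.ext (((h a a.2).2 b b.2).resolve_right fun c => c.1 (congrArg Fin.val e))

def emB (H G : Gr) (c : List ℕ) : Bool :=
  (List.range H.1).all fun i => decide (c.getD i 0 < G.1) && (List.range H.1).all fun j =>
    decide (i = j ∨ (¬ c.getD i 0 = c.getD j 0 ∧ (¬ (i, j) ∈ H.2 ∨
      (c.getD i 0, c.getD j 0) ∈ G.2 ∨ (c.getD j 0, c.getD i 0) ∈ G.2)))

@[fun_prop] theorem emB_pt {α : Type} [Enc α] {H G : α → Gr} {c : α → List ℕ} (h1 : PT H)
    (h2 : PT G) (h3 : PT c) : PT fun x => emB (H x) (G x) (c x) := by unfold emB; fun_prop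

theorem emB_iff (H G : Gr) (c : List ℕ) : emB H G c = true ↔ Em H G fun i => c.getD i 0 := by
  simp only [emB, Em, List.all_eq_true, List.mem_range, Bool.and_eq_true, decide_eq_true_eq]

def tup : ℕ → ℕ → List (List ℕ)
  | 0, _ => [[]]
  | k + 1, n => (List.range n ×ˢ tup k n).map fun p => p.1 :: p.2

theorem tup_pt (k : ℕ) : PT (tup k) := by
  induction k with
  | zero => exact PT.const _
  | succ k ih =>
    show PT fun n => (List.range n ×ˢ tup k n).map fun p => p.1 :: p.2
    fun_prop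

theorem mem_tup (k n : ℕ) (c : List ℕ) (h1 : c.length = k) (h2 : ∀ x ∈ c, x < n) :
    c ∈ tup k n := by
  induction c generalizing k with
  | nil => subst h1; simp [tup]
  | cons a c ih =>
    subst h1
    exact List.mem_map.2 ⟨(a, c), List.mem_product.2 ⟨List.mem_range.2 (h2 a (by simp)),
      ih _ rfl fun x hx => h2 x (by simp [hx])⟩, rfl⟩

theorem cont_list (H G : Gr) : (gr H.1 H.2).IsContained (gr G.1 G.2) ↔
    ∃ c ∈ tup H.1 G.1, c.length + c.sum ≤ H.1 + H.1 * G.1 ∧ emB H G c = true := by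
  rw [cont_iff]
  refine ⟨fun ⟨f, h⟩ => ⟨(List.range H.1).map f, mem_tup _ _ _ (by simp) ?_, ?_, ?_⟩,
    fun ⟨c, _, _, h⟩ => ⟨_, (emB_iff ..).1 h⟩⟩
  · simp only [List.mem_map, List.mem_range]
    rintro _ ⟨i, hi, rfl⟩; exact (h i hi).1
  · have := List.sum_le_card_nsmul ((List.range H.1).map f) G.1 (by
      simp only [List.mem_map, List.mem_range]
      rintro _ ⟨i, hi, rfl⟩; exact (h i hi).1.le)
    simpa using this
  · have e : ∀ i < H.1, ((List.range H.1).map f).getD i 0 = f i := fun i hi => by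
      simp [List.getD_eq_getElem?_getD, hi]
    refine (emB_iff ..).2 fun i hi => ?_
    simp only [e i hi]
    exact ⟨(h i hi).1, fun j hj => by rw [e j hj]; exact (h i hi).2 j hj⟩

theorem inNP (F : Gr) : InNP fun y : Gr × Gr => ((gr F.1 F.2).Free (gr y.1.1 y.1.2) ∧
    (gr F.1 F.2).Free (gr y.2.1 y.2.2)) ∧ (gr y.2.1 y.2.2).IsContained (gr y.1.1 y.1.2) := by
  have := tup_pt F.1
  have fr : ∀ G : Gr, ((tup F.1 G.1).all fun c => !emB F G c) = true ↔
      (gr F.1 F.2).Free (gr G.1 G.2) := fun G => by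
    simp only [List.all_eq_true, Bool.not_eq_eq_eq_not, Bool.not_true, SimpleGraph.Free]
    refine ⟨fun h k => ?_, fun h c _ => Bool.eq_false_iff.2 fun k =>
      h ((cont_iff ..).2 ⟨_, (emB_iff ..).1 k⟩)⟩
    obtain ⟨c, h1, -, h2⟩ := (cont_list ..).1 k
    simp [h c h1] at h2
  refine PT.inNP_nats (V := fun y c => (((tup F.1 y.1.1).all fun c => !emB F y.1 c) &&
    ((tup F.1 y.2.1).all fun c => !emB F y.2 c)) && emB y.2 y.1 c) (by fun_prop)
    (fun y => y.2.1 + y.2.1 * y.1.1) (by fun_prop) (fun y c h => ?_) fun y h => ?_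
  · simp only [Bool.and_eq_true, fr] at h
    exact ⟨h.1, (cont_iff ..).2 ⟨_, (emB_iff ..).1 h.2⟩⟩
  · obtain ⟨c, -, h1, h2⟩ := (cont_list ..).1 h.2
    exact ⟨c, h1, by simp only [Bool.and_eq_true, fr]; exact ⟨h.1, h2⟩⟩

theorem hall (M : ℕ) (σ κ : ℕ → ℕ) (h : ∀ t, (∑ s ∈ range M, if t ≤ σ s then 1 else 0) ≤
    ∑ s ∈ range M, if t ≤ κ s then 1 else 0) : ∃ π : ℕ → ℕ,
      (∀ s < M, π s < M ∧ σ s ≤ κ (π s)) ∧ ∀ s < M, ∀ r < M, π s = π r → s = r := by
  obtain ⟨f, f1, f2⟩ := (all_card_le_biUnion_card_iff_exists_injective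
    fun s : Fin M => (range M).filter fun j => σ s ≤ κ j).1 fun A => by
      rcases A.eq_empty_or_nonempty with rfl | hA
      · simp
      obtain ⟨a, ha, hm⟩ := A.exists_min_image (fun s => σ s) hA
      have := h (σ a)
      rw [← card_filter, ← card_filter] at this
      refine le_trans ?_ (this.trans (card_le_card (subset_biUnion_of_mem
        (fun s : Fin M => (range M).filter fun j => σ s ≤ κ j) ha)))
      exact card_le_card_of_injOn Fin.val (fun s hs => by simpa using hm s hs)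
        fun _ _ _ _ e => Fin.ext e
  refine ⟨fun s => if h : s < M then f ⟨s, h⟩ else 0, fun s hs => ?_, fun s hs r hr e => ?_⟩
  · simpa [hs] using f2 ⟨s, hs⟩
  · simp only [dif_pos hs, dif_pos hr] at e
    exact congrArg Fin.val (f1 e)

theorem sum2 (N : ℕ) (f : ℕ → ℕ) :
    ∑ s ∈ range (2 * N), f s = ∑ i ∈ range N, (f (2 * i) + f (2 * i + 1)) := by
  induction N with
  | zero => rfl
  | succ N ih => rw [mul_add, mul_one, sum_range_succ, sum_range_succ, sum_range_succ, ih]; omega

theorem sum4 (N : ℕ) (f : ℕ → ℕ) : ∑ s ∈ range (4 * N), f s =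
    ∑ i ∈ range N, (f (4 * i) + f (4 * i + 1) + (f (4 * i + 2) + f (4 * i + 3))) := by
  induction N with
  | zero => rfl
  | succ N ih =>
    rw [mul_add, mul_one, sum_range_succ, sum_range_succ, sum_range_succ, sum_range_succ,
      sum_range_succ, ih]; omega

/-- adjacency in a forest of stars and double stars, vertex `u` being leaf `u % W` of centre
`u / W`; centres `c`, `c + 1` are joined when `c % q = 0` -/
def A (W q : ℕ) (d : ℕ → ℕ) (u v : ℕ) : Prop :=
  u % W = 0 ∧ ((u / W = v / W ∧ 1 ≤ v % W ∧ v % W ≤ 2 * d (u / W)) ∨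
    (v % W = 0 ∧ u / W % q = 0 ∧ v / W = u / W + 1))

instance (W q : ℕ) (d : ℕ → ℕ) (u v : ℕ) : Decidable (A W q d u v) := by
  unfold A; infer_instance

def mk (C W q : ℕ) (d : ℕ → ℕ) : Gr :=
  (C * W, (List.range (C * W) ×ˢ List.range (C * W)).filter fun e => decide (A W q d e.1 e.2))

theorem mem_mk {C W q : ℕ} {d : ℕ → ℕ} {u v : ℕ} :
    (u, v) ∈ (mk C W q d).2 ↔ (u < C * W ∧ v < C * W) ∧ A W q d u v := by
  simp [mk]

theorem centre {W q : ℕ} {d : ℕ → ℕ} {a b c : ℕ} (h1 : A W q d a b ∨ A W q d b a)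
    (h2 : A W q d b c ∨ A W q d c b) (h : a ≠ c) : b % W = 0 := by
  by_contra k
  have e1 := Nat.div_add_mod a W
  have e2 := Nat.div_add_mod c W
  have : a / W = c / W ∧ a % W = 0 ∧ c % W = 0 := by unfold A at h1 h2; omega
  rw [this.1] at e1
  omega

theorem free5 (C W q : ℕ) (hq : q = 2 ∨ q = 4) (d : ℕ → ℕ) :
    (gr 5 [(0, 1), (1, 2), (2, 3), (3, 4)]).Free (gr (mk C W q d).1 (mk C W q d).2) := by
  intro h
  obtain ⟨f, h⟩ := (cont_iff (5, _) _).1 h
  have k : ∀ i < 4, A W q d (f i) (f (i + 1)) ∨ A W q d (f (i + 1)) (f i) := fun i hi => by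
    have := (((h i (by omega)).2 (i + 1) (by omega)).resolve_left (by omega)).2.resolve_left
      (by interval_cases i <;> simp)
    simp only [mem_mk] at this
    exact this.imp And.right And.right
  have n : ∀ i < 3, f i ≠ f (i + 2) := fun i hi =>
    (((h i (by omega)).2 (i + 2) (by omega)).resolve_left (by omega)).1
  have c1 := centre (k 0 (by omega)) (k 1 (by omega)) (n 0 (by omega))
  have c2 := centre (k 1 (by omega)) (k 2 (by omega)) (n 1 (by omega))
  have c3 := centre (k 2 (by omega)) (k 3 (by omega)) (n 2 (by omega))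
  have k1 := k 1 (by omega)
  have k2 := k 2 (by omega)
  have n1 := n 1 (by omega)
  have e1 := Nat.div_add_mod (f 1) W
  have e2 := Nat.div_add_mod (f 3) W
  simp only [Nat.reduceAdd, A] at *
  have : f 1 / W = f 3 / W := by rcases hq with rfl | rfl <;> omega
  rw [this] at e1
  omega

theorem mk_iff (C W : ℕ) (dH dG : ℕ → ℕ) (hH : ∀ c < 4 * C, 1 ≤ dH c ∧ 2 * dH c < W) :
    (∃ f, Em (mk (4 * C) W 4 dH) (mk (4 * C) W 2 dG) f) ↔ ∃ g : ℕ → ℕ,
      (∀ c < 4 * C, g c < 4 * C ∧ dH c ≤ dG (g c)) ∧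
      (∀ c < 4 * C, ∀ b < 4 * C, g c = g b → c = b) ∧ ∀ i < C, g (4 * i) / 2 = g (4 * i + 1) / 2 := by
  have dm : ∀ c i, i < W → (c * W + i) / W = c ∧ (c * W + i) % W = i := fun c i hi =>
    ⟨by rw [add_comm, Nat.add_mul_div_right _ _ (by omega), Nat.div_eq_of_lt hi, zero_add],
      by rw [add_comm, Nat.add_mul_mod_self_right, Nat.mod_eq_of_lt hi]⟩
  have lt : ∀ c i, c < 4 * C → i < W → c * W + i < 4 * C * W := fun c i hc hi => by
    have := Nat.mul_le_mul_right W hc
    rw [Nat.succ_mul] at this; omega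
  have ex : ∀ a b, a / W = b / W → a % W = b % W → a = b := fun a b h1 h2 => by
    rw [← Nat.div_add_mod a W, h1, h2, Nat.div_add_mod]
  constructor
  · rintro ⟨f, h⟩
    have inj : ∀ c i b j, c < 4 * C → i < W → b < 4 * C → j < W →
        f (c * W + i) = f (b * W + j) → c = b ∧ i = j := fun c i b j h1 h2 h3 h4 e => by
      have := ((h _ (lt c i h1 h2)).2 _ (lt b j h3 h4)).resolve_right fun c => c.1 e
      have a := dm c i h2
      have b := dm b j h4
      rw [this] at a
      omega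
    have ad : ∀ c i b j, c < 4 * C → i < W → b < 4 * C → j < W → ¬ (c = b ∧ i = j) →
        A W 4 dH (c * W + i) (b * W + j) → A W 2 dG (f (c * W + i)) (f (b * W + j)) ∨
          A W 2 dG (f (b * W + j)) (f (c * W + i)) := fun c i b j h1 h2 h3 h4 e a => by
      have := (((h _ (lt c i h1 h2)).2 _ (lt b j h3 h4)).resolve_left fun z =>
        e (inj c i b j h1 h2 h3 h4 (by rw [z]))).2.resolve_left
          (not_not.2 (mem_mk.2 ⟨⟨lt c i h1 h2, lt b j h3 h4⟩, a⟩))
      simp only [mem_mk] at this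
      exact this.imp And.right And.right
    have lf : ∀ c < 4 * C, ∀ i, 1 ≤ i → i ≤ 2 * dH c → A W 2 dG (f (c * W + 0)) (f (c * W + i)) ∨
        A W 2 dG (f (c * W + i)) (f (c * W + 0)) := fun c hc i h1 h2 => by
      have := hH c hc
      refine ad c 0 c i hc (by omega) hc (by omega) (by omega) ?_
      have a := dm c 0 (by omega)
      have b := dm c i (by omega)
      unfold A
      rw [a.1, a.2, b.1, b.2]
      omega
    have ce : ∀ c < 4 * C, f (c * W + 0) % W = 0 := fun c hc => by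
      have := hH c hc
      exact centre (lf c hc 1 le_rfl (by omega)).symm (lf c hc 2 (by omega) (by omega)) fun e => by
        have := inj c 1 c 2 hc (by omega) hc (by omega) e
        omega
    refine ⟨fun c => f (c * W + 0) / W, fun c hc => ⟨?_, ?_⟩, fun c hc b hb e => ?_,
      fun i hi => ?_⟩
    · have := hH c hc
      exact Nat.div_lt_of_lt_mul (by
        rw [mul_comm W]; exact (h _ (lt c 0 hc (by omega))).1)
    · have := hH c hc
      have z := ce c hc
      have := card_le_card_of_injOn (s := Icc 1 (2 * dH c))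
        (t := range (2 * dG (f (c * W + 0) / W) + 1)) (fun i => f (c * W + i) % W)
        (fun i hi => by
          simp only [coe_Icc, Set.mem_Icc] at hi
          have := lf c hc i hi.1 hi.2
          simp only [coe_range, Set.mem_Iio]
          unfold A at this; omega)
        fun i hi j hj e => by
          simp only [coe_Icc, Set.mem_Icc] at hi hj e
          have a := lf c hc i hi.1 hi.2
          have b := lf c hc j hj.1 hj.2
          exact (inj c i c j hc (by omega) hc (by omega)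
            (ex _ _ (by unfold A at a b; omega) e)).2
      simp only [Nat.card_Icc, card_range] at this ⊢
      omega
    · have := hH c hc
      exact (inj c 0 b 0 hc (by omega) hb (by omega) (ex _ _ e (by rw [ce c hc, ce b hb]))).1
    · have := hH (4 * i) (by omega)
      have a := dm (4 * i) 0 (by omega)
      have b := dm (4 * i + 1) 0 (by omega)
      have := ad (4 * i) 0 (4 * i + 1) 0 (by omega) (by omega) (by omega) (by omega) (by omega)
        (by unfold A; rw [a.1, a.2, b.1, b.2]; omega)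
      have := ce (4 * i) (by omega)
      have := ce (4 * i + 1) (by omega)
      unfold A at *
      dsimp only
      omega
  · rintro ⟨g, g1, g2, g3⟩
    refine ⟨fun u => g (u / W) * W + u % W, fun u hu => ?_⟩
    have hW : 0 < W := Nat.pos_of_ne_zero fun e => by simp [mk, e] at hu
    have dv : ∀ u < 4 * C * W, u / W < 4 * C := fun u hu =>
      Nat.div_lt_of_lt_mul (by rwa [mul_comm])
    have l : ∀ u < 4 * C * W, g (u / W) * W + u % W < 4 * C * W := fun u hu =>
      lt _ _ (g1 _ (dv u hu)).1 (Nat.mod_lt _ hW)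
    refine ⟨l u hu, fun v hv => ?_⟩
    have a := dm (g (u / W)) _ (Nat.mod_lt u hW)
    have b := dm (g (v / W)) _ (Nat.mod_lt v hW)
    by_cases e : u = v
    · exact .inl e
    refine .inr ⟨fun z => e (ex _ _ (g2 _ (dv u hu) _ (dv v hv) ?_) ?_), ?_⟩
    · exact a.1.symm.trans ((congrArg (· / W) z).trans b.1)
    · exact a.2.symm.trans ((congrArg (· % W) z).trans b.2)
    simp only [mem_mk, l u hu, l v hv, true_and, A, a.1, a.2, b.1, b.2]
    by_contra! k
    obtain ⟨⟨-, k1, k2⟩, k3, k4⟩ := k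
    have := (g1 _ (dv u hu)).2
    rcases k2 with k2 | k2
    · have := congrArg g k2.1
      omega
    · have h1 := dv u hu
      have h2 := dv v hv
      have h3 := g3 (u / W / 4) (by omega)
      have h4 := mt (g2 _ h1 _ h2) (by omega)
      rw [show 4 * (u / W / 4) = u / W by omega, ← k2.2.2] at h3
      omega

end Pool.Agent.H25.SI
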