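import Pool.Agent.H11.PTDefs

set_option autoImplicit false

namespace Pool.Agent.H25.SP
open Pool.Agent.H11.PT

/-- The class #P: `f x` is the number of certificates of a fixed polynomial length accepted by a
polynomial-time verifier that reads the code of `x` followed by the certificate. -/
def InSharpP {α : Type} [Enc α] (f : α → ℕ) : Prop :=
  ∃ (V : α × List Bool → Bool) (q : Polynomial ℕ),
    PolyTime (fun p => bits p.1 ++ p.2) (fun b => [b]) V ∧
      ∀ x, f x = Nat.card {w : List Bool // w.length = q.eval (bits x).length ∧ V (x, w) = true}

/-- #P-hardness of `g` restricted to inputs satisfying `P`, under non-adaptive polynomial-time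
Turing reductions: every #P function `f` on bit strings is computed by producing in polynomial
time a list `Q x` of oracle queries, all satisfying `P`, and then computing in polynomial time
the binary digits of `f x` from `x` and the binary digits of the values of `g` at the queries. -/
def SharpPHardOn {β : Type} [Enc β] (P : β → Prop) (g : β → ℕ) : Prop :=
  ∀ f : List Bool → ℕ, InSharpP f →
    ∃ (Q : List Bool → List β) (C : List Bool × List (List Bool) → List Bool),
      PolyTime id bits Q ∧ PolyTime bits bits C ∧ (∀ x, ∀ y ∈ Q x, P y) ∧
        ∀ x, C (x, (Q x).map fun y => (g y).bits) = (f x).bits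

end Pool.Agent.H25.SP
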