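import Pool.Agent.H11.CL3
import Pool.Agent.H25.SPDefs

set_option autoImplicit false

namespace Pool.Agent.H25.SP
open Pool.Agent.H11.PT Polynomial Turing Turing.TM2

def ext {M : ℕ} (σ : Fin M → Bool) (v : ℕ) : Bool := if h : v < M then σ ⟨v, h⟩ else false

abbrev Cnf := ℕ × List (List Lit)

/-- number of models on the variables below `p.1` -/
noncomputable def cntSAT (p : Cnf) : ℕ :=
  Nat.card {σ : Fin p.1 → Bool // ∀ c ∈ p.2, ∃ l ∈ c, ext σ l.1 = l.2}

def WF (p : Cnf) : Prop := ∀ c ∈ p.2, ∀ l ∈ c, l.1 < p.1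

def cells (D N T : ℕ) : List ℕ :=
  (List.range (T + 1)).flatMap fun t => (List.range ((T - t + 1) * D)).flatMap fun j =>
    (List.range N).map fun a => vr t j a

theorem vr_inj {t j a t' j' a' : ℕ} (h : vr t j a = vr t' j' a') : t = t' ∧ j = j' ∧ a = a' := by
  simpa [vr, Nat.pair_eq_pair] using h

theorem mem_cells {D N T t j a : ℕ} :
    vr t j a ∈ cells D N T ↔ t ≤ T ∧ j < (T - t + 1) * D ∧ a < N := by
  simp only [cells, List.mem_flatMap, List.mem_map, List.mem_range]
  constructor
  · rintro ⟨t', h1, j', h2, a', h3, h⟩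
    obtain ⟨rfl, rfl, rfl⟩ := vr_inj h
    exact ⟨by omega, h2, h3⟩
  · rintro ⟨h1, h2, h3⟩
    exact ⟨t, by omega, j, h2, a, h3, rfl⟩

def amo (D N T : ℕ) : List (List Lit) :=
  (List.range (T + 1)).flatMap fun t => (List.range ((T + 1) * D)).flatMap fun j =>
    (List.range N).flatMap fun a => ((List.range N).filter fun b => a != b).map fun b =>
      [(vr t j a, false), (vr t j b, false)]

def bnd (ψ : List (List Lit)) (cs : List ℕ) : ℕ := (ψ.flatten.map Prod.fst ++ cs).sum + 1

def ptab (D N : ℕ) (tab : List Ent) (rej : List ℕ) (T : ℕ) (al : List (List ℕ)) : Cnf :=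
  (bnd (tableau D tab rej T al ++ amo D N T) (cells D N T),
    (tableau D tab rej T al ++ amo D N T) ++
      ((List.range (bnd (tableau D tab rej T al ++ amo D N T) (cells D N T))).filter
        fun v => !(cells D N T).contains v).map fun v => [(v, false)])

theorem PT_ptab (D N : ℕ) (tab : List Ent) (rej : List ℕ) {α : Type} [Enc α] {T : α → ℕ}
    {al : α → List (List ℕ)} (hT : PT T) (hal : PT al) :
    PT fun x => ptab D N tab rej (T x) (al x) := by
  have h1 := PT.tableau D tab rej hT hal
  have h2 : PT fun x => amo D N (T x) := by unfold amo vr; fun_prop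
  have h3 : PT fun x => cells D N (T x) := by unfold cells vr; fun_prop
  have h4 : PT fun x => bnd (tableau D tab rej (T x) (al x) ++ amo D N (T x)) (cells D N (T x)) := by
    unfold bnd; fun_prop
  have h5 : PT fun p : α × ℕ => cells D N (T p.1) := h3.comp (by fun_prop)
  unfold ptab
  refine h4.pair ((h1.append h2).append (PT.map (PT.filter h4.range ?_) (by fun_prop)))
  exact (PT.contains h5 (by fun_prop)).not

theorem lt_bnd_cell {ψ : List (List Lit)} {cs : List ℕ} {v : ℕ} (h : v ∈ cs) : v < bnd ψ cs := by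
  have := List.le_sum_of_mem (xs := ψ.flatten.map Prod.fst ++ cs) (List.mem_append_right _ h)
  unfold bnd; omega

theorem wf_ptab (D N : ℕ) (tab : List Ent) (rej : List ℕ) (T : ℕ) (al : List (List ℕ)) :
    WF (ptab D N tab rej T al) := by
  intro c hc l hl
  simp only [ptab] at hc ⊢
  rcases List.mem_append.1 hc with hc | hc
  · have := List.le_sum_of_mem (xs := (tableau D tab rej T al ++ amo D N T).flatten.map Prod.fst ++
      cells D N T) (List.mem_append_left _ (List.mem_map.2 ⟨l, List.mem_flatten.2 ⟨c, hc, hl⟩, rfl⟩))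
    unfold bnd; omega
  · obtain ⟨v, hv, rfl⟩ := List.mem_map.1 hc
    rw [List.mem_singleton.1 hl]
    exact List.mem_range.1 (List.mem_filter.1 hv).1

section
variable {S : Type} (R : Rows S)

def sg (T : ℕ) (c : S) (v : ℕ) : Bool :=
  (cells R.D R.N T).contains v &&
    decide (R.row (R.nxt^[v.unpair.1] c) v.unpair.2.unpair.1 = v.unpair.2.unpair.2)

theorem sg_vr (T : ℕ) (c : S) (t j a : ℕ) : sg R T c (vr t j a) = true ↔
    (t ≤ T ∧ j < (T - t + 1) * R.D ∧ a < R.N) ∧ R.row (R.nxt^[t] c) j = a := by
  simp only [sg, Bool.and_eq_true, List.contains_iff_mem, mem_cells, decide_eq_true_eq]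
  simp [vr]

theorem val_it (c : S) (hc : R.Valid c) (t : ℕ) : R.Valid (R.nxt^[t] c) := by
  induction t with
  | zero => exact hc
  | succ t ih => rw [Function.iterate_succ_apply']; exact R.val_nxt _ ih

theorem ptab_complete (tab : List Ent)
    (htab : ∀ e, e ∈ tab ↔ ∃ c j, R.Valid c ∧ e = R.entry c j) (rej : List ℕ) (T : ℕ)
    (al : List (List ℕ)) (hal : al.length = (T + 1) * R.D) (c : S) (hc : R.Valid c)
    (h0 : ∀ j (h : j < al.length), R.row c j ∈ al[j]) (h1 : R.row (R.nxt^[T] c) 0 ∉ rej) :
    ∀ cl ∈ (ptab R.D R.N tab rej T al).2, ∃ l ∈ cl, sg R T c l.1 = l.2 := by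
  have hv := val_it R c hc
  intro cl hcl
  simp only [ptab, tableau, amo, List.mem_append, List.mem_map, List.mem_flatMap,
    List.mem_filter] at hcl
  rcases hcl with (((⟨p, hp, rfl⟩ | ⟨t, ht, j, _, e, ⟨he, hm⟩, rfl⟩) | ⟨a, ha, rfl⟩) |
    ⟨t, _, j, _, a, _, b, ⟨_, hab⟩, rfl⟩) | ⟨v, ⟨_, hv'⟩, rfl⟩
  · obtain ⟨l, j⟩ := p
    rw [List.mem_zipIdx_iff_getElem?] at hp
    simp only [List.getElem?_eq_some_iff] at hp
    obtain ⟨hj, rfl⟩ := hp
    exact ⟨(vr 0 j (R.row c j), true), List.mem_map.2 ⟨_, h0 j hj, rfl⟩, (sg_vr R T c 0 j _).2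
      ⟨⟨by omega, by simpa [hal] using hj, R.lt c hc j⟩, rfl⟩⟩
  · obtain ⟨c', j', hc', rfl⟩ := (htab e).1 he
    by_contra hn
    push Not at hn
    simp only [stepClause, List.mem_append, List.mem_map, List.mem_singleton] at hn
    have a1 : ∀ i < R.D, R.row (R.nxt^[t] c) i = R.row c' i := by
      intro i hi
      have := hn (vr t i (R.row c' i), false) (Or.inl (Or.inl ⟨(R.row c' i, i), by
        simp only [Rows.entry, Rows.view]; rw [mem_zipIdx_map]; exact ⟨hi, rfl⟩, rfl⟩))
      exact ((sg_vr R T c _ _ _).1 (by simpa using this)).2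
    have a2 : ∀ i ≤ 2 * R.D, j + i - R.D < (T - t + 1) * R.D ∧
        R.row (R.nxt^[t] c) (j + i - R.D) = R.row c' (j' + i - R.D) := by
      intro i hi
      have := hn (vr t (j + i - R.D) (R.row c' (j' + i - R.D)), false) (Or.inl (Or.inr
        ⟨(R.row c' (j' + i - R.D), i), by
          simp only [Rows.entry, Rows.win]; rw [mem_zipIdx_map]; exact ⟨by omega, rfl⟩, rfl⟩))
      have := (sg_vr R T c _ _ _).1 (by simpa using this)
      exact ⟨this.1.2.1, this.2⟩
    have a3 := hn _ (Or.inr rfl)
    have a4 := R.loc _ _ j j' (hv t) hc' (eq_of_beq hm).symm a1 (fun i hi => (a2 i hi).2)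
    apply a3
    have ht' : t < T := List.mem_range.1 ht
    have e1 : (T - t + 1) * R.D = (T - (t + 1) + 1) * R.D + R.D := by
      rw [show T - t + 1 = (T - (t + 1) + 1) + 1 by omega]; ring
    have a5 := (a2 (2 * R.D) le_rfl).1
    refine (sg_vr R T c _ _ _).2 ⟨⟨by omega, by omega, R.lt _ (R.val_nxt _ hc') _⟩, ?_⟩
    simp only [Function.iterate_succ_apply', Rows.entry, a4]
  · refine ⟨_, List.mem_singleton.2 rfl, ?_⟩
    cases h : sg R T c (vr T 0 a)
    · rfl
    · exact absurd (((sg_vr R T c _ _ _).1 h).2 ▸ ha) h1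
  · cases h : sg R T c (vr t j a)
    · exact ⟨(vr t j a, false), by simp, h⟩
    · cases h' : sg R T c (vr t j b)
      · exact ⟨(vr t j b, false), by simp, h'⟩
      · have := ((sg_vr R T c _ _ _).1 h).2.symm.trans ((sg_vr R T c _ _ _).1 h').2
        simp [this] at hab
  · refine ⟨_, List.mem_singleton.2 rfl, ?_⟩
    simp only [Bool.not_eq_true'] at hv'
    simp only [sg, hv', Bool.false_and]

theorem ptab_unique (tab : List Ent)
    (htab : ∀ e, e ∈ tab ↔ ∃ c j, R.Valid c ∧ e = R.entry c j) (rej : List ℕ) (T : ℕ)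
    (al : List (List ℕ)) (σ : ℕ → Bool)
    (hσ : ∀ cl ∈ (ptab R.D R.N tab rej T al).2, ∃ l ∈ cl, σ l.1 = l.2) (c : S) (hc : R.Valid c)
    (h0 : ∀ j < (T + 1) * R.D, σ (vr 0 j (R.row c j)) = true) :
    ∀ v < (ptab R.D R.N tab rej T al).1, σ v = sg R T c v := by
  have hv := val_it R c hc
  have key : ∀ t ≤ T, ∀ j < (T - t + 1) * R.D, σ (vr t j (R.row (R.nxt^[t] c) j)) = true := by
    intro t
    induction t with
    | zero => intro _ j hj; exact h0 j (by simpa using hj)
    | succ t ih =>
      intro ht j hj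
      have ih := ih (by omega)
      have e1 : (T - t + 1) * R.D = (T - (t + 1) + 1) * R.D + R.D := by
        rw [show T - t + 1 = (T - (t + 1) + 1) + 1 by omega]; ring
      have e2 : (T - (t + 1) + 1) * R.D ≤ (T + 1) * R.D := Nat.mul_le_mul_right _ (by omega)
      obtain ⟨l, hl, hs⟩ := hσ (stepClause R.D t j (R.entry (R.nxt^[t] c) j)) (by
        simp only [ptab, tableau, List.mem_append, List.mem_map, List.mem_flatMap, List.mem_filter]
        refine Or.inl (Or.inl (Or.inl (Or.inr ⟨t, by simp; omega, j, by simp; omega, _,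
          ⟨(htab _).2 ⟨_, j, hv t, rfl⟩, by simp [Rows.entry]⟩, rfl⟩))))
      simp only [stepClause, List.mem_append, List.mem_map, List.mem_singleton] at hl
      rcases hl with (⟨p, hp, rfl⟩ | ⟨p, hp, rfl⟩) | rfl
      · simp only [Rows.entry, Rows.view] at hp
        rw [mem_zipIdx_map] at hp
        rw [hp.2, ih p.2 (by omega)] at hs
        exact absurd hs (by simp)
      · simp only [Rows.entry, Rows.win] at hp
        rw [mem_zipIdx_map] at hp
        rw [hp.2, ih _ (by omega)] at hs
        exact absurd hs (by simp)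
      · rw [Function.iterate_succ_apply']; exact hs
  intro v hvM
  by_cases hcell : v ∈ cells R.D R.N T
  · have hcell' := hcell
    simp only [cells, List.mem_flatMap, List.mem_map, List.mem_range] at hcell'
    obtain ⟨t, ht, j, hj, a, ha, rfl⟩ := hcell'
    by_cases hr : R.row (R.nxt^[t] c) j = a
    · rw [(sg_vr R T c t j a).2 ⟨⟨by omega, hj, ha⟩, hr⟩, ← hr]
      exact key t (by omega) j hj
    · have e2 : (T - t + 1) * R.D ≤ (T + 1) * R.D := Nat.mul_le_mul_right _ (by omega)
      obtain ⟨l, hl, hs⟩ := hσ [(vr t j a, false), (vr t j (R.row (R.nxt^[t] c) j), false)] (by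
        simp only [ptab, amo, List.mem_append, List.mem_map, List.mem_flatMap, List.mem_filter,
          List.mem_range]
        exact Or.inl (Or.inr ⟨t, ht, j, by omega, a, ha, _, ⟨R.lt _ (hv t) j, by
          simpa using fun h => hr h.symm⟩, rfl⟩))
      have h2 : sg R T c (vr t j a) = false := by
        cases h : sg R T c (vr t j a)
        · rfl
        · exact absurd ((sg_vr R T c _ _ _).1 h).2 hr
      rw [h2]
      simp only [List.mem_cons, List.not_mem_nil, or_false] at hl
      rcases hl with rfl | rfl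
      · exact hs
      · rw [key t (by omega) j hj] at hs; exact absurd hs (by simp)
  · obtain ⟨l, hl, hs⟩ := hσ [(v, false)] (by
      simp only [ptab, List.mem_append, List.mem_map, List.mem_filter, List.mem_range]
      exact Or.inr ⟨v, ⟨hvM, by simpa using hcell⟩, rfl⟩)
    rw [List.mem_singleton.1 hl] at hs
    have : (cells R.D R.N T).contains v = false := by simpa using hcell
    simp only [sg, this, Bool.false_and]
    exact hs

end

theorem ext_res {M : ℕ} (τ : ℕ → Bool) {v : ℕ} (h : v < M) :
    ext (fun i : Fin M => τ i) v = τ v := by simp [ext, h]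

theorem cook_count {α : Type} [Enc α] (f : α → ℕ) (hf : InSharpP f) :
    ∃ g : α → Cnf, PT g ∧ ∀ x, WF (g x) ∧ f x = cntSAT (g x) := by
  obtain ⟨V, q, ⟨h⟩, e⟩ := hf
  obtain ⟨R, en, hn, hr, hv, hi⟩ := exists_rows h.tm
  obtain ⟨tab, htab⟩ := R.exists_tab
  let cd : Bool → Option Bool → ℕ := fun b o => en (ly h.tm h.inputAlphabet.invFun b o)
  let fin : Bool → h.tm.Cfg := fun b => haltList h.tm [h.outputAlphabet.invFun b]
  let ini : List Bool → h.tm.Cfg := fun u => initList h.tm (u.map h.inputAlphabet.invFun)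
  let TT : α → ℕ := fun x => h.time.eval (sz x + q.eval (sz x)) + (sz x + q.eval (sz x))
  have hrun : ∀ x (w : List Bool), w.length = q.eval (sz x) →
      R.nxt^[TT x] (ini (bits x ++ w)) = fin (V (x, w)) := by
    intro x w hw
    obtain ⟨⟨n, h1⟩, h2⟩ := h.outputsFun (x, w)
    have h3 := nxtC_of_evals h.tm.m n _ _ h1
    simp only [List.length_append, hw] at h2
    have h2' : n ≤ TT x := le_trans h2 (Nat.le_add_right _ _)
    obtain ⟨d, hd⟩ := Nat.exists_eq_add_of_le' h2'
    rw [hn, hd, Function.iterate_add_apply]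
    exact (congrArg _ h3).trans (nxtC_halt _ _ rfl _)
  have hrow : ∀ u j, R.row (ini u) j = cd (j == 0) u[j]? := by
    intro u j; rw [hr, lay_init]
  let al : α → List (List ℕ) := fun x => alw cd (bits x) (q.eval (sz x)) ((TT x + 1) * R.D)
  refine ⟨fun x => ptab R.D R.N tab [R.row (fin false) 0] (TT x) (al x), ?_,
    fun x => ⟨wf_ptab _ _ _ _ _ _, ?_⟩⟩
  · have hT : PT TT := by fun_prop
    refine PT_ptab _ _ _ _ hT ?_
    unfold al alw
    refine PT.map (by fun_prop) (PT.ite (by fun_prop) ?_ (by fun_prop))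
    exact PT.cons (PT.fin2 cd (by fun_prop) (by fun_prop)) (by fun_prop)
  rw [e x, cntSAT]
  have hwf := wf_ptab R.D R.N tab [R.row (fin false) 0] (TT x) (al x)
  have hcomp : ∀ w : List Bool, w.length = q.eval (sz x) → V (x, w) = true →
      ∀ cl ∈ (ptab R.D R.N tab [R.row (fin false) 0] (TT x) (al x)).2, ∃ l ∈ cl,
        sg R (TT x) (ini (bits x ++ w)) l.1 = l.2 := by
    intro w hw hV
    refine ptab_complete R tab htab _ _ _ (by simp [al, alw]) (ini (bits x ++ w)) (hv _) ?_ ?_
    · intro j hj
      have := bits_len_pos x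
      simp only [al, alw, List.getElem_map, List.getElem_range, hrow]
      split_ifs with h1 h2
      · simp [List.getElem?_append_left h1]
      · have a : (j == 0) = false := by simp; omega
        have b : j - (bits x).length < w.length := by rw [hw]; unfold sz at h2 ⊢; omega
        rw [a, List.getElem?_append_right (by omega), List.getElem?_eq_getElem b]
        cases w[j - (bits x).length] <;> simp
      · have a : (j == 0) = false := by simp; omega
        rw [a, List.getElem?_eq_none (by
          simp only [List.length_append, hw]; unfold sz at h2 ⊢; omega)]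
        simp
    · have h1 := hrun x w hw
      have h2 := val_it R _ (hv ((bits x ++ w).map h.inputAlphabet.invFun)) (TT x)
      rw [h1, hV]
      erw [h1, hV] at h2
      intro h3
      have h4 := congrFun (congrArg Prod.snd (hi _ _ _ _ h2 (List.mem_singleton.1 h3))) h.tm.k₁
      simp [lay, fin, haltList] at h4
  refine Nat.card_congr (Equiv.ofBijective (fun w => ⟨fun v => sg R (TT x) (ini (bits x ++ w.1)) v,
    fun cl hcl => ?_⟩) ⟨?_, ?_⟩)
  · obtain ⟨l, hl, hs⟩ := hcomp w.1 w.2.1 w.2.2 cl hcl
    exact ⟨l, hl, by rw [ext_res _ (hwf cl hcl l hl)]; exact hs⟩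
  · rintro ⟨w, hw, hV⟩ ⟨w', hw', hV'⟩ hh
    simp only [Subtype.mk.injEq] at hh ⊢
    refine List.ext_getElem (hw.trans hw'.symm) fun i h1 h2 => ?_
    have hD := R.hD
    have hc : vr 0 ((bits x).length + i) (R.row (ini (bits x ++ w)) ((bits x).length + i)) ∈
        cells R.D R.N (TT x) := by
      refine mem_cells.2 ⟨by omega, ?_, R.lt _ (hv _) _⟩
      have : TT x - 0 + 1 ≤ (TT x - 0 + 1) * R.D := Nat.le_mul_of_pos_right _ hD
      have e1 : TT x = h.time.eval (sz x + q.eval (sz x)) + (sz x + q.eval (sz x)) := rfl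
      rw [hw] at h1
      unfold sz at e1
      omega
    have h3 := congrFun hh ⟨_, lt_bnd_cell hc⟩
    simp only at h3
    have h3' := (sg_vr R (TT x) (ini (bits x ++ w)) 0 _ _).2 ⟨mem_cells.1 hc, rfl⟩
    have h4 := ((sg_vr R _ _ _ _ _).1 (h3.symm.trans h3')).2
    simp only [Function.iterate_zero, id] at h4
    have h5 := congrFun (congrArg Prod.snd (hi _ _ _ _ (hv _) h4)) h.tm.k₀
    simp only [lay, ini, initList, dite_true, List.map_append] at h5
    have h6 : (List.map h.inputAlphabet.invFun (bits x) ++ List.map h.inputAlphabet.invFun w')[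
        (bits x).length + i]? = (List.map h.inputAlphabet.invFun (bits x) ++
          List.map h.inputAlphabet.invFun w)[(bits x).length + i]? := h5
    rw [List.getElem?_append_right (by simp), List.getElem?_append_right (by simp)] at h6
    simp [h1, h2] at h6
    exact h6.symm
  · rintro ⟨σ0, hσ0⟩
    let σ := ext σ0
    have hσ : ∀ cl ∈ tableau R.D tab [R.row (fin false) 0] (TT x) (al x), ∃ l ∈ cl, σ l.1 = l.2 :=
      fun cl hcl => hσ0 cl (List.mem_append_left _ (List.mem_append_left _ hcl))
    let w : List Bool := (List.range (q.eval (sz x))).map fun i =>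
      σ (vr 0 ((bits x).length + i) (cd false (some true)))
    have hw : w.length = q.eval (sz x) := by simp [w]
    have hinit : ∀ j < (TT x + 1) * R.D, σ (vr 0 j (R.row (ini (bits x ++ w)) j)) = true := by
      intro j hj
      obtain ⟨a, ha, hs⟩ := tableau_init _ _ _ _ _ σ hσ j (by simpa [al, alw] using hj)
      have := bits_len_pos x
      simp only [al, alw, List.getElem_map, List.getElem_range] at ha
      rw [hrow]
      split_ifs at ha with h1 h2
      · rw [List.getElem?_append_left h1, ← List.mem_singleton.1 ha]; exact hs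
      · have a' : (j == 0) = false := by simp; omega
        have b : j - (bits x).length < w.length := by rw [hw]; omega
        rw [a', List.getElem?_append_right (by omega), List.getElem?_eq_getElem b]
        have c : w[j - (bits x).length] = σ (vr 0 j (cd false (some true))) := by
          simp only [w, List.getElem_map, List.getElem_range]
          congr 2; omega
        rw [c]
        cases hc : σ (vr 0 j (cd false (some true)))
        · simp only [List.mem_cons, List.not_mem_nil, or_false] at ha
          rcases ha with rfl | rfl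
          · rw [hc] at hs; exact absurd hs (by simp)
          · exact hs
        · exact hc
      · have a' : (j == 0) = false := by simp; omega
        rw [a', List.getElem?_eq_none (by simp only [List.length_append, hw]; omega),
          ← List.mem_singleton.1 ha]
        exact hs
    have h6 := tableau_sound R tab htab _ _ _ σ hσ (ini (bits x ++ w)) (hv _) hinit
    refine ⟨⟨w, hw, ?_⟩, Subtype.ext (funext fun v => ?_)⟩
    · rw [hrun x w hw] at h6
      cases hV : V (x, w)
      · rw [hV] at h6; simp at h6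
      · rfl
    · have := ptab_unique R tab htab _ _ _ σ hσ0 (ini (bits x ++ w)) (hv _) hinit v v.2
      simp only
      rw [← this]
      simp [σ, ext]

end Pool.Agent.H25.SP
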