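import Pool.Agent.H25.SP1
import Pool.Agent.H25.Bn

set_option autoImplicit false

namespace Pool.Agent.H25.SP
open Pool.Agent.H11.PT Pool.Agent.H25.BN Polynomial

variable {α β : Type} [Enc α] [Enc β]

theorem bin_take (l : List Bool) (k : ℕ) : bin (l.take k) = bin l % 2 ^ k := by
  induction l generalizing k with
  | nil => simp
  | cons b l ih =>
    cases k with
    | zero => simp [Nat.mod_one]
    | succ k =>
      rw [List.take_succ_cons, bin_cons, bin_cons, ih, pow_succ, mul_comm (2 ^ k) 2, Nat.mod_mul]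
      have e1 : (b.toNat + 2 * bin l) / 2 = bin l := by cases b <;> simp <;> omega
      have e2 : (b.toNat + 2 * bin l) % 2 = b.toNat := by cases b <;> simp
      rw [e1, e2]

theorem bin_drop (l : List Bool) (k : ℕ) : bin (l.drop k) = bin l / 2 ^ k := by
  induction l generalizing k with
  | nil => simp
  | cons b l ih =>
    cases k with
    | zero => simp
    | succ k =>
      rw [List.drop_succ_cons, bin_cons, ih, pow_succ, mul_comm (2 ^ k) 2, ← Nat.div_div_eq_div_mul]
      congr 1
      cases b <;> simp <;> omega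

theorem bin_not (l : List Bool) : bin (l.map not) + bin l + 1 = 2 ^ l.length := by
  induction l with
  | nil => simp
  | cons b l ih =>
    simp only [List.map_cons, bin_cons, List.length_cons, pow_succ]
    cases b <;> simp <;> omega

/-- remainder modulo `2 ^ k` -/
def low (a : Bn) (k : ℕ) : Bn := ⟨a.v % 2 ^ k⟩

@[fun_prop] theorem PT_low {f : α → Bn} {k : α → ℕ} (hf : PT f) (hk : PT k) :
    PT fun x => low (f x) (k x) :=
  (PT.ofL (PT.take hk (PT.bitsOf hf))).of_eq fun x => by rw [bin_take, bin_bits]; rfl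

/-- quotient by `2 ^ k` -/
def high (a : Bn) (k : ℕ) : Bn := ⟨a.v / 2 ^ k⟩

@[fun_prop] theorem PT_high {f : α → Bn} {k : α → ℕ} (hf : PT f) (hk : PT k) :
    PT fun x => high (f x) (k x) :=
  (PT.ofL (PT.drop hk (PT.bitsOf hf))).of_eq fun x => by rw [bin_drop, bin_bits]; rfl

/-- complement of the low `k` bits -/
def cpl (a : Bn) (k : ℕ) : Bn := ⟨2 ^ k - 1 - a.v % 2 ^ k⟩

@[fun_prop] theorem PT_cpl {f : α → Bn} {k : α → ℕ} (hf : PT f) (hk : PT k) :
    PT fun x => cpl (f x) (k x) := by
  have h : PT fun x => (((f x).v.bits ++ List.replicate (k x) false).take (k x)).map not := by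
    fun_prop
  refine (PT.ofL h).of_eq fun x => congrArg Bn.mk ?_
  have := bin_not (((f x).v.bits ++ List.replicate (k x) false).take (k x))
  rw [bin_take, bin_pad, bin_bits, List.length_take, min_eq_left (by simp)] at this
  omega

/-- truncated subtraction -/
def bsub (a b : Bn) : Bn := ⟨a.v - b.v⟩

@[fun_prop] theorem PT_bsub {f g : α → Bn} (hf : PT f) (hg : PT g) :
    PT fun x => bsub (f x) (g x) := by
  have h : PT fun x => bif ble (g x) (f x) then
      low (badd (badd (f x) (cpl (g x) (f x).v.bits.length)) ⟨1⟩) (f x).v.bits.length else ⟨0⟩ := by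
    fun_prop
  refine h.of_eq fun x => ?_
  by_cases hle : (g x).v ≤ (f x).v
  · have h1 := Nat.lt_size_self (f x).v
    rw [← Nat.size_eq_bits_len] at h1
    simp only [BN.ble, hle, decide_true, cond_true, low, BN.badd, cpl, bsub]
    congr 1
    rw [Nat.mod_eq_of_lt (a := (g x).v) (by omega),
      show (f x).v + (2 ^ (f x).v.bits.length - 1 - (g x).v) + 1 =
        ((f x).v - (g x).v) + 2 ^ (f x).v.bits.length by omega, Nat.add_mod_right,
      Nat.mod_eq_of_lt (by omega)]
  · simp only [BN.ble, hle, decide_false, cond_false, bsub]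
    congr 1; omega

def dvS (d : ℕ) (s : List Bool × ℕ) (b : Bool) : List Bool × ℕ :=
  (decide (d ≤ 2 * s.2 + (bif b then 1 else 0)) :: s.1, (2 * s.2 + (bif b then 1 else 0)) % d)

theorem dv_fold (d : ℕ) (hd : 0 < d) (l : List Bool) :
    bin (l.foldr (fun b s => dvS d s b) ([], 0)).1 * d + (l.foldr (fun b s => dvS d s b) ([], 0)).2
      = bin l ∧ (l.foldr (fun b s => dvS d s b) ([], 0)).2 < d := by
  induction l with
  | nil => simp [hd]
  | cons b l ih =>
    rw [List.foldr_cons]
    generalize l.foldr (fun b s => dvS d s b) ([], 0) = s at ih ⊢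
    obtain ⟨h1, h2⟩ := ih
    refine ⟨?_, Nat.mod_lt _ hd⟩
    simp only [dvS, bin_cons]
    rw [← h1]
    have e : (bif b then 1 else 0) = b.toNat := by cases b <;> rfl
    have e2 : b.toNat ≤ 1 := by cases b <;> simp
    rw [e]
    by_cases h : d ≤ 2 * s.2 + b.toNat
    · rw [Nat.mod_eq_sub_mod h, Nat.mod_eq_of_lt (by omega)]
      simp only [h, decide_true, Bool.toNat_true]
      have : (1 + 2 * bin s.1) * d = d + 2 * (bin s.1 * d) := by ring
      omega
    · rw [Nat.mod_eq_of_lt (by omega)]
      simp only [h, decide_false, Bool.toNat_false]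
      ring

/-- division by a positive unary number -/
def bdiv (a : Bn) (d : ℕ) : Bn := ⟨a.v / (d + 1)⟩

@[fun_prop] theorem PT_bdiv {f : α → Bn} {d : α → ℕ} (hf : PT f) (hd : PT d) :
    PT fun x => bdiv (f x) (d x) := by
  have h : PT fun x => (f x).v.bits.foldr (fun b s => dvS (d x + 1) s b) ([], 0) :=
    PT.foldr_add (g := fun x b s => dvS (d x + 1) s b) (by fun_prop) (by fun_prop)
      (by unfold dvS; fun_prop) (fun x _ => d x) 8 (by fun_prop) (fun x c b => by
        obtain ⟨c1, c2⟩ := c
        have := sz_bool (decide (d x + 1 ≤ 2 * c2 + (bif b then 1 else 0)))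
        have := Nat.mod_lt (2 * c2 + (bif b then 1 else 0)) (show d x + 1 > 0 by omega)
        simp only [dvS, sz_pair, sz_cons, sz_nat]; omega)
  refine (PT.ofL h.fst).of_eq fun x => congrArg Bn.mk ?_
  obtain ⟨h1, h2⟩ := dv_fold (d x + 1) (by omega) (f x).v.bits
  rw [bin_bits] at h1
  generalize (f x).v.bits.foldr (fun b s => dvS (d x + 1) s b) ([], 0) = s at h1 h2 ⊢
  rw [← h1, mul_comm, Nat.mul_add_div (by omega), Nat.div_eq_of_lt h2, add_zero]

/-- hardness from a non-adaptive reduction of model counting -/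
theorem sharp_of_sat (P : β → Prop) (g : β → ℕ) (Q : Cnf → List β) (C : Cnf × List Bn → Bn)
    (hQ : PT Q) (hC : PT C) (hP : ∀ p, WF p → ∀ y ∈ Q p, P y)
    (e : ∀ p, WF p → C (p, (Q p).map fun y => ⟨g y⟩) = ⟨cntSAT p⟩) : SharpPHardOn P g := by
  intro f hf
  obtain ⟨r, hr, h⟩ := cook_count f hf
  have h1 : PT fun p : List Bool × List (List Bool) => r p.1 := hr.comp (by fun_prop)
  have h2 : PT fun p : List Bool × List (List Bool) =>
      (C (r p.1, p.2.map fun b => Bn.mk (bin b))).v.bits :=
    PT.bitsOf (hC.comp (h1.pair (by fun_prop)))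
  refine ⟨fun x => Q (r x), _, (hQ.comp hr).polyTime_raw, h2.polyTime,
    fun x => hP _ (h x).1, fun x => ?_⟩
  simp only [List.map_map, Function.comp_def, bin_bits]
  rw [e _ (h x).1, (h x).2]

def encU (B : ℕ) (l : List ℕ) : List Bool :=
  (List.range (B * B)).map fun p => decide (p % B < l.getD (p / B) 0)

def decU (B n : ℕ) (w : List Bool) : List ℕ :=
  (List.range n).map fun i => (List.range B).countP fun j => w.getD (i * B + j) false

theorem cnt_lt (B a : ℕ) (h : a ≤ B) : (List.range B).countP (fun j => decide (j < a)) = a := by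
  have : ∀ n, (List.range n).countP (fun j => decide (j < a)) = min n a := by
    intro n
    induction n with
    | zero => simp
    | succ n ih =>
      rw [List.range_succ, List.countP_append, ih]
      by_cases h : n < a <;> simp [h] <;> omega
  rw [this]; omega

theorem dec_enc (B : ℕ) (l : List ℕ) (h1 : l.length ≤ B) (h2 : ∀ a ∈ l, a ≤ B) :
    decU B l.length (encU B l) = l := by
  refine List.ext_getElem (by simp [decU]) fun i hi hi' => ?_
  simp only [decU, List.getElem_map, List.getElem_range]
  rw [← cnt_lt B l[i] (h2 _ (List.getElem_mem _))]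
  refine List.countP_congr fun j hj => ?_
  have hj := List.mem_range.1 hj
  have h3 : i * B + j < B * B := by nlinarith
  have h4 : (i * B + j) % B = j := by rw [Nat.mul_add_mod_of_lt hj]
  have h5 : (i * B + j) / B = i := by
    rw [mul_comm, Nat.mul_add_div (by omega), Nat.div_eq_of_lt hj, add_zero]
  simp [encU, List.getD_eq_getElem?_getD, h3, h4, h5, hi']

/-- membership in #P for counting maps between initial segments -/
theorem inSharpP_funs (n m : α → ℕ) (hn : PT n) (hm : PT m) (P : ∀ x, (Fin (n x) → Fin (m x)) → Prop)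
    (W : α → List ℕ → Bool) (hW : PT fun p : α × List ℕ => W p.1 p.2)
    (e : ∀ x f, W x (List.ofFn fun i => (f i : ℕ)) = true ↔ P x f) :
    InSharpP fun x => Nat.card {f : Fin (n x) → Fin (m x) // P x f} := by
  obtain ⟨q, hq⟩ := (hn.add hm).out
  have hB : ∀ x, n x + m x ≤ q.eval (sz x) := fun x => by
    have := hq x; simp only [sz_nat] at this; omega
  have h1 : PT fun p : α × List Bool => decU (q.eval (sz p.1)) (n p.1) p.2 := by
    unfold decU; fun_prop
  have h2 : PT fun p : α × List Bool => encU (q.eval (sz p.1)) (decU (q.eval (sz p.1)) (n p.1) p.2) := by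
    have h3 : PT fun p : (α × List Bool) × ℕ => decU (q.eval (sz p.1.1)) (n p.1.1) p.1.2 :=
      h1.comp (by fun_prop)
    unfold encU
    refine PT.map (by fun_prop) (PT.decLt (by fun_prop) (PT.getD h3 (by fun_prop) (by fun_prop)))
  have h3 : PT fun p : α × List Bool => (p.2 == encU (q.eval (sz p.1)) (decU (q.eval (sz p.1))
      (n p.1) p.2) && (decU (q.eval (sz p.1)) (n p.1) p.2).all (fun a => decide (a < m p.1)) &&
        W p.1 (decU (q.eval (sz p.1)) (n p.1) p.2)) :=
    ((PT.beq (by fun_prop) h2).and (PT.all h1 (by fun_prop))).and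
      (hW.comp (g := fun p : α × List Bool => (p.1, decU (q.eval (sz p.1)) (n p.1) p.2))
        (PT.pair (by fun_prop) h1))
  refine ⟨_, q * q, RT.polyTime (RT.comp (f := fun b => b) RT.boolOut (RT.comp h3 RT.cert)),
    fun x => ?_⟩
  have hd : ∀ f : Fin (n x) → Fin (m x), decU (q.eval (sz x)) (n x) (encU (q.eval (sz x))
      (List.ofFn fun i => (f i : ℕ))) = List.ofFn fun i => (f i : ℕ) := by
    intro f
    have := dec_enc (q.eval (sz x)) (List.ofFn fun i => (f i : ℕ))
      (by have := hB x; simp; omega) (by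
        intro a ha
        obtain ⟨i, rfl⟩ := (List.mem_ofFn' _ _).1 ha
        have := hB x; have := (f i).2; simp only; omega)
    simpa using this
  refine Nat.card_congr (Equiv.ofBijective (fun f => ⟨encU (q.eval (sz x))
    (List.ofFn fun i => (f.1 i : ℕ)), by simp [encU, sz], ?_⟩) ⟨?_, ?_⟩)
  · simp only [hd, beq_self_eq_true, Bool.true_and, Bool.and_eq_true, List.all_eq_true,
      decide_eq_true_eq]
    refine ⟨fun a ha => ?_, (e x _).2 f.2⟩
    obtain ⟨i, rfl⟩ := (List.mem_ofFn' _ _).1 ha
    exact (f.1 i).2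
  · intro f f' hh
    have h4 := congrArg (fun w => decU (q.eval (sz x)) (n x) w.1) hh
    simp only [hd] at h4
    exact Subtype.ext (funext fun i => Fin.ext (congrFun (List.ofFn_injective h4) i))
  · rintro ⟨w, hw, hV⟩
    simp only [Bool.and_eq_true, beq_iff_eq, List.all_eq_true, decide_eq_true_eq] at hV
    obtain ⟨⟨a1, a2⟩, a3⟩ := hV
    have hl : (decU (q.eval (sz x)) (n x) w).length = n x := by simp [decU]
    let f : Fin (n x) → Fin (m x) := fun i => ⟨(decU (q.eval (sz x)) (n x) w)[i.1]'(by
      rw [hl]; exact i.2), a2 _ (List.getElem_mem _)⟩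
    have hf : (List.ofFn fun i => (f i : ℕ)) = decU (q.eval (sz x)) (n x) w :=
      List.ext_getElem (by simp [hl]) fun i _ _ => by simp [f]
    refine ⟨⟨f, (e x f).1 (by rw [hf]; exact a3)⟩, Subtype.ext ?_⟩
    simp only [hf]
    exact a1.symm

end Pool.Agent.H25.SP
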