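import Mathlib

set_option autoImplicit false

namespace Pool.Agent.H25.SRank

open Set Filter Topology Pointwise

variable {G : Type} [Group G] (g : ℕ → G)

def St (n : ℕ) (X Y : Set G) : Prop := (∀ x ∈ X, ∀ y ∈ X, x * y ∈ Y) ∧ (∀ x ∈ X, x⁻¹ ∈ Y) ∧
  ∀ k ≤ n, ∀ x ∈ X, g k * x * (g k)⁻¹ ∈ Y

theorem mk (hg : g.Surjective) (W : ℕ → Set G) (h1 : ∀ n, 1 ∈ W n)
    (h2 : ∀ n, St g n (W (n + 1)) (W n)) (h3 : ∀ n, g n ≠ 1 → g n ∉ W n) :
    ∃ t : PLift (TopologicalSpace G), @IsTopologicalGroup G t.1 _ ∧ @T2Space G t.1 ∧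
      (@nhds G t.1 1).HasBasis (fun _ => True) W := by
  have a : Antitone W := antitone_nat_of_succ_le fun n x hx => by
    simpa using (h2 n).1 x hx 1 (h1 _)
  let B : GroupFilterBasis G :=
    { sets := range W
      nonempty := range_nonempty _
      inter_sets := by
        rintro _ _ ⟨m, rfl⟩ ⟨n, rfl⟩
        exact ⟨_, ⟨max m n, rfl⟩, subset_inter (a (le_max_left _ _)) (a (le_max_right _ _))⟩
      one' := by rintro _ ⟨n, rfl⟩; exact h1 n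
      mul' := by rintro _ ⟨n, rfl⟩; exact ⟨_, ⟨n + 1, rfl⟩, mul_subset_iff.2 (h2 n).1⟩
      inv' := by rintro _ ⟨n, rfl⟩; exact ⟨_, ⟨n + 1, rfl⟩, (h2 n).2.1⟩
      conj' := by
        rintro x _ ⟨n, rfl⟩
        obtain ⟨k, rfl⟩ := hg x
        exact ⟨_, ⟨max k n + 1, rfl⟩, fun y hy =>
          a (le_max_right _ _) ((h2 _).2.2 k (le_max_left _ _) y hy)⟩ }
  let _ := B.topology
  refine ⟨⟨B.topology⟩, B.isTopologicalGroup, IsTopologicalGroup.t2Space_of_one_sep fun x hx => ?_,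
    B.nhds_one_hasBasis.to_hasBasis (by rintro _ ⟨n, rfl⟩; exact ⟨n, trivial, subset_rfl⟩)
      fun n _ => ⟨_, ⟨n, rfl⟩, subset_rfl⟩⟩
  obtain ⟨k, rfl⟩ := hg x
  exact ⟨_, B.mem_nhds_one ⟨k, rfl⟩, h3 k hx⟩

variable [TopologicalSpace G] [IsTopologicalGroup G]

theorem thick (K P : ℕ → Set G) (h1 : ∀ n, IsCompact (K n)) (h2 : ∀ n, St g n (K (n + 1)) (K n))
    (h3 : ∀ n, IsOpen (P n)) (h4 : ∀ n, K n ⊆ P n) : ∃ O : ℕ → Set G,
      ∀ n, (IsOpen (O n) ∧ K n ⊆ O n) ∧ O n ⊆ P n ∧ St g n (O (n + 1)) (O n) := by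
  have : ∀ n (O : {O // IsOpen O ∧ K n ⊆ O}), ∃ O' : {O // IsOpen O ∧ K (n + 1) ⊆ O},
      O'.1 ⊆ P (n + 1) ∧ St g n O'.1 O.1 := fun n ⟨O, o1, o2⟩ => by
    obtain ⟨u, v, a1, a2, a3, a4, a5⟩ := generalized_tube_lemma (h1 (n + 1)) (h1 (n + 1))
      (o1.preimage continuous_mul) fun p hp => o2 ((h2 n).1 _ hp.1 _ hp.2)
    exact ⟨⟨P (n + 1) ∩ (u ∩ v) ∩ (O⁻¹ ∩ ⋂ k ∈ Iic n, (fun x => g k * x * (g k)⁻¹) ⁻¹' O),
      ((h3 _).inter (a1.inter a2)).inter (o1.inv.inter ((finite_Iic n).isOpen_biInter fun k _ =>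
        o1.preimage (by fun_prop))), fun x hx => ⟨⟨h4 _ hx, a3 hx, a4 hx⟩, o2 ((h2 n).2.1 x hx),
          mem_iInter₂.2 fun k hk => o2 ((h2 n).2.2 k hk x hx)⟩⟩, fun x hx => hx.1.1,
      fun x hx y hy => a5 (mk_mem_prod hx.1.2.1 hy.1.2.2), fun x hx => hx.2.1,
      fun k hk x hx => mem_iInter₂.1 hx.2.2 k hk⟩
  choose f f1 f2 using this
  let O : ∀ n, {O // IsOpen O ∧ K n ⊆ O} := fun n => Nat.rec ⟨P 0, h3 0, h4 0⟩ f n
  refine ⟨fun n => (O n).1, fun n => ⟨(O n).2, ?_, f2 n (O n)⟩⟩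
  cases n
  exacts [subset_rfl, f1 _ _]

theorem base [T2Space G] : ∃ V : ℕ → Set G, ∀ n, (IsOpen (V n) ∧ 1 ∈ V n) ∧
    (g n ≠ 1 → g n ∉ V n) ∧ St g n (V (n + 1)) (V n) := by
  obtain ⟨V, hV⟩ := thick g (fun _ => {1}) (fun n => ({g n} \ {1})ᶜ) (fun _ => isCompact_singleton)
    (fun n => by simp [St]) (fun n => ((finite_singleton _).sdiff.isClosed).isOpen_compl)
    (fun n => by simp)
  exact ⟨V, fun n => ⟨⟨(hV n).1.1, (hV n).1.2 rfl⟩, fun h e => (hV n).2.1 e ⟨rfl, h⟩, (hV n).2.2⟩⟩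

theorem core [T2Space G] (hg : g.Surjective) {T : Set G} (hT : IsCompact T) :
    ∃ C : ℕ → Set G, (∀ i, IsCompact (C i)) ∧ ∀ y : ℕ → G, (∀ i, y i ∉ C i) →
      ∃ t : PLift (TopologicalSpace G), @IsTopologicalGroup G t.1 _ ∧ @T2Space G t.1 ∧
        (∀ u : ℕ → G, Tendsto u atTop (𝓝 1) → (∀ᶠ n in atTop, u n ∈ T) →
          Tendsto u atTop (@nhds G t.1 1)) ∧ ∃ W ∈ @nhds G t.1 1, ∀ i, y i ∉ W := by
  classical
  let C : ℕ → ℕ → Set G := fun r => Nat.rec (fun _ => {1}) (fun _ X n => insert 1 T ∪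
    (X (n + 1) * X (n + 1) ∪ ((X (n + 1))⁻¹ ∪
      ⋃ k ∈ Iic n, (fun x => g k * x * (g k)⁻¹) '' X (n + 1)))) r
  have c1 : ∀ r n, IsCompact (C r n) := fun r => by
    induction r with
    | zero => exact fun _ => isCompact_singleton
    | succ r ih => exact fun n => (hT.insert 1).union (((ih _).mul (ih _)).union ((ih _).inv.union
        ((finite_Iic n).isCompact_biUnion fun k _ => (ih _).image (by fun_prop))))
  have c2 : ∀ i n, n < i → i - n = i - (n + 1) + 1 := fun i n h => by omega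
  refine ⟨fun i => C i 0, fun i => c1 i 0, fun y hy => ?_⟩
  obtain ⟨V, hV⟩ := base g
  choose O hO using fun i => thick g (fun n => C (i - n) n) (fun n => if n = 0 then {y i}ᶜ else univ)
    (fun n => c1 _ _) (fun n => by
      by_cases h : n < i
      · rw [c2 i n h]
        exact ⟨fun x hx y hy => .inr (.inl (mul_mem_mul hx hy)), fun x hx =>
          .inr (.inr (.inl (inv_mem_inv.2 hx))), fun k hk x hx =>
            .inr (.inr (.inr (mem_iUnion₂.2 ⟨k, hk, x, hx, rfl⟩)))⟩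
      · simp [St, C, show i - n = 0 by omega, show i - (n + 1) = 0 by omega])
    (fun n => by split_ifs <;> simp) fun n => by
      split_ifs with h
      · exact subset_compl_singleton_iff.2 (h ▸ hy i)
      · exact subset_univ _
  have c3 : ∀ i n, 1 ∈ O i n := fun i n => (hO i n).1.2 (by
    cases i - n
    exacts [rfl, .inl (.inl rfl)])
  obtain ⟨t, t1, t2, t3⟩ := mk g hg (fun n => V n ∩ ⋂ i, O i n)
    (fun n => ⟨(hV n).1.2, mem_iInter.2 fun i => c3 i n⟩) (fun n =>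
      ⟨fun x hx z hz => ⟨(hV n).2.2.1 x hx.1 z hz.1, mem_iInter.2 fun i =>
        (hO i n).2.2.1 x (mem_iInter.1 hx.2 i) z (mem_iInter.1 hz.2 i)⟩,
      fun x hx => ⟨(hV n).2.2.2.1 x hx.1, mem_iInter.2 fun i =>
        (hO i n).2.2.2.1 x (mem_iInter.1 hx.2 i)⟩,
      fun k hk x hx => ⟨(hV n).2.2.2.2 k hk x hx.1, mem_iInter.2 fun i =>
        (hO i n).2.2.2.2 k hk x (mem_iInter.1 hx.2 i)⟩⟩) fun n h e => (hV n).2.1 h e.1
  refine ⟨t, t1, t2, fun u u1 u2 => t3.tendsto_right_iff.2 fun n _ => ?_, _, t3.mem_of_mem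
    (i := 0) trivial, fun i h => (hO i 0).2.1 (mem_iInter.1 h.2 i) rfl⟩
  filter_upwards [u2, u1 ((hV n).1.1.mem_nhds (hV n).1.2), u1 ((biInter_mem (finite_Iic n)).2
    fun i _ => (hO i n).1.1.mem_nhds (c3 i n))] with k a b c
  refine ⟨b, mem_iInter.2 fun i => (le_or_gt i n).elim (mem_iInter₂.1 c i) fun h => (hO i n).1.2 ?_⟩
  rw [c2 i n h]
  exact .inl (.inr a)

omit [Group G] [IsTopologicalGroup G] in
theorem scat [T2Space G] [Countable G] {C U : Set G} (hC : IsCompact C) (h : U ⊆ C)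
    (hU : U.Nonempty) : ∃ p O, IsOpen O ∧ O ∩ U = {p} := by
  have := isCompact_iff_compactSpace.1 (hC.of_isClosed_subset isClosed_closure
    (closure_minimal h hC.isClosed))
  have := hU.closure.to_subtype
  obtain ⟨p, q, hq⟩ := nonempty_interior_of_iUnion_of_closed (f := fun p : closure U => {p})
    (fun _ => isClosed_singleton) (iUnion_of_singleton _)
  obtain ⟨_, a1, ⟨O, o1, rfl⟩, a3⟩ := mem_interior.1 hq
  obtain ⟨r, r1, r2⟩ := mem_closure_iff.1 q.2 O o1 a3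
  have k : ∀ z ∈ O ∩ U, z = p := fun z hz => congrArg Subtype.val
    (a1 (show (⟨z, subset_closure hz.2⟩ : closure U) ∈ _ from hz.1))
  exact ⟨r, O, o1, eq_singleton_iff_unique_mem.2 ⟨⟨r1, r2⟩, fun z hz => (k z hz).trans (k r ⟨r1, r2⟩).symm⟩⟩

omit [IsTopologicalGroup G] [TopologicalSpace G] in
theorem main [Countable G] [t : TopologicalSpace G] [IsTopologicalGroup G] [T2Space G]
    [FrechetUrysohnSpace G] (S : Set (ℕ → G)) (h1 : ∀ u ∈ S, Tendsto u atTop (𝓝 1))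
    (h2 : ∀ t' : TopologicalSpace G, @IsTopologicalGroup G t' _ → @T2Space G t' →
      (∀ u ∈ S, Tendsto u atTop (@nhds G t' 1)) → t ≤ t')
    (h3 : ∀ φ : S → ℕ → ℕ, ∃ ψ : ℕ → ℕ, ∀ u, ∀ᶠ n in atTop, φ u n ≤ ψ n) : DiscreteTopology G := by
  by_contra hn
  obtain ⟨g, hg⟩ := exists_surjective_nat G
  obtain ⟨V, hV⟩ := base g
  obtain ⟨d, d1, d2, d3⟩ := mk g hg V (fun n => (hV n).1.2) (fun n => (hV n).2.2) fun n => (hV n).2.1
  have d4 : 𝓝 (1 : G) ≤ @nhds G d.1 1 := d3.ge_iff.2 fun n _ => (hV n).1.1.mem_nhds (hV n).1.2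
  have d5 : t ≤ d.1 := continuous_id_iff_le.1
    (@continuous_of_continuousAt_one G t _ _ G _ _ d.1 d1.toContinuousMul _ _ (MonoidHom.id G) d4)
  have : ∀ (u : S) m, ∃ N, ∀ k, u.1 k ∈ g '' Iic N ∪ V m := fun u m => by
    obtain ⟨N, hN⟩ := (((Nat.cofinite_eq_atTop ▸ h1 u u.2) ((hV m).1.1.mem_nhds (hV m).1.2)).image
      fun k => (hg (u.1 k)).choose).bddAbove
    exact ⟨N, fun k => or_iff_not_imp_right.2 fun e => ⟨_, hN ⟨k, e, rfl⟩, (hg _).choose_spec⟩⟩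
  choose φ hφ using this
  obtain ⟨ψ, hψ⟩ := h3 φ
  let T := ⋂ m, g '' Iic (ψ m) ∪ V m
  have hT : @IsCompact G d.1 T := by
    let _ := d.1
    refine isCompact_iff_ultrafilter_le_nhds'.2 fun F hF => ?_
    by_cases e : ∀ m, V m ∈ F
    · exact ⟨1, mem_iInter.2 fun m => .inr (hV m).1.2, d3.ge_iff.2 fun m _ => e m⟩
    obtain ⟨m, hm⟩ := not_forall.1 e
    obtain ⟨x, -, rfl⟩ := F.eq_pure_of_finite_mem ((finite_Iic _).image g)
      ((Ultrafilter.union_mem_iff.1 (mem_of_superset hF (iInter_subset _ m))).resolve_right hm)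
    exact ⟨x, hF, pure_le_nhds x⟩
  have h5 : ∀ u ∈ S, ∀ᶠ k in atTop, u k ∈ T := fun u hu => by
    obtain ⟨M, hM⟩ := eventually_atTop.1 (hψ ⟨u, hu⟩)
    filter_upwards [h1 u hu ((biInter_mem (finite_Iic M)).2
      fun m _ => (hV m).1.1.mem_nhds (hV m).1.2)] with k hk
    exact mem_iInter.2 fun m => (le_total m M).elim (fun h => .inr (mem_iInter₂.1 hk m h)) fun h =>
      (hφ ⟨u, hu⟩ m k).imp_left fun e => image_mono (Iic_subset_Iic.2 (hM m h)) e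
  obtain ⟨C, c1, c2⟩ := @core G _ g d.1 d1 d2 hg T hT
  have h4 : ∀ k, (1 : G) ∈ closure (⋃ i ∈ Iic k, C i)ᶜ := fun k => by
    rw [closure_compl]
    intro e
    obtain ⟨p, O, o1, o2⟩ := @scat G d.1 d2 _ _ _ (@Set.Finite.isCompact_biUnion G _ d.1 _ _ (finite_Iic k)
      fun i _ => c1 i) interior_subset ⟨_, e⟩
    exact hn ((MulAction.IsPretransitive.discreteTopology_iff G p).2
      (o2 ▸ (o1.mono d5).inter isOpen_interior))
  obtain ⟨x, x1, x2⟩ := mem_closure_iff_seq_limit.1 (show (1 : G) ∈ closure {1}ᶜ from by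
    rw [closure_compl]
    exact fun e => hn (discreteTopology_of_isOpen_singleton_one
      (isOpen_singleton_iff_nhds_eq_pure _ |>.2 (le_antisymm (le_pure_iff.2
        (mem_interior_iff_mem_nhds.1 e)) (pure_le_nhds _)))))
  choose O o1 o2 o3 using fun n => exists_mem_nhds_isClosed_subset (isOpen_ne.mem_nhds (x1 n))
  obtain ⟨b, b1, b2⟩ := mem_closure_iff_seq_limit.1 (show (1 : G) ∈ closure
      (⋃ n, O n ∩ {z | (x n)⁻¹ * z ∉ ⋃ i ∈ Iic n, C i}) from mem_closure_iff.2 fun U u1 u2 => by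
    obtain ⟨n, hn⟩ := (x2.eventually (u1.mem_nhds u2)).exists
    obtain ⟨a, a1, a2⟩ := mem_closure_iff_nhds.1 (h4 n) _ ((continuous_const_mul (x n)).continuousAt
      (show U ∩ O n ∈ 𝓝 (x n * 1) by simpa using ⟨u1.mem_nhds hn, o1 n⟩))
    exact ⟨x n * a, a1.1, mem_iUnion.2 ⟨n, a1.2, by simpa using a2⟩⟩)
  choose n n1 n2 using fun i => mem_iUnion.1 (b1 i)
  have n3 : Tendsto n atTop atTop := tendsto_atTop.2 fun k => (b2.eventually ((biInter_mem (finite_Iio k)).2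
    fun i _ => (o2 i).isOpen_compl.mem_nhds fun e => o3 i e rfl)).mono fun l hl =>
      not_lt.1 fun e => mem_iInter₂.1 hl _ e (n1 l)
  have a1 : Tendsto (fun l => (x (n l))⁻¹ * b l) atTop (𝓝 1) := by
    simpa using (x2.comp n3).inv.mul b2
  choose l l1 l2 using fun i => ((eventually_ge_atTop i).and (n3.eventually_ge_atTop i)).exists
  obtain ⟨t', t1, t2, t3, W, t4, t5⟩ := c2 _ fun i e => n2 (l i) (mem_iUnion₂.2 ⟨i, l2 i, e⟩)
  obtain ⟨N, hN⟩ := eventually_atTop.1 (a1 (_root_.nhds_mono (h2 t'.1 t1 t2 fun u hu =>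
    t3 u ((h1 u hu).mono_right d4) (h5 u hu)) t4))
  exact t5 N (hN _ (l1 N))

end Pool.Agent.H25.SRank
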