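import Mathlib
import Pool.Agent.H25.Kron
import Pool.Agent.H25.Aron

set_option autoImplicit false

namespace Pool.Agent.H25.SSep

open Set Filter Topology TopologicalSpace Pool.Agent.H25.Aron

theorem core : ∃ (H : Type) (_ : TopologicalSpace H) (_ : AddCommGroup H),
    IsTopologicalAddGroup H ∧ T2Space H ∧ (∀ K : AddSubgroup H, SeparableSpace K) ∧
      ∃ L : AddSubgroup (ℝ × H), IsClosed (L : Set (ℝ × H)) ∧ ¬ SeparableSpace L := by
  classical
  have hW : Cardinal.mk W ≤ Cardinal.continuum := mkW ▸ Cardinal.aleph_one_le_continuum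
  obtain ⟨u, r, l, l0, l1, l2⟩ := Kron.indep (Bool ⊕ W × Bool) W (by
    simpa using add_le_add (Cardinal.nat_lt_continuum 2).le
      (mul_le_mul' hW (Cardinal.nat_lt_continuum 2).le)) hW
  let j : Bool ⊕ W → W → Bool ⊕ W × Bool := fun i a =>
    i.map id fun b => (b, decide (a < b))
  have hj : ∀ i i' a, j i a = j i' a → i = i' := by
    rintro (i | i) (i' | i') a h <;> simp_all [j]
  let c : Bool ⊕ W → (W →₀ ℤ) →+ ℝ := fun i =>
    Finsupp.liftAddHom fun a => zmultiplesHom ℝ (u (j i a) * r a)
  have hc : ∀ i x, c i x = ∑ a ∈ x.support, x a • (u (j i a) * r a) := fun i x => rfl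
  let φ : (W →₀ ℤ) →+ ℝ := Finsupp.liftAddHom fun a => zmultiplesHom ℝ (r a)
  have hφ : ∀ x, φ x = ∑ a ∈ x.support, x a • r a := fun x => rfl
  let Ψ : (W →₀ ℤ) →+ (Bool ⊕ W → UnitAddCircle) :=
    AddMonoidHom.pi fun i => (QuotientAddGroup.mk' _).comp (c i)
  have hΨ : ∀ x i, Ψ x i = (c i x : UnitAddCircle) := fun _ _ => rfl
  have hz : ∀ s t : ℝ, (s : UnitAddCircle) = t → ∃ k : ℤ, s - t = k := fun s t h => by
    obtain ⟨k, hk⟩ := (AddCircle.coe_eq_zero_iff 1).1 (show ((s - t : ℝ) : UnitAddCircle) = 0 by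
      rw [AddCircle.coe_sub, h, sub_self])
    exact ⟨k, by simpa using hk.symm⟩
  let L : AddSubgroup (ℝ × Ψ.range) :=
    { carrier := {p | ∀ b, p.2.1 (.inl b) = (u (.inl b) * p.1 : ℝ)}
      zero_mem' := fun b => by simp
      add_mem' := fun {p q} hp hq b => by simp [mul_add, ← hp b, ← hq b]
      neg_mem' := fun {p} hp b => by simp [← hp b] }
  have h0 : ∀ b x, c (.inl b) x = u (.inl b) * φ x := fun b x => by
    simp [hc, hφ, j, Finset.mul_sum, mul_left_comm]
  have hL : ∀ p ∈ L, ∃ x, p.1 = φ x ∧ p.2.1 = Ψ x := by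
    rintro ⟨t, _, x, rfl⟩ hp
    refine ⟨x, ?_, rfl⟩
    choose k hk using fun b => hz _ _ ((hΨ x _).symm.trans (hp b))
    simp only [h0, ← mul_sub] at hk
    obtain ⟨a, -⟩ := bnd countable_empty
    have h1 : k true • (u (.inl false) * r a) = k false • (u (.inl true) * r a) := by
      simp only [zsmul_eq_mul, ← hk]
      ring
    have h2 := congrArg (l (.inl false, a)) h1
    rw [map_zsmul, map_zsmul, l1 (.inl false, a), l2 _ (.inl true, a) (by simp)] at h2
    have h3 : u (.inl true) ≠ 0 := fun e => by simpa [e] using l1 (.inl true, a)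
    have h4 := hk true
    rw [show k true = 0 by simpa using h2, Int.cast_zero] at h4
    exact (sub_eq_zero.1 ((mul_eq_zero.1 h4).resolve_left h3)).symm
  refine ⟨Ψ.range, inferInstance, inferInstance, inferInstance, inferInstance, fun K => ?_,
    L, ?_, fun hs => ?_⟩
  · by_cases hK : ∀ y : K, y = 0
    · have : Subsingleton K := ⟨fun a b => by rw [hK a, hK b]⟩
      infer_instance
    push Not at hK
    obtain ⟨y, hy⟩ := hK
    obtain ⟨x, hx⟩ := y.1.2
    have h1 : x ≠ 0 := fun e => hy (Subtype.ext (Subtype.ext (by simpa [e] using hx.symm)))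
    obtain ⟨a, ha⟩ := Finsupp.support_nonempty_iff.2 h1
    have h2 := Kron.kron (fun i => c i x) fun I m k h => funext fun i => by
      have h3 := congrArg (l (j i a, a)) h
      simp only [hc, ← zsmul_eq_mul, map_sum, map_zsmul] at h3
      rw [← zsmul_one, map_zsmul, l0, Finset.sum_eq_single i, Finset.sum_eq_single a,
        l1 (j i a, a)] at h3
      · simpa [Finsupp.mem_support_iff.1 ha] using h3
      · intro b _ hb
        rw [l2 _ (j i b, b) fun e => hb (congrArg Prod.snd e), smul_zero]
      · exact fun h => absurd ha h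
      · intro i' _ hi
        rw [Finset.sum_eq_zero, smul_zero]
        intro b _
        rw [l2 _ (j i' b, b), smul_zero]
        intro e
        obtain rfl : b = a := congrArg Prod.snd e
        exact hi (Subtype.ext (hj _ _ _ (congrArg Prod.fst e)))
      · simp
    refine ⟨range fun n : ℤ => n • y, countable_range _,
      (IsInducing.subtypeVal.comp IsInducing.subtypeVal).dense_iff.2 fun z => ?_⟩
    refine closure_mono ?_ (h2 _)
    rintro _ ⟨n, rfl⟩
    exact ⟨_, ⟨n, rfl⟩, by simp [← hx]; rfl⟩
  · simp only [L, AddSubgroup.coe_set_mk, AddSubmonoid.coe_set_mk, AddSubsemigroup.coe_set_mk,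
      ofPred_forall]
    exact isClosed_iInter fun b => isClosed_eq
      ((continuous_apply _).comp (continuous_subtype_val.comp continuous_snd)) (by fun_prop)
  · obtain ⟨s, s1, s2⟩ := exists_countable_dense L
    choose x x1 x2 using fun p : L => hL p p.2
    obtain ⟨b, hb⟩ := bnd (s1.biUnion fun p _ => (x p).support.countable_toSet)
    have h1 : (fun p : L => p.1.2.1 (.inr b)) =
        fun p : L => ((u (.inr (b, true)) * p.1.1 : ℝ) : UnitAddCircle) := by
      refine Continuous.ext_on s2 ((continuous_apply _).comp (continuous_subtype_val.comp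
        (continuous_snd.comp continuous_subtype_val))) (by fun_prop) fun p hp => ?_
      simp only [x1, x2, hΨ, hc, hφ, Finset.mul_sum]
      congr 1
      refine Finset.sum_congr rfl fun a ha => ?_
      simp [j, hb a (mem_biUnion hp ha), mul_left_comm]
    obtain ⟨k, hk⟩ := hz _ _ ((hΨ _ _).symm.trans (congrFun h1
      ⟨(φ (Finsupp.single b 1), ⟨_, Finsupp.single b 1, rfl⟩), fun b' => by simp [hΨ, h0]⟩))
    have h2 := congrArg (l (.inr (b, false), b)) hk
    simp only [c, φ, Finsupp.liftAddHom_apply_single, zmultiplesHom_apply, one_smul, map_sub] at h2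
    rw [← zsmul_one, map_zsmul, l0, l2 _ (.inr (b, true), b) (by simp)] at h2
    simpa [j, l1 (.inr (b, false), b)] using h2

/-- a group that maps continuously onto the reals is not strongly separable -/
theorem main (G : Type) [TopologicalSpace G] [Group G] (π : G →* Multiplicative ℝ)
    (h1 : Continuous π) (h2 : Function.Surjective π) :
    ∃ (H : Type) (_ : TopologicalSpace H) (_ : CommGroup H), IsTopologicalGroup H ∧ T2Space H ∧
      (∀ K : Subgroup H, SeparableSpace K) ∧
      ∃ L : Subgroup (G × H), IsClosed (L : Set (G × H)) ∧ ¬ SeparableSpace L := by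
  obtain ⟨H, _, _, _, _, h3, L, h4, h5⟩ := core
  let f : G × Multiplicative H →* Multiplicative (ℝ × H) :=
    { toFun := fun p => .ofAdd ((π p.1).toAdd, p.2.toAdd)
      map_one' := by simp
      map_mul' := fun p q => by simp; rfl }
  have hf : Continuous f := (h1.comp continuous_fst).prodMk continuous_snd
  refine ⟨Multiplicative H, inferInstance, inferInstance, inferInstance, ‹T2Space H›,
    fun K => h3 K.toAddSubgroup', L.toSubgroup.comap f, h4.preimage hf, fun hs => h5 ?_⟩
  refine DenseRange.separableSpace (f := fun p : L.toSubgroup.comap f => (⟨f p.1, p.2⟩ : L))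
    (Function.Surjective.denseRange ?_) ((hf.comp continuous_subtype_val).subtype_mk _)
  rintro ⟨⟨t, y⟩, hp⟩
  obtain ⟨g, hg⟩ := h2 (.ofAdd t)
  have : f (g, .ofAdd y) = .ofAdd (t, y) := by simp [f, hg]
  exact ⟨⟨(g, .ofAdd y), by simpa [this] using hp⟩, Subtype.ext this⟩

end Pool.Agent.H25.SSep
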