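import Pool.Agent.H25.DSepDefs

/-! Separable sequential Hausdorff spaces are D-separable; a countable non-Hausdorff example. -/

set_option autoImplicit false

namespace Pool.Agent.H25.SeqD

open Set Filter Topology Pool.Agent.H25.DSepDefs

theorem disc_iff {X : Type} [TopologicalSpace X] (D : Set X) :
    DiscreteTopology D ↔ ∀ d ∈ D, ∃ U, IsOpen U ∧ U ∩ D = {d} :=
  discreteTopology_subtype_iff'

theorem gen {X : Type} [TopologicalSpace X] [T2Space X] [SequentialSpace X] (A : Set X) :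
    closure A ⊆ {x | ∃ D ⊆ A, DiscreteTopology D ∧ x ∈ closure D} := by
  refine closure_minimal (fun a ha => ⟨{a}, singleton_subset_iff.2 ha, inferInstance,
    subset_closure rfl⟩) (IsSeqClosed.isClosed fun u x hu hx => ?_)
  by_cases h : ∃ n, u n = x
  · obtain ⟨n, rfl⟩ := h
    exact hu n
  push Not at h
  have h1 : ∀ s : ℕ × {V : Set X // IsOpen V ∧ x ∈ V}, ∃ (t : ℕ × {V : Set X // IsOpen V ∧ x ∈ V})
      (U : Set X), s.1 < t.1 ∧ IsOpen U ∧ u t.1 ∈ U ∧ U ⊆ s.2.1 ∧ t.2.1 ⊆ s.2.1 ∧ Disjoint U t.2.1 := by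
    rintro ⟨n, V, h1, h2⟩
    obtain ⟨m, h3, h4⟩ := ((eventually_gt_atTop n).and (hx (h1.mem_nhds h2))).exists
    obtain ⟨U, W, a1, a2, a3, a4, a5⟩ := t2_separation (h m)
    exact ⟨(m, ⟨V ∩ W, h1.inter a2, h2, a4⟩), U ∩ V, h3, a1.inter h1, ⟨a3, h4⟩, inter_subset_right,
      inter_subset_left, a5.mono inter_subset_left inter_subset_right⟩
  choose g U g1 g2 g3 g4 g5 g6 using h1
  let s : ℕ → ℕ × {V : Set X // IsOpen V ∧ x ∈ V} := fun k => Nat.rec (0, ⟨univ, isOpen_univ, trivial⟩)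
    (fun _ t => g t) k
  have s1 : Antitone fun k => (s k).2.1 := antitone_nat_of_succ_le fun k => g5 _
  have s2 : StrictMono fun k => (s (k + 1)).1 := strictMono_nat_of_lt_succ fun k => g1 _
  have s3 : ∀ j k, j < k → Disjoint (U (s j)) (U (s k)) :=
    fun j k hjk => (g6 (s j)).mono_right ((g4 _).trans (s1 (Nat.succ_le_of_lt hjk)))
  choose D d1 d2 d3 using hu
  refine ⟨⋃ k, D (s (k + 1)).1 ∩ U (s k), iUnion_subset fun k => inter_subset_left.trans (d1 _),
    (disc_iff _).2 fun d hd => ?_, ?_⟩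
  · obtain ⟨k, h1, h2⟩ := mem_iUnion.1 hd
    obtain ⟨W, w1, w2⟩ := (disc_iff _).1 (d2 _) d h1
    refine ⟨W ∩ U (s k), w1.inter (g2 _), Subset.antisymm ?_ (singleton_subset_iff.2
      ⟨⟨(w2.ge rfl).1, h2⟩, hd⟩)⟩
    rintro z ⟨⟨z1, z2⟩, z3⟩
    obtain ⟨j, z4, z5⟩ := mem_iUnion.1 z3
    rcases lt_trichotomy j k with h | rfl | h
    · exact absurd z2 (disjoint_left.1 (s3 j k h) z5)
    · exact w2.le ⟨z1, z4⟩
    · exact absurd z5 (disjoint_left.1 (s3 k j h) z2)
  · refine isClosed_closure.mem_of_tendsto (hx.comp s2.tendsto_atTop)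
      (Eventually.of_forall fun k => ?_)
    refine closure_mono (subset_iUnion _ k) ?_
    exact (g2 (s k)).closure_inter ⟨d3 _, g3 (s k)⟩

theorem sep_D (X : Type) [TopologicalSpace X] [T2Space X] [SequentialSpace X]
    [TopologicalSpace.SeparableSpace X] : BigDSep X := by
  intro D hD
  rcases isEmpty_or_nonempty X with h | h
  · exact ⟨fun _ => ∅, fun _ => ⟨empty_subset _, inferInstance⟩, fun x => isEmptyElim x⟩
  obtain ⟨u, hu⟩ := TopologicalSpace.exists_dense_seq X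
  choose F f1 f2 f3 using fun n => gen (D n) (hD n (u n))
  refine ⟨F, fun n => ⟨f1 n, f2 n⟩, Dense.of_closure (hu.mono ?_)⟩
  rintro _ ⟨n, rfl⟩
  exact closure_mono (subset_iUnion F n) (f3 n)

/-- a non-empty set is open when it is cofinite in every column -/
@[reducible] def col : TopologicalSpace (ℕ × ℕ) where
  IsOpen U := U.Nonempty → ∀ n, {m | (n, m) ∉ U}.Finite
  isOpen_univ _ _ := by simp
  isOpen_inter U V hU hV h n := ((hU (h.mono inter_subset_left) n).union
    (hV (h.mono inter_subset_right) n)).subset fun m hm => not_and_or.1 hm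
  isOpen_sUnion S hS := by
    rintro ⟨z, U, h1, h2⟩ n
    exact (hS U h1 ⟨z, h2⟩ n).subset fun m hm h => hm ⟨U, h1, h⟩

theorem countable_ex : ∃ (X : Type) (_ : TopologicalSpace X), Countable X ∧ T1Space X ∧
    SequentialSpace X ∧ ¬ BigDSep X := by
  let _ := col
  have hc : ∀ A : Set (ℕ × ℕ), (∀ n, {m | (n, m) ∈ A}.Finite) → IsClosed A :=
    fun A hA => ⟨fun _ n => (hA n).subset fun m hm => not_not.1 hm⟩
  refine ⟨ℕ × ℕ, col, inferInstance, ⟨fun z => hc _ fun n => ?_⟩, ⟨fun A hA => ?_⟩, fun h => ?_⟩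
  · exact (finite_singleton z.2).subset fun m hm => congrArg Prod.snd hm
  · refine ⟨fun ⟨z, hz⟩ n => ?_⟩
    by_contra hh
    have h1 : {m | (n, m) ∈ A}.Infinite := fun h => hh (h.subset fun m hm => not_not.1 hm)
    refine hz (hA (x := fun k => (n, Nat.nth (fun m => (n, m) ∈ A) k))
      (fun k => Nat.nth_mem_of_infinite h1 k) (tendsto_nhds.2 fun U hU hzU => ?_))
    have := (Nat.nth_injective h1).tendsto_cofinite (hU ⟨z, hzU⟩ n).compl_mem_cofinite
    rw [Nat.cofinite_eq_atTop] at this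
    exact mem_of_superset this fun k hk => not_not.1 hk
  · obtain ⟨F, h1, h2⟩ := h (fun n => {z | z.1 = n}) fun n => dense_iff_inter_open.2 fun U hU hne => by
      obtain ⟨m, hm⟩ := (hU hne n).infinite_compl.nonempty
      exact ⟨(n, m), not_not.1 hm, rfl⟩
    have h3 : ∀ n, {m | (n, m) ∈ ⋃ k, F k}.Finite := by
      intro n
      by_cases hn : ∃ d, d ∈ F n
      · obtain ⟨d, hd⟩ := hn
        obtain ⟨U, u1, u2⟩ := (disc_iff _).1 (h1 n).2 d hd
        refine ((u1 ⟨d, (u2.ge rfl).1⟩ n).insert d.2).subset fun m hm => ?_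
        obtain ⟨k, hk⟩ := mem_iUnion.1 hm
        obtain rfl : n = k := (h1 k).1 hk
        by_cases hU : (n, m) ∈ U
        · exact Or.inl (congrArg Prod.snd (u2.le ⟨hU, hk⟩))
        · exact Or.inr hU
      · refine finite_empty.subset fun m hm => ?_
        obtain ⟨k, hk⟩ := mem_iUnion.1 hm
        obtain rfl : n = k := (h1 k).1 hk
        exact hn ⟨_, hk⟩
    obtain ⟨m, hm⟩ := (h3 0).infinite_compl.nonempty
    exact hm ((hc _ h3).closure_subset (h2 (0, m)))

end Pool.Agent.H25.SeqD
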