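import Pool.Agent.H25.PFin

/-! A subspace of a Cantor cube that fills all countable faces and whose countable subsets can be
split arbitrarily by coordinates (a space of the type built by Shakhmatov). -/

set_option autoImplicit false

namespace Pool.Agent.H25.Shakh

open Set Filter Topology

/-- Well-founded countably branching trees with Boolean labels on the edges. -/
inductive T : Type
  | leaf : T
  | node : (ℕ → T) → (ℕ → Bool) → T

def child (u t : T) : Prop := ∃ f b n, t = T.node f b ∧ f n = u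

theorem child_wf : WellFounded child := by
  refine ⟨fun t => ?_⟩
  induction t with
  | leaf => exact ⟨_, fun u ⟨_, _, _, h, _⟩ => by cases h⟩
  | node f b ih =>
    refine ⟨_, fun u ⟨f', b', n, h, hu⟩ => ?_⟩
    cases h
    exact hu ▸ ih n

def mark (t u : T) : Prop := ∃ f b n, t = T.node f b ∧ f n = u ∧ b n = true

open Classical in
noncomputable def pt (t : T) : T → Bool := fun u => decide (mark t u ∨ mark u t)

theorem pt_symm (t u : T) : pt t u = pt u t := by
  unfold pt
  exact decide_eq_decide.2 or_comm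

theorem fill0 {A : Set T} (hA : A.Countable) (y : T → Bool) : ∃ t, ∀ u ∈ A, pt t u = y u := by
  rcases A.eq_empty_or_nonempty with rfl | hne
  · exact ⟨T.leaf, fun u hu => absurd hu (notMem_empty u)⟩
  obtain ⟨f, rfl⟩ := hA.exists_eq_range hne
  refine ⟨T.node f (fun n => y (f n)), ?_⟩
  rintro _ ⟨n, rfl⟩
  have h1 : ¬ mark (f n) (T.node f fun n => y (f n)) := fun ⟨f', b', n', h, h', _⟩ =>
    child_wf.asymmetric _ _ ⟨f', b', n', h, h'⟩ ⟨f, _, n, rfl, rfl⟩
  have h2 : mark (T.node f fun n => y (f n)) (f n) ↔ y (f n) = true := by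
    constructor
    · rintro ⟨f', b', n', h, h', h''⟩
      cases h
      rw [← h']
      exact h''
    · intro h
      exact ⟨f, _, n, rfl, rfl, h⟩
  simp only [pt, h1, or_false, h2]
  cases y (f n) <;> simp

theorem T_unc : ¬ (univ : Set T).Countable := by
  intro h
  obtain ⟨t, ht⟩ := fill0 h (fun u => !pt u u)
  have := ht t (mem_univ _)
  cases h' : pt t t <;> simp [h'] at this

/-- The space. -/
abbrev X : Type := range pt

theorem fill {A : Set T} (hA : A.Countable) (y : T → Bool) : ∃ z : X, ∀ u ∈ A, z.1 u = y u := by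
  obtain ⟨t, ht⟩ := fill0 hA y
  exact ⟨⟨_, t, rfl⟩, ht⟩

theorem split {B : Set X} (hB : B.Countable) (c : X → Bool) : ∃ u, ∀ z ∈ B, z.1 u = c z := by
  choose ix hix using fun z : X => z.2
  obtain ⟨u, hu⟩ := fill0 (hB.image ix) (fun t => c ⟨_, t, rfl⟩)
  refine ⟨u, fun z hz => ?_⟩
  have := hu _ ⟨z, hz, rfl⟩
  rw [pt_symm] at this
  simp only [hix] at this
  exact this

theorem coord_cont (u : T) : Continuous fun z : X => z.1 u :=
  (continuous_apply u).comp continuous_subtype_val

/-- Every function with finitely many values on a countable set extends continuously. -/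
theorem ext_fin {B : Set X} (hB : B.Countable) {m : ℕ} (c : X → ℕ) (q : Fin m → ℝ) :
    ∃ f : X → ℝ, Continuous f ∧ ∀ z ∈ B, ∀ l : Fin m, c z = l → f z = q l := by
  classical
  choose u hu using fun l : Fin m => split hB (fun z => decide (c z = l))
  refine ⟨fun z => ∑ l, if z.1 (u l) = true then q l else 0, ?_, fun z hz l hl => ?_⟩
  · refine continuous_finsetSum _ fun l _ => ?_
    exact (continuous_of_discreteTopology (f := fun b : Bool => if b = true then q l else 0)).comp
      (coord_cont (u l))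
  · beta_reduce
    rw [Finset.sum_eq_single l]
    · simp [hu l z hz, hl]
    · intro k _ hk
      have : ¬ c z = k := fun h => hk (Fin.ext (h.symm.trans hl))
      simp [hu k z hz, this]
    · simp

theorem basic {Y : Type} [TopologicalSpace Y] {U : Set (PFin.Cp Y)} (h1 : IsOpen U)
    (h2 : U.Nonempty) : ∃ (t : Σ s : ℕ, Fin s → ℚ) (x : Fin t.1 → Y), Function.Injective x ∧
      ∀ F : PFin.Cp Y, (∀ n, F.1 (x n) = t.2 n) → F ∈ U := by
  classical
  obtain ⟨G, hG⟩ := h2
  obtain ⟨V, b1, b2⟩ := isOpen_induced_iff.1 h1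
  obtain ⟨J, w, c1, c2⟩ := isOpen_pi_iff.1 b1 G.1 (show G ∈ Subtype.val ⁻¹' V from b2 ▸ hG)
  have h4 : ∀ z, ∃ q : ℚ, z ∈ J → (q : ℝ) ∈ w z := by
    intro z
    by_cases h : z ∈ J
    · obtain ⟨q, hq⟩ := Rat.denseRange_cast.exists_mem_open (c1 z h).1 ⟨_, (c1 z h).2⟩
      exact ⟨q, fun _ => hq⟩
    · exact ⟨0, fun a => absurd a h⟩
  choose q hq using h4
  refine ⟨⟨_, fun n => q (J.equivFin.symm n)⟩, fun n => J.equivFin.symm n,
    Subtype.val_injective.comp (Equiv.injective _), fun F hF => ?_⟩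
  rw [← b2]
  refine c2 fun z hz => ?_
  have := hF (J.equivFin ⟨z, hz⟩)
  simp only [Equiv.symm_apply_apply] at this
  rw [this]
  exact hq z hz

/-- Point-finite families of nonempty open sets in the function space of `X` are countable. -/
theorem pf_count (𝒰 : Set (Set (PFin.Cp X))) (h1 : ∀ U ∈ 𝒰, IsOpen U ∧ U.Nonempty)
    (h2 : ∀ y, {U | U ∈ 𝒰 ∧ y ∈ U}.Finite) : 𝒰.Countable := by
  choose t ht using fun U : 𝒰 => basic (h1 U U.2).1 (h1 U U.2).2
  suffices h : ∀ θ, (t ⁻¹' {θ}).Finite by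
    have : (univ : Set 𝒰).Countable := by
      refine (countable_iUnion fun θ => (h θ).countable).mono fun U _ => ?_
      exact mem_iUnion.2 ⟨t U, rfl⟩
    exact countable_univ_iff.1 this
  intro θ
  by_contra hh
  choose x b1 b2 using fun U : t ⁻¹' {θ} => (show t U = θ from U.2) ▸ ht U
  have hinf : (univ : Set (t ⁻¹' {θ})).Infinite := infinite_univ_iff.2 (Set.Infinite.to_subtype hh)
  obtain ⟨c, hc⟩ := PFin.sun _ hinf x fun U _ => b1 U
  obtain ⟨A, hA, hAc, hAi⟩ := Set.Infinite.exists_subset_countable_infinite hc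
  obtain ⟨f, f1, f2⟩ := ext_fin (B := ⋃ U ∈ A, range (x U))
    (hAc.biUnion fun U _ => countable_range _) c (fun l => (θ.2 l : ℝ))
  refine hAi (Finite.of_finite_image ((h2 ⟨f, f1⟩).subset ?_)
    (Subtype.val_injective.comp Subtype.val_injective).injOn)
  rintro _ ⟨U, hU, rfl⟩
  exact ⟨U.1.2, b2 U _ fun n => f2 _ (mem_biUnion hU ⟨n, rfl⟩) n ((hA hU).2 n)⟩

theorem closing {I : Type} [Countable I] (G : I → Finset T → Finset T → Finset T) :
    ∃ A : Set T, A.Countable ∧ ∀ (i : I) (S P : Finset T), (S : Set T) ⊆ A → (P : Set T) ⊆ A →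
      (G i S P : Set T) ⊆ A := by
  let st : Set T → Set T := fun B => B ∪ ⋃ i, ⋃ S ∈ {S : Finset T | (S : Set T) ⊆ B},
    ⋃ P ∈ {P : Finset T | (P : Set T) ⊆ B}, (G i S P : Set T)
  have hfin : ∀ B : Set T, B.Countable → {S : Finset T | (S : Set T) ⊆ B}.Countable := by
    intro B hB
    refine ((countable_ofPred_finite_subset hB).preimage
      (f := fun S : Finset T => (S : Set T)) Finset.coe_injective).mono fun S hS => ?_
    exact ⟨S.finite_toSet, hS⟩
  let A : ℕ → Set T := fun n => st^[n] ∅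
  have hs : ∀ n, A (n + 1) = st (A n) := fun n => Function.iterate_succ_apply' _ _ _
  have hc : ∀ n, (A n).Countable := by
    intro n
    induction n with
    | zero => exact countable_empty
    | succ n ih =>
      rw [hs]
      exact ih.union (countable_iUnion fun i => (hfin _ ih).biUnion fun S _ =>
        (hfin _ ih).biUnion fun P _ => (G i S P).countable_toSet)
  have hm : Monotone A := monotone_nat_of_le_succ fun n => by rw [hs]; exact subset_union_left
  have hf : ∀ S : Finset T, (S : Set T) ⊆ ⋃ n, A n → ∃ n, (S : Set T) ⊆ A n := fun S hS =>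
    (hm.directed_le.exists_mem_subset_of_finset_subset_biUnion hS)
  refine ⟨⋃ n, A n, countable_iUnion hc, fun i S P hS hP => ?_⟩
  obtain ⟨n, hn⟩ := hf S hS
  obtain ⟨k, hk⟩ := hf P hP
  intro u hu
  refine mem_iUnion.2 ⟨max n k + 1, ?_⟩
  rw [hs]
  refine Or.inr ?_
  simp only [mem_iUnion]
  exact ⟨i, S, hn.trans (hm (le_max_left _ _)), P, hk.trans (hm (le_max_right _ _)), hu⟩

theorem nbhd {U : Set X} (hU : IsOpen U) {x : X} (hx : x ∈ U) :
    ∃ F : Finset T, ∀ z : X, (∀ u ∈ F, z.1 u = x.1 u) → z ∈ U := by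
  obtain ⟨V, b1, b2⟩ := isOpen_induced_iff.1 hU
  obtain ⟨J, w, c1, c2⟩ := isOpen_pi_iff.1 b1 x.1 (show x ∈ Subtype.val ⁻¹' V from b2 ▸ hx)
  refine ⟨J, fun z hz => ?_⟩
  rw [← b2]
  exact c2 fun u hu => hz u hu ▸ (c1 u hu).2

/-- Continuous real functions on `X` depend on countably many coordinates. -/
theorem factor {f : X → ℝ} (hf : Continuous f) :
    ∃ A : Set T, A.Countable ∧ ∀ x x' : X, (∀ u ∈ A, x.1 u = x'.1 u) → f x = f x' := by
  classical
  have h1 : ∀ (r : ℚ) (S P : Finset T), ∃ G : Finset T,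
      (∃ x : X, (∀ u ∈ S, x.1 u = decide (u ∈ P)) ∧ f x < r) →
      ∃ d : X, (∀ u ∈ S, d.1 u = decide (u ∈ P)) ∧
        ∀ z : X, (∀ u ∈ G, z.1 u = d.1 u) → f z < r := by
    intro r S P
    by_cases h : ∃ x : X, (∀ u ∈ S, x.1 u = decide (u ∈ P)) ∧ f x < r
    · obtain ⟨x, hx, hr⟩ := h
      obtain ⟨G, hG⟩ := nbhd (isOpen_lt hf continuous_const) (x := x) hr
      exact ⟨G, fun _ => ⟨x, hx, hG⟩⟩
    · exact ⟨∅, fun h' => absurd h' h⟩
  choose G hG using h1
  obtain ⟨A, hAc, hA⟩ := closing G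
  have key : ∀ x x' : X, (∀ u ∈ A, x.1 u = x'.1 u) → ¬ f x < f x' := by
    intro x x' h hlt
    obtain ⟨r, r1, r2⟩ := exists_rat_btwn hlt
    obtain ⟨F, hF⟩ := nbhd (isOpen_lt continuous_const hf) (x := x') r2
    let S := F.filter (· ∈ A)
    let P := S.filter fun u => x.1 u = true
    have hP : ∀ u ∈ S, x.1 u = decide (u ∈ P) := fun u hu => by
      simp only [P, Finset.mem_filter, hu, true_and]
      cases x.1 u <;> simp
    obtain ⟨d, d1, d2⟩ := hG r S P ⟨x, hP, r1⟩
    have hS : ↑S ⊆ A := fun u hu => (Finset.mem_filter.1 hu).2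
    have hGA := hA r S P hS fun u hu => hS (Finset.mem_filter.1 hu).1
    obtain ⟨z, hz⟩ := fill ((G r S P).countable_toSet.union F.countable_toSet)
      (fun u => if u ∈ A then d.1 u else x'.1 u)
    have z1 : f z < r := d2 z fun u hu => by rw [hz u (Or.inl hu), if_pos (hGA hu)]
    have z2 : (r : ℝ) < f z := hF z fun u hu => by
      rw [hz u (Or.inr hu)]
      split_ifs with hu'
      · have : u ∈ S := Finset.mem_filter.2 ⟨hu, hu'⟩
        rw [d1 u this, ← hP u this, h u hu']
      · rfl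
    exact lt_asymm z1 z2
  exact ⟨A, hAc, fun x x' h => le_antisymm (not_lt.1 (key x' x fun u hu => (h u hu).symm))
    (not_lt.1 (key x x' h))⟩

/-- Uniform local control of a continuous function near any point of the cube. -/
theorem control {f : X → ℝ} (hf : Continuous f) (y : T → Bool) {ε : ℝ} (hε : 0 < ε) :
    ∃ (F : Finset T) (c : ℝ), ∀ z : X, (∀ u ∈ F, z.1 u = y u) → |f z - c| < ε := by
  classical
  obtain ⟨A, hAc, hA⟩ := factor hf
  obtain ⟨x, hx⟩ := fill hAc y
  obtain ⟨F, hF⟩ := nbhd (isOpen_lt (hf.sub continuous_const).abs continuous_const) (x := x)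
    (show |f x - f x| < ε by simpa using hε)
  refine ⟨F.filter (· ∈ A), f x, fun z hz => ?_⟩
  obtain ⟨z', hz'⟩ := fill (hAc.union F.countable_toSet) (fun u => if u ∈ A then z.1 u else x.1 u)
  rw [hA z z' fun u hu => by rw [hz' u (Or.inl hu), if_pos hu]]
  refine hF z' fun u hu => ?_
  rw [hz' u (Or.inr hu)]
  split_ifs with hu'
  · rw [hz u (Finset.mem_filter.2 ⟨hu, hu'⟩), hx u hu']
  · rfl

/-- A point of the Stone-Cech compactification lying over a given point of the cube. -/
theorem lift_pt (y : T → Bool) : ∃ p : StoneCech X, ∀ A : Set T, A.Countable →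
    p ∈ closure (stoneCechUnit '' {z : X | ∀ u ∈ A, z.1 u = y u}) := by
  have : Nonempty {A : Set T // A.Countable} := ⟨⟨∅, countable_empty⟩⟩
  obtain ⟨p, hp⟩ := IsCompact.nonempty_iInter_of_directed_nonempty_isCompact_isClosed
    (fun A : {A : Set T // A.Countable} =>
      closure (stoneCechUnit '' {z : X | ∀ u ∈ A.1, z.1 u = y u}))
    (fun A B => ⟨⟨A.1 ∪ B.1, A.2.union B.2⟩,
      closure_mono (image_mono fun z hz u hu => hz u (Or.inl hu)),
      closure_mono (image_mono fun z hz u hu => hz u (Or.inr hu))⟩)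
    (fun A => by
      obtain ⟨z, hz⟩ := fill A.2 y
      exact ⟨_, subset_closure ⟨z, hz, rfl⟩⟩)
    (fun A => isClosed_closure.isCompact) (fun A => isClosed_closure)
  exact ⟨p, fun A hA => mem_iInter.1 hp ⟨A, hA⟩⟩

end Pool.Agent.H25.Shakh
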