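import Mathlib

/-! Short uncountable linear orders: splitting points and a dense suborder with big gaps. -/

namespace Pool.Agent.H25.ShortQ

open Set

theorem countable_of_init {L : Type} [LinearOrder L]
    (h : ∀ S : Set L, S.WellFoundedOn (· < ·) → S.Countable) (A : Set L)
    (hA : ∀ x ∈ A, (A ∩ Iio x).Countable) : A.Countable := by
  obtain ⟨r, hr⟩ : ∃ r : L → L → Prop, IsWellOrder L r := ⟨WellOrderingRel, inferInstance⟩
  let S : Set L := {x | x ∈ A ∧ ∀ y ∈ A, r y x → y < x}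
  have hS : S.Countable := by
    refine h S ((hr.wf.wellFoundedOn (s := S)).mono' fun a ha b hb hab => ?_)
    rcases trichotomous_of r a b with e | e | e
    · exact e
    · exact absurd e hab.ne
    · exact absurd (ha.2 b hb.1 e) hab.not_gt
  have hU : (⋃ s ∈ S, insert s (A ∩ Iio s)).Countable :=
    hS.biUnion fun s hs => (hA s hs.1).insert s
  refine hU.mono ?_
  intro a ha
  obtain ⟨x, hx, hm⟩ := hr.wf.has_min {x | x ∈ A ∧ a ≤ x} ⟨a, ha, le_rfl⟩
  refine mem_biUnion (x := x) ⟨hx.1, fun y hy hyx => ?_⟩ ?_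
  · by_contra hc
    exact hm y ⟨hy, hx.2.trans (not_lt.1 hc)⟩ hyx
  · rcases hx.2.eq_or_lt with e | e
    · exact Or.inl e
    · exact Or.inr ⟨ha, e⟩

theorem split {L : Type} [LinearOrder L]
    (h1 : ∀ S : Set L, S.WellFoundedOn (· < ·) → S.Countable)
    (h2 : ∀ S : Set L, S.WellFoundedOn (· > ·) → S.Countable) (X : Set L) (hX : ¬ X.Countable) :
    ∃ z ∈ X, ¬ (X ∩ Iio z).Countable ∧ ¬ (X ∩ Ioi z).Countable := by
  by_contra hc
  push Not at hc
  have a1 := countable_of_init h1 {z | z ∈ X ∧ (X ∩ Iio z).Countable}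
    fun x hx => hx.2.mono (inter_subset_inter_left _ fun y hy => hy.1)
  have a2 := countable_of_init (L := Lᵒᵈ) h2 {z : L | z ∈ X ∧ (X ∩ Ioi z).Countable}
    fun x hx => hx.2.mono (inter_subset_inter_left _ fun y hy => hy.1)
  refine hX ((a1.union a2).mono fun z hz => ?_)
  by_cases e : (X ∩ Iio z).Countable
  · exact Or.inl ⟨hz, e⟩
  · exact Or.inr ⟨hz, hc z hz e⟩

theorem exists_emb {L : Type} [LinearOrder L]
    (h1 : ∀ S : Set L, S.WellFoundedOn (· < ·) → S.Countable)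
    (h2 : ∀ S : Set L, S.WellFoundedOn (· > ·) → S.Countable) (hL : ¬ (univ : Set L).Countable) :
    ∃ e : ℚ ↪o L, ¬ (Ioo (e 0) (e 1)).Countable := by
  obtain ⟨a, -, -, ha⟩ := split h1 h2 _ hL
  obtain ⟨b, hb, hab, -⟩ := split h1 h2 _ ha
  have hlt : a < b := hb.2
  let F : Set (Set L) := {D | ∀ x ∈ D, ∀ y ∈ D, x < y → ¬ (Ioo x y).Countable}
  have h0 : ({a, b} : Set L) ∈ F := by
    rintro x (rfl | rfl) y (rfl | rfl) hxy
    · exact absurd hxy (lt_irrefl _)
    · exact fun e => hab (e.mono fun z hz => mem_Ioo.2 ⟨hz.1.2, hz.2⟩)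
    · exact absurd hxy hlt.not_gt
    · exact absurd hxy (lt_irrefl _)
  obtain ⟨D, hD0, hD⟩ := zorn_subset_nonempty F (fun c hc hch _ => ⟨⋃₀ c, by
    rintro x ⟨s, hs, hx⟩ y ⟨t, ht, hy⟩
    rcases hch.total hs ht with e | e
    · exact hc ht x (e hx) y hy
    · exact hc hs x hx y (e hy), fun s hs => subset_sUnion_of_mem hs⟩) _ h0
  have : Nontrivial D := ⟨⟨⟨a, hD0 (by simp)⟩, ⟨b, hD0 (by simp)⟩,
    fun e => hlt.ne (congrArg Subtype.val e)⟩⟩
  have : DenselyOrdered D := ⟨by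
    rintro ⟨x, hx⟩ ⟨y, hy⟩ hxy
    have hxy' : x < y := hxy
    by_contra hn
    obtain ⟨z, hz, z1, z2⟩ := split h1 h2 _ (hD.prop x hx y hy hxy')
    have hw : ∀ w ∈ D, w ≤ x ∨ y ≤ w := fun w hw => by
      by_contra hc
      push Not at hc
      exact hn ⟨⟨w, hw⟩, hc.1, hc.2⟩
    have hm : insert z D ∈ F := by
      rintro u (rfl | hu) v (rfl | hv) huv
      · exact absurd huv (lt_irrefl _)
      · rcases hw v hv with e | e
        · exact absurd (huv.trans_le e) hz.1.not_gt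
        · exact fun c => z2 (c.mono fun w hw => mem_Ioo.2 ⟨hw.2, hw.1.2.trans_le e⟩)
      · rcases hw u hu with e | e
        · exact fun c => z1 (c.mono fun w hw => mem_Ioo.2 ⟨e.trans_lt hw.1.1, hw.2⟩)
        · exact absurd (e.trans_lt huv) hz.2.not_gt
      · exact hD.prop u hu v hv huv
    have := hD.le_of_ge hm (subset_insert _ _) (mem_insert _ _)
    exact hn ⟨⟨z, this⟩, hz.1, hz.2⟩⟩
  obtain ⟨e⟩ := Order.embedding_from_countable_to_dense ℚ D
  exact ⟨e.trans (OrderEmbedding.subtype _),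
    hD.prop _ (e 0).2 _ (e 1).2 (e.strictMono zero_lt_one)⟩

theorem main {L : Type} [LinearOrder L]
    (h1 : ∀ S : Set L, S.WellFoundedOn (· < ·) → S.Countable)
    (h2 : ∀ S : Set L, S.WellFoundedOn (· > ·) → S.Countable)
    (hL : Cardinal.aleph 1 ≤ Cardinal.mk L) :
    ∃ K : Set L, Cardinal.mk K = Cardinal.aleph 1 ∧
      ∃ f : K → ℚ, Monotone f ∧ Function.Surjective f := by
  classical
  have big : ∀ X : Set L, ¬ X.Countable ↔ Cardinal.aleph 1 ≤ Cardinal.mk X := fun X => by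
    rw [Cardinal.countable_iff_lt_aleph_one, not_lt]
  obtain ⟨e, he⟩ := exists_emb h1 h2 ((big _).2 (by simpa using hL))
  obtain ⟨U, hU, hUc⟩ := Cardinal.le_mk_iff_exists_subset.1 ((big _).1 he)
  let S : Set ℚ := {q | q ≤ 0 ∨ 1 < q}
  let g : ℚ → ℚ := fun q => if q ≤ 0 then q else q - 1
  refine ⟨U ∪ e '' S, le_antisymm ?_ (hUc ▸ Cardinal.mk_le_mk_of_subset subset_union_left),
    fun x => if h : x.1 ∈ e '' S then g h.choose else 0, ?_, ?_⟩
  · refine (Cardinal.mk_union_le _ _).trans (Cardinal.add_le_of_le (Cardinal.aleph0_le_aleph 1)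
      hUc.le ((Cardinal.le_aleph0_iff_set_countable.2 ((to_countable S).image e)).trans
        (Cardinal.aleph0_le_aleph 1)))
  · rintro ⟨x, hx⟩ ⟨y, hy⟩ hxy
    have hxy' : x ≤ y := hxy
    dsimp only
    split_ifs with a b b
    · have c1 := a.choose_spec
      have c2 := b.choose_spec
      have : a.choose ≤ b.choose := e.le_iff_le.1 (by rw [c1.2, c2.2]; exact hxy')
      have d1 : a.choose ≤ 0 ∨ 1 < a.choose := c1.1
      have d2 : b.choose ≤ 0 ∨ 1 < b.choose := c2.1
      simp only [g]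
      split_ifs <;> rcases d1 with d1 | d1 <;> rcases d2 with d2 | d2 <;> linarith
    · have c1 := a.choose_spec
      have : a.choose < 1 := e.lt_iff_lt.1 (by
        rw [c1.2]; exact hxy'.trans_lt (hU (hy.resolve_right b)).2)
      have d1 : a.choose ≤ 0 ∨ 1 < a.choose := c1.1
      simp only [g]
      split_ifs <;> rcases d1 with d1 | d1 <;> linarith
    · have c1 := b.choose_spec
      have : 0 < b.choose := e.lt_iff_lt.1 (by
        rw [c1.2]; exact (hU (hx.resolve_right a)).1.trans_le hxy')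
      have d1 : b.choose ≤ 0 ∨ 1 < b.choose := c1.1
      simp only [g]
      split_ifs <;> rcases d1 with d1 | d1 <;> linarith
    · exact le_rfl
  · intro q
    obtain ⟨p, hp, hg⟩ : ∃ p ∈ S, g p = q := by
      by_cases h : q ≤ 0
      · exact ⟨q, Or.inl h, if_pos h⟩
      · refine ⟨q + 1, Or.inr (by linarith [not_le.1 h]), ?_⟩
        simp only [g]
        rw [if_neg (by linarith [not_le.1 h])]
        ring
    have hm : e p ∈ e '' S := ⟨p, hp, rfl⟩
    refine ⟨⟨e p, Or.inr hm⟩, ?_⟩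
    dsimp only
    rw [dif_pos hm, e.injective hm.choose_spec.2, hg]

end Pool.Agent.H25.ShortQ
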