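import Pool.Agent.H25.SigmaDefs

/-! The Sigma-product of a Cantor cube: Frechet, d-separable, and its D-separability. -/

set_option autoImplicit false

namespace Pool.Agent.H25.SigmaD

open Set Filter Topology Cardinal Pool.Agent.H25.DSepDefs Pool.Agent.H25.SigmaDefs

variable {I : Type}

def Ext (y : Sig I) (p : Finset I × Finset I) : Prop :=
  (∀ i ∈ p.1, y.1 i = true) ∧ ∀ i ∈ p.2, y.1 i = false

theorem Ext.mono {y : Sig I} {p q : Finset I × Finset I} (h : p ≤ q) (hq : Ext y q) : Ext y p :=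
  ⟨fun i hi => hq.1 i (h.1 hi), fun i hi => hq.2 i (h.2 hi)⟩

theorem basic {U : Set (Sig I)} (hU : IsOpen U) {y : Sig I} (hy : y ∈ U) :
    ∃ t : Finset I, ∀ z : Sig I, (∀ i ∈ t, z.1 i = y.1 i) → z ∈ U := by
  obtain ⟨V, hV, rfl⟩ := isOpen_induced_iff.1 hU
  obtain ⟨t, u, h1, h2⟩ := isOpen_pi_iff.1 hV y.1 hy
  exact ⟨t, fun z hz => h2 fun i hi => (hz i hi).symm ▸ (h1 i hi).2⟩

theorem cyl (s : Set I) (hs : s.Finite) (f : I → Bool) :
    IsOpen {z : Sig I | ∀ i ∈ s, z.1 i = f i} := by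
  simp only [ofPred_forall]
  exact hs.isOpen_biInter fun i _ => (isOpen_discrete {f i}).preimage
    (f := fun z : Sig I => z.1 i) ((continuous_apply i).comp continuous_subtype_val)

theorem dense_iff (Y : Set (Sig I)) :
    Dense Y ↔ ∀ p : Finset I × Finset I, Disjoint p.1 p.2 → ∃ y ∈ Y, Ext y p := by
  classical
  constructor
  · intro h p hp
    obtain ⟨y, h1, h2⟩ := h.inter_open_nonempty _ (cyl (↑(p.1 ∪ p.2)) (Finset.finite_toSet _)
      fun i => decide (i ∈ p.1)) ⟨⟨fun i => decide (i ∈ p.1), by simpa using p.1.countable_toSet⟩,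
        fun _ _ => rfl⟩
    refine ⟨y, h2, fun i hi => ?_, fun i hi => ?_⟩
    · simpa [hi] using h1 i (by simp [hi])
    · simpa [Finset.disjoint_right.1 hp hi] using h1 i (by simp [hi])
  · intro h
    refine dense_iff_inter_open.2 fun U hU ⟨x, hx⟩ => ?_
    obtain ⟨t, ht⟩ := basic hU hx
    obtain ⟨y, h1, h2⟩ := h (t.filter (x.1 · = true), t.filter (x.1 · = false))
      (Finset.disjoint_filter.2 fun i _ h => by simp [h])
    refine ⟨y, ht y fun i hi => ?_, h1⟩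
    cases hxi : x.1 i
    · exact h2.2 i (Finset.mem_filter.2 ⟨hi, hxi⟩)
    · exact h2.1 i (Finset.mem_filter.2 ⟨hi, hxi⟩)

theorem disc_of {F : Set (Sig I)} (h : ∀ y ∈ F, ∃ s : Set I, s.Finite ∧
    ∀ z ∈ F, (∀ i ∈ s, z.1 i = y.1 i) → z = y) : DiscreteTopology F := by
  refine discreteTopology_iff_isOpen_singleton.2 fun ⟨y, hy⟩ => ?_
  obtain ⟨s, h1, h2⟩ := h y hy
  refine isOpen_induced_iff.2 ⟨_, cyl s h1 y.1, Set.ext fun z => ⟨fun hz => ?_, ?_⟩⟩
  · exact Subtype.ext (h2 z.1 z.2 hz)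
  · rintro rfl
    exact fun _ _ => rfl

theorem dsep : SmallDSep (Sig I) := by
  classical
  refine ⟨fun n => {x | {i | x.1 i = true}.Finite ∧ {i | x.1 i = true}.ncard = n},
    fun n => disc_of fun y hy => ⟨_, hy.1, fun z hz h => ?_⟩, (dense_iff _).2 fun p hp => ?_⟩
  · have := eq_of_subset_of_ncard_le (s := {i | y.1 i = true}) (t := {i | z.1 i = true})
      (fun i hi => (h i hi).trans hi) (hz.2.trans hy.2.symm).le hz.1
    refine Subtype.ext (funext fun i => Bool.eq_iff_iff.2 ?_)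
    exact (Set.ext_iff.1 this i).symm
  · refine ⟨⟨fun i => decide (i ∈ p.1), by simpa using p.1.countable_toSet⟩,
      mem_iUnion.2 ⟨_, by simp, rfl⟩, fun i hi => by simp [hi], fun i hi => ?_⟩
    simp [Finset.disjoint_right.1 hp hi]

theorem frechet : FrechetUrysohnSpace (Sig I) := by
  have h0 : ∀ y : Sig I, ∃ E : ℕ → Set I, (∀ n, (E n).Finite) ∧
      ∀ i, y.1 i = true → ∃ m, ∀ n, m ≤ n → i ∈ E n := by
    intro y
    obtain ⟨e, he⟩ := countable_iff_exists_injOn.1 y.2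
    refine ⟨fun n => {i | y.1 i = true ∧ e i ≤ n}, fun n => ?_, fun i hi => ⟨e i, fun n hn => ⟨hi, hn⟩⟩⟩
    refine Finite.of_finite_image ((finite_Iic n).subset ?_) (he.mono fun i hi => hi.1)
    rintro _ ⟨i, hi, rfl⟩
    exact hi.2
  choose E h1 h2 using h0
  refine ⟨fun A x hx => ?_⟩
  obtain ⟨f, f1, f2⟩ := exists_seq_of_forall_finset_exists
    (fun b : Sig I × ℕ => b.1 ∈ A ∧ ∀ i ∈ E x b.2, b.1.1 i = x.1 i)
    (fun a b => a.2 < b.2 ∧ ∀ i ∈ E a.1 b.2, b.1.1 i = x.1 i) (fun s _ => by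
      obtain ⟨l, hl⟩ := (s.finite_toSet.image Prod.snd).bddAbove
      obtain ⟨b, b1, b2⟩ := mem_closure_iff.1 hx _ (cyl (E x (l + 1) ∪ ⋃ a ∈ s, E a.1 (l + 1))
        ((h1 _ _).union (s.finite_toSet.biUnion fun a _ => h1 _ _)) x.1) fun _ _ => rfl
      exact ⟨(b, l + 1), ⟨b2, fun i hi => b1 i (Or.inl hi)⟩, fun a ha =>
        ⟨Nat.lt_succ_of_le (hl ⟨a, ha, rfl⟩), fun i hi => b1 i (Or.inr (mem_biUnion ha hi))⟩⟩)
  have f3 : ∀ n, n ≤ (f n).2 := (strictMono_nat_of_lt_succ fun n => (f2 n _ n.lt_succ_self).1).id_le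
  refine ⟨fun n => (f n).1, fun n => (f1 n).1, tendsto_subtype_rng.2 (tendsto_pi_nhds.2 fun i =>
    tendsto_const_nhds.congr' ?_)⟩
  by_cases hi : x.1 i = true
  · obtain ⟨m, hm⟩ := h2 x i hi
    filter_upwards [eventually_ge_atTop m] with n hn
    exact ((f1 n).2 i (hm _ (hn.trans (f3 n)))).symm
  by_cases h : ∃ k, (f k).1.1 i = true
  · obtain ⟨k, hk⟩ := h
    obtain ⟨m, hm⟩ := h2 _ i hk
    filter_upwards [eventually_ge_atTop m, eventually_gt_atTop k] with n hn hn'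
    exact ((f2 k n hn').2 i (hm _ (hn.trans (f3 n)))).symm
  · refine Eventually.of_forall fun n => ?_
    exact (Bool.eq_false_iff.2 hi).trans (Bool.eq_false_iff.2 fun h' => h ⟨n, h'⟩).symm

theorem whyburn {X : Type} [TopologicalSpace X] [T2Space X] [FrechetUrysohnSpace X] : Whyburn X := by
  intro A p h1 h2
  obtain ⟨u, h3, h4⟩ := mem_closure_iff_seq_limit.1 h1
  refine ⟨range u, range_subset_iff.2 h3, Subset.antisymm ?_ ?_⟩
  · rw [union_singleton]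
    exact closure_minimal (subset_insert _ _) h4.isCompact_insert_range.isClosed
  · exact union_subset subset_closure (singleton_subset_iff.2
      (mem_closure_of_tendsto h4 (Eventually.of_forall mem_range_self)))

def Pre (f : ℕ → Finset I × Finset I) : Prop :=
  ∀ p : Finset I × Finset I, Disjoint p.1 p.2 → ∃ q, Disjoint q.1 q.2 ∧ p ≤ q ∧ ∃ m, f m ≤ q

theorem pre_of_disc [Infinite I] (F : Set (Sig I)) [DiscreteTopology F] :
    ∃ f, Pre f ∧ ∀ m, ∀ y ∈ F, ¬ Ext y (f m) := by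
  classical
  have h1 : ∀ p : Finset I × Finset I, ∃ q : Finset I × Finset I, Disjoint p.1 p.2 →
      Disjoint q.1 q.2 ∧ p ≤ q ∧ ∀ y ∈ F, ¬ Ext y q := by
    intro p
    by_cases h : ∀ y ∈ F, ¬ Ext y p
    · exact ⟨p, fun hp => ⟨hp, le_rfl, h⟩⟩
    push Not at h
    obtain ⟨y, a1, a2⟩ := h
    obtain ⟨U, u1, u2⟩ := isOpen_induced_iff.1 (isOpen_discrete ({⟨y, a1⟩} : Set F))
    obtain ⟨t, ht⟩ := basic u1 (show (⟨y, a1⟩ : F) ∈ Subtype.val ⁻¹' U from u2 ▸ rfl)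
    obtain ⟨j, hj⟩ := Infinite.exists_notMem_finset (t ∪ (p.1 ∪ p.2))
    let w : I → Bool := Function.update y.1 j (!y.1 j)
    have hw : ∀ i ∈ t ∪ (p.1 ∪ p.2), w i = y.1 i :=
      fun i hi => Function.update_of_ne (fun h : i = j => hj (h ▸ hi)) _ _
    refine ⟨((insert j (t ∪ (p.1 ∪ p.2))).filter (w · = true),
      (insert j (t ∪ (p.1 ∪ p.2))).filter (w · = false)), fun _ =>
      ⟨Finset.disjoint_filter.2 fun i _ h => by simp [h], ⟨fun i hi => ?_, fun i hi => ?_⟩,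
        fun z hz h => ?_⟩⟩
    · exact Finset.mem_filter.2 ⟨by simp [hi], (hw i (by simp [hi])).trans (a2.1 i hi)⟩
    · exact Finset.mem_filter.2 ⟨by simp [hi], (hw i (by simp [hi])).trans (a2.2 i hi)⟩
    · have e : ∀ i ∈ insert j (t ∪ (p.1 ∪ p.2)), z.1 i = w i := fun i hi => by
        cases hwi : w i
        · exact h.2 i (Finset.mem_filter.2 ⟨hi, hwi⟩)
        · exact h.1 i (Finset.mem_filter.2 ⟨hi, hwi⟩)
      have e1 : (⟨z, hz⟩ : F) ∈ Subtype.val ⁻¹' U :=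
        ht z fun i hi => (e i (by simp [hi])).trans (hw i (by simp [hi]))
      rw [u2] at e1
      have e2 : z = y := congrArg Subtype.val e1
      have := e j (Finset.mem_insert_self _ _)
      simp [w, e2] at this
  choose g hg using h1
  let s : ℕ → Set I := fun n => Nat.rec ∅ (fun _ s => s ∪
    ⋃ p ∈ {p : Finset I × Finset I | ↑p.1 ⊆ s ∧ ↑p.2 ⊆ s}, (↑(g p).1 ∪ ↑(g p).2 : Set I)) n
  have hc : ∀ s : Set I, s.Countable → {p : Finset I × Finset I | ↑p.1 ⊆ s ∧ ↑p.2 ⊆ s}.Countable := by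
    intro s hs
    have h : {a : Finset I | ↑a ⊆ s}.Countable := ((countable_ofPred_finite_subset hs).preimage
      Finset.coe_injective).mono fun a ha => And.intro a.finite_toSet ha
    exact h.prod h
  have s1 : ∀ n, (s n).Countable := fun n => by
    induction n with
    | zero => exact countable_empty
    | succ n ih => exact ih.union ((hc _ ih).biUnion fun p _ =>
        (g p).1.countable_toSet.union (g p).2.countable_toSet)
  have s2 : Monotone s := monotone_nat_of_le_succ fun n => subset_union_left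
  have s3 : ∀ p : Finset I × Finset I, ↑p.1 ⊆ ⋃ n, s n → ↑p.2 ⊆ ⋃ n, s n →
      (↑(g p).1 ∪ ↑(g p).2 : Set I) ⊆ ⋃ n, s n := by
    intro p h1 h2
    obtain ⟨a, ha⟩ := s2.directed_le.exists_mem_subset_of_finset_subset_biUnion h1
    obtain ⟨b, hb⟩ := s2.directed_le.exists_mem_subset_of_finset_subset_biUnion h2
    refine subset_iUnion_of_subset (max a b + 1) fun i hi => Or.inr (mem_biUnion (x := p) ?_ hi)
    exact ⟨ha.trans (s2 (le_max_left _ _)), hb.trans (s2 (le_max_right _ _))⟩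
  obtain ⟨e, he⟩ := ((hc _ (countable_iUnion s1)).mono (inter_subset_left
    (t := {p | Disjoint p.1 p.2}))).exists_eq_range ⟨(∅, ∅), by simp⟩
  have he' : ∀ m, Disjoint (e m).1 (e m).2 := fun m => (he.ge (mem_range_self m)).2
  refine ⟨fun m => g (e m), fun p hp => ?_, fun m => (hg _ (he' m)).2.2⟩
  obtain ⟨m, hm⟩ := he.le (show (p.1.filter (· ∈ ⋃ n, s n), p.2.filter (· ∈ ⋃ n, s n)) ∈ _ from
    ⟨⟨fun i hi => (Finset.mem_filter.1 hi).2, fun i hi => (Finset.mem_filter.1 hi).2⟩,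
      Finset.disjoint_filter_filter hp⟩)
  obtain ⟨g1, g2, -⟩ := hg _ (he' m)
  have g3 := s3 (e m) (he.ge (mem_range_self m)).1.1 (he.ge (mem_range_self m)).1.2
  refine ⟨p ⊔ g (e m), ?_, le_sup_left, m, le_sup_right⟩
  simp only [Prod.fst_sup, Prod.snd_sup, disjoint_sup_left, disjoint_sup_right]
  refine ⟨⟨hp, Finset.disjoint_left.2 fun i h1 h2 => ?_⟩, Finset.disjoint_left.2 fun i h1 h2 => ?_, g1⟩
  · refine Finset.disjoint_left.1 g1 h1 (g2.2 ?_)
    rw [hm]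
    exact Finset.mem_filter.2 ⟨h2, g3 (Or.inl h1)⟩
  · refine Finset.disjoint_left.1 g1 (g2.1 ?_) h2
    rw [hm]
    exact Finset.mem_filter.2 ⟨h1, g3 (Or.inr h2)⟩

theorem not_D [Infinite I] (hI : #I ^ ℵ₀ = #I) : ¬ BigDSep (Sig I) := by
  classical
  obtain ⟨e⟩ : Nonempty (I ≃ (ℕ → ℕ → Finset I × Finset I)) := by
    rw [← Cardinal.eq]
    simp [hI]
  intro h
  obtain ⟨F, h1, h2⟩ := h (fun _ => {y | ∀ i, y.1 i = true → ∀ n, Pre (e i n) →
      ∃ m, Ext y (e i n m)}) (fun _ => (dense_iff _).2 fun p hp => by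
    have k1 : ∀ (T : Finset (I × ℕ)) (p : Finset I × Finset I), Disjoint p.1 p.2 →
        ∃ q, Disjoint q.1 q.2 ∧ p ≤ q ∧ ∀ t ∈ T, Pre (e t.1 t.2) → ∃ m, e t.1 t.2 m ≤ q := by
      intro T
      induction T using Finset.induction_on with
      | empty => exact fun p hp => ⟨p, hp, le_rfl, by simp⟩
      | insert t T _ ih =>
        intro p hp
        obtain ⟨q, a1, a2, a3⟩ := ih p hp
        by_cases ht : Pre (e t.1 t.2)
        · obtain ⟨r, b1, b2, b3⟩ := ht q a1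
          refine ⟨r, b1, a2.trans b2, Finset.forall_mem_insert .. |>.2 ⟨fun _ => b3, fun t ht h => ?_⟩⟩
          exact (a3 t ht h).imp fun m hm => hm.trans b2
        · exact ⟨q, a1, a2, Finset.forall_mem_insert .. |>.2 ⟨fun h => absurd h ht, a3⟩⟩
    choose! g g1 g2 g3 using k1
    let x : ℕ → Finset I × Finset I := fun n => Nat.rec p (fun k q => g (q.1 ×ˢ Finset.Iic k) q) n
    have x1 : ∀ n, Disjoint (x n).1 (x n).2 := fun n => by
      induction n with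
      | zero => exact hp
      | succ n ih => exact g1 _ _ ih
    have x2 : Monotone x := monotone_nat_of_le_succ fun n => g2 _ _ (x1 n)
    let y : Sig I := ⟨fun i => decide (∃ n, i ∈ (x n).1), by
      simp only [decide_eq_true_eq, ofPred_exists]
      exact countable_iUnion fun n => (x n).1.countable_toSet⟩
    have hy : ∀ n, Ext y (x n) := fun n => ⟨fun i hi => decide_eq_true ⟨n, hi⟩, fun i hi =>
      decide_eq_false fun ⟨m, hm⟩ => Finset.disjoint_left.1 (x1 (max m n))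
        ((x2 (le_max_left m n)).1 hm) ((x2 (le_max_right m n)).2 hi)⟩
    refine ⟨y, fun i hi n hn => ?_, hy 0⟩
    obtain ⟨a, ha⟩ : ∃ n, i ∈ (x n).1 := of_decide_eq_true hi
    obtain ⟨m, hm⟩ := g3 ((x (max a n)).1 ×ˢ Finset.Iic (max a n)) _ (x1 (max a n)) (i, n)
      (Finset.mem_product.2 ⟨(x2 (le_max_left a n)).1 ha, Finset.mem_Iic.2 (le_max_right a n)⟩) hn
    exact ⟨m, (hy (max a n + 1)).mono hm⟩)
  choose f f1 f2 using fun n => @pre_of_disc I _ (F n) (h1 n).2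
  obtain ⟨y, y1, y2⟩ := (dense_iff _).1 h2 ({e.symm f}, ∅) (by simp)
  obtain ⟨n, hn⟩ := mem_iUnion.1 y1
  obtain ⟨m, hm⟩ := (h1 n).1 hn _ (y2.1 _ (Finset.mem_singleton_self _)) n (by simpa using f1 n)
  exact f2 n m y hn (by simpa using hm)

theorem root {D : Set (Sig I)} (hD : Dense D) {l : Cardinal} (h1 : ℵ₁ ≤ l) (h2 : l < #I)
    (p : Finset I × Finset I) (hp : Disjoint p.1 p.2) : ∃ r : Set I, #r ≤ l ∧
      ∀ E B : Set I, #E ≤ l → #B ≤ l → Disjoint E r →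
        ∃ y ∈ D, Ext y p ∧ (∀ i ∈ E, y.1 i = false) ∧ ∃ a, a ∉ B ∧ y.1 a = true := by
  classical
  have l0 : ℵ₀ ≤ l := aleph0_lt_aleph_one.le.trans h1
  have k0 : ∀ B : Set I, #B ≤ l → ∃ y ∈ D, Ext y p ∧ ∃ a, a ∉ B ∧ y.1 a = true := by
    intro B hB
    obtain ⟨a, ha⟩ : ∃ a, a ∉ B ∪ ↑p.2 := by
      by_contra hh
      push Not at hh
      refine h2.not_ge ((mk_univ.symm.le.trans (mk_le_mk_of_subset fun a _ => hh a)).trans
        ((mk_union_le _ _).trans (add_le_of_le l0 hB (p.2.countable_toSet.le_aleph0.trans l0))))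
    obtain ⟨y, y1, y2⟩ := (dense_iff _).1 hD (insert a p.1, p.2)
      (Finset.disjoint_insert_left.2 ⟨fun h => ha (Or.inr h), hp⟩)
    exact ⟨y, y1, Ext.mono (q := (insert a p.1, p.2)) ⟨Finset.subset_insert _ _, subset_rfl⟩ y2, a, fun h => ha (Or.inl h),
      y2.1 a (Finset.mem_insert_self _ _)⟩
  let Bl : Set I → Prop := fun E => #E ≤ l ∧ ∃ B : Set I, #B ≤ l ∧ ∀ y ∈ D, Ext y p →
    (∃ a, a ∉ B ∧ y.1 a = true) → ∃ i ∈ E, y.1 i = true
  obtain ⟨A, hA⟩ : ∃ A : Set (Set I), Maximal (fun A => A ⊆ {E | Bl E} ∧ A.Pairwise Disjoint) A := by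
    apply zorn_subset
    intro c hc hch
    refine ⟨⋃₀ c, ⟨sUnion_subset fun s hs => (hc hs).1, ?_⟩, fun s hs => subset_sUnion_of_mem hs⟩
    exact (pairwise_sUnion hch.directedOn).2 fun s hs => (hc hs).2
  have hAc : #A ≤ l := by
    by_contra hh
    obtain ⟨A', a1, a2⟩ := le_mk_iff_exists_subset.1 (h1.trans (not_le.1 hh).le)
    choose B b1 b2 using fun E : A' => (hA.1.1 (a1 E.2)).2
    obtain ⟨y, y1, y2, a, y3, y4⟩ := k0 (⋃ E, B E) ((mk_iUnion_le _).trans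
      (mul_le_of_le l0 (a2.le.trans h1) (ciSup_le' b1)))
    choose i i1 i2 using fun E : A' => b2 E y y1 y2 ⟨a, fun h => y3 (mem_iUnion.2 ⟨E, h⟩), y4⟩
    have : #A' ≤ ℵ₀ := (mk_le_of_injective (f := fun E : A' => (⟨i E, i2 E⟩ : {i | y.1 i = true}))
      fun E E' h => by
        by_contra hne
        exact disjoint_left.1 (hA.1.2 (a1 E.2) (a1 E'.2) fun h' => hne (Subtype.ext h')) (i1 E)
          ((show i E = i E' from congrArg Subtype.val h) ▸ i1 E')).trans y.2.le_aleph0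
    exact (a2 ▸ this).not_gt aleph0_lt_aleph_one
  refine ⟨⋃₀ A, (mk_sUnion_le _).trans (mul_le_of_le l0 hAc
    (ciSup_le' fun E => (hA.1.1 E.2).1)), fun E B hE hB hd => ?_⟩
  by_contra hh
  have hb : ∀ y ∈ D, Ext y p → (∃ a, a ∉ B ∧ y.1 a = true) → ∃ i ∈ E, y.1 i = true := by
    intro y y1 y2 y3
    by_contra h
    exact hh ⟨y, y1, y2, fun i hi => Bool.eq_false_iff.2 fun h' => h ⟨i, hi, h'⟩, y3⟩
  have h3 : insert E A ⊆ A := hA.2 ⟨insert_subset ⟨hE, B, hB, hb⟩ hA.1.1,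
    hA.1.2.insert fun a ha _ => ⟨hd.mono_right (subset_sUnion_of_mem ha),
      (hd.mono_right (subset_sUnion_of_mem ha)).symm⟩⟩ (subset_insert _ _)
  obtain ⟨y, y1, y2, y3⟩ := k0 B hB
  obtain ⟨i, i1, -⟩ := hb y y1 y2 y3
  exact disjoint_left.1 hd i1 ⟨E, h3 (mem_insert _ _), i1⟩

theorem select {D : Set (Sig I)} (hD : Dense D) {l : Cardinal} (h1 : ℵ₁ ≤ l) (h2 : l < #I)
    (P : Set (Finset I × Finset I)) (hP : #P ≤ l) (hP' : ∀ p ∈ P, Disjoint p.1 p.2) :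
    ∃ F ⊆ D, DiscreteTopology F ∧ ∀ p ∈ P, ∃ y ∈ F, Ext y p := by
  have l0 : ℵ₀ ≤ l := aleph0_lt_aleph_one.le.trans h1
  choose r r1 r2 using fun p : P => root hD h1 h2 p.1 (hP' _ p.2)
  have hR : #(⋃ p, r p) ≤ l := (mk_iUnion_le _).trans (mul_le_of_le l0 hP (ciSup_le' r1))
  obtain ⟨G, hG⟩ : ∃ G : Set (P × Sig I × I), Maximal (fun G => G ⊆ {t | t.2.1 ∈ D ∧
      Ext t.2.1 t.1.1 ∧ t.2.1.1 t.2.2 = true ∧ t.2.2 ∉ ⋃ p, r p} ∧
      G.Pairwise fun s t => s.1 ≠ t.1 ∧ t.2.1.1 s.2.2 = false) G := by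
    apply zorn_subset
    intro c hc hch
    refine ⟨⋃₀ c, ⟨sUnion_subset fun s hs => (hc hs).1, ?_⟩, fun s hs => subset_sUnion_of_mem hs⟩
    exact (pairwise_sUnion hch.directedOn).2 fun s hs => (hc hs).2
  have hGc : #G ≤ l := (mk_le_of_injective (f := fun t : G => t.1.1) fun s t h => by
    by_contra hne
    exact (hG.1.2 s.2 t.2 fun h' => hne (Subtype.ext h')).1 h).trans hP
  refine ⟨(fun t => t.2.1) '' G, ?_, disc_of ?_, fun p hp => ?_⟩
  · rintro _ ⟨t, ht, rfl⟩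
    exact (hG.1.1 ht).1
  · rintro _ ⟨s, hs, rfl⟩
    refine ⟨{s.2.2}, finite_singleton _, ?_⟩
    rintro _ ⟨t, ht, rfl⟩ h
    by_contra hne
    have := (hG.1.2 hs ht fun h' => hne (h' ▸ rfl)).2
    rw [h _ rfl, (hG.1.1 hs).2.2.1] at this
    exact Bool.noConfusion this
  · by_contra hh
    obtain ⟨y, y1, y2, y3, a, y4, y5⟩ := r2 ⟨p, hp⟩ ((fun t => t.2.2) '' G)
      ((⋃ p, r p) ∪ ⋃ t : G, {i | t.1.2.1.1 i = true}) (mk_image_le.trans hGc)
      ((mk_union_le _ _).trans (add_le_of_le l0 hR ((mk_iUnion_le _).trans (mul_le_of_le l0 hGc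
        (ciSup_le' fun t => t.1.2.1.2.le_aleph0.trans l0))))) (disjoint_left.2 (by
          rintro _ ⟨t, ht, rfl⟩ h
          exact (hG.1.1 ht).2.2.2 (mem_iUnion.2 ⟨_, h⟩)))
    have k : ∀ t ∈ G, t.1 ≠ ⟨p, hp⟩ := fun t ht h =>
      hh ⟨_, ⟨t, ht, rfl⟩, by simpa [h] using (hG.1.1 ht).2.1⟩
    have h3 : insert (⟨p, hp⟩, y, a) G ⊆ G := hG.2 ⟨insert_subset ⟨y1, y2, y5, fun h => y4 (Or.inl h)⟩
      hG.1.1, hG.1.2.insert fun t ht _ => ⟨⟨(k t ht).symm, Bool.eq_false_iff.2 fun h =>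
        y4 (Or.inr (mem_iUnion.2 ⟨⟨t, ht⟩, h⟩))⟩, k t ht, y3 _ ⟨t, ht, rfl⟩⟩⟩ (subset_insert _ _)
    exact k _ (h3 (mem_insert _ _)) rfl

theorem D_of_cof (hI : (#I).ord.cof = ℵ₀) : BigDSep (Sig I) := by
  classical
  intro D hD
  rcases le_or_gt #I ℵ₀ with h | h
  · have := mk_le_aleph0_iff.1 h
    obtain ⟨e, he⟩ := exists_surjective_nat (Finset I × Finset I)
    have h1 : ∀ n, ∃ F ⊆ D n, F.Subsingleton ∧ (Disjoint (e n).1 (e n).2 → ∃ y ∈ F, Ext y (e n)) := by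
      intro n
      by_cases hn : Disjoint (e n).1 (e n).2
      · obtain ⟨y, h1, h2⟩ := (dense_iff _).1 (hD n) _ hn
        exact ⟨{y}, singleton_subset_iff.2 h1, subsingleton_singleton, fun _ => ⟨y, rfl, h2⟩⟩
      · exact ⟨∅, empty_subset _, subsingleton_empty, fun h => absurd h hn⟩
    choose F f1 f2 f3 using h1
    refine ⟨F, fun n => ⟨f1 n, disc_of fun y hy => ⟨∅, finite_empty, fun z hz _ => f2 n hz hy⟩⟩, (dense_iff _).2 fun p hp => ?_⟩
    obtain ⟨n, rfl⟩ := he p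
    obtain ⟨y, h1, h2⟩ := f3 n hp
    exact ⟨y, mem_iUnion.2 ⟨n, h1⟩, h2⟩
  have h1 : ℵ₁ < #I := lt_of_le_of_ne (by simpa using Order.succ_le_of_lt h) fun h' => by
    rw [← h', isRegular_aleph_one.cof_ord] at hI
    exact aleph0_lt_aleph_one.ne' hI
  obtain ⟨e⟩ : Nonempty (I ≃ (#I).ord.ToType) := by rw [← Cardinal.eq]; simp
  obtain ⟨s, s1, s2⟩ := Order.exists_cof_eq (#I).ord.ToType
  rw [Ordinal.cof_toType, hI] at s2
  have hne : Nonempty (#I).ord.ToType := ⟨e (Classical.choice (mk_ne_zero_iff.1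
    (aleph0_pos.trans h).ne'))⟩
  obtain ⟨u, hu⟩ := (le_aleph0_iff_set_countable.1 s2.le).exists_eq_range s1.nonempty
  have h2 : ∀ n, #(e ⁻¹' Iic (u n)) < #I := fun n => (mk_preimage_of_injective _ _ e.injective).trans_lt
    ((mk_Iic_lt (u n) (by simp) (by simpa using h.le)).trans_eq (by simp))
  choose F f1 f2 f3 using fun n => select (hD n) (le_max_left _ _) (max_lt h1 (h2 n))
    {p | (↑p.1 ⊆ e ⁻¹' Iic (u n) ∧ ↑p.2 ⊆ e ⁻¹' Iic (u n)) ∧ Disjoint p.1 p.2} (by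
      have l0 : ℵ₀ ≤ max ℵ₁ #(e ⁻¹' Iic (u n)) := aleph0_lt_aleph_one.le.trans (le_max_left _ _)
      have k : #(Finset (e ⁻¹' Iic (u n))) ≤ max ℵ₁ #(e ⁻¹' Iic (u n)) := by
        rcases finite_or_infinite (e ⁻¹' Iic (u n)) with h | h
        · exact mk_le_aleph0.trans l0
        · rw [mk_finset_of_infinite]; exact le_max_right _ _
      refine (mk_le_of_injective (β := Finset (e ⁻¹' Iic (u n)) × Finset (e ⁻¹' Iic (u n)))
        (f := fun p => (p.1.1.subtype _, p.1.2.subtype _)) fun p q hpq => ?_).trans ?_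
      · obtain ⟨a, b⟩ := Prod.ext_iff.1 hpq
        refine Subtype.ext (Prod.ext ?_ ?_)
        · rw [← Finset.subtype_map_of_mem p.2.1.1, ← Finset.subtype_map_of_mem q.2.1.1]
          exact congrArg _ a
        · rw [← Finset.subtype_map_of_mem p.2.1.2, ← Finset.subtype_map_of_mem q.2.1.2]
          exact congrArg _ b
      · simpa using mul_le_of_le l0 k k) fun p hp => hp.2
  refine ⟨F, fun n => ⟨f1 n, f2 n⟩, (dense_iff _).2 fun p hp => ?_⟩
  obtain ⟨b, hb⟩ := ((p.1 ∪ p.2).finite_toSet.image e).bddAbove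
  obtain ⟨_, ⟨n, rfl⟩, hn⟩ := (hu ▸ s1) b
  obtain ⟨y, h1, h2⟩ := f3 n p ⟨⟨fun i hi => (hb ⟨i, by simp [Finset.mem_coe.1 hi], rfl⟩).trans hn,
    fun i hi => (hb ⟨i, by simp [Finset.mem_coe.1 hi], rfl⟩).trans hn⟩, hp⟩
  exact ⟨y, mem_iUnion.2 ⟨n, h1⟩, h2⟩

end Pool.Agent.H25.SigmaD
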