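import Pool.Agent.H25.DSepDefs

set_option autoImplicit false

namespace Pool.Agent.H25.SigmaDefs

/-- the Sigma-product of the Cantor cube: points with countably many non-zero coordinates -/
abbrev Sig (I : Type) : Type := {x : I → Bool // {i | x i = true}.Countable}

/-- the Whyburn property -/
def Whyburn (X : Type) [TopologicalSpace X] : Prop :=
  ∀ (A : Set X) (p : X), p ∈ closure A → p ∉ A → ∃ B ⊆ A, closure B = B ∪ {p}

end Pool.Agent.H25.SigmaDefs
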