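import Mathlib

set_option autoImplicit false

universe u

namespace Pool.Agent.H25.SigmaQDefs

open Set

/-- The tree `σℚ`: graphs of strictly increasing maps from a countable ordinal to `ℚ` with
bounded range; it is ordered by inclusion. -/
def sigmaQ : Set (Set (Ordinal.{0} × ℚ)) :=
  {t | ∃ (α : Ordinal.{0}) (g : Ordinal.{0} → ℚ), α < Ordinal.omega 1 ∧ StrictMonoOn g (Iio α) ∧
    BddAbove (g '' Iio α) ∧ t = (fun β => (β, g β)) '' Iio α}

/-- A union of countably many antichains. -/
def Special {T : Type u} [PartialOrder T] (X : Set T) : Prop :=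
  ∃ A : ℕ → Set T, (∀ n, IsAntichain (· ≤ ·) (A n)) ∧ X = ⋃ n, A n

/-- Nonstationary subsets of a tree. -/
def Nonstationary {T : Type u} [PartialOrder T] (X : Set T) : Prop :=
  ∃ f : X → T, (∀ x : X, (∃ y ∈ X, y < (x : T)) → f x < x) ∧
    ∀ t, Special (Subtype.val '' (f ⁻¹' {t}))

/-- The diamond principle of a tree. -/
def Diamond (T : Type u) [PartialOrder T] : Prop :=
  ∃ D : T → Set T, (∀ t, D t ⊆ Iio t) ∧ ∀ X : Set T, ¬ Nonstationary {t | X ∩ Iio t = D t}

/-- `Q t` splits the immediate successors of `t` into two disjoint sets. -/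
def IsSuccPartition {T : Type u} [PartialOrder T] (Q : T → Bool → Set T) : Prop :=
  ∀ t, Disjoint (Q t false) (Q t true) ∧ Q t false ∪ Q t true = {s | t ⋖ s}

/-- The subtree `T(Q,f)`: nodes all of whose successor steps follow `f`. -/
def Follow {T : Type u} [PartialOrder T] (Q : T → Bool → Set T) (f : T → Bool) : Set T :=
  {t | ∀ u s, u ⋖ s → s ≤ t → s ∈ Q u (f u)}

end Pool.Agent.H25.SigmaQDefs
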