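import Mathlib
import Pool.Agent.H25.SigmaQDefs

set_option autoImplicit false

universe u

namespace Pool.Agent.H25.SigmaQ

open Set Pool.Agent.H25.SigmaQDefs

theorem kurepa {T : Type u} [PartialOrder T] (S : Set T) (B : T → ℚ → Prop) (cut : T → ℚ → T)
    (hcut : ∀ s u, s < u → ∃ q, ∀ v, u ≤ v → cut v q = s) (t0 : T) (h0 : t0 ∈ S) (hB0 : B t0 0)
    (hanti : ∀ s t b c, s ≤ t → b ≤ c → B t b → B s c)
    (hext : ∀ t ∈ S, ∀ b c, B t b → b < c → ∃ s ∈ S, t < s ∧ B s c)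
    (hlim : ∀ u : ℕ → T, StrictMono u → (∀ n, u n ∈ S) → (∀ n, B (u n) 1) →
      ∃ t ∈ S, (∀ n, u n ≤ t) ∧ (∀ s, s < t → ∃ n, s < u n) ∧ ∀ b, (∀ n, B (u n) b) → B t b)
    (A : T → ℕ → Set T) (hA : ∀ s n, IsAntichain (· ≤ ·) (A s n)) :
    ∃ t ∈ S, t0 < t ∧ ∀ s, s < t → ∀ n, t ∉ A s n := by
  obtain ⟨e, he⟩ := exists_surjective_nat (ℚ × ℕ)
  let St := {p : T × ℚ × ℚ // p.1 ∈ S ∧ B p.1 p.2.1 ∧ p.2.1 < p.2.2}
  have hstep : ∀ (R : Set T) (p : St), ∃ p' : St, p.1.1 < p'.1.1 ∧ p'.1.2.2 < p.1.2.2 ∧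
      ((∃ s ∈ S, ∃ a, p.1.1 ≤ s ∧ B s a ∧ a < p.1.2.2 ∧ s ∈ R) → ∃ s ∈ R, s < p'.1.1) := by
    rintro R ⟨⟨t, a, b⟩, h1, h2, h3⟩
    by_cases h4 : ∃ s ∈ S, ∃ a, t ≤ s ∧ B s a ∧ a < b ∧ s ∈ R
    · obtain ⟨s, g1, a', g2, g3, g4, g5⟩ := h4
      obtain ⟨c, k1, k2⟩ := exists_between g4
      obtain ⟨d, k3, k4⟩ := exists_between k2
      obtain ⟨s', g6, g7, g8⟩ := hext s g1 a' c g3 k1
      exact ⟨⟨⟨s', c, d⟩, g6, g8, k3⟩, lt_of_le_of_lt g2 g7, k4, fun _ => ⟨s, g5, g7⟩⟩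
    · obtain ⟨c, k1, k2⟩ := exists_between h3
      obtain ⟨d, k3, k4⟩ := exists_between k2
      obtain ⟨s', g6, g7, g8⟩ := hext t h1 a c h2 k1
      exact ⟨⟨⟨s', c, d⟩, g6, g8, k3⟩, g7, k4, fun h => absurd h h4⟩
  choose nx hnx1 hnx2 hnx3 using hstep
  let R : ℕ → St → Set T := fun n p => A (cut p.1.1 (e n.unpair.1).1) (e n.unpair.1).2
  let P : ℕ → St := fun n => Nat.rec ⟨⟨t0, 0, 1⟩, h0, hB0, zero_lt_one⟩ (fun n p => nx (R n p) p) n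
  have h1 : StrictMono (fun n => (P n).1.1) := strictMono_nat_of_lt_succ (fun n => hnx1 _ _)
  have h2 : StrictAnti (fun n => (P n).1.2.2) := strictAnti_nat_of_succ_lt (fun n => hnx2 _ _)
  have h3 : ∀ n m, B (P m).1.1 (P n).1.2.2 := fun n m =>
    hanti _ _ _ _ (h1.monotone (le_max_left m n))
      ((P (max m n)).2.2.2.le.trans (h2.antitone (le_max_right m n))) (P (max m n)).2.2.1
  obtain ⟨t, g1, g2, g3, g4⟩ := hlim _ h1 (fun n => (P n).2.1) (h3 0)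
  refine ⟨t, g1, lt_of_lt_of_le (h1 (Nat.lt_succ_self 0)) (g2 1), fun s hs k hk => ?_⟩
  obtain ⟨m, hm⟩ := g3 s hs
  obtain ⟨q, hq⟩ := hcut s _ hm
  obtain ⟨i, hi⟩ := he (q, k)
  have h4 : R (Nat.pair i m) (P (Nat.pair i m)) = A s k := by
    simp only [R, Nat.unpair_pair, hi]
    rw [hq _ (h1.monotone (Nat.right_le_pair i m))]
  obtain ⟨s', k1, k2⟩ := hnx3 (R (Nat.pair i m) (P (Nat.pair i m))) (P (Nat.pair i m))
    ⟨t, g1, _, g2 _, g4 _ (h3 (Nat.pair i m + 1)), h2 (Nat.lt_succ_self _), h4 ▸ hk⟩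
  have h5 : s' < t := lt_of_lt_of_le k2 (g2 (Nat.pair i m + 1))
  exact hA s k (h4 ▸ k1) hk h5.ne h5.le

theorem countable_iff (α : Ordinal.{0}) : α < Ordinal.omega 1 ↔ (Iio α).Countable := by
  rw [← Cardinal.le_aleph0_iff_set_countable, Cardinal.mk_Iio_ordinal, ← Cardinal.ord_aleph,
    Cardinal.lt_ord, ← Cardinal.succ_aleph0, Order.lt_succ_iff,
    Cardinal.lift_le_aleph0]

/-- An intrinsic description of the nodes. -/
structure Node (t : Set (Ordinal.{0} × ℚ)) : Prop where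
  down : ∀ p ∈ t, ∀ β, β < p.1 → ∃ q, (β, q) ∈ t
  func : ∀ p ∈ t, ∀ r ∈ t, p.1 = r.1 → p.2 = r.2
  mono : ∀ p ∈ t, ∀ r ∈ t, p.1 < r.1 → p.2 < r.2
  bdd : ∃ b, ∀ p ∈ t, p.2 ≤ b

theorem node_iff (t : Set (Ordinal.{0} × ℚ)) : t ∈ sigmaQ ↔ Node t := by
  constructor
  · rintro ⟨α, g, -, h2, ⟨b, h3⟩, rfl⟩
    refine ⟨?_, ?_, ?_, b, ?_⟩
    · rintro _ ⟨x, hx, rfl⟩ β hβ
      exact ⟨g β, β, lt_trans hβ hx, rfl⟩
    · rintro _ ⟨x, hx, rfl⟩ _ ⟨y, hy, rfl⟩ hxy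
      exact congrArg g hxy
    · rintro _ ⟨x, hx, rfl⟩ _ ⟨y, hy, rfl⟩ hxy
      exact h2 hx hy hxy
    · rintro _ ⟨x, hx, rfl⟩
      exact h3 ⟨x, hx, rfl⟩
  · intro h
    have h1 : InjOn Prod.snd t := by
      intro p hp r hr hpr
      rcases lt_trichotomy p.1 r.1 with h2 | h2 | h2
      · exact absurd hpr (h.mono p hp r hr h2).ne
      · exact Prod.ext h2 hpr
      · exact absurd hpr (h.mono r hr p hp h2).ne'
    have h2 : (Prod.fst '' t).Countable :=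
      (countable_of_injective_of_countable_image h1 (to_countable _)).image _
    have h3 : ((Prod.fst '' t)ᶜ).Nonempty := by
      by_contra h4
      rw [not_nonempty_iff_eq_empty, compl_empty_iff] at h4
      exact lt_irrefl _ ((countable_iff (Ordinal.omega 1)).2 (h2.mono (h4 ▸ subset_univ _)))
    have h4 : Prod.fst '' t = Iio (sInf (Prod.fst '' t)ᶜ) := by
      ext β
      constructor
      · rintro ⟨p, hp, rfl⟩
        by_contra h5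
        rcases (not_lt.1 (fun h6 => h5 (mem_Iio.2 h6))).lt_or_eq with h6 | h6
        · obtain ⟨q, hq⟩ := h.down p hp _ h6
          exact csInf_mem h3 ⟨_, hq, rfl⟩
        · exact csInf_mem h3 ⟨p, hp, h6.symm⟩
      · intro hβ
        by_contra h5
        exact absurd (mem_Iio.1 hβ) (not_lt.2 (csInf_le' h5))
    have h5 : ∀ β, ∃ q, β ∈ Prod.fst '' t → (β, q) ∈ t := by
      intro β
      by_cases h6 : β ∈ Prod.fst '' t
      · obtain ⟨p, hp, rfl⟩ := h6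
        exact ⟨p.2, fun _ => hp⟩
      · exact ⟨0, fun h7 => absurd h7 h6⟩
    choose g hg using h5
    obtain ⟨b, hb⟩ := h.bdd
    refine ⟨_, g, (countable_iff _).2 (h4 ▸ h2), ?_, ⟨b, ?_⟩, ?_⟩
    · intro x hx y hy hxy
      exact h.mono _ (hg x (h4 ▸ hx)) _ (hg y (h4 ▸ hy)) hxy
    · rintro _ ⟨x, hx, rfl⟩
      exact hb _ (hg x (h4 ▸ hx))
    · rw [← h4]
      ext p
      constructor
      · intro hp
        exact ⟨p.1, ⟨p, hp, rfl⟩, Prod.ext rfl (h.func _ (hg p.1 ⟨p, hp, rfl⟩) p hp rfl)⟩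
      · rintro ⟨x, hx, rfl⟩
        exact hg x hx

theorem node_cut {t : Set (Ordinal.{0} × ℚ)} (h : Node t) (P : Ordinal.{0} × ℚ → Prop)
    (hP : ∀ p ∈ t, ∀ r ∈ t, p.1 < r.1 → P r → P p) : Node {p | p ∈ t ∧ P p} := by
  refine ⟨fun p hp β hβ => ?_, fun p hp r hr => h.func p hp.1 r hr.1,
    fun p hp r hr => h.mono p hp.1 r hr.1, h.bdd.imp (fun b hb p hp => hb p hp.1)⟩
  obtain ⟨q, hq⟩ := h.down p hp.1 β hβ
  exact ⟨q, hq, hP _ hq p hp.1 hβ hp.2⟩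

theorem end_ext {s t : Set (Ordinal.{0} × ℚ)} (hs : Node s) (ht : Node t) (hst : s ⊆ t) :
    ∀ p ∈ s, ∀ r ∈ t, r.1 ≤ p.1 → r ∈ s := by
  intro p hp r hr hrp
  rcases hrp.lt_or_eq with h | h
  · obtain ⟨q, hq⟩ := hs.down p hp _ h
    have := ht.func _ (hst hq) r hr rfl
    rwa [show r = (r.1, q) from Prod.ext rfl this.symm]
  · rwa [show r = p from Prod.ext h (ht.func r hr p (hst hp) h)]

theorem first {s t : Set (Ordinal.{0} × ℚ)} (hs : Node s) (ht : Node t) (hst : s ⊂ t) :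
    ∃ r ∈ t, r ∉ s ∧ ∀ p ∈ t, p ∈ s ↔ p.1 < r.1 := by
  obtain ⟨r, hr, hmin⟩ := (InvImage.wf (fun p : Ordinal.{0} × ℚ => p.1) wellFounded_lt).has_min (t \ s) (nonempty_of_ssubset hst)
  refine ⟨r, hr.1, hr.2, fun p hp => ⟨fun h => not_le.1 (fun h1 => hr.2 ?_), fun h => ?_⟩⟩
  · exact end_ext hs ht hst.1 p h r hr.1 h1
  · by_contra h1
    exact hmin p ⟨hp, h1⟩ h

def Dy (q : ℚ) : Prop := ∃ (n : ℕ) (k : ℤ), q * 2 ^ n = k

theorem dy_dense {b c : ℚ} (h : b < c) : ∃ q, b < q ∧ q < c ∧ Dy q := by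
  obtain ⟨n, hn⟩ := exists_pow_lt_of_lt_one (sub_pos.2 h) (show (1 / 2 : ℚ) < 1 by norm_num)
  have h1 : (0 : ℚ) < 2 ^ n := by positivity
  refine ⟨((⌊b * 2 ^ n⌋ + 1 : ℤ) : ℚ) / 2 ^ n, ?_, ?_, n, _, div_mul_cancel₀ _ h1.ne'⟩
  · rw [lt_div_iff₀ h1]
    push_cast
    exact Int.lt_floor_add_one _
  · rw [div_lt_iff₀ h1]
    push_cast
    have h2 := Int.floor_le (b * 2 ^ n)
    rw [one_div, inv_pow, inv_lt_iff_one_lt_mul₀ h1] at hn
    linarith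

theorem side_dense {b c : ℚ} (h : b < c) (i : Bool) : ∃ q, b < q ∧ q < c ∧ (Dy q ↔ i = true) := by
  cases i with
  | true =>
    obtain ⟨q, h1, h2, h3⟩ := dy_dense h
    exact ⟨q, h1, h2, by simp [h3]⟩
  | false =>
    obtain ⟨q, h1, h2, n, k, h3⟩ := dy_dense (show b - 1 / 3 < c - 1 / 3 by linarith)
    refine ⟨q + 1 / 3, by linarith, by linarith, ?_⟩
    simp only [Bool.false_eq_true, iff_false]
    rintro ⟨m, l, h4⟩
    have h5 : ((2 ^ (n + m) : ℤ) : ℚ) = ((3 * (l * 2 ^ n - k * 2 ^ m) : ℤ) : ℚ) := by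
      push_cast
      rw [← h3, ← h4]
      ring
    have h6 : (3 : ℤ) ∣ 2 ^ (n + m) := ⟨_, Int.cast_injective h5⟩
    have h7 := Int.prime_three.dvd_of_dvd_pow h6
    norm_num at h7

theorem cov {s t : sigmaQ} {r : Ordinal.{0} × ℚ} (h1 : s ≤ t) (h2 : r ∈ t.1) (h3 : r ∉ s.1)
    (h4 : ∀ p ∈ t.1, p ∈ s.1 ∨ p = r) : s ⋖ t := by
  refine ⟨lt_of_le_of_ne h1 (fun h => h3 (h ▸ h2)), fun w g1 g2 => ?_⟩
  obtain ⟨p, k1, k2⟩ := exists_of_ssubset (show s.1 ⊂ w.1 from g1)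
  have k3 : p = r := (h4 p (g2.le k1)).resolve_left k2
  refine g2.not_ge (fun x hx => ?_)
  rcases h4 x hx with k4 | k4
  · exact g1.le k4
  · exact k4 ▸ k3 ▸ k1

theorem exists_cov {s t : sigmaQ} (h : s < t) :
    ∃ (w : sigmaQ) (r : Ordinal.{0} × ℚ), s ⋖ w ∧ w ≤ t ∧ r ∈ w.1 ∧ ∀ p ∈ w.1, p.1 ≤ r.1 := by
  have ht := (node_iff _).1 t.2
  obtain ⟨r, h1, h2, h3⟩ := first ((node_iff _).1 s.2) ht h
  refine ⟨⟨{p | p ∈ t.1 ∧ p.1 ≤ r.1}, (node_iff _).2 (node_cut ht _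
    (fun p _ x _ g1 g2 => g1.le.trans g2))⟩, r, cov (r := r) (fun p hp => ⟨h.le hp,
      ((h3 p (h.le hp)).1 hp).le⟩) ⟨h1, le_rfl⟩ h2 (fun p hp => ?_), fun p hp => hp.1,
      ⟨h1, le_rfl⟩, fun p hp => hp.2⟩
  rcases hp.2.lt_or_eq with g | g
  · exact Or.inl ((h3 p hp.1).2 g)
  · exact Or.inr (Prod.ext g (ht.func p hp.1 r h1 g))

def QQ (t : sigmaQ) (i : Bool) : Set sigmaQ :=
  {s | t ⋖ s ∧ ((∃ p ∈ s.1, p ∉ t.1 ∧ Dy p.2) ↔ i = true)}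

theorem qq_part : IsSuccPartition QQ := by
  intro t
  refine ⟨disjoint_left.2 (fun s h1 h2 => ?_), ?_⟩
  · simpa using h1.2.1 (h2.2.2 rfl)
  · ext s
    refine ⟨fun h => h.elim (fun g => g.1) (fun g => g.1), fun h => ?_⟩
    by_cases h1 : ∃ p ∈ s.1, p ∉ t.1 ∧ Dy p.2
    · exact Or.inr ⟨h, by simp only [h1]⟩
    · exact Or.inl ⟨h, by simp only [h1]; simp⟩

def root : sigmaQ := ⟨∅, (node_iff _).2 ⟨by simp, by simp, by simp, 0, by simp⟩⟩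

theorem root_le (t : sigmaQ) : root ≤ t := empty_subset _

theorem key (f : sigmaQ → Bool) (A : sigmaQ → ℕ → Set sigmaQ)
    (hA : ∀ s n, IsAntichain (· ≤ ·) (A s n)) :
    ∃ t ∈ Follow QQ f, root < t ∧ ∀ s, s < t → ∀ n, t ∉ A s n := by
  refine kurepa (Follow QQ f) (fun t b => ∀ p ∈ t.1, p.2 ≤ b)
    (fun v q => ⟨{p | p ∈ v.1 ∧ p.2 < q}, (node_iff _).2 (node_cut ((node_iff _).1 v.2) _
      (fun p hp r hr g1 g2 => (((node_iff _).1 v.2).mono p hp r hr g1).trans g2))⟩)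
    ?_ root ?_ (fun p hp => absurd hp (notMem_empty p))
    (fun s t b c g1 g2 g3 p hp => (g3 p ((show s.1 ⊆ t.1 from g1) hp)).trans g2) ?_ ?_ A hA
  · intro s u hsu
    have hu := (node_iff _).1 u.2
    obtain ⟨r, h1, h2, h3⟩ := first ((node_iff _).1 s.2) hu hsu
    refine ⟨r.2, fun v hv => Subtype.ext (Set.ext (fun p => ⟨fun hp => ?_, fun hp => ?_⟩))⟩
    · have hv' := (node_iff _).1 v.2
      have h4 : p.1 < r.1 := by
        by_contra h5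
        rcases (not_lt.1 h5).lt_or_eq with h6 | h6
        · exact lt_asymm hp.2 (hv'.mono r (hv h1) p hp.1 h6)
        · exact hp.2.ne' (hv'.func r (hv h1) p hp.1 h6)
      exact (h3 p (end_ext hu hv' hv r h1 p hp.1 h4.le)).2 h4
    · exact ⟨hv (hsu.le hp), hu.mono p (hsu.le hp) r h1 ((h3 p (hsu.le hp)).1 hp)⟩
  · intro u s h1 h2
    exact absurd (lt_of_lt_of_le h1.1 h2) (not_lt_of_ge (root_le u))
  · intro t ht b c hb hbc
    obtain ⟨q, h1, h2, h3⟩ := side_dense hbc (f t)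
    have hn := (node_iff _).1 t.2
    obtain ⟨α, h4, h5⟩ : ∃ α : Ordinal.{0}, (∀ p ∈ t.1, p.1 < α) ∧ ∀ β, β < α → ∃ q, (β, q) ∈ t.1 := by
      obtain ⟨α, g, -, -, -, h4⟩ := t.2
      rw [h4]
      refine ⟨α, ?_, fun β hβ => ⟨g β, β, hβ, rfl⟩⟩
      rintro _ ⟨x, hx, rfl⟩
      exact hx
    have h6 : Node (insert (α, q) t.1) := by
      refine ⟨?_, ?_, ?_, c, ?_⟩
      · rintro p (rfl | hp) β hβ
        · exact (h5 β hβ).imp (fun _ g => Or.inr g)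
        · exact (hn.down p hp β hβ).imp (fun _ g => Or.inr g)
      · rintro p (rfl | hp) r (rfl | hr) g
        · rfl
        · exact absurd g (h4 r hr).ne'
        · exact absurd g (h4 p hp).ne
        · exact hn.func p hp r hr g
      · rintro p (rfl | hp) r (rfl | hr) g
        · exact absurd g (lt_irrefl _)
        · exact absurd g (h4 r hr).not_gt
        · exact lt_of_le_of_lt (hb p hp) h1
        · exact hn.mono p hp r hr g
      · rintro p (rfl | hp)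
        · exact h2.le
        · exact (hb p hp).trans hbc.le
    have h7 : (α, q) ∉ t.1 := fun g => lt_irrefl _ (h4 _ g)
    let s : sigmaQ := ⟨_, (node_iff _).2 h6⟩
    have h8 : t ⋖ s := cov (r := (α, q)) (subset_insert _ _) (mem_insert _ _) h7
      (fun p hp => hp.symm)
    have h9 : ∀ w : sigmaQ, w ≤ s → w ≤ t ∨ w = s := by
      intro w hw
      by_cases g : (α, q) ∈ w.1
      · refine Or.inr (le_antisymm hw (fun p hp => end_ext ((node_iff _).1 w.2) h6 hw _ g p hp ?_))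
        rcases hp with rfl | hp
        · exact le_rfl
        · exact (h4 p hp).le
      · exact Or.inl (fun p hp => (hw hp).resolve_left (fun g1 => g (g1 ▸ hp)))
    refine ⟨s, fun u w g1 g2 => ?_, h8.1, ?_⟩
    · rcases h9 w g2 with g3 | rfl
      · exact ht u w g1 g3
      · have g3 : u = t := ((g1.eq_or_eq ((h9 u g1.1.le).resolve_right g1.1.ne) h8.1.le).resolve_right
          h8.1.ne).symm
        subst g3
        refine ⟨h8, ⟨?_, fun g => ⟨_, mem_insert _ _, h7, h3.2 g⟩⟩⟩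
        rintro ⟨p, rfl | k1, k2, k3⟩
        · exact h3.1 k3
        · exact absurd k1 k2
    · rintro p (rfl | hp)
      · exact h2.le
      · exact (hb p hp).trans hbc.le
  · intro u hu1 hu2 hu3
    have hn := fun n => (node_iff _).1 (u n).2
    have h1 : ∀ p ∈ ⋃ n, (u n).1, ∀ r ∈ ⋃ n, (u n).1, ∃ n, p ∈ (u n).1 ∧ r ∈ (u n).1 := by
      intro p hp r hr
      obtain ⟨n, g1⟩ := mem_iUnion.1 hp
      obtain ⟨m, g2⟩ := mem_iUnion.1 hr
      exact ⟨max n m, hu1.monotone (le_max_left n m) g1, hu1.monotone (le_max_right n m) g2⟩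
    have h2 : ∀ b, (∀ n, ∀ p ∈ (u n).1, p.2 ≤ b) → ∀ p ∈ ⋃ n, (u n).1, p.2 ≤ b := by
      intro b hb p hp
      obtain ⟨n, g1⟩ := mem_iUnion.1 hp
      exact hb n p g1
    have h3 : Node (⋃ n, (u n).1) := by
      refine ⟨fun p hp β hβ => ?_, fun p hp r hr => ?_, fun p hp r hr => ?_, 1, h2 1 hu3⟩
      · obtain ⟨n, g1⟩ := mem_iUnion.1 hp
        exact ((hn n).down p g1 β hβ).imp (fun _ g => mem_iUnion.2 ⟨n, g⟩)
      · obtain ⟨n, g1, g2⟩ := h1 p hp r hr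
        exact (hn n).func p g1 r g2
      · obtain ⟨n, g1, g2⟩ := h1 p hp r hr
        exact (hn n).mono p g1 r g2
    let t : sigmaQ := ⟨_, (node_iff _).2 h3⟩
    have h4 : ∀ n, u n ≤ t := fun n => subset_iUnion (fun n => (u n).1) n
    have h5 : ∀ s, s < t → ∃ n, ∃ w, s ⋖ w ∧ w ≤ u n := by
      intro s hs
      obtain ⟨w, r, g1, g2, g3, g4⟩ := exists_cov hs
      obtain ⟨n, g5⟩ := mem_iUnion.1 (g2 g3)
      exact ⟨n, w, g1, fun p hp => end_ext (hn n) h3 (h4 n) r g5 p (g2 hp) (g4 p hp)⟩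
    refine ⟨t, fun w s g1 g2 => ?_, h4, fun s hs => ?_, h2⟩
    · obtain ⟨w', r, k1, k2, k3, k4⟩ := exists_cov g1.1
      obtain rfl : w' = s := (g1.eq_or_eq k1.1.le k2).resolve_left k1.1.ne'
      obtain ⟨n, g5⟩ := mem_iUnion.1 (g2 k3)
      exact hu2 n w w' g1 (fun p hp => end_ext (hn n) h3 (h4 n) r g5 p (g2 hp) (k4 p hp))
    · obtain ⟨n, w, g1, g2⟩ := h5 s hs
      exact ⟨n, lt_of_lt_of_le g1.1 g2⟩

theorem nice (f : sigmaQ → Bool) : ¬ Special (Follow QQ f) := by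
  rintro ⟨A, h1, h2⟩
  obtain ⟨t, g1, g2, g3⟩ := key f (fun _ => A) (fun _ => h1)
  obtain ⟨n, hn⟩ := mem_iUnion.1 (h2 ▸ g1)
  exact g3 root g2 n hn

theorem diamond : Diamond sigmaQ := by
  classical
  refine ⟨fun t => {s | s < t ∧ ∃ w, s ⋖ w ∧ w ≤ t ∧ w ∈ QQ s true}, fun t s hs => hs.1, ?_⟩
  rintro X ⟨f, h1, h2⟩
  choose A hA1 hA2 using h2
  obtain ⟨t, g1, g2, g3⟩ := key (fun s => decide (s ∈ X)) A hA1
  have h3 : X ∩ Iio t = {s | s < t ∧ ∃ w, s ⋖ w ∧ w ≤ t ∧ w ∈ QQ s true} := by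
    ext s
    constructor
    · rintro ⟨k1, k2⟩
      obtain ⟨w, -, k3, k4, -⟩ := exists_cov k2
      exact ⟨k2, w, k3, k4, by simpa [k1] using g1 s w k3 k4⟩
    · rintro ⟨k1, w, k2, k3, k4⟩
      exact ⟨of_decide_eq_true ((g1 s w k2 k3).2.1 (k4.2.2 rfl)), k1⟩
  have h4 := h1 ⟨t, h3⟩ ⟨root, ?_, g2⟩
  · have h5 : t ∈ ⋃ n, A (f ⟨t, h3⟩) n := hA2 _ ▸ ⟨⟨t, h3⟩, rfl, rfl⟩
    obtain ⟨n, hn⟩ := mem_iUnion.1 h5
    exact g3 _ h4 n hn
  · ext s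
    exact ⟨fun h => absurd h.2 (not_lt_of_ge (root_le s)), fun h => absurd h.1 (not_lt_of_ge (root_le s))⟩

end Pool.Agent.H25.SigmaQ
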