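import Pool.Agent.H25.Aron

namespace Pool.Agent.H25.Sph
open Function Cardinal Set

theorem extend {X G K : Type} [Nonempty X] [Nontrivial K] (a : G → X → X)
    (ha : ∀ g, Injective (a g)) (hG : #G ≤ 𝔠) (W : Set X) (hne : ∀ g, ∃ x ∈ W, a g x ≠ x)
    (hbig : ∀ g h, #{x | x ∈ W ∧ a g x ≠ x} < 𝔠 → #{x | x ∈ W ∧ a h x ≠ x} < 𝔠 → g = h)
    (c : X → K) : ∃ c' : X → K, (∀ x ∉ W, c' x = c x) ∧ ∀ g, ∃ x, c' (a g x) ≠ c' x := by
  classical
  choose q hq1 hq2 using hne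
  let sm : G → Prop := fun g => #{x | x ∈ W ∧ a g x ≠ x} < 𝔠
  have hsm : {g | sm g}.Finite := Set.Subsingleton.finite fun g hg h hh => hbig g h hg hh
  let F0 : Set X := q '' {g | sm g} ∪ (fun g => a g (q g)) '' {g | sm g}
  have hF0 : F0.Finite := (hsm.image _).union (hsm.image _)
  obtain ⟨e⟩ : Nonempty (G ↪ (𝔠 : Cardinal).ord.ToType) := (Cardinal.le_def _ _).1 (by simpa using hG)
  letI : LinearOrder G := LinearOrder.lift' e e.injective
  haveI : WellFoundedLT G := ⟨InvImage.wf e wellFounded_lt⟩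
  have small : ∀ g : G, #(Iio g) < 𝔠 := fun g =>
    lt_of_le_of_lt (Cardinal.mk_le_of_injective (f := fun i : Iio g => (⟨e i.1, i.2⟩ : Iio (e g)))
      fun i j h => Subtype.ext (e.injective (congrArg Subtype.val h)))
      (Cardinal.mk_Iio_toType_ord_lt (e g))
  obtain ⟨f, hf⟩ := Pool.Agent.H25.Aron.trec (J := G) (α := X × X)
    (fun g β => β.1 ∈ W ∧ β.2 = a g β.1 ∧ β.2 ≠ β.1 ∧ (¬ sm g → β.1 ∉ F0 ∧ β.2 ∉ F0))
    (fun _ β γ => γ.1 ≠ β.1 ∧ γ.1 ≠ β.2 ∧ γ.2 ≠ β.1) (by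
      intro j f hP _
      by_cases hj : sm j
      · refine ⟨(q j, a j (q j)), ⟨hq1 j, rfl, hq2 j, fun h => (h hj).elim⟩, fun i => ?_⟩
        have hi : ¬ sm i.1 := fun h => (ne_of_lt i.2) (hbig _ _ h hj)
        have := (hP i).2.2.2 hi
        have m1 : q j ∈ F0 := Or.inl ⟨j, hj, rfl⟩
        have m2 : a j (q j) ∈ F0 := Or.inr ⟨j, hj, rfl⟩
        exact ⟨fun e => this.1 (e ▸ m1), fun e => this.2 (e ▸ m1), fun e => this.1 (e ▸ m2)⟩
      · let Bd : Set X := F0 ∪ (range (fun i => (f i).1) ∪ range (fun i => (f i).2))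
        have un : ∀ s t : Set X, #s < 𝔠 → #t < 𝔠 → #(s ∪ t : Set X) < 𝔠 := fun s t h1 h2 =>
          (Cardinal.mk_union_le _ _).trans_lt (Cardinal.add_lt_of_lt aleph0_le_continuum h1 h2)
        have hBd : #Bd < 𝔠 := un _ _ (hF0.lt_aleph0.trans aleph0_lt_continuum)
          (un _ _ (Cardinal.mk_range_le.trans_lt (small j)) (Cardinal.mk_range_le.trans_lt (small j)))
        have hB2 := un _ _ hBd ((Cardinal.mk_preimage_of_injective (a j) Bd (ha j)).trans_lt hBd)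
        have : ¬ ({x | x ∈ W ∧ a j x ≠ x} ⊆ Bd ∪ a j ⁻¹' Bd) := fun h =>
          hj ((Cardinal.mk_le_mk_of_subset h).trans_lt hB2)
        obtain ⟨x, hx, hx2⟩ := Set.not_subset.1 this
        refine ⟨(x, a j x), ⟨hx.1, rfl, hx.2, fun _ => ⟨fun h => hx2 (Or.inl (Or.inl h)),
          fun h => hx2 (Or.inr (Or.inl h))⟩⟩, fun i => ⟨fun e => hx2 (Or.inl (Or.inr (Or.inl ⟨i, e.symm⟩))),
          fun e => hx2 (Or.inl (Or.inr (Or.inr ⟨i, e.symm⟩))),
          fun e => hx2 (Or.inr (Or.inr (Or.inl ⟨i, e.symm⟩)))⟩⟩)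
  have inj : ∀ g h, (f g).1 = (f h).1 → g = h := by
    intro g h e
    rcases lt_trichotomy g h with l | l | l
    · exact (((hf h).2 g l).1 e.symm).elim
    · exact l
    · exact (((hf g).2 h l).1 e).elim
  have out : ∀ g h, (f g).2 ≠ (f h).1 := by
    intro g h e
    rcases lt_trichotomy g h with l | rfl | l
    · exact ((hf h).2 g l).2.1 e.symm
    · exact (hf g).1.2.2.1 e
    · exact ((hf g).2 h l).2.2 e
  choose o ho using fun k : K => exists_ne k
  refine ⟨fun x => if h : ∃ g, (f g).1 = x then o (c (f h.choose).2) else c x, fun x hx => ?_,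
    fun g => ⟨(f g).1, ?_⟩⟩
  · exact dif_neg fun ⟨g, hg⟩ => hx (hg ▸ (hf g).1.1)
  · have h1 : ∃ h, (f h).1 = (f g).1 := ⟨g, rfl⟩
    have h2 : ¬ ∃ h, (f h).1 = a g (f g).1 := fun ⟨h, hh⟩ => out g h ((hf g).1.2.1.trans hh.symm)
    simp only [dif_pos h1, dif_neg h2]
    rw [inj _ _ h1.choose_spec, (hf g).1.2.1]
    exact (ho _).symm

abbrev E3 := EuclideanSpace ℝ (Fin 3)

theorem card3 (T : Type) (h : #T = 𝔠) : #(Fin 3 → T) = 𝔠 := by
  rw [← Cardinal.power_def, h, Cardinal.mk_fin, Cardinal.power_natCast, pow_succ, pow_two,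
    continuum_mul_self, continuum_mul_self]

theorem card_O3 : #(E3 ≃ₗᵢ[ℝ] E3) ≤ 𝔠 := by
  have h : #(Fin 3 → Fin 3 → ℝ) = 𝔠 := card3 _ (card3 _ Cardinal.mk_real)
  rw [← h]
  refine Cardinal.mk_le_of_injective
    (f := fun g i j => g (EuclideanSpace.basisFun (Fin 3) ℝ i) j) fun g g' e => ?_
  have : g.toLinearEquiv.toLinearMap = g'.toLinearEquiv.toLinearMap :=
    (EuclideanSpace.basisFun (Fin 3) ℝ).toBasis.ext fun i => by
      ext j
      exact congrFun (congrFun e i) j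
  ext1 x
  exact LinearMap.congr_fun this x

theorem refl_unique (x y : E3) (hx : ‖x‖ = 1) (hy : ‖y‖ = 1) (h1 : y ≠ x) (h2 : y ≠ -x)
    (g h : E3 ≃ₗᵢ[ℝ] E3) (gx : g x = x) (gy : g y = y) (hx' : h x = x) (hy' : h y = y)
    (g1 : g ≠ LinearIsometryEquiv.refl ℝ E3) (h1' : h ≠ LinearIsometryEquiv.refl ℝ E3) : g = h := by
  have x0 : x ≠ 0 := fun e => by simp [e] at hx
  have li : LinearIndependent ℝ ![x, y] := by
    rw [LinearIndependent.pair_iff' x0]
    rintro a rfl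
    rw [norm_smul, hx, mul_one, Real.norm_eq_abs] at hy
    rcases eq_or_eq_neg_of_abs_eq hy with rfl | rfl
    · simp at h1
    · simp at h2
  let V : Submodule ℝ E3 := Submodule.span ℝ (range ![x, y])
  have hV : Module.finrank ℝ V = 2 := by simpa using finrank_span_eq_card li
  have hO : Module.finrank ℝ Vᗮ = 1 := by
    have := Submodule.finrank_add_finrank_orthogonal V
    rw [hV, finrank_euclideanSpace_fin] at this
    omega
  obtain ⟨n, n0, hn⟩ := finrank_eq_one_iff'.1 hO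
  have fixV : ∀ k : E3 ≃ₗᵢ[ℝ] E3, k x = x → k y = y → ∀ v ∈ V, k v = v := by
    intro k kx ky v hv
    have : V ≤ LinearMap.eqLocus k.toLinearEquiv.toLinearMap LinearMap.id := by
      rw [Submodule.span_le]
      rintro _ ⟨i, rfl⟩
      fin_cases i
      · exact kx
      · exact ky
    exact this hv
  have ext2 : ∀ k l : E3 ≃ₗᵢ[ℝ] E3, (∀ v ∈ V, k v = l v) → k n = l n → k = l := by
    intro k l e1 e2
    ext1 v
    obtain ⟨a, ha, b, hb, rfl⟩ := V.exists_add_mem_mem_orthogonal v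
    obtain ⟨t, ht⟩ := hn ⟨b, hb⟩
    have : b = t • (n : E3) := (congrArg Subtype.val ht).symm
    rw [map_add, map_add, e1 a ha, this, map_smul, map_smul, e2]
  have neg : ∀ k : E3 ≃ₗᵢ[ℝ] E3, k x = x → k y = y → k ≠ LinearIsometryEquiv.refl ℝ E3 →
      k n = -(n : E3) := by
    intro k kx ky k1
    have m : k n ∈ Vᗮ := by
      intro u hu
      rw [← fixV k kx ky u hu, k.inner_map_map]
      exact n.2 u hu
    obtain ⟨t, ht⟩ := hn ⟨_, m⟩
    have e : k n = t • (n : E3) := (congrArg Subtype.val ht).symm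
    have nn : ‖(n : E3)‖ ≠ 0 := norm_ne_zero_iff.2 fun e => n0 (Subtype.ext e)
    have : |t| = 1 := by
      have := k.norm_map n
      rw [e, norm_smul, Real.norm_eq_abs] at this
      exact mul_right_cancel₀ nn (this.trans (one_mul _).symm)
    rcases eq_or_eq_neg_of_abs_eq this with rfl | rfl
    · exact (k1 (ext2 _ _ (fixV k kx ky) (by simpa using e))).elim
    · simpa using e
  exact ext2 _ _ (fun v hv => (fixV g gx gy v hv).trans (fixV h hx' hy' v hv).symm)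
    ((neg g gx gy g1).trans (neg h hx' hy' h1').symm)

end Pool.Agent.H25.Sph
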