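import Mathlib

set_option autoImplicit false

namespace Pool.Agent.H25.TChar

open Set Filter Topology

/-- The abstract group of continuous characters `X → ℝ/ℤ`. -/
abbrev Dual (X : Type) [AddCommGroup X] [TopologicalSpace X] : Type :=
  ContinuousAddMonoidHom X UnitAddCircle

/-- Some Hausdorff group topology makes the sequence converge to zero. -/
def TSeq {G : Type} [AddCommGroup G] (v : ℕ → G) : Prop :=
  ∃ t : TopologicalSpace G, @IsTopologicalAddGroup G t _ ∧ @T2Space G t ∧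
    Tendsto v atTop (@nhds G t 0)

/-- `H` is the set of points at which some T-sequence of characters tends to zero. -/
def TCh {X : Type} [AddCommGroup X] [TopologicalSpace X] (H : AddSubgroup X) : Prop :=
  ∃ v : ℕ → Dual X, TSeq v ∧ ∀ x, x ∈ H ↔ Tendsto (fun n => v n x) atTop (𝓝 0)

variable {X : Type} [AddCommGroup X] [TopologicalSpace X]

theorem pos (H : AddSubgroup X) (v : ℕ → Dual X)
    (h1 : ∀ x, x ∈ H ↔ Tendsto (fun n => v n x) atTop (𝓝 0)) (e : X) (s : ℕ → X)
    (h2 : ∀ k, s k ∈ H) (h3 : ∀ x, ∃ m : ℕ, x - m • e ∈ H)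
    (h4 : ∀ n, ∀ᶠ k in atTop, v n (e + s k) = 0) : TCh H := by
  have : ∀ χ : Dual X, ∃ c, Tendsto (fun k => χ (e + s k)) (hyperfilter ℕ) (𝓝 c) := fun χ =>
    let ⟨c, _, h⟩ := isCompact_univ.ultrafilter_le_nhds ((hyperfilter ℕ).map fun k => χ (e + s k))
      (by simp); ⟨c, h⟩
  choose l hl using this
  let Φ : Dual X →+ (H → UnitAddCircle) × UnitAddCircle := AddMonoidHom.mk'
    (fun χ => (fun y => χ y, l χ)) fun a b => Prod.ext rfl
      (tendsto_nhds_unique (hl _) ((hl a).add (hl b)))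
  have hi : Function.Injective Φ := (injective_iff_map_eq_zero _).2 fun χ h => by
    have a : ∀ y ∈ H, χ y = 0 := fun y hy => congrFun (congrArg Prod.fst h) ⟨y, hy⟩
    have b : χ e = 0 := (tendsto_nhds_unique (tendsto_const_nhds.congr fun k => by
      simp [a _ (h2 k)]) (hl χ)).trans (congrArg Prod.snd h)
    refine ContinuousAddMonoidHom.ext fun x => ?_
    obtain ⟨m, hm⟩ := h3 x
    simpa [b] using a _ hm
  let _ := TopologicalSpace.induced Φ inferInstance
  refine ⟨v, ⟨_, topologicalAddGroup_induced Φ, (IsEmbedding.mk ⟨rfl⟩ hi).t2Space,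
    (IsInducing.mk rfl).tendsto_nhds_iff.2 ?_⟩, h1⟩
  rw [map_zero]
  exact (tendsto_pi_nhds.2 fun y : H => (h1 y.1).1 y.2).prodMk_nhds (tendsto_const_nhds.congr fun n =>
    tendsto_nhds_unique (tendsto_const_nhds.congr' (((h4 n).filter_mono Nat.hyperfilter_le_atTop).mono
      fun _ h => h.symm)) (hl _))

theorem neg (H : AddSubgroup X) (e : X) (m : ℕ) (hm : 0 < m) (h1 : m • e = 0)
    (h2 : ∀ y ∈ H, 2 • y = 0) (h3 : ∀ x, ∃ m : ℕ, x - m • e ∈ H) (h4 : 2 • e ∉ H) : ¬ TCh H := by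
  rintro ⟨v, ⟨t, t1, t2, t3⟩, h⟩
  have a : {χ : Dual X | ∀ y ∈ H, χ y = 0}.Finite := by
    refine Finite.of_finite_image (f := fun χ => χ e) ((AddCircle.finite_torsion 1 hm).subset ?_)
      fun a ha b hb e' => ContinuousAddMonoidHom.ext fun x => ?_
    · rintro _ ⟨χ, -, rfl⟩
      simp [← map_nsmul, h1]
    · obtain ⟨k, hk⟩ := h3 x
      have := (ha _ hk).trans (hb _ hk).symm
      simpa [show a e = b e from e'] using this
  refine h4 ((h _).2 (tendsto_const_nhds.congr' ?_))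
  filter_upwards [(t3.const_smul (2 : ℕ)).eventually ((a.sdiff (t := {0})).isClosed.isOpen_compl.mem_nhds
    (by simp))] with n hn
  have : 2 • v n = 0 := not_not.1 fun e => hn ⟨fun y hy => by simp [← map_nsmul, h2 y hy], e⟩
  simpa using (congrArg (fun χ : Dual X => χ e) this).symm

theorem lim {N : ℕ} [NeZero N] (c : ZMod N) (w : ℕ → ZMod N) (h : ∀ᶠ n in atTop, w n = c) :
    c = 0 ↔ Tendsto (fun n => ZMod.toAddCircle (w n)) atTop (𝓝 0) := by
  have : Tendsto (fun n => ZMod.toAddCircle (w n)) atTop (𝓝 (ZMod.toAddCircle c)) :=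
    tendsto_const_nhds.congr' (h.mono fun n e => by simp only [e])
  exact ⟨fun e => by simpa [e] using this, fun e => by simpa using tendsto_nhds_unique this e⟩

theorem ev (y : ℕ →₀ ZMod 2) : ∀ᶠ n in atTop, y n = 0 :=
  Nat.cofinite_eq_atTop ▸ y.hasFiniteSupport

end Pool.Agent.H25.TChar
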