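import Pool.Agent.H25.FreeSet

/-! The closure of a three-parameter family of tent functions. -/

set_option autoImplicit false

namespace Pool.Agent.H25.Tent

open Set Filter Topology

noncomputable def cl (a : ℝ) : ℝ := max 0 (min 1 a)

theorem cl_mem (a : ℝ) : cl a ∈ Icc (0 : ℝ) 1 :=
  ⟨le_max_left _ _, max_le zero_le_one (min_le_left _ _)⟩

theorem cl_of {a : ℝ} (h : a ∈ Icc (0 : ℝ) 1) : cl a = a := by
  rw [cl, min_eq_right h.2, max_eq_right h.1]

noncomputable def ψ (p : Fin 3 → ℝ) : ℝ → ℝ := fun x => cl (p 0) * max 0 (1 - |p 2| * |x - cl (p 1)|)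

theorem ψ_cont : Continuous ψ := continuous_pi fun x => by unfold ψ cl; fun_prop

theorem ψ_mem (p : Fin 3 → ℝ) (x : ℝ) : ψ p x ∈ Icc (0 : ℝ) 1 :=
  ⟨mul_nonneg (cl_mem _).1 (le_max_left _ _), mul_le_one₀ (cl_mem _).2 (le_max_left _ _)
    (max_le zero_le_one (sub_le_self _ (mul_nonneg (abs_nonneg _) (abs_nonneg _))))⟩

theorem K_compact : IsCompact (closure (range ψ)) :=
  (isCompact_univ_pi fun _ : ℝ => isCompact_Icc (a := (0 : ℝ)) (b := 1)).closure_of_subset (by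
    rintro _ ⟨p, rfl⟩ x _
    exact ψ_mem p x)

def Z : Set (ℝ → ℝ) := {g | ∀ x y, x ≠ y → g x = 0 ∨ g y = 0}

theorem Z_closed : IsClosed Z := by
  simp only [Z, ofPred_forall]
  exact isClosed_iInter fun x => isClosed_iInter fun y => isClosed_iInter fun _ =>
    (isClosed_eq (continuous_apply x) continuous_const).union
      (isClosed_eq (continuous_apply y) continuous_const)

theorem Z_supp {g : ℝ → ℝ} (hg : g ∈ Z) : {x | g x ≠ 0}.Countable :=
  Set.Subsingleton.countable fun x hx y hy => by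
    by_contra h
    exact (hg x y h).elim hx hy

theorem K_sub : closure (range ψ) ⊆ range ψ ∪ Z := by
  intro g hg
  by_contra hn
  rw [mem_union, not_or] at hn
  obtain ⟨h1, h2⟩ := hn
  simp only [Z, mem_ofPred_eq, not_forall, not_or] at h2
  obtain ⟨x, y, hxy, hx, hy⟩ := h2
  have ho : IsOpen {h : ℝ → ℝ | h x ≠ 0 ∧ h y ≠ 0} :=
    (isOpen_ne_fun (continuous_apply x) continuous_const).inter
      (isOpen_ne_fun (continuous_apply y) continuous_const)
  have hd : 0 < |x - y| := abs_pos.2 (sub_ne_zero.2 hxy)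
  let Q : Set (Fin 3 → ℝ) := univ.pi fun _ => Icc (0 : ℝ) (1 + 2 / |x - y|)
  have hQ : IsClosed (ψ '' Q) := ((isCompact_univ_pi fun _ => isCompact_Icc).image ψ_cont).isClosed
  have h3 : g ∈ ψ '' Q := by
    refine hQ.closure_subset_iff.2 ?_ (ho.inter_closure ⟨⟨hx, hy⟩, hg⟩)
    rintro _ ⟨⟨a, b⟩, p, rfl⟩
    have k : ∀ z, ψ p z ≠ 0 → |p 2| * |z - cl (p 1)| < 1 := fun z hz => by
      by_contra h
      exact hz (by rw [ψ, max_eq_left (by linarith), mul_zero])
    have h4 : |p 2| ≤ 2 / |x - y| := by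
      rw [le_div_iff₀ hd]
      have := abs_sub_le x (cl (p 1)) y
      rw [abs_sub_comm (cl (p 1)) y] at this
      nlinarith [k x a, k y b, abs_nonneg (p 2)]
    have h5 : 0 ≤ 2 / |x - y| := by positivity
    refine ⟨![cl (p 0), cl (p 1), |p 2|], fun i _ => ?_, ?_⟩
    · fin_cases i
      · exact ⟨(cl_mem _).1, (cl_mem (p 0)).2.trans (by linarith)⟩
      · exact ⟨(cl_mem _).1, (cl_mem (p 1)).2.trans (by linarith)⟩
      · exact ⟨abs_nonneg _, h4.trans (by linarith)⟩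
    · funext z
      simp [ψ, cl_of (cl_mem _)]
  exact h1 (image_subset_range _ _ h3)

theorem sigma_tight {ι : Type} {B : Set (ι → ℝ)} (hB : ∀ g ∈ B, {x | g x ≠ 0}.Countable)
    {g : ι → ℝ} (hg : {x | g x ≠ 0}.Countable) (h : g ∈ closure B) :
    ∃ C ⊆ B, C.Countable ∧ g ∈ closure C := by
  classical
  have h1 : ∀ (F : Finset ι) (n : ℕ), ∃ a ∈ B, ∀ x ∈ F, |a x - g x| < 1 / ((n : ℝ) + 1) := by
    intro F n
    have ho : IsOpen {a : ι → ℝ | ∀ x ∈ F, |a x - g x| < 1 / ((n : ℝ) + 1)} := by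
      simp only [ofPred_forall]
      exact isOpen_biInter_finset fun z _ =>
        isOpen_lt ((continuous_apply z).sub continuous_const).abs continuous_const
    obtain ⟨a, a1, a2⟩ := mem_closure_iff.1 h _ ho fun x _ => by
      simpa using Nat.one_div_pos_of_nat (α := ℝ) (n := n)
    exact ⟨a, a2, a1⟩
  choose a a1 a2 using h1
  obtain ⟨S, s1, s2⟩ := FreeSet.closing (fun F => {x | g x ≠ 0} ∪ ⋃ n, {x | a F n x ≠ 0})
    fun F => hg.union (countable_iUnion fun n => hB _ (a1 F n))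
  refine ⟨⋃ F ∈ {F : Finset ι | (F : Set ι) ⊆ S}, range (a F), ?_, ?_, ?_⟩
  · refine iUnion₂_subset fun F _ => ?_
    rintro _ ⟨n, rfl⟩
    exact a1 F n
  · refine Set.Countable.biUnion ?_ fun F _ => countable_range _
    refine ((countable_ofPred_finite_subset s1).preimage
      (f := fun S : Finset ι => (S : Set ι)) Finset.coe_injective).mono fun S hS => ?_
    exact ⟨S.finite_toSet, hS⟩
  · rw [mem_closure_iff]
    intro W hW hgW
    obtain ⟨J, w, c1, c2⟩ := isOpen_pi_iff.1 hW g hgW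
    have h1 : ∀ᶠ ε in 𝓝[>] (0 : ℝ), ∀ z ∈ J, Metric.ball (g z) ε ⊆ w z :=
      (eventually_all_finset J).2 fun z hz =>
        (eventually_ball_subset ((c1 z hz).1.mem_nhds (c1 z hz).2)).filter_mono nhdsWithin_le_nhds
    obtain ⟨ε, e1, e2⟩ := (h1.and self_mem_nhdsWithin).exists
    obtain ⟨n, hn⟩ := exists_nat_one_div_lt (show (0 : ℝ) < ε from e2)
    have hF : ((J.filter (· ∈ S) : Finset ι) : Set ι) ⊆ S := fun x hx => (Finset.mem_filter.1 hx).2
    refine ⟨a (J.filter (· ∈ S)) n, c2 fun x hx => ?_, mem_biUnion hF ⟨n, rfl⟩⟩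
    by_cases hS : x ∈ S
    · exact e1 x hx ((a2 _ n x (Finset.mem_filter.2 ⟨hx, hS⟩)).trans hn)
    · have k1 : g x = 0 := by
        by_contra h
        exact hS (s2 _ hF (Or.inl h))
      have k2 : a (J.filter (· ∈ S)) n x = 0 := by
        by_contra h
        exact hS (s2 _ hF (Or.inr (mem_iUnion.2 ⟨n, h⟩)))
      rw [k2, ← k1]
      exact (c1 x hx).2

theorem tight {A : Set (ℝ → ℝ)} (hA : A ⊆ closure (range ψ)) {g : ℝ → ℝ} (hg : g ∈ closure A) :
    ∃ C ⊆ A, C.Countable ∧ g ∈ closure C := by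
  have : A ⊆ ψ '' (ψ ⁻¹' A) ∪ (A ∩ Z) := fun a ha => (K_sub (hA ha)).imp
    (fun ⟨p, hp⟩ => ⟨p, by rw [mem_preimage, hp]; exact ha, hp⟩) fun h => ⟨ha, h⟩
  have h := closure_mono this hg
  rw [closure_union] at h
  rcases h with h | h
  · obtain ⟨D, d1, d2, d3⟩ := (TopologicalSpace.IsSeparable.of_separableSpace
      (ψ ⁻¹' A)).exists_countable_dense_subset
    refine ⟨ψ '' D, image_subset_iff.2 d1, d2.image _, ?_⟩
    exact closure_minimal ((image_mono d3).trans (image_closure_subset_closure_image ψ_cont))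
      isClosed_closure h
  · obtain ⟨C, c1, c2⟩ := sigma_tight (fun a ha => Z_supp ha.2)
      (Z_supp (closure_minimal inter_subset_right Z_closed h)) h
    exact ⟨C, c1.trans inter_subset_left, c2⟩

theorem not_fc {Y : Type} [TopologicalSpace Y] [FirstCountableTopology Y] {e : Y → ℝ → ℝ}
    (he : IsInducing e) (hr : range ψ ⊆ range e) : False := by
  obtain ⟨y, hy⟩ := hr ⟨0, rfl⟩
  have y0 : ∀ x, e y x = 0 := fun x => by rw [hy]; simp [ψ, cl]
  obtain ⟨V, hV⟩ := (𝓝 y).exists_antitone_basis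
  have h1 : ∀ n, ∃ F : Finset ℝ, ∀ z, (∀ x ∈ F, e z x = 0) → z ∈ V n := by
    intro n
    have := hV.mem n
    rw [he.nhds_eq_comap] at this
    obtain ⟨W, hW, hWV⟩ := this
    obtain ⟨J, w, c1, c2⟩ := isOpen_pi_iff.1 isOpen_interior _ (mem_interior_iff_mem_nhds.2 hW)
    refine ⟨J, fun z hz => hWV (interior_subset (s := W) (c2 fun x hx => ?_))⟩
    rw [hz x hx, ← y0 x]
    exact (c1 x hx).2
  choose F hF using h1
  have h2 : ¬ Icc (0 : ℝ) 1 ⊆ ⋃ n, (F n : Set ℝ) := fun h => by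
    have := (countable_iUnion fun n => (F n).countable_toSet).mono h
    rw [← Cardinal.le_aleph0_iff_set_countable, Cardinal.mk_Icc_real zero_lt_one] at this
    exact absurd this (not_le.2 Cardinal.aleph0_lt_continuum)
  obtain ⟨c, c1, c2⟩ := not_subset.1 h2
  obtain ⟨n, hn⟩ := hV.mem_iff.1 ((isOpen_lt ((continuous_apply c).comp he.continuous)
    (continuous_const (y := (1 : ℝ)))).mem_nhds (show e y c < 1 by rw [y0]; exact zero_lt_one))
  have h3 : ∀ᶠ m in (atTop : Filter ℝ), ∀ x ∈ F n, 1 ≤ m * |x - c| :=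
    (eventually_all_finset _).2 fun x hx => (tendsto_id.atTop_mul_const (abs_pos.2
      (sub_ne_zero.2 fun h : x = c => c2 (mem_iUnion.2 ⟨n, h ▸ hx⟩)))).eventually_ge_atTop 1
  obtain ⟨m, m1, m2⟩ := (h3.and (eventually_ge_atTop 0)).exists
  obtain ⟨z, hz⟩ := hr ⟨![1, c, m], rfl⟩
  have h4 : e z c < 1 := hn (hF n z fun x hx => by
    rw [hz]
    simp [ψ, cl_of c1, abs_of_nonneg m2, m1 x hx])
  rw [hz] at h4
  simp [ψ, cl_of c1, cl_of (show (1 : ℝ) ∈ Icc (0 : ℝ) 1 by simp)] at h4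

end Pool.Agent.H25.Tent
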