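import Mathlib

set_option autoImplicit false

namespace Pool.Agent.H25.TotalDefs

/-- `cv` (on vertices) and `ce` (on edges) form a total colouring of the graph `F`:
adjacent vertices, edges sharing an endpoint, and an edge and its endpoints get different colours. -/
def IsTotal {V C : Type} (F : SimpleGraph V) (cv : V → C) (ce : Sym2 V → C) : Prop :=
  (∀ u v, F.Adj u v → cv u ≠ cv v) ∧
  (∀ u v w, F.Adj u v → F.Adj u w → v ≠ w → ce s(u, v) ≠ ce s(u, w)) ∧
  (∀ u v, F.Adj u v → ce s(u, v) ≠ cv u)

/-- `H` is a distance-3 matching of `G`: each vertex of `H` has exactly one `H`-neighbour, and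
vertices in different components of `H` (distinct, not `H`-adjacent) are at distance at least 3. -/
def Dist3Matching {V : Type} (G : SimpleGraph V) (H : G.Subgraph) : Prop :=
  H.IsMatching ∧ ∀ u ∈ H.verts, ∀ v ∈ H.verts, u ≠ v → ¬ H.Adj u v → 3 ≤ G.edist u v

end Pool.Agent.H25.TotalDefs
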