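import Pool.Agent.H25.Kernel
import Pool.Agent.H25.TotalDefs

set_option autoImplicit false

namespace Pool.Agent.H25.TotalBip

open Finset Pool.Agent.H25.Kernel Pool.Agent.H25.TotalDefs

theorem greedy {V C : Type} [Fintype V] [DecidableEq V] [Fintype C] (G : SimpleGraph V)
    [DecidableRel G.Adj] (hC : G.maxDegree < Fintype.card C) (P : V → Prop) (c0 : V → C)
    (h0 : ∀ u v, G.Adj u v → P u → P v → c0 u ≠ c0 v) :
    ∃ c : V → C, (∀ v, P v → c v = c0 v) ∧ ∀ u v, G.Adj u v → c u ≠ c v := by
  classical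
  have key : ∀ T : Finset V, ∃ c : V → C, (∀ v, P v → c v = c0 v) ∧
      ∀ u v, G.Adj u v → (P u ∨ u ∈ T) → (P v ∨ v ∈ T) → c u ≠ c v := by
    intro T
    induction T using Finset.induction_on with
    | empty => exact ⟨c0, fun _ _ => rfl, by simpa using h0⟩
    | insert x T hx ih =>
      obtain ⟨c, hc1, hc2⟩ := ih
      by_cases hP : P x
      · refine ⟨c, hc1, fun u v h hu hv => hc2 u v h ?_ ?_⟩
        · rcases hu with hu | hu
          · exact Or.inl hu
          · rcases mem_insert.1 hu with rfl | hu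
            · exact Or.inl hP
            · exact Or.inr hu
        · rcases hv with hv | hv
          · exact Or.inl hv
          · rcases mem_insert.1 hv with rfl | hv
            · exact Or.inl hP
            · exact Or.inr hv
      · obtain ⟨k, hk⟩ : ∃ k, k ∉ (G.neighborFinset x).image c := by
          by_contra hh
          push Not at hh
          have h1 : (univ : Finset C) ⊆ (G.neighborFinset x).image c := fun k _ => hh k
          have h2 := (card_le_card h1).trans card_image_le
          rw [card_univ, SimpleGraph.card_neighborFinset_eq_degree] at h2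
          have := G.degree_le_maxDegree x
          omega
        refine ⟨Function.update c x k, fun v hv => ?_, fun u v h hu hv => ?_⟩
        · have hvx : v ≠ x := fun h' => hP (h' ▸ hv)
          rw [Function.update_of_ne hvx]; exact hc1 v hv
        · by_cases hux : u = x
          · subst hux
            rw [Function.update_self, Function.update_of_ne h.ne']
            exact fun h' => hk (mem_image.2 ⟨v, by simpa using h, h'.symm⟩)
          · by_cases hvx : v = x
            · subst hvx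
              rw [Function.update_self, Function.update_of_ne hux]
              exact fun h' => hk (mem_image.2 ⟨u, by simpa using h.symm, h'⟩)
            · rw [Function.update_of_ne hux, Function.update_of_ne hvx]
              refine hc2 u v h (hu.imp_right fun h' => ?_) (hv.imp_right fun h' => ?_)
              · exact (mem_insert.1 h').resolve_left hux
              · exact (mem_insert.1 h').resolve_left hvx
  obtain ⟨c, h1, h2⟩ := key univ
  exact ⟨c, h1, fun u v h => h2 u v h (Or.inr (mem_univ _)) (Or.inr (mem_univ _))⟩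

theorem card_sdiff_ge {C : Type} [Fintype C] [DecidableEq C] (s : Finset C) :
    Fintype.card C ≤ (univ \ s).card + s.card := by
  rw [card_sdiff_add_card_eq_card (subset_univ _), card_univ]

theorem main {V C : Type} [Fintype V] [DecidableEq V] [Fintype C] (G : SimpleGraph V)
    [DecidableRel G.Adj] (hC : G.maxDegree + 2 ≤ Fintype.card C)
    (H : G.Subgraph) (hG : (G.deleteEdges H.edgeSet).IsBipartite) (hH : Dist3Matching G H) (pv : V → C) (pe : Sym2 V → C)
    (hp : IsTotal H.spanningCoe pv pe) :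
    ∃ (cv : V → C) (ce : Sym2 V → C), IsTotal G cv ce ∧ (∀ v ∈ H.verts, cv v = pv v) ∧
      ∀ e ∈ H.edgeSet, ce e = pe e := by
  classical
  have : Nonempty C := Fintype.card_pos_iff.1 (by omega)
  obtain ⟨side⟩ := hG
  have hside : ∀ u v, G.Adj u v → ¬ H.Adj u v → (side u = 0 ↔ side v ≠ 0) := by
    intro u v h hn
    have := side.valid (SimpleGraph.deleteEdges_adj.2 ⟨h, hn⟩)
    revert this
    generalize side u = i
    generalize side v = j
    revert i j
    decide
  obtain ⟨hmat, hd⟩ := hH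
  -- mate
  have hmate : ∀ v, ∃ w, v ∈ H.verts → H.Adj v w ∧ ∀ w', H.Adj v w' → w' = w := by
    intro v
    by_cases hv : v ∈ H.verts
    · obtain ⟨w, hw, hw'⟩ := hmat hv
      exact ⟨w, fun _ => ⟨hw, hw'⟩⟩
    · exact ⟨v, fun h => absurd h hv⟩
  choose mate hmate using hmate
  have hHH : ∀ u v, G.Adj u v → u ∈ H.verts → v ∈ H.verts → H.Adj u v := by
    intro u v h hu hv
    by_contra hn
    have h3 := hd u hu v hv h.ne hn
    have h1 := (SimpleGraph.edist_eq_one_iff_adj.2 h)
    rw [h1] at h3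
    exact absurd h3 (by decide)
  have huniq : ∀ x u v, G.Adj x u → G.Adj x v → u ∈ H.verts → v ∈ H.verts →
      s(u, mate u) = s(v, mate v) := by
    intro x u v h1 h2 hu hv
    by_contra hne'
    have hne : u ≠ v := fun h => hne' (h ▸ rfl)
    have hn : ¬ H.Adj u v := by
      intro h
      apply hne'
      rw [← (hmate u hu).2 v h, ← (hmate v hv).2 u h.symm, Sym2.eq_swap]
    have h3 := hd u hu v hv hne hn
    have h4 := SimpleGraph.edist_le (SimpleGraph.Walk.cons h1.symm (SimpleGraph.Walk.cons h2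
      SimpleGraph.Walk.nil))
    have h5 := h3.trans h4
    simp only [SimpleGraph.Walk.length_cons, SimpleGraph.Walk.length_nil] at h5
    exact absurd h5 (by decide)
  set S : Finset (V × V) := univ.filter (fun p => G.Adj p.1 p.2 ∧ side p.1 = 0 ∧ ¬ H.Adj p.1 p.2)
    with hS
  have memS : ∀ p : V × V, p ∈ S ↔ G.Adj p.1 p.2 ∧ side p.1 = 0 ∧ ¬ H.Adj p.1 p.2 := by
    intro p; simp [hS]
  obtain ⟨CA, CB, M, hM, hMm, hcov, hnb, hA, hB⟩ := konig Prod.fst Prod.snd
    (S.filter (fun p => p.1 ∉ H.verts ∧ p.2 ∉ H.verts))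
  have hMS : M ⊆ S := hM.trans (filter_subset _ _)
  have hMH : ∀ m ∈ M, m.1 ∉ H.verts ∧ m.2 ∉ H.verts := fun m hm => (mem_filter.1 (hM hm)).2
  have hAs : ∀ x ∈ CA, side x = 0 := by
    intro x hx
    obtain ⟨m, hm, rfl⟩ := hA x hx
    exact ((memS m).1 (hMS hm)).2.1
  have hBs : ∀ x ∈ CB, side x ≠ 0 := by
    intro x hx
    obtain ⟨m, hm, rfl⟩ := hB x hx
    have := (memS m).1 (hMS hm)
    exact (hside _ _ this.1 this.2.2).1 this.2.1
  -- vertex colouring
  let P : V → Prop := fun x => x ∈ H.verts ∨ (x ∉ CA ∧ x ∉ CB ∧ ∃ u ∈ H.verts, G.Adj x u)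
  have hnb' : ∀ x, ∃ u, (∃ u ∈ H.verts, G.Adj x u) → u ∈ H.verts ∧ G.Adj x u := by
    intro x
    by_cases h : ∃ u ∈ H.verts, G.Adj x u
    · obtain ⟨u, hu⟩ := h; exact ⟨u, fun _ => hu⟩
    · exact ⟨x, fun h' => absurd h' h⟩
  choose nb hnb' using hnb'
  let c0 : V → C := fun x => if x ∈ H.verts then pv x else pe s(nb x, mate (nb x))
  have hc0 : ∀ x u, x ∉ H.verts → u ∈ H.verts → G.Adj x u → c0 x = pe s(u, mate u) := by
    intro x u hx hu h
    have h1 := hnb' x ⟨u, hu, h⟩
    have := huniq x _ _ h1.2 h h1.1 hu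
    simp only [c0, hx, if_false, this]
  have hind : ∀ u v, G.Adj u v → side u = 0 → u ∉ H.verts → v ∉ H.verts → u ∈ CA ∨ v ∈ CB := by
    intro u v h hs hu hv
    exact hcov (u, v) (mem_filter.2 ⟨(memS _).2 ⟨h, hs, fun h' => hu (H.edge_vert h')⟩, hu, hv⟩)
  obtain ⟨cv, hcv1, hcv2⟩ := greedy G (by omega : G.maxDegree < Fintype.card C) P c0 (by
    have aux : ∀ u v, G.Adj u v → u ∈ H.verts → v ∉ H.verts → c0 u ≠ c0 v := by
      intro u v h hu hv
      rw [hc0 v u hv hu h.symm]
      simp only [c0, hu, if_true]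
      exact (hp.2.2 u (mate u) (hmate u hu).1).symm
    intro u v h hu hv
    by_cases hu' : u ∈ H.verts <;> by_cases hv' : v ∈ H.verts
    · simp only [c0, hu', hv', if_true]
      exact hp.1 u v (hHH u v h hu' hv')
    · exact aux u v h hu' hv'
    · exact (aux v u h.symm hv' hu').symm
    · exfalso
      have h1 := hu.resolve_left hu'
      have h2 := hv.resolve_left hv'
      by_cases hs : side u = 0
      · rcases hind u v h hs hu' hv' with h' | h'
        · exact h1.1 h'
        · exact h2.2.1 h'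
      · have hs' : side v = 0 := (hside v u h.symm (fun k => hv' (H.edge_vert k))).2 hs
        rcases hind v u h.symm hs' hv' hu' with h' | h'
        · exact h2.1 h'
        · exact h1.2.1 h')
  have hcvH : ∀ v ∈ H.verts, cv v = pv v := by
    intro v hv
    rw [hcv1 v (Or.inl hv)]
    simp only [c0, hv, if_true]
  let β : V → C := fun v => if v ∈ H.verts then pe s(v, mate v) else cv v
  let L : V × V → Finset C := fun p => univ \ {cv p.1, cv p.2, β p.1, β p.2}
  have hdA : ∀ x, dg Prod.fst S x ≤ G.maxDegree ∧ (x ∈ H.verts → dg Prod.fst S x < G.maxDegree) := by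
    intro x
    have h1 : ∀ T : Finset V, (∀ y, G.Adj x y → ¬ H.Adj x y → y ∈ T) → dg Prod.fst S x ≤ T.card := by
      intro T hT
      apply card_le_card_of_injOn Prod.snd
      · intro p hp
        obtain ⟨h1, h2⟩ := mem_filter.1 hp
        have := (memS p).1 h1
        exact hT _ (h2 ▸ this.1) (h2 ▸ this.2.2)
      · intro p hp q hq h
        exact Prod.ext ((mem_filter.1 hp).2.trans (mem_filter.1 hq).2.symm) h
    have h2 := G.degree_le_maxDegree x
    rw [← SimpleGraph.card_neighborFinset_eq_degree] at h2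
    refine ⟨(h1 _ (fun y h _ => by simpa using h)).trans h2, fun hx => ?_⟩
    have h3 := h1 ((G.neighborFinset x).erase (mate x)) (fun y h hn =>
      mem_erase.2 ⟨fun h' => hn (h' ▸ (hmate x hx).1), by simpa using h⟩)
    have h4 : mate x ∈ G.neighborFinset x := by simpa using H.adj_sub (hmate x hx).1
    have h5 := card_erase_lt_of_mem h4
    omega
  have hdB : ∀ x, dg Prod.snd S x ≤ G.maxDegree ∧ (x ∈ H.verts → dg Prod.snd S x < G.maxDegree) := by
    intro x
    have h1 : ∀ T : Finset V, (∀ y, G.Adj x y → ¬ H.Adj x y → y ∈ T) → dg Prod.snd S x ≤ T.card := by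
      intro T hT
      apply card_le_card_of_injOn Prod.fst
      · intro p hp
        obtain ⟨h1, h2⟩ := mem_filter.1 hp
        have := (memS p).1 h1
        exact hT _ (h2 ▸ this.1.symm) (h2 ▸ fun h' => this.2.2 h'.symm)
      · intro p hp q hq h
        exact Prod.ext h ((mem_filter.1 hp).2.trans (mem_filter.1 hq).2.symm)
    have h2 := G.degree_le_maxDegree x
    rw [← SimpleGraph.card_neighborFinset_eq_degree] at h2
    refine ⟨(h1 _ (fun y h _ => by simpa using h)).trans h2, fun hx => ?_⟩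
    have h3 := h1 ((G.neighborFinset x).erase (mate x)) (fun y h hn =>
      mem_erase.2 ⟨fun h' => hn (h' ▸ (hmate x hx).1), by simpa using h⟩)
    have h4 : mate x ∈ G.neighborFinset x := by simpa using H.adj_sub (hmate x hx).1
    have h5 := card_erase_lt_of_mem h4
    omega
  have L2 : ∀ (p : V × V) (i j : C), ({cv p.1, cv p.2, β p.1, β p.2} : Finset C) ⊆ {i, j} →
      G.maxDegree ≤ (L p).card := by
    intro p i j h
    have h1 := card_sdiff_ge ({cv p.1, cv p.2, β p.1, β p.2} : Finset C)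
    have h2 := (card_le_card h).trans card_le_two
    simp only [L]
    omega
  have L3 : ∀ (p : V × V) (i j k : C), ({cv p.1, cv p.2, β p.1, β p.2} : Finset C) ⊆ {i, j, k} →
      G.maxDegree ≤ (L p).card + 1 := by
    intro p i j k h
    have h1 := card_sdiff_ge ({cv p.1, cv p.2, β p.1, β p.2} : Finset C)
    have h2 := (card_le_card h).trans card_le_three
    simp only [L]
    omega
  have Lnn : ∀ p : V × V, p.1 ∉ H.verts → p.2 ∉ H.verts → G.maxDegree ≤ (L p).card := by
    intro p h1 h2
    apply L2 p (cv p.1) (cv p.2)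
    simp [β, h1, h2]
  -- all the cases at once
  have cases : ∀ e ∈ S, G.maxDegree ≤ (L e).card ∨ (G.maxDegree ≤ (L e).card + 1 ∧
      ((e.1 ∈ H.verts ∧ e.2 ∈ CB) ∨ (e.2 ∈ H.verts ∧ e.1 ∈ CA))) := by
    intro e he
    obtain ⟨h1, h2, h3⟩ := (memS e).1 he
    by_cases hx : e.1 ∈ H.verts <;> by_cases hy : e.2 ∈ H.verts
    · exact absurd (hHH _ _ h1 hx hy) h3
    · by_cases hb : e.2 ∈ CB
      · refine Or.inr ⟨L3 e (cv e.1) (cv e.2) (β e.1) ?_, Or.inl ⟨hx, hb⟩⟩
        simp [β, hy, insert_subset_iff]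
      · left
        have hy' : cv e.2 = pe s(e.1, mate e.1) := by
          rw [hcv1 e.2 (Or.inr ⟨fun h => (hside _ _ h1 h3).1 h2 (hAs _ h), hb, _, hx, h1.symm⟩)]
          exact hc0 _ _ hy hx h1.symm
        apply L2 e (cv e.1) (cv e.2)
        simp [β, hx, hy, hy']
    · by_cases hb : e.1 ∈ CA
      · refine Or.inr ⟨L3 e (cv e.1) (cv e.2) (β e.2) ?_, Or.inr ⟨hy, hb⟩⟩
        simp [β, hx, insert_subset_iff]
      · left
        have hx' : cv e.1 = pe s(e.2, mate e.2) := by
          rw [hcv1 e.1 (Or.inr ⟨hb, fun h => hBs _ h h2, _, hy, h1⟩)]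
          exact hc0 _ _ hx hy h1
        apply L2 e (cv e.1) (cv e.2)
        simp [β, hx, hy, hx', insert_subset_iff]
    · exact Or.inl (Lnn e hx hy)
  have hMc : ∀ m ∈ M, m.1 ∈ CA ∨ m.2 ∈ CB := fun m hm => hcov m (hM hm)
  obtain ⟨ra, rb, hloc, hout⟩ : Good Prod.fst Prod.snd S (fun e => (L e).card) := by
    refine step Prod.fst Prod.snd S M hMS hMm (fun m => m.1 ∉ CA) _ _
      (bkw Prod.fst Prod.snd (S \ M)) ?_ ?_ ?_ ?_
    · intro e he _
      have a1 := dg_sdiff_le Prod.fst S M e.1
      have a2 := dg_sdiff_le Prod.snd S M e.2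
      have a3 := hdA e.1
      have a4 := hdB e.2
      rcases cases e he with h | ⟨h, ⟨h1, h2⟩ | ⟨h1, h2⟩⟩
      · exact max_le (by omega) (by omega)
      · obtain ⟨m, hm, h'⟩ := hB _ h2
        have a5 := dg_sdiff_lt Prod.snd S M hMS _ m hm h'
        have a6 := a3.2 h1
        exact max_le (by omega) (by omega)
      · obtain ⟨m, hm, h'⟩ := hA _ h2
        have a5 := dg_sdiff_lt Prod.fst S M hMS _ m hm h'
        have a6 := a4.2 h1
        exact max_le (by omega) (by omega)
    · intro e he _ m hm hh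
      have a1 := dg_sdiff_le Prod.fst S M e.1
      have a2 := dg_sdiff_le Prod.snd S M e.2
      have a3 := hdA e.1
      have a4 := hdB e.2
      obtain ⟨h1, h2, h3⟩ := (memS e).1 he
      rcases hh with ⟨k1, k2⟩ | ⟨k1, k2⟩
      · have a5 := dg_sdiff_lt Prod.fst S M hMS _ m hm k2
        have hx : e.1 ∉ H.verts := k2 ▸ (hMH m hm).1
        have hxA : e.1 ∉ CA := k2 ▸ k1
        have hL : G.maxDegree ≤ (L e).card := by
          rcases cases e he with h | ⟨-, ⟨h', -⟩ | ⟨-, h'⟩⟩
          · exact h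
          · exact absurd h' hx
          · exact absurd h' hxA
        by_cases hy : e.2 ∈ H.verts
        · have a6 := a4.2 hy
          exact max_lt (by omega) (by omega)
        · obtain ⟨m', hm', h'⟩ := hB _ ((hind _ _ h1 h2 hx hy).resolve_left hxA)
          have a6 := dg_sdiff_lt Prod.snd S M hMS _ m' hm' h'
          exact max_lt (by omega) (by omega)
      · have a5 := dg_sdiff_lt Prod.snd S M hMS _ m hm k2
        have hy : e.2 ∉ H.verts := k2 ▸ (hMH m hm).2
        have hyB : e.2 ∉ CB := fun h => hnb m hm ⟨not_not.1 k1, k2 ▸ h⟩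
        have hL : G.maxDegree ≤ (L e).card := by
          rcases cases e he with h | ⟨-, ⟨-, h'⟩ | ⟨h', -⟩⟩
          · exact h
          · exact absurd h' hyB
          · exact absurd h' hy
        by_cases hx : e.1 ∈ H.verts
        · have a6 := a3.2 hx
          exact max_lt (by omega) (by omega)
        · obtain ⟨m', hm', h'⟩ := hA _ ((hind _ _ h1 h2 hx hy).resolve_right hyB)
          have a6 := dg_sdiff_lt Prod.fst S M hMS _ m' hm' h'
          exact max_lt (by omega) (by omega)
    · intro e he _ m hm m' hm' k1 k2 k3 k4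
      obtain ⟨h1, h2, h3⟩ := (memS e).1 he
      rcases hind _ _ h1 h2 (k2 ▸ (hMH m hm).1) (k4 ▸ (hMH m' hm').2) with h | h
      · exact k1 (k2 ▸ h)
      · exact hnb m' hm' ⟨not_not.1 k3, k4 ▸ h⟩
    · intro m hm
      have := Lnn m (hMH m hm).1 (hMH m hm).2
      exact ⟨fun _ => (hdB _).1.trans this, fun _ => (hdA _).1.trans this⟩
  obtain ⟨col, hcol1, hcol2⟩ := colour Prod.fst Prod.snd ra rb S hloc L hout
  let ce : Sym2 V → C := fun e => if h : ∃ p ∈ S, s(p.1, p.2) = e then col h.choose else pe e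
  have hce1 : ∀ p ∈ S, ce s(p.1, p.2) = col p := by
    intro p hp
    have h : ∃ q ∈ S, s(q.1, q.2) = s(p.1, p.2) := ⟨p, hp, rfl⟩
    simp only [ce, dif_pos h]
    obtain ⟨h1, h2⟩ := h.choose_spec
    congr 1
    rcases Sym2.eq_iff.1 h2 with h3 | h3
    · exact Prod.ext h3.1 h3.2
    · exfalso
      have e1 := (memS _).1 h1
      have e2 := (memS _).1 hp
      exact (hside _ _ e2.1 e2.2.2).1 e2.2.1 (h3.1 ▸ e1.2.1)
  have hce2 : ∀ u v, H.Adj u v → ce s(u, v) = pe s(u, v) := by
    intro u v h
    have hn : ¬ ∃ q ∈ S, s(q.1, q.2) = s(u, v) := by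
      rintro ⟨q, hq, h2⟩
      have e1 := (memS _).1 hq
      rcases Sym2.eq_iff.1 h2 with h3 | h3
      · exact e1.2.2 (h3.1 ▸ h3.2 ▸ h)
      · exact e1.2.2 (h3.1 ▸ h3.2 ▸ h.symm)
    simp only [ce, dif_neg hn]
  -- non-H edges avoid cv and beta at either end
  have hav : ∀ u v, G.Adj u v → ¬ H.Adj u v → ce s(u, v) ≠ cv u ∧ ce s(u, v) ≠ β u := by
    intro u v h hn
    by_cases hs : side u = 0
    · have hp : (u, v) ∈ S := (memS _).2 ⟨h, hs, hn⟩
      have h1 := (mem_sdiff.1 (hcol1 _ hp)).2
      rw [hce1 (u, v) hp]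
      simp only [mem_insert, mem_singleton, not_or] at h1
      exact ⟨h1.1, h1.2.2.1⟩
    · have hp : (v, u) ∈ S := (memS _).2
        ⟨h.symm, (hside _ _ h.symm fun h' => hn h'.symm).2 hs, fun h' => hn h'.symm⟩
      have h1 := (mem_sdiff.1 (hcol1 _ hp)).2
      rw [Sym2.eq_swap, hce1 (v, u) hp]
      simp only [mem_insert, mem_singleton, not_or] at h1
      exact ⟨h1.2.1, h1.2.2.2⟩
  have hβ : ∀ u v, H.Adj u v → ce s(u, v) = β u := by
    intro u v h
    have hu := H.edge_vert h
    rw [hce2 u v h, (hmate u hu).2 v h]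
    simp only [β, hu, if_true]
  refine ⟨cv, ce, ⟨hcv2, ?_, ?_⟩, hcvH, ?_⟩
  · intro u v w h1 h2 hne
    by_cases k1 : H.Adj u v <;> by_cases k2 : H.Adj u w
    · have hu := H.edge_vert k1
      exact absurd (((hmate u hu).2 v k1).trans ((hmate u hu).2 w k2).symm) hne
    · rw [hβ u v k1]; exact (hav u w h2 k2).2.symm
    · rw [hβ u w k2]; exact (hav u v h1 k1).2
    · by_cases hs : side u = 0
      · have p1 : (u, v) ∈ S := (memS _).2 ⟨h1, hs, k1⟩
        have p2 : (u, w) ∈ S := (memS _).2 ⟨h2, hs, k2⟩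
        rw [hce1 (u, v) p1, hce1 (u, w) p2]
        exact hcol2 _ p1 _ p2 (fun h => hne (congrArg Prod.snd h)) (Or.inl rfl)
      · have p1 : (v, u) ∈ S :=
          (memS _).2 ⟨h1.symm, (hside _ _ h1.symm fun h' => k1 h'.symm).2 hs, fun h' => k1 h'.symm⟩
        have p2 : (w, u) ∈ S :=
          (memS _).2 ⟨h2.symm, (hside _ _ h2.symm fun h' => k2 h'.symm).2 hs, fun h' => k2 h'.symm⟩
        rw [Sym2.eq_swap (a := u) (b := v), Sym2.eq_swap (a := u) (b := w),
          hce1 (v, u) p1, hce1 (w, u) p2]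
        exact hcol2 _ p1 _ p2 (fun h => hne (congrArg Prod.fst h)) (Or.inr rfl)
  · intro u v h
    by_cases k : H.Adj u v
    · rw [hce2 u v k, hcvH u (H.edge_vert k)]
      exact hp.2.2 u v k
    · exact (hav u v h k).1
  · intro e he
    induction e using Sym2.ind with
    | _ u v => exact hce2 u v he

end Pool.Agent.H25.TotalBip
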