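import Mathlib

/-! A self-similar compact space every partition of which (between two fixed points) contains a
copy of the space. -/

set_option autoImplicit false
open Set Filter Topology Function

namespace Pool.Agent.H25.TrInd

inductive E : Type
  | base : E
  | n1 (n : ℕ) (k : E) : E
  | n2 (s : ℝ) (n : ℕ) (k k' : E) : E

abbrev Lab := Bool × (ℚ → Bool) × (ℕ → Ultrafilter E)
abbrev Z := (ℕ → Bool) × (ℝ → Lab)
abbrev V := unitInterval × Z
abbrev D := ℕ ⊕ ℝ
abbrev M := List D → V

def mk (v : V) (c : D → M) : M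
  | [] => v
  | d :: l => c d l

def ch (d : D) (m : M) : M := fun l => m (d :: l)

@[simp] theorem mk_nil (v : V) (c : D → M) : mk v c [] = v := rfl
@[simp] theorem ch_mk (v : V) (c : D → M) (d : D) : ch d (mk v c) = c d := rfl

theorem ext' {m m' : M} (h : m [] = m' []) (h' : ∀ d, ch d m = ch d m') : m = m' := by
  funext l
  cases l with
  | nil => exact h
  | cons d l => exact congrFun (h' d) l

theorem ch_cont (d : D) : Continuous (ch d) := continuous_pi fun _ => continuous_apply _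

theorem mk_tendsto {ι : Type*} {F : Filter ι} {v : ι → V} {c : ι → D → M} {v0 : V} {c0 : D → M}
    (hv : Tendsto v F (𝓝 v0)) (hc : ∀ d, Tendsto (fun i => c i d) F (𝓝 (c0 d))) :
    Tendsto (fun i => mk (v i) (c i)) F (𝓝 (mk v0 c0)) := by
  rw [tendsto_pi_nhds]
  intro l
  cases l with
  | nil => exact hv
  | cons d l => exact (tendsto_pi_nhds.1 (hc d)) l

theorem upd_cont (v : V) (c : D → M) (d : D) : Continuous fun x => mk v (update c d x) := by
  rw [continuous_iff_continuousAt]
  intro x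
  refine mk_tendsto tendsto_const_nhds fun d' => ?_
  by_cases h : d' = d
  · subst h
    simp only [update_self]
    exact tendsto_id
  · simp [update_of_ne h]

noncomputable def u0 : Ultrafilter E := pure E.base
noncomputable def lab0 : Lab := (false, fun _ => false, fun _ => u0)
noncomputable def o : M := fun _ => (0, fun _ => false, fun _ => lab0)
noncomputable def q (n : ℕ) : unitInterval := TopologicalSpace.denseSeq unitInterval n.unpair.1
noncomputable def cut (s : ℝ) (a : unitInterval) : ℚ → Bool := fun r => decide ((a : ℝ) < s + r)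

noncomputable def pt (a : unitInterval) : M := mk (a, fun _ => false, fun _ => lab0) fun _ => o
noncomputable def f1 (n : ℕ) (y : M) : M :=
  mk (q n, update (fun _ => false) n true, fun _ => lab0) (update (fun _ => o) (.inl n) y)
noncomputable def f2 (s : ℝ) (n : ℕ) (u : Ultrafilter E) (y x : M) : M :=
  mk (q n, update (fun _ => false) n true,
      update (fun _ => lab0) s (true, cut s (q n), update (fun _ => u0) n u))
    (update (update (fun _ => o) (.inl n) y) (.inr s) x)
noncomputable def f3 (s : ℝ) (a : unitInterval) (x : M) : M :=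
  mk (a, fun _ => false, update (fun _ => lab0) s (true, cut s a, fun _ => u0))
    (update (fun _ => o) (.inr s) x)

noncomputable def e : E → M
  | .base => o
  | .n1 n k => f1 n (e k)
  | .n2 s n k k' => f2 s n (pure k) (e k) (e k')

def X : Set M := closure (range e)

theorem X_closed : IsClosed X := isClosed_closure
theorem e_mem (k : E) : e k ∈ X := subset_closure ⟨k, rfl⟩
theorem o_mem : o ∈ X := e_mem .base

theorem maps {g : M → M} (hg : Continuous g) (h : ∀ k, ∃ k', e k' = g (e k)) : MapsTo g X X := by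
  refine MapsTo.closure ?_ hg
  rintro _ ⟨k, rfl⟩
  exact h k

theorem f1_mem (n : ℕ) : MapsTo (f1 n) X X := maps (upd_cont _ _ _) fun k => ⟨.n1 n k, rfl⟩
theorem f2_mem (s : ℝ) (n : ℕ) (k : E) : MapsTo (f2 s n (pure k) (e k)) X X :=
  maps (upd_cont _ _ _) fun k' => ⟨.n2 s n k k', rfl⟩

theorem q_freq (a : unitInterval) : MapClusterPt a atTop q := by
  rw [mapClusterPt_iff_frequently]
  intro s hs
  obtain ⟨i, hi⟩ := (TopologicalSpace.denseRange_denseSeq unitInterval).mem_nhds hs
  rw [frequently_atTop]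
  intro N
  exact ⟨Nat.pair i N, Nat.right_le_pair _ _, by simpa [q] using hi⟩

theorem ev_upd {ι α β : Type*} [DecidableEq α] [TopologicalSpace β] {F : Filter ι} {j : ι → α}
    {a : α} (h : ∀ᶠ i in F, j i ≠ a) (c : α → β) (y : ι → β) :
    Tendsto (fun i => update c (j i) (y i) a) F (𝓝 (c a)) :=
  tendsto_const_nhds.congr' (h.mono fun _ hi => (update_of_ne hi.symm _ _).symm)

theorem ev_ne {F : Filter ℕ} (hF : F ≤ atTop) (m : ℕ) : ∀ᶠ n in F, n ≠ m :=
  hF (eventually_ne_atTop m)

theorem t1 {F : Filter ℕ} (hF : F ≤ atTop) {b : unitInterval} (hb : Tendsto q F (𝓝 b))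
    (y : ℕ → M) : Tendsto (fun n => f1 n (y n)) F (𝓝 (pt b)) := by
  refine mk_tendsto (hb.prodMk_nhds (Tendsto.prodMk_nhds ?_ tendsto_const_nhds)) fun d => ?_
  · exact tendsto_pi_nhds.2 fun m => ev_upd (ev_ne hF m) (fun _ => false) fun _ => true
  · refine ev_upd (j := fun n : ℕ => (Sum.inl n : D)) ?_ (fun _ => o) y
    rcases d with m | s
    · exact (ev_ne hF m).mono fun n hn h => hn (Sum.inl.inj h)
    · exact Eventually.of_forall fun n h => by cases h

theorem pt_mem (a : unitInterval) : pt a ∈ X := by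
  have h : NeBot (atTop ⊓ comap q (𝓝 a)) := by
    have := q_freq a
    rw [mapClusterPt_def, ClusterPt, inf_comm, ← Filter.push_pull, map_neBot_iff] at this
    exact this
  exact X_closed.mem_of_tendsto (t1 inf_le_left (tendsto_iff_comap.2 inf_le_right) fun _ => o)
    (Eventually.of_forall fun n => f1_mem n o_mem)

theorem t2 (n : ℕ) (u : Ultrafilter E) (y : M) :
    Tendsto (fun p : ℝ × M => f2 p.1 n u y p.2) (cofinite ×ˢ ⊤) (𝓝 (f1 n y)) := by
  have hs : ∀ s : ℝ, ∀ᶠ p : ℝ × M in cofinite ×ˢ ⊤, p.1 ≠ s := fun s =>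
    tendsto_fst.eventually (eventually_cofinite_ne s)
  refine mk_tendsto (tendsto_const_nhds.prodMk_nhds (tendsto_const_nhds.prodMk_nhds ?_))
    fun d => ?_
  · exact tendsto_pi_nhds.2 fun s => ev_upd (hs s) (fun _ => lab0) _
  · refine ev_upd (j := fun p : ℝ × M => (Sum.inr p.1 : D)) ?_ _ fun p => p.2
    rcases d with m | s
    · exact Eventually.of_forall fun n h => by cases h
    · exact (hs s).mono fun n hn h => hn (Sum.inr.inj h)

theorem t3 {F : Filter ℕ} (hF : F ≤ atTop) {b : unitInterval} (hb : Tendsto q F (𝓝 b)) {s : ℝ}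
    (hs : ∀ r : ℚ, (b : ℝ) ≠ s + r) (u : ℕ → Ultrafilter E) (y : ℕ → M) (x : M) :
    Tendsto (fun n => f2 s n (u n) (y n) x) F (𝓝 (f3 s b x)) := by
  have hb' : Tendsto (fun n => (q n : ℝ)) F (𝓝 (b : ℝ)) :=
    (continuous_subtype_val.tendsto b).comp hb
  refine mk_tendsto (hb.prodMk_nhds (Tendsto.prodMk_nhds ?_ ?_)) fun d => ?_
  · exact tendsto_pi_nhds.2 fun m => ev_upd (ev_ne hF m) (fun _ => false) fun _ => true
  · refine tendsto_const_nhds.update s (tendsto_const_nhds.prodMk_nhds (Tendsto.prodMk_nhds ?_ ?_))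
    · refine tendsto_pi_nhds.2 fun r => tendsto_const_nhds.congr' ?_
      rcases lt_or_gt_of_ne (hs r) with h | h
      · filter_upwards [hb'.eventually (gt_mem_nhds h)] with n hn
        simp [cut, h, hn]
      · filter_upwards [hb'.eventually (lt_mem_nhds h)] with n hn
        simp [cut, h.not_gt, hn.not_gt]
    · exact tendsto_pi_nhds.2 fun m => ev_upd (ev_ne hF m) (fun _ => u0) u
  · by_cases hd : d = .inr s
    · subst hd
      simpa using tendsto_const_nhds
    · simp only [update_of_ne hd]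
      refine ev_upd (j := fun n : ℕ => (Sum.inl n : D)) ?_ (fun _ => o) y
      rcases d with m | s
      · exact (ev_ne hF m).mono fun n hn h => hn (Sum.inl.inj h)
      · exact Eventually.of_forall fun n h => by cases h

theorem upd_ind (v : V) (c : D → M) (d : D) : IsInducing fun x => mk v (update c d x) :=
  IsInducing.of_comp (upd_cont v c d) (ch_cont d) (by
    have : (ch d ∘ fun x => mk v (update c d x)) = id := by
      funext x
      simp
    rw [this]
    exact IsInducing.id)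

theorem core {U : Set M} (hU : IsOpen U) (h0 : pt 0 ∈ U)
    (hW : ∀ m ∈ U ∩ X, ((m []).1 : ℝ) < 1 / 2) :
    ∃ k : M → M, IsInducing k ∧ ∀ x ∈ X, k x ∈ X ∧ k x ∈ closure (U ∩ X) \ U := by
  by_cases h1 : ∃ n, ∀ y ∈ X, f1 n y ∈ closure (U ∩ X) \ U
  · obtain ⟨n, hn⟩ := h1
    exact ⟨f1 n, upd_ind _ _ _, fun x hx => ⟨f1_mem n hx, hn x hx⟩⟩
  push Not at h1
  set C := closure (U ∩ X) with hC
  have hO : IsOpen (U ∪ Cᶜ) := hU.union isClosed_closure.isOpen_compl
  have h2 : ∀ n, ∃ k, f1 n (e k) ∈ U ∪ Cᶜ := by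
    intro n
    obtain ⟨y, hy, hy'⟩ := h1 n
    obtain ⟨_, hz, k, rfl⟩ := mem_closure_iff.1 hy (f1 n ⁻¹' (U ∪ Cᶜ))
      (hO.preimage (upd_cont _ _ _)) (by
        by_contra hh
        simp only [mem_preimage, mem_union, mem_compl_iff, not_or, not_not] at hh
        exact hy' ⟨hh.2, hh.1⟩)
    exact ⟨k, hz⟩
  choose k hk using h2
  let G : Set M → unitInterval → Filter ℕ := fun O b =>
    (atTop ⊓ 𝓟 {n | f1 n (e (k n)) ∈ O}) ⊓ comap q (𝓝 b)
  have hG : ∀ O b, NeBot (G O b) ↔ MapClusterPt b (atTop ⊓ 𝓟 {n | f1 n (e (k n)) ∈ O}) q := by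
    intro O b
    rw [mapClusterPt_def, ClusterPt, inf_comm, ← Filter.push_pull, map_neBot_iff]
  have hG1 : ∀ O b, G O b ≤ atTop := fun O b => inf_le_left.trans inf_le_left
  have hG2 : ∀ O b, Tendsto q (G O b) (𝓝 b) := fun O b => tendsto_iff_comap.2 inf_le_right
  have hG3 : ∀ O b, ∀ᶠ n in G O b, f1 n (e (k n)) ∈ O := fun O b =>
    (inf_le_left.trans inf_le_right : G O b ≤ 𝓟 _) (mem_principal_self _)
  have hcl : ∀ O, IsClosed {b | NeBot (G O b)} := fun O => by
    simp only [hG]
    exact isClosed_setOfPred_clusterPt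
  have hcov : ∀ b, NeBot (G U b) ∨ NeBot (G Cᶜ b) := by
    intro b
    have h := q_freq b
    rw [mapClusterPt_def, ClusterPt, inf_comm, ← Filter.push_pull, map_neBot_iff] at h
    rw [← sup_neBot]
    refine h.mono ?_
    rw [← inf_sup_right, ← inf_sup_left, sup_principal]
    have : {n | f1 n (e (k n)) ∈ U} ∪ {n | f1 n (e (k n)) ∈ Cᶜ} = univ :=
      eq_univ_of_forall fun n => hk n
    rw [this, principal_univ, inf_top_eq]
  have hz : NeBot (G U 0) := (hcov 0).resolve_right fun h => by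
    obtain ⟨n, hn, hn'⟩ := (((t1 (hG1 Cᶜ 0) (hG2 Cᶜ 0) fun n => e (k n)).eventually
      (hU.mem_nhds h0)).and (hG3 Cᶜ 0)).exists
    exact hn' (subset_closure ⟨hn, f1_mem n (e_mem _)⟩)
  have ho : NeBot (G Cᶜ 1) := (hcov 1).resolve_left fun h => by
    have h3 : Tendsto (fun n => (q n : ℝ)) (G U 1) (𝓝 1) :=
      (continuous_subtype_val.tendsto (1 : unitInterval)).comp (hG2 U 1)
    obtain ⟨n, hn, hn'⟩ := ((h3.eventually (lt_mem_nhds (show (1 / 2 : ℝ) < 1 by norm_num))).and
      (hG3 U 1)).exists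
    exact lt_asymm hn (hW _ ⟨hn', f1_mem n (e_mem _)⟩)
  obtain ⟨b, -, hbU, hbV⟩ := isPreconnected_closed_iff.1 isPreconnected_univ _ _ (hcl U) (hcl Cᶜ)
    (fun b _ => hcov b) ⟨0, trivial, hz⟩ ⟨1, trivial, ho⟩
  have h4 : ∀ O, IsOpen O → ∀ n, {s | ¬ (f1 n (e (k n)) ∈ O →
      ∀ x, f2 s n (pure (k n)) (e (k n)) x ∈ O)}.Finite := by
    intro O hO n
    by_cases hn : f1 n (e (k n)) ∈ O
    · have := (t2 n (pure (k n)) (e (k n))).eventually (hO.mem_nhds hn)
      have h5 := this.curry
      rw [eventually_cofinite] at h5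
      refine h5.subset fun s hs hs' => hs fun _ x => ?_
      exact eventually_top.1 hs' x
    · simp [hn]
  have hcnt : ((⋃ n, {s | ¬ (f1 n (e (k n)) ∈ U → ∀ x, f2 s n (pure (k n)) (e (k n)) x ∈ U)}) ∪
      (⋃ n, {s | ¬ (f1 n (e (k n)) ∈ Cᶜ → ∀ x, f2 s n (pure (k n)) (e (k n)) x ∈ Cᶜ)}) ∪
      range fun r : ℚ => (b : ℝ) - r).Countable :=
    ((countable_iUnion fun n => (h4 U hU n).countable).union
      (countable_iUnion fun n => (h4 _ isClosed_closure.isOpen_compl n).countable)).union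
      (countable_range _)
  obtain ⟨s, hs⟩ := (hcnt.dense_compl ℝ).nonempty
  rw [mem_compl_iff] at hs
  simp only [mem_union, mem_iUnion, mem_ofPred_eq, not_or, not_exists, not_not, mem_range] at hs
  obtain ⟨⟨hsU, hsV⟩, hsb⟩ := hs
  have hsb' : ∀ r : ℚ, (b : ℝ) ≠ s + r := fun r h => hsb r (by linarith)
  refine ⟨f3 s b, upd_ind _ _ _, fun x hx => ?_⟩
  have hT := fun O => t3 (hG1 O b) (hG2 O b) hsb' (fun n => pure (k n)) (fun n => e (k n)) x
  have : NeBot (G U b) := hbU
  have : NeBot (G Cᶜ b) := hbV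
  refine ⟨X_closed.mem_of_tendsto (hT U) (Eventually.of_forall fun n => f2_mem s n _ hx),
    mem_closure_of_tendsto (hT U) ((hG3 U b).mono fun n hn => ⟨hsU n hn x, f2_mem s n _ hx⟩),
    fun h => ?_⟩
  obtain ⟨n, hn, hn'⟩ := (((hT Cᶜ).eventually (hU.mem_nhds h)).and (hG3 Cᶜ b)).exists
  exact hsV n hn' x (subset_closure ⟨hn, f2_mem s n _ hx⟩)

end Pool.Agent.H25.TrInd
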