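import Pool.Agent.H25.TrInd

/-! The space of `TrInd` is a countable union of zero-dimensional subspaces. -/

set_option autoImplicit false
open Set Filter Topology Function

namespace Pool.Agent.H25.TrInd

/-- clopen neighbourhood bases -/
def ZB (α : Type) [TopologicalSpace α] : Prop :=
  ∀ x : α, ∀ O ∈ 𝓝 x, ∃ W, IsClopen W ∧ x ∈ W ∧ W ⊆ O

theorem ZB.ind {α β : Type} [TopologicalSpace α] [TopologicalSpace β] {f : α → β}
    (hf : IsInducing f) (h : ZB β) : ZB α := by
  intro x O hO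
  rw [hf.nhds_eq_comap, mem_comap] at hO
  obtain ⟨O', hO', hs⟩ := hO
  obtain ⟨W, hW, hx, hWO⟩ := h _ _ hO'
  exact ⟨f ⁻¹' W, hW.preimage hf.continuous, hx, (preimage_mono hWO).trans hs⟩

theorem ZB.prod {α β : Type} [TopologicalSpace α] [TopologicalSpace β] (h : ZB α) (h' : ZB β) :
    ZB (α × β) := by
  rintro ⟨x, y⟩ O hO
  obtain ⟨A, hA, B, hB, hs⟩ := mem_nhds_prod_iff.1 hO
  obtain ⟨W, hW, hx, hWO⟩ := h _ _ hA
  obtain ⟨W', hW', hx', hWO'⟩ := h' _ _ hB
  exact ⟨W ×ˢ W', hW.prod hW', ⟨hx, hx'⟩, (prod_mono hWO hWO').trans hs⟩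

theorem ZB.cpt (α : Type) [TopologicalSpace α] [CompactSpace α] [T2Space α]
    [TotallyDisconnectedSpace α] : ZB α := by
  intro x O hO
  obtain ⟨O', h1, h2, h3⟩ := mem_nhds_iff.1 hO
  obtain ⟨W, hW, hx, hs⟩ := compact_exists_isClopen_in_isOpen h2 h3
  exact ⟨W, hW, hx, hs.trans h1⟩

theorem ZB.loc {α : Type} [TopologicalSpace α]
    (h : ∀ x : α, ∃ W : Set α, IsClopen W ∧ x ∈ W ∧ ZB W) : ZB α := by
  intro x O hO
  obtain ⟨W, hW, hx, hz⟩ := h x
  obtain ⟨W', hW', hx', hs⟩ := hz ⟨x, hx⟩ (Subtype.val ⁻¹' O)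
    (continuous_subtype_val.continuousAt.preimage_mem_nhds hO)
  refine ⟨Subtype.val '' W', ⟨hW.isClosed.isClosedMap_subtype_val _ hW'.isClosed,
    hW.isOpen.isOpenMap_subtype_val _ hW'.isOpen⟩, ⟨_, hx', rfl⟩, ?_⟩
  rintro _ ⟨y, hy, rfl⟩
  exact hs hy

theorem ZB.real {T : Set ℝ} (h : Dense Tᶜ) : ZB T := by
  intro x O hO
  obtain ⟨O', hO', hs⟩ := (mem_nhds_subtype _ _ _).1 hO
  obtain ⟨a, b, ⟨ha, hb⟩, hab⟩ := mem_nhds_iff_exists_Ioo_subset.1 hO'
  obtain ⟨p, hp, hp1, hp2⟩ := h.exists_between ha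
  obtain ⟨p', hp', hp1', hp2'⟩ := h.exists_between hb
  refine ⟨Subtype.val ⁻¹' Ioo p p', ⟨?_, isOpen_Ioo.preimage continuous_subtype_val⟩,
    ⟨hp2, hp1'⟩, fun y hy => hs (hab ⟨hp1.trans hy.1, hy.2.trans hp2'⟩)⟩
  have : (Subtype.val ⁻¹' Ioo p p' : Set T) = Subtype.val ⁻¹' Icc p p' := by
    ext y
    exact ⟨fun hy => ⟨hy.1.le, hy.2.le⟩, fun hy =>
      ⟨lt_of_le_of_ne hy.1 fun e => hp (e ▸ y.2), lt_of_le_of_ne hy.2 fun e => hp' (e ▸ y.2)⟩⟩
  rw [this]
  exact isClosed_Icc.preimage continuous_subtype_val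

def fl (m : M) (n : ℕ) : Bool := (m []).2.1 n
def lb (m : M) (s : ℝ) : Lab := (m []).2.2 s
noncomputable def G : Ultrafilter E → M := Ultrafilter.extend e

theorem G_cont : Continuous G := continuous_ultrafilter_extend e
theorem G_pure (k : E) : G (pure k) = e k := congrFun (ultrafilter_extend_extends e) k
theorem fl_cont (n : ℕ) : Continuous fun m => fl m n := by unfold fl; fun_prop
theorem lb_cont (s : ℝ) : Continuous fun m => lb m s := by unfold lb; fun_prop

def Phi (m : M) : Prop :=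
  (∀ d, ch d m ∈ X) ∧
  (∀ n, fl m n = true → (m []).1 = q n ∧ ∀ n', fl m n' = true → n' = n) ∧
  (∀ n, fl m n = false → ch (.inl n) m = o) ∧
  (∀ s, (lb m s).1 = false → lb m s = lab0 ∧ ch (.inr s) m = o) ∧
  (∀ s, (lb m s).1 = true → (∀ s', (lb m s').1 = true → s' = s) ∧
    (∀ r : ℚ, ((m []).1 : ℝ) < s + r → (lb m s).2.1 r = true) ∧
    (∀ r : ℚ, s + r < ((m []).1 : ℝ) → (lb m s).2.1 r = false) ∧
    ∀ n, fl m n = true → ch (.inl n) m = G ((lb m s).2.2 n))

theorem op {g : M → Bool} (hg : Continuous g) (b : Bool) : IsOpen {m | g m = b} :=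
  (isOpen_discrete {b}).preimage hg

theorem cl_all {ι : Sort*} {p : ι → M → Prop} (h : ∀ i, IsClosed {m | p i m}) :
    IsClosed {m | ∀ i, p i m} := by
  rw [ofPred_forall]
  exact isClosed_iInter h

theorem Phi_closed : IsClosed {m | Phi m} := by
  have ha : Continuous fun m : M => (m []).1 := by fun_prop
  have ha' : Continuous fun m : M => ((m []).1 : ℝ) := by fun_prop
  have hl1 : ∀ s, Continuous fun m => (lb m s).1 := fun s => (lb_cont s).fst
  have hl2 : ∀ s r, Continuous fun m => (lb m s).2.1 r := fun s r =>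
    (continuous_apply r).comp (lb_cont s).snd.fst
  have hl3 : ∀ s n, Continuous fun m => (lb m s).2.2 n := fun s n =>
    (continuous_apply n).comp (lb_cont s).snd.snd
  refine IsClosed.and (cl_all fun d => X_closed.preimage (ch_cont d)) (IsClosed.and
    (cl_all fun n => isClosed_imp (op (fl_cont n) _) (IsClosed.and
      (isClosed_eq ha continuous_const)
      (cl_all fun n' => isClosed_imp (op (fl_cont n') _) isClosed_const))) (IsClosed.and
    (cl_all fun n => isClosed_imp (op (fl_cont n) _) (isClosed_eq (ch_cont _) continuous_const))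
    (IsClosed.and (cl_all fun s => isClosed_imp (op (hl1 s) _) (IsClosed.and
      (isClosed_eq (lb_cont s) continuous_const) (isClosed_eq (ch_cont _) continuous_const)))
    (cl_all fun s => isClosed_imp (op (hl1 s) _) (IsClosed.and
      (cl_all fun s' => isClosed_imp (op (hl1 s') _) isClosed_const) (IsClosed.and
      (cl_all fun r => isClosed_imp (isOpen_lt ha' continuous_const)
        (isClosed_eq (hl2 s r) continuous_const)) (IsClosed.and
      (cl_all fun r => isClosed_imp (isOpen_lt continuous_const ha')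
        (isClosed_eq (hl2 s r) continuous_const))
      (cl_all fun n => isClosed_imp (op (fl_cont n) _)
        (isClosed_eq (ch_cont _) (G_cont.comp (hl3 s n)))))))))))

theorem upd_true {α : Type} [DecidableEq α] {n m : α}
    (h : update (fun _ => false) n true m = true) : m = n := by
  by_contra hh
  simp [update_of_ne hh] at h

theorem Phi_e (k : E) : Phi (e k) := by
  cases k with
  | base =>
    refine ⟨fun _ => o_mem, fun n h => (by cases h), fun _ _ => rfl, fun _ _ => ⟨rfl, rfl⟩,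
      fun s h => (by cases h)⟩
  | n1 n k =>
    refine ⟨fun d => ?_, fun m h => ?_, fun m h => ?_, fun s _ => ⟨rfl, ?_⟩,
      fun s h => (by cases h)⟩
    · by_cases hd : d = .inl n
      · subst hd
        simpa [e, f1] using e_mem k
      · simpa [e, f1, update_of_ne hd] using o_mem
    · obtain rfl := upd_true h
      exact ⟨rfl, fun n' h' => upd_true h'⟩
    · have : m ≠ n := by
        rintro rfl
        simp [fl, e, f1] at h
      simp [e, f1, this]
    · simp [e, f1]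
  | n2 s n k k' =>
    have hs : ∀ s', (lb (e (.n2 s n k k')) s').1 = true → s' = s := by
      intro s' h
      by_contra hh
      simp [lb, e, f2, update_of_ne hh, lab0] at h
    refine ⟨fun d => ?_, fun m h => ?_, fun m h => ?_, fun s' h => ?_, fun s' h => ?_⟩
    · by_cases hd : d = .inr s
      · subst hd
        simpa [e, f2] using e_mem k'
      · by_cases hd' : d = .inl n
        · subst hd'
          simpa [e, f2] using e_mem k
        · simpa [e, f2, update_of_ne hd, update_of_ne hd'] using o_mem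
    · obtain rfl := upd_true h
      exact ⟨rfl, fun n' h' => upd_true h'⟩
    · have : m ≠ n := by
        rintro rfl
        simp [fl, e, f2] at h
      simp [e, f2, this]
    · have : s' ≠ s := by
        rintro rfl
        simp [lb, e, f2] at h
      simp [lb, e, f2, this]
    · obtain rfl := hs _ h
      refine ⟨hs, fun r hr => ?_, fun r hr => ?_, fun m hm => ?_⟩
      · simpa [lb, e, f2, cut] using hr
      · simpa [lb, e, f2, cut] using hr.le
      · obtain rfl := upd_true hm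
        simp [lb, e, f2, G_pure]

theorem Phi_X {m : M} (hm : m ∈ X) : Phi m :=
  closure_minimal (t := {m | Phi m}) (by rintro _ ⟨k, rfl⟩; exact Phi_e k) Phi_closed hm

theorem lb_eq {m : M} (hm : m ∈ X) {s : ℝ} (h : (lb m s).1 ≠ true) :
    lb m s = lab0 ∧ ch (.inr s) m = o := (Phi_X hm).2.2.2.1 s (by simpa using h)

theorem D3 {m m' : M} (hm : m ∈ X) (hm' : m' ∈ X) {s : ℝ} (h : (lb m s).1 = true)
    (h1 : ∀ n, fl m n = fl m' n) (h2 : lb m s = lb m' s) :
    m [] = m' [] ∧ ∀ d, d ≠ .inr s → ch d m = ch d m' := by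
  obtain ⟨a1, a2, a3, a4⟩ := (Phi_X hm).2.2.2.2 s h
  obtain ⟨b1, b2, b3, b4⟩ := (Phi_X hm').2.2.2.2 s (h2 ▸ h)
  have hs : ∀ s', s' ≠ s → lb m s' = lb m' s' ∧ ch (.inr s') m = ch (.inr s') m' := by
    intro s' hs'
    have c1 := lb_eq hm fun hh => hs' (a1 s' hh)
    have c2 := lb_eq hm' fun hh => hs' (b1 s' hh)
    exact ⟨c1.1.trans c2.1.symm, c1.2.trans c2.2.symm⟩
  refine ⟨Prod.ext (Subtype.ext ?_) (Prod.ext (funext h1) (funext fun s' => ?_)), fun d hd => ?_⟩
  · by_contra hne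
    rcases lt_or_gt_of_ne hne with hh | hh
    · obtain ⟨r, hr, hr'⟩ := exists_rat_btwn (sub_lt_sub_right hh s)
      have := a2 r (by linarith)
      rw [h2, b3 r (by linarith)] at this
      cases this
    · obtain ⟨r, hr, hr'⟩ := exists_rat_btwn (sub_lt_sub_right hh s)
      have := b2 r (by linarith)
      rw [← h2, a3 r (by linarith)] at this
      cases this
  · by_cases hs' : s' = s
    · subst hs'
      exact h2
    · exact (hs s' hs').1
  · rcases d with n | s'
    · cases hn : fl m n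
      · rw [(Phi_X hm).2.2.1 n hn, (Phi_X hm').2.2.1 n (h1 n ▸ hn)]
      · rw [a4 n hn, b4 n (h1 n ▸ hn), h2]
    · exact (hs s' fun hh => hd (hh ▸ rfl)).2

theorem D2 {m m' : M} (hm : m ∈ X) (hm' : m' ∈ X) (h : ∀ s, (lb m s).1 ≠ true)
    (h' : ∀ s, (lb m' s).1 ≠ true) {n : ℕ} (h1 : fl m n = true) (h2 : fl m' n = true) :
    m [] = m' [] ∧ ∀ d, d ≠ .inl n → ch d m = ch d m' := by
  obtain ⟨a1, a2⟩ := (Phi_X hm).2.1 n h1
  obtain ⟨b1, b2⟩ := (Phi_X hm').2.1 n h2
  have hn : ∀ n', n' ≠ n → fl m n' = false ∧ fl m' n' = false := fun n' hn' =>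
    ⟨by simpa using fun hh => hn' (a2 n' hh), by simpa using fun hh => hn' (b2 n' hh)⟩
  refine ⟨Prod.ext (a1.trans b1.symm) (Prod.ext (funext fun n' => ?_) (funext fun s => ?_)),
    fun d hd => ?_⟩
  · by_cases hn' : n' = n
    · subst hn'
      exact h1.trans h2.symm
    · exact (hn n' hn').1.trans (hn n' hn').2.symm
  · exact (lb_eq hm (h s)).1.trans (lb_eq hm' (h' s)).1.symm
  · rcases d with n' | s
    · have := hn n' fun hh => hd (hh ▸ rfl)
      rw [(Phi_X hm).2.2.1 n' this.1, (Phi_X hm').2.2.1 n' this.2]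
    · exact (lb_eq hm (h s)).2.trans (lb_eq hm' (h' s)).2.symm

theorem D1 {m m' : M} (hm : m ∈ X) (hm' : m' ∈ X) (h : ∀ s, (lb m s).1 ≠ true)
    (h' : ∀ s, (lb m' s).1 ≠ true) (h1 : ∀ n, fl m n = false) (h2 : ∀ n, fl m' n = false)
    (ha : (m []).1 = (m' []).1) : m = m' := by
  refine ext' (Prod.ext ha (Prod.ext (funext fun n => (h1 n).trans (h2 n).symm)
    (funext fun s => (lb_eq hm (h s)).1.trans (lb_eq hm' (h' s)).1.symm))) fun d => ?_
  rcases d with n | s
  · rw [(Phi_X hm).2.2.1 n (h1 n), (Phi_X hm').2.2.1 n (h2 n)]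
  · exact (lb_eq hm (h s)).2.trans (lb_eq hm' (h' s)).2.symm

/-- A continuous map that is injective on a closed set is inducing on each of its subsets. -/
theorem ind_of {β γ α : Type} [TopologicalSpace α] [TopologicalSpace β] [T2Space β]
    [TopologicalSpace γ] {K : Set M} (hK : IsClosed K) {g : M → β} (hg : Continuous g)
    (hi : InjOn g K) {i : α → M} (hind : IsInducing i) (hiK : ∀ x, i x ∈ K) {f : α → γ}
    {j : γ → β} (hf : Continuous f) (hj : Continuous j) (h : ∀ x, j (f x) = g (i x)) :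
    IsInducing f := by
  have : CompactSpace K := isCompact_iff_compactSpace.1 hK.isCompact
  have h1 : IsInducing (K.domRestrict g) :=
    ((hg.comp continuous_subtype_val).isClosedEmbedding
      (fun x y hxy => Subtype.ext (hi x.2 y.2 hxy))).isInducing
  have h2 : IsInducing (codRestrict i K hiK) := hind.codRestrict hiK
  refine IsInducing.of_comp hf hj ?_
  have : j ∘ f = K.domRestrict g ∘ codRestrict i K hiK := funext h
  rw [this]
  exact h1.comp h2

def P0 (T : Set ℝ) : Set M :=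
  {m | m ∈ X ∧ (∀ s, (lb m s).1 ≠ true) ∧ (∀ n, fl m n = false) ∧ ((m []).1 : ℝ) ∈ T}
def P1 (Y : Set M) : Set M :=
  {m | m ∈ X ∧ (∀ s, (lb m s).1 ≠ true) ∧ ∃ n, fl m n = true ∧ ch (.inl n) m ∈ Y}
def P2 (Y : Set M) : Set M := {m | m ∈ X ∧ ∃ s, (lb m s).1 = true ∧ ch (.inr s) m ∈ Y}

theorem ne_cl (s : ℝ) : IsClosed {m | (lb m s).1 ≠ true} := (op (lb_cont s).fst true).isClosed_compl

theorem zb0 {T : Set ℝ} (h : Dense Tᶜ) : ZB (P0 T) := by
  refine ZB.ind (f := fun m : P0 T => (⟨(m.1 []).1, m.2.2.2.2⟩ : T)) ?_ (ZB.real h)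
  refine ind_of (K := {m | m ∈ X ∧ (∀ s, (lb m s).1 ≠ true) ∧ (∀ n, fl m n = false)})
    (X_closed.and ((cl_all ne_cl).and
      (cl_all fun n => isClosed_eq (fl_cont n) continuous_const)))
    (g := fun m => ((m []).1 : ℝ)) (by fun_prop)
    (fun m hm m' hm' hh => D1 hm.1 hm'.1 hm.2.1 hm'.2.1 hm.2.2 hm'.2.2 (Subtype.ext hh))
    IsInducing.subtypeVal (fun x => ⟨x.2.1, x.2.2.1, x.2.2.2.1⟩) (j := Subtype.val)
    (Continuous.subtype_mk (continuous_subtype_val.comp
      ((continuous_apply []).comp continuous_subtype_val).fst) _) continuous_subtype_val fun _ => rfl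

theorem clp {Y : Set M} {g : M → Bool} (hg : Continuous g) :
    IsClopen {m : Y | g m.1 = true} :=
  (isClopen_discrete {true}).preimage (hg.comp continuous_subtype_val)

theorem zb1 {Y : Set M} (h : ZB Y) : ZB (P1 Y) := by
  refine ZB.loc fun x => ?_
  obtain ⟨n, hn, -⟩ := x.2.2.2
  refine ⟨{m | fl m.1 n = true}, clp (fl_cont n), hn, ?_⟩
  have hY : ∀ m : {m : P1 Y | fl m.1 n = true}, ch (.inl n) m.1.1 ∈ Y := by
    rintro ⟨⟨m, hm, -, n', h1, h2⟩, hm'⟩
    obtain rfl := ((Phi_X hm).2.1 n hm').2 n' h1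
    exact h2
  refine ZB.ind (f := fun m => (⟨_, hY m⟩ : Y)) ?_ h
  refine ind_of (K := {m | m ∈ X ∧ (∀ s, (lb m s).1 ≠ true) ∧ fl m n = true})
    (X_closed.and ((cl_all ne_cl).and (isClosed_eq (fl_cont n) continuous_const)))
    (ch_cont (.inl n)) (fun m hm m' hm' hh => ?_)
    (IsInducing.subtypeVal.comp IsInducing.subtypeVal) (fun x => ⟨x.1.2.1, x.1.2.2.1, x.2⟩)
    (j := Subtype.val) (Continuous.subtype_mk ((ch_cont _).comp
      (continuous_subtype_val.comp continuous_subtype_val)) _) continuous_subtype_val fun _ => rfl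
  obtain ⟨h1, h2⟩ := D2 hm.1 hm'.1 hm.2.1 hm'.2.1 hm.2.2 hm'.2.2
  exact ext' h1 fun d => if hd : d = .inl n then hd ▸ hh else h2 d hd

theorem zb2 {Y : Set M} (h : ZB Y) : ZB (P2 Y) := by
  refine ZB.loc fun x => ?_
  obtain ⟨s, hs, -⟩ := x.2.2
  refine ⟨{m | (lb m.1 s).1 = true}, clp (lb_cont s).fst, hs, ?_⟩
  have hY : ∀ m : {m : P2 Y | (lb m.1 s).1 = true}, ch (.inr s) m.1.1 ∈ Y := by
    rintro ⟨⟨m, hm, s', h1, h2⟩, hm'⟩
    obtain rfl := ((Phi_X hm).2.2.2.2 s hm').1 s' h1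
    exact h2
  have hv : Continuous fun m : {m : P2 Y | (lb m.1 s).1 = true} => m.1.1 :=
    continuous_subtype_val.comp continuous_subtype_val
  refine ZB.ind (f := fun m => ((m.1.1 []).2, (⟨_, hY m⟩ : Y))) ?_ ((ZB.cpt Z).prod h)
  refine ind_of (K := {m | m ∈ X ∧ (lb m s).1 = true})
    (X_closed.and (isClosed_eq (lb_cont s).fst continuous_const))
    (g := fun m => ((m []).2, ch (.inr s) m))
    (Continuous.prodMk (by fun_prop) (ch_cont _)) (fun m hm m' hm' hh => ?_)
    (IsInducing.subtypeVal.comp IsInducing.subtypeVal) (fun x => ⟨x.1.2.1, x.2⟩)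
    (j := Prod.map id Subtype.val) (Continuous.prodMk ((continuous_apply []).comp hv).snd
      (Continuous.subtype_mk ((ch_cont _).comp hv) _))
    (continuous_id.prodMap continuous_subtype_val) fun _ => rfl
  obtain ⟨e1, e2⟩ := Prod.mk.inj hh
  obtain ⟨h1, h2⟩ := D3 hm.1 hm'.1 hm.2 (fun n => congrFun (congrArg Prod.fst e1) n)
    (congrFun (congrArg Prod.snd e1) s)
  exact ext' h1 fun d => if hd : d = .inr s then hd ▸ e2 else h2 d hd

def pc (b : Bool) : List Bool → Set M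
  | [] => P0 (if b then {x | Irrational x} else {x | Irrational x}ᶜ)
  | true :: w => P1 (pc b w)
  | false :: w => P2 (pc b w)

theorem zb_pc (b : Bool) : ∀ w, ZB (pc b w)
  | [] => by
    refine zb0 ?_
    cases b
    · simpa using dense_irrational
    · exact Rat.denseRange_cast.mono fun x hx h => h hx
  | true :: w => zb1 (zb_pc b w)
  | false :: w => zb2 (zb_pc b w)

def Xi : Set M := {m | m ∈ X ∧ ∀ b w, m ∉ pc b w}

theorem sep : ∀ (l : List D) (m m' : X), m.1 ∈ Xi → m.1 l ≠ m'.1 l →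
    ∃ W : Set X, IsClopen W ∧ m ∈ W ∧ m' ∉ W := by
  have key : ∀ m m' : X, m.1 ∈ Xi → (∃ W : Set X, IsClopen W ∧ m ∈ W ∧ m' ∉ W) ∨
      ∃ d, ch d m.1 ∈ Xi ∧ m.1 [] = m'.1 [] ∧ ∀ d', d' ≠ d → ch d' m.1 = ch d' m'.1 := by
    intro m m' hm
    by_cases hz : (m.1 []).2 = (m'.1 []).2
    · right
      have e1 : ∀ n, fl m.1 n = fl m'.1 n := fun n => congrFun (congrArg Prod.fst hz) n
      have e2 : ∀ s, lb m.1 s = lb m'.1 s := fun s => congrFun (congrArg Prod.snd hz) s
      by_cases hs : ∃ s, (lb m.1 s).1 = true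
      · obtain ⟨s, hs⟩ := hs
        exact ⟨.inr s, ⟨(Phi_X m.2).1 _, fun b w h => hm.2 b (false :: w) ⟨m.2, s, hs, h⟩⟩,
          D3 m.2 m'.2 hs e1 (e2 s)⟩
      · push Not at hs
        by_cases hn : ∃ n, fl m.1 n = true
        · obtain ⟨n, hn⟩ := hn
          exact ⟨.inl n, ⟨(Phi_X m.2).1 _, fun b w h => hm.2 b (true :: w) ⟨m.2, hs, n, hn, h⟩⟩,
            D2 m.2 m'.2 hs (fun s => e2 s ▸ hs s) hn (e1 n ▸ hn)⟩
        · exfalso
          have hn' : ∀ n, fl m.1 n = false := fun n => by simpa using fun h => hn ⟨n, h⟩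
          by_cases hi : Irrational ((m.1 []).1 : ℝ)
          · exact hm.2 true [] ⟨m.2, hs, hn', hi⟩
          · exact hm.2 false [] ⟨m.2, hs, hn', hi⟩
    · left
      obtain ⟨W, hW, h1, h2⟩ := ZB.cpt Z _ _ (compl_singleton_mem_nhds hz)
      exact ⟨(fun x : X => (x.1 []).2) ⁻¹' W, hW.preimage
        ((continuous_apply []).comp continuous_subtype_val).snd, h1, fun h => h2 h rfl⟩
  intro l
  induction l with
  | nil =>
    intro m m' hm h
    exact (key m m' hm).resolve_right fun ⟨d, _, h1, _⟩ => h h1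
  | cons d l ih =>
    intro m m' hm h
    rcases key m m' hm with h1 | ⟨d', h1, -, h2⟩
    · exact h1
    · have hd : d = d' := by
        by_contra hd
        exact h (congrFun (h2 d hd) l)
      subst hd
      obtain ⟨W, hW, a1, a2⟩ := ih ⟨_, (Phi_X m.2).1 d⟩ ⟨_, (Phi_X m'.2).1 d⟩ h1 h
      exact ⟨(fun x : X => (⟨_, (Phi_X x.2).1 d⟩ : X)) ⁻¹' W,
        hW.preimage (Continuous.subtype_mk ((ch_cont d).comp continuous_subtype_val) _), a1, a2⟩

instance : CompactSpace X := isCompact_iff_compactSpace.1 X_closed.isCompact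

theorem zb_i : ZB (Subtype.val ⁻¹' Xi : Set X) := by
  intro x O hO
  obtain ⟨O', hO', hs⟩ := (mem_nhds_subtype _ _ _).1 hO
  obtain ⟨O2, h1, h2, h3⟩ := mem_nhds_iff.1 hO'
  have : ∃ W : Set X, IsClopen W ∧ x.1 ∈ W ∧ Disjoint W O2ᶜ := by
    refine h2.isClosed_compl.isCompact.induction_on
      (p := fun S => ∃ W : Set X, IsClopen W ∧ x.1 ∈ W ∧ Disjoint W S)
      ⟨univ, isClopen_univ, trivial, by simp⟩
      (fun S T hST ⟨W, a, b, c⟩ => ⟨W, a, b, c.mono_right hST⟩)
      (fun S T ⟨W, a, b, c⟩ ⟨W', a', b', c'⟩ => ⟨W ∩ W', a.inter a', ⟨b, b'⟩,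
        Disjoint.union_right (c.mono_left inter_subset_left) (c'.mono_left inter_subset_right)⟩)
      fun y hy => ?_
    have hne : x.1.1 ≠ y.1 := fun h => hy (Subtype.ext h ▸ h3)
    obtain ⟨l, hl⟩ := ne_iff.1 hne
    obtain ⟨W, a, b, c⟩ := sep l x.1 y x.2 hl
    exact ⟨Wᶜ, mem_nhdsWithin_of_mem_nhds (a.compl.isOpen.mem_nhds c), W, a, b,
      disjoint_compl_right⟩
  obtain ⟨W, a, b, c⟩ := this
  exact ⟨Subtype.val ⁻¹' W, a.preimage continuous_subtype_val, b, fun y hy =>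
    hs (h1 (by simpa using c.subset_compl_right hy))⟩

theorem pieces : ∃ A : ℕ → Set X, (⋃ n, A n) = univ ∧ ∀ n, ZB (A n) := by
  let B : Option (Bool × List Bool) → Set X := fun i =>
    Subtype.val ⁻¹' (i.elim Xi fun p => pc p.1 p.2)
  obtain ⟨f, hf⟩ := exists_surjective_nat (Option (Bool × List Bool))
  refine ⟨fun n => B (f n), ?_, fun n => ?_⟩
  · rw [hf.iUnion_comp B]
    refine eq_univ_of_forall fun x => mem_iUnion.2 ?_
    by_cases h : ∃ b w, x.1 ∈ pc b w
    · obtain ⟨b, w, h⟩ := h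
      exact ⟨some (b, w), h⟩
    · exact ⟨none, x.2, fun b w hh => h ⟨b, w, hh⟩⟩
  · show ZB (B (f n))
    rcases f n with _ | ⟨b, w⟩
    · exact zb_i
    · exact ZB.ind (f := fun x : B (some (b, w)) => (⟨x.1.1, x.2⟩ : pc b w))
        ((IsInducing.subtypeVal.comp IsInducing.subtypeVal).codRestrict _) (zb_pc b w)

end Pool.Agent.H25.TrInd
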