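import Mathlib

/-! Free sets for ultrafilter-valued mappings and function spaces over spaces of ultrafilters. -/

set_option autoImplicit false

namespace Pool.Agent.H25.UltraFree

open Set Filter Topology

variable {D : Type}

theorem free1 {A : Set D} (hA : ¬ A.Countable) (u : D → Ultrafilter D) :
    ∃ H ⊆ A, ¬ H.Countable ∧ ∀ ξ ∈ H, H ∈ u ξ → u ξ = pure ξ := by
  by_cases hc : ∃ B ⊆ A, ¬ {ξ | ξ ∈ B ∧ B ∉ u ξ}.Countable
  · obtain ⟨B, b1, b2⟩ := hc
    exact ⟨_, fun ξ h => b1 h.1, b2, fun ξ h h' => absurd (mem_of_superset h' fun _ a => a.1) h.2⟩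
  push Not at hc
  have hi : Cardinal.aleph0 ≤ Cardinal.mk A :=
    (not_le.1 fun h => hA (Cardinal.le_aleph0_iff_set_countable.1 h)).le
  obtain ⟨e⟩ : Nonempty (A × A ≃ A) := Cardinal.eq.1 (by simp [Cardinal.mul_eq_self hi])
  have he : Function.Injective fun p => (e p : D) := Subtype.val_injective.comp e.injective
  have h1 : ∀ j : A, ∃ k : A, (range fun k => (e (j, k) : D)) ∈ u (e (j, k)) := by
    intro j
    by_contra hn
    push Not at hn
    have := hc (range fun k => (e (j, k) : D)) (by rintro _ ⟨k, rfl⟩; exact (e _).2)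
    refine hA (countable_coe_iff.1 (countable_univ_iff.1 ((this.preimage
      (f := fun k => (e (j, k) : D)) fun a b h => (Prod.ext_iff.1 (he h)).2).mono
      fun k _ => And.intro (mem_range_self k) (hn k))))
  choose k hk using h1
  refine ⟨range fun j => (e (j, k j) : D), by rintro _ ⟨j, rfl⟩; exact (e _).2, fun h => ?_, ?_⟩
  · exact hA (countable_coe_iff.1 (countable_univ_iff.1 ((h.preimage
      (f := fun j => (e (j, k j) : D)) fun a b h => (Prod.ext_iff.1 (he h)).1).mono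
      fun j _ => mem_range_self (f := fun j => (e (j, k j) : D)) j)))
  · rintro _ ⟨j, rfl⟩ h
    suffices hs : ({(e (j, k j) : D)} : Set D) ∈ u (e (j, k j)) by
      obtain ⟨x, h1, h2⟩ := Ultrafilter.eq_pure_of_finite_mem (finite_singleton _) hs
      rw [h2, show x = _ from h1]
    refine mem_of_superset (inter_mem h (hk j)) ?_
    rintro _ ⟨⟨j', rfl⟩, k', h'⟩
    have : j = j' := (Prod.ext_iff.1 (he h')).1
    subst this
    rfl

theorem free_le (n : ℕ) : ∀ {A : Set D} (_ : ¬ A.Countable) (G : D → Finset (Ultrafilter D)),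
    (∀ ξ ∈ A, (G ξ).card ≤ n) →
    ∃ H ⊆ A, ¬ H.Countable ∧ ∀ ξ ∈ H, ∀ u ∈ G ξ, H ∈ u → u = pure ξ := by
  classical
  induction n with
  | zero =>
    intro A hA G hG
    exact ⟨A, subset_rfl, hA, fun ξ h u hu => by
      rw [Finset.card_eq_zero.1 (Nat.le_zero.1 (hG ξ h))] at hu; simp at hu⟩
  | succ n ih =>
    intro A hA G hG
    have : ∀ ξ, ∃ v : Ultrafilter D, (G ξ).Nonempty → v ∈ G ξ := fun ξ => by
      by_cases h : (G ξ).Nonempty
      · exact ⟨h.choose, fun _ => h.choose_spec⟩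
      · exact ⟨pure ξ, fun h' => absurd h' h⟩
    choose v hv using this
    obtain ⟨B, b1, b2, b3⟩ := free1 hA v
    obtain ⟨H, h1, h2, h3⟩ := ih b2 (fun ξ => (G ξ).erase (v ξ)) fun ξ h => by
      rcases (G ξ).eq_empty_or_nonempty with e | e
      · simp [e]
      · rw [Finset.card_erase_of_mem (hv ξ e)]
        have := hG ξ (b1 h)
        omega
    refine ⟨H, h1.trans b1, h2, fun ξ h u hu hH => ?_⟩
    by_cases e : u = v ξ
    · subst e
      exact b3 ξ (h1 h) (mem_of_superset hH h1)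
    · exact h3 ξ h u (Finset.mem_erase.2 ⟨e, hu⟩) hH

theorem free {A : Set D} (hA : ¬ A.Countable) (G : D → Finset (Ultrafilter D)) :
    ∃ H ⊆ A, ¬ H.Countable ∧ ∀ ξ ∈ H, ∀ u ∈ G ξ, H ∈ u → u = pure ξ := by
  have : ∃ n, ¬ {a | a ∈ A ∧ (G a).card ≤ n}.Countable := by
    by_contra hn
    push Not at hn
    exact hA ((countable_iUnion hn).mono fun a ha =>
      mem_iUnion.2 ⟨(G a).card, And.intro ha le_rfl⟩)
  obtain ⟨n, hn⟩ := this
  obtain ⟨B, b1, b2⟩ := free_le n hn G fun a ha => ha.2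
  exact ⟨B, fun a ha => (b1 ha).1, b2⟩

abbrev Cp (X : Type) [TopologicalSpace X] := {f : X → ℝ // Continuous f}

open Classical in
/-- The indicator function of the clopen set of ultrafilters containing `A`. -/
noncomputable def χ (A : Set D) : Cp (Ultrafilter D) :=
  ⟨fun u => if A ∈ u then 1 else 0, continuous_if (fun a ha => by
    rw [IsClopen.frontier_eq ⟨ultrafilter_isClosed_basic A, ultrafilter_isOpen_basic A⟩] at ha
    exact ha.elim) continuousOn_const continuousOn_const⟩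

theorem nb {X : Type} [TopologicalSpace X] {U : Set (Cp X)} (hU : IsOpen U) {f : Cp X}
    (hf : f ∈ U) : ∃ G : Finset X, ∀ h : Cp X, (∀ u ∈ G, h.1 u = f.1 u) → h ∈ U := by
  obtain ⟨V, b1, b2⟩ := isOpen_induced_iff.1 hU
  obtain ⟨J, w, c1, c2⟩ := isOpen_pi_iff.1 b1 f.1 (show f ∈ Subtype.val ⁻¹' V from b2 ▸ hf)
  refine ⟨J, fun z hz => ?_⟩
  rw [← b2]
  exact c2 fun u hu => hz u hu ▸ (c1 u hu).2

theorem χ_congr {A B : Set D} {u : Ultrafilter D} (h : A ∈ u ↔ B ∈ u) : (χ A).1 u = (χ B).1 u := by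
  classical
  exact if_congr h rfl rfl

theorem χ_tend : Tendsto (fun ξ : D => χ {ξ}) cofinite (𝓝 (χ ∅)) := by
  rw [tendsto_subtype_rng, tendsto_pi_nhds]
  intro u
  refine tendsto_const_nhds.congr' (Set.Subsingleton.finite fun a ha b hb => ?_)
  have k : ∀ c, ¬ (χ ∅).1 u = (χ {c}).1 u → {c} ∈ u := fun c hc => by
    by_contra h
    exact hc (χ_congr (iff_of_false u.empty_notMem h))
  obtain ⟨x, h1, h2⟩ := u.nonempty_of_mem (inter_mem (k a ha) (k b hb))
  exact h1.symm.trans h2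

theorem no_sep (hD : ¬ (univ : Set D).Countable) (𝒰 : Set (Set (Cp (Ultrafilter D))))
    (h1 : ∀ U ∈ 𝒰, ∃ g : Cp (Ultrafilter D) → ℝ, Continuous g ∧ U = {z | g z ≠ 0})
    (h2 : ∀ z w, z ≠ w → ∃ U ∈ 𝒰, Xor (z ∈ U) (w ∈ U))
    (h3 : ∀ z, {U | U ∈ 𝒰 ∧ z ∈ U}.Countable) : False := by
  have hne : ∀ ξ : D, χ {ξ} ≠ χ ∅ := fun ξ h => by
    have := congrFun (congrArg Subtype.val h) (pure ξ)
    simp [χ] at this
  choose U u1 u2 using fun ξ => h2 _ _ (hne ξ)
  have fib : ∀ z, {ξ | z ∈ U ξ}.Countable := by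
    intro z
    refine ((h3 z).biUnion (t := fun V _ => {ξ | U ξ = V}) fun V hV => ?_).mono
      fun ξ h => mem_biUnion (show U ξ ∈ {U | U ∈ 𝒰 ∧ z ∈ U} from ⟨u1 ξ, h⟩) rfl
    obtain ⟨g, g1, g2⟩ := h1 V hV.1
    have t := (g1.tendsto _).comp χ_tend
    refine (countable_iUnion fun n : ℕ => Set.Finite.countable (Metric.tendsto_nhds.1 t
      (1 / ((n : ℝ) + 1)) Nat.one_div_pos_of_nat)).mono fun ξ hξ => ?_
    have : g (χ {ξ}) ≠ g (χ ∅) := fun e => by
      have := u2 ξ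
      rw [show U ξ = V from hξ, g2] at this
      simp only [mem_ofPred_eq, e, xor_self] at this
    obtain ⟨n, hn⟩ := exists_nat_one_div_lt (dist_pos.2 this)
    exact mem_iUnion.2 ⟨n, fun h => lt_asymm hn h⟩
  have hA : ¬ {ξ | χ ∅ ∉ U ξ}.Countable := fun h =>
    hD (((fib (χ ∅)).union h).mono fun ξ _ => em _)
  have ho : ∀ ξ, IsOpen (U ξ) := fun ξ => by
    obtain ⟨g, g1, g2⟩ := h1 _ (u1 ξ)
    rw [g2]
    exact isOpen_ne_fun g1 continuous_const
  choose! G hG using fun ξ (h : χ ∅ ∉ U ξ) => nb (ho ξ)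
    (show χ {ξ} ∈ U ξ from (u2 ξ).elim And.left fun a => absurd a.1 h)
  obtain ⟨H, a1, a2, a3⟩ := free hA G
  refine a2 ((fib (χ H)).mono fun ξ hξ => hG ξ (a1 hξ) _ fun u hu => χ_congr ⟨fun h => ?_,
    fun h => mem_of_superset h (singleton_subset_iff.2 hξ)⟩)
  rw [a3 ξ hξ u hu h]
  exact rfl

end Pool.Agent.H25.UltraFree
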