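import Mathlib
import Pool.Agent.H25.FreeSet

set_option autoImplicit false

namespace Pool.Agent.H25.Vald

open Set Filter Topology TopologicalSpace

theorem fix {K Γ : Type} [TopologicalSpace K] [CompactSpace K] (φ : K → Γ → ℝ)
    (hφ : Continuous φ) (hi : φ.Injective) (h : K → K) (hh : Continuous h)
    (hd : Dense (φ ⁻¹' {x | {γ | x γ ≠ 0}.Countable}))
    (hA : ∀ x, {γ | φ x γ ≠ 0}.Countable → {γ | φ (h x) γ ≠ 0}.Countable)
    (p : K) (hp : h p = p) (V : Set K) (hV : V ∈ 𝓝 p) (hc : IsClosed V) :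
    ∃ z ∈ V, h z = z ∧ {γ | φ z γ ≠ 0}.Countable := by
  classical
  have c1 : ∀ γ, Continuous fun z => φ z γ := fun γ => (continuous_apply γ).comp hφ
  let Z : Finset Γ × ℕ → Set K := fun q => V ∩ ⋂ γ ∈ q.1,
    {z | dist (φ z γ) (φ p γ) ≤ 1 / ((q.2 : ℝ) + 1) ∧ dist (φ (h z) γ) (φ p γ) ≤ 1 / ((q.2 : ℝ) + 1)}
  have h1 : ∀ q, ∃ a ∈ Z q, {γ | φ a γ ≠ 0}.Countable := fun q => by
    obtain ⟨a, a1, a2⟩ := hd.inter_nhds_nonempty (t := Z q) (x := p) (inter_mem hV
      ((biInter_finset_mem _).2 fun γ _ => Eventually.and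
        ((c1 γ).continuousAt (Metric.closedBall_mem_nhds _ Nat.one_div_pos_of_nat))
        (((c1 γ).comp hh).continuousAt (x := p) (show Metric.closedBall (φ p γ) _ ∈ 𝓝 (φ (h p) γ) from
          hp.symm ▸ Metric.closedBall_mem_nhds _ Nat.one_div_pos_of_nat))))
    exact ⟨a, a2, a1⟩
  choose a a1 a2 using h1
  obtain ⟨C, C1, C2⟩ := FreeSet.closing
    (fun T => ⋃ k, {γ | φ (a (T, k)) γ ≠ 0} ∪ {γ | φ (h (a (T, k))) γ ≠ 0})
    fun T => countable_iUnion fun k => (a2 _).union (hA _ (a2 _))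
  let W : Set K := ⋂ γ ∈ Cᶜ, {z | φ z γ = 0 ∧ φ (h z) γ = 0}
  let Y : {q : Finset Γ × ℕ // (q.1 : Set Γ) ⊆ C} → Set K := fun q => W ∩ Z q.1
  have : Nonempty {q : Finset Γ × ℕ // (q.1 : Set Γ) ⊆ C} := ⟨⟨(∅, 0), by simp⟩⟩
  have hY : ∀ q, IsClosed (Y q) := fun q => (isClosed_biInter fun γ _ =>
    (isClosed_eq (c1 γ) continuous_const).inter (isClosed_eq ((c1 γ).comp hh)
      continuous_const)).inter (hc.inter (isClosed_biInter fun γ _ =>
        (isClosed_le ((c1 γ).dist continuous_const) continuous_const).inter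
          (isClosed_le (((c1 γ).comp hh).dist continuous_const) continuous_const)))
  have hm : ∀ q r : Finset Γ × ℕ, q ≤ r → Z r ⊆ Z q := fun q r hqr z hz =>
    ⟨hz.1, mem_iInter₂.2 fun γ hγ => (mem_iInter₂.1 hz.2 γ (hqr.1 hγ)).imp
      (·.trans (Nat.one_div_le_one_div hqr.2)) (·.trans (Nat.one_div_le_one_div hqr.2))⟩
  obtain ⟨z, hz⟩ := IsCompact.nonempty_iInter_of_directed_nonempty_isCompact_isClosed Y
    (fun q r => ⟨⟨q.1 ⊔ r.1, by simpa using ⟨q.2, r.2⟩⟩,
      inter_subset_inter_right _ (hm _ _ le_sup_left),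
      inter_subset_inter_right _ (hm _ _ le_sup_right)⟩)
    (fun q => ⟨a q.1, mem_iInter₂.2 fun γ hγ => ⟨not_not.1 fun e => hγ (C2 _ q.2
      (mem_iUnion.2 ⟨q.1.2, .inl e⟩)), not_not.1 fun e => hγ (C2 _ q.2
        (mem_iUnion.2 ⟨q.1.2, .inr e⟩))⟩, a1 _⟩) (fun q => (hY q).isCompact) hY
  have h2 := mem_iInter.1 hz (Classical.arbitrary _)
  refine ⟨z, h2.2.1, hi (funext fun γ => ?_),
    C1.mono fun γ e => not_not.1 fun hγ => e (mem_iInter₂.1 h2.1 γ hγ).1⟩
  by_cases hγ : γ ∈ C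
  · have h3 := fun k : ℕ => mem_iInter₂.1 (mem_iInter.1 hz ⟨({γ}, k), by simpa⟩).2.2 γ
      (Finset.mem_singleton_self _)
    have h4 : ∀ t : ℝ, (∀ k : ℕ, dist t (φ p γ) ≤ 1 / ((k : ℝ) + 1)) → t = φ p γ := fun t ht =>
      dist_le_zero.1 (ge_of_tendsto' tendsto_one_div_add_atTop_nhds_zero_nat ht)
    rw [h4 _ fun k => (h3 k).1, h4 _ fun k => (h3 k).2]
  · rw [(mem_iInter₂.1 h2.1 γ hγ).1, (mem_iInter₂.1 h2.1 γ hγ).2]

abbrev Y : Type := Bool × (ℕ → ℤ_[2])

theorem ex : ∃ (K : Type) (_ : TopologicalSpace K), CompactSpace K ∧ T2Space K ∧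
    (∃ (Γ : Type) (φ : K → Γ → ℝ), IsEmbedding φ ∧ Dense (φ ⁻¹' {x | {γ | x γ ≠ 0}.Countable})) ∧
    ∃ h : K → K, Continuous h ∧ (∀ x, h (h x) = x) ∧ ∀ (Γ : Type) (φ : K → Γ → ℝ), IsEmbedding φ →
      Dense (φ ⁻¹' {x | {γ | x γ ≠ 0}.Countable}) →
      ¬ ∀ x, {γ | φ x γ ≠ 0}.Countable → {γ | φ (h x) γ ≠ 0}.Countable := by
  classical
  let g : ℕ → Set ℕ → Bool × Bool → ℤ_[2] := fun n A t =>
    if t.1 = true ∧ t.2 ≠ decide (n ∈ A) then 1 else 0
  let h : (Set ℕ → Y) → Set ℕ → Y := fun z A =>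
    ((z A).1, fun n => g n A ((z {n}).1, (z A).1) - (z A).2 n)
  have hh : Continuous h := continuous_pi fun A => Continuous.prodMk (by fun_prop)
    (continuous_pi fun n => ((continuous_of_discreteTopology (f := g n A)).comp
      (by fun_prop)).sub (by fun_prop))
  refine ⟨Set ℕ → Y, inferInstance, inferInstance, inferInstance, ?_, h, hh, fun z => by simp [h],
    fun Γ φ hφ hd hA => ?_⟩
  · let _ : MetricSpace Y := metrizableSpaceMetric Y
    let y : Y := (false, 0)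
    let φ : (Set ℕ → Y) → Set ℕ × ℕ → ℝ := fun z q =>
      dist (z q.1) (denseSeq Y q.2) - dist y (denseSeq Y q.2)
    refine ⟨_, φ, (Continuous.isClosedEmbedding (by fun_prop) fun z w e => funext fun A =>
      ?_).isEmbedding, dense_iff_inter_open.2 fun U hU ⟨z, hz⟩ => ?_⟩
    · have := congrFun ((denseRange_denseSeq Y).equalizer (g := fun t => dist (z A) t)
        (h := fun t => dist (w A) t) (by fun_prop) (by fun_prop)
        (funext fun n => sub_left_inj.1 (congrFun e (A, n)))) (w A)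
      simpa using this
    · obtain ⟨I, u, u1, u2⟩ := isOpen_pi_iff.1 hU z hz
      refine ⟨fun A => if A ∈ I then z A else y, u2 fun A hA => ?_,
        (I.countable_toSet.prod countable_univ).mono fun q hq =>
          mem_prod.2 ⟨not_not.1 fun e => hq ?_, mem_univ _⟩⟩
      · simpa [Finset.mem_coe.1 hA] using (u1 A hA).2
      · simp [φ, mt Finset.mem_coe.2 e]
  let d : ℕ → Set ℕ → Y := fun n A => (decide (n ∈ A), 0)
  have h1 : ∀ n, {γ | φ (d n) γ ≠ 0}.Countable := fun n => by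
    have hc : IsClopen {z : Set ℕ → Y | (z {n}).1 = true} :=
      (isClopen_discrete {true}).preimage (f := fun z : Set ℕ → Y => (z {n}).1) (by fun_prop)
    obtain ⟨z, z1, z2, z3⟩ := fix φ hφ.continuous hφ.injective h hh hd hA (d n) (by
      refine funext fun A => Prod.ext rfl (funext fun m => ?_)
      by_cases e : n = m <;> simp [h, d, g, e]) _ (hc.2.mem_nhds (by simp [d])) hc.1
    have h2 : ∀ A m, g m A ((z {m}).1, (z A).1) = 0 ∧ (z A).2 m = 0 := fun A m => by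
      have e : g m A ((z {m}).1, (z A).1) = 2 * (z A).2 m := by
        rw [two_mul, ← sub_eq_iff_eq_add]
        exact congrFun (congrArg Prod.snd (congrFun z2 A)) m
      have e' : g m A ((z {m}).1, (z A).1) = 0 := by_contra fun hn => by
        have : (1 : ℤ_[2]) = ((2 : ℕ) : ℤ_[2]) * (z A).2 m := by
          simp only [g] at hn e
          split_ifs at hn e
          exacts [e, absurd rfl hn]
        exact PadicInt.irreducible_p.not_isUnit (IsUnit.of_mul_eq_one _ this.symm)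
      exact ⟨e', by simpa [e'] using e⟩
    refine (?_ : z = d n) ▸ z3
    refine funext fun A => Prod.ext (not_not.1 fun e => ?_) (funext fun m => (h2 A m).2)
    exact one_ne_zero ((if_pos ⟨z1, e⟩).symm.trans (h2 A n).1)
  let C := ⋃ n, {γ | φ (d n) γ ≠ 0}
  have : Countable C := (countable_iUnion h1).to_subtype
  let ψ : (Set ℕ → Y) → C → ℝ := fun z γ => φ z γ
  have hψ : Continuous ψ := continuous_pi fun γ => (continuous_apply _).comp hφ.continuous
  obtain ⟨p, -, s, s1, s2⟩ := (isCompact_range hψ).tendsto_subseq (x := fun n => ψ (d n))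
    fun n => ⟨_, rfl⟩
  have h3 : Tendsto (fun k => φ (d (s k))) atTop (𝓝 fun γ => if e : γ ∈ C then p ⟨γ, e⟩ else 0) :=
    tendsto_pi_nhds.2 fun γ => by
      split_ifs with e
      · exact tendsto_pi_nhds.1 s2 ⟨γ, e⟩
      · exact tendsto_const_nhds.congr fun k => (not_not.1 fun e' => e (mem_iUnion.2 ⟨_, e'⟩)).symm
  obtain ⟨z, hz⟩ := (isCompact_range hφ.continuous).isClosed.mem_of_tendsto h3
    (.of_forall fun _ => ⟨_, rfl⟩)
  have h4 := tendsto_pure.1 (nhds_discrete Bool ▸ (continuous_fst.tendsto _).comp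
    (tendsto_pi_nhds.1 (hφ.tendsto_nhds_iff.2 (hz ▸ h3)) (s '' {k | Even k})))
  obtain ⟨N, hN⟩ := eventually_atTop.1 h4
  have := (hN (2 * N) (by omega)).trans (hN (2 * N + 1) (by omega)).symm
  simp [d, s1.injective.eq_iff] at this

end Pool.Agent.H25.Vald
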