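import Mathlib
import Pool.Agent.H25.FreeSet
import Pool.Agent.H25.Aron

set_option autoImplicit false

namespace Pool.Agent.H25.ValdLine

open Set Filter Topology Function
open Cardinal (aleph aleph0)

variable {Γ : Type} {L : Set (Γ → ℝ)}

theorem co (γ : Γ) : Continuous fun w : L => w.1 γ := (continuous_apply γ).comp continuous_subtype_val

theorem two (hL : IsClosed L) (hd : Dense {a : L | (support a.1).Countable}) (U : Bool → Set L)
    (hU : ∀ i, IsOpen (U i)) (v : L) (hv : ∀ i, v ∈ closure (U i)) :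
    ∃ z : L, ∀ i, ∃ D ⊆ U i, D.Countable ∧ z ∈ closure D := by
  classical
  have h1 : ∀ i (q : Finset Γ × ℕ), ∃ a ∈ U i, (support a.1).Countable ∧
      ∀ γ ∈ q.1, dist (a.1 γ) (v.1 γ) < 1 / ((q.2 : ℝ) + 1) := fun i q => by
    have ho : IsOpen (⋂ γ ∈ q.1, {a : L | dist (a.1 γ) (v.1 γ) < 1 / ((q.2 : ℝ) + 1)}) :=
      isOpen_biInter_finset fun γ _ => isOpen_lt ((co γ).dist continuous_const) continuous_const
    obtain ⟨a, a1, a2⟩ := hd.inter_open_nonempty _ (ho.inter (hU i)) (mem_closure_iff.1 (hv i) _ ho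
      (mem_iInter₂.2 fun γ _ => by simpa using Nat.one_div_pos_of_nat (n := q.2) (α := ℝ)))
    exact ⟨a, a1.2, a2, fun γ h => mem_iInter₂.1 a1.1 γ h⟩
  choose a a1 a2 a3 using h1
  obtain ⟨C, C1, C2⟩ := FreeSet.closing (fun T => ⋃ k, ⋃ i, support (a i (T, k)).1)
    fun T => countable_iUnion fun k => countable_iUnion fun i => a2 _ _
  have := C1.to_subtype
  let b : Bool → Finset C × ℕ → L := fun i q => a i (q.1.map (Embedding.subtype _), q.2)
  have h2 : ∀ i, Tendsto (fun q => (b i q).1) atTop (𝓝 (C.indicator v.1)) := fun i =>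
    tendsto_pi_nhds.2 fun γ => by
      by_cases h : γ ∈ C
      · rw [indicator_of_mem h, tendsto_iff_dist_tendsto_zero]
        refine squeeze_zero' (.of_forall fun _ => dist_nonneg) ((eventually_ge_atTop
          ({⟨γ, h⟩}, 0)).mono fun q hq => (a3 i _ γ (Finset.mem_map.2 ⟨_, hq.1
            (Finset.mem_singleton_self _), rfl⟩)).le)
          (tendsto_one_div_add_atTop_nhds_zero_nat.comp ?_)
        exact prod_atTop_atTop_eq (α := Finset C) (β := ℕ) ▸ tendsto_snd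
      · rw [indicator_of_notMem h]
        refine tendsto_const_nhds.congr fun q => (not_not.1 fun e => h (C2 _ (fun t ht => ?_)
          (mem_iUnion₂.2 ⟨_, _, e⟩))).symm
        obtain ⟨s, -, rfl⟩ := Finset.mem_map.1 ht
        exact s.2
  let z : L := ⟨_, hL.mem_of_tendsto (h2 true) (.of_forall fun q => (b _ q).2)⟩
  exact ⟨z, fun i => ⟨range (b i), range_subset_iff.2 fun q => a1 _ _, countable_range _,
    mem_closure_of_tendsto (tendsto_subtype_rng.2 (h2 i)) (.of_forall fun _ => ⟨_, rfl⟩)⟩⟩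

def M {K : Type} [LinearOrder K] (f : L → K) (S : Set Γ) : Set K :=
  {x | ∃ v : L, support v.1 ⊆ S ∧ f v = x ∧ ∀ᶠ w in 𝓝 v, support w.1 ⊆ S → f w ≤ x}

theorem count {K : Type} [LinearOrder K] (f : L → K) {S : Set Γ} (hS : Cardinal.mk S ≤ aleph 1) :
    Cardinal.mk (M f S) ≤ aleph 1 := by
  classical
  let B : List (S × ℚ × ℚ) → Set L := fun l => {w | ∀ p ∈ l, w.1 p.1 ∈ Ioo (p.2.1 : ℝ) p.2.2}
  have h1 : ∀ x : M f S, ∃ l, IsGreatest (f '' {w | w ∈ B l ∧ support w.1 ⊆ S}) x := by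
    rintro ⟨x, v, v1, v2, v3⟩
    obtain ⟨_, o0, ⟨O, o1, rfl⟩, o2⟩ := mem_nhds_iff.1 v3
    obtain ⟨I, u, u1, u2⟩ := isOpen_pi_iff.1 o1 _ o2
    have : ∀ γ ∈ I, ∃ p : ℚ × ℚ, v.1 γ ∈ Ioo (p.1 : ℝ) p.2 ∧ Ioo (p.1 : ℝ) p.2 ⊆ u γ := by
      intro γ hγ
      obtain ⟨a, b, c, d⟩ := mem_nhds_iff_exists_Ioo_subset.1 ((u1 γ hγ).1.mem_nhds (u1 γ hγ).2)
      obtain ⟨a', a1, a2⟩ := exists_rat_btwn c.1
      obtain ⟨b', b1, b2⟩ := exists_rat_btwn c.2
      exact ⟨(a', b'), ⟨a2, b1⟩, (Ioo_subset_Ioo a1.le b2.le).trans d⟩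
    choose! p p1 p2 using this
    refine ⟨(I.subtype (· ∈ S)).toList.map fun γ => (γ, p γ), ⟨v, ⟨fun q hq => ?_, v1⟩, v2⟩, ?_⟩
    · obtain ⟨γ, hγ, rfl⟩ := List.mem_map.1 hq
      exact p1 _ (by simpa using hγ)
    · rintro _ ⟨w, ⟨w1, w2⟩, rfl⟩
      refine o0 (u2 fun γ hγ => ?_) w2
      by_cases h : γ ∈ S
      · exact p2 γ hγ (w1 (⟨γ, h⟩, p γ) (List.mem_map.2 ⟨⟨γ, h⟩, by simpa using hγ, rfl⟩))
      · rw [notMem_support.1 (mt (@w2 γ) h), ← notMem_support.1 (mt (@v1 γ) h)]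
        exact (u1 γ hγ).2
  choose l hl using h1
  refine (Cardinal.mk_le_of_injective (f := l) fun x y e =>
    Subtype.ext ((hl x).unique (e ▸ hl y))).trans ((Cardinal.mk_list_le_max _).trans
      (max_le (Cardinal.aleph0_le_aleph _) ?_))
  simpa using (mul_le_mul' hS (Cardinal.aleph0_le_aleph 1)).trans_eq
    (Cardinal.mul_eq_self (Cardinal.aleph0_le_aleph _))

theorem un {ι α : Type} (s : ι → Set α) (h : Cardinal.mk ι ≤ aleph 1)
    (hs : ∀ i, Cardinal.mk (s i) ≤ aleph 1) : Cardinal.mk (⋃ i, s i) ≤ aleph 1 :=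
  (Cardinal.mk_iUnion_le _).trans ((mul_le_mul' h (ciSup_le' hs)).trans_eq
    (Cardinal.mul_eq_self (Cardinal.aleph0_le_aleph _)))

theorem ct {α : Type} {s : Set α} (h : s.Countable) : Cardinal.mk s ≤ aleph 1 :=
  (Cardinal.le_aleph0_iff_set_countable.2 h).trans (Cardinal.aleph0_le_aleph _)

theorem cl (S : Set Γ) : IsClosed {v : L | support v.1 ⊆ S} := by
  simp only [support_subset_iff', ofPred_forall]
  exact isClosed_iInter fun γ => isClosed_iInter fun _ => isClosed_eq (co γ) continuous_const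

variable {K : Type} [LinearOrder K] [TopologicalSpace K] [OrderTopology K]

theorem step [CompactSpace L] (f : L → K) (hf : Continuous f) (S : Set Γ)
    (hS : Cardinal.mk S ≤ aleph 1) : ∃ S' : Set Γ, Cardinal.mk S' ≤ aleph 1 ∧ ∀ a : L,
      (support a.1).Countable → (∀ v : L, support v.1 ⊆ S → f v ≠ f a) →
      ∃ γ ∈ support a.1, γ ∈ S' ∧ γ ∉ S := by
  classical
  obtain ⟨F, hF⟩ := zorn_subset {F : Set L | (∀ a ∈ F, (support a.1).Countable ∧
      ∀ v : L, support v.1 ⊆ S → f v ≠ f a) ∧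
      F.Pairwise fun a b => Disjoint (support a.1 \ S) (support b.1 \ S)} fun c hc hch =>
    ⟨⋃₀ c, ⟨fun a ⟨B, h1, h2⟩ => (hc h1).1 a h2, (pairwise_sUnion hch.directedOn).2
      fun B hB => (hc hB).2⟩, fun _ => subset_sUnion_of_mem⟩
  refine ⟨⋃ a : F, support a.1.1, un _ ?_ fun a : F => ct (hF.prop.1 _ a.2).1, fun a a1 a2 => ?_⟩
  · let G : Option (M f S) → Set L := fun o => {a | a ∈ F ∧ ∀ v : L, support v.1 ⊆ S →
      (f v < f a ↔ ∃ x ∈ o, f v ≤ x.1)}
    refine (Cardinal.mk_le_mk_of_subset (t := ⋃ o, G o) fun a ha => mem_iUnion.2 ?_).trans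
      (un _ ?_ fun o => ct ?_)
    · have h1 := fun v hv => (hF.prop.1 a ha).2 v hv
      by_cases h : {v : L | support v.1 ⊆ S ∧ f v ≤ f a}.Nonempty
      · obtain ⟨v, v1, v2⟩ := ((cl S).inter (isClosed_le hf continuous_const)).isCompact.exists_isMaxOn
          h hf.continuousOn
        have v3 := v1.2.lt_of_ne (h1 v v1.1)
        exact ⟨some ⟨f v, v, v1.1, rfl, ((isOpen_lt hf continuous_const).eventually_mem v3).mono
          fun w hw h => v2 ⟨h, le_of_lt hw⟩⟩, ha, fun w hw => ⟨fun h => ⟨_, rfl, v2 ⟨hw, h.le⟩⟩,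
            fun ⟨x, x1, x2⟩ => x2.trans_lt (Option.some.inj x1 ▸ v3)⟩⟩
      · exact ⟨none, ha, fun w hw => ⟨fun e => absurd ⟨w, hw, e.le⟩ h, by simp⟩⟩
    · rw [Cardinal.mk_option]
      exact Cardinal.add_le_of_le (Cardinal.aleph0_le_aleph _) (count f hS)
        (Cardinal.one_le_aleph0.trans (Cardinal.aleph0_le_aleph _))
    have h1 : ∀ a ∈ G o, ∀ b ∈ G o, {c | c ∈ G o ∧ f c ∈ Icc (f a) (f b)}.Finite := by
      intro a ha b hb
      by_contra hn
      let s := Set.Infinite.natEmbedding _ hn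
      obtain ⟨z, -, hz⟩ := isCompact_univ.ultrafilter_le_nhds ((hyperfilter ℕ).map fun n => (s n).1)
        (by simp)
      have z1 : f z ∈ Icc (f a) (f b) :=
        (isClosed_Icc.preimage hf).mem_of_tendsto hz (.of_forall fun n => (s n).2.2)
      have z2 : support z.1 ⊆ S := fun γ hγ => not_not.1 fun h => hγ
        ((isClosed_eq (co γ) continuous_const).mem_of_tendsto hz
          (hyperfilter_le_cofinite (Set.Subsingleton.finite fun m hm n hn => not_not.1 fun e =>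
            disjoint_left.1 (hF.prop.2 (s m).2.1.1 (s n).2.1.1 fun e' =>
              e (s.injective (Subtype.ext e'))) ⟨hm, h⟩ ⟨hn, h⟩)))
      exact z1.1.not_gt ((ha.2 z z2).2 ((hb.2 z z2).1 (z1.2.lt_of_ne ((hF.prop.1 b hb.1).2 z z2))))
    let _ : LocallyFiniteOrder (f '' G o) := .ofFiniteIcc fun ⟨_, a, ha, a'⟩ ⟨_, b, hb, b'⟩ =>
      (((h1 a ha b hb).image f).preimage Subtype.val_injective.injOn).subset
        fun ⟨_, c, hc, c'⟩ h => ⟨c, ⟨hc, by subst a' b' c'; exact h⟩, c'⟩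
    refine ((countable_iUnion fun t : f '' G o => (h1 _ t.2.choose_spec.1 _
      t.2.choose_spec.1).countable)).mono fun c hc => mem_iUnion.2 ⟨⟨_, c, hc, rfl⟩, And.intro hc ?_⟩
    simp [(⟨c, hc, rfl⟩ : f c ∈ f '' G o).choose_spec.2]
  · by_contra hn
    push Not at hn
    have h0 : ∀ b ∈ F, Disjoint (support a.1 \ S) (support b.1 \ S) := fun b hb => disjoint_left.2
      fun γ h h' => h.2 (hn γ h.1 (mem_iUnion.2 ⟨⟨b, hb⟩, h'.1⟩))
    have h1 : a ∈ F := hF.mem_of_prop_insert ⟨forall_mem_insert.2 ⟨⟨a1, a2⟩, hF.prop.1⟩,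
      hF.prop.2.insert fun b hb _ => ⟨h0 b hb, (h0 b hb).symm⟩⟩
    exact a2 a (fun γ h => hn γ h (mem_iUnion.2 ⟨⟨a, h1⟩, h⟩)) rfl

theorem onto [CompactSpace L] (hd : Dense {a : L | (support a.1).Countable}) (f : L → K)
    (hf : Continuous f) : ∃ S : Set Γ, Cardinal.mk S ≤ aleph 1 ∧
      ∀ a : L, ∃ v : L, support v.1 ⊆ S ∧ f v = f a := by
  choose! P P1 P2 using step f hf
  obtain ⟨T, hT⟩ := Aron.trec (J := Aron.W) (fun _ (S : Set Γ) => Cardinal.mk S ≤ aleph 1)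
    (fun _ S S' => S ∪ P S ⊆ S') fun j g h1 _ => ⟨⋃ i, g i ∪ P (g i), un _
      (ct ((Aron.iic j).mono Iio_subset_Iic_self)) fun i => (Cardinal.mk_union_le _ _).trans
        (Cardinal.add_le_of_le (Cardinal.aleph0_le_aleph _) (h1 i) (P1 _ (h1 i))),
      fun i => subset_iUnion (fun i => g i ∪ P (g i)) i⟩
  refine ⟨⋃ j, T j, un _ Aron.mkW.le fun j => (hT j).1, fun a => ?_⟩
  refine closure_minimal (s := {a : L | (support a.1).Countable}) (fun a ha => ?_)
    (((cl _).isCompact.image hf).isClosed.preimage hf) (hd a)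
  by_contra hn
  choose γ γ1 γ2 γ3 using fun j => P2 _ (hT j).1 a ha fun v hv e =>
    hn ⟨v, hv.trans (subset_iUnion T j), e⟩
  have h1 : Injective γ := fun i j e => by
    rcases lt_trichotomy i j with h | h | h
    exacts [absurd ((hT j).2 i h (.inr (γ2 i))) (e ▸ γ3 j), h,
      absurd ((hT i).2 j h (.inr (γ2 j))) (e ▸ γ3 i)]
  simpa using Aron.ctb.1 ((ha.preimage h1).mono (show univ ⊆ _ from fun j _ => γ1 j))

theorem main (hL : IsCompact L) (hd : L ⊆ closure (L ∩ {x | (support x).Countable})) (f : L → K)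
    (hf : Continuous f) (hs : Surjective f) :
    Cardinal.mk {x : K | ¬ (𝓝 x).IsCountablyGenerated} ≤ aleph 1 := by
  have := isCompact_iff_compactSpace.1 hL
  have hd' : Dense {a : L | (support a.1).Countable} :=
    Subtype.dense_iff.2 (hd.trans (closure_mono fun x hx => ⟨⟨x, hx.1⟩, hx.2, rfl⟩))
  obtain ⟨S, S1, S2⟩ := onto hd' f hf
  refine (Cardinal.mk_le_mk_of_subset (t := M f S ∪ M (K := Kᵒᵈ) f S) fun x hx => ?_).trans
    ((Cardinal.mk_union_le _ _).trans (Cardinal.add_le_of_le (Cardinal.aleph0_le_aleph _)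
      (count f S1) (count (K := Kᵒᵈ) f S1)))
  obtain ⟨a, rfl⟩ := hs x
  obtain ⟨v, v1, v2⟩ := S2 a
  by_contra hn
  obtain ⟨z, hz⟩ := two hL.isClosed hd' (fun i => bif i then {w | f w < f a} else {w | f a < f w})
    (fun i => by cases i <;> exact isOpen_lt (by fun_prop) (by fun_prop)) v fun i => by
      cases i <;> refine mem_closure_iff_frequently.2 fun h => hn ?_
      exacts [.inl ⟨v, v1, v2, h.mono fun w hw _ => not_lt.1 hw⟩,
        .inr ⟨v, v1, v2, h.mono fun w hw _ => not_lt.1 hw⟩]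
  obtain ⟨D, d1, d2, d3⟩ := hz true
  obtain ⟨E, e1, e2, e3⟩ := hz false
  have h1 : f z = f a := le_antisymm (closure_lt_subset_le hf continuous_const (closure_mono d1 d3))
    (closure_lt_subset_le continuous_const hf (closure_mono e1 e3))
  refine hx (HasCountableBasis.isCountablyGenerated (p := fun p => p ∈ D ×ˢ E)
    (s := fun p => Ioo (f p.1) (f p.2)) ⟨⟨fun U => ⟨fun hU => ?_, fun ⟨p, p1, p2⟩ =>
      mem_of_superset (Ioo_mem_nhds (d1 p1.1) (e1 p1.2)) p2⟩⟩, d2.prod e2⟩)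
  obtain ⟨l, u, h2, h3⟩ := (mem_nhds_iff_exists_Ioo_subset' ⟨_, d1 (closure_nonempty_iff.1
    ⟨z, d3⟩).some_mem⟩ ⟨_, e1 (closure_nonempty_iff.1 ⟨z, e3⟩).some_mem⟩).1 hU
  obtain ⟨b, b1, b2⟩ := mem_closure_iff.1 d3 _ (isOpen_Ioo.preimage hf) (h1 ▸ h2 : f z ∈ Ioo l u)
  obtain ⟨c, c1, c2⟩ := mem_closure_iff.1 e3 _ (isOpen_Ioo.preimage hf) (h1 ▸ h2 : f z ∈ Ioo l u)
  exact ⟨(b, c), ⟨b2, c2⟩, (Ioo_subset_Ioo b1.1.le c1.2.le).trans h3⟩

end Pool.Agent.H25.ValdLine
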