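import Mathlib
import Pool.Agent.H25.Aron

set_option autoImplicit false

namespace Pool.Agent.H25.ValdLine2

open Set Filter Topology Function OrderDual
open Pool.Agent.H25.Aron (W)

variable {L : Type} [LinearOrder L]

def Lc (p : L) : Prop := ∃ E : Set L, E.Countable ∧ ∀ a < p, ∃ e ∈ E, a ≤ e ∧ e < p

def Acc (D : Set L) (x : L) : Prop := (∃ u, u < x) ∧ ∀ u < x, ∃ d ∈ D, u < d ∧ d < x

def Itp (D : Set L) : Prop := ∀ d ∈ D, ∀ e ∈ D, (Ioo d e).Nonempty → (D ∩ Ioo d e).Nonempty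

variable [TopologicalSpace L] [OrderTopology L]

def Good (D : Set L) : Prop := ∀ a b, a < b → (D ∩ Icc a b).Subsingleton →
  IsClopen {y | (D ∩ Icc a y).Subsingleton} ∨ IsClopen {x | (D ∩ Icc x b).Subsingleton}

omit [LinearOrder L] [OrderTopology L] in
theorem dual [h : CompactSpace L] : CompactSpace Lᵒᵈ := h

theorem lub [CompactSpace L] {s : Set L} (h : s.Nonempty) : ∃ z, IsLUB s z :=
  let ⟨z, hz⟩ := isClosed_closure.isCompact.exists_isGreatest h.closure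
  ⟨z, (isLUB_iff_of_subset_of_subset_closure subset_closure subset_rfl).2 hz.isLUB⟩

theorem lc {p : L} (U : ℕ → Set L) (h1 : ∀ n, U n ∈ 𝓝 p) (h2 : ∀ a ≠ p, ∃ n, a ∉ U n) : Lc p := by
  by_cases h : ∃ a, a < p
  · choose e e1 e2 using fun n => exists_Ioc_subset_of_mem_nhds (h1 n) h
    exact ⟨_, countable_range e, fun a ha => let ⟨n, hn⟩ := h2 a ha.ne
      ⟨_, ⟨n, rfl⟩, not_lt.1 fun h => hn (e2 n ⟨h, ha.le⟩), e1 n⟩⟩
  · exact ⟨∅, countable_empty, fun a ha => absurd ⟨a, ha⟩ h⟩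

theorem half [CompactSpace L]
    (h : ∀ p : L, (Lc p ∧ Lc (toDual p)) ∨ (∃ q, p ⋖ q) ∨ ∃ q, q ⋖ p) {U : Set L} {p : L}
    (hU : U ∈ 𝓝 p) (hp : ¬ Lc p) : ∃ s ∈ U, Lc s ∧ Lc (toDual s) := by
  obtain ⟨a, a1, a2⟩ := exists_Ioc_subset_of_mem_nhds hU (by_contra fun hn =>
    hp ⟨∅, countable_empty, fun a ha => absurd ⟨a, ha⟩ hn⟩)
  have h1 : ∀ c : Iio p, ∃ c' : Iio p, c < c' := fun c => by_contra fun hn =>
    hp ⟨{c.1}, countable_singleton _, fun b hb => ⟨_, rfl, not_lt.1 fun e => hn ⟨⟨b, hb⟩, e⟩, c.2⟩⟩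
  choose g hg using h1
  let u : ℕ → L := fun n => (g^[n] ⟨a, a1⟩).1
  have h2 : ∀ n, u n < u (n + 1) := fun n => by
    simp only [u, iterate_succ_apply']
    exact hg _
  obtain ⟨s, hs⟩ := lub (range_nonempty u)
  have h3 : ∀ n, u n < s := fun n => (h2 n).trans_le (hs.1 ⟨_, rfl⟩)
  have h4 : ∀ b < s, ∃ e ∈ range u, b < e := fun b hb => (lt_isLUB_iff hs).1 hb
  refine ⟨s, a2 ⟨h3 0, hs.2 (forall_mem_range.2 fun n => (g^[n] ⟨a, a1⟩).2.le)⟩, ?_⟩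
  rcases h s with e | ⟨q, e⟩ | ⟨q, e⟩
  · exact e
  · exact ⟨⟨_, countable_range u, fun b hb => let ⟨_, ⟨n, e1⟩, e2⟩ := h4 b hb
      ⟨_, ⟨n, e1⟩, e2.le, e1 ▸ h3 n⟩⟩, {toDual q}, countable_singleton _, fun b hb =>
        ⟨_, rfl, e.ge_of_gt hb, e.lt⟩⟩
  · obtain ⟨_, ⟨n, rfl⟩, e2⟩ := h4 q e.lt
    exact absurd (h3 n) (e.2 e2)

theorem side [CompactSpace L] {D : Set L} (h : Itp D) (a : L) : ∃ y,
    {y | (D ∩ Icc a y).Subsingleton} = Iic y ∧ (IsOpen (Iic y) ∨ Acc (L := Lᵒᵈ) D y) := by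
  obtain ⟨y, hy⟩ := lub (s := {y | (D ∩ Icc a y).Subsingleton})
    ⟨a, fun _ h1 _ h2 => (h1.2.2.antisymm h1.2.1).trans (h2.2.1.antisymm h2.2.2)⟩
  have h1 : ∀ d ∈ D ∩ Icc a y, ∀ e ∈ D ∩ Icc a y, ¬ d < e := fun d hd e he hde => by
    by_cases h2 : (Ioo d e).Nonempty
    · obtain ⟨c, c1, c2⟩ := h d hd.1 e he.1 h2
      obtain ⟨z, z1, z2⟩ := (lt_isLUB_iff hy).1 (c2.2.trans_le he.2.2)
      exact c2.1.ne (z1 ⟨hd.1, hd.2.1, (c2.1.trans z2).le⟩ ⟨c1, hd.2.1.trans c2.1.le, z2.le⟩)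
    · obtain ⟨z, z1, z2⟩ := (lt_isLUB_iff hy).1 (hde.trans_le he.2.2)
      exact hde.ne (z1 ⟨hd.1, hd.2.1, z2.le⟩ ⟨he.1, he.2.1, not_lt.1 fun e' => h2 ⟨z, z2, e'⟩⟩)
  have h2 : ∀ z, (∀ d ∈ D, d ≤ z → d ≤ y) → (D ∩ Icc a z).Subsingleton := fun z hz d hd e he =>
    have a1 : d ∈ D ∩ Icc a y := ⟨hd.1, hd.2.1, hz d hd.1 hd.2.2⟩
    have a2 : e ∈ D ∩ Icc a y := ⟨he.1, he.2.1, hz e he.1 he.2.2⟩
    le_antisymm (not_lt.1 (h1 _ a2 _ a1)) (not_lt.1 (h1 _ a1 _ a2))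
  refine ⟨y, Subset.antisymm hy.1 fun z hz => h2 z fun _ _ e => e.trans hz, or_iff_not_imp_left.2
    fun hn => ⟨by_contra fun h3 => hn ?_, fun u hu => by_contra fun h3 => hn ?_⟩⟩
  · rw [eq_univ_of_forall (s := Iic y) fun z => not_lt.1 fun e => h3 ⟨z, e⟩]
    exact isOpen_univ
  · rw [show Iic y = Iio (ofDual u) from ext fun z => ⟨fun e => e.trans_lt hu, fun e => hy.1
      (h2 z fun d d1 d2 => not_lt.1 fun d3 => h3 ⟨d, d1, d2.trans_lt e, d3⟩)⟩]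
    exact isOpen_Iio

theorem good [CompactSpace L] {D : Set L} (h : Itp D) (h' : ∀ x y, x < y → Acc D x →
    Acc (L := Lᵒᵈ) D y → (D ∩ Icc x y).Nontrivial) : Good D := by
  intro a b hab hs
  have := dual (L := L)
  obtain ⟨y, y1, y2⟩ := side h a
  obtain ⟨x, x1, x2⟩ := side (L := Lᵒᵈ) (D := D) (fun d hd e he ⟨c, hc⟩ =>
    let ⟨c, c1, c2⟩ := h e he d hd ⟨c, hc.2, hc.1⟩; ⟨c, c1, c2.2, c2.1⟩) b
  have x3 : {x | (D ∩ Icc x b).Subsingleton} = Ici (ofDual x) := by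
    refine Eq.trans (ext fun z => ?_) x1
    exact iff_of_eq (congrArg Set.Subsingleton (ext fun _ => and_congr_right fun _ => and_comm))
  rw [y1, x3]
  rcases y2 with y2 | y2
  · exact .inl ⟨isClosed_Iic, y2⟩
  rcases x2 with x2 | x2
  · exact .inr ⟨isClosed_Ici, x2⟩
  have a1 : ofDual x ≤ a := x3.le hs
  have b1 : b ≤ y := y1.le hs
  have a2 : (D ∩ Icc (ofDual x) b).Subsingleton := x3.ge self_mem_Ici
  have b2 : (D ∩ Icc a y).Subsingleton := y1.ge self_mem_Iic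
  obtain ⟨d, hd, e, he, hde⟩ := (h' _ y (a1.trans_lt (hab.trans_le b1)) x2 y2).exists_lt
  exfalso
  by_cases h1 : a ≤ d
  · exact hde.ne (b2 ⟨hd.1, h1, hd.2.2⟩ ⟨he.1, h1.trans hde.le, he.2.2⟩)
  by_cases h2 : e ≤ b
  · exact hde.ne (a2 ⟨hd.1, hd.2.1, hde.le.trans h2⟩ ⟨he.1, he.2.1, h2⟩)
  obtain ⟨c, c1, c2⟩ := h d hd.1 e he.1 ⟨a, not_le.1 h1, hab.trans (not_le.1 h2)⟩
  rcases le_total a c with h3 | h3
  · exact c2.2.ne (b2 ⟨c1, h3, c2.2.le.trans he.2.2⟩ ⟨he.1, h3.trans c2.2.le, he.2.2⟩)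
  · exact c2.1.ne (a2 ⟨hd.1, hd.2.1, c2.1.le.trans (h3.trans hab.le)⟩
      ⟨c1, hd.2.1.trans c2.1.le, h3.trans hab.le⟩)

theorem crit [CompactSpace L] (D : W → Set L) (h1 : ∀ α, (D α).Countable) (h2 : Monotone D)
    (h3 : ∀ p q, p < q → ∃ α, (D α ∩ Icc p q).Nontrivial) (h4 : ∀ α, Good (⋃ β < α, D β))
    (h5 : ∀ p : L, (Lc p ∧ Lc (toDual p)) ∨ (∃ q, p ⋖ q) ∨ ∃ q, q ⋖ p) :
    ∃ (Γ : Type) (h : L → Γ → ℝ), IsEmbedding h ∧ Dense (h ⁻¹' {x | {γ | x γ ≠ 0}.Countable}) := by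
  have := dual (L := L)
  have : Nonempty W := ⟨(Aron.bnd countable_empty).choose⟩
  have h6 : ∀ γ : W × L × L, ∃ h : C(L, ℝ), (∀ p, h p ≠ 0 → γ.2 ∈ D γ.1 ×ˢ D γ.1 ∧
      ((∃ a < p, ((⋃ β < γ.1, D β) ∩ Icc a p).Subsingleton) ∨
        ∃ b > p, ((⋃ β < γ.1, D β) ∩ Icc p b).Subsingleton)) ∧
      (γ.2 ∈ D γ.1 ×ˢ D γ.1 → γ.2.1 < γ.2.2 → ∀ p ≤ γ.2.1, ∀ q ≥ γ.2.2,
        ((⋃ β < γ.1, D β) ∩ Icc p q).Subsingleton → h p ≠ h q) := by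
    rintro ⟨α, a, b⟩
    by_cases h : (a, b) ∈ D α ×ˢ D α ∧ a < b ∧ ((⋃ β < α, D β) ∩ Icc a b).Subsingleton
    · rcases h4 α a b h.2.1 h.2.2 with e | e
      · obtain ⟨f, f1, f2, -⟩ := exists_continuous_zero_one_of_isClosed
          (isClosed_Iic.union e.compl.1) (isClosed_Ici.inter e.1) (disjoint_left.2
            fun p hp hq => hp.elim (fun t => h.2.1.not_ge (ge_trans t hq.1)) fun t => t hq.2)
        refine ⟨f, fun p hp => ⟨h.1, .inl ⟨a, not_le.1 fun t => hp (f1 (.inl t)),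
          not_not.1 fun t => hp (f1 (.inr t))⟩⟩, fun _ _ p hp q hq hs => ?_⟩
        rw [f1 (.inl hp), f2 ⟨hq, hs.anti (inter_subset_inter_right _ (Icc_subset_Icc_left hp))⟩]
        exact zero_ne_one
      · obtain ⟨f, f1, f2, -⟩ := exists_continuous_zero_one_of_isClosed
          (isClosed_Ici.union e.compl.1) (isClosed_Iic.inter e.1) (disjoint_left.2
            fun p hp hq => hp.elim (fun t => h.2.1.not_ge (le_trans t hq.1)) fun t => t hq.2)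
        refine ⟨f, fun p hp => ⟨h.1, .inr ⟨b, not_le.1 fun t => hp (f1 (.inl t)),
          not_not.1 fun t => hp (f1 (.inr t))⟩⟩, fun _ _ p hp q hq hs => ?_⟩
        rw [f1 (.inl hq), f2 ⟨hp, hs.anti (inter_subset_inter_right _ (Icc_subset_Icc_right hq))⟩]
        exact one_ne_zero
    · exact ⟨0, fun _ e => absurd rfl e, fun a1 a2 p hp q hq hs => absurd ⟨a1, a2,
        hs.anti (inter_subset_inter_right _ (Icc_subset_Icc hp hq))⟩ h⟩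
  choose h g1 g2 using h6
  have h7 : ∀ p q, p < q → ∃ γ, h γ p ≠ h γ q := fun p q hpq => by
    obtain ⟨α, a1, a2⟩ := wellFounded_lt.has_min {α | (D α ∩ Icc p q).Nontrivial} (h3 p q hpq)
    obtain ⟨a, ha, b, hb, hab⟩ := a1.exists_lt
    refine ⟨(α, a, b), g2 _ ⟨ha.1, hb.1⟩ hab p ha.2.1 q hb.2.2 fun c hc d hd => not_not.1 fun e => ?_⟩
    obtain ⟨β, b1, b2⟩ := mem_iUnion₂.1 hc.1
    obtain ⟨δ, d1, d2⟩ := mem_iUnion₂.1 hd.1
    exact a2 (max β δ) ⟨c, ⟨h2 (le_max_left _ _) b2, hc.2⟩, d, ⟨h2 (le_max_right _ _) d2, hd.2⟩, e⟩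
      (max_lt b1 d1)
  refine ⟨_, fun p γ => h γ p, (Continuous.isClosedEmbedding (continuous_pi fun γ =>
    (h γ).continuous) fun p q e => not_not.1 fun hn => ?_).isEmbedding,
    Dense.mono (s₁ := {p | Lc p ∧ Lc (toDual p)}) ?_ (dense_iff_inter_open.2 fun U hU ⟨p, hp⟩ => ?_)⟩
  · rcases lt_or_gt_of_ne hn with t | t
    exacts [let ⟨γ, g⟩ := h7 _ _ t; g (congrFun e γ), let ⟨γ, g⟩ := h7 _ _ t; g (congrFun e γ).symm]
  · rintro p ⟨⟨E, e1, e2⟩, F, f1, f2⟩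
    choose! u hu using fun a => h3 a p
    choose! v hv using h3 p
    obtain ⟨α, hα⟩ := Aron.bnd ((e1.image u).union (f1.image v))
    refine ((Aron.iic α).biUnion (t := fun β _ => {β} ×ˢ D β ×ˢ D β) fun β _ =>
      (countable_singleton β).prod ((h1 β).prod (h1 β))).mono fun γ hγ => ?_
    refine mem_iUnion₂.2 ⟨γ.1, mem_Iic.2 (not_lt.1 fun t => ?_), rfl, (g1 γ p hγ).1⟩
    rcases (g1 γ p hγ).2 with ⟨a, a1, a2⟩ | ⟨a, a1, a2⟩
    · obtain ⟨e, b1, b2, b3⟩ := e2 a a1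
      exact (hu e b3).not_subsingleton (a2.anti (inter_subset_inter (subset_biUnion_of_mem
        (u := D) ((hα _ (.inl ⟨e, b1, rfl⟩)).trans t)) (Icc_subset_Icc_left b2)))
    · obtain ⟨e, b1, b2, b3⟩ := f2 (toDual a) a1
      exact (hv e b3).not_subsingleton (a2.anti (inter_subset_inter (subset_biUnion_of_mem
        (u := D) ((hα _ (.inr ⟨e, b1, rfl⟩)).trans t)) (Icc_subset_Icc_right b2)))
  · by_cases a1 : Lc p
    · by_cases a2 : Lc (toDual p)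
      · exact ⟨p, hp, a1, a2⟩
      · obtain ⟨s, s1, s2⟩ := half (L := Lᵒᵈ) (fun q => (h5 (ofDual q)).imp And.symm fun t =>
          t.symm.imp (fun ⟨r, e⟩ => ⟨toDual r, e.toDual⟩) fun ⟨r, e⟩ => ⟨toDual r, e.toDual⟩)
          (hU.mem_nhds hp) a2
        exact ⟨s, s1, s2.symm⟩
    · exact half h5 (hU.mem_nhds hp) a1

end Pool.Agent.H25.ValdLine2
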