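import Mathlib
import Pool.Agent.H25.ValdLine
import Pool.Agent.H25.ValdLine2

set_option autoImplicit false

namespace Pool.Agent.H25.ValdLine3

open Set Filter Topology Function OrderDual Pool.Agent.H25.ValdLine Pool.Agent.H25.ValdLine2
open Cardinal (aleph)
open Pool.Agent.H25.Aron (W)

theorem otop (L : Type) [LinearOrder L] [t : TopologicalSpace L] [OrderClosedTopology L]
    [c : CompactSpace L] : OrderTopology L := by
  have h1 : @Continuous L L t (Preorder.topology L) id :=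
    continuous_generateFrom_iff.2 (by rintro _ ⟨a, rfl | rfl⟩; exacts [isOpen_Ioi, isOpen_Iio])
  have h2 : @T2Space L (Preorder.topology L) := by
    let _ := Preorder.topology L
    have : OrderTopology L := ⟨rfl⟩
    infer_instance
  refine ⟨le_antisymm (continuous_id_iff_le.1 h1) fun U hU => ?_⟩
  have := @Continuous.isClosedMap L L t (Preorder.topology L) c h2 id h1 _
    (@IsOpen.isClosed_compl L t U hU)
  rw [image_id] at this
  exact (@isClosed_compl_iff L (Preorder.topology L) U).1 this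

variable {K : Type} [LinearOrder K] [TopologicalSpace K] [OrderTopology K] [CompactSpace K]

theorem split (X : Set K) : ∃ (L : Type) (_ : LinearOrder L) (_ : TopologicalSpace L)
    (_ : OrderTopology L) (_ : CompactSpace L) (π : L → K), Continuous π ∧ Surjective π ∧
    Monotone π ∧ (∀ p q r, p < q → q < r → π p < π r) ∧
    (∀ z ∈ X, ∃ p q, p < q ∧ π p = z ∧ π q = z) ∧ ∀ p q, p < q → π p = π q → π p ∈ X := by
  classical
  let L := {p : K × (X → Bool) | ∀ z : X, (p.1 ≤ z.1 ∨ p.2 z = true) ∧ (z.1 ≤ p.1 ∨ p.2 z = false)}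
  have hc : ∀ (z : X) b, IsClosed {p : K × (X → Bool) | p.2 z = b} := fun z b =>
    isClosed_eq ((continuous_apply z).comp continuous_snd) continuous_const
  have h0 : IsClosed L := by
    simp only [L, ofPred_forall]
    exact isClosed_iInter fun z => ((isClosed_le continuous_fst continuous_const).union
      (hc z _)).inter ((isClosed_le continuous_const continuous_fst).union (hc z _))
  have h1 : ∀ p q : L, p.1.1 = q.1.1 → ∀ z, p.1.2 z ≠ q.1.2 z → z.1 = p.1.1 := by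
    intro p q e z hz
    rcases lt_trichotomy z.1 p.1.1 with h | h | h
    · exact absurd (((p.2 z).1.resolve_left h.not_ge).trans
        ((q.2 z).1.resolve_left (e ▸ h).not_ge).symm) hz
    · exact h
    · exact absurd (((p.2 z).2.resolve_left h.not_ge).trans
        ((q.2 z).2.resolve_left (e ▸ h).not_ge).symm) hz
  have h2 : ∀ p q : L, p.1.1 < q.1.1 → p ≤ q := fun p q h => ⟨h.le, fun z => by
    rcases (q.2 z).1 with e | e
    · rw [(p.2 z).2.resolve_left (h.trans_le e).not_ge]; exact Bool.false_le _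
    · rw [e]; exact Bool.le_true _⟩
  let _ : LinearOrder L := { (inferInstance : PartialOrder L) with
    le_total := fun p q => by
      rcases lt_trichotomy p.1.1 q.1.1 with h | h | h
      · exact .inl (h2 _ _ h)
      · refine or_iff_not_imp_left.2 fun hn => ⟨h.ge, fun w => not_not.1 fun hw => hn ⟨h.le,
          fun z => not_not.1 fun hz => ?_⟩⟩
        obtain rfl : z = w := Subtype.ext ((h1 p q h z fun e => hz e.le).trans
          (h1 p q h w fun e => hw e.ge).symm)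
        exact hw (not_le.1 hz).le
      · exact .inr (h2 _ _ h)
    toDecidableLE := Classical.decRel _ }
  have := isCompact_iff_compactSpace.1 h0.isCompact
  have : OrderClosedTopology Bool := ⟨isClosed_discrete _⟩
  have : OrderClosedTopology L := ⟨isClosed_le_prod.preimage
    (f := fun p : L × L => (p.1.1, p.2.1)) (by fun_prop)⟩
  have h3 : ∀ p q : L, p < q → p.1.1 = q.1.1 → ∃ z, p.1.2 z < q.1.2 z ∧ z.1 = p.1.1 := by
    intro p q h e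
    obtain ⟨z, hz⟩ := Function.ne_iff.1 fun e' => h.ne (Subtype.ext (Prod.ext e e'))
    exact ⟨z, (h.le.2 z).lt_of_ne hz, h1 p q e z hz⟩
  let lo : K → L := fun x => ⟨(x, fun z => decide (z.1 < x)), fun z =>
    ⟨by simpa using le_or_gt x z.1, by simpa using le_total z.1 x⟩⟩
  refine ⟨L, inferInstance, inferInstance, otop L, inferInstance, fun p => p.1.1, by fun_prop,
    fun x => ⟨lo x, rfl⟩, fun p q h => h.1, fun p q r a b => (a.le.1.trans b.le.1).lt_of_ne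
      fun e => ?_, fun z hz => ⟨lo z, ⟨(z, fun w => decide (w.1 ≤ z)), fun w =>
        ⟨by simpa using le_total z w.1, by simpa using le_or_gt w.1 z⟩⟩, lt_of_le_of_ne
          ⟨le_rfl, fun w => ?_⟩ fun e => ?_, rfl, rfl⟩, fun p q h e => ?_⟩
  · have e1 := a.le.1.antisymm (b.le.1.trans e.ge)
    obtain ⟨z, z1, z2⟩ := h3 p q a e1
    obtain ⟨w, w1, w2⟩ := h3 q r b (e1.symm.trans e)
    obtain rfl : z = w := Subtype.ext (z2.trans (e1.trans w2.symm))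
    exact (by decide : ∀ a b c : Bool, a < b → ¬ b < c) _ _ _ z1 w1
  · simpa [lo, Bool.le_iff_imp] using le_of_lt
  · simpa [lo] using congrFun (congrArg (fun p : L => p.1.2) e) ⟨z, hz⟩
  · obtain ⟨z, -, z2⟩ := h3 p q h e
    exact mem_of_eq_of_mem z2.symm z.2

theorem chain {β : Type} (Φ : Finset β → Set β) (hΦ : ∀ F, (Φ F).Countable) (E : W → Set β)
    (hE : ∀ α, (E α).Countable) : ∃ A : W → Set β, (∀ α, (A α).Countable) ∧ Monotone A ∧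
      (∀ α, E α ⊆ A α) ∧ ∀ I : Set W, I.Nonempty → ∀ F : Finset β, ↑F ⊆ ⋃ α ∈ I, A α →
        Φ F ⊆ ⋃ α ∈ I, A α := by
  obtain ⟨A, hA⟩ := Aron.trec (J := W) (fun j (S : Set β) => S.Countable ∧ E j ⊆ S ∧
      ∀ F : Finset β, ↑F ⊆ S → Φ F ⊆ S) (fun _ S S' => S ⊆ S') fun j g h1 _ => by
    have := ((Aron.iic j).mono Iio_subset_Iic_self).to_subtype
    obtain ⟨C, c1, c2⟩ := FreeSet.closing (fun F => Φ F ∪ (E j ∪ ⋃ i, g i)) fun F =>
      (hΦ F).union ((hE j).union (countable_iUnion fun i => (h1 i).1))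
    have c3 := union_subset_iff.1 (union_subset_iff.1 (c2 ∅ (by simp))).2
    exact ⟨C, ⟨c1, c3.1, fun F h => subset_union_left.trans (c2 F h)⟩,
      fun i => (subset_iUnion g i).trans c3.2⟩
  have h : Monotone A := monotone_iff_forall_lt.2 fun i j h => (hA j).2 i h
  refine ⟨A, fun α => (hA α).1.1, h, fun α => (hA α).1.2.1, fun I hI F hF => ?_⟩
  obtain ⟨α, a1, a2⟩ := DirectedOn.exists_mem_subset_of_finset_subset_biUnion hI
    (fun i hi j hj => (le_total i j).elim (fun e => ⟨j, hj, h e, subset_rfl⟩)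
      fun e => ⟨i, hi, subset_rfl, h e⟩) hF
  exact ((hA α).1.2.2 F a2).trans (subset_biUnion_of_mem (u := A) a1)

variable {Γ : Type} {V : Set (Γ → ℝ)}

def B (t : Finset (Γ × ℚ × ℚ)) : Set V := {w | ∀ p ∈ t, w.1 p.1 ∈ Ioo (p.2.1 : ℝ) p.2.2}

theorem opn (t : Finset (Γ × ℚ × ℚ)) : IsOpen (B t : Set V) := by
  simp only [B, ofPred_forall]
  exact isOpen_biInter_finset fun p _ => isOpen_Ioo.preimage (co p.1)

theorem box {S : Set Γ} {v : V} (v1 : support v.1 ⊆ S) {N : Set V} (hN : N ∈ 𝓝 v) :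
    ∃ t, (∀ p ∈ t, p.1 ∈ S) ∧ v ∈ B t ∧ ∀ w ∈ B t, support w.1 ⊆ S → w ∈ N := by
  classical
  obtain ⟨_, o0, ⟨O, o1, rfl⟩, o2⟩ := mem_nhds_iff.1 hN
  obtain ⟨I, u, u1, u2⟩ := isOpen_pi_iff.1 o1 _ o2
  have : ∀ γ ∈ I, ∃ p : ℚ × ℚ, v.1 γ ∈ Ioo (p.1 : ℝ) p.2 ∧ Ioo (p.1 : ℝ) p.2 ⊆ u γ := by
    intro γ hγ
    obtain ⟨a, b, c, d⟩ := mem_nhds_iff_exists_Ioo_subset.1 ((u1 γ hγ).1.mem_nhds (u1 γ hγ).2)
    obtain ⟨a', a1, a2⟩ := exists_rat_btwn c.1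
    obtain ⟨b', b1, b2⟩ := exists_rat_btwn c.2
    exact ⟨(a', b'), ⟨a2, b1⟩, (Ioo_subset_Ioo a1.le b2.le).trans d⟩
  choose! p p1 p2 using this
  refine ⟨(I.filter (· ∈ S)).image fun γ => (γ, p γ),
    by simp only [Finset.forall_mem_image, Finset.mem_filter]; exact fun _ h => h.2, fun q hq => ?_, fun w w1 w2 => ?_⟩
  · obtain ⟨γ, hγ, rfl⟩ := Finset.mem_image.1 hq
    exact p1 _ (Finset.mem_filter.1 hγ).1
  · refine o0 (u2 fun γ hγ => ?_)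
    by_cases h : γ ∈ S
    · exact p2 γ hγ (w1 (γ, p γ) (Finset.mem_image.2 ⟨γ, Finset.mem_filter.2 ⟨hγ, h⟩, rfl⟩))
    · rw [notMem_support.1 (mt (@w2 γ) h), ← notMem_support.1 (mt (@v1 γ) h)]
      exact (u1 γ hγ).2

theorem den (f : V → K) (hf : Continuous f) {S : Set Γ} (h : ∀ x, ∃ v : V, support v.1 ⊆ S ∧ f v = x)
    {p q : K} (hpq : p < q) : ∃ t z, (∀ r ∈ t, r.1 ∈ S) ∧
      IsLUB (f '' {v | v ∈ B t ∧ support v.1 ⊆ S}) z ∧ p ≤ z ∧ z < q := by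
  obtain ⟨c, c1, c2⟩ : ∃ c < q, Iic c ∈ 𝓝 p := by
    by_cases e : ∃ c, p < c ∧ c < q
    · exact let ⟨c, c1, c2⟩ := e; ⟨c, c2, Iic_mem_nhds c1⟩
    · exact ⟨p, hpq, mem_of_superset (Iio_mem_nhds hpq) fun c hc => not_lt.1 fun t => e ⟨c, t, hc⟩⟩
  obtain ⟨v, v1, rfl⟩ := h p
  obtain ⟨t, t1, t2, t3⟩ := box v1 (hf.continuousAt c2)
  obtain ⟨z, hz⟩ := lub (s := f '' {v | v ∈ B t ∧ support v.1 ⊆ S}) ⟨_, v, ⟨t2, v1⟩, rfl⟩
  exact ⟨t, z, t1, hz, hz.1 ⟨v, ⟨t2, v1⟩, rfl⟩,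
    (hz.2 (forall_mem_image.2 fun w hw => t3 w hw.1 hw.2)).trans_lt c1⟩

theorem kgood [CompactSpace V] (f : V → K) (hf : Continuous f) {D X : Set K} {S : Set Γ}
    (h1 : ∀ d ∈ D, ∀ e ∈ D, (Ioo d e).Nonempty → ∃ a : V, f a ∈ D ∩ Ioo d e ∧ support a.1 ⊆ S)
    (h2 : ∀ t, (∀ p ∈ t, p.1 ∈ S) → ∀ d ∈ D, (∃ v ∈ B t, d < f v) →
      ∃ a ∈ B t, d < f a ∧ support a.1 ⊆ S)
    (h3 : ∀ t, (∀ p ∈ t, p.1 ∈ S) → ∀ z, IsLUB (f '' B t) z → z ∈ D)
    (h4 : ∀ d ∈ D, d ∉ X → (∀ a < d, ∃ e ∈ D, a ≤ e ∧ e < d) ∧ ∀ a > d, ∃ e ∈ D, e ≤ a ∧ d < e)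
    {x y : K} (hxy : x < y) (hx : Acc D x) (hy : Acc (L := Kᵒᵈ) D y) :
    (D ∩ Icc x y ∩ X).Nonempty ∨ (D ∩ Icc x y).Nontrivial := by
  have h5 : ∀ u < x, ∃ a : V, support a.1 ⊆ S ∧ u < f a ∧ f a < x := fun u hu => by
    obtain ⟨d, d1, d2, d3⟩ := hx.2 u hu
    obtain ⟨c, -, c2, c3⟩ := hx.2 d d3
    obtain ⟨e, e1, e2, e3⟩ := hx.2 c c3
    obtain ⟨a, a1, a2⟩ := h1 d d1 e e1 ⟨c, c2, e2⟩
    exact ⟨a, a2, d2.trans a1.2.1, a1.2.2.trans e3⟩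
  obtain ⟨w, w1, rfl⟩ : x ∈ f '' {v | support v.1 ⊆ S} := ((cl S).isCompact.image hf).isClosed.closure_subset
    (mem_closure_iff_nhds.2 fun U hU => by
      obtain ⟨l, l1, l2⟩ := exists_Ioc_subset_of_mem_nhds hU hx.1
      obtain ⟨a, a1, a2, a3⟩ := h5 l l1
      exact ⟨_, l2 ⟨a2, a3.le⟩, a, a1, rfl⟩)
  obtain ⟨t, t1, t2, t3⟩ := box w1 (hf.continuousAt (Iio_mem_nhds hxy))
  obtain ⟨z, hz⟩ := lub (s := f '' B t) ⟨_, w, t2, rfl⟩
  have z1 : z ∈ D ∩ Icc (f w) y := ⟨h3 t t1 z hz, hz.1 ⟨w, t2, rfl⟩, hz.2 (forall_mem_image.2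
    fun v hv => not_lt.1 fun e => by
      obtain ⟨d, d1, d2, d3⟩ := hy.2 (toDual (f v)) e
      obtain ⟨a, a1, a2, a3⟩ := h2 t t1 d d1 ⟨v, hv, d2⟩
      exact lt_asymm (t3 a a1 a3) (lt_trans d3 a2))⟩
  refine or_iff_not_imp_left.2 fun hn => ?_
  have z2 := h4 z z1.1 fun e => hn ⟨z, z1, e⟩
  rcases z1.2.1.eq_or_lt with e | e
  · obtain ⟨c, c1, c2, c3⟩ := z2.2 y (e ▸ hxy)
    exact ⟨z, z1, c, ⟨c1, z1.2.1.trans c3.le, c2⟩, c3.ne⟩
  · obtain ⟨c, c1, c2, c3⟩ := z2.1 _ e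
    exact ⟨z, z1, c, ⟨c1, c2, c3.le.trans z1.2.2⟩, c3.ne'⟩

omit [CompactSpace K] in
theorem ceq {D : Set K} (hD : D.Countable) {x : K} (hx : Acc D x) (hy : Acc (L := Kᵒᵈ) D x) :
    (𝓝 x).IsCountablyGenerated := by
  refine HasCountableBasis.isCountablyGenerated (p := fun p => p ∈ D ×ˢ D ∧ x ∈ Ioo p.1 p.2)
    (s := fun p : K × K => Ioo p.1 p.2) ⟨⟨fun U => ⟨fun hU => ?_, fun ⟨p, p1, p2⟩ =>
      mem_of_superset (Ioo_mem_nhds p1.2.1 p1.2.2) p2⟩⟩, (hD.prod hD).mono fun _ h => h.1⟩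
  obtain ⟨l, u, h2, h3⟩ := (mem_nhds_iff_exists_Ioo_subset' hx.1 hy.1).1 hU
  obtain ⟨b, b1, b2⟩ := hx.2 l h2.1
  obtain ⟨c, c1, c2⟩ := hy.2 (toDual u) h2.2
  exact ⟨(b, c), ⟨⟨b1, c1⟩, b2.2, c2.2⟩, (Ioo_subset_Ioo b2.1.le c2.1.le).trans h3⟩

omit [CompactSpace K] in
theorem gd {x : K} (h : (𝓝 x).IsCountablyGenerated) :
    ∃ U : ℕ → Set K, (∀ n, U n ∈ 𝓝 x) ∧ ∀ a ≠ x, ∃ n, a ∉ U n := by
  obtain ⟨U, hU⟩ := (𝓝 x).exists_antitone_basis
  exact ⟨U, hU.mem, fun a ha => let ⟨n, _, hn⟩ := hU.1.mem_iff.1 (isOpen_ne.mem_nhds ha.symm)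
    ⟨n, fun e => hn e rfl⟩⟩

omit [TopologicalSpace K] [OrderTopology K] [CompactSpace K] in
theorem acc {L : Type} [LinearOrder L] {π : L → K} (h1 : Surjective π) (h2 : Monotone π)
    (h3 : ∀ p q r, p < q → q < r → π p < π r) {D : Set K} {x : L} (h : Acc (π ⁻¹' D) x) :
    Acc D (π x) ∧ ∀ p, π x ≤ π p → x ≤ p := by
  refine ⟨⟨?_, fun u hu => ?_⟩, fun p hp => not_lt.1 fun e => ?_⟩
  · obtain ⟨u, hu⟩ := h.1
    obtain ⟨d, -, d1, d2⟩ := h.2 u hu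
    exact ⟨_, h3 _ _ _ d1 d2⟩
  · obtain ⟨u, rfl⟩ := h1 u
    obtain ⟨c, -, c1, c2⟩ := h.2 u (h2.reflect_lt hu)
    obtain ⟨d, d0, d1, d2⟩ := h.2 c c2
    obtain ⟨e, -, e1, e2⟩ := h.2 d d2
    exact ⟨_, d0, h3 _ _ _ c1 d1, h3 _ _ _ e1 e2⟩
  · obtain ⟨d, -, d1, d2⟩ := h.2 p e
    exact (h3 _ _ _ d1 d2).not_ge hp

theorem small {α : Type} {s : Set α} (h : Cardinal.mk s ≤ aleph 1) :
    ∃ E : W → Set α, (∀ j, (E j).Countable) ∧ s ⊆ ⋃ j, E j := by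
  obtain ⟨e⟩ : Cardinal.mk s ≤ Cardinal.mk W := h.trans_eq Aron.mkW.symm
  exact ⟨fun j => Subtype.val '' (e ⁻¹' {j}), fun j => (((countable_singleton j).preimage
    e.injective).image _), fun a ha => mem_iUnion.2 ⟨e ⟨a, ha⟩, _, rfl, rfl⟩⟩

theorem main (hV : IsCompact V) (hd : V ⊆ closure (V ∩ {x | (support x).Countable})) (f : V → K)
    (hf : Continuous f) (hs : Surjective f) :
    ∃ (L : Type) (_ : LinearOrder L) (_ : TopologicalSpace L) (_ : OrderTopology L)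
      (_ : CompactSpace L), (∃ (Γ : Type) (h : L → Γ → ℝ), IsEmbedding h ∧
        Dense (h ⁻¹' {x | {γ | x γ ≠ 0}.Countable})) ∧
      ∃ g : L → K, Continuous g ∧ Surjective g ∧ Monotone g := by
  classical
  have := isCompact_iff_compactSpace.1 hV
  have := dual (L := K)
  have hd' : Dense {a : V | (support a.1).Countable} :=
    Subtype.dense_iff.2 (hd.trans (closure_mono fun x hx => ⟨⟨x, hx.1⟩, hx.2, rfl⟩))
  let X := {x : K | ¬ (𝓝 x).IsCountablyGenerated}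
  obtain ⟨L, _, _, _, _, π, p1, p2, p3, p4, p5, p6⟩ := split X
  have := dual (L := L)
  obtain ⟨S, S1, S2⟩ := onto hd' f hf
  replace S2 : ∀ x, ∃ v : V, support v.1 ⊆ S ∧ f v = x := fun x => let ⟨a, h⟩ := hs x; h ▸ S2 a
  obtain ⟨EX, x1, x2⟩ := small (ValdLine.main hV hd f hf hs)
  obtain ⟨ES, s1, s2⟩ := small S1
  let R : Set Γ → Set (K ⊕ Γ × ℚ × ℚ) := fun T => Sum.inr '' T ×ˢ univ
  have hR : ∀ T : Set Γ, T.Countable → (R T).Countable := fun T h => (h.prod countable_univ).image _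
  have h1 : ∀ U : Set V, ∃ Z : Set (K ⊕ Γ × ℚ × ℚ), Z.Countable ∧ (IsOpen U → U.Nonempty →
      ∃ a ∈ U, .inl (f a) ∈ Z ∧ R (support a.1) ⊆ Z) := fun U => by
    by_cases h : IsOpen U ∧ U.Nonempty
    · obtain ⟨a, a1, a2⟩ := hd'.inter_open_nonempty U h.1 h.2
      exact ⟨_, (hR _ a2).insert (.inl (f a)), fun _ _ => ⟨a, a1, .inl rfl, subset_insert _ _⟩⟩
    · exact ⟨∅, countable_empty, fun a b => absurd ⟨a, b⟩ h⟩
  have h2 : ∀ d : K, ∃ Z : Set K, Z.Countable ∧ (d ∉ X →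
      (∀ a < d, ∃ e ∈ Z, a ≤ e ∧ e < d) ∧ ∀ a > d, ∃ e ∈ Z, e ≤ a ∧ d < e) := fun d => by
    by_cases h : d ∈ X
    · exact ⟨∅, countable_empty, fun a => absurd h a⟩
    obtain ⟨U, u1, u2⟩ := gd (not_not.1 h)
    obtain ⟨E, e1, e2⟩ := lc U u1 u2
    obtain ⟨F, f1, f2⟩ := lc (L := Kᵒᵈ) U u1 u2
    exact ⟨E ∪ F, e1.union f1, fun _ => ⟨fun a ha => (e2 a ha).imp fun _ h => ⟨.inl h.1, h.2⟩,
      fun a ha => (f2 a ha).imp fun _ h => ⟨.inr h.1, h.2⟩⟩⟩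
  choose Z z1 z2 using h1
  choose Y y1 y2 using h2
  let T : Finset (Γ × ℚ × ℚ) → Set K := fun t => {z | IsLUB (f '' B t) z} ∪
    ({z | IsLUB (f '' {v | v ∈ B t ∧ support v.1 ⊆ S}) z} ∪
      {z | IsGLB (f '' {v | v ∈ B t ∧ support v.1 ⊆ S}) z})
  obtain ⟨A, a1, a2, a3, a4⟩ := chain (fun F => Sum.inl '' T F.toRight ∪ ⋃ d ∈ F.toLeft,
      Sum.inl '' Y d ∪ (Z (B F.toRight ∩ f ⁻¹' Ioi d) ∪ ⋃ e ∈ F.toLeft, Z (f ⁻¹' Ioo d e)))
    (fun F => (((Set.Subsingleton.countable fun _ a _ b => IsLUB.unique a b).union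
      ((Set.Subsingleton.countable fun _ a _ b => IsLUB.unique a b).union
        (Set.Subsingleton.countable fun _ a _ b => IsGLB.unique a b))).image _).union
      (F.toLeft.countable_toSet.biUnion fun d _ => ((y1 d).image _).union
        ((z1 _).union (F.toLeft.countable_toSet.biUnion fun _ _ => z1 _))))
    (fun j => Sum.inl '' EX j ∪ R (ES j)) fun j => ((x1 j).image _).union (hR _ (s1 j))
  have h3 : ∀ I : Set W, I.Nonempty → ∀ (t : Finset (Γ × ℚ × ℚ)) (D : Finset K),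
      (∀ p ∈ t, R {p.1} ⊆ ⋃ α ∈ I, A α) → (∀ d ∈ D, .inl d ∈ ⋃ α ∈ I, A α) →
      T t ⊆ Sum.inl ⁻¹' (⋃ α ∈ I, A α) ∧ ∀ d ∈ D, Y d ⊆ Sum.inl ⁻¹' (⋃ α ∈ I, A α) ∧
        Z (B t ∩ f ⁻¹' Ioi d) ⊆ ⋃ α ∈ I, A α ∧ ∀ e ∈ D, Z (f ⁻¹' Ioo d e) ⊆ ⋃ α ∈ I, A α := by
    intro I hI t D ht hD
    have := a4 I hI (D.disjSum t) (by
      rintro (d | p) h
      exacts [hD d (by simpa using h), ht p (by simpa using h) ⟨p, ⟨rfl, trivial⟩, rfl⟩])
    simpa only [Finset.toLeft_disjSum, Finset.toRight_disjSum, union_subset_iff, image_subset_iff,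
      iUnion_subset_iff] using this
  let D : W → Set L := fun α => π ⁻¹' (Sum.inl ⁻¹' A α)
  have h4 : ∀ z, (π ⁻¹' {z}).Finite := fun z => by
    have c := (isClosed_singleton.preimage p1 (t := {z})).isCompact
    obtain ⟨a, ha⟩ := c.exists_isLeast (p2 z)
    obtain ⟨b, hb⟩ := c.exists_isGreatest (p2 z)
    refine (toFinite {a, b}).subset fun p hp => by_contra fun hn => ?_
    exact (p4 _ _ _ ((ha.2 hp).lt_of_ne' fun e => hn (.inl e))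
      ((hb.2 hp).lt_of_ne fun e => hn (.inr e))).ne (ha.1.trans hb.1.symm)
  have h5 : ∀ p q : L, ∀ z ∈ Icc (π p) (π q), p ≤ q → ∃ r ∈ Icc p q, π r = z := fun p q z hz h => by
    rcases hz.1.eq_or_lt with e | e
    · exact ⟨p, ⟨le_rfl, h⟩, e⟩
    rcases hz.2.eq_or_lt with e' | e'
    · exact ⟨q, ⟨h, le_rfl⟩, e'.symm⟩
    obtain ⟨r, rfl⟩ := p2 z
    exact ⟨r, ⟨(p3.reflect_lt e).le, (p3.reflect_lt e').le⟩, rfl⟩
  refine ⟨L, inferInstance, inferInstance, inferInstance, inferInstance, crit D (fun α => ?_)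
    (fun i j h => preimage_mono (preimage_mono (a2 h))) (fun p q hpq => ?_) (fun α => ?_)
    fun p => ?_, π, p1, p2, p3⟩
  · exact (((a1 α).preimage Sum.inl_injective).biUnion fun z _ => (h4 z).countable).mono
      fun p hp => mem_iUnion₂.2 ⟨π p, hp, rfl⟩
  · have h6 : ∀ r s : L, r ∈ Icc p q → s ∈ Icc p q → r ≠ s → .inl (π r) ∈ ⋃ α ∈ univ, A α →
        .inl (π s) ∈ ⋃ α ∈ univ, A α → ∃ α, (D α ∩ Icc p q).Nontrivial := fun r s a b c d e => by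
      obtain ⟨i, -, hi⟩ := mem_iUnion₂.1 d
      obtain ⟨j, -, hj⟩ := mem_iUnion₂.1 e
      exact ⟨max i j, r, ⟨a2 (le_max_left _ _) hi, a⟩, s, ⟨a2 (le_max_right _ _) hj, b⟩, c⟩
    rcases (p3 hpq.le).eq_or_lt with e | e
    · obtain ⟨j, hj⟩ := mem_iUnion.1 (x2 (p6 p q hpq e))
      have := mem_biUnion (t := A) (mem_univ j) (a3 j (.inl ⟨_, hj, rfl⟩))
      exact h6 p q ⟨le_rfl, hpq.le⟩ ⟨hpq.le, le_rfl⟩ hpq.ne this (e ▸ this)
    have h7 : ∀ t, (∀ r ∈ t, r.1 ∈ S) → T t ⊆ Sum.inl ⁻¹' ⋃ α ∈ univ, A α := fun t ht => by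
      obtain ⟨j0, -⟩ := Aron.bnd countable_empty
      refine (h3 univ ⟨j0, trivial⟩ t ∅ (fun r hr => ?_) (by simp)).1
      obtain ⟨j, hj⟩ := mem_iUnion.1 (s2 (ht r hr))
      exact (image_mono (prod_mono_left (singleton_subset_iff.2 hj))).trans
        ((subset_union_right.trans (a3 j)).trans (subset_biUnion_of_mem (u := A) (mem_univ j)))
    obtain ⟨t, z, t1, t2, t3, t4⟩ := den f hf S2 e
    obtain ⟨t', z', t5, t6, t7, t8⟩ := den (K := Kᵒᵈ) f hf S2 (p := π q) (q := z) t4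
    obtain ⟨r, r1, r2⟩ := h5 p q z ⟨t3, t4.le⟩ hpq.le
    obtain ⟨s, r3, r4⟩ := h5 p q z' ⟨t3.trans (le_of_lt t8), t7⟩ hpq.le
    exact h6 r s r1 r3 (fun e => t8.ne' (r2.symm.trans (e ▸ r4))) (r2 ▸ h7 t t1 (.inr (.inl t2)))
      (r4 ▸ h7 t' t5 (.inr (.inr t6)))
  · rcases (Iio α).eq_empty_or_nonempty with e | e
    · intro a b _ _
      rw [show ⋃ β < α, D β = ∅ from iUnion_eq_empty.2 fun β =>
        iUnion_eq_empty.2 fun hβ => absurd (e.le hβ) id]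
      simp [isClopen_univ]
    let E : Set K := Sum.inl ⁻¹' ⋃ β ∈ Iio α, A β
    let U := {γ | R {γ} ⊆ ⋃ β ∈ Iio α, A β}
    have k0 : ∀ (a : V) (Z : Set _), R (support a.1) ⊆ Z → Z ⊆ ⋃ β ∈ Iio α, A β → support a.1 ⊆ U :=
      fun a Z h h' γ hγ => (image_mono (prod_mono_left (singleton_subset_iff.2 hγ))).trans (h.trans h')
    have k1 : ∀ d ∈ E, ∀ c ∈ E, (Ioo d c).Nonempty →
        ∃ a : V, f a ∈ E ∩ Ioo d c ∧ support a.1 ⊆ U := fun d hd c hc ⟨x, hx⟩ => by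
      have := ((h3 _ e ∅ {d, c} (by simp) (by simpa [E] using And.intro hd hc)).2 d (by simp)).2.2 c (by simp)
      obtain ⟨v, rfl⟩ := hs x
      obtain ⟨a, b1, b2, b3⟩ := z2 _ (isOpen_Ioo.preimage hf) ⟨v, hx⟩
      exact ⟨a, ⟨this b2, b1⟩, k0 a _ b3 this⟩
    rw [show ⋃ β < α, D β = π ⁻¹' E by simp only [D, E, preimage_iUnion]; rfl]
    refine good (fun d hd c hc ⟨x, hx⟩ => ?_) fun x y hxy hx hy => ?_
    · by_cases h : π x ∈ E
      · exact ⟨x, h, hx⟩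
      obtain ⟨a, b1, -⟩ := k1 _ hd _ hc ⟨π x, (p3 hx.1.le).lt_of_ne fun e => h (e ▸ hd),
        (p3 hx.2.le).lt_of_ne fun e => h (e ▸ hc)⟩
      obtain ⟨r, hr⟩ := p2 (f a)
      exact ⟨r, mem_preimage.2 (hr ▸ b1.1), p3.reflect_lt (hr ▸ b1.2.1), p3.reflect_lt (hr ▸ b1.2.2)⟩
    obtain ⟨b1, b2⟩ := acc p2 p3 p4 hx
    obtain ⟨b3, b4⟩ := acc (K := Kᵒᵈ) (L := Lᵒᵈ) p2 p3.dual (fun p q r a b => p4 r q p b a) hy
    have k2 : ∀ r, π r ∈ E ∩ Icc (π x) (π y) → r ∈ π ⁻¹' E ∩ Icc x y := fun r h =>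
      ⟨h.1, b2 r h.2.1, b4 r h.2.2⟩
    rcases (p3 hxy.le).eq_or_lt with h | h
    · exact absurd (ceq ((((Aron.iic α).mono Iio_subset_Iic_self).biUnion fun β _ => a1 β).preimage
        Sum.inl_injective) b1 (h ▸ b3)) (p6 x y hxy h)
    rcases kgood f hf (X := X) k1 (fun t ht d hd hv => by
        have := ((h3 _ e t {d} ht (by simpa [E] using hd)).2 d (by simp)).2.1
        obtain ⟨a, c1, -, c3⟩ := z2 _ ((opn t).inter (isOpen_Ioi.preimage hf)) hv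
        exact ⟨a, c1.1, c1.2, k0 a _ c3 this⟩)
      (fun t ht z hz => (h3 _ e t ∅ ht (by simp)).1 (.inl hz)) (fun d hd h => by
        have := ((h3 _ e ∅ {d} (by simp) (by simpa [E] using hd)).2 d (by simp)).1
        exact ⟨fun a ha => ((y2 d h).1 a ha).imp fun _ h => ⟨this h.1, h.2⟩,
          fun a ha => ((y2 d h).2 a ha).imp fun _ h => ⟨this h.1, h.2⟩⟩) h b1 b3 with
      ⟨z, c1, c2⟩ | ⟨z, c1, w, c2, c3⟩
    · obtain ⟨p, q, d1, d2, d3⟩ := p5 z c2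
      exact ⟨p, k2 p (d2 ▸ c1), q, k2 q (d3 ▸ c1), d1.ne⟩
    · obtain ⟨p, rfl⟩ := p2 z
      obtain ⟨q, rfl⟩ := p2 w
      exact ⟨p, k2 p c1, q, k2 q c2, fun e => c3 (e ▸ rfl)⟩
  · by_cases h : π p ∈ X
    · obtain ⟨q, r, d1, d2, d3⟩ := p5 _ h
      have c : q ⋖ r := ⟨d1, fun _ a b => (p4 _ _ _ a b).ne (d2.trans d3.symm)⟩
      rcases lt_or_ge p r with e | e
      · obtain rfl : q = p := le_antisymm (not_lt.1 fun t => (p4 _ _ _ t d1).ne d3.symm)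
          (c.le_of_lt e)
        exact .inr (.inl ⟨r, c⟩)
      · obtain rfl : r = p := e.antisymm (not_lt.1 fun t => (p4 _ _ _ d1 t).ne d2)
        exact .inr (.inr ⟨q, c⟩)
    obtain ⟨U, u1, u2⟩ := gd (not_not.1 h)
    have k : ∀ a ≠ p, ∃ n, a ∉ π ⁻¹' U n := fun a ha => u2 _ fun e => h
      ((lt_or_gt_of_ne ha).elim (fun t => e ▸ p6 _ _ t e) fun t => p6 _ _ t e.symm)
    exact .inl ⟨lc _ (fun n => p1.continuousAt (u1 n)) k,
      lc (L := Lᵒᵈ) _ (fun n => p1.continuousAt (u1 n)) k⟩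

end Pool.Agent.H25.ValdLine3
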