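import Mathlib
import Pool.Agent.H25.ValdLine
import Pool.Agent.H25.ValdLine2

set_option autoImplicit false

namespace Pool.Agent.H25.ValdRN

open Set Filter Topology Function Pool.Agent.H25.ValdLine
open Cardinal (aleph mk)
open Pool.Agent.H25.Aron (W)

variable {Γ : Type} {V : Set (Γ → ℝ)}

theorem restr (hV : IsClosed V) (hd : Dense {a : V | (support a.1).Countable}) (v : V)
    (g : Finset Γ → Γ) : ∃ C : Set Γ, C.Countable ∧ (∀ F : Finset Γ, ↑F ⊆ C → g F ∈ C) ∧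
      C.indicator v.1 ∈ V := by
  classical
  have h1 : ∀ q : Finset Γ × ℕ, ∃ a : V, (support a.1).Countable ∧
      ∀ γ ∈ q.1, dist (a.1 γ) (v.1 γ) < 1 / ((q.2 : ℝ) + 1) := fun q => by
    have ho : IsOpen (⋂ γ ∈ q.1, {a : V | dist (a.1 γ) (v.1 γ) < 1 / ((q.2 : ℝ) + 1)}) :=
      isOpen_biInter_finset fun γ _ => isOpen_lt ((co γ).dist continuous_const) continuous_const
    obtain ⟨a, a1, a2⟩ := hd.inter_open_nonempty _ ho ⟨v,
      mem_iInter₂.2 fun γ _ => by simpa using Nat.one_div_pos_of_nat (n := q.2) (α := ℝ)⟩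
    exact ⟨a, a2, fun γ h => mem_iInter₂.1 a1 γ h⟩
  choose a a2 a3 using h1
  obtain ⟨C, C1, C2⟩ := FreeSet.closing (fun T => insert (g T) (⋃ k, support (a (T, k)).1))
    fun T => (countable_iUnion fun k => a2 _).insert _
  let b : Finset C × ℕ → V := fun q => a (q.1.map (Embedding.subtype _), q.2)
  refine ⟨C, C1, fun F hF => C2 F hF (.inl rfl), hV.mem_of_tendsto (f := fun q => (b q).1)
    (b := atTop) (tendsto_pi_nhds.2 fun γ => ?_) (.of_forall fun q => (b q).2)⟩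
  by_cases h : γ ∈ C
  · rw [indicator_of_mem h, tendsto_iff_dist_tendsto_zero]
    refine squeeze_zero' (.of_forall fun _ => dist_nonneg) ((eventually_ge_atTop
      ({⟨γ, h⟩}, 0)).mono fun q hq => (a3 _ γ (Finset.mem_map.2 ⟨_, hq.1
        (Finset.mem_singleton_self _), rfl⟩)).le) (tendsto_one_div_add_atTop_nhds_zero_nat.comp ?_)
    exact prod_atTop_atTop_eq (α := Finset C) (β := ℕ) ▸ tendsto_snd
  · rw [indicator_of_notMem h]
    refine tendsto_const_nhds.congr fun q => (not_not.1 fun e => h (C2 _ (fun t ht => ?_)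
      (.inr (mem_iUnion.2 ⟨_, e⟩)))).symm
    obtain ⟨s, -, rfl⟩ := Finset.mem_map.1 ht
    exact s.2

def Sm {X J : Type} (S : X → Set J) (Z : Set X) : Prop := ∃ b : Finset J → Set J,
  (∀ F, mk (b F) ≤ aleph 1) ∧ ∀ y ∈ Z, ∃ F : Finset J, ↑F ⊆ S y ∧ S y ⊆ b F

theorem Sm.un {X J ι : Type} {S : X → Set J} {Z : ι → Set X} (h : mk ι ≤ aleph 1)
    (hZ : ∀ i, Sm S (Z i)) {T : Set X} (hT : T ⊆ ⋃ i, Z i) : Sm S T := by
  choose b b1 b2 using hZ
  refine ⟨fun F => ⋃ i, b i F, fun F => ValdLine.un _ h fun i => b1 i F, fun y hy => ?_⟩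
  obtain ⟨i, hi⟩ := mem_iUnion.1 (hT hy)
  exact (b2 i y hi).imp fun F h => ⟨h.1, h.2.trans (subset_iUnion (fun i => b i F) i)⟩

theorem cu {α : Type} {s t : Set α} (hs : mk s ≤ aleph 1) (ht : mk t ≤ aleph 1) :
    mk (s ∪ t :) ≤ aleph 1 :=
  (Cardinal.mk_union_le _ _).trans (Cardinal.add_le_of_le (Cardinal.aleph0_le_aleph _) hs ht)

theorem Sm.diag {X J : Type} {S : X → Set J} {Z : Set X} {D : Set J} (hD : mk D ≤ aleph 1)
    (h : ∀ β ∉ D, Sm S {y | y ∈ Z ∧ β ∈ S y}) : Sm S Z := by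
  classical
  have : ∀ β, ∃ b : Finset J → Set J, (∀ F, mk (b F) ≤ aleph 1) ∧ (β ∉ D → ∀ y ∈ Z, β ∈ S y →
      ∃ F : Finset J, ↑F ⊆ S y ∧ S y ⊆ b F) := fun β => by
    by_cases e : β ∈ D
    · exact ⟨fun _ => D, fun _ => hD, fun e' => absurd e e'⟩
    · exact (h β e).imp fun b hb => ⟨hb.1, fun _ y h1 h2 => hb.2 y ⟨h1, h2⟩⟩
  choose b b1 b2 using this
  refine ⟨fun F => D ∪ ⋃ q : F × F.powerset, b q.1 q.2, fun F => cu hD (ValdLine.un _
    (Cardinal.mk_le_aleph0.trans (Cardinal.aleph0_le_aleph _)) fun _ => b1 _ _), fun y hy => ?_⟩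
  by_cases e : S y ⊆ D
  · exact ⟨∅, by simp, e.trans subset_union_left⟩
  obtain ⟨β, c1, c2⟩ := not_subset.1 e
  obtain ⟨F, f1, f2⟩ := b2 β c2 y hy c1
  exact ⟨insert β F, by simpa [insert_subset_iff] using ⟨c1, f1⟩, fun a ha => .inr (mem_iUnion.2
    ⟨(⟨β, by simp⟩, ⟨F, by simp⟩), f2 ha⟩)⟩

theorem Sm.pt {X J : Type} [TopologicalSpace X] {S : X → Set J} {Z : Set X} (hZ : IsCompact Z)
    (h : ¬ Sm S Z) : ∃ x ∈ Z, ∀ N ∈ 𝓝 x, ¬ Sm S (N ∩ Z) := by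
  by_contra hn
  push Not at hn
  refine h (hZ.induction_on ⟨fun _ => ∅, by simp, by simp⟩
    (fun s t h ⟨b, b1, b2⟩ => ⟨b, b1, fun y hy => b2 y (h hy)⟩) (fun s t hs ht =>
      Sm.un (Z := fun i => cond i s t) (Cardinal.mk_le_aleph0.trans (Cardinal.aleph0_le_aleph _))
        (by simp [hs, ht]) (union_eq_iUnion.le)) fun x hx => ?_)
  obtain ⟨N, n1, n2⟩ := hn x hx
  exact ⟨_, inter_mem (mem_nhdsWithin_of_mem_nhds n1) self_mem_nhdsWithin, n2⟩

theorem lt2 {c : Cardinal} : c < aleph 2 ↔ c ≤ aleph 1 := by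
  rw [← one_add_one_eq_two, ← Cardinal.succ_aleph, Order.lt_succ_iff]

theorem reg2 : (aleph.{0} 2).IsRegular := one_add_one_eq_two (R := Ordinal) ▸
  Cardinal.isRegular_aleph_add_one 1

theorem supp [CompactSpace V] (hV : IsClosed V) (hd : Dense {a : V | (support a.1).Countable})
    (d : V → V → ℝ) (h1 : LowerSemicontinuous (uncurry d)) (h2 : ∀ x y, x ≠ y → 0 < d x y)
    (h3 : ∀ L : Set V, L.Nonempty → ∀ ε > 0, ∃ U, IsOpen U ∧ (U ∩ L).Nonempty ∧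
      ∀ x ∈ U ∩ L, ∀ y ∈ U ∩ L, d x y < ε) (p : V) : mk (support p.1) ≤ aleph 1 := by
  classical
  let T : ℕ → Set Γ := fun n => {γ | p.1 γ ≠ 0 ∧ ∀ x y : V, x.1 γ = 0 → y.1 γ = p.1 γ →
    1 / ((n : ℝ) + 1) ≤ d x y}
  refine (Cardinal.mk_le_mk_of_subset (t := ⋃ n, T n) fun γ hγ => mem_iUnion.2 ?_).trans
    (un _ (by simp) fun n => not_lt.1 fun hn => ?_)
  · let Q : Set (V × V) := {q | q.1.1 γ = 0} ∩ {q | q.2.1 γ = p.1 γ}
    rcases Q.eq_empty_or_nonempty with e | e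
    · exact ⟨0, hγ, fun x y a b => absurd (e.le (show (x, y) ∈ Q from ⟨a, b⟩)) id⟩
    obtain ⟨q, q1, q2⟩ := (h1.lowerSemicontinuousOn Q).exists_isMinOn e (IsClosed.isCompact
      ((isClosed_eq ((co γ).comp continuous_fst) continuous_const).inter
        (isClosed_eq ((co γ).comp continuous_snd) continuous_const)))
    obtain ⟨n, hn⟩ := exists_nat_one_div_lt (h2 q.1 q.2 fun e => hγ (q1.2.symm.trans (e ▸ q1.1)))
    exact ⟨n, hγ, fun x y a b => hn.le.trans (q2 (show (x, y) ∈ Q from ⟨a, b⟩))⟩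
  let J := (aleph.{0} 2).ord.ToType
  have hJ : mk J = aleph 2 := by simp [J]
  have g := NSIdealU.good_of_regular (aleph.{0} 2) reg2 (lt2.2 (Cardinal.aleph0_le_aleph _))
  have hi : ∀ β : J, mk (Iic β) ≤ aleph 1 := fun β => lt2.1 ((g.iic β).trans_eq hJ)
  obtain ⟨t0⟩ : mk J ≤ mk (T n) := hJ ▸ not_lt.1 fun e => hn.not_ge (lt2.1 e)
  let t : J ↪ Γ := t0.trans (Embedding.subtype _)
  have ht : ∀ β, t β ∈ T n := fun β => (t0 β).2
  have e : ∀ β : J, Iic β ↪ W := fun β => Classical.choice ((hi β).trans_eq Aron.mkW.symm)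
  let S : V → Set J := fun y => {β | y.1 (t β) ≠ 0}
  let Y : W → Set V := fun ξ => (⋂ β, {y | y.1 (t β) = 0} ∪ {y | y.1 (t β) = p.1 (t β)}) ∩
    ⋂ β, ⋂ α ∈ {α | ξ ≤ e β α}, {y | y.1 (t α) = 0} ∪ {y | y.1 (t β) = 0}
  have c0 : ∀ γ r, IsClosed {y : V | y.1 γ = r} := fun γ r => isClosed_eq (co γ) continuous_const
  have c1 : ∀ ξ, IsClosed (Y ξ) := fun ξ => (isClosed_iInter fun _ => (c0 _ _).union (c0 _ _)).inter
    (isClosed_iInter fun _ => isClosed_biInter fun _ _ => (c0 _ _).union (c0 _ _))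
  have big : ∀ A B : Set J, aleph 1 < mk A → mk B ≤ aleph 1 → ∃ a ∈ A, a ∉ B := fun A B a b =>
    not_subset.1 fun e => a.not_ge ((Cardinal.mk_le_mk_of_subset e).trans b)
  obtain ⟨ξ, hξ⟩ : ∃ ξ, ¬ Sm S (Y ξ) := by
    by_contra hn
    push Not at hn
    obtain ⟨b, b1, b2⟩ := Sm.un Aron.mkW.le hn subset_rfl
    choose u _ u2 using fun F => big univ (b F) (by simp [hJ]) (b1 F)
    obtain ⟨C, d1, d2, d3⟩ := restr hV hd p fun G => t (u (G.preimage t t.injective.injOn))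
    have d4 : S ⟨_, d3⟩ = t ⁻¹' C := ext fun β => ⟨mem_of_indicator_ne_zero, fun h => by
      simpa [S] using ⟨h, (ht β).1⟩⟩
    have d5 := d1.preimage t.injective
    obtain ⟨ξ, hξ⟩ := Aron.bnd (d5.biUnion fun β _ => (d5.preimage Subtype.val_injective).image (e β))
    obtain ⟨F, f1, f2⟩ := b2 ⟨_, d3⟩ (mem_iUnion.2 ⟨ξ, mem_iInter.2 fun β => by
      by_cases h : t β ∈ C
      exacts [.inr (indicator_of_mem h _), .inl (indicator_of_notMem h _)],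
      mem_iInter.2 fun β => mem_iInter₂.2 fun α hα => by_contra fun hn => (hξ _ (mem_iUnion₂.2
        ⟨β, d4.le fun e => hn (.inr e), α, d4.le fun e => hn (.inl e), rfl⟩)).not_ge hα⟩)
    have := d2 (F.map t) (by simpa [← d4] using f1)
    rw [Finset.preimage_map] at this
    exact u2 F (f2 (d4.ge this))
  obtain ⟨U, u1, ⟨x, x1, x2, x3⟩, u3⟩ := h3 {x | x ∈ Y ξ ∧ ∀ N ∈ 𝓝 x, ¬ Sm S (N ∩ Y ξ)}
    (Sm.pt (c1 ξ).isCompact hξ) _ (Nat.one_div_pos_of_nat (n := n))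
  have x4 : mk (S x) ≤ aleph 1 := not_lt.1 fun h => by
    obtain ⟨A, a1, a2⟩ := Cardinal.le_mk_iff_exists_subset.1 h.le
    obtain ⟨c, hc⟩ := NSIdealU.bound g A (by rw [a2]; exact (lt2.2 le_rfl).trans_eq hJ.symm)
    obtain ⟨β, b1, b2⟩ := big _ _ h (hi c)
    refine Cardinal.aleph0_lt_aleph_one.not_ge (a2 ▸ Cardinal.le_aleph0_iff_set_countable.2
      ((((Aron.iic ξ).preimage (e β).injective).image Subtype.val).mono fun α hα => ?_))
    refine ⟨⟨α, (hc α hα).le.trans (not_le.1 b2).le⟩, show e β _ ≤ ξ from not_lt.1 fun h => ?_, rfl⟩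
    exact (mem_iInter₂.1 (mem_iInter.1 x2.2 β) _ h.le).elim (a1 hα) b1
  obtain ⟨Z, z1, z2, z3⟩ := exists_mem_nhds_isClosed_subset (u1.mem_nhds x1)
  obtain ⟨β, b1, b2⟩ : ∃ β ∉ S x, ¬ Sm S {y | y ∈ Z ∩ Y ξ ∧ β ∈ S y} := by
    by_contra hn
    push Not at hn
    exact x3 Z z1 (Sm.diag x4 hn)
  obtain ⟨y, y1, y2⟩ := Sm.pt ((z2.inter (c1 ξ)).inter (c0 (t β) (p.1 (t β)))).isCompact
    fun ⟨b, h⟩ => b2 ⟨b, h.1, fun y hy => h.2 y ⟨hy.1, (mem_iInter.1 hy.1.2.1 β).resolve_left hy.2⟩⟩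
  exact (u3 x ⟨x1, x2, x3⟩ y ⟨z3 y1.1.1, y1.1.2, fun N hN ⟨b, h⟩ => y2 N hN
    ⟨b, h.1, fun y hy => h.2 y ⟨hy.1, hy.2.1.2⟩⟩⟩).not_ge ((ht β).2 x y (not_not.1 b1) y1.2)

theorem main {K : Type} [TopologicalSpace K] [CompactSpace K] (d : K → K → ℝ)
    (h1 : LowerSemicontinuous (uncurry d)) (h2 : ∀ x y, x ≠ y → 0 < d x y)
    (h3 : ∀ L : Set K, L.Nonempty → ∀ ε > 0, ∃ U, IsOpen U ∧ (U ∩ L).Nonempty ∧
      ∀ x ∈ U ∩ L, ∀ y ∈ U ∩ L, d x y < ε) (φ : K → Γ → ℝ) (hφ : IsEmbedding φ)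
    (hd : Dense (φ ⁻¹' {x | (support x).Countable})) (f : Iic (aleph.{0} 2).ord → K)
    (hf : Continuous f) : ¬ Injective f := by
  intro hi
  let ψ := hφ.toHomeomorph
  have := ψ.compactSpace
  have h4 : ∀ y, mk (support (φ y)) ≤ aleph 1 := fun y => supp (isCompact_range hφ.continuous).isClosed
    (Subtype.dense_iff.2 (by
      rintro _ ⟨v, rfl⟩
      exact closure_mono (by rintro _ ⟨w, hw, rfl⟩; exact ⟨⟨_, w, rfl⟩, hw, rfl⟩)
        (image_closure_subset_closure_image hφ.continuous ⟨v, hd v, rfl⟩)))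
    (fun x y => d (ψ.symm x) (ψ.symm y)) (h1.comp (g := Prod.map ψ.symm ψ.symm) (by fun_prop))
    (fun x y h => h2 _ _ (ψ.symm.injective.ne h)) (fun L hL ε hε => by
      obtain ⟨U, u1, ⟨x, u2⟩, u3⟩ := h3 (ψ ⁻¹' L) (hL.preimage ψ.surjective) ε hε
      exact ⟨ψ.symm ⁻¹' U, u1.preimage ψ.symm.continuous, ⟨ψ x, by simpa using u2⟩,
        fun x hx y hy => u3 _ (by simpa using hx) _ (by simpa using hy)⟩) (ψ y)
  let p : Iic (aleph.{0} 2).ord := ⟨_, self_mem_Iic⟩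
  have lim := Cardinal.isSuccLimit_ord reg2.1
  have h5 : ∀ a : Iio p, ∃ c : Iio p, a ≤ c ∧ ∀ β, c.1 ≤ β →
      ∀ γ ∈ support (φ (f a)) ∪ support (φ (f p)), φ (f β) γ = φ (f p) γ := fun a => by
    have : ∀ q : (support (φ (f a)) ∪ support (φ (f p)) :) × ℕ, ∃ l < p, Ioc l p ⊆
        {β | dist (φ (f β) q.1) (φ (f p) q.1) < 1 / ((q.2 : ℝ) + 1)} := fun q =>
      exists_Ioc_subset_of_mem_nhds (((continuous_apply _).comp (hφ.continuous.comp hf)).continuousAt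
        (Metric.ball_mem_nhds _ Nat.one_div_pos_of_nat)) ⟨a, a.2⟩
    choose l l1 l2 using this
    have k := lim.succ_lt (max_lt a.2 (Cardinal.iSup_lt_ord_of_isRegular (f := fun q => (l q).1) reg2
      (lt2.2 (by
        simpa using (mul_le_mul' (cu (h4 _) (h4 _)) (Cardinal.aleph0_le_aleph 1)).trans_eq
          (Cardinal.mul_eq_self (Cardinal.aleph0_le_aleph _)))) l1))
    refine ⟨⟨⟨_, k.le⟩, k⟩, (le_max_left a.1.1 _).trans (Order.le_succ _), fun β hβ γ hγ =>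
      dist_le_zero.1 (ge_of_tendsto' tendsto_one_div_add_atTop_nhds_zero_nat fun n =>
        le_of_lt (l2 (⟨γ, hγ⟩, n) ⟨?_, β.2⟩))⟩
    exact ((Ordinal.le_iSup (fun q => (l q).1) _).trans (le_max_right _ _)).trans_lt
      (Order.succ_le_iff.1 hβ)
  choose c c1 c2 using h5
  let a : ℕ → Iio p := fun n => c^[n] ⟨⟨0, lim.pos.le⟩, lim.pos⟩
  have ha : ∀ n, a (n + 1) = c (a n) := fun n => iterate_succ_apply' _ _ _
  have k := Cardinal.iSup_lt_ord_of_isRegular (f := fun n => (a n).1.1) reg2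
    (lt2.2 (by simp)) fun n => (a n).2
  have h6 : Tendsto (fun n => (a n).1) atTop (𝓝 ⟨_, k.le⟩) := tendsto_subtype_rng.2
    (tendsto_atTop_ciSup (monotone_nat_of_le_succ fun n => by rw [ha]; exact c1 _)
      Ordinal.bddAbove_of_small)
  refine k.ne (congrArg Subtype.val (hi (a₁ := ⟨_, k.le⟩) (a₂ := p) (hφ.injective (funext fun γ => ?_))))
  by_cases h : ∃ n, γ ∈ support (φ (f (a n))) ∪ support (φ (f p))
  · obtain ⟨n, hn⟩ := h
    exact c2 _ _ (ha n ▸ Ordinal.le_iSup (fun n => (a n).1.1) (n + 1)) γ hn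
  · push Not at h
    rw [notMem_support.1 fun e => h 0 (.inr e)]
    exact tendsto_nhds_unique ((((continuous_apply γ).comp (hφ.continuous.comp hf)).tendsto _).comp h6)
      (tendsto_const_nhds.congr fun n => (notMem_support.1 fun e => h n (.inl e)).symm)

end Pool.Agent.H25.ValdRN
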