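import Pool.Agent.H11.GDefs

set_option autoImplicit false

namespace Pool.Agent.H25.FP
open Pool.Agent.H11.PT

/-- a parameterized reduction computed in polynomial time -/
def ParRed {α β : Type} [Enc α] [Enc β] (A : α → Prop) (κ : α → ℕ) (B : β → Prop) (κ' : β → ℕ) :
    Prop :=
  ∃ (f : α → β) (g : ℕ → ℕ), PolyTime bits bits f ∧ Computable g ∧
    ∀ x, (A x ↔ B (f x)) ∧ κ' (f x) ≤ g (κ x)

/-- `k`-Clique: the graph has a clique on `k` vertices -/
def CLIQUE (x : (ℕ × List (ℕ × ℕ)) × ℕ) : Prop := ∃ S, (gr x.1.1 x.1.2).IsNClique x.2 S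

/-- W[1]-hardness: the W[1]-complete problem `k`-Clique has a parameterized reduction to `B` -/
def W1Hard {β : Type} [Enc β] (B : β → Prop) (κ : β → ℕ) : Prop :=
  ParRed CLIQUE (fun x => x.2) B κ

end Pool.Agent.H25.FP
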