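import Mathlib

/-! A zero-dimensional Hausdorff weakly Lindelöf space on `List ℕ × Finset A` that is not weakly
Menger. -/

set_option autoImplicit false
open Set Filter Topology Function

namespace Pool.Agent.H25.WMen

variable {A : Set (ℕ → Bool)}

def P (A : Set (ℕ → Bool)) : Type := List ℕ × Finset A

def ag (a b : A) (k : ℕ) : Prop := ∀ i < k, a.1 i = b.1 i
def kk (t : List ℕ) (m : ℕ) : ℕ := ∑ i ∈ Finset.range (m + 1), t.getD i 0

def N (p : P A) (f : ℕ → ℕ) (m : ℕ) : Set (P A) :=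
  {q | p.1 <+: q.1 ∧ (∀ i, p.1.length ≤ i → i < q.1.length → f i ≤ q.1.getD i 0) ∧ p.2 ⊆ q.2 ∧
    (q.1.length ≤ m → q.2 = p.2) ∧ ∀ a ∈ q.2, ∃ b ∈ p.2, ag a b (kk q.1 m)}

theorem pre_get {s t : List ℕ} (h : s <+: t) {i : ℕ} (hi : i < s.length) :
    t.getD i 0 = s.getD i 0 := by
  obtain ⟨u, rfl⟩ := h
  simp [List.getD_eq_getElem?_getD, List.getElem?_append_left hi]

theorem kk_pre {s t : List ℕ} (h : s <+: t) {m : ℕ} (hm : m < s.length) : kk t m = kk s m :=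
  Finset.sum_congr rfl fun i hi => pre_get h (by have := Finset.mem_range.1 hi; omega)

theorem kk_mono (t : List ℕ) {m m' : ℕ} (h : m ≤ m') : kk t m ≤ kk t m' :=
  Finset.sum_le_sum_of_subset (Finset.range_mono (by omega))

theorem le_kk (t : List ℕ) (m : ℕ) : t.getD m 0 ≤ kk t m :=
  Finset.single_le_sum (f := fun i => t.getD i 0) (fun _ _ => Nat.zero_le _)
    (Finset.self_mem_range_succ m)

theorem ag.mono {a b : A} {k k' : ℕ} (h : ag a b k) (hk : k' ≤ k) : ag a b k' :=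
  fun i hi => h i (hi.trans_le hk)

theorem self_mem (p : P A) (f : ℕ → ℕ) (m : ℕ) : p ∈ N p f m :=
  ⟨List.prefix_rfl, fun i h h' => by omega, subset_rfl, fun _ => rfl,
    fun a ha => ⟨a, ha, fun _ _ => rfl⟩⟩

theorem N_mono (p : P A) {f f' : ℕ → ℕ} {m m' : ℕ} (hf : f ≤ f') (hm : m ≤ m') :
    N p f' m' ⊆ N p f m := by
  rintro q ⟨h1, h2, h3, h4, h5⟩
  refine ⟨h1, fun i a b => (hf i).trans (h2 i a b), h3, fun h => h4 (h.trans hm), fun a ha => ?_⟩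
  obtain ⟨b, hb, hab⟩ := h5 a ha
  exact ⟨b, hb, hab.mono (kk_mono _ hm)⟩

theorem N_trans {p q : P A} {f : ℕ → ℕ} {m : ℕ} (h : q ∈ N p f m) : N q f m ⊆ N p f m := by
  obtain ⟨g1, g2, g3, g4, g5⟩ := h
  rintro r ⟨h1, h2, h3, h4, h5⟩
  have hl := h1.length_le
  refine ⟨g1.trans h1, fun i a b => ?_, g3.trans h3, fun h => (h4 h).trans (g4 (hl.trans h)),
    fun a ha => ?_⟩
  · by_cases hi : i < q.1.length
    · rw [pre_get h1 hi]
      exact g2 i a hi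
    · exact h2 i (by omega) b
  · obtain ⟨b, hb, hab⟩ := h5 a ha
    by_cases hm : q.1.length ≤ m
    · exact ⟨b, g4 hm ▸ hb, hab⟩
    · obtain ⟨c, hc, hbc⟩ := g5 b hb
      rw [kk_pre h1 (by omega)] at hab ⊢
      exact ⟨c, hc, fun i hi => (hab i hi).trans (hbc i hi)⟩

instance : TopologicalSpace (P A) where
  IsOpen U := ∀ p ∈ U, ∃ f m, N p f m ⊆ U
  isOpen_univ := fun _ _ => ⟨0, 0, subset_univ _⟩
  isOpen_inter := by
    intro U V hU hV p hp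
    obtain ⟨f, m, h⟩ := hU p hp.1
    obtain ⟨f', m', h'⟩ := hV p hp.2
    exact ⟨f ⊔ f', m ⊔ m', subset_inter ((N_mono p le_sup_left le_sup_left).trans h)
      ((N_mono p le_sup_right le_sup_right).trans h')⟩
  isOpen_sUnion := by
    rintro S hS p ⟨U, hU, hp⟩
    obtain ⟨f, m, h⟩ := hS U hU p hp
    exact ⟨f, m, h.trans (subset_sUnion_of_mem hU)⟩

theorem N_open (p : P A) (f : ℕ → ℕ) (m : ℕ) : IsOpen (N p f m) :=
  fun _ hq => ⟨f, m, N_trans hq⟩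

theorem fin_mem {F : Finset A} {a : A} (h : ∀ K, ∃ b ∈ F, ag a b K) : a ∈ F := by
  by_contra ha
  have : ∀ b : A, ∃ i, b ∈ F → a.1 i ≠ b.1 i := by
    intro b
    by_cases hb : b ∈ F
    · have : a.1 ≠ b.1 := fun e => ha (Subtype.ext e ▸ hb)
      obtain ⟨i, hi⟩ := ne_iff.1 this
      exact ⟨i, fun _ => hi⟩
    · exact ⟨0, fun h => (hb h).elim⟩
  choose i hi using this
  obtain ⟨b, hb, hab⟩ := h (F.sup i + 1)
  exact hi b hb (hab _ (Nat.lt_succ_of_le (Finset.le_sup hb)))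

theorem N_closed (p : P A) (f : ℕ → ℕ) (m : ℕ) : IsClosed (N p f m) := by
  refine ⟨fun q hq => ?_⟩
  by_contra hh
  push Not at hh
  have H : ∀ f' m', ∃ r ∈ N q f' m', r ∈ N p f m := fun f' m' => by
    obtain ⟨r, h1, h2⟩ := not_subset.1 (hh f' m')
    exact ⟨r, h1, not_not.1 h2⟩
  apply hq
  have e1 : p.1 <+: q.1 := by
    obtain ⟨r, h1, h2⟩ := H (fun i => p.1.getD i 0 + 1) 0
    refine List.prefix_of_prefix_length_le h2.1 h1.1 ?_
    by_contra hl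
    push Not at hl
    have := h1.2.1 _ le_rfl (hl.trans_le h2.1.length_le)
    rw [pre_get h2.1 hl] at this
    exact Nat.not_succ_le_self _ this
  have e4 : q.1.length ≤ m → q.2 ⊆ p.2 := by
    intro hm b hb
    refine fin_mem fun K => ?_
    obtain ⟨r, h1, h2⟩ := H (fun _ => K) 0
    by_cases hr : r.1.length ≤ m
    · exact ⟨b, h2.2.2.2.1 hr ▸ h1.2.2.1 hb, fun _ _ => rfl⟩
    · obtain ⟨c, hc, hbc⟩ := h2.2.2.2.2 b (h1.2.2.1 hb)
      exact ⟨c, hc, hbc.mono ((h1.2.1 m hm (by omega)).trans (le_kk _ _))⟩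
  have e3 : p.2 ⊆ q.2 := by
    intro a ha
    refine fin_mem fun K => ?_
    obtain ⟨r, h1, h2⟩ := H (fun _ => K) q.1.length
    by_cases hr : r.1.length ≤ q.1.length
    · exact ⟨a, h1.2.2.2.1 hr ▸ h2.2.2.1 ha, fun _ _ => rfl⟩
    · obtain ⟨c, hc, hbc⟩ := h1.2.2.2.2 a (h2.2.2.1 ha)
      exact ⟨c, hc, hbc.mono ((h1.2.1 _ le_rfl (by omega)).trans (le_kk _ _))⟩
  obtain ⟨r, h1, h2⟩ := H 0 0
  refine ⟨e1, fun i a b => ?_, e3, fun hm => (e4 hm).antisymm e3, fun a ha => ?_⟩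
  · rw [← pre_get h1.1 b]
    exact h2.2.1 i a (b.trans_le h1.1.length_le)
  · by_cases hm : q.1.length ≤ m
    · exact ⟨a, e4 hm ha, fun _ _ => rfl⟩
    · rw [← kk_pre h1.1 (by omega : m < q.1.length)]
      exact h2.2.2.2.2 a (h1.2.2.1 ha)

theorem basis : TopologicalSpace.IsTopologicalBasis {W : Set (P A) | IsClopen W} := by
  refine TopologicalSpace.isTopologicalBasis_of_isOpen_of_nhds (fun W hW => hW.isOpen) ?_
  intro p U hp hU
  obtain ⟨f, m, h⟩ := hU p hp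
  exact ⟨N p f m, ⟨N_closed p f m, N_open p f m⟩, self_mem p f m, h⟩

theorem t2 : T2Space (P A) := by
  refine ⟨fun p q hpq => ?_⟩
  have : q ∉ N p (fun i => q.1.getD i 0 + 1) q.1.length := by
    rintro ⟨h1, h2, -, h4, -⟩
    apply hpq
    refine Prod.ext (h1.eq_of_length_le ?_) (h4 le_rfl).symm
    by_contra hl
    exact Nat.not_succ_le_self _ (h2 _ le_rfl (not_le.1 hl))
  exact ⟨_, _, N_open _ _ _, (N_closed _ _ _).isOpen_compl, self_mem _ _ _, this,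
    disjoint_compl_right⟩

theorem exists_ext (s : List ℕ) (f : ℕ → ℕ) (m : ℕ) : ∃ t : List ℕ, s <+: t ∧ m < t.length ∧
    ∀ i, s.length ≤ i → i < t.length → f i ≤ t.getD i 0 := by
  refine ⟨s ++ List.ofFn (fun j : Fin (m + 1) => f (s.length + j)), List.prefix_append _ _,
    by simp; omega, fun i h h' => ?_⟩
  simp only [List.length_append, List.length_ofFn] at h'
  rw [List.getD_eq_getElem?_getD, List.getElem?_append_right h, List.getElem?_ofFn,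
    dif_pos (by omega)]
  simp [Nat.add_sub_cancel' h]

theorem wl (𝒰 : Set (Set (P A))) (ho : ∀ U ∈ 𝒰, IsOpen U) (hc : ⋃₀ 𝒰 = univ) :
    ∃ 𝒱 ⊆ 𝒰, 𝒱.Countable ∧ Dense (⋃₀ 𝒱) := by
  classical
  let cd : Finset A → ℕ → Finset (List Bool) := fun F K =>
    F.image fun a => List.ofFn fun i : Fin K => a.1 i
  have hcd : ∀ F H K, cd F K = cd H K → ∀ a ∈ F, ∃ b ∈ H, ag a b K := by
    intro F H K h a ha
    have : (List.ofFn fun i : Fin K => a.1 i) ∈ cd H K := h ▸ Finset.mem_image_of_mem _ ha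
    obtain ⟨b, hb, e⟩ := Finset.mem_image.1 this
    exact ⟨b, hb, fun i hi => (congrFun (List.ofFn_injective e) ⟨i, hi⟩).symm⟩
  let R : List ℕ × ℕ × Finset (List Bool) → P A → (ℕ → ℕ) → Prop := fun c p f =>
    p.1 <+: c.1 ∧ c.2.1 < c.1.length ∧
      (∀ i, p.1.length ≤ i → i < c.1.length → f i ≤ c.1.getD i 0) ∧ cd p.2 (kk c.1 c.2.1) = c.2.2
  have hR : ∀ c p f q g, R c p f → R c q g → ((c.1, p.2 ∪ q.2) : P A) ∈ N p f c.2.1 := by
    intro c p f q g h h'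
    refine ⟨h.1, h.2.2.1, Finset.subset_union_left, fun hh => ?_, fun a ha => ?_⟩
    · exact absurd h.2.1 (not_lt.2 hh)
    · rcases Finset.mem_union.1 ha with ha | ha
      · exact ⟨a, ha, fun _ _ => rfl⟩
      · exact hcd _ _ _ (h'.2.2.2.trans h.2.2.2.symm) a ha
  let S : Set (List ℕ × ℕ × Finset (List Bool)) :=
    {c | ∃ U ∈ 𝒰, ∃ p f, R c p f ∧ N p f c.2.1 ⊆ U}
  have hS : ∀ c : S, ∃ U ∈ 𝒰, ∃ p f, R c p f ∧ N p f c.1.2.1 ⊆ U := fun c => c.2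
  choose U hU p f hp hN using hS
  refine ⟨range U, range_subset_iff.2 hU, countable_range _, ?_⟩
  rw [dense_iff_inter_open]
  rintro O hO ⟨q, hq⟩
  obtain ⟨W, hW, hqW⟩ := (hc ▸ mem_univ q : q ∈ ⋃₀ 𝒰)
  obtain ⟨g, m, hg⟩ := (hO.inter (ho W hW)) q ⟨hq, hqW⟩
  obtain ⟨t, h1, h2, h3⟩ := exists_ext q.1 g m
  have hc' : R (t, m, cd q.2 (kk t m)) q g := ⟨h1, h2, h3, rfl⟩
  let c : S := ⟨(t, m, cd q.2 (kk t m)), W, hW, q, g, hc', hg.trans inter_subset_right⟩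
  refine ⟨(t, q.2 ∪ (p c).2), (hg (hR _ _ _ _ _ hc' (hp c))).1, U c, ⟨c, rfl⟩, hN c ?_⟩
  rw [Finset.union_comm]
  exact hR _ _ _ _ _ (hp c) hc'

theorem not_wm (hA : ¬ A.Countable) : ∃ 𝒰 : ℕ → Set (Set (P A)),
    (∀ n, (∀ U ∈ 𝒰 n, IsOpen U) ∧ ⋃₀ 𝒰 n = univ) ∧
    ∀ 𝒱 : ℕ → Set (Set (P A)), (∀ n, 𝒱 n ⊆ 𝒰 n ∧ (𝒱 n).Finite) → ¬ Dense (⋃ n, ⋃₀ 𝒱 n) := by
  classical
  refine ⟨fun n => range fun p => N p 0 n, fun n => ⟨?_, ?_⟩, fun 𝒱 h𝒱 hd => ?_⟩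
  · rintro _ ⟨p, rfl⟩
    exact N_open _ _ _
  · exact eq_univ_of_forall fun p => ⟨_, ⟨p, rfl⟩, self_mem _ _ _⟩
  have : ∀ n, ∃ T : Set (P A), T.Finite ∧ (fun p => N p 0 n) '' T = 𝒱 n := fun n => by
    obtain ⟨T, -, h1, h2⟩ := ((h𝒱 n).2.exists_subset_finite_image_eq (s := univ)
      (f := fun p => N p 0 n) (by simpa using (h𝒱 n).1))
    exact ⟨T, h1, h2⟩
  choose T hT hTV using this
  have hcnt : (⋃ n, ⋃ p ∈ T n, (p.2 : Set A)).Countable :=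
    countable_iUnion fun n => (hT n).countable.biUnion fun p _ => p.2.countable_toSet
  obtain ⟨a, ha⟩ : ∃ a : A, a ∉ ⋃ n, ⋃ p ∈ T n, (p.2 : Set A) := by
    by_contra hh
    push Not at hh
    exact hA (countable_coe_iff.1 (countable_univ_iff.1 (hcnt.mono fun a _ => hh a)))
  simp only [mem_iUnion, not_exists] at ha
  have hK : ∀ n, ∀ p : P A, ∃ K, p ∈ T n → p.1.getD n 0 < K ∧ ∀ b ∈ p.2, ¬ ag a b K := by
    intro n p
    by_cases hp : p ∈ T n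
    · have := mt (fin_mem (F := p.2) (a := a)) (ha n p hp)
      push Not at this
      obtain ⟨K, hK⟩ := this
      exact ⟨K + p.1.getD n 0 + 1, fun _ => ⟨by omega, fun b hb h => hK b hb (h.mono (by omega))⟩⟩
    · exact ⟨0, fun h => (hp h).elim⟩
  choose K hK using hK
  let f : ℕ → ℕ := fun n => (hT n).toFinset.sup (K n)
  have hW : IsOpen {q : P A | a ∈ q.2 ∧ ∀ i < q.1.length, f i ≤ q.1.getD i 0} := by
    intro q hq
    refine ⟨f, 0, fun r hr => ⟨hr.2.2.1 hq.1, fun i hi => ?_⟩⟩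
    by_cases h : i < q.1.length
    · rw [pre_get hr.1 h]
      exact hq.2 i h
    · exact hr.2.1 i (by omega) hi
  obtain ⟨q, hq, hq'⟩ := hd.inter_open_nonempty _ hW ⟨([], {a}), by simp, by simp⟩
  obtain ⟨n, U, hU, hqU⟩ := mem_iUnion.1 hq'
  rw [← hTV n] at hU
  obtain ⟨p, hp, rfl⟩ := hU
  by_cases hl : q.1.length ≤ n
  · exact ha n p hp (hqU.2.2.2.1 hl ▸ hq.1)
  · obtain ⟨b, hb, hab⟩ := hqU.2.2.2.2 a hq.1
    have h1 : K n p ≤ f n := Finset.le_sup (f := K n) ((hT n).mem_toFinset.2 hp)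
    exact (hK n p hp).2 b hb (hab.mono (h1.trans ((hq.2 n (by omega)).trans (le_kk _ _))))

end Pool.Agent.H25.WMen
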