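import Mathlib

/-! Combinatorial structures: a tripartite ternary relation with witnesses forcing it. -/

namespace Pool.Agent.H25.WO

open Cardinal

/-- Colours, a unary relation, a binary relation, a ternary relation. -/
structure D where
  N : Type
  C : Fin 4 → N → Prop
  K : N → Prop
  I : N → N → Prop
  R : (Fin 3 → N) → Prop

/-- The universal theory. -/
structure Good (A : D) : Prop where
  g1 : ∀ i j x, A.C i x → A.C j x → i = j
  g2 : ∀ e x, A.I e x → A.C 3 e ∧ ¬ A.C 3 x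
  g3 : ∀ t, A.R t → ∀ i : Fin 3, A.C i.castSucc (t i)
  g4 : ∀ e (t : Fin 3 → A.N), (∀ i, A.I e (t i)) → (∀ i : Fin 3, A.C i.castSucc (t i)) → A.R t

/-- Same quantifier-free type. -/
structure Same (A B : D) {ι : Type} (v : ι → A.N) (w : ι → B.N) : Prop where
  eq : ∀ i j, v i = v j ↔ w i = w j
  c : ∀ k i, A.C k (v i) ↔ B.C k (w i)
  k : ∀ i, A.K (v i) ↔ B.K (w i)
  i : ∀ i j, A.I (v i) (v j) ↔ B.I (w i) (w j)
  r : ∀ f : Fin 3 → ι, A.R (v ∘ f) ↔ B.R (w ∘ f)

theorem Same.symm {A B : D} {ι : Type} {v : ι → A.N} {w : ι → B.N} (h : Same A B v w) :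
    Same B A w v :=
  ⟨fun i j => (h.eq i j).symm, fun k i => (h.c k i).symm, fun i => (h.k i).symm,
    fun i j => (h.i i j).symm, fun f => (h.r f).symm⟩

theorem Same.trans {A B E : D} {ι : Type} {v : ι → A.N} {w : ι → B.N} {u : ι → E.N}
    (h : Same A B v w) (h' : Same B E w u) : Same A E v u :=
  ⟨fun i j => (h.eq i j).trans (h'.eq i j), fun k i => (h.c k i).trans (h'.c k i),
    fun i => (h.k i).trans (h'.k i), fun i j => (h.i i j).trans (h'.i i j),
    fun f => (h.r f).trans (h'.r f)⟩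

theorem Same.comp {A B : D} {ι κ : Type} {v : ι → A.N} {w : ι → B.N} (h : Same A B v w)
    (g : κ → ι) {v' : κ → A.N} {w' : κ → B.N} (hv : ∀ a, v' a = v (g a))
    (hw : ∀ a, w' a = w (g a)) : Same A B v' w' := by
  obtain rfl : v' = v ∘ g := funext hv
  obtain rfl : w' = w ∘ g := funext hw
  exact ⟨fun i j => h.eq _ _, fun k i => h.c _ _, fun i => h.k _, fun i j => h.i _ _,
    fun f => h.r (g ∘ f)⟩

/-- Adding one element to a family. -/
def ext {ι N : Type} (x : N) (u : ι → N) : Option ι → N := fun o => o.elim x u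

/-- The extension property. -/
def EXT (A : D) : Prop := ∀ (B : D), Good B → ∀ (ι : Type) [Finite ι] (u : ι → A.N) (v : ι → B.N),
  Same A B u v → ∀ y, ∃ x, Same A B (ext x u) (ext y v)

section Big
variable (V : D)

/-- Carrier of the big extension. -/
abbrev X : Type := V.N ⊕ (ℕ × (V.N ⊕ ℕ))

/-- Data of a new element. -/
abbrev Dat : Type := (Option (Fin 4) × Prop) × Finset (X V) × Finset (Fin 3 → Option (X V))

theorem exists_dec : ∃ dec : V.N ⊕ ℕ → Dat V, Function.Surjective dec := by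
  have h0 : ℵ₀ ≤ #(V.N ⊕ ℕ) := infinite_iff.1 inferInstance
  have hX : #(X V) ≤ #(V.N ⊕ ℕ) := by
    rw [X, mk_sum, mk_prod, lift_id, lift_id, lift_id]
    refine add_le_of_le h0 (mk_le_of_injective Sum.inl_injective) ?_
    rw [lift_id]
    exact mul_le_of_le h0 (by simpa using h0) le_rfl
  have h1 : #(Fin 3 → Option (X V)) ≤ #(V.N ⊕ ℕ) := by
    rw [← power_def, mk_fin, mk_option]
    refine (power_le_power_right (add_le_of_le h0 hX (one_le_aleph0.trans h0))).trans ?_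
    rw [power_natCast]; exact power_nat_le h0
  have h2 : #(Dat V) ≤ #(V.N ⊕ ℕ) := by
    rw [Dat, mk_prod, mk_prod (Finset _), lift_id, lift_id, lift_id, lift_id,
      mk_finset_of_infinite, mk_finset_of_infinite]
    exact mul_le_of_le h0 (mk_le_aleph0.trans h0) (mul_le_of_le h0 hX h1)
  obtain ⟨f⟩ := (le_def _ _).1 h2
  exact ⟨Function.invFun f, Function.invFun_surjective f.injective⟩

/-- Decoding. -/
noncomputable def dec : V.N ⊕ ℕ → Dat V := (exists_dec V).choose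

variable {V}

/-- Rank. -/
def rk : X V → ℕ := Sum.elim (fun _ => 0) (fun p => p.1 + 1)
/-- Colours. -/
def CX (k : Fin 4) : X V → Prop := Sum.elim (V.C k) (fun p => (dec V p.2).1.1 = some k)
/-- The unary relation. -/
def KX : X V → Prop := Sum.elim V.K (fun p => (dec V p.2).1.2)
/-- Listed neighbours. -/
noncomputable def AX : X V → Finset (X V) := Sum.elim (fun _ => ∅) (fun p => (dec V p.2).2.1)
/-- Listed triples. -/
noncomputable def BX : X V → Finset (Fin 3 → Option (X V)) :=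
  Sum.elim (fun _ => ∅) (fun p => (dec V p.2).2.2)

/-- The binary and ternary relations, generated together. -/
inductive Rel : (X V × X V) ⊕ (Fin 3 → X V) → Prop
  | bI (a b : V.N) : V.I a b → Rel (.inl (.inl a, .inl b))
  | up (z x : X V) : rk x < rk z → x ∈ AX z → CX 3 z → ¬ CX 3 x →
      (∀ t : Fin 3 → X V, (∀ i, t i ∈ AX z) → (∀ i : Fin 3, CX i.castSucc (t i)) →
        (∀ i, rk (t i) < rk z) → Rel (.inr t)) → Rel (.inl (z, x))
  | down (e z : X V) : rk e < rk z → e ∈ AX z → CX 3 e → ¬ CX 3 z → Rel (.inl (e, z))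
  | bR (σ : Fin 3 → V.N) : V.R σ → Rel (.inr (Sum.inl ∘ σ))
  | new (t : Fin 3 → X V) (i : Fin 3) : (∀ j, j ≠ i → rk (t j) < rk (t i)) →
      (∀ i : Fin 3, CX i.castSucc (t i)) → Function.update (some ∘ t) i none ∈ BX (t i) →
      Rel (.inr t)
  | forced (t : Fin 3 → X V) (i : Fin 3) (e : X V) : rk e < rk (t i) →
      (∀ i : Fin 3, CX i.castSucc (t i)) → (∀ j, Rel (.inl (e, t j))) → Rel (.inr t)

theorem relI {e x : X V} (h : Rel (.inl (e, x))) :
    (∃ a b, e = .inl a ∧ x = .inl b ∧ V.I a b) ∨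
    (rk x < rk e ∧ x ∈ AX e ∧ CX 3 e ∧ ¬ CX 3 x ∧
      ∀ t : Fin 3 → X V, (∀ i, t i ∈ AX e) → (∀ i : Fin 3, CX i.castSucc (t i)) →
        (∀ i, rk (t i) < rk e) → Rel (.inr t)) ∨
    (rk e < rk x ∧ e ∈ AX x ∧ CX 3 e ∧ ¬ CX 3 x) := by
  cases h with
  | bI a b h => exact Or.inl ⟨a, b, rfl, rfl, h⟩
  | up _ _ h1 h2 h3 h4 h5 => exact Or.inr (Or.inl ⟨h1, h2, h3, h4, h5⟩)
  | down _ _ h1 h2 h3 h4 => exact Or.inr (Or.inr ⟨h1, h2, h3, h4⟩)

theorem relR {t : Fin 3 → X V} (h : Rel (.inr t)) :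
    (∃ σ, t = Sum.inl ∘ σ ∧ V.R σ) ∨
    ((∀ i : Fin 3, CX i.castSucc (t i)) ∧
      ((∃ i, (∀ j, j ≠ i → rk (t j) < rk (t i)) ∧ Function.update (some ∘ t) i none ∈ BX (t i)) ∨
      ∃ i e, rk e < rk (t i) ∧ ∀ j, Rel (.inl (e, t j)))) := by
  cases h with
  | bR σ h => exact Or.inl ⟨σ, rfl, h⟩
  | new _ i h1 h2 h3 => exact Or.inr ⟨h2, Or.inl ⟨i, h1, h3⟩⟩
  | forced _ i e h1 h2 h3 => exact Or.inr ⟨h2, Or.inr ⟨i, e, h1, h3⟩⟩

variable (V)

/-- The big extension. -/
abbrev Big : D := ⟨X V, CX, KX, fun e x => Rel (.inl (e, x)), fun t => Rel (.inr t)⟩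

theorem big_same : Same V (Big V) id Sum.inl := by
  refine ⟨fun i j => Sum.inl_injective.eq_iff.symm, fun _ _ => Iff.rfl, fun _ => Iff.rfl,
    fun a b => ⟨fun h => Rel.bI a b h, fun h => ?_⟩, fun f => ⟨fun h => Rel.bR f h, fun h => ?_⟩⟩
  · rcases relI h with ⟨a', b', e1, e2, h⟩ | h | h
    · cases e1; cases e2; exact h
    · exact absurd h.1 (lt_irrefl 0)
    · exact absurd h.1 (lt_irrefl 0)
  · rcases relR h with ⟨σ, e, h⟩ | ⟨-, ⟨i, -, h⟩ | ⟨i, e, h, -⟩⟩
    · obtain rfl : f = σ := funext fun i => Sum.inl_injective (congrFun e i)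
      exact h
    · exact absurd h (Finset.notMem_empty _)
    · exact absurd h (Nat.not_lt_zero _)

variable {V}

theorem big_good (hV : Good V) : Good (Big V) := by
  refine ⟨fun i j x h1 h2 => ?_, fun e x h => ?_, fun t h => ?_, fun e t h hc => ?_⟩
  · rcases x with x | x
    · exact hV.g1 i j x h1 h2
    · exact Option.some_injective _ ((Eq.symm h1).trans h2)
  · rcases relI h with ⟨a', b', rfl, rfl, h'⟩ | h | h
    · exact hV.g2 _ _ h'
    · exact ⟨h.2.2.1, h.2.2.2.1⟩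
    · exact h.2.2
  · rcases relR h with ⟨σ, rfl, h'⟩ | h
    · exact hV.g3 σ h'
    · exact h.1
  · by_cases hd : ∃ i, rk e < rk (t i)
    · obtain ⟨i, hi⟩ := hd
      exact Rel.forced t i e hi hc h
    rcases e with e | e
    · have : ∀ i, ∃ b, t i = .inl b ∧ V.I e b := by
        intro i
        rcases relI (h i) with ⟨a', b', e1, e2, h⟩ | h | h
        · cases e1; exact ⟨b', e2, h⟩
        · exact absurd h.1 (Nat.not_lt_zero _)
        · exact absurd ⟨i, h.1⟩ hd
      choose σ h1 h2 using this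
      obtain rfl : t = Sum.inl ∘ σ := funext h1
      exact Rel.bR σ (hV.g4 e σ h2 hc)
    · have : ∀ i, rk (t i) < rk (V := V) (.inr e) ∧ t i ∈ AX (V := V) (.inr e) ∧
          ((∀ i, t i ∈ AX (V := V) (.inr e)) → (∀ i : Fin 3, CX i.castSucc (t i)) →
          (∀ i, rk (t i) < rk (V := V) (.inr e)) → Rel (.inr t)) := by
        intro i
        rcases relI (h i) with ⟨a', b', e1, e2, h⟩ | h | h
        · cases e1
        · exact ⟨h.1, h.2.1, h.2.2.2.2 t⟩
        · exact absurd ⟨i, h.1⟩ hd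
      exact (this 0).2.2 (fun i => (this i).2.1) hc (fun i => (this i).1)

end Big

end Pool.Agent.H25.WO
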