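import Pool.Agent.H25.WO1

/-! The big extension has the extension property; generic elements. -/

namespace Pool.Agent.H25.WO

theorem Same.of_mem {A B : D} {ι : Type} {u : ι → A.N} {v : ι → B.N} (h : Same A B u v) (i : ι) :
    Same A B (ext (u i) u) (ext (v i) v) :=
  h.comp (fun o => o.elim i id) (fun o => by cases o <;> rfl) (fun o => by cases o <;> rfl)

theorem none_unique {B : D} (hB : Good B) {ι : Type} {y : B.N} {v : ι → B.N}
    {s : Fin 3 → Option ι} (hc : ∀ i : Fin 3, B.C i.castSucc (ext y v (s i))) {i j : Fin 3}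
    (hi : s i = none) (hj : s j = none) : i = j := by
  have h1 := hc i
  have h2 := hc j
  rw [hi] at h1
  rw [hj] at h2
  exact Fin.castSucc_injective _ (hB.g1 _ _ _ h1 h2)

theorem big_ext' (V B : D) (hB : Good B) (ι : Type) [Finite ι] (u : ι → X V) (v : ι → B.N)
    (h : Same (Big V) B u v) (y : B.N) : ∃ x : X V, Same (Big V) B (ext x u) (ext y v) := by
  classical
  by_cases hy : ∃ i, v i = y
  · obtain ⟨i, rfl⟩ := hy
    exact ⟨u i, h.of_mem i⟩
  have := Fintype.ofFinite ι
  let A0 : Finset (X V) := (Finset.univ.filter fun i => B.I y (v i) ∨ B.I (v i) y).image u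
  let B0 : Finset (Fin 3 → Option (X V)) :=
    (Finset.univ.filter fun s : Fin 3 → Option ι => B.R (ext y v ∘ s)).image
      fun s j => (s j).map u
  obtain ⟨d, hd⟩ := (exists_dec V).choose_spec
    ((if h : ∃ k, B.C k y then some h.choose else none, B.K y), A0, B0)
  change dec V d = _ at hd
  let z : X V := .inr (Finset.univ.sup fun i => rk (u i), d)
  have hr : ∀ i, rk (u i) < rk z := fun i =>
    Nat.lt_succ_of_le (Finset.le_sup (f := fun i => rk (u i)) (Finset.mem_univ i))
  have hC : ∀ k, CX k z ↔ B.C k y := by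
    intro k
    change (dec V d).1.1 = some k ↔ _
    rw [hd]
    dsimp only
    split_ifs with e
    · exact ⟨fun h => Option.some_injective _ h ▸ e.choose_spec,
        fun h => congrArg some (hB.g1 _ _ _ e.choose_spec h)⟩
    · exact ⟨fun h => (by cases h), fun h => absurd ⟨k, h⟩ e⟩
  have hA : ∀ x, x ∈ AX z ↔ ∃ i, (B.I y (v i) ∨ B.I (v i) y) ∧ u i = x := by
    intro x
    change x ∈ (dec V d).2.1 ↔ _
    rw [hd]; simp [A0]
  have hA' : ∀ i, u i ∈ AX z ↔ (B.I y (v i) ∨ B.I (v i) y) := by
    intro i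
    rw [hA]
    exact ⟨fun ⟨j, h1, h2⟩ => (h.eq j i).1 h2 ▸ h1, fun h1 => ⟨i, h1, rfl⟩⟩
  have hB0 : BX z = B0 := by
    change (dec V d).2.2 = _
    rw [hd]
  have hc : ∀ k o, CX k (ext z u o) ↔ B.C k (ext y v o) := by
    rintro k (_ | i)
    · exact hC k
    · exact h.c k i
  have hI1 : ∀ i, Rel (.inl (z, u i)) ↔ B.I y (v i) := by
    intro i
    constructor
    · intro H
      rcases relI H with ⟨a, b, e, -⟩ | H | H
      · exact absurd e Sum.inr_ne_inl
      · rcases (hA' i).1 H.2.1 with e | e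
        · exact e
        · exact absurd ((hC 3).1 H.2.2.1) (hB.g2 _ _ e).2
      · exact absurd H.1 (not_lt.2 (hr i).le)
    · intro H
      refine Rel.up _ _ (hr i) ((hA' i).2 (Or.inl H)) ((hC 3).2 (hB.g2 _ _ H).1)
        (fun e => (hB.g2 _ _ H).2 ((h.c 3 i).1 e)) fun t ht hct _ => ?_
      choose f hf1 hf2 using fun j => (hA _).1 (ht j)
      obtain rfl : t = u ∘ f := funext fun j => (hf2 j).symm
      refine (h.r f).2 (hB.g4 y _ (fun j => (hf1 j).resolve_right fun e => ?_)
        fun j => (h.c _ _).1 (hct j))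
      exact (hB.g2 _ _ e).2 (hB.g2 _ _ H).1
  have hI2 : ∀ i, Rel (.inl (u i, z)) ↔ B.I (v i) y := by
    intro i
    constructor
    · intro H
      rcases relI H with ⟨a, b, -, e, -⟩ | H | H
      · exact absurd e Sum.inr_ne_inl
      · exact absurd H.1 (not_lt.2 (hr i).le)
      · rcases (hA' i).1 H.2.1 with e | e
        · exact absurd ((hC 3).2 (hB.g2 _ _ e).1) H.2.2.2
        · exact e
    · intro H
      exact Rel.down _ _ (hr i) ((hA' i).2 (Or.inr H)) ((h.c 3 i).2 (hB.g2 _ _ H).1)
        fun e => (hB.g2 _ _ H).2 ((hC 3).1 e)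
  have hI : ∀ o o', Rel (.inl (ext z u o, ext z u o')) ↔ B.I (ext y v o) (ext y v o') := by
    rintro (_ | i) (_ | j)
    · refine iff_of_false (fun H => ?_) (fun H => (hB.g2 _ _ H).2 (hB.g2 _ _ H).1)
      rcases relI H with ⟨a, b, e, -⟩ | H | H
      · exact absurd e Sum.inr_ne_inl
      · exact absurd H.1 (lt_irrefl _)
      · exact absurd H.1 (lt_irrefl _)
    · exact hI1 j
    · exact hI2 i
    · exact h.i i j
  have hle : ∀ o, rk (ext z u o) ≤ rk z := by
    rintro (_ | i)
    · exact le_rfl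
    · exact (hr i).le
  refine ⟨z, ?_, hc, ?_, hI, fun s => ?_⟩
  · rintro (_ | i) (_ | j)
    · exact iff_of_true rfl rfl
    · exact iff_of_false (fun e => (hr j).ne (congrArg rk e.symm)) (fun e => hy ⟨j, e.symm⟩)
    · exact iff_of_false (fun e => (hr i).ne (congrArg rk e)) (fun e => hy ⟨i, e⟩)
    · exact h.eq i j
  · rintro (_ | i)
    · change (dec V d).1.2 ↔ _
      rw [hd]; rfl
    · exact h.k i
  by_cases hs : ∃ i, s i = none
  swap
  · have : ∀ i, ∃ a, s i = some a := fun i => Option.ne_none_iff_exists'.1 fun e => hs ⟨i, e⟩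
    choose f hf using this
    obtain rfl : s = some ∘ f := funext hf
    exact h.r f
  obtain ⟨i0, hi0⟩ := hs
  have hz : ext z u (s i0) = z := by rw [hi0]; rfl
  have hup : (∀ i : Fin 3, B.C i.castSucc (ext y v (s i))) →
      Function.update (some ∘ (ext z u ∘ s)) i0 none = fun j => (s j).map u := by
    intro hcs
    funext j
    by_cases e : j = i0
    · subst e; simp [hi0]
    · rw [Function.update_of_ne e]
      obtain ⟨a, ha⟩ := Option.ne_none_iff_exists'.1 fun e' => e (none_unique hB hcs e' hi0)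
      simp [ha, ext]
  constructor
  · intro H
    rcases relR H with ⟨σ, e, -⟩ | ⟨hcs, ⟨i, h1, h2⟩ | ⟨i, e, h1, h2⟩⟩
    · have := congrFun e i0
      rw [Function.comp_apply, hz] at this
      exact absurd this Sum.inr_ne_inl
    · have hcs' : ∀ i : Fin 3, B.C i.castSucc (ext y v (s i)) := fun i => (hc _ _).1 (hcs i)
      obtain rfl : i0 = i := by
        by_contra e
        have := h1 i0 e
        rw [Function.comp_apply, hz] at this
        exact absurd this (not_lt.2 (hle _))
      rw [hup hcs', Function.comp_apply, hz, hB0] at h2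
      simp only [B0, Finset.mem_image, Finset.mem_filter, Finset.mem_univ, true_and] at h2
      obtain ⟨s', h3, h4⟩ := h2
      have : ext y v ∘ s' = ext y v ∘ s := by
        funext j
        have := congrFun h4 j
        rcases e1 : s' j with _ | a <;> rcases e2 : s j with _ | b <;>
          simp only [e1, e2, Option.map_none, Option.map_some, reduceCtorEq,
            Option.some.injEq, Function.comp_apply] at this ⊢
        exact (h.eq a b).1 this
      rw [← this]; exact h3
    · have hcs' : ∀ i : Fin 3, B.C i.castSucc (ext y v (s i)) := fun i => (hc _ _).1 (hcs i)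
      have h3 := h2 i0
      rw [Function.comp_apply, hz] at h3
      have h4 : rk e < rk z := h1.trans_le (hle _)
      rcases relI h3 with ⟨a, b, -, e', -⟩ | H' | H'
      · exact absurd e' Sum.inr_ne_inl
      · exact absurd H'.1 (not_lt.2 h4.le)
      · obtain ⟨k, -, rfl⟩ := (hA _).1 H'.2.1
        exact hB.g4 (v k) _ (fun j => (hI (some k) (s j)).1 (h2 j)) hcs'
  · intro H
    have hcs' := hB.g3 _ H
    refine Rel.new _ i0 (fun j e => ?_) (fun i => (hc _ _).2 (hcs' i)) ?_
    · obtain ⟨a, ha⟩ := Option.ne_none_iff_exists'.1 fun e' => e (none_unique hB hcs' e' hi0)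
      rw [Function.comp_apply, Function.comp_apply, hz, ha]
      exact hr a
    · rw [hup hcs', Function.comp_apply, hz, hB0]
      simp only [B0, Finset.mem_image, Finset.mem_filter, Finset.mem_univ, true_and]
      exact ⟨s, H, rfl⟩

theorem big_ext (V : D) : EXT (Big V) := fun B hB ι _ u v h y => big_ext' V B hB ι u v h y

/-- The kind of witnesses attached to the `m`-th generic element. -/
def PK (m : Fin 3) (k : Prop) : Prop := (m = 0 → k) ∧ (m = 1 → ¬ k)

/-- `x` is generic of sort `m` over the family `u`. -/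
structure Gen (m : Fin 3) (A : D) {ι : Type} (x : A.N) (u : ι → A.N) : Prop where
  ne : ∀ i, x ≠ u i
  c : ∀ k, A.C k x ↔ k = m.castSucc
  k : ¬ A.K x
  i : ∀ i, A.I (u i) x ↔ A.C 3 (u i) ∧ PK m (A.K (u i))
  r : ∀ s : Fin 3 → Option ι, (∃ j, s j = none) →
    (∀ j : Fin 3, A.C j.castSucc (ext x u (s j))) → A.R (ext x u ∘ s)

theorem Gen.not3 {m : Fin 3} {A : D} {ι : Type} {x : A.N} {u : ι → A.N} (h : Gen m A x u) :
    ¬ A.C 3 x := fun e => (Fin.castSucc_lt_last m).ne' ((h.c 3).1 e)

theorem Gen.same {m : Fin 3} {A B : D} (hA : Good A) (hB : Good B) {ι : Type} {x : A.N}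
    {u : ι → A.N} {y : B.N} {v : ι → B.N} (h : Same A B u v) (hx : Gen m A x u)
    (hy : Gen m B y v) : Same A B (ext x u) (ext y v) := by
  have hc : ∀ k o, A.C k (ext x u o) ↔ B.C k (ext y v o) := by
    rintro k (_ | i)
    · exact (hx.c k).trans (hy.c k).symm
    · exact h.c k i
  refine ⟨?_, hc, ?_, ?_, fun s => ?_⟩
  · rintro (_ | i) (_ | j)
    · exact iff_of_true rfl rfl
    · exact iff_of_false (hx.ne j) (hy.ne j)
    · exact iff_of_false (hx.ne i).symm (hy.ne i).symm
    · exact h.eq i j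
  · rintro (_ | i)
    · exact iff_of_false hx.k hy.k
    · exact h.k i
  · rintro (_ | i) o
    · exact iff_of_false (fun e => hx.not3 (hA.g2 _ _ e).1) (fun e => hy.not3 (hB.g2 _ _ e).1)
    · rcases o with _ | j
      · refine (hx.i i).trans (Iff.trans ?_ (hy.i i).symm)
        rw [h.c 3 i, propext (h.k i)]
      · exact h.i i j
  · by_cases hs : ∃ i, s i = none
    · exact ⟨fun e => hy.r s hs fun j => (hc _ _).1 (hA.g3 _ e j),
        fun e => hx.r s hs fun j => (hc _ _).2 (hB.g3 _ e j)⟩
    · have : ∀ i, ∃ a, s i = some a := fun i => Option.ne_none_iff_exists'.1 fun e => hs ⟨i, e⟩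
      choose f hf using this
      obtain rfl : s = some ∘ f := funext hf
      exact h.r f

theorem Gen.of_same {m : Fin 3} {A B : D} {ι : Type} {x : A.N}
    {u : ι → A.N} {y : B.N} {v : ι → B.N} (h : Same A B (ext x u) (ext y v)) (hx : Gen m A x u) :
    Gen m B y v := by
  refine ⟨fun i e => hx.ne i ((h.eq none (some i)).2 e), fun k => (h.c k none).symm.trans (hx.c k),
    fun e => hx.k ((h.k none).2 e), fun i => (h.i (some i) none).symm.trans ((hx.i i).trans ?_),
    fun s hs hc => (h.r s).1 (hx.r s hs fun j => (h.c _ _).2 (hc j))⟩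
  have e1 : A.C 3 (u i) ↔ B.C 3 (v i) := h.c 3 (some i)
  have e2 : A.K (u i) ↔ B.K (v i) := h.k (some i)
  rw [e1, propext e2]

theorem witness {U : D} (hU : Good U) (hE : EXT U) (m : Fin 3) (c : U.N) (k : Fin 3)
    (hc : U.C k.castSucc c) (hm : m ≠ 2) : ∃ e, U.C 3 e ∧ PK m (U.K e) ∧ U.I e c := by
  let B : D := ⟨Bool, fun j b => if b then j = 3 else U.C j c, fun b => if b then m = 0 else U.K c,
    fun a b => a = true ∧ b = false, fun _ => False⟩
  have h3 : ¬ U.C 3 c := fun e => (Fin.castSucc_lt_last k).ne (hU.g1 _ _ _ hc e)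
  have hB : Good B := by
    refine ⟨fun i j x h1 h2 => ?_, fun e x h => ?_, fun t h => h.elim, fun e t h hc' => ?_⟩
    · cases x
      · exact hU.g1 i j c h1 h2
      · exact Eq.trans h1 (Eq.symm h2)
    · obtain ⟨rfl, rfl⟩ := h
      exact ⟨rfl, h3⟩
    · have a := hc' 0
      have b := hc' 1
      rw [(h 0).2] at a
      rw [(h 1).2] at b
      cases hU.g1 _ _ c a b
  obtain ⟨e, he⟩ := hE B hB Unit (fun _ => c) (fun _ => false)
    ⟨fun _ _ => iff_of_true rfl rfl, fun _ _ => Iff.rfl, fun _ => Iff.rfl,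
      fun _ _ => iff_of_false (fun e => h3 (hU.g2 _ _ e).1) (fun e => by cases e.1),
      fun f => iff_of_false (fun e => by cases hU.g1 _ _ c (hU.g3 _ e 0) (hU.g3 _ e 1)) id⟩ true
  refine ⟨e, (he.c 3 none).2 rfl, ⟨fun h => (he.k none).2 h, fun h h' => ?_⟩,
    (he.i none (some ())).2 ⟨rfl, rfl⟩⟩
  have : m = 0 := (he.k none).1 h'
  rw [h] at this
  cases this

theorem Gen.add {U A : D} (hU : Good U) (hE : EXT U) (hA : Good A) {j : U.N → A.N}
    (hj : Same U A id j) {m : Fin 3} (hm : m ≠ 2) {a b : A.N} (ha : Gen m A a j)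
    (hb : Gen 2 A b j) : Gen m A a (ext b j) := by
  refine ⟨?_, ha.c, ha.k, ?_, fun s hs hc => ?_⟩
  · rintro (_ | i)
    · intro e
      have := (hb.c _).1 (e ▸ (ha.c _).2 rfl)
      exact hm (Fin.castSucc_injective _ this)
    · exact ha.ne i
  · rintro (_ | i)
    · exact iff_of_false (fun e => hb.not3 (hA.g2 _ _ e).1) (fun e => hb.not3 e.1)
    · exact ha.i i
  by_cases h : ∃ i, s i = some none
  swap
  · have : ∀ i, ∃ o : Option U.N, s i = o.map some := by
      intro i
      rcases e : s i with _ | _ | c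
      · exact ⟨none, rfl⟩
      · exact absurd ⟨i, e⟩ h
      · exact ⟨some c, rfl⟩
    choose f hf using this
    obtain rfl : s = fun i => (f i).map some := funext hf
    have e : ∀ o : Option U.N, ext a (ext b j) (o.map some) = ext a j o := by
      rintro (_ | o) <;> rfl
    have := ha.r f (hs.imp fun i hi => by simpa using hi) (fun i => e _ ▸ hc i)
    exact (congrArg A.R (funext fun i => e _)).mpr this
  have p1 : ∀ i, s i = none → i = m := fun i hi => by
    have := hc i
    rw [hi] at this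
    exact Fin.castSucc_injective _ ((ha.c _).1 this)
  have p2 : ∀ i, s i = some none → i = 2 := fun i hi => by
    have := hc i
    rw [hi] at this
    exact Fin.castSucc_injective _ ((hb.c _).1 this)
  obtain ⟨i1, hi1⟩ := hs
  obtain ⟨i2, hi2⟩ := h
  obtain rfl := p1 _ hi1
  obtain rfl := p2 _ hi2
  obtain ⟨k, k1, k2, k3⟩ : ∃ k : Fin 3, k ≠ i1 ∧ k ≠ 2 ∧ ∀ i, i = i1 ∨ i = 2 ∨ i = k := by
    revert hm; generalize i1 = i; revert i; decide
  obtain ⟨c, hk⟩ : ∃ c, s k = some (some c) := by
    rcases e : s k with _ | _ | c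
    · exact absurd (p1 _ e) k1
    · exact absurd (p2 _ e) k2
    · exact ⟨c, rfl⟩
  have hck := hc k
  rw [hk] at hck
  obtain ⟨e, e1, e2, e3⟩ := witness hU hE i1 c k ((hj.c _ c).2 hck) hm
  have e1' : A.C 3 (j e) := (hj.c _ e).1 e1
  refine hA.g4 (j e) _ (fun i => ?_) hc
  rcases k3 i with rfl | rfl | rfl
  · rw [Function.comp_apply, hi1]
    exact (ha.i e).2 ⟨e1', propext (hj.k e) ▸ e2⟩
  · rw [Function.comp_apply, hi2]
    exact (hb.i e).2 ⟨e1', fun h => (by cases h), fun h => (by cases h)⟩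
  · rw [Function.comp_apply, hk]
    exact (hj.i e c).1 e3

end Pool.Agent.H25.WO
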