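import Mathlib

/-! Global types, invariance, weak orthogonality and tensor products. A type over `U` in the
variables `β` is a set of formulas in the variables `U ⊕ β` (elements of `U` name themselves). -/

namespace Pool.Agent.H25.WO

open FirstOrder FirstOrder.Language

variable {L : FirstOrder.Language.{0, 0}} {U : Type} [L.Structure U]

/-- The type over `U` of the tuple `v` of an elementary extension. -/
def tp {N : Type} [L.Structure N] (j : U ↪ₑ[L] N) {β : Type} (v : β → N) :
    Set (L.Formula (U ⊕ β)) :=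
  {φ | φ.Realize (Sum.elim j v)}

/-- `p` is a complete type over `U`. -/
def IsType {β : Type} (p : Set (L.Formula (U ⊕ β))) : Prop :=
  ∃ (N : Type) (_ : L.Structure N) (j : U ↪ₑ[L] N) (v : β → N), p = tp j v

/-- `p` is fixed by every automorphism of `U` fixing `A` pointwise. -/
def Inv (A : Set U) {β : Type} (p : Set (L.Formula (U ⊕ β))) : Prop :=
  ∀ σ : U ≃[L] U, (∀ a ∈ A, σ a = a) → ∀ φ, φ.relabel (Sum.map σ id) ∈ p ↔ φ ∈ p

/-- Restriction to the first block of variables. -/
def left {β γ : Type} (r : Set (L.Formula (U ⊕ (β ⊕ γ)))) : Set (L.Formula (U ⊕ β)) :=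
  {φ | φ.relabel (Sum.map id Sum.inl) ∈ r}

/-- Restriction to the second block of variables. -/
def right {β γ : Type} (r : Set (L.Formula (U ⊕ (β ⊕ γ)))) : Set (L.Formula (U ⊕ γ)) :=
  {φ | φ.relabel (Sum.map id Sum.inr) ∈ r}

/-- `p(x) ∪ q(y)` has only one completion over `U`. -/
def WOrth {β γ : Type} (p : Set (L.Formula (U ⊕ β))) (q : Set (L.Formula (U ⊕ γ))) : Prop :=
  ∀ r r' : Set (L.Formula (U ⊕ (β ⊕ γ))), IsType r → IsType r' →
    left r = p → right r = q → left r' = p → right r' = q → r = r'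

/-- The tuple `b` of `U` realizes the restriction of `q` to `B`. -/
def RealizesOver (B : Set U) {γ : Type} (q : Set (L.Formula (U ⊕ γ))) (b : γ → U) : Prop :=
  ∀ ψ : L.Formula (B ⊕ γ), ψ.relabel (Sum.map Subtype.val id) ∈ q ↔
    ψ.Realize (Sum.elim Subtype.val b)

/-- `r = p ⊗ q` for `A`-invariant `p`: `φ(x, y; c) ∈ r` iff `φ(x, b; c) ∈ p` for `b` in `U`
realizing `q` over `A c` (and such `b` exist). -/
def IsTensor (A : Set U) {β γ : Type} (p : Set (L.Formula (U ⊕ β))) (q : Set (L.Formula (U ⊕ γ)))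
    (r : Set (L.Formula (U ⊕ (β ⊕ γ)))) : Prop :=
  IsType r ∧ ∀ (n : ℕ) (c : Fin n → U),
    (∃ b, RealizesOver (A ∪ Set.range c) q b) ∧
    ∀ b, RealizesOver (A ∪ Set.range c) q b → ∀ φ : L.Formula (Fin n ⊕ (β ⊕ γ)),
      (φ.relabel (Sum.map c id) ∈ r ↔
        φ.relabel (Sum.elim (Sum.inl ∘ c) (Sum.elim Sum.inr (Sum.inl ∘ b))) ∈ p)

end Pool.Agent.H25.WO
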