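import Pool.Agent.H25.WO2
import Pool.Agent.H25.WODefs

/-! The language, quantifier elimination and transfer to all models. -/

namespace Pool.Agent.H25.WO

open FirstOrder FirstOrder.Language

/-- Relation symbols. -/
inductive RS : ℕ → Type
  | C (k : Fin 4) : RS 1
  | K : RS 1
  | I : RS 2
  | R : RS 3

/-- The language. -/
def LW : FirstOrder.Language.{0, 0} := ⟨fun _ => Empty, RS⟩

/-- Symbols. -/
def sC (k : Fin 4) : LW.Relations 1 := RS.C k
/-- Symbols. -/
def sK : LW.Relations 1 := RS.K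
/-- Symbols. -/
def sI : LW.Relations 2 := RS.I
/-- Symbols. -/
def sR : LW.Relations 3 := RS.R

/-- The data of a structure. -/
abbrev dat (N : Type) [LW.Structure N] : D :=
  ⟨N, fun k x => Structure.RelMap (sC k) ![x], fun x => Structure.RelMap sK ![x],
    fun e x => Structure.RelMap sI ![e, x], fun t => Structure.RelMap sR t⟩

/-- The structure of data. -/
def Car (A : D) : Type := A.N

instance (A : D) : LW.Structure (Car A) where
  funMap f := f.elim
  RelMap r x := match r with
    | RS.C k => A.C k (x 0)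
    | RS.K => A.K (x 0)
    | RS.I => A.I (x 0) (x 1)
    | RS.R => A.R x

theorem dat_car (A : D) : dat (Car A) = A := rfl

theorem term_var {α : Type} (t : LW.Term α) : ∃ a, t = Term.var a := by
  cases t with
  | var a => exact ⟨a, rfl⟩
  | func f _ => exact f.elim

section
variable {N₁ N₂ : Type} [LW.Structure N₁] [LW.Structure N₂]

theorem Same.rel {ι : Type} {v : ι → N₁} {w : ι → N₂} (h : Same (dat N₁) (dat N₂) v w) {n : ℕ}
    (r : LW.Relations n) (f : Fin n → ι) :
    Structure.RelMap r (v ∘ f) ↔ Structure.RelMap r (w ∘ f) := by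
  have e1 : ∀ {X : Type} (x : Fin 1 → X), x = ![x 0] := fun x => by funext i; fin_cases i; rfl
  have e2 : ∀ {X : Type} (x : Fin 2 → X), x = ![x 0, x 1] := fun x => by
    funext i; fin_cases i <;> rfl
  cases r with
  | C k => rw [e1 (v ∘ f), e1 (w ∘ f)]; exact h.c k (f 0)
  | K => rw [e1 (v ∘ f), e1 (w ∘ f)]; exact h.k (f 0)
  | I => rw [e2 (v ∘ f), e2 (w ∘ f)]; exact h.i (f 0) (f 1)
  | R => exact h.r f

theorem qe_fin (g1 : Good (dat N₁)) (g2 : Good (dat N₂)) (x1 : EXT (dat N₁)) (x2 : EXT (dat N₂))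
    {α : Type} [Finite α] {n : ℕ} (φ : LW.BoundedFormula α n) (v : α → N₁) (w : α → N₂)
    (xs : Fin n → N₁) (ys : Fin n → N₂)
    (h : Same (dat N₁) (dat N₂) (Sum.elim v xs) (Sum.elim w ys)) :
    φ.Realize v xs ↔ φ.Realize w ys := by
  induction φ with
  | falsum => exact Iff.rfl
  | equal t₁ t₂ =>
    obtain ⟨a, rfl⟩ := term_var t₁
    obtain ⟨b, rfl⟩ := term_var t₂
    exact h.eq a b
  | rel r ts =>
    choose f hf using fun i => term_var (ts i)
    obtain rfl : ts = fun i => Term.var (f i) := funext hf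
    exact h.rel r f
  | imp φ ψ ih1 ih2 =>
    simp only [BoundedFormula.realize_imp]
    rw [ih1 xs ys h, ih2 xs ys h]
  | @all n φ ih =>
    have key : ∀ x y, Same (dat N₁) (dat N₂) (ext x (Sum.elim v xs)) (ext y (Sum.elim w ys)) →
        (φ.Realize v (Fin.snoc xs x) ↔ φ.Realize w (Fin.snoc ys y)) := by
      intro x y H
      refine ih _ _ (H.comp (Sum.elim (fun a => some (.inl a))
        (fun i => Fin.lastCases none (fun i => some (.inr i)) i)) ?_ ?_)
      all_goals
        rintro (a | i)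
        · rfl
        · refine Fin.lastCases ?_ (fun i => ?_) i <;> simp [ext]
    simp only [BoundedFormula.realize_all]
    constructor
    · intro H y
      obtain ⟨x, hx⟩ := x1 _ g2 _ _ _ h y
      exact (key x y hx).1 (H x)
    · intro H x
      obtain ⟨y, hy⟩ := x2 _ g1 _ _ _ h.symm x
      exact (key x y hy.symm).2 (H y)

theorem qe (g1 : Good (dat N₁)) (g2 : Good (dat N₂)) (x1 : EXT (dat N₁)) (x2 : EXT (dat N₂))
    {α : Type} {v : α → N₁} {w : α → N₂} (h : Same (dat N₁) (dat N₂) v w) (φ : LW.Formula α) :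
    φ.Realize v ↔ φ.Realize w := by
  classical
  unfold Formula.Realize
  have hs : (φ.freeVarFinset : Set α) ⊆ (φ.freeVarFinset : Set α) := le_rfl
  rw [← BoundedFormula.realize_restrictFreeVar' hs, ← BoundedFormula.realize_restrictFreeVar' hs]
  refine qe_fin g1 g2 x1 x2 _ _ _ _ _ (h.comp (Sum.elim Subtype.val Fin.elim0) ?_ ?_)
  all_goals
    rintro (a | i)
    · rfl
    · exact i.elim0

/-- Atomic formulas. -/
def atF {ι : Type} : (ι × ι) ⊕ (Fin 4 × ι) ⊕ ι ⊕ (ι × ι) ⊕ (Fin 3 → ι) → LW.Formula ι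
  | .inl x => (Term.var x.1).equal (Term.var x.2)
  | .inr (.inl x) => (sC x.1).formula₁ (Term.var x.2)
  | .inr (.inr (.inl x)) => sK.formula₁ (Term.var x)
  | .inr (.inr (.inr (.inl x))) => sI.formula₂ (Term.var x.1) (Term.var x.2)
  | .inr (.inr (.inr (.inr f))) => sR.formula fun i => Term.var (f i)

theorem same_iff {ι : Type} {v : ι → N₁} {w : ι → N₂} :
    Same (dat N₁) (dat N₂) v w ↔ ∀ a, ((atF a).Realize v ↔ (atF a).Realize w) := by
  constructor
  · intro h
    rintro (x | x | x | x | f)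
    · simpa [atF] using h.eq _ _
    · simpa [atF] using h.c _ _
    · simpa [atF] using h.k _
    · simpa [atF] using h.i _ _
    · simpa [atF, Function.comp_def] using h.r f
  · intro h
    refine ⟨fun i j => ?_, fun k i => ?_, fun i => ?_, fun i j => ?_, fun f => ?_⟩
    · simpa [atF] using h (.inl (i, j))
    · simpa [atF] using h (.inr (.inl (k, i)))
    · simpa [atF] using h (.inr (.inr (.inl i)))
    · simpa [atF] using h (.inr (.inr (.inr (.inl (i, j)))))
    · simpa [atF, Function.comp_def] using h (.inr (.inr (.inr (.inr f))))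

end

theorem exists_delta {B : D} {ι : Type} [Finite ι] (w : ι → B.N) : ∃ δ : LW.Formula ι,
    ∀ (N : Type) [LW.Structure N] (v : ι → N), δ.Realize v ↔ Same (dat N) B v w := by
  classical
  refine ⟨Formula.iInf fun a => if (atF a).Realize (M := Car B) w then atF a else (atF a).not,
    fun N _ v => ?_⟩
  refine Iff.trans ?_ (same_iff (N₂ := Car B) (w := w)).symm
  rw [Formula.realize_iInf]
  refine forall_congr' fun a => ?_
  split_ifs with h
  · simp [h]
  · simp [h]

/-- The generic structure. -/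
def M0 : Type := Car (Big ⟨Empty, fun _ => Empty.elim, Empty.elim, Empty.elim, fun _ => False⟩)

instance : LW.Structure M0 := inferInstanceAs (LW.Structure (Car _))
instance : Nonempty M0 := ⟨Sum.inr (0, Sum.inr 0)⟩

theorem M0_good : Good (dat M0) :=
  big_good (V := ⟨Empty, fun _ => Empty.elim, Empty.elim, Empty.elim, fun _ => False⟩)
    ⟨fun _ _ x => x.elim, fun e => e.elim, fun _ h => h.elim, fun e => e.elim⟩

theorem M0_ext : EXT (dat M0) := big_ext _

/-- The theory. -/
def TW : LW.Theory := LW.completeTheory M0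

theorem model_fin (N : Type) [LW.Structure N] [h : N ⊨ TW] {ι : Type} [Finite ι] (v : ι → N) :
    ∃ u : ι → M0, Same (dat M0) (dat N) u v := by
  have h' : N ⊨ LW.completeTheory M0 := h
  obtain ⟨δ, hδ⟩ := exists_delta (B := dat N) v
  let θ : LW.Sentence := Formula.iExs ι (δ.relabel (Sum.inr : ι → Empty ⊕ ι))
  have key : ∀ (M : Type) [LW.Structure M], M ⊨ θ ↔ ∃ u : ι → M, δ.Realize u := by
    intro M _
    simp only [θ, Sentence.Realize, Formula.realize_iExs, Formula.realize_relabel]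
    rfl
  obtain ⟨u, hu⟩ := (key M0).1 ((realize_iff_of_model_completeTheory M0 N θ).1 ((key N).2
    ⟨v, (hδ N v).2 ⟨fun _ _ => Iff.rfl, fun _ _ => Iff.rfl, fun _ => Iff.rfl, fun _ _ => Iff.rfl,
      fun _ => Iff.rfl⟩⟩))
  exact ⟨u, (hδ M0 u).1 hu⟩

theorem model_good (N : Type) [LW.Structure N] [N ⊨ TW] : Good (dat N) := by
  refine ⟨fun i j x h1 h2 => ?_, fun e x h => ?_, fun t h i => ?_, fun e t h hc => ?_⟩
  · obtain ⟨u, hu⟩ := model_fin N (fun _ : Unit => x)
    exact M0_good.g1 i j _ ((hu.c i ()).2 h1) ((hu.c j ()).2 h2)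
  · obtain ⟨u, hu⟩ := model_fin N (ext e fun _ : Unit => x)
    have := M0_good.g2 _ _ ((hu.i none (some ())).2 h)
    exact ⟨(hu.c 3 none).1 this.1, fun e => this.2 ((hu.c 3 (some ())).2 e)⟩
  · obtain ⟨u, hu⟩ := model_fin N t
    exact (hu.c _ i).1 (M0_good.g3 _ ((hu.r id).2 h) i)
  · obtain ⟨u, hu⟩ := model_fin N (ext e t)
    exact (hu.r some).1 (M0_good.g4 (u none) _ (fun i => (hu.i none (some i)).2 (h i))
      fun i => (hu.c _ (some i)).2 (hc i))

theorem model_ext (N : Type) [LW.Structure N] [h : N ⊨ TW] : EXT (dat N) := by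
  have h' : N ⊨ LW.completeTheory M0 := h
  intro B hB ι _ u v huv y
  obtain ⟨δ, hδ⟩ := exists_delta v
  obtain ⟨δ', hδ'⟩ := exists_delta (ext y v)
  let θ : LW.Sentence := Formula.iAlls ι ((δ.imp (Formula.iExs Unit (δ'.relabel
    (fun o => o.elim (Sum.inr ()) Sum.inl)))).relabel (Sum.inr : ι → Empty ⊕ ι))
  have key : ∀ (M : Type) [LW.Structure M], M ⊨ θ ↔
      ∀ u : ι → M, δ.Realize u → ∃ x, δ'.Realize (ext x u) := by
    intro M _
    simp only [θ, Sentence.Realize, Formula.realize_iAlls, Formula.realize_relabel,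
      Formula.realize_imp, Formula.realize_iExs]
    refine forall_congr' fun u => imp_congr Iff.rfl ⟨fun ⟨i, hi⟩ => ⟨i (), ?_⟩,
      fun ⟨x, hx⟩ => ⟨fun _ => x, ?_⟩⟩
    · exact (iff_of_eq (congrArg _ (funext fun o => by cases o <;> rfl))).1 hi
    · exact (iff_of_eq (congrArg _ (funext fun o => by cases o <;> rfl))).1 hx
  have h0 : M0 ⊨ θ := (key M0).2 fun u hu => by
    obtain ⟨x, hx⟩ := M0_ext B hB ι u v ((hδ M0 u).1 hu) y
    exact ⟨x, (hδ' M0 _).2 hx⟩
  obtain ⟨x, hx⟩ := (key N).1 ((realize_iff_of_model_completeTheory M0 N θ).2 h0) u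
    ((hδ N u).2 huv)
  exact ⟨x, (hδ' N _).1 hx⟩

end Pool.Agent.H25.WO
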