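import Pool.Agent.H25.WO3

/-! The three generic types and the failure of weak orthogonality for the tensor product. -/

namespace Pool.Agent.H25.WO

open FirstOrder FirstOrder.Language

/-- Colours after adding three generic points. -/
def VC (U : D) (k : Fin 4) : U.N ⊕ Fin 3 → Prop := Sum.elim (U.C k) (fun m => k = m.castSucc)

/-- The binary relation after adding three generic points. -/
def VI (U : D) : U.N ⊕ Fin 3 → U.N ⊕ Fin 3 → Prop
  | .inl e, .inl x => U.I e x
  | .inl e, .inr m => U.C 3 e ∧ PK m (U.K e)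
  | .inr _, _ => False

/-- Three generic points added; `t` decides the ternary relation on them. -/
abbrev VV (t : Prop) (U : D) : D :=
  ⟨U.N ⊕ Fin 3, VC U, Sum.elim U.K (fun _ => False), VI U,
    fun τ => (∃ σ, τ = Sum.inl ∘ σ ∧ U.R σ) ∨
      ((∃ i m, τ i = .inr m) ∧ (∀ i : Fin 3, VC U i.castSucc (τ i)) ∧ (t ∨ τ ≠ Sum.inr))⟩

theorem n3 (m : Fin 3) : ¬ (3 : Fin 4) = m.castSucc := (Fin.castSucc_lt_last m).ne'

theorem VV_good (t : Prop) {U : D} (hU : Good U) : Good (VV t U) := by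
  refine ⟨?_, ?_, ?_, ?_⟩
  · rintro i j (x | m) h1 h2
    · exact hU.g1 i j x h1 h2
    · exact Eq.trans h1 (Eq.symm h2)
  · rintro (e | e) (x | m) h
    · exact hU.g2 e x h
    · exact ⟨h.1, n3 m⟩
    · exact h.elim
    · exact h.elim
  · rintro τ (⟨σ, rfl, h⟩ | h)
    · exact hU.g3 σ h
    · exact h.2.1
  · rintro (e | e) τ h hc
    · by_cases h1 : ∃ i m, τ i = .inr m
      · refine Or.inr ⟨h1, hc, Or.inr ?_⟩
        rintro rfl
        exact (h 1).2.2 rfl ((h 0).2.1 rfl)
      · have : ∀ i, ∃ b, τ i = .inl b := fun i => by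
          rcases e' : τ i with b | m
          · exact ⟨b, rfl⟩
          · exact absurd ⟨i, m, e'⟩ h1
        choose σ hσ using this
        obtain rfl : τ = Sum.inl ∘ σ := funext hσ
        exact Or.inl ⟨σ, rfl, hU.g4 e σ h hc⟩
    · exact (h 0).elim

theorem VV_base (t : Prop) (U : D) : Same U (VV t U) id Sum.inl := by
  refine ⟨fun i j => Sum.inl_injective.eq_iff.symm, fun _ _ => Iff.rfl, fun _ => Iff.rfl,
    fun _ _ => Iff.rfl, fun f => ⟨fun h => Or.inl ⟨f, rfl, h⟩, ?_⟩⟩
  rintro (⟨σ, e, h⟩ | ⟨⟨i, m, e⟩, -⟩)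
  · obtain rfl : f = σ := funext fun i => Sum.inl_injective (congrFun e i)
    exact h
  · cases e

theorem VV_gen (t : Prop) (U : D) {m m' : Fin 3} (hm : m ≠ m') {ι : Type} (u : ι → U.N ⊕ Fin 3)
    (h1 : ∀ i, u i ≠ .inr m) (h2 : ∀ i, u i ≠ .inr m') : Gen m (VV t U) (.inr m) u := by
  refine ⟨fun i => (h1 i).symm, fun _ => Iff.rfl, id, fun i => ?_, fun s ⟨j, hj⟩ hc => ?_⟩
  · rcases u i with e | k
    · exact Iff.rfl
    · exact iff_of_false id fun h => n3 k h.1
  · refine Or.inr ⟨⟨j, m, by rw [Function.comp_apply, hj]; rfl⟩, hc, Or.inr fun e => ?_⟩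
    have := congrFun e m'
    rw [Function.comp_apply] at this
    rcases e' : s m' with _ | i
    · rw [e'] at this; exact hm (Sum.inr_injective this)
    · rw [e'] at this; exact h2 i this

variable {U : Type} [LW.Structure U]

theorem base_same {N : Type} [LW.Structure N] (j : U ↪ₑ[LW] N) : Same (dat U) (dat N) id j :=
  same_iff.2 fun a => (j.map_formula (atF a) id).symm

theorem same_of_tp {N₁ N₂ : Type} [LW.Structure N₁] [LW.Structure N₂] {j₁ : U ↪ₑ[LW] N₁}
    {j₂ : U ↪ₑ[LW] N₂} {β : Type} {v : β → N₁} {w : β → N₂} (h : tp j₁ v = tp j₂ w) :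
    Same (dat N₁) (dat N₂) (Sum.elim j₁ v) (Sum.elim j₂ w) :=
  same_iff.2 fun a => Set.ext_iff.1 h (atF a)

theorem left_tp {N : Type} [LW.Structure N] (j : U ↪ₑ[LW] N) {β γ : Type} (v : β ⊕ γ → N) :
    left (tp j v) = tp j (v ∘ Sum.inl) := by
  ext φ
  simp only [left, tp, Set.mem_ofPred_eq, Formula.realize_relabel, Sum.elim_comp_map]
  rfl

theorem right_tp {N : Type} [LW.Structure N] (j : U ↪ₑ[LW] N) {β γ : Type} (v : β ⊕ γ → N) :
    right (tp j v) = tp j (v ∘ Sum.inr) := by
  ext φ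
  simp only [right, tp, Set.mem_ofPred_eq, Formula.realize_relabel, Sum.elim_comp_map]
  rfl

variable [hT : U ⊨ TW]

theorem tp_of_same {N₁ N₂ : Type} [LW.Structure N₁] [LW.Structure N₂] {j₁ : U ↪ₑ[LW] N₁}
    {j₂ : U ↪ₑ[LW] N₂} {β : Type} {v : β → N₁} {w : β → N₂}
    (h : Same (dat N₁) (dat N₂) (Sum.elim j₁ v) (Sum.elim j₂ w)) : tp j₁ v = tp j₂ w := by
  have := (j₁.theory_model_iff TW).1 hT
  have := (j₂.theory_model_iff TW).1 hT
  exact Set.ext fun φ => qe (model_good N₁) (model_good N₂) (model_ext N₁) (model_ext N₂) h φ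

variable (U) in
/-- The elementary extension containing the generic points. -/
def NT (t : Prop) : Type := Car (Big (VV t (dat U)))

instance (t : Prop) : LW.Structure (NT U t) := inferInstanceAs (LW.Structure (Car _))

theorem NT_good (t : Prop) : Good (dat (NT U t)) := big_good (VV_good t (model_good U))
omit hT in
theorem NT_ext (t : Prop) : EXT (dat (NT U t)) := big_ext _

/-- Inclusion. -/
def inc (t : Prop) (x : U ⊕ Fin 3) : NT U t := Sum.inl x

omit hT in
theorem inc_same (t : Prop) : Same (VV t (dat U)) (dat (NT U t)) id (inc t) := big_same _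

variable (U) in
/-- The elementary embedding. -/
def jT (t : Prop) : U ↪ₑ[LW] NT U t where
  toFun x := inc t (.inl x)
  map_formula' n φ x := qe (NT_good t) (model_good U) (NT_ext t) (model_ext U)
    ((((VV_base t (dat U)).trans ((inc_same t).comp Sum.inl (w' := fun x => inc t (.inl x))
      (fun _ => rfl) (fun _ => rfl))).symm).comp x (fun _ => rfl) (fun _ => rfl)) φ

omit hT in
theorem NT_gen (t : Prop) {m m' : Fin 3} (hm : m ≠ m') {ι : Type} (u : ι → U ⊕ Fin 3)
    (h1 : ∀ i, u i ≠ .inr m) (h2 : ∀ i, u i ≠ .inr m') {v : ι → NT U t}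
    (hv : ∀ i, v i = inc t (u i)) : Gen m (dat (NT U t)) (inc t (.inr m)) v :=
  Gen.of_same ((inc_same t).comp (ext (.inr m) u) (fun _ => rfl)
    (by rintro (_ | i); exacts [rfl, hv i])) (VV_gen t (dat U) hm u h1 h2)

theorem NT_gen0 (t : Prop) (m : Fin 3) {ι : Type} (c : ι → U) :
    Gen m (dat (NT U t)) (inc t (.inr m)) (jT U t ∘ c) :=
  NT_gen t (m' := m + 1) (by revert m; decide) (Sum.inl ∘ c) (fun _ => Sum.inl_ne_inr)
    (fun _ => Sum.inl_ne_inr) (fun _ => rfl)

variable (U) in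
/-- The generic types. -/
def pT (m : Fin 3) : Set (LW.Formula (U ⊕ Unit)) := tp (jT U False) fun _ => inc False (.inr m)

variable (U) in
/-- The tensor product. -/
def rT (t : Prop) : Set (LW.Formula (U ⊕ (Unit ⊕ Unit))) :=
  tp (jT U t) (Sum.elim (fun _ => inc t (.inr 0)) (fun _ => inc t (.inr 1)))

theorem gen_of {N : Type} [LW.Structure N] {j : U ↪ₑ[LW] N} {a : Unit → N} {m : Fin 3}
    (h : tp j a = pT U m) : Gen m (dat N) (a ()) j :=
  Gen.of_same ((same_of_tp h).symm.comp (fun o => o.elim (.inr ()) .inl)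
    (v' := ext (inc False (.inr m)) (jT U False ∘ id))
    (by rintro (_ | i) <;> rfl) (by rintro (_ | i) <;> rfl)) (NT_gen0 False m id)

theorem worth (m : Fin 3) (hm : m ≠ 2) : WOrth (pT U m) (pT U 2) := by
  rintro _ _ ⟨N₁, _, j₁, v, rfl⟩ ⟨N₂, _, j₂, w, rfl⟩ h1 h2 h3 h4
  rw [left_tp] at h1 h3
  rw [right_tp] at h2 h4
  have := (j₁.theory_model_iff TW).1 hT
  have := (j₂.theory_model_iff TW).1 hT
  have g1 := model_good N₁
  have g2 := model_good N₂
  have s1 := Gen.same g1 g2 ((base_same j₁).symm.trans (base_same j₂)) (gen_of h2) (gen_of h4)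
  have s2 := Gen.same g1 g2 s1
    (Gen.add (model_good U) (model_ext U) g1 (base_same j₁) hm (gen_of h1) (gen_of h2))
    (Gen.add (model_good U) (model_ext U) g2 (base_same j₂) hm (gen_of h3) (gen_of h4))
  refine tp_of_same (s2.comp (Sum.elim (fun c => some (some c))
    (Sum.elim (fun _ => none) (fun _ => some none))) ?_ ?_)
  all_goals rintro (c | ⟨⟨⟩⟩ | ⟨⟨⟩⟩) <;> rfl

theorem inv (m : Fin 3) : Inv ∅ (pT U m) := by
  intro σ _ φ
  simp only [pT, tp, Set.mem_ofPred_eq, Formula.realize_relabel, Sum.elim_comp_map]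
  have s0 : Same (dat (NT U False)) (dat (NT U False)) (jT U False ∘ σ) (jT U False ∘ id) :=
    (((base_same (jT U False)).comp σ (v' := σ) (fun _ => rfl) (fun _ => rfl)).symm.trans
      (base_same σ.toElementaryEmbedding).symm).trans (base_same (jT U False))
  have s1 := Gen.same (NT_good False) (NT_good False) s0 (NT_gen0 False m σ) (NT_gen0 False m id)
  refine qe (NT_good _) (NT_good _) (NT_ext _) (NT_ext _)
    (s1.comp (Sum.elim some (fun _ => none)) ?_ ?_) φ
  all_goals rintro (c | ⟨⟨⟩⟩) <;> rfl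

theorem tensor : IsTensor ∅ (pT U 0) (pT U 1) (rT U False) := by
  refine ⟨⟨_, _, _, _, rfl⟩, fun n c => ⟨?_, fun b hb φ => ?_⟩⟩
  · have : Finite ↥((∅ : Set U) ∪ Set.range c) :=
      (Set.finite_empty.union (Set.finite_range c)).to_subtype
    obtain ⟨b, hb⟩ := model_ext U _ (NT_good False) ↥((∅ : Set U) ∪ Set.range c) Subtype.val
      (jT U False ∘ Subtype.val)
      ((base_same (jT U False)).comp Subtype.val (fun _ => rfl) (fun _ => rfl))
      (inc False (.inr 1))
    refine ⟨fun _ => b, fun ψ => ?_⟩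
    simp only [pT, tp, Set.mem_ofPred_eq, Formula.realize_relabel, Sum.elim_comp_map]
    refine qe (NT_good _) (model_good U) (NT_ext _) (model_ext U)
      (hb.symm.comp (Sum.elim some (fun _ => none)) ?_ ?_) ψ
    all_goals rintro (c | ⟨⟨⟩⟩) <;> rfl
  · have s0 : Same (dat (NT U False)) (dat U)
        (Sum.elim (jT U False ∘ Subtype.val) (fun _ => inc False (.inr 1)))
        (Sum.elim (Subtype.val : ↥((∅ : Set U) ∪ Set.range c) → U) b) := same_iff.2 fun a => by
      have := hb (atF a)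
      simp only [pT, tp, Set.mem_ofPred_eq, Formula.realize_relabel, Sum.elim_comp_map] at this
      exact this
    have s1 : Same (dat (NT U False)) (dat U) (ext (inc False (.inr 1)) (jT U False ∘ c))
        (ext (b ()) c) :=
      s0.comp (fun o => o.elim (.inr ()) (fun i => .inl ⟨c i, Or.inr ⟨i, rfl⟩⟩))
        (by rintro (_ | i) <;> rfl) (by rintro (_ | i) <;> rfl)
    have s2 := s1.trans ((base_same (jT U False)).comp (ext (b ()) c)
      (w' := jT U False ∘ ext (b ()) c) (fun _ => rfl) (fun _ => rfl))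
    have s3 := Gen.same (NT_good False) (NT_good False) s2
      (NT_gen False (m := 0) (m' := 2) (by decide) (ext (.inr 1) (Sum.inl ∘ c))
        (by rintro (_ | i) <;> simp [ext]) (by rintro (_ | i) <;> simp [ext])
        (by rintro (_ | i) <;> rfl)) (NT_gen0 False 0 _)
    simp only [rT, pT, tp, Set.mem_ofPred_eq, Formula.realize_relabel]
    refine qe (NT_good _) (NT_good _) (NT_ext _) (NT_ext _) (s3.comp
      (Sum.elim (fun i => some (some i)) (Sum.elim (fun _ => none) (fun _ => some none))) ?_ ?_) φ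
    all_goals rintro (c | ⟨⟨⟩⟩ | ⟨⟨⟩⟩) <;> rfl

theorem not_worth : ¬ WOrth (rT U False) (pT U 2) := by
  intro H
  let z : ∀ t, (Unit ⊕ Unit) ⊕ Unit → NT U t := fun t => Sum.elim
    (Sum.elim (fun _ => inc t (.inr 0)) (fun _ => inc t (.inr 1))) (fun _ => inc t (.inr 2))
  have s0 : Same (dat (NT U True)) (dat (NT U False)) (jT U True ∘ id) (jT U False ∘ id) :=
    (base_same _).symm.trans (base_same _)
  have s1 := fun m => Gen.same (NT_good True) (NT_good False) s0 (NT_gen0 True m id)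
    (NT_gen0 False m id)
  have g : ∀ t, Gen 0 (dat (NT U t)) (inc t (.inr 0)) (ext (inc t (.inr 1)) (jT U t ∘ id)) :=
    fun t => NT_gen t (m := 0) (m' := 2) (by decide) (ext (.inr 1) Sum.inl)
      (by rintro (_ | i) <;> simp [ext]) (by rintro (_ | i) <;> simp [ext])
      (by rintro (_ | i) <;> rfl)
  have s2 := Gen.same (NT_good True) (NT_good False) (s1 1) (g True) (g False)
  have e := H (tp (jT U True) (z True)) (tp (jT U False) (z False)) ⟨_, _, _, _, rfl⟩
    ⟨_, _, _, _, rfl⟩ (by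
      rw [left_tp]
      refine tp_of_same (s2.comp (Sum.elim (fun c => some (some c))
        (Sum.elim (fun _ => none) (fun _ => some none))) ?_ ?_)
      all_goals rintro (c | ⟨⟨⟩⟩ | ⟨⟨⟩⟩) <;> rfl) (by
      rw [right_tp]
      refine tp_of_same ((s1 2).comp (Sum.elim some (fun _ => none)) ?_ ?_)
      all_goals rintro (c | ⟨⟨⟩⟩) <;> rfl) (left_tp _ _) (right_tp _ _)
  have h := (same_of_tp e).r
    (fun i => .inr (if i = 0 then .inl (.inl ()) else if i = 1 then .inl (.inr ()) else .inr ()))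
  have e1 : ∀ t, Sum.elim (jT U t) (z t) ∘ (fun i : Fin 3 => (.inr (if i = 0 then .inl (.inl ())
      else if i = 1 then .inl (.inr ()) else .inr ()) : U ⊕ (Unit ⊕ Unit) ⊕ Unit)) =
      inc t ∘ Sum.inr := fun t => by
    funext i; fin_cases i <;> rfl
  rw [e1, e1] at h
  have h1 := ((inc_same (U := U) False).r Sum.inr).2 (h.1 (((inc_same (U := U) True).r Sum.inr).1
    (Or.inr ⟨⟨0, 0, rfl⟩, fun _ => rfl, Or.inl trivial⟩)))
  rcases h1 with ⟨σ, e, -⟩ | ⟨-, -, h | h⟩
  · cases congrFun e 0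
  · exact h
  · exact h rfl

end Pool.Agent.H25.WO
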