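import Pool.Agent.H25.WeiDefs

set_option autoImplicit false
open Cardinal Nat.Partrec

namespace Pool.Agent.H25.Wei

def Wc (c : ℕ) (a : List ℕ × ℕ × ℕ) : Prop :=
  ((Denumerable.ofNat Code c).eval (Encodable.encode a)).Dom

theorem code {W : List ℕ × ℕ × ℕ → Prop} (h : REPred W) : ∃ c, W = Wc c := by
  obtain ⟨c, hc⟩ := Code.exists_code.1 h
  refine ⟨Encodable.encode c, funext fun a => propext ?_⟩
  simp only [Wc, Denumerable.ofNat_encode, hc, Encodable.encodek]
  simp [Part.assert]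

theorem WRed.code {f g : Problem} (h : WRed f g) : ∃ c : ℕ × ℕ, ∀ p ∈ f.dom, ∃ x,
    Computes (Wc c.1) p x ∧ x ∈ g.dom ∧
      ∀ q ∈ g.sol x, ∃ y, Computes (Wc c.2) (pair p q) y ∧ y ∈ f.sol p := by
  obtain ⟨K, H, h1, h2, h3⟩ := h
  obtain ⟨a, rfl⟩ := Wei.code h1
  obtain ⟨b, rfl⟩ := Wei.code h2
  exact ⟨(a, b), h3⟩

theorem Computes.uniq {W : List ℕ × ℕ × ℕ → Prop} {p x y : Ba} (h : Computes W p x)
    (h' : Computes W p y) : x = y := funext fun n => (h' n _).1 ((h n _).2 rfl)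

theorem cof (S : Set Problem) (h : ∀ f, ∃ g ∈ S, WRed f g) : #S = 2 ^ 𝔠 := by
  refine le_antisymm ((mk_set_le S).trans ((mk_le_of_injective
    (f := fun f : Problem => (f.dom, f.sol)) ?_).trans_eq ?_)) ?_
  · rintro ⟨a, b, c⟩ ⟨d, e, f⟩ h
    obtain ⟨rfl, rfl⟩ := Prod.mk.inj h
    rfl
  · simpa [← power_mul] using mul_eq_self (aleph0_le_continuum.trans (cantor _).le)
  choose g g1 g2 using fun F : Ba → Ba => h ⟨Set.univ, fun p => {F p}, fun p _ => ⟨_, rfl⟩⟩
  choose c hc using fun F => (g2 F).code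
  have := mk_le_of_injective (f := fun F => ((⟨g F, g1 F⟩ : S), c F)) fun F G e => funext fun p => by
    obtain ⟨e1, e2⟩ := Prod.mk.inj e
    obtain ⟨x, x1, x2, x3⟩ := hc F p trivial
    obtain ⟨x', y1, -, y3⟩ := hc G p trivial
    obtain rfl := x1.uniq (e2 ▸ y1)
    obtain ⟨q, hq⟩ := (g F).ne x x2
    obtain ⟨y, a, rfl⟩ := x3 q hq
    obtain ⟨z, b, rfl⟩ := y3 q ((Subtype.mk.inj e1 : g F = g G) ▸ hq)
    exact a.uniq (e2 ▸ b)
  by_contra c
  refine absurd this (not_le.2 ?_)
  have e : (𝔠 : Cardinal.{0}) ^ (𝔠 : Cardinal.{0}) = 2 ^ 𝔠 := power_self_eq aleph0_le_continuum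
  have l : ℵ₀ < 2 ^ (𝔠 : Cardinal.{0}) := aleph0_lt_continuum.trans (cantor _)
  simpa [e] using mul_lt_of_lt l.le (not_le.1 c) l

theorem seg_len (p : Ba) (k : ℕ) : (seg p k).length = k := by simp [seg]

theorem seg_getD (p : Ba) {k i : ℕ} (h : i < k) : (seg p k).getD i 0 = p i := by simp [seg, h]

theorem direct (b c : ℕ) {r : ℕ → ℕ} (hr : Primrec r) :
    ∃ W, REPred W ∧ ∀ w, Computes W w fun n => if n < b then c else w (r n) := by
  refine ⟨fun a => (if a.2.1 < b then some c else a.1[r a.2.1]?) = some a.2.2,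
    (Primrec.eq.comp (Primrec.ite (Primrec.nat_lt.comp (Primrec.fst.comp Primrec.snd)
      (Primrec.const b)) (Primrec.const _) (Primrec.list_getElem?.comp Primrec.fst
        (hr.comp (Primrec.fst.comp Primrec.snd))))
      (Primrec.option_some.comp (Primrec.snd.comp Primrec.snd))).computablePred.to_re,
    fun w n v => ?_⟩
  dsimp only
  split_ifs
  · simp [eq_comm]
  · refine ⟨fun ⟨k, hk⟩ => ?_, fun e => ⟨r n + 1, by simp [seg, e]⟩⟩
    simp only [seg, List.getElem?_map, Option.map_eq_some_iff] at hk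
    obtain ⟨a, a1, rfl⟩ := hk
    obtain ⟨_, rfl⟩ := List.getElem?_eq_some_iff.1 a1
    simp

theorem univ {τ r : ℕ → ℕ} (hτ : Primrec τ) (hr : Primrec r) (h : ∀ i, r i ≤ i + 2) :
    ∃ U, REPred U ∧ ∀ w y, Computes (Wc (τ (w 0))) (fun i => w (r i)) y → Computes U w y := by
  let ρ : List ℕ → List ℕ := fun σ => (List.range (σ.length - 2)).map fun i => σ.getD (r i) 0
  have hρ : Primrec ρ := Primrec.list_map (Primrec.list_range.comp (Primrec.nat_sub.comp
    Primrec.list_length (Primrec.const 2))) ((Primrec.list_getD 0).comp Primrec.fst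
      (hr.comp Primrec.snd)).to₂
  have e : ∀ w k, ρ (seg w k) = seg (fun i => w (r i)) (k - 2) := fun w k => by
    simp only [ρ, seg_len]
    exact List.map_congr_left fun i hi => seg_getD _ (by
      have := List.mem_range.1 hi; have := h i; omega)
  refine ⟨_, Partrec.dom_re (Partrec.cond (c := fun a : List ℕ × ℕ × ℕ => decide (0 < a.1.length))
    (Primrec.nat_lt.comp (Primrec.const 0) (Primrec.list_length.comp Primrec.fst)).decide.to_comp
    (Code.eval_part.comp (g := fun a : List ℕ × ℕ × ℕ => Denumerable.ofNat Code (τ (a.1.getD 0 0)))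
      (h := fun a => Encodable.encode (ρ a.1, a.2))
      ((Primrec.ofNat Code).comp (hτ.comp ((Primrec.list_getD 0).comp Primrec.fst
        (Primrec.const 0)))).to_comp
      (Primrec.encode.comp ((hρ.comp Primrec.fst).pair Primrec.snd)).to_comp) Partrec.none),
    fun w y H n v => Iff.trans ⟨fun ⟨k, hk⟩ => ⟨k - 2, ?_⟩, fun ⟨k, hk⟩ => ⟨k + 2, ?_⟩⟩ (H n v)⟩
  · rcases k with _ | k
    · simp [seg] at hk
    · simp only [seg_len, Nat.zero_lt_succ, decide_true, cond_true, e,
        seg_getD w k.zero_lt_succ] at hk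
      exact hk
  · simp only [seg_len, Nat.zero_lt_succ, decide_true, cond_true, e,
      seg_getD w (k + 1).zero_lt_succ]
    exact hk

theorem interp (f h : ℕ → Problem) (H : ∀ i j, WRed (f i) (h j)) :
    ∃ g, ∀ i, WRed (f i) g ∧ WRed g (h i) := by
  choose c hc using fun i j => (H i j).code
  let d : ℕ → ℕ → ℕ := fun i j => Nat.pair (c i j).1 (c i j).2
  let t : ℕ → ℕ := fun i => Nat.pair i (Encodable.encode ((List.range (i + 1)).map (d i)))
  refine ⟨⟨{x | x 0 = t (x 0).unpair.1 ∧ (fun n => x (n + 1)) ∈ (f (x 0).unpair.1).dom},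
    fun x => (f (x 0).unpair.1).sol fun n => x (n + 1), fun x hx => (f _).ne _ hx.2⟩,
    fun i => ⟨?_, ?_⟩⟩
  · obtain ⟨K, k1, k2⟩ := direct 1 (t i) Primrec.pred
    obtain ⟨L, l1, l2⟩ := direct 0 0 (r := fun n => 2 * n + 1)
      (Primrec.succ.comp (Primrec.nat_mul.comp (Primrec.const 2) Primrec.id))
    refine ⟨K, L, k1, l1, fun p hp => ⟨_, k2 p, by simpa [t] using hp, fun q hq =>
      ⟨_, l2 _, ?_⟩⟩⟩
    have : ∀ n, (2 * n + 1) / 2 = n := fun n => by omega
    simpa [t, pair, this] using hq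
  · let τ : ℕ → ℕ := fun n => if n.unpair.1 < i then ((List.range i).map (d · i)).getD n.unpair.1 0
      else (Denumerable.ofNat (List ℕ) n.unpair.2).getD i 0
    have hτ : Primrec τ := Primrec.ite (Primrec.nat_lt.comp (Primrec.fst.comp Primrec.unpair)
      (Primrec.const i)) ((Primrec.list_getD 0).comp (Primrec.const _)
        (Primrec.fst.comp Primrec.unpair)) ((Primrec.list_getD 0).comp
          ((Primrec.ofNat _).comp (Primrec.snd.comp Primrec.unpair)) (Primrec.const i))
    have e : ∀ l, τ (t l) = d l i := fun l => by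
      simp only [τ, t, Nat.unpair_pair, Denumerable.ofNat_encode]
      split_ifs with a
      · simp [a]
      · simp [show i < l + 1 by omega]
    obtain ⟨K, k1, k2⟩ := univ (Primrec.fst.comp (Primrec.unpair.comp hτ)) Primrec.succ
      fun _ => Nat.le_succ _
    obtain ⟨L, l1, l2⟩ := univ (r := fun n => if n % 2 = 0 then n + 2 else n)
      (Primrec.snd.comp (Primrec.unpair.comp hτ)) (Primrec.ite (Primrec.eq.comp
        (Primrec.nat_mod.comp Primrec.id (Primrec.const 2)) (Primrec.const 0))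
        (Primrec.nat_add.comp Primrec.id (Primrec.const 2)) Primrec.id)
      fun _ => by split_ifs <;> omega
    refine ⟨K, L, k1, l1, fun x ⟨x1, x2⟩ => ?_⟩
    obtain ⟨z, z1, z2, z3⟩ := hc _ i _ x2
    have e' : τ (x 0) = d (x 0).unpair.1 i := x1 ▸ by simpa [t] using e _
    refine ⟨z, k2 _ _ (by simpa [e', d] using z1), z2, fun q hq => ?_⟩
    obtain ⟨y, y1, y2⟩ := z3 q hq
    refine ⟨y, l2 _ _ ?_, y2⟩
    have a : (fun n => pair x q (if n % 2 = 0 then n + 2 else n)) = pair (fun n => x (n + 1)) q :=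
      funext fun n => by
        by_cases b : n % 2 = 0
        · simp [pair, b]
        · simp [pair, b]
    have b : pair x q 0 = x 0 := rfl
    rw [a, b, e']
    simpa [d] using y1

end Pool.Agent.H25.Wei
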