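import Mathlib

set_option autoImplicit false

namespace Pool.Agent.H25.Wei

/-- Baire space -/
abbrev Ba := ℕ → ℕ

/-- the initial segment of length `k` -/
def seg (p : Ba) (k : ℕ) : List ℕ := (List.range k).map p

/-- the standard pairing of two points -/
def pair (p q : Ba) : Ba := fun n => if n % 2 = 0 then p (n / 2) else q (n / 2)

/-- the set `W` of triples (oracle string, position, value) maps `p` to `q` -/
def Computes (W : List ℕ × ℕ × ℕ → Prop) (p q : Ba) : Prop :=
  ∀ n v, (∃ k, W (seg p k, n, v)) ↔ v = q n

/-- a multivalued problem: its domain and the nonempty solution set of each instance -/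
structure Problem where
  dom : Set Ba
  sol : Ba → Set Ba
  ne : ∀ p ∈ dom, (sol p).Nonempty

/-- Weihrauch reducibility, with functionals given by c.e. sets of triples -/
def WRed (f g : Problem) : Prop :=
  ∃ K H, REPred K ∧ REPred H ∧ ∀ p ∈ f.dom, ∃ x, Computes K p x ∧ x ∈ g.dom ∧
    ∀ q ∈ g.sol x, ∃ y, Computes H (pair p q) y ∧ y ∈ f.sol p

/-- the Weihrauch degrees -/
def Deg : Type := Quot fun f g : Problem => WRed f g ∧ WRed g f

/-- the order of the degrees -/
def Deg.Le (a b : Deg) : Prop := ∀ f g, Quot.mk _ f = a → Quot.mk _ g = b → WRed f g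

end Pool.Agent.H25.Wei
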