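import Mathlib
import Pool.Agent.H25.GDense

set_option autoImplicit false

namespace Pool.Agent.H25.ZGroup

open Set Filter Topology
open Cardinal (continuum aleph0)

abbrev J : Type := continuum.{0}.ord.ToType

abbrev Ξ : Type := (ℕ → J) × (ℕ → ℝ)

theorem data : ∃ c : J → (Ξ →₀ ℤ) →+ ℝ,
    (∀ C : Set J, C.Countable → ∀ y : J → ℝ, ∃ a, ∀ β ∈ C, c β a = y β) ∧
    (∀ d : ℕ → Ξ →₀ ℤ, (∃ᶠ n in atTop, d n ≠ 0) →
      ∃ β, ¬ Tendsto (fun n => (c β (d n) : UnitAddCircle)) atTop (𝓝 0)) ∧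
    ∀ a ≠ 0, ∃ C : Set J, C.Countable ∧ ∀ (I : Finset J) (m : I → ℤ) (k : ℤ),
      ∑ i, m i * c i a = k → ∀ i, m i = 0 ∨ i.1 ∈ C := by
  classical
  let B := Module.Basis.ofVectorSpace ℚ ℝ
  obtain ⟨e⟩ : Cardinal.mk (Ξ × J × ℝ) ≤ Cardinal.mk (Module.Basis.ofVectorSpaceIndex ℚ ℝ) := by
    rw [B.mk_eq_rank'', Real.rank_rat_real]
    simp [Cardinal.mk_real]
  obtain ⟨σ, hσ⟩ : ∃ σ : J → (ℕ → Ξ →₀ ℤ) × ℝ, Function.Surjective σ := by
    obtain ⟨f⟩ : Cardinal.mk ((ℕ → Ξ →₀ ℤ) × ℝ) ≤ Cardinal.mk J := by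
      have : Infinite Ξ := Cardinal.infinite_iff.2 (by
        simp [Cardinal.mk_real, Cardinal.aleph0_le_continuum])
      simp [Cardinal.mk_real, Cardinal.aleph0_le_continuum]
    exact ⟨_, Function.invFun_surjective f.injective⟩
  have h1 : ∀ d : ℕ → Ξ →₀ ℤ, ∃ z : Ξ → ℝ, {ξ | z ξ ≠ 0}.Countable ∧ ((∃ᶠ n in atTop, d n ≠ 0) →
      ¬ Tendsto (fun n => (((d n).sum fun ξ m => m • z ξ : ℝ) : UnitAddCircle)) atTop (𝓝 0)) := by
    intro d
    by_cases h : ∃ᶠ n in atTop, d n ≠ 0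
    · obtain ⟨z, hz⟩ := GDense.bohr d h
      refine ⟨(⋃ n, ((d n).support : Set Ξ)).indicator z, (countable_iUnion fun n =>
        (d n).support.countable_toSet).mono fun ξ hξ => mem_of_indicator_ne_zero hξ, fun _ => ?_⟩
      convert hz using 4 with n
      exact Finset.sum_congr rfl fun ξ hξ => by
        simp only [indicator_of_mem (mem_iUnion.2 ⟨n, hξ⟩ : ξ ∈ ⋃ n, ((d n).support : Set Ξ))]
    · exact ⟨0, by simp, fun h' => absurd h' h⟩
  choose z z1 z2 using h1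
  have h2 : ∀ ξ β, ∃ r, B.repr 1 (e (ξ, β, r)) = 0 ∧
      ∀ γ ≤ β, ∀ ξ', B.repr (z (σ γ).1 ξ') (e (ξ, β, r)) = 0 := by
    intro ξ β
    by_contra hn
    have h3 : Cardinal.mk (((B.repr 1).support : Set (Module.Basis.ofVectorSpaceIndex ℚ ℝ)) ∪ ⋃ γ : Iic β,
        ⋃ ξ' ∈ {ξ' | z (σ γ).1 ξ' ≠ 0}, ↑(B.repr (z (σ γ).1 ξ')).support :) < continuum := by
      refine (Cardinal.mk_union_le _ _).trans_lt (Cardinal.add_lt_of_lt
        Cardinal.aleph0_le_continuum ((Finset.finite_toSet _).lt_aleph0.trans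
          Cardinal.aleph0_lt_continuum) ((Cardinal.mk_iUnion_le _).trans_lt
            (Cardinal.mul_lt_of_lt Cardinal.aleph0_le_continuum ?_ ?_)))
      · simpa using Cardinal.mk_Iic_lt β (by simp) (by simp [Cardinal.aleph0_le_continuum])
      · exact (ciSup_le' fun γ => Cardinal.le_aleph0_iff_set_countable.2 ((z1 _).biUnion
          fun _ _ => Finset.countable_toSet _)).trans_lt Cardinal.aleph0_lt_continuum
    refine absurd (Cardinal.mk_preimage_of_injective (fun r : ℝ => e (ξ, β, r)) _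
      fun a b h => by simpa using e.injective h) (not_le.2 (h3.trans_le ?_))
    rw [eq_univ_of_forall (s := _ ⁻¹' _) fun r => ?_]
    · simp [Cardinal.mk_real]
    by_contra h
    simp only [mem_preimage, mem_union, mem_iUnion, not_or, not_exists, Finset.mem_coe,
      Finsupp.mem_support_iff, not_not] at h
    refine hn ⟨r, h.1, fun γ hγ ξ' => ?_⟩
    by_cases h' : z (σ γ).1 ξ' = 0
    · simp [h']
    · exact h.2 ⟨γ, hγ⟩ ξ' h'
  choose r r1 r2 using h2
  let p := fun ξ β => e (ξ, β, r ξ β)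
  have hp : ∀ ξ β ξ' β', p ξ β = p ξ' β' → ξ = ξ' ∧ β = β' := fun ξ β ξ' β' h => by
    have := e.injective h
    simp only [Prod.mk.injEq] at this
    exact ⟨this.1, this.2.1⟩
  have h3 : ∀ β, ∃ w : Ξ → ℝ, (∀ ξ ξ' β', β ≤ β' → B.repr (w ξ) (p ξ' β') = 0) ∧
      ((∃ᶠ n in atTop, (σ β).1 n ≠ 0) → ¬ Tendsto (fun n => ((((σ β).1 n).sum
        fun ξ m => m • (B (p ξ β) + w ξ) : ℝ) : UnitAddCircle)) atTop (𝓝 0)) := by
    intro β
    by_cases h : Tendsto (fun n => ((((σ β).1 n).sum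
        fun ξ m => m • B (p ξ β) : ℝ) : UnitAddCircle)) atTop (𝓝 0)
    · refine ⟨z (σ β).1, fun ξ ξ' β' hβ => r2 ξ' β' β hβ ξ, fun h' h4 => z2 _ h' ?_⟩
      simpa [Finsupp.sum_add] using h4.sub h
    · exact ⟨0, by simp, fun _ => by simpa using h⟩
  choose w w1 w2 using h3
  let x : Ξ → J → ℝ := fun ξ β => if h : ∃ n, ξ.1 n = β then ξ.2 h.choose else B (p ξ β) + w β ξ
  let c : J → (Ξ →₀ ℤ) →+ ℝ := fun β => Finsupp.liftAddHom fun ξ => zmultiplesHom ℝ (x ξ β)
  have hc : ∀ β a, β ∉ ⋃ ξ ∈ a.support, range ξ.1 →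
      c β a = a.sum fun ξ m => m • (B (p ξ β) + w β ξ) := fun β a h =>
    Finset.sum_congr rfl fun ξ hξ => by
      have : ¬ ∃ n, ξ.1 n = β := fun h' => h (mem_biUnion hξ h')
      simp [x, this]
  have hs : ∀ a : Ξ →₀ ℤ, (⋃ ξ ∈ a.support, range ξ.1).Countable := fun a =>
    a.support.countable_toSet.biUnion fun _ _ => countable_range _
  refine ⟨c, fun C hC y => ?_, fun d hd => ?_, fun a ha => ?_⟩
  · obtain ⟨s, hs⟩ := (hC.insert (hσ (0, 0)).choose).exists_eq_range (insert_nonempty _ _)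
    refine ⟨Finsupp.single (s, y ∘ s) 1, fun β hβ => ?_⟩
    have h : ∃ n, s n = β := (hs ▸ mem_insert_of_mem _ hβ : β ∈ range s)
    simp [c, x, h, h.choose_spec]
  · choose f hf using fun t : ℝ => hσ (d, t)
    obtain ⟨t, ht⟩ : ∃ t, f t ∉ ⋃ n, ⋃ ξ ∈ (d n).support, range ξ.1 := by
      by_contra hn
      push Not at hn
      exact not_countable_univ (((countable_iUnion fun n => hs (d n)).preimage (f := f)
        fun a b h => congrArg Prod.snd ((hf a).symm.trans (h ▸ hf b))).mono fun t _ => hn t)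
    have := w2 (f t)
    rw [hf] at this
    refine ⟨f t, fun h => this hd (h.congr fun n => ?_)⟩
    rw [hc _ _ fun h => ht (mem_iUnion.2 ⟨n, h⟩)]
  · obtain ⟨ξ, hξ⟩ := Finsupp.support_nonempty_iff.2 ha
    obtain ⟨C, c1, c2⟩ := FreeSet.closing (fun F : Finset J => (⋃ ξ ∈ a.support, range ξ.1) ∪
        ⋃ γ ∈ F, p ξ ⁻¹' (B.repr (c γ a)).support) fun F => (hs a).union
      (F.countable_toSet.biUnion fun _ _ => (Finset.countable_toSet _).preimage
        fun _ _ h => (hp _ _ _ _ h).2)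
    refine ⟨C, c1, fun I m k h => ?_⟩
    by_contra hn
    push Not at hn
    obtain ⟨i, i1, i2⟩ := exists_max_image {i : I | m i ≠ 0 ∧ i.1 ∉ C} id (toFinite _) hn
    have h4 : ∀ j : I, j.1 ∉ C → j ≤ i → B.repr (c j a) (p ξ i) = if j = i then a ξ else 0 := by
      intro j j1 j2
      rw [hc _ _ fun h => j1 (c2 ∅ (by simp) (.inl h))]
      simp only [Finsupp.sum, map_sum, map_zsmul, map_add, Finsupp.coe_finsetSum,
        Finset.sum_apply, Finsupp.smul_apply, Finsupp.add_apply, w1 _ _ _ _ j2, add_zero,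
        Module.Basis.repr_self, Finsupp.single_apply]
      rw [Finset.sum_eq_single ξ (fun ζ _ hζ => by
        rw [if_neg fun h => hζ (hp _ _ _ _ h).1, smul_zero]) fun h => absurd hξ h]
      by_cases e : j = i
      · simp [e]
      · rw [if_neg fun h => e (Subtype.ext (hp _ _ _ _ h).2), smul_zero, if_neg e, Int.cast_zero]
    have h5 := congrArg (fun t => B.repr t (p ξ i)) h
    simp only [← zsmul_eq_mul, map_sum, map_zsmul, Finsupp.coe_finsetSum, Finset.sum_apply,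
      Finsupp.smul_apply] at h5
    rw [← zsmul_one, map_zsmul, Finsupp.smul_apply, r1, Finset.sum_eq_single i, h4 i i1.2 le_rfl]
      at h5
    · exact i1.1 (by simpa [Finsupp.mem_support_iff.1 hξ] using h5)
    · intro j _ hj
      by_cases e : m j = 0
      · simp [e]
      by_cases e' : j.1 ∈ C
      · rw [not_not.1 fun h => i1.2 (c2 {j.1} (by simpa using e') (.inr (mem_biUnion
          (Finset.mem_singleton_self _) (Finsupp.mem_support_iff.2 h)))), smul_zero]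
      · simp [h4 j e' (i2 j ⟨e, e'⟩), hj]
    · simp

end Pool.Agent.H25.ZGroup
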