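import Pool.Agent.H25.ZTop

set_option autoImplicit false
open Set Filter Topology

namespace Pool.Agent.H25.ZTop

theorem nrec {α : Type} (P : α → Prop) (R : ℕ → α → α → Prop) (x : α) (h0 : P x)
    (h : ∀ n x, P x → ∃ y, P y ∧ R n x y) : ∃ f : ℕ → α, ∀ n, P (f n) ∧ R n (f n) (f (n + 1)) := by
  choose! g g1 g2 using h
  let f : ℕ → α := fun n => Nat.rec x g n
  have : ∀ n, P (f n) := fun n => Nat.rec h0 (fun n ih => g1 n _ ih) n
  exact ⟨f, fun n => ⟨this n, g2 n _ (this n)⟩⟩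

variable [t : TopologicalSpace ℤ] [IsTopologicalAddGroup ℤ]

omit [IsTopologicalAddGroup ℤ] in
theorem bd (hp : Prec t) {Y : Set ℤ} (hY : Y ∈ 𝓝 (0 : ℤ)) :
    ∃ L : ℝ, ∀ k, ∃ g : ℤ, |(g : ℝ)| ≤ L ∧ k - g ∈ Y := by
  obtain ⟨F, a, b⟩ := hp Y hY
  obtain ⟨L, hL⟩ := (a.image fun g : ℤ => |(g : ℝ)|).bddAbove
  exact ⟨L, fun k => (b k).imp fun g hg => ⟨hL ⟨g, hg.1, rfl⟩, hg.2⟩⟩

omit [IsTopologicalAddGroup ℤ] in
theorem small [T2Space ℤ] (hl : LQC t) {ρ : ℝ} (hρ : 0 < ρ) :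
    ∃ χ ∈ Ch t, χ 1 ≠ 0 ∧ ‖χ 1‖ ≤ ρ := by
  obtain ⟨n, hn⟩ := exists_nat_one_div_lt hρ
  have h1 : ((n + 1).factorial : ℤ) ≠ 0 := by exact_mod_cast Nat.factorial_ne_zero _
  obtain ⟨A, a1, a2, a3⟩ := hl.2 _ (isOpen_compl_singleton.mem_nhds h1.symm)
  obtain ⟨χ, c1, -, c2⟩ := a3 _ fun h => a2 h rfl
  obtain ⟨j, ⟨j1, j2⟩, j3⟩ := AddCircle.exists_norm_nsmul_le (χ 1) n.succ_pos
  refine ⟨j • χ, Continuous.nsmul c1 j, fun e => ?_, j3.trans (le_trans
    (by exact_mod_cast Nat.one_div_le_one_div (α := ℝ) n.le_succ) hn.le)⟩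
  obtain ⟨m, hm⟩ := Nat.dvd_factorial j1 j2
  rw [chi, hm, natCast_zsmul, mul_comm, mul_nsmul', show j • χ 1 = 0 from e] at c2
  norm_num at c2

def St (x : Set ℤ × ℝ) : Prop :=
  x.1 ∈ @nhds ℤ t 0 ∧ (∀ a ∈ x.1, -a ∈ x.1) ∧ 0 ≤ x.2 ∧ ∀ k, ∃ g : ℤ, |(g : ℝ)| ≤ x.2 ∧ k - g ∈ x.1

theorem step [T2Space ℤ] (hp : Prec t) (hl : LQC t) (n : ℕ) {B : Set ℤ} (hB : B ∈ 𝓝 (0 : ℤ))
    (x : Set ℤ × ℝ) (hx : St x) : ∃ y, St y ∧ ∃ χ ∈ Ch t, ‖χ 1‖ * (3 * n * x.2) ≤ 1 / (n + 1) ∧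
      ‖χ 1‖ ≤ 1 / (n + 1) ∧ x.2 ≤ y.2 ∧ (n : ℝ) + 1 ≤ y.2 ∧
      (∀ a ∈ y.1, ∀ b ∈ y.1, ∀ c ∈ y.1, ∀ d ∈ y.1, a + b + c + d ∈ x.1 ∧ a + b + c + d ∈ B ∧
        ‖χ (a + b + c + d)‖ ≤ 1 / (n + 1)) ∧
      ∀ T : ℕ, 0 < T → T ≤ n → ∃ k : ℤ, ‖χ k - (1 / T : ℝ)‖ ≤ 1 / T / T ∧
        ∀ j : ℕ, j ≤ T → j • k ∈ x.1 ∧ |((j • k : ℤ) : ℝ)| ≤ y.2 := by
  obtain ⟨x1, -, x3, -⟩ := hx
  obtain ⟨L, hL⟩ := bd hp ((eventually_all_finite (finite_Iic n)).2 fun j _ =>
    (continuous_nsmul j).continuousAt.eventually_mem (s := x.1) (by simpa using x1))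
  have hL0 : 0 ≤ L := (hL 0).elim fun g hg => (abs_nonneg _).trans hg.1
  obtain ⟨χ, c1, c2, c3⟩ := small hl (ρ := 1 / (n + 1) / (n + 1) / (3 * n * x.2 + L + 1))
    (by positivity)
  have c4 := (le_div_iff₀ (by positivity)).1 c3
  have c5 : (1 : ℝ) / (n + 1) / (n + 1) ≤ 1 / (n + 1) :=
    div_le_self (by positivity) (by linarith [n.cast_nonneg (α := ℝ)])
  have c6 := norm_nonneg (χ 1)
  have c7 : 0 ≤ 3 * n * x.2 := by positivity
  obtain ⟨V, v1, v2⟩ := exists_nhds_zero_quarter (inter_mem x1 (inter_mem hB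
    (Ch.nh c1 (Nat.one_div_pos_of_nat (n := n)))))
  have v3 : V ∩ -V ∈ 𝓝 (0 : ℤ) := inter_mem v1 (neg_mem_nhds_zero ℤ v1)
  obtain ⟨L', hL'⟩ := bd hp v3
  obtain ⟨r, r1, r2⟩ := rep (χ 1)
  have r3 : 0 < |r| := r2 ▸ norm_pos_iff.2 c2
  have h1 : 0 ≤ n * (1 / |r| + 1 + L) := by positivity
  refine ⟨(V ∩ -V, |L'| + x.2 + (n + 1) + n * (1 / |r| + 1 + L)), ⟨v3, fun a ha => ⟨ha.2,
    by simpa using ha.1⟩, by positivity, fun k => (hL' k).imp fun g hg => ⟨?_, hg.2⟩⟩, χ, c1,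
    by nlinarith, by nlinarith, ?_, ?_, fun a ha b hb c hc d hd => v2 ha.1 hb.1 hc.1 hd.1,
    fun T T1 T2 => ?_⟩
  · linarith [hg.1, le_abs_self L', n.cast_nonneg (α := ℝ)]
  · linarith [abs_nonneg L', n.cast_nonneg (α := ℝ)]
  · linarith [abs_nonneg L']
  obtain ⟨g, g1, g2⟩ := hL (round (1 / T / r))
  have T3 : (1 : ℝ) ≤ T := by exact_mod_cast T1
  have T4 : (T : ℝ) ≤ n := by exact_mod_cast T2
  have e1 := abs_sub_round (1 / T / r)
  refine ⟨round (1 / T / r) - g, ?_, fun j hj => ⟨g2 j (hj.trans T2), ?_⟩⟩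
  · rw [chi, r1, ← AddCircle.coe_zsmul, ← AddCircle.coe_sub]
    refine (nle _).trans ?_
    rw [show (round (1 / T / r) - g) • r - 1 / T = -(1 / T / r - round (1 / T / r) + g) * r by
      rw [zsmul_eq_mul]; push_cast; field_simp [abs_pos.1 r3]; ring, abs_mul, abs_neg]
    have e2 : (1 : ℝ) / (n + 1) / (n + 1) ≤ 1 / T / T := by gcongr <;> linarith
    nlinarith [abs_add_le (1 / T / r - round (1 / T / r)) g]
  · have e2 : |1 / T / r| ≤ 1 / |r| := by
      rw [abs_div]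
      gcongr
      rw [abs_of_pos (by positivity)]
      exact div_le_one_of_le₀ T3 (by positivity)
    have e3 : |((round (1 / T / r) - g : ℤ) : ℝ)| ≤ 1 / |r| + 1 + L := by
      push_cast
      linarith [abs_sub (round (1 / T / r) : ℝ) g, abs_sub (1 / T / r) (1 / T / r - round (1 / T / r)),
        congrArg abs (sub_sub_cancel (1 / T / r) (round (1 / T / r) : ℝ))]
    have e4 : (j : ℝ) ≤ n := by exact_mod_cast hj.trans T2
    rw [nsmul_eq_mul, Int.cast_mul, abs_mul, Int.cast_natCast, Nat.abs_cast]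
    nlinarith [abs_nonneg L', abs_nonneg ((round (1 / T / r) - g : ℤ) : ℝ),
      j.cast_nonneg (α := ℝ), n.cast_nonneg (α := ℝ)]

omit t [IsTopologicalAddGroup ℤ] in
theorem near (x : UnitAddCircle) {T : ℕ} (hT : 0 < T) :
    ∃ j : ℕ, j ≤ T ∧ ‖x - j • ((1 / T : ℝ) : UnitAddCircle)‖ ≤ 1 / T := by
  obtain ⟨r, ⟨r1, r2⟩, rfl⟩ := AddCircle.eq_coe_Ico x
  have T1 : (0 : ℝ) < T := by exact_mod_cast hT
  refine ⟨⌊r * T⌋₊, Nat.floor_le_of_le (by nlinarith), ?_⟩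
  rw [← AddCircle.coe_nsmul, ← AddCircle.coe_sub]
  refine (nle _).trans ?_
  rw [show r - ⌊r * T⌋₊ • (1 / T : ℝ) = (r * T - ⌊r * T⌋₊) / T by
    rw [nsmul_eq_mul]; field_simp, abs_div, abs_of_pos T1]
  gcongr
  exact abs_le.2 ⟨by linarith [Nat.floor_le (show 0 ≤ r * T by positivity)],
    by linarith [Nat.lt_floor_add_one (r * T)]⟩

theorem mack [T2Space ℤ] [FirstCountableTopology ℤ] (hp : Prec t) : ¬ Mackey t := by
  classical
  rintro ⟨hl, hm⟩
  obtain ⟨B, hB⟩ := (𝓝 (0 : ℤ)).exists_antitone_basis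
  obtain ⟨x, hx⟩ := nrec St _ (univ, 0) ⟨univ_mem, by simp, le_rfl, fun k => ⟨0, by simp⟩⟩
    fun n => step hp hl n (hB.mem n)
  choose hs χ c1 c2 c3 c4 c5 c6 c7 using hx
  have y0 : ∀ n, 0 ∈ (x n).1 := fun n => mem_of_mem_nhds (hs n).1
  have y1 : Antitone fun n => (x n).1 := antitone_nat_of_succ_le fun n a ha => by
    simpa using (c6 n a ha 0 (y0 _) 0 (y0 _) 0 (y0 _)).1
  have y2 : Monotone fun n => (x n).2 := monotone_nat_of_le_succ c4
  have y3 : ∀ O ∈ 𝓝 (0 : ℤ), ∀ᶠ n in atTop, B n ⊆ O := fun O hO => hB.eventually_subset hO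
  have y4 : ∀ ε : ℝ, 0 < ε → ∀ᶠ n : ℕ in atTop, (1 : ℝ) / (n + 1) ≤ ε := fun ε hε =>
    tendsto_one_div_add_atTop_nhds_zero_nat.eventually (ge_mem_nhds hε)
  let h : ℕ → UnitAddCircle := fun n => χ n 1
  have e : Ch (t ⊓ unif h) = Ch t := by
    refine Subset.antisymm (fun ψ hψ => cont hl.1 ψ fun η hη => ?_)
      fun ψ hψ => continuous_le_dom inf_le_left hψ
    have h1 := Ch.nh hψ (ε := 1 / 4) (by norm_num)
    rw [@_root_.nhds_inf ℤ t (unif h) 0] at h1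
    obtain ⟨V, v1, W, w1, h1⟩ := mem_inf_iff.1 h1
    obtain ⟨ε, hε, w2⟩ := (unif_nhds h).mem_iff.1 w1
    obtain ⟨T, hT⟩ := exists_nat_gt (8 / ε)
    have T1 : (0 : ℝ) < T := lt_trans (by positivity) hT
    have T2 : 2 / T < ε / 4 := by
      rw [div_lt_iff₀ hε] at hT
      rw [div_lt_iff₀ T1]
      linarith
    let U := {k | k ∈ interior V ∧ ∀ n, ‖χ n k‖ < ε}
    obtain ⟨y, ⟨u1, u2⟩, u3⟩ := sup U ⟨mem_interior_iff_mem_nhds.2 v1, by simpa using hε⟩ ψ
      (fun k hk => h1.ge ⟨interior_subset hk.1, w2 fun n => (chi _ k ▸ hk.2 n).le⟩)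
      (δ := η / (T + 1)) (by positivity)
    obtain ⟨n1, hn1⟩ := eventually_atTop.1 (y4 (ε / 4 / (|y| + 1)) (by positivity))
    have hO : ∀ w, w ∈ U → ∀ s : ℤ, ∀ᶠ z in 𝓝 (0 : ℤ),
        w + s • z ∈ interior V ∧ ∀ n ∈ Iio n1, ‖χ n (w + s • z)‖ < ε := fun w hw s => by
      have hc : Continuous fun z : ℤ => w + s • z := continuous_const.add (continuous_zsmul s)
      refine (hc.continuousAt.eventually_mem (isOpen_interior.mem_nhds (by simpa using hw.1))).and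
        ((eventually_all_finite (finite_Iio n1)).2 fun n _ => ?_)
      exact (Continuous.comp (c1 n) hc).norm.continuousAt.eventually_lt continuousAt_const
        (by simpa using hw.2 n)
    have h0 : 0 ∈ U := ⟨mem_interior_iff_mem_nhds.2 v1, by simpa using hε⟩
    obtain ⟨N, hN, hN'⟩ := ((y3 _ ((hO 0 h0 1).and ((hO y ⟨u1, u2⟩ 1).and
      (hO y ⟨u1, u2⟩ (-1))))).and (eventually_ge_atTop T)).exists
    let A : ℕ → ℤ → Prop := fun i a => (∃ b ∈ (x i).1, ∃ c ∈ (x i).1, ∃ d ∈ (x i).1,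
      a = b + c + d) ∧ |(a : ℝ)| ≤ 3 * (x (i + 1)).2 ∧ ‖χ i a‖ ≤ 2 / T
    have A0 : ∀ i, A i 0 := fun i => ⟨⟨0, y0 _, 0, y0 _, 0, y0 _, rfl⟩,
      by simpa using (hs _).2.2.1, by simpa using div_nonneg zero_le_two T1.le⟩
    have s1 : ∀ a : ℕ → ℤ, (∀ i, A i (a i)) → ∀ m n, ∑ i ∈ Finset.range m, a (n + 1 + i) ∈ (x n).1 ∧
        ∑ i ∈ Finset.range m, a (n + 1 + i) ∈ B n ∧
        ‖χ n (∑ i ∈ Finset.range m, a (n + 1 + i))‖ ≤ 1 / (n + 1) := fun a ha m => by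
      induction m with
      | zero => exact fun n => ⟨y0 n, mem_of_mem_nhds (hB.mem n), by simp; positivity⟩
      | succ m ih =>
        intro n
        obtain ⟨b, b1, c, b2, d, b3, e⟩ := (ha (n + 1)).1
        have := c6 n b b1 c b2 d b3 _ (ih (n + 1)).1
        rw [← e, add_comm] at this
        simpa only [Finset.sum_range_succ', add_zero, add_assoc, add_comm 1] using this
    have s2 : ∀ (a : ℕ → ℤ) (M : ℕ), (∀ i, A i (a i)) → (∀ i ≤ N, a i = 0) → (∀ i ≥ M, a i = 0) →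
        ‖ψ (∑ i ∈ Finset.range M, a i)‖ ≤ η / (T + 1) := fun a M a1 a2 a3 => by
      have e1 : ∀ n, ∑ i ∈ Finset.range M, a i = ∑ i ∈ Finset.range n, a i + a n +
          ∑ i ∈ Finset.range M, a (n + 1 + i) := fun n => by
        rw [← Finset.sum_range_succ, ← Finset.sum_range_add, add_comm (n + 1), Finset.sum_range_add,
          Finset.sum_eq_zero (s := Finset.range (n + 1)) fun i _ => a3 _ (by omega), add_zero]
      have e2 : ∑ i ∈ Finset.range M, a i ∈ B N := by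
        rw [e1 N, Finset.sum_eq_zero fun i hi => a2 i (Finset.mem_range.1 hi).le, a2 N le_rfl,
          zero_add, zero_add]
        exact (s1 a a1 M N).2.1
      have e3 : ∀ n ≥ n1, ‖χ n (∑ i ∈ Finset.range M, a i)‖ + ‖χ n y‖ < ε := fun n hn => by
        have f1 : |((∑ i ∈ Finset.range n, a i : ℤ) : ℝ)| ≤ n * (3 * (x n).2) := by
          push_cast
          refine (Finset.abs_sum_le_sum_abs _ _).trans ?_
          simpa using Finset.sum_le_card_nsmul (Finset.range n) _ (3 * (x n).2) fun i hi =>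
            (a1 i).2.1.trans (by linarith [y2 (Finset.mem_range.1 hi)])
        have f2 := zle (∑ i ∈ Finset.range n, a i) (χ n 1)
        have f3 := zle y (χ n 1)
        have f4 := (le_div_iff₀ (by positivity)).1 (hn1 n hn)
        rw [← chi, Int.cast_abs] at f2 f3
        rw [Int.cast_abs] at f4
        rw [e1 n, map_add, map_add]
        have f5 := norm_nonneg (χ n 1)
        have f6 := abs_nonneg (y : ℝ)
        have f7 := Nat.one_div_pos_of_nat (α := ℝ) (n := n)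
        linarith [norm_add₃_le (a := χ n (∑ i ∈ Finset.range n, a i)) (b := χ n (a n))
          (c := χ n (∑ i ∈ Finset.range M, a (n + 1 + i))), (s1 a a1 M n).2.2, (a1 n).2.2, c2 n,
          mul_le_mul_of_nonneg_left (c3 n) f6, mul_le_mul_of_nonneg_right f1 f5,
          mul_nonneg f7.le f6]
      obtain ⟨f1, f2, f3⟩ := hN e2
      simp only [one_smul, zero_add, neg_smul, ← sub_eq_add_neg] at f1 f2 f3
      refine u3 _ ⟨f1.1, fun n => ?_⟩ ⟨f2.1, fun n => ?_⟩ ⟨f3.1, fun n => ?_⟩ <;>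
        rcases lt_or_ge n n1 with hn | hn
      · exact f1.2 n hn
      · linarith [e3 n hn, norm_nonneg (χ n y)]
      · exact f2.2 n hn
      · linarith [e3 n hn, norm_add_le (χ n y) (χ n (∑ i ∈ Finset.range M, a i)),
          congrArg norm (map_add (χ n) y (∑ i ∈ Finset.range M, a i))]
      · exact f3.2 n hn
      · linarith [e3 n hn, norm_sub_le (χ n y) (χ n (∑ i ∈ Finset.range M, a i)),
          congrArg norm (map_sub (χ n) y (∑ i ∈ Finset.range M, a i))]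
    have T3 : 0 < T := by exact_mod_cast T1
    choose! κ κ1 κ2 using fun i (hi : T ≤ i) => c7 i T T3 hi
    refine mem_of_superset (hs (N + 1)).1 fun k hk => ?_
    have g0 : ∀ i, ∃ g : ℤ, |(g : ℝ)| ≤ (x i).2 ∧ k - g ∈ (x i).1 ∧ (i ≤ N + 1 → g = 0) ∧
        (N + 1 + k.natAbs < i → g = k) := fun i => by
      by_cases e : i ≤ N + 1
      · exact ⟨0, by simpa using (hs _).2.2.1, by simpa using y1 e hk, fun _ => rfl, by omega⟩
      by_cases e' : N + 1 + k.natAbs < i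
      · obtain ⟨i, rfl⟩ := Nat.exists_eq_add_one.2 (show 0 < i by omega)
        refine ⟨k, le_trans ?_ (c5 i), by simpa using y0 _, fun h => absurd h e, fun _ => rfl⟩
        rw [← Int.cast_abs, Int.abs_eq_natAbs]
        exact_mod_cast by omega
      · exact ((hs i).2.2.2 k).imp fun g hg => ⟨hg.1, hg.2, fun h => absurd h e, fun h => absurd h e'⟩
    choose g g1 g2 g3 g4 using g0
    have j0 : ∀ i, ∃ j : ℕ, j ≤ T ∧ (g (i + 1) - g i = 0 → j = 0) ∧
        ‖χ i (g (i + 1) - g i) - j • ((1 / T : ℝ) : UnitAddCircle)‖ ≤ 1 / T := fun i => by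
      by_cases e : g (i + 1) - g i = 0
      · exact ⟨0, T.zero_le, fun _ => rfl, by simp [e]⟩
      · exact (near _ T3).imp fun j hj => ⟨hj.1, fun h => absurd h e, hj.2⟩
    choose j j1 j2 j3 using j0
    have z1 : ∀ i ≤ N, g (i + 1) - g i = 0 := fun i hi => by
      rw [g3 _ (by omega), g3 _ (by omega), sub_zero]
    have z2 : ∀ i ≥ N + 2 + k.natAbs, g (i + 1) - g i = 0 := fun i hi => by
      rw [g4 _ (by omega), g4 _ (by omega), sub_self]
    have p1 := s2 (fun i => g (i + 1) - g i - j i • κ i) (N + 2 + k.natAbs) (fun i => by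
      by_cases e : i ≤ N
      · simpa [z1 i e, j2 i (z1 i e)] using A0 i
      obtain ⟨f1, f2⟩ := κ2 i (by omega) _ (j1 i)
      refine ⟨⟨_, g2 i, _, (hs i).2.1 _ (y1 i.le_succ (g2 (i + 1))), _, (hs i).2.1 _ f1, by ring⟩,
        ?_, ?_⟩
      · rw [Int.cast_sub, Int.cast_sub]
        linarith [g1 i, g1 (i + 1), c4 i, abs_sub (g (i + 1) : ℝ) (g i),
          abs_sub ((g (i + 1) : ℝ) - g i) ((j i • κ i : ℤ) : ℝ)]
      · have f3 := (norm_nsmul_le (a := χ i (κ i) - (1 / T : ℝ)) (n := j i)).trans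
          (mul_le_mul (Nat.cast_le.2 (j1 i)) (κ1 i (by omega)) (norm_nonneg _) T1.le)
        rw [mul_div_cancel₀ _ T1.ne', nsmul_sub] at f3
        rw [map_sub _ _ (j i • κ i), map_nsmul, ← sub_sub_sub_cancel_right _ _
          (j i • ((1 / T : ℝ) : UnitAddCircle))]
        exact (norm_sub_le _ _).trans ((add_le_add (j3 i) f3).trans_eq (by ring)))
      (fun i hi => by simp [z1 i hi, j2 i (z1 i hi)]) fun i hi => by simp [z2 i hi, j2 i (z2 i hi)]
    have p2 := fun l : ℕ => s2 (fun i => if l < j i then κ i else 0) (N + 2 + k.natAbs) (fun i => by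
      split_ifs with e
      · have e' : T ≤ i := by
          by_contra e'
          have := j2 i (z1 i (by omega))
          omega
        obtain ⟨f1, f2⟩ := κ2 i e' 1 T3
        rw [one_smul] at f1 f2
        refine ⟨⟨_, f1, 0, y0 _, 0, y0 _, by ring⟩, by linarith [(hs (i + 1)).2.2.1], ?_⟩
        have f3 := norm_le_norm_sub_add (χ i (κ i)) ((1 / T : ℝ) : UnitAddCircle)
        have f4 := nle (1 / T)
        rw [abs_of_pos (by positivity)] at f4
        have f5 : (1 : ℝ) / T / T ≤ 1 / T := div_le_self (by positivity) (by exact_mod_cast T3)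
        linarith [κ1 i e', show (2 : ℝ) / T = 1 / T + 1 / T by ring]
      · exact A0 i) (fun i hi => by simp [j2 i (z1 i hi)]) fun i hi => by simp [j2 i (z2 i hi)]
    have p3 : k = ∑ i ∈ Finset.range (N + 2 + k.natAbs), (g (i + 1) - g i - j i • κ i) +
        ∑ l ∈ Finset.range T, ∑ i ∈ Finset.range (N + 2 + k.natAbs),
          if l < j i then κ i else 0 := by
      rw [Finset.sum_comm, ← Finset.sum_add_distrib, Finset.sum_congr rfl
        (g := fun i => g (i + 1) - g i) fun i _ => ?_, Finset.sum_range_sub, g4 _ (by omega),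
        g3 0 (by omega), sub_zero]
      rw [← Finset.sum_filter, Finset.sum_const, show (Finset.range T).filter (· < j i) =
        Finset.range (j i) from Finset.ext fun l => by have := j1 i; simp; omega,
        Finset.card_range, sub_add_cancel]
    rw [mem_ofPred_eq, p3, map_add, map_sum ψ _ (Finset.range T)]
    refine (norm_add_le _ _).trans ((add_le_add p1 ((norm_sum_le _ _).trans
      (Finset.sum_le_card_nsmul _ _ _ fun l _ => p2 l))).trans_eq ?_)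
    rw [Finset.card_range, nsmul_eq_mul]
    field_simp
    ring
  have h1 : t ≤ t ⊓ unif h := hm _ (hl.inf (unif_lqc h)) (t2Space_antitone inf_le_left ‹_›) e
  obtain ⟨n, h2, h3⟩ := ((y3 _ (nhds_mono (h1.trans inf_le_right) ((unif_nhds h).mem_of_mem
    (show (0 : ℝ) < 1 / 8 by norm_num)))).and (eventually_ge_atTop 1)).exists
  obtain ⟨k, k1, k2⟩ := c7 (n + 1) 2 two_pos (by omega)
  have h4 := h2 (c6 n _ (k2 1 one_le_two).1 0 (y0 _) 0 (y0 _) 0 (y0 _)).2.1 (n + 1)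
  have h5 := norm_sub_norm_le ((1 / (2 : ℕ) : ℝ) : UnitAddCircle) (χ (n + 1) k)
  rw [norm_sub_rev, nrm (by norm_num)] at h5
  simp only [one_smul, add_zero, h, ← chi] at h4
  norm_num at h5 k1 h4
  linarith

end Pool.Agent.H25.ZTop
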