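import Pool.Agent.H25.ZTop

set_option autoImplicit false
open Set Filter Topology

namespace Pool.Agent.H25.ZTop

theorem lam_le {b c : ℕ → ℕ} (h : ∀ n, ∃ l, b n ∣ c l) : lam c ≤ lam b :=
  le_iInf fun n => by
    obtain ⟨l, hl⟩ := h n
    refine iInf_le_of_le l ?_
    have : (fun k : ℤ => (k : ZMod (b n))) =
        (ZMod.castHom hl (ZMod (b n))) ∘ fun k : ℤ => (k : ZMod (c l)) := funext fun k => by simp
    rw [this, ← induced_compose]
    exact induced_mono bot_le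

def sg : ℕ → ℕ × ℕ
  | 0 => (0, 0)
  | n + 1 => if (sg n).2 = 0 then ((sg n).1 + 1, (sg n).1 + 1) else ((sg n).1, (sg n).2 - 1)

theorem sg_le (n : ℕ) : (sg n).2 ≤ (sg n).1 := by
  induction n with
  | zero => simp [sg]
  | succ n ih => rw [sg]; split_ifs <;> simp <;> omega

theorem sg_down (m : ℕ) (h : ∃ n, sg n = (m, m)) : ∀ j ≤ m, ∃ n, sg n = (m, m - j) := by
  intro j
  induction j with
  | zero => exact fun _ => h
  | succ j ih =>
    intro hj
    obtain ⟨n, hn⟩ := ih (by omega)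
    refine ⟨n + 1, ?_⟩
    rw [sg, hn, if_neg (by simp; omega)]
    simp; omega

theorem sg_diag (m : ℕ) : ∃ n, sg n = (m, m) := by
  induction m with
  | zero => exact ⟨0, rfl⟩
  | succ m ih =>
    obtain ⟨n, hn⟩ := sg_down m ih m le_rfl
    exact ⟨n + 1, by rw [sg, hn]; simp⟩

theorem sg_surj {m i : ℕ} (h : i ≤ m) : ∃ n, sg n = (m, i) := by
  obtain ⟨n, hn⟩ := sg_down m (sg_diag m) (m - i) (by omega)
  exact ⟨n, by rw [hn]; simp; omega⟩

theorem sg_tend : Tendsto (fun n => (sg n).1) atTop atTop :=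
  tendsto_atTop_atTop_of_monotone (monotone_nat_of_le_succ fun n => by
    rw [sg]; split_ifs <;> simp) fun m => (sg_diag m).imp fun n hn => by simp [hn]

def sq (C : ℕ × ℕ → ℕ) : ℕ → ℕ
  | 0 => 1
  | n + 1 => C (sg n)

theorem sq_dinf (C : ℕ × ℕ → ℕ) (h0 : 2 ≤ C (0, 0))
    (h1 : ∀ m i, i + 1 ≤ m → ∃ r, m + 2 ≤ r ∧ C (m, i) = C (m, i + 1) * r)
    (h2 : ∀ m, ∃ r, m + 2 ≤ r ∧ C (m + 1, m + 1) = C (m, 0) * r) : IsDinf (sq C) := by
  have a : ∀ n, ∃ r, (sg n).1 + 2 ≤ r ∧ C (sg (n + 1)) = C (sg n) * r := fun n => by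
    have := sg_le n
    rw [sg]
    generalize sg n = p at this ⊢
    obtain ⟨m, i⟩ := p
    rcases i with _ | i
    · simpa using h2 m
    · simpa using h1 m i this
  choose r r1 r2 using a
  have p : ∀ n, 0 < C (sg n) := fun n => by
    induction n with
    | zero => exact lt_of_lt_of_le two_pos h0
    | succ n ih => rw [r2]; exact Nat.mul_pos ih (by have := r1 n; omega)
  refine ⟨⟨rfl, fun n => ?_⟩, ?_⟩
  · rcases n with _ | n
    · exact ⟨one_pos, one_dvd _, by simp only [sq, sg]; omega⟩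
    · refine ⟨p n, ⟨_, r2 n⟩, ?_⟩
      simp only [sq, r2]
      have := p n
      have := r1 n
      nlinarith
  · rw [← tendsto_add_atTop_iff_nat 1]
    refine tendsto_atTop_mono (fun n => ?_) sg_tend
    simp only [sq, r2, Nat.mul_div_cancel_left _ (p n)]
    have := r1 n
    omega

def uv (s : ℕ) : ℕ → ℕ × ℕ
  | 0 => (1, 1)
  | i + 1 => ((uv s i).1 * (2 + s * (uv s i).2), (uv s i).2 * (2 + s * (2 * (uv s i).1)))

theorem uv_pos (s i : ℕ) : 0 < (uv s i).1 ∧ 0 < (uv s i).2 := by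
  induction i with
  | zero => simp [uv]
  | succ i ih => exact ⟨Nat.mul_pos ih.1 (by omega), Nat.mul_pos ih.2 (by omega)⟩

theorem uv_eq (s i : ℕ) : 2 * (uv s i).1 = (uv s i).2 + 2 ^ i := by
  induction i with
  | zero => simp [uv]
  | succ i ih => simp only [uv, pow_succ]; nlinarith

theorem uv_dvd (s : ℕ) {i j : ℕ} (h : i ≤ j) :
    (uv s i).1 ∣ (uv s j).1 ∧ (uv s i).2 ∣ (uv s j).2 := by
  induction h with
  | refl => exact ⟨dvd_rfl, dvd_rfl⟩
  | step _ ih => exact ⟨ih.1.mul_right _, ih.2.mul_right _⟩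

def NN : ℕ → ℕ
  | 0 => 2
  | m + 1 => NN m * (4 * (m + 1) * (uv (m + 1) (m + 1)).1 * (uv (m + 1) (m + 1)).2)

theorem NN_pos (m : ℕ) : 0 < NN m := by
  induction m with
  | zero => simp [NN]
  | succ m ih => obtain ⟨a, b⟩ := uv_pos (m + 1) (m + 1); rw [NN]; positivity

theorem NN_dvd {m i : ℕ} (h : i ≤ m) : (uv m i).1 ∣ NN m ∧ (uv m i).2 ∣ NN m := by
  rcases m with _ | m
  · obtain rfl : i = 0 := by omega
    simp [uv]
  · exact ⟨(uv_dvd _ h).1.trans (((dvd_mul_left _ _).mul_right _).mul_left _),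
      (uv_dvd _ h).2.trans ((dvd_mul_left _ _).mul_left _)⟩

theorem NN_four (m : ℕ) : ∃ r, 0 < r ∧ NN (m + 1) = NN m * (4 * r) :=
  ⟨(m + 1) * (uv (m + 1) (m + 1)).1 * (uv (m + 1) (m + 1)).2, by
    obtain ⟨a, b⟩ := uv_pos (m + 1) (m + 1); positivity, by rw [NN]; ring⟩

theorem NN_mono {l m : ℕ} (h : l ≤ m) : NN l ∣ NN m := by
  induction h with
  | refl => exact dvd_rfl
  | step _ ih => exact ih.mul_right _

theorem NN_ge (m l : ℕ) : NN m * 4 ^ l ≤ NN (l + m) := by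
  induction l with
  | zero => simp
  | succ l ih =>
    obtain ⟨r, r1, r2⟩ := NN_four (l + m)
    rw [show l + 1 + m = l + m + 1 by ring, r2, pow_succ]
    nlinarith [NN_pos (l + m)]

def C1 (p : ℕ × ℕ) : ℕ := NN p.1 / (uv p.1 p.2).1
def C2 (p : ℕ × ℕ) : ℕ := 2 * NN p.1 / (uv p.1 p.2).2

theorem C1_eq {m i : ℕ} (h : i ≤ m) : (uv m i).1 * C1 (m, i) = NN m :=
  Nat.mul_div_cancel' (NN_dvd h).1

theorem C2_eq {m i : ℕ} (h : i ≤ m) : (uv m i).2 * C2 (m, i) = 2 * NN m :=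
  Nat.mul_div_cancel' ((NN_dvd h).2.mul_left _)

theorem d1 : IsDinf (sq C1) := by
  refine sq_dinf _ (by simp [C1, NN, uv]) (fun m i h => ⟨2 + m * (uv m i).2, by
    nlinarith [(uv_pos m i).2], Nat.eq_of_mul_eq_mul_left (uv_pos m i).1 ?_⟩) fun m =>
    ⟨4 * (m + 1) * (uv (m + 1) (m + 1)).2, by nlinarith [(uv_pos (m + 1) (m + 1)).2],
      Nat.eq_of_mul_eq_mul_left (uv_pos (m + 1) (m + 1)).1 ?_⟩
  · rw [C1_eq (by omega), ← C1_eq h, uv]; ring
  · rw [C1_eq le_rfl, NN, ← C1_eq m.zero_le, uv]; ring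

theorem d2 : IsDinf (sq C2) := by
  refine sq_dinf _ (by simp [C2, NN, uv]) (fun m i h => ⟨2 + m * (2 * (uv m i).1), by
    nlinarith [(uv_pos m i).1], Nat.eq_of_mul_eq_mul_left (uv_pos m i).2 ?_⟩) fun m =>
    ⟨4 * (m + 1) * (uv (m + 1) (m + 1)).1, by nlinarith [(uv_pos (m + 1) (m + 1)).1],
      Nat.eq_of_mul_eq_mul_left (uv_pos (m + 1) (m + 1)).2 ?_⟩
  · rw [C2_eq (by omega), ← C2_eq h, uv]; ring
  · have := C2_eq m.zero_le
    rw [uv, one_mul] at this
    rw [C2_eq le_rfl, NN, this]; ring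

theorem sq1_dvd (n : ℕ) : ∃ m, sq C1 n ∣ NN m := by
  rcases n with _ | n
  · exact ⟨0, one_dvd _⟩
  · exact ⟨(sg n).1, Dvd.intro_left _ (C1_eq (sg_le n))⟩

theorem lam12 : lam (sq C2) = lam (sq C1) := by
  refine le_antisymm (lam_le fun n => ?_) (lam_le fun n => ?_)
  · obtain ⟨m, hm⟩ := sq1_dvd n
    obtain ⟨l, hl⟩ := sg_surj m.zero_le
    have := C2_eq m.zero_le
    rw [uv, one_mul] at this
    exact ⟨l + 1, by rw [sq, hl, this]; exact hm.mul_left _⟩
  · rcases n with _ | n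
    · exact ⟨0, one_dvd _⟩
    obtain ⟨l, hl⟩ := sg_surj ((sg n).1 + 1).zero_le
    have := C1_eq ((sg n).1 + 1).zero_le
    rw [uv, one_mul] at this
    obtain ⟨r, -, hr⟩ := NN_four (sg n).1
    refine ⟨l + 1, ?_⟩
    rw [sq, sq, hl, this, hr]
    exact (Dvd.intro_left _ (C2_eq (sg_le n))).trans ⟨2 * r, by ring⟩

noncomputable def zz (m : ℕ) : ℝ := 1 / (2 * NN m)

theorem zz_eq {m i : ℕ} (h : i ≤ m) : 2 ^ i * zz m = 1 / C1 (m, i) - 1 / C2 (m, i) := by
  have e1 : ((uv m i).1 : ℝ) * C1 (m, i) = NN m := by exact_mod_cast C1_eq h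
  have e2 : ((uv m i).2 : ℝ) * C2 (m, i) = 2 * NN m := by exact_mod_cast C2_eq h
  have e3 : 2 * ((uv m i).1 : ℝ) = (uv m i).2 + 2 ^ i := by exact_mod_cast uv_eq m i
  have p : (0 : ℝ) < NN m := by exact_mod_cast NN_pos m
  have p1 : (C1 (m, i) : ℝ) ≠ 0 := fun e => by rw [e] at e1; linarith
  have p2 : (C2 (m, i) : ℝ) ≠ 0 := fun e => by rw [e] at e2; linarith
  rw [show 1 / (C1 (m, i) : ℝ) = (uv m i).1 / NN m by rw [← e1]; field_simp [(uv_pos m i).1.ne'],
    show 1 / (C2 (m, i) : ℝ) = (uv m i).2 / (2 * NN m) by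
      rw [← e2]; field_simp [(uv_pos m i).2.ne'], zz]
  field_simp
  linarith

theorem zz_pos (m : ℕ) : 0 < zz m := by have := NN_pos m; unfold zz; positivity

theorem zz_le (m l : ℕ) : zz (l + m) ≤ zz m * (1 / 4) ^ l := by
  have := NN_pos m
  have h : (NN m : ℝ) * 4 ^ l ≤ NN (l + m) := by exact_mod_cast NN_ge m l
  rw [zz, zz, one_div_pow, div_mul_div_comm, one_mul]
  exact one_div_le_one_div_of_le (by positivity) (by linarith)

theorem zz_sum (m : ℕ) : Summable fun l => zz (l + m) :=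
  Summable.of_nonneg_of_le (fun l => (zz_pos _).le) (zz_le m)
    ((summable_geometric_of_lt_one (by norm_num) (by norm_num)).mul_left _)

theorem zz_not (k : ℤ) (n : ℕ) :
    ((∑' m, zz m : ℝ) : UnitAddCircle) ≠ ((k / sq C1 n : ℝ) : UnitAddCircle) := by
  intro e
  obtain ⟨m, t, ht⟩ := sq1_dvd n
  rw [← sub_eq_zero, ← AddCircle.coe_sub, AddCircle.coe_eq_zero_iff] at e
  obtain ⟨j, hj⟩ := e
  have p : (0 : ℝ) < NN m := by exact_mod_cast NN_pos m
  have p' : (sq C1 n : ℝ) ≠ 0 := by exact_mod_cast (d1.1.2 n).1.ne'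
  have s0 : Summable zz := zz_sum 0
  rw [← s0.sum_add_tsum_nat_add (m + 1)] at hj
  have t1 : 0 < ∑' l, zz (l + (m + 1)) :=
    (zz_sum _).tsum_pos (fun l => (zz_pos _).le) 0 (zz_pos _)
  have t2 : ∑' l, zz (l + (m + 1)) ≤ zz (m + 1) * (1 - 1 / 4)⁻¹ := by
    rw [← tsum_geometric_of_lt_one (by norm_num) (by norm_num), ← tsum_mul_left]
    exact (zz_sum _).tsum_le_tsum (zz_le _)
      ((summable_geometric_of_lt_one (by norm_num) (by norm_num)).mul_left _)
  have t3 := zz_le m 1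
  rw [add_comm 1] at t3
  have t4 : 2 * NN m * zz m = 1 := by rw [zz]; field_simp
  have t5 : ∃ w : ℤ, 2 * NN m * ∑ l ∈ Finset.range (m + 1), zz l = w := by
    refine ⟨∑ l ∈ Finset.range (m + 1), (NN m / NN l : ℕ), ?_⟩
    rw [Finset.mul_sum, Int.cast_sum]
    refine Finset.sum_congr rfl fun l hl => ?_
    have q : (NN l : ℝ) ≠ 0 := by exact_mod_cast (NN_pos l).ne'
    rw [Int.cast_natCast, Nat.cast_div (NN_mono (Nat.lt_succ_iff.1 (Finset.mem_range.1 hl))) q, zz]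
    field_simp
  obtain ⟨w, hw⟩ := t5
  have t6 : 2 * NN m * ∑' l, zz (l + (m + 1)) = ((2 * NN m * j + 2 * t * k - w : ℤ) : ℝ) := by
    have : (NN m : ℝ) * (k / sq C1 n) = t * k := by rw [ht]; push_cast; field_simp
    push_cast
    rw [zsmul_eq_mul, mul_one] at hj
    rw [← hw, hj]
    linarith
  have u1 : (0 : ℝ) < ((2 * NN m * j + 2 * t * k - w : ℤ) : ℝ) := by rw [← t6]; positivity
  have u2 : ((2 * NN m * j + 2 * t * k - w : ℤ) : ℝ) < 1 := by
    rw [← t6]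
    nlinarith [zz_pos m]
  have u3 := Int.cast_pos.1 u1
  have u4 : (2 * NN m * j + 2 * t * k - w : ℤ) < 1 := by exact_mod_cast u2
  omega

theorem zz_ch : zmultiplesHom _ ((∑' m, zz m : ℝ) : UnitAddCircle) ∈
    Ch (tau (sq C1) ⊓ tau (sq C2)) := by
  refine cont (topologicalAddGroup_inf (unif_grp _) (unif_grp _)) _ fun ε hε => ?_
  obtain ⟨M, hM⟩ := exists_pow_lt_of_lt_one (half_pos hε) (one_half_lt_one (α := ℝ))
  have hδ : 0 < min (1 / 8) (ε / 4 / (M + 1)) := by positivity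
  rw [@_root_.nhds_inf ℤ (tau (sq C1)) (tau (sq C2)) 0]
  refine mem_of_superset (inter_mem_inf ((unif_nhds _).mem_of_mem hδ)
    ((unif_nhds _).mem_of_mem hδ)) fun k ⟨k1, k2⟩ => ?_
  have a : ∀ m, ∀ i ≤ m, ‖(2 ^ i : ℤ) • k • (zz m : UnitAddCircle)‖ ≤
      2 * min (1 / 8) (ε / 4 / (M + 1)) := fun m i h => by
    obtain ⟨n, hn⟩ := sg_surj h
    have b1 := k1 n
    have b2 := k2 n
    simp only [sq, hn] at b1 b2
    rw [smul_comm, ← AddCircle.coe_zsmul, zsmul_eq_mul]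
    push_cast
    rw [zz_eq h, AddCircle.coe_sub, zsmul_sub]
    linarith [norm_sub_le (k • ((1 / C1 (m, i) : ℝ) : UnitAddCircle))
      (k • ((1 / C2 (m, i) : ℝ) : UnitAddCircle))]
  have a' : ∀ m, ∀ i ≤ m, ‖(2 ^ i : ℤ) • k • (zz m : UnitAddCircle)‖ ≤ 1 / 4 := fun m i h => by
    linarith [a m i h, min_le_left (1 / 8) (ε / 4 / (M + 1))]
  have b : ∀ m, ‖k • (zz m : UnitAddCircle)‖ ≤ (1 / 2) ^ m / 4 := fun m => by
    have := a' m m le_rfl
    rw [pw m fun j hj => a' m j hj.le] at this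
    rw [one_div_pow, div_div, le_div_iff₀ (by positivity)]
    linarith
  have c : ∀ j, ‖∑ m ∈ Finset.range (j + M), k • (zz m : UnitAddCircle)‖ ≤
      ε / 2 + (1 / 2) ^ M - (1 / 2) ^ (j + M) := fun j => by
    induction j with
    | zero =>
      rw [zero_add, add_sub_cancel_right]
      refine (norm_sum_le _ _).trans ((Finset.sum_le_card_nsmul _ _ (ε / 2 / (M + 1))
        fun m _ => ?_).trans ?_)
      · have := a m 0 m.zero_le
        rw [pow_zero, one_smul] at this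
        linarith [min_le_right (1 / 8) (ε / 4 / (M + 1)),
          show ε / 2 / (M + 1) = 2 * (ε / 4 / (M + 1)) by ring]
      · rw [Finset.card_range, nsmul_eq_mul, mul_div_assoc', div_le_iff₀ (by positivity)]
        nlinarith
    | succ j ih =>
      rw [show j + 1 + M = j + M + 1 by ring, Finset.sum_range_succ, pow_succ]
      have : (0 : ℝ) < (1 / 2) ^ (j + M) := by positivity
      linarith [norm_add_le (∑ m ∈ Finset.range (j + M), k • (zz m : UnitAddCircle))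
        (k • (zz (j + M) : UnitAddCircle)), b (j + M)]
  have s0 : Summable zz := zz_sum 0
  have t : Tendsto (fun n => ‖∑ m ∈ Finset.range n, k • (zz m : UnitAddCircle)‖) atTop
      (𝓝 ‖k • ((∑' m, zz m : ℝ) : UnitAddCircle)‖) := by
    have := (((AddCircle.continuous_mk' (1 : ℝ)).tendsto _).comp s0.hasSum.tendsto_sum_nat).zsmul k
    refine (continuous_norm.tendsto _).comp (this.congr fun n => ?_)
    simp [Finset.smul_sum]
  refine le_of_tendsto' ((tendsto_add_atTop_iff_nat M).2 t) fun j => (c j).trans ?_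
  have : (0 : ℝ) < (1 / 2) ^ (j + M) := by positivity
  linarith

end Pool.Agent.H25.ZTop
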