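import Pool.Agent.H25.ZTopDefs

set_option autoImplicit false
open Set Filter Topology

namespace Pool.Agent.H25.ZTop

theorem ci (n : ℤ) : ((n : ℝ) : UnitAddCircle) = 0 :=
  (AddCircle.coe_eq_zero_iff _).2 ⟨n, by simp⟩

theorem rep (x : UnitAddCircle) : ∃ r : ℝ, x = r ∧ ‖x‖ = |r| := by
  obtain ⟨r, rfl⟩ := QuotientAddGroup.mk_surjective x
  exact ⟨r - round r, by rw [AddCircle.coe_sub, ci, sub_zero], UnitAddCircle.norm_eq⟩

theorem nrm {r : ℝ} (h : |r| ≤ 1 / 2) : ‖(r : UnitAddCircle)‖ = |r| :=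
  (AddCircle.norm_coe_eq_abs_iff 1 one_ne_zero).2 (by simpa using h)

theorem nle (r : ℝ) : ‖(r : UnitAddCircle)‖ ≤ |r| := QuotientAddGroup.norm_mk_le_norm

theorem pm {a b : UnitAddCircle} (ha : ‖a‖ ≤ 1 / 4) (hb : ‖b‖ ≤ 1 / 4) :
    ‖a‖ + ‖b‖ ≤ max ‖a + b‖ ‖a - b‖ := by
  obtain ⟨r, rfl, e⟩ := rep a
  obtain ⟨s, rfl, e'⟩ := rep b
  rw [e] at ha ⊢
  rw [e'] at hb ⊢
  rw [← AddCircle.coe_add, ← AddCircle.coe_sub, nrm ((abs_add_le _ _).trans (by linarith)),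
    nrm ((abs_sub _ _).trans (by linarith))]
  grind

theorem pw {x : UnitAddCircle} (m : ℕ) (h : ∀ j < m, ‖(2 ^ j : ℤ) • x‖ ≤ 1 / 4) :
    ‖(2 ^ m : ℤ) • x‖ = 2 ^ m * ‖x‖ := by
  induction m with
  | zero => simp
  | succ m ih =>
    have h1 := pm (h m (by omega)) (h m (by omega))
    have h2 := norm_add_le ((2 ^ m : ℤ) • x) ((2 ^ m : ℤ) • x)
    rw [sub_self, norm_zero, max_eq_left (norm_nonneg _)] at h1
    rw [pow_succ, mul_two, add_zsmul, le_antisymm h2 h1, ih fun j hj => h j (by omega)]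
    ring

theorem zero {x : UnitAddCircle} (h : ∀ j : ℕ, ‖(2 ^ j : ℤ) • x‖ ≤ 1 / 4) : x = 0 := by
  by_contra e
  obtain ⟨m, hm⟩ := pow_unbounded_of_one_lt (1 / 4 / ‖x‖) (one_lt_two (α := ℝ))
  rw [div_lt_iff₀ (norm_pos_iff.2 e), ← pw m fun j _ => h j] at hm
  exact absurd (h m) (not_le.2 hm)

theorem sup (U : Set ℤ) (h0 : 0 ∈ U) (χ : ℤ →+ UnitAddCircle) (h : ∀ k ∈ U, ‖χ k‖ ≤ 1 / 4) {δ : ℝ}
    (hδ : 0 < δ) : ∃ y ∈ U, ∀ z ∈ U, y + z ∈ U → y - z ∈ U → ‖χ z‖ ≤ δ := by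
  have hb : BddAbove ((fun k => ‖χ k‖) '' U) := ⟨1 / 4, forall_mem_image.2 h⟩
  obtain ⟨_, ⟨y, y1, rfl⟩, y2⟩ := exists_lt_of_lt_csSup (Nonempty.image (fun k => ‖χ k‖) ⟨0, h0⟩)
    (sub_lt_self _ hδ)
  refine ⟨y, y1, fun z a b c => ?_⟩
  have := (pm (h y y1) (h z a)).trans (max_le (le_csSup hb ⟨_, b, congrArg norm (map_add χ y z)⟩)
    (le_csSup hb ⟨_, c, congrArg norm (map_sub χ y z)⟩))
  simp only at y2
  linarith

theorem zle (k : ℤ) (x : UnitAddCircle) : ‖k • x‖ ≤ |k| * ‖x‖ := by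
  simpa [Int.norm_eq_abs] using norm_zsmul_le k x

theorem chi (χ : ℤ →+ UnitAddCircle) (k : ℤ) : χ k = k • χ 1 := by rw [← map_zsmul]; simp

theorem unif_grp (h : ℕ → UnitAddCircle) : @IsTopologicalAddGroup ℤ (unif h) _ :=
  topologicalAddGroup_induced (AddMonoidHom.mk' (fun k : ℤ =>
    UniformFun.ofFun fun n => k • h n) fun a b => funext fun n => add_zsmul (h n) a b)

theorem unif_nhds (h : ℕ → UnitAddCircle) :
    (@nhds ℤ (unif h) 0).HasBasis (fun ε : ℝ => 0 < ε) fun ε => {k | ∀ n, ‖k • h n‖ ≤ ε} := by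
  rw [nhds_induced, show (UniformFun.ofFun fun n => (0 : ℤ) • h n) = 0 from
    funext fun n => zero_zsmul _]
  convert (UniformFun.hasBasis_nhds_zero_of_basis (α := ℕ)
    (Metric.nhds_basis_closedBall (x := (0 : UnitAddCircle)))).comap _ using 2
  simp

theorem cont {t : TopologicalSpace ℤ} (ht : @IsTopologicalAddGroup ℤ t _) (χ : ℤ →+ UnitAddCircle)
    (h : ∀ ε > 0, {k | ‖χ k‖ ≤ ε} ∈ @nhds ℤ t 0) : χ ∈ Ch t := by
  refine continuous_of_tendsto_nhds_zero χ (Metric.nhds_basis_closedBall.tendsto_right_iff.2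
    fun ε hε => ?_)
  simpa [Filter.Eventually] using h ε hε

theorem Ch.nh {t : TopologicalSpace ℤ} {χ : ℤ →+ UnitAddCircle} (h : χ ∈ Ch t) {ε : ℝ}
    (hε : 0 < ε) : {k | ‖χ k‖ ≤ ε} ∈ @nhds ℤ t 0 := by
  have := (Continuous.tendsto h 0).eventually (Metric.closedBall_mem_nhds _ hε)
  simpa [Filter.Eventually] using this

theorem unif_ch (h : ℕ → UnitAddCircle) (n : ℕ) (j : ℤ) :
    zmultiplesHom _ (j • h n) ∈ Ch (unif h) :=
  cont (unif_grp h) _ fun ε hε => (unif_nhds h).mem_iff.2 ⟨ε / (|j| + 1), by positivity,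
    fun k hk => by
      have h1 := (le_div_iff₀ (by positivity)).1 (hk n)
      have h2 := zle j (k • h n)
      rw [mem_ofPred_eq, zmultiplesHom_apply, smul_comm]
      nlinarith [norm_nonneg (k • h n)]⟩

theorem QC.mono {s t : TopologicalSpace ℤ} (h : s ≤ t) {A : Set ℤ} (hA : QC t A) : QC s A :=
  fun x hx => (hA x hx).imp fun _ a => ⟨continuous_le_dom h a.1, a.2⟩

theorem unif_lqc (h : ℕ → UnitAddCircle) : LQC (unif h) := ⟨unif_grp h, fun U hU => by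
  obtain ⟨ε, hε, h1⟩ := (unif_nhds h).mem_iff.1 hU
  obtain ⟨m, hm⟩ := pow_unbounded_of_one_lt (1 / 4 / ε) (one_lt_two (α := ℝ))
  refine ⟨{k | ∀ n, ∀ j ≤ m, ‖(2 ^ j : ℤ) • k • h n‖ ≤ 1 / 4}, (unif_nhds h).mem_iff.2
    ⟨1 / 4 / 2 ^ m, by positivity, fun k hk n j hj => (zle _ _).trans ?_⟩, fun k hk => h1 fun n => ?_,
    fun x hx => ?_⟩
  · have h2 := (le_div_iff₀ (by positivity)).1 (hk n)
    have h3 : (2 : ℝ) ^ j ≤ 2 ^ m := pow_le_pow_right₀ one_le_two hj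
    push_cast
    rw [abs_of_pos (by positivity)]
    nlinarith [norm_nonneg (k • h n)]
  · have h2 := hk n m le_rfl
    rw [pw m fun j hj => hk n j hj.le] at h2
    rw [div_lt_iff₀ hε] at hm
    have : (0 : ℝ) < 2 ^ m := by positivity
    nlinarith
  · simp only [mem_ofPred_eq, not_forall, not_le] at hx
    obtain ⟨n, j, hj, hx⟩ := hx
    exact ⟨_, unif_ch h n (2 ^ j), fun a ha => by simpa [smul_comm a] using ha n j hj,
      by simpa [smul_comm x] using hx⟩⟩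

theorem LQC.inf {s t : TopologicalSpace ℤ} (hs : LQC s) (ht : LQC t) : LQC (s ⊓ t) :=
  ⟨topologicalAddGroup_inf hs.1 ht.1, fun U hU => by
    rw [@_root_.nhds_inf ℤ s t 0] at hU ⊢
    obtain ⟨V, a, W, b, rfl⟩ := mem_inf_iff.1 hU
    obtain ⟨A, a1, a2, a3⟩ := hs.2 V a
    obtain ⟨B, b1, b2, b3⟩ := ht.2 W b
    refine ⟨A ∩ B, inter_mem_inf a1 b1, inter_subset_inter a2 b2, fun x hx => ?_⟩
    rcases not_and_or.1 hx with e | e
    · exact (a3.mono inf_le_left x e).imp fun _ c => ⟨c.1, fun a ha => c.2.1 a ha.1, c.2.2⟩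
    · exact (b3.mono inf_le_right x e).imp fun _ c => ⟨c.1, fun a ha => c.2.1 a ha.2, c.2.2⟩⟩

end Pool.Agent.H25.ZTop
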