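import Mathlib

set_option autoImplicit false
open Set Filter Topology

namespace Pool.Agent.H25.ZTop

/-- the continuous characters of `ℤ` with the topology `t` -/
def Ch (t : TopologicalSpace ℤ) : Set (ℤ →+ UnitAddCircle) := {χ | Continuous[t, inferInstance] χ}

/-- quasi-convex subsets -/
def QC (t : TopologicalSpace ℤ) (A : Set ℤ) : Prop :=
  ∀ x ∉ A, ∃ χ ∈ Ch t, (∀ a ∈ A, ‖χ a‖ ≤ 1 / 4) ∧ 1 / 4 < ‖χ x‖

/-- locally quasi-convex group topologies -/
def LQC (t : TopologicalSpace ℤ) : Prop :=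
  @IsTopologicalAddGroup ℤ t _ ∧ ∀ U ∈ @nhds ℤ t 0, ∃ A ∈ @nhds ℤ t 0, A ⊆ U ∧ QC t A

/-- precompact: finitely many translates of each neighbourhood of `0` cover the group -/
def Prec (t : TopologicalSpace ℤ) : Prop :=
  ∀ U ∈ @nhds ℤ t 0, ∃ F : Set ℤ, F.Finite ∧ ∀ k, ∃ g ∈ F, k - g ∈ U

/-- Mackey: finer than every compatible Hausdorff locally quasi-convex group topology -/
def Mackey (t : TopologicalSpace ℤ) : Prop :=
  LQC t ∧ ∀ s, LQC s → @T2Space ℤ s → Ch s = Ch t → ∀ U, IsOpen[s] U → IsOpen[t] U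

/-- the topology of uniform convergence on the characters `k ↦ k • h n` -/
@[reducible] noncomputable def unif (h : ℕ → UnitAddCircle) : TopologicalSpace ℤ :=
  TopologicalSpace.induced (fun k : ℤ => UniformFun.ofFun fun n => k • h n) inferInstance

/-- D-sequences -/
def IsD (b : ℕ → ℕ) : Prop := b 0 = 1 ∧ ∀ n, 0 < b n ∧ b n ∣ b (n + 1) ∧ b n ≠ b (n + 1)

/-- D-sequences with ratios tending to infinity -/
def IsDinf (b : ℕ → ℕ) : Prop := IsD b ∧ Tendsto (fun n => b (n + 1) / b n) atTop atTop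

/-- the linear topology with base `b n ℤ` -/
@[reducible] def lam (b : ℕ → ℕ) : TopologicalSpace ℤ :=
  ⨅ n, TopologicalSpace.induced (fun k : ℤ => (k : ZMod (b n))) ⊥

/-- uniform convergence on the points `1 / c n`, `n ≥ 1` -/
@[reducible] noncomputable def tau (c : ℕ → ℕ) : TopologicalSpace ℤ :=
  unif fun n => ((1 / c (n + 1) : ℝ) : UnitAddCircle)

/-- the supremum of the topologies `tau c` -/
@[reducible] noncomputable def sb (b : ℕ → ℕ) : TopologicalSpace ℤ :=
  ⨅ c : {c // IsDinf c ∧ lam c = lam b}, tau c.1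

/-- the characters with value `k / b n` at `1` -/
def Hb (b : ℕ → ℕ) : Set (ℤ →+ UnitAddCircle) :=
  {χ | ∃ (k : ℤ) (n : ℕ), χ 1 = ((k / b n : ℝ) : UnitAddCircle)}

end Pool.Agent.H25.ZTop
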