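import Pool.Agent.H25.ZSup

set_option autoImplicit false
open Set Filter Topology

namespace Pool.Agent.H25.ZTop

def Adm (S : Set ℕ) : Prop :=
  ∀ G, ∃ D, ∀ e, ∃ e', e ≤ e' ∧ e' ≤ e + D ∧ ∀ s ∈ S, s ≤ e' ∨ e' + G ≤ s

theorem Adm.union {S T : Set ℕ} (hS : Adm S) (hT : Adm T) : Adm (S ∪ T) := fun G => by
  obtain ⟨D, hD⟩ := hT G
  obtain ⟨D', hD'⟩ := hS (G + D)
  refine ⟨D' + D, fun e => ?_⟩
  obtain ⟨e1, a1, a2, a3⟩ := hD' e
  obtain ⟨e2, b1, b2, b3⟩ := hD e1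
  refine ⟨e2, by omega, by omega, fun s hs => hs.elim (fun h => ?_) (b3 s)⟩
  have := a3 s h
  omega

theorem adm_range (a : ℕ → ℕ) (h : Monotone a) (h' : ∀ G, ∃ N, ∀ n ≥ N, a n + G ≤ a (n + 1)) :
    Adm (range a) := fun G => by
  obtain ⟨N, hN⟩ := h' G
  refine ⟨a N + G, fun e => ?_⟩
  by_cases c : ∀ s ∈ range a, s ≤ max e (a N) ∨ max e (a N) + G ≤ s
  · exact ⟨_, le_max_left _ _, by omega, c⟩
  simp only [not_forall, not_or, not_le] at c
  obtain ⟨_, ⟨n, rfl⟩, c1, c2⟩ := c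
  have hn : N ≤ n := by
    by_contra hn
    have := h (not_le.1 hn).le
    omega
  refine ⟨a n, by omega, by omega, ?_⟩
  rintro _ ⟨l, rfl⟩
  rcases le_or_gt l n with e | e
  · exact .inl (h e)
  · exact .inr ((hN n hn).trans (h e))

noncomputable def hh (F : Finset ℕ) : UnitAddCircle := ((∑ s ∈ F, (1 / 2) ^ s : ℝ) : UnitAddCircle)

theorem key (e : ℕ) (F : Finset ℕ) : (2 ^ e : ℤ) • hh F =
    ((2 ^ e * ∑ s ∈ F.filter (e < ·), (1 / 2) ^ s : ℝ) : UnitAddCircle) := by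
  rw [hh, ← AddCircle.coe_zsmul, ← Finset.sum_filter_add_sum_filter_not F (e < ·), zsmul_eq_mul,
    mul_add, AddCircle.coe_add]
  have : ((2 ^ e : ℤ) : ℝ) * ∑ s ∈ F.filter (¬ e < ·), (1 / 2) ^ s =
      ((∑ s ∈ F.filter (¬ e < ·), 2 ^ (e - s) : ℤ) : ℝ) := by
    rw [Finset.mul_sum, Int.cast_sum]
    refine Finset.sum_congr rfl fun s hs => ?_
    obtain ⟨d, rfl⟩ := Nat.exists_eq_add_of_le (not_lt.1 (Finset.mem_filter.1 hs).2)
    rw [Nat.add_sub_cancel_left, one_div_pow]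
    push_cast
    field_simp
    ring
  rw [this, ci, add_zero]
  norm_cast

theorem geo (e G : ℕ) (F : Finset ℕ) (h : ∀ s ∈ F, e + G ≤ s) :
    (2 : ℝ) ^ e * ∑ s ∈ F, (1 / 2) ^ s ≤ 2 * (1 / 2) ^ G := by
  have h1 : ∑ s ∈ F, (1 / 2 : ℝ) ^ s ≤ ∑ s ∈ Finset.Ico (e + G) (F.sup id + 1), (1 / 2) ^ s :=
    Finset.sum_le_sum_of_subset_of_nonneg (fun s hs => Finset.mem_Ico.2
      ⟨h s hs, Nat.lt_succ_of_le (Finset.le_sup (f := id) hs)⟩) fun _ _ _ => by positivity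
  have h2 := h1.trans (geom_sum_Ico_le_of_lt_one (by norm_num) (by norm_num))
  refine (mul_le_mul_of_nonneg_left h2 (by positivity)).trans_eq ?_
  rw [pow_add, one_div_pow]
  field_simp
  norm_num

theorem win (e G : ℕ) (F : Finset ℕ) (h : ∀ s ∈ F, s ≤ e ∨ e + G ≤ s) :
    ‖(2 ^ e : ℤ) • hh F‖ ≤ 2 * (1 / 2) ^ G := by
  rw [key]
  refine (nle _).trans ?_
  rw [abs_of_nonneg (by positivity)]
  refine geo e G _ fun s hs => ?_
  have := Finset.mem_filter.1 hs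
  have := h s this.1
  omega

theorem kill (e : ℕ) (F : Finset ℕ) (h : ∀ s ∈ F, s ≤ e) : (2 ^ e : ℤ) • hh F = 0 := by
  rw [key, Finset.filter_eq_empty_iff.2 fun s hs => not_lt.2 (h s hs)]
  simp

theorem comp {S : Set ℕ} (hS : Adm S) (A : Set (Finset ℕ)) (h1 : ∀ F ∈ A, ∀ s ∈ F, s ∈ S)
    (h2 : ∀ E, ∃ E', ∀ F ∈ A, (∀ s ∈ F, E ≤ s) ∨ ∀ s ∈ F, s ≤ E') {ε : ℝ} (hε : 0 < ε)
    (ψ : ℤ →+ UnitAddCircle) (h : ∀ k : ℤ, (∀ F ∈ A, ‖k • hh F‖ ≤ ε) → ‖ψ k‖ ≤ 1 / 4) :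
    ∃ e : ℕ, ψ (2 ^ e) = 0 := by
  obtain ⟨G, hG⟩ := exists_pow_lt_of_lt_one (show 0 < ε / 4 by positivity)
    (one_half_lt_one (α := ℝ))
  obtain ⟨D, hD⟩ := hS G
  obtain ⟨y, y1, y2⟩ := sup {k | ∀ F ∈ A, ‖k • hh F‖ ≤ ε} (fun F _ => by simpa using hε.le) ψ h
    (δ := 1 / 4 / 2 ^ D) (by positivity)
  obtain ⟨E, hE⟩ := exists_pow_lt_of_lt_one (show 0 < ε / 4 / (|(y : ℝ)| + 1) by positivity)
    (one_half_lt_one (α := ℝ))
  obtain ⟨E', hE'⟩ := h2 E
  refine ⟨E' + D, zero fun j => ?_⟩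
  obtain ⟨e, e1, e2, e3⟩ := hD (E' + j)
  have a : ∀ F ∈ A, ‖(2 ^ e : ℤ) • hh F‖ ≤ ε / 2 := fun F hF => by
    linarith [win e G F fun s hs => e3 s (h1 F hF s hs)]
  have b : ∀ F ∈ A, ‖y • hh F‖ + ‖(2 ^ e : ℤ) • hh F‖ ≤ ε := fun F hF => by
    rcases hE' F hF with c | c
    · have c1 := win 0 E F fun s hs => .inr (by simpa using c s hs)
      have c2 := zle y (hh F)
      rw [pow_zero, one_smul] at c1
      rw [lt_div_iff₀ (by positivity)] at hE
      rw [Int.cast_abs] at c2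
      have : (0 : ℝ) < (1 / 2) ^ E := by positivity
      nlinarith [a F hF, abs_nonneg (y : ℝ)]
    · rw [kill e F fun s hs => by have := c s hs; omega, norm_zero, add_zero]
      exact y1 F hF
  have c := y2 (2 ^ e) (fun F hF => by linarith [a F hF])
    (fun F hF => by rw [add_zsmul]; exact (norm_add_le _ _).trans (b F hF))
    fun F hF => by rw [sub_zsmul]; exact (norm_sub_le _ _).trans (b F hF)
  obtain ⟨d, hd⟩ := Nat.exists_eq_add_of_le e2
  rw [← map_zsmul, smul_eq_mul, ← pow_add, show j + (E' + D) = d + e by omega, pow_add,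
    ← smul_eq_mul, map_zsmul]
  refine (zle _ _).trans ?_
  have f : (2 : ℝ) ^ d ≤ 2 ^ D := pow_le_pow_right₀ one_le_two (by omega)
  rw [le_div_iff₀ (by positivity)] at c
  push_cast
  rw [abs_of_pos (by positivity)]
  nlinarith [norm_nonneg (ψ (2 ^ e))]

def bb (n : ℕ) : ℕ := 2 ^ (n * n)

theorem bb_dinf : IsDinf bb := by
  have e : ∀ n, bb (n + 1) = bb n * 2 ^ (2 * n + 1) := fun n => by
    rw [bb, bb, ← pow_add]; ring_nf
  have p : ∀ n, 0 < bb n := fun n => pow_pos two_pos _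
  refine ⟨⟨rfl, fun n => ⟨p n, ⟨_, e n⟩, ?_⟩⟩, tendsto_atTop_mono (fun n => ?_) tendsto_id⟩
  · have := p n
    have := Nat.lt_two_pow_self (n := 2 * n + 1)
    rw [e]
    nlinarith
  · have := Nat.lt_two_pow_self (n := 2 * n + 1)
    rw [e, Nat.mul_div_cancel_left _ (p n), id]
    omega

theorem mem_Hb {ψ : ℤ →+ UnitAddCircle} {e : ℕ} (h : ψ (2 ^ e) = 0) : ψ ∈ Hb bb := by
  obtain ⟨d, hd⟩ := Nat.exists_eq_add_of_le' (Nat.le_mul_self e)
  have h1 : ψ (bb e) = 0 := by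
    rw [bb, hd]
    push_cast
    rw [pow_add, ← smul_eq_mul, map_zsmul, h, smul_zero]
  obtain ⟨r, r1, -⟩ := rep (ψ 1)
  rw [chi, r1, ← AddCircle.coe_zsmul, AddCircle.coe_eq_zero_iff] at h1
  obtain ⟨k, hk⟩ := h1
  refine ⟨k, e, ?_⟩
  have : (bb e : ℝ) ≠ 0 := by exact_mod_cast (bb_dinf.1.2 e).1.ne'
  simp only [zsmul_eq_mul, mul_one, Int.cast_natCast] at hk
  rw [r1, hk, mul_div_cancel_left₀ _ this]

theorem Hb_sub : Hb bb ⊆ Ch (tau bb) := by
  rintro χ ⟨k, n, h⟩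
  obtain ⟨d, hd⟩ := (bb_dinf.1.2 n).2.1
  have p : (bb (n + 1) : ℝ) ≠ 0 := by exact_mod_cast (bb_dinf.1.2 _).1.ne'
  have : χ = zmultiplesHom _ ((k * d : ℤ) • ((1 / bb (n + 1) : ℝ) : UnitAddCircle)) := by
    refine AddMonoidHom.ext_int ?_
    rw [zmultiplesHom_apply, one_smul, h, ← AddCircle.coe_zsmul, zsmul_eq_mul]
    rw [hd] at p ⊢
    push_cast at p ⊢
    have := left_ne_zero_of_mul p
    have := right_ne_zero_of_mul p
    exact congrArg _ (by field_simp)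
  rw [this]
  exact unif_ch (fun n => ((1 / bb (n + 1) : ℝ) : UnitAddCircle)) n _

theorem lam_nhds (b : ℕ → ℕ) :
    @nhds ℤ (lam b) 0 = ⨅ n, 𝓟 {k : ℤ | (b n : ℤ) ∣ k} := by
  rw [lam, nhds_iInf]
  refine iInf_congr fun n => ?_
  rw [@nhds_induced _ _ ⊥, @nhds_discrete _ ⊥ ⟨rfl⟩, comap_pure]
  refine congrArg _ (Set.ext fun k => ?_)
  simp [ZMod.intCast_zmod_eq_zero_iff_dvd]

theorem pow_two {c : ℕ → ℕ} (h : lam c = lam bb) (n : ℕ) : ∃ a, c n = 2 ^ a := by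
  have h1 : {k : ℤ | (c n : ℤ) ∣ k} ∈ @nhds ℤ (lam c) 0 := by
    rw [lam_nhds]
    exact mem_iInf_of_mem n (mem_principal_self _)
  have m : ∀ {i j}, i ≤ j → {k : ℤ | (bb j : ℤ) ∣ k} ⊆ {k : ℤ | (bb i : ℤ) ∣ k} := fun e k hk =>
    (Int.natCast_dvd_natCast.2 (pow_dvd_pow 2 (Nat.mul_le_mul e e))).trans hk
  rw [h, lam_nhds, (hasBasis_iInf_principal fun i j =>
    ⟨max i j, m (le_max_left _ _), m (le_max_right _ _)⟩).mem_iff] at h1
  obtain ⟨l, -, hl⟩ := h1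
  obtain ⟨a, -, ha⟩ := (Nat.dvd_prime_pow Nat.prime_two).1
    (Int.natCast_dvd_natCast.1 (hl (show (bb l : ℤ) ∈ _ from dvd_rfl)))
  exact ⟨a, ha⟩

def fl : Filter ℤ where
  sets := {U | ∃ S, Adm S ∧ ∃ ε > 0, {k : ℤ | ∀ s ∈ S, ‖k • hh {s}‖ ≤ ε} ⊆ U}
  univ_sets := ⟨∅, fun _ => ⟨0, fun e => ⟨e, le_rfl, le_rfl, by simp⟩⟩, 1, one_pos, subset_univ _⟩
  sets_of_superset := fun ⟨S, a, ε, b, c⟩ h => ⟨S, a, ε, b, c.trans h⟩
  inter_sets := fun ⟨S, a, ε, b, c⟩ ⟨T, a', ε', b', c'⟩ => ⟨_, a.union a', _, lt_min b b',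
    fun _ hk => ⟨c fun s hs => (hk s (.inl hs)).trans (min_le_left _ _),
      c' fun s hs => (hk s (.inr hs)).trans (min_le_right _ _)⟩⟩

theorem hh_one (a : ℕ) : ((1 / (2 ^ a : ℕ) : ℝ) : UnitAddCircle) = hh {a} := by
  simp [hh]

theorem fl_le : fl ≤ @nhds ℤ (sb bb) 0 := by
  rw [sb, nhds_iInf]
  refine le_iInf fun ⟨c, ⟨c1, c2⟩, c3⟩ U hU => ?_
  obtain ⟨ε, hε, h⟩ := (unif_nhds _).mem_iff.1 hU
  choose a ha using pow_two c3
  have m : ∀ n, a n ≤ a (n + 1) := fun n => by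
    have := (c1.2 n).2.1
    rwa [ha, ha, pow_dvd_pow_iff two_ne_zero (by simp)] at this
  refine ⟨_, adm_range a (monotone_nat_of_le_succ m) fun G => ?_, ε, hε, fun k hk => h fun n => ?_⟩
  · refine (eventually_atTop.1 (c2.eventually_ge_atTop (2 ^ G))).imp fun N hN n hn => ?_
    have := hN n hn
    have := m n
    rw [ha, ha, Nat.pow_div (m n) two_pos, Nat.pow_le_pow_iff_right one_lt_two] at *
    omega
  · simp only [ha, hh_one]
    exact hk _ ⟨_, rfl⟩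

theorem ch_sb : Ch (sb bb) = Hb bb := by
  refine Subset.antisymm (fun ψ hψ => ?_) fun ψ hψ => continuous_le_dom
    (iInf_le (fun c : {c // IsDinf c ∧ lam c = lam bb} => tau c.1) ⟨bb, bb_dinf, rfl⟩) (Hb_sub hψ)
  obtain ⟨S, a, ε, b, c⟩ := fl_le (Ch.nh hψ (ε := 1 / 4) (by norm_num))
  obtain ⟨e, he⟩ := comp a ((fun s => {s}) '' S) (by simp) (fun E => ⟨E, by
    rintro _ ⟨s, -, rfl⟩
    simpa using le_total _ _⟩) b ψ fun k hk => c fun s hs => hk _ ⟨s, hs, rfl⟩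
  exact mem_Hb he

def FF (n : ℕ) : Finset ℕ := (Finset.Ico n (2 * n)).image fun j => j * j

noncomputable def ss : TopologicalSpace ℤ := unif (fun n => hh (FF n)) ⊓ tau bb

theorem ss_lqc : LQC ss := (unif_lqc _).inf (unif_lqc _)

theorem ch_ss : Ch ss = Hb bb := by
  refine Subset.antisymm (fun ψ hψ => ?_) fun ψ hψ => continuous_le_dom inf_le_right (Hb_sub hψ)
  have h1 := Ch.nh hψ (ε := 1 / 4) (by norm_num)
  rw [ss, @_root_.nhds_inf ℤ (unif _) (tau bb) 0] at h1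
  obtain ⟨V, v1, W, w1, h1⟩ := mem_inf_iff.1 h1
  obtain ⟨ε, hε, v2⟩ := (unif_nhds _).mem_iff.1 v1
  obtain ⟨ε', hε', w2⟩ := (unif_nhds _).mem_iff.1 w1
  obtain ⟨e, he⟩ := comp (adm_range (fun j => j * j) (fun i j h => Nat.mul_le_mul h h)
    fun G => ⟨G, fun n hn => by nlinarith⟩) (range FF ∪ range fun j => {j * j}) (by
      rintro _ (⟨n, rfl⟩ | ⟨n, rfl⟩) s hs
      · obtain ⟨j, -, rfl⟩ := Finset.mem_image.1 hs
        exact ⟨j, rfl⟩
      · exact ⟨n, (Finset.mem_singleton.1 hs).symm⟩) (fun E => ⟨2 * E * (2 * E) + E, by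
      rintro _ (⟨n, rfl⟩ | ⟨n, rfl⟩)
      · rcases le_total E n with h | h
        · refine .inl fun s hs => ?_
          obtain ⟨j, hj, rfl⟩ := Finset.mem_image.1 hs
          exact h.trans ((Finset.mem_Ico.1 hj).1.trans (Nat.le_mul_self j))
        · refine .inr fun s hs => ?_
          obtain ⟨j, hj, rfl⟩ := Finset.mem_image.1 hs
          have := (Finset.mem_Ico.1 hj).2
          nlinarith
      · simp only [Finset.mem_singleton, forall_eq]
        omega⟩) (lt_min hε hε') ψ fun k hk => h1.ge ⟨v2 fun n =>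
      (hk _ (.inl ⟨n, rfl⟩)).trans (min_le_left _ _), w2 fun n => by
        simp only [bb, hh_one]
        exact (hk _ (.inr ⟨_, rfl⟩)).trans (min_le_right _ _)⟩
  exact mem_Hb he

theorem not_le_ss : ¬ sb bb ≤ ss := fun h => by
  obtain ⟨S, a, ε, b, c⟩ := fl_le (nhds_mono (h.trans inf_le_left)
    ((unif_nhds _).mem_of_mem (show (0 : ℝ) < 1 / 8 by norm_num)))
  obtain ⟨G, hG⟩ := exists_pow_lt_of_lt_one (half_pos b) (one_half_lt_one (α := ℝ))
  obtain ⟨D, hD⟩ := a G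
  let n := 2 ^ (D + 4)
  have n1 : D + 4 < n := Nat.lt_two_pow_self
  have main : ∀ m ≤ n, ∃ (K : ℕ) (R : ℝ), K * 2 ^ (D + 4) ≤ 2 ^ ((n + m) * (n + m)) ∧
      (∀ s ∈ S, ‖(K : ℤ) • hh {s}‖ ≤ ε) ∧ (K : ℤ) • hh (FF n) = R ∧ m / n ≤ R ∧ R ≤ 1 / 8 := by
    intro m
    induction m with
    | zero => exact fun _ => ⟨0, 0, by simp, fun s _ => by simpa using b.le, by simp, by simp,
        by norm_num⟩
    | succ m ih =>
      intro hm
      obtain ⟨K, R, k1, k2, k3, k4, k5⟩ := ih (by omega)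
      obtain ⟨p, hp⟩ := Nat.exists_eq_add_of_le' (show D + 4 + (2 * (n + m) - (D + 5)) ≤
        (n + m) * (n + m) by
          have : 2 * (n + m) ≤ (n + m) * (n + m) := Nat.mul_le_mul_right _ (by omega)
          omega)
      obtain ⟨e, e1, e2, e3⟩ := hD (p + (2 * (n + m) - (D + 5)))
      have k6 : K ≤ 2 ^ e := by
        refine le_trans ?_ (Nat.pow_le_pow_right two_pos e1)
        refine Nat.le_of_mul_le_mul_right (k1.trans_eq ?_) (pow_pos two_pos (D + 4))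
        rw [← pow_add, hp]
        ring_nf
      have u : ∀ s ∈ S, ‖((K + 2 ^ e : ℕ) : ℤ) • hh {s}‖ ≤ ε := fun s hs => by
        rcases e3 s hs with f | f
        · push_cast
          rw [add_zsmul, kill e {s} (by simpa using f), add_zero]
          exact k2 s hs
        · have g1 := geo e G {s} (by simpa using f)
          have g2 := zle ((K + 2 ^ e : ℕ) : ℤ) (hh {s})
          have g3 := nle (∑ s ∈ {s}, (1 / 2) ^ s)
          have g4 : (K : ℝ) ≤ 2 ^ e := by exact_mod_cast k6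
          have g5 : (2 : ℝ) ^ e * (1 / 2) ^ s ≤ (1 / 2) ^ G := by
            obtain ⟨d, rfl⟩ := Nat.exists_eq_add_of_le f
            rw [pow_add, pow_add, ← mul_assoc, ← mul_assoc, ← mul_pow]
            have : (1 / 2 : ℝ) ^ d ≤ 1 := pow_le_one₀ (by norm_num) (by norm_num)
            have : (0 : ℝ) < (1 / 2) ^ G := by positivity
            norm_num
            nlinarith
          rw [← hh, Finset.sum_singleton, abs_of_pos (by positivity)] at g3
          rw [abs_of_nonneg (Int.natCast_nonneg _)] at g2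
          push_cast at g2 ⊢
          have := mul_le_mul (add_le_add_left g4 (2 ^ e)) g3 (norm_nonneg _) (by positivity)
          nlinarith
      have r1 := geo e 4 ((FF n).filter (e < ·)) fun s hs => by
        obtain ⟨s1, s2⟩ := Finset.mem_filter.1 hs
        obtain ⟨j, -, rfl⟩ := Finset.mem_image.1 s1
        rcases le_or_gt (n + m) j with f | f
        · have := Nat.mul_le_mul f f
          omega
        · have f' : j + 1 ≤ n + m := f
          have := Nat.mul_le_mul f' f'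
          obtain ⟨d, hd⟩ := Nat.exists_eq_add_of_le f'
          have : j * j + 2 * (n + m) ≤ (n + m) * (n + m) + 1 := by rw [hd]; nlinarith
          omega
      have r2 : (1 : ℝ) / n ≤ 2 ^ e * ∑ s ∈ (FF n).filter (e < ·), (1 / 2) ^ s := by
        refine le_trans ?_ (mul_le_mul_of_nonneg_left (Finset.single_le_sum
          (a := (n + m) * (n + m)) (fun _ _ => by positivity) (Finset.mem_filter.2
            ⟨Finset.mem_image.2 ⟨n + m, Finset.mem_Ico.2 ⟨by omega, by omega⟩, rfl⟩, by omega⟩))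
          (by positivity))
        rw [one_div_pow, mul_one_div, div_le_div_iff₀ (by positivity) (by positivity), one_mul]
        simp only [n]
        push_cast
        rw [← pow_add]
        exact pow_le_pow_right₀ one_le_two (by simp only [n] at *; omega)
      have r3 : ((K + 2 ^ e : ℕ) : ℤ) • hh (FF n) =
          ((R + 2 ^ e * ∑ s ∈ (FF n).filter (e < ·), (1 / 2) ^ s : ℝ) : UnitAddCircle) := by
        push_cast
        rw [add_zsmul, k3, key, AddCircle.coe_add]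
      have r4 : (0 : ℝ) ≤ m / n := by positivity
      have r5 : (0 : ℝ) ≤ 1 / n := by positivity
      refine ⟨K + 2 ^ e, _, ?_, u, r3, by push_cast; rw [add_div]; linarith, ?_⟩
      · refine (Nat.mul_le_mul_right _ (show K + 2 ^ e ≤ 2 ^ (e + 1) by omega)).trans ?_
        rw [← pow_add]
        refine Nat.pow_le_pow_right two_pos ?_
        have : (n + (m + 1)) * (n + (m + 1)) = (n + m) * (n + m) + 2 * (n + m) + 1 := by ring
        omega
      · have := c u n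
        rw [r3, nrm (by rw [abs_of_nonneg (by linarith)]; linarith)] at this
        exact (le_abs_self _).trans this
  obtain ⟨K, R, -, -, -, k4, k5⟩ := main n le_rfl
  rw [div_self (by positivity)] at k4
  linarith

end Pool.Agent.H25.ZTop
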